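import Mathlib

set_option autoImplicit false

namespace Pool.Agent.H90.AseDefs

open Filter Topology

variable {𝕜 X Y : Type*} [RCLike 𝕜] [NormedAddCommGroup X] [NormedSpace 𝕜 X]
  [NormedAddCommGroup Y] [NormedSpace 𝕜 Y]

/-- `T` is absolutely strongly exposing. -/
def ASE (T : X →L[𝕜] Y) : Prop :=
  ∃ x₀ : X, ‖x₀‖ = 1 ∧ ∀ x : ℕ → X, (∀ n, ‖x n‖ ≤ 1) →
    Tendsto (fun n => ‖T (x n)‖) atTop (𝓝 ‖T‖) →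
      ∃ (σ : ℕ → ℕ) (l : 𝕜), StrictMono σ ∧ ‖l‖ = 1 ∧ Tendsto (fun n => x (σ n)) atTop (𝓝 (l • x₀))

/-- `T` is range strongly exposing. -/
def RSE (T : X →L[𝕜] Y) : Prop :=
  ∃ x₀ : X, ‖x₀‖ = 1 ∧ ∀ x : ℕ → X, (∀ n, ‖x n‖ ≤ 1) →
    Tendsto (fun n => ‖T (x n)‖) atTop (𝓝 ‖T‖) →
      ∃ (σ : ℕ → ℕ) (l : 𝕜), StrictMono σ ∧ ‖l‖ = 1 ∧
        Tendsto (fun n => T (x (σ n))) atTop (𝓝 (l • T x₀))

/-- The Bishop-Phelps-Bollobas property inside a class `A` of operators, with approximating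
operators taken in `A` and satisfying `P`. -/
def BPBIn (A P : (X →L[𝕜] Y) → Prop) : Prop :=
  ∀ ε : ℝ, 0 < ε → ∃ η : ℝ, 0 < η ∧ η < ε ∧ ∀ (T : X →L[𝕜] Y) (x : X),
    A T → ‖T‖ = 1 → ‖x‖ = 1 → 1 - η < ‖T x‖ →
      ∃ (S : X →L[𝕜] Y) (x₀ : X), A S ∧ P S ∧ ‖x₀‖ = 1 ∧ ‖S‖ = 1 ∧ ‖S x₀‖ = 1 ∧
        ‖S - T‖ < ε ∧ ‖x - x₀‖ < ε

variable (𝕜 X Y)

/-- The pair `(X,Y)` has the BPBp-ASE. -/
def BPBpASE : Prop := BPBIn (fun _ : X →L[𝕜] Y => True) ASE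

/-- The pair `(X,Y)` has the BPBp-RSE. -/
def BPBpRSE : Prop := BPBIn (fun _ : X →L[𝕜] Y => True) RSE

/-- The space `K(X,Y)` of compact operators has the BPBp-RSE. -/
def CompactBPBpRSE : Prop := BPBIn (fun T : X →L[𝕜] Y => IsCompactOperator T) RSE

end Pool.Agent.H90.AseDefs
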