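import Pool.Agent.H90.AseDefs

set_option autoImplicit false

namespace Pool.Agent.H90.AseLocal

open Set Metric Filter Topology Pool.Agent.H90.AseDefs

variable {𝕜 : Type} [RCLike 𝕜] {X : Type} [NormedAddCommGroup X] [NormedSpace 𝕜 X]

lemma exists_rot (a : 𝕜) : ∃ l : 𝕜, ‖l‖ = 1 ∧ l * a = (‖a‖ : ℝ) := by
  by_cases h : a = 0
  · exact ⟨1, norm_one, by simp [h]⟩
  · refine ⟨(‖a‖ : ℝ) / a, ?_, div_mul_cancel₀ _ h⟩
    rw [norm_div, RCLike.norm_ofReal, abs_norm, div_self (norm_ne_zero_iff.2 h)]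

lemma norm_le_of_re {g : StrongDual 𝕜 X} {c : ℝ} (h : ∀ x, ‖x‖ ≤ 1 → RCLike.re (g x) ≤ c) :
    ‖g‖ ≤ c := by
  refine ContinuousLinearMap.opNorm_le_of_unit_norm (by simpa using h 0) fun x hx => ?_
  obtain ⟨l, h1, h2⟩ := exists_rot (g x)
  have := h (l • x) (by rw [norm_smul, h1, hx, one_mul])
  rwa [map_smul, smul_eq_mul, h2, RCLike.ofReal_re] at this

variable (𝕜) in
def Exposed (v : X) : Prop :=
  ∃ g : StrongDual 𝕜 X, ‖g‖ ≤ 1 ∧ g v = 1 ∧ ∀ x, ‖x‖ ≤ 1 → g x = 1 → x = v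

variable (𝕜) in
def LC (x₀ : X) : Prop :=
  ∀ ε : ℝ, 0 < ε → ∃ η : ℝ, 0 < η ∧ ∀ f : StrongDual 𝕜 X, ‖f‖ ≤ 1 → 1 - η < RCLike.re (f x₀) →
    ∃ (φ : StrongDual 𝕜 X) (u : X), ‖φ‖ ≤ ε ∧ ‖u‖ ≤ 1 ∧ ∀ x, ‖x‖ = 1 →
      RCLike.re (f u + φ u) ≤ 1 + RCLike.re (φ x) → ‖x - x₀‖ < ε ∧ Exposed 𝕜 x

variable [FiniteDimensional 𝕜 X]

lemma lc_of_exposed {x₀ : X} (hx : ‖x₀‖ = 1) (h : ∀ᶠ x in 𝓝 x₀, ‖x‖ = 1 → Exposed 𝕜 x) :
    LC 𝕜 x₀ := by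
  have : ProperSpace X := FiniteDimensional.proper_rclike 𝕜 X
  obtain ⟨g, g1, g2, g3⟩ := h.self_of_nhds hx
  obtain ⟨r, hr, hb⟩ := Metric.eventually_nhds_iff.1 h
  intro ε hε
  have hK : IsCompact (closedBall (0 : X) 1 ∩ {x | min ε r ≤ ‖x - x₀‖}) :=
    (isCompact_closedBall _ _).inter_right (isClosed_le continuous_const (by fun_prop))
  obtain ⟨κ, hκ, hk⟩ := hK.exists_forall_le' (f := fun x => 1 - RCLike.re (g x)) (a := 0)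
    (by fun_prop) fun x hx => by
      have h1 : ‖x‖ ≤ 1 := mem_closedBall_zero_iff.1 hx.1
      have h2 : ‖g x‖ ≤ 1 := (g.unit_le_opNorm x h1).trans g1
      have h3 := RCLike.re_le_norm (g x)
      refine sub_pos.2 (lt_of_le_of_ne (h3.trans h2) fun e => ?_)
      have h4 : g x = 1 := by
        have := (RCLike.re_eq_self_of_le (a := g x) (by linarith)).symm
        rw [this, e, RCLike.ofReal_one]
      have h5 := hx.2
      rw [mem_ofPred_eq, g3 x h1 h4, sub_self, norm_zero] at h5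
      exact absurd h5 (not_le.2 (lt_min hε hr))
  refine ⟨ε * κ, by positivity, fun f _ hf => ⟨((ε : ℝ) : 𝕜) • g, x₀, ?_, hx.le, fun x h1 h2 => ?_⟩⟩
  · rw [norm_smul, RCLike.norm_ofReal, abs_of_pos hε]
    exact mul_le_of_le_one_right hε.le g1
  · simp only [smul_apply, g2, smul_eq_mul, mul_one, map_add, RCLike.ofReal_re,
      RCLike.re_ofReal_mul] at h2
    have h3 : ‖x - x₀‖ < min ε r := by
      by_contra hc
      have := hk x ⟨mem_closedBall_zero_iff.2 h1.le, not_lt.1 hc⟩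
      nlinarith
    exact ⟨h3.trans_le (min_le_left _ _),
      hb (by rw [dist_eq_norm]; exact h3.trans_le (min_le_right _ _)) h1⟩

variable {Y : Type*} [NormedAddCommGroup Y] [NormedSpace 𝕜 Y]

lemma exists_max (S : X →L[𝕜] Y) {x₀ : X} (hx : ‖x₀‖ = 1) : ∃ v, ‖v‖ = 1 ∧ ‖S v‖ = ‖S‖ := by
  have : ProperSpace X := FiniteDimensional.proper_rclike 𝕜 X
  obtain ⟨v, hv, hm⟩ := (isCompact_sphere (0 : X) 1).exists_isMaxOn
    ⟨x₀, mem_sphere_zero_iff_norm.2 hx⟩ (f := fun v => ‖S v‖) (by fun_prop)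
  rw [mem_sphere_zero_iff_norm] at hv
  refine ⟨v, hv, le_antisymm (S.unit_le_opNorm v hv.le) ?_⟩
  exact ContinuousLinearMap.opNorm_le_of_unit_norm (norm_nonneg _) fun u hu =>
    hm (mem_sphere_zero_iff_norm.2 hu)

lemma ase_of_unique (S : X →L[𝕜] Y) {v : X} (hv : ‖v‖ = 1)
    (h : ∀ x, ‖x‖ ≤ 1 → ‖S x‖ = ‖S‖ → ∃ l : 𝕜, ‖l‖ = 1 ∧ x = l • v) : ASE S := by
  have : ProperSpace X := FiniteDimensional.proper_rclike 𝕜 X
  refine ⟨v, hv, fun x h1 h2 => ?_⟩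
  obtain ⟨w, hw, σ, hσ, ht⟩ := (isCompact_closedBall (0 : X) 1).tendsto_subseq
    fun n => mem_closedBall_zero_iff.2 (h1 n)
  obtain ⟨l, l1, l2⟩ := h w (mem_closedBall_zero_iff.1 hw) (tendsto_nhds_unique
    ((S.continuous.tendsto w).comp ht).norm (h2.comp hσ.tendsto_atTop))
  exact ⟨σ, l, hσ, l1, l2 ▸ ht⟩

omit [FiniteDimensional 𝕜 X] in
lemma unit_dir {y : Y} (hy : y ≠ 0) : ∃ w : Y, ‖w‖ = 1 ∧ y = ((‖y‖ : ℝ) : 𝕜) • w := by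
  have h : ((‖y‖ : ℝ) : 𝕜) ≠ 0 := by simpa using hy
  refine ⟨((‖y‖ : ℝ) : 𝕜)⁻¹ • y, ?_, by rw [smul_inv_smul₀ h]⟩
  rw [norm_smul, norm_inv, RCLike.norm_ofReal, abs_norm, inv_mul_cancel₀ (norm_ne_zero_iff.2 hy)]

lemma expose (S : X →L[𝕜] Y) {v : X} (hv : ‖v‖ = 1) (he : Exposed 𝕜 v) (hS : ‖S v‖ = ‖S‖)
    (h0 : 0 < ‖S‖) {γ : ℝ} (hγ : 0 < γ) :
    ∃ S' : X →L[𝕜] Y, ASE S' ∧ ‖S'‖ = 1 ∧ ‖S' v‖ = 1 ∧ ‖S' - S‖ ≤ 2 * γ + |1 - ‖S‖| := by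
  obtain ⟨g, g1, g2, g3⟩ := he
  obtain ⟨w, w1, w2⟩ := unit_dir (𝕜 := 𝕜) (y := S v) (norm_pos_iff.1 (hS ▸ h0))
  set S2 : X →L[𝕜] Y := S + (((γ : ℝ) : 𝕜) • g).smulRight w with hS2
  have a1 : ∀ x, ‖S2 x‖ ≤ ‖S x‖ + γ * ‖g x‖ := fun x => by
    rw [hS2, add_apply, ContinuousLinearMap.smulRight_apply, smul_apply]
    refine (norm_add_le _ _).trans ?_
    rw [norm_smul, norm_smul, w1, mul_one, RCLike.norm_ofReal, abs_of_pos hγ]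
  have a2 : ‖S2 v‖ = ‖S‖ + γ := by
    rw [hS2, add_apply, ContinuousLinearMap.smulRight_apply, smul_apply, g2, w2, ← add_smul,
      norm_smul, w1, smul_eq_mul, mul_one, mul_one, ← RCLike.ofReal_add, RCLike.norm_ofReal, hS,
      abs_of_pos (by positivity)]
  have a3 : ∀ x, ‖x‖ ≤ 1 → ‖g x‖ ≤ 1 := fun x hx => (g.unit_le_opNorm x hx).trans g1
  have a4 : ‖S2‖ = ‖S‖ + γ := le_antisymm (ContinuousLinearMap.opNorm_le_of_unit_norm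
    (by positivity) fun x hx => by
      have := S.unit_le_opNorm x hx.le
      nlinarith [a1 x, a3 x hx.le]) (a2 ▸ S2.unit_le_opNorm v hv.le)
  have hc : 0 < ‖S‖ + γ := by positivity
  have hs : ‖(((‖S‖ + γ)⁻¹ : ℝ) : 𝕜)‖ = (‖S‖ + γ)⁻¹ := by
    rw [RCLike.norm_ofReal, abs_of_pos (by positivity)]
  have b1 : ‖(((‖S‖ + γ)⁻¹ : ℝ) : 𝕜) • S2‖ = 1 := by
    rw [norm_smul, hs, a4, inv_mul_cancel₀ hc.ne']
  refine ⟨(((‖S‖ + γ)⁻¹ : ℝ) : 𝕜) • S2, ase_of_unique _ hv fun x hx h => ?_, b1, ?_, ?_⟩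
  · rw [b1, smul_apply, norm_smul, hs, inv_mul_eq_one₀ hc.ne'] at h
    have h1 : ‖g x‖ = 1 := le_antisymm (a3 x hx) (by
      have := S.unit_le_opNorm x hx
      nlinarith [a1 x])
    obtain ⟨l, l1, l2⟩ := exists_rot (g x)
    have h2 := g3 (l • x) (by rwa [norm_smul, l1, one_mul])
      (by rw [map_smul, smul_eq_mul, l2, h1, RCLike.ofReal_one])
    have l0 : l ≠ 0 := norm_pos_iff.1 (by rw [l1]; exact one_pos)
    exact ⟨l⁻¹, by rw [norm_inv, l1, inv_one], by rw [← h2, inv_smul_smul₀ l0]⟩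
  · rw [smul_apply, norm_smul, hs, a2, inv_mul_cancel₀ hc.ne']
  · have c1 : ‖(((‖S‖ + γ)⁻¹ : ℝ) : 𝕜) • S2 - S2‖ = |1 - (‖S‖ + γ)| := by
      have : (((‖S‖ + γ)⁻¹ : ℝ) : 𝕜) • S2 - S2 = (((‖S‖ + γ)⁻¹ - 1 : ℝ) : 𝕜) • S2 := by
        rw [RCLike.ofReal_sub, sub_smul, RCLike.ofReal_one, one_smul]
      rw [this, norm_smul, RCLike.norm_ofReal, a4, ← abs_of_pos hc, ← abs_mul, abs_of_pos hc,
        sub_mul, inv_mul_cancel₀ hc.ne', one_mul]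
    have c2 : ‖S2 - S‖ ≤ γ := by
      rw [hS2, add_sub_cancel_left, ContinuousLinearMap.norm_smulRight_apply, w1, mul_one,
        norm_smul, RCLike.norm_ofReal, abs_of_pos hγ]
      exact mul_le_of_le_one_right hγ.le g1
    have c3 := norm_sub_le_norm_sub_add_norm_sub ((((‖S‖ + γ)⁻¹ : ℝ) : 𝕜) • S2) S2 S
    have c4 : |1 - (‖S‖ + γ)| ≤ |1 - ‖S‖| + γ := by
      have := abs_sub (1 - ‖S‖) γ
      rwa [abs_of_pos hγ, sub_sub] at this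
    linarith

lemma local_bpb {x₀ : X} (hx : ‖x₀‖ = 1) (h : LC 𝕜 x₀) {ε : ℝ} (hε : 0 < ε) :
    ∃ η : ℝ, 0 < η ∧ ∀ T : X →L[𝕜] Y, ‖T‖ = 1 → 1 - η < ‖T x₀‖ →
      ∃ (S : X →L[𝕜] Y) (v : X), ASE S ∧ ‖v‖ = 1 ∧ ‖S‖ = 1 ∧ ‖S v‖ = 1 ∧ ‖S - T‖ < ε ∧
        ‖v - x₀‖ < ε := by
  have hε' : 0 < min (ε / 5) (1 / 2) := by positivity
  obtain ⟨η, hη, H⟩ := h _ hε'
  refine ⟨min η 1, by positivity, fun T hT h1 => ?_⟩
  have h2 : 1 - η < ‖T x₀‖ := by linarith [min_le_left η 1]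
  obtain ⟨y, y1, y2⟩ := unit_dir (𝕜 := 𝕜) (y := T x₀)
    (norm_pos_iff.1 (by linarith [min_le_right η 1]))
  obtain ⟨g, g1, g2⟩ := exists_dual_vector'' 𝕜 y
  rw [y1, RCLike.ofReal_one] at g2
  obtain ⟨φ, u, p1, p2, p3⟩ := H (g.comp T) ((g.opNorm_comp_le T).trans (by rwa [hT, mul_one]))
    (by rw [ContinuousLinearMap.comp_apply, y2, map_smul, g2, smul_eq_mul, mul_one,
      RCLike.ofReal_re]; exact h2)
  set S1 : X →L[𝕜] Y := T + φ.smulRight y with hS1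
  have a1 : ‖S1 - T‖ ≤ min (ε / 5) (1 / 2) := by
    rwa [hS1, add_sub_cancel_left, ContinuousLinearMap.norm_smulRight_apply, y1, mul_one]
  have a2 : |1 - ‖S1‖| ≤ min (ε / 5) (1 / 2) := by
    have := (abs_norm_sub_norm_le _ _).trans a1
    rwa [hT, abs_sub_comm] at this
  have a3 : 0 < ‖S1‖ := by linarith [(abs_le.1 a2).2, min_le_right (ε / 5) (1 / 2)]
  obtain ⟨v, v1, v2⟩ := exists_max S1 hx
  obtain ⟨l, l1, l2⟩ := exists_rot (φ v)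
  have v3 : ‖l • v‖ = 1 := by rw [norm_smul, l1, v1, one_mul]
  have a4 : RCLike.re (g.comp T u + φ u) ≤ ‖S1‖ := by
    have e : g.comp T u + φ u = g (S1 u) := by simp [hS1, g2]
    rw [e]
    refine (RCLike.re_le_norm _).trans ((g.le_opNorm _).trans ?_)
    exact (mul_le_of_le_one_left (norm_nonneg _) g1).trans (S1.unit_le_opNorm u p2)
  have a5 : ‖S1‖ ≤ 1 + RCLike.re (φ (l • v)) := by
    rw [map_smul, smul_eq_mul, l2, RCLike.ofReal_re, ← v2, hS1, add_apply,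
      ContinuousLinearMap.smulRight_apply]
    refine (norm_add_le _ _).trans ?_
    rw [norm_smul, y1, mul_one]
    linarith [T.unit_le_opNorm v v1.le]
  obtain ⟨b1, b2⟩ := p3 (l • v) v3 (a4.trans a5)
  obtain ⟨S, s1, s2, s3, s4⟩ := expose S1 v3 b2
    (by rw [map_smul, norm_smul, l1, one_mul, v2]) a3 (γ := ε / 5) (by positivity)
  refine ⟨S, l • v, s1, v3, s2, s3, ?_, ?_⟩
  · linarith [norm_sub_le_norm_sub_add_norm_sub S S1 T, min_le_left (ε / 5) (1 / 2)]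
  · linarith [min_le_left (ε / 5) (1 / 2)]

theorem universal (h : ∀ x₀ : X, ‖x₀‖ = 1 → LC 𝕜 x₀) : BPBpASE 𝕜 X Y := by
  have : ProperSpace X := FiniteDimensional.proper_rclike 𝕜 X
  intro ε hε
  let Q : ℝ → X → Prop := fun η x => ∀ T : X →L[𝕜] Y, ‖T‖ = 1 → 1 - η < ‖T x‖ →
    ∃ (S : X →L[𝕜] Y) (v : X), ASE S ∧ ‖v‖ = 1 ∧ ‖S‖ = 1 ∧ ‖S v‖ = 1 ∧ ‖S - T‖ < ε ∧ ‖x - v‖ < ε
  have hQ : ∀ a b x, a ≤ b → Q b x → Q a x := fun a b x hab hq T h1 h2 => hq T h1 (by linarith)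
  have key : ∃ η, 0 < η ∧ ∀ x ∈ sphere (0 : X) 1, Q η x := by
    refine (isCompact_sphere (0 : X) 1).induction_on (p := fun s => ∃ η, 0 < η ∧ ∀ x ∈ s, Q η x)
      ⟨1, one_pos, by simp⟩ (fun s t hst ⟨η, h1, h2⟩ => ⟨η, h1, fun x hx => h2 x (hst hx)⟩)
      (fun s t ⟨a, a1, a2⟩ ⟨b, b1, b2⟩ => ⟨min a b, lt_min a1 b1, fun x hx => hx.elim
        (fun hx => hQ _ _ _ (min_le_left _ _) (a2 x hx))
        (fun hx => hQ _ _ _ (min_le_right _ _) (b2 x hx))⟩) fun x₀ hx₀ => ?_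
    rw [mem_sphere_zero_iff_norm] at hx₀
    obtain ⟨η, hη, H⟩ := local_bpb (Y := Y) hx₀ (h x₀ hx₀) (half_pos hε)
    refine ⟨ball x₀ (min (η / 2) (ε / 2)), mem_nhdsWithin_of_mem_nhds
      (ball_mem_nhds _ (by positivity)), η / 2, half_pos hη, fun x hx T h1 h2 => ?_⟩
    rw [mem_ball, dist_eq_norm, lt_min_iff] at hx
    have h3 : ‖T x‖ ≤ ‖T x₀‖ + ‖x - x₀‖ := by
      have := T.le_opNorm (x - x₀)
      rw [h1, one_mul, map_sub] at this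
      linarith [norm_sub_norm_le (T x) (T x₀)]
    obtain ⟨S, v, s1, s2, s3, s4, s5, s6⟩ := H T h1 (by linarith [hx.1])
    refine ⟨S, v, s1, s2, s3, s4, by linarith, ?_⟩
    linarith [norm_sub_le_norm_sub_add_norm_sub x x₀ v, norm_sub_rev v x₀, hx.2]
  obtain ⟨η, h1, h2⟩ := key
  refine ⟨min η (ε / 2), by positivity, (min_le_right _ _).trans_lt (half_lt_self hε),
    fun T x _ hT hx h3 => ?_⟩
  obtain ⟨S, v, s1, s2, s3, s4, s5, s6⟩ := h2 x (mem_sphere_zero_iff_norm.2 hx) T hT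
    (by linarith [min_le_left η (ε / 2)])
  exact ⟨S, v, trivial, s1, s2, s3, s4, s5, s6⟩

end Pool.Agent.H90.AseLocal
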