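import Pool.Agent.H90.AseLocal

set_option autoImplicit false

namespace Pool.Agent.H90.AseSpace

open Set Metric Filter Topology Pool.Agent.H90.AseDefs Pool.Agent.H90.AseLocal
open scoped ENNReal InnerProductSpace

variable {𝕜 : Type} [RCLike 𝕜]

lemma exists_renorm {Z Γ : Type} [NormedAddCommGroup Z] [NormedSpace 𝕜 Z] [CompleteSpace Z]
    (F : Γ → StrongDual 𝕜 Z) (h1 : ∀ f z, ‖F f z‖ ≤ 2 * ‖z‖)
    (h2 : ∀ z M, 0 ≤ M → (∀ f, ‖F f z‖ ≤ M) → ‖z‖ ≤ 3 * M) :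
    ∃ (X : Type) (_ : NormedAddCommGroup X) (_ : NormedSpace 𝕜 X) (_ : CompleteSpace X)
      (E : Z ≃L[𝕜] X), (∀ f z, ‖F f z‖ ≤ ‖E z‖) ∧
      ∀ z M, 0 ≤ M → (∀ f, ‖F f z‖ ≤ M) → ‖E z‖ ≤ M := by
  let J : Z →L[𝕜] lp (fun _ : Γ => 𝕜) ∞ := LinearMap.mkContinuous
    { toFun := fun z => ⟨fun f => F f z, memℓp_infty ⟨2 * ‖z‖, by
        rintro _ ⟨f, rfl⟩
        exact h1 f z⟩⟩
      map_add' := fun a b => lp.ext (funext fun i => by simp)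
      map_smul' := fun a b => lp.ext (funext fun i => by simp) } 2
    fun z => lp.norm_le_of_forall_le (by positivity) fun f => h1 f z
  have hJ : ∀ f z, ‖F f z‖ ≤ ‖J z‖ := fun f z =>
    lp.norm_apply_le_norm ENNReal.top_ne_zero (J z) f
  have ha : AntilipschitzWith 3 J := J.antilipschitz_of_bound fun z =>
    h2 z _ (norm_nonneg _) fun f => hJ f z
  have hcl := ha.isClosed_range J.uniformContinuous
  exact ⟨J.range, inferInstance, inferInstance, hcl.completeSpace_coe,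
    J.equivRange ha.injective hcl, hJ, fun z M hM h =>
      lp.norm_le_of_forall_le (f := J z) hM h⟩

noncomputable def sg (k : ℕ) : ℝ := 1 / ((k : ℝ) + 1)

def mm (k : ℕ) : ℝ := (k.factorial : ℝ)

lemma sg_pos (k : ℕ) : 0 < sg k := by unfold sg; positivity

lemma sg_anti {j k : ℕ} (h : j ≤ k) : sg k ≤ sg j := by
  unfold sg
  gcongr

lemma sg_le (k : ℕ) : sg k ≤ 1 := by simpa [sg] using sg_anti (Nat.zero_le k)

lemma mm_mono {j k : ℕ} (h : j ≤ k) : mm j ≤ mm k := by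
  unfold mm
  exact_mod_cast Nat.factorial_le h

lemma mm_ge (k : ℕ) : 1 ≤ mm k := by simpa [mm] using mm_mono (Nat.zero_le k)

lemma le_mm (k : ℕ) : (k : ℝ) ≤ mm k := by
  unfold mm
  exact_mod_cast Nat.self_le_factorial k

lemma mm_succ (k : ℕ) : mm (k + 1) = ((k : ℝ) + 1) * mm k := by
  simp [mm, Nat.factorial_succ]

variable {C H : Type} [NormedAddCommGroup C] [NormedSpace 𝕜 C] [NormedAddCommGroup H]
  [InnerProductSpace 𝕜 H] (A : C →L[𝕜] H)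

def B : Set (C × 𝕜) := {z | ∀ k, ‖z.2‖ ≤ sg k * (2 - ‖A z.1‖ ^ 2) + mm k * (1 - ‖z.1‖)}

noncomputable def Lam (k : ℕ) (a : C) (h : StrongDual 𝕜 C) (w : 𝕜) : StrongDual 𝕜 (C × 𝕜) :=
  w • ContinuousLinearMap.snd 𝕜 C 𝕜 + (((2 * sg k : ℝ) : 𝕜) • (innerSL 𝕜 (A a)).comp A +
    ((mm k : ℝ) : 𝕜) • h).comp (ContinuousLinearMap.fst 𝕜 C 𝕜)

variable {A}

lemma re_Lam (k : ℕ) (a : C) (h : StrongDual 𝕜 C) (w : 𝕜) (z : C × 𝕜) :
    RCLike.re (Lam A k a h w z) = RCLike.re (w * z.2) +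
      sg k * (‖A z.1‖ ^ 2 + ‖A a‖ ^ 2 - ‖A z.1 - A a‖ ^ 2) + mm k * RCLike.re (h z.1) := by
  have e : Lam A k a h w z = w * z.2 + (((2 * sg k : ℝ) : 𝕜) * ⟪A a, A z.1⟫_𝕜 +
      ((mm k : ℝ) : 𝕜) * h z.1) := rfl
  rw [e, map_add, map_add, RCLike.re_ofReal_mul, RCLike.re_ofReal_mul, norm_sub_rev,
    norm_sub_sq (𝕜 := 𝕜)]
  ring

lemma fst_le {z : C × 𝕜} (hz : z ∈ B A) : ‖z.1‖ ≤ 1 := by
  by_contra hc
  push Not at hc
  obtain ⟨k, hk⟩ := exists_nat_gt (2 / (‖z.1‖ - 1))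
  rw [div_lt_iff₀ (by linarith)] at hk
  have h1 := hz k
  have h2 := le_mm k
  have h3 := sg_le k
  have h4 := sg_pos k
  nlinarith [norm_nonneg z.2, mul_nonneg h4.le (sq_nonneg ‖A z.1‖)]

lemma Lam_le {k : ℕ} {a : C} {h : StrongDual 𝕜 C} {w : 𝕜} (hh : ‖h‖ ≤ 1) (hw : ‖w‖ = 1)
    {z : C × 𝕜} (hz : z ∈ B A) : RCLike.re (Lam A k a h w z) ≤
      sg k * (2 + ‖A a‖ ^ 2 - ‖A z.1 - A a‖ ^ 2) + mm k := by
  rw [re_Lam]
  have h1 := hz k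
  have h2 : RCLike.re (w * z.2) ≤ ‖z.2‖ := by simpa [hw] using RCLike.re_le_norm (w * z.2)
  have h3 : RCLike.re (h z.1) ≤ ‖z.1‖ := (RCLike.re_le_norm _).trans
    ((h.le_opNorm _).trans (mul_le_of_le_one_left (norm_nonneg _) hh))
  nlinarith [mm_ge k]

lemma snd_eq_zero {z : C × 𝕜} (hz : z ∈ B A) (h : ‖z.1‖ = 1) : z.2 = 0 := by
  refine norm_eq_zero.1 (le_antisymm (le_of_forall_pos_le_add fun ε hε => ?_) (norm_nonneg _))
  obtain ⟨k, hk⟩ := exists_nat_one_div_lt (half_pos hε)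
  have h1 := hz k
  have h4 := sg_pos k
  change sg k < _ at hk
  rw [h] at h1
  nlinarith [mul_nonneg h4.le (sq_nonneg ‖A z.1‖)]

lemma mem_B (hA : ∀ x, ‖A x‖ ≤ ‖x‖) {z : C × 𝕜} (h1 : ‖z.1‖ ≤ 1) (h2 : ‖z.2‖ ≤ 1 - ‖z.1‖) :
    z ∈ B A := fun k => by
  have a1 : ‖A z.1‖ ^ 2 ≤ 1 := pow_le_one₀ (norm_nonneg _) ((hA _).trans h1)
  nlinarith [sg_pos k, mm_ge k]

lemma smul_mem_B {z : C × 𝕜} (hz : z ∈ B A) {l : 𝕜} (hl : ‖l‖ = 1) : l • z ∈ B A := fun k => by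
  simpa [norm_smul, hl] using hz k

lemma Lam_self {k : ℕ} {z : C × 𝕜} {h : StrongDual 𝕜 C} {w : 𝕜} (hh : h z.1 = (‖z.1‖ : ℝ))
    (hw : w * z.2 = (‖z.2‖ : ℝ)) : Lam A k z.1 h w z =
      ((‖z.2‖ + 2 * sg k * ‖A z.1‖ ^ 2 + mm k * ‖z.1‖ : ℝ) : 𝕜) := by
  have e : Lam A k z.1 h w z = w * z.2 + (((2 * sg k : ℝ) : 𝕜) * ⟪A z.1, A z.1⟫_𝕜 +
      ((mm k : ℝ) : 𝕜) * h z.1) := rfl
  rw [e, hh, hw, inner_self_eq_norm_sq_to_K]
  push_cast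
  ring

lemma exists_space [CompleteSpace C] (hA : ∀ x, ‖A x‖ ≤ ‖x‖) :
    ∃ (X : Type) (_ : NormedAddCommGroup X) (_ : NormedSpace 𝕜 X) (_ : CompleteSpace X)
      (E : (C × 𝕜) ≃L[𝕜] X), ∀ z, ‖E z‖ ≤ 1 ↔ z ∈ B A := by
  let F := {f : StrongDual 𝕜 (C × 𝕜) // ∀ z ∈ B A, ‖f z‖ ≤ 1}
  obtain ⟨X, i1, i2, i3, E, h1, h2⟩ := exists_renorm (fun f : F => f.1) (fun f z => by
    have : ‖f.1‖ ≤ 2 := ContinuousLinearMap.opNorm_le_of_unit_norm zero_le_two fun v hv => by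
      have h : ‖(1 / 2 : 𝕜) • v‖ = 1 / 2 := by simp [norm_smul, hv]
      have a1 := (norm_fst_le _).trans h.le
      have a2 := (norm_snd_le _).trans h.le
      have := f.2 _ (mem_B hA (z := (1 / 2 : 𝕜) • v) (by linarith) (by linarith))
      rw [map_smul, norm_smul] at this
      norm_num at this
      linarith
    exact f.1.le_of_opNorm_le this z) (fun z M _ h => by
    obtain ⟨g, g1, g2⟩ := exists_dual_vector'' 𝕜 z
    have := h ⟨(1 / 3 : 𝕜) • g, fun v hv => by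
      have a1 := fst_le hv
      have a2 := hv 0
      have a3 : ‖v‖ ≤ 3 := by
        rw [Prod.norm_def]
        simp only [sg, mm] at a2
        norm_num at a2
        exact max_le (by linarith) (by nlinarith [norm_nonneg v.1])
      have a4 := g.le_opNorm v
      rw [smul_apply, norm_smul]
      norm_num
      nlinarith [norm_nonneg v]⟩
    simp only [smul_apply, norm_smul, g2] at this
    norm_num at this
    linarith)
  refine ⟨X, i1, i2, i3, E, fun z => ⟨fun hz k => ?_, fun hz => h2 z 1 zero_le_one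
    fun f => f.2 z hz⟩⟩
  obtain ⟨h, g1, g2⟩ := exists_dual_vector'' 𝕜 z.1
  obtain ⟨w, w1, w2⟩ := exists_rot z.2
  set c := sg k * (2 + ‖A z.1‖ ^ 2) + mm k with hc
  have c0 : 0 < c := by have := sg_pos k; have := mm_ge k; positivity
  have hs : ‖((c⁻¹ : ℝ) : 𝕜)‖ = c⁻¹ := by rw [RCLike.norm_ofReal, abs_of_pos (by positivity)]
  have := (h1 ⟨((c⁻¹ : ℝ) : 𝕜) • Lam A k z.1 h w, fun v hv => by
    obtain ⟨l, l1, l2⟩ := exists_rot (Lam A k z.1 h w v)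
    have := Lam_le (k := k) (a := z.1) g1 w1 (smul_mem_B hv l1)
    rw [map_smul, smul_eq_mul, l2, RCLike.ofReal_re] at this
    rw [smul_apply, norm_smul, hs, inv_mul_le_iff₀ c0]
    nlinarith [sg_pos k, sq_nonneg ‖A (l • v).1 - A z.1‖]⟩ z).trans hz
  simp only [smul_apply, norm_smul, hs, Lam_self g2 w2, RCLike.norm_ofReal] at this
  rw [inv_mul_le_iff₀ c0] at this
  have := (le_abs_self _).trans this
  linarith

section LCs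

variable {X : Type} [NormedAddCommGroup X] [NormedSpace 𝕜 X] {E : (C × 𝕜) ≃L[𝕜] X}

lemma mem_of_norm (hB : ∀ z, ‖E z‖ ≤ 1 ↔ z ∈ B A) {x : X} (hx : ‖x‖ ≤ 1) : E.symm x ∈ B A :=
  (hB _).1 (by simpa using hx)

lemma exists_eq (hA : ∀ x, ‖A x‖ ≤ ‖x‖) (hB : ∀ z, ‖E z‖ ≤ 1 ↔ z ∈ B A) {z : C × 𝕜}
    (hz : ‖E z‖ = 1) (h0 : ‖z.1‖ ≠ 1) :
    ∃ k, ‖z.2‖ = sg k * (2 - ‖A z.1‖ ^ 2) + mm k * (1 - ‖z.1‖) := by
  have hzB := (hB z).1 hz.le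
  by_contra hc
  push Not at hc
  have h1 : 0 < 1 - ‖z.1‖ := sub_pos.2 (lt_of_le_of_ne (fst_le hzB) h0)
  obtain ⟨K, hK⟩ := exists_nat_gt ((‖z.2‖ + 1) / ((1 - ‖z.1‖) / 2))
  rw [div_lt_iff₀ (by positivity)] at hK
  have e1 : ∀ᶠ v in 𝓝 z, ∀ k ∈ Finset.range K,
      ‖v.2‖ < sg k * (2 - ‖A v.1‖ ^ 2) + mm k * (1 - ‖v.1‖) := by
    rw [Filter.eventually_all_finset]
    exact fun k _ => ContinuousAt.eventually_lt (by fun_prop) (by fun_prop)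
      (lt_of_le_of_ne (hzB k) (hc k))
  have e2 : ∀ᶠ v in 𝓝 z, ‖v.2‖ < ‖z.2‖ + 1 :=
    ContinuousAt.eventually_lt (by fun_prop) continuousAt_const (lt_add_one _)
  have e3 : ∀ᶠ v in 𝓝 z, (1 - ‖z.1‖) / 2 < 1 - ‖v.1‖ :=
    ContinuousAt.eventually_lt continuousAt_const (by fun_prop) (half_lt_self h1)
  have e4 : ∀ᶠ v in 𝓝 z, v ∈ B A := by
    filter_upwards [e1, e2, e3] with v a1 a2 a3 k
    by_cases hk : k < K
    · exact (a1 k (Finset.mem_range.2 hk)).le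
    · have b1 := (le_mm K).trans (mm_mono (not_lt.1 hk))
      have b2 : ‖A v.1‖ ^ 2 ≤ 1 := pow_le_one₀ (norm_nonneg _) ((hA _).trans (by linarith))
      have b3 : (K : ℝ) * ((1 - ‖z.1‖) / 2) ≤ mm k * (1 - ‖v.1‖) :=
        mul_le_mul b1 a3.le (by positivity) (by linarith [mm_ge k])
      nlinarith [sg_pos k]
  have t1 : Tendsto (fun r : ℝ => ((r : ℝ) : 𝕜) • z) (𝓝[>] 1) (𝓝 z) := by
    have : ContinuousAt (fun r : ℝ => ((r : ℝ) : 𝕜) • z) 1 := by fun_prop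
    simpa using this.tendsto.mono_left nhdsWithin_le_nhds
  obtain ⟨r, r1, r2⟩ := ((t1.eventually e4).and self_mem_nhdsWithin).exists
  have := (hB _).2 r1
  rw [map_smul, norm_smul, hz, mul_one, RCLike.norm_ofReal] at this
  exact absurd ((le_abs_self r).trans this) (not_le.2 r2)

lemma exposed (hA : ∀ x, ‖A x‖ ≤ ‖x‖) (hI : Function.Injective A)
    (hB : ∀ z, ‖E z‖ ≤ 1 ↔ z ∈ B A) {x : X} (hx : ‖x‖ = 1) (h0 : ‖(E.symm x).1‖ ≠ 1) :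
    Exposed 𝕜 x := by
  obtain ⟨z, rfl⟩ := E.surjective x
  rw [E.symm_apply_apply] at h0
  obtain ⟨k, hk⟩ := exists_eq hA hB hx h0
  obtain ⟨h, g1, g2⟩ := exists_dual_vector'' 𝕜 z.1
  obtain ⟨w, w1, w2⟩ := exists_rot z.2
  set c := sg k * (2 + ‖A z.1‖ ^ 2) + mm k with hc
  have c0 : 0 < c := by have := sg_pos k; have := mm_ge k; positivity
  have c1 : ((c : ℝ) : 𝕜) ≠ 0 := by simpa using c0.ne'
  have e1 : Lam A k z.1 h w z = ((c : ℝ) : 𝕜) := by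
    rw [Lam_self g2 w2, hk, hc]
    congr 1
    ring
  refine ⟨((c⁻¹ : ℝ) : 𝕜) • (Lam A k z.1 h w).comp (E.symm : X →L[𝕜] C × 𝕜),
    norm_le_of_re fun v hv => ?_, by simp [e1, c1], fun v hv h1 => ?_⟩
  · have := Lam_le (k := k) (a := z.1) g1 w1 (mem_of_norm hB hv)
    rw [smul_apply, smul_eq_mul, RCLike.re_ofReal_mul, inv_mul_le_iff₀ c0]
    refine this.trans ?_
    nlinarith [sg_pos k, sq_nonneg ‖A (E.symm v).1 - A z.1‖]
  · obtain ⟨y, rfl⟩ := E.surjective v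
    have h2 : Lam A k z.1 h w y = ((c : ℝ) : 𝕜) := by
      simp only [smul_apply, ContinuousLinearMap.comp_apply, ContinuousLinearEquiv.coe_coe,
        E.symm_apply_apply, smul_eq_mul, RCLike.ofReal_inv] at h1
      exact ((inv_mul_eq_one₀ c1).1 h1).symm
    have h3 := Lam_le (k := k) (a := z.1) g1 w1 ((hB y).1 hv)
    rw [h2, RCLike.ofReal_re] at h3
    have h4 : ‖A y.1 - A z.1‖ ^ 2 ≤ 0 := by nlinarith [sg_pos k]
    have h5 : y.1 = z.1 := hI (sub_eq_zero.1 (norm_eq_zero.1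
      (pow_eq_zero_iff two_ne_zero |>.1 (le_antisymm h4 (sq_nonneg _)))))
    have h6 : Lam A k z.1 h w (y - z) = 0 := by rw [map_sub, h2, e1, sub_self]
    have h7 : w * (y.2 - z.2) = 0 := by simpa [Lam, h5] using h6
    have w0 : w ≠ 0 := norm_pos_iff.1 (by rw [w1]; exact one_pos)
    rw [Prod.ext h5 (sub_eq_zero.1 ((mul_eq_zero.1 h7).resolve_left w0))]

lemma arith {γ ρ s η δ : ℝ} (N : ℝ) (hγ : 0 < γ) (hρ : 0 < ρ) (hs : 0 < s)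
    (hsγ : s ≤ γ) (hN : 8 * (1 + γ) / (γ * ρ) < N) (hδ : δ = 2 * s / (γ * N))
    (hη : η = s * ρ / 4) (hρ1 : ρ ≤ 1) : η + (1 + γ) * δ + s * δ ^ 2 < s * ρ ∧ δ ≤ 1 := by
  have N0 : 0 < N := lt_trans (by positivity) hN
  rw [div_lt_iff₀ (by positivity)] at hN
  have d0 : 0 < δ := by rw [hδ]; positivity
  have h1 : δ * (γ * N) = 2 * s := by rw [hδ]; field_simp
  have h2 : (1 + γ) * δ ≤ s * ρ / 4 := by nlinarith [mul_pos d0 hρ]
  have h3 : δ ≤ ρ / 4 := by nlinarith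
  have h4 : δ ^ 2 ≤ ρ / 4 := by nlinarith
  constructor
  · nlinarith [mul_pos hs hρ]
  · linarith

lemma params {ε ρ : ℝ} (hε : 0 < ε) (ρ0 : 0 < ρ) (ρ1 : ρ ≤ 1) : ∃ (k : ℕ) (e δ η : ℝ),
    0 < e ∧ 0 < δ ∧ δ ≤ 1 ∧ 0 < η ∧ mm (k + 1) * δ = 2 * sg k ∧ e * (3 + mm k) ≤ ε ∧
      η + (1 + e * mm k) * δ + e * sg k * δ ^ 2 < e * sg k * ρ := by
  obtain ⟨γ, hγ⟩ : ∃ γ, γ = ε / 4 := ⟨_, rfl⟩
  have γ0 : 0 < γ := by rw [hγ]; positivity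
  obtain ⟨k, hN⟩ := exists_nat_gt (8 * (1 + γ) / (γ * ρ))
  have m1 := mm_ge k
  have s0 := sg_pos k
  have s1 := sg_le k
  obtain ⟨e, he⟩ : ∃ e, e = γ / mm k := ⟨_, rfl⟩
  have e0 : 0 < e := by rw [he]; positivity
  have em : e * mm k = γ := by rw [he]; field_simp
  have eγ : e ≤ γ := by nlinarith
  obtain ⟨n1, n2⟩ := arith (γ := γ) (ρ := ρ) (s := e * sg k) ((k : ℝ) + 1) γ0 ρ0 (by positivity)
    (by nlinarith) (by linarith) rfl rfl ρ1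
  refine ⟨k, e, _, e * sg k * ρ / 4, e0, by positivity, n2, by positivity, ?_, by linarith,
    by rw [em]; exact n1⟩
  rw [mm_succ, ← em]
  field_simp

lemma ar1 {s g δ sj mj : ℝ} (h : s ≤ sj) (hg : 0 ≤ g) (hm : 1 ≤ mj) (hd : 0 < δ) :
    s * g ≤ sj * g + mj * δ := by nlinarith

lemma ar2 {s q δ sj mj m : ℝ} (hs : 0 < s) (hj : 0 < sj) (q0 : 0 ≤ q) (q1 : q ≤ 1)
    (hm : m ≤ mj) (hd : 0 < δ) (e : m * δ = 2 * s) : s * (2 - q) ≤ sj * (2 - q) + mj * δ := by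
  nlinarith

lemma ar3 {δ η r t b : ℝ} (d0 : 0 < δ) (d1 : δ ≤ 1) (h0 : 0 < η) (h : 1 - η < r) (t0 : 0 ≤ t)
    (b0 : 0 ≤ b) : 1 - δ - η ≤ (1 - δ) * r + t * b := by nlinarith

lemma ar4 {e s m δ η ρ a r L : ℝ} (e0 : 0 < e) (s0 : 0 < s) (a1 : a ≤ 1)
    (h : η + (1 + e * m) * δ + e * s * δ ^ 2 < e * s * ρ) (hr : 1 - δ - η ≤ r)
    (h1 : r + e * (s * (2 + a - δ ^ 2 * a) + m * (1 - δ)) ≤ 1 + e * L) :
    s * (2 + a - ρ) + m < L := by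
  refine lt_of_mul_lt_mul_left ?_ e0.le
  have : e * s * (δ ^ 2 * a) ≤ e * s * δ ^ 2 :=
    mul_le_mul_of_nonneg_left (mul_le_of_le_one_right (sq_nonneg _) a1) (by positivity)
  nlinarith

lemma ar5 {s m a b c r ρ : ℝ} (s0 : 0 < s) (m1 : 1 ≤ m) (b1 : b ≤ 1) (c0 : 0 ≤ c) (r1 : r ≤ 1)
    (ρ1 : ρ ≤ 1) : 0 + s * (b + a - c) + m * r ≤ s * (2 + a - ρ) + m := by nlinarith

lemma ar6 {s a c : ℝ} (s0 : 0 < s) (s1 : s ≤ 1) (a1 : a ≤ 1) (c0 : 0 ≤ c) :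
    s * (2 + a - c) ≤ 3 := by nlinarith

lemma exists_u {k : ℕ} {δ : ℝ} (d0 : 0 < δ) (d1 : δ ≤ 1) (dm : mm (k + 1) * δ = 2 * sg k)
    {a : C} (ha : ‖a‖ = 1) (Aa : ‖A a‖ ^ 2 ≤ 1) {h : StrongDual 𝕜 C} (g2 : h a = 1) {w : 𝕜}
    (w1 : ‖w‖ = 1) : ∃ t : ℝ, 0 ≤ t ∧ (((1 - δ : ℝ) : 𝕜) • a, w * ((t : ℝ) : 𝕜)) ∈ B A ∧
      RCLike.re (Lam A k a h w⁻¹ (((1 - δ : ℝ) : 𝕜) • a, w * ((t : ℝ) : 𝕜))) =
        sg k * (2 + ‖A a‖ ^ 2 - δ ^ 2 * ‖A a‖ ^ 2) + mm k * (1 - δ) := by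
  have w0 : w ≠ 0 := norm_pos_iff.1 (by rw [w1]; exact one_pos)
  have q1 : (1 - δ) ^ 2 * ‖A a‖ ^ 2 ≤ 1 :=
    mul_le_one₀ (pow_le_one₀ (by linarith) (by linarith)) (sq_nonneg _) Aa
  have q0 : 0 ≤ (1 - δ) ^ 2 * ‖A a‖ ^ 2 := by positivity
  have t0 : 0 ≤ sg k * (2 - (1 - δ) ^ 2 * ‖A a‖ ^ 2) := mul_nonneg (sg_pos k).le (by linarith)
  have dn : ‖((1 - δ : ℝ) : 𝕜)‖ = 1 - δ := by rw [RCLike.norm_ofReal, abs_of_nonneg (by linarith)]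
  have u3 : ‖A (((1 - δ : ℝ) : 𝕜) • a)‖ ^ 2 = (1 - δ) ^ 2 * ‖A a‖ ^ 2 := by
    rw [map_smul, norm_smul, dn, mul_pow]
  have u4 : ‖A (((1 - δ : ℝ) : 𝕜) • a) - A a‖ ^ 2 = δ ^ 2 * ‖A a‖ ^ 2 := by
    have : A (((1 - δ : ℝ) : 𝕜) • a) - A a = ((-δ : ℝ) : 𝕜) • A a := by
      rw [map_smul]
      push_cast
      module
    rw [this, norm_smul, RCLike.norm_ofReal, mul_pow, sq_abs, neg_sq]
  refine ⟨_, t0, fun j => ?_, ?_⟩
  · dsimp only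
    rw [u3, norm_smul, dn, ha, mul_one, sub_sub_cancel, norm_mul, w1, one_mul,
      RCLike.norm_ofReal, abs_of_nonneg t0]
    rcases le_or_gt j k with hj | hj
    · exact ar1 (sg_anti hj) (by linarith) (mm_ge j) d0
    · exact ar2 (sg_pos k) (sg_pos j) q0 q1 (mm_mono (Nat.succ_le_of_lt hj)) d0 dm
  · rw [re_Lam]
    dsimp only
    rw [u3, u4, inv_mul_cancel_left₀ w0, map_smul, g2, smul_eq_mul, mul_one, RCLike.ofReal_re,
      RCLike.ofReal_re]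
    ring

lemma lc_boundary [FiniteDimensional 𝕜 X] (hA : ∀ x, ‖A x‖ ≤ ‖x‖) (hI : Function.Injective A)
    (hB : ∀ z, ‖E z‖ ≤ 1 ↔ z ∈ B A) {a : C} (ha : ‖a‖ = 1) : LC 𝕜 (E (a, 0)) := by
  have : ProperSpace X := FiniteDimensional.proper_rclike 𝕜 X
  intro ε hε
  have hK : IsCompact (closedBall (0 : X) 1 ∩ {x | ε ≤ ‖x - E (a, 0)‖}) :=
    (isCompact_closedBall _ _).inter_right (isClosed_le continuous_const (by fun_prop))
  obtain ⟨ρ', hρ', hk⟩ := hK.exists_forall_le' (f := fun x => ‖A (E.symm x).1 - A a‖ ^ 2)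
    (a := 0) (by fun_prop) fun x hx => by
      refine lt_of_le_of_ne (sq_nonneg _) fun e => ?_
      have h1 : (E.symm x).1 = a :=
        hI (sub_eq_zero.1 (norm_eq_zero.1 (pow_eq_zero_iff two_ne_zero |>.1 e.symm)))
      have h2 := snd_eq_zero (mem_of_norm hB (mem_closedBall_zero_iff.1 hx.1)) (h1 ▸ ha)
      have h3 : x = E (a, 0) := E.symm_apply_eq.1 (Prod.ext h1 h2)
      have h5 := hx.2
      rw [mem_ofPred_eq, h3, sub_self, norm_zero] at h5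
      exact absurd h5 (not_le.2 hε)
  obtain ⟨k, e, δ, η, e0, d0, d1, η0, dm, eε, n1⟩ :=
    params hε (lt_min hρ' one_pos) (min_le_right _ _)
  obtain ⟨h, g1, g2⟩ := exists_dual_vector'' 𝕜 a
  rw [ha, RCLike.ofReal_one] at g2
  have Aa : ‖A a‖ ^ 2 ≤ 1 := pow_le_one₀ (norm_nonneg _) ((hA _).trans ha.le)
  refine ⟨η, η0, fun f f1 f2 => ?_⟩
  obtain ⟨w, w1, w2⟩ := exists_rot (f (E (0, 1)))
  have w3 : ‖w⁻¹‖ = 1 := by rw [norm_inv, w1, inv_one]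
  obtain ⟨t, t0, uB, Lu⟩ := exists_u d0 d1 dm ha Aa g2 w1
  have fu : 1 - δ - η ≤ RCLike.re (f (E (((1 - δ : ℝ) : 𝕜) • a, w * ((t : ℝ) : 𝕜)))) := by
    have : (((1 - δ : ℝ) : 𝕜) • a, w * ((t : ℝ) : 𝕜)) =
        ((1 - δ : ℝ) : 𝕜) • (a, 0) + ((t : ℝ) : 𝕜) • w • ((0 : C), (1 : 𝕜)) := by
      simp [mul_comm]
    rw [this]
    simp only [map_add, map_smul, smul_eq_mul, w2, RCLike.re_ofReal_mul, RCLike.ofReal_re]
    exact ar3 d0 d1 η0 f2 t0 (norm_nonneg _)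
  have φx : ∀ x, RCLike.re ((((e : ℝ) : 𝕜) • (Lam A k a h w⁻¹).comp
      (E.symm : X →L[𝕜] C × 𝕜)) x) = e * RCLike.re (Lam A k a h w⁻¹ (E.symm x)) := fun x => by
    rw [smul_apply, smul_eq_mul, RCLike.re_ofReal_mul]
    rfl
  refine ⟨((e : ℝ) : 𝕜) • (Lam A k a h w⁻¹).comp (E.symm : X →L[𝕜] C × 𝕜), E _,
    norm_le_of_re fun x hx => ?_, (hB _).2 uB, fun x hx h1 => ?_⟩
  · have := Lam_le (k := k) (a := a) g1 w3 (mem_of_norm hB hx)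
    have b1 := ar6 (sg_pos k) (sg_le k) Aa (sq_nonneg ‖A (E.symm x).1 - A a‖)
    rw [φx]
    exact (mul_le_mul_of_nonneg_left (by linarith) e0.le).trans eε
  rw [map_add, φx, φx, E.symm_apply_apply, Lu] at h1
  have key := ar4 e0 (sg_pos k) Aa n1 fu h1
  have xB := mem_of_norm hB hx.le
  constructor
  · by_contra hc
    have b1 := (min_le_left ρ' 1).trans (hk x ⟨mem_closedBall_zero_iff.2 hx.le, not_lt.1 hc⟩)
    have b2 := Lam_le (k := k) (a := a) g1 w3 xB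
    have b3 := mul_le_mul_of_nonneg_left (sub_le_sub_left b1 (2 + ‖A a‖ ^ 2)) (sg_pos k).le
    linarith
  · refine exposed hA hI hB hx fun h0 => ?_
    rw [re_Lam, snd_eq_zero xB h0, mul_zero, map_zero] at key
    have b1 : ‖A (E.symm x).1‖ ^ 2 ≤ 1 := pow_le_one₀ (norm_nonneg _) ((hA _).trans h0.le)
    have b2 : RCLike.re (h (E.symm x).1) ≤ 1 := (RCLike.re_le_norm _).trans
      ((h.unit_le_opNorm _ h0.le).trans g1)
    exact absurd key (not_lt.2 (ar5 (sg_pos k) (mm_ge k) b1 (sq_nonneg _) b2 (min_le_right _ _)))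

lemma lc_all [FiniteDimensional 𝕜 X] (hA : ∀ x, ‖A x‖ ≤ ‖x‖) (hI : Function.Injective A)
    (hB : ∀ z, ‖E z‖ ≤ 1 ↔ z ∈ B A) (x : X) (hx : ‖x‖ = 1) : LC 𝕜 x := by
  by_cases h : ‖(E.symm x).1‖ = 1
  · have : x = E ((E.symm x).1, 0) :=
      E.symm_apply_eq.1 (Prod.ext rfl (snd_eq_zero (mem_of_norm hB hx.le) h))
    rw [this]
    exact lc_boundary hA hI hB h
  · refine lc_of_exposed hx ?_
    have : ContinuousAt (fun x => ‖(E.symm x).1‖) x := by fun_prop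
    filter_upwards [this.eventually_ne h] with v h1 h2 using exposed hA hI hB h2 h1

end LCs

/-- Every finite-dimensional space is a one-complemented hyperplane of a finite-dimensional space
all of whose unit vectors satisfy the local condition. -/
theorem exists_ext (C : Type) [NormedAddCommGroup C] [NormedSpace 𝕜 C] [FiniteDimensional 𝕜 C] :
    ∃ (X : Type) (_ : NormedAddCommGroup X) (_ : NormedSpace 𝕜 X) (_ : FiniteDimensional 𝕜 X)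
      (ι : C →L[𝕜] X) (π : X →L[𝕜] C), (∀ y, ‖ι y‖ = ‖y‖) ∧ (∀ x, ‖π x‖ ≤ ‖x‖) ∧
      (∀ y, π (ι y) = y) ∧ ∀ x : X, ‖x‖ = 1 → LC 𝕜 x := by
  have : CompleteSpace C := FiniteDimensional.complete 𝕜 C
  let L : C ≃L[𝕜] EuclideanSpace 𝕜 (Fin (Module.finrank 𝕜 C)) :=
    ContinuousLinearEquiv.ofFinrankEq (by simp)
  let L' : C →L[𝕜] EuclideanSpace 𝕜 (Fin (Module.finrank 𝕜 C)) := L
  have l0 : 0 < ‖L'‖ + 1 := by positivity
  have hA : ∀ x, ‖((((‖L'‖ + 1)⁻¹ : ℝ) : 𝕜) • L') x‖ ≤ ‖x‖ := fun x => by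
    rw [smul_apply, norm_smul, RCLike.norm_ofReal, abs_of_pos (inv_pos.2 l0), inv_mul_le_iff₀ l0]
    nlinarith [L'.le_opNorm x, norm_nonneg x]
  have hI : Function.Injective ((((‖L'‖ + 1)⁻¹ : ℝ) : 𝕜) • L') := fun x y h =>
    L.injective (smul_right_injective _ ((RCLike.ofReal_ne_zero (K := 𝕜)).2 (inv_pos.2 l0).ne') h)
  obtain ⟨X, i1, i2, i3, E, hB⟩ := exists_space hA
  have i4 : FiniteDimensional 𝕜 X := E.toLinearEquiv.finiteDimensional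
  let ι := (E : C × 𝕜 →L[𝕜] X).comp (ContinuousLinearMap.inl 𝕜 C 𝕜)
  let π := (ContinuousLinearMap.fst 𝕜 C 𝕜).comp (E.symm : X →L[𝕜] C × 𝕜)
  have h1 : ‖ι‖ ≤ 1 := ContinuousLinearMap.opNorm_le_of_unit_norm zero_le_one fun y hy =>
    (hB (y, 0)).2 (mem_B hA hy.le (by simp [hy]))
  have h2 : ‖π‖ ≤ 1 := ContinuousLinearMap.opNorm_le_of_unit_norm zero_le_one fun x hx =>
    fst_le (mem_of_norm hB hx.le)
  have h3 : ∀ x, ‖π x‖ ≤ ‖x‖ := fun x => by simpa using π.le_of_opNorm_le h2 x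
  have h4 : ∀ y, π (ι y) = y := fun y => by simp [π, ι]
  exact ⟨X, i1, i2, i4, ι, π, fun y => le_antisymm (by simpa using ι.le_of_opNorm_le h1 y)
    (by simpa [h4] using h3 (ι y)), h3, h4, lc_all hA hI hB⟩

end Pool.Agent.H90.AseSpace
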