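import Mathlib

namespace Pool.Agent.H90.Bh

open Filter Topology InnerProductSpace ContinuousLinearMap
open scoped InnerProductSpace

variable {I : Type} (U : Ultrafilter I)

lemma ulim {Y : Type} [NormedAddCommGroup Y] [ProperSpace Y] (u : I → Y) (c : ℝ)
    (hu : ∀ᶠ i in U, ‖u i‖ ≤ c) : ∃ y, Tendsto u U (𝓝 y) := by
  obtain ⟨y, -, hy⟩ := (isCompact_closedBall (0 : Y) c).ultrafilter_le_nhds (U.map u)
    (le_principal_iff.2 (mem_map.2 (hu.mono fun n h => mem_closedBall_zero_iff.2 h)))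
  exact ⟨y, hy⟩

variable {H : Type} [NormedAddCommGroup H] [InnerProductSpace ℂ H]
  {V : Type} [AddCommGroup V] [Module ℂ V] (y : I → V →ₗ[ℂ] H)

lemma gs (hb : ∀ v, ∃ B, ∀ i, ‖y i v‖ ≤ B) (F : Finset V) : ∃ (r : ℕ) (b : Fin r → V),
    (∀ k l, Tendsto (fun i => ⟪y i (b k), y i (b l)⟫_ℂ) U (𝓝 (if k = l then 1 else 0))) ∧
    ∀ v ∈ F, ∃ α : Fin r → ℂ, Tendsto (fun i => y i v - ∑ k, α k • y i (b k)) U (𝓝 0) := by
  classical
  choose B hB using hb
  choose s hs using fun a b => ulim U (fun i => ⟪y i a, y i b⟫_ℂ) (B a * B b) (.of_forall fun i =>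
    (norm_inner_le_norm _ _).trans (mul_le_mul (hB a i) (hB b i) (norm_nonneg _)
      ((norm_nonneg _).trans (hB a i))))
  let c : PreInnerProductSpace.Core ℂ V :=
    { inner := s
      conj_inner_symm := fun a b => tendsto_nhds_unique
        (((Complex.continuous_conj.tendsto _).comp (hs b a)).congr fun i => inner_conj_symm _ _)
        (hs a b)
      re_inner_nonneg := fun a => ge_of_tendsto' ((RCLike.continuous_re.tendsto _).comp (hs a a))
        fun i => inner_self_nonneg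
      add_left := fun a b d => tendsto_nhds_unique (hs _ _) (((hs a d).add (hs b d)).congr
        fun i => by rw [map_add, inner_add_left])
      smul_left := fun a b d => tendsto_nhds_unique (hs _ _) (((hs a b).const_mul _).congr
        fun i => by rw [map_smul, inner_smul_left]) }
  let _ := InnerProductSpace.Core.toSeminormedAddCommGroup (c := c)
  let _ := InnerProductSpace.ofCore c
  let κ : V →L[ℂ] SeparationQuotient V := SeparationQuotient.mkCLM ℂ V
  have hκ : ∀ a b, ⟪κ a, κ b⟫_ℂ = s a b := fun _ _ => rfl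
  let W := Submodule.span ℂ (κ '' F)
  have : FiniteDimensional ℂ W := FiniteDimensional.span_of_finite ℂ (F.finite_toSet.image _)
  let e := stdOrthonormalBasis ℂ W
  choose b hb using fun k => SeparationQuotient.surjective_mk (e k : SeparationQuotient V)
  replace hb : ∀ k, κ (b k) = e k := hb
  refine ⟨_, b, fun k l => ?_, fun v hv => ?_⟩
  · rw [← orthonormal_iff_ite.1 e.orthonormal k l, Submodule.coe_inner, ← hb, ← hb]
    exact hs _ _
  · let v' : W := ⟨κ v, Submodule.subset_span ⟨v, hv, rfl⟩⟩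
    refine ⟨fun k => ⟪e k, v'⟫_ℂ, ?_⟩
    have h1 : κ (v - ∑ k, ⟪e k, v'⟫_ℂ • b k) = 0 := by
      have := congrArg W.subtype (e.sum_repr' v')
      simp only [map_sum, map_smul] at this
      simp only [map_sub, map_sum, map_smul, hb]
      exact sub_eq_zero.2 this.symm
    have h2 := (hs (v - ∑ k, ⟪e k, v'⟫_ℂ • b k) (v - ∑ k, ⟪e k, v'⟫_ℂ • b k)).norm.sqrt
    rw [← hκ, h1, inner_zero_left, norm_zero, Real.sqrt_zero] at h2
    refine tendsto_zero_iff_norm_tendsto_zero.2 (h2.congr fun i => ?_)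
    simp [inner_self_eq_norm_sq_to_K]

lemma tz {Y Z : Type} [NormedAddCommGroup Y] [NormedSpace ℂ Y] [NormedAddCommGroup Z]
    [NormedSpace ℂ Z] {l : Filter I} {R : I → Y →L[ℂ] Z} {u : I → Y} {c : ℝ}
    (h1 : ∀ᶠ i in l, ‖R i‖ ≤ c) (h2 : Tendsto u l (𝓝 0)) :
    Tendsto (fun i => R i (u i)) l (𝓝 0) :=
  squeeze_zero_norm' (h1.mono fun i h => (R i).le_of_opNorm_le h _)
    (by simpa using h2.norm.const_mul c)

variable [CompleteSpace H]

lemma syn (hb : ∀ v, ∃ B, ∀ i, ‖y i v‖ ≤ B) (F : Finset V) : ∃ (r : ℕ)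
    (R : I → EuclideanSpace ℂ (Fin r) →L[ℂ] H) (Λ : V →ₗ[ℂ] EuclideanSpace ℂ (Fin r)),
    (∀ᶠ i in U, ‖R i‖ ≤ 2) ∧ (∀ a, Tendsto (fun i => adjoint (R i) (y i a)) U (𝓝 (Λ a))) ∧
    ∀ v ∈ F, Tendsto (fun i => R i (Λ v) - y i v) U (𝓝 0) := by
  obtain ⟨r, b, h1, h2⟩ := gs U y hb F
  let e := EuclideanSpace.basisFun (Fin r) ℂ
  let R : I → EuclideanSpace ℂ (Fin r) →L[ℂ] H := fun i => ∑ k, rankOne ℂ (y i (b k)) (e k)
  have r1 : Tendsto (fun i => adjoint (R i) ∘L R i) U (𝓝 (.id ℂ _)) := by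
    have := tendsto_finsetSum Finset.univ fun k _ => tendsto_finsetSum Finset.univ fun l _ =>
      (h1 k l).smul_const (rankOne ℂ (e k) (e l))
    simp only [ite_smul, one_smul, zero_smul, Finset.sum_ite_eq, Finset.mem_univ, if_true,
      e.sum_rankOne_eq_id] at this
    refine this.congr fun i => ?_
    simp only [R, map_sum, adjoint_rankOne, finsetSum_comp, comp_finsetSum, rankOne_comp_rankOne]
    rw [Finset.sum_comm]
  have r2 : ∀ᶠ i in U, ‖R i‖ ≤ 2 := by
    filter_upwards [r1.norm.eventually_lt_const (norm_id_le.trans_lt (by norm_num : (1 : ℝ) < 4))]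
      with i hi
    rw [norm_adjoint_comp_self] at hi
    nlinarith [norm_nonneg (R i)]
  have r3 : ∀ᶠ i in U, ‖adjoint (R i)‖ ≤ 2 := by simpa using r2
  choose B hB using hb
  choose Λ hΛ using fun a => ulim U (fun i => adjoint (R i) (y i a)) (2 * B a) (r3.mono fun i h =>
    ((adjoint (R i)).le_of_opNorm_le h _).trans (by linarith [hB a i]))
  refine ⟨r, R, ⟨⟨Λ, fun a d => tendsto_nhds_unique (hΛ _) (((hΛ a).add (hΛ d)).congr fun i => by
      simp)⟩, fun c a => tendsto_nhds_unique (hΛ _) (((hΛ a).const_smul c).congr fun i => by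
      simp)⟩, r2, hΛ, fun v hv => ?_⟩
  obtain ⟨α, hα⟩ := h2 v hv
  have e1 : ∀ i, ∑ k, α k • y i (b k) = R i (WithLp.toLp 2 α) := fun i => by
    simp [R, e, EuclideanSpace.inner_single_left]
  simp only [e1] at hα
  have e2 : Λ v = WithLp.toLp 2 α := tendsto_nhds_unique (hΛ v) (by
    have := (tz r3 hα).add (((apply ℂ _ (WithLp.toLp 2 α)).continuous.tendsto _).comp r1)
    simpa using this)
  simpa [e2] using hα.neg

end Pool.Agent.H90.Bh
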