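import Mathlib
import Pool.Agent.H90.BhA

namespace Pool.Agent.H90.Bh

open Filter Topology InnerProductSpace ContinuousLinearMap
open scoped InnerProductSpace

lemma net {α Z : Type} [NormedAddCommGroup Z] (f : Finset α → Z)
    (h : ∀ n : ℕ, ∃ b, ∀ F, b ∈ F → n * ‖f F‖ ≤ 1) : Tendsto f atTop (𝓝 0) := by
  refine NormedAddGroup.tendsto_nhds_zero.2 fun ε hε => ?_
  obtain ⟨n, hn⟩ := exists_nat_gt ε⁻¹
  obtain ⟨b, hb⟩ := h n
  filter_upwards [eventually_ge_atTop {b}] with F hF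
  have := hb F (hF (Finset.mem_singleton_self b))
  by_contra h1
  rw [inv_lt_iff_one_lt_mul₀ hε] at hn
  nlinarith [n.cast_nonneg (α := ℝ)]

variable {I : Type} (U : Ultrafilter I)

lemma null (a : I → ℕ → ℝ) (h0 : ∀ i j, 0 ≤ a i j) (h1 : ∀ i, Summable (a i))
    (h2 : ∀ i, ∑' j, a i j ≤ 1) (h3 : ∀ j, Tendsto (fun i => a i j) U (𝓝 0)) :
    ∃ S : Set ℕ, S.Infinite ∧ Tendsto (fun i => ∑' j, S.indicator (a i) j) U (𝓝 0) := by
  have n0 : ∀ (S : Set ℕ) i j, 0 ≤ S.indicator (a i) j := fun S i j =>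
    Set.indicator_nonneg (fun j _ => h0 i j) j
  have n1 : ∀ (S : Set ℕ) i, ∑' j, S.indicator (a i) j ≤ 1 := fun S i =>
    (((h1 i).indicator S).tsum_le_tsum (Set.indicator_le_self' (fun j _ => h0 i j)) (h1 i)).trans
      (h2 i)
  choose m hm using fun S : Set ℕ => ulim U (fun i => ∑' j, S.indicator (a i) j) 1
    (.of_forall fun i => by rw [Real.norm_of_nonneg (tsum_nonneg (n0 S i))]; exact n1 S i)
  have m0 : ∀ S, 0 ≤ m S := fun S => ge_of_tendsto' (hm S) fun i => tsum_nonneg (n0 S i)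
  have m1 : ∀ S T R : Set ℕ, S ⊆ T ∪ R → m S ≤ m T + m R := fun S T R h =>
    le_of_tendsto_of_tendsto' (hm S) ((hm T).add (hm R)) fun i => by
      rw [← ((h1 i).indicator T).tsum_add ((h1 i).indicator R)]
      refine ((h1 i).indicator S).tsum_le_tsum (fun j => ?_)
        (((h1 i).indicator T).add ((h1 i).indicator R))
      by_cases hj : j ∈ S
      · rcases h hj with h | h
        · simp [hj, h, n0]
        · simp [hj, h, n0]
      · simp [hj, add_nonneg (n0 T i j) (n0 R i j)]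
  have m2 : ∀ S T R : Set ℕ, T ⊆ S → R ⊆ S → Disjoint T R → m T + m R ≤ m S := fun S T R t r h =>
    le_of_tendsto_of_tendsto' ((hm T).add (hm R)) (hm S) fun i => by
      rw [← ((h1 i).indicator T).tsum_add ((h1 i).indicator R)]
      refine (((h1 i).indicator T).add ((h1 i).indicator R)).tsum_le_tsum (fun j => ?_)
        ((h1 i).indicator S)
      exact (congrFun (Set.indicator_union_of_disjoint h _) j).symm.trans_le
        (Set.indicator_le_indicator_of_subset (Set.union_subset t r) (h0 i) j)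
  have m3 : ∀ s : Finset ℕ, m s = 0 := fun s => tendsto_nhds_unique (hm s) (by
    simpa only [← sum_eq_tsum_indicator, Finset.sum_const_zero] using
      tendsto_finsetSum s fun j _ => h3 j)
  have half : ∀ S : {S : Set ℕ // S.Infinite}, ∃ T : {S : Set ℕ // S.Infinite},
      T.1 ⊆ S.1 ∧ m T ≤ m S / 2 := fun S => by
    let f := S.2.natEmbedding
    have hf : Function.Injective fun n => (f n : ℕ) := Subtype.val_injective.comp f.injective
    have := m2 S (Set.range fun n => f (2 * n)) (Set.range fun n => f (2 * n + 1))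
      (by rintro _ ⟨n, rfl⟩; exact (f _).2) (by rintro _ ⟨n, rfl⟩; exact (f _).2)
      (Set.disjoint_left.2 (by rintro _ ⟨n, rfl⟩ ⟨k, hk⟩; have := hf hk; omega))
    by_cases h : m (Set.range fun n => f (2 * n)) ≤ m S / 2
    · exact ⟨⟨_, Set.infinite_range_of_injective fun n k hk => by have := hf hk; omega⟩,
        by rintro _ ⟨n, rfl⟩; exact (f _).2, h⟩
    · exact ⟨⟨Set.range fun n => f (2 * n + 1), Set.infinite_range_of_injective
        fun n k hk => by have := hf hk; omega⟩, by rintro _ ⟨n, rfl⟩; exact (f _).2,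
        by linarith [not_le.1 h]⟩
  choose g g1 g2 using half
  let T : ℕ → {S : Set ℕ // S.Infinite} := fun k => g^[k] ⟨_, Set.infinite_univ⟩
  have t0 : ∀ k, T (k + 1) = g (T k) := fun k => Function.iterate_succ_apply' _ _ _
  have t1 : Antitone fun k => (T k).1 := antitone_nat_of_succ_le fun k => by
    rw [t0]; exact g1 _
  have t2 : ∀ k, m (T k) ≤ (1 / 2) ^ k := fun k => by
    induction k with
    | zero => exact le_of_tendsto' (hm _) (n1 _)
    | succ k ih => rw [t0, pow_succ]; linarith [g2 (T k)]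
  choose n n2 n3 using fun k => (T k).2.exists_gt k
  refine ⟨Set.range n, Set.infinite_of_forall_exists_gt fun k => ⟨_, ⟨k, rfl⟩, n3 k⟩, ?_⟩
  have : m (Set.range n) = 0 := le_antisymm (ge_of_tendsto' (tendsto_pow_atTop_nhds_zero_of_lt_one
    (by norm_num : (0 : ℝ) ≤ 1 / 2) (by norm_num)) fun k => by
      have := m1 (Set.range n) (T k) ((Finset.range k).image n) (by
        rintro _ ⟨j, rfl⟩
        rcases le_or_gt k j with h | h
        · exact .inl (t1 h (n2 j))
        · exact .inr (Finset.mem_image_of_mem _ (Finset.mem_range.2 h)))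
      linarith [m3 ((Finset.range k).image n), t2 k]) (m0 _)
  exact this ▸ hm _

variable {H : Type} [NormedAddCommGroup H] [InnerProductSpace ℂ H]

lemma perp {l : Filter I} (η : I → H) (h1 : ∀ i, ‖η i‖ = 1)
    (h2 : ∀ x, Tendsto (fun i => rankOne ℂ x x (η i)) l (𝓝 0)) (s : Finset H) :
    ∀ᶠ i in l, ∃ ζ : H, ‖ζ‖ = 1 ∧ (∀ x ∈ s, ⟪x, ζ⟫_ℂ = 0) ∧ 3 / 4 ≤ ‖⟪ζ, η i⟫_ℂ‖ := by
  let K := Submodule.span ℂ (s : Set H)
  have := tendsto_finsetSum Finset.univ fun k _ => h2 (stdOrthonormalBasis ℂ K k)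
  simp only [← sum_apply, ← OrthonormalBasis.starProjection_eq_sum_rankOne,
    Finset.sum_const_zero] at this
  filter_upwards [this.norm.eventually_lt_const (by norm_num : ‖(0 : H)‖ < 1 / 4)] with i hi
  have h3 := K.sub_starProjection_mem_orthogonal (η i)
  have h4 := norm_sub_norm_le (η i) (K.starProjection (η i))
  have h5 : ⟪η i - K.starProjection (η i), K.starProjection (η i)⟫_ℂ = 0 :=
    Submodule.inner_left_of_mem_orthogonal (K.starProjection_apply_mem _) h3
  generalize K.starProjection (η i) = p at *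
  obtain ⟨z, hz⟩ : ∃ z, η i = z + p := ⟨η i - p, by simp⟩
  rw [h1] at h4
  rw [hz, add_sub_cancel_right] at h3 h4 h5
  rw [hz]
  have h6 : 0 < ‖z‖ := by linarith
  refine ⟨(‖z‖⁻¹ : ℂ) • z, norm_smul_inv_norm (norm_pos_iff.1 h6), fun x hx => ?_, ?_⟩
  · rw [inner_smul_right, Submodule.inner_right_of_mem_orthogonal (Submodule.subset_span hx) h3,
      mul_zero]
  · rw [inner_smul_left, inner_add_right, h5, add_zero, inner_self_eq_norm_sq_to_K]
    simp only [norm_mul, RCLike.norm_conj, norm_inv, norm_pow, RCLike.norm_ofReal,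
      Complex.norm_real, norm_norm, abs_norm]
    rw [sq, inv_mul_cancel_left₀ h6.ne']
    linarith

variable [CompleteSpace H]

lemma exQ {ι : Type} {v : ι → H} (hv : Orthonormal ℂ v) : ∃ Q : H →L[ℂ] H,
    (∀ x, ‖Q x‖ ^ 2 = ∑' i, ‖⟪v i, x⟫_ℂ‖ ^ 2) ∧ ∀ i x, ⟪v i, Q x⟫_ℂ = ⟪v i, x⟫_ℂ := by
  classical
  let V := hv.orthogonalFamily.linearIsometry
  have h1 : ∀ i, v i = V (lp.single 2 i 1) := fun i => by
    simp [V, OrthogonalFamily.linearIsometry_apply_single]
  have h2 : ∀ i x, ⟪v i, V x⟫_ℂ = x i := fun i x => by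
    rw [h1, V.inner_map_map, lp.inner_single_left]; simp
  have h3 : ∀ i x, adjoint V.toContinuousLinearMap x i = ⟪v i, x⟫_ℂ := fun i x => by
    rw [← h2, h1, V.inner_map_map, adjoint_inner_right]; rfl
  refine ⟨V.toContinuousLinearMap ∘L adjoint V.toContinuousLinearMap, fun x => ?_,
    fun i x => (h2 i _).trans (h3 i x)⟩
  have := lp.norm_rpow_eq_tsum (p := 2) (by norm_num) (adjoint V.toContinuousLinearMap x)
  simpa [h3] using this

lemma trans (η : I → H) (h1 : ∀ i, ‖η i‖ = 1) {m : ℕ} (c : Fin m → H →L[ℂ] H) {δ : ℝ}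
    (hδ : 0 < δ) : ∃ B ∈ U, ∀ j ∈ B, ∀ k ∈ B, ∃ W : H →L[ℂ] H, ‖W‖ ≤ 4 ∧
      ∀ i x, ‖⟪η k, c i (W x)⟫_ℂ - ⟪η j, c i x⟫_ℂ‖ ≤ δ * ‖x‖ := by
  classical
  obtain ⟨r, R, Λ, r1, r2, r3⟩ := syn U (fun i => (apply ℂ H (η i)).toLinearMap)
    (fun a => ⟨‖a‖, fun i => by simpa [h1] using a.le_opNorm (η i)⟩)
    (Finset.univ.image fun i => adjoint (c i))
  have d3 : ‖(0 : H)‖ < δ / 3 := by simpa using hδ
  refine ⟨_, r1.and ((eventually_all.2 fun i => (tendsto_iff_norm_sub_tendsto_zero.1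
    (r2 (adjoint (c i)))).eventually_lt_const (show 0 < δ / 3 by positivity)).and
    (eventually_all.2 fun i => (r3 _ (Finset.mem_image_of_mem _ (Finset.mem_univ i))).norm
      |>.eventually_lt_const d3)), fun j ⟨j1, _, j3⟩ k ⟨k1, k2, _⟩ =>
    ⟨R k ∘L adjoint (R j), (opNorm_comp_le _ _).trans ?_, fun i x => ?_⟩⟩
  · rw [LinearIsometryEquiv.norm_map]
    nlinarith [norm_nonneg (R j)]
  · rw [← adjoint_inner_left, ← adjoint_inner_left (c i), comp_apply, ← adjoint_inner_left,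
      adjoint_inner_right, ← inner_sub_left]
    refine (norm_inner_le_norm _ _).trans (mul_le_mul_of_nonneg_right ?_ (norm_nonneg _))
    have h2 := (R j).le_of_opNorm_le j1 (adjoint (R k) (adjoint (c i) (η k)) - Λ (adjoint (c i)))
    rw [map_sub] at h2
    refine (norm_sub_le_norm_sub_add_norm_sub _ (R j (Λ (adjoint (c i)))) _).trans ?_
    have h3 : ‖adjoint (R k) (adjoint (c i) (η k)) - Λ (adjoint (c i))‖ < δ / 3 := k2 i
    have h4 : ‖R j (Λ (adjoint (c i))) - adjoint (c i) (η j)‖ < δ / 3 := j3 i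
    linarith

end Pool.Agent.H90.Bh
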