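import Mathlib

namespace Pool.Agent.H90.Gd

open Filter Topology

section Cob
variable {H E : Type} [AddCommGroup E]

def cob (f : List H → E) : List H → E
  | [] => 0
  | l :: s => f s - cob (fun t => f (l :: t)) s

lemma cob_ind (P : E → ℝ → Prop) (h0 : P 0 0)
    (h1 : ∀ a b x y, P a x → P b y → P (a - b) (x + y)) (c : ℝ) (t : List H) :
    ∀ f : List H → E, (∀ s, s.length + 1 = t.length → P (f s) c) → P (cob f t) (t.length * c) := by
  induction t with
  | nil => intro f _; simpa [cob] using h0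
  | cons l t ih =>
    intro f hf
    have := h1 _ _ _ _ (hf t rfl) (ih (fun s => f (l :: s)) fun s hs => hf _ (by simpa using hs))
    rw [cob, List.length_cons]; push_cast; rw [add_mul, one_mul, add_comm]; exact this

lemma cob_map {Y : Type} [AddCommGroup Y] (F : E →+ Y) (t : List H) :
    ∀ f : List H → E, cob (fun s => F (f s)) t = F (cob f t) := by
  induction t with
  | nil => intro f; simp [cob]
  | cons l t ih => intro f; rw [cob, cob, map_sub, ih]

lemma cob_sub (t : List H) : ∀ f g : List H → E, cob (fun s => f s - g s) t = cob f t - cob g t := by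
  induction t with
  | nil => intro f g; simp [cob]
  | cons l t ih => intro f g; rw [cob, cob, cob, ih]; abel

lemma cob_congr {f g : List H → E} (t : List H) (h : ∀ s, s.length + 1 = t.length → f s = g s) :
    cob f t = cob g t := by
  rw [← sub_eq_zero, ← cob_sub]
  exact cob_ind (fun a _ => a = 0) rfl (fun a b _ _ h1 h2 => by rw [h1, h2, sub_zero]) 0 t _
    fun s hs => sub_eq_zero.2 (h s hs)

lemma cob_cob (t : List H) : ∀ f : List H → E, cob (cob f) t = 0 := by
  induction t with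
  | nil => intro f; rfl
  | cons l t ih => intro f; rw [cob]; simp only [cob]; rw [cob_sub, ih]; simp

lemma cob_lmap (k : H → H) (t : List H) :
    ∀ f : List H → E, cob f (t.map k) = cob (fun s => f (s.map k)) t := by
  induction t with
  | nil => intro f; rfl
  | cons l t ih => intro f; rw [List.map_cons, cob, cob, ih]; rfl

lemma cob_fam {I : Type} (f : List H → I → E) (t : List H) (i : I) :
    cob f t i = cob (fun s => f s i) t :=
  (cob_map (Pi.evalAddMonoidHom (fun _ => E) i) t f).symm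

lemma cob_prod {Y : Type} [AddCommGroup Y] (t : List H) : ∀ (f : List H → E) (g : List H → Y),
    cob (fun s => (f s, g s)) t = (cob f t, cob g t) := by
  induction t with
  | nil => intro f g; rfl
  | cons l t ih => intro f g; rw [cob, cob, cob, ih]; rfl

end Cob

variable {H : Type} [AddCommGroup H]

def sh (h : H) (t : List H) : List H := t.map (h + ·)

@[simp] lemma sh_len (h : H) (t : List H) : (sh h t).length = t.length := List.length_map _
@[simp] lemma sh_zero (t : List H) : sh 0 t = t := by simp [sh]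
lemma sh_sh (h k : H) (t : List H) : sh h (sh k t) = sh (h + k) t := by
  simp [sh, add_assoc]

lemma cob_sh {E : Type} [AddCommGroup E] (f : List H → E) (h : H) (t : List H) :
    cob f (sh h t) = cob (fun s => f (sh h s)) t := cob_lmap _ t f

section
variable {E : Type} [NormedAddCommGroup E]

def SB (j : ℕ) (φ : List H → E) (C : ℝ) : Prop :=
  ∀ t : List H, t.length = j → ∀ s : Finset H, ∑ h ∈ s, ‖φ (sh h t)‖ ≤ C

omit [AddCommGroup H] in
lemma sum_sub_le {u v : H → E} {x y : ℝ} (h1 : ∀ s : Finset H, ∑ h ∈ s, ‖u h‖ ≤ x)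
    (h2 : ∀ s : Finset H, ∑ h ∈ s, ‖v h‖ ≤ y) (s : Finset H) : ∑ h ∈ s, ‖u h - v h‖ ≤ x + y :=
  (Finset.sum_le_sum fun _ _ => norm_sub_le _ _).trans
    (by rw [Finset.sum_add_distrib]; exact add_le_add (h1 s) (h2 s))

lemma SB.cob {j : ℕ} {φ : List H → E} {C : ℝ} (h : SB j φ C) :
    SB (j + 1) (cob φ) ((j + 1 : ℕ) * C) := by
  intro t ht s
  have := cob_ind (E := H → E) (fun v c => ∀ s : Finset H, ∑ h ∈ s, ‖v h‖ ≤ c) (by simp)
    (fun a b x y h1 h2 => sum_sub_le h1 h2) C t (fun s h => φ (sh h s))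
    (fun s hs => h s (by omega)) s
  simpa only [cob_fam, ← cob_sh, ht] using this

lemma ulim [NormedSpace ℂ E] (U : Ultrafilter ℕ) (a : ℕ → E) (B : ℝ) (h : ∀ n, ‖a n‖ ≤ B) :
    ∃ (z : StrongDual ℂ (StrongDual ℂ E)) (r : ℝ), Tendsto (fun n => ‖a n‖) U (𝓝 r) ∧ ‖z‖ ≤ r ∧
      ∀ ξ : StrongDual ℂ E, Tendsto (fun n => ξ (a n)) U (𝓝 (z ξ)) := by
  have key : ∀ {Y : Type} [NormedAddCommGroup Y] [ProperSpace Y] (u : ℕ → Y) (c : ℝ),
      (∀ n, ‖u n‖ ≤ c) → ∃ y, Tendsto u U (𝓝 y) := fun u c hu => by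
    obtain ⟨y, -, hy⟩ := (isCompact_closedBall (0 : _) c).ultrafilter_le_nhds (U.map u)
      (le_principal_iff.2 (mem_map.2 (univ_mem' fun n => mem_closedBall_zero_iff.2 (hu n))))
    exact ⟨y, hy⟩
  obtain ⟨r, hr⟩ := key (fun n => ‖a n‖) B (by simpa using h)
  choose z hz using fun ξ : StrongDual ℂ E => key (fun n => ξ (a n)) (‖ξ‖ * B) fun n =>
    (ξ.le_opNorm _).trans (mul_le_mul_of_nonneg_left (h n) (norm_nonneg _))
  let L : StrongDual ℂ E →ₗ[ℂ] ℂ :=
    { toFun := z
      map_add' := fun x y => tendsto_nhds_unique (hz _) ((hz x).add (hz y))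
      map_smul' := fun c x => tendsto_nhds_unique (hz _) ((hz x).const_smul c) }
  have hb : ∀ ξ, ‖L ξ‖ ≤ r * ‖ξ‖ := fun ξ =>
    le_of_tendsto_of_tendsto' (hz ξ).norm (hr.mul_const _) fun n => by
      rw [mul_comm]; exact ξ.le_opNorm _
  exact ⟨L.mkContinuous r hb, r, hr,
    L.mkContinuous_norm_le (ge_of_tendsto' hr fun _ => norm_nonneg _) hb, hz⟩

end

def Fol (H : Type) [AddCommGroup H] : Prop :=
  ∃ F : ℕ → Finset H, (∀ n, (F n).Nonempty) ∧ ∀ h, ∀ᶠ n in atTop, ∀ x, x ∈ F n ↔ h + x ∈ F n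

lemma bid (hF : Fol H) {E : Type} [NormedAddCommGroup E] [NormedSpace ℂ E] {j : ℕ}
    {φ : List H → E} {C : ℝ} (h1 : SB (j + 1) φ C)
    (h2 : ∀ t : List H, t.length = j + 2 → cob φ t = 0) :
    ∃ ψ : List H → StrongDual ℂ (StrongDual ℂ E), SB j ψ C ∧
      ∀ t : List H, t.length = j + 1 → cob ψ t = NormedSpace.inclusionInDoubleDualLi ℂ (φ t) := by
  obtain ⟨F, hne, hF⟩ := hF
  let U : Ultrafilter ℕ := hyperfilter ℕ
  have hU : (U : Filter ℕ) ≤ atTop := Nat.hyperfilter_le_atTop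
  let a : List H → ℕ → E := fun t n => ((F n).card : ℂ)⁻¹ • ∑ x ∈ F n, φ (x :: t)
  have hc : ∀ n, (0 : ℝ) < (F n).card := fun n => by exact_mod_cast (hne n).card_pos
  have an : ∀ t n, ‖a t n‖ ≤ ((F n).card : ℝ)⁻¹ * ∑ x ∈ F n, ‖φ (x :: t)‖ := fun t n => by
    simp only [a, norm_smul, norm_inv, Complex.norm_natCast]
    exact mul_le_mul_of_nonneg_left (norm_sum_le _ _) (by positivity)
  have av : ∀ n (u : H → ℝ), (∀ x, u x ≤ C) → ((F n).card : ℝ)⁻¹ * ∑ x ∈ F n, u x ≤ C := by
    intro n u hu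
    rw [inv_mul_le_iff₀ (hc n), ← nsmul_eq_mul]
    exact Finset.sum_le_card_nsmul _ _ _ fun x _ => hu x
  have ab : ∀ t : List H, t.length = j → ∀ n, ‖a t n‖ ≤ C := fun t ht n =>
    (an t n).trans (av n _ fun x => by simpa using h1 (x :: t) (by simp [ht]) {0})
  have : ∀ t : List H, ∃ (z : StrongDual ℂ (StrongDual ℂ E)) (r : ℝ), t.length = j →
      Tendsto (fun n => ‖a t n‖) U (𝓝 r) ∧ ‖z‖ ≤ r ∧
      ∀ ξ : StrongDual ℂ E, Tendsto (fun n => ξ (a t n)) U (𝓝 (z ξ)) := fun t => by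
    by_cases ht : t.length = j
    · obtain ⟨z, r, h⟩ := ulim U (a t) C (ab t ht)
      exact ⟨z, r, fun _ => h⟩
    · exact ⟨0, 0, fun h => (ht h).elim⟩
  choose ψ r hψ using this
  refine ⟨ψ, fun t ht s => ?_, fun t ht => ?_⟩
  · refine (Finset.sum_le_sum fun h _ => (hψ (sh h t) (by simp [ht])).2.1).trans
      (le_of_tendsto (tendsto_finsetSum s fun h _ => (hψ (sh h t) (by simp [ht])).1) ?_)
    filter_upwards [hU ((eventually_all_finset s).2 fun h _ => hF h)] with n hn
    refine (Finset.sum_le_sum fun h _ => an _ n).trans ?_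
    rw [← Finset.mul_sum, Finset.sum_congr rfl fun h hh =>
      (Finset.sum_equiv (g := fun x => ‖φ (x :: sh h t)‖) (f := fun x => ‖φ (sh h (x :: t))‖)
        (Equiv.addLeft h) (hn h hh) fun _ _ => rfl).symm, Finset.sum_comm]
    exact av n _ fun x => h1 _ (by simp [ht]) s
  · ext ξ
    have h3 := cob_ind (E := (ℕ → ℂ) × ℂ) (fun v _ => Tendsto v.1 U (𝓝 v.2)) tendsto_const_nhds
      (fun a b _ _ h1 h2 => h1.sub h2) 0 t (fun s => (fun n => ξ (a s n), ψ s ξ))
      fun s hs => (hψ s (by omega)).2.2 ξ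
    rw [cob_prod] at h3
    have h4 : cob (fun s => fun n => ξ (a s n)) t = fun _ => ξ (φ t) := by
      ext n
      let A : (H → E) →+ ℂ := AddMonoidHom.mk' (fun u => ξ (((F n).card : ℂ)⁻¹ • ∑ x ∈ F n, u x))
        fun u v => by simp [Finset.sum_add_distrib]
      have h5 := cob_map A t fun s x => φ (x :: s)
      have h6 : cob (fun s x => φ (x :: s)) t = fun _ => φ t := by
        ext x
        rw [cob_fam]
        exact (sub_eq_zero.1 (h2 (x :: t) (by simp [ht]))).symm
      rw [cob_fam]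
      refine h5.trans ?_
      have : ((F n).card : ℂ) ≠ 0 := by exact_mod_cast (hne n).card_pos.ne'
      simp [h6, A, ← Nat.cast_smul_eq_nsmul ℂ, this]
    refine Eq.trans ?_ (tendsto_nhds_unique (h4 ▸ h3) tendsto_const_nhds)
    exact (cob_map (ContinuousLinearMap.apply ℂ ℂ ξ).toLinearMap.toAddMonoidHom t ψ).symm

theorem lemA [Infinite H] (hF : Fol H) (j : ℕ) : ∀ (E : Type) [NormedAddCommGroup E]
    [NormedSpace ℂ E] [CompleteSpace E] (φ : List H → E) (C : ℝ), SB (j + 1) φ C →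
    (∀ t : List H, t.length = j + 2 → cob φ t = 0) →
    ∃ (ψ : List H → E) (D : ℝ), SB j ψ D ∧ ψ [] = 0 ∧
      ∀ t : List H, t.length = j + 1 → cob ψ t = φ t := by
  induction j with
  | zero =>
    intro E _ _ _ φ C h1 h2
    refine ⟨0, 0, fun t _ s => by simp, rfl, fun t ht => ?_⟩
    obtain ⟨a, rfl⟩ := List.length_eq_one_iff.1 ht
    have h3 : ∀ b, φ [b] = φ [a] := fun b => by simpa [cob, sub_eq_zero] using h2 [a, b] rfl
    by_contra h
    have h4 : 0 < ‖φ [a]‖ := norm_pos_iff.2 fun e => h (by simp [cob, e])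
    obtain ⟨n, hn⟩ := exists_nat_gt (C / ‖φ [a]‖)
    obtain ⟨s, rfl⟩ := Infinite.exists_subset_card_eq H n
    have := h1 [a] rfl s
    simp only [sh, List.map_cons, List.map_nil, h3, Finset.sum_const, nsmul_eq_mul] at this
    rw [div_lt_iff₀ h4] at hn
    linarith
  | succ j ih =>
    intro E _ _ _ φ C h1 h2
    obtain ⟨Y, _, _, _, i, ψ, p1, p2⟩ : ∃ (Y : Type) (_ : NormedAddCommGroup Y)
        (_ : NormedSpace ℂ Y) (_ : CompleteSpace Y) (i : E →ₗᵢ[ℂ] Y) (ψ : List H → Y),
        SB (j + 1) ψ C ∧ ∀ t : List H, t.length = j + 2 → cob ψ t = i (φ t) := by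
      obtain ⟨ψ, h⟩ := bid hF h1 h2
      exact ⟨StrongDual ℂ (StrongDual ℂ E), inferInstance, inferInstance, inferInstance,
        NormedSpace.inclusionInDoubleDualLi ℂ (E := E), ψ, h⟩
    let S := LinearMap.range i.toLinearMap
    have : IsClosed (S : Set Y) := i.isometry.isClosedEmbedding.isClosed_range
    obtain ⟨χ, D, q1, -, q2⟩ := ih (_ ⧸ S) (fun t => S.mkQ (ψ t)) C
      (fun t ht s => (Finset.sum_le_sum fun h _ => Submodule.Quotient.norm_mk_le _ _).trans
        (p1 t ht s)) fun t ht => by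
          rw [show cob (fun t => S.mkQ (ψ t)) t = _ from cob_map S.mkQ.toAddMonoidHom t ψ, p2 t ht]
          exact (Submodule.Quotient.mk_eq_zero _).2 ⟨_, rfl⟩
    have : ∀ x : _ ⧸ S, ∃ m, S.mkQ m = x ∧ ‖m‖ ≤ 2 * ‖x‖ := fun x => by
      by_cases hx : x = 0
      · exact ⟨0, by simp [hx], by simp⟩
      · obtain ⟨m, h1, h2⟩ := Submodule.Quotient.norm_mk_lt x (norm_pos_iff.2 hx)
        exact ⟨m, h1, by linarith⟩
    choose σ s1 s2 using this
    have q3 : SB j (fun t => σ (χ t)) (2 * D) := fun t ht s =>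
      (Finset.sum_le_sum fun h _ => s2 _).trans (by
        rw [← Finset.mul_sum]; linarith [q1 t ht s])
    have : ∀ t : List H, ∃ e : E, (t = [] → e = 0) ∧
        (t.length = j + 1 → i e = ψ t - cob (fun t => σ (χ t)) t) := fun t => by
      by_cases ht : t.length = j + 1
      · have : ψ t - cob (fun t => σ (χ t)) t ∈ S := by
          rw [← Submodule.Quotient.mk_eq_zero, ← Submodule.mkQ_apply, map_sub, ← q2 t ht,
            sub_eq_zero]
          refine Eq.trans ?_ (cob_map S.mkQ.toAddMonoidHom t _)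
          exact cob_congr t fun s _ => (s1 _).symm
        obtain ⟨e, he⟩ := this
        exact ⟨e, fun h => by simp [h] at ht, fun _ => he⟩
      · exact ⟨0, fun _ => rfl, fun h => (ht h).elim⟩
    choose e e1 e2 using this
    refine ⟨e, C + _, fun t ht s => le_trans (le_of_eq ?_) (sum_sub_le (p1 t ht) (q3.cob t ht) s),
      e1 _ rfl, fun t ht => i.injective ?_⟩
    · exact Finset.sum_congr rfl fun h _ => by rw [← e2 _ (by simp [ht]), i.norm_map]
    · rw [← p2 t ht, ← sub_zero (cob ψ t), ← cob_cob t (fun t => σ (χ t)), ← cob_sub]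
      refine (cob_map i.toLinearMap.toAddMonoidHom t e).symm.trans ?_
      exact cob_congr t fun s hs => e2 s (by omega)

end Pool.Agent.H90.Gd
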