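import Mathlib
import Pool.Agent.H90.GdA

namespace Pool.Agent.H90.Gd

open Filter Topology

variable {H : Type} [AddCommGroup H]
variable {X X' : Type} [NormedAddCommGroup X] [NormedSpace ℂ X] [NormedAddCommGroup X']
  [NormedSpace ℂ X']

def IsRep (U : H → X →L[ℂ] X) : Prop :=
  (∀ h k x, U h (U k x) = U (h + k) x) ∧ ∃ C, 0 ≤ C ∧ ∀ h x, ‖U h x‖ ≤ C * ‖x‖

def Coch (U : H → X →L[ℂ] X) (K : Submodule ℂ X) (j : ℕ) (f : List H → X) : Prop :=
  ∃ B, ∀ t : List H, t.length = j → f t ∈ K ∧ ‖f t‖ ≤ B ∧ ∀ h, f (sh h t) = U h (f t)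

def Acy (U : H → X →L[ℂ] X) (K : Submodule ℂ X) : Prop :=
  ∀ j f, Coch U K (j + 1) f → (∀ t : List H, t.length = j + 2 → cob f t = 0) →
    ∃ g, Coch U K j g ∧ g [] = 0 ∧ ∀ t : List H, t.length = j + 1 → cob g t = f t

omit [AddCommGroup H] in
lemma cob_clm (D : X →L[ℂ] X') (f : List H → X) (t : List H) :
    cob (fun s => D (f s)) t = D (cob f t) := cob_map D.toLinearMap.toAddMonoidHom t f

lemma Coch.fix {U : H → X →L[ℂ] X} {K j f} (h : Coch U K j f) {t : List H} (ht : t.length = j) :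
    U 0 (f t) = f t := by
  obtain ⟨B, h⟩ := h
  rw [← (h t ht).2.2, sh_zero]

lemma Coch.cob {U : H → X →L[ℂ] X} {K j f} (h : Coch U K j f) : Coch U ⊤ (j + 1) (cob f) := by
  obtain ⟨B, h⟩ := h
  refine ⟨(j + 1 : ℕ) * B, fun t ht => ⟨trivial, ?_, fun k => ?_⟩⟩
  · rw [← ht]
    exact cob_ind (fun v c => ‖v‖ ≤ c) (by simp)
      (fun a b x y h1 h2 => (norm_sub_le _ _).trans (add_le_add h1 h2)) B t f
      fun s hs => (h s (by omega)).2.1
  · rw [cob_sh, ← cob_clm]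
    exact cob_congr t fun s hs => (h s (by omega)).2.2 k

theorem acy_of_Q [Infinite H] (hF : Fol H) [CompleteSpace X] {U Q : H → X →L[ℂ] X} (hU : IsRep U)
    {C : ℝ} (hC : 0 ≤ C) (q1 : ∀ x (s : Finset H), ∑ h ∈ s, ‖Q h x‖ ≤ C * ‖x‖)
    (q2 : ∀ x, HasSum (fun h => Q h x) (U 0 x)) (q3 : ∀ h x, Q 0 (U h x) = U h (Q h x)) :
    Acy U ⊤ := by
  intro j f hf hc
  obtain ⟨u1, K, hK, u2⟩ := hU
  obtain ⟨B, hB⟩ := id hf
  obtain ⟨ψ, D, p1, p2, p3⟩ := lemA hF j X (fun t => Q 0 (f t)) (K * (C * B))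
    (fun t ht s => by
      refine (Finset.sum_le_sum fun h _ => show _ ≤ K * ‖Q h (f t)‖ by
        beta_reduce; rw [(hB t ht).2.2, q3]; exact u2 _ _).trans ?_
      rw [← Finset.mul_sum]
      exact mul_le_mul_of_nonneg_left ((q1 _ s).trans
        (mul_le_mul_of_nonneg_left (hB t ht).2.1 hC)) hK)
    fun t ht => by rw [cob_clm, hc t ht, map_zero]
  have hb : ∀ t : List H, t.length = j → ∀ s : Finset H,
      ∑ h ∈ s, ‖U (-h) (ψ (sh h t))‖ ≤ K * D := fun t ht s =>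
    (Finset.sum_le_sum fun h _ => u2 _ _).trans (by
      rw [← Finset.mul_sum]; exact mul_le_mul_of_nonneg_left (p1 t ht s) hK)
  have hn : ∀ t : List H, t.length = j → Summable fun h => ‖U (-h) (ψ (sh h t))‖ := fun t ht =>
    summable_of_sum_le (fun _ => norm_nonneg _) (hb t ht)
  have hs : ∀ t : List H, t.length = j → HasSum (fun h => U (-h) (ψ (sh h t)))
      (∑' h, U (-h) (ψ (sh h t))) := fun t ht => (hn t ht).of_norm.hasSum
  refine ⟨fun t => ∑' h, U (-h) (ψ (sh h t)), ⟨K * D, fun t ht => ⟨trivial, ?_, fun k => ?_⟩⟩,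
    by simp [sh, p2], fun t ht => ?_⟩
  · exact (norm_tsum_le_tsum_norm (hn t ht)).trans ((hn t ht).tsum_le_of_sum_le (hb t ht))
  · refine HasSum.tsum_eq ?_
    have := (Equiv.addRight k).hasSum_iff.2 ((hs t ht).mapL (U k))
    have e : (fun h => U (-h) (ψ (sh h (sh k t)))) =
        (fun h => U k (U (-h) (ψ (sh h t)))) ∘ Equiv.addRight k := by
      ext h; simp [u1, sh_sh]
    rw [e]; exact this
  · have h1 := cob_ind (E := (H → X) × X) (fun v _ => HasSum v.1 v.2) hasSum_zero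
      (fun a b _ _ h1 h2 => h1.sub h2) 0 t
      (fun s => (fun h => U (-h) (ψ (sh h s)), ∑' h, U (-h) (ψ (sh h s))))
      fun s h => hs s (by omega)
    rw [cob_prod] at h1
    have h2 := (q2 (f t)).mapL (U 0)
    rw [hf.fix ht, hf.fix ht] at h2
    have e : cob (fun s h => U (-h) (ψ (sh h s))) t = fun h => U 0 (Q h (f t)) := by
      ext h
      rw [cob_fam, cob_clm, ← cob_sh, p3 _ (by simp [ht]), (hB t ht).2.2, q3, u1, neg_add_cancel]
    exact HasSum.unique h1 (e ▸ h2)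

theorem step {U : H → X →L[ℂ] X} {U' : H → X' →L[ℂ] X'} (hU : IsRep U)
    (D : X →L[ℂ] X') (hD : ∀ h x, U 0 x = x → D (U h x) = U' h (D x)) {K' : Submodule ℂ X'}
    (hK : ∀ x, D x ∈ K') {C : ℝ} (hC : 0 ≤ C)
    (ex : ∀ y ∈ K', U' 0 y = y → ∃ x, U 0 x = x ∧ D x = y ∧ ‖x‖ ≤ C * ‖y‖)
    (a1 : Acy U ⊤) (a2 : Acy U D.ker) : Acy U' K' := by
  intro j f' hf' hc
  obtain ⟨u1, K, hK0, u2⟩ := hU
  obtain ⟨B, hB⟩ := id hf'
  choose! σ s1 s2 s3 using ex
  let f : List H → X := fun t => U (t.headD 0) (σ (f' (sh (-t.headD 0) t)))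
  have l1 : ∀ t : List H, t.length = j + 1 → (sh (-t.headD 0) t).length = j + 1 := fun t ht => by
    simp [ht]
  have f1 : Coch U ⊤ (j + 1) f := ⟨K * (C * B), fun t ht => ⟨trivial, (u2 _ _).trans
    (mul_le_mul_of_nonneg_left ((s3 _ (hB _ (l1 t ht)).1 (hf'.fix (l1 t ht))).trans
      (mul_le_mul_of_nonneg_left (hB _ (l1 t ht)).2.1 hC)) hK0), fun h => by
    obtain ⟨a, t, rfl⟩ := List.exists_cons_of_length_eq_add_one ht
    have e : (sh h (a :: t)).headD 0 = h + a := rfl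
    simp only [f]
    rw [e, u1, sh_sh, List.headD_cons, show -(h + a) + h = -a by abel]⟩⟩
  have f2 : ∀ t : List H, t.length = j + 1 → D (f t) = f' t := fun t ht => by
    have h1 := (hB _ (l1 t ht)).1
    have h2 := hf'.fix (l1 t ht)
    simp only [f]
    rw [hD _ _ (s1 _ h1 h2), s2 _ h1 h2, ← (hB _ (l1 t ht)).2.2, sh_sh, add_neg_cancel, sh_zero]
  obtain ⟨B1, hB1⟩ := f1.cob
  obtain ⟨g1, ⟨B2, hB2⟩, -, g2⟩ := a2 (j + 1) (cob f) ⟨B1, fun t ht => ⟨by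
    rw [LinearMap.mem_ker, ContinuousLinearMap.coe_coe, ← cob_clm, ← hc t ht]
    exact cob_congr t fun s hs => f2 s (by omega), (hB1 t ht).2⟩⟩ fun t _ => cob_cob t f
  obtain ⟨B3, hB3⟩ := f1
  obtain ⟨g, g3, g4, g5⟩ := a1 j (fun t => f t - g1 t) ⟨B3 + B2, fun t ht => ⟨trivial,
    (norm_sub_le _ _).trans (add_le_add (hB3 t ht).2.1 (hB2 t ht).2.1), fun h => by
      beta_reduce; rw [(hB3 t ht).2.2, (hB2 t ht).2.2, map_sub]⟩⟩
    fun t ht => by rw [cob_sub, g2 t ht, sub_self]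
  obtain ⟨B4, hB4⟩ := id g3
  refine ⟨fun t => D (g t), ⟨‖D‖ * B4, fun t ht => ⟨hK _, (D.le_opNorm _).trans
    (mul_le_mul_of_nonneg_left (hB4 t ht).2.1 (norm_nonneg _)), fun h => by
      beta_reduce; rw [(hB4 t ht).2.2, hD _ _ (g3.fix ht)]⟩⟩, by simp [g4], fun t ht => ?_⟩
  rw [cob_clm, g5 t ht, map_sub, f2 t ht, show D (g1 t) = 0 from (hB2 t ht).1, sub_zero]

lemma Acy.zero {U : H → X →L[ℂ] X} (h : Acy U ⊤) {z : X} (hz : ∀ h, U h z = z) : z = 0 := by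
  obtain ⟨g, -, g1, g2⟩ := h 0 (fun _ => z) ⟨‖z‖, fun t _ => ⟨trivial, le_rfl, fun h => (hz h).symm⟩⟩
    fun t ht => by
      obtain ⟨a, b, rfl⟩ := List.length_eq_two.1 ht
      simp [cob]
  simpa [cob, g1] using (g2 [0] rfl).symm

lemma acy_triv [Subsingleton X] (U : H → X →L[ℂ] X) (K : Submodule ℂ X) : Acy U K :=
  fun _ _ _ _ => ⟨0, ⟨0, fun _ _ => ⟨zero_mem _, by simp, fun _ => Subsingleton.elim _ _⟩⟩, rfl,
    fun _ _ => Subsingleton.elim _ _⟩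

lemma exact_approx [CompleteSpace X] (D : X →L[ℂ] X') (A : Submodule ℂ X) (hA : IsClosed (A : Set X))
    (A' : Submodule ℂ X') (hD : ∀ x ∈ A, D x ∈ A') {K : ℝ} (hK : 0 ≤ K)
    (h : ∀ y ∈ A', ∀ ε > 0, ∃ x ∈ A, ‖x‖ ≤ K * ‖y‖ ∧ ‖y - D x‖ < ε) (z : X') (hz : z ∈ A') :
    ∃ x ∈ A, D x = z ∧ ‖x‖ ≤ K * 2 * ‖z‖ := by
  have h1 : ∀ y : A', ∃ w ∈ A, ‖w‖ ≤ K * ‖y.1‖ ∧ ‖y.1 - D w‖ ≤ 1 / 2 * ‖y.1‖ := by
    rintro ⟨y, hy⟩
    by_cases h2 : y = 0
    · exact ⟨0, zero_mem _, by simp [h2], by simp [h2]⟩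
    · obtain ⟨w, h0, h3, h4⟩ := h y hy (1 / 2 * ‖y‖) (by have := norm_pos_iff.2 h2; positivity)
      exact ⟨w, h0, h3, h4.le⟩
  choose g g0 hg hg' using h1
  let st : A' → A' := fun y => ⟨y.1 - D (g y), sub_mem y.2 (hD _ (g0 y))⟩
  let y : ℕ → A' := fun n => st^[n] ⟨z, hz⟩
  have hy : ∀ n, (y (n + 1)).1 = (y n).1 - D (g (y n)) := fun n => by
    simp only [y, Function.iterate_succ_apply', st]
  have hn : ∀ n, ‖(y n).1‖ ≤ (1 / 2) ^ n * ‖z‖ := by
    intro n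
    induction n with
    | zero => simp [y]
    | succ n ih => rw [hy, pow_succ]; linarith [hg' (y n)]
  have h5 := (hasSum_geometric_two.mul_right ‖z‖).mul_left K
  have h6 := fun n => (hg _).trans (mul_le_mul_of_nonneg_left (hn n) hK)
  have hs : Summable fun n => g (y n) := .of_norm_bounded h5.summable h6
  have h2 := (hs.hasSum.mapL D).tendsto_sum_nat
  have h3 : ∀ N, ∑ n ∈ Finset.range N, D (g (y n)) = z - (y N).1 := by
    intro N
    induction N with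
    | zero => simp [y]
    | succ N ih => rw [Finset.sum_range_succ, ih, hy]; abel
  simp only [h3] at h2
  have h4 : Tendsto (fun n => (y n).1) atTop (𝓝 0) :=
    squeeze_zero_norm hn (by
      simpa using (tendsto_pow_atTop_nhds_zero_of_lt_one (r := (1 / 2 : ℝ)) (by norm_num)
        (by norm_num)).mul_const ‖z‖)
  exact ⟨_, hA.mem_of_tendsto hs.hasSum (.of_forall fun s => A.sum_mem fun n _ => g0 _),
    tendsto_nhds_unique h2 (by simpa using tendsto_const_nhds.sub h4),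
    (tsum_of_norm_bounded h5 h6).trans_eq (by ring)⟩

lemma tend_dense {I : Type} {l : Filter I} (B : I → X →L[ℂ] X') {C : ℝ} (hB : ∀ i x, ‖B i x‖ ≤ C * ‖x‖) :
    ∃ A : Submodule ℂ X, IsClosed (A : Set X) ∧ ∀ x, x ∈ A ↔ Tendsto (fun i => B i x) l (𝓝 0) := by
  refine ⟨⟨⟨⟨{x | Tendsto (fun i => B i x) l (𝓝 0)}, fun {x y} h1 h2 => ?_⟩, ?_⟩, fun c x h => ?_⟩,
    isClosed_of_closure_subset fun x hx => ?_, fun _ => Iff.rfl⟩
  · simpa using Tendsto.add h1 h2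
  · simpa using tendsto_const_nhds
  · simpa using Tendsto.const_smul h c
  · refine Metric.tendsto_nhds.2 fun ε hε => ?_
    obtain ⟨y, hy, h1⟩ := Metric.mem_closure_iff.1 hx (ε / 2 / (|C| + 1)) (by positivity)
    filter_upwards [Metric.tendsto_nhds.1 hy (ε / 2) (by positivity)] with i hi
    rw [dist_zero_right] at hi ⊢
    rw [dist_eq_norm, lt_div_iff₀ (by positivity)] at h1
    have h2 := hB i (x - y)
    rw [map_sub] at h2
    have := norm_le_norm_add_norm_sub' (B i x) (B i y)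
    nlinarith [norm_nonneg (x - y), le_abs_self C]

end Pool.Agent.H90.Gd
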