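import Mathlib
import Pool.Agent.H90.GdB

namespace Pool.Agent.H90.Gd

open Filter Topology MeasureTheory

variable {α : Type} [MeasurableSpace α] {μ : Measure α}
variable {X Y Z : Type} [NormedAddCommGroup X] [NormedSpace ℂ X] [NormedAddCommGroup Y]
  [NormedSpace ℂ Y] [NormedAddCommGroup Z] [NormedSpace ℂ Z]

def Rp (M : Lp X 1 μ →L[ℂ] Lp Y 1 μ) (m : α → X →L[ℂ] Y) (τ : α → α) : Prop :=
  ∀ F, M F =ᵐ[μ] fun a => m a (F (τ a))

lemma ex_rp {m : α → X →L[ℂ] Y} {τ : α → α} {C : ℝ} (hb : ∀ a x, ‖m a x‖ ≤ C * ‖x‖)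
    (hm : ∀ F : α → X, AEStronglyMeasurable F μ → AEStronglyMeasurable (fun a => m a (F a)) μ)
    (hτ : MeasurePreserving τ μ μ) :
    ∃ M : Lp X 1 μ →L[ℂ] Lp Y 1 μ, Rp M m τ ∧ ∀ F, ‖M F‖ ≤ C * ‖F‖ := by
  have h0 : ∀ F : Lp X 1 μ, Integrable (fun a => F (τ a)) μ := fun F =>
    hτ.integrable_comp_of_integrable (L1.integrable_coeFn F)
  have h1 : ∀ F : Lp X 1 μ, Integrable (fun a => m a (F (τ a))) μ := fun F =>
    ((h0 F).norm.const_mul C).mono' (hm _ (h0 F).1) (.of_forall fun a => hb a _)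
  have hq := hτ.quasiMeasurePreserving
  let L : Lp X 1 μ →ₗ[ℂ] Lp Y 1 μ :=
    { toFun := fun F => (h1 F).toL1 _
      map_add' := fun F G => by
        rw [← Integrable.toL1_add]
        refine (Integrable.toL1_eq_toL1_iff _ _ _ _).2 ?_
        filter_upwards [hq.ae (Lp.coeFn_add F G)] with a ha
        rw [ha]; simp
      map_smul' := fun c F => by
        rw [RingHom.id_apply, ← Integrable.toL1_smul']
        refine (Integrable.toL1_eq_toL1_iff _ _ _ _).2 ?_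
        filter_upwards [hq.ae (Lp.coeFn_smul c F)] with a ha
        simp [ha] }
  have h2 : ∀ F, ‖L F‖ ≤ C * ‖F‖ := fun F => by
    show ‖(h1 F).toL1 _‖ ≤ _
    have := integral_map_of_stronglyMeasurable (μ := μ) hτ.measurable (Lp.stronglyMeasurable F).norm
    rw [hτ.map_eq] at this
    rw [L1.norm_of_fun_eq_integral_norm, L1.norm_eq_integral_norm, this, ← integral_const_mul]
    exact integral_mono (h1 F).norm ((h0 F).norm.const_mul C) fun a => hb a _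
  exact ⟨L.mkContinuous C h2, fun F => (h1 F).coeFn_toL1, h2⟩

lemma Rp.comp {M : Lp Y 1 μ →L[ℂ] Lp Z 1 μ} {N : Lp X 1 μ →L[ℂ] Lp Y 1 μ} {m n τ σ}
    (h1 : Rp M m τ) (h2 : Rp N n σ) (hτ : MeasurePreserving τ μ μ) :
    Rp (M ∘L N) (fun a => m a ∘L n (τ a)) (fun a => σ (τ a)) := fun F => by
  filter_upwards [h1 (N F), hτ.quasiMeasurePreserving.ae (h2 F)] with a h3 h4
  simp [h3, h4]

lemma Rp.ext {M N : Lp X 1 μ →L[ℂ] Lp Y 1 μ} {m n τ σ} (h1 : Rp M m τ) (h2 : Rp N n σ)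
    (h3 : ∀ a, τ a = σ a) (h4 : ∀ a x, m a x = n a x) (F) : M F = N F := Lp.ext <| by
  filter_upwards [h1 F, h2 F] with a h5 h6
  rw [h5, h6, h3, h4]

lemma Rp.id : Rp (μ := μ) (ContinuousLinearMap.id ℂ _) (fun _ => ContinuousLinearMap.id ℂ X)
    fun a => a := fun _ => .rfl

lemma Rp.sub {M N : Lp X 1 μ →L[ℂ] Lp Y 1 μ} {m n τ} (h1 : Rp M m τ) (h2 : Rp N n τ) :
    Rp (M - N) (fun a => m a - n a) τ := fun F => by
  filter_upwards [h1 F, h2 F, Lp.coeFn_sub (M F) (N F)] with a h3 h4 h5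
  rw [sub_apply, h5]; simp [h3, h4]

lemma Rp.add {M N : Lp X 1 μ →L[ℂ] Lp Y 1 μ} {m n τ} (h1 : Rp M m τ) (h2 : Rp N n τ) :
    Rp (M + N) (fun a => m a + n a) τ := fun F => by
  filter_upwards [h1 F, h2 F, Lp.coeFn_add (M F) (N F)] with a h3 h4 h5
  rw [add_apply, h5]; simp [h3, h4]

lemma Rp.zero {τ} : Rp (μ := μ) (0 : _ →L[ℂ] Lp Y 1 μ) (fun _ => (0 : X →L[ℂ] Y)) τ := fun _ =>
  Lp.coeFn_zero Y 1 μ

lemma Rp.sum {I : Type} {M : I → Lp X 1 μ →L[ℂ] Lp Y 1 μ} {m : I → α → X →L[ℂ] Y} {τ}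
    (h : ∀ i, Rp (M i) (m i) τ)
    (s : Finset I) : Rp (∑ i ∈ s, M i) (fun a => ∑ i ∈ s, m i a) τ := by
  classical
  induction s using Finset.induction_on with
  | empty => simpa using Rp.zero
  | insert i s hi ih => simpa only [Finset.sum_insert hi] using (h i).add ih

lemma Rp.norm {M : Lp X 1 μ →L[ℂ] Lp Y 1 μ} {m τ} (h : Rp M m τ) (F : Lp X 1 μ) :
    ‖M F‖ = ∫ a, ‖m a (F (τ a))‖ ∂μ := by
  rw [L1.norm_eq_integral_norm]
  exact integral_congr_ae ((h F).mono fun a ha => by simp [ha])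

lemma Rp.int {M : Lp X 1 μ →L[ℂ] Lp Y 1 μ} {m τ} (h : Rp M m τ) (F : Lp X 1 μ) :
    Integrable (fun a => m a (F (τ a))) μ := (L1.integrable_coeFn (M F)).congr (h F)

lemma Rp.sum_le {I : Type} {M : I → Lp X 1 μ →L[ℂ] Lp Y 1 μ} {m : I → α → X →L[ℂ] Y}
    (h : ∀ i, Rp (M i) (m i) fun a => a)
    {C : ℝ} {s : Finset I} (hb : ∀ a x, ∑ i ∈ s, ‖m i a x‖ ≤ C * ‖x‖) (F) :
    ∑ i ∈ s, ‖M i F‖ ≤ C * ‖F‖ := by
  simp only [(h _).norm]
  rw [← integral_finsetSum _ fun i _ => ((h i).int F).norm, L1.norm_eq_integral_norm,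
    ← integral_const_mul]
  exact integral_mono (integrable_finsetSum _ fun i _ => ((h i).int F).norm)
    ((L1.integrable_coeFn F).norm.const_mul C) fun a => hb a _

lemma Rp.tendsto {I : Type} {l : Filter I} [l.IsCountablyGenerated]
    {M : I → Lp X 1 μ →L[ℂ] Lp Y 1 μ} {N n} {m : I → α → X →L[ℂ] Y}
    (h : ∀ i, Rp (M i) (m i) fun a => a)
    (h' : Rp N n fun a => a) {C : ℝ} (hb : ∀ i a x, ‖m i a x - n a x‖ ≤ C * ‖x‖)
    (ht : ∀ a x, Tendsto (fun i => m i a x) l (𝓝 (n a x))) (F) :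
    Tendsto (fun i => M i F) l (𝓝 (N F)) := by
  rw [tendsto_iff_norm_sub_tendsto_zero]
  have := tendsto_integral_filter_of_dominated_convergence (μ := μ) (l := l) (f := fun _ => (0 : ℝ))
    (F := fun i a => ‖(m i a - n a) (F a)‖) (fun a => C * ‖F a‖)
    (.of_forall fun i => (((h i).sub h').int F).norm.1)
    (.of_forall fun i => .of_forall fun a => by simpa using hb i a _)
    ((L1.integrable_coeFn F).norm.const_mul C)
    (.of_forall fun a => tendsto_iff_norm_sub_tendsto_zero.1 (ht a _))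
  simp only [← ((h _).sub h').norm, integral_zero] at this
  exact this

lemma Rp.hasSum {I : Type} [Countable I] {M : I → Lp X 1 μ →L[ℂ] Lp Y 1 μ} {N n}
    {m : I → α → X →L[ℂ] Y}
    (h : ∀ i, Rp (M i) (m i) fun a => a) (h' : Rp N n fun a => a) {C D : ℝ}
    (hb : ∀ (s : Finset I) a x, ∑ i ∈ s, ‖m i a x‖ ≤ C * ‖x‖) (hn : ∀ a x, ‖n a x‖ ≤ D * ‖x‖)
    (ht : ∀ a x, HasSum (fun i => m i a x) (n a x)) (F) : HasSum (fun i => M i F) (N F) := by
  have := Rp.tendsto (l := atTop) (Rp.sum h) h' (C := C + D) (fun s a x => by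
    rw [sum_apply, add_mul]
    exact (norm_sub_le _ _).trans (add_le_add ((norm_sum_le _ _).trans (hb s a x)) (hn a x)))
    (fun a x => by simp only [sum_apply]; exact ht a x) F
  simp only [sum_apply] at this
  exact this

lemma Rp.net {I : Type} {l : Filter I} {M : I → Lp X 1 μ →L[ℂ] Lp Y 1 μ} {B : I → X →L[ℂ] Y}
    (h : ∀ i, Rp (M i) (fun _ => B i) fun a => a) {C : ℝ} (hb : ∀ i x, ‖B i x‖ ≤ C * ‖x‖)
    (ht : ∀ x, Tendsto (fun i => B i x) l (𝓝 0)) (F) : Tendsto (fun i => M i F) l (𝓝 0) := by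
  obtain ⟨A, a1, a2⟩ := tend_dense (l := l) M (C := C) fun i F => by
    simpa using Rp.sum_le (s := {i}) h (C := C) (by simpa using fun _ => hb i) F
  rw [← a2]
  refine Lp.induction (p := 1) (by simp) (fun F => F ∈ A) (fun c s hs hμ => ?_)
    (fun f g hf hg _ h1 h2 => add_mem h1 h2) a1 F
  rw [a2, tendsto_zero_iff_norm_tendsto_zero]
  have : ∀ i, ‖M i (Lp.simpleFunc.indicatorConst 1 hs hμ.ne c)‖ = μ.real s * ‖B i c‖ := fun i => by
    rw [(h i).norm, ← smul_eq_mul, ← integral_indicator_const _ hs]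
    refine integral_congr_ae ?_
    filter_upwards [indicatorConstLp_coeFn (p := 1) (hs := hs) (hμs := hμ.ne) (c := c)] with a ha
    rw [Lp.simpleFunc.coe_indicatorConst, ha]
    by_cases h : a ∈ s <;> simp [h]
  simp only [this]
  simpa using (ht c).norm.const_mul (μ.real s)

lemma ex_rp_c (B : X →L[ℂ] Y) : ∃ M : Lp X 1 μ →L[ℂ] Lp Y 1 μ, Rp M (fun _ => B) fun a => a :=
  (ex_rp (fun _ => B.le_opNorm) (fun _ h => B.continuous.comp_aestronglyMeasurable h)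
    (MeasurePreserving.id μ)).imp fun _ h => h.1

lemma Rp.le_c {B : X →L[ℂ] Y} {M : Lp X 1 μ →L[ℂ] Lp Y 1 μ} (h : Rp M (fun _ => B) fun a => a)
    {C : ℝ} (hb : ∀ x, ‖B x‖ ≤ C * ‖x‖) (F) : ‖M F‖ ≤ C * ‖F‖ := by
  simpa using Rp.sum_le (s := {()}) (M := fun _ => M) (fun _ => h) (C := C)
    (by simpa using fun _ => hb) F

def Bil (V P : Type) [NormedAddCommGroup V] [NormedSpace ℂ V] [NormedAddCommGroup P]
    [NormedSpace ℂ P] := V →L[ℂ] P →L[ℂ] ℂ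

noncomputable instance : NormedAddCommGroup (Bil X Y) :=
  inferInstanceAs (NormedAddCommGroup (X →L[ℂ] Y →L[ℂ] ℂ))
noncomputable instance : NormedSpace ℂ (Bil X Y) :=
  inferInstanceAs (NormedSpace ℂ (X →L[ℂ] Y →L[ℂ] ℂ))

noncomputable def Bil.ev (a : X) (x : Y) : Bil X Y →L[ℂ] ℂ :=
  ContinuousLinearMap.apply ℂ ℂ x ∘L ContinuousLinearMap.apply ℂ (Y →L[ℂ] ℂ) a

def Bil.op (B : Bil X Y) : X →L[ℂ] Y →L[ℂ] ℂ := B

lemma Bil.ev_ap (a : X) (x : Y) (B : Bil X Y) : Bil.ev a x B = B.op a x := rfl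

theorem ex_tens (V P : Type) [NormedAddCommGroup V] [NormedSpace ℂ V] [NormedAddCommGroup P]
    [NormedSpace ℂ P] : ∃ (Y : Type) (_ : NormedAddCommGroup Y) (_ : NormedSpace ℂ Y)
    (_ : CompleteSpace Y) (ι : V →L[ℂ] P →L[ℂ] Y), (∀ a x, ‖ι a x‖ ≤ ‖a‖ * ‖x‖) ∧
    Dense (Submodule.span ℂ {z | ∃ a x, z = ι a x} : Set Y) ∧
    ∀ (Z : Type) [NormedAddCommGroup Z] [NormedSpace ℂ Z] [CompleteSpace Z]
      (B : V →L[ℂ] P →L[ℂ] Z), ∃ F : Y →L[ℂ] Z, (∀ u, ‖F u‖ ≤ ‖B‖ * ‖u‖) ∧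
        ∀ a x, F (ι a x) = B a x := by
  let e0 : V →ₗ[ℂ] P →ₗ[ℂ] Bil V P →L[ℂ] ℂ := LinearMap.mk₂ ℂ Bil.ev
    (fun _ _ _ => by ext; simp [Bil.ev_ap]) (fun _ _ _ => by ext; simp [Bil.ev_ap])
    (fun _ _ _ => by ext; simp [Bil.ev_ap]) (fun _ _ _ => by ext; simp [Bil.ev_ap])
  let e := TensorProduct.lift e0
  let S := (LinearMap.range e).topologicalClosure
  let eS : TensorProduct ℂ V P →ₗ[ℂ] S :=
    e.codRestrict _ fun u => Submodule.le_topologicalClosure _ ⟨u, rfl⟩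
  have hd : DenseRange eS := by
    rintro ⟨z, hz⟩
    rw [closure_subtype]
    refine closure_mono ?_ hz
    rintro _ ⟨u, rfl⟩
    exact ⟨_, ⟨u, rfl⟩, rfl⟩
  have hn : ∀ a x, ‖((TensorProduct.mk ℂ V P).compr₂ eS) a x‖ ≤ 1 * ‖a‖ * ‖x‖ := fun a x =>
    ContinuousLinearMap.opNorm_le_bound _ (by positivity) fun B => by
      have : ‖B.op a x‖ ≤ ‖B‖ * ‖a‖ * ‖x‖ := B.op.le_opNorm₂ a x
      show ‖B.op a x‖ ≤ _
      linarith
  refine ⟨S, inferInstance, inferInstance,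
    (Submodule.isClosed_topologicalClosure _).completeSpace_coe,
    LinearMap.mkContinuous₂ _ 1 hn, fun a x => by simpa using hn a x, hd.mono ?_, ?_⟩
  · rintro _ ⟨u, rfl⟩
    induction u with
    | zero => simp
    | add u v h1 h2 => rw [map_add]; exact add_mem h1 h2
    | tmul a x => exact Submodule.subset_span ⟨a, x, rfl⟩
  · intro Z _ _ _ B
    let g : TensorProduct ℂ V P →ₗ[ℂ] Z := TensorProduct.lift B.toLinearMap₁₂
    have hb : ∀ u, ‖g u‖ ≤ ‖B‖ * ‖eS u‖ := by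
      intro u
      obtain ⟨y, h1, h2⟩ := exists_dual_vector'' ℂ (g u)
      let B' : Bil V P := ContinuousLinearMap.compL ℂ P Z ℂ y ∘L B
      have key : ∀ u, y (g u) = e u B' := by
        intro u
        induction u with
        | zero => simp
        | add u v h1 h2 => simp only [map_add, h1, h2]; rfl
        | tmul a x => rfl
      have h3 := congrArg norm (h2.symm.trans (key u))
      simp only [RCLike.norm_ofReal, abs_norm] at h3
      rw [h3, mul_comm]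
      refine ((e u).le_opNorm _).trans (mul_le_mul_of_nonneg_left
        (ContinuousLinearMap.opNorm_le_bound₂ B'.op B.opNorm_nonneg fun a x => ?_) (norm_nonneg _))
      exact (y.le_opNorm _).trans ((mul_le_of_le_one_left (norm_nonneg _) h1).trans
        (B.le_opNorm₂ a x))
    exact ⟨g.extendOfNorm eS, LinearMap.norm_extendOfNorm_apply_le hd _ hb, fun a x =>
      LinearMap.extendOfNorm_eq hd ⟨_, hb⟩ (a ⊗ₜ x)⟩

end Pool.Agent.H90.Gd
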