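import Mathlib
import Pool.Agent.H90.BhDefs
import Pool.Agent.H90.BhB
import Pool.Agent.H90.GdC

namespace Pool.Agent.H90.Bh

open Filter Topology InnerProductSpace ContinuousLinearMap
open scoped InnerProductSpace

section
variable {A : Type} [NormedRing A] [NormedAlgebra ℂ A]

noncomputable def LMod.ac (M : LMod A) : A →L[ℂ] M.X →L[ℂ] M.X := M.bil.toContinuousLinearMap

lemma LMod.ac_mul (M : LMod A) (a b : A) (x : M.X) : M.ac (a * b) x = M.ac a (M.ac b x) :=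
  M.act_mul a b x

theorem ex_E (M : LMod A) (hM : Proj M) {Z : Type} [NormedAddCommGroup Z] [NormedSpace ℂ Z]
    [CompleteSpace Z] (r : A →L[ℂ] Z →L[ℂ] Z) (hr : ∀ a b z, r (a * b) z = r a (r b z)) :
    ∃ (C : ℝ) (E : (M.X →L[ℂ] Z) → M.X →L[ℂ] Z), 0 ≤ C ∧
    (∀ T a x, E T (M.ac a x) = r a (E T x)) ∧ (∀ T, ‖E T‖ ≤ C * ‖T‖) ∧
    ∀ x ε, 0 < ε → ∃ (m : ℕ) (c : Fin m → A) (g : Fin m → M.X),
      ‖M.ac 1 x - ∑ i, M.ac (c i) (g i)‖ ≤ ε ∧
      ∀ T, ‖E T x - ∑ i, r (c i) (T (g i))‖ ≤ ε * ‖T‖ := by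
  have := M.cpl
  obtain ⟨Y, _, _, _, ι, i1, i2, i3⟩ := Gd.ex_tens (A × ℂ) M.X
  have ext : ∀ {Z : Type} [NormedAddCommGroup Z] [NormedSpace ℂ Z] (F F' : Y →L[ℂ] Z),
      (∀ a x, F (ι a x) = F' (ι a x)) → ∀ u, F u = F' u := fun F F' h u =>
    congrArg (· u) (ext_on i2 (by rintro _ ⟨a, x, rfl⟩; exact h a x))
  have bd : ∀ (F : Y →L[ℂ] Y) (c : ℝ), 0 ≤ c → (∀ a x, ‖F (ι a x)‖ ≤ c * ‖a‖ * ‖x‖) →
      ∀ u, ‖F u‖ ≤ c * ‖u‖ := fun F c hc h u => by
    obtain ⟨F', h1, h2⟩ := i3 Y (compL ℂ _ _ _ F ∘L ι)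
    rw [ext F F' (fun a x => (h2 a x).symm)]
    exact (h1 u).trans (mul_le_mul_of_nonneg_right (opNorm_le_bound₂ _ hc h) (norm_nonneg _))
  let κ : A × ℂ →L[ℂ] A := fst ℂ _ _ + (snd ℂ _ _).smulRight 1
  have hκ : ∀ a, κ (a, 0) = a := fun a => by simp [κ]
  choose Op _ o2 using fun a : A => i3 Y (ι ∘L inl ℂ _ _ ∘L mul ℂ A a ∘L κ)
  replace o2 : ∀ a b x, Op a (ι b x) = ι (a * κ b, 0) x := o2
  have ia : ∀ a b x, ι (a + b, 0) x = ι (a, 0) x + ι (b, 0) x := fun a b x => by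
    rw [← add_apply, ← map_add]; simp
  have is : ∀ (c : ℂ) a x, ι (c • a, 0) x = c • ι (a, 0) x := fun a b x => by
    rw [← smul_apply, ← map_smul]; simp
  let N : LMod A :=
    { X := Y
      cpl := inferInstance
      act := fun a u => Op a u
      bil := show IsBoundedBilinearMap ℂ fun p : A × Y => Op p.1 p.2 from
        ⟨fun a b u => ext (Op (a + b)) (Op a + Op b) (fun c x => by
          rw [add_apply, o2, o2, o2, ← ia, add_mul]) u,
        fun c a u => ext (Op (c • a)) (c • Op a) (fun b x => by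
          rw [smul_apply, o2, o2, ← is, smul_mul_assoc]) u,
        fun a u v => map_add _ _ _, fun c a u => map_smul _ _ _, ‖κ‖ + 1, by positivity,
        fun a u => by
          refine bd _ _ (by positivity) (fun b x => ?_) u
          rw [o2]
          refine (i1 _ _).trans (mul_le_mul_of_nonneg_right ?_ (norm_nonneg _))
          rw [Prod.norm_mk, norm_zero, max_eq_left (norm_nonneg _)]
          refine (norm_mul_le _ _).trans ?_
          nlinarith [κ.le_opNorm b, norm_nonneg b, norm_nonneg a]⟩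
      act_mul := fun a b u => ext (Op (a * b)) (Op a ∘L Op b) (fun c x => by
        simp [o2, hκ, mul_assoc]) u }
  obtain ⟨π, -, p2⟩ := i3 M.X (M.ac ∘L fst ℂ _ _ + (snd ℂ _ _).smulRight (.id ℂ _))
  replace p2 : ∀ a x, π (ι a x) = M.ac a.1 x + a.2 • x := p2
  have pm : ∀ a u, π (Op a u) = M.ac a (π u) := fun a => ext (π ∘L Op a) (M.ac a ∘L π)
    fun b x => by simp [o2, p2, κ, mul_add, M.ac_mul]
  obtain ⟨r0, ⟨r1, r2⟩, r3⟩ := hM N π ⟨π.isBoundedLinearMap, pm⟩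
    ⟨ι (0, 1), (ι _).isBoundedLinearMap, fun x => by simp [p2]⟩
  let ρ : M.X →L[ℂ] Y := r1.toContinuousLinearMap
  replace r2 : ∀ a x, ρ (M.ac a x) = Op a (ρ x) := r2
  replace r3 : ∀ x, π (ρ x) = x := r3
  choose Φ f1 f2 using fun T : M.X →L[ℂ] Z => i3 Z (r.bilinearComp κ T)
  replace f2 : ∀ T a x, Φ T (ι a x) = r (κ a) (T x) := f2
  replace f1 : ∀ T u, ‖Φ T u‖ ≤ ‖r‖ * ‖κ‖ * ‖T‖ * ‖u‖ := fun T u => (f1 T u).trans
    (mul_le_mul_of_nonneg_right (opNorm_le_bound₂ _ (by positivity) fun a x =>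
      (r.le_of_opNorm₂_le_of_le le_rfl (κ.le_opNorm a) (T.le_opNorm x)).trans_eq (by ring))
      (norm_nonneg _))
  refine ⟨‖r‖ * ‖κ‖ * ‖ρ‖, fun T => Φ T ∘L ρ, by positivity, fun T a x => ?_,
    fun T => opNorm_le_bound _ (by positivity) fun x => (f1 _ _).trans ?_, fun x ε hε => ?_⟩
  · rw [comp_apply, r2]
    exact ext (Φ T ∘L Op a) (r a ∘L Φ T) (fun b x => by simp [o2, f2, hκ, hr]) _
  · exact (mul_le_mul_of_nonneg_left (ρ.le_opNorm x) (by positivity)).trans_eq (by ring)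
  · obtain ⟨K, k0, k1, k2⟩ : ∃ K, 0 < K ∧ ‖r‖ * ‖κ‖ ≤ K ∧ ‖M.ac 1 ∘L π‖ ≤ K :=
      ⟨‖r‖ * ‖κ‖ + ‖M.ac 1 ∘L π‖ + 1, by positivity, by linarith [norm_nonneg (M.ac 1 ∘L π)],
        by linarith [mul_nonneg (norm_nonneg r) (norm_nonneg κ)]⟩
    obtain ⟨v, v1, v2⟩ := Metric.mem_closure_iff.1 (i2 (ρ x)) (ε / K) (by positivity)
    obtain ⟨m, f, g, rfl⟩ := Submodule.mem_span_set'.1 v1
    choose a z hz using fun i => (g i).2
    rw [dist_eq_norm, lt_div_iff₀ k0] at v2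
    simp only [hz, ← map_smul] at v2
    refine ⟨m, fun i => κ (a i), fun i => f i • z i, ?_, fun T => ?_⟩
    · have := (M.ac 1 ∘L π).le_of_opNorm_le k2 (ρ x - ∑ i, ι (a i) (f i • z i))
      have e : ∀ b y, M.ac 1 (π (ι b y)) = M.ac (κ b) y := fun b y => by
        simp [p2, κ, ← M.ac_mul]
      simp only [map_sub, map_sum, comp_apply, r3, e] at this
      linarith
    · have := f1 T (ρ x - ∑ i, ι (a i) (f i • z i))
      simp only [map_sub, map_sum, f2] at this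
      refine this.trans ?_
      rw [mul_right_comm]
      refine mul_le_mul_of_nonneg_right ?_ (norm_nonneg _)
      nlinarith [norm_nonneg (ρ x - ∑ i, ι (a i) (f i • z i))]

omit [NormedAlgebra ℂ A] in
lemma qle (L : Ideal A) {Z : Type} [SeminormedAddCommGroup Z] (f : A ⧸ L → Z) {C : ℝ} (hC : 0 ≤ C)
    (h : ∀ a, ‖f (Submodule.Quotient.mk a)‖ ≤ C * ‖a‖) (x : A ⧸ L) : ‖f x‖ ≤ C * ‖x‖ := by
  refine le_of_forall_pos_le_add fun ε hε => ?_
  obtain ⟨a, rfl, ha⟩ := Submodule.Quotient.norm_mk_lt x (show 0 < ε / (C + 1) by positivity)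
  refine (h a).trans ((mul_le_mul_of_nonneg_left ha.le hC).trans ?_)
  rw [mul_add, add_le_add_iff_left, ← mul_div_assoc, div_le_iff₀ (by positivity)]
  linarith

variable [CompleteSpace A] (L : Ideal A) [L.IsMaximal]

noncomputable def QM : LMod A where
  X := A ⧸ L
  cpl := inferInstance
  act := fun a x => a • x
  bil := ⟨fun a b x => add_smul a b x, fun c a x => smul_assoc c a x, fun a x y => smul_add a x y,
    fun c a x => smul_comm a c x, 1, one_pos, fun a x => by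
      rw [one_mul]
      exact qle L (a • ·) (norm_nonneg a) (fun b => (Submodule.Quotient.norm_mk_le L (a * b)).trans
        (norm_mul_le a b)) x⟩
  act_mul := fun a b x => mul_smul a b x

noncomputable def mk : A →L[ℂ] (QM L).X :=
  LinearMap.mkContinuous ⟨⟨Submodule.Quotient.mk, fun _ _ => rfl⟩, fun _ _ => rfl⟩ 1 fun a =>
    (Submodule.Quotient.norm_mk_le L a).trans_eq (one_mul _).symm

lemma mk_surj : Function.Surjective (mk L) := Submodule.Quotient.mk_surjective L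
lemma mk_mul (a b : A) : (QM L).ac a (mk L b) = mk L (a * b) := rfl
lemma mk_zero {b : A} (hb : b ∈ L) : mk L b = 0 := (Submodule.Quotient.mk_eq_zero L).2 hb

lemma irr : Irr (QM L) := by
  have : IsSimpleModule A (A ⧸ L) := isSimpleModule_iff_isCoatom.2 Ideal.IsMaximal.out
  refine ⟨⟨1, Submodule.Quotient.mk 1, fun h => Ideal.IsMaximal.ne_top ‹_› ?_⟩, fun N hN => ?_⟩
  · exact (Ideal.eq_top_iff_one L).2 ((Submodule.Quotient.mk_eq_zero L).1
      ((one_smul A _).symm.trans h))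
  · let N' : Submodule A (A ⧸ L) := ⟨N.toAddSubmonoid, fun a x hx => hN a x hx⟩
    rcases eq_bot_or_eq_top N' with h | h
    · exact .inl (SetLike.ext fun x => SetLike.ext_iff.1 h x)
    · exact .inr (SetLike.ext fun x => SetLike.ext_iff.1 h x)

end

variable {H : Type} [NormedAddCommGroup H] [InnerProductSpace ℂ H] [CompleteSpace H]

omit [CompleteSpace H] in
lemma exL (hH : ¬FiniteDimensional ℂ H) : ∃ L : Ideal (H →L[ℂ] H), L.IsMaximal ∧
    ∀ x, rankOne ℂ x x ∈ L := by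
  let L0 : Ideal (H →L[ℂ] H) :=
    { carrier := {b | FiniteDimensional ℂ b.range}
      add_mem' := fun {a b} (ha : FiniteDimensional ℂ a.range) (hb : FiniteDimensional ℂ b.range) =>
        Submodule.finiteDimensional_of_le (LinearMap.range_add_le a.toLinearMap b.toLinearMap)
      zero_mem' := by
        show FiniteDimensional ℂ (0 : H →ₗ[ℂ] H).range
        rw [LinearMap.range_zero]; infer_instance
      smul_mem' := fun a b (hb : FiniteDimensional ℂ b.range) => by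
        show FiniteDimensional ℂ (a.toLinearMap ∘ₗ b.toLinearMap).range
        rw [LinearMap.range_comp]; infer_instance }
  obtain ⟨L, h1, h2⟩ := Ideal.exists_le_maximal L0 fun h => hH (by
    have : FiniteDimensional ℂ (LinearMap.id : H →ₗ[ℂ] H).range := (Ideal.eq_top_iff_one _).1 h
    rw [LinearMap.range_id] at this
    exact Submodule.topEquiv.finiteDimensional)
  refine ⟨L, h1, fun x => h2 (Submodule.finiteDimensional_of_le (S₂ := ℂ ∙ x) ?_)⟩
  rintro _ ⟨z, rfl⟩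
  exact Submodule.smul_mem _ _ (Submodule.mem_span_singleton_self x)

variable (L : Ideal (H →L[ℂ] H)) [hL : L.IsMaximal]

lemma exU : ∃ (U : Ultrafilter (Finset L)) (η : Finset L → H), (∀ i, ‖η i‖ = 1) ∧
    ∀ b, b ∈ L ↔ Tendsto (fun i => b (η i)) U (𝓝 0) := by
  have : ∀ F : Finset L, ∃ η : H, ‖η‖ = 1 ∧ ∀ b ∈ F, ‖b.1 η‖ ≤ 1 := fun F => by
    by_contra! h
    refine hL.ne_top (Ideal.eq_top_of_isUnit_mem _ (L.sum_mem (t := F)
      fun b _ => L.mul_mem_left (adjoint b.1) b.2) (isUnit_of_forall_le_norm_inner_map _ one_pos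
      fun x => ?_))
    rcases eq_or_ne x 0 with rfl | hx
    · simp
    obtain ⟨b, b1, b2⟩ := h _ (norm_smul_inv_norm (𝕜 := ℂ) hx)
    have h0 := norm_pos_iff.2 hx
    rw [map_smul, norm_smul, norm_inv, RCLike.norm_ofReal, abs_norm, lt_inv_mul_iff₀ h0] at b2
    simp only [sum_apply, sum_inner, mul_apply_eq_comp, adjoint_inner_left, inner_self_eq_norm_sq_to_K,
      ← RCLike.ofReal_pow, ← RCLike.ofReal_sum, RCLike.norm_ofReal, NNReal.coe_one]
    refine le_trans ?_ ((Finset.single_le_sum (f := fun b : L => ‖b.1 x‖ ^ 2)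
      (fun _ _ => by positivity) b1).trans (le_abs_self _))
    nlinarith
  choose η h1 h2 using this
  let U : Ultrafilter (Finset L) := .of atTop
  let L' : Ideal (H →L[ℂ] H) :=
    { carrier := {b | Tendsto (fun i => b (η i)) U (𝓝 0)}
      add_mem' := fun ha hb => by simpa using Tendsto.add ha hb
      zero_mem' := tendsto_const_nhds
      smul_mem' := fun a b hb => by
        simpa [Function.comp_def] using (a.continuous.tendsto _).comp hb }
  refine ⟨U, η, h1, fun b => SetLike.ext_iff.1 (hL.eq_of_le (J := L') (fun h => ?_)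
    fun b hb => (net _ fun n => ⟨n • ⟨b, hb⟩, fun F hF => ?_⟩).mono_left (Ultrafilter.of_le _)) b⟩
  · have : Tendsto η U (𝓝 0) := (Ideal.eq_top_iff_one _).1 h
    simpa [h1] using this.norm
  · simpa [RCLike.norm_nsmul ℂ] using h2 F _ hF

lemma exJ : ∃ (η : Finset (H →L[ℂ] H) → H) (J : Finset (H →L[ℂ] H) → (QM L).X →L[ℂ] H),
    (∀ i, ‖η i‖ = 1) ∧ (∀ i, ‖J i‖ ≤ 4) ∧
    ∀ a, Tendsto (fun i => J i (mk L a) - a (η i)) atTop (𝓝 0) := by
  obtain ⟨U, η, h1, h2⟩ := exU L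
  have : ∀ F : Finset (H →L[ℂ] H), ∃ (η : H) (J : (QM L).X →L[ℂ] H), ‖η‖ = 1 ∧ ‖J‖ ≤ 4 ∧
      ∀ a ∈ F, ‖J (mk L a) - a η‖ ≤ 1 := fun F => by
    have hb : ∀ (a : H →L[ℂ] H) i, ‖a (η i)‖ ≤ ‖a‖ := fun a i => by
      simpa [h1] using a.le_opNorm (η i)
    obtain ⟨r, R, Λ, r1, r2, r3⟩ := syn U (fun i => (apply ℂ H (η i)).toLinearMap)
      (fun a => ⟨_, hb a⟩) F
    have r4 : ∀ᶠ i in U, ‖adjoint (R i)‖ ≤ 2 := by simpa using r1
    let Λ0 : (QM L).X →ₗ[ℂ] EuclideanSpace ℂ (Fin r) :=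
      (L.restrictScalars ℂ).liftQ Λ (fun b hb => tendsto_nhds_unique (r2 b) (tz r4 ((h2 b).1 hb)))
        ∘ₗ (Submodule.Quotient.restrictScalarsEquiv ℂ L).symm.toLinearMap
    have hΛ : ∀ x, ‖Λ0 x‖ ≤ 2 * ‖x‖ := qle L Λ0 zero_le_two fun a => le_of_tendsto (r2 a).norm
      (r4.mono fun i h => ((adjoint (R i)).le_of_opNorm_le h _).trans 
        (mul_le_mul_of_nonneg_left (hb a i) zero_le_two))
    obtain ⟨i, i1, i2⟩ := (r1.and ((eventually_all_finset F).2 fun a ha =>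
      (r3 a ha).norm.eventually_lt_const (by simp : ‖(0 : H)‖ < 1))).exists
    refine ⟨η i, R i ∘L Λ0.mkContinuous 2 hΛ, h1 i, (opNorm_comp_le _ _).trans ?_,
      fun a ha => (i2 a ha).le⟩
    nlinarith [Λ0.mkContinuous_norm_le zero_le_two hΛ, norm_nonneg (Λ0.mkContinuous 2 hΛ)]
  choose η J j1 j2 j3 using this
  refine ⟨η, J, j1, j2, fun a => net _ fun n => ⟨(n : ℂ) • a, fun F hF => ?_⟩⟩
  have := j3 F _ hF
  rwa [map_smul, map_smul, smul_apply, ← smul_sub, norm_smul, Complex.norm_natCast] at this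

end Pool.Agent.H90.Bh
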