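import Mathlib
import Pool.Agent.H90.BhC

namespace Pool.Agent.H90.Bh

open Filter Topology InnerProductSpace ContinuousLinearMap
open scoped InnerProductSpace

lemma small (B : ℝ) {ε : ℝ} (hε : 0 < ε) : ∃ δ, 0 < δ ∧ δ * B ≤ ε :=
  ⟨ε / (|B| + 1), by positivity, by
    rw [div_mul_eq_mul_div, div_le_iff₀ (by positivity)]
    nlinarith [le_abs_self B]⟩

variable {H : Type} [NormedAddCommGroup H] [InnerProductSpace ℂ H] [CompleteSpace H]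
  (L : Ideal (H →L[ℂ] H)) [hL : L.IsMaximal]

lemma exPsi (P : LMod (H →L[ℂ] H)) (hP : Proj P) (e : P.X →L[ℂ] (QM L).X)
    (he : ∀ a x, e (P.ac a x) = (QM L).ac a (e x)) :
    ∃ (K : ℝ) (η : Finset (H →L[ℂ] H) → H) (Ψ : Finset (H →L[ℂ] H) → P.X →L[ℂ] H),
    (∀ i, ‖η i‖ = 1) ∧ (∀ i, ‖Ψ i‖ ≤ K) ∧ (∀ i a x, Ψ i (P.ac a x) = a (Ψ i x)) ∧
    (∀ b ∈ L, Tendsto (fun i => b (η i)) atTop (𝓝 0)) ∧
    ∀ a z, e z = mk L a → Tendsto (fun i => Ψ i z - a (η i)) atTop (𝓝 0) := by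
  obtain ⟨C, E, c0, e1, e2, e3⟩ := ex_E P hP (.id ℂ (H →L[ℂ] H)) fun _ _ _ => rfl
  obtain ⟨η, J, j1, j2, j3⟩ := exJ L
  have b0 : ∀ i, ‖J i ∘L e‖ ≤ 4 * ‖e‖ := fun i =>
    (opNorm_comp_le _ _).trans (mul_le_mul_of_nonneg_right (j2 i) (norm_nonneg _))
  have k1 : ∀ (c : H →L[ℂ] H) x,
      Tendsto (fun i => c (J i x) - J i ((QM L).ac c x)) atTop (𝓝 0) := fun c x => by
    obtain ⟨a, rfl⟩ := mk_surj L x
    simpa [mk_mul] using ((c.continuous.tendsto' _ _ c.map_zero).comp (j3 a)).sub (j3 (c * a))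
  refine ⟨C * (4 * ‖e‖), η, fun i => E (J i ∘L e), j1, fun i => (e2 _).trans
    (mul_le_mul_of_nonneg_left (b0 i) c0), fun i => e1 _, fun b hb => by
      simpa [mk_zero L hb] using (j3 b).neg, fun a z hz => ?_⟩
  suffices Tendsto (fun i => E (J i ∘L e) z - J i (mk L a)) atTop (𝓝 0) by
    simpa using this.add (j3 a)
  refine NormedAddGroup.tendsto_nhds_zero.2 fun ε hε => ?_
  obtain ⟨δ, d0, d1⟩ := small (4 * ‖e‖) (show 0 < ε / 3 by positivity)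
  obtain ⟨m, c, g, g1, g2⟩ := e3 z δ d0
  have := (tendsto_finsetSum Finset.univ fun k _ => k1 (c k) (e (g k))).norm.eventually_lt_const
    (show _ < ε / 3 by simpa using hε)
  filter_upwards [this] with i hi
  have h1 := (g2 (J i ∘L e)).trans (mul_le_mul_of_nonneg_left (b0 i) d0.le)
  have h2 := (J i ∘L e).le_of_opNorm_le_of_le (b0 i) g1
  simp only [id_apply, comp_apply, map_sub, map_sum, he, hz, mk_mul, one_mul,
    Finset.sum_sub_distrib] at h1 h2 hi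
  rw [norm_sub_rev] at h2
  refine ((norm_sub_le_norm_sub_add_norm_sub _ _ _).trans (add_le_add h1
    ((norm_sub_le_norm_sub_add_norm_sub _ _ _).trans (add_le_add_right h2 _)))).trans_lt ?_
  linarith

lemma core (hr : ∀ x, rankOne ℂ x x ∈ L) (P Q : LMod (H →L[ℂ] H)) (hP : Proj P) (hQ : Proj Q)
    (e : P.X →L[ℂ] (QM L).X) (d : Q.X →L[ℂ] P.X) (s : P.X → Q.X) (x0 : P.X)
    (he : ∀ a x, e (P.ac a x) = (QM L).ac a (e x)) (hd : ∀ a x, d (Q.ac a x) = P.ac a (d x))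
    (ed : ∀ x, e (d x) = 0) (ds : ∀ x, e x = 0 → d (s x) = x) (sd : ∀ x, s (d x) = x)
    (hx : e x0 = mk L 1) : False := by
  classical
  obtain ⟨K, η, Ψ, p1, p2, p3, p4, p5⟩ := exPsi L P hP e he
  obtain ⟨-, E, -, e1, -, e3⟩ := ex_E Q hQ (.id ℂ (H →L[ℂ] H)) fun _ _ _ => rfl
  simp only [id_apply] at e1 e3
  let w : (H →L[ℂ] H) → Q.X := fun b => s (P.ac b x0)
  have w1 : ∀ b ∈ L, d (w b) = P.ac b x0 := fun b hb =>
    ds _ (by rw [he, hx, mk_mul, mul_one, mk_zero L hb])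
  have w2 : ∀ a, ∀ b ∈ L, w (a * b) = Q.ac a (w b) := fun a b hb => by
    rw [← sd (Q.ac a _), hd, w1 b hb, ← P.ac_mul]
  have b1 : ∀ T : P.X →L[ℂ] H, ‖T‖ ≤ K → ‖T ∘L d‖ ≤ K * ‖d‖ := fun T h =>
    (opNorm_comp_le _ _).trans (mul_le_mul_of_nonneg_right h (norm_nonneg _))
  have b2 : ∀ (T : P.X →L[ℂ] H) (W : H →L[ℂ] H), ‖T‖ ≤ K → ‖W‖ ≤ 4 →
      ‖W ∘L T ∘L d‖ ≤ 4 * (K * ‖d‖) := fun T W h h' =>
    (opNorm_comp_le _ _).trans (mul_le_mul h' (b1 T h) (norm_nonneg _) (by norm_num))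
  have k5 : ∀ z, ∀ᶠ i in atTop, ∀ W : H →L[ℂ] H, ‖W‖ ≤ 4 → ‖E (W ∘L Ψ i ∘L d) z‖ ≤ 1 / 8 := by
    intro z
    obtain ⟨δ, d0, d1⟩ := small (4 * (K * ‖d‖)) (show (0 : ℝ) < 1 / 16 by norm_num)
    obtain ⟨m, c, g, -, g2⟩ := e3 z δ d0
    have := (tendsto_finsetSum Finset.univ fun k _ => (p5 0 (d (g k))
      (by rw [ed, map_zero])).norm.const_mul (‖c k‖ * 4)).eventually_lt_const
      (show _ < (1 : ℝ) / 16 by simp)
    filter_upwards [this] with i hi W hW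
    have h1 := (g2 _).trans (mul_le_mul_of_nonneg_left (b2 _ W (p2 i) hW) d0.le)
    have h2 := norm_sum_le_of_le Finset.univ (f := fun k => c k ((W ∘L Ψ i ∘L d) (g k)))
      fun k _ => (c k).le_of_opNorm_le_of_le le_rfl (W.le_of_opNorm_le hW (Ψ i (d (g k))))
    simp only [zero_apply, sub_zero, mul_assoc] at hi
    linarith [norm_sub_norm_le (E (W ∘L Ψ i ∘L d) z) (∑ k, c k ((W ∘L Ψ i ∘L d) (g k)))]
  obtain ⟨f, f1, f2⟩ := exists_seq_of_forall_finset_exists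
    (fun p : H × (P.X →L[ℂ] H) => ‖p.1‖ = 1 ∧ ‖p.2‖ ≤ K ∧ (∀ a x, p.2 (P.ac a x) = a (p.2 x)) ∧
      1 / 2 ≤ ‖⟪p.1, p.2 x0⟫_ℂ‖)
    (fun p q => ⟪p.1, q.1⟫_ℂ = 0 ∧ ∀ W : H →L[ℂ] H, ‖W‖ ≤ 4 →
      ‖E (W ∘L q.2 ∘L d) (w (rankOne ℂ p.1 p.1))‖ ≤ 1 / 8) fun F _ => by
    obtain ⟨i, ⟨ζ, z1, z2, z3⟩, i2, i3⟩ := ((perp η p1 (fun x => p4 _ (hr x)) (F.image (·.1))).and
      (((eventually_all_finset F).2 fun p _ => k5 (w (rankOne ℂ p.1 p.1))).and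
      ((p5 1 x0 hx).norm.eventually_lt_const (show _ < (1 : ℝ) / 4 by simp)))).exists
    refine ⟨(ζ, Ψ i), ⟨z1, p2 i, p3 i, ?_⟩,
      fun p hp => ⟨z2 _ (Finset.mem_image_of_mem _ hp), i2 p hp⟩⟩
    have h1 := norm_inner_le_norm (𝕜 := ℂ) ζ (Ψ i x0 - η i)
    rw [z1, inner_sub_right, norm_sub_rev] at h1
    linarith [norm_sub_norm_le ⟪ζ, η i⟫_ℂ ⟪ζ, Ψ i x0⟫_ℂ, show ‖Ψ i x0 - η i‖ < 1 / 4 from i3]
  have hv : Orthonormal ℂ fun n => (f n).1 := ⟨fun n => (f1 n).1, fun i j h =>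
    (lt_or_gt_of_ne h).elim (fun h => (f2 i j h).1) fun h => inner_eq_zero_symm.1 (f2 j i h).1⟩
  obtain ⟨U, θ, u1, u2⟩ := exU L
  obtain ⟨S, s1, s2⟩ := null U (fun i j => ‖⟪(f j).1, θ i⟫_ℂ‖ ^ 2) (fun _ _ => by positivity)
    (fun i => hv.inner_products_summable _)
    (fun i => (hv.tsum_inner_products_le _).trans_eq (by rw [u1, one_pow]))
    fun j => by simpa [norm_smul, (f1 j).1] using ((u2 _).1 (hr (f j).1)).norm.pow 2
  obtain ⟨q, q1, q2⟩ := exQ (hv.comp _ (Subtype.val_injective (p := (· ∈ S))))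
  have q3 : q ∈ L := (u2 q).2 (tendsto_zero_iff_norm_tendsto_zero.2 (by
    have := s2.sqrt
    simp only [← tsum_subtype] at this
    refine (Real.sqrt_zero ▸ this).congr fun i => ?_
    exact (congrArg _ (q1 _).symm).trans (Real.sqrt_sq (norm_nonneg _))))
  obtain ⟨ε, d0, d1⟩ := small (K * ‖d‖) (show (0 : ℝ) < 1 / 40 by norm_num)
  obtain ⟨m, c, g, g1, g2⟩ := e3 (w q) ε d0
  obtain ⟨δ, d2, d3⟩ := small (∑ i, K * ‖d‖ * ‖g i‖) (show (0 : ℝ) < 1 / 8 by norm_num)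
  have := s1.to_subtype
  obtain ⟨B, B1, B2⟩ := trans (hyperfilter S) (fun j => (f j).1) (fun j => (f1 j).1) c d2
  obtain ⟨k, hk, j, hj, hkj⟩ := (show B.Infinite from fun h =>
    h.notMem_hyperfilter B1).nontrivial.exists_lt
  obtain ⟨W, W1, W2⟩ := B2 j hj k hk
  obtain ⟨n1, n2, n3, n4⟩ := f1 j
  have a1 := (norm_inner_le_norm (𝕜 := ℂ) (f j).1 _).trans (mul_le_mul n1.le
    (((f j).2 ∘L d).le_of_opNorm_le_of_le (b1 _ n2) g1) (norm_nonneg _) zero_le_one)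
  have a2 := (norm_inner_le_norm (𝕜 := ℂ) (f k).1 _).trans (mul_le_mul (f1 k).1.le
    ((g2 _).trans (mul_le_mul_of_nonneg_left (b2 _ W n2 W1) d0.le)) (norm_nonneg _) zero_le_one)
  have a3 := (f2 k j hkj).2 W W1
  have a4 := norm_sum_le_of_le Finset.univ fun i _ => (W2 i ((f j).2 (d (g i)))).trans
    (mul_le_mul_of_nonneg_left (((f j).2 ∘L d).le_of_opNorm_le (b1 _ n2) (g i)) d2.le)
  have a5 : rankOne ℂ (f k).1 (f k).1 = rankOne ℂ (f k).1 (f k).1 * q := by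
    ext x; exact congrArg (· • (f k).1) (q2 k x).symm
  rw [a5, w2 _ _ q3, e1, rankOne_apply, norm_smul, (f1 k).1, mul_one] at a3
  simp only [map_sub, map_sum, comp_apply, hd, n3, w1 q q3, one_apply_eq_self, inner_sub_right,
    inner_sum, show ∀ x, ⟪(f j).1, q x⟫_ℂ = _ from q2 j] at a1 a2
  rw [← Finset.mul_sum, Finset.sum_sub_distrib, norm_sub_rev] at a4
  rw [norm_sub_rev] at a2
  have a6 := (norm_sub_norm_le _ _).trans ((norm_sub_le_norm_sub_add_norm_sub _ _ _).trans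
    (add_le_add a1 ((norm_sub_le_norm_sub_add_norm_sub _ _ _).trans (add_le_add a4 a2))))
  simp only [Function.comp_apply] at a6
  linarith

theorem main (hH : ¬FiniteDimensional ℂ H) :
    ∃ M : LMod (H →L[ℂ] H), Irr M ∧ ¬HasRes M 1 := by
  obtain ⟨L, hL, hr⟩ := exL hH
  refine ⟨QM L, irr L, ?_⟩
  rintro ⟨P, d, e, ⟨⟨e1, e2⟩, c2, c3, -⟩, ⟨s, u, -, u1, u2, s2, s3⟩, hP, h0⟩
  refine core L hr (P 0) (P 1) (hP 0) (hP 1) e1.toContinuousLinearMap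
    (c2 0).1.toContinuousLinearMap (s 0) (u (mk L 1)) e2 (c2 0).2 c3 (fun x hx => ?_)
    (fun x => ?_) (u2 _)
  · have := s2 x
    rwa [show e x = 0 from hx, u1.toIsLinearMap.map_zero, add_zero] at this
  · have := s3 0 x
    rw [h0 2 one_lt_two (s _ x), (c2 1).1.toIsLinearMap.map_zero] at this
    exact (zero_add _).symm.trans this

end Pool.Agent.H90.Bh
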