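import Pool.Agent.H90.BomDefs

namespace Pool.Agent.H90.Bom

open Polynomial MeasureTheory Real Set

noncomputable abbrev mm : Measure ℝ := volume.restrict (Ioc 0 (2 * π))

noncomputable abbrev ee (t : ℝ) : ℂ := circleMap 0 1 t

lemma mm_univ : mm.real univ = 2 * π := by
  have := pi_pos
  simp [mm, Measure.real]; positivity

lemma mm_ne : mm ≠ 0 := by
  intro h
  have := mm_univ
  rw [h] at this
  have h2 := pi_pos
  simp at this

lemma int_mm (f : ℝ → ℝ) : ∫ t, f t ∂mm = ∫ t in (0 : ℝ)..2 * π, f t := by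
  rw [intervalIntegral.integral_of_le (by positivity)]

lemma swap_exists {F : ℝ × ℝ → ℝ} (hF : Integrable F (mm.prod mm)) {G : ℝ → ℝ}
    (hG : Integrable G mm) (h : ∀ t, 2 * π * G t ≤ ∫ θ, F (θ, t) ∂mm) :
    ∃ θ, ∫ t, G t ∂mm ≤ ∫ t, F (θ, t) ∂mm := by
  obtain ⟨θ, hθ⟩ := exists_average_le mm_ne hF.integral_prod_left
  refine ⟨θ, le_trans ?_ hθ⟩
  rw [average_eq, mm_univ, smul_eq_mul, ← integral_prod _ hF, integral_prod_symm _ hF,
    le_inv_mul_iff₀ (by positivity), ← integral_const_mul]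
  exact integral_mono (hG.const_mul _) hF.integral_prod_right h

lemma int_log (a b : ℂ) (hb : b ≠ 0) :
    Integrable (fun θ => log ‖a + ee θ * b‖) mm ∧
      ∫ θ, log ‖a + ee θ * b‖ ∂mm = 2 * π * log (max ‖a‖ ‖b‖) := by
  have e : ∀ θ, (C b * X + C a).eval (circleMap 0 1 θ) = a + ee θ * b := by
    intro θ; simp; ring
  constructor
  · have := intervalIntegrable_mahlerMeasure (C b * X + C a)
    rw [intervalIntegrable_iff_integrableOn_Ioc_of_le (by positivity)] at this
    simp only [e] at this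
    exact this
  · have h1 := logMahlerMeasure_eq_log_MahlerMeasure (p := C b * X + C a)
    rw [mahlerMeasure_C_mul_X_add_C hb, logMahlerMeasure_def, circleAverage_def] at h1
    simp only [e, smul_eq_mul] at h1
    rw [int_mm, max_comm, ← h1, ← mul_assoc, mul_inv_cancel₀ (by positivity), one_mul]

lemma log_le' {x y : ℝ} (hx : 0 ≤ x) (hy : 1 ≤ y) (h : x ≤ y) : log x ≤ log y := by
  rcases hx.eq_or_lt with h0 | h0
  · rw [← h0, log_zero]; exact log_nonneg hy
  · exact log_le_log h0 h

lemma cont_int {f : ℝ → ℝ} (hf : Continuous f) : Integrable f mm :=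
  (hf.continuousOn.integrableOn_Icc (a := 0) (b := 2 * π)).mono_set Ioc_subset_Icc_self

lemma cont_int2 {F : ℝ × ℝ → ℝ} (hF : Continuous F) : Integrable F (mm.prod mm) := by
  rw [Measure.prod_restrict]
  have : IntegrableOn F (Icc 0 (2 * π) ×ˢ Icc 0 (2 * π)) (volume.prod volume) :=
    hF.continuousOn.integrableOn_compact (isCompact_Icc.prod isCompact_Icc)
  exact this.mono_set (prod_mono Ioc_subset_Icc_self Ioc_subset_Icc_self)

lemma cont_ee : Continuous ee := continuous_circleMap 0 1

lemma stepI {A c : ℝ → ℂ} {g : ℝ → ℝ} (hA : Continuous A) (hc : Continuous c)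
    (hg : Continuous g) (h1 : ∀ t, 1 ≤ g t) :
    ∃ θ, ∫ t, log (max ‖A t‖ (max ‖c t‖ (g t))) ∂mm ≤
      ∫ t, log (max ‖A t + ee θ * c t‖ (g t)) ∂mm := by
  have hF : Continuous fun x : ℝ × ℝ => log (max ‖A x.2 + ee x.1 * c x.2‖ (g x.2)) := by
    refine Continuous.log (by have := cont_ee; fun_prop) fun x => ?_
    exact ne_of_gt (lt_of_lt_of_le (by linarith [h1 x.2]) (le_max_right _ _))
  have hG : Continuous fun t => log (max ‖A t‖ (max ‖c t‖ (g t))) := by
    refine Continuous.log (by fun_prop) fun t => ?_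
    exact ne_of_gt (lt_of_lt_of_le (by linarith [h1 t])
      ((le_max_right _ _).trans (le_max_right _ _)))
  refine swap_exists (F := fun x => log (max ‖A x.2 + ee x.1 * c x.2‖ (g x.2))) (cont_int2 hF)
    (cont_int hG) fun t => ?_
  have hs : Integrable (fun θ => log (max ‖A t + ee θ * c t‖ (g t))) mm :=
    cont_int (hF.comp (Continuous.prodMk_left t))
  have b1 : 2 * π * log (g t) ≤ ∫ θ, log (max ‖A t + ee θ * c t‖ (g t)) ∂mm := by
    have := integral_mono (integrable_const (log (g t))) hs fun θ =>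
      log_le_log (by linarith [h1 t]) (le_max_right _ _)
    rwa [integral_const, mm_univ, smul_eq_mul] at this
  by_cases hc0 : c t = 0
  · simp only [hc0, norm_zero, mul_zero, add_zero, integral_const, mm_univ, smul_eq_mul]
    rw [max_eq_right (show (0 : ℝ) ≤ g t by linarith [h1 t])]
  · obtain ⟨i1, i2⟩ := int_log (A t) (c t) hc0
    have b2 : 2 * π * log (max ‖A t‖ ‖c t‖) ≤ ∫ θ, log (max ‖A t + ee θ * c t‖ (g t)) ∂mm := by
      rw [← i2]
      exact integral_mono i1 hs fun θ =>
        log_le' (norm_nonneg _) ((h1 t).trans (le_max_right _ _)) (le_max_left _ _)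
    rw [← max_assoc]
    rcases le_total (max ‖A t‖ ‖c t‖) (g t) with h | h
    · rw [max_eq_right h]; exact b1
    · rw [max_eq_left h]; exact b2

lemma stepII {A : ℝ → ℂ} (hA : Continuous A) :
    ∃ θ, ∫ t, log (max ‖A t‖ 1) ∂mm ≤ ∫ t, log ‖A t + ee θ‖ ∂mm := by
  have hG : Continuous fun t => log (max ‖A t‖ 1) := by
    refine Continuous.log (by fun_prop) fun t => ?_
    exact ne_of_gt (lt_of_lt_of_le one_pos (le_max_right _ _))
  have hm : Measurable fun x : ℝ × ℝ => log ‖A x.2 + ee x.1‖ := by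
    have : Continuous fun x : ℝ × ℝ => ‖A x.2 + ee x.1‖ := by have := cont_ee; fun_prop
    exact this.measurable.log
  have sl : ∀ t, Integrable (fun θ => log ‖A t + ee θ‖) mm ∧
      ∫ θ, log ‖A t + ee θ‖ ∂mm = 2 * π * log (max ‖A t‖ 1) := fun t => by
    simpa using int_log (A t) 1 one_ne_zero
  refine swap_exists (F := fun x => log ‖A x.2 + ee x.1‖) ?_ (cont_int hG) fun t => (sl t).2.ge
  rw [integrable_prod_iff' hm.aestronglyMeasurable]
  refine ⟨Filter.Eventually.of_forall fun t => (sl t).1, ?_⟩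
  have hB : Continuous fun t => 2 * π * (2 * log (‖A t‖ + 1)) := by
    refine continuous_const.mul (continuous_const.mul (Continuous.log (by fun_prop) fun t => ?_))
    positivity
  refine (cont_int hB).mono' hm.aestronglyMeasurable.norm.prod_swap.integral_prod_right'
    (Filter.Eventually.of_forall fun t => ?_)
  rw [Real.norm_of_nonneg (integral_nonneg fun _ => norm_nonneg _)]
  have h0 : 0 ≤ log (‖A t‖ + 1) := log_nonneg (by linarith [norm_nonneg (A t)])
  have key : ∀ θ, ‖log ‖A t + ee θ‖‖ ≤ 2 * log (‖A t‖ + 1) - log ‖A t + ee θ‖ := by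
    intro θ
    have h2 : log ‖A t + ee θ‖ ≤ log (‖A t‖ + 1) :=
      log_le' (norm_nonneg _) (by linarith [norm_nonneg (A t)])
        ((norm_add_le _ _).trans (by simp))
    rw [Real.norm_eq_abs, abs_le]
    constructor <;> linarith
  have h3 := integral_mono (sl t).1.norm ((integrable_const _).sub (sl t).1) key
  simp only [Pi.sub_apply] at h3
  rw [integral_sub (integrable_const _) (sl t).1, (sl t).2, integral_const, mm_univ,
    smul_eq_mul] at h3
  have h4 : 0 ≤ 2 * π * log (max ‖A t‖ 1) :=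
    mul_nonneg (by positivity) (log_nonneg (le_max_right _ _))
  show ∫ θ, ‖log ‖A t + ee θ‖‖ ∂mm ≤ _
  linarith

end Pool.Agent.H90.Bom
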