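import Pool.Agent.H90.BomA

namespace Pool.Agent.H90.Bom

open Polynomial MeasureTheory Real Set Filter Topology

noncomputable def zz (t : ℝ) : ℂ := ee t + 1

lemma cont_zz : Continuous zz := cont_ee.add continuous_const

noncomputable def GG (n : ℕ) : ℕ → ℝ → ℝ
  | 0 => fun _ => 1
  | k + 1 => fun t => max ‖(n.choose (k + 1) : ℂ) * zz t ^ (k + 1)‖ (GG n k t)

lemma GG_cont (n k : ℕ) : Continuous (GG n k) := by
  induction k with
  | zero => exact continuous_const
  | succ k ih => have := cont_zz; simp only [GG]; fun_prop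

lemma GG_one (n k : ℕ) (t : ℝ) : 1 ≤ GG n k t := by
  induction k with
  | zero => exact le_rfl
  | succ k ih => exact ih.trans (le_max_right _ _)

lemma GG_ge (n k : ℕ) (t : ℝ) : ∀ j ≤ k, (n.choose j : ℝ) * ‖zz t‖ ^ j ≤ GG n k t := by
  induction k with
  | zero => intro j hj; obtain rfl : j = 0 := by omega
            simp [GG]
  | succ k ih =>
    intro j hj
    rcases Nat.lt_or_ge j (k + 1) with h | h
    · exact (ih j (by omega)).trans (le_max_right _ _)
    · obtain rfl : j = k + 1 := by omega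
      refine le_trans (le_of_eq ?_) (le_max_left _ _)
      simp

lemma GG_sum (n : ℕ) (t : ℝ) : (1 + ‖zz t‖) ^ n ≤ (n + 1) * GG n n t := by
  rw [add_comm, add_pow]
  calc _ ≤ ∑ _j ∈ Finset.range (n + 1), GG n n t := by
        refine Finset.sum_le_sum fun j hj => ?_
        have := GG_ge n n t j (by simpa [Nat.lt_succ_iff] using hj)
        simpa [mul_comm] using this
    _ = _ := by simp

def Good (n k : ℕ) (p : ℂ[X]) : Prop :=
  p.Monic ∧ p.natDegree = n ∧ (∀ j < k, p.coeff j = 0) ∧ ∀ j, ‖p.coeff j‖ ≤ n.choose j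

lemma good_step {n k : ℕ} {p : ℂ[X]} (hk : k < n) (h : Good n (k + 1) p) (θ : ℝ) :
    Good n k (p + C (ee θ * n.choose k) * X ^ k) := by
  obtain ⟨h1, h2, h3, h4⟩ := h
  have hd : (C (ee θ * n.choose k) * X ^ k : ℂ[X]).degree < p.degree := by
    refine (degree_C_mul_X_pow_le _ _).trans_lt ?_
    rw [degree_eq_natDegree h1.ne_zero, h2]; exact_mod_cast hk
  refine ⟨h1.add_of_left hd, ?_, fun j hj => ?_, fun j => ?_⟩
  · rw [natDegree_add_eq_left_of_degree_lt hd, h2]
  · rw [coeff_add, h3 j (by omega), coeff_C_mul_X_pow, if_neg (by omega), add_zero]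
  · rw [coeff_add, coeff_C_mul_X_pow]
    split_ifs with hj
    · subst hj; rw [h3 j (by omega)]; simp
    · simpa using h4 j

lemma exists_good (N : ℕ) : ∀ k ≤ N, ∃ p, Good (N + 1) (k + 1) p ∧
    ∫ t, log (GG (N + 1) (N + 1) t) ∂mm ≤ ∫ t, log (max ‖p.eval (zz t)‖ (GG (N + 1) k t)) ∂mm := by
  intro k hk
  induction hk using Nat.decreasingInduction with
  | self =>
    refine ⟨X ^ (N + 1), ⟨monic_X_pow _, natDegree_X_pow _, fun j hj => ?_, fun j => ?_⟩, ?_⟩
    · rw [coeff_X_pow, if_neg (by omega)]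
    · rw [coeff_X_pow]; split_ifs with h
      · subst h; simp
      · simp
    · simp [GG]
  | of_succ k hk ih =>
    obtain ⟨p, hp, hi⟩ := ih
    have := cont_zz
    obtain ⟨θ, hθ⟩ := stepI (A := fun t => p.eval (zz t))
      (c := fun t => ((N + 1).choose (k + 1) : ℂ) * zz t ^ (k + 1)) (g := GG (N + 1) k)
      (p.continuous.comp cont_zz) (by fun_prop) (GG_cont _ _) (GG_one _ _)
    refine ⟨_, good_step (by omega) hp θ, hi.trans (hθ.trans (le_of_eq ?_))⟩
    simp [mul_assoc]

noncomputable def LL : ℝ := ∫ t, log (1 + ‖zz t‖) ∂mm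

lemma cont_L : Continuous fun t => log (1 + ‖zz t‖) := by
  have := cont_zz
  exact Continuous.log (by fun_prop) fun t => by positivity

lemma KK_eq : KK = exp ((2 * π)⁻¹ * LL) := by
  simp only [KK, LL, int_mm, zz, circleMap, add_comm (1 : ℂ)]
  simp

lemma exists_big (N : ℕ) : ∃ p, Good (N + 1) 0 p ∧
    (N + 1 : ℕ) * LL - 2 * π * log ((N + 1 : ℕ) + 1) ≤ ∫ t, log ‖p.eval (zz t)‖ ∂mm := by
  obtain ⟨p, hp, hi⟩ := exists_good N 0 (Nat.zero_le _)
  obtain ⟨θ, hθ⟩ := stepII (A := fun t => p.eval (zz t)) (p.continuous.comp cont_zz)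
  refine ⟨_, good_step (by omega) hp θ, le_trans ?_ (hi.trans (hθ.trans (le_of_eq ?_)))⟩
  · have hc : Continuous fun t => log (GG (N + 1) (N + 1) t) :=
      (GG_cont _ _).log fun t => by linarith [GG_one (N + 1) (N + 1) t]
    have h1 := integral_mono (((cont_int cont_L).const_mul ((N + 1 : ℕ) : ℝ)).sub
      (integrable_const (log (((N + 1 : ℕ) : ℝ) + 1)))) (cont_int hc) fun t => by
        have h2 := log_le_log (by positivity) (GG_sum (N + 1) t)
        rw [log_pow, log_mul (by positivity) (by linarith [GG_one (N + 1) (N + 1) t])] at h2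
        simp only [Pi.sub_apply]
        linarith
    simp only [Pi.sub_apply] at h1
    rw [integral_sub ((cont_int cont_L).const_mul _) (integrable_const _), integral_const_mul,
      integral_const, mm_univ, smul_eq_mul] at h1
    exact h1
  · simp

lemma mahler_taylor {p : ℂ[X]} (hp : p.Monic) (z : ℂ) : (taylor z p).mahlerMeasure =
    exp ((2 * π)⁻¹ * ∫ t, log ‖p.eval (ee t + z)‖ ∂mm) := by
  have h : taylor z p ≠ 0 := by
    rw [← leadingCoeff_ne_zero, leadingCoeff_taylor, hp.leadingCoeff]; exact one_ne_zero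
  rw [mahlerMeasure_def_of_ne_zero h, int_mm]
  simp only [taylor_eval]

lemma factor (z : ℂ) (s : Multiset ℂ) : ∃ q : ℂ[X], q.Monic ∧ q ∣ (s.map fun a => X - C a).prod ∧
    ‖q.eval z‖ = (taylor z (s.map fun a => X - C a).prod).mahlerMeasure := by
  induction s using Multiset.induction_on with
  | empty => exact ⟨1, monic_one, by simp, by simp⟩
  | cons a s ih =>
    obtain ⟨q, h1, h2, h3⟩ := ih
    have e : taylor z (X - C a) = X - C (a - z) := by
      rw [map_sub, taylor_X, taylor_C, C_sub]; ring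
    rw [Multiset.map_cons, Multiset.prod_cons, taylor_mul, mahlerMeasure_mul, e,
      mahlerMeasure_X_sub_C, ← h3]
    rcases le_total 1 ‖a - z‖ with h | h
    · refine ⟨(X - C a) * q, (monic_X_sub_C a).mul h1, mul_dvd_mul_left _ h2, ?_⟩
      rw [max_eq_right h, eval_mul, norm_mul, norm_sub_rev a z]; simp
    · exact ⟨q, h1, h2.mul_left _, by rw [max_eq_left h, one_mul]⟩

lemma eval_le_mahler {p q : ℂ[X]} (hp : p.Monic) (hq : q.Monic) (h : q ∣ p) (z : ℂ) :
    ‖q.eval z‖ ≤ (taylor z p).mahlerMeasure := by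
  obtain ⟨r, rfl⟩ := h
  have hr : r.Monic := hq.of_mul_monic_left hp
  rw [taylor_mul, mahlerMeasure_mul]
  have h1 := norm_coeff_le_choose_mul_mahlerMeasure 0 (taylor z q)
  rw [taylor_coeff_zero, Nat.choose_zero_right, Nat.cast_one, one_mul] at h1
  have h2 : 1 ≤ (taylor z r).mahlerMeasure :=
    one_le_mahlerMeasure_of_one_le_norm_leadingCoeff (by
      rw [leadingCoeff_taylor, hr.leadingCoeff]; simp)
  exact h1.trans (le_mul_of_one_le_right (mahlerMeasure_nonneg _) h2)

lemma coeff_le_bomb (p : ℂ[X]) {j : ℕ} (hj : j ≤ p.natDegree) :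
    ‖p.coeff j‖ ≤ bomb p * p.natDegree.choose j := by
  have h1 : ‖p.coeff j‖ / (p.natDegree.choose j : ℝ) ≤ bomb p :=
    Finset.le_sup' (fun j => ‖p.coeff j‖ / (p.natDegree.choose j : ℝ))
      (Finset.mem_range.2 (by omega))
  rwa [div_le_iff₀ (by exact_mod_cast Nat.choose_pos hj)] at h1

lemma one_le_bomb {p : ℂ[X]} (hp : p.Monic) : 1 ≤ bomb p := by
  have := coeff_le_bomb p le_rfl
  simpa [hp.coeff_natDegree] using this

lemma eval_le_bomb (p : ℂ[X]) (w : ℂ) : ‖p.eval w‖ ≤ bomb p * (1 + ‖w‖) ^ p.natDegree := by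
  rw [eval_eq_sum_range, add_comm 1, add_pow, Finset.mul_sum]
  refine (norm_sum_le _ _).trans (Finset.sum_le_sum fun j hj => ?_)
  have := coeff_le_bomb p (j := j) (by simpa [Nat.lt_succ_iff] using hj)
  rw [norm_mul, norm_pow, one_pow, mul_one]
  calc _ ≤ bomb p * p.natDegree.choose j * ‖w‖ ^ j := by gcongr
    _ = _ := by ring

lemma shift (φ : ℝ) : ∫ t, log (1 + ‖ee t + ee φ‖) ∂mm = LL := by
  have e : ∀ t, ‖ee t + ee φ‖ = ‖zz (t - φ)‖ := by
    intro t
    have : ee t + ee φ = ee φ * zz (t - φ) := by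
      simp only [zz, ee, circleMap, mul_add]
      simp [← Complex.exp_add]; ring_nf
    rw [this, norm_mul]; simp
  simp only [e]
  rw [LL, int_mm, int_mm, intervalIntegral.integral_comp_sub_right (fun t => log (1 + ‖zz t‖))]
  have hper : Function.Periodic (fun t => log (1 + ‖zz t‖)) (2 * π) := fun t => by
    simp only [zz, ee, periodic_circleMap 0 1 t]
  have := hper.intervalIntegral_add_eq (0 - φ) 0
  rw [zero_add] at this
  rw [← this]; congr 1; ring

lemma upper_sphere {p q : ℂ[X]} (hp : p.Monic) (hq : q.Monic) (h : q ∣ p) (φ : ℝ) :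
    ‖q.eval (ee φ)‖ ≤ bomb p * KK ^ p.natDegree := by
  refine (eval_le_mahler hp hq h _).trans ?_
  have hb := one_le_bomb hp
  rw [mahler_taylor hp, KK_eq, ← exp_nat_mul, ← exp_log (show 0 < bomb p by linarith), ← exp_add,
    exp_le_exp]
  have i1 : Integrable (fun t => log ‖p.eval (ee t + ee φ)‖) mm := by
    have := intervalIntegrable_mahlerMeasure (taylor (ee φ) p)
    rw [intervalIntegrable_iff_integrableOn_Ioc_of_le (by positivity)] at this
    simp only [taylor_eval] at this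
    exact this
  have i2 : Integrable (fun t => log (1 + ‖ee t + ee φ‖)) mm := by
    have := cont_ee
    exact cont_int (Continuous.log (by fun_prop) fun t => by positivity)
  have h1 := integral_mono i1 ((integrable_const (log (bomb p))).add
    (i2.const_mul (p.natDegree : ℝ))) fun t => by
      have h2 := log_le' (norm_nonneg _) (one_le_mul_of_one_le_of_one_le hb
        (one_le_pow₀ (by linarith [norm_nonneg (ee t + ee φ)]))) (eval_le_bomb p (ee t + ee φ))
      rw [log_mul (by linarith) (by positivity), log_pow] at h2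
      exact h2
  simp only [Pi.add_apply] at h1
  rw [integral_add (integrable_const _) (i2.const_mul _), integral_const_mul, shift,
    integral_const, mm_univ, smul_eq_mul] at h1
  rw [inv_mul_le_iff₀ (by positivity)]
  refine h1.trans (le_of_eq ?_)
  field_simp

lemma upper_ball {p q : ℂ[X]} (hp : p.Monic) (hq : q.Monic) (h : q ∣ p) {z : ℂ}
    (hz : z ∈ Metric.closedBall (0 : ℂ) 1) : ‖q.eval z‖ ≤ bomb p * KK ^ p.natDegree := by
  refine Complex.norm_le_of_forall_mem_frontier_norm_le (U := Metric.ball 0 1)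
    Metric.isBounded_ball q.differentiable.diffContOnCl (fun w hw => ?_)
    (by rwa [closure_ball _ one_ne_zero])
  rw [frontier_ball _ one_ne_zero] at hw
  have : w ∈ range (circleMap 0 1) := by rw [range_circleMap]; simpa using hw
  obtain ⟨φ, rfl⟩ := this
  exact upper_sphere hp hq h φ

lemma KK_pos : 0 < KK := exp_pos _

lemma SS_bdd (n : ℕ) : ∀ r ∈ {r | ∃ p q : ℂ[X], p.Monic ∧ p.natDegree = n ∧ q.Monic ∧ q ∣ p ∧
    r = supD q / bomb p}, r ≤ KK ^ n := by
  rintro r ⟨p, q, hp, rfl, hq, h, rfl⟩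
  have hb := one_le_bomb hp
  have := KK_pos
  rw [div_le_iff₀ (by linarith), mul_comm]
  refine Real.sSup_le ?_ (by positivity)
  rintro _ ⟨z, hz, rfl⟩
  exact upper_ball hp hq h hz

lemma SS_le (n : ℕ) : SS n ≤ KK ^ n := Real.sSup_le (SS_bdd n) (pow_pos KK_pos n).le

lemma SS_ge (N : ℕ) : KK ^ (N + 1) / ((N + 1 : ℕ) + 1) ≤ SS (N + 1) := by
  obtain ⟨p, ⟨hp, hn, -, hc⟩, hi⟩ := exists_big N
  obtain ⟨q, hq, hd, he⟩ := factor 1 p.roots
  rw [prod_multiset_X_sub_C_of_monic_of_roots_card_eq hp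
    (IsAlgClosed.card_roots_eq_natDegree)] at hd he
  have hb1 : bomb p ≤ 1 := by
    refine Finset.sup'_le _ _ fun j hj => ?_
    rw [hn] at hj ⊢
    rw [div_le_one (by exact_mod_cast Nat.choose_pos (by simpa [Nat.lt_succ_iff] using hj))]
    exact hc j
  have hb : bomb p = 1 := le_antisymm hb1 (one_le_bomb hp)
  refine le_trans ?_ (le_csSup ⟨_, SS_bdd (N + 1)⟩ ⟨p, q, hp, hn, hq, hd, rfl⟩)
  rw [hb, div_one]
  have h1 : ‖q.eval 1‖ ≤ supD q :=
    le_csSup ⟨_, by rintro _ ⟨z, hz, rfl⟩; exact upper_ball hp hq hd hz⟩ ⟨1, by simp, rfl⟩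
  refine le_trans ?_ h1
  rw [he, mahler_taylor hp, KK_eq, ← exp_nat_mul,
    ← exp_log (show (0 : ℝ) < ((N + 1 : ℕ) : ℝ) + 1 by positivity), ← exp_sub, exp_le_exp,
    le_inv_mul_iff₀ (by positivity)]
  refine le_trans (le_of_eq ?_) hi
  field_simp

theorem main : Tendsto (fun n : ℕ => SS n ^ (1 / (n : ℝ))) atTop (𝓝 KK) := by
  have hK := KK_pos
  have h1 : Tendsto (fun n : ℕ => log ((n : ℝ) + 1) / n) atTop (𝓝 0) := by
    have h2 := (Real.tendsto_pow_log_div_mul_add_atTop 1 (-1) 1 one_ne_zero).comp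
      (tendsto_atTop_add_const_right atTop (1 : ℝ) tendsto_natCast_atTop_atTop)
    refine h2.congr fun n => ?_
    simp
  have h3 : Tendsto (fun n : ℕ => exp (log KK - log ((n : ℝ) + 1) / n)) atTop (𝓝 KK) := by
    have := (continuous_exp.tendsto _).comp ((tendsto_const_nhds (x := log KK)).sub h1)
    rwa [sub_zero, exp_log hK] at this
  refine tendsto_of_tendsto_of_tendsto_of_le_of_le' h3 tendsto_const_nhds ?_ ?_
  · filter_upwards [eventually_ge_atTop 1] with n hn
    obtain ⟨N, rfl⟩ : ∃ N, n = N + 1 := ⟨n - 1, by omega⟩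
    refine le_trans (le_of_eq ?_) (rpow_le_rpow (by positivity) (SS_ge N) (by positivity))
    rw [rpow_def_of_pos (by positivity), log_div (by positivity) (by positivity), log_pow]
    congr 1
    field_simp
  · filter_upwards [eventually_ge_atTop 1] with n hn
    obtain ⟨N, rfl⟩ : ∃ N, n = N + 1 := ⟨n - 1, by omega⟩
    have h0 : 0 ≤ SS (N + 1) := le_trans (by positivity) (SS_ge N)
    refine (rpow_le_rpow h0 (SS_le _) (by positivity)).trans (le_of_eq ?_)
    rw [one_div, pow_rpow_inv_natCast hK.le (by omega)]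

end Pool.Agent.H90.Bom
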