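import Mathlib

/-! Bombieri's supremum norm and the growth of monic factors. -/

namespace Pool.Agent.H90.Bom

open Polynomial

/-- `‖q‖ = max_{|z| ≤ 1} |q(z)|`. -/
noncomputable def supD (q : ℂ[X]) : ℝ := sSup ((fun z => ‖q.eval z‖) '' Metric.closedBall 0 1)

/-- Bombieri's supremum norm `[p] = max_{0 ≤ j ≤ n} |a_j| / C(n, j)`, `n = deg p`. -/
noncomputable def bomb (p : ℂ[X]) : ℝ :=
  (Finset.range (p.natDegree + 1)).sup' Finset.nonempty_range_add_one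
    fun j => ‖p.coeff j‖ / (p.natDegree.choose j : ℝ)

/-- `S_n = sup {‖q‖ / [p] : p, q monic, deg p = n, q ∣ p}`. -/
noncomputable def SS (n : ℕ) : ℝ :=
  sSup {r | ∃ p q : ℂ[X], p.Monic ∧ p.natDegree = n ∧ q.Monic ∧ q ∣ p ∧ r = supD q / bomb p}

/-- `K = M(1 + |x + 1|)`. -/
noncomputable def KK : ℝ :=
  Real.exp ((2 * Real.pi)⁻¹ *
    ∫ t in (0 : ℝ)..2 * Real.pi, Real.log (1 + ‖1 + Complex.exp (t * Complex.I)‖))

end Pool.Agent.H90.Bom
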