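import Pool.Agent.H90.Glue

set_option autoImplicit false

namespace Pool.Agent.H90.BoxOsc

open Set Filter Topology Pool.Agent.H90.Glue

def ee (a k : ℕ) : ℕ := a + 3 * k + 12 * 2 ^ Nat.log 2 k

noncomputable def PP (a k : ℕ) : ℝ := (1 / 2) ^ ee a k

noncomputable def WW (a k : ℕ) : ℝ := 2 ^ k * PP a k

noncomputable def pt (a k m : ℕ) : ℝ := cc k + PP a k * m

def KK (a : ℕ) : Set ℝ := {x | x = 0 ∨ ∃ k m, m < 2 ^ k ∧ x = pt a k m}

lemma PP_pos (a k : ℕ) : 0 < PP a k := by unfold PP; positivity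

lemma PP_succ (a k : ℕ) : PP a (k + 1) ≤ PP a k / 8 := by
  have h : ee a k + 3 ≤ ee a (k + 1) := by
    have : 2 ^ Nat.log 2 k ≤ 2 ^ Nat.log 2 (k + 1) :=
      Nat.pow_le_pow_right (by norm_num) (Nat.log_mono_right (Nat.le_succ k))
    unfold ee; omega
  have := pow_le_pow_of_le_one (by norm_num : (0 : ℝ) ≤ 1 / 2) (by norm_num) h
  rw [pow_add] at this
  unfold PP
  linarith

lemma WW_pos (a k : ℕ) : 0 < WW a k := mul_pos (by positivity) (PP_pos a k)

lemma WW_anti (a : ℕ) : Antitone (WW a) := by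
  apply antitone_nat_of_succ_le
  intro k
  unfold WW
  have := PP_succ a k
  have h2 := PP_pos a k
  have h3 : (0 : ℝ) < 2 ^ k := by positivity
  rw [pow_succ]
  nlinarith

lemma WW_eq (a k : ℕ) : WW a k = (1 / 2) ^ (a + 2 * k + 12 * 2 ^ Nat.log 2 k) := by
  unfold WW PP ee
  rw [show a + 3 * k + 12 * 2 ^ Nat.log 2 k = k + (a + 2 * k + 12 * 2 ^ Nat.log 2 k) by ring,
    pow_add (1 / 2 : ℝ) k, ← mul_assoc, ← mul_pow]
  norm_num

lemma WW_le (a k : ℕ) : WW a k ≤ (1 / 2) ^ a * cc k ^ 2 := by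
  rw [WW_eq, cc, ← pow_mul, ← pow_add]
  exact pow_le_pow_of_le_one (by norm_num) (by norm_num) (by omega)

lemma WW_le' (a k : ℕ) : WW a k ≤ cc k := by
  rw [WW_eq, cc]
  exact pow_le_pow_of_le_one (by norm_num) (by norm_num) (by omega)

lemma pt_bound (a k m : ℕ) (hm : m < 2 ^ k) : 0 ≤ PP a k * m ∧ PP a k * m ≤ WW a k := by
  have h : (m : ℝ) ≤ 2 ^ k := by exact_mod_cast hm.le
  have := PP_pos a k
  unfold WW
  exact ⟨by positivity, by nlinarith⟩

lemma pt_small (a k m : ℕ) (hm : m < 2 ^ k) : |pt a k m| ≤ 2 * cc k := by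
  have h := pt_bound a k m hm
  have := WW_le' a k
  have := cc_pos k
  unfold pt
  rw [abs_le]; constructor <;> linarith [h.1, h.2]

lemma KK_compact (a : ℕ) : IsCompact (KK a) := by
  have e : KK a = insert 0 (range (fun p : (Σ k : ℕ, Fin (2 ^ k)) => pt a p.1 p.2)) := by
    ext x
    constructor
    · rintro (h | ⟨k, m, hm, rfl⟩)
      · exact Or.inl h
      · exact Or.inr ⟨⟨k, ⟨m, hm⟩⟩, rfl⟩
    · rintro (h | ⟨p, rfl⟩)
      · exact Or.inl h
      · exact Or.inr ⟨p.1, p.2, p.2.2, rfl⟩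
  rw [e]
  apply Tendsto.isCompact_insert_range_of_cofinite
  rw [Metric.tendsto_nhds]
  intro ε hε
  obtain ⟨N, hN⟩ := exists_pow_lt_of_lt_one (show 0 < ε / 2 by positivity)
    (show (1 / 2 : ℝ) < 1 by norm_num)
  rw [eventually_cofinite]
  refine (((Finset.range N).sigma (fun k => (Finset.univ : Finset (Fin (2 ^ k))))).finite_toSet).subset ?_
  intro p hp
  simp only [Finset.coe_sigma, Finset.coe_range, Finset.coe_univ, mem_sigma_iff, mem_Iio, mem_univ,
    and_true]
  by_contra h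
  apply hp
  have h1 := pt_small a p.1 p.2 p.2.2
  have h2 : cc p.1 ≤ (1 / 2) ^ N :=
    pow_le_pow_of_le_one (by norm_num) (by norm_num) (by omega)
  rw [Real.dist_eq, sub_zero]
  linarith

theorem ifs : ∃ (a : ℕ) (f : Fin 3 → ℝ → ℝ), (∀ i, Differentiable ℝ (f i)) ∧
    (∀ i, LipschitzWith (3 / 4) (f i)) ∧ KK a = ⋃ i, f i '' KK a := by
  obtain ⟨η, hη, H⟩ := glue
  obtain ⟨a, ha⟩ := exists_pow_lt_of_lt_one hη (show (1 / 2 : ℝ) < 1 by norm_num)
  have hW : ∀ k, 0 < WW a k ∧ WW a k ≤ η * cc k ^ 2 := fun k =>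
    ⟨WW_pos a k, (WW_le a k).trans (mul_le_mul_of_nonneg_right ha.le (by positivity))⟩
  have hρ : ∀ k, 0 ≤ PP a (k + 1) / PP a k ∧ PP a (k + 1) / PP a k ≤ 1 / 2 := fun k => by
    have h1 := PP_pos a k
    have h2 := PP_pos a (k + 1)
    have h3 := PP_succ a k
    exact ⟨by positivity, by rw [div_le_iff₀ h1]; linarith⟩
  obtain ⟨f0, d0, l0, z0, h0⟩ := H (WW a) _ (fun _ => 0) hW hρ
    (fun k => ⟨le_rfl, (WW_pos a k).le⟩)
  obtain ⟨f1, d1, l1, z1, h1⟩ := H (WW a) _ (fun k => 2 ^ k * PP a (k + 1)) hW hρ (fun k => by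
    have h1 := PP_pos a k
    have h2 := PP_pos a (k + 1)
    have h3 := PP_succ a k
    refine ⟨by positivity, ?_⟩
    unfold WW
    gcongr
    linarith)
  have e0 : ∀ k m, m < 2 ^ k → f0 (pt a k m) = pt a (k + 1) m := fun k m hm => by
    have := PP_pos a k
    unfold pt
    rw [h0 k _ (pt_bound a k m hm).1 (pt_bound a k m hm).2, cc_succ]
    field_simp
    ring
  have e1 : ∀ k m, m < 2 ^ k → f1 (pt a k m) = pt a (k + 1) (m + 2 ^ k) := fun k m hm => by
    have := PP_pos a k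
    unfold pt
    rw [h1 k _ (pt_bound a k m hm).1 (pt_bound a k m hm).2, cc_succ]
    push_cast
    field_simp
    ring
  refine ⟨a, ![f0, f1, fun _ => pt a 0 0], ?_, ?_, ?_⟩
  · intro i
    fin_cases i
    · exact d0
    · exact d1
    · exact differentiable_const _
  · intro i
    fin_cases i
    · exact l0
    · exact l1
    · exact (LipschitzWith.const _).weaken zero_le
  · ext x
    simp only [mem_iUnion]
    constructor
    · rintro (rfl | ⟨k, m, hm, rfl⟩)
      · exact ⟨0, 0, Or.inl rfl, z0⟩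
      · cases k with
        | zero =>
          obtain rfl : m = 0 := by simpa using hm
          exact ⟨2, 0, Or.inl rfl, rfl⟩
        | succ k =>
          by_cases h : m < 2 ^ k
          · exact ⟨0, _, Or.inr ⟨k, m, h, rfl⟩, e0 k m h⟩
          · have h2 : m - 2 ^ k < 2 ^ k := by rw [pow_succ] at hm; omega
            refine ⟨1, _, Or.inr ⟨k, m - 2 ^ k, h2, rfl⟩, ?_⟩
            have := e1 k _ h2
            rw [show m - 2 ^ k + 2 ^ k = m by omega] at this
            exact this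
    · rintro ⟨i, y, hy, rfl⟩
      fin_cases i
      · rcases hy with rfl | ⟨k, m, hm, rfl⟩
        · exact Or.inl z0
        · exact Or.inr ⟨k + 1, m, by rw [pow_succ]; omega, e0 k m hm⟩
      · rcases hy with rfl | ⟨k, m, hm, rfl⟩
        · exact Or.inl z1
        · exact Or.inr ⟨k + 1, m + 2 ^ k, by rw [pow_succ]; omega, e1 k m hm⟩
      · exact Or.inr ⟨0, 0, by norm_num, rfl⟩

noncomputable def NN (K : Set ℝ) (δ : ℝ) : ℕ :=
  sInf {m : ℕ | ∃ s : Finset ℝ, s.card = m ∧ K ⊆ ⋃ x ∈ s, Metric.closedBall x δ}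

lemma geo (k : ℕ) : ∑ j ∈ Finset.range k, 2 ^ j + 1 = 2 ^ k := by
  induction k with
  | zero => rfl
  | succ k ih => rw [Finset.sum_range_succ, pow_succ]; omega

lemma lin_le (k : ℕ) (hk : 8 ≤ k) : 15 * k + 2 ≤ 2 ^ k := by
  induction k, hk using Nat.le_induction with
  | base => norm_num
  | succ k hk ih => rw [pow_succ]; omega

lemma upper (a n : ℕ) (h8 : 8 ≤ 2 ^ n) (ha : a ≤ 2 ^ n) :
    NN (KK a) ((1 / 2) ^ (a + 14 * 2 ^ n)) ≤ 2 ^ (2 ^ n + 1) := by
  classical
  set k := 2 ^ n with hk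
  have hW : WW a k = (1 / 2) ^ (a + 14 * k) := by
    rw [WW_eq, hk, Nat.log_pow (by norm_num)]; congr 1; ring
  let s : Finset ℝ := ((Finset.range k).biUnion (fun j => (Finset.range (2 ^ j)).image (pt a j)) ∪
    (Finset.range (a + 14 * k + 1)).image cc) ∪ {0}
  have h1 : s.card ≤ 2 ^ (k + 1) := by
    have a1 : ((Finset.range k).biUnion (fun j => (Finset.range (2 ^ j)).image (pt a j))).card ≤
        ∑ j ∈ Finset.range k, 2 ^ j := Finset.card_biUnion_le.trans
      (Finset.sum_le_sum (fun j _ => Finset.card_image_le.trans (by simp)))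
    have a2 : ((Finset.range (a + 14 * k + 1)).image cc).card ≤ a + 14 * k + 1 :=
      Finset.card_image_le.trans (by simp)
    have a3 := Finset.card_union_le ((Finset.range k).biUnion
      (fun j => (Finset.range (2 ^ j)).image (pt a j))) ((Finset.range (a + 14 * k + 1)).image cc)
    have a4 := Finset.card_union_le ((Finset.range k).biUnion
      (fun j => (Finset.range (2 ^ j)).image (pt a j)) ∪ (Finset.range (a + 14 * k + 1)).image cc)
      ({0} : Finset ℝ)
    have a5 := geo k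
    have a6 := lin_le k h8
    rw [Finset.card_singleton] at a4
    rw [pow_succ]
    simp only [s]
    omega
  refine le_trans (Nat.sInf_le ⟨s, rfl, ?_⟩) h1
  have hδ : (0 : ℝ) < (1 / 2) ^ (a + 14 * k) := by positivity
  rintro x (rfl | ⟨j, m, hm, rfl⟩)
  · exact mem_biUnion (show (0 : ℝ) ∈ s by simp [s]) (by simp)
  · by_cases h2 : j < k
    · refine mem_biUnion (show pt a j m ∈ s from ?_) (by simp)
      simp only [s, Finset.mem_union, Finset.mem_biUnion, Finset.mem_image, Finset.mem_range]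
      exact Or.inl (Or.inl ⟨j, h2, m, hm, rfl⟩)
    by_cases h3 : j < a + 14 * k + 1
    · refine mem_biUnion (show cc j ∈ s from ?_) ?_
      · simp only [s, Finset.mem_union, Finset.mem_biUnion, Finset.mem_image, Finset.mem_range]
        exact Or.inl (Or.inr ⟨j, h3, rfl⟩)
      · have h4 := pt_bound a j m hm
        have h5 := WW_anti a (not_lt.1 h2)
        rw [Metric.mem_closedBall, Real.dist_eq, pt, add_sub_cancel_left, abs_of_nonneg h4.1, ← hW]
        linarith [h4.2]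
    · refine mem_biUnion (show (0 : ℝ) ∈ s by simp [s]) ?_
      have h4 := pt_small a j m hm
      have h5 : cc j ≤ (1 / 2) ^ (a + 14 * k + 1) :=
        pow_le_pow_of_le_one (by norm_num) (by norm_num) (by omega)
      rw [pow_succ] at h5
      rw [Metric.mem_closedBall, Real.dist_eq, sub_zero]
      linarith

lemma lower (a k : ℕ) : 2 ^ k ≤ NN (KK a) ((1 / 2) ^ (ee a k + 2)) := by
  classical
  have hδ : (0 : ℝ) < (1 / 2) ^ (ee a k + 2) := by positivity
  have hne : {m : ℕ | ∃ s : Finset ℝ, s.card = m ∧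
      KK a ⊆ ⋃ x ∈ s, Metric.closedBall x ((1 / 2) ^ (ee a k + 2))}.Nonempty := by
    obtain ⟨t, -, ht, h⟩ := finite_cover_balls_of_compact (KK_compact a) hδ
    refine ⟨_, ht.toFinset, rfl, h.trans ?_⟩
    simp only [Finite.mem_toFinset]
    exact iUnion₂_mono (fun _ _ => Metric.ball_subset_closedBall)
  obtain ⟨s, hs, h⟩ := Nat.sInf_mem hne
  unfold NN
  rw [← hs]
  have h1 : ∀ m : Fin (2 ^ k), ∃ y ∈ s, |pt a k m - y| ≤ (1 / 2) ^ (ee a k + 2) := fun m => by
    have := h (Or.inr ⟨k, m, m.2, rfl⟩)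
    simp only [mem_iUnion] at this
    obtain ⟨y, hy, h2⟩ := this
    exact ⟨y, hy, h2⟩
  choose φ hφ using h1
  have h2 := Finset.card_le_card_of_injOn (s := Finset.univ) (t := s) φ (fun m _ => (hφ m).1) (by
    intro m _ m' _ hmm
    have a1 := abs_le.1 (hφ m).2
    have a2 := abs_le.1 (hφ m').2
    rw [hmm] at a1
    have hP := PP_pos a k
    have e : (1 / 2 : ℝ) ^ (ee a k + 2) = PP a k / 4 := by rw [pow_add, PP]; ring
    rw [e, pt] at a1 a2
    have b1 : ((m : ℕ) : ℝ) < (m' : ℕ) + 1 := by nlinarith [a1.1, a1.2, a2.1, a2.2]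
    have b2 : ((m' : ℕ) : ℝ) < (m : ℕ) + 1 := by nlinarith [a1.1, a1.2, a2.1, a2.2]
    have c1 : (m : ℕ) < m' + 1 := by exact_mod_cast b1
    have c2 : (m' : ℕ) < m + 1 := by exact_mod_cast b2
    exact Fin.ext (by omega))
  simpa using h2

lemma seq_tendsto (φ : ℕ → ℕ) (h : ∀ n, n ≤ φ n) :
    Tendsto (fun n => (1 / 2 : ℝ) ^ φ n) atTop (𝓝[>] 0) := by
  rw [tendsto_nhdsWithin_iff]
  refine ⟨(tendsto_pow_atTop_nhds_zero_of_lt_one (by norm_num) (by norm_num)).comp
    (tendsto_atTop_mono h tendsto_id), Eventually.of_forall (fun n => ?_)⟩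
  simp only [mem_Ioi]; positivity

lemma neg_log (m : ℕ) : -Real.log ((1 / 2 : ℝ) ^ m) = m * Real.log 2 := by
  rw [Real.log_pow, one_div, Real.log_inv]; ring

theorem no_limit (a : ℕ) : ¬ ∃ L : ℝ,
    Tendsto (fun δ : ℝ => Real.log (NN (KK a) δ : ℝ) / (-Real.log δ)) (𝓝[>] 0) (𝓝 L) := by
  rintro ⟨L, hL⟩
  have l2 : 0 < Real.log 2 := Real.log_pos (by norm_num)
  have h1 : L ≤ 1 / 12 := by
    refine le_of_tendsto (hL.comp (seq_tendsto (fun n => a + 14 * 2 ^ n) (fun n => ?_))) ?_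
    · have := Nat.lt_two_pow_self (n := n); omega
    · filter_upwards [eventually_ge_atTop (a + 8)] with n hn
      have h2 := Nat.lt_two_pow_self (n := n)
      have h3 := upper a n (by omega) (by omega)
      simp only [Function.comp]
      rw [neg_log, div_le_iff₀ (by positivity)]
      have h4 : Real.log (NN (KK a) ((1 / 2) ^ (a + 14 * 2 ^ n)) : ℝ) ≤
          ((2 ^ n + 1 : ℕ) : ℝ) * Real.log 2 := by
        rcases Nat.eq_zero_or_pos (NN (KK a) ((1 / 2) ^ (a + 14 * 2 ^ n))) with h | h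
        · rw [h]; simp only [Nat.cast_zero, Real.log_zero]; positivity
        · rw [← Real.log_pow]
          exact Real.log_le_log (by exact_mod_cast h) (by exact_mod_cast h3)
      refine h4.trans ?_
      rw [← mul_assoc]
      refine mul_le_mul_of_nonneg_right ?_ l2.le
      have h5 : 12 * (2 ^ n + 1) ≤ a + 14 * 2 ^ n := by omega
      have h6 : (12 : ℝ) * ((2 ^ n + 1 : ℕ) : ℝ) ≤ ((a + 14 * 2 ^ n : ℕ) : ℝ) := by exact_mod_cast h5
      linarith
  have h2 : 1 / 10 ≤ L := by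
    refine ge_of_tendsto (hL.comp (seq_tendsto (fun n => ee a (2 ^ (n + 1) - 1) + 2)
      (fun n => ?_))) ?_
    · have := Nat.lt_two_pow_self (n := n + 1); unfold ee; omega
    · filter_upwards [eventually_ge_atTop (a + 8)] with n hn
      have h2 := Nat.lt_two_pow_self (n := n + 1)
      have h3 := lower a (2 ^ (n + 1) - 1)
      have hlog : Nat.log 2 (2 ^ (n + 1) - 1) = n := by
        have : 0 < 2 ^ n := by positivity
        apply Nat.log_eq_of_pow_le_of_lt_pow <;> rw [pow_succ] <;> omega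
      have he : ee a (2 ^ (n + 1) - 1) + 2 ≤ 10 * (2 ^ (n + 1) - 1) := by
        unfold ee; rw [hlog]; rw [pow_succ] at h2 ⊢; omega
      simp only [Function.comp]
      rw [neg_log, le_div_iff₀ (by positivity)]
      have h4 : ((2 ^ (n + 1) - 1 : ℕ) : ℝ) * Real.log 2 ≤
          Real.log (NN (KK a) ((1 / 2) ^ (ee a (2 ^ (n + 1) - 1) + 2)) : ℝ) := by
        rw [← Real.log_pow]
        exact Real.log_le_log (by positivity) (by exact_mod_cast h3)
      refine le_trans ?_ h4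
      rw [← mul_assoc]
      refine mul_le_mul_of_nonneg_right ?_ l2.le
      have h6 : ((ee a (2 ^ (n + 1) - 1) + 2 : ℕ) : ℝ) ≤ (10 : ℝ) * ((2 ^ (n + 1) - 1 : ℕ) : ℝ) := by
        exact_mod_cast he
      linarith
  linarith

end Pool.Agent.H90.BoxOsc
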