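import Mathlib

set_option autoImplicit false

namespace Pool.Agent.H90.BpbDefs

/-- The Bishop-Phelps-Bollobas property of the pair `(X,Y)`. -/
def BPBp (𝕜 X Y : Type*) [RCLike 𝕜] [NormedAddCommGroup X] [NormedSpace 𝕜 X]
    [NormedAddCommGroup Y] [NormedSpace 𝕜 Y] : Prop :=
  ∀ ε : ℝ, 0 < ε → ε < 1 → ∃ η : ℝ, 0 < η ∧ ∀ (T : X →L[𝕜] Y) (x₀ : X),
    ‖T‖ = 1 → ‖x₀‖ = 1 → 1 - η < ‖T x₀‖ →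
      ∃ (S : X →L[𝕜] Y) (u : X), ‖S‖ = 1 ∧ ‖u‖ = 1 ∧ ‖S u‖ = 1 ∧ ‖x₀ - u‖ < ε ∧ ‖S - T‖ < ε

end Pool.Agent.H90.BpbDefs
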