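import Pool.Agent.H90.NaDefs

set_option autoImplicit false

namespace Pool.Agent.H90.NaProof

open Set Metric Filter Topology Pool.Agent.H90.NaDefs
open scoped ENNReal

variable {𝕜 : Type} [RCLike 𝕜]

section alpha

variable {X Y : Type} [NormedAddCommGroup X] [NormedSpace 𝕜 X]
  [NormedAddCommGroup Y] [NormedSpace 𝕜 Y]

lemma op_le {x : ℕ → X} (hx : ∀ f : StrongDual 𝕜 X, (∀ n, ‖f (x n)‖ ≤ 1) → ‖f‖ ≤ 1)
    (T : X →L[𝕜] Y) {M : ℝ} (hM : ∀ n, ‖T (x n)‖ ≤ M) : ‖T‖ ≤ M := by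
  have hM0 : 0 ≤ M := (norm_nonneg _).trans (hM 0)
  refine le_of_forall_pos_le_add fun ε hε => T.opNorm_le_bound (by positivity) fun v => ?_
  obtain ⟨g, hg1, hg2⟩ := exists_dual_vector'' 𝕜 (T v)
  have hs : ‖(((M + ε)⁻¹ : ℝ) : 𝕜)‖ = (M + ε)⁻¹ := by
    rw [RCLike.norm_ofReal, abs_of_pos (by positivity)]
  have h := hx ((((M + ε)⁻¹ : ℝ) : 𝕜) • g.comp T) fun n => by
    rw [smul_apply, norm_smul, hs, inv_mul_le_iff₀ (by positivity)]
    have := g.le_opNorm (T (x n))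
    have h2 := hM n
    have h3 := norm_nonneg (T (x n))
    rw [ContinuousLinearMap.comp_apply]
    nlinarith
  have h2 := ((((M + ε)⁻¹ : ℝ) : 𝕜) • g.comp T).le_opNorm v
  rw [smul_apply, norm_smul, hs, inv_mul_le_iff₀ (by positivity), ContinuousLinearMap.comp_apply,
    hg2, RCLike.norm_ofReal, abs_norm] at h2
  refine h2.trans ?_
  gcongr
  exact mul_le_of_le_one_left (norm_nonneg _) h

lemma na_dense {x : ℕ → X} (hx : ∀ f : StrongDual 𝕜 X, (∀ n, ‖f (x n)‖ ≤ 1) → ‖f‖ ≤ 1)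
    (hx1 : ∀ n, ‖x n‖ ≤ 1) (φ : ℕ → StrongDual 𝕜 X) (h1 : ∀ n, φ n (x n) = 1)
    (h2 : ∀ n m, m ≠ n → ‖φ n (x m)‖ ≤ 1 / 2) : NADense 𝕜 X Y := by
  intro T
  rw [Metric.mem_closure_iff]
  intro δ hδ
  have hφ : ∀ n, ‖φ n‖ ≤ 1 := fun n => hx _ fun m => by
    by_cases h : m = n
    · rw [h, h1, norm_one]
    · linarith [h2 n m h]
  have hxn : ∀ n, ‖x n‖ = 1 := fun n => le_antisymm (hx1 n) (by
    have := (φ n).le_opNorm (x n)
    rw [h1, norm_one] at this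
    nlinarith [hφ n, norm_nonneg (x n)])
  have hT0 := norm_nonneg T
  set ε : ℝ := δ / (‖T‖ + 1) with hε
  have hε0 : 0 < ε := by positivity
  obtain ⟨n, hn⟩ : ∃ n, (1 + ε / 2) * ‖T‖ ≤ (1 + ε) * ‖T (x n)‖ := by
    by_contra hc
    push Not at hc
    have h3 := op_le hx T (M := (1 + ε / 2) * ‖T‖ / (1 + ε)) fun n => by
      rw [le_div_iff₀ (by positivity)]
      linarith [hc n]
    rw [le_div_iff₀ (by positivity)] at h3
    have h4 := hc 0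
    have h5 : ‖T‖ = 0 := le_antisymm (by nlinarith) hT0
    rw [h5, mul_zero] at h4
    exact absurd h4 (not_lt.2 (by positivity))
  have hεn : ‖((ε : ℝ) : 𝕜)‖ = ε := by rw [RCLike.norm_ofReal, abs_of_pos hε0]
  have hTx : ∀ m, ‖T (x m)‖ ≤ ‖T‖ := fun m => by simpa [hxn] using T.le_opNorm (x m)
  set S : X →L[𝕜] Y := T + ((ε : ℝ) : 𝕜) • (φ n).smulRight (T (x n)) with hS
  have hSn : ‖S (x n)‖ = (1 + ε) * ‖T (x n)‖ := by
    have : S (x n) = (((1 + ε : ℝ)) : 𝕜) • T (x n) := by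
      simp [hS, h1, add_smul]
    rw [this, norm_smul, RCLike.norm_ofReal, abs_of_pos (by positivity)]
  refine ⟨S, ⟨x n, hxn n, le_antisymm (by simpa [hxn] using S.le_opNorm (x n))
    (op_le hx S fun m => ?_)⟩, ?_⟩
  · by_cases h : m = n
    · rw [h]
    · rw [hSn]
      refine le_trans ?_ hn
      rw [hS, add_apply, smul_apply, ContinuousLinearMap.smulRight_apply]
      refine (norm_add_le _ _).trans ?_
      rw [norm_smul, norm_smul, hεn]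
      have a1 := hTx m
      have a2 : ‖φ n (x m)‖ * ‖T (x n)‖ ≤ 1 / 2 * ‖T‖ :=
        mul_le_mul (h2 n m h) (hTx n) (norm_nonneg _) (by norm_num)
      nlinarith
  · rw [dist_comm, dist_eq_norm, hS, add_sub_cancel_left, norm_smul, hεn,
      ContinuousLinearMap.norm_smulRight_apply]
    have a2 : ‖φ n‖ * ‖T (x n)‖ ≤ 1 * ‖T‖ :=
      mul_le_mul (hφ n) (hTx n) (norm_nonneg _) (by norm_num)
    have : ε * (‖T‖ + 1) = δ := by rw [hε]; field_simp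
    nlinarith

end alpha

section target

variable {C : Type} [NormedAddCommGroup C] [NormedSpace 𝕜 C]

abbrev L2 (𝕜 : Type) [RCLike 𝕜] := lp (fun _ : ℕ => 𝕜) 2

lemma sum_le {c : ℕ → StrongDual 𝕜 C} (hc : ∀ n y, ‖c n y‖ ≤ ‖y‖) (y : C) (s : Finset ℕ) :
    ∑ i ∈ s, ‖(1 / 2 : 𝕜) ^ i * c i y‖ ^ (2 : ℝ≥0∞).toReal ≤ (2 * ‖y‖) ^ (2 : ℝ≥0∞).toReal := by
  simp only [ENNReal.toReal_ofNat, Real.rpow_ofNat]
  have h1 : ∑ i ∈ s, (1 / 2 : ℝ) ^ i ≤ 2 := by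
    have := summable_geometric_two.sum_le_tsum s (fun _ _ => by positivity)
    rwa [tsum_geometric_two] at this
  calc _ ≤ ∑ i ∈ s, (1 / 2 : ℝ) ^ i * ‖y‖ ^ 2 := by
        refine Finset.sum_le_sum fun i _ => ?_
        rw [norm_mul, norm_pow, mul_pow]
        have h2 : ‖(1 / 2 : 𝕜)‖ = 1 / 2 := by simp
        rw [h2]
        have h3 : (1 / 2 : ℝ) ^ i ≤ 1 := pow_le_one₀ (by norm_num) (by norm_num)
        have h4 : (0 : ℝ) ≤ (1 / 2 : ℝ) ^ i := by positivity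
        gcongr
        · nlinarith
        · exact hc i y
    _ ≤ _ := by
        rw [← Finset.sum_mul]
        nlinarith [sq_nonneg ‖y‖]

noncomputable def DD {c : ℕ → StrongDual 𝕜 C} (hc : ∀ n y, ‖c n y‖ ≤ ‖y‖) : C →L[𝕜] L2 𝕜 :=
  LinearMap.mkContinuous
    { toFun := fun y => ⟨fun i => (1 / 2 : 𝕜) ^ i * c i y, memℓp_gen' (sum_le hc y)⟩
      map_add' := fun a b => lp.ext (funext fun i => by simp [mul_add])
      map_smul' := fun a b => lp.ext (funext fun i => by simp [mul_left_comm]) } 2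
    fun y => lp.norm_le_of_forall_sum_le (by simp) (by positivity) (sum_le hc y)

lemma exists_target [CompleteSpace C] {c : ℕ → StrongDual 𝕜 C} (hc : ∀ n y, ‖c n y‖ ≤ ‖y‖) :
    ∃ (Y : Type) (_ : NormedAddCommGroup Y) (_ : NormedSpace 𝕜 Y) (_ : CompleteSpace Y)
      (G : C →L[𝕜] Y) (R : Y →L[𝕜] C), (∀ y, R (G y) = y) ∧ (∀ v, ‖R v‖ ≤ ‖v‖) ∧
      ∀ y v : Y, ‖y + v‖ ≤ ‖y‖ → ‖y - v‖ ≤ ‖y‖ → ∀ n, c n (R v) = 0 := by
  let A : WithLp 2 (C × L2 𝕜) →L[𝕜] L2 𝕜 :=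
    WithLp.sndL 2 𝕜 C (L2 𝕜) - (DD hc).comp (WithLp.fstL 2 𝕜 C (L2 𝕜))
  have hcl : IsClosed (A.ker : Set (WithLp 2 (C × L2 𝕜))) := A.isClosed_ker
  refine ⟨A.ker, inferInstance, inferInstance, hcl.completeSpace_coe,
    (((WithLp.prodContinuousLinearEquiv 2 𝕜 C (L2 𝕜)).symm : C × L2 𝕜 →L[𝕜] _).comp
      ((ContinuousLinearMap.id 𝕜 C).prod (DD hc))).codRestrict A.ker fun y => ?_,
    (WithLp.fstL 2 𝕜 C (L2 𝕜)).comp A.ker.subtypeL, fun y => rfl,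
    fun v => WithLp.norm_fst_le _ v.1, fun y v h1 h2 n => ?_⟩
  · exact sub_self (DD hc y)
  · have a1 : ‖y.1 + v.1‖ ^ 2 ≤ ‖y.1‖ ^ 2 := pow_le_pow_left₀ (norm_nonneg _) h1 2
    have a2 : ‖y.1 - v.1‖ ^ 2 ≤ ‖y.1‖ ^ 2 := pow_le_pow_left₀ (norm_nonneg _) h2 2
    rw [WithLp.prod_norm_sq_eq_of_L2, WithLp.prod_norm_sq_eq_of_L2] at a1 a2
    simp only [WithLp.add_fst, WithLp.add_snd, WithLp.sub_fst, WithLp.sub_snd] at a1 a2
    have a3 := parallelogram_law_with_norm 𝕜 y.1.snd v.1.snd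
    have a4 : 2 * ‖y.1.fst‖ ≤ ‖y.1.fst + v.1.fst‖ + ‖y.1.fst - v.1.fst‖ := by
      have := norm_add_le (y.1.fst + v.1.fst) (y.1.fst - v.1.fst)
      rw [add_add_sub_cancel, ← two_smul 𝕜, norm_smul] at this
      simpa using this
    have a5 : ‖v.1.snd‖ ^ 2 ≤ 0 := by
      nlinarith [norm_nonneg y.1.fst, sq_nonneg (‖y.1.fst + v.1.fst‖ - ‖y.1.fst - v.1.fst‖)]
    have a6 : v.1.snd = 0 := norm_eq_zero.1 (pow_eq_zero_iff two_ne_zero |>.1
      (le_antisymm a5 (sq_nonneg _)))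
    have a7 : v.1.snd - DD hc v.1.fst = 0 := v.2
    rw [a6, zero_sub, neg_eq_zero] at a7
    have a8 : (1 / 2 : 𝕜) ^ n * c n v.1.fst = 0 := congrArg (fun w : L2 𝕜 => w n) a7
    exact (mul_eq_zero.1 a8).resolve_left (by simp)

lemma not_dense [CompleteSpace C] {c : ℕ → StrongDual 𝕜 C} (hc : ∀ n y, ‖c n y‖ ≤ ‖y‖)
    {e : ℕ → C} (he : ∀ n, ‖e n‖ ≤ 1) (hce : ∀ n, c n (e n) = 1)
    (hf : ∀ y, ‖y‖ = 1 → ∃ n, ‖y + (1 / 2 : 𝕜) • e n‖ ≤ 1 ∧ ‖y - (1 / 2 : 𝕜) • e n‖ ≤ 1) :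
    ∃ (Y : Type) (_ : NormedAddCommGroup Y) (_ : NormedSpace 𝕜 Y) (_ : CompleteSpace Y),
      ∀ (X : Type) [NormedAddCommGroup X] [NormedSpace 𝕜 X] (ι : C →L[𝕜] X) (π : X →L[𝕜] C),
        (∀ y, ‖ι y‖ = ‖y‖) → (∀ y, π (ι y) = y) → Function.Surjective ι → ¬ NADense 𝕜 X Y := by
  obtain ⟨Y, i1, i2, i3, G, R, h1, h2, h3⟩ := exists_target hc
  refine ⟨Y, i1, i2, i3, fun X _ _ ι π hι hπ hs hd => ?_⟩
  obtain ⟨S, ⟨x, hx1, hx2⟩, hS⟩ := Metric.mem_closure_iff.1 (hd (G.comp π)) 1 one_pos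
  obtain ⟨y, rfl⟩ := hs x
  rw [hι] at hx1
  obtain ⟨n, hn1, hn2⟩ := hf y hx1
  have b : ∀ z, ‖z‖ ≤ 1 → ‖S (ι z)‖ ≤ ‖S (ι y)‖ := fun z hz => by
    rw [hx2]
    exact S.unit_le_opNorm _ (by rwa [hι])
  have b1 := b _ hn1
  have b2 := b _ hn2
  rw [map_add, map_add] at b1
  rw [map_sub, map_sub] at b2
  have b3 := h3 _ _ b1 b2 n
  simp only [map_smul, smul_eq_mul] at b3
  have b4 : c n (R (S (ι (e n)))) = 0 := (mul_eq_zero.1 b3).resolve_left (by simp)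
  have b5 : c n (R ((G.comp π - S) (ι (e n)))) = 1 := by
    simp [hπ, h1, hce, b4]
  have b6 := (hc n _).trans ((h2 _).trans ((G.comp π - S).unit_le_opNorm (ι (e n))
    (by rw [hι]; exact he n)))
  rw [b5, norm_one, ← dist_eq_norm] at b6
  linarith

end target

section domain

variable {C : Type} [NormedAddCommGroup C] [NormedSpace 𝕜 C]

lemma exists_renorm {Z : Type} [NormedAddCommGroup Z] [NormedSpace 𝕜 Z] [CompleteSpace Z]
    (F : Set (StrongDual 𝕜 Z)) (h1 : ∀ f ∈ F, ∀ z, ‖f z‖ ≤ ‖z‖)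
    (h2 : ∀ z, ∃ f ∈ F, ‖z‖ ≤ 4 * ‖f z‖) :
    ∃ (X : Type) (_ : NormedAddCommGroup X) (_ : NormedSpace 𝕜 X) (_ : CompleteSpace X)
      (E : Z ≃L[𝕜] X), (∀ f ∈ F, ∀ z, ‖f z‖ ≤ ‖E z‖) ∧
      ∀ z M, 0 ≤ M → (∀ f ∈ F, ‖f z‖ ≤ M) → ‖E z‖ ≤ M := by
  let J : Z →L[𝕜] lp (fun _ : F => 𝕜) ∞ := LinearMap.mkContinuous
    { toFun := fun z => ⟨fun f => f.1 z, memℓp_infty ⟨‖z‖, by
        rintro _ ⟨f, rfl⟩
        exact h1 f.1 f.2 z⟩⟩
      map_add' := fun a b => lp.ext (funext fun i => by simp)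
      map_smul' := fun a b => lp.ext (funext fun i => by simp) } 1
    fun z => lp.norm_le_of_forall_le (by positivity) fun f => by
      rw [one_mul]; exact h1 f.1 f.2 z
  have hJ : ∀ f ∈ F, ∀ z, ‖f z‖ ≤ ‖J z‖ := fun f hf z =>
    lp.norm_apply_le_norm ENNReal.top_ne_zero (J z) ⟨f, hf⟩
  have ha : AntilipschitzWith 4 J := J.antilipschitz_of_bound fun z => by
    obtain ⟨f, hf, hz⟩ := h2 z
    have := hJ f hf z
    push_cast
    linarith
  have hcl := ha.isClosed_range J.uniformContinuous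
  exact ⟨J.range, inferInstance, inferInstance, hcl.completeSpace_coe,
    J.equivRange ha.injective hcl, hJ, fun z M hM h =>
      lp.norm_le_of_forall_le (f := J z) hM fun f => h f.1 f.2⟩

lemma exists_domain [CompleteSpace C] [TopologicalSpace.SeparableSpace C]
    {c : ℕ → StrongDual 𝕜 C} (hc : ∀ n y, ‖c n y‖ ≤ ‖y‖)
    {e : ℕ → C} (he : ∀ n, ‖e n‖ ≤ 1) (hce : ∀ n m, c n (e m) = if n = m then 1 else 0)
    (hw : ∀ g : StrongDual 𝕜 C, Tendsto (fun n => g (e n)) atTop (𝓝 0)) :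
    ∃ (X : Type) (_ : NormedAddCommGroup X) (_ : NormedSpace 𝕜 X) (_ : CompleteSpace X)
      (ι : C →L[𝕜] X) (π : X →L[𝕜] C), (∀ y, ‖ι y‖ ≤ ‖y‖) ∧ (∀ x, ‖π x‖ ≤ ‖x‖) ∧
      (∀ y, π (ι y) = y) ∧
      ∀ (Y : Type) [NormedAddCommGroup Y] [NormedSpace 𝕜 Y], NADense 𝕜 X Y := by
  have : SecondCountableTopology (C × C) := UniformSpace.secondCountable_of_separable _
  have : Nonempty (closedBall (0 : C × C) 1) := ⟨⟨0, by simp⟩⟩
  obtain ⟨u, hu⟩ := TopologicalSpace.exists_dense_seq (closedBall (0 : C × C) 1)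
  have hu1 : ∀ k, ‖(u k).1‖ ≤ 1 := fun k => mem_closedBall_zero_iff.1 (u k).2
  let p : ℕ → C × C := fun n => (u n.unpair.1).1 + (3 : 𝕜) • (0, e n)
  let F : Set (StrongDual 𝕜 (C × C)) := {f | ∀ n, ‖f (p n)‖ ≤ 1}
  have h1 : ∀ f ∈ F, ∀ z, ‖f z‖ ≤ ‖z‖ := by
    intro f hf
    have a1 : ∀ k, ‖f (u k).1‖ ≤ 1 := fun k => by
      have t1 : Tendsto (fun i => Nat.pair k i) atTop atTop :=
        tendsto_atTop_mono (fun i => Nat.right_le_pair k i) tendsto_id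
      have t2 := ((hw (f.comp (ContinuousLinearMap.inr 𝕜 C C))).comp t1).const_smul (3 : 𝕜)
      have t3 := (t2.const_add (f (u k).1)).norm
      rw [smul_zero, add_zero] at t3
      refine le_of_tendsto' t3 fun i => ?_
      have := hf (Nat.pair k i)
      simp only [p, Nat.unpair_pair, map_add, map_smul] at this
      exact this
    have a2 : ∀ z : closedBall (0 : C × C) 1, ‖f z.1‖ ≤ 1 := fun z =>
      hu.induction_on z (isClosed_le (by fun_prop) continuous_const) a1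
    have a3 : ‖f‖ ≤ 1 := ContinuousLinearMap.opNorm_le_of_unit_norm zero_le_one fun z hz =>
      a2 ⟨z, mem_closedBall_zero_iff.2 hz.le⟩
    exact fun z => (f.le_opNorm z).trans (mul_le_of_le_one_left (norm_nonneg _) a3)
  have hp : ∀ n, ‖p n‖ ≤ 4 := fun n => by
    refine (norm_add_le _ _).trans ?_
    have e1 : ‖((0 : C), e n)‖ = ‖e n‖ := by simp
    have e2 : ‖(3 : 𝕜)‖ = 3 := by simp
    rw [norm_smul, e1, e2]
    linarith [hu1 n.unpair.1, he n]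
  have h2 : ∀ z, ∃ f ∈ F, ‖z‖ ≤ 4 * ‖f z‖ := fun z => by
    obtain ⟨g, hg1, hg2⟩ := exists_dual_vector'' 𝕜 z
    refine ⟨(1 / 4 : 𝕜) • g, fun n => ?_, ?_⟩
    · rw [smul_apply, norm_smul]
      have := g.le_opNorm (p n)
      have := hp n
      have := norm_nonneg (p n)
      norm_num
      nlinarith
    · rw [smul_apply, norm_smul, hg2]
      simp
  obtain ⟨X, i1, i2, i3, E, hE1, hE2⟩ := exists_renorm F h1 h2
  have hfst : ∀ z, ‖z.1‖ ≤ ‖E z‖ := fun z => by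
    obtain ⟨g, hg1, hg2⟩ := exists_dual_vector'' 𝕜 z.1
    have := hE1 (g.comp (ContinuousLinearMap.fst 𝕜 C C)) (fun n => by
      refine (g.le_opNorm _).trans (mul_le_one₀ hg1 (norm_nonneg _) ?_)
      simpa [p] using (norm_fst_le _).trans (hu1 n.unpair.1)) z
    simpa [hg2] using this
  refine ⟨X, i1, i2, i3, (E : C × C →L[𝕜] X).comp (ContinuousLinearMap.inl 𝕜 C C),
    (ContinuousLinearMap.fst 𝕜 C C).comp (E.symm : X →L[𝕜] C × C), fun y => ?_, fun x => ?_,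
    fun y => by simp, fun Y _ _ => ?_⟩
  · exact hE2 _ _ (norm_nonneg _) fun f hf => by simpa using h1 f hf (y, 0)
  · simpa using hfst (E.symm x)
  have hb : ∀ n m, ‖c n (u m).1.2‖ ≤ 1 := fun n m =>
    (hc n _).trans ((norm_snd_le _).trans (hu1 m))
  have ha : ∀ n, 2 ≤ ‖c n (p n).2‖ := fun n => by
    have e1 : c n (p n).2 = 3 + c n (u n.unpair.1).1.2 := by
      simp [p, hce, add_comm]
    have := norm_sub_norm_le (3 : 𝕜) (-c n (u n.unpair.1).1.2)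
    rw [sub_neg_eq_add, norm_neg, ← e1] at this
    have := hb n n.unpair.1
    norm_num at *
    linarith
  refine na_dense (x := fun n => E (p n)) (fun f hf => ?_)
    (fun n => hE2 _ _ zero_le_one fun f hf => hf n)
    (fun n => (c n (p n).2)⁻¹ • ((c n).comp (ContinuousLinearMap.snd 𝕜 C C)).comp
      (E.symm : X →L[𝕜] C × C)) (fun n => ?_) (fun n m hm => ?_)
  · refine f.opNorm_le_bound zero_le_one fun x => ?_
    simpa using hE1 (f.comp (E : C × C →L[𝕜] X)) hf (E.symm x)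
  · have : c n (p n).2 ≠ 0 := norm_pos_iff.1 (by linarith [ha n])
    simp [this]
  · have e1 : c n (p m).2 = c n (u m.unpair.1).1.2 := by
      simp [p, hce, hm.symm]
    have e2 := ha n
    have e3 := hb n m.unpair.1
    simp only [smul_apply, ContinuousLinearMap.comp_apply, ContinuousLinearEquiv.coe_coe,
      ContinuousLinearEquiv.symm_apply_apply, ContinuousLinearMap.coe_snd', e1, norm_smul,
      norm_inv]
    rw [inv_mul_le_iff₀ (by linarith)]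
    linarith

lemma main [CompleteSpace C] [TopologicalSpace.SeparableSpace C]
    {c : ℕ → StrongDual 𝕜 C} (hc : ∀ n y, ‖c n y‖ ≤ ‖y‖)
    {e : ℕ → C} (he : ∀ n, ‖e n‖ ≤ 1) (hce : ∀ n m, c n (e m) = if n = m then 1 else 0)
    (hw : ∀ g : StrongDual 𝕜 C, Tendsto (fun n => g (e n)) atTop (𝓝 0))
    (hf : ∀ y, ‖y‖ = 1 → ∃ n, ‖y + (1 / 2 : 𝕜) • e n‖ ≤ 1 ∧ ‖y - (1 / 2 : 𝕜) • e n‖ ≤ 1) :
    ¬ ∀ (X Y : Type) [NormedAddCommGroup X] [NormedSpace 𝕜 X] [CompleteSpace X]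
      [NormedAddCommGroup Y] [NormedSpace 𝕜 Y] [CompleteSpace Y] (X₁ : Submodule 𝕜 X),
      OneComplemented X₁ → NADense 𝕜 X Y → NADense 𝕜 X₁ Y := by
  intro h
  obtain ⟨X, i1, i2, i3, ι, π, h1, h2, h3, h4⟩ := exists_domain hc he hce hw
  obtain ⟨Y, j1, j2, j3, h5⟩ := not_dense hc he (fun n => by simp [hce]) hf
  have h6 : ∀ y, ‖ι y‖ = ‖y‖ := fun y => le_antisymm (h1 y) (by simpa [h3] using h2 (ι y))
  refine h5 ι.range ι.rangeRestrict (π.comp ι.range.subtypeL) h6 h3 ?_ (h X Y ι.range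
    ⟨?_, ι.comp π, fun x => by simp [h3], ?_, ?_⟩ (h4 Y))
  · rintro ⟨_, y, rfl⟩
    exact ⟨y, rfl⟩
  · exact (AddMonoidHomClass.isometry_of_norm ι h6).isClosedEmbedding.isClosed_range
  · ext x
    exact ⟨fun ⟨y, hy⟩ => ⟨π y, hy⟩, fun ⟨y, hy⟩ => ⟨ι y, by simpa [h3] using hy⟩⟩
  · exact ContinuousLinearMap.opNorm_le_bound _ zero_le_one fun x => by
      simpa [h6] using h2 x

end domain



lemma weak {C : Type} [NormedAddCommGroup C] [NormedSpace 𝕜 C] {c : ℕ → StrongDual 𝕜 C}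
    {e : ℕ → C} (hce : ∀ n m, c n (e m) = if n = m then 1 else 0)
    (hl : ∀ y M, (∀ n, ‖c n y‖ ≤ M) → ‖y‖ ≤ M) (g : StrongDual 𝕜 C) :
    Tendsto (fun n => g (e n)) atTop (𝓝 0) := by
  rw [tendsto_zero_iff_norm_tendsto_zero]
  refine (summable_of_sum_le (c := ‖g‖) (fun _ => norm_nonneg _) fun s => ?_).tendsto_atTop_zero
  have h : ∀ a : 𝕜, ∃ σ : 𝕜, ‖σ‖ ≤ 1 ∧ σ * a = (‖a‖ : ℝ) := fun a => by
    obtain ⟨f, h1, h2⟩ := exists_dual_vector'' 𝕜 a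
    refine ⟨f 1, by simpa using (f.le_opNorm 1).trans (by simpa using h1), ?_⟩
    rw [← h2, mul_comm, ← smul_eq_mul, ← map_smul, smul_eq_mul, mul_one]
  choose σ h1 h2 using h
  have h3 : ‖∑ n ∈ s, σ (g (e n)) • e n‖ ≤ 1 := hl _ _ fun n => by
    simp only [map_sum, map_smul, hce, smul_eq_mul, mul_ite, mul_one, mul_zero, Finset.sum_ite_eq]
    split_ifs
    · exact h1 _
    · simp
  have h4 := g.unit_le_opNorm _ h3
  simp only [map_sum, map_smul, smul_eq_mul, h2] at h4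
  rw [← RCLike.ofReal_sum, RCLike.norm_ofReal] at h4
  exact (le_abs_self _).trans h4

lemma flat {C : Type} [NormedAddCommGroup C] [NormedSpace 𝕜 C] {c : ℕ → StrongDual 𝕜 C}
    {e : ℕ → C} (hce : ∀ n m, c n (e m) = if n = m then 1 else 0) (hc : ∀ n y, ‖c n y‖ ≤ ‖y‖)
    (hl : ∀ y M, (∀ n, ‖c n y‖ ≤ M) → ‖y‖ ≤ M) {y : C} (hy : ‖y‖ = 1) {n : ℕ}
    (hn : ‖c n y‖ ≤ 1 / 2) {t : 𝕜} (ht : ‖t‖ = 1 / 2) : ‖y + t • e n‖ ≤ 1 := hl _ _ fun m => by
  rw [map_add, map_smul, hce]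
  split_ifs with h
  · rw [h, smul_eq_mul, mul_one]
    linarith [norm_add_le (c n y) t]
  · simpa [hy] using hc m y

lemma small {L : Type} [NormedAddCommGroup L] [NormedSpace 𝕜 L] {c : ℕ → StrongDual 𝕜 L}
    {e : ℕ → L} (hce : ∀ n m, c n (e m) = if n = m then 1 else 0) (hc : ∀ n y, ‖c n y‖ ≤ ‖y‖)
    {y : L} (hy : y ∈ closure (Submodule.span 𝕜 (range e) : Set L)) : ∃ n, ‖c n y‖ ≤ 1 / 2 := by
  obtain ⟨v, hv, hd⟩ := Metric.mem_closure_iff.1 hy (1 / 2) (by norm_num)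
  have h : ∀ᶠ n in atTop, c n v = 0 := by
    clear hd
    induction hv using Submodule.span_induction with
    | mem u hu =>
      obtain ⟨i, rfl⟩ := hu
      filter_upwards [eventually_gt_atTop i] with n hn
      simp [hce, hn.ne']
    | zero => exact Eventually.of_forall fun n => map_zero _
    | add a b _ _ h1 h2 =>
      filter_upwards [h1, h2] with n h1 h2
      simp [h1, h2]
    | smul t a _ h1 =>
      filter_upwards [h1] with n h1
      simp [h1]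
  obtain ⟨n, hn⟩ := h.exists
  refine ⟨n, ?_⟩
  have := hc n (y - v)
  rw [map_sub, hn, sub_zero, ← dist_eq_norm] at this
  exact this.trans hd.le

lemma main' {L : Type} [NormedAddCommGroup L] [NormedSpace 𝕜 L] [CompleteSpace L]
    {c : ℕ → StrongDual 𝕜 L} {e : ℕ → L} (hce : ∀ n m, c n (e m) = if n = m then 1 else 0)
    (hc : ∀ n y, ‖c n y‖ ≤ ‖y‖) (hl : ∀ y M, (∀ n, ‖c n y‖ ≤ M) → ‖y‖ ≤ M) :
    ¬ ∀ (X Y : Type) [NormedAddCommGroup X] [NormedSpace 𝕜 X] [CompleteSpace X]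
      [NormedAddCommGroup Y] [NormedSpace 𝕜 Y] [CompleteSpace Y] (X₁ : Submodule 𝕜 X),
      OneComplemented X₁ → NADense 𝕜 X Y → NADense 𝕜 X₁ Y := by
  let C := (Submodule.span 𝕜 (range e)).topologicalClosure
  have : CompleteSpace C := (Submodule.isClosed_topologicalClosure _).completeSpace_coe
  have : TopologicalSpace.SeparableSpace C :=
    ((countable_range e).isSeparable.span (R := 𝕜)).closure.separableSpace
  let cc : ℕ → StrongDual 𝕜 C := fun n => (c n).comp C.subtypeL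
  let ee : ℕ → C := fun n =>
    ⟨e n, Submodule.le_topologicalClosure _ (Submodule.subset_span ⟨n, rfl⟩)⟩
  have h1 : ∀ n m, cc n (ee m) = if n = m then 1 else 0 := hce
  have h2 : ∀ n y, ‖cc n y‖ ≤ ‖y‖ := fun n y => hc n y.1
  have h3 : ∀ y M, (∀ n, ‖cc n y‖ ≤ M) → ‖y‖ ≤ M := fun y => hl y.1
  refine main h2 (fun n => h3 _ _ fun m => ?_) h1 (weak h1 h3) fun y hy => ?_
  · rw [h1]
    split_ifs <;> simp
  · obtain ⟨n, hn⟩ := small hce hc y.2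
    refine ⟨n, flat h1 h2 h3 hy hn (by simp), ?_⟩
    rw [sub_eq_add_neg, ← neg_smul]
    exact flat h1 h2 h3 hy hn (by simp)

theorem final : ¬ ∀ (X Y : Type) [NormedAddCommGroup X] [NormedSpace 𝕜 X] [CompleteSpace X]
      [NormedAddCommGroup Y] [NormedSpace 𝕜 Y] [CompleteSpace Y] (X₁ : Submodule 𝕜 X),
      OneComplemented X₁ → NADense 𝕜 X Y → NADense 𝕜 X₁ Y :=
  main' (L := lp (fun _ : ℕ => 𝕜) ∞) (c := fun n => lp.evalCLM 𝕜 (fun _ : ℕ => 𝕜) ∞ n)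
    (e := fun n => lp.single ∞ n 1)
    (fun n m => by
      change (lp.single ∞ m (1 : 𝕜) : lp (fun _ : ℕ => 𝕜) ∞) n = _
      rw [lp.single_apply, Pi.single_apply])
    (fun n y => lp.norm_apply_le_norm ENNReal.top_ne_zero y n)
    (fun _ M h => lp.norm_le_of_forall_le' M h)

end Pool.Agent.H90.NaProof
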