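import Pool.Agent.H90.AseSpace
import Pool.Agent.H90.BpbDefs
import Pool.Agent.H90.NaProof

set_option autoImplicit false

namespace Pool.Agent.H90.BpbProof

open Set Metric Filter Topology Pool.Agent.H90.AseDefs Pool.Agent.H90.AseLocal
  Pool.Agent.H90.AseSpace Pool.Agent.H90.BpbDefs Pool.Agent.H90.NaDefs Pool.Agent.H90.NaProof
open scoped ENNReal

variable {𝕜 : Type} [RCLike 𝕜]

lemma bpb_of_ase {X Y : Type*} [NormedAddCommGroup X] [NormedSpace 𝕜 X] [NormedAddCommGroup Y]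
    [NormedSpace 𝕜 Y] (h : BPBpASE 𝕜 X Y) : BPBp 𝕜 X Y := by
  intro ε hε _
  obtain ⟨η, h1, -, h2⟩ := h ε hε
  refine ⟨η, h1, fun T x a b c => ?_⟩
  obtain ⟨S, u, -, -, s1, s2, s3, s4, s5⟩ := h2 T x trivial a b c
  exact ⟨S, u, s2, s1, s3, s5, s4⟩

theorem not_uc : ∃ (X : Type) (_ : NormedAddCommGroup X) (_ : NormedSpace 𝕜 X)
    (_ : FiniteDimensional 𝕜 X), (∀ x : X, ‖x‖ = 1 → LC 𝕜 x) ∧ ¬ UniformConvexSpace X := by
  obtain ⟨X, i1, i2, i3, ι, π, h1, -, -, h4⟩ := exists_ext (𝕜 := 𝕜) (𝕜 × 𝕜)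
  refine ⟨X, i1, i2, i3, h4, fun h => ?_⟩
  obtain ⟨δ, hδ, H⟩ := h.uniform_convex one_pos
  have := @H (ι (1, 1)) (by simp [h1]) (ι (1, -1)) (by simp [h1])
    (by rw [← map_sub, h1]; simp [one_add_one_eq_two])
  rw [← map_add, h1] at this
  simp [one_add_one_eq_two] at this
  linarith

section target

variable {C : Type} [NormedAddCommGroup C] [NormedSpace 𝕜 C]

lemma exists_target2 [CompleteSpace C] {c : ℕ → StrongDual 𝕜 C} (hc : ∀ n y, ‖c n y‖ ≤ ‖y‖) :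
    ∃ (Y : Type) (_ : NormedAddCommGroup Y) (_ : NormedSpace 𝕜 Y) (_ : CompleteSpace Y)
      (G : C →L[𝕜] Y) (R : Y →L[𝕜] C), (∀ y, R (G y) = y) ∧ (∀ v, ‖R v‖ ≤ ‖v‖) ∧
      (∀ y, ‖G y‖ ≤ ‖y‖ + ‖DD hc y‖) ∧
      ∀ y v : Y, ‖y + v‖ ≤ ‖y‖ → ‖y - v‖ ≤ ‖y‖ → ∀ n, c n (R v) = 0 := by
  let A : WithLp 2 (C × L2 𝕜) →L[𝕜] L2 𝕜 :=
    WithLp.sndL 2 𝕜 C (L2 𝕜) - (DD hc).comp (WithLp.fstL 2 𝕜 C (L2 𝕜))
  have hcl : IsClosed (A.ker : Set (WithLp 2 (C × L2 𝕜))) := A.isClosed_ker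
  refine ⟨A.ker, inferInstance, inferInstance, hcl.completeSpace_coe,
    (((WithLp.prodContinuousLinearEquiv 2 𝕜 C (L2 𝕜)).symm : C × L2 𝕜 →L[𝕜] _).comp
      ((ContinuousLinearMap.id 𝕜 C).prod (DD hc))).codRestrict A.ker fun y => ?_,
    (WithLp.fstL 2 𝕜 C (L2 𝕜)).comp A.ker.subtypeL, fun y => rfl,
    fun v => WithLp.norm_fst_le _ v.1, fun y => ?_, fun y v h1 h2 n => ?_⟩
  · exact sub_self (DD hc y)
  · have := WithLp.prod_norm_sq_eq_of_L2 (WithLp.toLp 2 (y, DD hc y))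
    refine le_of_sq_le_sq ?_ (by positivity)
    refine this.le.trans ?_
    simp only [WithLp.toLp_fst, WithLp.toLp_snd]
    nlinarith [norm_nonneg y, norm_nonneg (DD hc y)]
  · have a1 : ‖y.1 + v.1‖ ^ 2 ≤ ‖y.1‖ ^ 2 := pow_le_pow_left₀ (norm_nonneg _) h1 2
    have a2 : ‖y.1 - v.1‖ ^ 2 ≤ ‖y.1‖ ^ 2 := pow_le_pow_left₀ (norm_nonneg _) h2 2
    rw [WithLp.prod_norm_sq_eq_of_L2, WithLp.prod_norm_sq_eq_of_L2] at a1 a2
    simp only [WithLp.add_fst, WithLp.add_snd, WithLp.sub_fst, WithLp.sub_snd] at a1 a2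
    have a3 := parallelogram_law_with_norm 𝕜 y.1.snd v.1.snd
    have a4 : 2 * ‖y.1.fst‖ ≤ ‖y.1.fst + v.1.fst‖ + ‖y.1.fst - v.1.fst‖ := by
      have := norm_add_le (y.1.fst + v.1.fst) (y.1.fst - v.1.fst)
      rw [add_add_sub_cancel, ← two_smul 𝕜, norm_smul] at this
      simpa using this
    have a5 : ‖v.1.snd‖ ^ 2 ≤ 0 := by
      nlinarith [norm_nonneg y.1.fst, sq_nonneg (‖y.1.fst + v.1.fst‖ - ‖y.1.fst - v.1.fst‖)]
    have a6 : v.1.snd = 0 := norm_eq_zero.1 (pow_eq_zero_iff two_ne_zero |>.1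
      (le_antisymm a5 (sq_nonneg _)))
    have a7 : v.1.snd - DD hc v.1.fst = 0 := v.2
    rw [a6, zero_sub, neg_eq_zero] at a7
    have a8 : (1 / 2 : 𝕜) ^ n * c n v.1.fst = 0 := congrArg (fun w : L2 𝕜 => w n) a7
    exact (mul_eq_zero.1 a8).resolve_left (by simp)

lemma DD_e {c : ℕ → StrongDual 𝕜 C} (hc : ∀ n y, ‖c n y‖ ≤ ‖y‖) {e : ℕ → C}
    (hce : ∀ n m, c n (e m) = if n = m then 1 else 0) (k : ℕ) : ‖DD hc (e k)‖ = (1 / 2) ^ k := by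
  have : DD hc (e k) = lp.single 2 k ((1 / 2 : 𝕜) ^ k) := lp.ext (funext fun i => by
    change (1 / 2 : 𝕜) ^ i * c i (e k) = _
    rw [hce, lp.single_apply, Pi.single_apply]
    split_ifs with h <;> simp [h])
  rw [this, lp.norm_single (by norm_num)]
  simp

lemma fail' [CompleteSpace C] {c : ℕ → StrongDual 𝕜 C} (hc : ∀ n y, ‖c n y‖ ≤ ‖y‖)
    {e : ℕ → C} (hce : ∀ n m, c n (e m) = if n = m then 1 else 0)
    (hl : ∀ y M, (∀ n, ‖c n y‖ ≤ M) → ‖y‖ ≤ M) :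
    ∃ (Y : Type) (_ : NormedAddCommGroup Y) (_ : NormedSpace 𝕜 Y) (_ : CompleteSpace Y),
      ∀ (X : Type) [NormedAddCommGroup X] [NormedSpace 𝕜 X] (ι : 𝕜 × 𝕜 →L[𝕜] X)
        (π : X →L[𝕜] 𝕜 × 𝕜), (∀ y, ‖ι y‖ = ‖y‖) → (∀ y, π (ι y) = y) → Function.Surjective ι →
          ¬ BPBp 𝕜 X Y := by
  obtain ⟨Y, i1, i2, i3, G, R, h1, h2, h3, h4⟩ := exists_target2 hc
  refine ⟨Y, i1, i2, i3, fun X _ _ ι π hι hπ hs hd => ?_⟩
  obtain ⟨η, hη, H⟩ := hd (1 / 4) (by norm_num) (by norm_num)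
  obtain ⟨k, hk⟩ := exists_pow_lt_of_lt_one (half_pos hη) (show (1 / 2 : ℝ) < 1 by norm_num)
  have k0 : (0 : ℝ) < (1 / 2) ^ k := by positivity
  have k1 : (1 / 2 : ℝ) ^ k ≤ 1 := pow_le_one₀ (by norm_num) (by norm_num)
  let j : 𝕜 × 𝕜 →L[𝕜] C := (ContinuousLinearMap.fst 𝕜 𝕜 𝕜).smulRight (e k) +
    (ContinuousLinearMap.snd 𝕜 𝕜 𝕜).smulRight (e (k + 1))
  have j1 : ∀ p, j p = p.1 • e k + p.2 • e (k + 1) := fun p => rfl
  let T0 : X →L[𝕜] Y := G.comp (j.comp π)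
  have t1 : ∀ p, T0 (ι p) = G (j p) := fun p => by simp [T0, hπ]
  have t2 : ‖T0‖ ≤ 1 + 2 * (1 / 2) ^ k := by
    refine ContinuousLinearMap.opNorm_le_of_unit_norm (by positivity) fun x hx => ?_
    obtain ⟨p, rfl⟩ := hs x
    rw [hι] at hx
    have p1 := (norm_fst_le p).trans hx.le
    have p2 := (norm_snd_le p).trans hx.le
    have a1 : ‖j p‖ ≤ 1 := hl _ _ fun n => by
      rw [j1, map_add, map_smul, map_smul, hce, hce]
      split_ifs with a b b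
      · omega
      · simpa using p1
      · simpa using p2
      · simp
    have a2 : ‖DD hc (j p)‖ ≤ 2 * (1 / 2) ^ k := by
      rw [j1, map_add, map_smul, map_smul]
      refine (norm_add_le _ _).trans ?_
      rw [norm_smul, norm_smul, DD_e hc hce, DD_e hc hce, pow_succ]
      nlinarith
    rw [t1]
    linarith [h3 (j p)]
  have t3 : 1 ≤ ‖T0 (ι (1, 0))‖ := by
    have := (hc k _).trans (h2 (T0 (ι (1, 0))))
    simpa [t1, h1, j1, hce] using this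
  have t4 : 1 ≤ ‖T0‖ := t3.trans (T0.unit_le_opNorm _ (by simp [hι]))
  have hn : ‖((‖T0‖⁻¹ : ℝ) : 𝕜)‖ = ‖T0‖⁻¹ := by
    rw [RCLike.norm_ofReal, abs_of_pos (by positivity)]
  obtain ⟨S, u, s1, s2, s3, s4, s5⟩ := H (((‖T0‖⁻¹ : ℝ) : 𝕜) • T0) (ι (1, 0))
    (by rw [norm_smul, hn, inv_mul_cancel₀ (by positivity)]) (by simp [hι]) (by
      rw [smul_apply, norm_smul, hn, lt_inv_mul_iff₀ (by positivity)]
      nlinarith)
  obtain ⟨p, rfl⟩ := hs u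
  rw [hι] at s2
  rw [← map_sub, hι] at s4
  have p1 := (norm_fst_le p).trans s2.le
  have p2 : ‖p.2‖ < 1 / 4 := by simpa using (norm_snd_le _).trans_lt s4
  have b : ∀ t : 𝕜, ‖t‖ = 1 / 2 → ‖S (ι p) + t • S (ι (0, 1))‖ ≤ ‖S (ι p)‖ := fun t ht => by
    rw [← map_smul, ← map_add, ← map_smul, ← map_add, s3, ← s1]
    refine S.unit_le_opNorm _ ?_
    rw [hι, Prod.norm_def]
    refine max_le (by simpa using p1) ?_
    have := norm_add_le p.2 t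
    simp only [Prod.snd_add, Prod.smul_snd, smul_eq_mul, mul_one]
    linarith
  have b3 := h4 _ _ (b (1 / 2) (by simp)) (by
    rw [sub_eq_add_neg, ← neg_smul]; exact b _ (by simp)) (k + 1)
  simp only [map_smul, smul_eq_mul] at b3
  have b4 : c (k + 1) (R (S (ι (0, 1)))) = 0 := (mul_eq_zero.1 b3).resolve_left (by simp)
  have b5 : c (k + 1) (R ((S - ((‖T0‖⁻¹ : ℝ) : 𝕜) • T0) (ι (0, 1)))) = -((‖T0‖⁻¹ : ℝ) : 𝕜) := by
    simp [t1, h1, j1, hce, b4]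
  have b6 := (hc (k + 1) _).trans ((h2 _).trans ((S - ((‖T0‖⁻¹ : ℝ) : 𝕜) • T0).unit_le_opNorm
    (ι (0, 1)) (by simp [hι])))
  rw [b5, norm_neg, hn] at b6
  have b7 := b6.trans_lt s5
  rw [inv_lt_comm₀ (by positivity) (by norm_num)] at b7
  norm_num at b7
  linarith

end target

lemma fail : ∃ (Y : Type) (_ : NormedAddCommGroup Y) (_ : NormedSpace 𝕜 Y) (_ : CompleteSpace Y),
      ∀ (X : Type) [NormedAddCommGroup X] [NormedSpace 𝕜 X] (ι : 𝕜 × 𝕜 →L[𝕜] X)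
        (π : X →L[𝕜] 𝕜 × 𝕜), (∀ y, ‖ι y‖ = ‖y‖) → (∀ y, π (ι y) = y) → Function.Surjective ι →
          ¬ BPBp 𝕜 X Y :=
  fail' (C := lp (fun _ : ℕ => 𝕜) ∞) (c := fun n => lp.evalCLM 𝕜 (fun _ : ℕ => 𝕜) ∞ n)
    (e := fun n => lp.single ∞ n 1)
    (fun n y => lp.norm_apply_le_norm ENNReal.top_ne_zero y n)
    (fun n m => by
      change (lp.single ∞ m (1 : 𝕜) : lp (fun _ : ℕ => 𝕜) ∞) n = _
      rw [lp.single_apply, Pi.single_apply])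
    (fun _ M h => lp.norm_le_of_forall_le' M h)

lemma oneCompl {C X : Type} [NormedAddCommGroup C] [NormedSpace 𝕜 C] [CompleteSpace C]
    [NormedAddCommGroup X] [NormedSpace 𝕜 X] {ι : C →L[𝕜] X} {π : X →L[𝕜] C}
    (h6 : ∀ y, ‖ι y‖ = ‖y‖) (h2 : ∀ x, ‖π x‖ ≤ ‖x‖) (h3 : ∀ y, π (ι y) = y) :
    OneComplemented ι.range := by
  refine ⟨?_, ι.comp π, fun x => by simp [h3], ?_, ?_⟩
  · exact (AddMonoidHomClass.isometry_of_norm ι h6).isClosedEmbedding.isClosed_range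
  · ext x
    exact ⟨fun ⟨y, hy⟩ => ⟨π y, hy⟩, fun ⟨y, hy⟩ => ⟨ι y, by simpa [h3] using hy⟩⟩
  · exact ContinuousLinearMap.opNorm_le_bound _ zero_le_one fun x => by
      simpa [h6] using h2 x

theorem domain_fail : ¬ ∀ (X Y : Type) [NormedAddCommGroup X] [NormedSpace 𝕜 X] [CompleteSpace X]
      [NormedAddCommGroup Y] [NormedSpace 𝕜 Y] [CompleteSpace Y] (X₁ : Submodule 𝕜 X),
      OneComplemented X₁ → BPBp 𝕜 X Y → BPBp 𝕜 X₁ Y := by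
  intro h
  obtain ⟨X, i1, i2, i3, ι, π, h1, h2, h3, h4⟩ := exists_ext (𝕜 := 𝕜) (𝕜 × 𝕜)
  have : CompleteSpace X := FiniteDimensional.complete 𝕜 X
  obtain ⟨Y, j1, j2, j3, h5⟩ := fail (𝕜 := 𝕜)
  refine h5 ι.range ι.rangeRestrict (π.comp ι.range.subtypeL) h1 h3 ?_
    (h X Y ι.range (oneCompl h1 h2 h3) (bpb_of_ase (universal h4)))
  rintro ⟨_, y, rfl⟩
  exact ⟨y, rfl⟩

end Pool.Agent.H90.BpbProof
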