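import Pool.Agent.H90.CfDefs

namespace Pool.Agent.H90.Cf

open Filter Topology Complex

/-- Hermitian form with coefficients `a, β = br + i bi, c`. -/
def fm (a br bi c : ℝ) (v : ℂ × ℂ) : ℝ :=
  a * (v.1.re ^ 2 + v.1.im ^ 2) +
    2 * (br * (v.1.re * v.2.re + v.1.im * v.2.im) - bi * (v.1.im * v.2.re - v.1.re * v.2.im)) +
    c * (v.2.re ^ 2 + v.2.im ^ 2)

def wedge (u v : ℂ × ℂ) : ℂ := u.1 * v.2 - u.2 * v.1

def MM (b : ℂ) (u : ℂ × ℂ) : ℂ × ℂ := (u.2, u.1 + b * u.2)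

def NN (b : ℂ) (w : ℂ × ℂ) : ℂ × ℂ := (w.2 - b * w.1, w.1)

lemma MM_NN (b : ℂ) (w : ℂ × ℂ) : MM b (NN b w) = w := by
  simp [MM, NN]

lemma wedge_MM (b : ℂ) (u v : ℂ × ℂ) : wedge (MM b u) (MM b v) = - wedge u v := by
  simp only [wedge, MM]; ring

lemma fm_nonneg {a br bi c : ℝ} (ha : 0 ≤ a) (hc : 0 ≤ c) (hd : br ^ 2 + bi ^ 2 ≤ a * c)
    (v : ℂ × ℂ) : 0 ≤ fm a br bi c v := by
  rcases ha.eq_or_lt with h | h
  · subst h
    have h1 : br = 0 := by nlinarith [sq_nonneg br, sq_nonneg bi]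
    have h2 : bi = 0 := by nlinarith [sq_nonneg br, sq_nonneg bi]
    subst h1; subst h2
    simp only [fm]
    have := mul_nonneg hc (add_nonneg (sq_nonneg v.2.re) (sq_nonneg v.2.im))
    linarith
  · have key : a * fm a br bi c v = (a * v.1.re + br * v.2.re + bi * v.2.im) ^ 2 +
        (a * v.1.im + br * v.2.im - bi * v.2.re) ^ 2 +
        (a * c - (br ^ 2 + bi ^ 2)) * (v.2.re ^ 2 + v.2.im ^ 2) := by
      simp only [fm]; ring
    have h3 : 0 ≤ (a * c - (br ^ 2 + bi ^ 2)) * (v.2.re ^ 2 + v.2.im ^ 2) :=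
      mul_nonneg (by linarith) (by positivity)
    have : 0 ≤ a * fm a br bi c v := by rw [key]; positivity
    exact (mul_nonneg_iff_of_pos_left h).1 this

/-- The sesquilinear form. -/
noncomputable def hm (a br bi c : ℝ) (u v : ℂ × ℂ) : ℂ :=
  a * u.1 * (starRingEnd ℂ) v.1 + (br + bi * I) * u.1 * (starRingEnd ℂ) v.2 +
    (br - bi * I) * u.2 * (starRingEnd ℂ) v.1 + c * u.2 * (starRingEnd ℂ) v.2

lemma hm_self (a br bi c : ℝ) (v : ℂ × ℂ) : hm a br bi c v v = (fm a br bi c v : ℝ) := by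
  apply Complex.ext
  · simp [hm, fm, pow_two]; ring
  · simp [hm, fm, pow_two]; ring

lemma hm_normSq {a br bi c : ℝ} (hd : br ^ 2 + bi ^ 2 - a * c = 1) (u v : ℂ × ℂ) :
    normSq (hm a br bi c u v) = fm a br bi c u * fm a br bi c v + normSq (wedge v u) := by
  simp [hm, fm, wedge, normSq_apply]
  linear_combination ((v.1.re * u.2.re - v.1.im * u.2.im - (v.2.re * u.1.re - v.2.im * u.1.im)) ^ 2
    + (v.1.re * u.2.im + v.1.im * u.2.re - (v.2.re * u.1.im + v.2.im * u.1.re)) ^ 2) * hd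

lemma hm_le {a br bi c : ℝ} (hd : br ^ 2 + bi ^ 2 - a * c = 1) {u v : ℂ × ℂ}
    (hu : 0 ≤ fm a br bi c u) (hv : fm a br bi c v < 0) :
    ‖hm a br bi c u v‖ ≤ ‖wedge v u‖ := by
  have h := hm_normSq hd u v
  rw [Complex.normSq_eq_norm_sq, Complex.normSq_eq_norm_sq] at h
  have h2 : fm a br bi c u * fm a br bi c v ≤ 0 := mul_nonpos_of_nonneg_of_nonpos hu hv.le
  exact abs_le_of_sq_le_sq' (by linarith) (norm_nonneg _) |>.2

lemma plucker {a br bi c : ℝ} (hd : br ^ 2 + bi ^ 2 - a * c = 1) {u u' v : ℂ × ℂ}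
    (hu : 0 ≤ fm a br bi c u) (hu' : 0 ≤ fm a br bi c u') (hv : fm a br bi c v < 0) :
    ‖wedge u u'‖ * (- fm a br bi c v) ≤ 2 * (‖wedge v u‖ * ‖wedge v u'‖) := by
  have h1 : wedge u u' * hm a br bi c v v =
      wedge v u' * hm a br bi c u v - wedge v u * hm a br bi c u' v := by
    simp only [wedge, hm]; ring
  have h2 : ‖wedge u u' * hm a br bi c v v‖ = ‖wedge u u'‖ * (- fm a br bi c v) := by
    rw [norm_mul, hm_self, Complex.norm_real, Real.norm_eq_abs, abs_of_neg hv]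
  rw [← h2, h1]
  have h3 := hm_le hd hu hv
  have h4 := hm_le hd hu' hv
  calc _ ≤ ‖wedge v u' * hm a br bi c u v‖ + ‖wedge v u * hm a br bi c u' v‖ := norm_sub_le _ _
    _ = ‖wedge v u'‖ * ‖hm a br bi c u v‖ + ‖wedge v u‖ * ‖hm a br bi c u' v‖ := by
        rw [norm_mul, norm_mul]
    _ ≤ ‖wedge v u'‖ * ‖wedge v u‖ + ‖wedge v u‖ * ‖wedge v u'‖ := by gcongr
    _ = _ := by ring

lemma wedge_ne {a br bi c : ℝ} {u v : ℂ × ℂ} (hu0 : u ≠ 0)
    (hu : 0 ≤ fm a br bi c u) (hv : fm a br bi c v < 0) : wedge v u ≠ 0 := by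
  intro h
  have hre := congrArg Complex.re h
  have him := congrArg Complex.im h
  by_cases h2 : u.2 = 0
  · have h1 : u.1 ≠ 0 := fun h1 => hu0 (Prod.ext h1 h2)
    have hv2 : v.2 = 0 := by
      simp only [wedge, h2, mul_zero, zero_sub, neg_eq_zero, mul_eq_zero] at h
      exact h.resolve_right h1
    have hpos : 0 < u.1.re ^ 2 + u.1.im ^ 2 := by
      have := normSq_pos.2 h1
      rw [normSq_apply] at this; nlinarith
    simp only [fm, h2, hv2, zero_re, zero_im] at hu hv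
    have ha : 0 ≤ a := by
      by_contra ha
      push Not at ha
      nlinarith
    nlinarith [mul_nonneg ha (add_nonneg (sq_nonneg v.1.re) (sq_nonneg v.1.im))]
  · set k := v.2 / u.2 with hk
    have e2 : v.2 = k * u.2 := by rw [hk]; field_simp
    have e1 : v.1 = k * u.1 := by
      rw [hk]; field_simp
      simp only [wedge] at h
      linear_combination h
    have : fm a br bi c v = (k.re ^ 2 + k.im ^ 2) * fm a br bi c u := by
      simp only [fm, e1, e2, mul_re, mul_im]; ring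
    have h5 : 0 ≤ (k.re ^ 2 + k.im ^ 2) * fm a br bi c u := mul_nonneg (by positivity) hu
    linarith

/-- The five discs. -/
noncomputable def q : Fin 5 → ℂ × ℂ → ℝ
  | 0 => fm (-3/2) (4/5) (-3/5) 0
  | 1 => fm (-63/100) (34/25) (9/50) (-7/5)
  | 2 => fm (-2277/1000) (44/125) (-1341/1000) (-81/200)
  | 3 => fm (-341/125) (-182/625) (-1773/1250) (-201/500)
  | 4 => fm 0 (4/5) (3/5) (-3/2)

lemma q_fm (i : Fin 5) : ∃ a br bi c : ℝ, br ^ 2 + bi ^ 2 - a * c = 1 ∧ q i = fm a br bi c := by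
  fin_cases i
  · exact ⟨_, _, _, _, by norm_num, rfl⟩
  · exact ⟨_, _, _, _, by norm_num, rfl⟩
  · exact ⟨_, _, _, _, by norm_num, rfl⟩
  · exact ⟨_, _, _, _, by norm_num, rfl⟩
  · exact ⟨_, _, _, _, by norm_num, rfl⟩

noncomputable def xx (t : ℝ) : ℂ := ⟨2/5 + 4/5 * t, -3/10 + 3/5 * t⟩
noncomputable def yy : ℂ := ⟨-8/5, -11/5⟩

/-- The element set. -/
def EE : Set ℂ := {b | b = yy ∨ ∃ t : ℝ, 0 < t ∧ t ≤ 1/20 ∧ b = xx t}

def nsq (z : ℂ) : ℝ := z.re ^ 2 + z.im ^ 2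

lemma y0 (v : ℂ × ℂ) : 9/10 * q 0 v ≤ q 3 (MM yy v) := by
  have := fm_nonneg (a := 237/250) (br := -46/125) (bi := 537/500) (c := 147/100)
    (by norm_num) (by norm_num) (by norm_num) v
  simp only [q, fm, MM, yy, add_re, add_im, mul_re, mul_im] at this ⊢
  linarith

lemma y1 (v : ℂ × ℂ) : q 1 v ≤ q 2 (MM yy v) := by
  have := fm_nonneg (a := 9/40) (br := -9/25) (bi := 27/100) (c := 9/10)
    (by norm_num) (by norm_num) (by norm_num) v
  simp only [q, fm, MM, yy, add_re, add_im, mul_re, mul_im] at this ⊢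
  linarith

lemma y2 (v : ℂ × ℂ) : q 2 v ≤ q 3 (MM yy v) := by
  have := fm_nonneg (a := 15/8) (br := 0) (bi := 15/8) (c := 15/8)
    (by norm_num) (by norm_num) (by norm_num) v
  simp only [q, fm, MM, yy, add_re, add_im, mul_re, mul_im] at this ⊢
  linarith

lemma y3 (v : ℂ × ℂ) : 9/10 * q 3 v ≤ q 3 (MM yy v) := by
  have := fm_nonneg (a := 5133/2500) (br := 1919/3125) (bi := 5658/3125) (c := 9159/5000)
    (by norm_num) (by norm_num) (by norm_num) v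
  simp only [q, fm, MM, yy, add_re, add_im, mul_re, mul_im] at this ⊢
  linarith

lemma y4 (v : ℂ × ℂ) : q 4 v + 2/25 * nsq v.2 ≤ q 0 (MM yy v) := by
  simp only [q, fm, MM, yy, nsq, add_re, add_im, mul_re, mul_im]
  linarith

lemma x0 {t : ℝ} (h0 : 0 < t) (h1 : t ≤ 1/20) (v : ℂ × ℂ) : q 0 v ≤ q 1 (MM (xx t) v) := by
  have := fm_nonneg (a := 1/10) (br := -28/25 * t) (bi := 21/25 * t) (c := 2 * t - 7/5 * t ^ 2)
    (by norm_num) (by nlinarith) (by nlinarith) v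
  simp only [q, fm, MM, xx, add_re, add_im, mul_re, mul_im] at this ⊢
  linarith

lemma x1 {t : ℝ} (h0 : 0 < t) (v : ℂ × ℂ) :
    9/10 * q 1 v ≤ q 0 (MM (xx t) v) := by
  have := fm_nonneg (a := 567/1000) (br := -53/125) (bi := 219/500) (c := 19/25 + 14/25 * t)
    (by norm_num) (by nlinarith) (by nlinarith) v
  simp only [q, fm, MM, xx, add_re, add_im, mul_re, mul_im] at this ⊢
  linarith

lemma x2 {t : ℝ} (h0 : 0 < t) (h1 : t ≤ 1/20) (v : ℂ × ℂ) :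
    9/10 * q 2 v ≤ q 4 (MM (xx t) v) := by
  have := fm_nonneg (a := 5493/10000) (br := -73/625 - 6/5 * t) (bi := 1569/10000 + 9/10 * t)
    (c := 539/2000 + 79/50 * t - 3/2 * t ^ 2) (by norm_num) (by nlinarith) (by nlinarith) v
  simp only [q, fm, MM, xx, add_re, add_im, mul_re, mul_im] at this ⊢
  linarith

lemma x3 {t : ℝ} (h0 : 0 < t) (h1 : t ≤ 1/20) (v : ℂ × ℂ) : q 3 v ≤ q 4 (MM (xx t) v) := by
  have := fm_nonneg (a := 307/250) (br := 307/625 - 6/5 * t) (bi := 921/2500 + 9/10 * t)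
    (c := 307/1000 + 79/50 * t - 3/2 * t ^ 2) (by norm_num) (by nlinarith) (by nlinarith) v
  simp only [q, fm, MM, xx, add_re, add_im, mul_re, mul_im] at this ⊢
  linarith

lemma x4 {t : ℝ} (h0 : 0 < t) (v : ℂ × ℂ) :
    q 4 v + 2/25 * nsq v.2 ≤ q 0 (MM (xx t) v) := by
  have := fm_nonneg (a := 0) (br := 0) (bi := 0) (c := 23/25 + 14/25 * t)
    (by norm_num) (by nlinarith) (by nlinarith) v
  simp only [q, fm, MM, xx, nsq, add_re, add_im, mul_re, mul_im] at this ⊢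
  linarith

/-- cyclic transitions -/
def Cyc (b : ℂ) (i : Fin 5) : Prop :=
  (i = 0 ∨ i = 3 → ∃ t : ℝ, 0 < t ∧ t ≤ 1/20 ∧ b = xx t) ∧ (i = 1 ∨ i = 2 → b = yy)

lemma nsq_nonneg (z : ℂ) : 0 ≤ nsq z := by unfold nsq; positivity

lemma step {b : ℂ} (hb : b ∈ EE) (i : Fin 5) :
    (Cyc b i ∧ ∀ v, q i v + (if i = 4 then 2/25 * nsq v.2 else 0) ≤ q (i + 1) (MM b v)) ∨
      ∃ j, ∀ v, 9/10 * q i v ≤ q j (MM b v) := by
  rcases hb with rfl | ⟨t, h0, h1, rfl⟩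
  · fin_cases i
    · exact Or.inr ⟨3, y0⟩
    · exact Or.inl ⟨⟨by simp, fun _ => rfl⟩, fun v => by simpa using y1 v⟩
    · exact Or.inl ⟨⟨by simp, fun _ => rfl⟩, fun v => by simpa using y2 v⟩
    · exact Or.inr ⟨3, y3⟩
    · exact Or.inl ⟨⟨by simp, by simp⟩, fun v => by simpa using y4 v⟩
  · fin_cases i
    · exact Or.inl ⟨⟨fun _ => ⟨t, h0, h1, rfl⟩, by simp⟩, fun v => by simpa using x0 h0 h1 v⟩
    · exact Or.inr ⟨0, x1 h0⟩
    · exact Or.inr ⟨4, x2 h0 h1⟩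
    · exact Or.inl ⟨⟨fun _ => ⟨t, h0, h1, rfl⟩, by simp⟩, fun v => by simpa using x3 h0 h1 v⟩
    · exact Or.inl ⟨⟨by simp, by simp⟩, fun v => by simpa using x4 h0 v⟩

lemma first {b : ℂ} (hb : b ∈ EE) (i : Fin 5) : q i (NN b (1, 0)) < 0 := by
  rcases hb with rfl | ⟨t, h0, h1, rfl⟩
  · fin_cases i <;> simp [q, fm, NN, yy] <;> norm_num
  · fin_cases i <;> simp [q, fm, NN, xx] <;> nlinarith

lemma mono4 {t t' : ℝ} (h0 : 0 < t) (h0' : 0 < t') (v : ℂ × ℂ)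
    (hv : 3/2 * nsq v.2 ≤ - q 4 v) :
    nsq v.2 ≤ nsq (NN (xx t') (NN yy (NN yy (NN (xx t) v)))).1 := by
  set r1 := v.1.re
  set r2 := v.1.im
  set s1 := v.2.re
  set s2 := v.2.im
  set P := -(4/5 * (r1 * s1 + r2 * s2) - 3/5 * (r2 * s1 - r1 * s2)) with hP
  have hP0 : 0 ≤ P := by
    simp only [q, fm, nsq] at hv
    linarith
  set u1 := s1 - t * (4/5 * r1 - 3/5 * r2) with hu1
  set u2 := s2 - t * (4/5 * r2 + 3/5 * r1) with hu2
  set w1 := (608/125 * u1 - 656/125 * u2) - (4/5 * r1 - 3/5 * r2) with hw1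
  set w2 := (608/125 * u2 + 656/125 * u1) - (4/5 * r2 + 3/5 * r1) with hw2
  have e : nsq (NN (xx t') (NN yy (NN yy (NN (xx t) v)))).1 =
      (u1 + t' * w1) ^ 2 + (u2 + t' * w2) ^ 2 := by
    simp only [nsq, NN, xx, yy, sub_re, sub_im, mul_re, mul_im, hw1, hw2, hu1, hu2]
    ring
  have e1 : u1 ^ 2 + u2 ^ 2 = s1 ^ 2 + s2 ^ 2 + 2 * t * P + t ^ 2 * (r1 ^ 2 + r2 ^ 2) := by
    simp only [hu1, hu2, hP]; ring
  have e2 : u1 * w1 + u2 * w2 = 608/125 * (u1 ^ 2 + u2 ^ 2) + P + t * (r1 ^ 2 + r2 ^ 2) := by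
    simp only [hw1, hw2, hu1, hu2, hP]; ring
  have e3 : (u1 + t' * w1) ^ 2 + (u2 + t' * w2) ^ 2 =
      u1 ^ 2 + u2 ^ 2 + 2 * t' * (u1 * w1 + u2 * w2) + t' ^ 2 * (w1 ^ 2 + w2 ^ 2) := by ring
  have h4 : 0 ≤ u1 * w1 + u2 * w2 := by rw [e2]; positivity
  have h5 : 0 ≤ 2 * t' * (u1 * w1 + u2 * w2) := by positivity
  have h6 : 0 ≤ t' ^ 2 * (w1 ^ 2 + w2 ^ 2) := by positivity
  have h7 : 0 ≤ 2 * t * P := by positivity
  have h8 : 0 ≤ t ^ 2 * (r1 ^ 2 + r2 ^ 2) := by positivity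
  rw [e, e3]
  show s1 ^ 2 + s2 ^ 2 ≤ _
  linarith

end Pool.Agent.H90.Cf
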