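import Pool.Agent.H90.CfA

namespace Pool.Agent.H90.Cf

open Filter Topology Complex

noncomputable def vv (b : ℕ → ℂ) : ℕ → ℂ × ℂ
  | 0 => (1, 0)
  | n + 1 => NN (b n) (vv b n)

noncomputable def rho (b : ℕ → ℂ) (n : ℕ) (i : Fin 5) : ℝ := - q i (vv b n)

noncomputable def mu (b : ℕ → ℂ) (n : ℕ) : ℝ := Finset.univ.inf' Finset.univ_nonempty (rho b n)

lemma mu_le (b : ℕ → ℂ) (n : ℕ) (i : Fin 5) : mu b n ≤ rho b n i :=
  Finset.inf'_le _ (Finset.mem_univ i)

lemma mu_eq (b : ℕ → ℂ) (n : ℕ) : ∃ i, mu b n = rho b n i := by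
  obtain ⟨i, -, h⟩ := Finset.exists_mem_eq_inf' (s := Finset.univ) Finset.univ_nonempty (rho b n)
  exact ⟨i, h⟩

variable {b : ℕ → ℂ}

lemma rstep (hb : ∀ k, b k ∈ EE) (n : ℕ) (i : Fin 5) :
    (Cyc (b n) i ∧ rho b n (i + 1) + (if i = 4 then 2/25 * nsq (vv b (n + 1)).2 else 0) ≤
      rho b (n + 1) i) ∨ mu b n ≤ 9/10 * rho b (n + 1) i := by
  rcases step (hb n) i with ⟨hc, h⟩ | ⟨j, h⟩
  · left
    refine ⟨hc, ?_⟩
    have := h (vv b (n + 1))
    rw [show MM (b n) (vv b (n + 1)) = vv b n from MM_NN _ _] at this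
    simp only [rho]; linarith
  · right
    have := h (vv b (n + 1))
    rw [show MM (b n) (vv b (n + 1)) = vv b n from MM_NN _ _] at this
    have h2 := mu_le b n j
    simp only [rho] at h2 ⊢; linarith

lemma gain_nonneg (n : ℕ) (i : Fin 5) :
    0 ≤ (if i = 4 then 2/25 * nsq (vv b (n + 1)).2 else 0 : ℝ) := by
  split_ifs
  · have := nsq_nonneg (vv b (n + 1)).2; positivity
  · exact le_rfl

lemma mu_succ (hb : ∀ k, b k ∈ EE) (n : ℕ) (h : 0 < mu b n) : mu b n ≤ mu b (n + 1) := by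
  obtain ⟨i, hi⟩ := mu_eq b (n + 1)
  rw [hi]
  rcases rstep hb n i with ⟨-, h1⟩ | h1
  · have := gain_nonneg (b := b) n i
    have := mu_le b n (i + 1)
    linarith
  · linarith

lemma mu_one (hb : ∀ k, b k ∈ EE) : 0 < mu b 1 := by
  obtain ⟨i, hi⟩ := mu_eq b 1
  rw [hi]
  have := first (hb 0) i
  simp only [rho, vv]; linarith

lemma mu_mono (hb : ∀ k, b k ∈ EE) {m n : ℕ} (hm : 1 ≤ m) (h : m ≤ n) :
    0 < mu b m ∧ mu b m ≤ mu b n := by
  have pos : ∀ n, 1 ≤ n → 0 < mu b n := by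
    intro n hn
    induction n, hn using Nat.le_induction with
    | base => exact mu_one hb
    | succ n hn ih => exact ih.trans_le (mu_succ hb n ih)
  refine ⟨pos m hm, ?_⟩
  induction n, h using Nat.le_induction with
  | base => exact le_rfl
  | succ n hn ih => exact ih.trans (mu_succ hb n (pos n (hm.trans hn)))

lemma vv_ne (hb : ∀ k, b k ∈ EE) {n : ℕ} (hn : 1 ≤ n) : 0 < nsq (vv b (n + 1)).2 := by
  have h1 := (mu_mono hb hn le_rfl).1.trans_le (mu_le b n 0)
  show 0 < nsq (vv b n).1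
  rcases (nsq_nonneg (vv b n).1).eq_or_lt with h | h
  · exfalso
    have hr : (vv b n).1.re = 0 := by unfold nsq at h; nlinarith
    have hi : (vv b n).1.im = 0 := by unfold nsq at h; nlinarith
    simp [rho, q, fm, hr, hi] at h1
  · exact h

def ph (φ : Fin 5) : ℕ → Fin 5
  | 0 => φ
  | n + 1 => ph φ n - 1

lemma ph_succ (φ : Fin 5) (n : ℕ) : ph φ (n + 1) + 1 = ph φ n := by
  simp [ph]

lemma ph_surj (M : ℕ) : ∀ i : Fin 5, ∃ φ, ph φ M = i := by
  induction M with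
  | zero => exact fun i => ⟨i, rfl⟩
  | succ M ih =>
    intro i
    obtain ⟨φ, h⟩ := ih (i + 1)
    exact ⟨φ, by simp [ph, h]⟩

lemma ph_four (φ : Fin 5) (n : ℕ) : ∃ m, n ≤ m ∧ ph φ m = 4 := by
  have key : ∀ i : Fin 5, i = 4 ∨ i - 1 = 4 ∨ i - 1 - 1 = 4 ∨ i - 1 - 1 - 1 = 4 ∨
      i - 1 - 1 - 1 - 1 = 4 := by decide
  rcases key (ph φ n) with h | h | h | h | h
  · exact ⟨n, le_rfl, h⟩
  · exact ⟨n + 1, by omega, h⟩
  · exact ⟨n + 2, by omega, h⟩
  · exact ⟨n + 3, by omega, h⟩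
  · exact ⟨n + 4, by omega, h⟩

lemma mu_unbdd (hb : ∀ k, b k ∈ EE) (R : ℝ) : ∃ n, 1 ≤ n ∧ R ≤ mu b n := by
  by_contra hcon
  push Not at hcon
  have hbdd : BddAbove (Set.range fun n => mu b (n + 1)) :=
    ⟨R, by rintro _ ⟨n, rfl⟩; exact (hcon _ (by omega)).le⟩
  set S := ⨆ n, mu b (n + 1) with hS
  have hle : ∀ n, 1 ≤ n → mu b n ≤ S := by
    intro n hn
    obtain ⟨k, rfl⟩ : ∃ k, n = k + 1 := ⟨n - 1, by omega⟩
    exact le_ciSup hbdd k
  have hSpos : 0 < S := (mu_one hb).trans_le (hle 1 le_rfl)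
  obtain ⟨k0, hk0⟩ : ∃ k, 9/10 * S < mu b (k + 1) :=
    exists_lt_of_lt_ciSup (by rw [← hS]; linarith)
  set n0 := k0 + 1 with hn0
  have back : ∀ n, n0 ≤ n → ∀ i, rho b (n + 1) i ≤ S → Cyc (b n) i ∧
      rho b n (i + 1) + (if i = 4 then 2/25 * nsq (vv b (n + 1)).2 else 0) ≤ rho b (n + 1) i := by
    intro n hn i hi
    rcases rstep hb n i with h | h
    · exact h
    · have := (mu_mono hb (by omega : 1 ≤ n0) hn).2
      linarith
  -- phases
  have down : ∀ φ : Fin 5, ∀ n, n0 ≤ n → rho b (n + 1) (ph φ (n + 1)) ≤ S →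
      rho b n (ph φ n) ≤ S := by
    intro φ n hn h
    have h1 := (back n hn _ h).2
    rw [ph_succ] at h1
    have := gain_nonneg (b := b) n (ph φ (n + 1))
    linarith
  have down' : ∀ φ : Fin 5, ∀ n, n0 ≤ n → ∀ m, n ≤ m → rho b m (ph φ m) ≤ S →
      rho b n (ph φ n) ≤ S := by
    intro φ n hn m hm
    induction m, hm using Nat.le_induction with
    | base => exact id
    | succ m hm ih => exact fun h => ih (down φ m (hn.trans hm) h)
  obtain ⟨φ, hφ⟩ : ∃ φ : Fin 5, ∀ n, n0 ≤ n → rho b n (ph φ n) ≤ S := by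
    by_contra hno
    push Not at hno
    choose N hN hN' using hno
    set M := Finset.univ.sup N with hM
    have hNM : ∀ φ, N φ ≤ M := fun φ => Finset.le_sup (f := N) (Finset.mem_univ φ)
    obtain ⟨i, hi⟩ := mu_eq b M
    have hM1 : 1 ≤ M := by have := hN 0; have := hNM 0; omega
    have h1 := hle M hM1
    obtain ⟨φ, hφ⟩ := ph_surj M i
    have h2 := down' φ _ (hN φ) M (hNM φ) (by rw [hφ, ← hi]; exact h1)
    exact absurd h2 (not_le.2 (hN' _))
  -- times at which the state is 4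
  obtain ⟨m0, hm0, hm4⟩ := ph_four φ n0
  have five : ∀ m, n0 ≤ m → ph φ m = 4 →
      rho b m 4 + 2/25 * nsq (vv b (m + 5)).2 ≤ rho b (m + 5) 4 ∧
      (3/2 * nsq (vv b m).2 ≤ rho b m 4 → nsq (vv b m).2 ≤ nsq (vv b (m + 5)).2) := by
    intro m hm h4
    have s1 : ph φ (m + 1) = 3 := by simp only [ph, h4]; rfl
    have s2 : ph φ (m + 2) = 2 := by simp only [ph, h4]; rfl
    have s3 : ph φ (m + 3) = 1 := by simp only [ph, h4]; rfl
    have s4 : ph φ (m + 4) = 0 := by simp only [ph, h4]; rfl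
    have s5 : ph φ (m + 5) = 4 := by simp only [ph, h4]; rfl
    have b1 := back m hm 3 (s1 ▸ hφ (m + 1) (by omega))
    have b2 := back (m + 1) (by omega) 2 (s2 ▸ hφ (m + 2) (by omega))
    have b3 := back (m + 2) (by omega) 1 (s3 ▸ hφ (m + 3) (by omega))
    have b4 := back (m + 3) (by omega) 0 (s4 ▸ hφ (m + 4) (by omega))
    have b5 := back (m + 4) (by omega) 4 (s5 ▸ hφ (m + 5) (by omega))
    constructor
    · have c1 := b1.2
      have c2 := b2.2
      have c3 := b3.2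
      have c4 := b4.2
      have c5 := b5.2
      simp only [show (3 : Fin 5) + 1 = 4 from rfl, show (2 : Fin 5) + 1 = 3 from rfl,
        show (1 : Fin 5) + 1 = 2 from rfl, show (0 : Fin 5) + 1 = 1 from rfl,
        show (4 : Fin 5) + 1 = 0 from rfl, if_true, show ¬ (3 : Fin 5) = 4 by decide,
        show ¬ (2 : Fin 5) = 4 by decide, show ¬ (1 : Fin 5) = 4 by decide,
        show ¬ (0 : Fin 5) = 4 by decide, if_false] at c1 c2 c3 c4 c5
      linarith
    · intro h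
      obtain ⟨t, h0, -, e1⟩ := b1.1.1 (Or.inr rfl)
      have e2 := b2.1.2 (Or.inr rfl)
      have e3 := b3.1.2 (Or.inl rfl)
      obtain ⟨t', h0', -, e4⟩ := b4.1.1 (Or.inl rfl)
      have := mono4 h0 h0' (vv b m) h
      rw [← e1, ← e4] at this
      have e5 : (vv b (m + 5)).2 =
          (NN (b (m + 3)) (NN (b (m + 2)) (NN (b (m + 1)) (NN (b m) (vv b m))))).1 := rfl
      rw [e5, e2, e3]
      exact this
  have h4k : ∀ k : ℕ, ph φ (m0 + 5 * k) = 4 := by
    intro k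
    induction k with
    | zero => exact hm4
    | succ k ih =>
      show ph φ (m0 + 5 * k + 5) = 4
      simp only [ph, ih]; rfl
  set A : ℕ → ℝ := fun k => rho b (m0 + 5 * k) 4 with hA
  set β : ℕ → ℝ := fun k => nsq (vv b (m0 + 5 * k)).2 with hβ
  have hA1 : ∀ k, A k + 2/25 * β (k + 1) ≤ A (k + 1) := fun k =>
    (five _ (by omega) (h4k k)).1
  have hAS : ∀ k, A k ≤ S := fun k => by
    have := hφ (m0 + 5 * k) (by omega); rwa [h4k] at this
  have hA0 : ∀ k, mu b 1 ≤ A k := fun k =>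
    (mu_mono hb le_rfl (by omega : 1 ≤ m0 + 5 * k)).2.trans (mu_le _ _ _)
  have hβ1 : ∀ k, 3/2 * β k ≤ mu b 1 → β k ≤ β (k + 1) := fun k h =>
    (five _ (by omega) (h4k k)).2 (h.trans (hA0 k))
  have hβ0 : ∀ k, 0 ≤ β k := fun k => nsq_nonneg _
  have hβpos : ∀ k, 0 < β (k + 1) := fun k => vv_ne hb (n := m0 + 5 * k + 4) (by omega)
  have hAm : Monotone A := monotone_nat_of_le_succ fun k => by
    have := hA1 k; have := hβ0 (k + 1); linarith
  have hAc := tendsto_atTop_ciSup hAm ⟨S, by rintro _ ⟨k, rfl⟩; exact hAS k⟩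
  have hd : Tendsto (fun k => A (k + 1) - A k) atTop (𝓝 0) := by
    have := ((tendsto_add_atTop_iff_nat 1).2 hAc).sub hAc
    simpa using this
  have hβt : Tendsto (fun k => β (k + 1)) atTop (𝓝 0) := by
    have h2 : Tendsto (fun k => 25/2 * (A (k + 1) - A k)) atTop (𝓝 0) := by
      simpa using hd.const_mul (25/2)
    exact squeeze_zero (fun k => hβ0 _) (fun k => by have := hA1 k; linarith) h2
  have hev : ∀ᶠ k in atTop, β (k + 1) < 2/3 * mu b 1 :=
    hβt.eventually (gt_mem_nhds (by have := mu_one hb; positivity))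
  obtain ⟨K, hK⟩ := eventually_atTop.1 hev
  have hge : ∀ k, K ≤ k → β (K + 1) ≤ β (k + 1) := by
    intro k hk
    induction k, hk using Nat.le_induction with
    | base => exact le_rfl
    | succ k hk ih => exact ih.trans (hβ1 (k + 1) (by have := hK k hk; linarith))
  have := ge_of_tendsto hβt (eventually_atTop.2 ⟨K, hge⟩)
  exact absurd (hβpos K) (not_lt.2 this)

end Pool.Agent.H90.Cf
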