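import Pool.Agent.H90.CfB

namespace Pool.Agent.H90.Cf

open Filter Topology Complex

noncomputable def proj (u : ℂ × ℂ) : OnePoint ℂ :=
  if u.2 = 0 then OnePoint.infty else ((u.1 / u.2 : ℂ) : OnePoint ℂ)

lemma MM_ne {b : ℂ} {u : ℂ × ℂ} (hu : u ≠ 0) : MM b u ≠ 0 := by
  intro h
  have h1 : u.2 = 0 := congrArg Prod.fst h
  have h2 : u.1 + b * u.2 = 0 := congrArg Prod.snd h
  rw [h1, mul_zero, add_zero] at h2
  exact hu (Prod.ext h2 h1)

lemma sB_proj (b : ℂ) {u : ℂ × ℂ} (hu : u ≠ 0) : sB b (proj u) = proj (MM b u) := by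
  by_cases h2 : u.2 = 0
  · have h1 : u.1 ≠ 0 := fun h1 => hu (Prod.ext h1 h2)
    simp [proj, sB, MM, h2, h1]
  · have e : b + u.1 / u.2 = (u.1 + b * u.2) / u.2 := by field_simp; ring
    simp only [proj, sB, MM, h2, if_false, OnePoint.elim_some, e, div_eq_zero_iff, or_false,
      one_div_div]

lemma foldr_proj (l : List ℂ) {u : ℂ × ℂ} (hu : u ≠ 0) :
    l.foldr MM u ≠ 0 ∧ l.foldr sB (proj u) = proj (l.foldr MM u) := by
  induction l with
  | nil => exact ⟨hu, rfl⟩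
  | cons a l ih =>
    refine ⟨MM_ne ih.1, ?_⟩
    simp only [List.foldr_cons]
    rw [ih.2, sB_proj a ih.1]

lemma e2_ne : ((0, 1) : ℂ × ℂ) ≠ 0 := by simp

lemma valB_eq (l : List ℂ) : valB l = proj (l.foldr MM (0, 1)) := by
  rw [← (foldr_proj l e2_ne).2]
  simp [valB, proj]

noncomputable def FF (b : ℕ → ℂ) (n : ℕ) (u : ℂ × ℂ) : ℂ × ℂ := ((List.range n).map b).foldr MM u

lemma FF_succ (b : ℕ → ℂ) (n : ℕ) (u : ℂ × ℂ) : FF b (n + 1) u = FF b n (MM (b n) u) := by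
  simp [FF, List.range_succ]

lemma FF_vv (b : ℕ → ℂ) (n : ℕ) : FF b n (vv b n) = (1, 0) := by
  induction n with
  | zero => rfl
  | succ n ih => rw [FF_succ]; simp only [vv]; rw [MM_NN, ih]

lemma FF_wedge (b : ℕ → ℂ) (n : ℕ) : ∀ u u', ‖wedge (FF b n u) (FF b n u')‖ = ‖wedge u u'‖ := by
  induction n with
  | zero => intro u u'; rfl
  | succ n ih => intro u u'; rw [FF_succ, FF_succ, ih, wedge_MM, norm_neg]

lemma FF_den (b : ℕ → ℂ) (n : ℕ) (u : ℂ × ℂ) : ‖(FF b n u).2‖ = ‖wedge (vv b n) u‖ := by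
  rw [← FF_wedge b n, FF_vv]; simp [wedge]

def KK (u : ℂ × ℂ) : Prop := u ≠ 0 ∧ ∃ i, 0 ≤ q i u

lemma KK_MM {b : ℂ} (hb : b ∈ EE) {u : ℂ × ℂ} (hu : KK u) : KK (MM b u) := by
  obtain ⟨h0, i, hi⟩ := hu
  refine ⟨MM_ne h0, ?_⟩
  rcases step hb i with ⟨-, h⟩ | ⟨j, h⟩
  · refine ⟨i + 1, ?_⟩
    have h1 := h u
    have h2 : 0 ≤ (if i = 4 then 2/25 * nsq u.2 else 0 : ℝ) := by
      split_ifs
      · have := nsq_nonneg u.2; positivity
      · exact le_rfl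
    linarith
  · exact ⟨j, by have := h u; linarith⟩

variable {b : ℕ → ℂ}

lemma FF_tail (hb : ∀ k, b k ∈ EE) {k n : ℕ} (h : k ≤ n) :
    ∀ u, KK u → ∃ u', KK u' ∧ FF b n u = FF b k u' := by
  induction n, h using Nat.le_induction with
  | base => exact fun u hu => ⟨u, hu, rfl⟩
  | succ n hn ih => exact fun u hu => by rw [FF_succ]; exact ih _ (KK_MM (hb n) hu)

noncomputable def fv (b : ℕ → ℂ) (k : ℕ) (u : ℂ × ℂ) : ℂ := (FF b k u).1 / (FF b k u).2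

lemma den_ne (hb : ∀ k, b k ∈ EE) {k : ℕ} (hk : 1 ≤ k) {u : ℂ × ℂ} (hu : KK u) :
    (FF b k u).2 ≠ 0 := by
  obtain ⟨h0, i, hi⟩ := hu
  have h1 := (mu_mono hb hk le_rfl).1.trans_le (mu_le b k i)
  obtain ⟨a, br, bi, c, -, e⟩ := q_fm i
  simp only [rho] at h1
  rw [e] at hi h1
  rw [← norm_ne_zero_iff, FF_den, norm_ne_zero_iff]
  exact wedge_ne h0 hi (by linarith)

lemma close (hb : ∀ k, b k ∈ EE) {k : ℕ} (hk : 1 ≤ k) {u u' : ℂ × ℂ} (h0 : u ≠ 0) (h0' : u' ≠ 0)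
    {i : Fin 5} (hi : 0 ≤ q i u) (hi' : 0 ≤ q i u') : ‖fv b k u - fv b k u'‖ ≤ 2 / mu b k := by
  have d1 := den_ne hb hk ⟨h0, i, hi⟩
  have d2 := den_ne hb hk ⟨h0', i, hi'⟩
  have hm := (mu_mono hb hk le_rfl).1
  have h1 := mu_le b k i
  obtain ⟨a, br, bi, c, hd, e⟩ := q_fm i
  simp only [rho] at h1
  rw [e] at hi hi' h1
  have h2 := plucker hd hi hi' (v := vv b k) (by linarith)
  rw [← FF_den, ← FF_den, ← FF_wedge b k] at h2
  have e2 : fv b k u - fv b k u' =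
      wedge (FF b k u) (FF b k u') / ((FF b k u).2 * (FF b k u').2) := by
    simp only [fv, wedge]; field_simp
  rw [e2, norm_div, norm_mul, div_le_div_iff₀ (by positivity) hm]
  have h3 := mul_le_mul_of_nonneg_left h1 (norm_nonneg (wedge (FF b k u) (FF b k u')))
  linarith

lemma wit (i : Fin 5) : ∃ w : ℂ × ℂ, w ≠ 0 ∧ 0 ≤ q i w ∧ 0 ≤ q 0 w := by
  have hA : ∀ z : ℂ, ((z, 1) : ℂ × ℂ) ≠ 0 := fun z => by simp
  fin_cases i
  · exact ⟨(1, 1), hA _, by simp [q, fm]; norm_num, by simp [q, fm]; norm_num⟩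
  · exact ⟨(1, 1), hA _, by simp [q, fm]; norm_num, by simp [q, fm]; norm_num⟩
  · exact ⟨(⟨1/10, 1/2⟩, 1), hA _, by simp [q, fm]; norm_num, by simp [q, fm]; norm_num⟩
  · exact ⟨(⟨1/10, 1/2⟩, 1), hA _, by simp [q, fm]; norm_num, by simp [q, fm]; norm_num⟩
  · exact ⟨(1, 1), hA _, by simp [q, fm]; norm_num, by simp [q, fm]; norm_num⟩

lemma q0_e2 : 0 ≤ q 0 (0, 1) := by simp [q, fm]

lemma close2 (hb : ∀ k, b k ∈ EE) {k n : ℕ} (hk : 1 ≤ k) (h : k ≤ n) :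
    ‖fv b n (0, 1) - fv b k (0, 1)‖ ≤ 4 / mu b k := by
  obtain ⟨u, ⟨h0, i, hi⟩, e⟩ := FF_tail hb h (0, 1) ⟨e2_ne, 0, q0_e2⟩
  obtain ⟨w, hw0, hw1, hw2⟩ := wit i
  have e1 : fv b n (0, 1) = fv b k u := by simp only [fv, e]
  have c1 := close hb hk h0 hw0 hi hw1
  have c2 := close hb hk hw0 e2_ne hw2 q0_e2
  rw [e1]
  calc _ = ‖(fv b k u - fv b k w) + (fv b k w - fv b k (0, 1))‖ := by congr 1; ring
    _ ≤ _ := norm_add_le _ _
    _ ≤ 2 / mu b k + 2 / mu b k := add_le_add c1 c2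
    _ = _ := by ring

theorem conv : ConvSetB EE := by
  intro b hb
  have hc : CauchySeq fun n => fv b n (0, 1) := by
    rw [Metric.cauchySeq_iff']
    intro ε hε
    obtain ⟨k, hk, hR⟩ := mu_unbdd hb (5 / ε)
    refine ⟨k, fun n hn => ?_⟩
    rw [dist_eq_norm]
    refine (close2 hb hk hn).trans_lt ?_
    have hm := (mu_mono hb hk le_rfl).1
    rw [div_lt_iff₀ hm]
    rw [div_le_iff₀ hε] at hR
    linarith
  obtain ⟨L, hL⟩ := cauchySeq_tendsto_of_complete hc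
  refine ⟨L, ?_⟩
  have h2 : Tendsto (fun n => ((fv b n (0, 1) : ℂ) : OnePoint ℂ)) atTop (𝓝 (L : OnePoint ℂ)) :=
    (OnePoint.continuous_coe.tendsto L).comp hL
  refine h2.congr' (eventually_atTop.2 ⟨1, fun n hn => ?_⟩)
  have d := den_ne hb hn ⟨e2_ne, 0, q0_e2⟩
  show _ = valB _
  rw [valB_eq]
  show _ = proj (FF b n (0, 1))
  simp only [proj, d, if_false, fv]

theorem unb : ¬ Bdd (VB EE) := by
  rintro ⟨R, hR⟩
  have hy : yy ∈ EE := Or.inl rfl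
  have key : ∀ t : ℝ, 0 < t → t ≤ 1/20 → 1 ≤ R ^ 2 * (9 * t ^ 2) := by
    intro t h0 h1
    have hx : xx t ∈ EE := Or.inr ⟨t, h0, h1, rfl⟩
    obtain ⟨z, hz, hzR⟩ := hR (valB [xx t, yy, yy, xx t]) ⟨_, by simp, by simp [hx, hy], rfl⟩
    rw [valB_eq] at hz
    set u := List.foldr MM (0, 1) [xx t, yy, yy, xx t] with hu
    have n1 : 1 ≤ nsq u.1 := by
      simp only [hu, List.foldr, MM, nsq, xx, yy, add_re, add_im, mul_re, mul_im, zero_re,
        zero_im, one_re, one_im]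
      nlinarith
    have n2 : nsq u.2 ≤ 9 * t ^ 2 := by
      have e : nsq u.2 = t ^ 2 * ((2 + 608/125 * t) ^ 2 + (656/125 * t) ^ 2) := by
        simp only [hu, List.foldr, MM, nsq, xx, yy, add_re, add_im, mul_re, mul_im, zero_re,
          zero_im, one_re, one_im]
        ring
      rw [e, mul_comm]
      exact mul_le_mul_of_nonneg_right (by nlinarith) (by positivity)
    by_cases h2 : u.2 = 0
    · simp [proj, h2] at hz
    · simp only [proj, h2, if_false, OnePoint.coe_eq_coe] at hz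
      have e : u.1 = z * u.2 := by rw [← hz]; field_simp
      have e2 : nsq u.1 = ‖z‖ ^ 2 * nsq u.2 := by
        rw [← Complex.normSq_eq_norm_sq, normSq_apply, e]
        simp only [nsq, mul_re, mul_im]; ring
      have h3 : ‖z‖ ^ 2 ≤ R ^ 2 := pow_le_pow_left₀ (norm_nonneg _) hzR 2
      have h4 := mul_le_mul h3 n2 (nsq_nonneg _) (by positivity)
      linarith
  have h5 := key (1 / (20 + 4 * |R|)) (by positivity)
    (one_div_le_one_div_of_le (by norm_num) (by have := abs_nonneg R; linarith))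
  have h6 : (0 : ℝ) < 20 + 4 * |R| := by positivity
  rw [← sq_abs R, div_pow, one_pow, mul_one_div, ← mul_div_assoc, le_div_iff₀ (by positivity)] at h5
  nlinarith [abs_nonneg R]

end Pool.Agent.H90.Cf
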