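import Mathlib

/-! Type-B continued fractions `1/(b₁ + 1/(b₂ + ⋯))`, computed on the Riemann sphere. -/

namespace Pool.Agent.H90.Cf

open Filter Topology

/-- The map `w ↦ 1/(b + w)` on the Riemann sphere, with `1/0 = ∞` and `1/∞ = 0`. -/
noncomputable def sB (b : ℂ) (w : OnePoint ℂ) : OnePoint ℂ :=
  w.elim ((0 : ℂ) : OnePoint ℂ)
    (fun z => if b + z = 0 then OnePoint.infty else ((1 / (b + z) : ℂ) : OnePoint ℂ))

/-- The value `s_{b₁} ∘ ⋯ ∘ s_{bₙ} (0)` of the finite type-B continued fraction with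
elements `[b₁, …, bₙ]`. -/
noncomputable def valB (l : List ℂ) : OnePoint ℂ := l.foldr sB ((0 : ℂ) : OnePoint ℂ)

/-- The `n`-th approximant of the infinite type-B continued fraction whose elements are
`b 0, b 1, …`. -/
noncomputable def approxB (b : ℕ → ℂ) (n : ℕ) : OnePoint ℂ := valB ((List.range n).map b)

/-- The infinite continued fraction converges: its approximants tend to a finite limit. -/
def ConvergesB (b : ℕ → ℂ) : Prop :=
  ∃ L : ℂ, Tendsto (approxB b) atTop (𝓝 (L : OnePoint ℂ))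

/-- `E` is a type-B convergence set. -/
def ConvSetB (E : Set ℂ) : Prop := ∀ b : ℕ → ℂ, (∀ k, b k ∈ E) → ConvergesB b

/-- `V_B(E)`: all values of finite type-B continued fractions with elements in `E`. -/
def VB (E : Set ℂ) : Set (OnePoint ℂ) :=
  {w | ∃ l : List ℂ, l ≠ [] ∧ (∀ x ∈ l, x ∈ E) ∧ valB l = w}

/-- A subset of the sphere is a bounded subset of `ℂ`. -/
def Bdd (V : Set (OnePoint ℂ)) : Prop := ∃ R : ℝ, ∀ w ∈ V, ∃ z : ℂ, w = (z : OnePoint ℂ) ∧ ‖z‖ ≤ R

end Pool.Agent.H90.Cf
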