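import Mathlib

set_option autoImplicit false

namespace Pool.Agent.H90.ChebDefs

/-- `G` is a closed subspace in which every point has exactly one best approximation. -/
def IsChebyshev {𝕜 X : Type*} [RCLike 𝕜] [NormedAddCommGroup X] [NormedSpace 𝕜 X]
    (G : Submodule 𝕜 X) : Prop :=
  IsClosed (G : Set X) ∧ ∀ x : X, ∃! g : X, g ∈ G ∧ ‖x - g‖ = Metric.infDist x (G : Set X)

/-- The dual of `E` contains a weak*-closed Chebyshev subspace of codimension `n`. -/
def HasCheb (𝕜 E : Type*) [RCLike 𝕜] [NormedAddCommGroup E] [NormedSpace 𝕜 E] (n : ℕ) : Prop :=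
  ∃ Γ : Submodule 𝕜 (StrongDual 𝕜 E),
    IsClosed (StrongDual.toWeakDual '' (Γ : Set (StrongDual 𝕜 E))) ∧
    Module.rank 𝕜 (StrongDual 𝕜 E ⧸ Γ) = n ∧ IsChebyshev Γ

end Pool.Agent.H90.ChebDefs
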