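import Pool.Agent.H90.ChebDefs

set_option autoImplicit false

namespace Pool.Agent.H90.ChebInc

open Set Metric Filter Topology Pool.Agent.H90.ChebDefs

section general

variable {𝕜 : Type} [RCLike 𝕜] {E : Type} [NormedAddCommGroup E] [NormedSpace 𝕜 E]

variable (𝕜) in
def T (b : ℕ → E) (N : ℕ) : Submodule 𝕜 (StrongDual 𝕜 E) where
  carrier := {f | ∀ i < N, f (b i) = 0}
  add_mem' hf hg i hi := by simp [hf i hi, hg i hi]
  zero_mem' i _ := rfl
  smul_mem' c f hf i hi := by simp [hf i hi]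

lemma T_anti (b : ℕ → E) : Antitone (T 𝕜 b) :=
  fun _ _ h _ hf i hi => hf i (lt_of_lt_of_le hi h)

lemma ev_zero {b : ℕ → E} {v : E} (hv : v ∈ Submodule.span 𝕜 (range b)) :
    ∀ᶠ N in atTop, ∀ t ∈ T 𝕜 b N, t v = 0 := by
  induction hv using Submodule.span_induction with
  | mem u hu =>
    obtain ⟨i, rfl⟩ := hu
    filter_upwards [eventually_gt_atTop i] with N hN t ht using ht i hN
  | zero => exact Eventually.of_forall fun N t _ => t.map_zero
  | add x y hx hy h1 h2 =>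
    filter_upwards [h1, h2] with N h1 h2 t ht
    rw [map_add, h1 t ht, h2 t ht, add_zero]
  | smul a x hx h1 =>
    filter_upwards [h1] with N h1 t ht
    rw [map_smul, h1 t ht, smul_zero]

lemma tail_le {b : ℕ → E} (hb : ∀ v, v ∈ Submodule.span 𝕜 (range b))
    {Γ : Submodule 𝕜 (StrongDual 𝕜 E)}
    (hc : IsClosed (StrongDual.toWeakDual '' (Γ : Set (StrongDual 𝕜 E))))
    [Module.Finite 𝕜 (StrongDual 𝕜 E ⧸ Γ)] : ∃ N, T 𝕜 b N ≤ Γ := by
  let F : ℕ →o (Submodule 𝕜 (StrongDual 𝕜 E ⧸ Γ))ᵒᵈ :=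
    ⟨fun N => OrderDual.toDual ((T 𝕜 b N).map Γ.mkQ),
      fun _ _ h => Submodule.map_mono (T_anti b h)⟩
  obtain ⟨N, hN⟩ := IsArtinian.monotone_stabilizes F
  refine ⟨N, fun f hf => ?_⟩
  have h1 : ∀ M, ∃ t ∈ T 𝕜 b M, t - f ∈ Γ := fun M => by
    have h2 : (T 𝕜 b N).map Γ.mkQ = (T 𝕜 b (N + M)).map Γ.mkQ := hN (N + M) (Nat.le_add_right _ _)
    have h3 : Γ.mkQ f ∈ (T 𝕜 b (N + M)).map Γ.mkQ := h2 ▸ Submodule.mem_map_of_mem hf
    obtain ⟨t, ht, e⟩ := h3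
    exact ⟨t, T_anti b (Nat.le_add_left _ _) ht, (Submodule.Quotient.eq Γ).1 e⟩
  choose t ht1 ht2 using h1
  have h4 : Tendsto (fun M => StrongDual.toWeakDual (f - t M)) atTop
      (𝓝 (StrongDual.toWeakDual f)) := by
    refine tendsto_iff_forall_eval_tendsto_topDualPairing.2 fun v => ?_
    refine tendsto_const_nhds.congr' ?_
    filter_upwards [ev_zero (hb v)] with M hM
    change f v = f v - t M v
    rw [hM _ (ht1 M), sub_zero]
  have h5 := hc.mem_of_tendsto h4 (Eventually.of_forall fun M =>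
    ⟨f - t M, by simpa using Γ.neg_mem (ht2 M), rfl⟩)
  obtain ⟨g, hg, e⟩ := h5
  exact StrongDual.toWeakDual.injective e ▸ hg

lemma nsum_le {co : ℕ → StrongDual 𝕜 E} (hs : ∀ v N, ∑ i ∈ Finset.range N, ‖co i v‖ ≤ ‖v‖)
    (N : ℕ) (a : ℕ → 𝕜) {r : ℝ} (hr : 0 ≤ r) (ha : ∀ i, ‖a i‖ ≤ r) :
    ‖∑ i ∈ Finset.range N, a i • co i‖ ≤ r := by
  refine ContinuousLinearMap.opNorm_le_bound _ hr fun v => ?_
  rw [sum_apply]
  refine (norm_sum_le _ _).trans ((Finset.sum_le_sum (g := fun i => r * ‖co i v‖)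
    fun i _ => ?_).trans ?_)
  · rw [smul_apply, norm_smul]
    exact mul_le_mul_of_nonneg_right (ha i) (norm_nonneg _)
  · rw [← Finset.mul_sum]
    exact mul_le_mul_of_nonneg_left (hs v N) hr

theorem not_cheb_gen {b : ℕ → E} (hb : ∀ v, v ∈ Submodule.span 𝕜 (range b))
    {co : ℕ → StrongDual 𝕜 E} (hs : ∀ v N, ∑ i ∈ Finset.range N, ‖co i v‖ ≤ ‖v‖)
    (co_b : ∀ k n, co k (b n) = if k = n then 1 else 0) (norm_b : ∀ n, ‖b n‖ = 1)
    {n : ℕ} (hn : 1 ≤ n) : ¬ HasCheb 𝕜 E n := by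
  rintro ⟨Γ, hc, hr, -, hu⟩
  have : Module.Finite 𝕜 (StrongDual 𝕜 E ⧸ Γ) := Module.finite_of_rank_eq_nat hr
  obtain ⟨N, hN⟩ := tail_le hb hc
  obtain ⟨h, hh⟩ : ∃ h, h ∉ Γ := by
    by_contra hcon
    push Not at hcon
    have : Subsingleton (StrongDual 𝕜 E ⧸ Γ) :=
      Submodule.Quotient.subsingleton_iff.2 (eq_top_iff.2 fun x _ => hcon x)
    rw [rank_subsingleton'] at hr
    have : n = 0 := by exact_mod_cast hr.symm
    omega
  obtain ⟨g, ⟨hg1, hg2⟩, huniq⟩ := hu h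
  set F := h - g with hF
  have hF0 : F ≠ 0 := fun e => hh (sub_eq_zero.1 e ▸ hg1)
  let a : 𝕜 → ℕ → 𝕜 := fun s i => if i < N then F (b i) else s
  let P : 𝕜 → StrongDual 𝕜 E := fun s => ∑ i ∈ Finset.range (N + 1), a s i • co i
  have hP : ∀ s, ∀ j ≤ N, P s (b j) = a s j := fun s j hj => by
    simp [P, sum_apply, co_b, Nat.lt_succ_of_le hj]
  have key : ∀ s : 𝕜, ‖s‖ ≤ ‖F‖ → h - P s = g := fun s hs' => by
    have m : h - P s ∈ Γ := by
      have : F - P s ∈ Γ := hN fun i hi => by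
        rw [sub_apply, hP s i hi.le]
        simp [a, hi]
      have e : h - P s = (F - P s) + g := by rw [hF]; abel
      exact e ▸ Γ.add_mem this hg1
    refine huniq _ ⟨m, le_antisymm ?_ ?_⟩
    · rw [sub_sub_cancel, ← hg2]
      refine nsum_le hs _ _ (norm_nonneg _) fun i => ?_
      simp only [a]
      split_ifs
      · simpa [norm_b] using F.le_opNorm (b i)
      · exact hs'
    · rw [← dist_eq_norm]
      exact infDist_le_dist_of_mem m
  have k1 := key 0 (by simp)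
  have k2 := key ((‖F‖ : ℝ) : 𝕜) (by simp)
  have k3 : P 0 = P ((‖F‖ : ℝ) : 𝕜) := sub_right_injective (k1.trans k2.symm)
  have k4 := hP 0 N le_rfl
  rw [k3, hP _ N le_rfl] at k4
  simp [a, hF0] at k4

end general

variable (𝕜 : Type) [RCLike 𝕜]

abbrev L1 := lp (fun _ : ℕ => 𝕜) 1

noncomputable def e (n : ℕ) : L1 𝕜 := lp.single 1 n 1

noncomputable abbrev E0 : Submodule 𝕜 (L1 𝕜) := Submodule.span 𝕜 (range (e 𝕜))

noncomputable def b (n : ℕ) : E0 𝕜 := ⟨e 𝕜 n, Submodule.subset_span ⟨n, rfl⟩⟩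

noncomputable def co (n : ℕ) : StrongDual 𝕜 (E0 𝕜) :=
  (lp.evalCLM 𝕜 (fun _ : ℕ => 𝕜) 1 n).comp (E0 𝕜).subtypeL

variable {𝕜}

lemma co_apply (n : ℕ) (v : E0 𝕜) : co 𝕜 n v = v.1 n := rfl

lemma co_b (k n : ℕ) : co 𝕜 k (b 𝕜 n) = if k = n then 1 else 0 := by
  simp [co_apply, b, e, lp.single_apply, Pi.single_apply]

lemma norm_b (n : ℕ) : ‖b 𝕜 n‖ = 1 := by
  simp [b, e, lp.norm_single]

lemma li : LinearIndependent 𝕜 (b 𝕜) := by
  rw [linearIndependent_iff']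
  intro s g h i hi
  have := congrArg (co 𝕜 i) h
  simpa [co_b, hi] using this

instance sep : TopologicalSpace.SeparableSpace (E0 𝕜) :=
  ((countable_range (e 𝕜)).isSeparable.span (R := 𝕜)).separableSpace

lemma rank_ge (n : ℕ) : (n : Cardinal) ≤ Module.rank 𝕜 (E0 𝕜) :=
  (Cardinal.natCast_lt_aleph0.le).trans (by simpa using (li (𝕜 := 𝕜)).cardinal_lift_le_rank)

lemma mem_span (v : E0 𝕜) : v ∈ Submodule.span 𝕜 (range (b 𝕜)) := by
  obtain ⟨v, hv⟩ := v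
  induction hv using Submodule.span_induction with
  | mem u hu =>
    obtain ⟨i, rfl⟩ := hu
    exact Submodule.subset_span ⟨i, rfl⟩
  | zero => exact Submodule.zero_mem _
  | add x y hx hy h1 h2 => exact Submodule.add_mem _ h1 h2
  | smul a x hx h1 => exact Submodule.smul_mem _ a h1

theorem not_cheb {n : ℕ} (hn : 1 ≤ n) : ¬ HasCheb 𝕜 (E0 𝕜) n := by
  refine not_cheb_gen mem_span (fun v N => ?_) co_b norm_b hn
  have h3 := lp.sum_rpow_le_norm_rpow (p := 1) (by simp) v.1 (Finset.range N)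
  simp only [ENNReal.toReal_one, Real.rpow_one] at h3
  exact h3

end Pool.Agent.H90.ChebInc
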