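import Mathlib

set_option autoImplicit false

namespace Pool.Agent.H90.Macbeath

open MeasureTheory Set Metric Filter Topology

variable {V : Type*} [NormedAddCommGroup V] [NormedSpace ℝ V]

/-- directions of segments lying in the unit sphere -/
def D0 (V : Type*) [NormedAddCommGroup V] : Set V :=
  {w | ∃ z : V, ‖z‖ = 1 ∧ ‖z + w‖ ≤ 1 ∧ ‖z - w‖ ≤ 1}

def Reg (y : V) : Set V := {p | ‖(2 : ℝ) • p - y‖ ≤ 1 ∧ ‖(3 : ℝ) • y - (2 : ℝ) • p‖ ≤ 1}

lemma reg_closed (y : V) : IsClosed (Reg y) := by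
  have h1 : IsClosed {p : V | ‖(2 : ℝ) • p - y‖ ≤ 1} := isClosed_le (by fun_prop) continuous_const
  have h2 : IsClosed {p : V | ‖(3 : ℝ) • y - (2 : ℝ) • p‖ ≤ 1} :=
    isClosed_le (by fun_prop) continuous_const
  exact h1.inter h2

lemma reg_shell {δ : ℝ} (hδ : 0 < δ) {y p : V} (hy : ‖y‖ = 1 - δ) (hp : p ∈ Reg y) :
    1 - 2 * δ ≤ ‖p‖ ∧ ‖p‖ ≤ 1 := by
  obtain ⟨h1, h2⟩ := hp
  constructor
  · have : ‖(3 : ℝ) • y‖ ≤ ‖(3 : ℝ) • y - (2 : ℝ) • p‖ + ‖(2 : ℝ) • p‖ := norm_le_norm_sub_add _ _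
    rw [norm_smul, norm_smul] at this
    norm_num at this
    linarith
  · have : ‖(2 : ℝ) • p‖ ≤ ‖(2 : ℝ) • p - y‖ + ‖y‖ := norm_le_norm_sub_add _ _
    rw [norm_smul] at this
    norm_num at this
    linarith

lemma ball_sub {δ : ℝ} {y : V} (hy : ‖y‖ = 1 - δ) : ball y (δ / 2) ⊆ Reg y := by
  intro p hp
  rw [mem_ball, dist_eq_norm] at hp
  have h : ‖(2 : ℝ) • (p - y)‖ ≤ δ := by
    rw [norm_smul]; norm_num; linarith
  constructor
  · have : (2 : ℝ) • p - y = y + (2 : ℝ) • (p - y) := by module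
    rw [this]
    linarith [norm_add_le y ((2 : ℝ) • (p - y))]
  · have : (3 : ℝ) • y - (2 : ℝ) • p = y - (2 : ℝ) • (p - y) := by module
    rw [this]
    linarith [norm_sub_le y ((2 : ℝ) • (p - y))]

lemma comb (a b : V) (s t : ℝ) (hs : 0 ≤ s) (ht : 0 ≤ t) (hst : s + t ≤ 1) (ha : ‖a‖ ≤ 1)
    (hb : ‖b‖ ≤ 1) : ‖s • a + t • b‖ ≤ 1 := by
  have := norm_add_le (s • a) (t • b)
  rw [norm_smul, norm_smul, Real.norm_of_nonneg hs, Real.norm_of_nonneg ht] at this
  nlinarith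

lemma key {x y p m : V} (hx : p ∈ Reg x) (hy : p ∈ Reg y) (hm : ‖x + m‖ ≤ 1) :
    ‖y + (1 / 3 : ℝ) • m‖ ≤ 1 := by
  have h1 := comb _ _ (1 / 2) (1 / 2) (by norm_num) (by norm_num) (by norm_num) hx.1 hy.2
  have h2 := comb _ _ (1 / 3) (2 / 3) (by norm_num) (by norm_num) (by norm_num) hm h1
  convert h2 using 2
  module

variable [FiniteDimensional ℝ V] [MeasurableSpace V] [BorelSpace V] (μ : Measure V)
  [μ.IsAddHaarMeasure]

lemma bound {δ : ℝ} (hδ : 0 < δ) (hδ2 : δ ≤ 1 / 2) :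
    μ (D0 V) ≤ ENNReal.ofReal (12 ^ Module.finrank ℝ V) * μ {p | 1 - 2 * δ ≤ ‖p‖ ∧ ‖p‖ ≤ 1} := by
  obtain ⟨u, hu, hd, hc⟩ := Vitali.exists_disjoint_subfamily_covering_enlargement
    (Reg (V := V)) {y | ‖y‖ = 1 - δ} (fun _ => 0) 2 (by norm_num) (by simp) 0 (by simp)
    (fun a ha => ⟨a, ball_sub ha (mem_ball_self (by linarith))⟩)
  have hcount : u.Countable := hd.countable_of_nonempty_interior fun a ha =>
    ⟨a, interior_maximal (ball_sub (hu ha)) isOpen_ball (mem_ball_self (by linarith))⟩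
  have hsub : D0 V ⊆ ⋃ y ∈ u, (fun w => (1 / 12 : ℝ) • w) ⁻¹' ((fun w => y + w) ⁻¹' Reg y) := by
    rintro w ⟨z, hz, h1, h2⟩
    have hx : ‖(1 - δ) • z‖ = 1 - δ := by
      rw [norm_smul, hz, mul_one, Real.norm_of_nonneg (by linarith)]
    obtain ⟨y, hy, ⟨p, hp1, hp2⟩, -⟩ := hc ((1 - δ) • z) hx
    have a1 := comb _ _ (1 / 2) (1 / 2 - δ) (by norm_num) (by linarith) (by linarith) h1 hz.le
    have a2 := comb _ _ (1 / 2) (1 / 2 - δ) (by norm_num) (by linarith) (by linarith) h2 hz.le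
    have b1 := key (m := (1 / 2 : ℝ) • w) hp1 hp2 (by convert a1 using 2; module)
    have b2 := key (m := -((1 / 2 : ℝ) • w)) hp1 hp2 (by convert a2 using 2; module)
    refine mem_biUnion hy ⟨?_, ?_⟩
    · convert b1 using 2; module
    · convert b2 using 2; module
  calc μ (D0 V) ≤ ∑' y : u, μ ((fun w => (1 / 12 : ℝ) • w) ⁻¹' ((fun w => (y : V) + w) ⁻¹' Reg y)) :=
        (measure_mono hsub).trans (measure_biUnion_le μ hcount _)
    _ = ∑' y : u, ENNReal.ofReal (12 ^ Module.finrank ℝ V) * μ (Reg (y : V)) := by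
        congr 1
        ext y
        rw [Measure.addHaar_preimage_smul μ (by norm_num), measure_preimage_add]
        congr 2
        rw [one_div, inv_pow, inv_inv, abs_of_nonneg (by positivity)]
    _ = ENNReal.ofReal (12 ^ Module.finrank ℝ V) * μ (⋃ y ∈ u, Reg y) := by
        rw [ENNReal.tsum_mul_left, measure_biUnion hcount hd
          (fun y _ => (reg_closed y).measurableSet)]
    _ ≤ _ := by
        gcongr
        intro p hp
        obtain ⟨y, hy, hp⟩ := mem_iUnion₂.1 hp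
        exact reg_shell hδ (hu hy) hp

theorem null : μ (D0 V) = 0 := by
  set S : ℕ → Set V := fun k => {p | 1 - 2 * (1 / ((k : ℝ) + 2)) ≤ ‖p‖ ∧ ‖p‖ ≤ 1} with hS
  have hanti : Antitone S := by
    intro a b hab p hp
    refine ⟨le_trans ?_ hp.1, hp.2⟩
    have : (a : ℝ) ≤ b := by exact_mod_cast hab
    have : 1 / ((b : ℝ) + 2) ≤ 1 / ((a : ℝ) + 2) := by gcongr
    linarith
  have hcl : ∀ k, IsClosed (S k) := fun k =>
    (isClosed_le continuous_const continuous_norm).inter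
      (isClosed_le continuous_norm continuous_const)
  have hfin : μ (S 0) ≠ ⊤ := by
    refine ne_top_of_le_ne_top (measure_closedBall_lt_top (μ := μ) (x := (0 : V)) (r := 1)).ne
      (measure_mono fun p hp => ?_)
    simpa using hp.2
  have h1 := tendsto_measure_iInter_atTop (μ := μ)
    (fun k => (hcl k).measurableSet.nullMeasurableSet) hanti ⟨0, hfin⟩
  have h2 : μ (⋂ k, S k) = 0 := by
    refine measure_mono_null ?_ (Measure.addHaar_sphere_of_ne_zero μ (0 : V) one_ne_zero)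
    intro p hp
    rw [mem_iInter] at hp
    rw [mem_sphere_zero_iff_norm]
    refine le_antisymm (hp 0).2 (le_of_forall_pos_le_add fun ε hε => ?_)
    obtain ⟨k, hk⟩ := exists_nat_gt (2 / ε)
    have h3 := (hp k).1
    have h4 : 2 * (1 / ((k : ℝ) + 2)) ≤ ε := by
      rw [div_lt_iff₀ hε] at hk
      rw [mul_one_div, div_le_iff₀ (by positivity)]
      nlinarith
    linarith
  rw [h2] at h1
  have h3 := ENNReal.Tendsto.const_mul (a := ENNReal.ofReal (12 ^ Module.finrank ℝ V)) h1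
    (Or.inr ENNReal.ofReal_ne_top)
  rw [mul_zero] at h3
  refine le_antisymm (ge_of_tendsto' h3 fun k => bound μ (by positivity) ?_) zero_le
  rw [div_le_div_iff₀ (by positivity) (by positivity)]
  have : (0 : ℝ) ≤ k := by positivity
  linarith

omit μ [MeasurableSpace V] [BorelSpace V] in
theorem dense_good : Dense {w : V | ∀ s : ℝ, 0 < s → s • w ∉ D0 V} := by
  borelize V
  set μ : Measure V := Measure.addHaar
  apply Measure.dense_of_ae (μ := μ)
  have h : ∀ k : ℕ, μ ((fun w => (1 / ((k : ℝ) + 1)) • w) ⁻¹' D0 V) = 0 := fun k => by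
    rw [Measure.addHaar_preimage_smul μ (by positivity), null, mul_zero]
  refine measure_mono_null ?_ (measure_iUnion_null h)
  intro w hw
  simp only [mem_compl_iff, mem_ofPred_eq, not_forall, not_not] at hw
  obtain ⟨s, hs, z, hz, h1, h2⟩ := hw
  obtain ⟨k, hk⟩ := exists_nat_one_div_lt hs
  have hk0 : 0 < 1 / ((k : ℝ) + 1) := by positivity
  have ht : 1 / ((k : ℝ) + 1) / s ≤ 1 := by rw [div_le_one hs]; exact hk.le
  have ht0 : 0 ≤ 1 / ((k : ℝ) + 1) / s := by positivity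
  refine mem_iUnion.2 ⟨k, z, hz, ?_, ?_⟩
  · have := comb _ _ _ (1 - 1 / ((k : ℝ) + 1) / s) ht0 (by linarith) (by linarith) h1 hz.le
    convert this using 2
    rw [smul_add, smul_smul, div_mul_cancel₀ _ hs.ne']
    module
  · have := comb _ _ _ (1 - 1 / ((k : ℝ) + 1) / s) ht0 (by linarith) (by linarith) h2 hz.le
    convert this using 2
    rw [smul_sub, smul_smul, div_mul_cancel₀ _ hs.ne']
    module

end Pool.Agent.H90.Macbeath
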