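import Pool.Agent.H90.ChebDefs
import Pool.Agent.H90.Macbeath

set_option autoImplicit false

namespace Pool.Agent.H90.ChebProof

open Set Metric Filter Topology Pool.Agent.H90.ChebDefs Pool.Agent.H90.Macbeath

variable {𝕜 : Type*} [RCLike 𝕜]

lemma dense_good' {W : Type*} [NormedAddCommGroup W] [NormedSpace 𝕜 W] [FiniteDimensional 𝕜 W] :
    Dense {w : W | ∀ t : 𝕜, t ≠ 0 → t • w ∉ D0 W} := by
  let : NormedSpace ℝ W := NormedSpace.restrictScalars ℝ 𝕜 W
  have : IsScalarTower ℝ 𝕜 W := RestrictScalars.isScalarTower ℝ 𝕜 W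
  have : FiniteDimensional ℝ W := Module.Finite.trans 𝕜 W
  refine (dense_good (V := W)).mono ?_
  rintro w hw t ht ⟨z, hz, h1, h2⟩
  have htn : 0 < ‖t‖ := norm_pos_iff.2 ht
  have hu : ‖((‖t‖ : ℝ) : 𝕜) / t‖ = 1 := by
    rw [norm_div, RCLike.norm_ofReal, abs_norm, div_self htn.ne']
  have he : (((‖t‖ : ℝ) : 𝕜) / t) • (t • w) = ‖t‖ • w := by
    rw [smul_smul, div_mul_cancel₀ _ ht, RCLike.real_smul_eq_coe_smul (K := 𝕜)]
  refine hw ‖t‖ htn ⟨(((‖t‖ : ℝ) : 𝕜) / t) • z, ?_, ?_, ?_⟩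
  · rw [norm_smul, hu, hz, one_mul]
  · rw [← he, ← smul_add, norm_smul, hu, one_mul]; exact h1
  · rw [← he, ← smul_sub, norm_smul, hu, one_mul]; exact h2

variable {E : Type*} [NormedAddCommGroup E] [NormedSpace 𝕜 E] {n : ℕ}

variable (𝕜) in
def Bad (n : ℕ) (y : E) (r : ℝ) : Set (Fin n → E) :=
  {x | ∃ f g : StrongDual 𝕜 E, ∃ c : Fin n → 𝕜, ‖f‖ ≤ 1 ∧ ‖g‖ ≤ 1 ∧ ‖c‖ ≤ r ∧
    ‖∑ i, c i • x i‖ = 1 ∧ ‖f (∑ i, c i • x i)‖ = 1 ∧ (∀ i, f (x i) = g (x i)) ∧
    1 / r ≤ ‖f y - g y‖}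

variable (𝕜 E) in
abbrev Bl : Set (WeakDual 𝕜 E) := WeakDual.toStrongDual ⁻¹' closedBall (0 : StrongDual 𝕜 E) 1

lemma norm_le (f : Bl 𝕜 E) : ‖WeakDual.toStrongDual f.1‖ ≤ 1 :=
  mem_closedBall_zero_iff.1 f.2

lemma cont_ev : Continuous fun q : E × Bl 𝕜 E => q.2.1 q.1 := by
  refine continuous_prod_of_continuous_lipschitzWith _ 1 (fun a => ?_) (fun b => ?_)
  · exact (WeakDual.eval_continuous a).comp continuous_subtype_val
  · exact (WeakDual.toStrongDual b.1).lipschitz.weaken (norm_le b)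

lemma bad_closed (y : E) (r : ℝ) : IsClosed (Bad 𝕜 n y r) := by
  have : CompactSpace (Bl 𝕜 E) :=
    isCompact_iff_compactSpace.1 (WeakDual.isCompact_closedBall (0 : StrongDual 𝕜 E) 1)
  have : CompactSpace (closedBall (0 : Fin n → 𝕜) r) :=
    isCompact_iff_compactSpace.1 (isCompact_closedBall _ _)
  let K := Bl 𝕜 E × Bl 𝕜 E × closedBall (0 : Fin n → 𝕜) r
  let v : (Fin n → E) × K → E := fun q => ∑ i, q.2.2.2.1 i • q.1 i
  have hv : Continuous v := by
    refine continuous_finsetSum _ fun i _ => Continuous.smul ?_ ?_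
    · exact (continuous_apply i).comp (continuous_subtype_val.comp
        (continuous_snd.comp (continuous_snd.comp continuous_snd)))
    · exact (continuous_apply i).comp continuous_fst
  have hf : Continuous fun q : (Fin n → E) × K => q.2.1 := continuous_fst.comp continuous_snd
  have hg : Continuous fun q : (Fin n → E) × K => q.2.2.1 :=
    continuous_fst.comp (continuous_snd.comp continuous_snd)
  have hx : ∀ i, Continuous fun q : (Fin n → E) × K => q.1 i := fun i =>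
    (continuous_apply i).comp continuous_fst
  have c1 : IsClosed {q : (Fin n → E) × K | ‖v q‖ = 1} := isClosed_eq hv.norm continuous_const
  have c2 : IsClosed {q : (Fin n → E) × K | ‖q.2.1.1 (v q)‖ = 1} :=
    isClosed_eq (cont_ev.comp (hv.prodMk hf)).norm continuous_const
  have c3 : IsClosed (⋂ i, {q : (Fin n → E) × K | q.2.1.1 (q.1 i) = q.2.2.1.1 (q.1 i)}) :=
    isClosed_iInter fun i => isClosed_eq (cont_ev.comp ((hx i).prodMk hf))
      (cont_ev.comp ((hx i).prodMk hg))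
  have c4 : IsClosed {q : (Fin n → E) × K | 1 / r ≤ ‖q.2.1.1 y - q.2.2.1.1 y‖} :=
    isClosed_le continuous_const ((cont_ev.comp (continuous_const.prodMk hf)).sub
      (cont_ev.comp (continuous_const.prodMk hg))).norm
  have h := isClosedMap_fst_of_compactSpace _ (c1.inter (c2.inter (c3.inter c4)))
  convert h using 1
  ext x
  constructor
  · rintro ⟨f, g, c, h1, h2, h3, h4, h5, h6, h7⟩
    exact ⟨(x, ⟨StrongDual.toWeakDual f, by simpa using h1⟩, ⟨StrongDual.toWeakDual g,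
      by simpa using h2⟩, ⟨c, by simpa using h3⟩), ⟨h4, h5, mem_iInter.2 h6, h7⟩, rfl⟩
  · rintro ⟨⟨x, f, g, c⟩, ⟨h4, h5, h6, h7⟩, rfl⟩
    exact ⟨WeakDual.toStrongDual f.1, WeakDual.toStrongDual g.1, c.1, norm_le f, norm_le g,
      mem_closedBall_zero_iff.1 c.2, h4, h5, mem_iInter.1 h6, h7⟩

lemma not_bad {y : E} {r : ℝ} (hr : 0 < r) {H : Submodule 𝕜 E} (hy : y ∈ H) {x : Fin n → E}
    (hx : ∀ i, x i ∈ H) (hH : H ≤ Submodule.span 𝕜 (insert y (range x)))
    (w : StrongDual 𝕜 H) (hw : ∀ t : 𝕜, t ≠ 0 → t • w ∉ D0 (StrongDual 𝕜 H))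
    (hwy : w ⟨y, hy⟩ ≠ 0) (hwx : ∀ i, w ⟨x i, hx i⟩ = 0) : x ∉ Bad 𝕜 n y r := by
  rintro ⟨f, g, c, h1, h2, -, h4, h5, h6, h7⟩
  have hne : f y - g y ≠ 0 := norm_pos_iff.1 (lt_of_lt_of_le (by positivity) h7)
  set F : StrongDual 𝕜 H := f.comp H.subtypeL with hF
  set G : StrongDual 𝕜 H := g.comp H.subtypeL with hG
  have hFn : ‖F‖ ≤ 1 := F.opNorm_le_bound zero_le_one fun v =>
    (f.le_opNorm v).trans (mul_le_mul_of_nonneg_right h1 (norm_nonneg _))
  have hGn : ‖G‖ ≤ 1 := G.opNorm_le_bound zero_le_one fun v =>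
    (g.le_opNorm v).trans (mul_le_mul_of_nonneg_right h2 (norm_nonneg _))
  have key : ((f y - g y) / (2 * w ⟨y, hy⟩)) • w = (1 / 2 : 𝕜) • (F - G) := by
    ext ⟨v, hv⟩
    have h : ∀ u ∈ Submodule.span 𝕜 (insert y (range x)), ∃ hu : u ∈ H,
        (((f y - g y) / (2 * w ⟨y, hy⟩)) • w) ⟨u, hu⟩ = ((1 / 2 : 𝕜) • (F - G)) ⟨u, hu⟩ := by
      intro u hu
      induction hu using Submodule.span_induction with
      | mem u hu =>
        rcases hu with rfl | ⟨i, rfl⟩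
        · refine ⟨hy, ?_⟩
          simp only [hF, hG, smul_apply, smul_eq_mul,
            sub_apply, ContinuousLinearMap.comp_apply,
            Submodule.subtypeL_apply]
          field_simp
        · refine ⟨hx i, ?_⟩
          simp [hF, hG, hwx i, h6 i]
      | zero => exact ⟨H.zero_mem, by
          have : (⟨0, H.zero_mem⟩ : H) = 0 := rfl
          rw [this, map_zero, map_zero]⟩
      | add a b _ _ ha hb =>
        obtain ⟨ha, ha'⟩ := ha
        obtain ⟨hb, hb'⟩ := hb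
        refine ⟨H.add_mem ha hb, ?_⟩
        have : (⟨a + b, H.add_mem ha hb⟩ : H) = ⟨a, ha⟩ + ⟨b, hb⟩ := rfl
        rw [this, map_add, map_add, ha', hb']
      | smul t a _ ha =>
        obtain ⟨ha, ha'⟩ := ha
        refine ⟨H.smul_mem t ha, ?_⟩
        have : (⟨t • a, H.smul_mem t ha⟩ : H) = t • ⟨a, ha⟩ := rfl
        rw [this, map_smul, map_smul, ha']
    exact (h v (hH hv)).2
  have hvH : ∑ i, c i • x i ∈ H := H.sum_mem fun i _ => H.smul_mem _ (hx i)
  have hfg : g (∑ i, c i • x i) = f (∑ i, c i • x i) := by simp [h6]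
  refine hw ((f y - g y) / (2 * w ⟨y, hy⟩)) (div_ne_zero hne (mul_ne_zero two_ne_zero hwy))
    ⟨(1 / 2 : 𝕜) • (F + G), le_antisymm ?_ ?_, ?_, ?_⟩
  · rw [norm_smul]
    have := norm_add_le F G
    norm_num
    linarith
  · have := ((1 / 2 : 𝕜) • (F + G)).le_opNorm ⟨_, hvH⟩
    have e : ((1 / 2 : 𝕜) • (F + G)) ⟨_, hvH⟩ = f (∑ i, c i • x i) := by
      simp only [hF, hG, smul_apply, smul_eq_mul,
        add_apply, ContinuousLinearMap.comp_apply, Submodule.subtypeL_apply,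
        hfg]
      ring
    rw [e, h5] at this
    simpa [h4] using this
  · have e : (1 / 2 : 𝕜) • (F + G) + (1 / 2 : 𝕜) • (F - G) = F := by module
    rw [key, e]; exact hFn
  · have e : (1 / 2 : 𝕜) • (F + G) - (1 / 2 : 𝕜) • (F - G) = G := by module
    rw [key, e]; exact hGn

lemma dense_compl (y : E) {r : ℝ} (hr : 0 < r) : Dense (Bad 𝕜 n y r)ᶜ := by
  intro x0
  by_cases hy0 : y ∈ Submodule.span 𝕜 (range x0)
  · apply subset_closure
    rintro ⟨f, g, c, -, -, -, -, -, h6, h7⟩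
    have : f y = g y := by
      refine LinearMap.eqOn_span' (f := (f : E →ₗ[𝕜] 𝕜)) (g := (g : E →ₗ[𝕜] 𝕜)) ?_ hy0
      rintro _ ⟨i, rfl⟩
      exact h6 i
    rw [this, sub_self, norm_zero] at h7
    exact absurd h7 (not_le.2 (by positivity))
  obtain ⟨φ, hφ1, hφ2⟩ := Submodule.exists_dual_map_eq_bot_of_notMem hy0 inferInstance
  set H := Submodule.span 𝕜 (insert y (range x0)) with hH
  have : FiniteDimensional 𝕜 H :=
    FiniteDimensional.span_of_finite 𝕜 ((finite_range x0).insert y)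
  have hy : y ∈ H := Submodule.subset_span (mem_insert _ _)
  have hx : ∀ i, x0 i ∈ H := fun i => Submodule.subset_span (mem_insert_of_mem _ ⟨i, rfl⟩)
  let w0 : StrongDual 𝕜 H := LinearMap.toContinuousLinearMap (φ.comp H.subtype)
  have hw0y : w0 ⟨y, hy⟩ ≠ 0 := hφ1
  have hw0x : ∀ i, w0 ⟨x0 i, hx i⟩ = 0 := fun i => by
    have : φ (x0 i) ∈ (Submodule.span 𝕜 (range x0)).map φ :=
      Submodule.mem_map_of_mem (Submodule.subset_span ⟨i, rfl⟩)
    rw [hφ2] at this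
    exact this
  let Φ : StrongDual 𝕜 H → Fin n → E := fun w i => x0 i - (w ⟨x0 i, hx i⟩ / w ⟨y, hy⟩) • y
  have hΦ0 : Φ w0 = x0 := by
    ext i
    simp [Φ, hw0x]
  have hev : ∀ v : H, Continuous fun w : StrongDual 𝕜 H => w v := fun v => by fun_prop
  have hΦ : ContinuousAt Φ w0 := by
    refine continuousAt_pi.2 fun i => continuousAt_const.sub (ContinuousAt.smul ?_
      continuousAt_const)
    exact (hev _).continuousAt.div (hev _).continuousAt hw0y
  have hO : IsOpen {w : StrongDual 𝕜 H | w ⟨y, hy⟩ ≠ 0} := isOpen_ne_fun (hev _) continuous_const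
  have hmem := (dense_good' (𝕜 := 𝕜) (W := StrongDual 𝕜 H)).open_subset_closure_inter hO hw0y
  rw [← hΦ0]
  refine hΦ.continuousWithinAt.mem_closure hmem ?_
  rintro w ⟨hwy, hw⟩
  have hΦH : ∀ i, Φ w i ∈ H := fun i => H.sub_mem (hx i) (H.smul_mem _ hy)
  refine not_bad hr hy hΦH ?_ w hw hwy fun i => ?_
  · rw [hH, Submodule.span_le]
    rintro _ (rfl | ⟨i, rfl⟩)
    · exact Submodule.subset_span (mem_insert _ _)
    · have : x0 i = Φ w i + (w ⟨x0 i, hx i⟩ / w ⟨y, hy⟩) • y := by simp [Φ]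
      rw [this]
      exact Submodule.add_mem _ (Submodule.subset_span (mem_insert_of_mem _ ⟨i, rfl⟩))
        (Submodule.smul_mem _ _ (Submodule.subset_span (mem_insert _ _)))
  · have : (⟨Φ w i, hΦH i⟩ : H) = ⟨x0 i, hx i⟩ - (w ⟨x0 i, hx i⟩ / w ⟨y, hy⟩) • ⟨y, hy⟩ := rfl
    rw [this, map_sub, map_smul, smul_eq_mul, div_mul_cancel₀ _ hwy, sub_self]

lemma exists_good [TopologicalSpace.SeparableSpace E] [CompleteSpace E]
    (hn : (n : Cardinal) ≤ Module.rank 𝕜 E) :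
    ∃ (x : Fin n → E) (y : ℕ → E), LinearIndependent 𝕜 x ∧ DenseRange y ∧
      ∀ j k : ℕ, x ∉ Bad 𝕜 n (y j) ((k : ℝ) + 1) := by
  obtain ⟨y, hy⟩ := TopologicalSpace.exists_dense_seq E
  have h := dense_iInter_of_isOpen (f := fun q : ℕ × ℕ => (Bad 𝕜 n (y q.1) ((q.2 : ℝ) + 1))ᶜ)
    (fun q => (bad_closed _ _).isOpen_compl) (fun q => dense_compl _ (by positivity))
  obtain ⟨x, hx1, hx2⟩ := h.inter_open_nonempty _ (isOpen_setOfPred_linearIndependent (𝕜 := 𝕜))
    (exists_linearIndependent_of_le_rank hn)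
  exact ⟨x, y, hx1, hy, fun j k => mem_iInter.1 hx2 (j, k)⟩

def ev (x : Fin n → E) : StrongDual 𝕜 E →ₗ[𝕜] (Fin n → 𝕜) where
  toFun f i := f (x i)
  map_add' _ _ := rfl
  map_smul' _ _ := rfl

lemma mem_ker {x : Fin n → E} {f : StrongDual 𝕜 E} :
    f ∈ LinearMap.ker (ev x) ↔ ∀ i, f (x i) = 0 := by
  rw [LinearMap.mem_ker, funext_iff]; rfl

lemma ev_surj {x : Fin n → E} (hx : LinearIndependent 𝕜 x) :
    Function.Surjective (ev (𝕜 := 𝕜) x) := by
  intro a
  have : FiniteDimensional 𝕜 (Submodule.span 𝕜 (range x)) :=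
    FiniteDimensional.span_of_finite 𝕜 (finite_range x)
  obtain ⟨g, hg, -⟩ := exists_extension_norm_eq (Submodule.span 𝕜 (range x))
    (LinearMap.toContinuousLinearMap ((Module.Basis.span hx).constr 𝕜 a))
  refine ⟨g, funext fun i => ?_⟩
  have := hg (Module.Basis.span hx i)
  rw [LinearMap.coe_toContinuousLinearMap', Module.Basis.constr_basis,
    Module.Basis.span_apply] at this
  exact this

lemma restrict_eq {x : Fin n → E} {f g : StrongDual 𝕜 E} (h : f - g ∈ LinearMap.ker (ev x))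
    {v : E} (hv : v ∈ Submodule.span 𝕜 (range x)) : f v = g v := by
  refine LinearMap.eqOn_span' (f := (f : E →ₗ[𝕜] 𝕜)) (g := (g : E →ₗ[𝕜] 𝕜)) ?_ hv
  rintro _ ⟨i, rfl⟩
  exact sub_eq_zero.1 (mem_ker.1 h i)

theorem banach [TopologicalSpace.SeparableSpace E] [CompleteSpace E]
    (hn : (n : Cardinal) ≤ Module.rank 𝕜 E) : HasCheb 𝕜 E n := by
  obtain ⟨x, y, hx, hy, hb⟩ := exists_good hn
  set G := Submodule.span 𝕜 (range x) with hG
  have : FiniteDimensional 𝕜 G := FiniteDimensional.span_of_finite 𝕜 (finite_range x)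
  refine ⟨LinearMap.ker (ev x), ?_, ?_, ?_, fun h => ?_⟩
  · have : StrongDual.toWeakDual '' (LinearMap.ker (ev (𝕜 := 𝕜) x) : Set (StrongDual 𝕜 E)) =
        ⋂ i, {f : WeakDual 𝕜 E | f (x i) = 0} := by
      ext f
      simp only [mem_image, SetLike.mem_coe, mem_ker, mem_iInter, mem_ofPred_eq]
      exact ⟨fun ⟨g, hg, e⟩ => e ▸ hg, fun hf => ⟨WeakDual.toStrongDual f, hf, rfl⟩⟩
    rw [this]
    exact isClosed_iInter fun i => isClosed_eq (WeakDual.eval_continuous _) continuous_const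
  · have := (LinearMap.quotKerEquivOfSurjective _ (ev_surj hx)).lift_rank_eq
    simpa using this
  · have : (LinearMap.ker (ev (𝕜 := 𝕜) x) : Set (StrongDual 𝕜 E)) =
        ⋂ i, {f : StrongDual 𝕜 E | f (x i) = 0} := by
      ext f
      simp only [SetLike.mem_coe, mem_ker, mem_iInter, mem_ofPred_eq]
    rw [this]
    exact isClosed_iInter fun i => isClosed_eq (by fun_prop) continuous_const
  set φ : StrongDual 𝕜 G := h.comp G.subtypeL with hφ
  obtain ⟨F, hF1, hF2⟩ := exists_extension_norm_eq G φ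
  have hlow : ∀ g ∈ LinearMap.ker (ev x), ‖φ‖ ≤ ‖h - g‖ := fun g hg =>
    φ.opNorm_le_bound (norm_nonneg _) fun v => by
      have e : h v = (h - g) v := restrict_eq (by simpa using hg) v.2
      have := (h - g).le_opNorm v
      rw [← e] at this
      exact this
  have hFk : h - F ∈ LinearMap.ker (ev x) := mem_ker.2 fun i =>
    sub_eq_zero.2 (hF1 ⟨x i, Submodule.subset_span ⟨i, rfl⟩⟩).symm
  have hd : infDist h (LinearMap.ker (ev (𝕜 := 𝕜) x) : Set (StrongDual 𝕜 E)) = ‖φ‖ := by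
    apply le_antisymm
    · refine (infDist_le_dist_of_mem hFk).trans ?_
      rw [dist_eq_norm, sub_sub_cancel, hF2]
    · refine (le_infDist ⟨0, Submodule.zero_mem _⟩).2 fun g hg => ?_
      rw [dist_eq_norm]
      exact hlow g hg
  rw [hd]
  refine ⟨h - F, ⟨hFk, by rw [sub_sub_cancel, hF2]⟩, ?_⟩
  rintro g ⟨hg1, hg2⟩
  by_contra hne
  have hne' : h - g ≠ F := fun e => hne (by rw [← e, sub_sub_cancel])
  have hφ0 : 0 < ‖φ‖ := by
    refine lt_of_le_of_ne (norm_nonneg _) fun e => hne' ?_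
    rw [norm_eq_zero.1 (hg2.trans e.symm), norm_eq_zero.1 (hF2.trans e.symm)]
  obtain ⟨j, hj⟩ : ∃ j, (h - g) (y j) ≠ F (y j) := by
    by_contra hc
    push Not at hc
    exact hne' (ContinuousLinearMap.ext (congrFun
      (hy.equalizer (h - g).continuous F.continuous (funext hc))))
  have : ProperSpace G := FiniteDimensional.proper_rclike 𝕜 G
  obtain ⟨v, hv1, hv2⟩ : ∃ v : G, ‖v‖ = 1 ∧ ‖φ v‖ = ‖φ‖ := by
    have hnt : Nontrivial G := by
      by_contra hc
      rw [not_nontrivial_iff_subsingleton] at hc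
      have : φ = 0 := Subsingleton.elim _ _
      rw [this, norm_zero] at hφ0
      exact lt_irrefl _ hφ0
    obtain ⟨v, hv, hm⟩ := (isCompact_sphere (0 : G) 1).exists_isMaxOn
      (nonempty_coe_sort.1 (NormedSpace.sphere_nonempty_rclike 𝕜 zero_le_one)) (f := fun v => ‖φ v‖) (by fun_prop)
    rw [mem_sphere_zero_iff_norm] at hv
    refine ⟨v, hv, le_antisymm (by simpa [hv] using φ.le_opNorm v) ?_⟩
    exact ContinuousLinearMap.opNorm_le_of_unit_norm (norm_nonneg _) fun u hu =>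
      hm (mem_sphere_zero_iff_norm.2 hu)
  obtain ⟨c, hc⟩ := (Submodule.mem_span_range_iff_exists_fun 𝕜).1 v.2
  set s : 𝕜 := ((‖φ‖⁻¹ : ℝ) : 𝕜) with hs
  have hsn : ‖s‖ = ‖φ‖⁻¹ := by rw [hs, RCLike.norm_ofReal, abs_of_pos (inv_pos.2 hφ0)]
  have hpos : 0 < ‖(s • F) (y j) - (s • (h - g)) (y j)‖ := by
    rw [smul_apply, smul_apply, ← smul_sub, norm_smul, hsn]
    exact mul_pos (inv_pos.2 hφ0) (norm_pos_iff.2 (sub_ne_zero.2 hj.symm))
  obtain ⟨k1, hk1⟩ := exists_nat_one_div_lt hpos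
  obtain ⟨k2, hk2⟩ := exists_nat_ge ‖c‖
  refine hb j (k1 + k2) ⟨s • F, s • (h - g), c, ?_, ?_, ?_, ?_, ?_, fun i => ?_, ?_⟩
  · rw [norm_smul, hsn, hF2, inv_mul_cancel₀ hφ0.ne']
  · rw [norm_smul, hsn, hg2, inv_mul_cancel₀ hφ0.ne']
  · push_cast
    have : (0 : ℝ) ≤ k1 := by positivity
    linarith
  · rw [hc]; exact hv1
  · rw [hc, smul_apply, norm_smul, hF1 v, hv2, hsn, inv_mul_cancel₀ hφ0.ne']
  · rw [smul_apply, smul_apply, hF1 ⟨x i, Submodule.subset_span ⟨i, rfl⟩⟩, sub_apply,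
      mem_ker.1 hg1 i, sub_zero]
    rfl
  · refine le_trans ?_ hk1.le
    push_cast
    gcongr
    exact le_add_of_nonneg_right (by positivity)

end Pool.Agent.H90.ChebProof
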