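import Mathlib
import Pool.Agent.H87.BU

namespace Pool.Agent.H90.Cor

open Filter Topology Pool.Agent.H87.BU

/-- unit sphere of the sum norm -/
def Sph (r : ℕ) : Type := {x : Fin (r + 1) → ℝ // ∑ i, |x i| = 1}

instance (r : ℕ) : MetricSpace (Sph r) := inferInstanceAs (MetricSpace {x : Fin (r + 1) → ℝ // ∑ i, |x i| = 1})

variable {r : ℕ}

lemma cont_val : Continuous fun x : Sph r => x.1 := continuous_subtype_val

lemma norm_le (x : Sph r) : ‖x.1‖ ≤ 1 :=
  norm_S (k := r + 1) ⟨x.2, fun i hi => absurd i.2 (by omega)⟩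

instance : CompactSpace (Sph r) := by
  have hK : IsCompact {x : Fin (r + 1) → ℝ | ∑ i, |x i| = 1} :=
    Metric.isCompact_of_isClosed_isBounded (isClosed_eq (by fun_prop) continuous_const)
      ((Metric.isBounded_closedBall (x := 0) (r := 1)).subset fun x hx => by
        simpa using norm_S (k := r + 1) ⟨hx, fun i hi => absurd i.2 (by omega)⟩)
  exact isCompact_iff_compactSpace.1 hK

instance : SecondCountableTopology (Sph r) :=
  inferInstanceAs (SecondCountableTopology {x : Fin (r + 1) → ℝ // ∑ i, |x i| = 1})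

def Sph.neg (x : Sph r) : Sph r := ⟨-x.1, by simpa using x.2⟩

lemma neg_neg' (x : Sph r) : x.neg.neg = x := Subtype.ext (neg_neg _)

def pole (k : Fin (r + 1)) : Sph r := ⟨Pi.single k 1, by
  rw [Finset.sum_eq_single k] <;> simp +contextual⟩

abbrev X (r : ℕ) := ℕ → Sph r

def ν (m : ℕ) (x : X r) : X r := Function.update x m (x m).neg

lemma ν_ν (m : ℕ) (x : X r) : ν m (ν m x) = x := by simp [ν, neg_neg']

lemma ν_comm (m k : ℕ) (x : X r) : ν m (ν k x) = ν k (ν m x) := by
  by_cases h : m = k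
  · rw [h]
  · simp only [ν]
    rw [Function.update_of_ne h, Function.update_of_ne (Ne.symm h), Function.update_comm h]

open Classical in
noncomputable def H1 (k : Fin (r + 1)) (t : ℝ) (x : Sph r) : Sph r :=
  if h : x.1 k = 0 ∧ 0 ≤ t ∧ t ≤ 1 then ⟨H k t x.1, by
    have : ∀ i, |H k t x.1 i| = (1 - t) * |x.1 i| + t * (Pi.single k (1 : ℝ) : Fin (r + 1) → ℝ) i := by
      intro i
      by_cases hi : i = k
      · subst hi; simp [H, h.1, abs_of_nonneg h.2.1]
      · simp [H, hi, abs_mul, abs_of_nonneg (sub_nonneg.2 h.2.2)]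
    simp only [this, Finset.sum_add_distrib, ← Finset.mul_sum, x.2]
    simp⟩ else x

lemma H1_val (k : Fin (r + 1)) {t : ℝ} (h0 : 0 ≤ t) (h1 : t ≤ 1) {x : Sph r} (hx : x.1 k = 0) :
    (H1 k t x).1 = H k t x.1 := by
  rw [H1, dif_pos ⟨hx, h0, h1⟩]

noncomputable def HH (m : ℕ) (k : Fin (r + 1)) (t : ℝ) (x : X r) : X r :=
  Function.update x m (H1 k t (x m))

lemma HH_comm {m m' : ℕ} (h : m' ≠ m) (k : Fin (r + 1)) (t : ℝ) (x : X r) :
    HH m k t (ν m' x) = ν m' (HH m k t x) := by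
  simp only [ν, HH]
  rw [Function.update_of_ne h, Function.update_of_ne (Ne.symm h), Function.update_comm h]

noncomputable def T (m : ℕ) : C (X r) →ₗ[F] C (X r) := LinearMap.id + mp (ν m)

lemma T_apply (m : ℕ) (c : C (X r)) : T m c = c + mp (ν m) c := rfl

lemma T_T (m : ℕ) (c : C (X r)) : T m (T m c) = 0 := by
  rw [T_apply, T_apply, map_add, mp_mp]
  have : (ν m ∘ ν m : X r → X r) = id := funext (ν_ν m)
  rw [this, mp_id, add_comm (mp _ c), add_self]

lemma T_comm (m k : ℕ) (c : C (X r)) : T m (T k c) = T k (T m c) := by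
  simp only [T_apply, map_add, mp_mp]
  have : (ν m ∘ ν k : X r → X r) = ν k ∘ ν m := funext (ν_comm m k)
  rw [this]; abel

lemma D_T (m : ℕ) (c : C (X r)) : D (T m c) = T m (D c) := by
  simp only [T_apply, map_add, D_mp]

noncomputable def JJ (J : Set ℕ) : Submodule F (C (X r)) := Submodule.span F {c | ∃ k ∈ J, ∃ g, c = T k g}

lemma JJ_ind {M : Type} [AddCommGroup M] [Module F M] {J : Set ℕ} (L : C (X r) →ₗ[F] M)
    (N : Submodule F M) (h : ∀ k ∈ J, ∀ g, L (T k g) ∈ N) {c : C (X r)} (hc : c ∈ JJ J) :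
    L c ∈ N := by
  have : JJ J ≤ N.comap L := Submodule.span_le.2 (by rintro _ ⟨k, hk, g, rfl⟩; exact h k hk g)
  exact this hc

lemma T_mem {J : Set ℕ} {k : ℕ} (hk : k ∈ J) (g : C (X r)) : T k g ∈ JJ J :=
  Submodule.subset_span ⟨k, hk, g, rfl⟩

lemma pr_map {Y : Type} (f g u : Y → Y) (hf : ∀ x, f (u x) = u (f x)) (hg : ∀ x, g (u x) = u (g x))
    (l : List Y) : pr f g (l.map u) = mp u (pr f g l) := by
  induction l with
  | nil => simp [pr]
  | cons x l ih =>
    rw [List.map_cons, pr, pr, ih, map_add, mp_cons, mp_s, hf]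
    simp only [List.map_cons, List.map_map, hg]
    have : g ∘ u = u ∘ g := funext hg
    rw [this]

lemma P_mp {Y : Type} (f g u : Y → Y) (hf : ∀ x, f (u x) = u (f x)) (hg : ∀ x, g (u x) = u (g x))
    (c : C Y) : P f g (mp u c) = mp u (P f g c) :=
  ext_s (S := (P f g).comp (mp u)) (T := (mp u).comp (P f g))
    (fun l => by simp [P, pr_map f g u hf hg]) c

def Gd (L : List (ℕ × Fin r)) (d : ℝ) (l : List (X r)) : Prop :=
  (∀ x ∈ l, ∀ m j, (m, j) ∉ L → (x m).1 j.succ = 0) ∧ ∀ x ∈ l, ∀ y ∈ l, ∀ m, dist (x m) (y m) ≤ d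

lemma ν_mem {L : List (ℕ × Fin r)} {d : ℝ} (k : ℕ) {c : C (X r)} (h : c ∈ Sp (Gd L d)) :
    mp (ν k) c ∈ Sp (Gd L d) := by
  refine lin_mem _ _ (fun l hl => ?_) h
  rw [mp_s]
  refine s_mem ⟨fun x hx m j hj => ?_, fun x hx y hy m => ?_⟩
  · obtain ⟨x, hx', rfl⟩ := List.mem_map.1 hx
    by_cases e : m = k
    · subst e; simp [ν, Sph.neg, hl.1 x hx' m j hj]
    · simp [ν, e, hl.1 x hx' m j hj]
  · obtain ⟨x, hx', rfl⟩ := List.mem_map.1 hx
    obtain ⟨y, hy', rfl⟩ := List.mem_map.1 hy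
    by_cases e : m = k
    · subst e
      have := hl.2 x hx' y hy' m
      simp only [ν, Function.update_self]
      exact (dist_neg_neg (x m).1 (y m).1).trans_le this
    · simp [ν, e, hl.2 x hx' y hy' m]

lemma T_JJ (J : Set ℕ) (m : ℕ) {c : C (X r)} (hD : c ∈ JJ J) : T m c ∈ JJ (J \ {m}) := by
  refine JJ_ind (T m) _ (fun k hk g => ?_) hD
  by_cases e : k = m
  · rw [e, T_T]; exact Submodule.zero_mem _
  · rw [T_comm]; exact T_mem (J := J \ {m}) ⟨hk, e⟩ _

lemma fill' (J : Set ℕ) (L : List (ℕ × Fin r)) (m : ℕ) (j : Fin r) (hj : (m, j) ∉ L) (d : ℝ)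
    (N : ℕ) (hN : 0 < N) (h : C (X r)) (hh : h ∈ Sp (Gd L d)) (hD : T m (D h) ∈ JJ (J \ {m})) :
    ∃ h' ∈ Sp (Gd ((m, j) :: L) (d + 2 / N)), D h' + T m h ∈ JJ (J \ {m}) := by
  set z := T m h with hz
  have hzm : z ∈ Sp (Gd L d) := Submodule.add_mem _ hh (ν_mem m hh)
  have hNp : (0 : ℝ) < N := by exact_mod_cast hN
  have hDz : D z ∈ JJ (J \ {m}) := by
    rw [hz, D_T]; exact hD
  have key : ∀ i : ℕ, i ≤ N → ∃ h' ∈ Sp (Gd ((m, j) :: L) (d + 2 / N)),
      D h' + (z + mp (HH m j.succ (i / N)) z) ∈ JJ (J \ {m}) := by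
    intro i
    induction i with
    | zero =>
      refine fun _ => ⟨0, Submodule.zero_mem _, ?_⟩
      have : HH m j.succ (((0 : ℕ) : ℝ) / N) = (id : X r → X r) := by
        funext x
        have : H1 j.succ (((0 : ℕ) : ℝ) / N) (x m) = x m := by
          unfold H1; split_ifs
          · exact Subtype.ext (by simp [H])
          · rfl
        simp only [HH, this, Function.update_eq_self, id]
      rw [this, mp_id, add_self, map_zero, add_zero]; exact Submodule.zero_mem _
    | succ i ih =>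
      intro hi
      obtain ⟨h', h1, h2⟩ := ih (by omega)
      refine ⟨h' + P (HH m j.succ (i / N)) (HH m j.succ ((i + 1 : ℕ) / N)) z,
        Submodule.add_mem _ h1 ?_, ?_⟩
      · refine lin_mem _ _ (fun l hl => ?_) hzm
        rw [P, lin_s]
        refine Finsupp.supported_mono (fun l' hm => ?_) (pr_mem _ _ l)
        have hj' : ((i : ℝ) + 1) ≤ N := by exact_mod_cast hi
        have hm' : ∀ u ∈ l', ∃ x ∈ l, ∃ t : ℝ, (i : ℝ) / N ≤ t ∧ t ≤ (i + 1) / N ∧
            u = HH m j.succ t x := by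
          intro u hu
          obtain ⟨x, hx, h | h⟩ := hm u hu
          · exact ⟨x, hx, _, le_rfl, by gcongr; linarith, h⟩
          · exact ⟨x, hx, (i + 1) / N, by gcongr; linarith, le_rfl, by simpa using h⟩
        have ht : ∀ t : ℝ, (i : ℝ) / N ≤ t → t ≤ (i + 1) / N → 0 ≤ t ∧ t ≤ 1 := fun t a1 a2 =>
          ⟨le_trans (by positivity) a1, a2.trans ((div_le_one hNp).2 hj')⟩
        refine ⟨fun u hu m' j' hj' => ?_, fun u hu v hv m' => ?_⟩
        · obtain ⟨x, hx, t, a1, a2, rfl⟩ := hm' u hu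
          have h0 := hl.1 x hx m' j' (fun e => hj' (List.mem_cons_of_mem _ e))
          by_cases e : m' = m
          · subst e
            have : j' ≠ j := fun e => hj' (by simp [e])
            simp only [HH, Function.update_self]
            rw [H1_val _ (ht t a1 a2).1 (ht t a1 a2).2 (hl.1 x hx _ j hj)]
            simp [H, h0, this]
          · simp [HH, e, h0]
        · obtain ⟨x, hx, t, a1, a2, rfl⟩ := hm' u hu
          obtain ⟨y, hy, t', a3, a4, rfl⟩ := hm' v hv
          have e2 : (0 : ℝ) ≤ 2 / N := by positivity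
          by_cases e : m' = m
          · subst e
            simp only [HH, Function.update_self]
            show dist (H1 j.succ t (x m')).1 (H1 j.succ t' (y m')).1 ≤ _
            rw [H1_val _ (ht t a1 a2).1 (ht t a1 a2).2 (hl.1 x hx _ j hj),
              H1_val _ (ht t' a3 a4).1 (ht t' a3 a4).2 (hl.1 y hy _ j hj)]
            refine (H_dist _ (ht t a1 a2).1 (ht t a1 a2).2 (norm_le _)).trans ?_
            have : |t - t'| ≤ 1 / N := by
              rw [add_div] at a2 a4
              rw [abs_le]; constructor <;> linarith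
            have e : (2 : ℝ) / N = 2 * (1 / N) := by ring
            have h3 : dist (x m').1 (y m').1 ≤ d := hl.2 x hx y hy m'
            linarith
          · simp only [HH, Function.update_of_ne e]
            linarith [hl.2 x hx y hy m']
      · have h3 : P (HH m j.succ (i / N)) (HH m j.succ ((i + 1 : ℕ) / N)) (D z) ∈ JJ (J \ {m}) := by
          refine JJ_ind _ _ (fun k hk g => ?_) hDz
          rw [T_apply, map_add, P_mp _ _ _ (HH_comm hk.2 _ _) (HH_comm hk.2 _ _)]
          exact T_mem hk _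
        have h4 := Submodule.add_mem _ h2 h3
        rw [map_add, prism']
        have e : D h' + (P (HH m j.succ (i / N)) (HH m j.succ ((i + 1 : ℕ) / N)) (D z) +
            mp (HH m j.succ ((i + 1 : ℕ) / N)) z + mp (HH m j.succ (i / N)) z) +
            (z + mp (HH m j.succ ((i + 1 : ℕ) / N)) z) = D h' + (z + mp (HH m j.succ (i / N)) z) +
            P (HH m j.succ (i / N)) (HH m j.succ ((i + 1 : ℕ) / N)) (D z) := by
          have := add_self (mp (HH m j.succ ((i + 1 : ℕ) / N)) z)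
          refine Eq.trans ?_ (add_zero _)
          rw [← this]; abel
        rw [e]; exact h4
  obtain ⟨h', h1, h2⟩ := key N le_rfl
  refine ⟨h', h1, ?_⟩
  have e : mp (HH m j.succ ((N : ℝ) / N)) z = 0 := by
    refine lin_zero ((mp (HH m j.succ ((N : ℝ) / N))).comp (T m)) (fun l hl => ?_) hh
    rw [LinearMap.comp_apply, T_apply, map_add, mp_mp, mp_s, mp_s]
    have : l.map (HH m j.succ ((N : ℝ) / N) ∘ ν m) = l.map (HH m j.succ ((N : ℝ) / N)) := by
      refine List.map_congr_left fun x hx => ?_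
      have h0 := hl.1 x hx m j hj
      have : H1 j.succ ((N : ℝ) / N) (x m).neg = H1 j.succ ((N : ℝ) / N) (x m) := by
        apply Subtype.ext
        rw [div_self hNp.ne', H1_val _ zero_le_one le_rfl h0,
          H1_val _ zero_le_one le_rfl (by simp [Sph.neg, h0])]
        simp [H]
      simp [HH, ν, this]
    rw [this, add_self]
  rwa [e, add_zero] at h2

lemma b_inv' {Y : Type} (u : Y → Y) (ts : List (Y → F)) (l : List Y)
    (h : ∀ t ∈ ts, ∃ c, ∀ x, t (u x) = t x + c) : b ts (l.map u) = b ts l := by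
  induction ts generalizing l with
  | nil => match l with
    | [] => rfl
    | [_] => rfl
    | _ :: _ :: _ => rfl
  | cons t ts ih => match l with
    | [] => rfl
    | [_] => rfl
    | x :: y :: m =>
      have := ih (y :: m) (fun t ht => h t (List.mem_cons_of_mem _ ht))
      obtain ⟨c, hc⟩ := h t (by simp)
      simp only [List.map_cons] at this ⊢
      rw [b, b, this, hc, hc]
      congr 1
      have := CharTwo.add_self_eq_zero c
      linear_combination this

lemma cup_T (k : ℕ) (t : X r → F) (ts : List (X r → F)) (c : F) (hc : ∀ x, t (ν k x) = t x + c)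
    (h : ∀ t ∈ ts, ∃ c, ∀ x, t (ν k x) = t x + c) (g : C (X r)) :
    lin (cup t (b ts)) (T k g) = c * lin (b ts) g := by
  refine ext_s (S := (lin (cup t (b ts))).comp (T k)) (T := c • lin (b ts)) (fun l => ?_) g
  match l with
  | [] => cases ts <;> simp [cup, b, T_apply]
  | x :: m =>
    have := b_inv' (ν k) ts (x :: m) h
    simp only [List.map_cons] at this
    simp only [LinearMap.comp_apply, T_apply, mp_s, map_add, lin_s, List.map_cons, cup, this, hc,
      LinearMap.smul_apply, smul_eq_mul]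
    have h2 := CharTwo.add_self_eq_zero (t x * b ts (x :: m))
    linear_combination h2

lemma chains' (J : Set ℕ) (t : ℕ × Fin r → X r → F)
    (h1 : ∀ p, p.1 ∈ J → ∀ x, t p (ν p.1 x) = t p x + 1)
    (h2 : ∀ p, p.1 ∈ J → ∀ k ∈ J, k ≠ p.1 → ∀ x, t p (ν k x) = t p x) (N : ℕ) (hN : 0 < N)
    (L : List (ℕ × Fin r)) (hL : L.Nodup) (hJ : ∀ p ∈ L, p.1 ∈ J) :
    ∃ h ∈ Sp (Gd L (L.length * (2 / N))), (∀ m, T m (D h) ∈ JJ (J \ {m})) ∧
      lin (b (L.map t)) h = 1 := by
  induction L with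
  | nil =>
    refine ⟨s [fun _ => pole 0], s_mem ⟨fun x hx m j _ => ?_, fun x hx y hy m => ?_⟩,
      fun m => ?_, ?_⟩
    · rw [List.mem_singleton.1 hx]; simp [pole]
    · simp [List.mem_singleton.1 hx, List.mem_singleton.1 hy]
    · simp [bd, T_apply, add_self]
    · simp [b]
  | cons p L ih =>
    obtain ⟨m, j⟩ := p
    obtain ⟨h, a1, a2, a3⟩ := ih (List.nodup_cons.1 hL).2 fun p hp => hJ p (List.mem_cons_of_mem _ hp)
    have hm : m ∈ J := hJ (m, j) (by simp)
    obtain ⟨h', a4, a5⟩ := fill' J L m j (List.nodup_cons.1 hL).1 _ N hN h a1 (a2 m)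
    have e : D h' = (D h' + T m h) + T m h := by rw [add_assoc, add_self, add_zero]
    refine ⟨h', ?_, fun k => T_JJ J k ?_, ?_⟩
    · have : ((((m, j) :: L).length : ℕ) : ℝ) * (2 / N) = L.length * (2 / N) + 2 / N := by
        simp only [List.length_cons]; push_cast; ring
      rw [this]; exact a4
    · rw [e]
      refine Submodule.add_mem _ ?_ (T_mem hm _)
      exact JJ_ind LinearMap.id _ (fun k hk g => T_mem hk.1 g) a5
    · have hts : ∀ k ∈ J, ∀ t' ∈ L.map t, ∃ c, ∀ x, t' (ν k x) = t' x + c := by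
        intro k hk t' ht'
        obtain ⟨p, hp, rfl⟩ := List.mem_map.1 ht'
        have hp' := hJ p (List.mem_cons_of_mem _ hp)
        by_cases e : k = p.1
        · exact ⟨1, by rw [e]; exact h1 p hp'⟩
        · exact ⟨0, by simpa using h2 p hp' k hk e⟩
      rw [List.map_cons, b_D, e, map_add, cup_T m _ _ 1 (h1 (m, j) hm) (hts m hm), a3]
      have : lin (cup (t (m, j)) (b (L.map t))) (D h' + T m h) ∈ (⊥ : Submodule F F) := by
        refine JJ_ind _ _ (fun k hk g => ?_) a5
        rw [cup_T k _ _ 0 (by simpa using h2 (m, j) hm k hk.1 hk.2) (hts k hk.1)]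
        simp
      rw [(Submodule.mem_bot F).1 this]; simp

/-- Borsuk-Ulam theorem for a countable product of spheres -/
theorem ramos (J : Set ℕ) (f : X r → ℕ → Fin r → ℝ) (hc : ∀ m j, Continuous fun x => f x m j)
    (hodd : ∀ m ∈ J, ∀ x j, f (ν m x) m j = -f x m j)
    (hev : ∀ m ∈ J, ∀ k ∈ J, k ≠ m → ∀ x j, f (ν k x) m j = f x m j) :
    ∃ x, ∀ m ∈ J, ∀ j, f x m j = 0 := by
  classical
  obtain ⟨σ, hσ⟩ := exists_sign (r + 1)
  let t : ℕ × Fin r → X r → F := fun p x =>
    if 0 < f x p.1 p.2 then 1 else if f x p.1 p.2 < 0 then 0 else σ (x p.1).1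
  have h1 : ∀ p, p.1 ∈ J → ∀ x, t p (ν p.1 x) = t p x + 1 := by
    intro p hp x
    have hx : (x p.1).1 ≠ 0 := fun e => by simpa [e] using (x p.1).2
    simp only [t, hodd _ hp, Left.neg_pos_iff, Left.neg_neg_iff]
    rcases lt_trichotomy (f x p.1 p.2) 0 with a | a | a
    · simp [a, a.le, not_lt.2 a.le]
    · simp [a, ν, Sph.neg, hσ _ hx]
    · simp [a, a.le, not_lt.2 a.le]; rfl
  have h2 : ∀ p, p.1 ∈ J → ∀ k ∈ J, k ≠ p.1 → ∀ x, t p (ν k x) = t p x := by
    intro p hp k hk e x
    have : ν k x p.1 = x p.1 := Function.update_of_ne (Ne.symm e) _ _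
    simp only [t, hev _ hp k hk e, this]
  let L : ℕ → List (ℕ × Fin r) := fun n =>
    (((Finset.range n).filter (· ∈ J)) ×ˢ (Finset.univ : Finset (Fin r))).toList
  have key : ∀ n : ℕ, ∃ x : X r, ∀ p ∈ L n, ∃ y z : X r, (∀ m, dist (y m) (x m) ≤ 1 / ((n : ℝ) + 1)) ∧
      (∀ m, dist (z m) (x m) ≤ 1 / ((n : ℝ) + 1)) ∧ f y p.1 p.2 ≤ 0 ∧ 0 ≤ f z p.1 p.2 := by
    intro n
    obtain ⟨h, a1, -, a3⟩ := chains' J t h1 h2 (2 * ((L n).length + 1) * (n + 1)) (by positivity) (L n)
      (Finset.nodup_toList _) (fun p hp => by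
        simp only [L, Finset.mem_toList, Finset.mem_product, Finset.mem_filter] at hp
        exact hp.1.2)
    have hd : ((L n).length : ℝ) * (2 / ((2 * ((L n).length + 1) * (n + 1) : ℕ) : ℝ)) ≤
        1 / ((n : ℝ) + 1) := by
      push_cast
      rw [← mul_div_assoc, div_le_div_iff₀ (by positivity) (by positivity)]
      have : (0 : ℝ) ≤ n := by positivity
      nlinarith
    by_contra hcon
    have h5 := lin_zero (lin (b ((L n).map t))) (fun l hl => ?_) a1
    · rw [a3] at h5; exact absurd h5 (by decide)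
    rw [lin_s]
    match l with
    | [] => cases (L n).map t <;> rfl
    | x :: l =>
      push Not at hcon
      obtain ⟨p, hp, hp'⟩ := hcon x
      refine b_zero _ _ ⟨t p, List.mem_map_of_mem hp, fun u hu v hv => ?_⟩
      have du := fun m => (hl.2 u hu x (by simp) m).trans hd
      have dv := fun m => (hl.2 v hv x (by simp) m).trans hd
      rcases lt_or_ge 0 (f u p.1 p.2) with a | a
      · rcases lt_or_ge 0 (f v p.1 p.2) with c | c
        · simp [t, a, c]
        · exact absurd (hp' v u dv du c) (not_lt.2 a.le)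
      · have c := hp' u v du dv a
        have a' := hp' v u dv du c.le
        simp [t, a', c, not_lt.2 a'.le, not_lt.2 c.le]
  choose x hx using key
  obtain ⟨x₀, hx₀⟩ : ∃ x₀, Tendsto x (hyperfilter ℕ) (𝓝 x₀) :=
    ⟨_, (Ultrafilter.map x (hyperfilter ℕ)).le_nhds_lim⟩
  have hle : (hyperfilter ℕ : Filter ℕ) ≤ atTop := by
    rw [← Nat.cofinite_eq_atTop]; exact hyperfilter_le_cofinite
  refine ⟨x₀, fun m hm j => ?_⟩
  have hx' : ∀ n : ℕ, ∃ y z : X r, (∀ m, dist (y m) (x n m) ≤ 1 / ((n : ℝ) + 1)) ∧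
      (∀ m, dist (z m) (x n m) ≤ 1 / ((n : ℝ) + 1)) ∧ (m < n → f y m j ≤ 0 ∧ 0 ≤ f z m j) := by
    intro n
    by_cases e : m < n
    · obtain ⟨y, z, a, c, d⟩ := hx n (m, j) (by simp [L, e, hm])
      exact ⟨y, z, a, c, fun _ => d⟩
    · exact ⟨x n, x n, fun _ => by simp; positivity, fun _ => by simp; positivity,
        fun a => absurd a e⟩
  choose y z hy hz hyz using hx'
  have lim : ∀ w : ℕ → X r, (∀ n m, dist (w n m) (x n m) ≤ 1 / ((n : ℝ) + 1)) →
      Tendsto w (hyperfilter ℕ) (𝓝 x₀) := by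
    intro w hw
    refine tendsto_pi_nhds.2 fun k => ?_
    refine (tendsto_pi_nhds.1 hx₀ k).congr_dist ?_
    refine squeeze_zero (g := fun n : ℕ => 1 / ((n : ℝ) + 1)) (fun _ => dist_nonneg)
      (fun n => by rw [dist_comm]; exact hw n k) ?_
    exact tendsto_one_div_add_atTop_nhds_zero_nat.mono_left hle
  have ev : ∀ᶠ n in (hyperfilter ℕ : Filter ℕ), m < n := hle (eventually_gt_atTop m)
  refine le_antisymm ?_ ?_
  · exact le_of_tendsto (((hc m j).tendsto _).comp (lim y hy)) (ev.mono fun n hn => (hyz n hn).1)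
  · exact ge_of_tendsto (((hc m j).tendsto _).comp (lim z hz)) (ev.mono fun n hn => (hyz n hn).2)

end Pool.Agent.H90.Cor
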