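import Mathlib
import Pool.Agent.H90.CorA

namespace Pool.Agent.H90.Cor

open Filter Topology InnerProductSpace

noncomputable abbrev HS := lp (fun _ : ℕ => ℂ) 2
def BH : Type := HS →L[ℂ] HS
noncomputable instance : CStarAlgebra BH := inferInstanceAs (CStarAlgebra (HS →L[ℂ] HS))
abbrev Y := X 4
abbrev BB := C(Y, BH)

noncomputable def ev (i : ℕ) : HS := lp.single 2 i 1

lemma inner_ev (i : ℕ) (v : HS) : inner ℂ (ev i) v = v i := by
  rw [ev, lp.inner_single_left]; simp

lemma ev_apply (i j : ℕ) : ev i j = if j = i then 1 else 0 := by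
  rw [ev, lp.single_apply, Pi.single_apply]

lemma norm_ev (i : ℕ) : ‖ev i‖ = 1 := by
  rw [ev, lp.norm_single (by norm_num)]; simp

noncomputable def e' (i j : ℕ) : HS →L[ℂ] HS := rankOne ℂ (ev i) (ev j)
noncomputable def e (i j : ℕ) : BH := e' i j
def op (T : BH) : HS →L[ℂ] HS := T
/-- matrix entry -/
noncomputable def ent (T : BH) (i j : ℕ) : ℂ := op T (ev j) i

lemma norm_e (i j : ℕ) : ‖e i j‖ = 1 := by
  show ‖e' i j‖ = 1
  simp [e', norm_ev]

lemma e_mul_e (i j k l : ℕ) : e i j * e k l = if j = k then e i l else 0 := by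
  show e' i j * e' k l = if j = k then e' i l else 0
  rw [e', e', ContinuousLinearMap.mul_def, rankOne_comp_rankOne, inner_ev, ev_apply]
  split_ifs <;> simp [e']

lemma star_e (i j : ℕ) : star (e i j) = e j i := by
  show star (e' i j) = e' j i
  rw [e', ContinuousLinearMap.star_eq_adjoint, adjoint_rankOne, e']

lemma e_T_e (i j k l : ℕ) (T : BH) : e i j * T * e k l = ent T j k • e i l := by
  show e' i j * op T * e' k l = ent T j k • e' i l
  ext1 v
  simp only [e', mul_apply_eq_comp, rankOne_apply, map_smul, inner_ev, smul_apply, smul_smul, ent]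
  rw [mul_comm]

lemma cont_ent (i j : ℕ) : Continuous fun T : BH => ent T i j := by
  have h : Continuous fun T : HS →L[ℂ] HS => inner ℂ (ev i) (T (ev j)) := by fun_prop
  simp only [inner_ev] at h
  exact h

lemma eq_of_ent (T : BH) (n : ℕ) (h : ∀ m, m ≠ n → ent T m n = 0) :
    T * e n n = ent T n n • e n n := by
  have : op T (ev n) = ent T n n • ev n := by
    ext m
    by_cases hm : m = n
    · subst hm; simp [ent, ev_apply]
    · have := h m hm
      simp only [ent] at this
      simp [this, ev_apply, hm]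
  show op T * e' n n = ent T n n • e' n n
  ext1 v
  simp only [e', mul_apply_eq_comp, rankOne_apply, map_smul, smul_apply, this, smul_smul]
  rw [mul_comm]

noncomputable def PP (N : ℕ) : BH := ∑ i ∈ Finset.range N, e i i

lemma PP_mul_e (N i j : ℕ) : PP N * e i j = if i < N then e i j else 0 := by
  simp only [PP, Finset.sum_mul, e_mul_e]
  rw [Finset.sum_ite_eq']; simp

lemma star_PP (N : ℕ) : star (PP N) = PP N := by simp only [PP, star_sum, star_e]

lemma e_mul_PP (N i j : ℕ) : e i j * PP N = if j < N then e i j else 0 := by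
  simp only [PP, Finset.mul_sum, e_mul_e]
  rw [Finset.sum_ite_eq]; simp

lemma PP_idem (N : ℕ) : PP N * PP N = PP N := by
  nth_rewrite 2 [PP]
  rw [Finset.mul_sum, PP]
  refine Finset.sum_congr rfl fun i hi => ?_
  rw [← PP, PP_mul_e, if_pos (Finset.mem_range.1 hi)]

lemma norm_PP (N : ℕ) : ‖PP N‖ ≤ 1 := by
  have h : ‖PP N‖ * ‖PP N‖ = ‖PP N‖ := by
    rw [← CStarRing.norm_star_mul_self, star_PP, PP_idem]
  nlinarith [norm_nonneg (PP N)]

noncomputable def U (k : ℕ) : BH := 1 - (2 : ℂ) • e k k

def sg (k i : ℕ) : ℝ := if i = k then -1 else 1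

lemma star_U (k : ℕ) : star (U k) = U k := by simp [U, star_e]

lemma U_mul_e (k i j : ℕ) : U k * e i j = (sg k i : ℂ) • e i j := by
  rw [U, sub_mul, one_mul, smul_mul_assoc, e_mul_e, sg]
  by_cases h : i = k
  · subst h; simp; module
  · simp [h, Ne.symm h]

lemma e_mul_U (k i j : ℕ) : e i j * U k = (sg k j : ℂ) • e i j := by
  rw [U, mul_sub, mul_one, mul_smul_comm, e_mul_e, sg]
  by_cases h : j = k
  · subst h; simp; module
  · simp [h]

lemma U_U (k : ℕ) : U k * U k = 1 := by
  nth_rewrite 2 [U]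
  rw [mul_sub, mul_one, mul_smul_comm, U_mul_e, U, sg]; simp

lemma cont_co (k : ℕ) : Continuous fun x : Y => (x k).1 :=
  (cont_val (r := 4)).comp (continuous_apply (A := fun _ => Sph 4) k)

lemma cont_ν (k : ℕ) : Continuous (ν k : Y → Y) :=
  continuous_id.update k (Continuous.subtype_mk (cont_co k).neg _)

noncomputable def cP (N : ℕ) : BB := ContinuousMap.const Y (PP N)

lemma norm_cP (N : ℕ) : ‖cP N‖ ≤ 1 :=
  (ContinuousMap.norm_le _ zero_le_one).2 fun _ => norm_PP N

lemma star_cP (N : ℕ) : star (cP N) = cP N := by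
  ext1 x; simp [cP, star_PP]

/-- the algebra of equivariant compact-operator valued functions -/
noncomputable def AA : NonUnitalStarSubalgebra ℂ BB where
  carrier := {a | (∀ k x, a (ν k x) = U k * a x * U k) ∧
    Tendsto (fun N => a - a * cP N) atTop (𝓝 0) ∧ Tendsto (fun N => a - cP N * a) atTop (𝓝 0)}
  zero_mem' := by simp
  add_mem' := by
    rintro a b ⟨a1, a2, a3⟩ ⟨b1, b2, b3⟩
    refine ⟨fun k x => by simp [a1, b1, mul_add, add_mul], ?_, ?_⟩
    · simpa [add_mul, add_sub_add_comm] using a2.add b2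
    · simpa [mul_add, add_sub_add_comm] using a3.add b3
  mul_mem' := by
    rintro a b ⟨a1, a2, a3⟩ ⟨b1, b2, b3⟩
    refine ⟨fun k x => ?_, ?_, ?_⟩
    · simp only [ContinuousMap.mul_apply, a1, b1]
      calc _ = U k * a x * (U k * U k) * b x * U k := by noncomm_ring
        _ = _ := by rw [U_U]; noncomm_ring
    · simpa [mul_sub, mul_assoc] using b2.const_mul a
    · simpa [sub_mul, mul_assoc] using a3.mul_const b
  smul_mem' := by
    rintro c a ⟨a1, a2, a3⟩
    refine ⟨fun k x => by simp [a1], ?_, ?_⟩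
    · simpa [smul_sub] using a2.const_smul c
    · simpa [smul_sub] using a3.const_smul c
  star_mem' := by
    rintro a ⟨a1, a2, a3⟩
    refine ⟨fun k x => by simp [a1, star_U, mul_assoc], ?_, ?_⟩
    · simpa [star_cP] using a3.star
    · simpa [star_cP] using a2.star

lemma closed_aux (L : ℕ → BB → BB) (hL : ∀ N a b, ‖L N a - L N b‖ ≤ ‖a - b‖) :
    IsClosed {a : BB | Tendsto (fun N => a - L N a) atTop (𝓝 0)} := by
  refine isClosed_of_closure_subset fun a ha => ?_
  show Tendsto _ _ _
  rw [NormedAddGroup.tendsto_nhds_zero]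
  intro ε hε
  obtain ⟨b, hb, hab⟩ := Metric.mem_closure_iff.1 ha (ε / 3) (by positivity)
  filter_upwards [NormedAddGroup.tendsto_nhds_zero.1 hb (ε / 3) (by positivity)] with N hN
  rw [dist_eq_norm] at hab
  have e1 : a - L N a = (a - b) + (b - L N b) - (L N a - L N b) := by abel
  have := hL N a b
  rw [e1]
  refine (norm_sub_le _ _).trans_lt ?_
  have := norm_add_le (a - b) (b - L N b)
  linarith

instance AA_closed : IsClosed (AA : Set BB) := by
  refine IsClosed.inter ?_ (IsClosed.inter (closed_aux (fun N a => a * cP N) fun N a b => ?_)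
    (closed_aux (fun N a => cP N * a) fun N a b => ?_))
  · show IsClosed {a : BB | ∀ k x, a (ν k x) = U k * a x * U k}
    simp only [Set.ofPred_forall]
    refine isClosed_iInter fun k => isClosed_iInter fun x => isClosed_eq ?_ ?_
    · exact continuous_eval_const _
    · exact (continuous_const.mul (continuous_eval_const _)).mul continuous_const
  · rw [← sub_mul]
    exact (norm_mul_le _ _).trans (mul_le_of_le_one_right (norm_nonneg _) (norm_cP N))
  · rw [← mul_sub]
    exact (norm_mul_le _ _).trans (mul_le_of_le_one_left (norm_nonneg _) (norm_cP N))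

noncomputable instance : NonUnitalCStarAlgebra AA := NonUnitalStarSubalgebra.nonUnitalCStarAlgebra AA

/-- a scalar function times a matrix unit -/
noncomputable def fe (f : C(Y, ℂ)) (i j : ℕ) : BB :=
  ⟨fun x => f x • e i j, f.continuous.smul continuous_const⟩

@[simp] lemma fe_apply (f : C(Y, ℂ)) (i j : ℕ) (x : Y) : fe f i j x = f x • e i j := rfl

lemma fe_mem (f : C(Y, ℂ)) (i j : ℕ) (hf : ∀ k x, f (ν k x) = (sg k i : ℂ) * (sg k j : ℂ) * f x) :
    fe f i j ∈ AA := by
  refine ⟨fun k x => ?_, ?_, ?_⟩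
  · simp only [fe_apply, hf, mul_smul_comm, smul_mul_assoc, U_mul_e, e_mul_U, smul_smul]
    congr 1; ring
  · refine tendsto_const_nhds.congr' ?_
    filter_upwards [eventually_gt_atTop j] with N hN
    ext1 x; simp [cP, e_mul_PP, hN]
  · refine tendsto_const_nhds.congr' ?_
    filter_upwards [eventually_gt_atTop i] with N hN
    ext1 x; simp [cP, PP_mul_e, hN]

lemma sg_sq (k i : ℕ) : (sg k i : ℂ) * (sg k i : ℂ) = 1 := by
  unfold sg; split_ifs <;> simp

noncomputable def p (n : ℕ) : AA := ⟨fe 1 n n, fe_mem _ _ _ fun k x => by simp [sg_sq]⟩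

lemma p_apply (n : ℕ) (x : Y) : (p n : BB) x = e n n := by simp [p]

lemma p_idem (n : ℕ) : p n * p n = p n := by
  apply Subtype.ext; ext1 x
  simp [p_apply, e_mul_e]

lemma norm_p (n : ℕ) : ‖p n‖ ≤ 1 :=
  (ContinuousMap.norm_le (p n : BB) zero_le_one).2 fun x => by rw [p_apply, norm_e]

noncomputable def PA (N : ℕ) : AA := ∑ i ∈ Finset.range N, p i

lemma PA_val (N : ℕ) : (PA N : BB) = cP N := by
  ext1 x
  simp [PA, cP, PP, p_apply]

lemma tend_left (a : AA) : Tendsto (fun N => PA N * a) atTop (𝓝 a) := by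
  rw [tendsto_subtype_rng]
  have := a.2.2.2.const_sub (a : BB)
  simpa [PA_val] using this

lemma tend_p (c : AA) : Tendsto (fun n => c * p n) atTop (𝓝 0) := by
  refine squeeze_zero_norm (a := fun n => ‖(c : BB) - c * cP n‖) (fun n => ?_) ?_
  · have : ((c * p n : AA) : BB) = ((c : BB) - c * cP n) * p n := by
      ext1 x
      simp [p_apply, sub_mul, mul_assoc, cP, PP_mul_e]
    show ‖((c * p n : AA) : BB)‖ ≤ _
    rw [this]
    exact (norm_mul_le _ _).trans (mul_le_of_le_one_right (norm_nonneg _) (norm_p n))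
  · simpa using c.2.2.1.norm

end Pool.Agent.H90.Cor
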