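import Mathlib

namespace Pool.Agent.H90.Cor

open scoped MultiplierAlgebra

/-- `A ≠ 0` and no quotient of `A` by a proper closed two-sided ideal has a unit -/
def NoUnitalQuot (A : Type) [NonUnitalCStarAlgebra A] : Prop :=
  Nontrivial A ∧ ∀ I : TwoSidedIdeal A, IsClosed (I : Set A) → I ≠ ⊤ →
    ¬ ∃ u : A, ∀ a : A, u * a - a ∈ I ∧ a * u - a ∈ I

/-- closure of an increasing sequence of finite-dimensional star-subalgebras -/
def IsAF (A : Type) [NonUnitalCStarAlgebra A] : Prop :=
  ∃ B : ℕ → NonUnitalStarSubalgebra ℂ A, Monotone B ∧ (∀ n, FiniteDimensional ℂ (B n)) ∧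
    Dense (⋃ n, (B n : Set A))

/-- the copy of `A` in its multiplier algebra (double centralizers), as a two-sided ideal -/
noncomputable def cid (A : Type) [NonUnitalCStarAlgebra A] : TwoSidedIdeal 𝓜(ℂ, A) :=
  TwoSidedIdeal.span (Set.range (DoubleCentralizer.coe ℂ : A → 𝓜(ℂ, A)))

/-- the corona algebra `M(A)/A` -/
abbrev Corona (A : Type) [NonUnitalCStarAlgebra A] : Type := (cid A).ringCon.Quotient

/-- the quotient map `M(A) → M(A)/A` -/
noncomputable def cmk (A : Type) [NonUnitalCStarAlgebra A] : 𝓜(ℂ, A) →+* Corona A :=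
  (cid A).ringCon.mk'

/-- an injective map into the corona that respects the involution and the complex scalars -/
def IsEmb (A D : Type) [NonUnitalCStarAlgebra A] [NonUnitalCStarAlgebra D] (φ : D → Corona A) :
    Prop :=
  Function.Injective φ ∧ (∀ d m, φ d = cmk A m → φ (star d) = cmk A (star m)) ∧
    ∀ (c : ℂ) d m, φ d = cmk A m → φ (c • d) = cmk A (c • m)

/-- the universal AF embedding property -/
def UnivAF (A : Type) [NonUnitalCStarAlgebra A] : Prop :=
  (∀ (D : Type) [NonUnitalCStarAlgebra D], IsAF D → Nontrivial D →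
    ∃ φ : D →ₙ+* Corona A, IsEmb A D φ) ∧
  ∀ (D : Type) [CStarAlgebra D], IsAF D → Nontrivial D → ∃ φ : D →+* Corona A, IsEmb A D φ

end Pool.Agent.H90.Cor
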