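import Mathlib
import Pool.Agent.H90.CorB
import Pool.Agent.H90.CorDefs

namespace Pool.Agent.H90.Cor

open Filter Topology
open scoped MultiplierAlgebra

section gen
variable {A : Type} [NonUnitalCStarAlgebra A]

lemma fst_mul (m : 𝓜(ℂ, A)) (x y : A) : m.fst (x * y) = m.fst x * y := by
  have h : ∀ z, z * (m.fst (x * y) - m.fst x * y) = 0 := fun z => by
    rw [mul_sub, ← m.central, ← mul_assoc, ← mul_assoc, ← m.central, sub_self]
  rw [← sub_eq_zero, ← CStarRing.star_mul_self_eq_zero_iff]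
  exact h _

lemma mem_cid {m : 𝓜(ℂ, A)} (h : m ∈ cid A) : ∃ c : A, ∀ y, m.fst y = c * y := by
  let I : TwoSidedIdeal 𝓜(ℂ, A) := TwoSidedIdeal.mk' {m | ∃ c : A, ∀ y, m.fst y = c * y}
    ⟨0, fun y => by simp⟩
    (by rintro x y ⟨c, hc⟩ ⟨d, hd⟩; exact ⟨c + d, fun z => by simp [hc, hd, add_mul]⟩)
    (by rintro x ⟨c, hc⟩; exact ⟨-c, fun z => by simp [hc]⟩)
    (by rintro x y ⟨c, hc⟩; exact ⟨x.fst c, fun z => by simp [hc, fst_mul]⟩)
    (by rintro x y ⟨c, hc⟩; exact ⟨y.snd c, fun z => by simp [hc, y.central]⟩)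
  have : cid A ≤ I := TwoSidedIdeal.span_le.2 (by
    rintro _ ⟨c, rfl⟩
    exact (TwoSidedIdeal.mem_mk' _ _ _ _ _ _ _).2 ⟨c, fun y => rfl⟩)
  have h2 := this h
  rw [TwoSidedIdeal.mem_mk'] at h2
  exact h2

end gen

lemma e_ne (i j : ℕ) : e i j ≠ 0 := fun h => by simpa [h] using norm_e i j

lemma ent_U (T : BH) (k i j : ℕ) :
    ent (U k * T * U k) i j = (sg k i : ℂ) * (sg k j : ℂ) * ent T i j := by
  have h1 := e_T_e 0 i j 0 (U k * T * U k)
  have h2 : e 0 i * (U k * T * U k) * e j 0 = (e 0 i * U k) * T * (U k * e j 0) := by noncomm_ring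
  rw [h2, e_mul_U, U_mul_e, smul_mul_assoc, smul_mul_assoc, mul_smul_comm, e_T_e, smul_smul,
    smul_smul] at h1
  exact (smul_left_injective ℂ (e_ne 0 0) h1).symm

lemma loc (m : 𝓜(ℂ, AA)) (r : AA) (x : Y) (h : (r : BB) x = 0) : (m.fst r : BB) x = 0 := by
  have h1 : Tendsto (fun N => ((PA N * m.fst r : AA) : BB) x) atTop (𝓝 ((m.fst r : BB) x)) :=
    ((continuous_eval_const x).comp continuous_subtype_val).continuousAt.tendsto.comp
      (tend_left (m.fst r))
  have h2 : ∀ N, ((PA N * m.fst r : AA) : BB) x = 0 := fun N => by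
    rw [← m.central]; simp [h]
  simp only [h2] at h1
  exact tendsto_nhds_unique h1 tendsto_const_nhds

lemma eig (a b : 𝓜(ℂ, AA)) (n : ℕ) : ∃ (x : Y) (l u : ℂ), (a.fst (p n) : BB) x = l • e n n ∧
    (b.fst (p n) : BB) x = u • e n n := by
  set α : AA := a.fst (p n)
  set β : AA := b.fst (p n)
  have cα : ∀ (γ : AA) m, Continuous fun x => ent ((γ : BB) x) m n := fun γ m =>
    (cont_ent m n).comp (γ : BB).continuous
  have hodd : ∀ (γ : AA) m, m ≠ n → ∀ x, ent ((γ : BB) (ν m x)) m n = -ent ((γ : BB) x) m n := by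
    intro γ m hm x
    rw [γ.2.1, ent_U]; simp [sg, Ne.symm hm]
  have hev : ∀ (γ : AA) m k, k ≠ n → k ≠ m → ∀ x,
      ent ((γ : BB) (ν k x)) m n = ent ((γ : BB) x) m n := by
    intro γ m k hk hm x
    rw [γ.2.1, ent_U]; simp [sg, Ne.symm hm, Ne.symm hk]
  obtain ⟨x, hx⟩ := ramos {m | m ≠ n} (fun x m => ![(ent ((α : BB) x) m n).re,
      (ent ((α : BB) x) m n).im, (ent ((β : BB) x) m n).re, (ent ((β : BB) x) m n).im])
    (fun m j => by
      fin_cases j
      · exact Complex.continuous_re.comp (cα α m)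
      · exact Complex.continuous_im.comp (cα α m)
      · exact Complex.continuous_re.comp (cα β m)
      · exact Complex.continuous_im.comp (cα β m))
    (fun m hm x j => by fin_cases j <;> simp [hodd _ m hm])
    (fun m _ k hk hkm x j => by simp only [hev _ m k hk hkm])
  have key : ∀ c : 𝓜(ℂ, AA), (∀ m, m ≠ n → ent ((c.fst (p n) : BB) x) m n = 0) →
      (c.fst (p n) : BB) x = ent ((c.fst (p n) : BB) x) n n • e n n := by
    intro c hc
    rw [← eq_of_ent _ n hc]
    nth_rewrite 1 [← p_idem n]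
    rw [fst_mul]; simp [p_apply]
  refine ⟨x, _, _, key a fun m hm => ?_, key b fun m hm => ?_⟩
  · exact Complex.ext (hx m hm 0) (hx m hm 1)
  · exact Complex.ext (hx m hm 2) (hx m hm 3)

lemma fst_at (m : 𝓜(ℂ, AA)) (r : AA) (n : ℕ) (x : Y) (l u : ℂ) (hr : (r : BB) x = l • e n n)
    (hm : (m.fst (p n) : BB) x = u • e n n) : (m.fst r : BB) x = (l * u) • e n n := by
  have h := loc m (r - l • p n) x (by simp [hr, p_apply])
  rw [map_sub, map_smul] at h
  simp only [AddSubgroupClass.coe_sub, SetLike.val_smul, ContinuousMap.sub_apply,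
    ContinuousMap.smul_apply, hm, smul_smul] at h
  exact sub_eq_zero.1 h

lemma norm_at (r : AA) (x : Y) (n : ℕ) (l : ℂ) (h : (r : BB) x = l • e n n) : ‖l‖ ≤ ‖r‖ := by
  have := (r : BB).norm_coe_le_norm x
  rwa [h, norm_smul, norm_e, mul_one] at this

theorem no_pair (a b : 𝓜(ℂ, AA)) (h1 : a * a ∈ cid AA) (h2 : a * b + b * a - 1 ∈ cid AA) :
    False := by
  obtain ⟨c, hc⟩ := mem_cid h1
  obtain ⟨d, hd⟩ := mem_cid h2
  choose x l u hl hu using eig a b
  have e1 : ∀ n, ‖l n * l n‖ ≤ ‖c * p n‖ := fun n => by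
    refine norm_at _ (x n) n _ ?_
    rw [← hc]
    exact fst_at a _ n _ _ _ (hl n) (hl n)
  have e2 : ∀ n, ‖u n * l n + l n * u n - 1‖ ≤ ‖d * p n‖ := fun n => by
    refine norm_at _ (x n) n _ ?_
    rw [← hd]
    have t1 := fst_at a _ n _ _ _ (hu n) (hl n)
    have t2 := fst_at b _ n _ _ _ (hl n) (hu n)
    show ((a.fst (b.fst (p n)) + b.fst (a.fst (p n)) - p n : AA) : BB) (x n) = _
    simp only [AddSubgroupClass.coe_sub, AddMemClass.coe_add, ContinuousMap.sub_apply,
      ContinuousMap.add_apply, t1, t2, p_apply, sub_smul, add_smul, one_smul]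
  have e3 : ∀ n, ‖u n‖ ≤ ‖b.fst‖ := fun n =>
    (norm_at _ (x n) n _ (hu n)).trans ((b.fst.le_opNorm _).trans
      (mul_le_of_le_one_right (norm_nonneg _) (norm_p n)))
  have l0 : Tendsto (fun n => ‖l n‖) atTop (𝓝 0) := by
    have h : Tendsto (fun n => ‖l n‖ * ‖l n‖) atTop (𝓝 0) :=
      squeeze_zero (g := fun n => ‖c * p n‖) (fun n => by positivity) (fun n => by rw [← norm_mul]; exact e1 n)
        (by simpa using (tend_p c).norm)
    have := h.sqrt
    simpa [Real.sqrt_mul_self] using this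
  have l1 : Tendsto (fun n => u n * l n + l n * u n) atTop (𝓝 0) := by
    refine squeeze_zero_norm (a := fun n => 2 * ‖b.fst‖ * ‖l n‖) (fun n => ?_)
      (by simpa using l0.const_mul (2 * ‖b.fst‖))
    refine (norm_add_le _ _).trans ?_
    rw [norm_mul, norm_mul]
    nlinarith [e3 n, norm_nonneg (l n)]
  have l2 : Tendsto (fun n => u n * l n + l n * u n - 1) atTop (𝓝 0) :=
    squeeze_zero_norm e2 (by simpa using (tend_p d).norm)
  have := tendsto_nhds_unique (l1.sub_const 1) l2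
  simp at this

theorem no_pair' (a b : Corona AA) (h1 : a * a = 0) (h2 : a * b + b * a = 1) : False := by
  obtain ⟨a, rfl⟩ := (cid AA).ringCon.mk'_surjective a
  obtain ⟨b, rfl⟩ := (cid AA).ringCon.mk'_surjective b
  refine no_pair a b ?_ ?_
  · rw [← map_mul, ← map_zero (cid AA).ringCon.mk'] at h1
    exact (RingCon.eq _).1 h1
  · rw [← map_mul, ← map_mul, ← map_add, ← map_one (cid AA).ringCon.mk'] at h2
    exact ((cid AA).rel_iff _ _).1 ((RingCon.eq _).1 h2)

end Pool.Agent.H90.Cor
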