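import Mathlib
import Pool.Agent.H90.CorC

namespace Pool.Agent.H90.Cor

open Filter Topology TopologicalSpace Polynomial

theorem sep : SeparableSpace AA := by
  refine IsSeparable.separableSpace (s := (AA : Set BB)) ?_
  have h1 : IsSeparable (⋃ q : ℕ × ℕ, Set.range fun f : C(Y, ℂ) => fe f q.1 q.2) := by
    refine IsSeparable.iUnion fun q => isSeparable_range ?_
    refine ContinuousMap.continuous_of_continuous_uncurry _ ?_
    exact (continuous_eval : Continuous fun z : C(Y, ℂ) × Y => z.1 z.2).smul continuous_const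
  refine (h1.span (R := ℂ)).closure.mono fun a ha => ?_
  have t1 : Tendsto (fun N => cP N * a * cP N) atTop (𝓝 a) := by
    have h2 : Tendsto (fun N => cP N * (a - a * cP N)) atTop (𝓝 0) :=
      squeeze_zero_norm (a := fun N => ‖a - a * cP N‖) (fun N => (norm_mul_le _ _).trans
        (mul_le_of_le_one_left (norm_nonneg _) (norm_cP N))) (by simpa using ha.2.1.norm)
    have := (ha.2.2.add h2).const_sub a
    simpa [mul_sub, mul_assoc] using this
  refine mem_closure_of_tendsto t1 (Eventually.of_forall fun N => ?_)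
  have : cP N * a * cP N = ∑ j ∈ Finset.range N, ∑ i ∈ Finset.range N,
      fe ⟨fun x => ent (a x) i j, (cont_ent i j).comp a.continuous⟩ i j := by
    ext1 x
    simp [cP, PP, Finset.sum_mul, Finset.mul_sum, e_T_e]
  rw [this]
  exact Submodule.sum_mem _ fun j _ => Submodule.sum_mem _ fun i _ =>
    Submodule.subset_span (Set.mem_iUnion.2 ⟨(i, j), _, rfl⟩)

noncomputable def Qs (y : Sph 4) : ℝ := ∑ k, y.1 k ^ 2

lemma Qs_ne (y : Sph 4) : Qs y ≠ 0 := fun h => by
  have := (Finset.sum_eq_zero_iff_of_nonneg fun k _ => sq_nonneg (y.1 k)).1 h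
  have h2 := y.2
  simp only [Finset.mem_univ, pow_eq_zero_iff two_ne_zero, true_imp_iff] at this
  simp [this] at h2

noncomputable def σ1 (k : Fin 5) : C(Sph 4, ℝ) := ⟨fun y => y.1 k, (continuous_apply k).comp cont_val⟩
noncomputable def σ2 (k : Fin 5) : C(Sph 4, ℝ) := ⟨fun y => y.1 k / Qs y,
  ((continuous_apply k).comp cont_val).div
    (continuous_finsetSum _ fun k _ => ((continuous_apply k).comp cont_val).pow 2) Qs_ne⟩

lemma σ1_odd (k : Fin 5) (y : Sph 4) : σ1 k y.neg = -σ1 k y := rfl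
lemma σ2_odd (k : Fin 5) (y : Sph 4) : σ2 k y.neg = -σ2 k y := by
  simp [σ2, Sph.neg, Qs, neg_div]
lemma σ_sum (y : Sph 4) : ∑ k, σ1 k y * σ2 k y = 1 := by
  simp only [σ1, σ2, ContinuousMap.coe_mk, ← mul_div_assoc, ← Finset.sum_div, ← sq]
  exact div_self (Qs_ne y)

lemma odd_ν (φ : C(Sph 4, ℝ)) (h : ∀ y, φ y.neg = -φ y) (k m : ℕ) (x : Y) :
    φ (ν k x m) = sg k m * φ (x m) := by
  by_cases e : m = k
  · subst e; simp [ν, sg, h]
  · simp [ν, sg, e]

noncomputable def w (φ ψ : C(Sph 4, ℝ)) (h : ∀ y, φ y.neg = -φ y) (h' : ∀ y, ψ y.neg = -ψ y)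
    (m n : ℕ) : AA :=
  ⟨fe ⟨fun x => ((φ (x m) * ψ (x n) : ℝ) : ℂ), by fun_prop⟩ m n, fe_mem _ _ _ fun k x => by
    simp only [ContinuousMap.coe_mk, odd_ν φ h, odd_ν ψ h']; push_cast; ring⟩

lemma full (m n : ℕ) : p m = ∑ k, ∑ l, w (σ1 k) (σ1 l) (σ1_odd k) (σ1_odd l) m n * p n *
    w (σ2 l) (σ2 k) (σ2_odd l) (σ2_odd k) n m := by
  apply Subtype.ext
  ext1 x
  simp only [AddSubmonoidClass.coe_finsetSum, MulMemClass.coe_mul, ContinuousMap.coe_sum,
    Finset.sum_apply, ContinuousMap.mul_apply, p_apply, w, fe_apply, ContinuousMap.coe_mk,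
    smul_mul_assoc, mul_smul_comm, e_mul_e, if_true, smul_smul, ← Finset.sum_smul]
  have : ∑ k, ∑ l, ((σ2 l (x n) * σ2 k (x m) : ℝ) : ℂ) * ((σ1 k (x m) * σ1 l (x n) : ℝ) : ℂ) =
      ((∑ k, σ1 k (x m) * σ2 k (x m)) * (∑ l, σ1 l (x n) * σ2 l (x n)) : ℝ) := by
    rw [Finset.sum_mul_sum]; push_cast
    exact Finset.sum_congr rfl fun k _ => Finset.sum_congr rfl fun l _ => by ring
  rw [this, σ_sum, σ_sum]; simp

theorem noUnital : NoUnitalQuot AA := by
  refine ⟨⟨p 0, 0, fun h => ?_⟩, fun I hI hne ⟨u, hu⟩ => hne ?_⟩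
  · have := p_apply 0 (fun _ => pole 0)
    rw [h] at this
    exact e_ne 0 0 (by simpa using this.symm)
  obtain ⟨n, hn⟩ := ((NormedAddGroup.tendsto_nhds_zero.1 (tend_p u)) (1 / 2) (by norm_num)).exists
  set v := u * p n with hv
  have h1 : p n - v ∈ I := by simpa using I.neg_mem (hu (p n)).1
  let s : ℕ → AA := fun k => Nat.rec (p n) (fun _ y => y * v) k
  have hs : ∀ k, s k * p n = s k ∧ p n - s k ∈ I ∧ ‖s k‖ ≤ (1 / 2) ^ k := by
    intro k
    induction k with
    | zero => exact ⟨p_idem n, by simp [s], by rw [pow_zero]; exact norm_p n⟩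
    | succ k ih =>
      have e : s (k + 1) = s k * v := rfl
      refine ⟨by rw [e, hv, mul_assoc, mul_assoc, p_idem], ?_, ?_⟩
      · have := I.add_mem ih.2.1 (I.mul_mem_left (s k) _ h1)
        rw [mul_sub, ih.1] at this
        simpa [e] using this
      · rw [e, pow_succ]
        exact (norm_mul_le _ _).trans (mul_le_mul ih.2.2 hn.le (norm_nonneg _) (by positivity))
  have hp : p n ∈ I := by
    have t : Tendsto s atTop (𝓝 0) := squeeze_zero_norm (fun k => (hs k).2.2)
      (tendsto_pow_atTop_nhds_zero_of_lt_one (by norm_num) (by norm_num))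
    exact hI.mem_of_tendsto (by simpa using t.const_sub (p n))
      (Eventually.of_forall fun k => (hs k).2.1)
  have hm : ∀ m, p m ∈ I := fun m => by
    rw [full m n]
    exact sum_mem fun k _ => sum_mem fun l _ => I.mul_mem_right _ _ (I.mul_mem_left _ _ hp)
  refine eq_top_iff.2 fun a _ => ?_
  exact hI.mem_of_tendsto (tend_left a) (Eventually.of_forall fun N =>
    I.mul_mem_right _ _ (sum_mem fun i _ => hm i))

noncomputable def path (t : unitInterval) : Y := fun _ => ⟨![t, 1 - t, 0, 0, 0], by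
  simp [Fin.sum_univ_succ, abs_of_nonneg t.2.1, abs_of_nonneg (sub_nonneg.2 t.2.2)]⟩

lemma cont_path : Continuous path := by
  refine continuous_pi fun _ => Continuous.subtype_mk (continuous_pi fun k => ?_) _
  fin_cases k <;> simp <;> fun_prop

instance : Nontrivial BH := ⟨⟨_, _, e_ne 0 0⟩⟩

theorem notAF : ¬ IsAF AA := by
  rintro ⟨B, -, hB, hd⟩
  let a : AA := w (σ1 0) (σ1 0) (σ1_odd 0) (σ1_odd 0) 0 0
  have ha : ∀ t : unitInterval, ‖(a : BB) (path t)‖ = t * t := fun t => by
    simp [a, w, norm_smul, norm_e, σ1, path]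
  obtain ⟨c, hc, hac⟩ := hd.exists_dist_lt a (show (0 : ℝ) < 1 / 2 by norm_num)
  obtain ⟨n, hn⟩ := Set.mem_iUnion.1 hc
  have hcx : ∀ x, |‖(a : BB) x‖ - ‖(c : BB) x‖| < 1 / 2 := fun x =>
    (abs_norm_sub_norm_le _ _).trans_lt (lt_of_le_of_lt (by
      rw [← dist_eq_norm]; exact ContinuousMap.dist_apply_le_dist x) hac)
  have hb : star c * c ∈ B n := mul_mem (star_mem hn) hn
  set β : BB := ((star c * c : AA) : BB) with hβ
  let W : Submodule ℂ BB := (B n).toNonUnitalSubalgebra.toSubmodule.map AA.toNonUnitalSubalgebra.toSubmodule.subtype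
  have : FiniteDimensional ℂ (B n).toNonUnitalSubalgebra.toSubmodule := hB n
  have hW : ∀ k : ℕ, β ^ (k + 1) ∈ W := by
    intro k
    induction k with
    | zero => exact ⟨_, hb, by simp [hβ]⟩
    | succ k ih =>
      obtain ⟨y, hy, e⟩ := ih
      have hy' : (show AA from y) * (star c * c) ∈ B n :=
        mul_mem (show (show AA from y) ∈ B n from hy) hb
      refine ⟨(show AA from y) * (star c * c), hy', ?_⟩
      rw [pow_succ, ← e]; rfl
  have hW' : ∀ q : ℂ[X], aeval β (q * Polynomial.X) ∈ W := by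
    intro q
    induction q using Polynomial.induction_on' with
    | add p q hp hq => rw [add_mul, map_add]; exact W.add_mem hp hq
    | monomial k z =>
      rw [monomial_mul_X, aeval_monomial, ← Algebra.smul_def]
      exact W.smul_mem _ (hW k)
  let L : ℂ[X] →ₗ[ℂ] W := LinearMap.codRestrict W
    ((aeval β).toLinearMap.comp (LinearMap.mulRight ℂ Polynomial.X)) hW'
  have hL : ¬ Function.Injective L := fun h =>
    Polynomial.not_finite (R := ℂ) (Module.Finite.of_injective L h)
  rw [injective_iff_map_eq_zero] at hL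
  push Not at hL
  obtain ⟨q, hq, hq0⟩ := hL
  have hq1 : aeval β (q * Polynomial.X) = 0 := congrArg Subtype.val hq
  have hq2 : q * Polynomial.X ≠ 0 := mul_ne_zero hq0 X_ne_zero
  have hfin : ∀ x, ‖β x‖ ∈ (fun z : ℂ => ‖z‖) '' ((q * Polynomial.X).roots.toFinset : Set ℂ) := by
    intro x
    have sa : IsSelfAdjoint (β x) := by
      simp [hβ]
    obtain ⟨z, hz, hz'⟩ := spectrum.exists_nnnorm_eq_spectralRadius (β x)
    rw [sa.spectralRadius_eq_nnnorm] at hz'
    refine ⟨z, ?_, congrArg NNReal.toReal (ENNReal.coe_injective hz')⟩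
    let ex : BB →ₐ[ℂ] BH :=
      { toFun := fun f => f x, map_one' := rfl, map_mul' := fun _ _ => rfl, map_zero' := rfl,
        map_add' := fun _ _ => rfl, commutes' := fun _ => rfl }
    have h0 : aeval (β x) (q * Polynomial.X) = 0 := by
      have := aeval_algHom_apply ex β (q * Polynomial.X)
      rw [hq1, map_zero] at this
      exact this
    have := spectrum.subset_polynomial_aeval (β x) (q * Polynomial.X) ⟨z, hz, rfl⟩
    rw [h0, spectrum.zero_eq] at this
    simpa [mem_roots hq2] using this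
  have hn2 : ∀ x, ‖β x‖ = ‖(c : BB) x‖ * ‖(c : BB) x‖ := fun x => by
    simpa [hβ] using CStarRing.norm_star_mul_self (x := (c : BB) x)
  have hlt : ‖β (path 0)‖ < ‖β (path 1)‖ := by
    have h0 := hcx (path 0)
    have h1 := hcx (path 1)
    rw [ha] at h0 h1
    simp only [Set.Icc.coe_zero, Set.Icc.coe_one, mul_zero, mul_one, abs_lt] at h0 h1
    rw [hn2, hn2]
    nlinarith [norm_nonneg ((c : BB) (path 0))]
  have hiv := intermediate_value_univ (0 : unitInterval) 1
    (f := fun t => ‖β (path t)‖) (β.continuous.comp cont_path).norm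
  refine Set.Icc_infinite hlt (((Finset.finite_toSet (q * Polynomial.X).roots.toFinset).image
    fun z : ℂ => ‖z‖).subset (hiv.trans ?_))
  rintro _ ⟨t, rfl⟩
  exact hfin _

end Pool.Agent.H90.Cor
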