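import Mathlib

namespace Pool.Agent.H90.Cs

open Filter Topology Function ContinuousLinearMap Finset
open scoped InnerProductSpace

lemma split {S : Set ℕ} (hS : S.Infinite) : ∃ T : ℕ → Set ℕ, (∀ p, T p ⊆ S) ∧
    (∀ p, (T p).Infinite) ∧ Pairwise (Disjoint on T) := by
  let f := hS.natEmbedding
  have hf : Injective fun n => (f n : ℕ) := Subtype.val_injective.comp f.injective
  refine ⟨fun p => Set.range fun q => f (Nat.pair p q), fun p => ?_,
    fun p => Set.infinite_range_of_injective fun a b h => (Nat.pair_eq_pair.1 (hf h)).2,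
    fun p q h => Set.disjoint_left.2 ?_⟩
  · rintro _ ⟨q, rfl⟩; exact (f _).2
  · rintro _ ⟨a, rfl⟩ ⟨b, hb⟩; exact h (Nat.pair_eq_pair.1 (hf hb)).1.symm

lemma rosen (good : ℕ → Set ℕ → Prop) (N : ℕ) : ∀ S0 : Set ℕ, S0.Infinite →
    (∀ i ∈ S0, ∀ S : ℕ → Set ℕ, Pairwise (Disjoint on S) → (∀ k, S k ⊆ S0 \ {i}) →
      ∃ k < N, good i (S k)) →
    ∃ S ⊆ S0, S.Infinite ∧ ∀ i ∈ S, ∀ B ⊆ S \ {i}, good i B := by
  induction N with
  | zero =>
    intro S0 h0 h
    obtain ⟨i, hi⟩ := h0.nonempty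
    simpa using h i hi (fun _ => ∅) (fun _ _ _ => disjoint_bot_left) (by simp)
  | succ N ih =>
    intro S0 h0 h
    obtain ⟨T, t1, t2, t3⟩ := split h0
    by_contra! hn
    choose k k1 B b1 b2 using fun p => hn (T p) (t1 p) (t2 p)
    have hk : ∀ p q, k q ∈ T p → q = p := fun p q h => by
      by_contra hc
      exact Set.disjoint_left.1 (t3 hc) (k1 q) h
    have h1 : Set.range k ⊆ S0 := by rintro _ ⟨p, rfl⟩; exact t1 p (k1 p)
    obtain ⟨S, s1, s2, s3⟩ := ih (Set.range k)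
      (Set.infinite_range_of_injective fun p q h => hk _ _ (h ▸ k1 q)) (by
      rintro _ ⟨p, rfl⟩ S hS hS'
      have hd : ∀ j, Disjoint (B p) (S j) := fun j => Set.disjoint_left.2 fun x h1 h2 => by
        obtain ⟨⟨q, rfl⟩, h3⟩ := hS' j h2
        exact h3 (congrArg k (hk _ _ (b1 p h1).1))
      obtain ⟨j, j1, j2⟩ := h _ (h1 ⟨p, rfl⟩) (fun j => Nat.casesOn j (B p) S) (by
        rintro (_ | i) (_ | j) hij
        exacts [(hij rfl).elim, hd j, (hd i).symm, hS fun e => hij (congrArg _ e)]) (by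
        rintro (_ | j)
        exacts [(b1 p).trans (Set.sdiff_subset_sdiff_left (t1 p)),
          (hS' j).trans (Set.sdiff_subset_sdiff_left h1)])
      rcases j with _ | j
      exacts [(b2 p j2).elim, ⟨j, by omega, j2⟩])
    obtain ⟨i, i1, B, i2, i3⟩ := hn S (s1.trans h1) s2
    exact i3 (s3 i i1 B i2)

lemma step {good : Set ℕ → Prop} (h : ∀ S : ℕ → Set ℕ, Pairwise (Disjoint on S) → ∃ k, good (S k))
    {S : Set ℕ} (hS : S.Infinite) : ∃ T ⊆ S, T.Infinite ∧ ∀ B ⊆ T, good B := by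
  obtain ⟨T, t1, t2, t3⟩ := split hS
  by_contra! hn
  choose B b1 b2 using fun p => hn (T p) (t1 p) (t2 p)
  obtain ⟨k, hk⟩ := h B fun p q h => (t3 h).mono (b1 p) (b1 q)
  exact b2 k hk

lemma fusion (good : ℕ → Set ℕ → Prop)
    (h : ∀ i (S : Set ℕ), S.Infinite → ∃ T ⊆ S, T.Infinite ∧ ∀ B ⊆ T, good i B) :
    ∃ S : Set ℕ, S.Infinite ∧ ∀ i ∈ S, good i (S ∩ Set.Ioi i) := by
  have : ∀ p : ℕ × {S : Set ℕ // S.Infinite}, ∃ q : ℕ × {S : Set ℕ // S.Infinite},
      p.1 < q.1 ∧ q.1 ∈ p.2.1 ∧ q.2.1 ⊆ p.2.1 ∧ ∀ B ⊆ q.2.1, good q.1 B := fun p => by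
    obtain ⟨i, i1, i2⟩ := p.2.2.exists_gt p.1
    obtain ⟨T, t1, t2, t3⟩ := h i p.2 p.2.2
    exact ⟨(i, ⟨T, t2⟩), i2, i1, t1, t3⟩
  choose g g1 g2 g3 g4 using this
  let u : ℕ → ℕ × {S : Set ℕ // S.Infinite} := fun n => g^[n] (0, ⟨_, Set.infinite_univ⟩)
  have u0 : ∀ n, u (n + 1) = g (u n) := fun n => iterate_succ_apply' _ _ _
  have u1 : StrictMono fun n => (u (n + 1)).1 := strictMono_nat_of_lt_succ fun n => by
    rw [u0 (n + 1)]; exact g1 _
  have u2 : Antitone fun n => (u n).2.1 := antitone_nat_of_succ_le fun n => by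
    rw [u0]; exact g3 _
  refine ⟨_, Set.infinite_range_of_injective u1.injective, ?_⟩
  rintro _ ⟨n, rfl⟩
  have := g4 (u n)
  rw [← u0] at this
  refine this _ ?_
  rintro _ ⟨⟨m, rfl⟩, hm⟩
  refine u2 (u1.lt_iff_lt.1 hm : n + 1 ≤ m) ?_
  show (u (m + 1)).1 ∈ _
  rw [u0]; exact g2 _

lemma signs (c : ℕ → ℕ → ℂ) (N : ℕ) : ∃ σ : ℕ → ℝ, (∀ k, |σ k| ≤ 1) ∧
    (∑ m ∈ range N, c m m).re ≤ (∑ m ∈ range N, ∑ k ∈ range N, σ m * σ k * c m k).re := by
  induction N with
  | zero => exact ⟨0, by simp, by simp⟩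
  | succ N ih =>
    obtain ⟨σ, s1, s2⟩ := ih
    obtain ⟨e, e1, e2⟩ : ∃ e : ℝ, e * e = 1 ∧
        0 ≤ e * (∑ k ∈ range N, (σ k * c k N + σ k * c N k)).re := by
      rcases le_total 0 (∑ k ∈ range N, (σ k * c k N + σ k * c N k)).re with h | h
      exacts [⟨1, by simp, by linarith⟩, ⟨-1, by simp, by linarith⟩]
    refine ⟨update σ N e, fun k => ?_, ?_⟩
    · rcases eq_or_ne k N with rfl | h
      · rw [update_self]; nlinarith [abs_mul_abs_self e, abs_nonneg e]
      · rw [update_of_ne h]; exact s1 k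
    · have hu : ∀ k ∈ range N, update σ N e k = σ k := fun k hk =>
        update_of_ne (mem_range.1 hk).ne _ _
      have : ∑ m ∈ range (N + 1), ∑ k ∈ range (N + 1), (update σ N e m : ℂ) * update σ N e k * c m k
          = ∑ m ∈ range N, ∑ k ∈ range N, σ m * σ k * c m k + c N N
            + e * ∑ k ∈ range N, (σ k * c k N + σ k * c N k) := by
        simp only [sum_range_succ, update_self, sum_add_distrib, ← Complex.ofReal_mul e e, e1]
        rw [sum_congr rfl fun m hm => sum_congr rfl fun k hk => by rw [hu m hm, hu k hk],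
          sum_congr (s₁ := range N) (f := fun k => (update σ N e k : ℂ) * e * c k N)
            (g := fun k => e * (σ k * c k N)) rfl fun m hm => by rw [hu m hm]; ring,
          sum_congr (s₁ := range N) (f := fun k => e * (update σ N e k : ℂ) * c N k)
            (g := fun k => e * (σ k * c N k)) rfl fun m hm => by rw [hu m hm]; ring,
          mul_add, mul_sum, mul_sum]
        push_cast; ring
      rw [this, sum_range_succ]
      simp only [Complex.add_re, Complex.re_ofReal_mul] at *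
      linarith

variable {Z Z' : Type} [NormedAddCommGroup Z] [NormedSpace ℂ Z] [NormedAddCommGroup Z']
  [NormedSpace ℂ Z']

structure VM (m : Set ℕ → Z) (C : ℝ) : Prop where
  add : ∀ S T, Disjoint S T → m (S ∪ T) = m S + m T
  bd : ∀ (s : Finset ℕ) (S : ℕ → Set ℕ) (z : ℕ → ℂ), Pairwise (Disjoint on S) →
    (∀ k, ‖z k‖ ≤ 1) → ‖∑ k ∈ s, z k • m (S k)‖ ≤ C

namespace VM
variable {m : Set ℕ → Z} {C : ℝ} (h : VM m C)
include h

lemma map (L : Z →L[ℂ] Z') {D : ℝ} (hD : 0 ≤ D) (hL : ∀ z, ‖L z‖ ≤ D * ‖z‖) :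
    VM (fun S => L (m S)) (D * C) :=
  ⟨fun S T d => by rw [h.add S T d, map_add], fun s S z h1 h2 => by
    simp only [← map_smul, ← map_sum]
    exact (hL _).trans (mul_le_mul_of_nonneg_left (h.bd s S z h1 h2) hD)⟩

lemma le (S : Set ℕ) : ‖m S‖ ≤ C := by
  simpa using h.bd {0} (fun k => if k = 0 then S else ∅) 1 (fun i j hij => by
    by_cases hi : i = 0
    · simp [onFun, hi, show j ≠ 0 by omega]
    · simp [onFun, hi]) (by simp)

lemma un {B : ℕ → Set ℕ} (hB : Pairwise (Disjoint on B)) : VM (fun S => m (⋃ l ∈ S, B l)) C := by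
  have : ∀ S T : Set ℕ, Disjoint S T → Disjoint (⋃ l ∈ S, B l) (⋃ l ∈ T, B l) := fun S T d => by
    simp only [Set.disjoint_iUnion_left, Set.disjoint_iUnion_right]
    exact fun i hi j hj => hB fun e => Set.disjoint_left.1 d hj (e ▸ hi)
  exact ⟨fun S T d => by rw [Set.biUnion_union, h.add _ _ (this S T d)],
    fun s S z h1 => h.bd s _ z fun i j hij => this _ _ (h1 hij)⟩

lemma fin (T : Finset ℕ) : m T = ∑ u ∈ T, m {u} := by
  induction T using Finset.induction_on with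
  | empty => simpa using h.add ∅ ∅ disjoint_bot_left
  | insert a T ha ih =>
    rw [sum_insert ha, ← ih, coe_insert, Set.insert_eq, h.add _ _ (by simpa using ha)]

lemma one {S : Set ℕ} {i : ℕ} (hi : i ∈ S) : m S = m {i} + m (S \ {i}) := by
  rw [← h.add _ _ Set.disjoint_sdiff_right, Set.union_sdiff_cancel (by simpa using hi)]

end VM

lemma exhH {K : Type} [NormedAddCommGroup K] [InnerProductSpace ℂ K] (C : ℝ) {ε : ℝ}
    (hε : 0 < ε) : ∃ N : ℕ, ∀ m : Set ℕ → K, VM m C → ∀ S : ℕ → Set ℕ,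
    Pairwise (Disjoint on S) → ∃ k < N, ‖m (S k)‖ ≤ ε := by
  obtain ⟨N, hN⟩ := exists_nat_gt (C ^ 2 / ε ^ 2)
  refine ⟨N, fun m h S hS => ?_⟩
  by_contra! hn
  obtain ⟨σ, s1, s2⟩ := signs (fun a b => ⟪m (S a), m (S b)⟫_ℂ) N
  have h1 := h.bd (range N) S (fun k => σ k) hS (by simpa using s1)
  have h2 : ∑ a ∈ range N, ∑ k ∈ range N, σ a * σ k * ⟪m (S a), m (S k)⟫_ℂ =
      (‖∑ k ∈ range N, (σ k : ℂ) • m (S k)‖ ^ 2 : ℝ) := by
    refine Eq.trans ?_ ((inner_self_eq_norm_sq_to_K (𝕜 := ℂ)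
      (∑ k ∈ range N, (σ k : ℂ) • m (S k))).trans (by simp))
    rw [sum_inner]
    simp only [inner_sum, inner_smul_left, inner_smul_right, Complex.conj_ofReal, mul_assoc]
    exact sum_congr rfl fun _ _ => sum_congr rfl fun _ _ => mul_left_comm _ _ _
  rw [h2, Complex.ofReal_re, Complex.re_sum] at s2
  have h3 := card_nsmul_le_sum (range N) (fun a => (⟪m (S a), m (S a)⟫_ℂ).re) (ε ^ 2) fun a ha => by
    refine le_trans ?_ (inner_self_eq_norm_sq (𝕜 := ℂ) _).ge
    exact pow_le_pow_left₀ hε.le (hn a (mem_range.1 ha)).le 2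
  rw [card_range, nsmul_eq_mul] at h3
  rw [div_lt_iff₀ (by positivity)] at hN
  linarith [pow_le_pow_left₀ (norm_nonneg _) h1 2]

variable {E : Type} [CStarAlgebra E]

lemma riesz (a : ℕ → E) (h1 : ∀ k, IsSelfAdjoint (a k)) (h2 : ∀ k, ‖a k‖ ≤ 1) (α : ℝ)
    (φ : ℕ → E →L[ℂ] ℂ) (N : ℕ) : ∀ ψ : E →L[ℂ] ℂ, ∃ (σ : ℕ → ℂ) (y : E), (∀ k, ‖σ k‖ ≤ 1) ∧
    ‖y‖ ^ 2 ≤ (1 + α ^ 2) ^ N ∧ (∑ k ∈ range N, Complex.I * α * φ k (a k) + ψ 1).re ≤
      (∑ k ∈ range N, σ k * φ k y + ψ y).re := by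
  have n1 : ‖(1 : E)‖ ≤ 1 := IsStarProjection.norm_le _ (.one E)
  induction N with
  | zero => exact fun ψ => ⟨0, 1, by simp, by simpa using n1, by simp⟩
  | succ N ih =>
    intro ψ
    obtain ⟨σ, y, s1, s2, s3⟩ := ih (ψ + (Complex.I * α) • φ N ∘L (mul ℂ E).flip (a N))
    have key : ∀ e : ℝ, e * e = 1 → ‖y * (1 + (Complex.I * α * e) • a N)‖ ^ 2 ≤
        (1 + α ^ 2) ^ (N + 1) := fun e he => by
      have e1 : star (1 + (Complex.I * α * e) • a N) * (1 + (Complex.I * α * e) • a N) =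
          1 + (α ^ 2 : ℂ) • (a N * a N) := by
        have : (e : ℂ) * e = 1 := by exact_mod_cast he
        simp only [star_add, star_one, star_smul, (h1 N).star_eq, add_mul, mul_add, one_mul, mul_one,
          smul_mul_assoc, mul_smul_comm, smul_add, smul_smul, star_mul', Complex.star_def,
          Complex.conj_I, Complex.conj_ofReal]
        rw [show (Complex.I * α * e * (-Complex.I * α * e) : ℂ) = α ^ 2 by
          linear_combination (-(α : ℂ) ^ 2 * e * e) * Complex.I_sq + α ^ 2 * this]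
        module
      have e2 : ‖1 + (Complex.I * α * e) • a N‖ ^ 2 ≤ 1 + α ^ 2 := by
        rw [sq, ← CStarRing.norm_star_mul_self, e1]
        refine (norm_add_le _ _).trans (add_le_add n1 ?_)
        rw [norm_smul, norm_pow, Complex.norm_real, Real.norm_eq_abs, sq_abs]
        exact mul_le_of_le_one_right (sq_nonneg _) ((norm_mul_le _ _).trans
          (mul_le_one₀ (h2 N) (norm_nonneg _) (h2 N)))
      rw [pow_succ (1 + α ^ 2)]
      exact (pow_le_pow_left₀ (norm_nonneg _) (norm_mul_le _ _) 2).trans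
        ((mul_pow _ _ _).trans_le (mul_le_mul s2 e2 (by positivity) (by positivity)))
    obtain ⟨e, e1, e2⟩ : ∃ e : ℝ, e * e = 1 ∧ 0 ≤ e * (φ N y + Complex.I * α *
        (∑ k ∈ range N, σ k * φ k (y * a N) + ψ (y * a N))).re := by
      rcases le_total 0 (φ N y + Complex.I * α *
        (∑ k ∈ range N, σ k * φ k (y * a N) + ψ (y * a N))).re with h | h
      exacts [⟨1, by simp, by linarith⟩, ⟨-1, by simp, by linarith⟩]
    refine ⟨update σ N e, _, fun k => ?_, key e e1, ?_⟩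
    · rcases eq_or_ne k N with rfl | h
      · rw [update_self, Complex.norm_real, Real.norm_eq_abs]
        nlinarith [abs_mul_abs_self e, abs_nonneg e]
      · rw [update_of_ne h]; exact s1 k
    · have he : (e : ℂ) * e = 1 := by exact_mod_cast e1
      rw [sum_range_succ, sum_range_succ, update_self, sum_congr (s₁ := range N)
        (f := fun k => update σ N e k * _) rfl fun k hk => by rw [update_of_ne (mem_range.1 hk).ne]]
      simp only [add_apply, smul_apply, ContinuousLinearMap.comp_apply, flip_apply, mul_apply', one_mul, smul_eq_mul,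
        mul_add, mul_one, mul_smul_comm, map_add, map_smul, sum_add_distrib] at s3 ⊢
      rw [← Complex.re_ofReal_mul] at e2
      refine le_trans (le_of_eq (congrArg _ (by ring))) (s3.trans ((le_add_of_nonneg_right e2).trans
        (le_of_eq ?_)))
      rw [← Complex.add_re]
      simp only [mul_left_comm (σ _), ← mul_sum]
      congr 1
      linear_combination (-(Complex.I * α * φ N (y * a N))) * he

lemma exhO (C : ℝ) {ε : ℝ} (hε : 0 < ε) : ∃ N : ℕ, ∀ m : Set ℕ → E →L[ℂ] ℂ, VM m C →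
    ∀ S : ℕ → Set ℕ, Pairwise (Disjoint on S) → ∃ k < N, ‖m (S k)‖ ≤ ε := by
  obtain ⟨M, hM⟩ := exists_nat_gt (4 * |C| / ε)
  have M0 : (0 : ℝ) < M := lt_of_le_of_lt (by positivity) hM
  refine ⟨M * M, fun m h S hS => ?_⟩
  by_contra! hn
  have : ∀ k, ∃ (a : E) (z : ℂ), IsSelfAdjoint a ∧ ‖a‖ ≤ 1 ∧ ‖z‖ = 1 ∧
      (k < M * M → ε / 2 ≤ (z * m (S k) a).re) := fun k => by
    by_cases hk : k < M * M
    · obtain ⟨W, w1, w2⟩ := exists_lt_apply_of_lt_opNorm _ (hn k hk)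
      obtain ⟨a, a1, a2, a3⟩ : ∃ a : E, IsSelfAdjoint a ∧ ‖a‖ ≤ 1 ∧ ε / 2 ≤ ‖m (S k) a‖ := by
        by_contra! hc
        have r1 := hc _ (realPart W).2 ((realPart.norm_le W).trans w1.le)
        have r2 := hc _ (imaginaryPart W).2 ((imaginaryPart.norm_le W).trans w1.le)
        rw [← realPart_add_I_smul_imaginaryPart W, map_add, map_smul] at w2
        have := w2.trans_le (norm_add_le _ _)
        rw [norm_smul, Complex.norm_I] at this
        linarith
      obtain ⟨z, z1, z2⟩ := Complex.exists_norm_eq_mul_self (m (S k) a)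
      exact ⟨a, z, a1, a2, z1, fun _ => by rwa [← z2]⟩
    · exact ⟨0, 1, .zero E, by simp, by simp, fun h => (hk h).elim⟩
  choose a z a1 a2 z1 z2 using this
  obtain ⟨σ, y, s1, s2, s3⟩ := riesz a a1 a2 (M : ℝ)⁻¹ (fun k => (-Complex.I * z k) • m (S k))
    (M * M) 0
  have h1 := h.bd (range (M * M)) S (fun k => σ k * (-Complex.I * z k)) hS fun k => by
    simpa [z1] using s1 k
  have h2 : ‖y‖ ≤ 2 := by
    refine le_of_sq_le_sq (s2.trans ((pow_le_pow_left₀ (by positivity)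
      ((add_comm _ _).trans_le (Real.add_one_le_exp _)) _).trans ?_)) zero_le_two
    rw [← Real.exp_nat_mul, show ((M * M : ℕ) : ℝ) * (M : ℝ)⁻¹ ^ 2 = 1 by push_cast; field_simp]
    linarith [Real.exp_one_lt_d9]
  have h3 := (Complex.re_le_norm _).trans (le_of_opNorm_le_of_le _ h1 h2)
  have h4 := card_nsmul_le_sum (range (M * M)) _ _ fun k hk => z2 k (mem_range.1 hk)
  have h5 : ∀ k, Complex.I * ((M : ℝ)⁻¹ : ℝ) * ((-Complex.I * z k) • m (S k)) (a k) =
      ((M : ℝ)⁻¹ : ℝ) * (z k * m (S k) (a k)) := fun k => by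
    rw [smul_apply, smul_eq_mul]
    linear_combination (-((M : ℝ)⁻¹ : ℝ) * (z k * m (S k) (a k)) : ℂ) * Complex.I_sq
  simp only [h5, ← mul_sum, zero_apply, add_zero, Complex.re_ofReal_mul] at s3
  simp only [_root_.sum_apply, smul_apply, smul_eq_mul, mul_assoc] at h3 s3
  rw [card_range, nsmul_eq_mul, ← Complex.re_sum] at h4
  have h6 := (mul_le_mul_of_nonneg_left h4 (inv_pos.2 M0).le).trans (s3.trans h3)
  rw [div_lt_iff₀ hε] at hM
  rw [show (M : ℝ)⁻¹ * ((M * M : ℕ) * (ε / 2)) = M * ε / 2 by push_cast; field_simp] at h6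
  linarith [le_abs_self C]

/-- average of the first `2 ^ r` terms -/
noncomputable def av {K : Type} [AddCommGroup K] [Module ℂ K] (r : ℕ) (α : ℕ → K) : K :=
  ((2 : ℂ) ^ r)⁻¹ • ∑ i ∈ range (2 ^ r), α i

lemma av_succ {K : Type} [AddCommGroup K] [Module ℂ K] (r : ℕ) (α : ℕ → K) :
    av (r + 1) α = (2 : ℂ)⁻¹ • (av r α + av r fun i => α (2 ^ r + i)) := by
  rw [av, av, av, pow_succ 2 r, pow_succ 2 r, mul_two (2 ^ r : ℕ), sum_range_add, ← smul_add, smul_smul,
    mul_inv, mul_comm]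

lemma av_le {K : Type} [NormedAddCommGroup K] [NormedSpace ℂ K] (r : ℕ) {α : ℕ → K}
    (h : ∀ i, ‖α i‖ ≤ 1) : ‖av r α‖ ≤ 1 := by
  rw [av, norm_smul, norm_inv, norm_pow, Complex.norm_two, inv_mul_le_iff₀ (by positivity)]
  simpa using norm_sum_le_of_le (range (2 ^ r)) fun i _ => h i

lemma av_re (r : ℕ) {α : ℕ → ℂ} {c : ℝ} (h : ∀ i < 2 ^ r, c ≤ (α i).re) : c ≤ (av r α).re := by
  have := card_nsmul_le_sum (range (2 ^ r)) _ _ fun i hi => h i (mem_range.1 hi)
  rw [av, smul_eq_mul, show ((2 : ℂ) ^ r)⁻¹ = ((2 ^ r : ℝ)⁻¹ : ℝ) by simp, Complex.re_ofReal_mul,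
    le_inv_mul_iff₀ (by positivity), Complex.re_sum]
  simpa using this

lemma tri0 (r : ℕ) : ∃ D : (ℕ → ℕ → ℂ) →L[ℂ] ℂ,
    (∀ t : ℕ → ℕ → ℂ, (∀ n < 2 ^ r, ∀ m < n, 3 / 4 ≤ (t n m).re ∧ -1 / 4 ≤ (-t m n).re) →
      r / 2 ≤ (D t).re) ∧
    ∀ (K : Type) [NormedAddCommGroup K] [InnerProductSpace ℂ K] (l : ℝ), 0 < l → ∀ α β : ℕ → K,
      (∀ i, ‖α i‖ ≤ 1) → (∀ i, ‖β i‖ ≤ 1) → (D fun n m => ⟪α n, β m⟫_ℂ).re ≤
        l * (2 - ‖av r α‖ ^ 2 - ‖av r β‖ ^ 2) + 2 * r / l := by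
  induction r with
  | zero =>
    refine ⟨0, by simp, fun K _ _ l hl α β h1 h2 => ?_⟩
    have := pow_le_one₀ (norm_nonneg _) (av_le 0 h1) (n := 2)
    have := pow_le_one₀ (norm_nonneg _) (av_le 0 h2) (n := 2)
    simp only [zero_apply, Complex.zero_re, Nat.cast_zero, mul_zero, zero_div, add_zero]
    exact mul_nonneg hl.le (by linarith)
  | succ r ih =>
    obtain ⟨D, d1, d2⟩ := ih
    let F : (ℕ → ℕ → ℂ) → ℂ := fun t => (2 : ℂ)⁻¹ * (D t + D fun n m => t (2 ^ r + n) (2 ^ r + m)) +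
      (av r (fun n => av r fun m => t (2 ^ r + n) m) + av r fun n => av r fun m => -t n (2 ^ r + m))
    have two : ∀ z : ℂ, ((2 : ℂ)⁻¹ * z).re = z.re / 2 := fun z => by
      rw [show (2 : ℂ)⁻¹ = (2⁻¹ : ℝ) by simp, Complex.re_ofReal_mul]; ring
    refine ⟨⟨⟨⟨F, fun s t => ?_⟩, fun c t => ?_⟩, by simp only [F, av]; fun_prop⟩,
      fun t ht => ?_, fun K _ _ l hl α β h1 h2 => ?_⟩
    · have := D.map_add (fun n m => s (2 ^ r + n) (2 ^ r + m)) fun n m => t (2 ^ r + n) (2 ^ r + m)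
      simp only [F, av, Pi.add_def, neg_add, sum_add_distrib, smul_add] at this ⊢
      rw [this, show D (fun n m => s n m + t n m) = _ from D.map_add s t]
      ring
    · have := D.map_smul c (fun n m => t (2 ^ r + n) (2 ^ r + m))
      simp only [F, av, Pi.smul_def, smul_eq_mul, RingHom.id_apply, ← mul_neg, ← mul_sum,
        mul_left_comm _ c] at this ⊢
      rw [this, show D (fun n m => c * t n m) = _ from D.map_smul c t, smul_eq_mul]
      ring
    · have e := pow_succ 2 r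
      have a1 := d1 t fun n hn m hm => ht n (by omega) m hm
      have a2 := d1 (fun n m => t (2 ^ r + n) (2 ^ r + m)) fun n hn m hm =>
        ht _ (by omega) _ (by omega)
      have a3 := av_re r (α := fun n => av r fun m => t (2 ^ r + n) m) fun n hn =>
        av_re r fun m hm => (ht (2 ^ r + n) (by omega) m (by omega)).1
      have a4 := av_re r (α := fun n => av r fun m => -t n (2 ^ r + m)) fun n hn =>
        av_re r fun m hm => (ht (2 ^ r + m) (by omega) n (by omega)).2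
      show _ ≤ (F t).re
      simp only [F, Complex.add_re, two]
      push_cast
      linarith
    · have a1 := d2 K l hl α β h1 h2
      have a2 := d2 K l hl (fun i => α (2 ^ r + i)) (fun i => β (2 ^ r + i)) (fun _ => h1 _)
        fun _ => h2 _
      have gr : ∀ a b : ℕ → K, (av r fun n => av r fun m => ⟪a n, b m⟫_ℂ) = ⟪av r a, av r b⟫_ℂ :=
        fun a b => by
          simp only [av, inner_smul_left, inner_smul_right, smul_eq_mul, ← mul_sum, ← inner_sum,
            ← sum_inner]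
          simp [map_ofNat]
      show (F _).re ≤ _
      simp only [F, Complex.add_re, two, ← inner_neg_left, gr, av_succ]
      have n1 := av_le r h1
      have n2 := av_le r h2
      rw [show av r (fun n => -α n) = -av r α by simp [av]]
      generalize av r α = a at *
      generalize av r β = b at *
      generalize (av r fun i => α (2 ^ r + i)) = a' at *
      generalize (av r fun i => β (2 ^ r + i)) = b' at *
      have p1 := parallelogram_law_with_norm ℂ a a'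
      have p2 := parallelogram_law_with_norm ℂ b b'
      have q : (⟪a', b⟫_ℂ).re + (⟪-a, b'⟫_ℂ).re ≤ ‖a - a'‖ + ‖b - b'‖ := by
        have i1 := (Complex.re_le_norm _).trans (norm_inner_le_norm (𝕜 := ℂ) (a' - a) b)
        have i2 := (Complex.re_le_norm _).trans (norm_inner_le_norm (𝕜 := ℂ) a (b - b'))
        rw [inner_sub_left, norm_sub_rev, Complex.sub_re] at i1
        rw [inner_sub_right, Complex.sub_re] at i2
        rw [inner_neg_left, Complex.neg_re]
        nlinarith [norm_nonneg (a - a'), norm_nonneg (b - b')]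
      have am : ∀ x : ℝ, x ≤ l * x ^ 2 / 4 + 1 / l := fun x => by
        rw [← sub_nonneg, show l * x ^ 2 / 4 + 1 / l - x = (l * x - 2) ^ 2 / (4 * l) by
          field_simp; ring]
        positivity
      have s1 := am ‖a - a'‖
      have s2 := am ‖b - b'‖
      simp only [norm_smul, norm_inv, Complex.norm_two, mul_pow]
      rw [show ‖a + a'‖ ^ 2 = 2 * (‖a‖ ^ 2 + ‖a'‖ ^ 2) - ‖a - a'‖ ^ 2 by linarith,
        show ‖b + b'‖ ^ 2 = 2 * (‖b‖ ^ 2 + ‖b'‖ ^ 2) - ‖b - b'‖ ^ 2 by linarith]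
      push_cast
      rw [show 2 * ((r : ℝ) + 1) / l = 2 * r / l + 1 / l + 1 / l by ring]
      linarith

lemma tri {κ : ℝ} (hκ : 0 < κ) : ∃ (N : ℕ) (D : (ℕ → ℕ → ℂ) →L[ℂ] ℂ),
    (∀ t : ℕ → ℕ → ℂ, (∀ n < N, ∀ m < n, 3 / 4 ≤ (t n m).re ∧ -1 / 4 ≤ (-t m n).re) →
      1 ≤ (D t).re) ∧
    ∀ (K : Type) [NormedAddCommGroup K] [InnerProductSpace ℂ K] (α β : ℕ → K) (a b : ℝ),
      (∀ i, ‖α i‖ ≤ a) → (∀ i, ‖β i‖ ≤ b) → ‖D fun n m => ⟪α n, β m⟫_ℂ‖ ≤ κ * (a * b) := by
  obtain ⟨r, hr⟩ := exists_nat_gt (64 / κ ^ 2)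
  have r0 : (0 : ℝ) < r := lt_trans (by positivity) hr
  obtain ⟨D, d1, d2⟩ := tri0 r
  refine ⟨2 ^ r, ((2 / r : ℝ) : ℂ) • D, fun t ht => ?_, fun K _ _ α β a b h1 h2 => ?_⟩
  · rw [smul_apply, smul_eq_mul, Complex.re_ofReal_mul, div_mul_eq_mul_div, le_div_iff₀ r0]
    linarith [d1 t ht]
  have key : ∀ α β : ℕ → K, (∀ i, ‖α i‖ ≤ 1) → (∀ i, ‖β i‖ ≤ 1) →
      ‖D fun n m => ⟪α n, β m⟫_ℂ‖ ≤ κ * r / 2 := fun α β h1 h2 => by
    obtain ⟨z, z1, z2⟩ := Complex.exists_norm_eq_mul_self (D fun n m => ⟪α n, β m⟫_ℂ)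
    have := d2 K (8 / κ) (by positivity) α (fun m => z • β m) h1 fun i => by
      simpa [norm_smul, z1] using h2 i
    simp only [inner_smul_right] at this
    rw [show D (fun n m => z * ⟪α n, β m⟫_ℂ) = _ from D.map_smul z _, smul_eq_mul, ← z2,
      Complex.ofReal_re, show 2 * r / (8 / κ) = κ * r / 4 by field_simp; ring] at this
    have h3 : 8 / κ * 2 ≤ κ * r / 4 := by
      rw [div_lt_iff₀ (by positivity)] at hr
      rw [div_mul_eq_mul_div, div_le_iff₀ hκ]
      nlinarith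
    have h4 := mul_le_mul_of_nonneg_left (show 2 - ‖av r α‖ ^ 2 - ‖av r fun m => z • β m‖ ^ 2 ≤ 2 by
      nlinarith) (show 0 ≤ 8 / κ by positivity)
    linarith
  have sc : ∀ (α : ℕ → K) (a : ℝ), (∀ i, ‖α i‖ ≤ a) → ∃ α' : ℕ → K, (∀ i, ‖α' i‖ ≤ 1) ∧
      ∀ i, α i = (a : ℂ) • α' i := fun α a h => by
    rcases ((norm_nonneg _).trans (h 0)).eq_or_lt with rfl | ha
    · exact ⟨0, by simp, fun i => by simpa using h i⟩
    · refine ⟨fun i => (a : ℂ)⁻¹ • α i, fun i => ?_,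
        fun i => (smul_inv_smul₀ (by exact_mod_cast ha.ne') _).symm⟩
      rw [norm_smul, norm_inv, Complex.norm_real, Real.norm_of_nonneg ha.le, inv_mul_le_iff₀ ha]
      simpa using h i
  obtain ⟨α', a1, a2⟩ := sc α a h1
  obtain ⟨β', b1, b2⟩ := sc β b h2
  have a0 := (norm_nonneg _).trans (h1 0)
  have b0 := (norm_nonneg _).trans (h2 0)
  simp only [a2, b2, inner_smul_left, inner_smul_right, ← mul_assoc, smul_apply]
  rw [show D (fun n m => b * (starRingEnd ℂ) a * ⟪α' n, β' m⟫_ℂ) = _ from D.map_smul _ _]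
  simp only [norm_smul, norm_mul, Complex.norm_real, RCLike.norm_conj, Real.norm_of_nonneg a0,
    Real.norm_of_nonneg b0, Real.norm_of_nonneg (show 0 ≤ 2 / (r : ℝ) by positivity)]
  refine (mul_le_mul_of_nonneg_left (mul_le_mul_of_nonneg_left (key _ _ a1 b1)
    (by positivity)) (by positivity)).trans_eq ?_
  field_simp

end Pool.Agent.H90.Cs
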