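import Mathlib

namespace Pool.Agent.H90.Cs

variable (A : Type) [NonUnitalCStarAlgebra A]

/-- a left Banach module over the C⋆-algebra `A` -/
structure LMod : Type 1 where
  X : Type
  [grp : NormedAddCommGroup X]
  [spc : NormedSpace ℂ X]
  cpl : CompleteSpace X
  act : A → X → X
  bil : IsBoundedBilinearMap ℂ fun p : A × X => act p.1 p.2
  act_mul : ∀ a b x, act (a * b) x = act a (act b x)

attribute [instance] LMod.grp LMod.spc

variable {A}

/-- a bounded module morphism -/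
def IsMor (M N : LMod A) (φ : M.X → N.X) : Prop :=
  IsBoundedLinearMap ℂ φ ∧ ∀ a x, φ (M.act a x) = N.act a (φ x)

/-- every morphism onto `P` with a bounded linear right inverse has a right inverse morphism -/
def Proj (P : LMod A) : Prop :=
  ∀ (Y : LMod A) (φ : Y.X → P.X), IsMor Y P φ →
    (∃ s : P.X → Y.X, IsBoundedLinearMap ℂ s ∧ ∀ x, φ (s x) = x) →
    ∃ ρ : P.X → Y.X, IsMor P Y ρ ∧ ∀ x, φ (ρ x) = x

/-- `0 ← M ← P 0 ← P 1 ← ⋯` is a complex of modules -/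
def IsCx (M : LMod A) (P : ℕ → LMod A) (d : ∀ k, (P (k + 1)).X → (P k).X) (e : (P 0).X → M.X) :
    Prop :=
  IsMor (P 0) M e ∧ (∀ k, IsMor (P (k + 1)) (P k) (d k)) ∧ (∀ x, e (d 0 x) = 0) ∧
    ∀ k x, d k (d (k + 1) x) = 0

/-- the complex splits as a complex of Banach spaces (it has a bounded contracting homotopy) -/
def Splits (M : LMod A) (P : ℕ → LMod A) (d : ∀ k, (P (k + 1)).X → (P k).X) (e : (P 0).X → M.X) :
    Prop :=
  ∃ (s : ∀ k, (P k).X → (P (k + 1)).X) (u : M.X → (P 0).X), (∀ k, IsBoundedLinearMap ℂ (s k)) ∧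
    IsBoundedLinearMap ℂ u ∧ (∀ z, e (u z) = z) ∧ (∀ x, d 0 (s 0 x) + u (e x) = x) ∧
    ∀ k x, d (k + 1) (s (k + 1) x) + s k (d k x) = x

/-- `M` has a projective resolution with `P k = 0` for all `k > n` -/
def HasRes (M : LMod A) (n : ℕ) : Prop :=
  ∃ (P : ℕ → LMod A) (d : ∀ k, (P (k + 1)).X → (P k).X) (e : (P 0).X → M.X),
    IsCx M P d e ∧ Splits M P d e ∧ (∀ k, Proj (P k)) ∧ ∀ k, n < k → ∀ x : (P k).X, x = 0

end Pool.Agent.H90.Cs
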