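import Mathlib
import Pool.Agent.H90.CsDefs
import Pool.Agent.H90.GdC

set_option maxSynthPendingDepth 4

namespace Pool.Agent.H90.Cs

open Filter Topology ContinuousLinearMap InnerProductSpace
open scoped InnerProductSpace

section
variable {V P Y : Type} [NormedAddCommGroup V] [NormedSpace ℂ V] [NormedAddCommGroup P]
  [NormedSpace ℂ P] [NormedAddCommGroup Y] [NormedSpace ℂ Y]

structure Tens (ι : V →L[ℂ] P →L[ℂ] Y) : Prop where
  dn : Dense (Submodule.span ℂ {z | ∃ a x, z = ι a x} : Set Y)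
  lift : ∀ {Z : Type} [NormedAddCommGroup Z] [NormedSpace ℂ Z] [CompleteSpace Z]
    (B : V →L[ℂ] P →L[ℂ] Z), ∃ F : Y →L[ℂ] Z, (∀ u, ‖F u‖ ≤ ‖B‖ * ‖u‖) ∧ ∀ a x, F (ι a x) = B a x

variable (V P) in
lemma ex_Tens : ∃ (Y : Type) (_ : NormedAddCommGroup Y) (_ : NormedSpace ℂ Y)
    (_ : CompleteSpace Y) (ι : V →L[ℂ] P →L[ℂ] Y), Tens ι := by
  obtain ⟨Y, _, _, _, ι, -, i2, i3⟩ := Gd.ex_tens V P
  exact ⟨Y, _, _, ‹_›, ι, i2, fun B => i3 _ B⟩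

variable {ι : V →L[ℂ] P →L[ℂ] Y} (h : Tens ι) {Z : Type} [NormedAddCommGroup Z] [NormedSpace ℂ Z]
include h

lemma Tens.ext (F F' : Y →L[ℂ] Z) (e : ∀ a x, F (ι a x) = F' (ι a x)) (u : Y) : F u = F' u :=
  congrArg (· u) (ext_on h.dn (by rintro _ ⟨a, x, rfl⟩; exact e a x))

lemma Tens.bd [CompleteSpace Z] (F : Y →L[ℂ] Z) {c : ℝ} (hc : 0 ≤ c)
    (e : ∀ a x, ‖F (ι a x)‖ ≤ c * ‖a‖ * ‖x‖) (u : Y) : ‖F u‖ ≤ c * ‖u‖ := by
  obtain ⟨F', h1, h2⟩ := h.lift (compL ℂ _ _ _ F ∘L ι)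
  rw [h.ext F F' (fun a x => (h2 a x).symm)]
  exact (h1 u).trans (mul_le_mul_of_nonneg_right (opNorm_le_bound₂ _ hc e) (norm_nonneg _))

lemma Tens.mem (D : Submodule ℂ Y) (h1 : IsClosed (D : Set Y)) (h2 : ∀ a x, ι a x ∈ D) (u : Y) :
    u ∈ D :=
  h1.closure_subset_iff.2 (Submodule.span_le.2 (by rintro _ ⟨a, x, rfl⟩; exact h2 a x)) (h.dn u)

end

section
variable {B M : Type} [NormedRing B] [NormedAlgebra ℂ B] [NormedAddCommGroup M] [NormedSpace ℂ M]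

structure Act (r : B →L[ℂ] M →L[ℂ] M) : Prop where
  mul : ∀ a b x, r (a * b) x = r a (r b x)
  one : ∀ x, r 1 x = x

lemma Tens.op {Y : Type} [NormedAddCommGroup Y] [NormedSpace ℂ Y] [CompleteSpace Y]
    {ι : B →L[ℂ] M →L[ℂ] Y} (h : Tens ι) :
    ∃ O : B →L[ℂ] Y →L[ℂ] Y, Act O ∧ ∀ a c x, O a (ι c x) = ι (a * c) x := by
  obtain ⟨O, -, o⟩ := h.lift ((compL ℂ B B Y).flip.bilinearComp (mul ℂ B).flip ι.flip)
  have o' : ∀ a c x, O.flip a (ι c x) = ι (a * c) x := fun a c x => by rw [flip_apply, o]; rfl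
  exact ⟨O.flip, ⟨fun a b => h.ext _ (O.flip a ∘L O.flip b) fun c x => by
    rw [comp_apply, o', o', o', mul_assoc], h.ext _ (.id ℂ _) fun c x => by
    rw [o', one_mul]; rfl⟩, o'⟩

variable {H : Type} [NormedAddCommGroup H] [InnerProductSpace ℂ H]

structure Sp (π : B →L[ℂ] H →L[ℂ] H) (r : B →L[ℂ] M →L[ℂ] M)
    (g : B →L[ℂ] M →L[ℂ] (H →L[ℂ] H) →L[ℂ] (M →L[ℂ] H) →L[ℂ] H) (C : ℝ) : Prop where
  g1 : ∀ a b y W J, g (a * b) y W J = π a (g b y W J) + g a (r b y) W J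
  g2 : ∀ a y J, g a y 1 J = π a (J y) - J (r a y)
  g3 : ∀ a y ε, 0 < ε → ∃ (n : ℕ) (c c' : Fin n → B) (z : Fin n → M), ∀ W J,
    ‖g a y W J - ∑ i, π (c i) (W (π (c' i) (J (z i))))‖ ≤ ε * ‖W‖ * ‖J‖ ∧
    ‖∑ i, π (c i) (W (J (r (c' i) (z i))))‖ ≤ ε * ‖W‖ * ‖J‖
  g4 : ∀ (D : (ℕ → ℕ → ℂ) →L[ℂ] ℂ) (η : ℕ → H) (W : ℕ → H →L[ℂ] H) (J : ℕ → M →L[ℂ] H) κ,
    0 ≤ κ → (∀ c c' z, ‖D fun n m => ⟪η n, π c (W n (π c' (J m z)))⟫_ℂ‖ ≤ κ * ‖c‖ * ‖c'‖ * ‖z‖) →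
    ∀ a y, ‖D fun n m => ⟪η n, g a y (W n) (J m)⟫_ℂ‖ ≤ κ * (C * ‖a‖ * ‖y‖)
  g5 : ∀ (η e e' : H) (J : M →L[ℂ] H), ∃ θ : B →L[ℂ] M →L[ℂ] B, ∀ a y α β,
    ⟪η, g a y (rankOne ℂ e α) (rankOne ℂ β e' ∘L J)⟫_ℂ = ⟪α, π (θ a y) β⟫_ℂ

end

variable {A : Type} [NonUnitalCStarAlgebra A]

noncomputable def LMod.ac (P : LMod A) : Unitization ℂ A →L[ℂ] P.X →L[ℂ] P.X :=
  P.bil.toContinuousLinearMap ∘L ⟨Unitization.sndHom ℂ ℂ A, Unitization.continuous_snd⟩ +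
    smulRight ⟨(Unitization.fstHom ℂ A).toLinearMap, Unitization.continuous_fst⟩ (.id ℂ _)

lemma LMod.ac_eq (P : LMod A) (b : Unitization ℂ A) (x : P.X) :
    P.ac b x = P.bil.toContinuousLinearMap b.snd x + b.fst • x := rfl

lemma LMod.act_ac (P : LMod A) : Act P.ac :=
  ⟨fun a b x => by
    simp only [P.ac_eq, Unitization.snd_mul, Unitization.fst_mul, map_add, map_smul, add_apply,
      smul_apply, show ∀ a b x, P.bil.toContinuousLinearMap (a * b) x =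
        P.bil.toContinuousLinearMap a (P.bil.toContinuousLinearMap b x) from P.act_mul]
    module, fun x => by simp [P.ac_eq]⟩

lemma IsMor.ac {M N : LMod A} {φ : M.X → N.X} (h : IsMor M N φ) (b : Unitization ℂ A) (x : M.X) :
    φ (M.ac b x) = N.ac b (φ x) := by
  rw [M.ac_eq, N.ac_eq, h.1.map_add, h.1.map_smul]
  exact congrArg (· + _) (h.2 _ _)

section
variable {M : Type} [NormedAddCommGroup M] [NormedSpace ℂ M] [CompleteSpace M]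
  {r : Unitization ℂ A →L[ℂ] M →L[ℂ] M} (h : Act r)

noncomputable def mkM : LMod A where
  X := M
  cpl := inferInstance
  act := fun a x => r a x
  bil := (r ∘L ⟨Unitization.inrHom ℂ ℂ A, Unitization.continuous_inr⟩).isBoundedBilinearMap
  act_mul := fun a b x => by rw [Unitization.inr_mul, h.mul]

lemma mkM_ac (b : Unitization ℂ A) (x : M) : (mkM h).ac b x = r b x := by
  show r b.snd x + b.fst • x = _
  conv_rhs => rw [← b.inl_fst_add_inr_snd_eq, map_add, add_apply, add_comm,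
    show (Unitization.inl b.fst : Unitization ℂ A) = b.fst • 1 by ext <;> simp, map_smul, smul_apply,
    h.one]

include h in
lemma ex_E (P : LMod A) (hP : Proj P) (T : P.X →L[ℂ] M) : ∃ E : P.X →L[ℂ] M,
    (∀ b x, E (P.ac b x) = r b (E x)) ∧ ∀ {Z : Type} [NormedAddCommGroup Z] [NormedSpace ℂ Z]
      (F : M →L[ℂ] Z) (φ : P.X →L[ℂ] Z), (∀ c x, F (r c (T x)) = φ (P.ac c x)) →
      ∀ x, F (E x) = φ x := by
  have := P.cpl
  obtain ⟨Y, _, _, _, ι, t⟩ := ex_Tens (Unitization ℂ A) P.X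
  obtain ⟨O, o1, o2⟩ := t.op
  obtain ⟨π, -, p⟩ := t.lift P.ac
  obtain ⟨ρ0, r1, r3⟩ := hP (mkM o1) π ⟨π.isBoundedLinearMap, fun a =>
    t.ext (π ∘L O a) (P.bil.toContinuousLinearMap a ∘L π) fun c x => by
      rw [comp_apply, comp_apply, o2, p, p, P.act_ac.mul, P.ac_eq]; simp⟩
    ⟨ι 1, (ι _).isBoundedLinearMap, fun x => (p 1 x).trans (P.act_ac.one x)⟩
  let ρ : P.X →L[ℂ] Y := r1.1.toContinuousLinearMap
  have r2 : ∀ b x, ρ (P.ac b x) = O b (ρ x) := fun b x => (r1.ac b x).trans (mkM_ac o1 b _)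
  obtain ⟨Φ, -, f⟩ := t.lift (r.bilinearComp (.id ℂ _) T)
  replace f : ∀ c x, Φ (ι c x) = r c (T x) := f
  refine ⟨Φ ∘L ρ, fun b x => ?_, fun F φ hF x => ?_⟩
  · rw [comp_apply, r2]
    exact t.ext (Φ ∘L O b) (r b ∘L Φ) (fun c x => by simp [o2, f, h.mul]) _
  · exact (t.ext (F ∘L Φ) (φ ∘L π) (fun c x => by simp [f, p, hF]) _).trans
      (congrArg φ (r3 x))

theorem ex_Sp (hM : HasRes (mkM h) 1) {H : Type} [NormedAddCommGroup H] [InnerProductSpace ℂ H]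
    [CompleteSpace H] {π : Unitization ℂ A →L[ℂ] H →L[ℂ] H} (hπ : Act π) : ∃ g C, Sp π r g C := by
  obtain ⟨P, d0, e0, ⟨e1, c2, c3, -⟩, ⟨s0, u0, s1, u1, u2, s2, s3⟩, hP, h0⟩ := hM
  let e : (P 0).X →L[ℂ] M := e1.1.toContinuousLinearMap
  let d : (P 1).X →L[ℂ] (P 0).X := (c2 0).1.toContinuousLinearMap
  let s : (P 0).X →L[ℂ] (P 1).X := (s1 0).toContinuousLinearMap
  let u : M →L[ℂ] (P 0).X := u1.toContinuousLinearMap
  have he : ∀ b x, e ((P 0).ac b x) = r b (e x) := fun b x => (e1.ac b x).trans (mkM_ac h b _)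
  have hd : ∀ b x, d ((P 1).ac b x) = (P 0).ac b (d x) := (c2 0).ac
  have ed : ∀ x, e (d x) = 0 := c3
  have eu : ∀ y, e (u y) = y := u2
  have ds : ∀ x, d (s x) + u (e x) = x := s2
  have sd : ∀ x, s (d x) = x := fun x => by
    have := s3 0 x
    rw [h0 2 one_lt_two (s0 _ x), (c2 1).1.toIsLinearMap.map_zero] at this
    exact (zero_add _).symm.trans this
  let k : Unitization ℂ A →L[ℂ] M →L[ℂ] (P 1).X := compL ℂ _ _ _ s ∘L
    ((P 0).ac.bilinearComp (.id ℂ _) u - compL ℂ _ _ _ u ∘L r)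
  have k0 : ∀ a y, k a y = s ((P 0).ac a (u y) - u (r a y)) := fun _ _ => rfl
  have k1 : ∀ a y, d (k a y) = (P 0).ac a (u y) - u (r a y) := fun a y => by
    have := ds ((P 0).ac a (u y) - u (r a y))
    rwa [map_sub e, he, eu, eu, sub_self, map_zero, add_zero] at this
  have k2 : ∀ a b y, k (a * b) y = (P 1).ac a (k b y) + k a (r b y) := fun a b y => by
    rw [← sd ((P 1).ac a _), hd, k1, k0, k0, ← map_add, map_sub ((P 0).ac a), (P 0).act_ac.mul, h.mul,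
      sub_add_sub_cancel]
  obtain ⟨F, _, _, _, ι, t⟩ := ex_Tens (Unitization ℂ A) M
  obtain ⟨O, o1, o2⟩ := t.op
  obtain ⟨p, -, p1⟩ := t.lift r
  obtain ⟨β, b1, b2⟩ := ex_E o1 (P 0) (hP 0) (ι 1 ∘L e)
  have b3 : ∀ x, p (β x) = e x := b2 p e fun c x => by rw [comp_apply, o2, mul_one, p1, he]
  obtain ⟨Y, _, _, _, κ, t'⟩ := ex_Tens (Unitization ℂ A) F
  obtain ⟨Q, q1, q2⟩ := t'.op
  obtain ⟨E, e2, e3⟩ := ex_E q1 (P 1) (hP 1) (κ 1 ∘L β ∘L d)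
  let w : M →L[ℂ] F := β ∘L u - ι 1
  let γ : Unitization ℂ A →L[ℂ] M →L[ℂ] Y := compL ℂ _ _ _ E ∘L k - κ.bilinearComp (.id ℂ _) w +
    compL ℂ _ _ _ (κ 1 ∘L w) ∘L r
  have γ0 : ∀ a y, γ a y = E (k a y) - κ a (β (u y) - ι 1 y) + κ 1 (β (u (r a y)) - ι 1 (r a y)) :=
    fun _ _ => rfl
  obtain ⟨T, -, T1⟩ := t.lift ((compL ℂ (M →L[ℂ] H) H H).bilinearComp π (apply ℂ H))
  replace T1 : ∀ c y J, T (ι c y) J = π c (J y) := fun c y J => by rw [T1]; rfl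
  have T2 : ∀ c v J, T (O c v) J = π c (T v J) := fun c v J =>
    t.ext (T.flip J ∘L O c) (π c ∘L T.flip J) (fun a x => by simp [o2, T1, hπ.mul]) v
  have lf : ∀ S : F →L[ℂ] (M →L[ℂ] H) →L[ℂ] H,
      ∃ X : Y →L[ℂ] (H →L[ℂ] H) →L[ℂ] (M →L[ℂ] H) →L[ℂ] H,
      ∀ c v W J, X (κ c v) W J = π c (W (S v J)) := fun S => by
    obtain ⟨X, -, x⟩ := t'.lift ((compL ℂ (H →L[ℂ] H) _ _).bilinearComp
      (compL ℂ (M →L[ℂ] H) H H ∘L π) ((compL ℂ (M →L[ℂ] H) H H).flip ∘L S))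
    exact ⟨X, fun c v W J => by rw [x]; rfl⟩
  obtain ⟨X, x1⟩ := lf T
  obtain ⟨X', x2⟩ := lf (apply ℂ H ∘L p)
  let ev : (H →L[ℂ] H) → (M →L[ℂ] H) → ((H →L[ℂ] H) →L[ℂ] (M →L[ℂ] H) →L[ℂ] H) →L[ℂ] H :=
    fun W J => apply ℂ H J ∘L apply ℂ _ W
  refine ⟨compL ℂ _ _ _ X ∘L γ, ‖γ‖, fun a b y W J => ?_, fun a y J => ?_, fun a y ε hε => ?_,
    fun D η W J c hc hD a y => ?_, fun η v v' J => ?_⟩
  · have : γ (a * b) y = Q a (γ b y) + γ a (r b y) := by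
      simp only [γ0, k2, map_add, map_sub, e2, q2, mul_one, h.mul]
      abel
    show X (γ _ _) W J = π a (X (γ _ _) W J) + X (γ _ _) W J
    rw [this, map_add, add_apply, add_apply]
    exact congrArg (· + _) (t'.ext (ev W J ∘L X ∘L Q a) (π a ∘L ev W J ∘L X)
      (fun c v => by simp [ev, q2, x1, hπ.mul]) _)
  · have := e3 (ev 1 J ∘L X) (T.flip J ∘L β ∘L d) (fun c x => by
      simp [ev, q2, x1, hd, b1, T2]) (k a y)
    simp only [ev, comp_apply, apply_apply, flip_apply, k1, map_sub, b1, T2] at this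
    show X (γ _ _) 1 J = _
    simp only [γ0, map_add, map_sub, add_apply, sub_apply, this, x1, one_apply_eq_self, hπ.one, T1]
    abel
  · have z0 : X' (γ a y) = 0 := by
      ext W J
      have := e3 (ev W J ∘L X') 0 (fun c x => by simp [ev, q2, x2, b3, ed]) (k a y)
      simp only [ev, comp_apply, apply_apply, zero_apply] at this
      simp [γ0, this, x2, b3, eu, p1, h.one]
    let S := (Submodule.span ℂ {z | ∃ c c' y, z = κ c (ι c' y)}).topologicalClosure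
    have cl : IsClosed (S : Set Y) := Submodule.isClosed_topologicalClosure _
    obtain ⟨K, k0, k1, k2⟩ : ∃ K, 0 < K ∧ ‖X‖ ≤ K ∧ ‖X'‖ ≤ K := ⟨‖X‖ + ‖X'‖ + 1, by positivity,
      by linarith [norm_nonneg X'], by linarith [norm_nonneg X]⟩
    obtain ⟨v, v1, v2⟩ := Metric.mem_closure_iff.1 (t'.mem S cl (fun c => t.mem
      (S.comap (κ c).toLinearMap) (cl.preimage (κ c).continuous) fun c' y =>
      Submodule.le_topologicalClosure _ (Submodule.subset_span ⟨c, c', y, rfl⟩)) (γ a y)) (ε / K)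
      (by positivity)
    obtain ⟨m, f, j, rfl⟩ := Submodule.mem_span_set'.1 v1
    choose c c' z hz using fun i => (j i).2
    rw [dist_eq_norm, lt_div_iff₀' k0] at v2
    simp only [hz, ← map_smul] at v2
    refine ⟨m, c, c', fun i => f i • z i, fun W J => ⟨?_, ?_⟩⟩
    · have := le_of_opNorm₂_le_of_le _ ((X.le_of_opNorm_le k1 _).trans v2.le) (le_refl ‖W‖)
        (le_refl ‖J‖)
      simp only [map_sub, map_sum, sub_apply, sum_apply, x1, T1] at this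
      exact this
    · have := le_of_opNorm₂_le_of_le _ ((X'.le_of_opNorm_le k2 _).trans v2.le) (le_refl ‖W‖)
        (le_refl ‖J‖)
      simpa only [map_sub, map_sum, z0, zero_sub, neg_apply, norm_neg, sum_apply, x2, comp_apply,
        apply_apply, p1] using this
  · let G : Y →L[ℂ] ℂ := D ∘L pi fun n => pi fun m => innerSL ℂ (η n) ∘L ev (W n) (J m) ∘L X
    refine (t'.bd G hc (fun b => t.bd (G ∘L κ b) (by positivity) fun b' z => ?_) (γ a y)).trans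
      (mul_le_mul_of_nonneg_left (γ.le_opNorm₂ a y) hc)
    refine le_of_eq_of_le (congrArg (fun t => ‖D t‖) ?_) (hD b b' z)
    ext n m
    simp [ev, x1, T1]
  · obtain ⟨σ, -, s1⟩ := t.lift ((smulRightL ℂ M _ (innerSL ℂ v' ∘L J)))
    obtain ⟨θ, -, s2⟩ := t'.lift ((lsmul ℂ ℂ).bilinearComp (innerSL ℂ η ∘L π.flip v) σ)
    refine ⟨compL ℂ _ _ _ θ ∘L γ, fun a y α β' => t'.ext
      (innerSL ℂ η ∘L ev (rankOne ℂ v α) (rankOne ℂ β' v' ∘L J) ∘L X)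
      (innerSL ℂ α ∘L π.flip β' ∘L θ) (fun c => t.ext
        ((innerSL ℂ η ∘L ev (rankOne ℂ v α) (rankOne ℂ β' v' ∘L J) ∘L X) ∘L κ c)
        ((innerSL ℂ α ∘L π.flip β' ∘L θ) ∘L κ c) fun c' z => ?_) _⟩
    simp [ev, x1, T1, s2, s1, -mul_eq_mul_left_iff, -mul_eq_mul_right_iff]
    ring

end

end Pool.Agent.H90.Cs
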