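import Mathlib
import Pool.Agent.H90.CsA
import Pool.Agent.H90.CsB
import Pool.Agent.H90.BhD

set_option maxSynthPendingDepth 4

namespace Pool.Agent.H90.Cs

open Filter Topology ContinuousLinearMap InnerProductSpace Function
open scoped InnerProductSpace ComplexOrder

variable {B H : Type} [CStarAlgebra B] [NormedAddCommGroup H] [InnerProductSpace ℂ H]

structure Rep (π : B →L[ℂ] H →L[ℂ] H) : Prop extends Act π where
  st : ∀ a x y, ⟪x, π a y⟫_ℂ = ⟪π (star a) x, y⟫_ℂ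
  le : ∀ a x, ‖π a x‖ ≤ ‖a‖ * ‖x‖

lemma gns (φ : B →ₗ[ℂ] ℂ) (hφ : ∀ a, 0 ≤ φ (star a * a)) : ∃ (K : Type) (_ : NormedAddCommGroup K)
    (_ : InnerProductSpace ℂ K) (_ : CompleteSpace K) (ρ : B →L[ℂ] K →L[ℂ] K) (ι : B →ₗ[ℂ] K),
    Rep ρ ∧ DenseRange ι ∧ (∀ a b, ρ a (ι b) = ι (a * b)) ∧
    ∀ a b, ⟪ι a, ι b⟫_ℂ = φ (star a * b) := by
  let _ := CStarAlgebra.spectralOrder B
  have := CStarAlgebra.spectralOrderedRing B
  let ψ : B →ₚ[ℂ] ℂ := PositiveLinearMap.mk₀ φ fun a ha => by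
    obtain ⟨b, rfl⟩ := CStarAlgebra.nonneg_iff_eq_star_mul_self.1 ha
    exact hφ b
  let ρ := ψ.gnsStarAlgHom
  have hρ : ∀ a, ‖ρ a‖ ≤ 1 * ‖a‖ := fun a => by
    rw [one_mul]; exact NonUnitalStarAlgHom.norm_apply_le ρ a
  refine ⟨ψ.GNS, _, _, inferInstance, ρ.toAlgHom.toLinearMap.mkContinuous 1 hρ,
    (UniformSpace.Completion.toComplL (𝕜 := ℂ)).toLinearMap ∘ₗ ψ.toPreGNS.toLinearMap,
    ⟨⟨fun a b x => congrArg (· x) (map_mul ρ a b), fun x => congrArg (· x) (map_one ρ)⟩,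
      fun a x y => ?_, fun a x => le_of_opNorm_le _ ((hρ a).trans_eq (one_mul _)) x⟩,
    ?_, fun a b => ψ.gnsNonUnitalStarAlgHom_apply_coe,
    fun a b => UniformSpace.Completion.inner_coe _ _⟩
  · show ⟪x, ρ a y⟫_ℂ = ⟪ρ (star a) x, y⟫_ℂ
    rw [map_star, star_eq_adjoint, adjoint_inner_left]
  · exact UniformSpace.Completion.denseRange_coe (α := ψ.PreGNS)

lemma res (a : B) {t : ℝ} (ht : 0 < t) :
    ∃ w : B, ‖w‖ ≤ t⁻¹ ∧ a = a * star w * a + (t ^ 2 : ℂ) • w := by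
  let _ := CStarAlgebra.spectralOrder B
  have := CStarAlgebra.spectralOrderedRing B
  obtain ⟨b, hb⟩ : ∃ b, b = a * star a := ⟨_, rfl⟩
  have h0 : 0 ≤ b := hb ▸ mul_star_self_nonneg a
  have sa : IsSelfAdjoint b := h0.isSelfAdjoint
  have hs : ∀ x ∈ spectrum ℝ b, 0 < t ^ 2 + x := fun x hx => by
    have := spectrum_nonneg_of_nonneg h0 hx
    positivity
  have hc : ContinuousOn (fun x : ℝ => (t ^ 2 + x)⁻¹) (spectrum ℝ b) :=
    ContinuousOn.inv₀ (by fun_prop) fun x hx => (hs x hx).ne'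
  have u0 : IsSelfAdjoint (cfc (fun x : ℝ => (t ^ 2 + x)⁻¹) b) := cfc_predicate _ _
  have u1 := cfc_mul (fun x : ℝ => x) _ b continuousOn_id hc
  have u2 := cfc_add (a := b) _ _ (continuousOn_id.mul hc) (hc.const_smul (t ^ 2))
  have u3 := cfc_mul _ _ b hc (continuousOn_id.mul hc)
  have u4 := cfc_smul (t ^ 2) _ b hc
  have u5 : ‖cfc (fun x : ℝ => (t ^ 2 + x)⁻¹ * (x * (t ^ 2 + x)⁻¹)) b‖ ≤ t⁻¹ * t⁻¹ := by
    refine norm_cfc_le (by positivity) fun x hx => ?_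
    have h1 := hs x hx
    have h2 := spectrum_nonneg_of_nonneg h0 hx
    rw [Real.norm_of_nonneg (by positivity)]
    field_simp
    nlinarith [mul_nonneg h2 (sq_nonneg t), sq_nonneg (t ^ 2), sq_nonneg x]
  have u6 : cfc (fun x : ℝ => x * (t ^ 2 + x)⁻¹ + t ^ 2 • (t ^ 2 + x)⁻¹) b = 1 := by
    rw [← cfc_one ℝ b]
    refine cfc_congr fun x hx => ?_
    have := (hs x hx).ne'
    simp only [smul_eq_mul, Pi.one_apply]
    field_simp
    ring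
  rw [cfc_id' ℝ b] at u1
  replace u5 := (congrArg norm (u3.trans (congrArg _ u1))).symm.trans_le u5
  replace u6 := (u2.trans (congrArg₂ _ u1 u4)).symm.trans u6
  generalize cfc (fun x : ℝ => (t ^ 2 + x)⁻¹) b = u at *
  subst hb
  refine ⟨u * a, (mul_self_le_mul_self_iff (norm_nonneg _) (by positivity)).2 ?_, ?_⟩
  · rw [← CStarRing.norm_self_mul_star, star_mul, u0.star_eq]
    simpa only [mul_assoc] using u5
  · have := congrArg (· * a) u6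
    simp only [add_mul, one_mul, smul_mul_assoc] at this
    rw [star_mul, u0.star_eq, ← mul_assoc, ← Complex.ofReal_pow, Complex.coe_smul, this]

def Gd (F : Finset (H →L[ℂ] H)) (η η' : H) (R : H →L[ℂ] H) : Prop :=
  ‖R‖ ≤ 4 ∧ ∀ c ∈ F, ‖R (c η) - c η'‖ ≤ 1

lemma unsm {Z : Type} [NormedAddCommGroup Z] [NormedSpace ℂ Z] {δ : ℝ} (hδ : 0 < δ) {x : Z}
    (h : ‖(δ : ℂ)⁻¹ • x‖ ≤ 1) : ‖x‖ ≤ δ := by
  rwa [norm_smul, norm_inv, Complex.norm_real, Real.norm_of_nonneg hδ.le, inv_mul_le_iff₀ hδ,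
    mul_one] at h

lemma Gd.sm {F : Finset (H →L[ℂ] H)} {η η' : H} {R c : H →L[ℂ] H} (h : Gd F η η' R) {δ : ℝ}
    (hδ : 0 < δ) (hc : (δ : ℂ)⁻¹ • c ∈ F) : ‖R (c η) - c η'‖ ≤ δ :=
  unsm hδ (by simpa only [smul_apply, map_smul, smul_sub] using h.2 _ hc)

variable [CompleteSpace H]

lemma tr {I : Type} (U : Ultrafilter I) (η : I → H) (h1 : ∀ i, ‖η i‖ ≤ 1)
    (F : Finset (H →L[ℂ] H)) : ∃ S ∈ U, ∀ j ∈ S, ∀ k ∈ S, ∃ R, Gd F (η k) (η j) R := by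
  obtain ⟨r, R, Λ, r1, r2, r3⟩ := Bh.syn U (fun i => (apply ℂ H (η i)).toLinearMap)
    (fun a => ⟨‖a‖, fun i => by simpa using a.le_of_opNorm_le_of_le le_rfl (h1 i)⟩) F
  refine ⟨_, r1.and (((eventually_all_finset F).2 fun c _ => (tendsto_iff_norm_sub_tendsto_zero.1
    (r2 c)).eventually_lt_const (show (0 : ℝ) < 1 / 3 by norm_num)).and
    ((eventually_all_finset F).2 fun c hc => (r3 c hc).norm.eventually_lt_const
      (show _ < (1 : ℝ) / 3 by simp))), fun j ⟨j1, _, j3⟩ k ⟨k1, k2, _⟩ =>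
    ⟨R j ∘L adjoint (R k), (opNorm_comp_le _ _).trans ?_, fun c hc => ?_⟩⟩
  · rw [LinearIsometryEquiv.norm_map]
    nlinarith [norm_nonneg (R k)]
  · have h2 := (R j).le_of_opNorm_le j1 (adjoint (R k) (c (η k)) - Λ c)
    rw [map_sub] at h2
    refine (norm_sub_le_norm_sub_add_norm_sub _ (R j (Λ c)) _).trans ?_
    have h3 : ‖adjoint (R k) (c (η k)) - Λ c‖ < 1 / 3 := k2 c hc
    have h4 : ‖R j (Λ c) - c (η j)‖ < 1 / 3 := j3 c hc
    linarith [show ‖(R j ∘L adjoint (R k)) (c (η k)) - R j (Λ c)‖ ≤ _ from h2]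

variable {M : Type} [NormedAddCommGroup M] [NormedSpace ℂ M] {π : B →L[ℂ] H →L[ℂ] H}
  {r : B →L[ℂ] M →L[ℂ] M} {g : B →L[ℂ] M →L[ℂ] (H →L[ℂ] H) →L[ℂ] (M →L[ℂ] H) →L[ℂ] H} {C : ℝ}

omit [CompleteSpace H] in
lemma inle {η : H} (h : ‖η‖ ≤ 1) (x : H) : ‖⟪η, x⟫_ℂ‖ ≤ ‖x‖ :=
  (norm_inner_le_norm _ _).trans (mul_le_of_le_one_left (norm_nonneg _) h)

omit [CompleteSpace H] in
lemma gle (g : B →L[ℂ] M →L[ℂ] (H →L[ℂ] H) →L[ℂ] (M →L[ℂ] H) →L[ℂ] H) : ∃ G, 0 ≤ G ∧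
    ∀ a y W J, ‖W‖ ≤ 4 → ‖g a y W J‖ ≤ G * ‖a‖ * ‖y‖ * ‖J‖ :=
  ⟨‖g‖ * 4, by positivity, fun a y W J h =>
    (le_of_opNorm₂_le_of_le _ (g.le_opNorm₂ a y) h le_rfl).trans_eq (by ring)⟩

lemma m16 {δ a b : ℝ} (hδ : 0 < δ) (h1 : a ≤ 4) (h2 : b ≤ 4) (hb : 0 ≤ b) : δ * a * b ≤ δ * 16 := by
  rw [mul_assoc]
  exact mul_le_mul_of_nonneg_left (by nlinarith) hδ.le

namespace Sp
variable (h : Sp π r g C)
include h

omit [CompleteSpace H] in
lemma kil {I : Type} {l : Filter I} (J : I → M →L[ℂ] H) (hJ : ∀ i, ‖J i‖ ≤ 4)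
    (hc : ∀ c z, Tendsto (fun i => π c (J i z) - J i (r c z)) l (𝓝 0)) (a : B) (y : M) {ε : ℝ}
    (hε : 0 < ε) : ∀ᶠ i in l, ∀ W : H →L[ℂ] H, ‖W‖ ≤ 4 → ‖g a y W (J i)‖ ≤ ε := by
  obtain ⟨n, c, c', z, hz⟩ := h.g3 a y (ε / 48) (by positivity)
  have := (tendsto_finsetSum Finset.univ fun k _ => (hc (c' k) (z k)).norm.const_mul
    (‖π (c k)‖ * 4)).eventually_lt_const (show _ < ε / 3 by simpa using hε)
  filter_upwards [this] with i hi W hW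
  obtain ⟨h1, h2⟩ := hz W (J i)
  have h3 := norm_sum_le_of_le Finset.univ
    (f := fun k => π (c k) (W (π (c' k) (J i (z k)) - J i (r (c' k) (z k))))) fun k _ =>
      (π (c k)).le_of_opNorm_le_of_le le_rfl (W.le_of_opNorm_le hW _)
  simp only [map_sub, Finset.sum_sub_distrib, ← mul_assoc] at h3
  have h4 := m16 (show 0 < ε / 48 by positivity) hW (hJ i) (norm_nonneg _)
  have h5 := (norm_sub_norm_le _ _).trans ((norm_sub_le_norm_sub_add_norm_sub _ _ _).trans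
    (add_le_add h1 h3))
  linarith

lemma clu (a : B) (y : M) {ε : ℝ} (hε : 0 < ε) : ∃ F, ∀ η η' R, Gd F η η' R → ‖η‖ ≤ 1 → ‖η'‖ ≤ 1 →
    ∀ J : M →L[ℂ] H, ‖J‖ ≤ 4 → ‖⟪η, g a y (adjoint R) J⟫_ℂ -
      (⟪η', π a (J y)⟫_ℂ - ⟪η', J (r a y)⟫_ℂ)‖ ≤ ε := by
  classical
  obtain ⟨n, c, c', z, hz⟩ := h.g3 a y (ε / 48) (by positivity)
  obtain ⟨δ, d0, d1⟩ := Bh.small (∑ i, ‖π (c' i)‖ * (4 * ‖z i‖)) (show 0 < ε / 3 by positivity)
  refine ⟨Finset.univ.image fun i => (δ : ℂ)⁻¹ • adjoint (π (c i)),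
    fun η η' R hR h1 h2 J hJ => ?_⟩
  have a1 := (inle h1 _).trans ((hz (adjoint R) J).1.trans
    (m16 (by positivity) (by simpa using hR.1) hJ (norm_nonneg _)))
  have a2 := (inle h2 _).trans ((hz 1 J).1.trans
    (m16 (by positivity) (norm_id_le.trans (by norm_num)) hJ (norm_nonneg _)))
  have a3 := norm_sum_le_of_le Finset.univ (f := fun i => ⟪R (adjoint (π (c i)) η) -
      adjoint (π (c i)) η', π (c' i) (J (z i))⟫_ℂ) fun i _ => (norm_inner_le_norm _ _).trans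
    (mul_le_mul (hR.sm d0 (Finset.mem_image_of_mem _ (Finset.mem_univ i)))
      ((π (c' i)).le_of_opNorm_le_of_le le_rfl (J.le_of_opNorm_le hJ _)) (norm_nonneg _) d0.le)
  simp only [inner_sub_left, ← adjoint_inner_right R, adjoint_inner_left, Finset.sum_sub_distrib,
    ← Finset.mul_sum] at a3
  simp only [inner_sub_right, inner_sum, h.g2, one_apply_eq_self] at a1 a2
  rw [norm_sub_rev] at a2
  refine ((norm_sub_le_norm_sub_add_norm_sub _ _ _).trans (add_le_add a1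
    ((norm_sub_le_norm_sub_add_norm_sub _ _ _).trans (add_le_add a3 a2)))).trans ?_
  linarith

omit [CompleteSpace H] in
lemma off (hπ : Rep π) (D : ℝ) {ε : ℝ} (hε : 0 < ε) : ∃ δ, 0 < δ ∧ ∀ a η y W J, ‖a‖ ≤ D → ‖η‖ ≤ 1 →
    ‖y‖ ≤ 1 → ‖W‖ ≤ 4 → ‖J‖ ≤ 4 → ‖π (star a) η‖ ≤ δ → ‖r a y‖ ≤ δ →
    ‖⟪η, g a y W J⟫_ℂ‖ ≤ ε := by
  obtain ⟨G, G0, hG⟩ := gle g
  obtain ⟨t, t0, t1⟩ := Bh.small (G * 4) (show 0 < ε / 3 by positivity)
  obtain ⟨δ, d0, d1⟩ := Bh.small (t⁻¹ * (G * D * 4)) (show 0 < ε / 3 by positivity)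
  refine ⟨δ, d0, fun a η y W J h1 h2 h3 h4 h5 h6 h7 => ?_⟩
  obtain ⟨w, w1, w2⟩ := res a t0
  have D0 := (norm_nonneg _).trans h1
  have e : ⟪η, g a y W J⟫_ℂ = ⟪π w (π (star a) η), g a y W J⟫_ℂ +
      ⟪η, g (a * star w) (r a y) W J⟫_ℂ + t ^ 2 * ⟪η, g w y W J⟫_ℂ := by
    conv_lhs => rw [w2]
    simp only [map_add, map_smul, add_apply, smul_apply, h.g1 (a * star w), inner_add_right,
      inner_smul_right, hπ.st, star_star, hπ.mul]
  have a1 : ‖⟪π w (π (star a) η), g a y W J⟫_ℂ‖ ≤ t⁻¹ * δ * (G * D * 1 * 4) :=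
    (norm_inner_le_norm _ _).trans (mul_le_mul ((hπ.le _ _).trans (by gcongr))
      ((hG _ _ _ _ h4).trans (by gcongr)) (norm_nonneg _) (by positivity))
  have a2 : ‖⟪η, g (a * star w) (r a y) W J⟫_ℂ‖ ≤ G * (D * t⁻¹) * δ * 4 :=
    (inle h2 _).trans ((hG _ _ _ _ h4).trans (by
      have : ‖a * star w‖ ≤ D * t⁻¹ := (norm_mul_le _ _).trans (by rw [norm_star]; gcongr)
      gcongr))
  have a3 : ‖t ^ 2 * ⟪η, g w y W J⟫_ℂ‖ ≤ t ^ 2 * (G * t⁻¹ * 1 * 4) := by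
    rw [norm_mul, norm_pow, Complex.norm_real, Real.norm_of_nonneg t0.le]
    exact mul_le_mul_of_nonneg_left ((inle h2 _).trans ((hG _ _ _ _ h4).trans (by gcongr)))
      (by positivity)
  rw [show t ^ 2 * (G * t⁻¹ * 1 * 4) = t * (G * 4) by field_simp] at a3
  rw [e]
  refine (norm_add₃_le.trans (add_le_add (add_le_add a1 a2) a3)).trans ?_
  linarith

lemma cmp {η : H} (h1 : ‖η‖ ≤ 1) (a : B) (y : M) {J : M →L[ℂ] H} (h2 : ‖J‖ ≤ 1) {ε : ℝ}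
    (hε : 0 < ε) : ∃ E : Finset H, ∀ P P' : H →L[ℂ] H, adjoint P = P → adjoint P' = P' → ‖P‖ ≤ 1 →
    ‖P'‖ ≤ 1 → (∀ x ∈ E, ‖P x - P' x‖ ≤ 1) → ∀ W R : H →L[ℂ] H, ‖W‖ ≤ 4 → ‖R‖ ≤ 4 →
    ‖⟪η, g a y (P ∘L W) ((R ∘L P) ∘L J)⟫_ℂ - ⟪η, g a y (P' ∘L W) ((R ∘L P') ∘L J)⟫_ℂ‖ ≤ ε := by
  classical
  obtain ⟨n, c, c', z, hz⟩ := h.g3 a y (ε / 48) (by positivity)
  obtain ⟨δ, d0, d1⟩ := Bh.small (∑ i, 16 * ‖π (c' i)‖ * (‖J (z i)‖ + ‖adjoint (π (c i)) η‖))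
    (show 0 < ε / 3 by positivity)
  refine ⟨(Finset.univ.image fun i => (δ : ℂ)⁻¹ • adjoint (π (c i)) η) ∪
    Finset.univ.image fun i => (δ : ℂ)⁻¹ • J (z i), fun P P' p1 p2 p3 p4 hE W R hW hR => ?_⟩
  have b : ∀ P : H →L[ℂ] H, ‖P‖ ≤ 1 → _ := fun P hP => (inle h1 _).trans
    ((hz (P ∘L W) ((R ∘L P) ∘L J)).1.trans (m16 (by positivity) ((opNorm_comp_le _ _).trans
      ((mul_le_of_le_one_left (norm_nonneg _) hP).trans hW)) ((opNorm_comp_le _ _).trans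
      ((mul_le_of_le_one_right (norm_nonneg _) h2).trans ((opNorm_comp_le _ _).trans
      ((mul_le_of_le_one_right (norm_nonneg _) hP).trans hR)))) (norm_nonneg _)))
  have a1 := b P p3
  have a2 := b P' p4
  have hT : ∀ i x, ‖W (π (c' i) (R x))‖ ≤ 16 * ‖π (c' i)‖ * ‖x‖ := fun i x =>
    (W.le_of_opNorm_le_of_le hW ((π (c' i)).le_of_opNorm_le_of_le le_rfl
      (R.le_of_opNorm_le hR x))).trans_eq (by ring)
  have a3 := norm_sum_le_of_le Finset.univ (n := fun i =>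
      δ * (16 * ‖π (c' i)‖ * (‖J (z i)‖ + ‖adjoint (π (c i)) η‖)))
    (f := fun i => ⟪P (adjoint (π (c i)) η) - P' (adjoint (π (c i)) η),
      W (π (c' i) (R (P (J (z i)))))⟫_ℂ + ⟪P' (adjoint (π (c i)) η),
      W (π (c' i) (R (P (J (z i)) - P' (J (z i)))))⟫_ℂ) fun i _ => by
    have e1 := unsm d0 (by simpa only [map_smul, ← smul_sub] using hE _ (Finset.mem_union_left _
      (Finset.mem_image_of_mem _ (Finset.mem_univ i))))
    have e2 := unsm d0 (by simpa only [map_smul, ← smul_sub] using hE _ (Finset.mem_union_right _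
      (Finset.mem_image_of_mem _ (Finset.mem_univ i))))
    refine ((norm_add_le _ _).trans (add_le_add ((norm_inner_le_norm _ _).trans (mul_le_mul e1
      ((hT _ _).trans (mul_le_mul_of_nonneg_left (P.le_of_opNorm_le p3 _) (by positivity)))
      (norm_nonneg _) d0.le)) ((norm_inner_le_norm _ _).trans (mul_le_mul (P'.le_of_opNorm_le p4 _)
      ((hT _ _).trans (mul_le_mul_of_nonneg_left e2 (by positivity))) (norm_nonneg _)
      (by positivity))))).trans_eq (by ring)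
  simp only [map_sub, inner_sub_left, inner_sub_right, sub_add_sub_cancel, ← adjoint_inner_right P,
    ← adjoint_inner_right P', p1, p2, adjoint_inner_left, Finset.sum_sub_distrib,
    ← Finset.mul_sum] at a3
  simp only [inner_sub_right, inner_sum, ContinuousLinearMap.comp_apply] at a1 a2
  rw [norm_sub_rev] at a2
  refine ((norm_sub_le_norm_sub_add_norm_sub _ _ _).trans (add_le_add a1
    ((norm_sub_le_norm_sub_add_norm_sub _ _ _).trans (add_le_add a3 a2)))).trans ?_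
  linarith

end Sp

end Pool.Agent.H90.Cs
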