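import Mathlib
import Pool.Agent.H90.CsC

set_option maxSynthPendingDepth 4

namespace Pool.Agent.H90.Cs

open Filter Topology ContinuousLinearMap InnerProductSpace Function
open scoped InnerProductSpace ComplexOrder

variable {B H : Type} [CStarAlgebra B] [NormedAddCommGroup H] [InnerProductSpace ℂ H]
  [CompleteSpace H] {π : B →L[ℂ] H →L[ℂ] H}

def Itf (π : B →L[ℂ] H →L[ℂ] H) : Prop :=
  ∀ (M : Type) [NormedAddCommGroup M] [NormedSpace ℂ M] [CompleteSpace M]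
    (r : B →L[ℂ] M →L[ℂ] M), Act r → ∃ g C, Sp π r g C

lemma VM.st {θ : Set ℕ → B} {C : ℝ} (h : VM θ C) : VM (fun S => star (θ S)) C :=
  ⟨fun S T d => by rw [h.add S T d, star_add], fun s S z h1 h2 => by
    have := h.bd s S (fun k => star (z k)) h1 (by simpa using h2)
    rw [← norm_star] at this
    simpa [star_sum] using this⟩

lemma exNet (hπ : Rep π) (ξ : ℕ → H) (h1 : ∀ i, ‖ξ i‖ ≤ 1) : ∃ (K : Type)
    (_ : NormedAddCommGroup K) (_ : InnerProductSpace ℂ K) (_ : CompleteSpace K)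
    (ρ : B →L[ℂ] K →L[ℂ] K) (x : K) (j : Finset B × ℕ → ℕ) (J : Finset B × ℕ → K →L[ℂ] H),
    Rep ρ ∧ ‖x‖ ≤ 1 ∧ (∀ p, p.2 ≤ j p) ∧ (∀ p, ‖J p‖ ≤ 4) ∧
    Tendsto (fun p => J p x - ξ (j p)) (atTop ×ˢ atTop) (𝓝 0) ∧
    ∀ c z, Tendsto (fun p => π c (J p z) - J p (ρ c z)) (atTop ×ˢ atTop) (𝓝 0) := by
  let U := hyperfilter ℕ
  have hb : ∀ a i, ‖π a (ξ i)‖ ≤ ‖a‖ := fun a i =>
    (hπ.le _ _).trans (mul_le_of_le_one_right (norm_nonneg _) (h1 i))
  choose φ hφ using fun a => Bh.ulim U (fun i => ⟪ξ i, π a (ξ i)⟫_ℂ) ‖a‖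
    (.of_forall fun i => (inle (h1 i) _).trans (hb a i))
  have h2 : ∀ a b, Tendsto (fun i => ⟪π a (ξ i), π b (ξ i)⟫_ℂ) U (𝓝 (φ (star a * b))) := fun a b =>
    (hφ _).congr fun i => by rw [hπ.mul, hπ.st, star_star]
  obtain ⟨K, _, _, _, ρ, ι, k1, k2, k3, k4⟩ := gns ⟨⟨φ, fun a b => tendsto_nhds_unique (hφ _)
      (((hφ a).add (hφ b)).congr fun i => by simp)⟩,
    fun c a => tendsto_nhds_unique (hφ _) (((hφ a).const_smul c).congr fun i => by
      simp)⟩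
    fun a => ge_of_tendsto' (h2 a a) fun i => by
      rw [inner_self_eq_norm_sq_to_K]; exact pow_nonneg (RCLike.ofReal_nonneg.2 (norm_nonneg _)) 2
  have h3 : ∀ a, Tendsto (fun i => ‖π a (ξ i)‖) U (𝓝 ‖ι a‖) := fun a => by
    have := (h2 a a).norm.sqrt
    rw [← show ⟪ι a, ι a⟫_ℂ = φ (star a * a) from k4 a a] at this
    simpa [inner_self_eq_norm_sq_to_K] using this
  have : ∀ p : Finset B × ℕ, ∃ (j : ℕ) (J : K →L[ℂ] H), p.2 ≤ j ∧ ‖J‖ ≤ 4 ∧
      ∀ a ∈ p.1, ‖J (ι a) - π a (ξ j)‖ ≤ 1 := fun p => by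
    obtain ⟨r, R, Λ, r1, r2, r3⟩ := Bh.syn U (fun i => (π.flip (ξ i)).toLinearMap)
      (fun a => ⟨_, hb a⟩) p.1
    have r4 : ∀ᶠ i in U, ‖adjoint (R i)‖ ≤ 2 := by simpa using r1
    have hΛ : ∀ a, ‖Λ a‖ ≤ 2 * ‖ι a‖ := fun a => le_of_tendsto_of_tendsto (r2 a).norm
      ((h3 a).const_mul 2) (r4.mono fun i h => (adjoint (R i)).le_of_opNorm_le h _)
    obtain ⟨i, i0, i1, i2⟩ := (((eventually_ge_atTop p.2).filter_mono Nat.hyperfilter_le_atTop).and (r1.and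
      ((eventually_all_finset p.1).2 fun a ha =>
      (r3 a ha).norm.eventually_lt_const (by simp : ‖(0 : H)‖ < 1)))).exists
    refine ⟨i, R i ∘L Λ.extendOfNorm ι, i0, (opNorm_comp_le _ _).trans ?_, fun a ha => ?_⟩
    · nlinarith [LinearMap.opNorm_extendOfNorm_le k2 zero_le_two hΛ,
        norm_nonneg (Λ.extendOfNorm ι)]
    · rw [ContinuousLinearMap.comp_apply, LinearMap.extendOfNorm_eq k2 ⟨2, hΛ⟩]
      exact (i2 a ha).le
  choose j J j1 j2 j3 using this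
  have j4 : ∀ a, Tendsto (fun p => J p (ι a) - π a (ξ (j p))) (atTop ×ˢ atTop) (𝓝 0) := fun a => by
    refine NormedAddGroup.tendsto_nhds_zero.2 fun ε hε => ?_
    filter_upwards [(eventually_ge_atTop {((ε / 2 : ℝ) : ℂ)⁻¹ • a}).prod_inl atTop] with p hp
    have := j3 p _ (hp (Finset.mem_singleton_self _))
    rw [map_smul, map_smul, map_smul, smul_apply, ← smul_sub] at this
    linarith [unsm (half_pos hε) this]
  refine ⟨K, _, _, ‹_›, ρ, ι 1, j, J, k1, le_of_tendsto' (h3 1) fun i => by rw [hπ.one]; exact h1 i,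
    j1, j2, by simpa [hπ.one] using j4 1, fun c z => ?_⟩
  obtain ⟨D, d1, d2⟩ := Gd.tend_dense (l := atTop ×ˢ atTop) (fun p => π c ∘L J p - J p ∘L ρ c)
    (C := ‖c‖ * 4 + 4 * ‖c‖) fun p x => (norm_sub_le _ _).trans (by
      have a1 := (hπ.le c _).trans (mul_le_mul_of_nonneg_left ((J p).le_of_opNorm_le (j2 p) x)
        (norm_nonneg _))
      have a2 := (J p).le_of_opNorm_le_of_le (j2 p) (k1.le c x)
      exact (add_le_add a1 a2).trans_eq (by ring))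
  refine (d2 z).1 (k2.induction_on z d1 fun a => (d2 _).2 ?_)
  simpa [k3, hπ.mul] using (((π c).continuous.tendsto' _ _ (π c).map_zero).comp (j4 a)).sub
    (j4 (c * a))

lemma sing {K : Type} [NormedAddCommGroup K] [InnerProductSpace ℂ K] {m : Set ℕ → K} {C : ℝ}
    (h : VM m C) {ε : ℝ} (hε : 0 < ε) : ∀ᶠ i in atTop, ‖m {i}‖ ≤ ε := by
  obtain ⟨N, hN⟩ := exhH (K := K) C hε
  by_contra hn
  obtain ⟨φ, p1, p2⟩ := extraction_of_frequently_atTop (not_eventually.1 hn)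
  obtain ⟨k, -, hk⟩ := hN m h (fun k => {φ k}) fun a b e => by simpa [onFun] using p1.injective.ne e
  exact p2 k hk

lemma caseA (hπ : Rep π) (hI : Itf π) {θ : Set ℕ → B} {C γ : ℝ} (hθ : VM θ C) (hγ : 0 < γ)
    (h : ∀ i, γ < ‖π (θ {i})‖) : False := by
  classical
  choose ξ x1 x2 using fun i => exists_lt_apply_of_lt_opNorm _ (h i)
  have : ∀ i, ∃ η : H, ‖η‖ ≤ 1 ∧ γ < ‖⟪η, π (θ {i}) (ξ i)⟫_ℂ‖ := fun i => by
    have h0 := norm_pos_iff.1 (hγ.trans (x2 i))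
    refine ⟨_, (norm_smul_inv_norm (𝕜 := ℂ) h0).le, ?_⟩
    rw [inner_smul_left, inner_self_eq_norm_sq_to_K]
    simpa [sq, h0] using x2 i
  choose η y1 y2 using this
  obtain ⟨K, _, _, _, ρ, x, j, J, k1, k2, j1, j2, j3, j4⟩ := exNet hπ ξ fun i => (x1 i).le
  obtain ⟨g, D, hg⟩ := hI K ρ k1.toAct
  have C0 := (norm_nonneg _).trans (hθ.le ∅)
  obtain ⟨δ1, d1, d2⟩ := hg.off hπ C (show 0 < γ / 8 by positivity)
  obtain ⟨δ2, d3, d4⟩ := Bh.small (9 + C) (show 0 < γ / 8 by positivity)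
  obtain ⟨δ, d5, d6, d7⟩ : ∃ δ, 0 < δ ∧ δ ≤ δ1 ∧ δ ≤ δ2 :=
    ⟨_, lt_min d1 d3, min_le_left _ _, min_le_right _ _⟩
  have v1 : VM (fun S => ρ (θ S) x) (1 * C) := hθ.map (ρ.flip x) zero_le_one fun a =>
    (k1.le a x).trans (by rw [one_mul]; exact mul_le_of_le_one_right (norm_nonneg _) k2)
  have v2 : ∀ i, VM (fun S => π (star (θ S)) (η i)) (1 * C) := fun i => hθ.st.map (π.flip (η i))
    zero_le_one fun a => (hπ.le a _).trans
      (by rw [one_mul]; exact mul_le_of_le_one_right (norm_nonneg _) (y1 i))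
  have tj : Tendsto j (atTop ×ˢ atTop) atTop := tendsto_atTop_mono j1 tendsto_snd
  obtain ⟨f, f1, f2⟩ := exists_seq_of_forall_finset_exists
    (fun p : ℕ × (K →L[ℂ] H) => ‖p.2‖ ≤ 4 ∧ ‖p.2 x - ξ p.1‖ ≤ δ ∧ ‖ρ (θ {p.1}) x‖ ≤ δ)
    (fun p q => p.1 < q.1 ∧ ∀ W : H →L[ℂ] H, ‖W‖ ≤ 4 → ‖g (θ {p.1}) x W q.2‖ ≤ γ / 8) fun F _ => by
    obtain ⟨i, i1, i2, i3⟩ := ((j3.norm.eventually_lt_const (show _ < δ by simpa using d5)).and
      ((tj.eventually (sing v1 d5)).and ((eventually_all_finset F).2 fun p _ =>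
      (tj.eventually (eventually_gt_atTop p.1)).and
        (hg.kil J j2 j4 (θ {p.1}) x (show 0 < γ / 8 by positivity))))).exists
    exact ⟨(j i, J i), ⟨j2 i, i1.le, i2⟩, i3⟩
  have hf : StrictMono fun n => (f n).1 := fun a b e => (f2 a b e).1
  obtain ⟨N1, n1⟩ := exhH (K := K) (1 * C) d5
  obtain ⟨N2, n2⟩ := exhH (K := H) (1 * C) d5
  obtain ⟨S1, s1, s2, s3⟩ := rosen (fun _ T => ‖ρ (θ T) x‖ ≤ δ) N1 _
    (Set.infinite_range_of_injective hf.injective) fun i _ S hS _ => n1 _ v1 S hS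
  obtain ⟨S, s4, s5, s6⟩ := rosen (fun i T => ‖π (star (θ T)) (η i)‖ ≤ δ) N2 _ s2
    fun i _ S hS _ => n2 _ (v2 i) S hS
  have s7 : ∀ i ∈ S, ‖ρ (θ (S \ {i})) x‖ ≤ δ := fun i hi =>
    s3 i (s4 hi) _ (Set.sdiff_subset_sdiff_left s4)
  obtain ⟨F, hF⟩ := hg.clu (θ S) x (show 0 < γ / 8 by positivity)
  have := (s5.preimage (s4.trans s1)).to_subtype
  obtain ⟨T, t1, t2⟩ := tr (hyperfilter ((fun n => (f n).1) ⁻¹' S)) (fun n => η (f n).1)
    (fun _ => y1 _) F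
  obtain ⟨k, hk, l, hl, hkl⟩ := (show T.Infinite from fun h =>
    h.notMem_hyperfilter t1).nontrivial.exists_lt
  obtain ⟨R, hR⟩ := t2 l hl k hk
  obtain ⟨b1, b2, b3⟩ := f1 l
  have ok := hθ.one (show (f k).1 ∈ S from k.2)
  have ol := hθ.one (show (f l).1 ∈ S from l.2)
  have a0 : ‖adjoint R‖ ≤ 4 := by simpa using hR.1
  have a1 := hF _ _ R hR (y1 _) (y1 _) _ b1
  have a2 := (inle (y1 (f k).1) _).trans ((f2 k l hkl).2 _ a0)
  have a3 := d2 _ _ x _ _ (hθ.le (S \ {(f k).1})) (y1 _) k2 a0 b1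
    ((s6 _ k.2 _ le_rfl).trans d6) ((s7 _ k.2).trans d6)
  have a4 : ‖⟪η (f k).1, g (θ S) x (adjoint R) (f l).2⟫_ℂ‖ ≤ γ / 8 + γ / 8 := by
    rw [ok, map_add, add_apply, add_apply, add_apply, inner_add_right]
    exact (norm_add_le _ _).trans (add_le_add a2 a3)
  have a5 : ‖⟪η (f l).1, (f l).2 (ρ (θ S) x)⟫_ℂ‖ ≤ 4 * (δ + δ) := by
    refine (inle (y1 _) _).trans ((f l).2.le_of_opNorm_le_of_le b1 ?_)
    rw [ol, map_add, add_apply]
    exact (norm_add_le _ _).trans (add_le_add b3 (s7 _ l.2))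
  have a6 : ‖⟪η (f l).1, π (θ S) ((f l).2 x - ξ (f l).1)⟫_ℂ‖ ≤ C * δ :=
    (inle (y1 _) _).trans ((hπ.le _ _).trans (mul_le_mul (hθ.le S) b2 (norm_nonneg _) C0))
  have a7 : ‖⟪η (f l).1, π (θ (S \ {(f l).1})) (ξ (f l).1)⟫_ℂ‖ ≤ δ * 1 := by
    rw [hπ.st]
    exact (norm_inner_le_norm _ _).trans (mul_le_mul (s6 _ l.2 _ le_rfl) (x1 _).le (norm_nonneg _)
      d5.le)
  have a8 := y2 (f l).1
  have e : ⟪η (f l).1, π (θ {(f l).1}) (ξ (f l).1)⟫_ℂ = ⟪η (f k).1, g (θ S) x (adjoint R) (f l).2⟫_ℂ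
      - (⟪η (f k).1, g (θ S) x (adjoint R) (f l).2⟫_ℂ - (⟪η (f l).1, π (θ S) ((f l).2 x)⟫_ℂ -
        ⟪η (f l).1, (f l).2 (ρ (θ S) x)⟫_ℂ)) + ⟪η (f l).1, (f l).2 (ρ (θ S) x)⟫_ℂ -
      ⟪η (f l).1, π (θ S) ((f l).2 x - ξ (f l).1)⟫_ℂ -
      ⟪η (f l).1, π (θ (S \ {(f l).1})) (ξ (f l).1)⟫_ℂ := by
    have := congrArg (fun a => ⟪η (f l).1, π a (ξ (f l).1)⟫_ℂ) ol
    simp only [map_add, add_apply, inner_add_right] at this
    rw [map_sub, inner_sub_right, this]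
    ring
  rw [e] at a8
  have := a8.trans_le ((norm_sub_le _ _).trans (add_le_add ((norm_sub_le _ _).trans (add_le_add
    ((norm_add_le _ _).trans (add_le_add ((norm_sub_le _ _).trans (add_le_add a4 a1)) a5)) a6)) a7))
  nlinarith

lemma null (hπ : Rep π) (hI : Itf π) {θ : Set ℕ → B} {C : ℝ} (hθ : VM θ C) :
    Tendsto (fun i => ‖π (θ {i})‖) atTop (𝓝 0) := by
  refine tendsto_zero_iff_norm_tendsto_zero.1 (NormedAddGroup.tendsto_nhds_zero.2 fun ε hε => ?_)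
  by_contra hn
  obtain ⟨φ, p1, p2⟩ := extraction_of_frequently_atTop (not_eventually.1 hn)
  exact caseA hπ hI (hθ.un (B := fun k => {φ k}) fun a b e => by
    simpa [onFun] using p1.injective.ne e) (half_pos hε) fun i => by
      simpa using (half_lt_self hε).trans_le (not_lt.1 (p2 i))

variable {M : Type} [NormedAddCommGroup M] [NormedSpace ℂ M]
  {r : B →L[ℂ] M →L[ℂ] M} {g : B →L[ℂ] M →L[ℂ] (H →L[ℂ] H) →L[ℂ] (M →L[ℂ] H) →L[ℂ] H} {C : ℝ}

lemma Sp.exh (h : Sp π r g C) (hπ : Rep π) (hI : Itf π) {η : H} (h1 : ‖η‖ ≤ 1) (a : B)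
    {J : M →L[ℂ] H} (h2 : ‖J‖ ≤ 1) {x : Set ℕ → M} {D : ℝ} (hx : VM x D) {ε : ℝ} (hε : 0 < ε) :
    ∃ k, ∀ W R : H →L[ℂ] H, ‖W‖ ≤ 4 → ‖R‖ ≤ 4 → ‖⟪η, g a (x {k}) W (R ∘L J)⟫_ℂ‖ ≤ ε := by
  classical
  by_contra! hn
  choose W R w1 r1 hk using hn
  choose E hE using fun k => h.cmp h1 a (x {k}) h2 (show 0 < ε / 4 by positivity)
  let K : ℕ → Submodule ℂ H := fun d => Submodule.span ℂ ((Finset.range d).biUnion E : Set H)
  have hK : Monotone K := fun d e de => Submodule.span_mono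
    (Finset.coe_subset.2 (Finset.biUnion_subset_biUnion_of_subset_left _ (Finset.range_mono de)))
  let P : ℕ → H →L[ℂ] H := fun d => (K d).starProjection
  let Q : H →L[ℂ] H := (⨆ d, K d).topologicalClosure.starProjection
  have hP : ∀ z, Tendsto (fun d => P d z) atTop (𝓝 (Q z)) :=
    Submodule.starProjection_tendsto_closure_iSup K hK
  have p1 : ∀ d, adjoint (P d) = P d := fun d => isSelfAdjoint_starProjection _
  have q1 : adjoint Q = Q := isSelfAdjoint_starProjection _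
  have p2 : ∀ d, ‖P d‖ ≤ 1 := fun d => Submodule.starProjection_norm_le _
  have q2 : ‖Q‖ ≤ 1 := Submodule.starProjection_norm_le _
  have a1 : ∀ k, 3 * ε / 4 ≤ ‖⟪η, g a (x {k}) (Q ∘L W k) ((R k ∘L Q) ∘L J)⟫_ℂ‖ := fun k => by
    have := hE k 1 Q (by simp) q1 norm_id_le q2 (fun z hz => by
      rw [Submodule.starProjection_eq_self_iff.2 (Submodule.le_topologicalClosure _
        (le_iSup K (k + 1) (Submodule.subset_span (Finset.mem_coe.2
        (Finset.mem_biUnion.2 ⟨k, by simp, hz⟩)))))]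
      simp) (W k) (R k) (w1 k) (r1 k)
    have h3 := (norm_sub_norm_le _ _).trans this
    linarith [show ε < ‖⟪η, g a (x {k}) (1 ∘L W k) ((R k ∘L 1) ∘L J)⟫_ℂ‖ from hk k]
  have a2 : ∀ d, ∀ᶠ k in atTop, ‖⟪η, g a (x {k}) (P d ∘L W k) ((R k ∘L P d) ∘L J)⟫_ℂ‖ ≤ ε / 4 := by
    intro d
    let e := stdOrthonormalBasis ℂ (K d)
    choose θ hθ using fun i j => h.g5 η (e i) (e j) J
    have := (tendsto_finsetSum Finset.univ fun j _ => tendsto_finsetSum Finset.univ fun i _ =>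
      (null hπ hI (hx.map (θ i j a) (norm_nonneg _) (le_opNorm _))).const_mul 16
      ).eventually_lt_const (show _ < ε / 4 by simpa using hε)
    filter_upwards [this] with k hk
    have e1 : P d ∘L W k = ∑ i, rankOne ℂ (e i : H) (adjoint (W k) (e i)) := by
      simp only [P, e.starProjection_eq_sum_rankOne, finsetSum_comp, rankOne_comp]
    have e2 : (R k ∘L P d) ∘L J = ∑ i, rankOne ℂ (R k (e i)) (e i : H) ∘L J := by
      simp only [P, e.starProjection_eq_sum_rankOne, finsetSum_comp, comp_finsetSum, comp_rankOne]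
    simp only [e1, e2, map_sum, sum_apply, inner_sum, hθ]
    refine (norm_sum_le_of_le _ fun j _ => norm_sum_le_of_le _ fun i _ => ?_).trans hk.le
    have n : ∀ i, ‖(e i : H)‖ ≤ 1 := fun i => (e.orthonormal.1 i).le
    refine ((norm_inner_le_norm _ _).trans (mul_le_mul ((adjoint (W k)).le_of_opNorm_le_of_le
      (a := 4) (by simpa using w1 k) (n i)) (le_of_opNorm_le_of_le _ le_rfl
      ((R k).le_of_opNorm_le_of_le (r1 k) (n j))) (norm_nonneg _) (by norm_num))).trans_eq (by ring)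
  obtain ⟨φ, f1, f2⟩ := extraction_forall_of_eventually a2
  obtain ⟨G, G0, hG⟩ := gle g
  let L : (H →L[ℂ] H) → ℕ → M →L[ℂ] ℂ := fun T k =>
    innerSL ℂ η ∘L ((g a).flip (T ∘L W k)).flip ((R k ∘L T) ∘L J)
  have hL : ∀ T k y, ‖T‖ ≤ 1 → ‖L T k y‖ ≤ G * ‖a‖ * 4 * ‖y‖ := fun T k y hT => by
    refine (inle h1 _).trans ((hG a y _ _ ((opNorm_comp_le _ _).trans
      ((mul_le_of_le_one_left (norm_nonneg _) hT).trans (w1 k)))).trans ?_)
    rw [mul_right_comm]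
    gcongr
    exact (opNorm_comp_le _ _).trans ((mul_le_of_le_one_right (norm_nonneg _) h2).trans
      ((opNorm_comp_le _ _).trans ((mul_le_of_le_one_right (norm_nonneg _) hT).trans (r1 k))))
  have v : ∀ d k, VM (fun S => (L Q k - L (P d) k) (x S)) _ := fun d k =>
    hx.map _ (show 0 ≤ 2 * (G * ‖a‖ * 4) by positivity) fun y => (norm_sub_le _ _).trans
      ((add_le_add (hL Q k y q2) (hL (P d) k y (p2 d))).trans_eq (by ring))
  obtain ⟨N, hN⟩ := exhH (K := ℂ) (2 * (G * ‖a‖ * 4) * D) (show 0 < ε / 8 by positivity)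
  obtain ⟨S, s1, s2, s3⟩ := rosen (fun k T => ‖(L Q k - L (P (invFun φ k)) k) (x T)‖ ≤ ε / 8) N _
    (Set.infinite_range_of_injective f1.injective) fun i _ S hS _ => hN _ (v _ i) S hS
  obtain ⟨F, hF⟩ := h.cmp h1 a (x S) h2 (show 0 < ε / 8 by positivity)
  obtain ⟨d, d1, d2⟩ := ((Nat.frequently_atTop_iff_infinite.2 (s2.preimage s1)).and_eventually
    ((eventually_all_finset F).2 fun z _ => (tendsto_iff_norm_sub_tendsto_zero.1
      (hP z)).eventually_lt_const one_pos)).exists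
  have b1 := hF Q (P d) q1 (p1 d) q2 (p2 d) (fun z hz => by
    rw [norm_sub_rev]; exact (d2 z hz).le) _ _ (w1 (φ d)) (r1 (φ d))
  have b2 := s3 _ d1 _ le_rfl
  rw [leftInverse_invFun f1.injective] at b2
  have b3 := norm_sub_le ((L Q (φ d) - L (P d) (φ d)) (x S))
    ((L Q (φ d) - L (P d) (φ d)) (x (S \ {φ d})))
  have b4 := norm_sub_norm_le (L Q (φ d) (x {φ d})) (L (P d) (φ d) (x {φ d}))
  rw [← map_sub, hx.one d1, add_sub_cancel_right, ← hx.one d1] at b3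
  linarith [show 3 * ε / 4 ≤ ‖L Q (φ d) (x {φ d})‖ from a1 _,
    show ‖L (P d) (φ d) (x {φ d})‖ ≤ _ from f2 d,
    show ‖(L Q (φ d) - L (P d) (φ d)) (x S)‖ ≤ _ from b1,
    show _ ≤ ‖(L Q (φ d) - L (P d) (φ d)) (x {φ d})‖ from b4]

end Pool.Agent.H90.Cs
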