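import Mathlib
import Pool.Agent.H90.CsD

set_option maxSynthPendingDepth 4

namespace Pool.Agent.H90.Cs

open Filter Topology ContinuousLinearMap InnerProductSpace Function BoundedContinuousFunction
open scoped InnerProductSpace

variable {B H : Type} [CStarAlgebra B] [NormedAddCommGroup H] [InnerProductSpace ℂ H]
  {π : B →L[ℂ] H →L[ℂ] H} {ξ : ℕ → H}

structure XM {X : Type} [NormedAddCommGroup X] [NormedSpace ℂ X] (π : B →L[ℂ] H →L[ℂ] H)
    (ξ : ℕ → H) (r : B →L[ℂ] X →L[ℂ] X) (ev : ℕ → X →L[ℂ] H) (x : Set ℕ → X) : Prop where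
  le : ∀ m, ‖ev m‖ ≤ 1
  vm : VM x 1
  mor : ∀ m c z, ev m (r c z) = π c (ev m z)
  val : ∀ m S, ev m (x S) = S.indicator ξ m
  inj : ∀ y z, (∀ m, ev m y = ev m z) → y = z
  dn : ∀ D : Submodule ℂ X, IsClosed (D : Set X) → (∀ a S, r a (x S) ∈ D) → ∀ z, z ∈ D

lemma exX [CompleteSpace H] (hπ : Rep π) (h1 : ∀ n, ‖ξ n‖ = 1) : ∃ (X : Type)
    (_ : NormedAddCommGroup X) (_ : NormedSpace ℂ X) (_ : CompleteSpace X)
    (r : B →L[ℂ] X →L[ℂ] X) (ev : ℕ → X →L[ℂ] H) (x : Set ℕ → X), Act r ∧ XM π ξ r ev x := by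
  let x0 : Set ℕ → ℕ →ᵇ H := fun S => ofNormedAddCommGroupDiscrete (S.indicator ξ) 1 fun n =>
    (norm_indicator_le_norm_self _ _).trans (h1 n).le
  let L : B → (ℕ →ᵇ H) →L[ℂ] ℕ →ᵇ H := fun a => (π a).compLeftContinuousBounded ℕ
  let X := (Submodule.span ℂ {z | ∃ a S, z = L a (x0 S)}).topologicalClosure
  have cl : IsClosed (X : Set (ℕ →ᵇ H)) := Submodule.isClosed_topologicalClosure _
  have gen : ∀ a S, L a (x0 S) ∈ X := fun a S =>
    Submodule.le_topologicalClosure _ (Submodule.subset_span ⟨a, S, rfl⟩)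
  have mem : ∀ D : Submodule ℂ (ℕ →ᵇ H), IsClosed (D : Set (ℕ →ᵇ H)) → (∀ a S, L a (x0 S) ∈ D) →
      X ≤ D := fun D d1 d2 => Submodule.topologicalClosure_minimal _
    (Submodule.span_le.2 (by rintro _ ⟨a, S, rfl⟩; exact d2 a S)) d1
  have inv : ∀ a, X ≤ X.comap (L a).toLinearMap := fun a => mem _ (cl.preimage (L a).continuous)
    fun b S => by
      have : L a (L b (x0 S)) = L (a * b) (x0 S) := by ext n; exact (hπ.mul _ _ _).symm
      exact Submodule.mem_comap.2 (this.symm ▸ gen _ _ : L a (L b (x0 S)) ∈ X)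
  have hx : ∀ S, x0 S ∈ X := fun S => by
    have : L 1 (x0 S) = x0 S := by ext n; exact hπ.one _
    exact this ▸ gen 1 S
  let r : B →L[ℂ] X →L[ℂ] X := LinearMap.mkContinuous₂ (LinearMap.mk₂ ℂ
    (fun a z => ⟨L a z, inv a z.2⟩) (fun a b z => by ext n; simp [L]) (fun a b z => by ext n; simp [L])
    (fun a b z => by ext n; simp [L]) fun a b z => by ext n; simp [L]) 1 fun a z =>
      (norm_le (by positivity)).2 fun n => (hπ.le _ _).trans (by
        rw [one_mul]; exact mul_le_mul_of_nonneg_left (norm_coe_le_norm _ n) (norm_nonneg _))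
  refine ⟨X, _, _, cl.completeSpace_coe, r, fun m => evalCLM ℂ m ∘L X.subtypeL,
    fun S => ⟨x0 S, hx S⟩, ⟨fun a b z => by ext n; exact hπ.mul _ _ _,
      fun z => by ext n; exact hπ.one _⟩,
    fun m => opNorm_le_bound _ zero_le_one fun z => (norm_coe_le_norm z.1 m).trans_eq
      (one_mul _).symm, ⟨fun S T d => ?_, fun s S z hS hz => ?_⟩, fun _ _ _ => rfl, fun _ _ => rfl,
    fun y z h => Subtype.ext (BoundedContinuousFunction.ext h), fun D d1 d2 z => ?_⟩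
  · ext n; exact congrFun (Set.indicator_union_of_disjoint d ξ) n
  · refine (norm_le zero_le_one).2 fun n => ?_
    have : ((∑ k ∈ s, z k • (⟨x0 (S k), hx _⟩ : X) : X) : ℕ →ᵇ H) n =
        ∑ k ∈ s, z k • (S k).indicator ξ n := by simp [x0]
    refine (congrArg norm this).trans_le ?_
    by_cases h : ∃ k ∈ s, n ∈ S k
    · obtain ⟨k, k1, k2⟩ := h
      rw [Finset.sum_eq_single_of_mem k k1 fun l _ hl => by
        simp [Set.disjoint_right.1 (hS hl) k2], Set.indicator_of_mem k2, norm_smul, h1, mul_one]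
      exact hz k
    · rw [Finset.sum_eq_zero fun k hk => by simp [show n ∉ S k from fun e => h ⟨k, hk, e⟩]]
      simp
  · obtain ⟨y, y1, y2⟩ := mem (D.map X.subtype) (cl.isClosedEmbedding_subtypeVal.isClosedMap _ d1)
      (fun a S => ⟨_, d2 a S, rfl⟩) z.2
    exact Subtype.ext y2 ▸ y1

lemma step_fin {α : Type} (s : Finset α) (good : α → Set ℕ → Prop)
    (h : ∀ p ∈ s, ∀ S : ℕ → Set ℕ, Pairwise (Disjoint on S) → ∃ k, good p (S k)) :
    ∀ S : Set ℕ, S.Infinite → ∃ T ⊆ S, T.Infinite ∧ ∀ B ⊆ T, ∀ p ∈ s, good p B := by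
  classical
  induction s using Finset.induction_on with
  | empty => exact fun S hS => ⟨S, le_rfl, hS, by simp⟩
  | insert a s _ ih =>
    intro S hS
    obtain ⟨T, t1, t2, t3⟩ := ih (fun p hp => h p (Finset.mem_insert_of_mem hp)) S hS
    obtain ⟨R, r1, r2, r3⟩ := step (h a (Finset.mem_insert_self _ _)) t2
    exact ⟨R, r1.trans t1, r2, fun B hB => Finset.forall_mem_insert .. |>.2
      ⟨r3 B hB, t3 B (hB.trans r1)⟩⟩

variable [CompleteSpace H] {X : Type} [NormedAddCommGroup X] [NormedSpace ℂ X]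
  {r : B →L[ℂ] X →L[ℂ] X} {ev : ℕ → X →L[ℂ] H} {x : Set ℕ → X}
  {g : B →L[ℂ] X →L[ℂ] (H →L[ℂ] H) →L[ℂ] (X →L[ℂ] H) →L[ℂ] H} {C : ℝ}

omit [CompleteSpace H] in
lemma XM.co (hX : XM π ξ r ev x) (R : H →L[ℂ] H) (m : ℕ) : ‖R ∘L ev m‖ ≤ ‖R‖ :=
  (opNorm_comp_le _ _).trans (mul_le_of_le_one_right (norm_nonneg _) (hX.le m))

omit [CompleteSpace H] in
lemma kb (hX : XM π ξ r ev x) (hg : Sp π r g C) (a : B) (y : X) {ε : ℝ} (hε : 0 < ε) :
    ∃ F, ∀ m l R, Gd F (ξ m) (ξ l) R → ∀ W : H →L[ℂ] H, ‖W‖ ≤ 4 → ‖g a y W (R ∘L ev m)‖ ≤ ε := by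
  let I := {p : Finset (H →L[ℂ] H) × ℕ × ℕ × (H →L[ℂ] H) // Gd p.1 (ξ p.2.1) (ξ p.2.2.1) p.2.2.2}
  let l : Filter I := comap (fun i => i.1.1) atTop
  let J : I → X →L[ℂ] H := fun i => i.1.2.2.2 ∘L ev i.1.2.1
  have hJ : ∀ i, ‖J i‖ ≤ 4 := fun i => (hX.co _ _).trans i.2.1
  have t0 : ∀ c : H →L[ℂ] H, Tendsto (fun i : I => i.1.2.2.2 (c (ξ i.1.2.1)) - c (ξ i.1.2.2.1)) l
      (𝓝 0) := fun c => NormedAddGroup.tendsto_nhds_zero.2 fun δ hδ =>
    (tendsto_comap.eventually (eventually_ge_atTop {((δ / 2 : ℝ) : ℂ)⁻¹ • c})).mono fun i hi =>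
      (i.2.sm (half_pos hδ) (hi (Finset.mem_singleton_self _))).trans_lt (half_lt_self hδ)
  obtain ⟨F, hF⟩ := (eventually_comap.1 (hg.kil (l := l) J hJ (fun c z => by
    obtain ⟨D, d1, d2⟩ := Gd.tend_dense (l := l) (fun p => π c ∘L J p - J p ∘L r c)
      (C := ‖π c‖ * 4 + 4 * ‖r c‖) fun p => le_of_opNorm_le _ ((norm_sub_le _ _).trans (add_le_add
        ((opNorm_comp_le _ _).trans (by gcongr; exact hJ p))
        ((opNorm_comp_le _ _).trans (by gcongr; exact hJ p))))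
    refine (d2 z).1 (hX.dn D d1 (fun a S => (d2 _).2 ?_) z)
    refine squeeze_zero_norm (fun i => ?_) (tendsto_zero_iff_norm_tendsto_zero.1 (by
      simpa only [sub_zero] using (((π c).continuous.tendsto' _ _ (π c).map_zero).comp
        (t0 (π a))).sub (t0 (π c ∘L π a))))
    by_cases hm : i.1.2.1 ∈ S <;> simp [J, hX.mor, hX.val, hm]) a y hε)).exists
  exact ⟨F, fun m l R hR => hF ⟨(F, m, l, R), hR⟩ rfl⟩

lemma upper (hπ : Rep π) (hI : Itf π) (h1 : ∀ n, ‖ξ n‖ = 1) (hX : XM π ξ r ev x) (hg : Sp π r g C)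
    {f : ℕ → B} (hf : ∀ n, ‖f n‖ ≤ 1) (s : Finset (ℕ × (ℕ → H →L[ℂ] H)))
    (hs : ∀ p ∈ s, ∀ l, ‖p.2 l‖ ≤ 4) {ε : ℝ} (hε : 0 < ε) :
    ∀ᶠ m in hyperfilter ℕ, ∀ᶠ l in hyperfilter ℕ, ∃ R : H →L[ℂ] H, ‖R‖ ≤ 4 ∧ ‖R (ξ m) - ξ l‖ ≤ ε ∧
      ∀ p ∈ s, ‖⟪ξ p.1, g (f p.1) (x {m}) (p.2 l) (R ∘L ev m)⟫_ℂ‖ ≤ ε := by
  classical
  by_contra hn
  replace hn := (Ultrafilter.eventually_not.2 hn).mono fun m h => Ultrafilter.eventually_not.2 h
  obtain ⟨G, G0, hG⟩ := gle g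
  let β : ℕ × (ℕ → H →L[ℂ] H) → ℕ → ℕ → X →L[ℂ] (H →L[ℂ] H) →L[ℂ] ℂ := fun p m l =>
    compL ℂ _ _ _ (innerSL ℂ (ξ p.1)) ∘L (compL ℂ _ _ _).flip ((compL ℂ X H H).flip (ev m)) ∘L
      (g (f p.1)).flip (p.2 l)
  have β0 : ∀ p m l y R, β p m l y R = ⟪ξ p.1, g (f p.1) y (p.2 l) (R ∘L ev m)⟫_ℂ :=
    fun _ _ _ _ _ => rfl
  have β1 : ∀ p ∈ s, ∀ m l y, ‖β p m l y‖ ≤ G * ‖y‖ := fun p hp m l y =>
    opNorm_le_bound _ (by positivity) fun R => (inle (h1 _).le _).trans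
      ((hG _ _ _ _ (hs p hp l)).trans (mul_le_mul (mul_le_mul_of_nonneg_right
        (mul_le_of_le_one_right G0 (hf _)) (norm_nonneg _)) (hX.co R m) (norm_nonneg _)
        (by positivity)))
  have inv : ∀ η, 0 < η → ∀ᶠ k in hyperfilter ℕ, ∀ᶠ m in hyperfilter ℕ, ∀ᶠ l in hyperfilter ℕ,
      ∀ p ∈ s, ‖β p m l (x {k})‖ ≤ η := fun η hη => by
    simp only [eventually_all_finset]
    intro p hp
    by_contra hc
    replace hc := (Ultrafilter.eventually_not.2 hc).mono fun m h =>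
      (Ultrafilter.eventually_not.2 h).mono fun m h => Ultrafilter.eventually_not.2 h
    obtain ⟨φ, p1, p2⟩ := extraction_of_frequently_atTop
      (hc.frequently.filter_mono Nat.hyperfilter_le_atTop)
    obtain ⟨N, hN⟩ := exhO (E := H →L[ℂ] H) (G * 1) hη
    obtain ⟨m, hm⟩ := ((eventually_all_finset (Finset.range N)).2 fun k _ => p2 k).exists
    obtain ⟨l, hl⟩ := ((eventually_all_finset (Finset.range N)).2 hm).exists
    obtain ⟨k, k1, k2⟩ := hN _ (hX.vm.map _ G0 (β1 p hp m l)) (fun k => {φ k}) fun a b e => by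
      simpa [onFun] using p1.injective.ne e
    exact hl k (Finset.mem_range.2 k1) k2
  obtain ⟨q, q1, q2⟩ := exists_seq_of_forall_finset_exists (fun a : ℕ × Set ℕ × ℝ =>
      a.2.1 ∈ hyperfilter ℕ ∧ 0 < a.2.2 ∧ a.2.2 ≤ ε / 16 ∧ (∀ l ∈ a.2.1, ¬∃ R : H →L[ℂ] H,
        ‖R‖ ≤ 4 ∧ ‖R (ξ a.1) - ξ l‖ ≤ ε ∧
        ∀ p ∈ s, ‖⟪ξ p.1, g (f p.1) (x {a.1}) (p.2 l) (R ∘L ev a.1)⟫_ℂ‖ ≤ ε) ∧
      ∀ᶠ m in hyperfilter ℕ, ∀ᶠ l in hyperfilter ℕ, ∀ p ∈ s, ‖β p m l (x {a.1})‖ ≤ a.2.2)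
    (fun a b => a.1 < b.1 ∧ b.1 ∈ a.2.1 ∧ b.2.2 ≤ a.2.2 / 2 ∧
      ∀ l ∈ b.2.1, ∀ p ∈ s, ‖β p b.1 l (x {a.1})‖ ≤ a.2.2) fun A hA => by
    obtain ⟨e, ⟨e1, e2⟩, e0⟩ := (((eventually_le_nhds (show 0 < ε / 16 by positivity)).and
      ((eventually_all_finset A).2 fun a ha => eventually_le_nhds (half_pos (hA a ha).2.1))
      ).filter_mono nhdsWithin_le_nhds |>.and (self_mem_nhdsWithin (s := Set.Ioi (0 : ℝ)))).exists
    obtain ⟨m, m1, m2, m3⟩ := (hn.and ((inv e e0).and ((eventually_all_finset A).2 fun a ha =>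
      ((eventually_gt_atTop a.1).filter_mono Nat.hyperfilter_le_atTop).and
        (Eventually.and (hA a ha).1 (hA a ha).2.2.2.2)))).exists
    exact ⟨(m, _, e), ⟨m1.and ((eventually_all_finset A).2 fun a ha => (m3 a ha).2.2), e0, e1,
      fun l hl => hl.1, m2⟩, fun a ha => ⟨(m3 a ha).1, (m3 a ha).2.1, e2 a ha,
        fun l hl => hl.2 a ha⟩⟩
  have hj : StrictMono fun t => (q t).1 := fun a b e => (q2 a b e).1
  have he : ∀ t, (q t).2.2 ≤ ε / 16 * (1 / 2) ^ t := fun t => by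
    induction t with
    | zero => simpa using (q1 0).2.2.1
    | succ t ih => rw [pow_succ]; linarith [(q2 t (t + 1) t.lt_succ_self).2.2.1]
  have v := hX.vm.un (B := fun t => {(q t).1}) fun a b e => by simpa [onFun] using hj.injective.ne e
  obtain ⟨S, s1, s2⟩ := fusion (fun t T => ∀ p ∈ s, ∀ W R : H →L[ℂ] H, ‖W‖ ≤ 4 → ‖R‖ ≤ 4 →
      ‖⟪ξ p.1, g (f p.1) (x (⋃ l ∈ T, {(q l).1})) W (R ∘L ev (q t).1)⟫_ℂ‖ ≤ ε / 4) fun t =>
    step_fin s _ fun p _ S hS => by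
      simpa only [Set.biUnion_singleton] using hg.exh hπ hI (h1 p.1).le (f p.1) (hX.le (q t).1)
        (v.un hS) (show 0 < ε / 4 by positivity)
  choose F hF using fun p : ℕ × (ℕ → H →L[ℂ] H) => kb hX hg (f p.1) (x (⋃ l ∈ S, {(q l).1}))
    (show 0 < ε / 4 by positivity)
  have := s1.to_subtype
  obtain ⟨T, t1, t2⟩ := tr (hyperfilter S) (fun n => ξ (q n).1) (fun _ => (h1 _).le)
    (insert ((ε : ℂ)⁻¹ • 1) (s.biUnion F))
  obtain ⟨t, ht, u, hu, htu⟩ := (show T.Infinite from fun h =>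
    h.notMem_hyperfilter t1).nontrivial.exists_lt
  obtain ⟨R, hR⟩ := t2 u hu t ht
  have lu := (q2 t u htu).2.1
  refine (q1 t).2.2.2.1 _ lu ⟨R, hR.1, hR.sm (c := 1) hε (Finset.mem_insert_self _ _),
    fun p hp => ?_⟩
  have a1 := (inle (h1 p.1).le _).trans (hF p _ _ R ⟨hR.1, fun c hc => hR.2 c
    (Finset.mem_insert_of_mem (Finset.mem_biUnion.2 ⟨p, hp, hc⟩))⟩ _ (hs p hp (q u).1))
  have a2 := s2 t t.2 p hp _ R (hs p hp (q u).1) hR.1
  have a3 : ‖∑ w ∈ (Finset.range t).filter (· ∈ S), β p (q t).1 (q u).1 (x {(q w).1}) R‖ ≤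
      ε / 16 * 2 * 4 := by
    refine (norm_sum_le_of_le _ fun w hw => le_of_opNorm_le_of_le _ (((q2 w t (Finset.mem_range.1
      (Finset.mem_filter.1 hw).1)).2.2.2 _ lu p hp).trans (he w)) hR.1).trans ?_
    rw [← Finset.sum_mul, ← Finset.mul_sum]
    gcongr
    exact (summable_geometric_two.sum_le_tsum _ fun _ _ => by positivity).trans_eq
      tsum_geometric_two
  have e1 : S = ((((Finset.range t).filter (· ∈ S) : Finset ℕ) : Set ℕ) ∪ {t.1}) ∪
      S ∩ Set.Ioi t.1 := by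
    ext n
    have := t.2
    simp only [Finset.coe_filter, Finset.mem_range, Set.mem_union, Set.mem_ofPred_eq,
      Set.mem_singleton_iff, Set.mem_inter_iff, Set.mem_Ioi]
    grind
  have e2 := v.add ((((Finset.range t).filter (· ∈ S) : Finset ℕ) : Set ℕ) ∪ {t.1}) (S ∩ Set.Ioi t.1)
    (Set.disjoint_left.2 (by simp; grind))
  rw [← e1, v.add _ _ (by simp), v.fin] at e2
  simp only [Set.biUnion_singleton] at e2
  rw [← β0] at a1 a2 ⊢
  rw [e2] at a1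
  simp only [map_add, map_sum, _root_.add_apply, _root_.sum_apply] at a1
  have := (norm_sub_le _ _).trans (add_le_add ((norm_sub_le _ _).trans (add_le_add a1 a2)) a3)
  rw [add_sub_cancel_right, add_sub_cancel_left] at this
  linarith

theorem caseB (hπ : Rep π) (hI : Itf π) (h1 : ∀ n, ‖ξ n‖ = 1) {f : ℕ → B} (hf : ∀ n, ‖f n‖ ≤ 1)
    (f1 : ∀ n, IsSelfAdjoint (f n)) (f2 : Pairwise ((· * · = 0) on f))
    (f3 : ∀ n, π (f n) (ξ n) = ξ n) : False := by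
  classical
  obtain ⟨X, _, _, _, r, ev, x, hr, hX⟩ := exX hπ h1
  obtain ⟨g, C, hg⟩ := hI X r hr
  have f4 : ∀ n m, n ≠ m → π (f n) (ξ m) = 0 := fun n m h => by
    rw [← f3 m, ← hπ.mul, show f n * f m = 0 from f2 h]; simp
  have f5 : ∀ m, r (f m) (x Set.univ) = x {m} := fun m => hX.inj _ _ fun n => by
    by_cases h : n = m <;> simp [hX.mor, hX.val, h, f3, f4 m n, Ne.symm]
  obtain ⟨κ, k0, k1⟩ := Bh.small (16 * |C|) (show (0 : ℝ) < 1 / 2 by norm_num)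
  obtain ⟨N, D, d1, d2⟩ := tri k0
  choose F hF using fun m => hg.clu (f m) (x Set.univ) (show (0 : ℝ) < 1 / 8 by norm_num)
  obtain ⟨q, q1, q2⟩ := exists_seq_of_forall_finset_exists
    (fun p : ℕ × (ℕ → H →L[ℂ] H) × (ℕ → H →L[ℂ] H) => (∀ l, ‖p.2.1 l‖ ≤ 4) ∧ (∀ l, ‖p.2.2 l‖ ≤ 4) ∧
      ∀ᶠ l in hyperfilter ℕ, ‖p.2.2 l (ξ p.1) - ξ l‖ ≤ 1 / 8)
    (fun p q => p.1 < q.1 ∧ ∀ᶠ l in hyperfilter ℕ, (∃ R, Gd (F p.1) (ξ q.1) (ξ l) R ∧
      q.2.1 l = adjoint R) ∧ ‖⟪ξ p.1, g (f p.1) (x {q.1}) (p.2.1 l) (q.2.2 l ∘L ev q.1)⟫_ℂ‖ ≤ 1 / 8)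
    fun s hs => by
    obtain ⟨T, t1, t2⟩ := tr (hyperfilter ℕ) ξ (fun n => (h1 n).le) (s.biUnion fun p => F p.1)
    obtain ⟨m, m1, m2, m3⟩ := ((upper hπ hI h1 hX hg hf (s.image fun p => (p.1, p.2.1))
      (Finset.forall_mem_image.2 fun p hp => (hs p hp).1) (show (0 : ℝ) < 1 / 8 by norm_num)).and
      (Eventually.and t1 ((eventually_all_finset s).2 fun p _ =>
        (eventually_gt_atTop p.1).filter_mono Nat.hyperfilter_le_atTop))).exists
    obtain ⟨R, hR⟩ := m1.choice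
    choose! W hW using fun l hl => t2 l hl m m2
    refine ⟨(m, fun l => if l ∈ T then adjoint (W l) else 0, fun l => if ‖R l‖ ≤ 4 then R l else 0),
      ⟨fun l => ?_, fun l => ?_, hR.mono fun l hl => ?_⟩, fun p hp => ⟨m3 p hp, ?_⟩⟩
    · dsimp only
      split_ifs with h
      exacts [by simpa using (hW l h).1, by simp]
    · dsimp only
      split_ifs with h
      exacts [h, by simp]
    · simpa only [if_pos hl.1] using hl.2.1
    · filter_upwards [hR, t1] with l hl hT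
      exact ⟨⟨W l, ⟨(hW l hT).1, fun c hc => (hW l hT).2 c (Finset.mem_biUnion.2 ⟨p, hp, hc⟩)⟩,
        if_pos hT⟩, by simpa only [if_pos hl.1] using hl.2.2 _ (Finset.mem_image_of_mem _ hp)⟩
  have hj : StrictMono fun t => (q t).1 := fun a b e => (q2 a b e).1
  obtain ⟨l, hl⟩ := ((eventually_all_finset (Finset.range N)).2 fun n _ =>
    ((eventually_gt_atTop (q n).1).filter_mono Nat.hyperfilter_le_atTop).and ((q1 n).2.2.and
      ((eventually_all_finset (Finset.range n)).2 fun m hm =>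
        (q2 m n (Finset.mem_range.1 hm)).2))).exists
  let J : ℕ → X →L[ℂ] H := fun m => (q m).2.2 l ∘L ev (q m).1
  have hJ : ∀ m, ‖J m‖ ≤ 4 := fun m => (hX.co _ _).trans ((q1 m).2.1 l)
  let u : ℕ → ℕ → ℕ → ℂ := fun k n m =>
    -⟪ξ (q n).1, g (f (q k).1) (x Set.univ) ((q n).2.1 l) (J m)⟫_ℂ
  obtain ⟨σ, s1, s2⟩ := signs (fun m k => D fun n m' => if m' = m then u k n m else 0) N
  have a1 := d1 (∑ m ∈ Finset.range N, fun n m' => if m' = m then u m n m else 0) fun n hn m hm => by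
    obtain ⟨-, -, b1⟩ := hl n (Finset.mem_range.2 hn)
    obtain ⟨⟨R, r1, r2⟩, b2⟩ := b1 m (Finset.mem_range.2 hm)
    obtain ⟨b3, b4, -⟩ := hl m (Finset.mem_range.2 (hm.trans hn))
    simp only [Finset.sum_apply, Finset.sum_ite_eq, Finset.mem_range, hn, hm.trans hn, if_true, u,
      neg_neg]
    constructor
    · have c1 := hF (q m).1 _ _ R r1 (h1 _).le (h1 _).le _ (hJ m)
      rw [← r2, hπ.st, (f1 _).star_eq, f4 _ _ b3.ne, inner_zero_left, zero_sub, sub_neg_eq_add, f5,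
        show J m (x {(q m).1}) = (q m).2.2 l (ξ (q m).1) by simp [J, hX.val]] at c1
      have c2 := (inle (h1 l).le _).trans b4
      rw [inner_sub_right, inner_self_eq_norm_sq_to_K, h1] at c2
      have c3 := (Complex.abs_re_le_norm _).trans c1
      have c4 := (Complex.abs_re_le_norm _).trans c2
      simp only [Complex.add_re, Complex.sub_re, Complex.neg_re, abs_le, RCLike.ofReal_one, one_pow,
        Complex.one_re] at c3 c4 ⊢
      linarith
    · have c1 := congrArg (⟪ξ (q m).1, ·⟫_ℂ)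
        (hg.g1 (f (q m).1) (f (q n).1) (x Set.univ) ((q m).2.1 l) (J n))
      simp only [show f (q m).1 * f (q n).1 = 0 from f2 (hj hm).ne, map_zero, _root_.zero_apply,
        inner_zero_right, inner_add_right, hπ.st, (f1 _).star_eq, f3, f5] at c1
      have c3 := (Complex.abs_re_le_norm _).trans b2
      rw [eq_neg_of_add_eq_zero_left c1.symm, Complex.neg_re]
      linarith [(abs_le.1 c3).2]
  have a2 := hg.g4 D (fun n => ξ (q n).1) (fun n => (q n).2.1 l)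
    (fun m => (if m < N then -σ m else 0 : ℝ) • J m) (κ * 16) (by positivity) (fun c c' z => by
      simp only [hπ.st c, ← adjoint_inner_left ((q _).2.1 l)]
      refine (d2 H _ _ (4 * (‖star c‖ * 1)) (‖c'‖ * (1 * 4 * ‖z‖)) (fun n => ?_) fun m => ?_).trans_eq
        (by rw [norm_star]; ring)
      · exact le_of_opNorm_le_of_le _ (by simpa using (q1 n).1 l)
          ((hπ.le _ _).trans_eq (by rw [h1]))
      · refine (hπ.le _ _).trans (mul_le_mul_of_nonneg_left (le_of_opNorm_le _ ?_ _) (norm_nonneg _))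
        rw [norm_smul]
        refine mul_le_mul ?_ (hJ m) (norm_nonneg _) zero_le_one
        split_ifs
        exacts [by simpa using s1 m, by simp])
    (∑ k ∈ Finset.range N, σ k • f (q k).1) (x Set.univ)
  have a3 : ‖∑ k ∈ Finset.range N, σ k • f (q k).1‖ ≤ 1 := by
    have := IsSelfAdjoint.nnnorm_sum_eq_sup (f := fun k => σ k • f (q k).1) (Finset.range N)
      (fun k _ => (IsSelfAdjoint.all (σ k)).smul (f1 _)) fun a b e => by
        simp [onFun, show f (q a).1 * f (q b).1 = 0 from f2 (hj.injective.ne e)]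
    refine (NNReal.coe_le_coe (r₂ := 1)).2 (this.trans_le (Finset.sup_le fun k _ =>
      (NNReal.coe_le_coe (r₂ := 1)).1 ?_))
    rw [coe_nnnorm, norm_smul]
    exact mul_le_one₀ (s1 k) (norm_nonneg _) (hf _)
  have a4 : ∑ m ∈ Finset.range N, ∑ k ∈ Finset.range N, (σ m * σ k *
      D fun n m' => if m' = m then u k n m else 0) = D fun n m => ⟪ξ (q n).1,
      g (∑ k ∈ Finset.range N, σ k • f (q k).1) (x Set.univ) ((q n).2.1 l)
        ((if m < N then -σ m else 0 : ℝ) • J m)⟫_ℂ := by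
    simp only [← smul_eq_mul, ← map_smul, ← map_sum]
    congr 1
    ext n m
    simp only [← Complex.coe_smul, map_sum, map_smul, _root_.sum_apply, _root_.smul_apply, inner_sum,
      inner_smul_right, Finset.sum_apply, Pi.smul_apply, smul_eq_mul, mul_ite, mul_zero]
    rw [Finset.sum_comm, Finset.mul_sum]
    refine Finset.sum_congr rfl fun k _ => ?_
    by_cases h : m < N <;> simp [h, u]
    ring
  rw [a4, ← map_sum] at s2
  have a5 := a1.trans (s2.trans ((Complex.re_le_norm _).trans a2))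
  have a6 : C * ‖∑ k ∈ Finset.range N, σ k • f (q k).1‖ * ‖x Set.univ‖ ≤ |C| * 1 * 1 := by
    gcongr
    exacts [le_abs_self C, hX.vm.le _]
  nlinarith

end Pool.Agent.H90.Cs
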