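import Mathlib
import Pool.Agent.H90.CsE

set_option maxSynthPendingDepth 4

namespace Pool.Agent.H90.Cs

open Filter Topology Function
open scoped InnerProductSpace ComplexOrder ComplexStarModule

variable {B : Type} [CStarAlgebra B]

/-- no infinite orthogonal sequence of nonzero self-adjoint elements -/
def NoO (B : Type) [CStarAlgebra B] : Prop :=
  ∀ a : ℕ → B, (∀ n, IsSelfAdjoint (a n)) → Pairwise ((· * · = 0) on a) → ∃ n, a n = 0

lemma NoO.fin (h : NoO B) {a : B} (ha : IsSelfAdjoint a) : (spectrum ℝ a).Finite := by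
  by_contra hn
  have := Set.Infinite.to_subtype hn
  obtain ⟨U, u1, u2, u3⟩ := exists_seq_infinite_isOpen_pairwise_disjoint (spectrum ℝ a)
  choose x hx using fun n => (u1 n).nonempty
  choose g g0 g1 g2 using fun n => exists_continuous_zero_one_of_isClosed (u2 n).isClosed_compl
    (isClosed_singleton (x := x n)) (by simpa using hx n)
  obtain ⟨n, hn⟩ := h (fun n => cfcHom ha (g n)) (fun n => cfcHom_predicate ha _) fun n m e => by
    have : g n * g m = 0 := by
      ext t
      by_cases ht : t ∈ U n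
      · simp [g0 m (Set.disjoint_left.1 (u3 e) ht)]
      · simp [g0 n ht]
    simp only [onFun, ← map_mul, this, map_zero]
  have := g1 n rfl
  rw [cfcHom_injective ha (hn.trans (map_zero _).symm)] at this
  simp at this

lemma NoO.wf (h : NoO B) : WellFounded fun q p : B =>
    IsStarProjection p ∧ IsStarProjection q ∧ p * q = q ∧ q ≠ p := by
  refine wellFounded_iff_isEmpty_descending_chain.2 ⟨fun ⟨p, hp⟩ => ?_⟩
  have l : ∀ i j, i ≤ j → p i * p j = p j := fun i j e => by
    induction j, e using Nat.le_induction with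
    | base => exact (hp i).1.isIdempotentElem
    | succ j _ ih => rw [← (hp j).2.2.1, ← mul_assoc, ih]
  have r : ∀ i j, i ≤ j → p j * p i = p j := fun i j e => by
    simpa [(hp _).1.isSelfAdjoint.star_eq] using congrArg star (l i j e)
  obtain ⟨n, hn⟩ := h (fun n => p n - p (n + 1))
    (fun n => (hp n).1.isSelfAdjoint.sub (hp n).2.1.isSelfAdjoint) fun i j e => by
      simp only [onFun, sub_mul, mul_sub]
      obtain e | e := e.lt_or_gt
      · rw [l i j e.le, l (i + 1) j e, l i (j + 1) (by omega), l (i + 1) (j + 1) (by omega)]; simp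
      · rw [r j i e.le, r (j + 1) i e, r j (i + 1) (by omega), r (j + 1) (i + 1) (by omega)]; simp
  exact (hp n).2.2.2 (sub_eq_zero.1 hn).symm

def Mn (p : B) : Prop := IsStarProjection p ∧ ∀ a, ∃ c : ℂ, p * a * p = c • p

lemma NoO.ind (h : NoO B) (P : B → Prop) (h1 : ∀ p, Mn p → P p)
    (h2 : ∀ p q, P p → P q → P (p + q)) (p : B) : IsStarProjection p → P p := by
  classical
  induction p using h.wf.induction with | _ p ih =>
  intro hp
  by_cases hq : ∃ q, IsStarProjection q ∧ p * q = q ∧ q ≠ p ∧ q ≠ 0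
  · obtain ⟨q, q1, q2, q3, q4⟩ := hq
    have q5 := q1.sub_of_mul_eq_right hp q2
    simpa using h2 _ _ (ih q ⟨hp, q1, q2, q3⟩ q1) (ih (p - q) ⟨hp, q5, by
      rw [mul_sub, q2, hp.isIdempotentElem], by simpa using q4⟩ q5)
  have key : ∀ a, IsSelfAdjoint a → p * a * p ∈ Submodule.span ℂ {p} := fun a ha => by
    have hb : IsSelfAdjoint (p * a * p) := by
      simpa only [hp.isSelfAdjoint.star_eq] using ha.conjugate p
    have hc : p * (p * a * p) = p * a * p := by
      rw [← mul_assoc, ← mul_assoc, hp.isIdempotentElem]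
    generalize p * a * p = b at hb hc
    have hf := h.fin hb
    have e : b = ∑ t ∈ hf.toFinset, cfc (fun s => t * Pi.single (M := fun _ => ℝ) t 1 s) b := by
      rw [← cfc_sum _ _ _ fun _ _ => hf.continuousOn _]
      refine (cfc_id' ℝ b).symm.trans (cfc_congr fun s hs => ?_)
      simp [Pi.single_apply, hs]
    rw [e]
    refine sum_mem fun t _ => ?_
    rw [cfc_const_mul _ _ _ (hf.continuousOn _)]
    by_cases ht : t = 0
    · simp [ht]
    refine Submodule.smul_of_tower_mem _ _ ?_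
    by_contra hn
    refine hq ⟨cfc (Pi.single (M := fun _ => ℝ) t 1) b, ⟨?_, cfc_predicate _ _⟩, ?_,
      fun e => hn (e ▸ Submodule.mem_span_singleton_self _), fun e => hn (e ▸ zero_mem _)⟩
    · refine (cfc_mul _ _ _ (hf.continuousOn _) (hf.continuousOn _)).symm.trans
        (cfc_congr fun s _ => ?_)
      by_cases hs : s = t <;> simp [hs]
    · have : cfc (Pi.single (M := fun _ => ℝ) t 1) b =
          b * cfc (Pi.single (M := fun _ => ℝ) t t⁻¹) b := by
        nth_rw 2 [← cfc_id' ℝ b]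
        refine Eq.trans (cfc_congr fun s _ => ?_)
          (cfc_mul _ _ _ (hf.continuousOn _) (hf.continuousOn _))
        by_cases hs : s = t <;> simp [hs, ht]
      rw [this, ← mul_assoc, hc]
  refine h1 p ⟨hp, fun a => ?_⟩
  obtain ⟨c, hc⟩ := Submodule.mem_span_singleton.1 (add_mem (key _ (ℜ a).2)
    (Submodule.smul_mem _ Complex.I (key _ (ℑ a).2)))
  refine ⟨c, Eq.trans ?_ hc.symm⟩
  rw [← smul_mul_assoc, ← mul_smul_comm, ← add_mul, ← mul_add, realPart_add_I_smul_imaginaryPart]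

lemma NoO.fd (h : NoO B) : FiniteDimensional ℂ B := by
  classical
  let D : B → B → Prop := fun p q => ∃ s : Finset B, ∀ a, p * a * q ∈ Submodule.span ℂ (s : Set B)
  have un : ∀ {s t : Finset B} {x y}, x ∈ Submodule.span ℂ (s : Set B) →
      y ∈ Submodule.span ℂ (t : Set B) → x + y ∈ Submodule.span ℂ ((s ∪ t : Finset B) : Set B) :=
    fun hx hy => add_mem (Submodule.span_mono (by simp) hx) (Submodule.span_mono (by simp) hy)
  obtain ⟨s, hs⟩ : D 1 1 := by
    refine h.ind (D 1) (fun q hq => h.ind (D · q) (fun p hp => ?_) ?_ 1 (.one B)) ?_ 1 (.one B)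
    · by_cases h0 : ∀ a, p * a * q = 0
      · exact ⟨∅, by simp [h0]⟩
      obtain ⟨a, ha⟩ := not_forall.1 h0
      obtain ⟨c, hc⟩ := hq.2 (star a * p * a)
      have e : star (p * a * q) * (p * a * q) = c • q := by
        rw [← hc, star_mul, star_mul, hp.1.isSelfAdjoint.star_eq, hq.1.isSelfAdjoint.star_eq]
        nth_rw 3 [← hp.1.isIdempotentElem]
        noncomm_ring
      have c0 : c ≠ 0 := fun e' => ha (CStarRing.star_mul_self_eq_zero_iff _ |>.1 (by
        rw [e, e', zero_smul]))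
      refine ⟨{p * a * q}, fun b => ?_⟩
      obtain ⟨d, hd⟩ := hp.2 (b * q * star a)
      have e2 : c • (p * b * q) = d • (p * a * q) := by
        calc _ = p * b * (q * (star a * p * a) * q) := by rw [hc, mul_smul_comm]
          _ = (p * (b * q * star a) * p) * a * q := by noncomm_ring
          _ = _ := by rw [hd, smul_mul_assoc, smul_mul_assoc]
      rw [Finset.coe_singleton, Submodule.mem_span_singleton]
      exact ⟨c⁻¹ * d, by rw [mul_smul, ← e2, inv_smul_smul₀ c0]⟩
    · rintro p p' ⟨s, hs⟩ ⟨t, ht⟩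
      exact ⟨s ∪ t, fun a => by simpa only [add_mul] using un (hs a) (ht a)⟩
    · rintro p p' ⟨s, hs⟩ ⟨t, ht⟩
      exact ⟨s ∪ t, fun a => by simpa only [mul_add] using un (hs a) (ht a)⟩
  exact ⟨s, eq_top_iff.2 fun a _ => by simpa using hs a⟩

lemma ex_fp {a : B} (ha : IsSelfAdjoint a) (h0 : a ≠ 0) : ∃ f u p : B, IsSelfAdjoint f ∧ ‖f‖ ≤ 1 ∧
    f = a * u ∧ f = u * a ∧ f * p = p ∧ p ≠ 0 := by
  obtain ⟨t, t1, t2⟩ : ∃ t ∈ spectrum ℝ a, t ≠ 0 := by
    by_contra! hn
    exact h0 ((cfc_id' ℝ a).symm.trans ((cfc_congr hn).trans (cfc_zero ℝ a)))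
  have d0 : 0 < t ^ 2 / 2 := by positivity
  have m0 : ∀ s : ℝ, 0 < max (s ^ 2) (t ^ 2 / 2) := fun s => d0.trans_le (le_max_right _ _)
  have cu : Continuous fun s : ℝ => s / max (s ^ 2) (t ^ 2 / 2) :=
    continuous_id.div (by fun_prop) fun s => (m0 s).ne'
  refine ⟨cfc (fun s : ℝ => s * (s / max (s ^ 2) (t ^ 2 / 2))) a,
    cfc (fun s : ℝ => s / max (s ^ 2) (t ^ 2 / 2)) a, cfc (fun s : ℝ => max (s ^ 2 - t ^ 2 / 2) 0) a,
    cfc_predicate _ _, norm_cfc_le zero_le_one fun s _ => ?_,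
    by rw [cfc_mul _ _ _ (by fun_prop) cu.continuousOn, cfc_id' ℝ a],
    (cfc_congr fun s _ => mul_comm _ _).trans (by
      rw [cfc_mul _ _ _ cu.continuousOn (by fun_prop), cfc_id' ℝ a]), ?_, fun e => ?_⟩
  · rw [← mul_div_assoc, ← sq, Real.norm_of_nonneg (div_nonneg (sq_nonneg _) (m0 s).le),
      div_le_one (m0 s)]
    exact le_max_left _ _
  · refine (cfc_mul _ _ _ (continuous_id'.mul cu).continuousOn (by fun_prop)).symm.trans
      (cfc_congr fun s _ => ?_)
    obtain e | e := le_total (s ^ 2) (t ^ 2 / 2)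
    · simp [max_eq_right (sub_nonpos.2 e)]
    · have := (d0.trans_le e).ne'
      simp only [Pi.mul_apply, max_eq_left e, ← mul_div_assoc, ← sq, div_self this, one_mul]
  · have := eqOn_of_cfc_eq_cfc (e.trans (cfc_zero ℝ a).symm) (by fun_prop) continuousOn_const ha t1
    simp only [Pi.zero_apply, max_eq_right_iff] at this
    linarith

lemma pos_of_norm [PartialOrder B] [StarOrderedRing B] [Nontrivial B] (g : B →L[ℂ] ℂ)
    (h : ∀ b, ‖g b‖ ≤ ‖b‖) (h1 : g 1 = 1) (a : B) (ha : 0 ≤ a) : 0 ≤ g a := by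
  have him : (g a).im = 0 := by
    have key : ∀ t : ℝ, 2 * (g a).im * t ≤ ‖a‖ ^ 2 := fun t => by
      have e : star (a + (t * Complex.I : ℂ) • 1) * (a + (t * Complex.I : ℂ) • 1) =
          a * a + (t ^ 2 : ℂ) • 1 := by
        simp only [star_add, ha.star_eq, star_smul, star_one, mul_add, add_mul, smul_mul_assoc,
          mul_smul_comm, one_mul, mul_one, smul_add, smul_smul, star_mul', Complex.star_def,
          Complex.conj_I, Complex.conj_ofReal]
        rw [show (t * Complex.I * (t * -Complex.I) : ℂ) = t ^ 2 by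
          linear_combination -(t : ℂ) ^ 2 * Complex.I_sq]
        module
      have e2 : ‖a + (t * Complex.I : ℂ) • 1‖ ^ 2 ≤ ‖a‖ ^ 2 + t ^ 2 := by
        rw [sq, ← CStarRing.norm_star_mul_self, e]
        refine (norm_add_le _ _).trans (add_le_add ((norm_mul_le _ _).trans_eq (sq _).symm) ?_)
        simp [norm_smul]
      have e3 := pow_le_pow_left₀ (norm_nonneg _) (h (a + (t * Complex.I : ℂ) • 1)) 2
      rw [Complex.sq_norm, Complex.normSq_apply] at e3
      simp [h1] at e3
      nlinarith [mul_self_nonneg (g a).re, mul_self_nonneg (g a).im]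
    by_contra hn
    have := key ((‖a‖ ^ 2 + 1) / (2 * (g a).im))
    rw [mul_div_cancel₀ _ (by simpa using hn)] at this
    linarith
  have h2 : ‖algebraMap ℝ B ‖a‖ - a‖ ≤ ‖a‖ := by
    simpa using CStarAlgebra.norm_le_norm_of_nonneg_of_le
      (sub_nonneg.2 (IsSelfAdjoint.le_algebraMap_norm_self ha.isSelfAdjoint)) (sub_le_self _ ha)
  have h3 := (Complex.re_le_norm _).trans ((h _).trans h2)
  rw [Algebra.algebraMap_eq_smul_one, ← Complex.coe_smul] at h3
  refine ⟨?_, him.symm⟩
  simpa [h1] using h3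

lemma ex_st {p : B} (hp : p ≠ 0) : ∃ g : B →L[ℂ] ℂ, ‖g‖ ≤ 1 ∧ (∀ a, 0 ≤ g (star a * a)) ∧
    g (star p * p) ≠ 0 := by
  let _ := CStarAlgebra.spectralOrder B
  have := CStarAlgebra.spectralOrderedRing B
  have := nontrivial_of_ne _ _ hp
  have a0 := norm_pos_iff.2 ((CStarRing.star_mul_self_ne_zero_iff p).2 hp)
  have a1 := star_mul_self_nonneg p
  generalize star p * p = a at a0 a1
  have s := spectrum.norm_le_norm_of_mem ((spectrum.add_mem_add_iff (s := ‖a‖)).2
    (CStarAlgebra.norm_mem_spectrum_of_nonneg a1))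
  obtain ⟨g, g1, g2⟩ := exists_dual_vector'' ℂ (algebraMap ℝ B ‖a‖ + a)
  have gl : ∀ b, ‖g b‖ ≤ ‖b‖ := fun b => by simpa using g.le_of_opNorm_le g1 b
  have e := congrArg Complex.re g2
  rw [Algebra.algebraMap_eq_smul_one, ← Complex.coe_smul] at e s
  have b1 := (Complex.re_le_norm _).trans (gl a)
  have b2 : ‖g 1‖ ≤ 1 := by simpa using gl 1
  have b3 := (Complex.re_le_norm _).trans b2
  simp only [map_add, map_smul, smul_eq_mul, Complex.add_re, Complex.re_ofReal_mul,
    Complex.coe_algebraMap, Complex.ofReal_re] at e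
  replace s := (le_abs_self _).trans s
  have b4 : (g 1).re = 1 := by nlinarith
  refine ⟨g, g1, fun b => pos_of_norm g gl ?_ _ (star_mul_self_nonneg b), fun h => ?_⟩
  · have := pow_le_pow_left₀ (norm_nonneg _) b2 2
    rw [Complex.sq_norm, Complex.normSq_apply, b4] at this
    exact Complex.ext b4 (by simpa using (by nlinarith : (g 1).im * (g 1).im = 0))
  · rw [h, b4] at e
    simp only [Complex.zero_re] at e
    linarith

theorem no_itf (hB : ¬FiniteDimensional ℂ B) : ∃ (K : Type) (_ : NormedAddCommGroup K)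
    (_ : InnerProductSpace ℂ K) (_ : CompleteSpace K) (ρ : B →L[ℂ] K →L[ℂ] K), Rep ρ ∧ ¬Itf ρ := by
  have hn : ¬NoO B := fun h => hB h.fd
  simp only [NoO, not_forall, not_exists] at hn
  obtain ⟨a, a1, a2, a3⟩ := hn
  choose f u p f1 f2 f3 f4 f5 f6 using fun n => ex_fp (a1 n) (a3 n)
  choose g g1 g2 g3 using fun n => ex_st (f6 n)
  have sm : Summable fun n => ((1 / 2 : ℝ) ^ n : ℝ) • g n :=
    .of_norm_bounded summable_geometric_two fun n => by
      rw [norm_smul, Real.norm_of_nonneg (by positivity)]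
      exact mul_le_of_le_one_right (by positivity) (g1 n)
  have hs := fun b => sm.hasSum.mapL (ContinuousLinearMap.apply ℂ ℂ b)
  have nn : ∀ b n, 0 ≤ ContinuousLinearMap.apply ℂ ℂ (star b * b) (((1 / 2 : ℝ) ^ n : ℝ) • g n) :=
    fun b n => smul_nonneg (a := ((1 / 2 : ℝ) ^ n : ℝ)) (by positivity) (g2 n b)
  obtain ⟨K, _, _, _, ρ, ι, r1, -, r2, r3⟩ := gns (∑' n, ((1 / 2 : ℝ) ^ n : ℝ) • g n).toLinearMap
    fun b => hasSum_le (nn b) hasSum_zero (hs _)
  have i0 : ∀ n, ι (p n) ≠ 0 := fun n e => by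
    have := (le_hasSum (hs _) n fun m _ => nn (p n) m).trans_eq (r3 _ _).symm
    rw [e, inner_zero_left] at this
    simpa [g3] using this.antisymm (nn _ _)
  exact ⟨K, _, _, ‹_›, ρ, r1, fun hI => caseB (ξ := fun n => (‖ι (p n)‖⁻¹ : ℂ) • ι (p n)) r1 hI
    (fun n => norm_smul_inv_norm (i0 n)) f2 f1 (fun n m e => by
      rw [onFun, f4 n, f3 m, mul_assoc, ← mul_assoc (a n), show a n * a m = 0 from a2 e]; simp)
    fun n => by rw [map_smul, r2, f5]⟩

theorem main (A : Type) [NonUnitalCStarAlgebra A] (hA : ¬FiniteDimensional ℂ A) :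
    ∃ M : LMod A, ¬HasRes M 1 := by
  by_contra! H
  obtain ⟨K, _, _, _, ρ, r1, r2⟩ := no_itf (B := Unitization ℂ A) fun h =>
    hA (FiniteDimensional.of_injective (Unitization.inrHom ℂ ℂ A) Unitization.inr_injective)
  exact r2 fun M _ _ _ r hr => ex_Sp hr (H _) r1.toAct

end Pool.Agent.H90.Cs
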