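import Mathlib

namespace Pool.Agent.H90.DG

open Filter Topology

noncomputable section

abbrev H : Type := lp (fun _ : ℕ ⊕ ℕ => ℝ) 2

def mu (x y : ℝ) : ℝ := 4 * x * y / (x + y) ^ 2

def vv (x : ℝ) (k : ℕ) : ℝ := 4 * x / (x + 1) ^ 2 * (√((k : ℝ) + 1) * ((x - 1) / (x + 1)) ^ k)

lemma hasSum_vv {x y : ℝ} (hx : 1 ≤ x) (hy : 1 ≤ y) :
    HasSum (fun k => vv x k * vv y k) (mu x y) := by
  set r : ℝ := (x - 1) / (x + 1) * ((y - 1) / (y + 1)) with hr
  have h1 : 1 - r = 2 * (x + y) / ((x + 1) * (y + 1)) := by rw [hr]; field_simp; ring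
  have h0 : 0 ≤ r := by
    have : 0 ≤ x - 1 := by linarith
    have : 0 ≤ y - 1 := by linarith
    positivity
  have h2 : r < 1 := by
    have : 0 < 2 * (x + y) / ((x + 1) * (y + 1)) := by positivity
    linarith
  have h := (hasSum_choose_mul_geometric_of_norm_lt_one 1
    (show ‖r‖ < 1 by rwa [Real.norm_of_nonneg h0])).mul_left
    (4 * x / (x + 1) ^ 2 * (4 * y / (y + 1) ^ 2))
  have e : 4 * x / (x + 1) ^ 2 * (4 * y / (y + 1) ^ 2) * (1 / (1 - r) ^ (1 + 1)) = mu x y := by
    have hx1 : x + 1 ≠ 0 := by positivity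
    have hy1 : y + 1 ≠ 0 := by positivity
    have hxy : x + y ≠ 0 := by positivity
    rw [h1, mu, div_pow, mul_pow, mul_pow]; field_simp; ring
  rw [e] at h
  refine h.congr_fun ?_
  intro k
  have : √((k : ℝ) + 1) * √((k : ℝ) + 1) = k + 1 := Real.mul_self_sqrt (by positivity)
  simp only [vv, hr, mul_pow, Nat.choose_one_right, Nat.cast_add, Nat.cast_one]
  rw [← this]
  simp only [Real.sqrt_mul_self (Real.sqrt_nonneg _)]
  ring

def X (i : ℕ) : ℝ := i + 50

lemma X_ge (i : ℕ) : 50 ≤ X i := by unfold X; have := Nat.cast_nonneg (α := ℝ) i; linarith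

lemma X_succ (i : ℕ) : X (i + 1) = X i + 1 := by unfold X; push_cast; ring

def mf (i : ℕ) : ℕ ⊕ ℕ → ℝ := Sum.elim (vv (X i)) 0

lemma hasSum_mf (i j : ℕ) : HasSum (fun k => mf i k * mf j k) (mu (X i) (X j)) := by
  refine (Function.Injective.hasSum_iff Sum.inl_injective ?_).1
    (hasSum_vv (by linarith [X_ge i]) (by linarith [X_ge j]))
  rintro (k | k) hk
  · simp at hk
  · simp [mf]

def m (i : ℕ) : H := ⟨mf i, memℓp_gen (by
  have := (hasSum_mf i i).summable
  simpa [sq] using this)⟩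

lemma inner_m (i j : ℕ) : inner ℝ (m i) (m j) = mu (X i) (X j) := by
  refine (lp.hasSum_inner (m i) (m j)).unique ?_
  refine (hasSum_mf i j).congr_fun fun k => ?_
  change inner ℝ (mf i k) (mf j k) = _
  simp [mul_comm]

def b (k : ℕ ⊕ ℕ) : H := lp.single 2 k 1

lemma inner_b (k : ℕ ⊕ ℕ) (v : H) : inner ℝ v (b k) = v k := by
  rw [b, lp.inner_single_right]; simp

lemma b_apply (k l : ℕ ⊕ ℕ) : (b k : ℕ ⊕ ℕ → ℝ) l = if l = k then 1 else 0 := by
  simp [b, Pi.single_apply]

lemma norm_b (k : ℕ ⊕ ℕ) : ‖b k‖ = 1 := by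
  rw [b, lp.norm_single (by norm_num)]; simp

def E (k : ℕ) : H := b (Sum.inr k)

lemma inner_E (k l : ℕ) : inner ℝ (E k) (E l) = if k = l then 1 else 0 := by
  simp [E, inner_b, b_apply, eq_comm]

lemma inner_mE (i k : ℕ) : inner ℝ (m i) (E k) = 0 := by rw [E, inner_b]; rfl

lemma inner_Em (i k : ℕ) : inner ℝ (E k) (m i) = 0 := by rw [real_inner_comm, inner_mE]

lemma mu_self {x : ℝ} (hx : 0 < x) : mu x x = 1 := by unfold mu; field_simp; ring

lemma mu_nonneg {x y : ℝ} (hx : 0 < x) (hy : 0 < y) : 0 ≤ mu x y := by unfold mu; positivity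

lemma mu_eq {x y : ℝ} (hx : 0 < x) (hy : 0 < y) : mu x y = 1 - ((x - y) / (x + y)) ^ 2 := by
  unfold mu; field_simp; ring

lemma mu_le {x y : ℝ} (hx : 0 < x) (hy : 0 < y) : mu x y ≤ 1 := by
  rw [mu_eq hx hy]; nlinarith [sq_nonneg ((x - y) / (x + y))]

lemma mu_slope {x y : ℝ} (hx : 0 < x) (hy : 0 < y) : |mu x y - mu x (y + 1)| ≤ 4 * (1 / x) := by
  rw [mu_eq hx hy, mu_eq hx (by linarith)]
  set a := (x - y) / (x + y) with ha
  set c := (x - (y + 1)) / (x + (y + 1)) with hc
  have h1 : |a| ≤ 1 := by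
    rw [ha, abs_div, div_le_one (by positivity), abs_of_pos (by linarith : 0 < x + y), abs_le]
    constructor <;> linarith
  have h2 : |c| ≤ 1 := by
    rw [hc, abs_div, div_le_one (by positivity), abs_of_pos (by linarith : 0 < x + (y + 1)), abs_le]
    constructor <;> linarith
  have h3 : a - c = 2 * x / ((x + y) * (x + y + 1)) := by rw [ha, hc]; field_simp; ring
  have h4 : |a - c| ≤ 2 * (1 / x) := by
    rw [h3, abs_of_pos (by positivity), mul_one_div, div_le_div_iff₀ (by positivity) hx]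
    nlinarith [mul_pos hx hy, mul_pos hy hy]
  have : 1 - a ^ 2 - (1 - c ^ 2) = -((a - c) * (a + c)) := by ring
  rw [this, abs_neg, abs_mul]
  have h5 : |a + c| ≤ 2 := (abs_add_le _ _).trans (by linarith)
  calc _ ≤ 2 * (1 / x) * 2 := by gcongr
    _ = _ := by ring

def th (i : ℕ) : ℝ := 1 / X i
def dl (i : ℕ) : ℝ := 1 - mu (X i) (X i - 1)
def th' (i : ℕ) : ℝ := th i + dl i / 10

lemma th_pos (i : ℕ) : 0 < th i := by unfold th; have := X_ge i; positivity
lemma th_le (i : ℕ) : th i ≤ 1 / 50 := one_div_le_one_div_of_le (by norm_num) (X_ge i)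

lemma dl_bd (i : ℕ) : 0 ≤ dl i ∧ dl i ≤ th i ^ 2 := by
  have h := X_ge i
  have e : dl i = (1 / (2 * X i - 1)) ^ 2 := by
    rw [dl, mu_eq (by linarith) (by linarith)]
    have : X i + (X i - 1) = 2 * X i - 1 := by ring
    rw [this]; ring
  rw [e]
  refine ⟨by positivity, pow_le_pow_left₀ (by apply div_nonneg <;> linarith) ?_ 2⟩
  exact one_div_le_one_div_of_le (by linarith) (by linarith)

lemma th_succ (i : ℕ) : th i - th (i + 1) = th i * th (i + 1) := by
  have h := X_ge i
  unfold th; rw [X_succ]; field_simp; ring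

def ze (i : ℕ) : H := th' i • E (i + 1) + th i • E (i + 2) - th i • E (i + 3)
def n (i : ℕ) : H := m i + ze i
def f (j : ℕ) : H := (2 : ℝ) • m j + (20 : ℝ) • E (j + 2)

def z (i k : ℕ) : ℝ :=
  if i + 1 = k then th' i else if i + 2 = k then th i else if i + 3 = k then -th i else 0

lemma inner_zeE (i k : ℕ) : inner ℝ (ze i) (E k) = z i k := by
  simp only [ze, inner_sub_left, inner_add_left, real_inner_smul_left, inner_E, z]
  split_ifs <;> first | omega | ring

lemma inner_zem (i j : ℕ) : inner ℝ (ze i) (m j) = 0 := by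
  simp only [ze, inner_sub_left, inner_add_left, real_inner_smul_left, inner_Em]; ring

lemma norm_ze (i : ℕ) : ‖ze i‖ ≤ 2 * th i := by
  have h : inner ℝ (ze i) (ze i) = th' i ^ 2 + 2 * th i ^ 2 := by
    conv_lhs => rw [show ze i = th' i • E (i + 1) + th i • E (i + 2) - th i • E (i + 3) from rfl]
    simp only [inner_sub_right, inner_add_right, real_inner_smul_right]
    rw [← ze]
    simp only [inner_zeE, z]
    simp
    ring
  rw [real_inner_self_eq_norm_sq] at h
  have h1 := th_pos i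
  have h2 := th_le i
  have h3 := dl_bd i
  refine (abs_le_of_sq_le_sq' ?_ (by positivity)).2
  have h4 : th' i ≤ 1.1 * th i := by unfold th'; nlinarith
  have h5 : 0 ≤ th' i := by unfold th'; nlinarith
  nlinarith

lemma abs_zz (i j : ℕ) : |inner ℝ (ze i) (ze j)| ≤ 4 * (th i * th j) := by
  refine (abs_real_inner_le_norm _ _).trans ?_
  have := th_pos i
  calc _ ≤ (2 * th i) * (2 * th j) := by gcongr <;> exact norm_ze _
    _ = _ := by ring

lemma norm_m (i : ℕ) : ‖m i‖ = 1 := by
  have := inner_m i i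
  rw [mu_self (by linarith [X_ge i]), real_inner_self_eq_norm_sq] at this
  nlinarith [norm_nonneg (m i)]

lemma inner_nf (i j : ℕ) : inner ℝ (n i) (f j) = 2 * mu (X i) (X j) + 20 * z i (j + 2) := by
  simp only [n, f, inner_add_left, inner_add_right, real_inner_smul_right, inner_m, inner_mE,
    inner_zeE, inner_zem]
  ring

lemma inner_nn (i j : ℕ) : inner ℝ (n i) (n j) = mu (X i) (X j) + inner ℝ (ze i) (ze j) := by
  simp only [n, inner_add_left, inner_add_right, inner_m, inner_zem, real_inner_comm (ze j) (m i)]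
  ring

def G (i j : ℕ) : ℝ := inner ℝ (n i) (f j - n j)

lemma G_eq (i j : ℕ) : G i j = mu (X i) (X j) + 20 * z i (j + 2) - inner ℝ (ze i) (ze j) := by
  rw [G, inner_sub_right, inner_nf, inner_nn]; ring

lemma G_diag (i : ℕ) : 1 + 20 * th i - 4 * th i ^ 2 ≤ G i i := by
  rw [G_eq, mu_self (by linarith [X_ge i])]
  have := (abs_le.1 (abs_zz i i)).2
  simp only [z]
  rw [if_neg (by omega), if_pos trivial]
  nlinarith

lemma G_diag' (i : ℕ) : 1 + 16 * th i ≤ G i i := by
  have := G_diag i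
  nlinarith [th_pos i, th_le i]

lemma G_sq (i j : ℕ) : G i j ^ 2 ≤ G i i * G j j := by
  by_cases h1 : i = j
  · subst h1; rw [sq]
  have a1 := th_pos i
  have a2 := th_pos j
  have a3 := th_le i
  have a4 := th_le j
  have hz := abs_le.1 (abs_zz i j)
  by_cases h2 : i = j + 1
  · subst h2
    have e : G (j + 1) j = 1 + 20 * th (j + 1) + dl (j + 1) - inner ℝ (ze (j + 1)) (ze j) := by
      rw [G_eq]
      simp only [z]
      rw [if_pos trivial, th', dl, X_succ, add_sub_cancel_right]; ring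
    have d1 := G_diag (j + 1)
    have d2 := G_diag j
    have s := th_succ j
    have d := dl_bd (j + 1)
    set t := th j
    set u := th (j + 1)
    set Y := 1 + 20 * u with hY
    have hτ : 0 < t * u := by positivity
    have hτ2 : t * u ≤ 1 / 2500 := by nlinarith
    have q1 : u ^ 2 ≤ t * u := by nlinarith
    have q2 : t ^ 2 ≤ 1.1 * (t * u) := by nlinarith
    have u1 : G (j + 1) j ≤ Y + 5 * (t * u) := by rw [e]; nlinarith
    have u2 : -(Y + 5 * (t * u)) ≤ G (j + 1) j := by rw [e]; nlinarith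
    have l1 : Y - 4 * (t * u) ≤ G (j + 1) (j + 1) := by linarith
    have l2 : Y + 15 * (t * u) ≤ G j j := by linarith
    have hY1 : 1 ≤ Y := by linarith
    calc _ ≤ (Y + 5 * (t * u)) ^ 2 := sq_le_sq' u2 u1
      _ ≤ (Y - 4 * (t * u)) * (Y + 15 * (t * u)) := by nlinarith
      _ ≤ _ := mul_le_mul l1 l2 (by linarith) (by linarith)
  · have m1 := mu_nonneg (x := X i) (y := X j) (by linarith [X_ge i]) (by linarith [X_ge j])
    have m2 := mu_le (x := X i) (y := X j) (by linarith [X_ge i]) (by linarith [X_ge j])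
    have hz2 : -th i ≤ z i (j + 2) ∧ z i (j + 2) ≤ 0 := by
      simp only [z]
      rw [if_neg (by omega), if_neg (by omega)]
      split_ifs <;> constructor <;> linarith
    have u1 : G i j ≤ 1 + 4 * (th i * th j) := by rw [G_eq]; linarith
    have u2 : -(1 + 4 * (th i * th j)) ≤ G i j := by rw [G_eq]; linarith
    have hτ : 0 < th i * th j := by positivity
    have hτ2 : th i * th j ≤ th i := by nlinarith
    calc _ ≤ (1 + 4 * (th i * th j)) ^ 2 := sq_le_sq' u2 u1
      _ ≤ (1 + 16 * th i) * (1 + 16 * th j) := by nlinarith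
      _ ≤ _ := mul_le_mul (G_diag' i) (G_diag' j) (by linarith) (by linarith [G_diag' i])

def d (j : ℕ) : H := f j - f (j + 1)

lemma inner_nd (i j : ℕ) : inner ℝ (n i) (d j)
    = 2 * (mu (X i) (X j) - mu (X i) (X j + 1)) + 20 * (z i (j + 2) - z i (j + 3)) := by
  rw [d, inner_sub_right, inner_nf, inner_nf, X_succ]; ring

lemma nd_zero (j : ℕ) : inner ℝ (n (j + 1)) (d j) = 0 := by
  rw [inner_nd]
  simp only [z]
  rw [if_pos trivial, if_neg (by omega), if_pos trivial, th', dl, X_succ, add_sub_cancel_right,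
    mu_self (by linarith [X_ge j])]
  ring

lemma nd_diag (j : ℕ) : 40 * th j ≤ inner ℝ (n j) (d j) := by
  rw [inner_nd]
  simp only [z]
  rw [if_neg (by omega), if_pos trivial, if_neg (by omega), if_neg (by omega), if_pos trivial,
    mu_self (by linarith [X_ge j])]
  have := mu_le (x := X j) (y := X j + 1) (by linarith [X_ge j]) (by linarith [X_ge j])
  linarith

lemma nd_bd (i j : ℕ) : |inner ℝ (n i) (d j)| ≤ (if i = j then 48 else 29) * th i := by
  rw [inner_nd]
  have h := abs_le.1 (mu_slope (x := X i) (y := X j) (by linarith [X_ge i]) (by linarith [X_ge j]))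
  rw [← th] at h
  have a1 := th_pos i
  have a3 := th_le i
  have a4 := dl_bd i
  have a5 : dl i ≤ th i / 50 := by nlinarith
  have a6 : th' i = th i + dl i / 10 := rfl
  rw [abs_le]
  simp only [z]
  split_ifs <;> first | omega | (constructor <;> linarith)

lemma norm_d (j : ℕ) : 28 ≤ ‖d j‖ ∧ ‖d j‖ ≤ 29 := by
  have h : inner ℝ (d j) (d j) = 800 + 8 * dl (j + 1) := by
    have hX := X_ge j
    simp only [d, f, inner_sub_left, inner_sub_right, inner_add_left, inner_add_right,
      real_inner_smul_right, real_inner_smul_left, inner_m, inner_mE, inner_Em, inner_E, dl, X_succ,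
      add_sub_cancel_right]
    rw [mu_self (by linarith), mu_self (by linarith)]
    have : mu (X j) (X j + 1) = mu (X j + 1) (X j) := by unfold mu; ring
    rw [this]
    simp
    ring
  rw [real_inner_self_eq_norm_sq] at h
  have a1 := dl_bd (j + 1)
  have a2 := th_le (j + 1)
  have a3 := th_pos (j + 1)
  have a4 : th (j + 1) ^ 2 ≤ 1 := by nlinarith
  have := norm_nonneg (d j)
  constructor <;> nlinarith

lemma norm_w (j : ℕ) : ‖f j - n j‖ ≤ 23 := by
  have e : f j - n j = m j + (20 : ℝ) • E (j + 2) - ze j := by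
    simp only [f, n, two_smul]; abel
  rw [e]
  have h1 := norm_sub_le (m j + (20 : ℝ) • E (j + 2)) (ze j)
  have h2 := norm_add_le (m j) ((20 : ℝ) • E (j + 2))
  rw [norm_smul, norm_m, E, norm_b] at h2
  have := norm_ze j
  have := th_le j
  simp only [Real.norm_ofNat] at h2
  unfold E at *
  linarith

lemma nb_bd (k : ℕ ⊕ ℕ) : ∃ C : ℝ, 0 < C ∧ ∀ i, |inner ℝ (n i) (b k)| ≤ C * th i := by
  rcases k with k | k
  · refine ⟨4 * √((k : ℝ) + 1), by positivity, fun i => ?_⟩
    have hX := X_ge i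
    have e : inner ℝ (n i) (b (Sum.inl k)) = vv (X i) k := by
      simp only [n, ze, inner_add_left, inner_sub_left, real_inner_smul_left, E, inner_b, b_apply]
      simp
      rfl
    have h0 : 0 ≤ (X i - 1) / (X i + 1) := by apply div_nonneg <;> linarith
    have h1 : ((X i - 1) / (X i + 1)) ^ k ≤ 1 :=
      pow_le_one₀ h0 (by rw [div_le_one (by linarith)]; linarith)
    have h2 : 4 * X i / (X i + 1) ^ 2 ≤ 4 * th i := by
      rw [th, mul_one_div, div_le_div_iff₀ (by positivity) (by linarith)]; nlinarith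
    have := th_pos i
    rw [e, vv, abs_of_nonneg (by positivity)]
    calc _ ≤ (4 * th i) * (√((k : ℝ) + 1) * 1) := by gcongr
      _ = _ := by ring
  · refine ⟨2, by norm_num, fun i => ?_⟩
    have e : inner ℝ (n i) (b (Sum.inr k)) = inner ℝ (ze i) (E k) := by
      rw [n, inner_add_left, ← E, inner_mE, zero_add]
    rw [e]
    refine (abs_real_inner_le_norm _ _).trans ?_
    rw [E, norm_b, mul_one]; exact norm_ze i

lemma nE0 (i : ℕ) : inner ℝ (n i) (E 0) = 0 := by
  rw [n, inner_add_left, inner_mE, inner_zeE]; simp [z]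

end

end Pool.Agent.H90.DG
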