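import Pool.Agent.H90.DgA

namespace Pool.Agent.H90.DG

open Filter Topology

noncomputable section

def hh (i : ℕ) : ℝ := √(G i i)

lemma one_le_hh (i : ℕ) : 1 ≤ hh i :=
  Real.one_le_sqrt.2 (by linarith [G_diag' i, th_pos i])

lemma hh_sq (i : ℕ) : hh i ^ 2 = G i i := Real.sq_sqrt (by linarith [G_diag' i, th_pos i])

def Adm (α : ℝ) (y : H) : Prop := ‖y‖ ≤ 23 * α ∧ ∀ i, |inner ℝ (n i) y| ≤ α * hh i

lemma Adm.nonneg {α : ℝ} {y : H} (h : Adm α y) : 0 ≤ α := by linarith [h.1, norm_nonneg y]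

lemma adm_zero : Adm 0 0 := ⟨by simp, fun i => by simp⟩

lemma Adm.add {α β : ℝ} {y w : H} (h : Adm α y) (h' : Adm β w) : Adm (α + β) (y + w) :=
  ⟨by linarith [h.1, h'.1, norm_add_le y w], fun i => by
    rw [inner_add_right]
    linarith [h.2 i, h'.2 i, abs_add_le (inner ℝ (n i) y) (inner ℝ (n i) w)]⟩

lemma Adm.smul {α : ℝ} {y : H} (h : Adm α y) (c : ℝ) : Adm (|c| * α) (c • y) :=
  ⟨by rw [norm_smul, Real.norm_eq_abs]; nlinarith [h.1, abs_nonneg c], fun i => by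
    rw [real_inner_smul_right, abs_mul, mul_assoc]
    exact mul_le_mul_of_nonneg_left (h.2 i) (abs_nonneg c)⟩

lemma adm_w (j : ℕ) : Adm (hh j) (f j - n j) := by
  refine ⟨by linarith [norm_w j, one_le_hh j], fun i => ?_⟩
  refine abs_le_of_sq_le_sq ?_ (mul_nonneg (by linarith [one_le_hh j]) (by linarith [one_le_hh i]))
  rw [mul_pow, hh_sq, hh_sq, mul_comm]
  exact G_sq i j

def N (x : H) : ℝ := sInf {r | ∃ α y, Adm α y ∧ r = √(α ^ 2 + ‖x - y‖ ^ 2)}

lemma N_le (x : H) {α : ℝ} {y : H} (h : Adm α y) : N x ≤ √(α ^ 2 + ‖x - y‖ ^ 2) :=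
  csInf_le ⟨0, by rintro _ ⟨α, y, -, rfl⟩; positivity⟩ ⟨α, y, h, rfl⟩

lemma le_N {x : H} {c : ℝ} (h : ∀ α y, Adm α y → c ≤ √(α ^ 2 + ‖x - y‖ ^ 2)) : c ≤ N x :=
  le_csInf ⟨_, 0, 0, adm_zero, rfl⟩ (by rintro _ ⟨α, y, h', rfl⟩; exact h α y h')

lemma N_nonneg (x : H) : 0 ≤ N x := le_N fun _ _ _ => by positivity

lemma N_le_norm (x : H) : N x ≤ ‖x‖ := by simpa using N_le x adm_zero

lemma cs2 (a c p q : ℝ) : a * p + c * q ≤ √(a ^ 2 + c ^ 2) * √(p ^ 2 + q ^ 2) := by
  rw [← Real.sqrt_mul (by positivity)]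
  refine Real.le_sqrt_of_sq_le ?_
  nlinarith [sq_nonneg (a * q - c * p)]

lemma norm_le_N (x : H) : ‖x‖ ≤ 24 * N x := by
  have : ‖x‖ / 24 ≤ N x := le_N fun α y h => by
    have h1 := cs2 23 1 α ‖x - y‖
    have h2 : √((23 : ℝ) ^ 2 + 1 ^ 2) ≤ 24 := Real.sqrt_le_iff.2 ⟨by norm_num, by norm_num⟩
    have h3 := norm_add_le y (x - y)
    rw [add_sub_cancel] at h3
    have h4 := mul_le_mul_of_nonneg_right h2 (Real.sqrt_nonneg (α ^ 2 + ‖x - y‖ ^ 2))
    linarith [h.1]
  linarith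

lemma N_add (x x' : H) : N (x + x') ≤ N x + N x' := by
  have key : ∀ α y β w, Adm α y → Adm β w →
      N (x + x') ≤ √(α ^ 2 + ‖x - y‖ ^ 2) + √(β ^ 2 + ‖x' - w‖ ^ 2) := by
    intro α y β w h h'
    refine (N_le _ (h.add h')).trans (Real.sqrt_le_iff.2 ⟨by positivity, ?_⟩)
    have e : x + x' - (y + w) = (x - y) + (x' - w) := by abel
    have h1 : ‖x + x' - (y + w)‖ ≤ ‖x - y‖ + ‖x' - w‖ := e ▸ norm_add_le _ _
    have h2 := pow_le_pow_left₀ (norm_nonneg _) h1 2
    have h3 := cs2 α ‖x - y‖ β ‖x' - w‖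
    rw [add_sq (√_), Real.sq_sqrt (by positivity), Real.sq_sqrt (by positivity)]
    nlinarith
  have : N (x + x') - N x' ≤ N x := le_N fun α y h => by
    have : N (x + x') - √(α ^ 2 + ‖x - y‖ ^ 2) ≤ N x' := le_N fun β w h' => by
      linarith [key α y β w h h']
    linarith
  linarith

lemma N_smul (c : ℝ) (x : H) : N (c • x) ≤ |c| * N x := by
  rcases eq_or_ne c 0 with rfl | hc
  · simpa using N_le_norm 0
  have hc' : 0 < |c| := abs_pos.2 hc
  have : N (c • x) / |c| ≤ N x := le_N fun α y h => by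
    rw [div_le_iff₀ hc']
    refine (N_le _ (h.smul c)).trans (Real.sqrt_le_iff.2 ⟨by positivity, le_of_eq ?_⟩)
    rw [← smul_sub, norm_smul, Real.norm_eq_abs, mul_pow (√_), Real.sq_sqrt (by positivity)]
    ring
  rwa [div_le_iff₀ hc', mul_comm] at this

lemma N_neg (x : H) : N (-x) = N x := by
  have h : ∀ x : H, N (-x) ≤ N x := fun x => by simpa using N_smul (-1) x
  exact le_antisymm (h x) (by simpa using h (-x))

def lam (i : ℕ) : ℝ := √(hh i ^ 2 + ‖n i‖ ^ 2)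

lemma one_le_lam (i : ℕ) : 1 ≤ lam i :=
  Real.one_le_sqrt.2 (by nlinarith [one_le_hh i, sq_nonneg ‖n i‖])

lemma dual_le (i : ℕ) (x : H) : inner ℝ (n i) x ≤ lam i * N x := by
  have h0 : 0 < lam i := by linarith [one_le_lam i]
  have : inner ℝ (n i) x / lam i ≤ N x := le_N fun α y h => by
    rw [div_le_iff₀ h0, mul_comm]
    have h1 := cs2 (hh i) ‖n i‖ α ‖x - y‖
    have h2 : inner ℝ (n i) x = inner ℝ (n i) y + inner ℝ (n i) (x - y) := by
      rw [← inner_add_right, add_sub_cancel]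
    have h3 := real_inner_le_norm (n i) (x - y)
    have h4 := (abs_le.1 (h.2 i)).2
    unfold lam
    linarith
  rwa [div_le_iff₀ h0, mul_comm] at this

lemma inner_nf_self (i : ℕ) : inner ℝ (n i) (f i) = lam i ^ 2 := by
  rw [lam, Real.sq_sqrt (by positivity), hh_sq, G, inner_sub_right, real_inner_self_eq_norm_sq]
  ring

lemma N_f (i : ℕ) : N (f i) = lam i := by
  have h0 : 0 < lam i := by linarith [one_le_lam i]
  refine le_antisymm ?_ ?_
  · simpa [lam] using N_le (f i) (adm_w i)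
  · have := dual_le i (f i)
    rw [inner_nf_self, sq] at this
    exact le_of_mul_le_mul_left this h0

lemma N_smooth (x k : H) : N (x + k) ^ 2 + N (x - k) ^ 2 ≤ 2 * N x ^ 2 + 2 * ‖k‖ ^ 2 := by
  have : √((N (x + k) ^ 2 + N (x - k) ^ 2) / 2 - ‖k‖ ^ 2) ≤ N x := le_N fun α y h => by
    refine Real.sqrt_le_sqrt ?_
    have h1 := pow_le_pow_left₀ (N_nonneg _) (N_le (x + k) h) 2
    have h2 := pow_le_pow_left₀ (N_nonneg _) (N_le (x - k) h) 2
    rw [Real.sq_sqrt (by positivity)] at h1 h2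
    have h3 := parallelogram_law_with_norm ℝ (x - y) k
    rw [show x + k - y = x - y + k by abel] at h1
    rw [show x - k - y = x - y - k by abel] at h2
    nlinarith
  have := (Real.sqrt_le_iff.1 this).2
  linarith

lemma N_d (j : ℕ) : 7 / 6 ≤ N (d j) ∧ N (d j) ≤ 1.3 := by
  refine ⟨by linarith [norm_le_N (d j), (norm_d j).1], ?_⟩
  have h : Adm 1.3 (d j) := ⟨by linarith [(norm_d j).2], fun i => by
    have := nd_bd i j
    have := th_le i
    have := th_pos i
    have := one_le_hh i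
    split_ifs at * <;> linarith⟩
  have := N_le (d j) h
  simp only [sub_self, norm_zero, ne_eq, OfNat.ofNat_ne_zero, not_false_eq_true, zero_pow,
    add_zero] at this
  rwa [Real.sqrt_sq (by norm_num)] at this

/-- the renormed space -/
def XX : Type := H

instance : AddCommGroup XX := inferInstanceAs (AddCommGroup H)
instance : Module ℝ XX := inferInstanceAs (Module ℝ H)

instance : NormedAddCommGroup XX := AddGroupNorm.toNormedAddCommGroup
  { toFun := N
    map_zero' := le_antisymm ((N_le_norm (0 : H)).trans (norm_zero (E := H)).le) (N_nonneg _)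
    add_le' := N_add
    neg' := N_neg
    eq_zero_of_map_eq_zero' := fun x hx => by
      have := norm_le_N x
      rw [hx, mul_zero] at this
      exact norm_le_zero_iff.1 this }

instance : NormedSpace ℝ XX where
  norm_smul_le := N_smul

def eq : H ≃L[ℝ] XX :=
  LinearEquiv.toContinuousLinearEquivOfBounds (show H ≃ₗ[ℝ] XX from LinearEquiv.refl ℝ H) 1 24
    (fun x => by rw [one_mul]; exact N_le_norm x) (fun x => norm_le_N x)

lemma norm_eq (x : H) : ‖eq x‖ = N x := rfl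

instance : CompleteSpace XX :=
  (completeSpace_congr (e := eq.toLinearEquiv.toEquiv) eq.isUniformEmbedding).1 inferInstance

def FF (i : ℕ) : XX →L[ℝ] ℝ := (lam i)⁻¹ • (innerSL ℝ (n i)).comp eq.symm.toContinuousLinearMap

lemma FF_apply (i : ℕ) (x : H) : FF i (eq x) = (lam i)⁻¹ * inner ℝ (n i) x := by simp [FF]

lemma FF_le (i : ℕ) (x : XX) : FF i x ≤ ‖x‖ := by
  obtain ⟨x, rfl⟩ := eq.surjective x
  have h0 : 0 < lam i := by linarith [one_le_lam i]
  rw [FF_apply, norm_eq, inv_mul_le_iff₀ h0]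
  exact dual_le i x

lemma FF_f (i : ℕ) : FF i (eq (f i)) = ‖eq (f i)‖ := by
  have h0 : 0 < lam i := by linarith [one_le_lam i]
  rw [FF_apply, norm_eq, N_f, inner_nf_self]; field_simp

lemma norm_FF (i : ℕ) : ‖FF i‖ = 1 := by
  have h0 : 0 < lam i := by linarith [one_le_lam i]
  refine le_antisymm (ContinuousLinearMap.opNorm_le_bound _ zero_le_one fun x => ?_) ?_
  · rw [one_mul, Real.norm_eq_abs, abs_le]
    have := FF_le i (-x)
    rw [map_neg, norm_neg] at this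
    exact ⟨by linarith, FF_le i x⟩
  · have := (FF i).le_opNorm (eq (f i))
    rw [FF_f, norm_norm, norm_eq, N_f] at this
    nlinarith

def BB (i : ℕ) : ℝ := (N (d i))⁻¹ * inner ℝ (n i) (d i)

lemma le_BB (i : ℕ) : 30 * th i ≤ BB i := by
  have h := N_d i
  have := nd_diag i
  have := th_pos i
  rw [BB, le_inv_mul_iff₀ (by linarith)]
  nlinarith

def DD : Set XX := {g | ‖g‖ = 1 ∧ ∀ i, |inner ℝ (n i) (eq.symm g)| ≤ BB i}

lemma mem_DD {x : H} (h0 : 0 < N x) (h : ∀ i, (N x)⁻¹ * |inner ℝ (n i) x| ≤ BB i) :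
    (N x)⁻¹ • eq x ∈ DD := by
  refine ⟨?_, fun i => ?_⟩
  · rw [norm_smul, norm_eq, Real.norm_eq_abs, abs_of_pos (inv_pos.2 h0), inv_mul_cancel₀ h0.ne']
  · rw [map_smul, eq.symm_apply_apply, real_inner_smul_right, abs_mul, abs_of_pos (inv_pos.2 h0)]
    exact h i

lemma phi_mem (j : ℕ) : (N (d j))⁻¹ • eq (d j) ∈ DD := by
  have h := N_d j
  refine mem_DD (by linarith) fun i => ?_
  by_cases hij : i = j
  · subst hij
    rw [abs_of_nonneg (by linarith [nd_diag i, th_pos i])]; exact le_rfl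
  · have h1 := nd_bd i j
    rw [if_neg hij] at h1
    refine le_trans ?_ (le_BB i)
    have := th_pos i
    rw [inv_mul_le_iff₀ (by linarith)]
    nlinarith

lemma span_mem {x : H} (h1 : 1 ≤ ‖x‖) (h : ∀ i, |inner ℝ (n i) x| ≤ th i) :
    eq x ∈ Submodule.span ℝ DD := by
  have h2 := norm_le_N x
  have h0 : 0 < N x := by linarith
  have : (N x)⁻¹ • eq x ∈ DD := mem_DD h0 fun i => by
    refine le_trans ?_ (le_BB i)
    have := th_pos i
    have := h i
    rw [inv_mul_le_iff₀ h0]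
    nlinarith
  have h3 := Submodule.smul_mem _ (N x) (Submodule.subset_span (R := ℝ) this)
  rwa [smul_smul, mul_inv_cancel₀ h0.ne', one_smul] at h3

lemma b_mem (k : ℕ ⊕ ℕ) : eq (b k) ∈ Submodule.span ℝ DD := by
  obtain ⟨C, hC, h⟩ := nb_bd k
  have h1 : eq (E 0) ∈ Submodule.span ℝ DD :=
    span_mem (by rw [E, norm_b]) fun i => by rw [nE0, abs_zero]; exact (th_pos i).le
  have h2 : eq (E 0 + C⁻¹ • b k) ∈ Submodule.span ℝ DD := by
    refine span_mem ?_ fun i => ?_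
    · have a1 := real_inner_le_norm (E 0 + C⁻¹ • b k) (E 0)
      have a2 : ‖E 0‖ = 1 := norm_b _
      rw [a2, mul_one, inner_add_left, inner_E, if_pos rfl, real_inner_smul_left, E, inner_b,
        b_apply] at a1
      have : 0 ≤ C⁻¹ * (if Sum.inr 0 = k then (1 : ℝ) else 0) := by split_ifs <;> positivity
      unfold E
      linarith
    · rw [inner_add_right, nE0, zero_add, real_inner_smul_right, abs_mul,
        abs_of_pos (inv_pos.2 hC), inv_mul_le_iff₀ hC]
      exact h i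
  have h3 := Submodule.smul_mem _ C (Submodule.sub_mem _ h2 h1)
  rwa [map_add, add_sub_cancel_left, map_smul, smul_smul, mul_inv_cancel₀ hC.ne', one_smul] at h3

lemma dense_DD : Dense ((Submodule.span ℝ DD : Submodule ℝ XX) : Set XX) := by
  intro x
  obtain ⟨x, rfl⟩ := eq.surjective x
  have h := (lp.hasSum_single (p := 2) (by norm_num) x).mapL eq.toContinuousLinearMap
  refine mem_closure_of_tendsto h (Eventually.of_forall fun s => ?_)
  refine Submodule.sum_mem _ fun k _ => ?_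
  have : lp.single 2 k (x k) = x k • b k := by
    rw [b, ← lp.single_smul]; simp
  rw [this, map_smul]
  exact Submodule.smul_mem _ _ (b_mem k)

theorem main : ∃ (X : Type) (_ : NormedAddCommGroup X) (_ : NormedSpace ℝ X) (_ : CompleteSpace X),
    (∀ x y : X, ‖x‖ = 1 → ‖y‖ = 1 → ∀ u : ℝ, (‖x + u • y‖ + ‖x - u • y‖) / 2 - 1 ≤ 288 * u ^ 2) ∧
    ∃ D : Set X, (∀ g ∈ D, ‖g‖ = 1) ∧ (∀ g ∈ D, -g ∈ D) ∧
    Dense ((Submodule.span ℝ D : Submodule ℝ X) : Set X) ∧
    ∃ (f : ℕ → X) (F : ℕ → X →L[ℝ] ℝ) (φ : ℕ → X) (a : ℕ → ℝ),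
    (∀ m, ‖F m‖ = 1 ∧ F m (f m) = ‖f m‖) ∧
    (∀ m, φ m ∈ D ∧ ∀ g ∈ D, F m g ≤ F m (φ m)) ∧
    (∀ m, ∀ b : ℝ, ‖f m - a m • φ m‖ ≤ ‖f m - b • φ m‖) ∧
    (∀ m, f (m + 1) = f m - a m • φ m) ∧ ∀ m, 1 ≤ ‖f m‖ := by
  have hstep : ∀ m, eq (f m) - N (d m) • (N (d m))⁻¹ • eq (d m) = eq (f (m + 1)) := by
    intro m
    rw [smul_smul, mul_inv_cancel₀ (by linarith [(N_d m).1]), one_smul, ← map_sub, d,
      sub_sub_cancel]
  refine ⟨XX, inferInstance, inferInstance, inferInstance, ?_, DD, fun g hg => hg.1, ?_, dense_DD,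
    fun m => eq (f m), FF, fun m => (N (d m))⁻¹ • eq (d m), fun m => N (d m),
    fun m => ⟨norm_FF m, FF_f m⟩, fun m => ⟨phi_mem m, fun g hg => ?_⟩, fun m c => ?_,
    fun m => (hstep m).symm, fun m => ?_⟩
  · intro x y hx hy u
    obtain ⟨x, rfl⟩ := eq.surjective x
    obtain ⟨y, rfl⟩ := eq.surjective y
    rw [← map_smul, ← map_add, ← map_sub, norm_eq, norm_eq]
    rw [norm_eq] at hx hy
    have h1 := N_smooth x (u • y)
    have h2 := norm_le_N y
    rw [hy] at h2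
    have h3 : ‖u • y‖ ^ 2 ≤ 576 * u ^ 2 := by
      rw [norm_smul, mul_pow, Real.norm_eq_abs, sq_abs]
      have : ‖y‖ ^ 2 ≤ 576 := by nlinarith [norm_nonneg y]
      nlinarith [sq_nonneg u]
    rw [hx] at h1
    have h4 : (N (x + u • y) + N (x - u • y)) / 2 ≤ 1 + 288 * u ^ 2 := by
      refine (abs_le_of_sq_le_sq' ?_ (by positivity)).2
      nlinarith [sq_nonneg (N (x + u • y) - N (x - u • y)), sq_nonneg (u ^ 2)]
    linarith
  · intro g hg
    refine ⟨by rw [norm_neg, hg.1], fun i => ?_⟩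
    rw [map_neg, inner_neg_right, abs_neg]; exact hg.2 i
  · obtain ⟨g, rfl⟩ := eq.surjective g
    have h0 : 0 < lam m := by linarith [one_le_lam m]
    beta_reduce
    rw [← map_smul, FF_apply, FF_apply, real_inner_smul_right]
    have := (abs_le.1 (hg.2 m)).2
    rw [eq.symm_apply_apply] at this
    exact mul_le_mul_of_nonneg_left this (inv_pos.2 h0).le
  · simp only
    rw [hstep m, ← FF_f]
    refine le_trans (le_of_eq ?_) (FF_le (m + 1) _)
    rw [← hstep m, map_sub, map_sub, map_smul, map_smul, map_smul, map_smul, FF_apply _ (d m),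
      nd_zero]
    simp
  · simp only
    rw [norm_eq, N_f]; exact one_le_lam m

end

end Pool.Agent.H90.DG
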