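import Mathlib

namespace Pool.Agent.H90.WDGA

variable {X : Type} [NormedAddCommGroup X] [NormedSpace ℝ X]

/-- Modulus of smoothness. -/
noncomputable def modSmooth (X : Type) [NormedAddCommGroup X] [NormedSpace ℝ X] (u : ℝ) : ℝ :=
  sSup {r : ℝ | ∃ x y : X, ‖x‖ = 1 ∧ ‖y‖ = 1 ∧ r = (‖x + u • y‖ + ‖x - u • y‖) / 2 - 1}

/-- Dictionary: norms at most one, symmetric, dense linear span. -/
def IsDict (D : Set X) : Prop :=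
  (∀ g ∈ D, ‖g‖ ≤ 1) ∧ (∀ g ∈ D, -g ∈ D) ∧ Dense ((Submodule.span ℝ D : Submodule ℝ X) : Set X)

/-- `f` is the sequence of residuals of an admissible run of WDGA(t) that never stops. -/
def IsRun (t : ℝ) (D : Set X) (f : ℕ → X) : Prop :=
  ∀ m, f m ≠ 0 ∧ ∃ (F : X →L[ℝ] ℝ) (φ : X) (a : ℝ), ‖F‖ = 1 ∧ F (f m) = ‖f m‖ ∧
    φ ∈ D ∧ t * sSup (F '' D) ≤ F φ ∧ (∀ b : ℝ, ‖f m - a • φ‖ ≤ ‖f m - b • φ‖) ∧
    f (m + 1) = f m - a • φ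

end Pool.Agent.H90.WDGA
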