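import Mathlib
import Pool.Agent.H88.H2

set_option autoImplicit false
open MeasureTheory Filter Topology Metric Set Complex
open scoped InnerProductSpace

namespace Pool.Agent.H90.EssQnil

open Pool.Agent.H88.PS Pool.Agent.H88.H2

lemma shift_sq (g : L2) : HasSum (fun n => ‖g (n + 1)‖ ^ 2) (‖g‖ ^ 2 - ‖g 0‖ ^ 2) := by
  have := (hasSum_nat_add_iff' 1).2 (l2_hasSum g)
  simpa using this

/-- backward shift -/
noncomputable def B : L2 →L[ℂ] L2 :=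
  LinearMap.mkContinuous
    { toFun := fun g => ⟨fun n => g (n + 1), mem_l2 (shift_sq g).summable⟩
      map_add' := fun _ _ => rfl
      map_smul' := fun _ _ => rfl } 1 fun g => by
    refine (pow_le_pow_iff_left₀ (norm_nonneg _) (by positivity) two_ne_zero).1 ?_
    rw [← (l2_hasSum _).tsum_eq, one_mul]
    exact (shift_sq g).tsum_eq.le.trans (sub_le_self _ (sq_nonneg _))

lemma B_apply (g : L2) (n : ℕ) : B g n = g (n + 1) := rfl

lemma B_sq (g : L2) : ‖B g‖ ^ 2 = ‖g‖ ^ 2 - ‖g 0‖ ^ 2 :=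
  (l2_hasSum (B g)).unique (shift_sq g)

lemma B_le (g : L2) : ‖B g‖ ≤ ‖g‖ := by
  refine (pow_le_pow_iff_left₀ (norm_nonneg _) (by positivity) two_ne_zero).1 ?_
  rw [B_sq]; exact sub_le_self _ (sq_nonneg _)

lemma B_norm : ‖B‖ ≤ 1 := B.opNorm_le_bound zero_le_one fun g => by simpa using B_le g

lemma Bpow_apply (k : ℕ) (g : L2) (n : ℕ) : (B ^ k) g n = g (n + k) := by
  induction k generalizing n with
  | zero => rfl
  | succ k ih => rw [pow_succ', mul_apply_eq_comp, B_apply, ih, add_right_comm, add_assoc]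

lemma wB {w : ℂ} (hw : ‖w‖ < 1) : ‖w • B‖ < 1 := by
  rw [norm_smul]
  exact (mul_le_of_le_one_right (norm_nonneg _) B_norm).trans_lt hw

/-- resolvent of the backward shift -/
noncomputable def R (w : ℂ) : L2 →L[ℂ] L2 := ∑' n, (w • B) ^ n

lemma R_eq {w : ℂ} (hw : ‖w‖ < 1) (g : L2) : R w g = g + w • B (R w g) := by
  have := congrArg (fun A : L2 →L[ℂ] L2 => A g) (mul_neg_geom_series _ (wB hw))
  simp only [mul_apply_eq_comp, sub_apply, smul_apply, one_apply_eq_self] at this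
  exact eq_add_of_sub_eq this

lemma R_hasSum {w : ℂ} (hw : ‖w‖ < 1) (g : L2) (l : L2 →L[ℂ] ℂ) :
    HasSum (fun n => l ((B ^ n) g) * w ^ n) (l (R w g)) := by
  have h := (summable_geometric_of_norm_lt_one (wB hw)).hasSum
  have := (l.comp (ContinuousLinearMap.apply ℂ L2 g)).hasSum h
  convert this using 2 with n
  · simp [smul_pow, mul_comm]
  · rfl

/-- the zeroth coordinate -/
noncomputable def c0 : L2 →L[ℂ] ℂ := innerSL ℂ (lp.single 2 0 (1 : ℂ) : L2)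

lemma c0_apply (g : L2) : c0 g = g 0 := by
  simp [c0, lp.inner_single_left]

lemma R_zero {w : ℂ} (hw : ‖w‖ < 1) (g : L2) : R w g 0 = ps g w := by
  have := R_hasSum hw g c0
  simp only [c0_apply, Bpow_apply, zero_add] at this
  exact this.tsum_eq.symm

lemma R_le {w : ℂ} (hw : ‖w‖ < 1) (g : L2) : (1 - ‖w‖) * ‖R w g‖ ≤ ‖g‖ := by
  have h1 : ‖R w g‖ ≤ ‖g‖ + ‖w‖ * ‖R w g‖ := by
    conv_lhs => rw [R_eq hw g]
    refine (norm_add_le _ _).trans ?_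
    rw [norm_smul]
    gcongr
    exact B_le _
  linarith

lemma R_lip {w v : ℂ} (hw : ‖w‖ < 1) (hv : ‖v‖ < 1) (g : L2) :
    (1 - ‖v‖) * ‖R w g - R v g‖ ≤ ‖w - v‖ * ‖R w g‖ := by
  have e : R w g - R v g = v • B (R w g - R v g) + (w - v) • B (R w g) := by
    conv_lhs => rw [R_eq hw g, R_eq hv g]
    rw [map_sub, smul_sub, sub_smul]; abel
  have h1 : ‖R w g - R v g‖ ≤ ‖v‖ * ‖R w g - R v g‖ + ‖w - v‖ * ‖R w g‖ := by
    conv_lhs => rw [e]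
    refine (norm_add_le _ _).trans ?_
    rw [norm_smul, norm_smul]
    gcongr <;> exact B_le _
  linarith

lemma maj {w : ℂ} (hw : ‖w‖ < 1) (g : L2) : ‖ps g w‖ ^ 2 ≤ 2 * (⟪g, R w g⟫_ℂ).re := by
  have e : R w g - g = w • B (R w g) := by
    rw [sub_eq_iff_eq_add']; exact R_eq hw g
  have h1 := norm_sub_sq (𝕜 := ℂ) (R w g) g
  rw [e, norm_smul, mul_pow, inner_re_symm] at h1
  have h2 := B_sq (R w g)
  rw [R_zero hw] at h2
  have h3 : ‖w‖ ^ 2 * ‖B (R w g)‖ ^ 2 ≤ ‖B (R w g)‖ ^ 2 :=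
    mul_le_of_le_one_left (sq_nonneg _) (pow_le_one₀ (norm_nonneg _) hw.le)
  simp only [RCLike.re_to_complex] at h1
  nlinarith [sq_nonneg ‖g‖]

lemma near {w v : ℂ} {δ : ℝ} (hδ : 0 < δ) (hv : ‖v‖ = 1 - 2 * δ) (hwv : ‖w - v‖ < δ) (g : L2) :
    ‖R w g - R v g‖ ≤ ‖w - v‖ * ‖g‖ / (2 * δ ^ 2) := by
  have hw : ‖w‖ < 1 - δ := by
    have := norm_le_norm_add_norm_sub' w v
    linarith
  have h1 := R_lip (w := w) (v := v) (by linarith) (by linarith) g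
  have h2 := R_le (w := w) (by linarith) g
  have h3 : δ * ‖R w g‖ ≤ ‖g‖ := le_trans (by gcongr; linarith) h2
  rw [le_div_iff₀ (by positivity)]
  rw [hv] at h1
  nlinarith [mul_le_mul_of_nonneg_left h3 (norm_nonneg (w - v)),
    mul_le_mul_of_nonneg_left h1 hδ.le]

lemma re_le (g x : L2) : |(⟪g, x⟫_ℂ).re| ≤ ‖g‖ * ‖x‖ :=
  (Complex.abs_re_le_norm _).trans (norm_inner_le_norm _ _)

lemma point {w v : ℂ} {δ : ℝ} (hδ : 0 < δ) (hv : ‖v‖ = 1 - 2 * δ) (hw : ‖w‖ < 1) (g : L2)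
    (hg : ps g v = 0) :
    ‖ps g w‖ ^ 2 ≤ 2 * (⟪g, R w g⟫_ℂ).re - 2 * (⟪g, R v g⟫_ℂ).re
      + (1 / δ ^ 2 + 1 / δ ^ 3) * ‖g‖ ^ 2 * ‖w - v‖ := by
  have hv1 : ‖v‖ < 1 := by linarith
  rcases lt_or_ge ‖w - v‖ δ with h | h
  · have h1 := near hδ hv h g
    have h2 : ‖ps g w‖ ≤ ‖R w g - R v g‖ := by
      have := lp.norm_apply_le_norm (by norm_num) (R w g - R v g) 0
      rwa [lp.coeFn_sub, Pi.sub_apply, R_zero hw, R_zero hv1, hg, sub_zero] at this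
    have h3 := re_le g (R w g - R v g)
    rw [inner_sub_right, sub_re] at h3
    have h4 : ‖g‖ * ‖R w g - R v g‖ ≤ ‖g‖ * (‖w - v‖ * ‖g‖ / (2 * δ ^ 2)) := by gcongr
    have h5 : ‖ps g w‖ ^ 2 ≤ (‖w - v‖ * ‖g‖ / (2 * δ ^ 2)) * (δ * ‖g‖ / (δ ^ 2 / 2)) := by
      rw [sq]
      gcongr
      · exact h2.trans h1
      · refine (h2.trans h1).trans ?_
        gcongr
        nlinarith
    have e1 : (‖w - v‖ * ‖g‖ / (2 * δ ^ 2)) * (δ * ‖g‖ / (δ ^ 2 / 2))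
        = 1 / δ ^ 3 * ‖g‖ ^ 2 * ‖w - v‖ := by field_simp
    have e2 : ‖g‖ * (‖w - v‖ * ‖g‖ / (2 * δ ^ 2)) = 1 / δ ^ 2 * ‖g‖ ^ 2 * ‖w - v‖ / 2 := by
      field_simp
    have := (abs_le.1 h3).1
    nlinarith
  · have h1 := maj hw g
    have h2 := R_le hv1 g
    have h3 := (abs_le.1 (re_le g (R v g))).2
    rw [hv] at h2
    have h4 : 2 * (‖g‖ * ‖R v g‖) ≤ 1 / δ ^ 2 * ‖g‖ ^ 2 * ‖w - v‖ := by
      calc 2 * (‖g‖ * ‖R v g‖) = 1 / δ ^ 2 * (‖g‖ * ((1 - (1 - 2 * δ)) * ‖R v g‖)) * δ := by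
            field_simp; ring
        _ ≤ 1 / δ ^ 2 * (‖g‖ * ‖g‖) * ‖w - v‖ := by gcongr
        _ = _ := by ring
    have h5 : 0 ≤ 1 / δ ^ 3 * ‖g‖ ^ 2 * ‖w - v‖ := by positivity
    nlinarith

lemma rep_ps (g : L2) : Rep g (ps g) := rep_l2 (l2_hasSum g).summable

lemma core {ψ : ℂ → ℂ} {v : ℂ} {δ η : ℝ} (hδ : 0 < δ) (hv : ‖v‖ = 1 - 2 * δ)
    (hψ : ∀ z, ‖z‖ < 1 → ‖ψ z‖ < 1) (p : L2) (hp : Rep p fun z => ψ z - v) (hη : 0 < η)
    (hpη : ‖p‖ ≤ η) (hηδ : η < δ) (g : L2) (hg : ps g v = 0) (y : L2)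
    (hy : Rep y fun z => ps g (ψ z)) :
    ‖y‖ ^ 2 ≤ (2 / δ ^ 2 + 1 / δ ^ 3) * ‖g‖ ^ 2 * η := by
  rw [← (l2_hasSum y).tsum_eq]
  refine (hy.l2 fun r h0 h1 => ?_).2
  have hr : ∀ θ : ℝ, ‖(r : ℂ) * exp (θ * I)‖ < 1 := fun θ => by rwa [norm_re h0.le]
  have hψd : DifferentiableOn ℂ ψ (ball 0 1) := by
    simpa using hp.diff.add_const v
  have hH : Rep (fun n => ⟪g, (B ^ n) g⟫_ℂ) fun w => ⟪g, R w g⟫_ℂ := fun w hw =>
    R_hasSum hw g (innerSL ℂ g)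
  have hc : DifferentiableOn ℂ (fun z => ⟪g, R (ψ z) g⟫_ℂ) (ball 0 1) :=
    hH.diff.comp hψd fun z hz => mem_ball_zero_iff.2 (hψ z (mem_ball_zero_iff.1 hz))
  have hrc := rep_coef hc
  have k1 := hrc.cont h0.le h1
  have k2 := hp.cont h0.le h1
  have k3 := hy.cont h0.le h1
  set C := (1 / δ ^ 2 + 1 / δ ^ 3) * ‖g‖ ^ 2 with hC
  have hC0 : 0 ≤ C := by positivity
  have step : av (fun θ => ‖ps g (ψ (r * exp (θ * I)))‖ ^ 2) ≤
      av (fun θ => (2 * (⟪g, R (ψ (r * exp (θ * I))) g⟫_ℂ).re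
        + C / (2 * η) * ‖ψ (r * exp (θ * I)) - v‖ ^ 2)
        + (C * η / 2 - 2 * (⟪g, R v g⟫_ℂ).re)) := by
    refine av_mono (by fun_prop) (by fun_prop) fun θ => ?_
    have a1 := point hδ hv (hψ _ (hr θ)) g hg
    set t := ‖ψ (r * exp (θ * I)) - v‖
    have a2 : C * t ≤ C / (2 * η) * t ^ 2 + C * η / 2 := by
      have : C / (2 * η) * t ^ 2 + C * η / 2 - C * t = C / (2 * η) * (t - η) ^ 2 := by
        field_simp; ring
      have : 0 ≤ C / (2 * η) * (t - η) ^ 2 := by positivity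
      linarith
    linarith
  rw [av_add (by fun_prop) (by fun_prop), av_add (by fun_prop) (by fun_prop), av_mul, av_mul,
    av_const, hrc.mean h0.le h1, hrc.zero] at step
  have b1 := hp.av_le (l2_hasSum p).summable h0.le h1
  rw [(l2_hasSum p).tsum_eq] at b1
  have b2 : ‖ψ 0 - v‖ ≤ η := by
    rw [← hp.zero]
    exact (lp.norm_apply_le_norm (by norm_num) p 0).trans hpη
  have b3 := near hδ hv (b2.trans_lt hηδ) g
  have b4 := (abs_le.1 (re_le g (R (ψ 0) g - R v g))).2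
  rw [inner_sub_right, sub_re] at b4
  have b5 : ‖g‖ * ‖R (ψ 0) g - R v g‖ ≤ ‖g‖ * (η * ‖g‖ / (2 * δ ^ 2)) := by
    refine mul_le_mul_of_nonneg_left (b3.trans ?_) (norm_nonneg _)
    gcongr
  have b6 : C / (2 * η) * av (fun θ => ‖ψ (r * exp (θ * I)) - v‖ ^ 2) ≤ C / (2 * η) * η ^ 2 := by
    refine mul_le_mul_of_nonneg_left (b1.trans ?_) (by positivity)
    gcongr
  have e1 : C / (2 * η) * η ^ 2 = C * η / 2 := by field_simp
  have e2 : ‖g‖ * (η * ‖g‖ / (2 * δ ^ 2)) = 1 / δ ^ 2 * ‖g‖ ^ 2 * η / 2 := by field_simp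
  have e3 : (2 / δ ^ 2 + 1 / δ ^ 3) * ‖g‖ ^ 2 * η = C * η + 1 / δ ^ 2 * ‖g‖ ^ 2 * η := by
    rw [hC]; ring
  linarith

/-- evaluation at `v` times the constant function -/
noncomputable def KK (v : ℂ) : L2 →L[ℂ] L2 :=
  (ContinuousLinearMap.toSpanSingleton ℂ (lp.single 2 0 (1 : ℂ) : L2)).comp (c0.comp (R v))

lemma KK_compact (v : ℂ) : IsCompactOperator (KK v) :=
  ((isCompactOperator_id (E := ℂ)).comp_clm (c0.comp (R v))).clm_comp
    (ContinuousLinearMap.toSpanSingleton ℂ (lp.single 2 0 (1 : ℂ) : L2))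

lemma rep_sub (a : L2) {F : ℂ → ℂ} (h : Rep a F) (c : ℂ) :
    Rep (a - c • (lp.single 2 0 (1 : ℂ) : L2) : L2) fun z => F z - c := by
  intro z hz
  have := (h z hz).sub ((rep_single 0 z hz).mul_left c)
  simp only [pow_zero, mul_one] at this
  have e : (fun n => (a - c • (lp.single 2 0 (1 : ℂ) : L2) : L2) n * z ^ n)
      = fun n => a n * z ^ n - c * ((Pi.single 0 1 : ℕ → ℂ) n * z ^ n) := by
    ext n
    rw [lp.coeFn_sub, lp.coeFn_smul, lp.coeFn_single, Pi.sub_apply, Pi.smul_apply, smul_eq_mul]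
    ring
  rw [e]; exact this

lemma opbound (v : ℂ) (hv : ‖v‖ < 1) : ∃ δ C : ℝ, 0 < δ ∧ 0 < C ∧ ∀ (S : L2 →L[ℂ] L2) (ψ : ℂ → ℂ),
    (∀ z, ‖z‖ < 1 → ‖ψ z‖ < 1) → (∀ (a : L2) z, ‖z‖ < 1 → ps (S a) z = ps a (ψ z)) →
    ∀ η : ℝ, 0 < η → η < δ →
      ‖S (lp.single 2 1 (1 : ℂ) : L2) - v • (lp.single 2 0 (1 : ℂ) : L2)‖ ≤ η →
      ‖S - KK v‖ ^ 2 ≤ C * η := by
  set δ := (1 - ‖v‖) / 2 with hδ
  have hδ0 : 0 < δ := by rw [hδ]; linarith
  have hvδ : ‖v‖ = 1 - 2 * δ := by rw [hδ]; ring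
  refine ⟨δ, (2 / δ ^ 2 + 1 / δ ^ 3) * (1 + 1 / δ) ^ 2, hδ0, by positivity,
    fun S ψ hψ hS η h0 h1 h2 => ?_⟩
  have hrep : ∀ a : L2, Rep (S a) fun z => ps a (ψ z) := fun a => (rep_ps (S a)).congr (hS a)
  have hp : Rep (S (lp.single 2 1 (1 : ℂ) : L2)) ψ := by
    refine (hrep _).congr fun z hz => ?_
    have := (rep_single 1 (ψ z) (hψ z hz)).tsum_eq
    simpa [ps, lp.coeFn_single] using this
  rw [← Real.le_sqrt (norm_nonneg _) (by positivity)]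
  refine ContinuousLinearMap.opNorm_le_bound _ (Real.sqrt_nonneg _) fun a => ?_
  have hg := rep_sub a (rep_ps a) (ps a v)
  set g : L2 := a - ps a v • (lp.single 2 0 (1 : ℂ) : L2) with hgd
  have hg' : ∀ z, ‖z‖ < 1 → ps g z = ps a z - ps a v := fun z hz => (hg z hz).tsum_eq
  have hy : (S - KK v) a = S a - ps a v • (lp.single 2 0 (1 : ℂ) : L2) := by
    simp [KK, c0_apply, R_zero hv]
  have := core hδ0 hvδ hψ _ (rep_sub _ hp v) h0 h2 h1 g (by rw [hg' v hv, sub_self]) _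
    ((rep_sub _ (hrep a) (ps a v)).congr fun z hz => (hg' _ (hψ z hz)).symm)
  have gl : ‖g‖ ≤ (1 + 1 / δ) * ‖a‖ := by
    have u1 : ‖ps a v‖ ≤ ‖R v a‖ := by
      rw [← R_zero hv]; exact lp.norm_apply_le_norm (by norm_num) _ 0
    have u2 := R_le hv a
    have u3 : ‖R v a‖ ≤ 1 / δ * ‖a‖ := by
      rw [one_div, ← div_eq_inv_mul, le_div_iff₀ hδ0]
      nlinarith [norm_nonneg (R v a)]
    refine (norm_sub_le _ _).trans ?_
    rw [norm_smul, lp.norm_single (by norm_num), norm_one]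
    linarith
  rw [hy]
  refine (pow_le_pow_iff_left₀ (norm_nonneg _) (by positivity) two_ne_zero).1 ?_
  rw [mul_pow, Real.sq_sqrt (by positivity)]
  refine this.trans ?_
  calc _ ≤ (2 / δ ^ 2 + 1 / δ ^ 3) * ((1 + 1 / δ) * ‖a‖) ^ 2 * η := by gcongr
    _ = _ := by ring

theorem main (φ : ℂ → ℂ) (ω : ℂ) (hφ : Set.MapsTo φ (ball (0 : ℂ) 1) (ball (0 : ℂ) 1))
    (hω : ω ∈ ball (0 : ℂ) 1) (T : L2 →L[ℂ] L2)
    (hT : ∀ a : L2, ∀ z ∈ ball (0 : ℂ) 1, ∑' n : ℕ, (T a) n * z ^ n = ∑' n : ℕ, a n * (φ z) ^ n)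
    (h : Tendsto (fun n : ℕ => ‖(T ^ n) (lp.single 2 1 (1 : ℂ) : L2)
      - ω • (lp.single 2 0 (1 : ℂ) : L2)‖ ^ ((n : ℝ)⁻¹)) atTop (𝓝 0)) :
    Tendsto (fun n : ℕ => (⨅ K : {K : L2 →L[ℂ] L2 // IsCompactOperator (⇑K)},
      ‖T ^ n - K.1‖) ^ ((n : ℝ)⁻¹)) atTop (𝓝 0) := by
  obtain ⟨δ, C, hδ, hC, hb⟩ := opbound ω (mem_ball_zero_iff.1 hω)
  have hn : ∀ (n : ℕ) (a : L2) z, ‖z‖ < 1 → ps ((T ^ n) a) z = ps a (φ^[n] z) := by
    intro n
    induction n with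
    | zero => intro a z _; rfl
    | succ n ih =>
      intro a z hz
      have hz' := mem_ball_zero_iff.2 hz
      rw [pow_succ', mul_apply_eq_comp, Function.iterate_succ_apply,
        ← ih a _ (mem_ball_zero_iff.1 (hφ hz'))]
      exact hT _ z hz'
  have hnn : ∀ n : ℕ, 0 ≤ ⨅ K : {K : L2 →L[ℂ] L2 // IsCompactOperator (⇑K)}, ‖T ^ n - K.1‖ :=
    fun n => Real.iInf_nonneg fun _ => norm_nonneg _
  rw [tendsto_order]
  refine ⟨fun a ha => Eventually.of_forall fun n => ha.trans_le (Real.rpow_nonneg (hnn n) _),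
    fun ε hε => ?_⟩
  obtain ⟨e, he0, he1, he⟩ : ∃ e : ℝ, 0 < e ∧ e ≤ 1 ∧ e < ε :=
    ⟨min 1 (ε / 2), by positivity, min_le_left _ _, (min_le_right _ _).trans_lt (by linarith)⟩
  have t2 := tendsto_pow_atTop_nhds_zero_of_lt_one (r := (1 / 2 : ℝ)) (by norm_num) (by norm_num)
  filter_upwards [h.eventually (gt_mem_nhds (show 0 < e ^ 2 / 2 by positivity)),
    t2.eventually (gt_mem_nhds hδ), t2.eventually (gt_mem_nhds (show 0 < 1 / C by positivity)),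
    eventually_gt_atTop 0] with n a1 a2 a3 a4
  have a5 : ‖(T ^ n) (lp.single 2 1 (1 : ℂ) : L2) - ω • (lp.single 2 0 (1 : ℂ) : L2)‖
      ≤ (e ^ 2 / 2) ^ n := by
    rw [← Real.rpow_inv_natCast_pow (norm_nonneg _) a4.ne']
    exact pow_le_pow_left₀ (Real.rpow_nonneg (norm_nonneg _) _) a1.le n
  have a6 : (e ^ 2 / 2) ^ n = (e ^ n) ^ 2 * (1 / 2) ^ n := by
    rw [← pow_mul, mul_comm n 2, pow_mul, ← mul_pow]; ring
  have a7 : (e ^ n) ^ 2 ≤ 1 := pow_le_one₀ (by positivity) (pow_le_one₀ he0.le he1)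
  have a8 := hb (T ^ n) φ^[n]
    (fun z hz => mem_ball_zero_iff.1 (hφ.iterate n (mem_ball_zero_iff.2 hz))) (hn n)
    _ (by positivity) (by
      rw [a6]
      exact (mul_le_of_le_one_left (by positivity) a7).trans_lt a2) a5
  have a9 : ‖T ^ n - KK ω‖ ≤ e ^ n := by
    refine (pow_le_pow_iff_left₀ (norm_nonneg _) (by positivity) two_ne_zero).1 (a8.trans ?_)
    rw [a6, mul_left_comm]
    refine mul_le_of_le_one_right (by positivity) ?_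
    rw [lt_div_iff₀ hC] at a3
    linarith
  have a10 : (⨅ K : {K : L2 →L[ℂ] L2 // IsCompactOperator (⇑K)}, ‖T ^ n - K.1‖) ≤ e ^ n :=
    (ciInf_le ⟨0, by rintro _ ⟨K, rfl⟩; exact norm_nonneg _⟩
      (⟨KK ω, KK_compact ω⟩ : {K : L2 →L[ℂ] L2 // IsCompactOperator (⇑K)})).trans a9
  refine lt_of_le_of_lt ?_ he
  rw [← Real.pow_rpow_inv_natCast he0.le a4.ne']
  exact Real.rpow_le_rpow (hnn n) a10 (by positivity)

end Pool.Agent.H90.EssQnil
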