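import Pool.Agent.H90.FsDefs

namespace Pool.Agent.H90.FS

open Filter Topology UniformSpace
open scoped TensorProduct

noncomputable section

variable {G : Type} [Group G]

lemma URep.norm_π (r : URep G) (g : G) (v : r.H) : ‖r.π g v‖ = ‖v‖ := by
  rw [@norm_eq_sqrt_re_inner ℂ, @norm_eq_sqrt_re_inner ℂ _ _ _ _ v, r.π_inner]

def URep.U (r : URep G) (g : G) : r.H →L[ℂ] r.H :=
  LinearMap.mkContinuous ⟨⟨r.π g, r.π_add g⟩, r.π_smul g⟩ 1 fun v => by
    rw [one_mul]; exact (r.norm_π g v).le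

lemma URep.U_mul (r : URep G) (g h : G) : r.U (g * h) = r.U g * r.U h :=
  ContinuousLinearMap.ext fun v => r.π_mul g h v

lemma URep.U_one (r : URep G) : r.U 1 = 1 := ContinuousLinearMap.ext fun v => r.π_one v

lemma URep.U_mul_apply (r : URep G) (g h : G) (v : r.H) : r.U (g * h) v = r.U g (r.U h v) := by
  rw [r.U_mul]; rfl

lemma URep.inner_U (r : URep G) (g : G) (v w : r.H) :
    inner ℂ (r.U g v) (r.U g w) = inner ℂ v w := r.π_inner g v w

lemma URep.inner_U_right (r : URep G) (g : G) (v w : r.H) :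
    inner ℂ v (r.U g w) = inner ℂ (r.U g⁻¹ v) w := by
  rw [← r.inner_U g (r.U g⁻¹ v), ← r.U_mul_apply, mul_inv_cancel, r.U_one]; rfl

lemma URep.star_U (r : URep G) (g : G) : star (r.U g) = r.U g⁻¹ := by
  ext v
  refine ext_inner_right ℂ fun w => ?_
  rw [ContinuousLinearMap.star_eq_adjoint, ContinuousLinearMap.adjoint_inner_left, r.inner_U_right]

lemma URep.norm_U (r : URep G) (g : G) (v : r.H) : ‖r.U g v‖ = ‖v‖ := r.norm_π g v

def URep.op (r : URep G) (a : G →₀ ℂ) : r.H →L[ℂ] r.H := a.sum fun g c => c • r.U g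

lemma URep.act_eq (r : URep G) (a : G →₀ ℂ) (v : r.H) : r.act a v = r.op a v := by
  simp only [URep.act, URep.op, Finsupp.sum, sum_apply, smul_apply]
  rfl

lemma URep.coef_apply (r : URep G) (ξ η : r.H) (g : G) : r.coef ξ η g = inner ℂ η (r.U g ξ) := rfl

def mkRep (H : Type) [NormedAddCommGroup H] [InnerProductSpace ℂ H] [CompleteSpace H]
    (π : G →* (H →L[ℂ] H)) (h : ∀ g v w, inner ℂ (π g v) (π g w) = inner ℂ v w) : URep G where
  H := H
  nag := inferInstance
  ips := inferInstance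
  cs := inferInstance
  π := fun g v => π g v
  π_one := fun v => by simp
  π_mul := fun g k v => by simp
  π_add := fun g v w => map_add _ _ _
  π_smul := fun g c v => map_smul _ _ _
  π_inner := h

lemma mkRep_U (H : Type) [NormedAddCommGroup H] [InnerProductSpace ℂ H] [CompleteSpace H]
    (π : G →* (H →L[ℂ] H)) (h : ∀ g v w, inner ℂ (π g v) (π g w) = inner ℂ v w) (g : G) :
    (mkRep H π h).U g = π g := rfl

def ofPre (V : Type) [NormedAddCommGroup V] [InnerProductSpace ℂ V]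
    (π : G →* (V →L[ℂ] V)) (h : ∀ g v w, inner ℂ (π g v) (π g w) = inner ℂ v w) : URep G :=
  mkRep (Completion V)
    { toFun := fun g => (π g).completion
      map_one' := by
        ext v
        induction v using Completion.induction_on with
        | hp => exact isClosed_eq (by fun_prop) (by fun_prop)
        | ih v => simp
      map_mul' := fun g k => by
        ext v
        induction v using Completion.induction_on with
        | hp => exact isClosed_eq (by fun_prop) (by fun_prop)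
        | ih v => simp }
    (fun g v w => by
      induction v, w using Completion.induction_on₂ with
      | hp => exact isClosed_eq (by fun_prop) (by fun_prop)
      | ih v w => simp [h])

def URep.LI (r : URep G) (g : G) : r.H →ₗᵢ[ℂ] r.H := ⟨(r.U g).toLinearMap, r.norm_U g⟩

def tens (r s : URep G) : URep G :=
  ofPre (r.H ⊗[ℂ] s.H)
    { toFun := fun g => (TensorProduct.mapIsometry (r.LI g) (s.LI g)).toContinuousLinearMap
      map_one' := by
        ext v
        induction v using TensorProduct.induction_on with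
        | zero => simp
        | tmul a b => simp [URep.LI, URep.U_one]
        | add a b ha hb => simp only [map_add, ha, hb]
      map_mul' := fun g k => by
        ext v
        induction v using TensorProduct.induction_on with
        | zero => simp
        | tmul a b => simp [URep.LI, URep.U_mul]
        | add a b ha hb => simp only [map_add, ha, hb] }
    (fun g v w => by
      exact (TensorProduct.mapIsometry (r.LI g) (s.LI g)).inner_map_map v w)

def tv {r s : URep G} (a : r.H) (b : s.H) : (tens r s).H :=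
  ((a ⊗ₜ[ℂ] b : r.H ⊗[ℂ] s.H) : Completion (r.H ⊗[ℂ] s.H))

lemma tens_U {r s : URep G} (g : G) (a : r.H) (b : s.H) :
    (tens r s).U g (tv a b) = tv (r.U g a) (s.U g b) := by
  change ((TensorProduct.mapIsometry (r.LI g) (s.LI g)).toContinuousLinearMap).completion
    ((a ⊗ₜ[ℂ] b : r.H ⊗[ℂ] s.H) : Completion (r.H ⊗[ℂ] s.H)) = _
  rw [ContinuousLinearMap.completion_apply_coe]
  rfl

lemma inner_tv {r s : URep G} (a a' : r.H) (b b' : s.H) :
    inner ℂ (tv a b) (tv a' b') = inner ℂ a a' * inner ℂ b b' := by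
  change inner ℂ ((a ⊗ₜ[ℂ] b : r.H ⊗[ℂ] s.H) : Completion (r.H ⊗[ℂ] s.H))
    ((a' ⊗ₜ[ℂ] b' : r.H ⊗[ℂ] s.H) : Completion (r.H ⊗[ℂ] s.H)) = _
  rw [Completion.inner_coe, TensorProduct.inner_tmul]

lemma norm_tv {r s : URep G} (a : r.H) (b : s.H) : ‖tv a b‖ = ‖a‖ * ‖b‖ := by
  change ‖((a ⊗ₜ[ℂ] b : r.H ⊗[ℂ] s.H) : Completion (r.H ⊗[ℂ] s.H))‖ = _
  rw [Completion.norm_coe, TensorProduct.norm_tmul]

lemma coef_tens {r s : URep G} (a a' : r.H) (b b' : s.H) :
    (tens r s).coef (tv a b) (tv a' b') = r.coef a a' * s.coef b b' := by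
  funext g
  simp only [URep.coef_apply, tens_U, inner_tv, Pi.mul_apply]

def dsum (r s : URep G) : URep G :=
  mkRep (WithLp 2 (r.H × s.H))
    { toFun := fun g => (WithLp.prodContinuousLinearEquiv 2 ℂ r.H s.H).symm.toContinuousLinearMap ∘L
        ((r.U g).prodMap (s.U g)) ∘L
        (WithLp.prodContinuousLinearEquiv 2 ℂ r.H s.H).toContinuousLinearMap
      map_one' := by
        refine ContinuousLinearMap.ext fun v => ?_
        simp [URep.U_one]
      map_mul' := fun g k => by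
        refine ContinuousLinearMap.ext fun v => ?_
        simp [URep.U_mul, Prod.map] }
    (fun g v w => by
      simp [WithLp.prod_inner_apply, URep.inner_U])

lemma coef_dsum {r s : URep G} (a a' : r.H) (b b' : s.H) :
    (dsum r s).coef (WithLp.toLp 2 (a, b)) (WithLp.toLp 2 (a', b')) = r.coef a a' + s.coef b b' := by
  funext g
  rw [URep.coef_apply]
  change inner ℂ (WithLp.toLp 2 (a', b')) (WithLp.toLp 2 (r.U g a, s.U g b)) = _
  simp [WithLp.prod_inner_apply, URep.coef_apply]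

def triv (G : Type) [Group G] : URep G := mkRep ℂ 1 (fun g v w => by simp)

lemma coef_triv : (triv G).coef (1 : ℂ) (1 : ℂ) = 1 := by
  funext g
  change inner ℂ (1 : ℂ) (1 : ℂ) = 1
  simp

instance : Nonempty (URep G) := ⟨triv G⟩

lemma BG_mul {f h : G → ℂ} (hf : f ∈ BG G) (hh : h ∈ BG G) : f * h ∈ BG G := by
  obtain ⟨r, a, a', rfl⟩ := hf
  obtain ⟨s, b, b', rfl⟩ := hh
  exact ⟨_, _, _, (coef_tens a a' b b').symm⟩

lemma BG_add {f h : G → ℂ} (hf : f ∈ BG G) (hh : h ∈ BG G) : f + h ∈ BG G := by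
  obtain ⟨r, a, a', rfl⟩ := hf
  obtain ⟨s, b, b', rfl⟩ := hh
  exact ⟨_, _, _, (coef_dsum a a' b b').symm⟩

lemma BG_smul (c : ℂ) {f : G → ℂ} (hf : f ∈ BG G) : c • f ∈ BG G := by
  obtain ⟨r, a, a', rfl⟩ := hf
  refine ⟨r, c • a, a', ?_⟩
  funext g
  simp [URep.coef_apply, inner_smul_right]

lemma BG_one : (1 : G → ℂ) ∈ BG G := ⟨_, _, _, coef_triv.symm⟩

lemma coef_left (r : URep G) (a b : r.H) (s : G) :
    (fun x => r.coef a b (s * x)) = r.coef a (r.U s⁻¹ b) := by
  funext x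
  rw [URep.coef_apply, URep.coef_apply, r.U_mul_apply, r.inner_U_right]

lemma coef_right (r : URep G) (a b : r.H) (s : G) :
    (fun x => r.coef a b (x * s)) = r.coef (r.U s a) b := by
  funext x
  rw [URep.coef_apply, URep.coef_apply, r.U_mul_apply]

lemma op_eq (r : URep G) (a : G →₀ ℂ) : r.op a = Finsupp.linearCombination ℂ r.U a := rfl

lemma pair_eq (f : G → ℂ) (a : G →₀ ℂ) : pair f a = Finsupp.linearCombination ℂ f a := rfl

lemma pair_coef (r : URep G) (ξ η : r.H) (a : G →₀ ℂ) :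
    pair (r.coef ξ η) a = inner ℂ η (r.op a ξ) := by
  rw [pair_eq, op_eq]
  induction a using Finsupp.induction_linear with
  | zero => simp
  | add a b ha hb => simp [ha, hb, inner_add_right]
  | single g c => simp [URep.coef_apply, inner_smul_right]

lemma norm_U_le (r : URep G) (g : G) : ‖r.U g‖ ≤ 1 :=
  ContinuousLinearMap.opNorm_le_bound _ zero_le_one fun v => by rw [r.norm_U, one_mul]

lemma norm_op_le (r : URep G) (a : G →₀ ℂ) : ‖r.op a‖ ≤ ∑ g ∈ a.support, ‖a g‖ := by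
  unfold URep.op Finsupp.sum
  refine (norm_sum_le _ _).trans (Finset.sum_le_sum fun g _ => ?_)
  rw [norm_smul]
  exact mul_le_of_le_one_right (norm_nonneg _) (norm_U_le r g)

lemma le_fullNorm (r : URep G) (a : G →₀ ℂ) : ‖r.op a‖ ≤ fullNorm a := by
  have hb : BddAbove {t : ℝ | ∃ (r : URep G) (v : r.H), ‖v‖ ≤ 1 ∧ t = ‖r.act a v‖} := by
    refine ⟨∑ g ∈ a.support, ‖a g‖, ?_⟩
    rintro _ ⟨r, v, hv, rfl⟩
    rw [r.act_eq]
    exact ((r.op a).unit_le_opNorm v hv).trans (norm_op_le r a)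
  have h0 : 0 ≤ fullNorm a := le_csSup hb ⟨r, 0, by simp, by simp [r.act_eq]⟩
  refine ContinuousLinearMap.opNorm_le_of_unit_norm h0 fun v hv => ?_
  exact le_csSup hb ⟨r, v, hv.le, by rw [r.act_eq]⟩

lemma fullNorm_le {a : G →₀ ℂ} {c : ℝ} (h : ∀ r : URep G, ‖r.op a‖ ≤ c) : fullNorm a ≤ c := by
  refine csSup_le ⟨_, triv G, 0, by simp, rfl⟩ ?_
  rintro _ ⟨r, v, hv, rfl⟩
  rw [r.act_eq]
  exact ((r.op a).unit_le_opNorm v hv).trans (h r)

lemma fullNorm_nonneg (a : G →₀ ℂ) : 0 ≤ fullNorm a :=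
  (norm_nonneg _).trans (le_fullNorm (triv G) a)

lemma norm_pair_le (r : URep G) (ξ η : r.H) (a : G →₀ ℂ) :
    ‖pair (r.coef ξ η) a‖ ≤ ‖ξ‖ * ‖η‖ * fullNorm a := by
  rw [pair_coef]
  refine (norm_inner_le_norm _ _).trans ?_
  have h1 := (r.op a).le_opNorm ξ
  have h2 := le_fullNorm r a
  have h3 : ‖r.op a ξ‖ ≤ fullNorm a * ‖ξ‖ := h1.trans (by gcongr)
  calc _ ≤ ‖η‖ * (fullNorm a * ‖ξ‖) := by gcongr
    _ = _ := by ring

lemma tendsto_pair {f : G → ℂ} (hf : f ∈ BG G) {x : ℕ → G →₀ ℂ} (hx : IsCauchy x) :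
    Tendsto (fun n => pair f (x n)) atTop (𝓝 (pairLim f x)) := by
  obtain ⟨r, ξ, η, rfl⟩ := hf
  refine CauchySeq.tendsto_limUnder ?_
  rw [Metric.cauchySeq_iff]
  intro ε hε
  obtain ⟨N, hN⟩ := hx (ε / (‖ξ‖ * ‖η‖ + 1)) (by positivity)
  refine ⟨N, fun m hm n hn => ?_⟩
  have h1 := hN m hm n hn
  have h2 := norm_pair_le r ξ η (x m - x n)
  rw [pair_eq, map_sub, ← pair_eq, ← pair_eq] at h2
  rw [dist_eq_norm]
  rw [lt_div_iff₀ (by positivity)] at h1
  have := fullNorm_nonneg (x m - x n)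
  nlinarith

lemma IsCauchy.map {x : ℕ → G →₀ ℂ} (hx : IsCauchy x) (Φ : (G →₀ ℂ) →ₗ[ℂ] (G →₀ ℂ)) (C : ℝ)
    (hC : 0 ≤ C) (h : ∀ a, fullNorm (Φ a) ≤ C * fullNorm a) : IsCauchy fun n => Φ (x n) := by
  intro ε hε
  obtain ⟨N, hN⟩ := hx (ε / (C + 1)) (by positivity)
  refine ⟨N, fun m hm n hn => ?_⟩
  have h1 := hN m hm n hn
  rw [← map_sub]
  rw [lt_div_iff₀ (by positivity)] at h1
  have := fullNorm_nonneg (x m - x n)
  have := h (x m - x n)
  nlinarith

def mulF (u : G → ℂ) : (G →₀ ℂ) →ₗ[ℂ] (G →₀ ℂ) :=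
  Finsupp.linearCombination ℂ fun g => Finsupp.single g (u g)

def mapF (e : G → G) : (G →₀ ℂ) →ₗ[ℂ] (G →₀ ℂ) :=
  Finsupp.linearCombination ℂ fun g => Finsupp.single (e g) (1 : ℂ)

lemma pair_mulF (u f : G → ℂ) (a : G →₀ ℂ) : pair f (mulF u a) = pair (u * f) a := by
  rw [pair_eq, pair_eq]
  induction a using Finsupp.induction_linear with
  | zero => simp
  | add a b ha hb => simp only [map_add, ha, hb]
  | single g c =>
    simp only [mulF, Finsupp.linearCombination_single, map_smul, smul_eq_mul, Pi.mul_apply]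

lemma pair_mapF (e : G → G) (f : G → ℂ) (a : G →₀ ℂ) :
    pair f (mapF e a) = pair (fun x => f (e x)) a := by
  rw [pair_eq, pair_eq]
  induction a using Finsupp.induction_linear with
  | zero => simp
  | add a b ha hb => simp only [map_add, ha, hb]
  | single g c => simp [mapF]

lemma opNorm_le_of_pair {Φ : (G →₀ ℂ) →ₗ[ℂ] (G →₀ ℂ)} {C : ℝ} (hC : 0 ≤ C) (a : G →₀ ℂ)
    (h : ∀ (r : URep G) (ξ η : r.H), ‖pair (r.coef ξ η) (Φ a)‖ ≤ ‖ξ‖ * ‖η‖ * (C * fullNorm a)) :
    fullNorm (Φ a) ≤ C * fullNorm a := by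
  have h0 := fullNorm_nonneg a
  refine fullNorm_le fun r => ContinuousLinearMap.opNorm_le_bound _ (by positivity) fun v => ?_
  have h1 := h r v (r.op (Φ a) v)
  rw [pair_coef, inner_self_eq_norm_sq_to_K] at h1
  simp only [norm_pow, Complex.coe_algebraMap, Complex.norm_real, norm_norm] at h1
  rcases (norm_nonneg (r.op (Φ a) v)).eq_or_lt with h2 | h2
  · rw [← h2]; positivity
  · refine le_of_mul_le_mul_left ?_ h2
    nlinarith

lemma cauchy_mulF {u : G → ℂ} (hu : u ∈ BG G) {x : ℕ → G →₀ ℂ} (hx : IsCauchy x) :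
    IsCauchy fun n => mulF u (x n) := by
  obtain ⟨s, a, b, rfl⟩ := hu
  refine hx.map _ (‖a‖ * ‖b‖) (by positivity) fun c => opNorm_le_of_pair (by positivity) c ?_
  intro r ξ η
  rw [pair_mulF, ← coef_tens]
  refine (norm_pair_le _ _ _ _).trans (le_of_eq ?_)
  rw [norm_tv, norm_tv]; ring

lemma cauchy_left (s : G) {x : ℕ → G →₀ ℂ} (hx : IsCauchy x) :
    IsCauchy fun n => mapF (fun g => s * g) (x n) := by
  refine hx.map _ 1 zero_le_one fun c => opNorm_le_of_pair zero_le_one c ?_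
  intro r ξ η
  rw [pair_mapF, coef_left]
  refine (norm_pair_le _ _ _ _).trans (le_of_eq ?_)
  rw [r.norm_U]; ring

lemma cauchy_right (s : G) {x : ℕ → G →₀ ℂ} (hx : IsCauchy x) :
    IsCauchy fun n => mapF (fun g => g * s) (x n) := by
  refine hx.map _ 1 zero_le_one fun c => opNorm_le_of_pair zero_le_one c ?_
  intro r ξ η
  rw [pair_mapF, coef_right]
  refine (norm_pair_le _ _ _ _).trans (le_of_eq ?_)
  rw [r.norm_U]; ring

lemma pairLim_mulF (u f : G → ℂ) (x : ℕ → G →₀ ℂ) :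
    pairLim f (fun n => mulF u (x n)) = pairLim (u * f) x := by
  simp only [pairLim, pair_mulF]

lemma pairLim_mapF (e : G → G) (f : G → ℂ) (x : ℕ → G →₀ ℂ) :
    pairLim f (fun n => mapF e (x n)) = pairLim (fun g => f (e g)) x := by
  simp only [pairLim, pair_mapF]

lemma pairLim_add {f h : G → ℂ} (hf : f ∈ BG G) (hh : h ∈ BG G) {x : ℕ → G →₀ ℂ}
    (hx : IsCauchy x) : pairLim (f + h) x = pairLim f x + pairLim h x := by
  refine tendsto_nhds_unique (tendsto_pair (BG_add hf hh) hx) ?_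
  refine ((tendsto_pair hf hx).add (tendsto_pair hh hx)).congr fun n => ?_
  simp [pair, Finsupp.sum, mul_add, Finset.sum_add_distrib]

lemma pairLim_smul (c : ℂ) {f : G → ℂ} (hf : f ∈ BG G) {x : ℕ → G →₀ ℂ}
    (hx : IsCauchy x) : pairLim (c • f) x = c * pairLim f x := by
  refine tendsto_nhds_unique (tendsto_pair (BG_smul c hf) hx) ?_
  refine ((tendsto_pair hf hx).const_mul c).congr fun n => ?_
  simp [pair, Finsupp.sum, Finset.mul_sum, mul_left_comm]

/-- bipolar of a multiplicative, translation invariant set -/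
def bip (V : Set (G → ℂ)) : Set (G → ℂ) :=
  {f | f ∈ BG G ∧ ∀ x, IsCauchy x → (∀ v ∈ V, pairLim v x = 0) → pairLim f x = 0}

theorem exists_alg (V : Set (G → ℂ)) (hV : V ⊆ BG G) (h1 : (1 : G → ℂ) ∈ V)
    (hm : ∀ u ∈ V, ∀ v ∈ V, u * v ∈ V) (ht : TranslationInvariant V) :
    ∃ B : Subalgebra ℂ (G → ℂ), (B : Set (G → ℂ)) = bip V ∧ (B : Set (G → ℂ)) ⊆ BG G ∧
      WeakStarClosed (B : Set (G → ℂ)) ∧ TranslationInvariant (B : Set (G → ℂ)) := by
  have sub : V ⊆ bip V := fun v hv => ⟨hV hv, fun x _ h => h v hv⟩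
  have hsm : ∀ (c : ℂ), ∀ f ∈ bip V, c • f ∈ bip V := fun c f hf =>
    ⟨BG_smul c hf.1, fun x hx h => by rw [pairLim_smul c hf.1 hx, hf.2 x hx h, mul_zero]⟩
  refine ⟨{ carrier := bip V
            mul_mem' := ?_
            add_mem' := ?_
            algebraMap_mem' := ?_ }, rfl, fun f hf => hf.1, ?_, ?_⟩
  · intro f h hf hh
    refine ⟨BG_mul hf.1 hh.1, fun x hx hx0 => ?_⟩
    rw [mul_comm, ← pairLim_mulF]
    refine hf.2 _ (cauchy_mulF hh.1 hx) fun v hv => ?_
    rw [pairLim_mulF, mul_comm, ← pairLim_mulF]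
    refine hh.2 _ (cauchy_mulF (hV hv) hx) fun w hw => ?_
    rw [pairLim_mulF]
    exact hx0 _ (hm _ hv _ hw)
  · intro f h hf hh
    refine ⟨BG_add hf.1 hh.1, fun x hx hx0 => ?_⟩
    rw [pairLim_add hf.1 hh.1 hx, hf.2 x hx hx0, hh.2 x hx hx0, add_zero]
  · intro c
    rw [Algebra.algebraMap_eq_smul_one]
    exact hsm c _ (sub h1)
  · intro f hf hcl
    refine ⟨hf, fun x hx hx0 => ?_⟩
    by_contra hne
    obtain ⟨h, hh, hlt⟩ := hcl 1 (fun _ => x) (fun _ => hx) _ (norm_pos_iff.2 hne)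
    have := hlt 0
    rw [hh.2 x hx hx0, sub_zero] at this
    exact lt_irrefl _ this
  · intro f hf s
    obtain ⟨⟨r, a, b, rfl⟩, hf2⟩ := hf
    constructor
    · refine ⟨⟨r, _, _, coef_left r a b s⟩, fun x hx hx0 => ?_⟩
      rw [← pairLim_mapF (fun g => s * g)]
      refine hf2 _ (cauchy_left s hx) fun v hv => ?_
      rw [pairLim_mapF]
      exact hx0 _ (ht v hv s).1
    · refine ⟨⟨r, _, _, coef_right r a b s⟩, fun x hx hx0 => ?_⟩
      rw [← pairLim_mapF (fun g => g * s)]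
      refine hf2 _ (cauchy_right s hx) fun v hv => ?_
      rw [pairLim_mapF]
      exact hx0 _ (ht v hv s).2

end

end Pool.Agent.H90.FS
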