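import Pool.Agent.H90.FsA

namespace Pool.Agent.H90.FS

open Filter Topology

noncomputable section

def hh (x : ℝ) : ℝ := max (x - 25 / 2) 0

lemma cont_hh : Continuous hh := by unfold hh; fun_prop

section Op
variable {H : Type} [NormedAddCommGroup H] [InnerProductSpace ℂ H] [CompleteSpace H]

lemma spec_le {T : H →L[ℂ] H} (hT : ‖T‖ ≤ 16) {x : ℝ} (hx : x ∈ spectrum ℝ T) : |x| ≤ 16 := by
  have h := spectrum.norm_le_norm_mul_of_mem hx
  have h1 : ‖(1 : H →L[ℂ] H)‖ ≤ 1 := ContinuousLinearMap.norm_id_le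
  rw [Real.norm_eq_abs] at h
  nlinarith [norm_nonneg T, norm_nonneg (1 : H →L[ℂ] H)]

lemma re_inner_mono {S T : H →L[ℂ] H} (h : S ≤ T) (ξ : H) :
    (inner ℂ ξ (S ξ)).re ≤ (inner ℂ ξ (T ξ)).re := by
  have := ((ContinuousLinearMap.le_def S T).1 h).re_inner_nonneg_right ξ
  simp only [ContinuousLinearMap.sub_apply, inner_sub_right, map_sub, RCLike.re_to_complex] at this
  linarith

lemma killed {T : H →L[ℂ] H} (hs : IsSelfAdjoint T) (hT : ‖T‖ ≤ 16) (ξ : H) (C : ℝ)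
    (hg : ∀ m : ℕ, ‖inner ℂ ξ ((T ^ m) ξ)‖ ≤ C * 12 ^ m) : (cfc hh T : H →L[ℂ] H) ξ = 0 := by
  have hc := cont_hh
  have key : ∀ n : ℕ, ‖(cfc hh T : H →L[ℂ] H) ξ‖ ^ 2 ≤ 16 * C * ((24 / 25) ^ 2) ^ n := by
    intro n
    have h1 : cfc (fun x => hh x * hh x) T ≤
        cfc (fun x : ℝ => (16 * (2 / 25) ^ (2 * n)) * x ^ (2 * n)) T := by
      refine cfc_mono fun x hx => ?_
      have h2 := abs_le.1 (spec_le hT hx)
      unfold hh
      rcases le_total x (25 / 2) with h | h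
      · rw [max_eq_right (by linarith), mul_zero]
        have := (even_two_mul n).pow_nonneg x
        positivity
      · rw [max_eq_left (by linarith), mul_assoc, ← mul_pow]
        have : (1 : ℝ) ≤ (2 / 25 * x) ^ (2 * n) := one_le_pow₀ (by linarith)
        nlinarith
    rw [cfc_mul _ _ T, cfc_const_mul _ _ T, cfc_pow_id T] at h1
    have h2 := re_inner_mono h1 ξ
    have hsa : IsSelfAdjoint (cfc hh T) := cfc_predicate hh T
    have h3 : inner ℂ ξ ((cfc hh T * cfc hh T : H →L[ℂ] H) ξ)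
        = inner ℂ ((cfc hh T : H →L[ℂ] H) ξ) ((cfc hh T : H →L[ℂ] H) ξ) := by
      rw [hsa.isSymmetric.apply_clm]; rfl
    rw [h3, inner_self_eq_norm_sq_to_K] at h2
    have h4 : (inner ℂ ξ ((((16 * (2 / 25) ^ (2 * n) : ℝ)) • T ^ (2 * n)) ξ)).re
        = (16 * (2 / 25) ^ (2 * n) : ℝ) * (inner ℂ ξ ((T ^ (2 * n)) ξ)).re := by
      rw [ContinuousLinearMap.smul_apply, ← Complex.coe_smul, inner_smul_right, Complex.re_ofReal_mul]
    rw [h4] at h2
    have h5 : (inner ℂ ξ ((T ^ (2 * n)) ξ)).re ≤ C * 12 ^ (2 * n) :=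
      (Complex.re_le_norm _).trans (hg _)
    have h6 : ((‖(cfc hh T : H →L[ℂ] H) ξ‖ : ℂ) ^ 2).re = ‖(cfc hh T : H →L[ℂ] H) ξ‖ ^ 2 := by
      rw [← Complex.ofReal_pow, Complex.ofReal_re]
    calc _ ≤ (16 * (2 / 25) ^ (2 * n) : ℝ) * (C * 12 ^ (2 * n)) := by
          rw [← h6]
          exact h2.trans (mul_le_mul_of_nonneg_left h5 (by positivity))
      _ = 16 * C * (((2 / 25) * 12) ^ (2 * n)) := by rw [mul_pow]; ring
      _ = _ := by rw [← pow_mul]; norm_num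
  have lim : Tendsto (fun n : ℕ => 16 * C * (((24 : ℝ) / 25) ^ 2) ^ n) atTop (𝓝 (16 * C * 0)) :=
    (tendsto_pow_atTop_nhds_zero_of_lt_one (by positivity) (by norm_num)).const_mul _
  have := ge_of_tendsto' lim key
  rw [mul_zero] at this
  have h0 : ‖(cfc hh T : H →L[ℂ] H) ξ‖ ^ 2 = 0 := le_antisymm this (by positivity)
  simpa using h0

lemma killed_of_norm {T : H →L[ℂ] H} (hs : IsSelfAdjoint T) (hT : ‖T‖ ≤ 12) (ξ : H) :
    (cfc hh T : H →L[ℂ] H) ξ = 0 := by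
  refine killed hs (by linarith) ξ (‖ξ‖ ^ 2) fun m => ?_
  refine (norm_inner_le_norm _ _).trans ?_
  have h1 : ‖(T ^ m) ξ‖ ≤ 12 ^ m * ‖ξ‖ := by
    induction m with
    | zero => simp
    | succ m ih =>
      rw [pow_succ']
      calc ‖T ((T ^ m) ξ)‖ ≤ ‖T‖ * ‖(T ^ m) ξ‖ := T.le_opNorm _
        _ ≤ 12 * (12 ^ m * ‖ξ‖) := by gcongr
        _ = _ := by ring
  calc _ ≤ ‖ξ‖ * (12 ^ m * ‖ξ‖) := by gcongr
    _ = _ := by ring

lemma pos_hh {T : H →L[ℂ] H} (hs : IsSelfAdjoint T) (ξ : H) (h1 : ‖ξ‖ = 1)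
    (h : 25 / 2 < (inner ℂ ξ (T ξ)).re) : inner ℂ ξ ((cfc hh T : H →L[ℂ] H) ξ) ≠ 0 := by
  have hc := cont_hh
  have h2 : cfc (fun x : ℝ => (-25 / 2) + x) T ≤ cfc hh T :=
    cfc_mono fun x _ => by unfold hh; exact le_max_of_le_left (by linarith)
  rw [cfc_const_add _ _ T, cfc_id' ℝ T] at h2
  have h3 := re_inner_mono h2 ξ
  intro h0
  rw [h0, ContinuousLinearMap.add_apply, inner_add_right, Algebra.algebraMap_eq_smul_one,
    ContinuousLinearMap.smul_apply, ← Complex.coe_smul, inner_smul_right,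
    ContinuousLinearMap.one_apply, inner_self_eq_norm_sq_to_K, h1] at h3
  simp at h3
  linarith

end Op

variable {G : Type} [Group G]

def URep.hom (r : URep G) : G →* (r.H →L[ℂ] r.H) where
  toFun := r.U
  map_one' := r.U_one
  map_mul' := r.U_mul

lemma op_coeff (r : URep G) (y : MonoidAlgebra ℂ G) :
    r.op y.coeff = MonoidAlgebra.lift ℂ _ G r.hom y := by
  rw [MonoidAlgebra.lift_apply]; rfl

lemma op_aeval (r : URep G) (a : G →₀ ℂ) (p : Polynomial ℝ) :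
    r.op (Polynomial.aeval (MonoidAlgebra.ofCoeff a : MonoidAlgebra ℂ G) p).coeff
      = Polynomial.aeval (r.op a) p := by
  rw [op_coeff]
  have := Polynomial.aeval_algHom_apply ((MonoidAlgebra.lift ℂ _ G r.hom).restrictScalars ℝ)
    (MonoidAlgebra.ofCoeff a : MonoidAlgebra ℂ G) p
  simp only [AlgHom.coe_restrictScalars'] at this
  rw [← this, ← op_coeff]

theorem exists_elt (a : G →₀ ℂ) (hs : ∀ r : URep G, IsSelfAdjoint (r.op a))
    (hT : ∀ r : URep G, ‖r.op a‖ ≤ 16) :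
    ∃ x : ℕ → G →₀ ℂ, IsCauchy x ∧ ∀ (r : URep G) (ξ η : r.H),
      pairLim (r.coef ξ η) x = inner ℂ η ((cfc hh (r.op a) : r.H →L[ℂ] r.H) ξ) := by
  have hc := cont_hh
  choose p hp using fun n : ℕ => exists_polynomial_near_of_continuousOn (-16) 16 hh
    hc.continuousOn (1 / ((n : ℝ) + 1)) (by positivity)
  set x : ℕ → G →₀ ℂ := fun n =>
    (Polynomial.aeval (MonoidAlgebra.ofCoeff a : MonoidAlgebra ℂ G) (p n)).coeff with hx
  have key : ∀ (r : URep G) n, ‖r.op (x n) - cfc hh (r.op a)‖ ≤ 1 / ((n : ℝ) + 1) := by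
    intro r n
    have := hs r
    rw [hx]
    simp only
    rw [op_aeval, ← cfc_polynomial (p n) (r.op a), ← cfc_sub _ _ (r.op a)]
    refine norm_cfc_le (by positivity) fun t ht => ?_
    exact (hp n t (abs_le.1 (spec_le (hT r) ht))).le
  have hx1 : IsCauchy x := by
    intro ε hε
    obtain ⟨N, hN⟩ := exists_nat_one_div_lt (show 0 < ε / 2 by positivity)
    refine ⟨N, fun m hm n hn => lt_of_le_of_lt (fullNorm_le (c := 2 * (1 / ((N : ℝ) + 1)))
      fun r => ?_) (by linarith)⟩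
    have e : r.op (x m - x n) = (r.op (x m) - cfc hh (r.op a)) - (r.op (x n) - cfc hh (r.op a)) := by
      rw [op_eq, map_sub, ← op_eq, ← op_eq]; abel
    rw [e]
    refine (norm_sub_le _ _).trans ?_
    have h1 : 1 / ((m : ℝ) + 1) ≤ 1 / ((N : ℝ) + 1) := Nat.one_div_le_one_div hm
    have h2 : 1 / ((n : ℝ) + 1) ≤ 1 / ((N : ℝ) + 1) := Nat.one_div_le_one_div hn
    linarith [key r m, key r n]
  refine ⟨x, hx1, fun r ξ η => ?_⟩
  refine tendsto_nhds_unique (tendsto_pair ⟨r, ξ, η, rfl⟩ hx1) ?_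
  simp only [pair_coef]
  have t1 : Tendsto (fun n => r.op (x n)) atTop (𝓝 (cfc hh (r.op a))) := by
    rw [tendsto_iff_norm_sub_tendsto_zero]
    exact squeeze_zero (fun _ => norm_nonneg _) (key r) tendsto_one_div_add_atTop_nhds_zero_nat
  have c1 : Continuous fun S : r.H →L[ℂ] r.H => inner ℂ η (S ξ) := by fun_prop
  exact (c1.tendsto _).comp t1

end

end Pool.Agent.H90.FS
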