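import Pool.Agent.H90.FsB

namespace Pool.Agent.H90.FS

open Filter Topology FreeGroup

noncomputable section

abbrev F8 : Type := FreeGroup (Fin 8)
abbrev L2 : Type := lp (fun _ : F8 => ℂ) 2
abbrev Lt : Type := Fin 8 × Bool

def bar (w : Lt) : Lt := (w.1, !w.2)

lemma bar_bar (w : Lt) : bar (bar w) = w := by simp [bar]

def gen (w : Lt) : F8 := mk [w]

lemma gen_true (i : Fin 8) : gen (i, true) = of i := rfl

lemma gen_bar (w : Lt) : gen (bar w) = (gen w)⁻¹ := by
  simp [gen, bar, inv_mk, invRev]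

lemma gen_mem (w : Lt) : gen w ∈ startsWith w := by simp [gen, startsWith]

lemma mul_mem_sw {w : Lt} {g : F8} (h : g ∉ startsWith (bar w)) : gen w * g ∈ startsWith w :=
  startsWith_mk_mul g h

lemma one_notMem (w : Lt) : (1 : F8) ∉ startsWith w := fun h => startsWith.ne_one _ h rfl

lemma norm_gen_mul {w : Lt} {g : F8} (h : g ∉ startsWith (bar w)) :
    (gen w * g).norm = g.norm + 1 := by
  unfold FreeGroup.norm
  have e : (gen w * g).toWord = w :: g.toWord := by
    have : gen w * g = mk (w :: g.toWord) := by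
      conv_lhs => rw [← mk_toWord (x := g)]
      rw [gen, mul_mk]; rfl
    rw [this, toWord_mk]
    apply IsReduced.reduce_eq
    have hr := isReduced_toWord (x := g)
    cases hg : g.toWord with
    | nil => exact IsReduced.singleton
    | cons b L =>
      rw [hg] at hr
      refine isReduced_cons_cons.2 ⟨fun h1 => ?_, hr⟩
      by_contra h2
      apply h
      simp only [startsWith, Set.mem_setOf_eq, hg, List.getElem?_cons_zero, Option.some.injEq, bar]
      refine Prod.ext h1.symm ?_
      · simp only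
        cases hb : b.2 <;> cases hw : w.2 <;> simp_all
  rw [e]; simp

lemma norm_gen (w : Lt) : (gen w).norm = 1 := by
  have := norm_gen_mul (one_notMem (bar w))
  simpa using this

lemma sw_unique {w w' : Lt} {g : F8} (h : g ∈ startsWith w) (h' : g ∈ startsWith w') : w = w' := by
  simp only [startsWith, Set.mem_setOf_eq] at h h'
  rw [h] at h'
  exact Option.some.inj h'

def e (x : F8) : L2 := lp.single 2 x 1

lemma inner_e (x : F8) (v : L2) : inner ℂ (e x) v = v x := by
  rw [e, lp.inner_single_left]; simp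

lemma e_apply (x y : F8) : (e x : F8 → ℂ) y = if y = x then 1 else 0 := by
  simp [e, lp.coeFn_single, Pi.single_apply]

lemma norm_e (x : F8) : ‖e x‖ = 1 := by
  rw [e, lp.norm_single (by norm_num)]; simp

def b0 : HilbertBasis F8 ℂ L2 := ⟨LinearIsometryEquiv.refl ℂ _⟩

lemma b0_eq (x : F8) : b0 x = e x := by
  rw [← b0.repr_symm_single]; rfl

def hb (s : F8) : HilbertBasis F8 ℂ L2 :=
  HilbertBasis.mk (v := b0 ∘ fun x => s * x) (b0.orthonormal.comp _ (mul_right_injective s))
    (by rw [(mul_left_surjective s).range_comp, b0.dense_span])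

def Lm (s : F8) : L2 ≃ₗᵢ[ℂ] L2 := (hb s).repr.symm

lemma Lm_apply (s : F8) (v : L2) (y : F8) : (Lm s v : F8 → ℂ) y = v (s⁻¹ * y) := by
  have h := (hb s).repr_apply_apply (Lm s v) (s⁻¹ * y)
  rw [Lm, LinearIsometryEquiv.apply_symm_apply, hb, HilbertBasis.coe_mk] at h
  simp only [Function.comp, mul_inv_cancel_left, b0_eq, inner_e] at h
  rw [h]; rfl

def uu (s : F8) : L2 := (2 : ℂ) • e 1 - e s

def Um (s : F8) : L2 ≃ₗᵢ[ℂ] L2 := (Lm s).trans (ℂ ∙ uu s)ᗮ.reflection

lemma norm_uu {s : F8} (hs : s ≠ 1) : ((‖uu s‖ : ℂ)) ^ 2 = 5 := by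
  have := inner_self_eq_norm_sq_to_K (𝕜 := ℂ) (uu s)
  simp only [Complex.coe_algebraMap] at this
  rw [← this]
  simp only [uu, inner_sub_left, inner_smul_left, inner_e, lp.coeFn_sub, lp.coeFn_smul,
    Pi.sub_apply, Pi.smul_apply, e_apply, hs, hs.symm, if_true, if_false, smul_eq_mul, map_ofNat]
  norm_num

lemma Um_apply {s : F8} (hs : s ≠ 1) (v : L2) (y : F8) : (Um s v : F8 → ℂ) y
    = v (s⁻¹ * y) - 2 / 5 * (2 * v s⁻¹ - v 1) * (uu s : F8 → ℂ) y := by
  rw [Um, LinearIsometryEquiv.trans_apply, Submodule.reflection_orthogonal_apply,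
    Submodule.reflection_singleton_apply]
  have h := norm_uu hs
  simp only [Complex.coe_algebraMap, h, neg_sub, lp.coeFn_sub, Pi.sub_apply, two_smul,
    lp.coeFn_add, Pi.add_apply, lp.coeFn_smul, Pi.smul_apply, smul_eq_mul, Lm_apply]
  have : inner ℂ (uu s) (Lm s v) = 2 * v s⁻¹ - v 1 := by
    simp only [uu, inner_sub_left, inner_smul_left, inner_e, Lm_apply, mul_one, inv_mul_cancel,
      map_ofNat]
  rw [this]; ring

def rho0 : F8 →* (L2 ≃ₗᵢ[ℂ] L2) := FreeGroup.lift fun i => Um (of i)

def rho : URep F8 :=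
  mkRep L2
    { toFun := fun g => (rho0 g).toLinearIsometry.toContinuousLinearMap
      map_one' := by ext v; simp
      map_mul' := fun g k => by ext v; simp }
    (fun g v w => (rho0 g).inner_map_map v w)

def R (g : F8) (v : L2) : L2 := rho.U g v

lemma key_true (i : Fin 8) (u v : L2) (hu : ∀ y ∈ startsWith (i, true), u y = 0)
    (hv : ∀ y ∈ startsWith (i, false), v y = 0) :
    inner ℂ u (R (of i) v) = 4 / 5 * (starRingEnd ℂ (u 1) * v 1) := by
  have e1 : R (of i) v = Um (of i) v := by
    change rho0 (of i) v = _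
    simp [rho0]
  have h0 : v (of i)⁻¹ = 0 := hv _ (by rw [← gen_true, ← gen_bar]; exact gen_mem _)
  rw [e1, lp.inner_eq_tsum, tsum_eq_single 1]
  · rw [Um_apply (of_ne_one i)]
    simp [uu, e_apply, h0]
    ring
  · intro y hy
    by_cases h : y ∈ startsWith (i, true)
    · simp [hu y h]
    · rw [Um_apply (of_ne_one i)]
      have h1 : v ((of i)⁻¹ * y) = 0 := hv _ (by
        rw [← gen_true, ← gen_bar]
        exact mul_mem_sw (w := (i, false)) h)
      have h2 : y ≠ of i := fun h3 => h (h3 ▸ gen_mem (i, true))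
      simp [uu, e_apply, h1, hy, h2]

lemma key (w : Lt) (u v : L2) (hu : ∀ y ∈ startsWith w, u y = 0)
    (hv : ∀ y ∈ startsWith (bar w), v y = 0) :
    inner ℂ u (R (gen w) v) = 4 / 5 * (starRingEnd ℂ (u 1) * v 1) := by
  obtain ⟨i, b⟩ := w
  cases b
  · have : gen (i, false) = (of i)⁻¹ := gen_bar (i, true)
    rw [this]
    have h := rho.inner_U_right (of i)⁻¹ u v
    rw [inv_inv] at h
    change inner ℂ u (R _ v) = inner ℂ (R _ u) v at h
    rw [h, ← inner_conj_symm, key_true i v u hv hu]
    simp [mul_comm, map_ofNat]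
  · exact key_true i u v hu hv

lemma R_mul (g k : F8) (v : L2) : R (g * k) v = R g (R k v) := rho.U_mul_apply g k v

lemma R_word (L : List Lt) (hL : IsReduced L) :
    (R (mk L) (e 1) : F8 → ℂ) 1 = (4 / 5) ^ L.length ∧
      ∀ w, L.head? ≠ some w → ∀ y ∈ startsWith w, (R (mk L) (e 1) : F8 → ℂ) y = 0 := by
  induction L with
  | nil =>
    have : R (mk []) (e 1) = e 1 := by
      change rho.U 1 _ = _
      rw [rho.U_one]; rfl
    rw [this]
    refine ⟨by simp [e_apply], fun w _ y hy => ?_⟩
    simp [e_apply, startsWith.ne_one _ hy]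
  | cons w L ih =>
    have hL' : IsReduced L := List.IsChain.tail hL
    obtain ⟨h1, h2⟩ := ih hL'
    have hne : L.head? ≠ some (bar w) := by
      cases L with
      | nil => simp
      | cons b L =>
        intro hb
        simp only [List.head?_cons, Option.some.injEq] at hb
        have := (isReduced_cons_cons.1 hL).1
        rw [hb] at this
        simp [bar] at this
    have e1 : mk (w :: L) = gen w * mk L := by rw [gen, mul_mk]; rfl
    have k : ∀ y, y ∉ startsWith w → (R (mk (w :: L)) (e 1) : F8 → ℂ) y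
        = 4 / 5 * (starRingEnd ℂ ((e y : F8 → ℂ) 1) * (4 / 5) ^ L.length) := by
      intro y hy
      rw [e1, R_mul, ← inner_e, key w _ _ _ (h2 _ hne), h1]
      intro z hz
      rw [e_apply, if_neg]
      rintro rfl
      exact hy hz
    refine ⟨?_, fun w' hw' y hy => ?_⟩
    · rw [k 1 (one_notMem w)]
      simp [e_apply, pow_succ']
    · rw [k y fun h => hw' (by simp [sw_unique h hy])]
      simp [e_apply, (startsWith.ne_one _ hy).symm]

lemma coef_rho (g : F8) : rho.coef (e 1) (e 1) g = (4 / 5) ^ g.norm := by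
  have := (R_word g.toWord isReduced_toWord).1
  rw [mk_toWord] at this
  exact (inner_e 1 (R g (e 1))).trans this

def res (W : Set F8) (v : L2) : L2 :=
  ⟨W.indicator v, (lp.memℓp v).mono' fun y => norm_indicator_le_norm_self _ _⟩

lemma res_apply (W : Set F8) (v : L2) (y : F8) : (res W v : F8 → ℂ) y = W.indicator v y := rfl

lemma res_add (W : Set F8) (v : L2) : res W v + res Wᶜ v = v := by
  ext y
  simp only [lp.coeFn_add, Pi.add_apply, res_apply]
  exact congrFun (Set.indicator_self_add_compl W v) y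

lemma norm_res (W : Set F8) (v : L2) : ‖res W v‖ ≤ ‖v‖ :=
  lp.norm_mono (by norm_num) fun y => norm_indicator_le_norm_self _ _

lemma sum_sq_res (v : L2) : ∑ w : Lt, ‖res (startsWith w) v‖ ^ 2 ≤ ‖v‖ ^ 2 := by
  have h : ∀ u : L2, HasSum (fun y => ‖u y‖ ^ 2) (‖u‖ ^ 2) := fun u => by
    simpa using lp.hasSum_norm (p := 2) (by norm_num) u
  refine hasSum_le (fun y => ?_) (hasSum_sum fun w _ => h (res (startsWith w) v)) (h v)
  by_cases hy : ∃ w, y ∈ startsWith w
  · obtain ⟨w, hw⟩ := hy
    rw [Finset.sum_eq_single w]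
    · rw [res_apply, Set.indicator_of_mem hw]
    · intro w' _ hne
      rw [res_apply, Set.indicator_of_notMem fun h => hne (sw_unique h hw)]; simp
    · simp
  · push Not at hy
    rw [Finset.sum_eq_zero fun w _ => by rw [res_apply, Set.indicator_of_notMem (hy w)]; simp]
    positivity

lemma sum_res (v : L2) : ∑ w : Lt, ‖res (startsWith w) v‖ ≤ 4 * ‖v‖ := by
  have h1 := sq_sum_le_card_mul_sum_sq (s := Finset.univ) (f := fun w : Lt => ‖res (startsWith w) v‖)
  have h2 := sum_sq_res v
  simp only [Finset.card_univ, Fintype.card_prod, Fintype.card_fin, Fintype.card_bool] at h1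
  refine (abs_le_of_sq_le_sq' ?_ (by positivity)).2
  push_cast at h1
  nlinarith

def barE : Lt ≃ Lt := ⟨bar, bar, bar_bar, bar_bar⟩

lemma norm_R (g : F8) (v : L2) : ‖R g v‖ = ‖v‖ := rho.norm_U g v

lemma pingpong (ε : Lt → ℂ) (h1 : ∀ w, ‖ε w‖ ≤ 1) (h0 : ∑ w, ε w = 0) (u v : L2) :
    ‖∑ w, ε w * inner ℂ u (R (gen w) v)‖ ≤ 8 * (‖u‖ * ‖v‖) := by
  have e1 : ∀ w, inner ℂ u (R (gen w) v) = (inner ℂ (res (startsWith w) u) (R (gen w) v)
      + inner ℂ (res (startsWith w)ᶜ u) (R (gen w) (res (startsWith (bar w)) v)))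
      + 4 / 5 * (starRingEnd ℂ (u 1) * v 1) := by
    intro w
    have k := key w (res (startsWith w)ᶜ u) (res (startsWith (bar w))ᶜ v)
      (fun y hy => by rw [res_apply, Set.indicator_of_notMem (by simpa using hy)])
      (fun y hy => by rw [res_apply, Set.indicator_of_notMem (by simpa using hy)])
    rw [res_apply, res_apply, Set.indicator_of_mem (show (1 : F8) ∈ (startsWith w)ᶜ from
      one_notMem w), Set.indicator_of_mem (show (1 : F8) ∈ (startsWith (bar w))ᶜ from
      one_notMem _)] at k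
    have a1 : R (gen w) (res (startsWith (bar w)) v) + R (gen w) (res (startsWith (bar w))ᶜ v)
        = R (gen w) v := by
      conv_rhs => rw [← res_add (startsWith (bar w)) v]
      exact (map_add (rho.U (gen w)) _ _).symm
    rw [← k, add_assoc, ← inner_add_right, a1, ← inner_add_left, res_add]
  rw [Finset.sum_congr rfl fun w _ => by rw [e1 w, mul_add], Finset.sum_add_distrib,
    ← Finset.sum_mul, h0, zero_mul, add_zero]
  refine (norm_sum_le _ _).trans ?_
  have e2 : ∀ w, ‖ε w * (inner ℂ (res (startsWith w) u) (R (gen w) v)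
      + inner ℂ (res (startsWith w)ᶜ u) (R (gen w) (res (startsWith (bar w)) v)))‖
      ≤ ‖res (startsWith w) u‖ * ‖v‖ + ‖u‖ * ‖res (startsWith (barE w)) v‖ := by
    intro w
    rw [norm_mul]
    refine (mul_le_of_le_one_left (norm_nonneg _) (h1 w)).trans ((norm_add_le _ _).trans ?_)
    refine add_le_add ((norm_inner_le_norm _ _).trans ?_) ((norm_inner_le_norm _ _).trans ?_)
    · rw [norm_R]
    · rw [norm_R]
      exact mul_le_mul_of_nonneg_right (norm_res _ _) (norm_nonneg _)
  refine (Finset.sum_le_sum fun w _ => e2 w).trans ?_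
  rw [Finset.sum_add_distrib, ← Finset.sum_mul, ← Finset.mul_sum,
    barE.sum_comp fun w => ‖res (startsWith w) v‖]
  nlinarith [sum_res u, sum_res v, norm_nonneg u, norm_nonneg v]

lemma schur (g : F8) : ∑ w, ((16 : ℝ) / 25) ^ (gen w * g).norm ≤ 12 * (16 / 25) ^ g.norm := by
  classical
  have h1 : ∀ w, ((16 : ℝ) / 25) ^ (gen w * g).norm ≤ 16 / 25 * (16 / 25) ^ g.norm
      + if g ∈ startsWith (barE w) then 25 / 16 * (16 / 25) ^ g.norm else 0 := by
    intro w
    split_ifs with h
    · have h2 : g.norm ≤ (gen w * g).norm + 1 := by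
        have := norm_mul_le (gen (bar w)) (gen w * g)
        rw [norm_gen, gen_bar, inv_mul_cancel_left] at this
        omega
      have h3 : ((16 : ℝ) / 25) ^ ((gen w * g).norm + 1) ≤ (16 / 25) ^ g.norm :=
        pow_le_pow_of_le_one (by norm_num) (by norm_num) h2
      rw [pow_succ] at h3
      have : 0 < ((16 : ℝ) / 25) ^ g.norm := by positivity
      linarith
    · rw [norm_gen_mul h, pow_succ', add_zero]
  refine (Finset.sum_le_sum fun w _ => h1 w).trans ?_
  rw [Finset.sum_add_distrib, barE.sum_comp fun w =>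
    if g ∈ startsWith w then 25 / 16 * ((16 : ℝ) / 25) ^ g.norm else 0]
  have h2 : ∑ w : Lt, (if g ∈ startsWith w then 25 / 16 * ((16 : ℝ) / 25) ^ g.norm else 0)
      ≤ 25 / 16 * ((16 : ℝ) / 25) ^ g.norm := by
    by_cases hy : ∃ w, g ∈ startsWith w
    · obtain ⟨w, hw⟩ := hy
      rw [Finset.sum_eq_single w, if_pos hw]
      · intro w' _ hne
        rw [if_neg fun h => hne (sw_unique h hw)]
      · simp
    · push Not at hy
      rw [Finset.sum_eq_zero fun w _ => if_neg (hy w)]
      positivity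
  simp only [Finset.sum_const, Finset.card_univ, Fintype.card_prod, Fintype.card_fin,
    Fintype.card_bool, nsmul_eq_mul]
  have : 0 < ((16 : ℝ) / 25) ^ g.norm := by positivity
  push_cast
  linarith

end

end Pool.Agent.H90.FS
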