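import Pool.Agent.H90.FsC

namespace Pool.Agent.H90.FS

open Filter Topology FreeGroup

noncomputable section

def twist {G : Type} [Group G] (r : URep G) (χ : G →* Circle) : URep G :=
  mkRep r.H
    { toFun := fun g => (χ g : ℂ) • r.U g
      map_one' := by simp [r.U_one]
      map_mul' := fun g k => by simp [r.U_mul, smul_smul, mul_comm] }
    (fun g v w => by
      simp only [MonoidHom.coe_mk, OneHom.coe_mk, smul_apply, inner_smul_left, inner_smul_right,
        r.inner_U]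
      rw [← mul_assoc, ← Circle.coe_inv_eq_conj, ← Circle.coe_mul]; simp)

lemma coef_twist {G : Type} [Group G] (r : URep G) (χ : G →* Circle) (a b : r.H) (g : G) :
    (twist r χ).coef a b g = (χ g : ℂ) * r.coef a b g := by
  change inner ℂ b ((χ g : ℂ) • r.U g a) = _
  rw [inner_smul_right]; rfl

def cI : Circle := ⟨Complex.I, by simp [Submonoid.unitSphere]⟩

def chi : F8 →* Circle := FreeGroup.lift fun i => if i < 4 then 1 else cI

def cc (w : Lt) : ℂ := chi (gen w)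

lemma cc_bar (w : Lt) : cc (bar w) = starRingEnd ℂ (cc w) := by
  rw [cc, gen_bar, _root_.map_inv, Circle.coe_inv_eq_conj]; rfl

lemma cc_true (i : Fin 8) : cc (i, true) = if i < 4 then 1 else Complex.I := by
  rw [cc, gen_true, chi, lift_apply_of]
  split_ifs <;> rfl

lemma cc_false (i : Fin 8) : cc (i, false) = if i < 4 then 1 else -Complex.I := by
  have := cc_bar (i, true)
  rw [cc_true] at this
  refine this.trans ?_
  split_ifs <;> simp

lemma norm_cc (w : Lt) : ‖cc w‖ = 1 := Circle.norm_coe _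

lemma sum_cc : ∑ w, cc w = 8 := by
  simp only [Fintype.sum_prod_type, Fintype.sum_bool, cc_true, cc_false, Fin.sum_univ_eight]
  norm_num [Fin.lt_def]

lemma sum_cc2 : ∑ w, cc w * cc w = 0 := by
  simp only [Fintype.sum_prod_type, Fintype.sum_bool, cc_true, cc_false, Fin.sum_univ_eight]
  norm_num [Fin.lt_def]

def aa : F8 →₀ ℂ := ∑ w, Finsupp.single (gen w) (cc w)

lemma op_aa (r : URep F8) : r.op aa = ∑ w, cc w • r.U (gen w) := by
  simp [op_eq, aa, map_sum]

lemma pair_aa (f : F8 → ℂ) : pair f aa = ∑ w, cc w * f (gen w) := by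
  simp [pair_eq, aa, map_sum]

lemma sa_aa (r : URep F8) : IsSelfAdjoint (r.op aa) := by
  rw [IsSelfAdjoint, op_aa, star_sum, ← barE.sum_comp]
  refine Finset.sum_congr rfl fun w _ => ?_
  rw [star_smul, r.star_U]
  change star (cc (bar w)) • r.U (gen (bar w))⁻¹ = _
  rw [cc_bar, gen_bar, inv_inv]; simp

lemma norm_aa (r : URep F8) : ‖r.op aa‖ ≤ 16 := by
  rw [op_aa]
  refine (norm_sum_le _ _).trans ((Finset.sum_le_sum (g := fun _ => (1 : ℝ)) fun w _ => ?_).trans ?_)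
  · rw [norm_smul, norm_cc, one_mul]; exact norm_U_le r _
  · simp

def Dec (t : ℝ) (r : URep F8) (ξ : r.H) : Prop :=
  ∃ C : ℝ, 0 ≤ C ∧ ∀ g, ‖r.coef ξ ξ g‖ ≤ C * t ^ g.norm

lemma Dec.trans {t : ℝ} (h0 : 0 < t) (h1 : t ≤ 1) {r : URep F8} {ξ : r.H} (h : Dec t r ξ) (x : F8) :
    Dec t r (r.U x ξ) := by
  obtain ⟨C, hC, h⟩ := h
  refine ⟨C / t ^ (2 * x.norm), by positivity, fun g => ?_⟩
  have e1 : r.coef (r.U x ξ) (r.U x ξ) g = r.coef ξ ξ (x⁻¹ * (g * x)) := by
    rw [URep.coef_apply, URep.coef_apply, r.U_mul_apply, r.inner_U_right x⁻¹, inv_inv,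
      r.U_mul_apply]
  rw [e1]
  refine (h _).trans ?_
  have h2 : g.norm ≤ (x⁻¹ * (g * x)).norm + 2 * x.norm := by
    have a1 := norm_mul_le x (x⁻¹ * (g * x))
    have a2 := norm_mul_le (g * x) x⁻¹
    rw [mul_inv_cancel_left] at a1
    rw [mul_inv_cancel_right, norm_inv_eq] at a2
    omega
  have h3 := pow_le_pow_of_le_one h0.le h1 h2
  rw [pow_add] at h3
  rw [div_mul_eq_mul_div, le_div_iff₀ (by positivity), mul_assoc]
  gcongr

lemma Dec.kill {r : URep F8} {ξ : r.H} (h : Dec (16 / 25) r ξ) :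
    (cfc hh (r.op aa) : r.H →L[ℂ] r.H) ξ = 0 := by
  obtain ⟨C, hC, h⟩ := h
  have key : ∀ (m : ℕ) (g : F8),
      ‖inner ℂ ξ ((r.op aa ^ m) (r.U g ξ))‖ ≤ C * 12 ^ m * (16 / 25) ^ g.norm := by
    intro m
    induction m with
    | zero => intro g; simpa [URep.coef_apply] using h g
    | succ m ih =>
      intro g
      have e1 : (r.op aa ^ (m + 1)) (r.U g ξ)
          = ∑ w, cc w • (r.op aa ^ m) (r.U (gen w * g) ξ) := by
        rw [pow_succ]
        change (r.op aa ^ m) (r.op aa (r.U g ξ)) = _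
        conv_lhs => rw [op_aa r, ContinuousLinearMap.sum_apply, ← op_aa r]
        simp only [map_sum, smul_apply, map_smul, r.U_mul_apply]
      rw [e1, inner_sum]
      refine (norm_sum_le _ _).trans ((Finset.sum_le_sum
        (g := fun w => C * 12 ^ m * (16 / 25) ^ (gen w * g).norm) fun w _ => ?_).trans ?_)
      · rw [inner_smul_right, norm_mul, norm_cc, one_mul]; exact ih _
      · rw [← Finset.mul_sum, pow_succ]
        calc _ ≤ C * 12 ^ m * (12 * (16 / 25) ^ g.norm) := by gcongr; exact schur g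
          _ = _ := by ring
  refine killed (sa_aa r) (norm_aa r) ξ C fun m => ?_
  simpa [r.U_one] using key m 1

lemma Dec.tens {r s : URep F8} {ξ : r.H} {η : s.H} (h1 : Dec (4 / 5) r ξ) (h2 : Dec (4 / 5) s η) :
    Dec (16 / 25) (tens r s) (tv ξ η) := by
  obtain ⟨C, hC, h1⟩ := h1
  obtain ⟨D, hD, h2⟩ := h2
  refine ⟨C * D, by positivity, fun g => ?_⟩
  rw [coef_tens, Pi.mul_apply, norm_mul]
  calc _ ≤ (C * (4 / 5) ^ g.norm) * (D * (4 / 5) ^ g.norm) := by gcongr <;> apply_assumption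
    _ = C * D * ((4 / 5) * (4 / 5)) ^ g.norm := by rw [mul_pow]; ring
    _ = _ := by norm_num

lemma Dec.weak {r : URep F8} {ξ : r.H} (h : Dec (16 / 25) r ξ) : Dec (4 / 5) r ξ := by
  obtain ⟨C, hC, h⟩ := h
  exact ⟨C, hC, fun g => (h g).trans (mul_le_mul_of_nonneg_left
    (pow_le_pow_left₀ (by norm_num) (by norm_num) _) hC)⟩

def Good (r : URep F8) (ξ : r.H) : Prop :=
  Dec (4 / 5) r ξ ∧ ∀ x, (cfc hh (r.op aa) : r.H →L[ℂ] r.H) (r.U x ξ) = 0

def VV : Set (F8 → ℂ) := {f | f = 1 ∨ ∃ (r : URep F8) (ξ η : r.H), Good r ξ ∧ f = r.coef ξ η}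

lemma VV_sub : VV ⊆ BG F8 := by
  rintro f (rfl | ⟨r, ξ, η, -, rfl⟩)
  · exact BG_one
  · exact ⟨r, ξ, η, rfl⟩

lemma VV_mul : ∀ u ∈ VV, ∀ v ∈ VV, u * v ∈ VV := by
  rintro u (rfl | ⟨r, ξ, η, h, rfl⟩) v hv
  · rwa [one_mul]
  rcases hv with rfl | ⟨s, a, b, h', rfl⟩
  · rw [mul_one]; exact Or.inr ⟨r, ξ, η, h, rfl⟩
  have := h.1.tens h'.1
  exact Or.inr ⟨_, tv ξ a, tv η b, ⟨this.weak, fun x =>
    (this.trans (by norm_num) (by norm_num) x).kill⟩, (coef_tens _ _ _ _).symm⟩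

lemma VV_tr : TranslationInvariant VV := by
  rintro u (rfl | ⟨r, ξ, η, h, rfl⟩) s
  · exact ⟨Or.inl rfl, Or.inl rfl⟩
  refine ⟨Or.inr ⟨r, ξ, _, h, coef_left r ξ η s⟩, Or.inr ⟨r, _, η, ⟨?_, fun x => ?_⟩,
    coef_right r ξ η s⟩⟩
  · exact h.1.trans (by norm_num) (by norm_num) s
  · rw [← r.U_mul_apply]; exact h.2 _

lemma opNorm_le_of_inner {H : Type} [NormedAddCommGroup H] [InnerProductSpace ℂ H]
    (T : H →L[ℂ] H) {c : ℝ} (hc : 0 ≤ c) (h : ∀ u v, ‖inner ℂ u (T v)‖ ≤ c * (‖u‖ * ‖v‖)) :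
    ‖T‖ ≤ c := by
  refine ContinuousLinearMap.opNorm_le_bound _ hc fun v => ?_
  have h1 := h (T v) v
  rw [inner_self_eq_norm_sq_to_K] at h1
  simp only [norm_pow, Complex.coe_algebraMap, Complex.norm_real, norm_norm] at h1
  rcases (norm_nonneg (T v)).eq_or_lt with h2 | h2
  · rw [← h2]; positivity
  · refine le_of_mul_le_mul_left ?_ h2
    nlinarith

lemma good0 : Good (twist rho chi) (e 1) := by
  refine ⟨⟨1, zero_le_one, fun g => ?_⟩, fun x => killed_of_norm (sa_aa _) ?_ _⟩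
  · rw [coef_twist, coef_rho, norm_mul, Circle.norm_coe, norm_pow]
    simp
  · refine (opNorm_le_of_inner _ (by norm_num : (0 : ℝ) ≤ 8) fun u v => ?_).trans (by norm_num)
    rw [← pair_coef, pair_aa]
    have := pingpong (fun w => cc w * cc w) (fun w => by rw [norm_mul, norm_cc, one_mul]) sum_cc2 u v
    refine le_of_eq_of_le ?_ this
    congr 1
    refine Finset.sum_congr rfl fun w _ => ?_
    rw [coef_twist (r := rho), mul_assoc]; rfl

theorem main : ∃ B : Subalgebra ℂ (F8 → ℂ), (B : Set (F8 → ℂ)) ⊆ BG F8 ∧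
    WeakStarClosed (B : Set (F8 → ℂ)) ∧ TranslationInvariant (B : Set (F8 → ℂ)) ∧
    ¬ ConjClosed (B : Set (F8 → ℂ)) := by
  obtain ⟨B, hB, h1, h2, h3⟩ := exists_alg VV VV_sub (Or.inl rfl) VV_mul VV_tr
  refine ⟨B, h1, h2, h3, fun hc => ?_⟩
  obtain ⟨x, hx, hx2⟩ := exists_elt aa sa_aa norm_aa
  have f0 : (twist rho chi).coef (e 1) (e 1) ∈ VV := Or.inr ⟨_, _, _, good0, rfl⟩
  have f1 : (twist rho chi).coef (e 1) (e 1) ∈ (B : Set (F8 → ℂ)) := by
    rw [hB]; exact ⟨VV_sub f0, fun x _ h => h _ f0⟩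
  have f2 := hc _ f1
  have e1 : (fun g => starRingEnd ℂ ((twist rho chi).coef (e 1) (e 1) g))
      = (twist rho chi⁻¹).coef (e 1) (e 1) := by
    funext g
    rw [coef_twist, coef_twist, coef_rho, MonoidHom.inv_apply, Circle.coe_inv_eq_conj]
    simp [map_ofNat]
  rw [e1, hB] at f2
  have f3 := f2.2 x hx (by
    rintro v (rfl | ⟨r, ξ, η, h, rfl⟩)
    · rw [← coef_triv, hx2, killed_of_norm (sa_aa _), inner_zero_right]
      refine (opNorm_le_of_inner _ (by norm_num : (0 : ℝ) ≤ 8) fun u v => ?_).trans (by norm_num)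
      rw [← pair_coef, pair_aa]
      have : ∀ w, (triv F8).coef v u (gen w) = inner ℂ u v := fun w => rfl
      simp only [this]
      rw [← Finset.sum_mul, sum_cc, norm_mul]
      have := norm_inner_le_norm (𝕜 := ℂ) u v
      simp only [Complex.norm_ofNat]
      linarith
    · have := h.2 1
      rw [r.U_one] at this
      rw [hx2]
      erw [this]
      exact inner_zero_right _)
  rw [hx2] at f3
  refine pos_hh (sa_aa (twist rho chi⁻¹)) (e 1) (norm_e 1) ?_ f3
  refine lt_of_lt_of_eq ?_ (congrArg Complex.re (pair_coef (twist rho chi⁻¹) (e 1) (e 1) aa))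
  rw [pair_aa]
  have : ∀ w, cc w * (twist rho chi⁻¹).coef (e 1) (e 1) (gen w) = 4 / 5 := by
    intro w
    rw [coef_twist, coef_rho, norm_gen, MonoidHom.inv_apply, cc, ← mul_assoc, ← Circle.coe_mul]
    simp
  simp only [this]
  simp
  norm_num

end

end Pool.Agent.H90.FS
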