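import Mathlib

/-! Fourier-Stieltjes algebra of a discrete group, the full group C*-norm, and weak* closed sets. -/

namespace Pool.Agent.H90.FS

open Filter

noncomputable section

/-- A unitary representation of the discrete group `G` on a complex Hilbert space: an action of `G`
by linear maps that preserve the inner product. -/
structure URep (G : Type) [Group G] where
  H : Type
  nag : NormedAddCommGroup H
  ips : InnerProductSpace ℂ H
  cs : CompleteSpace H
  π : G → H → H
  π_one : ∀ v, π 1 v = v
  π_mul : ∀ g k v, π (g * k) v = π g (π k v)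
  π_add : ∀ g v w, π g (v + w) = π g v + π g w
  π_smul : ∀ g (c : ℂ) v, π g (c • v) = c • π g v
  π_inner : ∀ g v w, inner ℂ (π g v) (π g w) = inner ℂ v w

variable {G : Type} [Group G]

instance instNag (r : URep G) : NormedAddCommGroup r.H := r.nag
instance instIps (r : URep G) : InnerProductSpace ℂ r.H := r.ips
instance instCs (r : URep G) : CompleteSpace r.H := r.cs

/-- The coefficient function `g ↦ ⟨π(g) ξ, η⟩` (Mathlib's inner product is linear on the right). -/
def URep.coef (r : URep G) (ξ η : r.H) : G → ℂ :=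
  fun g => inner ℂ η (r.π g ξ)

/-- The Fourier-Stieltjes algebra `B(G)`: all coefficient functions of unitary representations. -/
def BG (G : Type) [Group G] : Set (G → ℂ) := {f | ∃ (r : URep G) (ξ η : r.H), f = r.coef ξ η}

/-- The vector `π(a) v = ∑ a(g) π(g) v` for a finitely supported `a`. -/
def URep.act (r : URep G) (a : G →₀ ℂ) (v : r.H) : r.H := a.sum fun g c => c • r.π g v

/-- The full C*-norm on the group algebra: the supremum of the operator norms `‖π(a)‖` over all
unitary representations. -/
def fullNorm (a : G →₀ ℂ) : ℝ :=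
  sSup {t : ℝ | ∃ (r : URep G) (v : r.H), ‖v‖ ≤ 1 ∧ t = ‖r.act a v‖}

/-- Cauchy sequences for the full norm; they represent the elements of the completion `C*(G)`. -/
def IsCauchy (x : ℕ → G →₀ ℂ) : Prop :=
  ∀ ε : ℝ, 0 < ε → ∃ N, ∀ m ≥ N, ∀ n ≥ N, fullNorm (x m - x n) < ε

/-- The pairing `∑ a(g) f(g)`. -/
def pair (f : G → ℂ) (a : G →₀ ℂ) : ℂ := a.sum fun g c => c * f g

/-- The duality between `f ∈ B(G)` and the element of `C*(G)` represented by `x`. -/
def pairLim (f : G → ℂ) (x : ℕ → G →₀ ℂ) : ℂ := limUnder atTop fun n => pair f (x n)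

/-- `B` is closed in the weak* topology of `B(G) = C*(G)*`: it contains every `f ∈ B(G)` each of
whose basic weak* neighbourhoods meets `B`. -/
def WeakStarClosed (B : Set (G → ℂ)) : Prop :=
  ∀ f ∈ BG G, (∀ (k : ℕ) (x : Fin k → ℕ → G →₀ ℂ), (∀ i, IsCauchy (x i)) → ∀ ε : ℝ, 0 < ε →
    ∃ h ∈ B, ∀ i, ‖pairLim f (x i) - pairLim h (x i)‖ < ε) → f ∈ B

/-- Invariance under left and right translations. -/
def TranslationInvariant (B : Set (G → ℂ)) : Prop :=
  ∀ f ∈ B, ∀ s : G, (fun x => f (s * x)) ∈ B ∧ (fun x => f (x * s)) ∈ B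

/-- Closed under pointwise complex conjugation. -/
def ConjClosed (B : Set (G → ℂ)) : Prop := ∀ f ∈ B, (fun x => (starRingEnd ℂ) (f x)) ∈ B

end

end Pool.Agent.H90.FS
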