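import Mathlib

set_option autoImplicit false

namespace Pool.Agent.H90.Funtf

open Module Filter Topology Set

variable {𝕜 : Type*} [RCLike 𝕜]

lemma re_sum_nonpos {κ : Type*} [Fintype κ] (z : κ → 𝕜)
    (h : ∀ s : ℝ, 0 ≤ s → s ≤ 1 → ‖∏ k, (1 + (s : 𝕜) * z k)‖ ≤ 1) :
    RCLike.re (∑ k, z k) ≤ 0 := by
  classical
  have h1 : ∀ k, HasDerivAt (fun s : ℝ => 1 + (s : 𝕜) * z k) (z k) 0 := fun k => by
    have := ((RCLike.ofRealCLM (K := 𝕜)).hasDerivAt (x := 0)).mul_const (z k)
    simpa using this.const_add 1
  have h2 := HasDerivAt.fun_finsetProd (u := Finset.univ) (fun k _ => h1 k)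
  have h3 : HasDerivAt (fun s : ℝ => RCLike.re (∏ k, (1 + (s : 𝕜) * z k)))
      (RCLike.re (∑ k, z k)) 0 := by
    have := (RCLike.reCLM (K := 𝕜)).hasFDerivAt.comp_hasDerivAt 0 h2
    simpa [Function.comp_def] using this
  refine le_of_tendsto h3.tendsto_slope_zero_right ?_
  filter_upwards [Ioc_mem_nhdsGT (zero_lt_one' ℝ)] with s hs
  have h4 := (RCLike.re_le_norm _).trans (h s hs.1.le hs.2)
  simp only [zero_add, map_zero, zero_mul, add_zero, Finset.prod_const_one, RCLike.one_re,
    smul_eq_mul]
  exact mul_nonpos_of_nonneg_of_nonpos (inv_nonneg.2 hs.1.le) (by linarith)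

variable {X : Type*} [NormedAddCommGroup X] [NormedSpace 𝕜 X] [FiniteDimensional 𝕜 X]

lemma det_cont {n : ℕ} (b : Basis (Fin n) 𝕜 X) : Continuous (fun v : Fin n → X => b.det v) := by
  simp only [Basis.det_apply]
  apply Continuous.matrix_det
  refine continuous_pi (fun i => continuous_pi (fun j => ?_))
  exact (b.coord i).continuous_of_finiteDimensional.comp (continuous_apply j)

theorem exists_funtf {n : ℕ} (hn : 0 < n) (b : Basis (Fin n) 𝕜 X)
    {G : Type*} [AddCommGroup G] [Fintype G] (ι : Fin n → G) (hι : Function.Injective ι) :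
    ∃ (x : G → X) (f : G → X →L[𝕜] 𝕜), (∀ i, ‖x i‖ = 1 ∧ ‖f i‖ = 1 ∧ f i (x i) = 1) ∧
      ∀ v, ∑ i, f i v • x i = ((Fintype.card G : 𝕜) / n) • v := by
  classical
  have := FiniteDimensional.proper_rclike 𝕜 X
  let Φ : (G → X) → 𝕜 := fun y => ∏ j, b.det (fun k => y (j + ι k))
  have hΦ : Continuous (fun y => ‖Φ y‖) := by
    refine (continuous_finsetProd _ (fun j _ => (det_cont b).comp ?_)).norm
    exact continuous_pi (fun k => continuous_apply _)
  let B : Set (G → X) := Set.pi univ (fun _ => Metric.closedBall 0 1)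
  have hB : IsCompact B := isCompact_univ_pi (fun _ => isCompact_closedBall _ _)
  have memB : ∀ y : G → X, y ∈ B ↔ ∀ i, ‖y i‖ ≤ 1 := fun y => by simp [B, Set.mem_pi]
  -- a point of `B` with `Φ ≠ 0`
  obtain ⟨y0, hy0, hy0'⟩ : ∃ y0 ∈ B, Φ y0 ≠ 0 := by
    let a : G → 𝕜 := fun i => ((Fintype.equivFin G i : ℕ) : 𝕜)
    have ha : Function.Injective a := fun i j h =>
      (Fintype.equivFin G).injective (Fin.ext (Nat.cast_injective h))
    let u : G → X := fun i => b.equivFun.symm (fun k => a i ^ (k : ℕ))
    let R : ℝ := 1 + ∑ i, ‖u i‖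
    have hR : 0 < R := by positivity
    refine ⟨fun i => ((R⁻¹ : ℝ) : 𝕜) • u i, (memB _).2 (fun i => ?_), ?_⟩
    · rw [norm_smul, RCLike.norm_ofReal, abs_of_pos (inv_pos.2 hR), inv_mul_le_iff₀ hR, mul_one]
      have := Finset.single_le_sum (f := fun i => ‖u i‖) (fun i _ => norm_nonneg _)
        (Finset.mem_univ i)
      simp only [R]; linarith
    · refine Finset.prod_ne_zero_iff.2 (fun j _ => ?_)
      have e := b.det.map_smul_univ (fun _ => ((R⁻¹ : ℝ) : 𝕜)) (fun k => u (j + ι k))
      rw [e]
      refine smul_ne_zero (Finset.prod_ne_zero_iff.2 (fun _ _ => ?_)) ?_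
      · exact_mod_cast (inv_pos.2 hR).ne'
      · rw [Basis.det_apply]
        have : b.toMatrix (fun k => u (j + ι k)) =
            (Matrix.vandermonde (fun k => a (j + ι k))).transpose := by
          ext r c
          simp only [Basis.toMatrix_apply, u, Matrix.transpose_apply, Matrix.vandermonde_apply]
          rw [← Basis.equivFun_apply, LinearEquiv.apply_symm_apply]
        rw [this, Matrix.det_transpose, Matrix.det_vandermonde_ne_zero_iff]
        exact ha.comp ((add_right_injective j).comp hι)
  obtain ⟨y, hy, hmax⟩ := hB.exists_isMaxOn ⟨y0, hy0⟩ hΦ.continuousOn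
  have hΦy : Φ y ≠ 0 := by
    intro h
    have := hmax hy0
    simp only [mem_ofPred_eq, h, norm_zero, norm_le_zero_iff] at this
    exact hy0' this
  have hD : ∀ j, b.det (fun k => y (j + ι k)) ≠ 0 := fun j =>
    Finset.prod_ne_zero_iff.1 hΦy j (Finset.mem_univ j)
  have hb : ∀ j, LinearIndependent 𝕜 (fun k => y (j + ι k)) ∧
      Submodule.span 𝕜 (range (fun k => y (j + ι k))) = ⊤ := fun j =>
    (Basis.is_basis_iff_det b).2 (isUnit_iff_ne_zero.2 (hD j))
  let c : G → Basis (Fin n) 𝕜 X := fun j => Basis.mk (hb j).1 (hb j).2.ge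
  have hc : ∀ j k, c j k = y (j + ι k) := fun j k => by simp [c]
  have hupd : ∀ j k v, b.det (Function.update (fun k => y (j + ι k)) k v) =
      b.det (fun k => y (j + ι k)) * (c j).coord k v := fun j k v => by
    have := congrArg (fun L => L v) (b.det_smul_mk_coord_eq_det_update (hb j).1 (hb j).2.ge k)
    simp only [LinearMap.smul_apply, smul_eq_mul, MultilinearMap.toLinearMap_apply] at this
    exact this.symm
  have hΦupd : ∀ i v, Φ (Function.update y i v) = Φ y * ∏ k, (c (i - ι k)).coord k v := by
    intro i v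
    have h1 : ∏ k, (c (i - ι k)).coord k v = ∏ j, (b.det (fun k => Function.update y i v (j + ι k))
        / b.det (fun k => y (j + ι k))) := by
      apply Fintype.prod_of_injective (fun k => i - ι k) (sub_right_injective.comp hι)
      · intro j hj
        rw [div_eq_one_iff_eq (hD j)]
        congr 1
        funext k
        rw [Function.update_of_ne]
        intro h
        exact hj ⟨k, by simp [← h]⟩
      · intro k
        rw [eq_div_iff (hD _), mul_comm, ← hupd]
        congr 1
        funext l
        by_cases hl : l = k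
        · subst hl; simp
        · rw [Function.update_of_ne hl, Function.update_of_ne]
          intro h
          apply hl
          apply hι
          have : i - ι k + ι l = i - ι k + ι k := by rw [h]; simp
          exact add_left_cancel this
    rw [h1, Finset.prod_div_distrib, mul_div_cancel₀ _ hΦy]
  have hcy : ∀ i k, (c (i - ι k)).coord k (y i) = 1 := fun i k => by
    have : y i = c (i - ι k) k := by rw [hc]; simp
    rw [this]; simp
  let h : G → X →ₗ[𝕜] 𝕜 := fun i => ∑ k, (c (i - ι k)).coord k
  have hh1 : ∀ i, h i (y i) = n := fun i => by simp [h, LinearMap.sum_apply, hcy]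
  have hh2 : ∀ i v, ‖v‖ ≤ 1 → RCLike.re (h i v) ≤ n := by
    intro i v hv
    have := re_sum_nonpos (fun k => (c (i - ι k)).coord k v - 1) (fun s hs0 hs1 => by
      have hw : Function.update y i (y i + (s : 𝕜) • (v - y i)) ∈ B := by
        rw [memB]
        intro l
        by_cases hl : l = i
        · subst hl
          rw [Function.update_self]
          have e : y l + (s : 𝕜) • (v - y l) = ((1 - s : ℝ) : 𝕜) • y l + (s : 𝕜) • v := by
            push_cast; module
          rw [e]
          refine (norm_add_le _ _).trans ?_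
          rw [norm_smul, norm_smul, RCLike.norm_ofReal, RCLike.norm_ofReal,
            abs_of_nonneg hs0, abs_of_nonneg (by linarith)]
          have := (memB y).1 hy l
          nlinarith
        · rw [Function.update_of_ne hl]; exact (memB y).1 hy l
      have h2 := hmax hw
      simp only [mem_ofPred_eq, hΦupd, norm_mul, map_add, map_smul, map_sub, hcy,
        smul_eq_mul] at h2
      have h3 : 0 < ‖Φ y‖ := norm_pos_iff.2 hΦy
      exact (mul_le_iff_le_one_right h3).1 h2)
    rw [Finset.sum_sub_distrib] at this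
    simp only [Finset.sum_const, Finset.card_univ, Fintype.card_fin, nsmul_eq_mul, mul_one,
      map_sub, RCLike.natCast_re] at this
    simp only [h, LinearMap.sum_apply]
    linarith
  have hn' : (0 : ℝ) < n := by exact_mod_cast hn
  have hnk : (n : 𝕜) ≠ 0 := by exact_mod_cast hn.ne'
  let f : G → X →L[𝕜] 𝕜 := fun i => LinearMap.toContinuousLinearMap ((n : 𝕜)⁻¹ • h i)
  have hf : ∀ i v, f i v = (n : 𝕜)⁻¹ * h i v := fun i v => rfl
  have hf1 : ∀ i, f i (y i) = 1 := fun i => by rw [hf, hh1, inv_mul_cancel₀ hnk]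
  have hf2 : ∀ i, ‖f i‖ ≤ 1 := fun i => by
    apply ContinuousLinearMap.opNorm_le_of_unit_norm zero_le_one
    intro v hv
    obtain ⟨e, he, he2⟩ := RCLike.exists_norm_eq_mul_self (h i v)
    have h1 := hh2 i (e • v) (by rw [norm_smul, he, hv, one_mul])
    rw [map_smul, smul_eq_mul, ← he2, RCLike.ofReal_re] at h1
    rw [hf, norm_mul, norm_inv, RCLike.norm_natCast, inv_mul_le_iff₀ hn', mul_one]
    exact h1
  refine ⟨y, f, fun i => ?_, fun v => ?_⟩
  · have h1 := (f i).le_opNorm (y i)
    rw [hf1, norm_one] at h1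
    have h2 := (memB y).1 hy i
    have h3 := hf2 i
    have h4 := norm_nonneg (f i)
    have h5 := norm_nonneg (y i)
    exact ⟨by nlinarith, by nlinarith, hf1 i⟩
  · have h1 : ∑ i, h i v • y i = (Fintype.card G : 𝕜) • v := by
      simp only [h, LinearMap.sum_apply, Finset.sum_smul]
      rw [Finset.sum_comm]
      have h2 : ∀ k, ∑ i, (c (i - ι k)).coord k v • y i = ∑ j, (c j).coord k v • c j k := fun k => by
        refine Fintype.sum_equiv (Equiv.subRight (ι k)) _ _ (fun i => ?_)
        simp [hc]
      simp only [h2]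
      rw [Finset.sum_comm]
      simp only [Basis.coord_apply, Basis.sum_repr, Finset.sum_const, Finset.card_univ]
      rw [Nat.cast_smul_eq_nsmul]
    simp only [hf, mul_smul]
    rw [← Finset.smul_sum, h1, smul_smul, div_eq_inv_mul]

end Pool.Agent.H90.Funtf
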