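import Mathlib

namespace Pool.Agent.H90.Gd

open MeasureTheory

variable {G : Type} [Group G] [TopologicalSpace G] [IsTopologicalGroup G] [MeasurableSpace G]
  [BorelSpace G] (μ : Measure G) [μ.IsHaarMeasure]

/-- the Banach space `L¹(G)` -/
def L1 : Type := Lp ℂ 1 μ

noncomputable instance : NormedAddCommGroup (L1 μ) := Lp.instNormedAddCommGroup

noncomputable instance : NormedSpace ℂ (L1 μ) := Lp.instNormedSpace

/-- a function representing the class `f` -/
noncomputable def fn (f : L1 μ) : G → ℂ := f.1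

theorem fn_int (x : G) (f : L1 μ) : Integrable (fun y => fn μ f (x⁻¹ * y)) μ :=
  (measurePreserving_mul_left μ x⁻¹).integrable_comp_of_integrable (MeasureTheory.L1.integrable_coeFn f)

/-- left translation on `L¹(G)`: `(Lt x f) y = f (x⁻¹ y)` -/
noncomputable def Lt (x : G) (f : L1 μ) : L1 μ :=
  Integrable.toL1 (fun y => fn μ f (x⁻¹ * y)) (fn_int μ x f)

/-- convolution on `L¹(G)`, as a Bochner integral of translates -/
noncomputable def conv (f g : L1 μ) : L1 μ := ∫ x, fn μ f x • Lt μ x g ∂μ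

/-- a left Banach module over the convolution algebra `L¹(G)` -/
structure LMod : Type 1 where
  X : Type
  [grp : NormedAddCommGroup X]
  [spc : NormedSpace ℂ X]
  cpl : CompleteSpace X
  act : L1 μ → X → X
  bil : IsBoundedBilinearMap ℂ fun p : L1 μ × X => act p.1 p.2
  act_conv : ∀ a b x, act (conv μ a b) x = act a (act b x)

attribute [instance] LMod.grp LMod.spc

variable {μ}

/-- a bounded module morphism -/
def IsMor (M N : LMod μ) (φ : M.X → N.X) : Prop :=
  IsBoundedLinearMap ℂ φ ∧ ∀ a x, φ (M.act a x) = N.act a (φ x)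

/-- every morphism onto `P` with a bounded linear right inverse has a right inverse morphism -/
def Proj (P : LMod μ) : Prop :=
  ∀ (Y : LMod μ) (φ : Y.X → P.X), IsMor Y P φ →
    (∃ s : P.X → Y.X, IsBoundedLinearMap ℂ s ∧ ∀ x, φ (s x) = x) →
    ∃ ρ : P.X → Y.X, IsMor P Y ρ ∧ ∀ x, φ (ρ x) = x

/-- `e` is a morphism to the augmentation module `ℂ` -/
def IsAug (M : LMod μ) (e : M.X → ℂ) : Prop :=
  IsBoundedLinearMap ℂ e ∧ ∀ a x, e (M.act a x) = (∫ t, fn μ a t ∂μ) * e x

/-- `0 ← ℂ ← P 0 ← P 1 ← ⋯` is a complex of modules -/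
def IsCx (P : ℕ → LMod μ) (d : ∀ k, (P (k + 1)).X → (P k).X) (e : (P 0).X → ℂ) : Prop :=
  IsAug (P 0) e ∧ (∀ k, IsMor (P (k + 1)) (P k) (d k)) ∧ (∀ x, e (d 0 x) = 0) ∧
    ∀ k x, d k (d (k + 1) x) = 0

/-- the complex splits as a complex of Banach spaces (it has a bounded contracting homotopy) -/
def Splits (P : ℕ → LMod μ) (d : ∀ k, (P (k + 1)).X → (P k).X) (e : (P 0).X → ℂ) : Prop :=
  ∃ (s : ∀ k, (P k).X → (P (k + 1)).X) (u : ℂ → (P 0).X), (∀ k, IsBoundedLinearMap ℂ (s k)) ∧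
    IsBoundedLinearMap ℂ u ∧ (∀ z, e (u z) = z) ∧ (∀ x, d 0 (s 0 x) + u (e x) = x) ∧
    ∀ k x, d (k + 1) (s (k + 1) x) + s k (d k x) = x

variable (μ)

/-- the augmentation module has a projective resolution with `P k = 0` for all `k > n` -/
def HasRes (n : ℕ) : Prop :=
  ∃ (P : ℕ → LMod μ) (d : ∀ k, (P (k + 1)).X → (P k).X) (e : (P 0).X → ℂ),
    IsCx P d e ∧ Splits P d e ∧ (∀ k, Proj (P k)) ∧ ∀ k, n < k → ∀ x : (P k).X, x = 0

end Pool.Agent.H90.Gd
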