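import Mathlib
import Pool.Agent.H90.GdDefs
import Pool.Agent.H90.GdC

namespace Pool.Agent.H90.Gd

open Filter Topology MeasureTheory

variable {G : Type} [Group G] [TopologicalSpace G] [IsTopologicalGroup G] [MeasurableSpace G]
  [BorelSpace G] {μ : Measure G} [μ.IsHaarMeasure]

noncomputable def LL (μ : Measure G) [μ.IsHaarMeasure] (x : G) : Lp ℂ 1 μ →L[ℂ] Lp ℂ 1 μ :=
  (Lp.compMeasurePreservingₗᵢ ℂ (fun y => x⁻¹ * y)
    (measurePreserving_mul_left μ x⁻¹)).toContinuousLinearMap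

lemma LL_rp (x : G) : Rp (LL μ x) (fun _ => ContinuousLinearMap.id ℂ ℂ) fun y => x⁻¹ * y :=
  fun f => Lp.coeFn_compMeasurePreserving f _

lemma LL_eq (x : G) (f : Lp ℂ 1 μ) : Lt μ x f = LL μ x f :=
  Lp.ext ((fn_int μ x f).coeFn_toL1.trans (LL_rp x f).symm)

noncomputable def cv (f g : Lp ℂ 1 μ) : Lp ℂ 1 μ := ∫ x, f x • LL μ x g ∂μ

lemma conv_eq (f g : Lp ℂ 1 μ) : conv μ f g = cv f g :=
  congrArg (integral μ) (funext fun x => congrArg (f x • ·) (LL_eq x g))

lemma LL_LL (x y : G) (f : Lp ℂ 1 μ) : LL μ x (LL μ y f) = LL μ (x * y) f :=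
  ((LL_rp x).comp (LL_rp y) (measurePreserving_mul_left μ x⁻¹)).ext (LL_rp _)
    (fun a => by simp [mul_assoc]) (fun _ _ => rfl) f

lemma LL_one (f : Lp ℂ 1 μ) : LL μ 1 f = f :=
  (LL_rp 1).ext Rp.id (fun a => by simp) (fun _ _ => rfl) f

lemma LL_norm (x : G) (f : Lp ℂ 1 μ) : ‖LL μ x f‖ = ‖f‖ := LinearIsometry.norm_map _ _

lemma LL_int (x : G) (f : Lp ℂ 1 μ) : ∫ t, LL μ x f t ∂μ = ∫ t, f t ∂μ :=
  (integral_congr_ae (LL_rp x f)).trans (integral_mul_left_eq_self f x⁻¹)

variable [LocallyCompactSpace G] [T2Space G] [μ.Regular]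

omit [T2Space G] in
lemma LL_cont (f : Lp ℂ 1 μ) : Continuous fun x => LL μ x f :=
  Continuous.compMeasurePreservingLp (f := fun _ => f) continuous_const
    (g := fun x : G => (⟨fun p : G × G => p.1⁻¹ * p.2, by fun_prop⟩ : C(G × G, G)).curry x)
    (ContinuousMap.continuous _) (fun x => measurePreserving_mul_left μ x⁻¹) (by simp)

omit [Group G] [IsTopologicalGroup G] [μ.IsHaarMeasure] [LocallyCompactSpace G] in
lemma intg {E : Type} [NormedAddCommGroup E] [NormedSpace ℂ E] {Φ : G → E} (hΦ : Continuous Φ)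
    {B : ℝ} (hB : ∀ x, ‖Φ x‖ ≤ B) (f : Lp ℂ 1 μ) : Integrable (fun x => f x • Φ x) μ := by
  have hf := MeasureTheory.L1.integrable_coeFn f
  refine (hf.norm.mul_const B).mono' ?_ (.of_forall fun x => by
    rw [norm_smul]; exact mul_le_mul_of_nonneg_left (hB x) (norm_nonneg _))
  have h1 : ∀ s : Set G, MeasurableSet s → μ s ≠ ⊤ → AEStronglyMeasurable Φ (μ.restrict s) := by
    intro s hs h
    choose K k1 k2 k3 using fun n : ℕ => hs.exists_isCompact_sdiff_lt h
      (ε := (n : ENNReal)⁻¹) (by simp)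
    rw [Measure.restrict_congr_set (t := ⋃ n, K n) (ae_eq_set.2 ⟨?_, ?_⟩),
      aestronglyMeasurable_iUnion_iff]
    · exact fun n => hΦ.continuousOn.aestronglyMeasurable_of_isCompact (k2 n) (k2 n).measurableSet
    · exact le_antisymm (ge_of_tendsto' ENNReal.tendsto_inv_nat_nhds_zero fun n =>
        (measure_mono (Set.sdiff_subset_sdiff_right (Set.subset_iUnion K n))).trans (k3 n).le)
        zero_le
    · rw [Set.sdiff_eq_empty.2 (Set.iUnion_subset k1), measure_empty]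
  have h2 : ∀ n : ℕ, MeasurableSet {x | 1 / (n + 1 : ℝ) < ‖f x‖} := fun n =>
    measurableSet_lt measurable_const (Lp.stronglyMeasurable f).norm.measurable
  have h3 := (aestronglyMeasurable_indicator_iff (.iUnion h2)).2 (hf.1.restrict.smul
    (aestronglyMeasurable_iUnion_iff.2 fun n => h1 _ (h2 n)
      (hf.measure_norm_gt_lt_top (by positivity)).ne))
  refine h3.congr (.of_forall fun x => Set.indicator_apply_eq_self.2 fun h => ?_)
  by_cases h4 : f x = 0
  · simp [h4]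
  · exact (h (Set.mem_iUnion.2 (exists_nat_one_div_lt (norm_pos_iff.2 h4)))).elim

lemma intL (f g : Lp ℂ 1 μ) : Integrable (fun x => f x • LL μ x g) μ :=
  intg (LL_cont g) (fun x => (LL_norm x g).le) f

omit [LocallyCompactSpace G] [T2Space G] [μ.Regular] in
lemma conv_bd (f g : Lp ℂ 1 μ) : ‖cv f g‖ ≤ 1 * ‖f‖ * ‖g‖ := by
  refine (norm_integral_le_integral_norm _).trans (le_of_eq ?_)
  simp only [norm_smul, LL_norm]
  rw [integral_mul_const, one_mul, MeasureTheory.L1.norm_eq_integral_norm f]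

noncomputable def CV (μ : Measure G) [μ.IsHaarMeasure] [μ.Regular] :
    Lp ℂ 1 μ →L[ℂ] Lp ℂ 1 μ →L[ℂ] Lp ℂ 1 μ :=
  LinearMap.mkContinuous₂ (LinearMap.mk₂ ℂ cv
    (fun f f' g => by
      refine Eq.trans (integral_congr_ae ?_) (integral_add (intL f g) (intL f' g))
      filter_upwards [Lp.coeFn_add f f'] with a ha
      rw [ha, Pi.add_apply, add_smul])
    (fun c f g => by
      refine Eq.trans (integral_congr_ae ?_) (integral_smul c _)
      filter_upwards [Lp.coeFn_smul c f] with a ha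
      rw [ha, Pi.smul_apply, smul_assoc])
    (fun f g g' => by
      refine Eq.trans ?_ (integral_add (intL f g) (intL f g'))
      simp only [cv, map_add, smul_add])
    fun c f g => by
      refine Eq.trans ?_ (integral_smul c _)
      simp only [cv, map_smul, smul_comm c]) 1 conv_bd

lemma CV_eq (f g : Lp ℂ 1 μ) : CV μ f g = ∫ x, f x • LL μ x g ∂μ := rfl

lemma CV_LL (x : G) (f g : Lp ℂ 1 μ) : CV μ (LL μ x f) g = LL μ x (CV μ f g) := by
  rw [CV_eq, CV_eq, ← ContinuousLinearMap.integral_comp_comm _ (intL f g),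
    ← integral_mul_left_eq_self (fun y => LL μ x (f y • LL μ y g)) x⁻¹]
  refine integral_congr_ae ((LL_rp x f).mono fun a ha => ?_)
  simp [ha, LL_LL]

lemma CV_assoc (f g h : Lp ℂ 1 μ) : CV μ (CV μ f g) h = CV μ f (CV μ g h) := by
  rw [CV_eq f g, CV_eq f, ← ContinuousLinearMap.flip_apply,
    ← ContinuousLinearMap.integral_comp_comm _ (intL f g)]
  simp [CV_LL]

lemma approx : ∃ (I : Type) (l : Filter I) (e : I → Lp ℂ 1 μ), l.NeBot ∧
    (∀ i, ‖e i‖ ≤ 1 ∧ ∫ t, e i t ∂μ = 1) ∧ ∀ a, Tendsto (fun i => CV μ (e i) a) l (𝓝 a) := by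
  have : ∀ U : {U // U ∈ 𝓝 (1 : G)}, ∃ e : Lp ℂ 1 μ, (‖e‖ ≤ 1 ∧ ∫ t, e t ∂μ = 1) ∧
      ∀ᵐ x ∂μ, x ∉ U.1 → e x = 0 := by
    rintro ⟨U, hU⟩
    obtain ⟨K, h1, h2, h3⟩ := local_compact_nhds hU
    have h4 : 0 < μ.real K :=
      ENNReal.toReal_pos (Measure.measure_pos_of_mem_nhds μ h1).ne' h3.measure_lt_top.ne
    refine ⟨indicatorConstLp 1 h3.measurableSet h3.measure_lt_top.ne ((μ.real K : ℂ)⁻¹),
      ⟨?_, ?_⟩, indicatorConstLp_coeFn_notMem.mono fun x hx h => hx fun h' => h (h2 h')⟩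
    · rw [norm_indicatorConstLp (by simp) (by simp)]
      simp [abs_of_pos h4, h4.ne']
    · rw [integral_indicatorConstLp]
      simp [h4.ne']
  choose e e1 e2 using this
  refine ⟨_, (𝓝 1).smallSets.comap Subtype.val, e, comap_neBot fun t ht => ?_, e1, fun a => ?_⟩
  · obtain ⟨s, h1, h2⟩ := (hasBasis_smallSets _).mem_iff.1 ht
    exact ⟨⟨s, h1⟩, h2 (Set.mem_powerset subset_rfl)⟩
  · refine Metric.tendsto_nhds.2 fun ε hε => ?_
    have h1 := Metric.tendsto_nhds.1 ((LL_cont a).tendsto 1) (ε / 2) (by positivity)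
    filter_upwards [preimage_mem_comap (m := Subtype.val) (eventually_smallSets_subset.2 h1)]
      with U hU
    have hi := MeasureTheory.L1.integrable_coeFn (e U)
    have h2 : CV μ (e U) a - a = ∫ x, e U x • LL μ x a - e U x • a ∂μ := by
      rw [integral_sub (intL _ _) (hi.smul_const a), integral_smul_const, (e1 U).2, one_smul, CV_eq]
    rw [dist_eq_norm, h2]
    refine (norm_integral_le_of_norm_le (hi.norm.mul_const (ε / 2)) ?_).trans_lt ?_
    · filter_upwards [e2 U] with x hx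
      rw [← smul_sub, norm_smul]
      by_cases h : x ∈ U.1
      · have := hU h
        simp only [Set.mem_ofPred_eq, LL_one, dist_eq_norm] at this
        exact mul_le_mul_of_nonneg_left this.le (norm_nonneg _)
      · simp [hx h]
    · rw [integral_mul_const, ← MeasureTheory.L1.norm_eq_integral_norm]
      nlinarith [(e1 U).1]

end Pool.Agent.H90.Gd
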