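import Mathlib
import Pool.Agent.H90.GdD

namespace Pool.Agent.H90.Gd

open Filter Topology MeasureTheory Function

section
variable {α : Type} [MeasurableSpace α] (μ : Measure α)

noncomputable def ind (S : Set α) (a : α) : ℂ →L[ℂ] ℂ :=
  S.indicator (fun _ => ContinuousLinearMap.id ℂ ℂ) a

omit [MeasurableSpace α] in
lemma ind_sum {I : Type} {S : I → Set α} (h : Pairwise (Disjoint on S)) (s : Finset I) (a : α)
    (x : ℂ) : ∑ i ∈ s, ‖ind (S i) a x‖ ≤ 1 * ‖x‖ := by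
  by_cases h1 : ∃ i, a ∈ S i
  · obtain ⟨i, hi⟩ := h1
    refine (sum_le_hasSum s (fun _ _ => norm_nonneg _) (hasSum_single i fun j hj => ?_)).trans ?_
    · simp [ind, Set.disjoint_right.1 (h hj) hi]
    · simp [ind, hi]
  · simp [ind, not_exists.1 h1]

lemma ex_QI : ∃ Q : Set α → Lp ℂ 1 μ →L[ℂ] Lp ℂ 1 μ,
    ∀ S, MeasurableSet S → Rp (Q S) (ind S) fun a => a := by
  have : ∀ S : Set α, MeasurableSet S → ∃ Q : Lp ℂ 1 μ →L[ℂ] Lp ℂ 1 μ, Rp Q (ind S) fun a => a :=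
    fun S hS => (ex_rp (C := 1) (fun a x => by by_cases h : a ∈ S <;> simp [ind, h])
      (fun F hF => (hF.indicator hS).congr (.of_forall fun a => by
        by_cases h : a ∈ S <;> simp [ind, h])) (MeasurePreserving.id μ)).imp fun _ h => h.1
  choose! Q hQ using this
  exact ⟨Q, hQ⟩

end

variable {G : Type} [Group G] [TopologicalSpace G] [IsTopologicalGroup G] [MeasurableSpace G]
  [BorelSpace G] {μ : Measure G} [μ.IsHaarMeasure]

noncomputable def LMod.A (M : LMod μ) : Lp ℂ 1 μ →L[ℂ] M.X →L[ℂ] M.X :=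
  M.bil.toContinuousLinearMap

lemma LMod.A_cv (M : LMod μ) (a b : Lp ℂ 1 μ) (x : M.X) : M.A (cv a b) x = M.A a (M.A b x) :=
  (congrArg (M.act · x) (conv_eq a b)).symm.trans (M.act_conv a b x)

def Ess (M : LMod μ) : Submodule ℂ M.X :=
  (Submodule.span ℂ {z | ∃ a y, z = M.A a y}).topologicalClosure

structure GM (M : LMod μ) (T : G → M.X →L[ℂ] M.X) (Q : Set G → M.X →L[ℂ] M.X) (C : ℝ) : Prop where
  c0 : 0 ≤ C
  t1 : ∀ g a y, T g (M.A a y) = M.A (LL μ g a) y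
  t2 : ∀ x, T 1 x ∈ Ess M
  t3 : ∀ g x, ‖T g x‖ ≤ C * ‖x‖
  t4 : ∀ g h x, T g (T h x) = T (g * h) x
  q1 : ∀ (I : Type) (S : I → Set G), (∀ i, MeasurableSet (S i)) → Pairwise (Disjoint on S) →
    ∀ (s : Finset I) x, ∑ i ∈ s, ‖Q (S i) x‖ ≤ C * ‖x‖
  q2 : ∀ (I : Type) [Countable I] (S : I → Set G), (∀ i, MeasurableSet (S i)) →
    Pairwise (Disjoint on S) → (∀ g, ∃ i, g ∈ S i) → ∀ x, HasSum (fun i => Q (S i) x) (T 1 x)
  q3 : ∀ S, MeasurableSet S → ∀ g x, Q S (T g x) = T g (Q ((g * ·) ⁻¹' S) x)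
  q4 : ∀ S (R : ℕ → Set G), MeasurableSet S → (∀ n, MeasurableSet (R n)) →
    (∀ g, ∀ᶠ n in atTop, g ∈ R n) → ∀ x, Tendsto (fun n => Q (S ∩ R n) x) atTop (𝓝 (Q S x))

variable [LocallyCompactSpace G] [T2Space G] [μ.Regular]

open ContinuousLinearMap in
theorem ex_GM (M : LMod μ) (hM : Proj M) : ∃ T Q C, GM M T Q C := by
  have := M.cpl
  obtain ⟨Y, _, _, _, ι, i1, i2, i3⟩ := ex_tens (Lp ℂ 1 μ × ℂ) M.X
  obtain ⟨QI, hQ⟩ := ex_QI μ
  have mem : ∀ B : Submodule ℂ Y, IsClosed (B : Set Y) → (∀ a x, ι a x ∈ B) → ∀ u, u ∈ B :=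
    fun B h1 h2 u => h1.closure_subset_iff.2
      (Submodule.span_le.2 (by rintro _ ⟨a, x, rfl⟩; exact h2 a x)) (i2 u)
  have ext : ∀ {Z : Type} [NormedAddCommGroup Z] [NormedSpace ℂ Z] (F F' : Y →L[ℂ] Z),
      (∀ a x, F (ι a x) = F' (ι a x)) → ∀ u, F u = F' u := fun F F' h u =>
    sub_eq_zero.1 (mem (F - F').ker (F - F').isClosed_ker (fun a x => sub_eq_zero.2 (h a x)) u)
  have bd : ∀ {Z : Type} [NormedAddCommGroup Z] [NormedSpace ℂ Z] [CompleteSpace Z]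
      (F : Y →L[ℂ] Z) (c : ℝ), 0 ≤ c → (∀ a x, ‖F (ι a x)‖ ≤ c * ‖a‖ * ‖x‖) →
      ∀ u, ‖F u‖ ≤ c * ‖u‖ := fun {Z} _ _ _ F c hc h u => by
    obtain ⟨F', h1, h2⟩ := i3 Z (compL ℂ _ _ _ F ∘L ι)
    rw [ext F F' (fun a x => (h2 a x).symm)]
    exact (h1 u).trans (mul_le_mul_of_nonneg_right (opNorm_le_bound₂ _ hc h) (norm_nonneg _))
  choose Op _ o2 using fun S : Lp ℂ 1 μ × ℂ →L[ℂ] Lp ℂ 1 μ => i3 Y (ι ∘L inl ℂ _ _ ∘L S)
  replace o2 : ∀ S a x, Op S (ι a x) = ι (S a, 0) x := o2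
  let mA : Lp ℂ 1 μ → Lp ℂ 1 μ × ℂ →L[ℂ] Lp ℂ 1 μ := fun a =>
    CV μ a ∘L fst ℂ _ _ + (snd ℂ _ _).smulRight a
  have hm : ∀ a b, mA a b = CV μ a b.1 + b.2 • a := fun _ _ => rfl
  have ia : ∀ a b x, ι (a + b, 0) x = ι (a, 0) x + ι (b, 0) x := fun a b x => by
    rw [← add_apply, ← map_add]; simp
  have is : ∀ (c : ℂ) a x, ι (c • a, 0) x = c • ι (a, 0) x := fun a b x => by
    rw [← smul_apply, ← map_smul]; simp
  have n0 : ∀ a x, ‖ι (a, 0) x‖ ≤ ‖a‖ * ‖x‖ := fun a x => by simpa using i1 (a, 0) x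
  let N : LMod μ :=
    { X := Y
      cpl := inferInstance
      act := fun a u => Op (mA a) u
      bil := show IsBoundedBilinearMap ℂ fun p : Lp ℂ 1 μ × Y => Op (mA p.1) p.2 from
        ⟨fun a b u => ext (Op (mA (a + b))) (Op (mA a) + Op (mA b)) (fun c x => by
          rw [add_apply, o2, o2, o2, ← ia, hm, hm, hm, map_add, add_apply, smul_add]; abel_nf) u,
        fun c a u => ext (Op (mA (c • a))) (c • Op (mA a)) (fun b x => by
          rw [smul_apply, o2, o2, ← is, hm, hm, map_smul, smul_apply, smul_add, smul_comm c]) u,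
        fun a u v => map_add _ _ _, fun c a u => map_smul _ _ _, 2, two_pos, fun a u => by
          refine bd _ _ (by positivity) (fun b x => ?_) u
          rw [o2, hm]
          refine (n0 _ _).trans (mul_le_mul_of_nonneg_right ((norm_add_le _ _).trans ?_)
            (norm_nonneg _))
          have h1 : ‖CV μ a b.1‖ ≤ _ := conv_bd a b.1
          rw [norm_smul]
          nlinarith [norm_fst_le b, norm_snd_le b, norm_nonneg a]⟩
      act_conv := fun (a b : Lp ℂ 1 μ) u => (congrArg (fun c => Op (mA c) u) (conv_eq a b)).trans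
        (ext (Op (mA (CV μ a b))) (Op (mA a) ∘L Op (mA b)) (fun c x => by
          simp [o2, hm, CV_assoc]) u) }
  obtain ⟨π, -, p2⟩ := i3 M.X (M.A ∘L fst ℂ _ _ + (snd ℂ _ _).smulRight (.id ℂ _))
  replace p2 : ∀ a x, π (ι a x) = M.A a.1 x + a.2 • x := p2
  have pm : ∀ a u, π (Op (mA a) u) = M.A a (π u) := fun a => ext (π ∘L Op (mA a)) (M.A a ∘L π)
    fun b x => by simp [o2, p2, hm, show M.A (CV μ a b.1) x = M.A a (M.A b.1 x) from M.A_cv _ _ _]
  obtain ⟨r, ⟨r1, r2⟩, r3⟩ := hM N π ⟨π.isBoundedLinearMap, pm⟩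
    ⟨ι (0, 1), (ι _).isBoundedLinearMap, fun x => by simp [p2]⟩
  let ρ : M.X →L[ℂ] Y := r1.toContinuousLinearMap
  replace r2 : ∀ a x, ρ (M.A a x) = Op (mA a) (ρ x) := r2
  replace r3 : ∀ x, π (ρ x) = x := r3
  let W : (Lp ℂ 1 μ →L[ℂ] Lp ℂ 1 μ) → Y →L[ℂ] Y := fun S => Op (S ∘L fst ℂ _ _)
  have w1 : ∀ S a x, W S (ι a x) = ι (S a.1, 0) x := fun S => o2 _
  have w2 : ∀ S S' u, W S (W S' u) = W (S ∘L S') u := fun S S' => ext (W S ∘L W S') _
    fun a x => by simp [w1]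
  have w3 : ∀ g a u, W (LL μ g) (Op (mA a) u) = Op (mA (LL μ g a)) u := fun g a =>
    ext (W _ ∘L Op _) _ fun b x => by simp [w1, o2, hm, CV_LL]
  have w4 : ∀ g S u, W (LL μ g) (ρ (π (W S u))) = ρ (π (W (LL μ g ∘L S) u)) := fun g S =>
    ext (W _ ∘L ρ ∘L π ∘L W S) (ρ ∘L π ∘L W _) fun a x => by simp [w1, p2, r2, w3]
  have w5 : ∀ g h, LL μ g ∘L LL μ h = LL μ (g * h) := fun g h => ContinuousLinearMap.ext (LL_LL g h)
  have w6 : ∀ g u, ‖W (LL μ g) u‖ ≤ 1 * ‖u‖ := fun g => bd _ _ zero_le_one fun a x => by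
    rw [w1]
    refine (n0 _ _).trans (mul_le_mul_of_nonneg_right ?_ (norm_nonneg _))
    rw [LL_norm, one_mul]; exact norm_fst_le a
  have w7 : ∀ (I : Type) (S : I → Set G), (∀ i, MeasurableSet (S i)) → Pairwise (Disjoint on S) →
      ∀ (s : Finset I) u, ∑ i ∈ s, ‖W (QI (S i)) u‖ ≤ 1 * ‖u‖ := fun I S h1 h2 s u => by
    choose y y1 y2 using fun i => exists_dual_vector'' ℂ (W (QI (S i)) u)
    have := bd (∑ i ∈ s, y i ∘L W (QI (S i))) 1 zero_le_one (fun a x => by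
      rw [sum_apply]
      refine (norm_sum_le_of_le s (n := fun i => ‖QI (S i) a.1‖ * ‖x‖) fun i _ => ?_).trans ?_
      · rw [ContinuousLinearMap.comp_apply, w1]
        exact ((y i).le_opNorm _).trans ((mul_le_of_le_one_left (norm_nonneg _) (y1 i)).trans
          (n0 _ _))
      · rw [← Finset.sum_mul]
        exact mul_le_mul_of_nonneg_right ((Rp.sum_le (fun i => hQ _ (h1 i)) (ind_sum h2 s) _).trans
          (by simpa using norm_fst_le a)) (norm_nonneg _)) u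
    simp only [sum_apply, ContinuousLinearMap.comp_apply, y2] at this
    refine le_trans ?_ this
    rw [← RCLike.ofReal_sum, RCLike.norm_ofReal]; exact le_abs_self _
  have w8 : ∀ S, MeasurableSet S → ∀ u, ‖W (QI S) u‖ ≤ 1 * ‖u‖ := fun S hS u => by
    simpa using w7 Unit (fun _ => S) (fun _ => hS) Subsingleton.pairwise {()} u
  let T : G → M.X →L[ℂ] M.X := fun g => π ∘L W (LL μ g) ∘L ρ
  have t3 : ∀ g x, ‖T g x‖ ≤ ‖π‖ * ‖ρ‖ * ‖x‖ := fun g x => (π.le_opNorm _).trans (by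
    rw [mul_assoc]
    exact mul_le_mul_of_nonneg_left ((w6 _ _).trans (by simpa using ρ.le_opNorm x)) (norm_nonneg _))
  have t4 : ∀ g h x, T g (T h x) = T (g * h) x := fun g h x => by simp [T, w4, w5, r3]
  have lim : ∀ {I : Type} {l : Filter I} (B : I → Lp ℂ 1 μ →L[ℂ] Lp ℂ 1 μ) (B' : I → Y →L[ℂ] Y) S,
      (∀ i a x, B' i (ι a x) = ι (B i a.1, 0) x) → (∀ i u, ‖B' i u‖ ≤ 1 * ‖u‖) →
      (∀ a, Tendsto (fun i => B i a) l (𝓝 (S a))) → ∀ u, Tendsto (fun i => B' i u) l (𝓝 (W S u)) := by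
    intro I l B B' S h1 h2 h3 u
    obtain ⟨D, d1, d2⟩ := tend_dense (l := l) (fun i => B' i - W S) (C := 1 + ‖W S‖) fun i u => by
      rw [sub_apply]
      linarith [norm_sub_le (B' i u) (W S u), h2 i u, (W S).le_opNorm u]
    refine tendsto_sub_nhds_zero_iff.1 ((d2 u).1 (mem D d1 (fun a x => (d2 _).2 ?_) u))
    simp only [sub_apply, h1, w1]
    exact tendsto_sub_nhds_zero_iff.2
      (((ι.flip x ∘L inl ℂ _ _).continuous.tendsto _).comp (h3 a.1))
  have k0 := norm_nonneg π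
  have k1 := norm_nonneg ρ
  refine ⟨T, fun S => π ∘L W (QI S) ∘L ρ ∘L T 1, ‖π‖ * ‖ρ‖ * (1 + ‖π‖ * ‖ρ‖), by positivity,
    fun g a y => by simp [T, r2, w3, pm, r3], fun x => ?_, fun g x => (t3 g x).trans ?_, t4,
    fun I S h1 h2 s x => ?_, fun I _ S h1 h2 h3 x => ?_, fun S hS g x => ?_,
    fun S R h1 h2 h3 x => ?_⟩
  · refine mem ((Ess M).comap (π ∘L W (LL μ 1)).toLinearMap)
      ((Submodule.isClosed_topologicalClosure _).preimage (π ∘L W (LL μ 1)).continuous)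
      (fun a x => Submodule.le_topologicalClosure _ (Submodule.subset_span ⟨a.1, x, ?_⟩)) _
    simp [w1, p2, LL_one]
  · refine mul_le_mul_of_nonneg_right ?_ (norm_nonneg _)
    nlinarith [mul_nonneg k0 k1]
  · refine (Finset.sum_le_sum fun i _ => π.le_opNorm _).trans ?_
    rw [← Finset.mul_sum, mul_assoc, mul_assoc]
    refine mul_le_mul_of_nonneg_left ((w7 I S h1 h2 s _).trans ?_) k0
    rw [one_mul]
    refine (ρ.le_opNorm _).trans (mul_le_mul_of_nonneg_left ?_ k1)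
    show ‖T 1 x‖ ≤ _
    linarith [t3 1 x, norm_nonneg x]
  · have := lim (l := atTop) (fun s : Finset I => ∑ i ∈ s, QI (S i)) (fun s => ∑ i ∈ s, W (QI (S i)))
      (LL μ 1) (fun s a x => by
        simp only [sum_apply, w1]
        exact (map_sum (ι.flip x ∘L inl ℂ _ _) _ s).symm)
      (fun s u => by rw [sum_apply]; exact (norm_sum_le _ _).trans (w7 I S h1 h2 s u))
      (fun a => by
        simp only [sum_apply, LL_one]
        exact Rp.hasSum (fun i => hQ _ (h1 i)) Rp.id (fun s => ind_sum h2 s) (D := 1) (by simp)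
          (fun g x => by
            obtain ⟨i, hi⟩ := h3 g
            have := hasSum_single (f := fun j => ind (S j) g x) i fun j hj => by
              simp [ind, Set.disjoint_right.1 (h2 hj) hi]
            simpa [ind, hi] using this) a) (ρ (T 1 x))
    simp only [sum_apply] at this
    have h4 := HasSum.mapL π this
    rwa [show π (W (LL μ 1) (ρ (T 1 x))) = T 1 x from (t4 1 1 x).trans (by rw [mul_one])] at h4
  · have e1 : ρ (T g x) = W (LL μ g) (ρ (T 1 x)) := by simp [T, w4, w5]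
    have e2 : QI S ∘L LL μ g = LL μ g ∘L QI ((g * ·) ⁻¹' S) := ContinuousLinearMap.ext <|
      ((hQ S hS).comp (LL_rp g) (.id μ)).ext ((LL_rp g).comp
        (hQ _ (measurable_const_mul g hS)) (measurePreserving_mul_left μ g⁻¹)) (fun _ => rfl)
        fun a x => by by_cases h : a ∈ S <;> simp [ind, h]
    simp only [ContinuousLinearMap.comp_apply, t4, one_mul, e1, w2, e2]
    simp [T, w4, r3]
  · refine (π.continuous.tendsto _).comp (lim (fun n => QI (S ∩ R n)) _ _ (fun _ => w1 _)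
      (fun n => w8 _ (h1.inter (h2 n))) (Rp.tendsto (fun n => hQ _ (h1.inter (h2 n))) (hQ S h1)
        (C := 1) (fun n a x => ?_) fun a x => tendsto_const_nhds.congr' ?_) _)
    · by_cases h : a ∈ S <;> by_cases h' : a ∈ R n <;> simp [ind, h, h']
    · filter_upwards [h3 a] with n hn
      by_cases h : a ∈ S <;> simp [ind, h, hn]

end Pool.Agent.H90.Gd
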