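import Mathlib

namespace Pool.Agent.H90.Gd

open Filter Topology Function Pointwise

variable {G : Type} [Group G]

abbrev Om := ℕ → ZMod 2
abbrev Hf := ℕ →₀ ZMod 2

def pp (a : ℕ → G) (ω : Om) : ℕ → G
  | 0 => 1
  | L + 1 => (if ω L = 1 then a L else 1) * pp a ω L

structure Hier (a : ℕ → G) (R : ℕ → Set G) : Prop where
  h1 : ∀ g, ∀ᶠ n in atTop, g ∈ R n
  h2 : ∀ n y, y ∈ R n → a n * y ∉ R n
  h3 : ∀ n y, y ∈ R n → y ∈ R (n + 1) ∧ a n * y ∈ R (n + 1)
  h4 : ∀ ω n y, y ∈ R n → pp a ω (n + 1) * y ∈ R (n + 1)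

theorem ex_hier [TopologicalSpace G] [IsTopologicalGroup G] [LocallyCompactSpace G] [T2Space G]
    [NoncompactSpace G] : ∃ (a : ℕ → G) (R : ℕ → Set G), Hier a R ∧ ∀ n, IsClosed (R n) := by
  obtain ⟨K0, k1, k2⟩ := exists_compact_mem_nhds (1 : G)
  choose b hb using fun K : {K : Set G // IsCompact K} => exists_disjoint_smul_of_isCompact K.2 K.2
  let st : {K : Set G // IsCompact K} → {K : Set G // IsCompact K} := fun K =>
    ⟨insert (b K) K.1 * insert (b K) K.1 * insert (b K) K.1 ∪ K.1⁻¹,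
      (((K.2.insert _).mul (K.2.insert _)).mul (K.2.insert _)).union K.2.inv⟩
  let K : ℕ → {K : Set G // IsCompact K} := fun n => st^[n] ⟨K0, k1⟩
  have h3 : ∀ n x y z, x ∈ insert (b (K n)) (K n).1 → y ∈ insert (b (K n)) (K n).1 →
      z ∈ insert (b (K n)) (K n).1 → x * y * z ∈ (K (n + 1)).1 := fun n x y z h1 h2 h3 => by
    simp only [K, Function.iterate_succ_apply']
    exact .inl (Set.mul_mem_mul (Set.mul_mem_mul h1 h2) h3)
  have h4 : ∀ n x, x ∈ (K n).1 → x⁻¹ ∈ (K (n + 1)).1 := fun n x h => by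
    simp only [K, Function.iterate_succ_apply']
    exact .inr (Set.inv_mem_inv.2 h)
  have h1 : ∀ n, (1 : G) ∈ (K n).1 := fun n => by
    induction n with
    | zero => exact mem_of_mem_nhds k2
    | succ n ih => simpa using h4 n 1 ih
  have h2 : ∀ n x y, x ∈ insert (b (K n)) (K n).1 → y ∈ (K n).1 → x * y ∈ (K (n + 1)).1 :=
    fun n x y h h' => by simpa using h3 n x y 1 h (.inr h') (.inr (h1 n))
  have hm : Monotone fun n => (K n).1 := monotone_nat_of_le_succ fun n x h => by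
    simpa using h2 n 1 x (.inr (h1 n)) h
  let S : Subgroup G :=
    { carrier := {x | ∃ n, x ∈ (K n).1}
      one_mem' := ⟨0, h1 0⟩
      inv_mem' := fun ⟨n, h⟩ => ⟨_, h4 n _ h⟩
      mul_mem' := fun ⟨n, h⟩ ⟨m, h'⟩ => ⟨_, h2 (max n m) _ _ (.inr (hm (le_max_left _ _) h))
        (hm (le_max_right _ _) h')⟩ }
  have := QuotientGroup.discreteTopology
    (S.isOpen_of_mem_nhds (mem_of_superset k2 fun x h => ⟨0, h⟩))
  let k : G → G := fun g => g * (QuotientGroup.mk g⁻¹ : G ⧸ S).out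
  have c1 : Continuous k := continuous_id.mul (continuous_of_discreteTopology.comp
    (QuotientGroup.continuous_mk.comp continuous_inv))
  have c2 : ∀ n x g, x ∈ (K n).1 → k (x * g) = x * k g := fun n x g h => by
    simp only [k]
    rw [mul_inv_rev, QuotientGroup.mk_mul_of_mem _ (S.inv_mem ⟨n, h⟩), mul_assoc]
  have c3 : ∀ n, b (K n) ∈ (K (n + 1)).1 := fun n => by simpa using h2 n _ 1 (.inl rfl) (h1 n)
  have c4 : ∀ (ω : Om) n, (if ω n = 1 then b (K n) else 1) ∈ insert (b (K n)) (K n).1 :=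
    fun ω n => by
      split_ifs
      exacts [.inl rfl, .inr (h1 n)]
  have c5 : ∀ ω n, pp (fun n => b (K n)) ω n ∈ (K n).1 := fun ω n => by
    induction n with
    | zero => exact h1 0
    | succ n ih => exact h2 n _ _ (c4 ω n) ih
  refine ⟨fun n => b (K n), fun n => k ⁻¹' (K n).1, ⟨fun g => ?_, fun n y h h' => ?_,
    fun n y h => ⟨hm n.le_succ h, ?_⟩, fun ω n y h => ?_⟩, fun n => (K n).2.isClosed.preimage c1⟩
  · obtain ⟨s, hs⟩ := QuotientGroup.mk_out_eq_mul S g⁻¹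
    obtain ⟨n, hn⟩ := s.2
    filter_upwards [eventually_ge_atTop n] with m h
    show k g ∈ (K m).1
    simp only [k, hs, mul_inv_cancel_left]
    exact hm h hn
  · rw [Set.mem_preimage, c2 _ _ _ (c3 n)] at h'
    exact Set.disjoint_left.1 (hb (K n)) h' (Set.smul_mem_smul_set h)
  · rw [Set.mem_preimage, c2 _ _ _ (c3 n)]
    exact h2 n _ _ (.inl rfl) h
  · rw [Set.mem_preimage, c2 _ _ _ (c5 ω _)]
    exact h3 n _ _ _ (c4 ω n) (.inr (c5 ω n)) (.inr h)

def lv (h : Hf) : ℕ := h.support.sup id + 1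

lemma lv_spec (h : Hf) (i : ℕ) (hi : lv h ≤ i) : h i = 0 := by
  by_contra e
  have := Finset.le_sup (f := id) (Finsupp.mem_support_iff.2 e)
  simp only [lv, id] at hi this
  omega

variable (a : ℕ → G)

def cc (h : Hf) (ω : Om) : G := (pp a (ω + h) (lv h))⁻¹ * pp a ω (lv h)

lemma cc_spec {h : Hf} {N : ℕ} (hN : ∀ i, N ≤ i → h i = 0) (ω : Om) :
    pp a (ω + h) N * cc a h ω = pp a ω N := by
  have : ∀ N, (∀ i, N ≤ i → h i = 0) → ∀ M, N ≤ M →
      (pp a (ω + h) M)⁻¹ * pp a ω M = (pp a (ω + h) N)⁻¹ * pp a ω N := fun N hN M hM => by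
    induction M, hM using Nat.le_induction with
    | base => rfl
    | succ M hM ih => 
      rw [← ih, pp, pp, Pi.add_apply, hN M hM, add_zero, mul_inv_rev, mul_assoc, inv_mul_cancel_left]
  rw [cc, ← this _ (lv_spec h) _ (le_max_left _ N), this _ hN _ (le_max_right _ N),
    mul_inv_cancel_left]

lemma cc_add (h k : Hf) (ω : Om) : cc a (h + k) ω = cc a h (ω + k) * cc a k ω := by
  have h1 : ∀ i, max (lv h) (lv k) ≤ i → h i = 0 := fun i hi => lv_spec h i (le_of_max_le_left hi)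
  have h2 : ∀ i, max (lv h) (lv k) ≤ i → k i = 0 := fun i hi => lv_spec k i (le_of_max_le_right hi)
  have h3 := cc_spec a (h := h + k) (N := max (lv h) (lv k)) (fun i hi => by simp [h1 i hi, h2 i hi]) ω
  rw [← cc_spec a h2 ω, ← cc_spec a h1 (ω + k), Finsupp.coe_add, add_comm (⇑h), add_assoc,
    mul_assoc] at h3
  exact mul_left_cancel h3

lemma cc_zero (ω : Om) : cc a 0 ω = 1 := by simp [cc]

lemma pp_congr {ω ω' : Om} {L : ℕ} (h : ∀ i < L, ω i = ω' i) (M : ℕ) (hM : M ≤ L) :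
    pp a ω M = pp a ω' M := by
  induction M with
  | zero => rfl
  | succ M ih => rw [pp, pp, ih (by omega), h M (by omega)]

lemma cc_congr (h : Hf) {ω ω' : Om} {L : ℕ} (e : ∀ i < L, ω i = ω' i) (hL : lv h ≤ L) :
    cc a h ω = cc a h ω' := by
  rw [cc, cc, pp_congr a e _ hL, pp_congr a (ω := ω + h) (ω' := ω' + h)
    (fun i hi => by simp [e i hi]) _ hL]

variable (R : ℕ → Set G)

def Cd (ω : Om) (g : G) (L : ℕ) : Prop := ω L = 1 ↔ (a L)⁻¹ * (pp a ω (L + 1) * g) ∈ R L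

def SS (h : Hf) (ω : Om) : Set G := {g | ∀ L, Cd a R (ω + h) (cc a h ω * g) L}

lemma SS_disj (ω : Om) : Pairwise (Disjoint on fun h => SS a R h ω) := by
  intro h h' hne
  refine Set.disjoint_left.2 fun g h1 h2 => ?_
  have h3 : (h - h').support.Nonempty := Finsupp.support_nonempty_iff.2 (sub_ne_zero.2 hne)
  have h4 := Finsupp.mem_support_iff.1 (Finset.max'_mem _ h3)
  have h5 := cc_spec a (h := h - h') (N := Finset.max' _ h3 + 1) (fun i hi => by
    by_contra e
    have := Finset.le_max' _ _ (Finsupp.mem_support_iff.2 e)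
    omega) (ω + h')
  have h6 := cc_add a (h - h') h' ω
  rw [sub_add_cancel] at h6
  have h7 := h1 (Finset.max' _ h3)
  have h8 := h2 (Finset.max' _ h3)
  rw [Cd, h6, ← mul_assoc (pp _ _ _), ← mul_assoc (pp _ _ _),
    show ω + ⇑h = ω + h' + ⇑(h - h') by simp, h5, mul_assoc (pp _ _ _)] at h7
  have h9 := h7.trans h8.symm
  simp only [Pi.add_apply] at h9
  exact (by decide : ∀ x y : ZMod 2, y ≠ 0 → ¬(x + y = 1 ↔ x = 1)) _ _ h4 h9

variable {a R}

lemma Hier.cd (H : Hier a R) (ω : Om) {n : ℕ} {g : G} (hg : g ∈ R n) (M : ℕ) (hM : n + 1 ≤ M) :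
    Cd a R ω g M := by
  have : pp a ω M * g ∈ R M := by
    induction M, hM using Nat.le_induction with
    | base => exact H.h4 ω n g hg
    | succ M _ ih =>
      rw [pp, mul_assoc]
      split_ifs
      exacts [(H.h3 _ _ ih).2, by simpa using (H.h3 _ _ ih).1]
  rw [Cd, pp]
  split_ifs with h
  · simpa [h, mul_assoc] using this
  · exact iff_of_false h fun h' => H.h2 _ _ h' (by simpa using this)

lemma cd_iff {h : Hf} {M : ℕ} (hM : ∀ i, M + 1 ≤ i → h i = 0) (ω : Om) (g : G) :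
    Cd a R (ω + h) (cc a h ω * g) M ↔
      (ω M + h M = 1 ↔ (a M)⁻¹ * (pp a ω (M + 1) * g) ∈ R M) := by
  rw [Cd, ← mul_assoc (pp _ _ _), cc_spec a hM]; rfl

lemma Hier.cover (H : Hier a R) (ω : Om) (g : G) : ∃ h, g ∈ SS a R h ω := by
  obtain ⟨n, hn⟩ := (H.h1 g).exists
  suffices ∀ L ω g, (∀ M, L ≤ M → Cd a R ω g M) → ∃ h, g ∈ SS a R h ω from
    this _ ω g (H.cd ω hn)
  intro L
  induction L with
  | zero => exact fun ω g h => ⟨0, fun L => by simpa [cc_zero] using h L L.zero_le⟩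
  | succ L ih =>
    intro ω g h
    by_cases h1 : Cd a R ω g L
    · exact ih ω g fun M hM => hM.eq_or_lt.elim (· ▸ h1) (h M)
    · obtain ⟨k, hk⟩ := ih (ω + (Finsupp.single L 1 : Hf)) (cc a (Finsupp.single L 1) ω * g) fun M hM => by
        rw [cd_iff fun i hi => Finsupp.single_eq_of_ne (by omega)]
        obtain rfl | h2 := hM.eq_or_lt
        · rw [Finsupp.single_eq_same, (by decide : ∀ x : ZMod 2, x + 1 = 1 ↔ ¬x = 1)]
          exact not_iff.1 h1
        · rw [Finsupp.single_eq_of_ne (by omega), add_zero]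
          exact h M h2
      refine ⟨k + Finsupp.single L 1, fun M => ?_⟩
      rw [cc_add, Finsupp.coe_add, add_comm (⇑k), ← add_assoc, mul_assoc]
      exact hk M

lemma Hier.loc (H : Hier a R) (h : Hf) (n : ℕ) {ω ω' : Om}
    (e : ∀ i < n + 1 + lv h, ω i = ω' i) : SS a R h ω ∩ R n ⊆ SS a R h ω' ∩ R n := by
  rintro g ⟨h1, h2⟩
  refine ⟨fun M => ?_, h2⟩
  by_cases hM : M < n + 1 + lv h
  · have := h1 M
    rwa [Cd, cc_congr a h e (by omega), pp_congr a (ω := ω + h) (ω' := ω' + h)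
      (fun i hi => by simp [e i hi]) _ hM, Pi.add_apply, e M hM] at this
  · rw [cd_iff fun i hi => lv_spec h i (by omega), lv_spec h M (by omega), add_zero]
    exact H.cd ω' h2 M (by omega)

lemma cont_loc {V : Type} [TopologicalSpace V] {m : Om → V} {L : ℕ}
    (h : ∀ ω ω' : Om, (∀ i < L, ω i = ω' i) → m ω = m ω') : Continuous m := by
  have : m = (fun u : Fin L → ZMod 2 => m fun i => if h : i < L then u ⟨i, h⟩ else 0) ∘
      fun ω i => ω i.1 := funext fun ω => h _ _ fun i hi => by simp [hi]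
  rw [this]
  exact continuous_of_discreteTopology.comp (by fun_prop)

lemma SS_meas [MeasurableSpace G] [MeasurableMul G] (hR : ∀ n, MeasurableSet (R n)) (h : Hf)
    (ω : Om) : MeasurableSet (SS a R h ω) :=
  measurableSet_setOfPred.2 (Measurable.forall fun L => measurable_const.iff
    ((hR L).mem.comp (by fun_prop)))

end Pool.Agent.H90.Gd
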