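import Mathlib
import Pool.Agent.H90.GdE
import Pool.Agent.H90.GdF

namespace Pool.Agent.H90.Gd

open Filter Topology MeasureTheory Function

noncomputable def nu : Measure Om := Measure.addHaarMeasure ⊤

instance : nu.IsAddHaarMeasure := Measure.isAddHaarMeasure_addHaarMeasure _
instance : IsProbabilityMeasure nu := ⟨Measure.addHaarMeasure_self⟩

lemma mp (h : Hf) : MeasurePreserving (fun ω : Om => ω - h) nu nu := measurePreserving_sub_right nu _

lemma fol : Fol Hf := by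
  classical
  refine ⟨fun n => (Finset.range n).finsupp fun _ => Finset.univ, fun n => ⟨0, by
    simp [Finset.mem_finsupp_iff]⟩, fun h => (eventually_ge_atTop (lv h)).mono fun n hn x => ?_⟩
  have : ∀ y : Hf, y.support ⊆ Finset.range n ↔ ∀ i, n ≤ i → y i = 0 := fun y =>
    forall_congr' fun i => by simp [not_imp_comm]
  simp only [Finset.mem_finsupp_iff, Finset.mem_univ, implies_true, and_true, this]
  exact forall₂_congr fun i hi => by simp [lv_spec h i (hn.trans hi)]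

variable {X Y Z : Type} [NormedAddCommGroup X] [NormedSpace ℂ X] [NormedAddCommGroup Y]
  [NormedSpace ℂ Y] [NormedAddCommGroup Z] [NormedSpace ℂ Z]

lemma aesm {m : Om → X →L[ℂ] Y} (hm : Continuous m) {F : Om → X} (hF : AEStronglyMeasurable F nu) :
    AEStronglyMeasurable (fun a => m a (F a)) nu :=
  (isBoundedBilinearMap_apply (𝕜 := ℂ)).continuous.comp_aestronglyMeasurable
    (hm.aestronglyMeasurable_of_compactSpace.prodMk hF)

section
variable {G : Type} [Group G] {a : ℕ → G}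

def UR (a : ℕ → G) (T : G → X →L[ℂ] X) (U : Hf → Lp X 1 nu →L[ℂ] Lp X 1 nu) : Prop :=
  ∀ h, Rp (U h) (fun ω => T (cc a h (ω - h))) fun ω => ω - h

lemma ex_U (a : ℕ → G) {T : G → X →L[ℂ] X} {C : ℝ} (hC : 0 ≤ C) (t3 : ∀ g x, ‖T g x‖ ≤ C * ‖x‖)
    (t4 : ∀ g h x, T g (T h x) = T (g * h) x) : ∃ U, UR a T U ∧ IsRep U := by
  choose U u1 u2 using fun h : Hf => ex_rp (m := fun ω => T (cc a h (ω - h))) (fun _ => t3 _)
    (fun F hF => aesm (cont_loc (L := lv h) fun ω ω' e => by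
      rw [cc_congr a h (ω := ω - h) (ω' := ω' - h) (fun i hi => by simp [e i hi]) le_rfl]) hF) (mp h)
  refine ⟨U, u1, fun h k => ((u1 h).comp (u1 k) (mp h)).ext (u1 _) (fun ω => by simp [sub_sub])
    fun ω x => ?_, C, hC, u2⟩
  rw [ContinuousLinearMap.comp_apply, t4, cc_add, Finsupp.coe_add, ← sub_sub, sub_add_cancel]

lemma UR.zero {T : G → X →L[ℂ] X} {U} (h : UR a T U) : Rp (U 0) (fun _ => T 1) fun ω => ω := by
  simpa [cc_zero] using h 0

lemma UR.mor {T : G → X →L[ℂ] X} {U} (h : UR a T U) {T' : G → Y →L[ℂ] Y} {U'} (h' : UR a T' U')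
    {D : X →L[ℂ] Y} {D'} (hD : Rp D' (fun _ => D) fun ω => ω)
    (e : ∀ g x, D (T g x) = T' g (D (T 1 x))) (k : Hf) (F) (hF : U 0 F = F) :
    D' (U k F) = U' k (D' F) := by
  conv_rhs => rw [← hF]
  exact (hD.comp (h k) (.id _)).ext ((h' k).comp (hD.comp h.zero (.id _)) (mp k)) (fun _ => rfl)
    (fun _ => e _) F

end

lemma exL [CompleteSpace X] {I : Type} {l : Filter I} [l.NeBot] {D : X →L[ℂ] Y} {D' : Y →L[ℂ] Z}
    {s : Y →L[ℂ] X} {s' : Z →L[ℂ] Y} {E : I → X →L[ℂ] X} {E' : I → Y →L[ℂ] Y} {J : X →L[ℂ] X}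
    {J' : Y →L[ℂ] Y} {C C' : ℝ} (hC : 0 ≤ C) (h1 : ∀ y, D (s y) + s' (D' y) = y)
    (h2 : ∀ i x, D (E i x) = E' i (D x)) (h3 : ∀ i x, J (E i x) = E i x)
    (h4 : ∀ i x, ‖E i x‖ ≤ C * ‖x‖) (h5 : ∀ i x, ‖E' i x‖ ≤ C' * ‖x‖)
    (h6 : ∀ y, Tendsto (fun i => E' i (J' y)) l (𝓝 (J' y))) (h7 : ∀ x, D' (D x) = 0)
    (h8 : ∀ x, D (J x) = J' (D (J x))) {d : Lp X 1 nu →L[ℂ] Lp Y 1 nu} {d' j j'}
    (r1 : Rp d (fun _ => D) fun ω => ω) (r2 : Rp d' (fun _ => D') fun ω => ω)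
    (r3 : Rp j (fun _ => J) fun ω => ω) (r4 : Rp j' (fun _ => J') fun ω => ω) :
    (∀ x, d x ∈ d'.ker) ∧ ∃ K, 0 ≤ K ∧ ∀ y ∈ d'.ker, j' y = y →
      ∃ x, j x = x ∧ d x = y ∧ ‖x‖ ≤ K * ‖y‖ := by
  have m := MeasurePreserving.id nu
  have g1 : ∀ x, d' (d x) = 0 := (r2.comp r1 m).ext Rp.zero (fun _ => rfl) fun _ => h7
  obtain ⟨σ, r5⟩ := ex_rp_c (μ := nu) s
  obtain ⟨σ', r6⟩ := ex_rp_c (μ := nu) s'
  choose e r7 using fun i => ex_rp_c (μ := nu) (E i)
  choose e' r8 using fun i => ex_rp_c (μ := nu) (E' i)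
  have g2 : ∀ y, d (σ y) + σ' (d' y) = y :=
    ((r1.comp r5 m).add (r6.comp r2 m)).ext Rp.id (fun _ => rfl) fun _ => h1
  have g3 : ∀ y, Tendsto (fun i => e' i (j' y) - j' y) l (𝓝 0) :=
    Rp.net (fun i => ((r8 i).comp r4 m).sub r4) (C := |C'| * ‖J'‖ + ‖J'‖) (fun i x => by
      have a1 := J'.le_opNorm x
      have a2 := (h5 i (J' x)).trans (mul_le_mul (le_abs_self C') a1 (norm_nonneg _) (abs_nonneg _))
      exact (norm_sub_le (E' i (J' x)) (J' x)).trans (by linarith))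
      fun x => tendsto_sub_nhds_zero_iff.2 (h6 x)
  refine ⟨g1, C * ‖s‖ * 2, by positivity, fun y y1 y2 => ?_⟩
  obtain ⟨x, x1, x2⟩ := exact_approx d (j - .id ℂ _).ker (ContinuousLinearMap.isClosed_ker _)
    (d'.ker ⊓ (j' - .id ℂ _).ker) (K := C * ‖s‖) (fun x hx => ⟨g1 x, sub_eq_zero.2 (by
      have : j x = x := sub_eq_zero.1 hx
      rw [← this]
      exact (((r1.comp r3 m).ext (r4.comp (r1.comp r3 m) m) (fun _ => rfl) fun _ => h8) x).symm)⟩)
    (by positivity) (fun y ⟨y1, y2⟩ ε hε => by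
      have y3 : j' y = y := sub_eq_zero.1 y2
      have y4 := g2 y
      rw [show d' y = 0 from y1, map_zero, add_zero] at y4
      obtain ⟨i, hi⟩ := (Metric.tendsto_nhds.1 (g3 y) ε hε).exists
      refine ⟨e i (σ y), sub_eq_zero.2 ((r3.comp (r7 i) m).ext (r7 i) (fun _ => rfl)
        (fun _ => h3 i) _), ((r7 i).le_c (h4 i) _).trans ?_, ?_⟩
      · rw [mul_assoc]; exact mul_le_mul_of_nonneg_left (r5.le_c s.le_opNorm y) hC
      · rw [show d (e i (σ y)) = e' i (d (σ y)) from (r1.comp (r7 i) m).ext ((r8 i).comp r1 m)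
          (fun _ => rfl) (fun _ => h2 i) _, y4, norm_sub_rev]
        rwa [y3, dist_zero_right] at hi) y ⟨y1, sub_eq_zero.2 y2⟩
  exact ⟨x, sub_eq_zero.1 x1, x2⟩

variable {G : Type} [Group G] [TopologicalSpace G] [IsTopologicalGroup G] [MeasurableSpace G]
  [BorelSpace G] {μ : Measure G} [μ.IsHaarMeasure]

lemma GM.acy {M : LMod μ} {T Q C} (h : GM M T Q C) {a : ℕ → G} {R} (H : Hier a R)
    (hR : ∀ n, MeasurableSet (R n)) {U} (u1 : UR a T U) (u2 : IsRep U) : Acy U ⊤ := by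
  have := M.cpl
  have b : ∀ S, MeasurableSet S → ∀ x, ‖Q S x‖ ≤ C * ‖x‖ := fun S hS x => by
    simpa using h.q1 Unit (fun _ => S) (fun _ => hS) Subsingleton.pairwise {()} x
  choose q q1 _ using fun k : Hf => ex_rp (m := fun ω => Q (SS a R k ω))
    (fun ω => b _ (SS_meas hR k ω)) (fun F hF => aestronglyMeasurable_of_tendsto_ae atTop
      (fun n => aesm (m := fun ω => Q (SS a R k ω ∩ R n)) (cont_loc fun ω ω' e => by
        rw [(H.loc k n e).antisymm (H.loc k n fun i hi => (e i hi).symm)]) hF)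
      (.of_forall fun ω => h.q4 _ R (SS_meas hR k ω) hR H.h1 _)) (.id nu)
  have s1 := fun (s : Finset Hf) ω => h.q1 _ _ (fun k => SS_meas hR k ω) (SS_disj a R ω) s
  refine acy_of_Q fol u2 h.c0 (fun x s => Rp.sum_le q1 (s1 s) x) (Rp.hasSum q1 u1.zero s1
    (fun _ => h.t3 1) fun ω => h.q2 _ _ (fun k => SS_meas hR k ω) (SS_disj a R ω) (H.cover ω))
    fun k => ((q1 0).comp (u1 k) (.id _)).ext ((u1 k).comp (q1 k) (mp k)) (fun _ => rfl)
      fun ω x => (h.q3 _ (SS_meas hR 0 ω) _ _).trans ?_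
  simp [SS, cc_zero]

lemma ess_mem {M : LMod μ} (B : Submodule ℂ M.X) (h1 : IsClosed (B : Set M.X))
    (h2 : ∀ a y, M.A a y ∈ B) : Ess M ≤ B :=
  Submodule.topologicalClosure_minimal _
    (Submodule.span_le.2 (by rintro _ ⟨a, x, rfl⟩; exact h2 a x)) h1

lemma GM.mor {M : LMod μ} {T Q C} (h : GM M T Q C) {D : M.X →L[ℂ] Y} {T' : G → Y →L[ℂ] Y}
    (e : ∀ g a y, D (M.A (LL μ g a) y) = T' g (D (M.A a y))) (g x) :
    D (T g x) = T' g (D (T 1 x)) := by
  have := ess_mem (D ∘L T g - T' g ∘L D).ker (ContinuousLinearMap.isClosed_ker _)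
    (fun a y => by simp [h.t1, e]) (h.t2 x)
  simpa [h.t4, sub_eq_zero] using this

variable [LocallyCompactSpace G] [T2Space G] [μ.Regular]

theorem no_res [NoncompactSpace G] (n : ℕ) : ¬HasRes μ n := by
  rintro ⟨P, d, e, ⟨⟨e1, e2⟩, d1, e3, d2⟩, ⟨s, u, s1, u1, u2, s2, s3⟩, hP, hn⟩
  obtain ⟨a, R, H, hR⟩ := ex_hier (G := G)
  obtain ⟨I, l, ε, _, a1, a2⟩ := approx (μ := μ)
  choose T Q C g using fun k => ex_GM _ (hP k)
  choose U v1 v2 using fun k => ex_U a (g k).c0 (g k).t3 (g k).t4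
  obtain ⟨U', w1, -⟩ := ex_U a (T := fun _ => .id ℂ ℂ) zero_le_one (by simp) (by simp)
  have := fun k => (P k).cpl
  let D := fun k => (d1 k).1.toContinuousLinearMap
  let D0 := e1.toContinuousLinearMap
  choose δ r1 using fun k => ex_rp_c (μ := nu) (D k)
  obtain ⟨δ0, r0⟩ := ex_rp_c (μ := nu) D0
  let E : ∀ k, I → (P k).X →L[ℂ] (P k).X := fun k i => (P k).A (ε i)
  choose K k1 k2 using fun k => (P k).bil.bound
  have b1 : ∀ k i x, ‖E k i x‖ ≤ K k * ‖x‖ := fun k i x => (k2 k _ x).trans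
    (mul_le_mul_of_nonneg_right (mul_le_of_le_one_right (k1 k).le (a1 i).1) (norm_nonneg _))
  have b2 : ∀ k i x, T k 1 (E k i x) = E k i x := fun k i x => ((g k).t1 _ _ _).trans (by
    rw [LL_one])
  have b3 : ∀ k y, Tendsto (fun i => E k i (T k 1 y)) l (𝓝 (T k 1 y)) := fun k y => by
    obtain ⟨B, c1, c2⟩ := tend_dense (l := l) (fun i => E k i - .id ℂ _) (C := K k + 1)
      fun i x => (norm_sub_le (E k i x) x).trans (by linarith [b1 k i x])
    refine tendsto_sub_nhds_zero_iff.1 ((c2 _).1 (ess_mem B c1 (fun b y => (c2 _).2 ?_) ((g k).t2 y)))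
    exact tendsto_sub_nhds_zero_iff.2 ((((P k).A.flip y).continuous.tendsto
      _).comp (a2 b) |>.congr fun i => (P k).A_cv _ _ _)
  have m1 : ∀ k x y, D k (T (k + 1) x y) = T k x (D k (T (k + 1) 1 y)) := fun k =>
    (g (k + 1)).mor fun x b y => ((d1 k).2 _ _).trans
      (((g k).t1 _ _ _).symm.trans (congrArg _ ((d1 k).2 _ _).symm))
  have m0 : ∀ x y, D0 (T 0 x y) = ContinuousLinearMap.id ℂ ℂ (D0 (T 0 1 y)) :=
    (g 0).mor (T' := fun _ => .id ℂ ℂ) fun x b y => (e2 _ _).trans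
      ((congrArg (· * e y) (LL_int x b)).trans (e2 _ _).symm)
  have ac := fun k => (g k).acy H (fun n => (hR n).measurableSet) (v1 k) (v2 k)
  let Kr : ∀ k, Submodule ℂ (Lp (P k).X 1 nu) := fun k => Nat.casesOn k δ0.ker fun k => (δ k).ker
  have st : ∀ k {Z : Type} [NormedAddCommGroup Z] [NormedSpace ℂ Z] (D' : (P k).X →L[ℂ] Z)
      (s' : Z →L[ℂ] (P k).X) d', Rp d' (fun _ => D') (fun ω => ω) →
      (∀ y, d k (s k y) + s' (D' y) = y) → (∀ x, D' (d k x) = 0) →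
      Acy (U (k + 1)) (δ k).ker → Acy (U k) d'.ker := fun k Z _ _ D' s' d' r h1 h2 h3 => by
    obtain ⟨c1, c, c2, c3⟩ := exL (l := l) (s := (s1 k).toContinuousLinearMap) (k1 (k + 1)).le h1
      (fun i => (d1 k).2 _) (b2 _) (b1 _) (b1 k) (b3 k) h2 (m1 k 1) (r1 k) r (v1 _).zero (v1 k).zero
    exact step (v2 _) (δ k) ((v1 _).mor (v1 k) (r1 k) (m1 k)) c1 c2 c3 (ac _) h3
  have key : ∀ m k, k + m = n + 1 → Acy (U k) (Kr k) := by
    intro m
    induction m with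
    | zero =>
      intro k hk
      have : Subsingleton (Lp (P k).X 1 nu) := ⟨fun F F' => Lp.ext (.of_forall fun ω =>
        (hn k (by omega) _).trans (hn k (by omega) _).symm)⟩
      exact acy_triv _ _
    | succ m ih =>
      intro k hk
      have := ih (k + 1) (by omega)
      cases k with
      | zero => exact st 0 D0 u1.toContinuousLinearMap δ0 r0 s2 e3 this
      | succ k => exact st _ (D k) (s1 k).toContinuousLinearMap _ (r1 k) (s3 k) (d2 k) this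
  obtain ⟨c1, c, c2, c3⟩ := exL (l := l) (D := D0) (D' := (0 : ℂ →L[ℂ] ℂ)) (s' := 0)
    (s := u1.toContinuousLinearMap) (E' := fun _ => .id ℂ ℂ) (C' := 1) (k1 0).le
    (fun y => (add_zero _).trans (u2 y))
    (fun i x => (e2 _ _).trans ((congrArg (· * e x) (a1 i).2).trans (one_mul _))) (b2 _) (b1 _) (by simp)
    (fun _ => tendsto_const_nhds) (fun _ => rfl) (m0 1) r0 Rp.zero (v1 _).zero w1.zero
  have f := step (v2 _) δ0 ((v1 _).mor w1 r0 m0) c1 c2 c3 (ac _) (key _ 0 (zero_add _))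
  rw [show (0 : Lp ℂ 1 nu →L[ℂ] Lp ℂ 1 nu).ker = ⊤ from LinearMap.ker_zero] at f
  have f1 := f.zero (z := Lp.const 1 nu 1) fun h => Lp.ext (by
    filter_upwards [w1 h (Lp.const 1 nu 1), Lp.coeFn_const 1 nu (1 : ℂ),
      (mp h).quasiMeasurePreserving.ae (Lp.coeFn_const 1 nu (1 : ℂ))] with ω h1 h2 h3
    rw [h1, h2, h3]; rfl)
  have := Lp.norm_const (p := 1) (μ := nu) (1 : ℂ) one_ne_zero
  rw [f1] at this
  simp at this

end Pool.Agent.H90.Gd
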