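import Mathlib

set_option autoImplicit false
open Real Finset

namespace Pool.Agent.H90.Geno

lemma nonneg_of_deriv {f f' : ℝ → ℝ} (h0 : f 0 = 0) (hd : ∀ x, HasDerivAt f (f' x) x)
    (hp : ∀ x, 0 ≤ x → 0 ≤ f' x) {x : ℝ} (hx : 0 ≤ x) : 0 ≤ f x := by
  have : MonotoneOn f (Set.Ici 0) :=
    monotoneOn_of_deriv_nonneg (convex_Ici 0)
      (fun y _ => (hd y).continuousAt.continuousWithinAt)
      (fun y _ => (hd y).differentiableAt.differentiableWithinAt)
      (fun y hy => by rw [(hd y).deriv]; exact hp y (interior_subset hy))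
  simpa [h0] using this (Set.mem_Ici.2 le_rfl) hx hx

lemma cos_le4 {x : ℝ} (hx : 0 ≤ x) : cos x ≤ 1 - x ^ 2 / 2 + x ^ 4 / 24 := by
  have := nonneg_of_deriv (f := fun x => 1 - x ^ 2 / 2 + x ^ 4 / 24 - cos x)
    (f' := fun x => sin x - (x - x ^ 3 / 6)) (by simp) (fun x => by
      have i := hasDerivAt_id' x
      refine HasDerivAt.congr_deriv (((((i.fun_pow 2).div_const 2).const_sub 1).fun_add
        ((i.fun_pow 4).div_const 24)).fun_sub (hasDerivAt_cos x)) ?_
      simp; ring)
    (fun x hx => sub_nonneg.2 (sin_ge_sub_cube hx)) hx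
  linarith

lemma sin_le5 {x : ℝ} (hx : 0 ≤ x) : sin x ≤ x - x ^ 3 / 6 + x ^ 5 / 120 := by
  have := nonneg_of_deriv (f := fun x => x - x ^ 3 / 6 + x ^ 5 / 120 - sin x)
    (f' := fun x => 1 - x ^ 2 / 2 + x ^ 4 / 24 - cos x) (by simp) (fun x => by
      have i := hasDerivAt_id' x
      refine HasDerivAt.congr_deriv (((i.fun_sub ((i.fun_pow 3).div_const 6)).fun_add
        ((i.fun_pow 5).div_const 120)).fun_sub (hasDerivAt_sin x)) ?_
      simp; ring)
    (fun x hx => sub_nonneg.2 (cos_le4 hx)) hx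
  linarith

lemma usin {u : ℝ} (h0 : 0 ≤ u) (h1 : u ≤ π) : u * sin u ≤ 2 * (1 - cos u) := by
  rcases h1.eq_or_lt with rfl | h1
  · simp
  have hc : 0 < cos (u / 2) := cos_pos_of_mem_Ioo ⟨by linarith [pi_pos], by linarith⟩
  have ht := le_tan (x := u / 2) (by linarith) (by linarith)
  rw [tan_eq_sin_div_cos, le_div_iff₀ hc] at ht
  have e1 : sin u = 2 * sin (u / 2) * cos (u / 2) := by rw [← sin_two_mul]; ring_nf
  have e2 : cos u = 1 - 2 * sin (u / 2) ^ 2 := by
    have := cos_two_mul (u / 2)
    rw [show 2 * (u / 2) = u by ring, cos_sq'] at this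
    linarith
  have hs : 0 ≤ sin (u / 2) := sin_nonneg_of_nonneg_of_le_pi (by linarith) (by linarith)
  rw [e1, e2]
  nlinarith [mul_le_mul_of_nonneg_left ht hs]

lemma tangent {x y : ℝ} (hx0 : 0 ≤ x) (hx : x ≤ π) (hy0 : 0 ≤ y) (hy : y ≤ π) :
    sin y ≤ sin x + (y - x) * cos x := by
  rcases lt_trichotomy x y with h | rfl | h
  · obtain ⟨c, hc, e⟩ := exists_hasDerivAt_eq_slope sin cos h continuous_sin.continuousOn
      fun z _ => hasDerivAt_sin z
    rw [eq_div_iff (by linarith)] at e
    have := cos_le_cos_of_nonneg_of_le_pi hx0 (hc.2.le.trans hy) hc.1.le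
    nlinarith
  · simp
  · obtain ⟨c, hc, e⟩ := exists_hasDerivAt_eq_slope sin cos h continuous_sin.continuousOn
      fun z _ => hasDerivAt_sin z
    rw [eq_div_iff (by linarith)] at e
    have := cos_le_cos_of_nonneg_of_le_pi (hy0.trans hc.1.le) hx hc.2.le
    nlinarith

lemma a_bounds {N : ℝ} (hN : 5 ≤ N) :
    1.544 ≤ N * sin (π / (2 * N)) ∧ N * sin (π / (2 * N)) ≤ π / 2 := by
  have p1 := pi_gt_d4
  have p2 := pi_lt_d4
  have hN0 : 0 < N := by linarith
  have h0 : 0 ≤ π / (2 * N) := by positivity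
  constructor
  · have h1 := sin_ge_sub_cube h0
    have h2 : π / (2 * N) ≤ 0.31416 := by
      rw [div_le_iff₀ (by positivity)]; nlinarith
    have e : N * (π / (2 * N)) = π / 2 := by field_simp
    have h3 : (π / (2 * N)) ^ 2 ≤ 0.31416 ^ 2 := by gcongr
    have h4 : N * (π / (2 * N) - (π / (2 * N)) ^ 3 / 6) = π / 2 * (1 - (π / (2 * N)) ^ 2 / 6) := by
      rw [← e]; ring
    nlinarith [mul_le_mul_of_nonneg_left h1 hN0.le]
  · have := mul_le_mul_of_nonneg_left (sin_le h0) hN0.le
    rwa [show N * (π / (2 * N)) = π / 2 by field_simp] at this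

lemma regA {x c : ℝ} (h0 : 0 ≤ x) (h1 : x ≤ 0.8) (hc : 1 - x ^ 2 / 50 ≤ c) :
    π / 2 * sin x ≤ x + 2 * x / π * (cos x * c) := by
  have p1 := pi_gt_d4
  have p2 := pi_lt_d4
  have s1 := sin_le5 h0
  have c1 := one_sub_sq_div_two_le_cos (x := x)
  have hs : x ^ 2 ≤ 0.64 := by nlinarith
  have c2 : (1 - x ^ 2 / 2) * (1 - x ^ 2 / 50) ≤ cos x * c :=
    mul_le_mul c1 hc (by linarith) (by linarith)
  have q1 : 0.6366 ≤ 2 / π := by rw [le_div_iff₀ pi_pos]; linarith
  have q2 : 2 * x / π * (cos x * c) ≥ 0.6366 * x * ((1 - x ^ 2 / 2) * (1 - x ^ 2 / 50)) := by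
    rw [show 2 * x / π = 2 / π * x by ring]
    gcongr
    nlinarith
  have s0 : 0 ≤ sin x := sin_nonneg_of_nonneg_of_le_pi h0 (by linarith)
  have q3 : π / 2 * sin x ≤ 1.5708 * (x - x ^ 3 / 6 + x ^ 5 / 120) := by
    gcongr; linarith
  have q4 : 0 ≤ 1 + 0.6366 * ((1 - x ^ 2 / 2) * (1 - x ^ 2 / 50))
      - 1.5708 * (1 - x ^ 2 / 6 + (x ^ 2) ^ 2 / 120) := by
    nlinarith [sq_nonneg x]
  nlinarith [mul_nonneg h0 q4]

lemma regB {w a : ℝ} (h0 : 0 ≤ w) (h1 : w ≤ 0.771) (ha : 1.544 ≤ a) (ha' : a ≤ π / 2) :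
    a * (w - sin w) + w * sin w ≤ a ^ 2 * (1 - cos w) := by
  have p2 := pi_lt_d4
  have s1 := sin_le5 h0
  have s2 := sin_ge_sub_cube h0
  have c1 := cos_le4 h0
  have s3 := sin_le h0
  have q1 : a * (w - sin w) ≤ 1.5708 * (w ^ 3 / 6) := by
    gcongr <;> linarith
  have q2 : w * sin w ≤ w * (w - w ^ 3 / 6 + w ^ 5 / 120) := by gcongr
  have hs : w ^ 2 ≤ 0.6 := by nlinarith
  have q3 : 2.383 * (w ^ 2 / 2 - w ^ 4 / 24) ≤ a ^ 2 * (1 - cos w) := by
    refine mul_le_mul (by nlinarith) (by linarith) (by nlinarith [sq_nonneg w]) (sq_nonneg _)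
  have q4 : 0 ≤ 2.383 * (1 / 2 - w ^ 2 / 24) - 1.5708 * (w / 6) - (1 - w ^ 2 / 6 + w ^ 4 / 120) := by
    nlinarith [sq_nonneg w, sq_nonneg (w - 0.7)]
  nlinarith [mul_nonneg (sq_nonneg w) q4]

theorem Eineq {N h : ℝ} (hN : 5 ≤ N) (h0 : 0 ≤ h) (h1 : h ≤ π / 2) :
    0 ≤ (sin h - sin (π / (2 * N)) * sin (N * h)) * ((N - 1) * sin (π / (2 * N)) ^ 2 + sin h ^ 2)
      + sin (π / (2 * N)) * sin h * cos (N * h) * cos h := by
  obtain ⟨a1, a2⟩ := a_bounds hN
  have p1 := pi_gt_d4
  have p2 := pi_lt_d4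
  have hN0 : 0 < N := by linarith
  have g0 : 0 < π / (2 * N) := by positivity
  have g1 : π / (2 * N) ≤ π / 2 := by gcongr; linarith
  have eN : N * (π / (2 * N)) = π / 2 := by field_simp
  have ht : 0 < sin (π / (2 * N)) := sin_pos_of_pos_of_lt_pi g0 (by linarith)
  have hσ : 0 ≤ sin h := sin_nonneg_of_nonneg_of_le_pi h0 (by linarith)
  have hc : 0 ≤ cos h := cos_nonneg_of_mem_Icc ⟨by linarith, h1⟩
  have hc1 := cos_le_one h
  have tg := tangent h0 (by linarith) g0.le (by linarith : π / (2 * N) ≤ π)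
  have tgN : N * sin (π / (2 * N)) ≤ N * sin h + (π / 2 - N * h) * cos h := by
    have := mul_le_mul_of_nonneg_left tg hN0.le
    rw [← eN]; linarith
  set t := sin (π / (2 * N)) with htd
  rcases le_total (N * h) (π / 2) with hx | hx
  · -- slow region
    have hh : h ≤ π / (2 * N) := by
      rw [le_div_iff₀ (by positivity)]; linarith
    have hσt : sin h ≤ t := sin_le_sin_of_le_of_le_pi_div_two (by linarith) g1 hh
    have hcx : 0 ≤ cos (N * h) := cos_nonneg_of_mem_Icc ⟨by nlinarith, hx⟩
    rcases le_total (t * sin (N * h)) (sin h) with hs | hs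
    · have := sub_nonneg.2 hs
      have : 0 ≤ N - 1 := by linarith
      positivity
    have red : N * t * (t * sin (N * h) - sin h) ≤ sin h * cos (N * h) * cos h := by
      rcases le_total (N * h) 0.8 with hy | hy
      · have hA := regA (x := N * h) (c := cos h) (by positivity) hy (by
          have := one_sub_sq_div_two_le_cos (x := h)
          have : 25 * h ^ 2 ≤ (N * h) ^ 2 := by
            rw [mul_pow]; gcongr; nlinarith
          linarith)
        have ch : 2 * (N * h) / π * t ≤ sin h := by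
          have := strictConcaveOn_sin_Icc.concaveOn.2
            (show π / (2 * N) ∈ Set.Icc 0 π from ⟨g0.le, by linarith⟩)
            (show (0 : ℝ) ∈ Set.Icc 0 π from ⟨le_rfl, pi_pos.le⟩)
            (show 0 ≤ 2 * (N * h) / π by positivity)
            (show 0 ≤ 1 - 2 * (N * h) / π by rw [sub_nonneg, div_le_one pi_pos]; linarith) (by ring)
          simp only [smul_eq_mul, sin_zero, mul_zero, add_zero] at this
          rwa [show 2 * (N * h) / π * (π / (2 * N)) = h by field_simp] at this
        have e1 : (N * h + 2 * (N * h) / π * (cos (N * h) * cos h)) * t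
            = 2 * (N * h) / π * t * (π / 2 + cos (N * h) * cos h) := by field_simp
        have u1 := mul_le_mul_of_nonneg_right hA ht.le
        have u2 := mul_le_mul_of_nonneg_right ch
          (show 0 ≤ π / 2 + cos (N * h) * cos h by positivity)
        have u3 := mul_le_mul_of_nonneg_right a2 (sub_nonneg.2 hs)
        nlinarith
      · have hB := regB (w := π / 2 - N * h) (by linarith) (by linarith) a1 a2
        rw [sin_pi_div_two_sub, cos_pi_div_two_sub] at hB
        set w := π / 2 - N * h with hw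
        have w0 : 0 ≤ w := by linarith
        have s3 : cos (N * h) ≤ w := by
          have := sin_le w0
          rwa [hw, sin_pi_div_two_sub] at this
        have u1 : N * t * (w - cos (N * h)) * cos h ≤ N * t * (w - cos (N * h)) :=
          mul_le_of_le_one_right (by have := sub_nonneg.2 s3; positivity) hc1
        have u2 : w * cos (N * h) * (cos h * cos h) ≤ w * cos (N * h) :=
          mul_le_of_le_one_right (by positivity) (mul_le_one₀ hc1 hc hc1)
        have u3 := mul_le_mul_of_nonneg_left tgN (show 0 ≤ N * t by positivity)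
        have u4 := mul_le_mul_of_nonneg_left tgN (show 0 ≤ cos (N * h) * cos h by positivity)
        refine le_of_mul_le_mul_left ?_ hN0
        nlinarith
    have u1 : (N - 1) * t ^ 2 + sin h ^ 2 ≤ N * t ^ 2 := by nlinarith
    have u2 := mul_le_mul_of_nonneg_left u1 (sub_nonneg.2 hs)
    nlinarith [mul_le_mul_of_nonneg_left red ht.le]
  · have hh : π / (2 * N) ≤ h := by
      rw [div_le_iff₀ (by positivity)]; linarith
    have hσt : t ≤ sin h := sin_le_sin_of_le_of_le_pi_div_two (by linarith) h1 hh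
    have s1 := sin_le_one (N * h)
    have hs : 0 ≤ sin h - t * sin (N * h) := by nlinarith
    set u := N * h - π / 2 with hu
    have u0 : 0 ≤ u := by linarith
    have red : -(sin h * cos (N * h) * cos h) ≤ N * t * (sin h - t * sin (N * h)) := by
      have v1 := mul_le_mul_of_nonneg_left tgN ht.le
      rw [show π / 2 - N * h = -u by rw [hu]; ring] at v1
      rcases le_total u π with hy | hy
      · have hC := usin u0 hy
        have s3 := sin_le u0
        have s4 := sin_nonneg_of_nonneg_of_le_pi u0 hy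
        rw [hu, sin_sub_pi_div_two] at hC s3 s4
        rw [cos_sub_pi_div_two, ← hu] at hC
        rw [← hu] at s3
        have v2 : N * (sin h - t) ≤ u := by
          have := tangent g0.le (by linarith) h0 (by linarith)
          have h5 : (h - π / (2 * N)) * cos (π / (2 * N)) ≤ h - π / (2 * N) :=
            mul_le_of_le_one_right (by linarith) (cos_le_one _)
          have := mul_le_mul_of_nonneg_left (show sin h - t ≤ h - π / (2 * N) by linarith) hN0.le
          rw [hu, ← eN]; linarith
        have v3 : 2 * (1 - sin (N * h)) ≤ (N * t) ^ 2 * (1 - sin (N * h)) := by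
          gcongr; nlinarith
        have v4 : N * (sin h - t) * (-cos (N * h)) * cos h ≤ u * (-cos (N * h)) := by
          refine (mul_le_of_le_one_right ?_ hc1).trans (by gcongr)
          have := sub_nonneg.2 hσt
          positivity
        have v5 : N * t * (-cos (N * h)) * cos h ≤ N * t * u * cos h := by gcongr
        have v6 := mul_le_mul_of_nonneg_left v1 hN0.le
        refine le_of_mul_le_mul_left ?_ hN0
        linarith
      · have v2 : N * sin h ≤ N * t * u := by
          have := mul_le_mul_of_nonneg_left (sin_le h0) hN0.le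
          nlinarith
        have v3 : sin h ≤ t * u := by
          refine le_of_mul_le_mul_left ?_ hN0
          linarith
        have v4 : -(sin h * cos (N * h) * cos h) ≤ sin h * cos h := by
          nlinarith [neg_one_le_cos (N * h), mul_nonneg hσ hc]
        have v5 := mul_le_mul_of_nonneg_right v3 hc
        have v6 : 0 ≤ N * t * t * (1 - sin (N * h)) := by
          have := sub_nonneg.2 s1
          positivity
        linarith
    have u1 : N * t ^ 2 ≤ (N - 1) * t ^ 2 + sin h ^ 2 := by nlinarith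
    have u2 := mul_le_mul_of_nonneg_left u1 hs
    nlinarith [mul_le_mul_of_nonneg_left red ht.le]

end Pool.Agent.H90.Geno
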