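import Mathlib
import Pool.Agent.H90.GenoTrig

set_option autoImplicit false
open Real Finset

namespace Pool.Agent.H90.Geno

/-- half the critical slope -/
noncomputable def tt (k : ℕ) : ℝ := sin (π / (2 * (2 * k + 1)))
/-- multiplier weight -/
noncomputable def qq (k : ℕ) : ℝ := 1 / (4 * k * tt k ^ 2)
/-- the symbol -/
noncomputable def RR (k : ℕ) (ω : ℝ) : ℝ :=
  (1 / (2 * tt k) - 1 / 2 + qq k / (2 * tt k)) - qq k / (2 * tt k) * cos ω
    - ∑ j ∈ range k, cos ((j + 1 : ℕ) * ω) + qq k * cos ((k + 1 : ℕ) * ω)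

lemma tt_pos (k : ℕ) : 0 < tt k := by
  refine sin_pos_of_pos_of_lt_pi (by positivity) ?_
  rw [div_lt_iff₀ (by positivity)]
  nlinarith [pi_pos, (Nat.cast_nonneg k : (0 : ℝ) ≤ k)]

lemma dirichlet (k : ℕ) (h : ℝ) :
    2 * sin h * ∑ j ∈ range k, cos ((j + 1 : ℕ) * (2 * h)) = sin ((2 * k + 1) * h) - sin h := by
  induction k with
  | zero => simp
  | succ k ih =>
    rw [sum_range_succ, mul_add, ih]
    have e1 : (2 * (k : ℝ) + 1) * h = ((k + 1 : ℕ) : ℝ) * (2 * h) - h := by push_cast; ring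
    have e2 : (2 * ((k + 1 : ℕ) : ℝ) + 1) * h = ((k + 1 : ℕ) : ℝ) * (2 * h) + h := by ring
    rw [e1, e2, sin_sub, sin_add]; ring

lemma RR_pos1 {k : ℕ} (hk : 2 ≤ k) {h : ℝ} (h0 : 0 < h) (h1 : h ≤ π / 2) : 0 ≤ RR k (2 * h) := by
  have hk' : (2 : ℝ) ≤ k := by exact_mod_cast hk
  have E := Eineq (N := 2 * k + 1) (by linarith) h0.le h1
  have hσ : 0 < sin h := sin_pos_of_pos_of_lt_pi h0 (by linarith [pi_pos])
  have ht := tt_pos k
  have D := dirichlet k h
  have e : RR k (2 * h) * (4 * k * tt k ^ 3 * sin h) =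
      (sin h - tt k * sin ((2 * k + 1) * h)) * ((2 * k + 1 - 1) * tt k ^ 2 + sin h ^ 2)
        + tt k * sin h * cos ((2 * k + 1) * h) * cos h := by
    have e1 : ((k + 1 : ℕ) : ℝ) * (2 * h) = (2 * k + 1) * h + h := by push_cast; ring
    have e2 : ∑ j ∈ range k, cos ((j + 1 : ℕ) * (2 * h))
        = (sin ((2 * k + 1) * h) - sin h) / (2 * sin h) := by
      rw [← D, eq_div_iff (by positivity)]; ring
    rw [RR, e2, e1, cos_add, cos_two_mul, cos_sq', qq]
    field_simp
    ring
  exact nonneg_of_mul_nonneg_left (e ▸ E) (by positivity)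

lemma RR_nonneg {k : ℕ} (hk : 2 ≤ k) {ω : ℝ} (h0 : ω ≠ 0) (h1 : |ω| ≤ π) : 0 ≤ RR k ω := by
  have := RR_pos1 hk (h := |ω| / 2) (by positivity) (by linarith)
  rw [show 2 * (|ω| / 2) = |ω| by ring] at this
  rcases abs_choice ω with h | h <;> rw [h] at this
  · exact this
  · simpa [RR] using this

lemma int_cos (x : ℤ) : ∫ ω in (-π)..π, cos (x * ω) = if x = 0 then 2 * π else 0 := by
  split_ifs with h
  · simp [h]; ring
  · have h' : (x : ℝ) ≠ 0 := by exact_mod_cast h
    rw [intervalIntegral.integral_comp_mul_left (fun y => cos y) h']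
    simp

/-- lagged products -/
noncomputable def AA (φ : ℕ → ℝ) (j n : ℕ) : ℝ := if j ≤ n then φ n * φ (n - j) else 0

/-- periodogram -/
noncomputable def PP (φ : ℕ → ℝ) (N : ℕ) (ω : ℝ) : ℝ :=
  ∑ n ∈ range N, ∑ m ∈ range N, φ n * φ m * cos ((n - m) * ω)

lemma PP_nonneg (φ : ℕ → ℝ) (N : ℕ) (ω : ℝ) : 0 ≤ PP φ N ω := by
  have : PP φ N ω = (∑ n ∈ range N, φ n * cos (n * ω)) ^ 2
      + (∑ n ∈ range N, φ n * sin (n * ω)) ^ 2 := by
    simp only [PP, sq, sum_mul_sum, ← sum_add_distrib, sub_mul, cos_sub]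
    exact sum_congr rfl fun n _ => sum_congr rfl fun m _ => by ring
  rw [this]; positivity

lemma PP_cont (φ : ℕ → ℝ) (N : ℕ) : Continuous (PP φ N) := by
  unfold PP; fun_prop

lemma int_PP (φ : ℕ → ℝ) (N j : ℕ) :
    ∫ ω in (-π)..π, cos (j * ω) * PP φ N ω = 2 * π * ∑ n ∈ range N, AA φ j n := by
  have e1 : ∀ n m : ℕ, ∫ ω in (-π)..π, cos (j * ω) * (φ n * φ m * cos ((n - m) * ω))
      = π * (if n = m + j then φ n * φ m else 0) + π * (if m = n + j then φ m * φ n else 0) := by
    intro n m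
    have : ∀ ω : ℝ, cos (j * ω) * (φ n * φ m * cos ((n - m) * ω))
        = φ n * φ m / 2 * cos (((n : ℤ) - m - j : ℤ) * ω)
          + φ n * φ m / 2 * cos (((n : ℤ) - m + j : ℤ) * ω) := by
      intro ω
      push_cast
      rw [sub_mul _ (j : ℝ), add_mul _ (j : ℝ), cos_sub, cos_add]; ring
    simp_rw [this]
    rw [intervalIntegral.integral_add (by apply Continuous.intervalIntegrable; fun_prop)
      (by apply Continuous.intervalIntegrable; fun_prop), intervalIntegral.integral_const_mul,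
      intervalIntegral.integral_const_mul, int_cos, int_cos]
    have a1 : ((n : ℤ) - m - j = 0) ↔ n = m + j := by omega
    have a2 : ((n : ℤ) - m + j = 0) ↔ m = n + j := by omega
    simp only [a1, a2]
    split_ifs <;> ring
  have e2 : ∑ n ∈ range N, ∑ m ∈ range N, (if n = m + j then φ n * φ m else 0)
      = ∑ n ∈ range N, AA φ j n := by
    refine sum_congr rfl fun n hn => ?_
    unfold AA
    split_ifs with h
    · rw [sum_eq_single (n - j)]
      · rw [if_pos (by omega)]
      · intro m _ hm; rw [if_neg (by omega)]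
      · intro hm; exact absurd (mem_range.2 (by have := mem_range.1 hn; omega)) hm
    · exact sum_eq_zero fun m _ => if_neg (by omega)
  simp only [PP, mul_sum]
  rw [intervalIntegral.integral_finsetSum
    (fun _ _ => by apply Continuous.intervalIntegrable; fun_prop)]
  rw [sum_congr rfl fun n _ => intervalIntegral.integral_finsetSum
    (fun _ _ => by apply Continuous.intervalIntegrable; fun_prop)]
  simp only [e1, sum_add_distrib, ← mul_sum]
  rw [e2, sum_comm, e2]; ring

/-- the quadratic supply -/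
noncomputable def WW (k : ℕ) (φ : ℕ → ℝ) (n : ℕ) : ℝ :=
  (1 / (2 * tt k) - 1 / 2 + qq k / (2 * tt k)) * AA φ 0 n - qq k / (2 * tt k) * AA φ 1 n
    - ∑ j ∈ range k, AA φ (j + 1) n + qq k * AA φ (k + 1) n

theorem toeplitz {k : ℕ} (hk : 2 ≤ k) (φ : ℕ → ℝ) (N : ℕ) : 0 ≤ ∑ n ∈ range N, WW k φ n := by
  have hc := PP_cont φ N
  have h1 : 0 ≤ ∫ ω in (-π)..π, RR k ω * PP φ N ω := by
    refine intervalIntegral.integral_nonneg_of_ae_restrict (by linarith [pi_pos]) ?_
    rw [Filter.EventuallyLE, MeasureTheory.ae_restrict_iff' measurableSet_Icc]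
    have : ∀ᵐ ω : ℝ, ω ≠ 0 := by simp [MeasureTheory.ae_iff]
    filter_upwards [this] with ω h0 hω
    exact mul_nonneg (RR_nonneg hk h0 (abs_le.2 hω)) (PP_nonneg φ N ω)
  have e : ∀ ω, RR k ω * PP φ N ω =
      (1 / (2 * tt k) - 1 / 2 + qq k / (2 * tt k)) * (cos ((0 : ℕ) * ω) * PP φ N ω)
        - qq k / (2 * tt k) * (cos ((1 : ℕ) * ω) * PP φ N ω)
        - ∑ j ∈ range k, cos ((j + 1 : ℕ) * ω) * PP φ N ω
        + qq k * (cos ((k + 1 : ℕ) * ω) * PP φ N ω) := by
    intro ω
    rw [← sum_mul, RR]; simp; ring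
  simp_rw [e] at h1
  rw [intervalIntegral.integral_add (by apply Continuous.intervalIntegrable; fun_prop)
      (by apply Continuous.intervalIntegrable; fun_prop),
    intervalIntegral.integral_sub (by apply Continuous.intervalIntegrable; fun_prop)
      (by apply Continuous.intervalIntegrable; fun_prop),
    intervalIntegral.integral_sub (by apply Continuous.intervalIntegrable; fun_prop)
      (by apply Continuous.intervalIntegrable; fun_prop),
    intervalIntegral.integral_finsetSum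
      (fun _ _ => by apply Continuous.intervalIntegrable; fun_prop)] at h1
  simp only [intervalIntegral.integral_const_mul, int_PP] at h1
  have e2 : ∑ n ∈ range N, WW k φ n =
      (1 / (2 * tt k) - 1 / 2 + qq k / (2 * tt k)) * ∑ n ∈ range N, AA φ 0 n
        - qq k / (2 * tt k) * ∑ n ∈ range N, AA φ 1 n
        - ∑ j ∈ range k, ∑ n ∈ range N, AA φ (j + 1) n + qq k * ∑ n ∈ range N, AA φ (k + 1) n := by
    simp only [WW, sum_add_distrib, sum_sub_distrib, mul_sum]
    rw [sum_comm]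
  rw [e2]
  rw [← mul_sum] at h1
  refine nonneg_of_mul_nonneg_right (a := 2 * π) (h1.trans_eq (by ring)) (by positivity)

end Pool.Agent.H90.Geno
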