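import Mathlib
import Pool.Agent.H90.GenoToep

set_option autoImplicit false
open Real Finset Filter Topology

namespace Pool.Agent.H90.Geno

/-- logit in the symmetric variable -/
noncomputable def Lg (p : ℝ) : ℝ := log (1 + p) - log (1 - p)

lemma pinsker {p r : ℝ} (hp : |p| < 1) (hr : |r| < 1) :
    (p - r) ^ 2 ≤ (1 + p) * (log (1 + p) - log (1 + r)) + (1 - p) * (log (1 - p) - log (1 - r)) := by
  have hd : ∀ s : ℝ, |s| < 1 → HasDerivAt (fun s => (1 + p) * (log (1 + p) - log (1 + s))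
      + (1 - p) * (log (1 - p) - log (1 - s)) - (p - s) ^ 2)
      (2 * (s - p) * (s ^ 2 / (1 - s ^ 2))) s := by
    intro s hs
    obtain ⟨h1, h2⟩ := abs_lt.1 hs
    have i := hasDerivAt_id' s
    have n1 : 1 + s ≠ 0 := by linarith
    have n2 : 1 - s ≠ 0 := by linarith
    have n3 : 1 - s ^ 2 ≠ 0 := by nlinarith
    refine HasDerivAt.congr_deriv ((((((i.const_add 1).log n1).const_sub _).const_mul _).fun_add
      ((((i.const_sub 1).log n2).const_sub _).const_mul _)).fun_sub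
        ((i.const_sub p).fun_pow 2)) ?_
    rw [show 1 - s ^ 2 = (1 + s) * (1 - s) by ring]
    simp; field_simp; ring
  obtain ⟨p1, p2⟩ := abs_lt.1 hp
  obtain ⟨r1, r2⟩ := abs_lt.1 hr
  rcases lt_trichotomy p r with h | rfl | h
  · obtain ⟨c, hc, e⟩ := exists_hasDerivAt_eq_slope _ _ h
      (fun s hs => (hd s (abs_lt.2 ⟨by linarith [hs.1], by linarith [hs.2]⟩)).continuousAt.continuousWithinAt)
      fun s hs => hd s (abs_lt.2 ⟨by linarith [hs.1], by linarith [hs.2]⟩)
    rw [eq_div_iff (by linarith)] at e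
    have c1 : 0 < 1 - c ^ 2 := by nlinarith [hc.1, hc.2]
    have : 0 ≤ 2 * (c - p) * (c ^ 2 / (1 - c ^ 2)) * (r - p) := by
      have := sub_pos.2 hc.1
      have := sub_pos.2 h
      positivity
    simp at e
    linarith
  · simp
  · obtain ⟨c, hc, e⟩ := exists_hasDerivAt_eq_slope _ _ h
      (fun s hs => (hd s (abs_lt.2 ⟨by linarith [hs.1], by linarith [hs.2]⟩)).continuousAt.continuousWithinAt)
      fun s hs => hd s (abs_lt.2 ⟨by linarith [hs.1], by linarith [hs.2]⟩)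
    rw [eq_div_iff (by linarith)] at e
    have c1 : 0 < 1 - c ^ 2 := by nlinarith [hc.1, hc.2]
    have : 0 ≤ 2 * (p - c) * (c ^ 2 / (1 - c ^ 2)) * (p - r) := by
      have := sub_pos.2 hc.2
      have := sub_pos.2 h
      positivity
    simp at e
    linarith

lemma Lg_low {p : ℝ} (hp : |p| < 1) : 2 * p ^ 2 + 2 / 3 * p ^ 4 ≤ p * Lg p := by
  have h := (hasSum_log_sub_log_of_abs_lt_one hp).mul_left p
  have := sum_le_hasSum (range 2) (fun i _ => by
    rw [show p * (2 * (1 / (2 * (i : ℝ) + 1)) * p ^ (2 * i + 1))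
      = 2 * (1 / (2 * (i : ℝ) + 1)) * (p ^ 2) ^ (i + 1) by ring]
    positivity) h
  simp only [sum_range_succ, range_zero, sum_empty] at this
  unfold Lg
  norm_num at this
  linarith

lemma Lg_cube {p : ℝ} (hp : |p| ≤ 1 / 2) : |Lg p - 2 * p| ≤ 4 * |p| ^ 3 := by
  have h1 := abs_log_sub_add_sum_range_le (x := p) (by linarith) 2
  have h2 := abs_log_sub_add_sum_range_le (x := -p) (by rw [abs_neg]; linarith) 2
  simp only [sum_range_succ, range_zero, sum_empty, abs_neg, sub_neg_eq_add] at h1 h2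
  have h3 : |p| ^ (2 + 1) / (1 - |p|) ≤ 2 * |p| ^ 3 := by
    rw [div_le_iff₀ (by linarith), show 2 + 1 = 3 from rfl]
    nlinarith [mul_nonneg (pow_nonneg (abs_nonneg p) 3) (show 0 ≤ 1 - 2 * |p| by linarith)]
  have h4 := abs_le.1 (h1.trans h3)
  have h5 := abs_le.1 (h2.trans h3)
  norm_num at h4 h5
  unfold Lg
  rw [abs_le]
  constructor <;> linarith [h4.1, h4.2, h5.1, h5.2]

lemma Lg_up {p : ℝ} (hp : |p| ≤ 1 / 2) : |Lg p| ≤ 4 * |p| := by
  have h1 := Lg_cube hp
  have h2 : |Lg p| ≤ |Lg p - 2 * p| + |2 * p| := by simpa using abs_add_le (Lg p - 2 * p) (2 * p)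
  rw [abs_mul, abs_two] at h2
  nlinarith [abs_nonneg p, mul_nonneg (abs_nonneg p) (abs_nonneg p)]

lemma Lg_sq {p : ℝ} (hp : |p| < 1) : 4 * p ^ 2 ≤ Lg p ^ 2 := by
  have := Lg_low hp
  nlinarith [sq_nonneg (Lg p - 2 * p), sq_nonneg (p ^ 2)]

/-- storage function -/
noncomputable def FF (β K p : ℝ) : ℝ := -β * (log (1 + p) + log (1 - p)) - β ^ 2 * p ^ 2 / (2 * K)

lemma mono_rel {β K p r : ℝ} (hβ : 0 < β) (hK : β ≤ 2 * K) (hp : |p| < 1) (hr : |r| < 1) :
    FF β K p - FF β K r ≤ β * p * ((Lg p - β * p / K) - (Lg r - β * r / K)) := by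
  have h := pinsker hp hr
  have hK0 : 0 < K := by linarith
  have h1 : β / (2 * K) ≤ 1 := by rw [div_le_one (by positivity)]; exact hK
  have h2 : β * (β / (2 * K)) * (p - r) ^ 2 ≤ β * 1 * (p - r) ^ 2 := by gcongr
  have e : β * p * ((Lg p - β * p / K) - (Lg r - β * r / K)) - (FF β K p - FF β K r)
      = β * ((1 + p) * (log (1 + p) - log (1 + r)) + (1 - p) * (log (1 - p) - log (1 - r)))
        - β * (β / (2 * K)) * (p - r) ^ 2 := by
    unfold FF Lg; field_simp; ring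
  nlinarith [mul_le_mul_of_nonneg_left h hβ.le]

lemma FF_nonneg {β K p : ℝ} (hβ : 0 < β) (hK : β ≤ 2 * K) (hp : |p| < 1) : 0 ≤ FF β K p := by
  have := mono_rel (p := 0) hβ hK (by simp) hp
  have e1 : FF β K 0 = 0 := by simp [FF]
  rw [e1] at this
  simpa using this

lemma FF_le {β K p : ℝ} (hβ : 0 < β) (hK : β ≤ 2 * K) (hp : |p| < 1) :
    FF β K p ≤ β * (p * Lg p) := by
  have := mono_rel (r := 0) hβ hK hp (by simp)
  have hK0 : 0 < K := by linarith
  have h2 : 0 ≤ β * p * (β * p / K) := by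
    rw [show β * p * (β * p / K) = (β * p) ^ 2 / K by ring]; positivity
  have e1 : FF β K 0 = 0 := by simp [FF]
  have e2 : Lg 0 = 0 := by simp [Lg]
  rw [e1, e2] at this
  simp at this
  linarith

lemma g_low {β K p : ℝ} (hβ : 0 < β) (hK : β ≤ 2 * K) (hp : |p| < 1) :
    2 / 3 * β * p ^ 4 ≤ β * p * (Lg p - β * p / K) := by
  have h := Lg_low hp
  have hK0 : 0 < K := by linarith
  have h1 : β / K ≤ 2 := by rw [div_le_iff₀ hK0]; exact hK
  have h2 : β * (β / K) * p ^ 2 ≤ β * 2 * p ^ 2 := by gcongr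
  have e : β * p * (Lg p - β * p / K) = β * (p * Lg p) - β * (β / K) * p ^ 2 := by ring
  nlinarith [mul_le_mul_of_nonneg_left h hβ.le]

section
variable {k : ℕ} {β : ℝ} {p : ℕ → ℝ}

lemma tele (hr : ∀ n, Lg (p (n + k + 1)) = Lg (p (n + k)) - β * p n) (m i : ℕ) :
    Lg (p (m + k + i)) = Lg (p (m + k)) - ∑ j ∈ range i, β * p (m + j) := by
  induction i with
  | zero => simp
  | succ i ih =>
    have := hr (m + i)
    rw [show m + i + k + 1 = m + k + (i + 1) by ring, show m + i + k = m + k + i by ring] at this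
    rw [this, ih, sum_range_succ]; ring

lemma WW_eq (hr : ∀ n, Lg (p (n + k + 1)) = Lg (p (n + k)) - β * p n) (m : ℕ) :
    WW k (fun n => β * p n) (k + 1 + m) =
      (Lg (p (m + 2 * k + 1)) ^ 2 - Lg (p (m + 1 + 2 * k + 1)) ^ 2) / 2
      - β * p (m + 1 + k) * (Lg (p (m + 1 + k)) - β * p (m + 1 + k) / (2 * tt k))
      - qq k * (β * p (m + 1 + k) * ((Lg (p (m + 1 + k)) - β * p (m + 1 + k) / (2 * tt k))
        - (Lg (p (m + k)) - β * p (m + k) / (2 * tt k)))) := by
  have h1 := tele hr (m + 1) k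
  have h2 := hr (m + 1 + k)
  have h3 := hr m
  have e1 : ∑ j ∈ range k, AA (fun n => β * p n) (j + 1) (k + 1 + m)
      = β * p (m + 1 + k) * ∑ j ∈ range k, β * p (m + 1 + j) := by
    rw [mul_sum, ← sum_range_reflect]
    refine sum_congr rfl fun j hj => ?_
    have := mem_range.1 hj
    unfold AA
    rw [if_pos (by omega), show k + 1 + m = m + 1 + k by ring,
      show m + 1 + k - (k - 1 - j + 1) = m + 1 + j by omega]
  rw [show m + 1 + k + k = m + 2 * k + 1 by ring] at h1 h2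
  rw [show m + 2 * k + 1 + 1 = m + 1 + 2 * k + 1 by ring] at h2
  rw [show m + k + 1 = m + 1 + k by ring] at h3
  rw [WW, e1]
  unfold AA
  rw [if_pos (by omega), if_pos (by omega), if_pos (by omega),
    show k + 1 + m - (k + 1) = m by omega, show k + 1 + m - 1 = m + k by omega,
    show k + 1 + m - 0 = m + 1 + k by omega, show k + 1 + m = m + 1 + k by ring, h2,
    show ∑ j ∈ range k, β * p (m + 1 + j) = Lg (p (m + 1 + k)) - Lg (p (m + 2 * k + 1)) by
      linarith, show Lg (p (m + k)) = Lg (p (m + 1 + k)) + β * p m by linarith]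
  ring

lemma energy (hk : 2 ≤ k) (hβ : 0 < β) (hK : β ≤ 4 * tt k) (hp : ∀ n, |p n| < 1)
    (hr : ∀ n, Lg (p (n + k + 1)) = Lg (p (n + k)) - β * p n) (M : ℕ) :
    ∑ m ∈ range M, 2 / 3 * β * p (m + 1 + k) ^ 4 + Lg (p (M + 2 * k + 1)) ^ 2 / 2 ≤
      Lg (p (2 * k + 1)) ^ 2 / 2 + qq k * FF β (2 * tt k) (p k)
        + ∑ n ∈ range (k + 1), WW k (fun n => β * p n) n := by
  have hK' : β ≤ 2 * (2 * tt k) := by linarith
  have hq : 0 ≤ qq k := by unfold qq; positivity
  have h1 : ∀ M, ∑ m ∈ range M, 2 / 3 * β * p (m + 1 + k) ^ 4 + Lg (p (M + 2 * k + 1)) ^ 2 / 2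
      + qq k * FF β (2 * tt k) (p (M + k)) + ∑ m ∈ range M, WW k (fun n => β * p n) (k + 1 + m)
      ≤ Lg (p (2 * k + 1)) ^ 2 / 2 + qq k * FF β (2 * tt k) (p k) := by
    intro M
    induction M with
    | zero => simp
    | succ M ih =>
      rw [sum_range_succ, sum_range_succ, WW_eq hr]
      have a1 := g_low hβ hK' (hp (M + 1 + k))
      have a2 := mul_le_mul_of_nonneg_left (mono_rel hβ hK' (hp (M + 1 + k)) (hp (M + k))) hq
      linarith
  have h2 := toeplitz hk (fun n => β * p n) (k + 1 + M)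
  rw [sum_range_add] at h2
  have h3 := mul_nonneg hq (FF_nonneg hβ hK' (hp (M + k)))
  linarith [h1 M]

lemma attract (hk : 2 ≤ k) (hβ : 0 < β) (hK : β ≤ 4 * tt k) (hp : ∀ n, |p n| < 1)
    (hr : ∀ n, Lg (p (n + k + 1)) = Lg (p (n + k)) - β * p n) : Tendsto p atTop (𝓝 0) := by
  have hs : Summable fun m => 2 / 3 * β * p (m + 1 + k) ^ 4 :=
    summable_of_sum_range_le (fun _ => by positivity) fun M =>
      le_trans (le_add_of_nonneg_right (by positivity)) (energy hk hβ hK hp hr M)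
  have h1 := hs.tendsto_atTop_zero.const_mul (3 / (2 * β))
  have h2 : Tendsto (fun m => p (m + (1 + k)) ^ 4) atTop (𝓝 0) := by
    convert h1 using 2 with m
    · rw [← add_assoc]; field_simp
    · simp
  rw [← tendsto_add_atTop_iff_nat (1 + k), tendsto_zero_iff_abs_tendsto_zero]
  have h3 := (h2.sqrt).sqrt
  simp only [sqrt_zero] at h3
  refine h3.congr fun m => ?_
  rw [show p (m + (1 + k)) ^ 4 = (p (m + (1 + k)) ^ 2) ^ 2 by ring, sqrt_sq (sq_nonneg _),
    sqrt_sq_eq_abs]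
  rfl

lemma stable (hk : 2 ≤ k) (hβ : 0 < β) (hK : β ≤ 4 * tt k) : ∃ C : ℝ, 0 < C ∧
    ∀ (p : ℕ → ℝ) (d : ℝ), 0 ≤ d → d ≤ 1 / 2 → (∀ n, |p n| < 1) →
      (∀ n, Lg (p (n + k + 1)) = Lg (p (n + k)) - β * p n) → (∀ i ≤ k, |p i| ≤ d) →
      ∀ n, p n ^ 2 ≤ C * d ^ 2 := by
  have hK' : β ≤ 2 * (2 * tt k) := by linarith
  have hq : 0 ≤ qq k := by unfold qq; positivity
  have ht := tt_pos k
  set c0 := |1 / (2 * tt k) - 1 / 2 + qq k / (2 * tt k)| with hc0
  set C2 := (c0 + qq k / (2 * tt k) + k + qq k) * β ^ 2 with hC2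
  have hC2' : 0 ≤ C2 := by positivity
  refine ⟨1 + (4 + (k + 1) * β) ^ 2 + qq k * (β * 4) + (k + 1) * C2, by positivity,
    fun p d d0 d1 hp hr hi n => ?_⟩
  have b1 : ∀ i ≤ k + 1, Lg (p (k + i)) ^ 2 ≤ (4 + (k + 1) * β) ^ 2 * d ^ 2 := by
    intro i hi'
    have h1 := tele hr 0 i
    simp only [zero_add] at h1
    have h2 : |∑ j ∈ range i, β * p j| ≤ (k + 1) * β * d := by
      refine (abs_sum_le_sum_abs _ _).trans ((sum_le_card_nsmul _ _ (β * d) fun j hj => ?_).trans ?_)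
      · rw [abs_mul, abs_of_pos hβ]
        have := mem_range.1 hj
        gcongr; exact hi j (by omega)
      · rw [card_range, nsmul_eq_mul, mul_assoc]
        gcongr; exact_mod_cast hi'
    have h3 := Lg_up ((hi k le_rfl).trans d1)
    have h4 := abs_sub (Lg (p k)) (∑ j ∈ range i, β * p j)
    rw [← mul_pow, ← sq_abs, h1]
    gcongr
    linarith [hi k le_rfl]
  have b2 : ∀ j, ∀ n ≤ k, |AA (fun n => β * p n) j n| ≤ β ^ 2 * d ^ 2 := by
    intro j n hn
    unfold AA
    split_ifs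
    · rw [abs_mul, abs_mul, abs_mul, abs_of_pos hβ, ← mul_pow, sq]
      gcongr
      · exact hi n hn
      · exact hi _ (by omega)
    · simp; positivity
  have b3 : ∀ n ∈ range (k + 1), WW k (fun n => β * p n) n ≤ C2 * d ^ 2 := by
    intro n hn
    have hn' : n ≤ k := by have := mem_range.1 hn; omega
    have a1 : (1 / (2 * tt k) - 1 / 2 + qq k / (2 * tt k)) * AA (fun n => β * p n) 0 n
        ≤ c0 * (β ^ 2 * d ^ 2) := by
      refine (le_abs_self _).trans ?_
      rw [abs_mul]; gcongr; exact b2 0 n hn'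
    have a2 := mul_le_mul_of_nonneg_left (abs_le.1 (b2 1 n hn')).1
      (show 0 ≤ qq k / (2 * tt k) by positivity)
    have a3 := mul_le_mul_of_nonneg_left (abs_le.1 (b2 (k + 1) n hn')).2 hq
    have a4 := card_nsmul_le_sum (range k) (fun j => AA (fun n => β * p n) (j + 1) n) _
      fun j _ => (abs_le.1 (b2 (j + 1) n hn')).1
    rw [card_range, nsmul_eq_mul] at a4
    unfold WW
    rw [hC2]
    linarith
  have b4 := sum_le_card_nsmul _ _ _ b3
  rw [card_range, nsmul_eq_mul] at b4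
  push_cast at b4
  have b5 : FF β (2 * tt k) (p k) ≤ β * 4 * d ^ 2 := by
    refine (FF_le hβ hK' (hp k)).trans ?_
    rw [mul_assoc]
    refine mul_le_mul_of_nonneg_left ((le_abs_self _).trans ?_) hβ.le
    have := Lg_up ((hi k le_rfl).trans d1)
    have := hi k le_rfl
    rw [abs_mul]
    nlinarith [abs_nonneg (p k), abs_nonneg (Lg (p k))]
  have b6 := mul_le_mul_of_nonneg_left b5 hq
  have u1 : 0 ≤ (4 + (k + 1) * β) ^ 2 * d ^ 2 := by positivity
  have u2 : 0 ≤ qq k * (β * 4) * d ^ 2 := by positivity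
  have u3 : 0 ≤ (k + 1) * C2 * d ^ 2 := by positivity
  have u4 := sq_nonneg d
  have u5 := Lg_sq (hp n)
  rcases le_or_gt n k with h | h
  · have : p n ^ 2 ≤ d ^ 2 := by
      rw [← sq_abs]; gcongr; exact hi n h
    linarith
  rcases le_or_gt n (2 * k + 1) with h' | h'
  · have := b1 (n - k) (by omega)
    rw [show k + (n - k) = n by omega] at this
    linarith [sq_nonneg (p n)]
  · have e := energy hk hβ hK hp hr (n - (2 * k + 1))
    rw [show n - (2 * k + 1) + 2 * k + 1 = n by omega] at e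
    have := b1 (k + 1) le_rfl
    rw [show k + (k + 1) = 2 * k + 1 by ring] at this
    have : 0 ≤ ∑ m ∈ range (n - (2 * k + 1)), 2 / 3 * β * p (m + 1 + k) ^ 4 :=
      sum_nonneg fun _ _ => by positivity
    linarith [sq_nonneg (p n)]

end

end Pool.Agent.H90.Geno
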