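import Mathlib
import Pool.Agent.H90.GenoStab

set_option autoImplicit false
open Finset Filter Topology Polynomial

namespace Pool.Agent.H90.Geno

/-- the shift on sequences -/
noncomputable def Sh : (ℕ → ℂ) →ₗ[ℂ] (ℕ → ℂ) := LinearMap.funLeft ℂ ℂ (· + 1)

lemma Sh_pow (j : ℕ) (u : ℕ → ℂ) (n : ℕ) : (Sh ^ j) u n = u (n + j) := by
  induction j generalizing n with
  | zero => rfl
  | succ j ih => rw [pow_succ', Module.End.mul_apply]; exact (ih (n + 1)).trans (by congr 1; ring)

lemma cascade {r ρ : ℝ} (hr : 0 ≤ r) (h : r < ρ) (T : ℕ) (s : Multiset ℂ) :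
    (∀ a ∈ s, ‖a‖ ≤ r) → ∀ (u : ℕ → ℂ) (B : ℝ), 0 ≤ B → (∀ i < s.card, u i = 0) →
      (∀ n ≤ T, ‖aeval Sh (s.map fun a => X - C a).prod u n‖ ≤ B * ρ ^ n) →
      ∀ n ≤ T + s.card, ‖u n‖ ≤ B / (ρ - r) ^ s.card * ρ ^ n := by
  induction s using Multiset.induction_on with
  | empty => intro _ u B _ _ h2 n hn; simpa using h2 n (by simpa using hn)
  | cons a s ih =>
    intro ha u B hB h1 h2
    have hρ : 0 < ρ - r := by linarith
    have hv : ∀ n, (aeval Sh (X - C a) : _) u n = u (n + 1) - a * u n := by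
      intro n; simp [Sh, LinearMap.funLeft, Algebra.algebraMap_eq_smul_one]
    rw [Multiset.map_cons, Multiset.prod_cons, mul_comm, map_mul] at h2
    rw [Multiset.card_cons] at h1 ⊢
    have h3 := ih (fun b hb => ha b (Multiset.mem_cons_of_mem hb)) ((aeval Sh (X - C a) : _) u) B hB
      (fun i hi => by rw [hv, h1 _ (by omega), h1 _ (by omega)]; simp) h2
    intro n
    induction n with
    | zero => intro _; rw [h1 0 (by omega)]; simp; positivity
    | succ n ihn =>
      intro hn
      have a1 := h3 n (by omega)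
      have a2 := ihn (by omega)
      have a3 := ha a (Multiset.mem_cons_self _ _)
      rw [hv] at a1
      have a4 : ‖u (n + 1)‖ ≤ ‖u (n + 1) - a * u n‖ + ‖a‖ * ‖u n‖ := by
        rw [← norm_mul]; simpa using norm_add_le (u (n + 1) - a * u n) (a * u n)
      have a5 : ‖a‖ * ‖u n‖ ≤ r * (B / (ρ - r) ^ (s.card + 1) * ρ ^ n) := by gcongr
      have e : B / (ρ - r) ^ (s.card + 1) * ρ ^ (n + 1) = B / (ρ - r) ^ s.card * ρ ^ n
          + r * (B / (ρ - r) ^ (s.card + 1) * ρ ^ n) := by field_simp; ring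
      linarith

open Real in
lemma big_root {k : ℕ} (hk : 2 ≤ k) {K : ℝ} (hK : 2 * tt k < K) :
    ∃ l : ℂ, 1 < ‖l‖ ∧ l ^ (k + 1) - l ^ k + K = 0 := by
  have hk' : (2 : ℝ) ≤ k := by exact_mod_cast hk
  have ht := tt_pos k
  set a := π / (2 * k + 1) with ha
  set b := π / (k + 1) with hb
  have ea : (2 * k + 1) * a = π := by rw [ha]; field_simp
  have eb : (k + 1) * b = π := by rw [hb]; field_simp
  have a0 : 0 < a := by positivity
  have hab : a < b := by rw [ha, hb]; gcongr; linarith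
  have hc : ContinuousOn (fun θ => sin (k * θ) ^ k * sin θ - K * sin ((k + 1) * θ) ^ (k + 1))
      (Set.Icc a b) := by fun_prop
  have ga : sin (k * a) ^ k * sin a - K * sin ((k + 1) * a) ^ (k + 1) < 0 := by
    have e1 : sin (k * a) = cos (a / 2) := by
      rw [← sin_pi_div_two_sub]; congr 1; linarith
    have e2 : sin ((k + 1) * a) = cos (a / 2) := by
      rw [← sin_add_pi_div_two]; congr 1; linarith
    have e3 : sin a = 2 * tt k * cos (a / 2) := by
      rw [tt, show π / (2 * (2 * (k : ℝ) + 1)) = a / 2 by rw [ha]; field_simp, ← sin_two_mul]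
      congr 1; ring
    have c0 : 0 < cos (a / 2) := cos_pos_of_mem_Ioo ⟨by linarith [pi_pos], by nlinarith⟩
    rw [e1, e2, e3, pow_succ]
    nlinarith [mul_pos (pow_pos c0 k) c0]
  have gb : 0 < sin (k * b) ^ k * sin b - K * sin ((k + 1) * b) ^ (k + 1) := by
    have s1 : 0 < sin b := sin_pos_of_pos_of_lt_pi (by linarith) (by nlinarith)
    have s2 : 0 < sin (k * b) := sin_pos_of_pos_of_lt_pi (by nlinarith) (by nlinarith)
    rw [eb, sin_pi]; simp; positivity
  obtain ⟨θ, hθ, e⟩ := intermediate_value_Ioo hab.le hc (show (0 : ℝ) ∈ _ from ⟨ga, gb⟩)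
  simp only at e
  have t0 : 0 < θ := a0.trans hθ.1
  have s1 : 0 < sin ((k + 1) * θ) :=
    sin_pos_of_pos_of_lt_pi (by positivity) (by nlinarith [hθ.2])
  have s2 : sin ((k + 1) * θ) < sin (k * θ) := by
    have h1 := sin_sub_sin ((k + 1) * θ) (k * θ)
    have h2 : 0 < sin (((k + 1) * θ - k * θ) / 2) :=
      sin_pos_of_pos_of_lt_pi (by linarith) (by nlinarith [hθ.2, pi_pos])
    have h3 : cos (((k + 1) * θ + k * θ) / 2) < 0 :=
      cos_neg_of_pi_div_two_lt_of_lt (by nlinarith [hθ.1]) (by nlinarith [hθ.2, pi_pos])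
    nlinarith [mul_pos h2 (neg_pos.2 h3)]
  set D := sin ((k + 1) * θ) with hD
  refine ⟨(sin (k * θ) / D : ℝ) * Complex.exp (θ * Complex.I), ?_, ?_⟩
  · rw [norm_mul, Complex.norm_exp_ofReal_mul_I, mul_one, Complex.norm_real,
      Real.norm_of_nonneg (div_pos (s1.trans s2) s1).le, one_lt_div s1]
    exact s2
  · have e1 : ((sin (k * θ) / D : ℝ) : ℂ) * Complex.exp (θ * Complex.I) - 1
        = -(sin θ / D : ℝ) * Complex.exp ((-(k * θ) : ℝ) * Complex.I) := by
      have hD' : D = sin (k * θ) * cos θ + cos (k * θ) * sin θ := by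
        rw [hD, ← sin_add]; congr 1; ring
      apply Complex.ext
      · simp only [Complex.sub_re, Complex.re_ofReal_mul, Complex.exp_ofReal_mul_I_re,
          Complex.one_re, neg_mul, Complex.neg_re, cos_neg]
        field_simp; linarith
      · simp only [Complex.sub_im, Complex.im_ofReal_mul, Complex.exp_ofReal_mul_I_im,
          Complex.one_im, neg_mul, Complex.neg_im, sin_neg]
        field_simp; ring
    have e2 : Complex.exp (θ * Complex.I) ^ k * Complex.exp ((-(k * θ) : ℝ) * Complex.I) = 1 := by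
      rw [← Complex.exp_nat_mul, ← Complex.exp_add]; push_cast; ring_nf; simp
    have e3 : K = (sin (k * θ) / D) ^ k * (sin θ / D) := by
      rw [div_pow]; field_simp; rw [pow_succ] at e; linarith
    rw [pow_succ, ← mul_sub_one, e1, mul_pow, e3]
    push_cast at e2 ⊢
    linear_combination (-(Complex.sin (k * θ) / D) ^ k * (Complex.sin θ / D)) * e2

lemma unstable {k : ℕ} (hk : 2 ≤ k) {K : ℝ} (hK : 2 * tt k < K) (c : ℝ) (hc : 0 < c) :
    ∃ η : ℝ, 0 < η ∧ ∀ δ : ℝ, 0 < δ → ∃ a : ℕ → ℂ, (∀ i ≤ k, ‖a i‖ < δ) ∧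
      ∀ Z : ℕ → ℂ, (∀ i ≤ k, Z i = a i) →
        (∀ n, ‖Z (n + k + 1) - Z (n + k) + K * Z n‖ ≤ c * ‖Z n‖ ^ 3) → ∃ n, η ≤ ‖Z n‖ := by
  obtain ⟨l0, hl0, hr0⟩ := big_root hk hK
  set P : ℂ[X] := X ^ (k + 1) - X ^ k + C (K : ℂ) with hP
  have hm : P.Monic := by rw [hP]; monicity!
  have hd : P.natDegree = k + 1 := by rw [hP]; compute_degree!
  have hsp := IsAlgClosed.splits P
  have hcard : P.roots.card = k + 1 := by rw [← hd]; exact hsp.natDegree_eq_card_roots.symm
  have hprod : (P.roots.map fun a => X - C a).prod = P := (hsp.eq_prod_roots_of_monic hm).symm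
  have hroot : ∀ l, l ∈ P.roots ↔ l ^ (k + 1) - l ^ k + K = 0 := by
    intro l; rw [mem_roots hm.ne_zero]; simp [hP]
  obtain ⟨l, hl, hmax⟩ := P.roots.toFinset.exists_max_image (fun a => ‖a‖)
    ⟨l0, Multiset.mem_toFinset.2 ((hroot l0).2 hr0)⟩
  have hle := (hroot l).1 (Multiset.mem_toFinset.1 hl)
  set r := ‖l‖ with hr
  have r1 : 1 < r := hl0.trans_le (hmax l0 (Multiset.mem_toFinset.2 ((hroot l0).2 hr0)))
  have r2 : 0 < r ^ 2 - r := by nlinarith
  set L := (r ^ 2 - r) ^ (k + 1) with hL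
  have L0 : 0 < L := by positivity
  set η := √(L / (16 * c)) with hη
  have η0 : 0 < η := by positivity
  have η2 : η ^ 2 = L / (16 * c) := Real.sq_sqrt (by positivity)
  refine ⟨η / 2, by positivity, fun δ hδ => ?_⟩
  obtain ⟨T0, hT0⟩ := ((tendsto_pow_atTop_atTop_of_one_lt r1).eventually
    (eventually_gt_atTop (η * r ^ k / δ))).exists
  set d := η / r ^ T0 with hdd
  have d0 : 0 < d := by positivity
  refine ⟨fun i => d * l ^ i, fun i hi => ?_, fun Z hZ hrec => ?_⟩
  · rw [norm_mul, norm_pow, Complex.norm_real, Real.norm_of_nonneg d0.le, hdd, div_mul_eq_mul_div,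
      div_lt_iff₀ (by positivity)]
    rw [div_lt_iff₀ hδ] at hT0
    have : r ^ i ≤ r ^ k := pow_le_pow_right₀ r1.le hi
    nlinarith
  have hn : ∀ n, ‖(d : ℂ) * l ^ n‖ = d * r ^ n := fun n => by
    rw [norm_mul, norm_pow, Complex.norm_real, Real.norm_of_nonneg d0.le]
  have key : ∀ T, d * r ^ T ≤ η → ∀ n ≤ T, ‖Z n - d * l ^ n‖ ≤ d * r ^ n / 2 := by
    intro T
    induction T with
    | zero =>
      intro _ n h
      rw [hZ n (by omega)]; simp; positivity
    | succ T ih =>
      intro hT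
      have rT : r ^ T ≤ r ^ (T + 1) := pow_le_pow_right₀ r1.le (by omega)
      have hT' : d * r ^ T ≤ η := le_trans (by gcongr) hT
      have h1 := cascade (ρ := r ^ 2) (by linarith : 0 ≤ r) (by linarith) T P.roots
        (fun a ha => hmax a (Multiset.mem_toFinset.2 ha)) (fun n => Z n - d * l ^ n)
        (8 * c * d ^ 3 * r ^ T) (by positivity)
        (fun i hi => by rw [hZ i (by omega)]; simp) (fun n hn' => by
          rw [hprod]
          have e : aeval Sh P (fun n => Z n - d * l ^ n) n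
              = Z (n + k + 1) - Z (n + k) + K * Z n := by
            simp only [hP, map_add, map_sub, map_pow, aeval_X, aeval_C, LinearMap.add_apply,
              LinearMap.sub_apply, Pi.add_apply, Pi.sub_apply, Sh_pow,
              Module.algebraMap_end_apply, Pi.smul_apply, smul_eq_mul, ← add_assoc]
            linear_combination (-(d : ℂ) * l ^ n) * hle
          rw [e]
          refine (hrec n).trans ?_
          have a1 : ‖Z n‖ ≤ 2 * (d * r ^ n) := by
            have := norm_add_le (Z n - d * l ^ n) (d * l ^ n)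
            rw [sub_add_cancel, hn] at this
            have := ih hT' n hn'
            have : 0 < d * r ^ n := by positivity
            linarith
          have a2 : r ^ n ≤ r ^ T := pow_le_pow_right₀ r1.le hn'
          calc c * ‖Z n‖ ^ 3 ≤ c * (2 * (d * r ^ n)) ^ 3 := by gcongr
            _ = 8 * c * d ^ 3 * r ^ n * (r ^ 2) ^ n := by ring
            _ ≤ _ := by gcongr)
      intro n hn'
      refine (h1 n (by omega)).trans ?_
      have a2 : d * r ^ n ≤ η := le_trans (by gcongr; exact r1.le) hT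
      rw [hcard, ← hL]
      calc 8 * c * d ^ 3 * r ^ T / L * (r ^ 2) ^ n
          = 8 * c / L * ((d * r ^ T) * (d * r ^ n)) * (d * r ^ n) := by field_simp; ring
        _ ≤ 8 * c / L * (η * η) * (d * r ^ n) := by gcongr
        _ = _ := by rw [← sq, η2]; field_simp; ring
  have e : d * r ^ T0 = η := by rw [hdd]; field_simp
  refine ⟨T0, ?_⟩
  have h1 := key T0 e.le T0 le_rfl
  have h2 := norm_sub_norm_le ((d : ℂ) * l ^ T0) (Z T0)
  rw [norm_sub_rev, hn] at h2
  linarith

end Pool.Agent.H90.Geno
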