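import Mathlib
import Pool.Agent.H90.GenoInst

set_option autoImplicit false
open Real Finset Filter Topology

namespace Pool.Agent.H90.Geno

lemma cos_tt (k : ℕ) : cos ((k : ℝ) * π / (2 * (k : ℝ) + 1)) = tt k := by
  rw [tt, ← sin_pi_div_two_sub]; congr 1; field_simp; ring

lemma step {x b : ℝ} (h0 : 0 < x) (h1 : x < 1) :
    (0 < x * exp b / (1 - x + x * exp b) ∧ x * exp b / (1 - x + x * exp b) < 1) ∧
      Lg (2 * (x * exp b / (1 - x + x * exp b)) - 1) = Lg (2 * x - 1) + b := by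
  have e0 := exp_pos b
  have h2 : 0 < 1 - x := by linarith
  have hD : 0 < 1 - x + x * exp b := by positivity
  refine ⟨⟨by positivity, by rw [div_lt_one hD]; linarith⟩, ?_⟩
  unfold Lg
  rw [show 1 + (2 * (x * exp b / (1 - x + x * exp b)) - 1) = 2 * x * exp b / (1 - x + x * exp b) by
      field_simp; ring,
    show 1 - (2 * (x * exp b / (1 - x + x * exp b)) - 1) = 2 * (1 - x) / (1 - x + x * exp b) by
      field_simp; ring,
    show 1 + (2 * x - 1) = 2 * x by ring, show 1 - (2 * x - 1) = 2 * (1 - x) by ring,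
    log_div (by positivity) hD.ne', log_div (by positivity) hD.ne',
    log_mul (by positivity) e0.ne', log_exp]
  ring

lemma conv {k : ℕ} {β : ℝ} {y : ℕ → ℝ} (h0 : ∀ i, i ≤ k → 0 < y i ∧ y i < 1)
    (hr : ∀ n : ℕ, y (n + k + 1) = y (n + k) * exp (β * (1 - 2 * y n)) /
      (1 - y (n + k) + y (n + k) * exp (β * (1 - 2 * y n)))) :
    (∀ n, |2 * y n - 1| < 1) ∧
      ∀ n, Lg (2 * y (n + k + 1) - 1) = Lg (2 * y (n + k) - 1) - β * (2 * y n - 1) := by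
  have h1 : ∀ n, 0 < y (n + k) ∧ y (n + k) < 1 := by
    intro n
    induction n with
    | zero => simpa using h0 k le_rfl
    | succ n ih => rw [show n + 1 + k = n + k + 1 by ring, hr]; exact (step ih.1 ih.2).1
  refine ⟨fun n => ?_, fun n => ?_⟩
  · have : 0 < y n ∧ y n < 1 := by
      rcases le_total n k with h | h
      · exact h0 n h
      · simpa [Nat.sub_add_cancel h] using h1 (n - k)
    rw [abs_lt]; constructor <;> linarith [this.1, this.2]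
  · rw [hr, (step (h1 n).1 (h1 n).2).2]; ring

lemma stab {k : ℕ} (hk : 2 ≤ k) {β : ℝ} (hβ : 0 < β) (hK : β ≤ 4 * tt k) :
    ∀ ε : ℝ, 0 < ε → ∃ δ : ℝ, 0 < δ ∧ ∀ y : ℕ → ℝ, (∀ i, i ≤ k → 0 < y i ∧ y i < 1) →
      (∀ n : ℕ, y (n + k + 1) = y (n + k) * exp (β * (1 - 2 * y n)) /
        (1 - y (n + k) + y (n + k) * exp (β * (1 - 2 * y n)))) →
      (∀ i, i ≤ k → |y i - 1 / 2| < δ) → ∀ n : ℕ, |y n - 1 / 2| < ε := by
  intro ε hε
  obtain ⟨C, hC, h⟩ := stable hk hβ hK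
  refine ⟨min (1 / 4) (ε / (C + 1)), by positivity, fun y h0 hr hi n => ?_⟩
  obtain ⟨c1, c2⟩ := conv h0 hr
  have m1 := min_le_left (1 / 4) (ε / (C + 1))
  have m2 := min_le_right (1 / 4) (ε / (C + 1))
  have m0 : 0 < min (1 / 4) (ε / (C + 1)) := by positivity
  set δ := min (1 / 4) (ε / (C + 1))
  have := h (fun n => 2 * y n - 1) (2 * δ) (by positivity) (by linarith) c1 c2 (fun i h => by
    have := abs_lt.1 (hi i h)
    rw [abs_le]; constructor <;> linarith [this.1, this.2]) n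
  rw [le_div_iff₀ (by positivity)] at m2
  refine abs_lt_of_sq_lt_sq ?_ hε.le
  have : δ * (C + 1) * (δ * (C + 1)) ≤ ε * ε := by gcongr
  nlinarith [mul_pos m0 m0, mul_pos (mul_pos m0 m0) hC, mul_pos (mul_pos m0 m0) (mul_pos hC hC)]

lemma attr {k : ℕ} (hk : 2 ≤ k) {β : ℝ} (hβ : 0 < β) (hK : β ≤ 4 * tt k) :
    ∀ y : ℕ → ℝ, (∀ i, i ≤ k → 0 < y i ∧ y i < 1) →
      (∀ n : ℕ, y (n + k + 1) = y (n + k) * exp (β * (1 - 2 * y n)) /
        (1 - y (n + k) + y (n + k) * exp (β * (1 - 2 * y n)))) →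
      Tendsto y atTop (𝓝 (1 / 2)) := by
  intro y h0 hr
  obtain ⟨c1, c2⟩ := conv h0 hr
  have := ((attract hk hβ hK c1 c2).add_const 1).div_const 2
  simpa using this

/-- the solution with given initial values -/
noncomputable def sol (k : ℕ) (G : ℝ → ℝ → ℝ) (a : ℕ → ℝ) (n : ℕ) : ℝ :=
  if _h : n ≤ k then a n else G (sol k G a (n - 1)) (sol k G a (n - k - 1))
decreasing_by all_goals omega

lemma exists_sol (k : ℕ) (β : ℝ) (x : ℕ → ℝ) : ∃ y : ℕ → ℝ, (∀ i, i ≤ k → 0 < y i ∧ y i < 1) ∧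
    (∀ n : ℕ, y (n + k + 1) = y (n + k) * exp (β * (1 - 2 * y n)) /
      (1 - y (n + k) + y (n + k) * exp (β * (1 - 2 * y n)))) ∧
    ∀ i, i ≤ k → Lg (2 * y i - 1) = x i := by
  have hs := fun i => step (x := 1 / 2) (b := x i) (by norm_num) (by norm_num)
  refine ⟨sol k (fun u v => u * exp (β * (1 - 2 * v)) / (1 - u + u * exp (β * (1 - 2 * v))))
    fun i => 1 / 2 * exp (x i) / (1 - 1 / 2 + 1 / 2 * exp (x i)), fun i hi => ?_, fun n => ?_,
    fun i hi => ?_⟩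
  · rw [sol, dif_pos hi]; exact (hs i).1
  · rw [sol, dif_neg (by omega), show n + k + 1 - 1 = n + k by omega,
      show n + k + 1 - k - 1 = n by omega]
  · rw [sol, dif_pos hi, (hs i).2]; simp [Lg]

lemma only_if {k : ℕ} (hk : 2 ≤ k) {β : ℝ}
    (h : ∀ ε : ℝ, 0 < ε → ∃ δ : ℝ, 0 < δ ∧ ∀ y : ℕ → ℝ, (∀ i, i ≤ k → 0 < y i ∧ y i < 1) →
      (∀ n : ℕ, y (n + k + 1) = y (n + k) * exp (β * (1 - 2 * y n)) /
        (1 - y (n + k) + y (n + k) * exp (β * (1 - 2 * y n)))) →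
      (∀ i, i ≤ k → |y i - 1 / 2| < δ) → ∀ n : ℕ, |y n - 1 / 2| < ε) : β ≤ 4 * tt k := by
  by_contra hβ
  have ht := tt_pos k
  have b0 : 0 < β / 2 := by linarith
  obtain ⟨η, η0, hη⟩ := unstable hk (K := β / 2) (by linarith) (β / 2) b0
  obtain ⟨δ, δ0, hδ⟩ := h (min (1 / 4) (η / 16)) (by positivity)
  obtain ⟨a, ha, hZ⟩ := hη δ δ0
  have one : ∀ x : ℕ → ℝ, (∀ i ≤ k, |x i| < δ) → ∃ z : ℕ → ℝ, (∀ i ≤ k, z i = x i) ∧
      (∀ n, |z n| < η / 2) ∧ ∀ n, |z (n + k + 1) - z (n + k) + β / 2 * z n| ≤ β / 4 * |z n| ^ 3 := by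
    intro x hx
    obtain ⟨y, h0, hr, hi⟩ := exists_sol k β x
    obtain ⟨c1, c2⟩ := conv h0 hr
    have c3 : ∀ n, 2 * |2 * y n - 1| ≤ |Lg (2 * y n - 1)| := fun n => by
      have := Lg_sq (c1 n)
      have h2 : |2 * (2 * y n - 1)| ≤ |Lg (2 * y n - 1)| := sq_le_sq.1 (by linarith)
      rwa [abs_mul, abs_two] at h2
    have c4 : ∀ n, |2 * y n - 1| = 2 * |y n - 1 / 2| := fun n => by
      rw [show 2 * y n - 1 = 2 * (y n - 1 / 2) by ring, abs_mul, abs_two]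
    have hb := hδ y h0 hr fun i h => by
      have := c3 i
      rw [hi i h, c4] at this
      linarith [hx i h, abs_nonneg (y i - 1 / 2)]
    have c5 : ∀ n, |2 * y n - 1| ≤ 1 / 2 := fun n => by
      rw [c4]; linarith [(hb n).trans_le (min_le_left _ _)]
    refine ⟨fun n => Lg (2 * y n - 1), hi, fun n => ?_, fun n => ?_⟩
    · have := Lg_up (c5 n)
      rw [c4] at this
      linarith [(hb n).trans_le (min_le_right _ _)]
    · simp only [c2]
      rw [show Lg (2 * y (n + k) - 1) - β * (2 * y n - 1) - Lg (2 * y (n + k) - 1)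
        + β / 2 * Lg (2 * y n - 1) = β / 2 * (Lg (2 * y n - 1) - 2 * (2 * y n - 1)) by ring,
        abs_mul, abs_of_pos b0]
      have u1 := Lg_cube (c5 n)
      have u2 : (2 * |2 * y n - 1|) ^ 3 ≤ |Lg (2 * y n - 1)| ^ 3 := by gcongr; exact c3 n
      nlinarith
  obtain ⟨z1, p1, p2, p3⟩ := one (fun i => (a i).re) fun i h =>
    (Complex.abs_re_le_norm _).trans_lt (ha i h)
  obtain ⟨z2, q1, q2, q3⟩ := one (fun i => (a i).im) fun i h =>
    (Complex.abs_im_le_norm _).trans_lt (ha i h)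
  obtain ⟨n, hn⟩ := hZ (fun n => ⟨z1 n, z2 n⟩) (fun i h => by rw [p1 i h, q1 i h]) fun n => by
    refine (Complex.norm_le_abs_re_add_abs_im _).trans ?_
    simp only [Complex.add_re, Complex.sub_re, Complex.re_ofReal_mul, Complex.add_im,
      Complex.sub_im, Complex.im_ofReal_mul]
    have u1 : |z1 n| ^ 3 ≤ ‖(⟨z1 n, z2 n⟩ : ℂ)‖ ^ 3 := by
      gcongr; exact Complex.abs_re_le_norm ⟨z1 n, z2 n⟩
    have u2 : |z2 n| ^ 3 ≤ ‖(⟨z1 n, z2 n⟩ : ℂ)‖ ^ 3 := by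
      gcongr; exact Complex.abs_im_le_norm ⟨z1 n, z2 n⟩
    nlinarith [p3 n, q3 n]
  have := Complex.norm_le_abs_re_add_abs_im (⟨z1 n, z2 n⟩ : ℂ)
  linarith [p2 n, q2 n]

end Pool.Agent.H90.Geno
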