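import Mathlib

set_option autoImplicit false

namespace Pool.Agent.H90.Glue

open Set Filter Topology MeasureTheory

noncomputable def bb : ContDiffBump (0 : ℝ) := ⟨1, 2, one_pos, one_lt_two⟩

lemma bb_one {t : ℝ} (h : |t| ≤ 1) : bb t = 1 :=
  bb.one_of_mem_closedBall (by simpa [bb] using h)

lemma bb_zero {t : ℝ} (h : 2 ≤ |t|) : bb t = 0 :=
  bb.zero_of_le_dist (by simpa [bb] using h)

lemma bb_dzero {t : ℝ} (h : 2 ≤ |t|) : deriv bb t = 0 := by
  apply IsLocalMin.deriv_eq_zero
  exact Eventually.of_forall (fun y => by rw [bb_zero h]; exact bb.nonneg)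

lemma bb_diff (t : ℝ) : HasDerivAt bb (deriv bb t) t :=
  ((bb.contDiff (n := 1)).differentiable one_ne_zero t).hasDerivAt

lemma bb_dbound : ∃ C, 0 ≤ C ∧ ∀ t, |deriv bb t| ≤ C := by
  obtain ⟨C, hC⟩ := ((bb.contDiff (n := 1)).continuous_deriv le_rfl).bounded_above_of_compact_support
    bb.hasCompactSupport.deriv
  exact ⟨C, (norm_nonneg _).trans (hC 0), hC⟩

noncomputable def HH (t : ℝ) : ℝ := ∫ u in (0 : ℝ)..t, bb u

lemma HH_diff (t : ℝ) : HasDerivAt HH (bb t) t :=
  (bb.continuous.integral_hasStrictDerivAt 0 t).hasDerivAt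

lemma HH_id {t : ℝ} (h0 : 0 ≤ t) (h1 : t ≤ 1) : HH t = t := by
  unfold HH
  rw [intervalIntegral.integral_congr (g := fun _ => (1 : ℝ))]
  · simp
  · intro u hu
    rw [uIcc_of_le h0] at hu
    exact bb_one (abs_le.2 ⟨by linarith [hu.1], by linarith [hu.2]⟩)

lemma HH_bound : ∃ B, 0 ≤ B ∧ ∀ t, |HH t| ≤ B := by
  have hi : Integrable (fun u => ‖bb u‖) volume :=
    (bb.continuous.integrable_of_hasCompactSupport bb.hasCompactSupport).norm
  refine ⟨∫ u, ‖bb u‖, integral_nonneg (fun _ => norm_nonneg _), fun t => ?_⟩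
  refine (intervalIntegral.norm_integral_le_integral_norm_uIoc (f := fun u => bb u) (a := 0)
    (b := t) (μ := volume)).trans ?_
  exact setIntegral_le_integral hi (Eventually.of_forall (fun _ => norm_nonneg _))

noncomputable def cc (k : ℕ) : ℝ := (1 / 2) ^ k

lemma cc_pos (k : ℕ) : 0 < cc k := by unfold cc; positivity

lemma cc_le_one (k : ℕ) : cc k ≤ 1 := pow_le_one₀ (by norm_num) (by norm_num)

lemma cc_succ (k : ℕ) : cc (k + 1) = cc k / 2 := by unfold cc; rw [pow_succ]; ring

lemma cc_lt {j k : ℕ} (h : k < j) : cc j ≤ cc k / 2 := by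
  rw [← cc_succ]
  exact pow_le_pow_of_le_one (by norm_num) (by norm_num) h

lemma near_iff {k : ℕ} {x : ℝ} (h : |8 * (x / cc k - 1)| < 2) :
    3 / 4 * cc k < x ∧ x < 5 / 4 * cc k := by
  have hc := cc_pos k
  obtain ⟨h1, h2⟩ := abs_lt.1 h
  have h3 : 3 / 4 < x / cc k := by linarith
  have h4 : x / cc k < 5 / 4 := by linarith
  exact ⟨(lt_div_iff₀ hc).1 h3, (div_lt_iff₀ hc).1 h4⟩

lemma single (x : ℝ) : ∃ k0, ∀ j, j ≠ k0 → 2 ≤ |8 * (x / cc j - 1)| := by
  by_cases h : ∃ k, |8 * (x / cc k - 1)| < 2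
  · obtain ⟨k, hk⟩ := h
    refine ⟨k, fun j hj => ?_⟩
    by_contra h2
    push Not at h2
    have a1 := near_iff hk
    have a2 := near_iff h2
    have := cc_pos j
    have := cc_pos k
    rcases lt_or_gt_of_ne hj with h3 | h3
    · have := cc_lt h3; linarith [a1.2, a2.1]
    · have := cc_lt h3; linarith [a1.1, a2.2]
  · push Not at h
    exact ⟨0, fun j _ => h j⟩

theorem glue : ∃ η : ℝ, 0 < η ∧ ∀ W ρ s : ℕ → ℝ, (∀ k, 0 < W k ∧ W k ≤ η * cc k ^ 2) →
    (∀ k, 0 ≤ ρ k ∧ ρ k ≤ 1 / 2) → (∀ k, 0 ≤ s k ∧ s k ≤ W k) →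
    ∃ f : ℝ → ℝ, Differentiable ℝ f ∧ LipschitzWith (3 / 4) f ∧ f 0 = 0 ∧
      ∀ k y, 0 ≤ y → y ≤ W k → f (cc k + y) = cc k / 2 + ρ k * y + s k := by
  obtain ⟨C, hC0, hC⟩ := bb_dbound
  obtain ⟨B, hB0, hB⟩ := HH_bound
  refine ⟨1 / (32 * (C + 1) * (B + 1)), by positivity, fun W ρ s hW hρ hs => ?_⟩
  set η := 1 / (32 * (C + 1) * (B + 1)) with hη
  have hη0 : 0 < η := by positivity
  have hη1 : η * (32 * (C + 1) * (B + 1)) = 1 := by rw [hη]; field_simp
  have hη2 : η ≤ 1 / 32 := by nlinarith [mul_nonneg hC0 hB0]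
  let A : ℕ → ℝ → ℝ := fun k x => (ρ k - 1 / 2) * W k * HH ((x - cc k) / W k) + s k
  let G : ℕ → ℝ → ℝ := fun k x => bb (8 * (x / cc k - 1)) * A k x
  let G' : ℕ → ℝ → ℝ := fun k x => deriv bb (8 * (x / cc k - 1)) * (8 / cc k) * A k x +
    bb (8 * (x / cc k - 1)) * ((ρ k - 1 / 2) * bb ((x - cc k) / W k))
  have hA : ∀ k x, |A k x| ≤ (B + 1) * W k := fun k x => by
    have h1 := hB ((x - cc k) / W k)
    have h2 := (hW k).1
    refine (abs_add_le _ _).trans ?_
    rw [abs_mul, abs_mul, abs_of_pos h2, abs_of_nonneg (hs k).1]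
    have h3 : |ρ k - 1 / 2| ≤ 1 := abs_le.2 ⟨by linarith [(hρ k).1], by linarith [(hρ k).2]⟩
    have h4 : |ρ k - 1 / 2| * W k * |HH ((x - cc k) / W k)| ≤ 1 * W k * B := by gcongr
    linarith [(hs k).2]
  have hG : ∀ k x, HasDerivAt (G k) (G' k x) x := fun k x => by
    have h1 : HasDerivAt (fun x => 8 * (x / cc k - 1)) (8 / cc k) x := by
      have := (((hasDerivAt_id x).div_const (cc k)).sub_const 1).const_mul 8
      simpa [div_eq_mul_inv] using this
    have h2 : HasDerivAt (fun x => (x - cc k) / W k) (1 / W k) x :=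
      ((hasDerivAt_id x).sub_const (cc k)).div_const (W k)
    have h3 := (((HH_diff _).comp x h2).const_mul ((ρ k - 1 / 2) * W k)).add_const (s k)
    have h4 := ((bb_diff _).comp x h1).mul h3
    have e : (ρ k - 1 / 2) * W k * (bb ((x - cc k) / W k) * (1 / W k)) =
        (ρ k - 1 / 2) * bb ((x - cc k) / W k) := by
      have := (hW k).1.ne'
      field_simp
    rw [e] at h4
    exact h4
  have hz : ∀ k x, 2 ≤ |8 * (x / cc k - 1)| → G k x = 0 ∧ G' k x = 0 := fun k x h => by
    simp only [G, G', bb_zero h, bb_dzero h]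
    simp
  have hG' : ∀ k x, |1 / 2 + G' k x| ≤ 3 / 4 := fun k x => by
    have hc := cc_pos k
    have h1 : |deriv bb (8 * (x / cc k - 1)) * (8 / cc k) * A k x| ≤ 1 / 4 := by
      rw [abs_mul, abs_mul, abs_of_pos (by positivity : 0 < 8 / cc k)]
      have h2 : |A k x| ≤ (B + 1) * (η * cc k) := by
        refine (hA k x).trans (mul_le_mul_of_nonneg_left ((hW k).2.trans ?_) (by positivity))
        have := cc_le_one k
        gcongr
        nlinarith
      calc _ ≤ (C + 1) * (8 / cc k) * ((B + 1) * (η * cc k)) := by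
            gcongr
            exact (hC _).trans (by linarith)
        _ = η * (32 * (C + 1) * (B + 1)) / 4 := by field_simp; ring
        _ = 1 / 4 := by rw [hη1]
    have h2 := bb.nonneg' (8 * (x / cc k - 1))
    have h3 : bb (8 * (x / cc k - 1)) ≤ 1 := bb.le_one
    have h4 := bb.nonneg' ((x - cc k) / W k)
    have h5 : bb ((x - cc k) / W k) ≤ 1 := bb.le_one
    have h6 := mul_nonneg h2 h4
    have h7 : bb (8 * (x / cc k - 1)) * bb ((x - cc k) / W k) ≤ 1 := by nlinarith
    have h8 := abs_le.1 h1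
    simp only [G']
    have h9 := hρ k
    rw [abs_le]
    constructor <;> nlinarith [h8.1, h8.2, h9.1, h9.2]
  let g : ℝ → ℝ := fun x => ∑' k, G k x
  have hg0 : ∀ x, |g x| ≤ 2 * (B + 1) * x ^ 2 := fun x => by
    obtain ⟨k, hk⟩ := single x
    have e : g x = G k x := tsum_eq_single k (fun j hj => (hz j x (hk j hj)).1)
    rw [e]
    by_cases h : 2 ≤ |8 * (x / cc k - 1)|
    · rw [(hz k x h).1, abs_zero]; positivity
    · push Not at h
      have h1 := near_iff h
      have hc := cc_pos k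
      have h2 : cc k ^ 2 ≤ 2 * x ^ 2 := by nlinarith [h1.1]
      have h3 : |bb (8 * (x / cc k - 1))| ≤ 1 := by
        rw [abs_of_nonneg bb.nonneg]; exact bb.le_one
      simp only [G]
      rw [abs_mul]
      have h4 : W k ≤ 2 * x ^ 2 := by nlinarith [(hW k).2, sq_nonneg (cc k)]
      calc _ ≤ 1 * ((B + 1) * W k) := by
            gcongr
            exact hA k x
        _ ≤ _ := by nlinarith
  have hg00 : g 0 = 0 := by simpa using hg0 0
  have hd : ∀ x, ∃ d, HasDerivAt (fun x => x / 2 + g x) d x ∧ |d| ≤ 3 / 4 := fun x => by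
    have hid : HasDerivAt (fun x : ℝ => x / 2) (1 / 2) x := (hasDerivAt_id x).div_const 2
    by_cases hx : x = 0
    · subst hx
      have h1 : HasDerivAt g 0 0 := by
        rw [hasDerivAt_iff_isLittleO_nhds_zero]
        simp only [zero_add, hg00, sub_zero, smul_zero]
        refine Asymptotics.IsBigO.trans_isLittleO (g := fun h : ℝ => h ^ 2) ?_
          (Asymptotics.isLittleO_pow_id (by norm_num))
        refine Asymptotics.IsBigO.of_bound (2 * (B + 1)) (Eventually.of_forall (fun y => ?_))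
        simpa using hg0 y
      exact ⟨_, hid.add h1, by norm_num [abs_of_pos]⟩
    · have hx0 : 0 < |x| := abs_pos.2 hx
      obtain ⟨N, hN⟩ := exists_pow_lt_of_lt_one (show 0 < |x| / 4 by positivity)
        (show (1 / 2 : ℝ) < 1 by norm_num)
      have h1 : g =ᶠ[𝓝 x] fun y => ∑ k ∈ Finset.range N, G k y := by
        have : ∀ᶠ y in 𝓝 x, |x| / 2 < |y| :=
          continuous_abs.continuousAt.eventually (lt_mem_nhds (by linarith))
        filter_upwards [this] with y hy
        apply tsum_eq_sum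
        intro k hk
        apply (hz k y _).1
        by_contra h
        push Not at h
        have h2 := near_iff h
        have h3 : cc k ≤ (1 / 2) ^ N :=
          pow_le_pow_of_le_one (by norm_num) (by norm_num) (by simpa using hk)
        have hc := cc_pos k
        rw [abs_of_pos (show 0 < y by linarith [h2.1])] at hy
        linarith [h2.2]
      have h2 : HasDerivAt g (∑ k ∈ Finset.range N, G' k x) x :=
        (HasDerivAt.fun_sum (fun k _ => hG k x)).congr_of_eventuallyEq h1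
      refine ⟨_, hid.add h2, ?_⟩
      obtain ⟨k, hk⟩ := single x
      by_cases hkN : k ∈ Finset.range N
      · rw [Finset.sum_eq_single_of_mem k hkN (fun j _ hj => (hz j x (hk j hj)).2)]
        exact hG' k x
      · rw [Finset.sum_eq_zero (fun j hj => (hz j x (hk j (fun h => hkN (h ▸ hj)))).2)]
        norm_num [abs_of_pos]
  have hdiff : Differentiable ℝ (fun x => x / 2 + g x) := fun x =>
    (hd x).choose_spec.1.differentiableAt
  refine ⟨fun x => x / 2 + g x, hdiff, ?_, by simp [hg00], fun k y hy0 hy1 => ?_⟩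
  · apply lipschitzWith_of_nnnorm_deriv_le hdiff
    intro x
    obtain ⟨d, h1, h2⟩ := hd x
    rw [h1.deriv, ← NNReal.coe_le_coe]
    simpa using h2
  · have hc := cc_pos k
    have hW0 := (hW k).1
    have h1 : |8 * ((cc k + y) / cc k - 1)| ≤ 1 := by
      have e : (cc k + y) / cc k - 1 = y / cc k := by field_simp; ring
      have h2 : y / cc k ≤ 1 / 8 := by
        rw [div_le_iff₀ hc]
        have := cc_le_one k
        nlinarith [(hW k).2]
      have h3 : 0 ≤ y / cc k := by positivity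
      rw [e, abs_le]; constructor <;> linarith
    obtain ⟨k0, hk0⟩ := single (cc k + y)
    have hk : k = k0 := by
      by_contra h
      linarith [hk0 k h]
    subst hk
    have e : g (cc k + y) = G k (cc k + y) :=
      tsum_eq_single k (fun j hj => (hz j _ (hk0 j hj)).1)
    simp only [e, G, A, bb_one h1, add_sub_cancel_left]
    rw [HH_id (by positivity) ((div_le_one hW0).2 hy1)]
    field_simp
    ring

end Pool.Agent.H90.Glue
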