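import Mathlib

set_option linter.unusedSectionVars false

open Finset

namespace Pool.Agent.H90.Gq

variable {𝕜 : Type} [RCLike 𝕜] {X : Type} [NormedAddCommGroup X] [NormedSpace 𝕜 X]

def fs (e : ℕ → X) (c : ℕ → 𝕜) (A : Finset ℕ) : X := ∑ i ∈ A, c i • e i

structure Chain (c : ℕ → 𝕜) (F : Finset ℕ) (Λ : ℕ → Finset ℕ) : Prop where
  mono : Monotone Λ
  sub : ∀ j, Λ j ⊆ F
  card : ∀ j, (Λ j).card = min j F.card
  gr : ∀ j, ∀ i ∈ Λ j, ∀ i' ∈ F, i' ∉ Λ j → ‖c i'‖ ≤ ‖c i‖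

structure Ctx (𝕜 : Type) [RCLike 𝕜] [NormedSpace 𝕜 X] (e : ℕ → X) (p : ℕ → Prop) (M C : ℝ) :
    Prop where
  M1 : 1 ≤ M
  C0 : 0 ≤ C
  he : ∀ i, ‖e i‖ ≤ M
  hc : ∀ (c : ℕ → 𝕜) F i, i ∈ F → ‖c i‖ ≤ M * ‖fs e c F‖
  ub : ∀ (c : ℕ → 𝕜) F Λ, (∀ i ∈ F, p i) → Chain c F Λ → ∀ n : ℕ,
    ‖∑ j ∈ Ioc n (2 * n), fs e c (Λ j)‖ ≤ C * n * ‖fs e c F‖

theorem fs_congr (e : ℕ → X) {c c' : ℕ → 𝕜} {A : Finset ℕ} (h : ∀ i ∈ A, c i = c' i) :
    fs e c A = fs e c' A := sum_congr rfl fun i hi => by rw [h i hi]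

theorem fs_subset (e : ℕ → X) {c : ℕ → 𝕜} {A B : Finset ℕ} (h : A ⊆ B)
    (h0 : ∀ i ∈ B, i ∉ A → c i = 0) : fs e c A = fs e c B :=
  sum_subset h fun i hi hn => by rw [h0 i hi hn, zero_smul]

theorem fs_add (e : ℕ → X) (c c' : ℕ → 𝕜) (A : Finset ℕ) :
    fs e (fun i => c i + c' i) A = fs e c A + fs e c' A := by
  simp only [fs, add_smul, sum_add_distrib]

theorem fs_norm_le {e : ℕ → X} {M : ℝ} (he : ∀ i, ‖e i‖ ≤ M) (c : ℕ → 𝕜) (A : Finset ℕ) (b : ℝ)
    (h : ∀ i ∈ A, ‖c i‖ ≤ b) : ‖fs e c A‖ ≤ A.card * (b * M) := by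
  refine (norm_sum_le _ _).trans ?_
  have := sum_le_card_nsmul A (fun i => ‖c i • e i‖) (b * M) fun i hi => by
    rw [norm_smul]
    exact mul_le_mul (h i hi) (he i) (norm_nonneg _) ((norm_nonneg _).trans (h i hi))
  simpa using this

theorem chain_of_list (c : ℕ → 𝕜) (l : List ℕ) (hn : l.Nodup)
    (hp : l.Pairwise fun i j => ‖c j‖ ≤ ‖c i‖) :
    Chain c l.toFinset fun j => (l.take j).toFinset := by
  refine ⟨fun j j' h i hi => ?_, fun j i hi => ?_, fun j => ?_, fun j i hi i' hi' hn' => ?_⟩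
  · rw [List.mem_toFinset] at hi ⊢
    exact (List.take_prefix_take_left h).subset hi
  · rw [List.mem_toFinset] at hi ⊢
    exact List.mem_of_mem_take hi
  · rw [List.toFinset_card_of_nodup (hn.sublist (List.take_sublist j l)),
      List.toFinset_card_of_nodup hn, List.length_take]
  · rw [List.mem_toFinset] at hi hi' hn'
    rw [← List.take_append_drop j l] at hp hi'
    rcases List.mem_append.1 hi' with h | h
    · exact absurd h hn'
    · exact (List.pairwise_append.1 hp).2.2 i hi i' h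

theorem exists_sorted (c : ℕ → 𝕜) (A : Finset ℕ) :
    ∃ l : List ℕ, l.Nodup ∧ l.toFinset = A ∧ l.Pairwise fun i j => ‖c j‖ ≤ ‖c i‖ := by
  induction A using Finset.induction_on_max_value (fun i => ‖c i‖) with
  | empty => exact ⟨[], by simp⟩
  | insert a s ha hm ih =>
    obtain ⟨l, h1, h2, h3⟩ := ih
    refine ⟨a :: l, List.nodup_cons.2 ⟨fun h => ha (h2 ▸ List.mem_toFinset.2 h), h1⟩, by simp [h2],
      List.pairwise_cons.2 ⟨fun i hi => hm i (h2 ▸ List.mem_toFinset.2 hi), h3⟩⟩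

theorem chain3 (c : ℕ → 𝕜) (F Γ : Finset ℕ) (l2 : List ℕ) (a : ℝ) (hΓ : Γ ⊆ F) (hn : l2.Nodup)
    (h2 : ∀ i ∈ l2, i ∈ F ∧ i ∉ Γ ∧ ‖c i‖ = a) (h1 : ∀ i ∈ Γ, a ≤ ‖c i‖)
    (h3 : ∀ i ∈ F, i ∉ Γ → ‖c i‖ ≤ a) :
    ∃ Λ, Chain c F Λ ∧ ∀ t ≤ l2.length, Λ (Γ.card + t) = Γ ∪ (l2.take t).toFinset := by
  obtain ⟨l1, a1, a2, a3⟩ := exists_sorted c Γ
  obtain ⟨l3, b1, b2, b3⟩ := exists_sorted c (F \ (Γ ∪ l2.toFinset))
  have m1 : ∀ i, i ∈ l1 ↔ i ∈ Γ := fun i => by rw [← a2, List.mem_toFinset]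
  have m3 : ∀ i, i ∈ l3 ↔ i ∈ F ∧ i ∉ Γ ∧ i ∉ l2 := fun i => by
    rw [← List.mem_toFinset, b2]; simp
  have hc := chain_of_list c (l1 ++ (l2 ++ l3)) (by
    rw [List.nodup_append, List.nodup_append]
    refine ⟨a1, ⟨hn, b1, ?_⟩, ?_⟩
    · rintro i hi j hj rfl; exact ((m3 i).1 hj).2.2 hi
    · rintro i hi j hj rfl
      rcases List.mem_append.1 hj with h | h
      · exact (h2 i h).2.1 ((m1 i).1 hi)
      · exact ((m3 i).1 h).2.1 ((m1 i).1 hi)) (by
    rw [List.pairwise_append, List.pairwise_append]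
    refine ⟨a3, ⟨?_, b3, ?_⟩, ?_⟩
    · exact List.pairwise_of_forall_mem_list fun i hi j hj => by rw [(h2 i hi).2.2, (h2 j hj).2.2]
    · intro i hi j hj
      rw [(h2 i hi).2.2]; exact h3 j ((m3 j).1 hj).1 ((m3 j).1 hj).2.1
    · intro i hi j hj
      refine le_trans ?_ (h1 i ((m1 i).1 hi))
      rcases List.mem_append.1 hj with h | h
      · exact (h2 j h).2.2.le
      · exact h3 j ((m3 j).1 h).1 ((m3 j).1 h).2.1)
  have hF : (l1 ++ (l2 ++ l3)).toFinset = F := by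
    ext i
    simp only [List.mem_toFinset, List.mem_append, m1, m3]
    constructor
    · rintro (h | h | h)
      · exact hΓ h
      · exact (h2 i h).1
      · exact h.1
    · intro h; tauto
  rw [hF] at hc
  refine ⟨_, hc, fun t ht => ?_⟩
  have : Γ.card = l1.length := by rw [← a2, List.toFinset_card_of_nodup a1]
  show ((l1 ++ (l2 ++ l3)).take (Γ.card + t)).toFinset = _
  rw [this, List.take_length_add_append, List.take_append_of_le_length ht, List.toFinset_append, a2]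

theorem conv1 (v : ℕ → X) (μ : ℕ → ℝ) (β : ℝ) (A : Finset ℕ) (hμ : ∀ i ∈ A, 0 ≤ μ i ∧ μ i ≤ 1) :
    ∀ w : X, (∀ B ⊆ A, ‖w + ∑ i ∈ B, v i‖ ≤ β) → ‖w + ∑ i ∈ A, (μ i : 𝕜) • v i‖ ≤ β := by
  induction A using Finset.induction_on with
  | empty => intro w h; simpa using h ∅ (Subset.refl _)
  | insert a s ha ih =>
    intro w h
    have ih := ih fun i hi => hμ i (mem_insert_of_mem hi)
    have h1 := ih w fun B hB => h B (hB.trans (subset_insert _ _))
    have h2 := ih (w + v a) fun B hB => by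
      have := h (insert a B) (insert_subset_insert _ hB)
      rwa [sum_insert (fun hh => ha (hB hh)), ← add_assoc] at this
    obtain ⟨m0, m1⟩ := hμ a (mem_insert_self _ _)
    rw [sum_insert ha]
    set r := ∑ i ∈ s, (μ i : 𝕜) • v i
    have : w + ((μ a : 𝕜) • v a + r) = ((1 - μ a : ℝ) : 𝕜) • (w + r) + (μ a : 𝕜) • (w + v a + r) := by
      push_cast; module
    rw [this]
    refine (norm_add_le _ _).trans ?_
    rw [norm_smul, norm_smul, RCLike.norm_ofReal, RCLike.norm_ofReal, abs_of_nonneg m0,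
      abs_of_nonneg (by linarith)]
    nlinarith

theorem conv (e : ℕ → X) (s : ℕ → 𝕜) (μ : ℕ → ℝ) (β κ : ℝ) (hκ : 0 < κ) (A : Finset ℕ)
    (hμ : ∀ i ∈ A, 0 ≤ μ i ∧ μ i ≤ κ) (h : ∀ B ⊆ A, ‖fs e s B‖ ≤ β) :
    ‖fs e (fun i => (μ i : 𝕜) * s i) A‖ ≤ κ * β := by
  have h1 := conv1 (𝕜 := 𝕜) (fun i => s i • e i) (fun i => μ i / κ) β A (fun i hi =>
    ⟨div_nonneg (hμ i hi).1 hκ.le, (div_le_one hκ).2 (hμ i hi).2⟩) 0 (by simpa [fs] using h)
  rw [zero_add] at h1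
  have : fs e (fun i => (μ i : 𝕜) * s i) A = (κ : 𝕜) • ∑ i ∈ A, ((μ i / κ : ℝ) : 𝕜) • s i • e i := by
    rw [fs, smul_sum]
    refine sum_congr rfl fun i _ => ?_
    have : (κ : 𝕜) ≠ 0 := by exact_mod_cast hκ.ne'
    rw [smul_smul, smul_smul]
    congr 1
    push_cast; field_simp
  rw [this, norm_smul, RCLike.norm_ofReal, abs_of_pos hκ]
  exact mul_le_mul_of_nonneg_left h1 hκ.le

open Classical in
noncomputable def sg (z : 𝕜) : 𝕜 := if z = 0 then 1 else z / (‖z‖ : 𝕜)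

theorem norm_sg (z : 𝕜) : ‖sg z‖ = 1 := by
  unfold sg; split_ifs with h
  · simp
  · rw [norm_div, RCLike.norm_ofReal, abs_norm, div_self (norm_ne_zero_iff.2 h)]

theorem mul_sg (z : 𝕜) : (‖z‖ : 𝕜) * sg z = z := by
  unfold sg; split_ifs with h
  · simp [h]
  · have : (‖z‖ : 𝕜) ≠ 0 := by exact_mod_cast norm_ne_zero_iff.2 h
    field_simp

theorem norm_mul_sg (b : ℝ) (hb : 0 ≤ b) (z : 𝕜) : ‖(b : 𝕜) * sg z‖ = b := by
  rw [norm_mul, norm_sg, RCLike.norm_ofReal, abs_of_nonneg hb, mul_one]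

theorem sum_Ioc_shift (f : ℕ → X) (n k : ℕ) :
    ∑ j ∈ Ioc n (n + k), f j = ∑ t ∈ range k, f (n + (t + 1)) := by
  induction k with
  | zero => simp
  | succ k ih => rw [← add_assoc, sum_Ioc_succ_top (by omega), ih, sum_range_succ]; rfl

theorem take_rev (e : ℕ → X) (c : ℕ → 𝕜) (l : List ℕ) (hn : l.Nodup) :
    ∑ t ∈ range l.length, fs e c (l.take (t + 1)).toFinset +
      ∑ t ∈ range l.length, fs e c (l.reverse.take (t + 1)).toFinset =
      ((l.length + 1 : ℕ) : 𝕜) • fs e c l.toFinset := by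
  have h1 : ∀ t, fs e c (l.take t).toFinset + fs e c (l.drop t).toFinset = fs e c l.toFinset := by
    intro t
    conv_rhs => rw [← List.take_append_drop t l, List.toFinset_append]
    rw [fs, fs, fs, sum_union]
    rw [List.disjoint_toFinset_iff_disjoint]
    exact List.disjoint_take_drop hn le_rfl
  have h2 : ∑ t ∈ range l.length, fs e c (l.reverse.take (t + 1)).toFinset =
      ∑ t ∈ range l.length, fs e c (l.drop t).toFinset := by
    rw [← sum_range_reflect (fun t => fs e c (l.drop t).toFinset)]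
    refine sum_congr rfl fun t _ => ?_
    rw [List.take_reverse, List.toFinset_reverse]
    congr 3; omega
  have h3 : ∑ t ∈ range l.length, fs e c (l.take (t + 1)).toFinset =
      ∑ t ∈ range l.length, fs e c (l.take t).toFinset + fs e c l.toFinset := by
    have := sum_range_succ' (fun t => fs e c (l.take t).toFinset) l.length
    rw [sum_range_succ, List.take_length] at this
    rw [this]; simp [fs]
  rw [h2, h3, add_right_comm, ← sum_add_distrib]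
  simp only [h1, sum_const, card_range]
  rw [Nat.cast_smul_eq_nsmul, succ_nsmul]

variable {e : ℕ → X} {p : ℕ → Prop} {M C : ℝ}

theorem Ctx.half (h : Ctx 𝕜 e p M C) (c : ℕ → 𝕜) (F A1 A2 : Finset ℕ) (b : ℝ) (hp : ∀ i ∈ F, p i)
    (s1 : A1 ⊆ F) (s2 : A2 ⊆ F) (hd : Disjoint A1 A2) (hcard : A1.card = A2.card)
    (h1 : ∀ i ∈ A1, ‖c i‖ = b) (h2 : ∀ i ∈ A2, ‖c i‖ = b) (h3 : ∀ i ∈ F, ‖c i‖ ≤ b) :
    ‖((2 * A1.card : ℕ) : 𝕜) • fs e c A1 + ((A1.card + 1 : ℕ) : 𝕜) • fs e c A2‖ ≤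
      2 * (C * A1.card * ‖fs e c F‖) := by
  have key : ∀ l : List ℕ, l.Nodup → l.toFinset = A2 →
      ‖(A1.card : 𝕜) • fs e c A1 + ∑ t ∈ range l.length, fs e c (l.take (t + 1)).toFinset‖ ≤
        C * A1.card * ‖fs e c F‖ := by
    intro l hn hl
    have hlen : l.length = A1.card := by rw [hcard, ← hl, List.toFinset_card_of_nodup hn]
    have hm : ∀ i ∈ l, i ∈ A2 := fun i hi => hl ▸ List.mem_toFinset.2 hi
    obtain ⟨Λ, hΛ, hΛ2⟩ := chain3 c F A1 l b s1 hn (fun i hi => ⟨s2 (hm i hi),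
      fun hh => disjoint_left.1 hd hh (hm i hi), h2 i (hm i hi)⟩) (fun i hi => (h1 i hi).ge)
      (fun i hi _ => h3 i hi)
    have := h.ub c F Λ hp hΛ A1.card
    rw [two_mul, sum_Ioc_shift] at this
    convert this using 2
    rw [hlen, Nat.cast_smul_eq_nsmul]
    have e1 : ∀ t ∈ range A1.card, fs e c (Λ (A1.card + (t + 1))) =
        fs e c A1 + fs e c (l.take (t + 1)).toFinset := by
      intro t ht
      rw [hΛ2 (t + 1) (by rw [hlen]; exact mem_range.1 ht), fs, sum_union]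
      · rfl
      · exact disjoint_left.2 fun i hi hi' => disjoint_left.1 hd hi
          (hm i (List.mem_of_mem_take (List.mem_toFinset.1 hi')))
    rw [sum_congr rfl e1, sum_add_distrib, sum_const, card_range]
  have k1 := key A2.toList A2.nodup_toList A2.toList_toFinset
  have k2 := key A2.toList.reverse (List.nodup_reverse.2 A2.nodup_toList)
    (by rw [List.toFinset_reverse, A2.toList_toFinset])
  have k3 := take_rev e c A2.toList A2.nodup_toList
  rw [List.length_reverse] at k2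
  rw [A2.toList_toFinset] at k3
  have hl : A2.toList.length = A1.card := by rw [length_toList, hcard]
  rw [hl] at k1 k2 k3
  rw [← k3]
  have := norm_add_le_of_le k1 k2
  rw [← two_mul] at this
  refine le_trans (le_of_eq ?_) this
  congr 1
  push_cast; module

theorem Ctx.qglc (h : Ctx 𝕜 e p M C) (c : ℕ → 𝕜) (F A : Finset ℕ) (b : ℝ) (hp : ∀ i ∈ F, p i)
    (s : A ⊆ F) (h1 : ∀ i ∈ A, ‖c i‖ = b) (h3 : ∀ i ∈ F, ‖c i‖ ≤ b) :
    ‖fs e c A‖ ≤ (2 * C + M * M) * ‖fs e c F‖ := by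
  obtain ⟨A1, s1, c1⟩ := exists_subset_card_eq (s := A) (n := A.card / 2) (by omega)
  obtain ⟨A2, s2, c2⟩ := exists_subset_card_eq (s := A \ A1) (n := A.card / 2)
    (by rw [card_sdiff_of_subset s1]; omega)
  have s2' : A2 ⊆ A := s2.trans sdiff_subset
  have hd : Disjoint A1 A2 := disjoint_left.2 fun i hi hi' => (mem_sdiff.1 (s2 hi')).2 hi
  have k1 := h.half c F A1 A2 b hp (s1.trans s) (s2'.trans s) hd (by omega)
    (fun i hi => h1 i (s1 hi)) (fun i hi => h1 i (s2' hi)) h3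
  have k2 := h.half c F A2 A1 b hp (s2'.trans s) (s1.trans s) hd.symm (by omega)
    (fun i hi => h1 i (s2' hi)) (fun i hi => h1 i (s1 hi)) h3
  rw [c1] at k1
  rw [c2] at k2
  set n := A.card / 2 with hn
  have k3 := norm_add_le_of_le k1 k2
  have e1 : ((2 * n : ℕ) : 𝕜) • fs e c A1 + ((n + 1 : ℕ) : 𝕜) • fs e c A2 +
      (((2 * n : ℕ) : 𝕜) • fs e c A2 + ((n + 1 : ℕ) : 𝕜) • fs e c A1) =
      ((3 * n + 1 : ℕ) : 𝕜) • (fs e c A1 + fs e c A2) := by push_cast; module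
  rw [e1, norm_smul, RCLike.norm_natCast] at k3
  have hx := norm_nonneg (fs e c F)
  have hC := h.C0
  have k4 : ‖fs e c A1 + fs e c A2‖ ≤ 2 * C * ‖fs e c F‖ := by
    have hn0 : (0 : ℝ) ≤ n := Nat.cast_nonneg n
    have : 0 ≤ C * ‖fs e c F‖ := by positivity
    push_cast at k3
    by_contra hh
    push Not at hh
    nlinarith
  have su : A1 ∪ A2 ⊆ A := union_subset s1 s2'
  have e2 : fs e c A = fs e c (A \ (A1 ∪ A2)) + (fs e c A1 + fs e c A2) := by
    rw [fs, ← sum_sdiff su, sum_union hd]; rfl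
  have k5 := fs_norm_le h.he c (A \ (A1 ∪ A2)) (M * ‖fs e c F‖)
    fun i hi => h.hc c F i (s (mem_sdiff.1 hi).1)
  have c3 : ((A \ (A1 ∪ A2)).card : ℝ) ≤ 1 := by
    have : (A \ (A1 ∪ A2)).card ≤ 1 := by
      rw [card_sdiff_of_subset su, card_union_of_disjoint hd]; omega
    exact_mod_cast this
  have hM := h.M1
  have : 0 ≤ M * ‖fs e c F‖ * M := by positivity
  rw [e2]
  refine (norm_add_le _ _).trans ?_
  nlinarith

end Pool.Agent.H90.Gq
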