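import Pool.Agent.H90.GqA

set_option linter.unusedSectionVars false

open Finset

namespace Pool.Agent.H90.Gq

variable {𝕜 : Type} [RCLike 𝕜] {X : Type} [NormedAddCommGroup X] [NormedSpace 𝕜 X]
variable {e : ℕ → X} {p : ℕ → Prop} {M C : ℝ}

theorem Ctx.t1 (h : Ctx 𝕜 e p M C) (c : ℕ → 𝕜) (F A : Finset ℕ) (b : ℝ) (hb : 0 < b)
    (hp : ∀ i ∈ F, p i) (s : A ⊆ F) (h3 : ∀ i ∈ F, ‖c i‖ ≤ b)
    (h1 : ∀ i ∈ A, (1 - 1 / (2 * (2 * C + M * M))) * b ≤ ‖c i‖) (μ : ℕ → ℝ)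
    (hμ : ∀ i ∈ A, 0 ≤ μ i ∧ μ i ≤ 1) :
    ‖fs e (fun i => (μ i : 𝕜) * c i) A‖ ≤ 2 * (2 * C + M * M) * ‖fs e c F‖ := by
  have hM := h.M1
  have hC := h.C0
  set C1 := 2 * C + M * M with hC1
  have hC11 : 1 ≤ C1 := by nlinarith
  set σ : ℕ → 𝕜 := fun i => (b : 𝕜) * sg (c i) with hσ
  have hbk : (b : 𝕜) ≠ 0 := by exact_mod_cast hb.ne'
  have hcσ : ∀ i, c i = ((‖c i‖ / b : ℝ) : 𝕜) * σ i := by
    intro i
    conv_lhs => rw [← mul_sg (c i)]
    simp only [hσ]; push_cast; field_simp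
  obtain ⟨B0, hB0, hmax⟩ := exists_max_image A.powerset (fun B => ‖fs e σ B‖) ⟨∅, by simp⟩
  rw [mem_powerset] at hB0
  have hmax' : ∀ B ⊆ A, ‖fs e σ B‖ ≤ ‖fs e σ B0‖ := fun B hB => hmax B (mem_powerset.2 hB)
  set β := ‖fs e σ B0‖
  have hβ : β ≤ 2 * C1 * ‖fs e c F‖ := by
    set d : ℕ → 𝕜 := fun i => if i ∈ B0 then ((1 - ‖c i‖ / b : ℝ) : 𝕜) * σ i else 0 with hd
    have hd1 : ∀ i ∈ B0, c i + d i = σ i := by
      intro i hi
      simp only [hd, if_pos hi]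
      conv_lhs => rw [hcσ i]
      rw [← hcσ i]
      conv_lhs => lhs; rw [hcσ i]
      push_cast; ring
    have q := h.qglc (fun i => c i + d i) F B0 b hp (hB0.trans s)
      (fun i hi => by rw [hd1 i hi]; exact norm_mul_sg b hb.le _) (fun i hi => by
        by_cases hi' : i ∈ B0
        · rw [hd1 i hi']; exact (norm_mul_sg b hb.le _).le
        · simp only [hd, if_neg hi', add_zero]; exact h3 i hi)
    have hdF : fs e d F = fs e (fun i => ((1 - ‖c i‖ / b : ℝ) : 𝕜) * σ i) B0 :=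
      (fs_subset e (c := d) (hB0.trans s) (fun i _ hi => if_neg hi)).symm.trans
        (fs_congr e fun i hi => if_pos hi)
    rw [fs_congr e hd1, fs_add, hdF] at q
    have r := conv e σ (fun i => 1 - ‖c i‖ / b) β (1 / (2 * C1)) (by positivity) B0 (fun i hi => by
      have a1 := h1 i (hB0 hi)
      have a2 := h3 i (s (hB0 hi))
      rw [← le_div_iff₀ hb] at a1
      rw [← div_le_one hb] at a2
      constructor <;> linarith) (fun B hB => hmax' B (hB.trans hB0))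
    have q2 := q.trans (mul_le_mul_of_nonneg_left (norm_add_le_of_le le_rfl r) (by linarith))
    have : C1 * (‖fs e c F‖ + 1 / (2 * C1) * β) = C1 * ‖fs e c F‖ + β / 2 := by field_simp
    rw [this] at q2
    linarith
  have r := conv e σ (fun i => μ i * (‖c i‖ / b)) β 1 one_pos A (fun i hi => by
    have a2 := h3 i (s hi)
    rw [← div_le_one hb] at a2
    have a3 : 0 ≤ ‖c i‖ / b := by positivity
    obtain ⟨m0, m1⟩ := hμ i hi
    constructor <;> nlinarith) hmax'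
  rw [fs_congr e (c' := fun i => ((μ i * (‖c i‖ / b) : ℝ) : 𝕜) * σ i) (fun i _ => by
    conv_lhs => rw [hcσ i]
    push_cast; ring)]
  linarith

theorem Ctx.tk (h : Ctx 𝕜 e p M C) (k : ℕ) : ∃ D, 0 ≤ D ∧ ∀ (c : ℕ → 𝕜) (F A : Finset ℕ) (b : ℝ),
    0 < b → (∀ i ∈ F, p i) → A ⊆ F → (∀ i ∈ F, ‖c i‖ ≤ b) →
    (∀ i ∈ A, (1 - 1 / (2 * (2 * C + M * M))) ^ (k + 1) * b ≤ ‖c i‖) → ∀ μ : ℕ → ℝ,
    (∀ i ∈ A, 0 ≤ μ i ∧ μ i ≤ 1) → ‖fs e (fun i => (μ i : 𝕜) * c i) A‖ ≤ D * ‖fs e c F‖ := by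
  have hM := h.M1
  have hC := h.C0
  have hC11 : 1 ≤ 2 * C + M * M := by nlinarith
  induction k with
  | zero =>
    refine ⟨2 * (2 * C + M * M), by positivity, fun c F A b hb hp s h3 h1 μ hμ =>
      h.t1 c F A b hb hp s h3 (by simpa using h1) μ hμ⟩
  | succ k ih =>
    obtain ⟨D, hD, ih⟩ := ih
    set D1 := 2 * (2 * C + M * M) with hD1
    set ρ := 1 - 1 / D1 with hρ
    have hρ0 : 0 < ρ := by
      have : 1 / D1 ≤ 1 / 2 := by gcongr; linarith
      linarith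
    refine ⟨D1 + D * (1 + D1), by positivity, fun c F A b hb hp s h3 h1 μ hμ => ?_⟩
    set T := F.filter fun i => ρ * b ≤ ‖c i‖ with hT
    have sT : T ⊆ F := filter_subset _ _
    have a1 := h.t1 c F T b hb hp sT h3 (fun i hi => (mem_filter.1 hi).2) (fun _ => 1) (by simp)
    simp only [RCLike.ofReal_one, one_mul] at a1
    have a2 := h.t1 c F (A ∩ T) b hb hp (inter_subset_left.trans s) h3
      (fun i hi => (mem_filter.1 (mem_inter.1 hi).2).2) μ (fun i hi => hμ i (mem_inter.1 hi).1)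
    have a3 := ih c (F \ T) (A \ T) (ρ * b) (by positivity) (fun i hi => hp i (mem_sdiff.1 hi).1)
      (sdiff_subset_sdiff s (Subset.refl _)) (fun i hi => by
        obtain ⟨i1, i2⟩ := mem_sdiff.1 hi
        by_contra hh
        exact i2 (mem_filter.2 ⟨i1, (not_le.1 hh).le⟩)) (fun i hi => by
        have := h1 i (mem_sdiff.1 hi).1
        rwa [pow_succ, mul_assoc] at this) μ (fun i hi => hμ i (mem_sdiff.1 hi).1)
    have e1 : fs e c (F \ T) = fs e c F - fs e c T := by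
      rw [eq_sub_iff_add_eq]; exact sum_sdiff sT
    have e2 : fs e (fun i => (μ i : 𝕜) * c i) A = fs e (fun i => (μ i : 𝕜) * c i) (A ∩ T) +
        fs e (fun i => (μ i : 𝕜) * c i) (A \ T) := (sum_inter_add_sum_sdiff A T _).symm
    have a4 : ‖fs e c (F \ T)‖ ≤ (1 + D1) * ‖fs e c F‖ := by
      rw [e1]; refine (norm_sub_le _ _).trans ?_; linarith
    rw [e2]
    refine (norm_add_le_of_le a2 (a3.trans (mul_le_mul_of_nonneg_left a4 hD))).trans (le_of_eq ?_)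
    ring

theorem tq (e : ℕ → X) (c : ℕ → 𝕜) (F L : Finset ℕ) (H b : ℝ) (hb : 0 < b) (sL : L ⊆ F)
    (hH : ∀ Γ ⊆ F, (∀ i ∈ Γ, ∀ j ∈ F, j ∉ Γ → ‖c j‖ ≤ ‖c i‖) → ‖fs e c Γ‖ ≤ H)
    (hL : ∀ i ∈ L, ∀ j ∈ F, j ∉ L → ‖c j‖ ≤ ‖c i‖) (hbL : ∀ i ∈ L, b ≤ ‖c i‖) :
    ‖fs e (fun i => (b : 𝕜) * sg (c i)) L‖ ≤ 2 * H := by
  have key : ∀ T : Finset ℕ, T ⊆ L → (∀ i ∈ L, i ∉ T → ∀ j ∈ T, ‖c j‖ ≤ ‖c i‖) → ∀ β : ℝ,
      (∀ j ∈ T, β ≤ b / ‖c j‖) → β ≤ 1 →
      ‖fs e (fun i => ((b / ‖c i‖ - β : ℝ) : 𝕜) * c i) T‖ ≤ (1 - β) * (2 * H) := by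
    intro T
    induction T using Finset.induction_on_max_value (fun i => ‖c i‖) with
    | empty =>
      intro _ _ β _ h1
      have := (norm_nonneg _).trans (hH ∅ (empty_subset _) (by simp))
      simp only [fs, sum_empty, norm_zero]
      exact mul_nonneg (by linarith) (by linarith)
    | insert a s ha hm ih =>
      intro sT hT β hβ h1
      have hpos : ∀ i ∈ insert a s, 0 < ‖c i‖ := fun i hi => hb.trans_le (hbL i (sT hi))
      have la : b / ‖c a‖ ≤ 1 := (div_le_one (hpos a (mem_insert_self _ _))).2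
        (hbL a (sT (mem_insert_self _ _)))
      have ih := ih ((subset_insert _ _).trans sT) (fun i hi hn j hj => by
        by_cases hia : i = a
        · subst hia; exact hm j hj
        · exact hT i hi (by simp [hia, hn]) j (mem_insert_of_mem hj)) (b / ‖c a‖)
        (fun j hj => div_le_div_of_nonneg_left hb.le (hpos j (mem_insert_of_mem hj)) (hm j hj)) la
      have n1 : ‖fs e c (insert a s)‖ ≤ 2 * H := by
        have : fs e c (insert a s) = fs e c L - fs e c (L \ insert a s) := by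
          rw [eq_sub_iff_add_eq, add_comm]; exact sum_sdiff sT
        rw [this, two_mul]
        refine (norm_sub_le _ _).trans (add_le_add (hH L sL hL) (hH _ (sdiff_subset.trans sL) ?_))
        intro i hi j hj hn
        obtain ⟨i1, i2⟩ := mem_sdiff.1 hi
        by_cases hjL : j ∈ L
        · exact hT i i1 i2 j (by by_contra hh; exact hn (mem_sdiff.2 ⟨hjL, hh⟩))
        · exact hL i i1 j hj hjL
      have e1 : fs e (fun i => ((b / ‖c i‖ - β : ℝ) : 𝕜) * c i) (insert a s) =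
          ((b / ‖c a‖ - β : ℝ) : 𝕜) • fs e c (insert a s) +
            fs e (fun i => ((b / ‖c i‖ - b / ‖c a‖ : ℝ) : 𝕜) * c i) s := by
        simp only [fs, sum_insert ha, smul_add, smul_sum, smul_smul, add_assoc, ← sum_add_distrib,
          ← add_smul]
        congr 1
        refine sum_congr rfl fun i _ => ?_
        congr 1; push_cast; ring
      have b1 := hβ a (mem_insert_self _ _)
      rw [e1]
      refine (norm_add_le _ _).trans ?_
      rw [norm_smul, RCLike.norm_ofReal, abs_of_nonneg (by linarith)]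
      have := mul_le_mul_of_nonneg_left n1 (show 0 ≤ b / ‖c a‖ - β by linarith)
      linarith
  have := key L (Subset.refl _) (fun i hi hn => absurd hi hn) 0 (fun j _ => by positivity) zero_le_one
  rw [fs_congr e (c' := fun i => ((b / ‖c i‖ - 0 : ℝ) : 𝕜) * c i)]
  · linarith
  · intro i hi
    have : (‖c i‖ : 𝕜) ≠ 0 := by exact_mod_cast (hb.trans_le (hbL i hi)).ne'
    conv_rhs => rhs; rw [← mul_sg (c i)]
    push_cast; field_simp; ring

theorem Ctx.wts (h : Ctx 𝕜 e p M C) (c : ℕ → 𝕜) (F : Finset ℕ) (Λ : ℕ → Finset ℕ)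
    (hp : ∀ i ∈ F, p i) (hΛ : Chain c F Λ) (n : ℕ) (hn : 0 < n) :
    ∃ w : ℕ → ℝ, (∀ i, 0 ≤ w i ∧ w i ≤ 1) ∧ (∀ i ∈ Λ n, w i = 1) ∧ (∀ i, i ∉ Λ (2 * n) → w i = 0) ∧
      ‖fs e (fun i => (w i : 𝕜) * c i) F‖ ≤ C * ‖fs e c F‖ := by
  have hn' : (0 : ℝ) < n := by exact_mod_cast hn
  have hcard : (Ioc n (2 * n)).card = n := by rw [Nat.card_Ioc]; omega
  refine ⟨fun i => (((Ioc n (2 * n)).filter fun j => i ∈ Λ j).card : ℝ) / n, fun i => ⟨by positivity, ?_⟩,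
    fun i hi => ?_, fun i hi => ?_, ?_⟩
  · rw [div_le_one hn']
    exact_mod_cast (card_filter_le _ _).trans hcard.le
  · beta_reduce
    rw [filter_true_of_mem fun j hj => hΛ.mono (mem_Ioc.1 hj).1.le hi, hcard, div_self hn'.ne']
  · beta_reduce
    rw [filter_false_of_mem fun j hj hh => hi (hΛ.mono (mem_Ioc.1 hj).2 hh)]; simp
  · have u := h.ub c F Λ hp hΛ n
    have e1 : ∑ j ∈ Ioc n (2 * n), fs e c (Λ j) = (n : 𝕜) • fs e (fun i =>
        (((((Ioc n (2 * n)).filter fun j => i ∈ Λ j).card : ℝ) / n : ℝ) : 𝕜) * c i) F := by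
      have : ∀ j, fs e c (Λ j) = ∑ i ∈ F, if i ∈ Λ j then c i • e i else 0 := by
        intro j
        rw [← sum_filter, filter_mem_eq_inter, inter_eq_right.2 (hΛ.sub j)]; rfl
      simp only [this]
      rw [sum_comm, fs, smul_sum]
      refine sum_congr rfl fun i _ => ?_
      rw [← sum_filter, sum_const, smul_smul, ← Nat.cast_smul_eq_nsmul 𝕜, smul_smul]
      have : (n : 𝕜) ≠ 0 := by exact_mod_cast hn.ne'
      congr 1; push_cast; field_simp
    rw [e1, norm_smul, RCLike.norm_natCast, mul_comm C, mul_assoc] at u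
    exact le_of_mul_le_mul_left u hn'

theorem Ctx.pad (h : Ctx 𝕜 e p M C) (z : ℕ → 𝕜) (F Γ A : Finset ℕ) (a β : ℝ) (hp : ∀ i ∈ F, p i)
    (sΓ : Γ ⊆ F) (h2 : ∀ i ∈ A, i ∈ F ∧ i ∉ Γ ∧ ‖z i‖ = a) (h1 : ∀ i ∈ Γ, a ≤ ‖z i‖)
    (h3 : ∀ i ∈ F, i ∉ Γ → ‖z i‖ ≤ a) (P : ℕ) (cA : A.card = 2 * 2 ^ P) (cΓ : Γ.card < 32 * 2 ^ P)
    (hβ : ∀ B ⊆ A, ‖fs e z B‖ ≤ β) :
    ‖fs e z Γ‖ ≤ (65 * C + 33 * (M * M)) * ‖fs e z F‖ + β := by
  have hM := h.M1
  have hC := h.C0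
  obtain ⟨Λ, hΛ, hΛ2⟩ := chain3 z F Γ A.toList a sΓ A.nodup_toList
    (fun i hi => h2 i (mem_toList.1 hi)) h1 h3
  set y := ‖fs e z F‖
  have hy : 0 ≤ y := norm_nonneg _
  have hq : 0 < 2 ^ P := by positivity
  set u := Γ.card / 2 ^ P + 1 with hu
  have hu32 : u ≤ 32 := by
    have : Γ.card / 2 ^ P < 32 := (Nat.div_lt_iff_lt_mul hq).2 cΓ
    omega
  have S : ∀ a b : ℕ, a ≤ b → ∑ j ∈ Ioc a b, fs e z (Λ j) =
      ∑ j ∈ Ioc 0 b, fs e z (Λ j) - ∑ j ∈ Ioc 0 a, fs e z (Λ j) := by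
    intro a b hab
    rw [eq_sub_iff_add_eq, add_comm, sum_Ioc_consecutive _ (Nat.zero_le a) hab]
  have E : ∀ r : ℕ, ‖∑ j ∈ Ioc (2 ^ r * u) (2 ^ r * (u + 1)), fs e z (Λ j)‖ ≤
      2 ^ r * (65 * C * y) + 33 * (M * M) * y := by
    intro r
    induction r with
    | zero =>
      simp only [pow_zero, one_mul, Nat.Ioc_succ_singleton, sum_singleton]
      have := fs_norm_le h.he z (Λ (u + 1)) (M * y) fun i hi => h.hc z F i (hΛ.sub _ hi)
      have c1 : ((Λ (u + 1)).card : ℝ) ≤ 33 := by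
        have : (Λ (u + 1)).card ≤ 33 := by rw [hΛ.card]; omega
        exact_mod_cast this
      have : 0 ≤ M * y * M := by positivity
      have : 0 ≤ C * y := by positivity
      nlinarith
    | succ r ih =>
      have u1 := h.ub z F Λ hp hΛ (2 ^ r * u)
      have u2 := h.ub z F Λ hp hΛ (2 ^ r * (u + 1))
      have e1 : ∑ j ∈ Ioc (2 ^ (r + 1) * u) (2 ^ (r + 1) * (u + 1)), fs e z (Λ j) =
          ∑ j ∈ Ioc (2 ^ r * (u + 1)) (2 * (2 ^ r * (u + 1))), fs e z (Λ j) -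
          ∑ j ∈ Ioc (2 ^ r * u) (2 * (2 ^ r * u)), fs e z (Λ j) +
          ∑ j ∈ Ioc (2 ^ r * u) (2 ^ r * (u + 1)), fs e z (Λ j) := by
        rw [S _ _ (Nat.mul_le_mul_left _ (Nat.le_succ u)), S (2 ^ r * (u + 1)) _ (by omega),
          S (2 ^ r * u) (2 * _) (by omega), S (2 ^ r * u) _ (Nat.mul_le_mul_left _ (Nat.le_succ u)),
          pow_succ', mul_assoc, mul_assoc]
        abel
      rw [e1]
      refine (norm_add_le_of_le (norm_sub_le_of_le u2 u1) ih).trans ?_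
      have : (u : ℝ) ≤ 32 := by exact_mod_cast hu32
      have t : (0 : ℝ) ≤ 2 ^ r * (C * y) := by positivity
      push_cast
      rw [pow_succ]
      nlinarith
  have E1 := E P
  have hcard : (Ioc (2 ^ P * u) (2 ^ P * (u + 1))).card = 2 ^ P := by
    rw [Nat.card_Ioc, mul_add, mul_one]; omega
  have hd : ∀ j ∈ Ioc (2 ^ P * u) (2 ^ P * (u + 1)), ‖fs e z Γ - fs e z (Λ j)‖ ≤ β := by
    intro j hj
    obtain ⟨j1, j2⟩ := mem_Ioc.1 hj
    have d1 := Nat.div_add_mod Γ.card (2 ^ P)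
    have d2 := Nat.mod_lt Γ.card hq
    rw [hu, mul_add, mul_one] at j1
    rw [hu, mul_add, mul_add, mul_one] at j2
    obtain ⟨t, rfl⟩ : ∃ t, j = Γ.card + t := ⟨j - Γ.card, by omega⟩
    have sB : (A.toList.take t).toFinset ⊆ A := fun i hi =>
      mem_toList.1 (List.mem_of_mem_take (List.mem_toFinset.1 hi))
    rw [hΛ2 t (by rw [length_toList]; omega), fs, fs, sum_union
      (disjoint_left.2 fun i hi hi' => (h2 i (sB hi')).2.1 hi), sub_add_cancel_left, norm_neg]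
    exact hβ _ sB
  have e2 : ((2 ^ P : ℕ) : 𝕜) • fs e z Γ = ∑ j ∈ Ioc (2 ^ P * u) (2 ^ P * (u + 1)),
      (fs e z Γ - fs e z (Λ j)) + ∑ j ∈ Ioc (2 ^ P * u) (2 ^ P * (u + 1)), fs e z (Λ j) := by
    rw [← sum_add_distrib]
    simp only [sub_add_cancel, sum_const, hcard, Nat.cast_smul_eq_nsmul]
  have n1 := (norm_sum_le _ _).trans (sum_le_card_nsmul _ _ β hd)
  rw [hcard, nsmul_eq_mul] at n1
  have n2 := norm_add_le_of_le n1 E1
  rw [← e2, norm_smul, RCLike.norm_natCast] at n2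
  push_cast at n2
  have q1 : (1 : ℝ) ≤ 2 ^ P := one_le_pow₀ one_le_two
  have : 0 ≤ 33 * (M * M) * y := by positivity
  have n3 : (2 : ℝ) ^ P * ‖fs e z Γ‖ ≤ 2 ^ P * ((65 * C + 33 * (M * M)) * y + β) := by nlinarith
  exact le_of_mul_le_mul_left n3 (by positivity)

end Pool.Agent.H90.Gq
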