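import Pool.Agent.H90.GqB

set_option linter.unusedSectionVars false

open Finset

namespace Pool.Agent.H90.Gq

variable {𝕜 : Type} [RCLike 𝕜] {X : Type} [NormedAddCommGroup X] [NormedSpace 𝕜 X]
variable {e : ℕ → X} {p : ℕ → Prop} {M C : ℝ}

theorem fs_split (e : ℕ → X) (c : ℕ → 𝕜) (w : ℕ → ℝ) (A : Finset ℕ) :
    fs e c A = fs e (fun i => (w i : 𝕜) * c i) A + fs e (fun i => ((1 - w i : ℝ) : 𝕜) * c i) A := by
  rw [← fs_add]
  exact fs_congr e fun i _ => by push_cast; ring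

theorem norm_w (w : ℝ) (hw : 0 ≤ w ∧ w ≤ 1) (z : 𝕜) : ‖((1 - w : ℝ) : 𝕜) * z‖ ≤ ‖z‖ := by
  rw [norm_mul, RCLike.norm_ofReal, abs_of_nonneg (by linarith)]
  have := norm_nonneg z
  nlinarith

theorem Ctx.qg (h : Ctx 𝕜 e p M C) : ∃ K, 0 ≤ K ∧ ∀ (c : ℕ → 𝕜) (F Γ : Finset ℕ), (∀ i ∈ F, p i) →
    Γ ⊆ F → (∀ i ∈ Γ, ∀ j ∈ F, j ∉ Γ → ‖c j‖ ≤ ‖c i‖) → ‖fs e c Γ‖ ≤ K * ‖fs e c F‖ := by
  classical
  have hM := h.M1
  have hC := h.C0
  set C1 := 2 * C + M * M with hC1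
  have hC11 : 1 ≤ C1 := by nlinarith
  set C2 := 65 * C + 33 * (M * M) with hC2
  have hC20 : 0 ≤ C2 := by positivity
  set L := 4 * C1 * (2 + C2) with hL
  have hL0 : 0 < L := by positivity
  have hρ1 : 1 - 1 / (2 * C1) < 1 := by
    have : 0 < 1 / (2 * C1) := by positivity
    linarith
  have hρ0 : 0 ≤ 1 - 1 / (2 * C1) := by
    have : 1 / (2 * C1) ≤ 1 / 2 := by gcongr; linarith
    linarith
  obtain ⟨k, hk⟩ := exists_pow_lt_of_lt_one (show 0 < 1 / L by positivity) hρ1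
  obtain ⟨D, hD, hT⟩ := h.tk k
  set Cs := 16 * (M * M) + 1 + C + D * (1 + C) + C2 * (1 + C) with hCs
  refine ⟨2 * Cs, by positivity, fun c F Γ0 hp s0 g0 => ?_⟩
  obtain ⟨Γ, hΓ, hmax⟩ := exists_max_image (F.powerset.filter fun Γ =>
    ∀ i ∈ Γ, ∀ j ∈ F, j ∉ Γ → ‖c j‖ ≤ ‖c i‖) (fun Γ => ‖fs e c Γ‖) ⟨∅, by simp⟩
  obtain ⟨sΓ, gΓ⟩ := mem_filter.1 hΓ
  rw [mem_powerset] at sΓ
  have hH : ∀ Γ' ⊆ F, (∀ i ∈ Γ', ∀ j ∈ F, j ∉ Γ' → ‖c j‖ ≤ ‖c i‖) → ‖fs e c Γ'‖ ≤ ‖fs e c Γ‖ :=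
    fun Γ' h1 h2 => hmax Γ' (mem_filter.2 ⟨mem_powerset.2 h1, h2⟩)
  refine (hH Γ0 s0 g0).trans ?_
  set x := ‖fs e c F‖ with hx
  have hx0 : 0 ≤ x := norm_nonneg _
  have p1 : 0 ≤ M * M * x := by positivity
  have p2 : 0 ≤ C * x := by positivity
  have p3 : 0 ≤ D * (1 + C) * x := by positivity
  have p4 : 0 ≤ C2 * (1 + C) * x := by positivity
  have hH0 := norm_nonneg (fs e c Γ)
  suffices ‖fs e c Γ‖ ≤ Cs * x + ‖fs e c Γ‖ / 2 by linarith
  have hCsx : Cs * x = 16 * (M * M * x) + x + C * x + D * (1 + C) * x + C2 * (1 + C) * x := by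
    rw [hCs]; ring
  rw [hCsx]
  by_cases hm : Γ.card < 16
  · have := fs_norm_le h.he c Γ (M * x) fun i hi => h.hc c F i (sΓ hi)
    have c1 : (Γ.card : ℝ) ≤ 16 := by exact_mod_cast hm.le
    nlinarith
  obtain ⟨P, hP1, hP2⟩ : ∃ P : ℕ, 16 * 2 ^ P ≤ Γ.card ∧ Γ.card < 32 * 2 ^ P := by
    obtain ⟨n, h1, h2⟩ := exists_nat_pow_near (x := Γ.card / 16) (y := 2) (by omega) (by norm_num)
    rw [pow_succ] at h2
    exact ⟨n, by omega, by omega⟩
  obtain ⟨i1, hi1, hmin⟩ := exists_min_image Γ (fun i => ‖c i‖) (card_pos.1 (by omega))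
  set a := ‖c i1‖ with ha
  have hout : ∀ j ∈ F, j ∉ Γ → ‖c j‖ ≤ a := gΓ i1 hi1
  rcases (norm_nonneg (c i1)).eq_or_lt with ha0 | ha0
  · have : fs e c Γ = fs e c F := fs_subset e sΓ fun j hj hn =>
      norm_le_zero_iff.1 ((hout j hj hn).trans ha0.ge)
    have : ‖fs e c Γ‖ = x := by rw [this]
    linarith
  obtain ⟨Λ, hΛ, hΛ2⟩ := chain3 c F Γ [] a sΓ List.nodup_nil (by simp) hmin hout
  have hΛm : Λ Γ.card = Γ := by simpa using hΛ2 0 le_rfl
  have hsub : ∀ j ≤ Γ.card, Λ j ⊆ Γ := fun j hj => hΛm ▸ hΛ.mono hj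
  have hq : 0 < 2 ^ P := by positivity
  set s := 2 * 2 ^ P with hs
  by_cases hcase : ∀ i ∈ F, i ∉ Λ (2 * s) → ‖c i‖ ≤ L * a
  · obtain ⟨w, w1, w2, w3, w4⟩ := h.wts c F Λ hp hΛ (2 * s) (by omega)
    obtain ⟨v, v1, v2, v3, v4⟩ := h.wts c F Λ hp hΛ (2 * (2 * s)) (by omega)
    set c' : ℕ → 𝕜 := fun i => ((1 - w i : ℝ) : 𝕜) * c i with hc'
    have n1 : ‖fs e c' F‖ ≤ (1 + C) * x := by
      have : fs e c' F = fs e c F - fs e (fun i => (w i : 𝕜) * c i) F := by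
        rw [fs_split e c w F]; abel
      rw [this]; refine (norm_sub_le _ _).trans ?_; linarith
    have hcc : ∀ i ∈ Γ \ Λ (2 * (2 * s)), c' i = c i := fun i hi => by
      simp only [hc', w3 i (mem_sdiff.1 hi).2]; simp
    have n2 := hT c' F (Γ \ Λ (2 * (2 * s))) (L * a) (by positivity) hp (sdiff_subset.trans sΓ)
      (fun i hi => by
        by_cases hh : i ∈ Λ (2 * s)
        · simp only [hc', w2 i hh]; simp; positivity
        · exact (norm_w _ (w1 i) _).trans (hcase i hi hh)) (fun i hi => by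
        rw [hcc i hi]
        refine le_trans ?_ (hmin i (mem_sdiff.1 hi).1)
        have : (1 - 1 / (2 * C1)) ^ (k + 1) ≤ 1 / L :=
          (pow_le_pow_of_le_one hρ0 hρ1.le (Nat.le_succ k)).trans hk.le
        calc _ ≤ 1 / L * (L * a) := by gcongr
          _ = a := by field_simp) (fun i => 1 - v i) (fun i _ => by
        have := v1 i; constructor <;> linarith)
    have e1 : fs e c Γ = fs e (fun i => (v i : 𝕜) * c i) F +
        fs e (fun i => ((1 - v i : ℝ) : 𝕜) * c' i) (Γ \ Λ (2 * (2 * s))) := by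
      rw [fs_split e c v Γ]
      congr 1
      · exact fs_subset e sΓ fun i _ hn => by
          simp only [v3 i fun hh => hn (hsub _ (by omega) hh)]; simp
      · refine (fs_subset e sdiff_subset fun i hi hn => ?_).symm.trans
          (fs_congr e fun i hi => by rw [hcc i hi])
        have : i ∈ Λ (2 * (2 * s)) := by by_contra hh; exact hn (mem_sdiff.2 ⟨hi, hh⟩)
        simp only [v2 i this]; simp
    have n3 := norm_add_le_of_le v4 (n2.trans (mul_le_mul_of_nonneg_left n1 hD))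
    rw [← e1, ← mul_assoc] at n3
    linarith
  push Not at hcase
  obtain ⟨i0, hi0, hi0', hbig⟩ := hcase
  have hbig' : ∀ i ∈ Λ (2 * s), L * a ≤ ‖c i‖ := fun i hi => hbig.le.trans (hΛ.gr _ i hi i0 hi0 hi0')
  set σ : ℕ → 𝕜 := fun i => ((L * a : ℝ) : 𝕜) * sg (c i) with hσ
  have t1 := tq e c F (Λ (2 * s)) _ (L * a) (by positivity) (hΛ.sub _) hH (hΛ.gr _) hbig'
  have t2 : ∀ B ⊆ Λ (2 * s), ‖fs e σ B‖ ≤ C1 * (2 * ‖fs e c Γ‖) := fun B hB =>
    (h.qglc σ (Λ (2 * s)) B (L * a) (fun i hi => hp i (hΛ.sub _ hi)) hB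
      (fun i _ => norm_mul_sg _ (by positivity) _)
      (fun i _ => (norm_mul_sg _ (by positivity) _).le)).trans
      (mul_le_mul_of_nonneg_left t1 (by linarith))
  set τ := 1 / L * (C1 * (2 * ‖fs e c Γ‖)) with hτ
  have t3 : ∀ B ⊆ Λ (2 * s), ∀ (d : ℕ → 𝕜) (μ : ℕ → ℝ),
      (∀ i ∈ B, 0 ≤ μ i ∧ μ i ≤ a ∧ d i = (μ i : 𝕜) * sg (c i)) → ‖fs e d B‖ ≤ τ := by
    intro B hB d μ hd
    have := conv e σ (fun i => μ i / (L * a)) _ (1 / L) (by positivity) B (fun i hi => by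
      obtain ⟨m0, m1, -⟩ := hd i hi
      refine ⟨by positivity, ?_⟩
      rw [div_le_iff₀ (by positivity)]
      calc μ i ≤ a := m1
        _ = 1 / L * (L * a) := by field_simp) (fun B' hB' => t2 B' (hB'.trans hB))
    rwa [fs_congr e (c' := d) fun i hi => by
      rw [(hd i hi).2.2]
      have : ((L * a : ℝ) : 𝕜) ≠ 0 := by exact_mod_cast (by positivity : L * a ≠ 0)
      simp only [hσ]
      rw [RCLike.ofReal_div, ← mul_assoc, div_mul_cancel₀ _ this]] at this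
  obtain ⟨w, w1, w2, w3, w4⟩ := h.wts c F Λ hp hΛ s (by omega)
  set c' : ℕ → 𝕜 := fun i => ((1 - w i : ℝ) : 𝕜) * c i with hc'
  have n1 : ‖fs e c' F‖ ≤ (1 + C) * x := by
    have : fs e c' F = fs e c F - fs e (fun i => (w i : 𝕜) * c i) F := by
      rw [fs_split e c w F]; abel
    rw [this]; refine (norm_sub_le _ _).trans ?_; linarith
  set A := Λ s with hA
  have sA : A ⊆ Λ (2 * s) := hΛ.mono (by omega)
  have sA2 : Λ (2 * s) ⊆ Γ := hsub _ (by omega)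
  have cA : A.card = s := by
    have := card_le_card sΓ
    rw [hA, hΛ.card]; omega
  have c0 : ∀ i ∈ A, c' i = 0 := fun i hi => by simp only [hc', w2 i hi]; simp
  set R := (Λ (2 * s)).filter fun i => ‖c' i‖ < a with hR
  have sAR : A ⊆ R := fun i hi => mem_filter.2 ⟨sA hi, by rw [c0 i hi, norm_zero]; exact ha0⟩
  have sR : R ⊆ Γ := (filter_subset _ _).trans sA2
  set d : ℕ → 𝕜 := fun i => if i ∈ A then (a : 𝕜) * sg (c i) else 0 with hd
  have z1 : ∀ i ∈ A, c' i + d i = (a : 𝕜) * sg (c i) := fun i hi => by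
    rw [c0 i hi, zero_add]; exact if_pos hi
  have z2 : ∀ i, i ∉ A → c' i + d i = c' i := fun i hi => by
    have : d i = 0 := if_neg hi
    rw [this, add_zero]
  have hpad := h.pad (fun i => c' i + d i) F (Γ \ R) A a τ hp (sdiff_subset.trans sΓ)
    (fun i hi => ⟨hΛ.sub _ hi, fun hh => (mem_sdiff.1 hh).2 (sAR hi), by
      rw [z1 i hi]; exact norm_mul_sg _ ha0.le _⟩)
    (fun i hi => by
      obtain ⟨j1, j2⟩ := mem_sdiff.1 hi
      rw [z2 i fun hh => j2 (sAR hh)]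
      by_cases hh : i ∈ Λ (2 * s)
      · by_contra h'
        exact j2 (mem_filter.2 ⟨hh, not_le.1 h'⟩)
      · have : c' i = c i := by simp only [hc', w3 i hh]; simp
        rw [this]; exact hmin i j1)
    (fun i hi hn => by
      by_cases hh : i ∈ A
      · rw [z1 i hh]; exact (norm_mul_sg _ ha0.le _).le
      · rw [z2 i hh]
        by_cases hr : i ∈ R
        · exact (mem_filter.1 hr).2.le
        · exact (norm_w _ (w1 i) _).trans (hout i hi fun h' => hn (mem_sdiff.2 ⟨h', hr⟩)))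
    P cA (lt_of_le_of_lt (card_le_card sdiff_subset) hP2)
    (fun B hB => t3 B (hB.trans sA) _ (fun _ => a) fun i hi => ⟨ha0.le, le_rfl, z1 i (hB hi)⟩)
  have n2 : ‖fs e d F‖ ≤ τ := by
    rw [← fs_subset e (c := d) (hΛ.sub s) fun i _ hi => if_neg hi]
    exact t3 A sA d (fun _ => a) fun i hi => ⟨ha0.le, le_rfl, if_pos hi⟩
  have n3 : ‖fs e c' R‖ ≤ τ := t3 R (filter_subset _ _) c' (fun i => (1 - w i) * ‖c i‖) fun i hi => by
    have k1 := w1 i
    have k2 : c' i = (((1 - w i) * ‖c i‖ : ℝ) : 𝕜) * sg (c i) := by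
      simp only [hc']
      conv_lhs => rw [← mul_sg (c i)]
      push_cast; ring
    have k3 : 0 ≤ (1 - w i) * ‖c i‖ := mul_nonneg (by linarith) (norm_nonneg _)
    refine ⟨k3, ?_, k2⟩
    have := (mem_filter.1 hi).2
    rw [k2, norm_mul_sg _ k3] at this
    exact this.le
  rw [fs_congr e (c' := c') (fun i hi => z2 i fun hh => (mem_sdiff.1 hi).2 (sAR hh)), fs_add] at hpad
  have n4 := hpad.trans (add_le_add (mul_le_mul_of_nonneg_left (norm_add_le_of_le n1 n2) hC20) le_rfl)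
  have e1 : fs e c Γ = fs e (fun i => (w i : 𝕜) * c i) F + (fs e c' (Γ \ R) + fs e c' R) := by
    rw [fs_split e c w Γ]
    congr 1
    · exact fs_subset e sΓ fun i _ hn => by
        simp only [w3 i fun hh => hn (sA2 hh)]; simp
    · exact (sum_sdiff sR).symm
  have n5 := norm_add_le_of_le w4 (norm_add_le_of_le n4 n3)
  rw [← e1] at n5
  have e2 : (C2 + 2) * τ = ‖fs e c Γ‖ / 2 := by
    rw [hτ, hL]; field_simp; ring
  nlinarith

end Pool.Agent.H90.Gq
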