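import Mathlib

namespace Pool.Agent.H90.Gq

variable {𝕜 : Type} [RCLike 𝕜] {X : Type} [NormedAddCommGroup X] [NormedSpace 𝕜 X]

/-- a basis `e` with biorthogonal functionals `f` -/
structure IsBasis (e : ℕ → X) (f : ℕ → X →L[𝕜] 𝕜) : Prop where
  dense : Dense (Submodule.span 𝕜 (Set.range e) : Set X)
  bi : ∀ i j, f i (e j) = if i = j then 1 else 0
  bd : ∃ M : ℝ, ∀ n, ‖e n‖ ≤ M ∧ ‖f n‖ ≤ M

/-- `k` is a greedy ordering for `x` -/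
def GreedyOrd (f : ℕ → X →L[𝕜] 𝕜) (x : X) (k : ℕ → ℕ) : Prop :=
  Function.Injective k ∧ (∀ n, f n x ≠ 0 → n ∈ Set.range k) ∧
    ∀ i j, i < j → ‖f (k j) x‖ ≤ ‖f (k i) x‖

/-- the greedy sum of order `m` -/
def Gs (e : ℕ → X) (f : ℕ → X →L[𝕜] 𝕜) (k : ℕ → ℕ) (x : X) (m : ℕ) : X :=
  ∑ j ∈ Finset.range m, f (k j) x • e (k j)

/-- the Cesaro mean of the greedy sums -/
noncomputable def Cs (e : ℕ → X) (f : ℕ → X →L[𝕜] 𝕜) (k : ℕ → ℕ) (x : X) (m : ℕ) : X :=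
  (m : 𝕜)⁻¹ • ∑ n ∈ Finset.Icc 1 m, Gs e f k x n

def QG (e : ℕ → X) (f : ℕ → X →L[𝕜] 𝕜) : Prop :=
  ∃ C : ℝ, ∀ x k m, GreedyOrd f x k → ‖Gs e f k x m‖ ≤ C * ‖x‖

def CQG (e : ℕ → X) (f : ℕ → X →L[𝕜] 𝕜) : Prop :=
  ∀ x k, GreedyOrd f x k → Filter.Tendsto (Cs e f k x) Filter.atTop (nhds x)

def VPQG (e : ℕ → X) (f : ℕ → X →L[𝕜] 𝕜) : Prop :=
  ∀ x k, GreedyOrd f x k →
    Filter.Tendsto (fun m => (2 : 𝕜) • Cs e f k x (2 * m) - Cs e f k x m) Filter.atTop (nhds x)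

end Pool.Agent.H90.Gq
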