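import Pool.Agent.H90.GqC
import Pool.Agent.H90.GqDefs

set_option linter.unusedSectionVars false

open Finset Filter Topology

namespace Pool.Agent.H90.Gq

variable {𝕜 : Type} [RCLike 𝕜] {X : Type} [NormedAddCommGroup X] [NormedSpace 𝕜 X]
variable {e : ℕ → X} {f : ℕ → X →L[𝕜] 𝕜}

theorem IsBasis.coef (h : IsBasis e f) (c : ℕ → 𝕜) (F : Finset ℕ) (n : ℕ) :
    f n (fs e c F) = if n ∈ F then c n else 0 := by
  simp only [fs, map_sum, map_smul, h.bi, smul_eq_mul, mul_ite, mul_one, mul_zero, sum_ite_eq]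

theorem IsBasis.approx (h : IsBasis e f) (x : X) (ε : ℝ) (hε : 0 < ε) :
    ∃ (c : ℕ → 𝕜) (F : Finset ℕ), (∀ i ∈ F, c i ≠ 0) ∧ ‖x - fs e c F‖ < ε := by
  obtain ⟨y, hy, hd⟩ := h.dense.exists_dist_lt x hε
  obtain ⟨c, rfl⟩ := Finsupp.mem_span_range_iff_exists_finsupp.1 hy
  exact ⟨c, c.support, fun i hi => Finsupp.mem_support_iff.1 hi, by rwa [dist_eq_norm] at hd⟩

theorem IsBasis.bd1 (h : IsBasis e f) :
    ∃ M : ℝ, 1 ≤ M ∧ (∀ n, ‖e n‖ ≤ M) ∧ ∀ n x, ‖f n x‖ ≤ M * ‖x‖ := by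
  obtain ⟨M, hM⟩ := h.bd
  exact ⟨max 1 M, le_max_left _ _, fun n => (hM n).1.trans (le_max_right _ _), fun n x =>
    ((f n).le_opNorm x).trans (mul_le_mul_of_nonneg_right ((hM n).2.trans (le_max_right _ _))
      (norm_nonneg _))⟩

theorem IsBasis.fin (h : IsBasis e f) (x : X) (ε : ℝ) (hε : 0 < ε) :
    {n | ε ≤ ‖f n x‖}.Finite := by
  obtain ⟨M, hM, -, hf⟩ := h.bd1
  obtain ⟨c, F, -, hc⟩ := h.approx x (ε / M) (by positivity)
  refine F.finite_toSet.subset fun n hn => ?_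
  by_contra hF
  have h1 := hf n (x - fs e c F)
  rw [map_sub, h.coef, if_neg (show n ∉ F from hF), sub_zero] at h1
  rw [lt_div_iff₀ (by linarith)] at hc
  have : ε ≤ ‖f n x‖ := hn
  linarith

theorem IsBasis.exists_ord (h : IsBasis e f) (x : X) : ∃ k, GreedyOrd f x k := by
  have nx : ∀ S : Finset ℕ, ∃ i, i ∉ S ∧ ∀ j, j ∉ S → ‖f j x‖ ≤ ‖f i x‖ := by
    intro S
    by_cases h0 : ∀ j, j ∉ S → ‖f j x‖ ≤ 0
    · obtain ⟨i, hi⟩ := Infinite.exists_notMem_finset S
      exact ⟨i, hi, fun j hj => (h0 j hj).trans (norm_nonneg _)⟩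
    · push Not at h0
      obtain ⟨j0, hj0, hp⟩ := h0
      obtain ⟨i, hi, hm⟩ := exists_max_image ((h.fin x _ hp).toFinset \ S) (fun i => ‖f i x‖)
        ⟨j0, by simp [hj0]⟩
      refine ⟨i, (mem_sdiff.1 hi).2, fun j hj => ?_⟩
      by_cases hh : ‖f j0 x‖ ≤ ‖f j x‖
      · exact hm j (by simp [hj, hh])
      · exact (not_le.1 hh).le.trans (hm j0 (by simp [hj0]))
  choose g g1 g2 using nx
  let S : ℕ → Finset ℕ := fun n => Nat.rec ∅ (fun _ s => insert (g s) s) n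
  have Ss : ∀ n, S (n + 1) = insert (g (S n)) (S n) := fun n => rfl
  have mono : Monotone S := monotone_nat_of_le_succ fun n => by rw [Ss]; exact subset_insert _ _
  have mem : ∀ i j, i < j → g (S i) ∈ S j := fun i j hij =>
    mono (Nat.succ_le_of_lt hij) (by rw [Ss]; exact mem_insert_self _ _)
  have inj : Function.Injective fun n => g (S n) := by
    intro i j hij
    by_contra hne
    have hij' : g (S i) = g (S j) := hij
    rcases lt_or_gt_of_ne hne with hl | hl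
    · exact g1 (S j) (hij' ▸ mem i j hl)
    · exact g1 (S i) (hij' ▸ mem j i hl)
  refine ⟨fun n => g (S n), inj, fun n hn => ?_, fun i j hij =>
    g2 _ _ fun hh => g1 (S j) (mono hij.le hh)⟩
  by_contra hr
  have hS : ∀ j, n ∉ S j := by
    intro j
    induction j with
    | zero => exact notMem_empty _
    | succ j ih =>
      rw [Ss, mem_insert, not_or]
      exact ⟨fun hh => hr ⟨j, hh.symm⟩, ih⟩
  refine Set.infinite_range_of_injective inj ((h.fin x _ (norm_pos_iff.2 hn)).subset ?_)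
  rintro _ ⟨j, rfl⟩
  exact g2 _ _ (hS j)

theorem Gs_eq {x : X} {k : ℕ → ℕ} (hk : GreedyOrd f x k) (m : ℕ) :
    Gs e f k x m = fs e (fun i => f i x) ((range m).image k) := by
  rw [Gs, fs, sum_image fun a _ b _ hab => hk.1 hab]

theorem ord_gr {x : X} {k : ℕ → ℕ} (hk : GreedyOrd f x k) (m : ℕ) :
    ∀ i ∈ (range m).image k, ∀ j, j ∉ (range m).image k → ‖f j x‖ ≤ ‖f i x‖ := by
  intro i hi j hj
  obtain ⟨a, ha, rfl⟩ := mem_image.1 hi
  by_cases h0 : f j x = 0
  · rw [h0, norm_zero]; exact norm_nonneg _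
  · obtain ⟨b, rfl⟩ := hk.2.1 j h0
    refine hk.2.2 a b ?_
    by_contra hh
    exact hj (mem_image.2 ⟨b, mem_range.2 (by have := mem_range.1 ha; omega), rfl⟩)

theorem norm_add_sg (z : 𝕜) (t : ℝ) (ht : 0 ≤ t) : ‖z + (t : 𝕜) * sg z‖ = ‖z‖ + t := by
  have : z + (t : 𝕜) * sg z = ((‖z‖ + t : ℝ) : 𝕜) * sg z := by
    conv_lhs => lhs; rw [← mul_sg z]
    push_cast; ring
  rw [this, norm_mul_sg _ (by positivity)]

def YY (e : ℕ → X) (f : ℕ → X →L[𝕜] 𝕜) (N : ℕ) : Set X :=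
  {x | ∃ k, GreedyOrd f x k ∧ ∀ n : ℕ, ‖∑ j ∈ Ioc n (2 * n), Gs e f k x j‖ ≤ N * n}

theorem IsBasis.yy (h : IsBasis e f) (hv : VPQG e f) (x : X) : ∃ N, x ∈ YY e f N := by
  obtain ⟨k, hk⟩ := h.exists_ord x
  obtain ⟨B, hB⟩ := (hv x k hk).norm.bddAbove_range
  obtain ⟨N, hN⟩ := exists_nat_ge B
  refine ⟨N, k, hk, fun n => ?_⟩
  rcases Nat.eq_zero_or_pos n with rfl | hn
  · simp
  have h1 := (hB ⟨n, rfl⟩).trans hN
  have hn' : (n : 𝕜) ≠ 0 := by exact_mod_cast hn.ne'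
  have : ∑ j ∈ Ioc n (2 * n), Gs e f k x j =
      (n : 𝕜) • ((2 : 𝕜) • Cs e f k x (2 * n) - Cs e f k x n) := by
    have e0 : ∀ m, Icc 1 m = Ioc 0 m := fun m => rfl
    simp only [Cs, e0, smul_sub, smul_smul]
    rw [← sum_Ioc_consecutive _ (Nat.zero_le n) (by omega : n ≤ 2 * n)]
    have a1 : (n : 𝕜) * (2 * ((2 * n : ℕ) : 𝕜)⁻¹) = 1 := by push_cast; field_simp
    rw [a1, mul_inv_cancel₀ hn', one_smul, one_smul]; abel
  rw [this, norm_smul, RCLike.norm_natCast, mul_comm]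
  exact mul_le_mul_of_nonneg_right h1 (Nat.cast_nonneg n)

theorem IsBasis.keyA (h : IsBasis e f) (N : ℕ) (ζ : ℕ → 𝕜) (F : Finset ℕ) (δ : ℝ) (hδ : 0 < δ)
    (hb : Metric.ball (fs e ζ F) δ ⊆ closure (YY e f N)) (Λ : ℕ → Finset ℕ) (hΛ : Chain ζ F Λ)
    (n : ℕ) : ‖∑ j ∈ Ioc n (2 * n), fs e ζ (Λ j)‖ ≤ N * n := by
  obtain ⟨M, hM, he, hf⟩ := h.bd1
  refine le_of_forall_pos_le_add fun ε hε => ?_
  set K1 : ℝ := F.card * ((2 * n + 1) * M) with hK1
  set K2 : ℝ := n * (2 * n * (M * (1 + K1) * M)) with hK2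
  have t : ∀ K d : ℝ, 0 < d → ∀ᶠ η : ℝ in 𝓝[>] 0, η * K < d := by
    intro K d hd
    have : Tendsto (fun η : ℝ => η * K) (𝓝 0) (𝓝 (0 * K)) := tendsto_id.mul_const K
    exact nhdsWithin_le_nhds (this.eventually (gt_mem_nhds (by simpa using hd)))
  obtain ⟨η, ⟨η1, η2⟩, hη⟩ := (((t K1 δ hδ).and (t K2 ε hε)).and self_mem_nhdsWithin).exists
  have hη : 0 < η := hη
  set b : ℕ → ℕ := fun i => ((range (2 * n + 1)).filter fun j => i ∈ Λ j).card with hb'
  have b1 : ∀ i, (b i : ℝ) ≤ 2 * n + 1 := fun i => by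
    have : b i ≤ 2 * n + 1 := (card_filter_le _ _).trans (card_range _).le
    exact_mod_cast this
  have b2 : ∀ j ≤ 2 * n, ∀ i ∈ Λ j, ∀ i', i' ∉ Λ j → (b i' : ℝ) + 1 ≤ b i := by
    intro j hj i hi i' hi'
    have : b i' < b i := by
      refine card_lt_card ⟨fun j' hj' => ?_, fun hh => ?_⟩
      · obtain ⟨q1, q2⟩ := mem_filter.1 hj'
        refine mem_filter.2 ⟨q1, hΛ.mono ?_ hi⟩
        by_contra hl
        exact hi' (hΛ.mono (not_le.1 hl).le q2)
      · exact hi' (mem_filter.1 (hh (mem_filter.2 ⟨mem_range.2 (by omega), hi⟩))).2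
    exact_mod_cast this
  set d : ℕ → 𝕜 := fun i => ((η * b i : ℝ) : 𝕜) * sg (ζ i) with hd
  have n1 : ‖fs e d F‖ ≤ η * K1 := by
    have := fs_norm_le he d F (η * (2 * n + 1)) fun i _ => by
      simp only [hd]; rw [norm_mul_sg _ (by positivity)]
      exact mul_le_mul_of_nonneg_left (b1 i) hη.le
    refine this.trans (le_of_eq ?_); rw [hK1]; ring
  set z' := fs e (fun i => ζ i + d i) F with hz'
  have hz : z' - fs e ζ F = fs e d F := by rw [hz', fs_add]; abel
  obtain ⟨u, ⟨k, hk, hu⟩, hdist⟩ := Metric.mem_closure_iff.1 (hb (show z' ∈ _ by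
    rw [mem_ball_iff_norm, hz]; linarith)) (η / (2 * M)) (by positivity)
  rw [dist_comm, dist_eq_norm] at hdist
  have n2 : ∀ i, ‖f i u - f i z'‖ < η / 2 := fun i => by
    rw [← map_sub]
    refine (hf i _).trans_lt ?_
    rw [lt_div_iff₀ (by positivity)] at hdist
    linarith
  have n3 : ‖u - fs e ζ F‖ ≤ η * (1 + K1) := by
    have : u - fs e ζ F = (u - z') + fs e d F := by rw [← hz]; abel
    rw [this]
    refine (norm_add_le _ _).trans ?_
    have : η / (2 * M) ≤ η := div_le_self hη.le (by linarith)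
    linarith
  have n4 : ∀ j ∈ Ioc n (2 * n), ‖fs e ζ (Λ j) - Gs e f k u j‖ ≤ 2 * n * (M * (η * (1 + K1)) * M) := by
    intro j hj
    have hj2 := (mem_Ioc.1 hj).2
    set B := (range j).image k with hB
    have cB : B.card = j := by rw [hB, card_image_of_injective _ hk.1, card_range]
    have strict : ∀ i ∈ Λ j, ∀ i', i' ∉ Λ j → ‖f i' u‖ < ‖f i u‖ := by
      intro i hi i' hi'
      have q1 : ‖f i z'‖ = ‖ζ i‖ + η * b i := by
        rw [hz', h.coef, if_pos (hΛ.sub j hi)]; exact norm_add_sg _ _ (by positivity)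
      have q3 := mul_le_mul_of_nonneg_left (b2 j hj2 i hi i' hi') hη.le
      have q2 : ‖f i' z'‖ ≤ ‖ζ i‖ + η * b i' := by
        rw [hz', h.coef]
        split_ifs with hF
        · rw [norm_add_sg _ _ (by positivity)]
          have := hΛ.gr j i hi i' hF hi'
          linarith
        · rw [norm_zero]; positivity
      have q4 := (norm_sub_norm_le _ _).trans_lt (n2 i')
      have q5 := (norm_sub_norm_le _ _).trans_lt ((norm_sub_rev _ _).trans_lt (n2 i))
      linarith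
    have sub : Λ j ⊆ B := by
      intro i hi
      by_contra hiB
      have : B ⊆ (Λ j).erase i := fun i' hi' => mem_erase.2 ⟨fun hh => hiB (hh ▸ hi'), by
        by_contra hn
        exact absurd (ord_gr hk j i' hi' i hiB) (not_le.2 (strict i hi i' hn))⟩
      have c1 := card_le_card this
      rw [card_erase_of_mem hi, hΛ.card, cB] at c1
      have := card_pos.2 ⟨i, hi⟩
      rw [hΛ.card] at this
      omega
    have e1 : fs e ζ (Λ j) = fs e (fun i => f i (fs e ζ F)) B := by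
      refine (fs_congr e fun i hi => ?_).trans (fs_subset e sub fun i hi hn => ?_)
      · rw [h.coef, if_pos (hΛ.sub j hi)]
      · rw [h.coef, if_neg]
        intro hF
        rcases le_total j F.card with hl | hl
        · exact hn (eq_of_subset_of_card_le sub (by rw [hΛ.card, cB]; omega) ▸ hi)
        · exact hn (eq_of_subset_of_card_le (hΛ.sub j) (by rw [hΛ.card]; omega) ▸ hF)
    have e2 : Gs e f k u j = fs e ζ (Λ j) + fs e (fun i => f i (u - fs e ζ F)) B := by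
      rw [Gs_eq hk, e1, ← fs_add]
      exact fs_congr e fun i _ => by rw [map_sub]; ring
    rw [e2, sub_add_cancel_left, norm_neg]
    refine (fs_norm_le he _ B (M * (η * (1 + K1))) fun i _ =>
      (hf i _).trans (mul_le_mul_of_nonneg_left n3 (by linarith))).trans ?_
    have : (B.card : ℝ) ≤ 2 * n := by rw [cB]; exact_mod_cast hj2
    gcongr
  have n5 := (norm_sum_le _ _).trans (sum_le_card_nsmul _ _ _ n4)
  rw [Nat.card_Ioc, nsmul_eq_mul, sum_sub_distrib, show 2 * n - n = n by omega] at n5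
  have n6 := norm_add_le_of_le n5 (hu n)
  rw [sub_add_cancel] at n6
  have : (n : ℝ) * (2 * n * (M * (η * (1 + K1)) * M)) = η * K2 := by rw [hK2]; ring
  linarith

end Pool.Agent.H90.Gq
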