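import Pool.Agent.H90.GqD

set_option linter.unusedSectionVars false

open Finset Filter Topology

namespace Pool.Agent.H90.Gq

variable {𝕜 : Type} [RCLike 𝕜] {X : Type} [NormedAddCommGroup X] [NormedSpace 𝕜 X]
variable {e : ℕ → X} {f : ℕ → X →L[𝕜] 𝕜}

theorem IsBasis.ctx [CompleteSpace X] (h : IsBasis e f) (hv : VPQG e f) :
    ∃ (F0 : Finset ℕ) (M C : ℝ), Ctx 𝕜 e (fun i => i ∉ F0) M C := by
  obtain ⟨M, hM, he, hf⟩ := h.bd1
  have hc : ∀ (c : ℕ → 𝕜) F i, i ∈ F → ‖c i‖ ≤ M * ‖fs e c F‖ := fun c F i hi => by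
    have := hf i (fs e c F)
    rwa [h.coef, if_pos hi] at this
  obtain ⟨N, x1, hx1⟩ := nonempty_interior_of_iUnion_of_closed
    (f := fun N : ℕ => closure (YY e f N)) (fun _ => isClosed_closure) (by
      refine Set.eq_univ_of_forall fun x => ?_
      obtain ⟨N, hN⟩ := h.yy hv x
      exact Set.mem_iUnion.2 ⟨N, subset_closure hN⟩)
  obtain ⟨r, hr, hball⟩ := Metric.mem_nhds_iff.1 (mem_interior_iff_mem_nhds.1 hx1)
  obtain ⟨c0, F0, hc0, hx0⟩ := h.approx x1 (r / 3) (by positivity)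
  obtain ⟨γ, hγ, hγ'⟩ : ∃ γ : ℝ, 0 < γ ∧ ∀ i ∈ F0, γ ≤ ‖c0 i‖ := by
    rcases F0.eq_empty_or_nonempty with rfl | hne
    · exact ⟨1, one_pos, by simp⟩
    · obtain ⟨i, hi, hm⟩ := exists_min_image F0 (fun i => ‖c0 i‖) hne
      exact ⟨_, norm_pos_iff.2 (hc0 i hi), hm⟩
  obtain ⟨l0, a1, a2, a3⟩ := exists_sorted c0 F0
  obtain ⟨Λ0, hΛ0⟩ : ∃ Λ0, Chain c0 F0 Λ0 := ⟨_, a2 ▸ chain_of_list c0 l0 a1 a3⟩
  set θ := min (r / 3) (γ / M) with hθ
  have hθ0 : 0 < θ := lt_min (by positivity) (by positivity)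
  set B0 : ℝ := F0.card * (M * ‖fs e c0 F0‖ * M) with hB0
  refine ⟨F0, M, (N + B0) / θ + F0.card * (M * M), hM, by positivity, he, hc,
    fun c F Λ hp hΛ n => ?_⟩
  set y := ‖fs e c F‖ with hy
  rcases (norm_nonneg (fs e c F)).eq_or_lt with hy0 | hy0
  · have : ∀ j ∈ Ioc n (2 * n), fs e c (Λ j) = 0 := fun j _ => sum_eq_zero fun i hi => by
      have := hc c F i (hΛ.sub j hi)
      rw [← hy0, mul_zero, norm_le_zero_iff] at this
      rw [this, zero_smul]
    rw [sum_eq_zero this, norm_zero]; positivity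
  replace hy0 : 0 < y := hy0
  have hyne : y ≠ 0 := hy0.ne'
  set δ := θ / y with hδ
  have hδ0 : 0 < δ := by positivity
  have hδy : δ * y = θ := by rw [hδ]; field_simp
  set ζ : ℕ → 𝕜 := fun i => if i ∈ F0 then c0 i else (δ : 𝕜) * c i with hζ
  have ζ0 : ∀ i ∈ F0, ζ i = c0 i := fun i hi => if_pos hi
  have ζ1 : ∀ i ∈ F, ζ i = (δ : 𝕜) * c i := fun i hi => if_neg (hp i hi)
  have nζ : ∀ i ∈ F, ‖ζ i‖ = δ * ‖c i‖ := fun i hi => by
    rw [ζ1 i hi, norm_mul, RCLike.norm_ofReal, abs_of_pos hδ0]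
  have split : ∀ A ⊆ F0, ∀ B ⊆ F, fs e ζ (A ∪ B) = fs e c0 A + (δ : 𝕜) • fs e c B := by
    intro A hA B hB
    rw [fs, sum_union (disjoint_left.2 fun i hi hi' => hp i (hB hi') (hA hi)), fs, fs, smul_sum]
    congr 1
    · exact sum_congr rfl fun i hi => by rw [ζ0 i (hA hi)]
    · exact sum_congr rfl fun i hi => by rw [ζ1 i (hB hi), smul_smul]
  have hch : Chain ζ (F0 ∪ F) fun j => Λ0 j ∪ Λ (j - F0.card) := by
    refine ⟨fun j j' hj => union_subset_union (hΛ0.mono hj) (hΛ.mono (Nat.sub_le_sub_right hj _)),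
      fun j => union_subset_union (hΛ0.sub _) (hΛ.sub _), fun j => ?_, fun j i hi i' hi' hn => ?_⟩
    · rw [card_union_of_disjoint (disjoint_left.2 fun i hi hi' => hp i (hΛ.sub _ hi') (hΛ0.sub _ hi)),
        card_union_of_disjoint (disjoint_left.2 fun i hi hi' => hp i hi' hi), hΛ0.card, hΛ.card]
      omega
    · rw [mem_union, not_or] at hn
      rcases mem_union.1 hi with hi | hi
      · rw [ζ0 i (hΛ0.sub _ hi)]
        rcases mem_union.1 hi' with hi' | hi'
        · rw [ζ0 i' hi']; exact hΛ0.gr j i hi i' hi' hn.1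
        · rw [nζ i' hi']
          refine le_trans ?_ (hγ' i (hΛ0.sub _ hi))
          have q1 : θ ≤ γ / M := min_le_right _ _
          rw [le_div_iff₀ (by linarith)] at q1
          calc δ * ‖c i'‖ ≤ δ * (M * y) := mul_le_mul_of_nonneg_left (hc c F i' hi') hδ0.le
            _ = θ * M := by rw [← hδy]; ring
            _ ≤ γ := q1
      · have q1 := card_pos.2 ⟨i, hi⟩
        rw [hΛ.card] at q1
        have q2 : Λ0 j = F0 := eq_of_subset_of_card_le (hΛ0.sub j) (by rw [hΛ0.card]; omega)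
        rcases mem_union.1 hi' with hi' | hi'
        · exact absurd (q2 ▸ hi') hn.1
        · rw [nζ i' hi', nζ i (hΛ.sub _ hi)]
          exact mul_le_mul_of_nonneg_left (hΛ.gr _ i hi i' hi' hn.2) hδ0.le
  have kA := h.keyA N ζ (F0 ∪ F) (r / 3) (by positivity) (by
    refine (Metric.ball_subset_ball' ?_).trans hball
    rw [split F0 (Subset.refl _) F (Subset.refl _), dist_comm, dist_eq_norm, ← sub_sub]
    have q1 := norm_sub_le (x1 - fs e c0 F0) ((δ : 𝕜) • fs e c F)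
    rw [norm_smul, RCLike.norm_ofReal, abs_of_pos hδ0, hδy] at q1
    have : θ ≤ r / 3 := min_le_left _ _
    linarith) _ hch n
  simp only [split _ (hΛ0.sub _) _ (hΛ.sub _), sum_add_distrib, ← smul_sum] at kA
  have hcard : (Ioc n (2 * n)).card = n := by rw [Nat.card_Ioc]; omega
  have m1 : ‖∑ j ∈ Ioc n (2 * n), fs e c0 (Λ0 j)‖ ≤ n * B0 := by
    have := (norm_sum_le _ _).trans (sum_le_card_nsmul (Ioc n (2 * n))
      (fun j => ‖fs e c0 (Λ0 j)‖) B0 fun j _ => by
      refine (fs_norm_le he c0 (Λ0 j) (M * ‖fs e c0 F0‖) fun i hi =>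
        hc c0 F0 i (hΛ0.sub _ hi)).trans ?_
      have : ((Λ0 j).card : ℝ) ≤ F0.card := by exact_mod_cast card_le_card (hΛ0.sub j)
      rw [hB0]; gcongr)
    rwa [hcard, nsmul_eq_mul] at this
  have m2 : δ * ‖∑ j ∈ Ioc n (2 * n), fs e c (Λ (j - F0.card))‖ ≤ N * n + n * B0 := by
    have := norm_sub_le_of_le kA m1
    rwa [add_sub_cancel_left, norm_smul, RCLike.norm_ofReal, abs_of_pos hδ0] at this
  have m3 : ‖∑ j ∈ Ioc n (2 * n), fs e c (Λ (j - F0.card))‖ ≤ (N + B0) / θ * n * y := by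
    refine le_of_mul_le_mul_left (m2.trans (le_of_eq ?_)) hδ0
    rw [hδ]; field_simp
  have m4 : ‖∑ j ∈ Ioc n (2 * n), (fs e c (Λ j) - fs e c (Λ (j - F0.card)))‖ ≤
      n * (F0.card * (M * y * M)) := by
    have := (norm_sum_le _ _).trans (sum_le_card_nsmul (Ioc n (2 * n))
      (fun j => ‖fs e c (Λ j) - fs e c (Λ (j - F0.card))‖) (F0.card * (M * y * M)) fun j _ => by
      have s1 : Λ (j - F0.card) ⊆ Λ j := hΛ.mono (Nat.sub_le _ _)
      have : fs e c (Λ j) - fs e c (Λ (j - F0.card)) = fs e c (Λ j \ Λ (j - F0.card)) := by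
        rw [sub_eq_iff_eq_add]; exact (sum_sdiff s1).symm
      rw [this]
      refine (fs_norm_le he c _ (M * y) fun i hi => hc c F i (hΛ.sub _ (mem_sdiff.1 hi).1)).trans ?_
      have : ((Λ j \ Λ (j - F0.card)).card : ℝ) ≤ F0.card := by
        have : (Λ j \ Λ (j - F0.card)).card ≤ F0.card := by
          rw [card_sdiff_of_subset s1, hΛ.card, hΛ.card]; omega
        exact_mod_cast this
      gcongr)
    rwa [hcard, nsmul_eq_mul] at this
  have m5 := norm_add_le_of_le m4 m3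
  rw [sum_sub_distrib, sub_add_cancel] at m5
  refine m5.trans (le_of_eq ?_)
  ring

theorem IsBasis.qg [CompleteSpace X] (h : IsBasis e f) (hv : VPQG e f) : QG e f := by
  obtain ⟨F0, M0, C, hctx⟩ := h.ctx hv
  obtain ⟨K, hK, hq⟩ := hctx.qg
  have hM0 := hctx.M1
  set T : ℝ := F0.card * (M0 * M0) with hT
  have hT0 : 0 ≤ T := by positivity
  have hq2 : ∀ (c : ℕ → 𝕜) (F Γ : Finset ℕ), Γ ⊆ F →
      (∀ i ∈ Γ, ∀ j ∈ F, j ∉ Γ → ‖c j‖ ≤ ‖c i‖) → ‖fs e c Γ‖ ≤ (K * (1 + T) + T) * ‖fs e c F‖ := by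
    intro c F Γ s g
    have small : ∀ A ⊆ F, ‖fs e c (A ∩ F0)‖ ≤ T * ‖fs e c F‖ := by
      intro A hA
      refine (fs_norm_le hctx.he c _ (M0 * ‖fs e c F‖) fun i hi =>
        hctx.hc c F i (hA (mem_inter.1 hi).1)).trans ?_
      have : ((A ∩ F0).card : ℝ) ≤ F0.card := by exact_mod_cast card_le_card inter_subset_right
      calc _ ≤ F0.card * (M0 * ‖fs e c F‖ * M0) := by gcongr
        _ = _ := by rw [hT]; ring
    have sp : ∀ A, fs e c (A ∩ F0) + fs e c (A \ F0) = fs e c A := fun A =>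
      sum_inter_add_sum_sdiff A F0 _
    have q1 := hq c (F \ F0) (Γ \ F0) (fun i hi => (mem_sdiff.1 hi).2)
      (sdiff_subset_sdiff s (Subset.refl _)) fun i hi j hj hn => g i (mem_sdiff.1 hi).1 j
        (mem_sdiff.1 hj).1 fun hh => hn (mem_sdiff.2 ⟨hh, (mem_sdiff.1 hj).2⟩)
    have q2 : ‖fs e c (F \ F0)‖ ≤ (1 + T) * ‖fs e c F‖ := by
      rw [eq_sub_of_add_eq' (sp F)]
      have := norm_sub_le_of_le (le_refl ‖fs e c F‖) (small F (Subset.refl _))
      linarith
    have q3 := norm_add_le_of_le (small Γ s) (q1.trans (mul_le_mul_of_nonneg_left q2 hK))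
    rw [sp] at q3
    linarith
  set K' := K * (1 + T) + T with hK'
  have hK'0 : 0 ≤ K' := by positivity
  obtain ⟨M, hM, he, hf⟩ := h.bd1
  refine ⟨K', fun x k m hk => le_of_forall_pos_le_add fun ε hε => ?_⟩
  set Γ := (range m).image k with hΓ
  set Q : ℝ := K' * (1 + Γ.card * (2 * M * M)) + Γ.card * (M * M) + 1 with hQ
  have hQ0 : 0 < Q := by positivity
  set η := ε / Q with hη
  have hη0 : 0 < η := by positivity
  obtain ⟨c, F', -, hc⟩ := h.approx x η hη0
  set y := fs e c F' with hy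
  have hy2 : y = fs e (fun i => f i y) (F' ∪ Γ) := by
    refine (fs_congr e fun i hi => ?_).trans (fs_subset e subset_union_left fun i _ hn => ?_)
    · rw [hy, h.coef, if_pos hi]
    · rw [hy, h.coef, if_neg hn]
  have nd : ∀ i, ‖f i x - f i y‖ ≤ M * η := fun i => by
    rw [← map_sub]; exact (hf i _).trans (mul_le_mul_of_nonneg_left hc.le (by linarith))
  set s : ℕ → 𝕜 := fun i => ((M * η : ℝ) : 𝕜) * sg (f i x) with hs
  have hMη : 0 ≤ M * η := mul_nonneg (by linarith) hη0.le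
  have ns : ∀ i, ‖s i‖ = M * η := fun i => norm_mul_sg _ hMη _
  set d : ℕ → 𝕜 := fun i => if i ∈ Γ then f i x - f i y + s i else 0 with hd
  have d1 : ∀ i ∈ Γ, f i y + d i = f i x + s i := fun i hi => by
    have : d i = f i x - f i y + s i := if_pos hi
    rw [this]; ring
  have q := hq2 (fun i => f i y + d i) (F' ∪ Γ) Γ subset_union_right fun i hi j _ hj => by
    have : d j = 0 := if_neg hj
    rw [d1 i hi, this, add_zero, norm_add_sg _ _ hMη]
    have q1 := ord_gr hk m i hi j hj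
    have q2 := (norm_sub_norm_le _ _).trans ((norm_sub_rev _ _).trans_le (nd j))
    linarith
  rw [fs_congr e d1, fs_add, fs_add, ← hy2, ← Gs_eq hk,
    ← fs_subset e (c := d) subset_union_right fun i _ hi => if_neg hi] at q
  have n1 := fs_norm_le he s Γ (M * η) fun i _ => (ns i).le
  have n2 := fs_norm_le he d Γ (2 * (M * η)) fun i hi => by
    have : d i = f i x - f i y + s i := if_pos hi
    rw [this]
    have := norm_add_le_of_le (nd i) (ns i).le
    linarith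
  have n3 : ‖y‖ ≤ ‖x‖ + η := by
    have := norm_sub_norm_le y x
    rw [norm_sub_rev] at this
    linarith
  have n4 := q.trans (mul_le_mul_of_nonneg_left (norm_add_le_of_le n3 n2) hK'0)
  have n5 := norm_sub_le_of_le n4 n1
  rw [add_sub_cancel_right] at n5
  have : η * Q = ε := by rw [hη]; field_simp
  rw [hQ] at this
  nlinarith

theorem CQG.vp (h : CQG e f) : VPQG e f := by
  intro x k hk
  have h1 := h x k hk
  have h2 : Tendsto (fun m : ℕ => 2 * m) atTop atTop :=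
    tendsto_id.const_mul_atTop' (by norm_num)
  have := ((h1.comp h2).const_smul (2 : 𝕜)).sub h1
  rwa [two_smul, add_sub_cancel_right] at this

end Pool.Agent.H90.Gq
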