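import Mathlib

set_option autoImplicit false

namespace Pool.Agent.H90.HBCycDefs

/-- `f : ℝ → ℝ` is differentiable, `μ`-strongly convex and `f'` is `L`-Lipschitz. -/
def InF (μ L : ℝ) (f : ℝ → ℝ) : Prop :=
  Differentiable ℝ f ∧ StrongConvexOn Set.univ μ f ∧
    ∀ x y : ℝ, |deriv f x - deriv f y| ≤ L * |x - y|

/-- `(x 0, …, x (K-1))` is a `K`-cycle of heavy-ball on `f` (indices modulo `K`). -/
def IsCycle (γ β : ℝ) (f : ℝ → ℝ) (K : ℕ) (x : ℕ → ℝ) : Prop :=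
  (∃ i < K, ∃ j < K, x i ≠ x j) ∧
    ∀ i < K, x ((i + 1) % K) = x i - γ * deriv f (x i) + β * (x i - x ((i + K - 1) % K))

/-- The rank pattern `ρ = σ_K = (0, 1, 3, 5, …, 4, 2)`. -/
def rho (K j : ℕ) : ℕ := if j = 0 then 0 else if j ≤ K / 2 then 2 * j - 1 else 2 * (K - j)

/-- `x i ≤ x j` whenever `ρ i < ρ j`. -/
def HasPattern (K : ℕ) (x : ℕ → ℝ) : Prop :=
  ∀ i < K, ∀ j < K, rho K i < rho K j → x i ≤ x j

/-- The heavy-ball sequence generated from `(x 0, x 1)` is exactly `(x (t mod K))_t`, and the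
points `x 0, …, x (K-1)` are not all equal. -/
def IsCycleSeq (γ β : ℝ) (f : ℝ → ℝ) (K : ℕ) (x : ℕ → ℝ) : Prop :=
  (∃ i < K, ∃ j < K, x i ≠ x j) ∧
    ∀ t : ℕ, 1 ≤ t → x ((t + 1) % K) =
      x (t % K) - γ * deriv f (x (t % K)) + β * (x (t % K) - x ((t - 1) % K))

end Pool.Agent.H90.HBCycDefs
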