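import Pool.Agent.H90.HBProof
import Pool.Agent.H90.HBCycDefs

set_option autoImplicit false

namespace Pool.Agent.H90.HBCycProof

open Pool.Agent.H90.HBDefs Pool.Agent.H90.HBCycDefs Pool.Agent.H90.HBProof Set

lemma deriv_sub_quad {f : ℝ → ℝ} (hf : Differentiable ℝ f) (μ y : ℝ) :
    HasDerivAt (fun x : ℝ => f x - μ / 2 * ‖x‖ ^ 2) (deriv f y - μ * y) y := by
  have h1 : HasDerivAt (fun x : ℝ => μ / 2 * x ^ 2) (μ / 2 * (2 * y)) y := by
    simpa using (hasDerivAt_pow 2 y).const_mul (μ / 2)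
  have h2 := (hf y).hasDerivAt.sub h1
  have e : (fun x : ℝ => f x - μ / 2 * ‖x‖ ^ 2) = f - fun x : ℝ => μ / 2 * x ^ 2 := by
    funext x; simp
  rw [e]
  have e2 : deriv f y - μ * y = deriv f y - μ / 2 * (2 * y) := by ring
  rw [e2]
  exact h2

lemma inF_of_inClass {μ L : ℝ} (hμ : 0 ≤ μ) {f : ℝ → ℝ} (hf : InClass μ L f) : InF μ L f := by
  have hlow : ∀ a b, b < a → μ * (a - b) ≤ deriv f a - deriv f b := fun a b hab => by
    have := (hf.2 a b hab.ne').1
    rwa [le_div_iff₀ (sub_pos.2 hab)] at this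
  have hup : ∀ a b, b < a → deriv f a - deriv f b ≤ L * (a - b) := fun a b hab => by
    have := (hf.2 a b hab.ne').2
    rwa [div_le_iff₀ (sub_pos.2 hab)] at this
  refine ⟨hf.1, ?_, ?_⟩
  · rw [strongConvexOn_iff_convex]
    apply Monotone.convexOn_univ_of_deriv (fun y => (deriv_sub_quad hf.1 μ y).differentiableAt)
    intro a b hab
    simp only [(deriv_sub_quad hf.1 μ _).deriv]
    rcases hab.eq_or_lt with h | h
    · rw [h]
    · have := hlow b a h
      linarith
  · intro a b
    rcases lt_trichotomy a b with h | h | h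
    · have h1 := hlow b a h
      have h2 := hup b a h
      rw [abs_sub_comm, abs_sub_comm a b, abs_of_nonneg (by nlinarith), abs_of_pos (sub_pos.2 h)]
      exact h2
    · simp [h]
    · have h1 := hlow a b h
      have h2 := hup a b h
      rw [abs_of_nonneg (by nlinarith), abs_of_pos (sub_pos.2 h)]
      exact h2

lemma slope_low {μ L : ℝ} {f : ℝ → ℝ} (hf : InF μ L f) {a b : ℝ} (hab : a ≤ b) :
    μ * (b - a) ≤ deriv f b - deriv f a := by
  have h1 := (strongConvexOn_iff_convex.1 hf.2.1).monotoneOn_deriv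
    (fun y _ => (deriv_sub_quad hf.1 μ y).differentiableAt) (mem_univ a) (mem_univ b) hab
  simp only [(deriv_sub_quad hf.1 μ _).deriv] at h1
  linarith

def xx : ℕ → ℝ
  | 0 => 5
  | 1 => -5
  | 2 => 3
  | 3 => 0
  | _ => -3

noncomputable def gg : ℕ → ℝ
  | 0 => 86/5
  | 1 => -17
  | 2 => 51/5
  | 3 => 3/10
  | _ => -107/10

lemma star : ∃ f, InF (31/10) (37/10) f ∧ IsCycle 1 (9/10) f 5 xx := by
  obtain ⟨f, hf, hg⟩ := interp (ι := Fin 5) (31/10) (37/10) (by norm_num) (fun i => xx i)
    (fun i => gg i) (by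
      intro i j
      fin_cases i <;> fin_cases j <;> simp [xx, gg] <;> norm_num [abs_le])
  refine ⟨f, inF_of_inClass (by norm_num) hf, ⟨0, by norm_num, 1, by norm_num, by
    simp [xx]; norm_num⟩, fun i hi => ?_⟩
  have := hg ⟨i, hi⟩
  simp only at this
  rw [this]
  interval_cases i <;> simp [xx, gg] <;> norm_num

lemma no_pattern (K : ℕ) (hK : 3 ≤ K) (f : ℝ → ℝ) (hf : InF (31/10) (37/10) f) (x : ℕ → ℝ)
    (hc : IsCycle 1 (9/10) f K x) : ¬ HasPattern K x := by
  intro hp
  obtain ⟨⟨i, hi, j, hj, hij⟩, hc⟩ := hc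
  have key : x 1 = x 0 ∧ x 2 = x 0 := by
    by_cases h3 : K = 3
    · subst h3
      have p1 := hp 0 (by norm_num) 1 (by norm_num) (by decide)
      have p2 := hp 1 (by norm_num) 2 (by norm_num) (by decide)
      have c0 := hc 0 (by norm_num)
      have c1 := hc 1 (by norm_num)
      have c2 := hc 2 (by norm_num)
      norm_num at c0 c1 c2 ⊢
      have s1 := slope_low hf p1
      have s2 := slope_low hf p2
      constructor <;> linarith
    by_cases h4 : K = 4
    · subst h4
      have p1 := hp 0 (by norm_num) 1 (by norm_num) (by decide)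
      have p2 := hp 1 (by norm_num) 3 (by norm_num) (by decide)
      have p3 := hp 3 (by norm_num) 2 (by norm_num) (by decide)
      have c0 := hc 0 (by norm_num)
      have c1 := hc 1 (by norm_num)
      have c2 := hc 2 (by norm_num)
      have c3 := hc 3 (by norm_num)
      norm_num at c0 c1 c2 c3 ⊢
      have s1 := slope_low hf p1
      have s2 := slope_low hf p2
      have s3 := slope_low hf p3
      constructor <;> linarith
    obtain ⟨n, rfl⟩ : ∃ n, K = n + 5 := ⟨K - 5, by omega⟩
    have r0 : rho (n + 5) 0 = 0 := rfl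
    have r1 : rho (n + 5) 1 = 1 := by
      unfold rho; rw [if_neg (by omega), if_pos (by omega)]
    have r2 : rho (n + 5) 2 = 3 := by
      unfold rho; rw [if_neg (by omega), if_pos (by omega)]
    have r3 : 4 ≤ rho (n + 5) 3 := by
      unfold rho; rw [if_neg (by omega)]; split_ifs <;> omega
    have p1 : x 0 ≤ x 1 := hp _ (by omega) _ (by omega) (by omega)
    have p2 : x 1 ≤ x 2 := hp _ (by omega) _ (by omega) (by omega)
    have p3 : x 2 ≤ x 3 := hp _ (by omega) _ (by omega) (by omega)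
    have c1 := hc 1 (by omega)
    have c2 := hc 2 (by omega)
    rw [Nat.mod_eq_of_lt (by omega : 1 + 1 < n + 5),
      show 1 + (n + 5) - 1 = n + 5 by omega, Nat.mod_self] at c1
    rw [Nat.mod_eq_of_lt (by omega : 2 + 1 < n + 5),
      show 2 + (n + 5) - 1 = 1 + (n + 5) by omega, Nat.add_mod_right,
      Nat.mod_eq_of_lt (by omega)] at c2
    have s2 := slope_low hf p2
    norm_num at c1 c2
    constructor <;> linarith
  obtain ⟨n, rfl⟩ : ∃ n, K = n + 3 := ⟨K - 3, by omega⟩
  obtain ⟨k1, k2⟩ := key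
  have c1 := hc 1 (by omega)
  rw [Nat.mod_eq_of_lt (by omega : 1 + 1 < n + 3),
      show 1 + (n + 3) - 1 = n + 3 by omega, Nat.mod_self, show 1 + 1 = 2 by rfl, k1, k2] at c1
  have g0 : deriv f (x 0) = 0 := by linarith
  have all : ∀ m, m + 1 < n + 3 → x m = x 0 ∧ x (m + 1) = x 0 := by
    intro m
    induction m with
    | zero =>
      intro _
      exact ⟨rfl, k1⟩
    | succ m ih =>
      intro hm
      obtain ⟨a1, a2⟩ := ih (by omega)
      have c := hc (m + 1) (by omega)
      rw [Nat.mod_eq_of_lt hm, show m + 1 + (n + 3) - 1 = m + (n + 3) by omega, Nat.add_mod_right,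
        Nat.mod_eq_of_lt (by omega), a1, a2, g0] at c
      exact ⟨a2, by linarith⟩
  have all' : ∀ m < n + 3, x m = x 0 := by
    intro m hm
    cases m with
    | zero => rfl
    | succ m => exact (all m hm).2
  exact hij ((all' i hi).trans (all' j hj).symm)

lemma seq_iff (γ β : ℝ) (f : ℝ → ℝ) (K : ℕ) (hK : 0 < K) (x : ℕ → ℝ) :
    IsCycleSeq γ β f K x ↔ IsCycle γ β f K x := by
  refine and_congr_right (fun _ => ⟨fun h i hi => ?_, fun h t ht => ?_⟩)
  · have := h (i + K) (by omega)
    rw [Nat.add_mod_right, Nat.mod_eq_of_lt hi, show i + K + 1 = (i + 1) + K by omega,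
      Nat.add_mod_right] at this
    exact this
  · have := h (t % K) (Nat.mod_lt _ hK)
    rw [Nat.mod_add_mod] at this
    have e : (t % K + K - 1) % K = (t - 1) % K := by
      obtain ⟨s, rfl⟩ : ∃ s, t = s + 1 := ⟨t - 1, by omega⟩
      obtain ⟨k, rfl⟩ : ∃ k, K = k + 1 := ⟨K - 1, by omega⟩
      rw [show (s + 1) % (k + 1) + (k + 1) - 1 = (s + 1) % (k + 1) + k by omega, Nat.mod_add_mod,
        show s + 1 + k = s + (k + 1) by omega, Nat.add_mod_right, Nat.add_sub_cancel]
    rw [e] at this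
    exact this

end Pool.Agent.H90.HBCycProof
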