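import Mathlib

set_option autoImplicit false

namespace Pool.Agent.H90.HBDefs

/-- The class `F¹_{μ,L}` of scalar `L`-smooth `μ`-strongly convex functions. -/
def InClass (μ L : ℝ) (f : ℝ → ℝ) : Prop :=
  Differentiable ℝ f ∧ ∀ x y : ℝ, x ≠ y →
    μ ≤ (deriv f x - deriv f y) / (x - y) ∧ (deriv f x - deriv f y) / (x - y) ≤ L

/-- `x` is a run of the heavy-ball method on `f` with step size `γ` and momentum `β`. -/
def IsHBRun (γ β : ℝ) (f : ℝ → ℝ) (x : ℕ → ℝ) : Prop :=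
  ∀ t : ℕ, x (t + 2) = (1 + β) * x (t + 1) - β * x t - γ * deriv f (x (t + 1))

/-- `limsup_t |x_t - xs|^(1/t)`, in the extended reals. -/
noncomputable def rate (x : ℕ → ℝ) (xs : ℝ) : EReal :=
  Filter.limsup (fun t : ℕ => ((|x t - xs| ^ (1 / (t : ℝ)) : ℝ) : EReal)) Filter.atTop

end Pool.Agent.H90.HBDefs
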