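import Pool.Agent.H90.HBDefs

set_option autoImplicit false

namespace Pool.Agent.H90.HBProof

open Pool.Agent.H90.HBDefs Filter Topology Set

/-- interpolation of slopes -/
lemma interp {ι : Type} (μ L : ℝ) (hμL : μ ≤ L) (x g : ι → ℝ)
    (h : ∀ i j, |(g i - g j) - (μ + L) / 2 * (x i - x j)| ≤ (L - μ) / 2 * |x i - x j|) :
    ∃ f : ℝ → ℝ, InClass μ L f ∧ ∀ i, deriv f (x i) = g i := by
  classical
  let K : NNReal := ⟨(L - μ) / 2, by linarith⟩
  let F : ℝ → ℝ := fun y => if hy : ∃ i, x i = y then g hy.choose - (μ + L) / 2 * y else 0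
  have hF : ∀ i, F (x i) = g i - (μ + L) / 2 * x i := by
    intro i
    have hy : ∃ j, x j = x i := ⟨i, rfl⟩
    simp only [F, dif_pos hy]
    have := h hy.choose i
    rw [hy.choose_spec, sub_self, abs_zero, mul_zero, mul_zero, sub_zero] at this
    have h2 : g hy.choose - g i = 0 := abs_eq_zero.1 (le_antisymm this (abs_nonneg _))
    linarith
  have hL : LipschitzOnWith K F (range x) := by
    apply LipschitzOnWith.of_dist_le_mul
    rintro _ ⟨i, rfl⟩ _ ⟨j, rfl⟩
    rw [hF, hF, Real.dist_eq, Real.dist_eq]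
    have := h i j
    have e : g i - (μ + L) / 2 * x i - (g j - (μ + L) / 2 * x j) =
      (g i - g j) - (μ + L) / 2 * (x i - x j) := by ring
    rw [e]
    exact this
  obtain ⟨G, hG, hGF⟩ := hL.extend_real
  let g' : ℝ → ℝ := fun y => G y + (μ + L) / 2 * y
  have hg' : Continuous g' := hG.continuous.add (by fun_prop)
  have hd : ∀ y, HasDerivAt (fun u => ∫ t in (0 : ℝ)..u, g' t) (g' y) y := fun y =>
    (hg'.integral_hasStrictDerivAt 0 y).hasDerivAt
  have hde : ∀ y, deriv (fun u => ∫ t in (0 : ℝ)..u, g' t) y = g' y := fun y => (hd y).deriv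
  refine ⟨fun u => ∫ t in (0 : ℝ)..u, g' t, ⟨fun y => (hd y).differentiableAt, ?_⟩, ?_⟩
  · intro a b hab
    rw [hde, hde]
    have h1 := hG.dist_le_mul a b
    rw [Real.dist_eq, Real.dist_eq] at h1
    have hK : (K : ℝ) = (L - μ) / 2 := rfl
    rw [hK] at h1
    have hne : a - b ≠ 0 := sub_ne_zero.2 hab
    have e : (g' a - g' b) / (a - b) = (G a - G b) / (a - b) + (μ + L) / 2 := by
      simp only [g']; field_simp; ring
    have h2 : |(G a - G b) / (a - b)| ≤ (L - μ) / 2 := by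
      rw [abs_div, div_le_iff₀ (abs_pos.2 hne)]; exact h1
    rw [e]
    have := abs_le.1 h2
    constructor <;> linarith [this.1, this.2]
  · intro i
    rw [hde]
    simp only [g']
    rw [← hGF ⟨i, rfl⟩, hF]; ring

lemma exists_min {μ L : ℝ} (hμ : 0 < μ) {f : ℝ → ℝ} (hf : InClass μ L f) :
    ∃ xs, ∀ y, f xs ≤ f y := by
  have hlow : ∀ a b, b < a → μ * (a - b) ≤ deriv f a - deriv f b := fun a b hab => by
    have := (hf.2 a b hab.ne').1
    rwa [le_div_iff₀ (sub_pos.2 hab)] at this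
  have hup : ∀ a b, b < a → deriv f a - deriv f b ≤ L * (a - b) := fun a b hab => by
    have := (hf.2 a b hab.ne').2
    rwa [div_le_iff₀ (sub_pos.2 hab)] at this
  have hμL : μ ≤ L := by
    have := hf.2 1 0 one_ne_zero
    linarith [this.1, this.2]
  have hc : Continuous (deriv f) := by
    apply LipschitzWith.continuous (K := ⟨L, by linarith⟩)
    apply LipschitzWith.of_dist_le_mul
    intro a b
    change |deriv f a - deriv f b| ≤ L * |a - b|
    rcases lt_trichotomy a b with h | h | h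
    · have h1 := hlow b a h
      have h2 := hup b a h
      rw [abs_sub_comm, abs_sub_comm a b, abs_of_nonneg (by nlinarith), abs_of_pos (sub_pos.2 h)]
      exact h2
    · simp [h]
    · have h1 := hlow a b h
      have h2 := hup a b h
      rw [abs_of_nonneg (by nlinarith), abs_of_pos (sub_pos.2 h)]
      exact h2
  obtain ⟨xs, hxs⟩ : (0 : ℝ) ∈ range (deriv f) := by
    set R := |deriv f 0| / μ + 1 with hR
    have hR0 : 0 < R := by positivity
    have hR1 : μ * R = |deriv f 0| + μ := by rw [hR]; field_simp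
    apply mem_range_of_exists_le_of_exists_ge hc
    · refine ⟨-R, ?_⟩
      have := hlow 0 (-R) (by linarith)
      have := le_abs_self (deriv f 0)
      nlinarith
    · refine ⟨R, ?_⟩
      have := hlow R 0 hR0
      have := neg_abs_le (deriv f 0)
      nlinarith
  refine ⟨xs, fun y => ?_⟩
  rcases lt_trichotomy xs y with h | h | h
  · obtain ⟨c, hc1, hc2⟩ := exists_deriv_eq_slope f h hf.1.continuous.continuousOn
      hf.1.differentiableOn
    have := hlow c xs hc1.1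
    have h3 : 0 ≤ (f y - f xs) / (y - xs) := by
      rw [← hc2]; nlinarith [hc1.1]
    have := (div_nonneg_iff.1 h3)
    rcases this with h4 | h4 <;> linarith [h4.1, h4.2]
  · rw [h]
  · obtain ⟨c, hc1, hc2⟩ := exists_deriv_eq_slope f h hf.1.continuous.continuousOn
      hf.1.differentiableOn
    have := hlow xs c hc1.2
    have h3 : (f xs - f y) / (xs - y) ≤ 0 := by
      rw [← hc2]; nlinarith [hc1.2]
    have := (div_nonpos_iff.1 h3)
    rcases this with h4 | h4 <;> linarith [h4.1, h4.2]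

lemma quad_deriv (l y : ℝ) : deriv (fun x : ℝ => l / 2 * x ^ 2) y = l * y := by
  have : HasDerivAt (fun x : ℝ => l / 2 * x ^ 2) (l / 2 * (2 * y)) y := by
    simpa using (hasDerivAt_pow 2 y).const_mul (l / 2)
  rw [this.deriv]; ring

lemma quad_inClass {μ L l : ℝ} (h1 : μ ≤ l) (h2 : l ≤ L) :
    InClass μ L (fun x : ℝ => l / 2 * x ^ 2) := by
  refine ⟨by fun_prop, fun a b hab => ?_⟩
  rw [quad_deriv, quad_deriv, ← mul_sub, mul_div_assoc, div_self (sub_ne_zero.2 hab), mul_one]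
  exact ⟨h1, h2⟩

lemma ev_of_rate {x : ℕ → ℝ} {r r' : ℝ} (h : rate x 0 ≤ r) (hr : r < r') :
    ∀ᶠ t : ℕ in atTop, |x t| ≤ r' ^ t := by
  have h1 : rate x 0 < r' := lt_of_le_of_lt h (by exact_mod_cast hr)
  have h2 := eventually_lt_of_limsup_lt h1
  filter_upwards [h2, eventually_gt_atTop 0] with t ht ht0
  have h3 : |x t - 0| ^ (1 / (t : ℝ)) < r' := by exact_mod_cast ht
  rw [sub_zero] at h3
  have h4 : (|x t| ^ (1 / (t : ℝ))) ^ t ≤ r' ^ t :=
    pow_le_pow_left₀ (by positivity) h3.le t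
  rwa [one_div, Real.rpow_inv_natCast_pow (abs_nonneg _) ht0.ne'] at h4

lemma root_le {A β r : ℝ} (hr : 0 ≤ r)
    (h : ∀ x : ℕ → ℝ, (∀ t, x (t + 2) = A * x (t + 1) - β * x t) → rate x 0 ≤ r)
    {z : ℂ} (hz : z ^ 2 = A * z - β) : ‖z‖ ≤ r := by
  by_contra hlt
  push Not at hlt
  have hrec : ∀ t : ℕ, z ^ (t + 2) = A * z ^ (t + 1) - β * z ^ t := fun t => by
    rw [pow_add, hz]; ring
  have h1 := h (fun t => (z ^ t).re) (fun t => by rw [hrec]; simp)
  have h2 := h (fun t => (z ^ t).im) (fun t => by rw [hrec]; simp)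
  obtain ⟨r', hr1, hr2⟩ := exists_between hlt
  have hr'0 : 0 < r' := lt_of_le_of_lt hr hr1
  have h3 := tendsto_pow_atTop_atTop_of_one_lt (show 1 < ‖z‖ / r' by rwa [one_lt_div hr'0])
  obtain ⟨t, ht1, ht2, ht3⟩ := ((ev_of_rate h1 hr1).and ((ev_of_rate h2 hr1).and
    (h3.eventually_gt_atTop 2))).exists
  have h4 : ‖z ^ t‖ ≤ |(z ^ t).re| + |(z ^ t).im| := Complex.norm_le_abs_re_add_abs_im _
  rw [div_pow, lt_div_iff₀ (by positivity)] at ht3
  rw [norm_pow] at h4
  linarith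

lemma poly_facts {A β r : ℝ} (hr : 0 ≤ r)
    (h : ∀ x : ℕ → ℝ, (∀ t, x (t + 2) = A * x (t + 1) - β * x t) → rate x 0 ≤ r) :
    β ≤ r ^ 2 ∧ 0 ≤ r ^ 2 - A * r + β ∧ 0 ≤ r ^ 2 + A * r + β := by
  rcases le_or_gt 0 (A ^ 2 - 4 * β) with hd | hd
  · obtain ⟨s, hs⟩ : ∃ s : ℝ, s ^ 2 = A ^ 2 - 4 * β := ⟨_, Real.sq_sqrt hd⟩
    have key : ∀ u : ℝ, u ^ 2 = A * u - β → |u| ≤ r := fun u hu => by
      have := root_le hr h (z := (u : ℂ)) (by exact_mod_cast hu)
      simpa using this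
    have h1 := abs_le.1 (key ((A + s) / 2) (by nlinarith))
    have h2 := abs_le.1 (key ((A - s) / 2) (by nlinarith))
    have e : β = (A + s) / 2 * ((A - s) / 2) := by nlinarith
    have eA : A = (A + s) / 2 + (A - s) / 2 := by ring
    generalize (A + s) / 2 = u at *
    generalize (A - s) / 2 = v at *
    rw [e, eA]
    refine ⟨by nlinarith [h1.1, h1.2, h2.1, h2.2], by nlinarith [h1.1, h1.2, h2.1, h2.2],
      by nlinarith [h1.1, h1.2, h2.1, h2.2]⟩
  · obtain ⟨s, hs⟩ : ∃ s : ℝ, s ^ 2 = 4 * β - A ^ 2 := ⟨_, Real.sq_sqrt (by linarith)⟩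
    have h1 := root_le hr h (z := ⟨A / 2, s / 2⟩) (by
      apply Complex.ext <;> simp [pow_two] <;> nlinarith)
    have h2 : ‖(⟨A / 2, s / 2⟩ : ℂ)‖ ^ 2 = β := by
      rw [Complex.sq_norm, Complex.normSq_mk]; nlinarith
    refine ⟨?_, by nlinarith [sq_nonneg (r - A / 2)], by nlinarith [sq_nonneg (r + A / 2)]⟩
    rw [← h2]
    exact pow_le_pow_left₀ (norm_nonneg _) h1 2

lemma abs_sin_mul_le (k : ℕ) (y : ℝ) : |Real.sin (k * y)| ≤ k * |Real.sin y| := by
  induction k with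
  | zero => simp
  | succ k ih =>
    push_cast
    rw [add_mul, one_mul, Real.sin_add]
    refine (abs_add_le _ _).trans ?_
    rw [abs_mul, abs_mul]
    have h1 := Real.abs_cos_le_one y
    have h2 := Real.abs_cos_le_one (k * y)
    have h3 := abs_nonneg (Real.sin y)
    have h4 := abs_nonneg (Real.sin (k * y))
    nlinarith

lemma sin_lower (K : ℕ) (hK : 0 < K) (n : ℕ) :
    1 ≤ K * |Real.sin (Real.pi / K * n + Real.pi / (2 * K))| := by
  refine le_trans ?_ (abs_sin_mul_le K _)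
  have hK' : (K : ℝ) ≠ 0 := by positivity
  have : (K : ℝ) * (Real.pi / K * n + Real.pi / (2 * K)) = ((n : ℤ) : ℝ) * Real.pi + Real.pi / 2 := by
    push_cast; field_simp
  rw [this, Real.sin_add_pi_div_two, Real.abs_cos_int_mul_pi]

noncomputable def XX (K : ℕ) (t : ℕ) : ℝ := Real.cos (2 * Real.pi / K * t + Real.pi / (2 * K))

lemma XX_lip (K : ℕ) (hK : 0 < K) (s t : ℕ) :
    |XX K s - XX K t| ≤ K * |XX K (s + 1) - XX K (t + 1)| := by
  unfold XX
  rw [Real.cos_sub_cos, Real.cos_sub_cos]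
  have e1 : (2 * Real.pi / K * ((s + 1 : ℕ) : ℝ) + Real.pi / (2 * K) +
      (2 * Real.pi / K * ((t + 1 : ℕ) : ℝ) + Real.pi / (2 * K))) / 2 =
      Real.pi / K * ((s + t + 2 : ℕ) : ℝ) + Real.pi / (2 * K) := by push_cast; ring
  have e2 : (2 * Real.pi / K * ((s + 1 : ℕ) : ℝ) + Real.pi / (2 * K) -
      (2 * Real.pi / K * ((t + 1 : ℕ) : ℝ) + Real.pi / (2 * K))) / 2 =
      (2 * Real.pi / K * s + Real.pi / (2 * K) - (2 * Real.pi / K * t + Real.pi / (2 * K))) / 2 := by
    push_cast; ring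
  rw [e1, e2]
  have h1 := sin_lower K hK (s + t + 2)
  have h2 := Real.abs_sin_le_one ((2 * Real.pi / K * s + Real.pi / (2 * K) +
    (2 * Real.pi / K * t + Real.pi / (2 * K))) / 2)
  simp only [abs_mul, abs_neg, abs_two]
  have h3 := abs_nonneg (Real.sin ((2 * Real.pi / K * s + Real.pi / (2 * K) -
    (2 * Real.pi / K * t + Real.pi / (2 * K))) / 2))
  nlinarith

lemma XX_rec (K : ℕ) (t : ℕ) :
    XX K (t + 2) + XX K t = 2 * Real.cos (2 * Real.pi / K) * XX K (t + 1) := by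
  unfold XX
  have e1 : 2 * Real.pi / K * ((t + 2 : ℕ) : ℝ) + Real.pi / (2 * K) =
      (2 * Real.pi / K * ((t + 1 : ℕ) : ℝ) + Real.pi / (2 * K)) + 2 * Real.pi / K := by
    push_cast; ring
  have e2 : 2 * Real.pi / K * (t : ℝ) + Real.pi / (2 * K) =
      (2 * Real.pi / K * ((t + 1 : ℕ) : ℝ) + Real.pi / (2 * K)) - 2 * Real.pi / K := by
    push_cast; ring
  rw [e1, e2, Real.cos_add, Real.cos_sub]; ring

lemma XX_per (K : ℕ) (hK : 0 < K) (j i : ℕ) : XX K (K * j + i) = XX K i := by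
  unfold XX
  have hK' : (K : ℝ) ≠ 0 := by positivity
  have e1 : 2 * Real.pi / K * ((K * j + i : ℕ) : ℝ) + Real.pi / (2 * K) =
      (2 * Real.pi / K * i + Real.pi / (2 * K)) + j * (2 * Real.pi) := by
    push_cast; field_simp; ring
  rw [e1, Real.cos_add_nat_mul_two_pi]

lemma XX_ne (K : ℕ) (hK : 3 ≤ K) : XX K 1 < XX K 0 := by
  unfold XX
  have hK' : (3 : ℝ) ≤ K := by exact_mod_cast hK
  have hp := Real.pi_pos
  apply Real.cos_lt_cos_of_nonneg_of_le_pi
  · positivity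
  · have : 2 * Real.pi / K * ((1 : ℕ) : ℝ) + Real.pi / (2 * K) = Real.pi * (5 / (2 * K)) := by
      push_cast; field_simp; ring
    rw [this]
    have : (5 : ℝ) / (2 * K) ≤ 1 := by rw [div_le_one (by positivity)]; linarith
    nlinarith
  · have : 0 < 2 * Real.pi / K := by positivity
    push_cast; linarith

lemma XX_rate (K : ℕ) (hK : 3 ≤ K) (xs r : ℝ) (hr : r < 1) : (r : EReal) < rate (XX K) xs := by
  obtain ⟨i, hi⟩ : ∃ i, XX K i - xs ≠ 0 := by
    by_contra h
    push Not at h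
    have := XX_ne K hK
    linarith [h 0, h 1]
  obtain ⟨r', h1, h2⟩ := exists_between hr
  refine lt_of_lt_of_le (show (r : EReal) < r' by exact_mod_cast h1) ?_
  apply le_limsup_of_frequently_le'
  have h3 : Tendsto (fun t : ℕ => |XX K i - xs| ^ (1 / (t : ℝ))) atTop (𝓝 (|XX K i - xs| ^ (0 : ℝ))) :=
    Tendsto.rpow tendsto_const_nhds tendsto_one_div_atTop_nhds_zero_nat (Or.inl (abs_ne_zero.2 hi))
  rw [Real.rpow_zero] at h3
  obtain ⟨N, hN⟩ := eventually_atTop.1 (h3.eventually (lt_mem_nhds h2))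
  rw [frequently_atTop]
  intro a
  refine ⟨K * (a + N) + i, by nlinarith, ?_⟩
  have := hN (K * (a + N) + i) (by nlinarith)
  rw [XX_per K (by omega)]
  exact_mod_cast this.le

lemma cycle (K : ℕ) (hK : 0 < K) {γ β μ : ℝ} (hγ : 0 < γ) (hμ : μ ≤ 1) (hβ : β ≤ 1)
    (h1 : (2 - 2 * Real.cos (2 * Real.pi / K)) + (1 - β) * (1 + K) ≤ γ)
    (h2 : γ * μ ≤ (2 - 2 * Real.cos (2 * Real.pi / K)) - (1 - β) * (1 + K)) :
    ∃ f, InClass μ 1 f ∧ IsHBRun γ β f (XX K) := by
  set a := 2 - 2 * Real.cos (2 * Real.pi / K) with ha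
  obtain ⟨f, hf, hg⟩ := interp μ 1 hμ (fun t : ℕ => XX K (t + 1))
    (fun t => (a * XX K (t + 1) - (1 - β) * (XX K (t + 1) - XX K t)) / γ) (by
      intro s t
      have hE := XX_lip K hK s t
      set D := XX K (s + 1) - XX K (t + 1) with hD
      set E := XX K s - XX K t with hE'
      have e : (a * XX K (s + 1) - (1 - β) * (XX K (s + 1) - XX K s)) / γ -
          (a * XX K (t + 1) - (1 - β) * (XX K (t + 1) - XX K t)) / γ - (μ + 1) / 2 * D =
          ((a - γ * ((μ + 1) / 2)) * D - (1 - β) * D + (1 - β) * E) / γ := by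
        rw [hD, hE']; field_simp; ring
      rw [e, abs_div, abs_of_pos hγ, div_le_iff₀ hγ]
      have hδ : 0 ≤ 1 - β := by linarith
      have t1 : |(a - γ * ((μ + 1) / 2)) * D - (1 - β) * D + (1 - β) * E| ≤
          |a - γ * ((μ + 1) / 2)| * |D| + (1 - β) * |D| + (1 - β) * |E| := by
        refine (abs_add_le _ _).trans ?_
        refine add_le_add ((abs_sub _ _).trans ?_) ?_
        · rw [abs_mul, abs_mul, abs_of_nonneg hδ]
        · rw [abs_mul, abs_of_nonneg hδ]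
      have t2 : |a - γ * ((μ + 1) / 2)| ≤ γ * ((1 - μ) / 2) - (1 - β) * (1 + K) := by
        rw [abs_le]; constructor <;> linarith
      have t3 := mul_le_mul_of_nonneg_right t2 (abs_nonneg D)
      have t4 := mul_le_mul_of_nonneg_left hE hδ
      nlinarith)
  refine ⟨f, hf, fun t => ?_⟩
  have := XX_rec K t
  rw [hg t, mul_div_cancel₀ _ hγ.ne', ha]
  linarith

theorem main (γ β : ℝ → ℝ → ℝ) (c κ₀ : ℝ) (hc : 0 < c) (hκ : 0 < κ₀) (hκ1 : κ₀ < 1) :
    ∃ μ L : ℝ, 0 < μ ∧ μ < L ∧ μ / L ≤ κ₀ ∧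
      ∃ (f : ℝ → ℝ) (xs : ℝ) (x : ℕ → ℝ), InClass μ L f ∧ (∀ y, f xs ≤ f y) ∧
        IsHBRun (γ μ L) (β μ L) f x ∧
        ((1 - c * Real.sqrt (μ / L) : ℝ) : EReal) < rate x xs := by
  obtain ⟨K, hK⟩ := exists_nat_ge (max 3 (4 * Real.pi / c))
  have hK3' : (3 : ℝ) ≤ K := (le_max_left _ _).trans hK
  have hK3 : 3 ≤ K := by exact_mod_cast hK3'
  have hKc : 4 * Real.pi / c ≤ K := (le_max_right _ _).trans hK
  have hp := Real.pi_pos
  set a := 2 - 2 * Real.cos (2 * Real.pi / K) with ha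
  have hθ0 : 0 < 2 * Real.pi / K := by positivity
  have hθ1 : 2 * Real.pi / K ≤ c / 2 := by
    rw [div_le_iff₀ hc] at hKc
    rw [div_le_iff₀ (by positivity)]
    linarith
  have ha0 : 0 < a := by
    have : Real.cos (2 * Real.pi / K) < Real.cos 0 := by
      apply Real.cos_lt_cos_of_nonneg_of_le_pi le_rfl _ hθ0
      rw [div_le_iff₀ (by positivity)]; nlinarith
    rw [Real.cos_zero] at this
    linarith
  have ha1 : a ≤ c ^ 2 / 2 := by
    have := Real.one_sub_sq_div_two_le_cos (x := 2 * Real.pi / K)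
    nlinarith
  have hM : 0 < (c + 4 / c) * (1 + K) := by positivity
  obtain ⟨s, hs0, hs⟩ := exists_between (show (0 : ℝ) <
    min (min κ₀ (1 / (2 * c))) (min (a / 2 / ((c + 4 / c) * (1 + K))) (a / 8)) by positivity)
  simp only [lt_min_iff] at hs
  obtain ⟨⟨hs1, hs2⟩, hs3, hs4⟩ := hs
  rw [lt_div_iff₀ (by positivity)] at hs2 hs3
  have hs5 : s < 1 := hs1.trans hκ1
  have hμ1 : s ^ 2 < s := by nlinarith
  refine ⟨s ^ 2, 1, by positivity, by linarith, by linarith, ?_⟩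
  by_contra hcon
  push Not at hcon
  rw [div_one, Real.sqrt_sq hs0.le] at hcon
  set G := γ (s ^ 2) 1
  set B := β (s ^ 2) 1
  set r := 1 - c * s with hr
  have hr0 : 1 / 2 < r := by nlinarith
  have hr1 : r < 1 := by nlinarith
  have hq : ∀ l, s ^ 2 ≤ l → l ≤ 1 → B ≤ r ^ 2 ∧ 0 ≤ r ^ 2 - (1 + B - G * l) * r + B ∧
      0 ≤ r ^ 2 + (1 + B - G * l) * r + B := fun l h1 h2 => by
    apply poly_facts (by linarith)
    intro x hx
    apply hcon (fun x : ℝ => l / 2 * x ^ 2) 0 x (quad_inClass h1 h2)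
    · intro y
      have : 0 ≤ l := le_trans (by positivity) h1
      simp only [ne_eq, OfNat.ofNat_ne_zero, not_false_eq_true, zero_pow, mul_zero]
      positivity
    · intro t
      rw [quad_deriv, hx]; ring
  obtain ⟨q1, q2, -⟩ := hq (s ^ 2) le_rfl (by linarith)
  obtain ⟨-, -, q3⟩ := hq 1 (by linarith) le_rfl
  have hBr : B ≤ r := by nlinarith
  have hG4 : G ≤ 4 := by
    by_contra h
    push Not at h
    nlinarith
  have q4 : c * s * (r - B) ≤ G * s ^ 2 * r := by rw [hr] at q2 ⊢; nlinarith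
  have hGc : c ^ 2 ≤ G := by
    have h1 : r * (c * s) ≤ r - B := by rw [hr] at q1 ⊢; nlinarith
    have h2 : c * s * (r * (c * s)) ≤ G * s ^ 2 * r :=
      le_trans (mul_le_mul_of_nonneg_left h1 (by positivity)) q4
    have h3 : 0 < s ^ 2 * r := by positivity
    by_contra h
    push Not at h
    nlinarith
  have hG0 : 0 < G := lt_of_lt_of_le (by positivity) hGc
  have hδ : 1 - B ≤ (c + 4 / c) * s := by
    have h1 : G * s ^ 2 * r ≤ 4 * s ^ 2 := by
      have : G * r ≤ 4 := by nlinarith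
      nlinarith [sq_nonneg s]
    have h2 : c * (r - B) ≤ 4 * s := by
      have : s * (c * (r - B)) ≤ s * (4 * s) := by nlinarith
      exact le_of_mul_le_mul_left this hs0
    have h3 : r - B ≤ 4 / c * s := by
      rw [div_mul_eq_mul_div, le_div_iff₀ hc]; linarith
    rw [hr] at h3
    linarith
  have hδ2 : (1 - B) * (1 + K) ≤ a / 2 := by
    have := mul_le_mul_of_nonneg_right hδ (show (0 : ℝ) ≤ 1 + K by positivity)
    nlinarith
  obtain ⟨f, hf, hrun⟩ := cycle K (by omega) hG0 (show s ^ 2 ≤ 1 by linarith)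
    (show B ≤ 1 by linarith) (by nlinarith) (by nlinarith [sq_nonneg s])
  obtain ⟨xs, hxs⟩ := exists_min (by positivity) hf
  exact absurd (hcon f xs _ hf hxs hrun) (not_le.2 (XX_rate K hK3 xs r hr1))

end Pool.Agent.H90.HBProof
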