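import Mathlib

namespace Pool.Agent.H90.Had

open Finset

/-- every complex zero of `∑_{k ≤ n} a k * z ^ k` is real (false for the zero polynomial) -/
def RR (n : ℕ) (a : ℕ → ℝ) : Prop :=
  ∀ z : ℂ, ∑ k ∈ range (n + 1), (a k : ℂ) * z ^ k = 0 → z.im = 0

end Pool.Agent.H90.Had
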