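import Mathlib
import Pool.Agent.H90.HadDefs

namespace Pool.Agent.H90.Had

open Finset Polynomial

noncomputable def poly (n : ℕ) (a : ℕ → ℝ) : ℝ[X] := ∑ k ∈ range (n + 1), monomial k (a k)

lemma coeff_poly (n : ℕ) (a : ℕ → ℝ) (k : ℕ) :
    (poly n a).coeff k = if k ≤ n then a k else 0 := by
  simp only [poly, finsetSum_coeff, coeff_monomial]
  rw [Finset.sum_ite_eq' (range (n+1)) k a]
  simp [Nat.lt_succ_iff]

lemma aeval_poly (n : ℕ) (a : ℕ → ℝ) (z : ℂ) :
    aeval z (poly n a) = ∑ k ∈ range (n + 1), (a k : ℂ) * z ^ k := by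
  simp [poly, aeval_monomial]

lemma eval_poly (n : ℕ) (a : ℕ → ℝ) (z : ℝ) :
    eval z (poly n a) = ∑ k ∈ range (n + 1), a k * z ^ k := by
  simp [poly, eval_finsetSum, eval_monomial]

def Fac (q : ℝ[X]) : Prop :=
  ∃ c : ℝ, 0 < c ∧ ∃ l : List ℝ, (∀ r ∈ l, 0 ≤ r) ∧ q = C c * (l.map fun r => X + C r).prod

lemma fac_of_rr {n : ℕ} {a : ℕ → ℝ} (h0 : ∀ k ≤ n, 0 ≤ a k) (h : RR n a) : Fac (poly n a) := by
  set q := poly n a with hq
  have hc : ∀ k, 0 ≤ q.coeff k := fun k => by
    rw [hq, coeff_poly]; split_ifs with hk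
    · exact h0 k hk
    · exact le_rfl
  have hq0 : q ≠ 0 := by
    intro h1
    have := h Complex.I (by rw [← aeval_poly, ← hq, h1]; simp)
    simp at this
  have hlc : 0 < q.leadingCoeff :=
    lt_of_le_of_ne (hc _) (Ne.symm (leadingCoeff_ne_zero.2 hq0))
  set p := q.map (algebraMap ℝ ℂ) with hp
  have hs : p.Splits := IsAlgClosed.splits p
  have hroot : ∀ z ∈ p.roots, z = ((z.re : ℝ) : ℂ) ∧ z.re ≤ 0 := by
    intro z hz
    have hz0 : aeval z q = 0 := by
      have := (mem_roots'.1 hz).2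
      rw [IsRoot, hp, eval_map_algebraMap] at this
      exact this
    have him : z.im = 0 := h z (by rw [← aeval_poly]; exact hz0)
    have hz1 : z = ((z.re : ℝ) : ℂ) := Complex.ext (by simp) (by simp [him])
    refine ⟨hz1, ?_⟩
    by_contra hpos
    push Not at hpos
    have h2 : eval z.re q = 0 := by
      rw [hz1] at hz0
      have h3 : aeval (algebraMap ℝ ℂ z.re) q = algebraMap ℝ ℂ (aeval z.re q) :=
        aeval_algebraMap_apply ℂ z.re q
      have h4 : algebraMap ℝ ℂ (aeval z.re q) = 0 := by rw [← h3]; exact hz0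
      simpa using h4
    have h5 : 0 < eval z.re q := by
      rw [eval_eq_sum_range]
      apply Finset.sum_pos' (fun i _ => mul_nonneg (hc i) (pow_pos hpos i).le)
      exact ⟨q.natDegree, by simp, mul_pos hlc (pow_pos hpos _)⟩
    exact h5.ne' h2
  refine ⟨q.leadingCoeff, hlc, (p.roots.map fun z => -z.re).toList, ?_, ?_⟩
  · intro r hr
    rw [Multiset.mem_toList, Multiset.mem_map] at hr
    obtain ⟨z, hz, rfl⟩ := hr
    linarith [(hroot z hz).2]
  · apply Polynomial.map_injective (algebraMap ℝ ℂ) (algebraMap ℝ ℂ).injective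
    rw [← hp, ← Multiset.prod_coe, ← Multiset.map_coe, Multiset.coe_toList, Polynomial.map_mul,
      map_C, Polynomial.map_multiset_prod, Multiset.map_map, Multiset.map_map]
    conv_lhs => rw [hs.eq_prod_roots]
    congr 1
    · rw [hp, leadingCoeff_map]
    · congr 1
      apply Multiset.map_congr rfl
      intro z hz
      simp only [Function.comp, Polynomial.map_add, map_X, map_C]
      rw [sub_eq_add_neg, ← map_neg]
      congr 2
      rw [map_neg]
      exact congrArg _ (hroot z hz).1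

/-- nonnegative coefficients and the Polya frequency property of order two -/
def PF2 (q : ℝ[X]) : Prop :=
  (∀ k, 0 ≤ q.coeff k) ∧ ∀ i j, i ≤ j → q.coeff i * q.coeff (j + 2) ≤ q.coeff (i + 1) * q.coeff (j + 1)

lemma pf2_mul {q : ℝ[X]} (h : PF2 q) {r : ℝ} (hr : 0 ≤ r) : PF2 ((X + C r) * q) := by
  obtain ⟨h0, h⟩ := h
  have e0 : ((X + C r) * q).coeff 0 = r * q.coeff 0 := by simp [add_mul]
  have e1 : ∀ k, ((X + C r) * q).coeff (k + 1) = q.coeff k + r * q.coeff (k + 1) := by
    intro k; simp [add_mul, coeff_X_mul]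
  constructor
  · intro k
    cases k with
    | zero => rw [e0]; exact mul_nonneg hr (h0 0)
    | succ k => rw [e1]; exact add_nonneg (h0 _) (mul_nonneg hr (h0 _))
  · intro i j hij
    cases i with
    | zero =>
      rw [e0, e1, e1, e1]
      have := h 0 j (Nat.zero_le _)
      have a1 := mul_nonneg (h0 0) (h0 j)
      have a2 := mul_nonneg hr (mul_nonneg (h0 1) (h0 j))
      have a3 := mul_le_mul_of_nonneg_left this (mul_nonneg hr hr)
      simp only [zero_add] at *
      nlinarith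
    | succ i =>
      obtain ⟨j, rfl⟩ : ∃ j', j = j' + 1 := ⟨j - 1, by omega⟩
      have hij' : i ≤ j := by omega
      rw [e1, e1, e1, e1]
      have a1 := h i j hij'
      have a2 := mul_le_mul_of_nonneg_left (h (i+1) (j+1) hij) (mul_nonneg hr hr)
      have a3 : q.coeff i * q.coeff (j + 1 + 2) ≤ q.coeff (i + 1 + 1) * q.coeff (j + 1) := by
        rcases eq_or_lt_of_le hij' with rfl | hlt
        · have := h i (i+1) (by omega)
          linarith
        · exact (h i (j+1) (by omega)).trans (h (i+1) j hlt)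
      have a4 := mul_le_mul_of_nonneg_left a3 hr
      have e : j + 1 + 1 = j + 2 := rfl
      have e' : j + 1 + 1 + 1 = j + 1 + 2 := rfl
      rw [e, e'] at *
      nlinarith

lemma pf2_of_fac {q : ℝ[X]} (h : Fac q) : PF2 q := by
  obtain ⟨c, hc, l, hl, rfl⟩ := h
  induction l with
  | nil =>
    constructor
    · intro k; simp only [List.map_nil, List.prod_nil, mul_one, coeff_C]; split_ifs <;> simp [hc.le]
    · intro i j _; simp [coeff_C]
  | cons r l ih =>
    have := pf2_mul (ih fun x hx => hl x (List.mem_cons_of_mem _ hx)) (hl r List.mem_cons_self)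
    simp only [List.map_cons, List.prod_cons]
    rwa [mul_left_comm]

lemma step_ineq {w : ℝ} (hw : 1 < w) (M : ℕ) : ∃ N : ℕ, ∀ π : ℝ, 0 ≤ π → π ≤ 1 →
    1 + π * (w ^ M - 1) ≤ (1 + π * (w - 1)) ^ (M + N) * (1 + π * (w⁻¹ - 1)) ^ N := by
  have hw0 : 0 < w := by linarith
  set κ := w + w⁻¹ - 2 with hκ
  have hκ0 : 0 < κ := by
    have : κ = (w - 1) ^ 2 / w := by rw [hκ]; field_simp; ring
    rw [this]; exact div_pos (pow_pos (by linarith) 2) hw0
  have hAB : ∀ π : ℝ, (1 + π * (w - 1)) * (1 + π * (w⁻¹ - 1)) = 1 + κ * (π * (1 - π)) := by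
    intro π; rw [hκ]; field_simp; ring
  induction M with
  | zero => exact ⟨0, fun π _ _ => by simp⟩
  | succ M ih =>
    obtain ⟨N, hN⟩ := ih
    obtain ⟨K, hK⟩ := exists_nat_ge (w ^ (M + 1) / κ)
    have hK' : w ^ (M + 1) ≤ K * κ := by rwa [div_le_iff₀ hκ0] at hK
    refine ⟨N + K, fun π h0 h1 => ?_⟩
    have hv : 0 ≤ π * (1 - π) := mul_nonneg h0 (by linarith)
    have hA : 1 ≤ 1 + π * (w - 1) := by nlinarith
    have hWM : 1 ≤ w ^ M := one_le_pow₀ hw.le
    have hE : 1 ≤ 1 + π * (w ^ M - 1) := by nlinarith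
    have hB : 0 ≤ 1 + π * (w⁻¹ - 1) := by
      have : 0 < w⁻¹ := inv_pos.2 hw0
      nlinarith
    have b1 : 1 + w ^ (M + 1) * (π * (1 - π)) ≤ (1 + κ * (π * (1 - π))) ^ K := by
      have := one_add_mul_le_pow (a := κ * (π * (1 - π))) (by nlinarith [mul_nonneg hκ0.le hv]) K
      nlinarith [mul_le_mul_of_nonneg_right hK' hv]
    have b2 : 1 + π * (w ^ (M + 1) - 1) ≤
        (1 + π * (w - 1)) * (1 + π * (w ^ M - 1)) * (1 + w ^ (M + 1) * (π * (1 - π))) := by
      have c1 : 1 ≤ (1 + π * (w - 1)) * (1 + π * (w ^ M - 1)) := one_le_mul_of_one_le_of_one_le hA hE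
      have c2 : 0 ≤ w ^ (M + 1) * (π * (1 - π)) := mul_nonneg (pow_pos hw0 _).le hv
      have c3 : 1 + π * (w ^ (M + 1) - 1) = (1 + π * (w - 1)) * (1 + π * (w ^ M - 1)) +
          (π * (1 - π)) * (1 + w ^ (M + 1) - w - w ^ M) := by ring
      have c4 : (π * (1 - π)) * (1 + w ^ (M + 1) - w - w ^ M) ≤ w ^ (M + 1) * (π * (1 - π)) := by
        nlinarith
      nlinarith
    calc 1 + π * (w ^ (M + 1) - 1)
        ≤ (1 + π * (w - 1)) * (1 + π * (w ^ M - 1)) * (1 + w ^ (M + 1) * (π * (1 - π))) := b2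
      _ ≤ (1 + π * (w - 1)) * ((1 + π * (w - 1)) ^ (M + N) * (1 + π * (w⁻¹ - 1)) ^ N) *
            (1 + κ * (π * (1 - π))) ^ K := by
          apply mul_le_mul (mul_le_mul_of_nonneg_left (hN π h0 h1) (by linarith)) b1
            (by positivity) (by positivity)
      _ = _ := by rw [← hAB, mul_pow]; ring

lemma fac_ineq {w : ℝ} (hw : 1 < w) (M : ℕ) : ∃ N : ℕ, ∀ q : ℝ[X], Fac q → ∀ s : ℝ, 0 < s →
    q.eval (s * w ^ M) * q.eval s ^ (M + 2 * N) ≤
      q.eval (s * w) ^ (M + N) * q.eval (s * w⁻¹) ^ N * q.eval s := by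
  obtain ⟨N, hN⟩ := step_ineq hw M
  have hw0 : 0 < w := by linarith
  refine ⟨N, ?_⟩
  rintro q ⟨c, hc, l, hl, rfl⟩ s hs
  induction l with
  | nil => simp only [List.map_nil, List.prod_nil, mul_one, eval_C]; apply le_of_eq; ring
  | cons r l ih =>
    have ih' := ih fun x hx => hl x (List.mem_cons_of_mem _ hx)
    have hr := hl r List.mem_cons_self
    have hnn : ∀ t : ℝ, 0 ≤ t → 0 ≤ eval t (C c * (l.map fun r => X + C r).prod) := by
      intro t ht
      rw [eval_eq_sum_range]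
      exact Finset.sum_nonneg fun i _ => mul_nonneg
        ((pf2_of_fac ⟨c, hc, l, fun x hx => hl x (List.mem_cons_of_mem _ hx), rfl⟩).1 i)
        (pow_nonneg ht i)
    simp only [List.map_cons, List.prod_cons]
    rw [mul_left_comm]
    generalize C c * (l.map fun r => X + C r).prod = p at *
    simp only [eval_mul, eval_add, eval_X, eval_C]
    have hsr : 0 < s + r := by linarith
    have key := hN (s / (s + r)) (by positivity) (by rw [div_le_one hsr]; linarith)
    have e : ∀ t : ℝ, 1 + s / (s + r) * (t - 1) = (s * t + r) / (s + r) := by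
      intro t; field_simp; ring
    rw [e, e, e, div_pow, div_pow, div_mul_div_comm, div_le_div_iff₀ hsr (by positivity)] at key
    have key2 : (s * w ^ M + r) * (s + r) ^ (M + 2 * N) ≤
        (s * w + r) ^ (M + N) * (s * w⁻¹ + r) ^ N * (s + r) := by
      calc _ = (s * w ^ M + r) * ((s + r) ^ (M + N) * (s + r) ^ N) := by ring
        _ ≤ _ := key
    have := mul_le_mul key2 ih' (mul_nonneg (hnn _ (by positivity)) (pow_nonneg (hnn _ hs.le) _))
      (by positivity)
    calc _ = (s * w ^ M + r) * (s + r) ^ (M + 2 * N) *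
          (eval (s * w ^ M) p * eval s p ^ (M + 2 * N)) := by rw [mul_pow]; ring
      _ ≤ _ := this
      _ = _ := by rw [mul_pow (s * w + r), mul_pow (s * w⁻¹ + r)]; ring

lemma geom_dist {μ : ℝ} (h0 : 0 ≤ μ) (h1 : μ < 1) (k N : ℕ) :
    ∑ i ∈ range N, μ ^ Nat.dist i k ≤ 2 / (1 - μ) := by
  have hs : ∀ m : ℕ, ∑ i ∈ range m, μ ^ i ≤ 1 / (1 - μ) := by
    intro m
    rw [one_div, ← tsum_geometric_of_lt_one h0 h1]
    exact (summable_geometric_of_lt_one h0 h1).sum_le_tsum _ (fun i _ => pow_nonneg h0 i)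
  calc ∑ i ∈ range N, μ ^ Nat.dist i k ≤ ∑ i ∈ range (k + N), μ ^ Nat.dist i k :=
        Finset.sum_le_sum_of_subset_of_nonneg (range_mono (by omega)) fun i _ _ => pow_nonneg h0 _
    _ = ∑ i ∈ range k, μ ^ Nat.dist i k + ∑ i ∈ range N, μ ^ Nat.dist (k + i) k := sum_range_add _ _ _
    _ ≤ ∑ i ∈ range k, μ ^ i + ∑ i ∈ range N, μ ^ i := by
        apply add_le_add
        · rw [← Finset.sum_range_reflect (fun i => μ ^ i) k]
          apply Finset.sum_le_sum
          intro i hi
          rw [mem_range] at hi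
          apply pow_le_pow_of_le_one h0 h1.le
          unfold Nat.dist; omega
        · apply le_of_eq
          apply Finset.sum_congr rfl
          intro i _
          congr 1
          unfold Nat.dist; omega
    _ ≤ 1 / (1 - μ) + 1 / (1 - μ) := add_le_add (hs _) (hs _)
    _ = _ := by ring

lemma decay {q : ℝ[X]} (h : PF2 q) {k : ℕ} {s lam : ℝ} (hs : 0 < s) (hl : 0 ≤ lam)
    (hk : 0 < q.coeff (k + 1)) (h1 : q.coeff (k + 2) * s ≤ lam * q.coeff (k + 1))
    (h2 : q.coeff k ≤ lam * q.coeff (k + 1) * s) (i : ℕ) :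
    q.coeff i * s ^ i ≤ lam ^ Nat.dist i (k + 1) * (q.coeff (k + 1) * s ^ (k + 1)) := by
  obtain ⟨h0, h⟩ := h
  have up : ∀ j, q.coeff (k + 1 + j) * s ^ (k + 1 + j) ≤ lam ^ j * (q.coeff (k + 1) * s ^ (k + 1)) := by
    intro j
    induction j with
    | zero => simp
    | succ j ih =>
      have a1 : q.coeff (k + 1) * q.coeff (k + 1 + (j + 1)) ≤ q.coeff (k + 2) * q.coeff (k + 1 + j) := by
        cases j with
        | zero => simp [mul_comm]
        | succ j =>
          have := h (k + 1) (k + 1 + j) (by omega)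
          exact this
      have a2 : q.coeff (k + 1 + (j + 1)) * s ≤ lam * q.coeff (k + 1 + j) := by
        apply le_of_mul_le_mul_left _ hk
        nlinarith [mul_le_mul_of_nonneg_right a1 hs.le, mul_le_mul_of_nonneg_right h1 (h0 (k + 1 + j))]
      calc q.coeff (k + 1 + (j + 1)) * s ^ (k + 1 + (j + 1))
          = (q.coeff (k + 1 + (j + 1)) * s) * s ^ (k + 1 + j) := by ring
        _ ≤ lam * q.coeff (k + 1 + j) * s ^ (k + 1 + j) :=
          mul_le_mul_of_nonneg_right a2 (pow_pos hs _).le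
        _ = lam * (q.coeff (k + 1 + j) * s ^ (k + 1 + j)) := by ring
        _ ≤ lam * (lam ^ j * (q.coeff (k + 1) * s ^ (k + 1))) := mul_le_mul_of_nonneg_left ih hl
        _ = _ := by ring
  have dn : ∀ j i, i + j = k + 1 → q.coeff i * s ^ i ≤ lam ^ j * (q.coeff (k + 1) * s ^ (k + 1)) := by
    intro j
    induction j with
    | zero => intro i hi; simp at hi; subst hi; simp
    | succ j ih =>
      intro i hi
      have a1 : q.coeff i * q.coeff (k + 1) ≤ q.coeff (i + 1) * q.coeff k := by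
        cases j with
        | zero =>
          have : i = k := by omega
          subst this; simp [mul_comm]
        | succ j =>
          obtain ⟨k', rfl⟩ : ∃ k', k = k' + 1 := ⟨k - 1, by omega⟩
          exact h i k' (by omega)
      have a2 : q.coeff i ≤ lam * q.coeff (i + 1) * s := by
        apply le_of_mul_le_mul_right _ hk
        nlinarith [mul_le_mul_of_nonneg_left h2 (h0 (i + 1))]
      calc q.coeff i * s ^ i ≤ lam * q.coeff (i + 1) * s * s ^ i :=
          mul_le_mul_of_nonneg_right a2 (pow_pos hs _).le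
        _ = lam * (q.coeff (i + 1) * s ^ (i + 1)) := by ring
        _ ≤ lam * (lam ^ j * (q.coeff (k + 1) * s ^ (k + 1))) :=
          mul_le_mul_of_nonneg_left (ih (i + 1) (by omega)) hl
        _ = _ := by ring
  rcases le_total i (k + 1) with hi | hi
  · have := dn (k + 1 - i) i (by omega)
    rwa [show Nat.dist i (k + 1) = k + 1 - i by unfold Nat.dist; omega]
  · have := up (i - (k + 1))
    rw [show k + 1 + (i - (k + 1)) = i by omega] at this
    rwa [show Nat.dist i (k + 1) = i - (k + 1) by unfold Nat.dist; omega]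

/-- a real-rooted polynomial whose coefficients have a definite log-concavity defect at one place
decay faster than any geometric sequence, uniformly. -/
theorem tail {lam : ℝ} (hl0 : 0 < lam) (hl1 : lam < 1) (W : ℝ) : ∃ K : ℝ, ∀ q : ℝ[X], Fac q →
    ∀ k : ℕ, ∀ s : ℝ, 0 < s → 0 < q.coeff (k + 1) → q.coeff (k + 2) * s ≤ lam * q.coeff (k + 1) →
    q.coeff k ≤ lam * q.coeff (k + 1) * s → 0 ≤ W →
    ∀ j, q.coeff (k + 1 + j) * (s * W) ^ j ≤ K * q.coeff (k + 1) := by
  set w := (1 + lam⁻¹) / 2 with hw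
  have hli : 1 < lam⁻¹ := one_lt_inv_iff₀.2 ⟨hl0, hl1⟩
  have hw1 : 1 < w := by rw [hw]; linarith
  have hw0 : 0 < w := by linarith
  have hμ : lam * w < 1 := by
    have : lam * w = (lam + 1) / 2 := by rw [hw]; field_simp
    rw [this]; linarith
  obtain ⟨M, hM⟩ := pow_unbounded_of_one_lt (max W 1) hw1
  have hM0 : M ≠ 0 := by
    rintro rfl
    simp at hM
  obtain ⟨N, hN⟩ := fac_ineq hw1 M
  set D := 2 / (1 - lam * w) with hD
  have hD0 : 0 < D := div_pos two_pos (by linarith)
  refine ⟨D ^ (M + 2 * N), fun q hq k s hs hk h1 h2 hW j => ?_⟩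
  have hp := pf2_of_fac hq
  have hd := decay hp hs hl0.le hk h1 h2
  set b := q.coeff (k + 1) * s ^ (k + 1) with hb
  have hb0 : 0 < b := mul_pos hk (pow_pos hs _)
  have bnd : ∀ u : ℝ, 0 < u → (∀ i, u ^ i ≤ u ^ (k + 1) * w ^ Nat.dist i (k + 1)) →
      q.eval (s * u) ≤ u ^ (k + 1) * b * D := by
    intro u hu hi
    rw [eval_eq_sum_range]
    calc ∑ i ∈ range (q.natDegree + 1), q.coeff i * (s * u) ^ i
        ≤ ∑ i ∈ range (q.natDegree + 1), u ^ (k + 1) * b * (lam * w) ^ Nat.dist i (k + 1) := by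
          apply Finset.sum_le_sum
          intro i _
          calc q.coeff i * (s * u) ^ i = (q.coeff i * s ^ i) * u ^ i := by ring
            _ ≤ (lam ^ Nat.dist i (k + 1) * b) * (u ^ (k + 1) * w ^ Nat.dist i (k + 1)) :=
              mul_le_mul (hd i) (hi i) (pow_pos hu _).le (by positivity)
            _ = _ := by rw [mul_pow]; ring
      _ = u ^ (k + 1) * b * ∑ i ∈ range (q.natDegree + 1), (lam * w) ^ Nat.dist i (k + 1) := by
          rw [Finset.mul_sum]
      _ ≤ _ := mul_le_mul_of_nonneg_left (geom_dist (by positivity) hμ _ _) (by positivity)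
  have b1 := bnd w hw0 fun i => by
    rw [← pow_add]; apply pow_le_pow_right₀ hw1.le; unfold Nat.dist; omega
  have b2 := bnd w⁻¹ (inv_pos.2 hw0) fun i => by
    rw [inv_pow, inv_pow, inv_mul_eq_div, le_div_iff₀ (pow_pos hw0 _), inv_mul_eq_div,
      div_le_iff₀ (pow_pos hw0 _), ← pow_add]
    apply pow_le_pow_right₀ hw1.le; unfold Nat.dist; omega
  have single : ∀ t : ℝ, 0 ≤ t → ∀ i, q.coeff i * t ^ i ≤ q.eval t := by
    intro t ht i
    rw [eval_eq_sum_range' (n := max (q.natDegree + 1) (i + 1)) (by omega)]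
    exact Finset.single_le_sum (f := fun i => q.coeff i * t ^ i)
      (fun i _ => mul_nonneg (hp.1 i) (pow_nonneg ht i)) (by simp)
  have b3 : b ≤ q.eval s := single s hs.le (k + 1)
  have b4 := single (s * w ^ M) (by positivity) (k + 1 + j)
  have hnn : ∀ t : ℝ, 0 ≤ t → 0 ≤ eval t q := fun t ht =>
    le_trans (mul_nonneg (hp.1 0) (pow_nonneg ht 0)) (single t ht 0)
  have key := hN q hq s hs
  obtain ⟨L, hL⟩ : ∃ L, M + 2 * N = L + 1 := ⟨M + 2 * N - 1, by omega⟩
  have he : 0 < q.eval s := lt_of_lt_of_le hb0 b3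
  have k2 : q.eval (s * w ^ M) * q.eval s ^ L ≤ q.eval (s * w) ^ (M + N) * q.eval (s * w⁻¹) ^ N := by
    apply le_of_mul_le_mul_right _ he
    rw [hL, pow_succ] at key
    linarith
  have k3 : q.eval (s * w ^ M) * b ^ L ≤ (w ^ M) ^ (k + 1) * b ^ (L + 1) * D ^ (M + 2 * N) := by
    calc q.eval (s * w ^ M) * b ^ L ≤ q.eval (s * w ^ M) * q.eval s ^ L :=
          mul_le_mul_of_nonneg_left (pow_le_pow_left₀ hb0.le b3 _) (hnn _ (by positivity))
      _ ≤ _ := k2
      _ ≤ (w ^ (k + 1) * b * D) ^ (M + N) * (w⁻¹ ^ (k + 1) * b * D) ^ N :=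
          mul_le_mul (pow_le_pow_left₀ (hnn _ (by positivity)) b1 _)
            (pow_le_pow_left₀ (hnn _ (by positivity)) b2 _) (pow_nonneg (hnn _ (by positivity)) _)
            (by positivity)
      _ = (w ^ M) ^ (k + 1) * b ^ (M + 2 * N) * D ^ (M + 2 * N) *
            ((w * w⁻¹) ^ (k + 1)) ^ N := by simp only [mul_pow]; ring
      _ = _ := by rw [mul_inv_cancel₀ hw0.ne', hL]; simp
  have k4 : q.eval (s * w ^ M) ≤ (w ^ M) ^ (k + 1) * b * D ^ (M + 2 * N) := by
    apply le_of_mul_le_mul_right _ (pow_pos hb0 L)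
    rw [pow_succ b] at k3
    linarith
  have k5 : q.coeff (k + 1 + j) * (s * w ^ M) ^ j ≤ D ^ (M + 2 * N) * q.coeff (k + 1) := by
    apply le_of_mul_le_mul_right _ (pow_pos (mul_pos hs (pow_pos hw0 M)) (k + 1))
    calc q.coeff (k + 1 + j) * (s * w ^ M) ^ j * (s * w ^ M) ^ (k + 1)
        = q.coeff (k + 1 + j) * (s * w ^ M) ^ (k + 1 + j) := by ring
      _ ≤ (w ^ M) ^ (k + 1) * b * D ^ (M + 2 * N) := b4.trans k4
      _ = _ := by rw [hb, mul_pow]; ring
  refine le_trans (mul_le_mul_of_nonneg_left ?_ (hp.1 _)) k5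
  exact pow_le_pow_left₀ (by positivity)
    (mul_le_mul_of_nonneg_left ((le_max_left _ _).trans hM.le) hs.le) _

end Pool.Agent.H90.Had
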