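import Mathlib
import Pool.Agent.H90.HadA

namespace Pool.Agent.H90.Had

open Finset Polynomial Filter Topology

/-- the weak form of the preserver property used in the proofs -/
def Pres (F : ℝ → ℝ) : Prop :=
  ∀ (n : ℕ) (a : ℕ → ℝ), (∀ k ≤ n, 0 < a k) → RR n a →
    (∀ k ≤ n, F (a k) = 0) ∨ RR n fun k => F (a k)

lemma rr_two {a : ℕ → ℝ} (h2 : 0 < a 2) (h : 4 * a 0 * a 2 ≤ a 1 ^ 2) : RR 2 a := by
  intro z hz
  simp only [Finset.sum_range_succ, Finset.range_zero, Finset.sum_empty] at hz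
  have h1 := congrArg Complex.re hz
  have h3 := congrArg Complex.im hz
  simp [pow_two] at h1 h3
  by_contra hne
  have e : a 1 + 2 * a 2 * z.re = 0 := by
    apply mul_left_cancel₀ hne
    linarith
  have : 0 < z.im * z.im := mul_self_pos.2 hne
  have e2 : a 1 = -2 * a 2 * z.re := by linarith
  rw [e2] at h h1
  nlinarith [mul_pos h2 (mul_pos h2 this)]

lemma disc_of_rr {a : ℕ → ℝ} (h : RR 2 a) : 4 * a 0 * a 2 ≤ a 1 ^ 2 := by
  by_contra hc
  push Not at hc
  have h2 : a 2 ≠ 0 := by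
    intro h0; rw [h0] at hc; nlinarith [sq_nonneg (a 1)]
  set d := Real.sqrt (4 * a 0 * a 2 - a 1 ^ 2) with hd
  have hd0 : 0 < d := Real.sqrt_pos.2 (by linarith)
  have hd2 : d * d = 4 * a 0 * a 2 - a 1 ^ 2 := Real.mul_self_sqrt (by linarith)
  have := h ⟨-a 1 / (2 * a 2), d / (2 * a 2)⟩ (by
    simp only [Finset.sum_range_succ, Finset.range_zero, Finset.sum_empty]
    apply Complex.ext
    · simp [pow_two]; field_simp; nlinarith
    · simp [pow_two]; field_simp; ring)
  simp [h2, hd0.ne'] at this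

lemma Pres.quad {F : ℝ → ℝ} (hF : Pres F) {x y m : ℝ} (hx : 0 < x) (hy : 0 < y) (hm : 0 < m)
    (h : 4 * x * y ≤ m ^ 2) : 4 * F x * F y ≤ F m ^ 2 := by
  let a : ℕ → ℝ := fun k => if k = 0 then x else if k = 1 then m else y
  have hpos : ∀ k ≤ 2, 0 < a k := by
    intro k _; simp only [a]; split_ifs <;> assumption
  rcases hF 2 a hpos (rr_two (by simp [a, hy]) (by simpa [a] using h)) with h1 | h1
  · have := h1 0 (by norm_num)
    simp only [a, if_true] at this
    rw [this]; simp [sq_nonneg]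
  · simpa [a] using disc_of_rr h1

noncomputable def sc (r : ℝ) (m : ℕ) : ℝ := r * ((m + 2) / (m + 1))

noncomputable def bin (x r : ℝ) (m k : ℕ) : ℝ :=
  x / ((2 * m + 2).choose (m + 1) * sc r m ^ (m + 1)) * ((2 * m + 2).choose k * sc r m ^ k)

lemma sc_pos {r : ℝ} (hr : 0 < r) (m : ℕ) : 0 < sc r m := by unfold sc; positivity

lemma rr_binom {c s : ℝ} (hc : 0 < c) (hs : 0 < s) (n : ℕ) :
    RR n fun k => c * (n.choose k * s ^ k) := by
  intro z hz
  have e : ∑ k ∈ range (n + 1), (((c * (n.choose k * s ^ k) : ℝ)) : ℂ) * z ^ k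
      = c * ((s : ℂ) * z + 1) ^ n := by
    rw [add_pow, Finset.mul_sum]
    apply Finset.sum_congr rfl
    intro k _
    push_cast; ring
  rw [e] at hz
  rcases mul_eq_zero.1 hz with h | h
  · exact absurd (by exact_mod_cast h) hc.ne'
  · have h1 := congrArg Complex.im (pow_eq_zero_iff (n := n) (by rintro rfl; simp at h) |>.1 h)
    simpa [hs.ne'] using h1

lemma bin_pos {x r : ℝ} (hx : 0 < x) (hr : 0 < r) (m : ℕ) : ∀ k ≤ 2 * m + 2, 0 < bin x r m k := by
  intro k hk
  have h1 : (0 : ℝ) < (2 * m + 2).choose (m + 1) := by exact_mod_cast Nat.choose_pos (by omega)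
  have h2 : (0 : ℝ) < (2 * m + 2).choose k := by exact_mod_cast Nat.choose_pos hk
  have := sc_pos hr m
  unfold bin; positivity

lemma bin_rr {x r : ℝ} (hx : 0 < x) (hr : 0 < r) (m : ℕ) : RR (2 * m + 2) (bin x r m) := by
  have h1 : (0 : ℝ) < (2 * m + 2).choose (m + 1) := by exact_mod_cast Nat.choose_pos (by omega)
  have := sc_pos hr m
  exact rr_binom (by positivity) this _

lemma bin_mid {x r : ℝ} (hr : 0 < r) (m : ℕ) : bin x r m (m + 1) = x := by
  have h1 : (0 : ℝ) < (2 * m + 2).choose (m + 1) := by exact_mod_cast Nat.choose_pos (by omega)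
  have := sc_pos hr m
  unfold bin; field_simp

lemma bin_succ (x r : ℝ) (m k : ℕ) (hk : k ≤ 2 * m + 2) :
    bin x r m (k + 1) = bin x r m k * (sc r m * ((2 * m + 2 - k) / (k + 1))) := by
  have h := Nat.choose_succ_right_eq (2 * m + 2) k
  have h' : (((2 * m + 2).choose (k + 1) : ℕ) : ℝ) * (k + 1) =
      ((2 * m + 2).choose k : ℕ) * (2 * m + 2 - k) := by
    have := congrArg (Nat.cast : ℕ → ℝ) h
    rw [Nat.cast_mul, Nat.cast_mul, Nat.cast_sub hk] at this
    push_cast at this ⊢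
    exact this
  have h2 : (((2 * m + 2).choose (k + 1) : ℕ) : ℝ) =
      ((2 * m + 2).choose k : ℕ) * ((2 * m + 2 - k) / (k + 1)) := by
    rw [← mul_div_assoc, eq_div_iff (by positivity)]; exact h'
  unfold bin
  rw [h2]; ring

lemma bin_up {x r : ℝ} (hr : 0 < r) (m : ℕ) : bin x r m (m + 2) = x * r := by
  rw [bin_succ x r m (m + 1) (by omega), bin_mid hr]
  unfold sc; push_cast; field_simp; ring

noncomputable def uu (m : ℕ) : ℝ := ((m + 1) / (m + 2)) ^ 2

lemma bin_down {x r : ℝ} (hr : 0 < r) (m : ℕ) : bin x r m m = uu m * (x / r) := by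
  have h := bin_succ x r m m (by omega)
  rw [bin_mid hr] at h
  have e : sc r m * ((2 * m + 2 - m) / (m + 1)) = r / uu m := by
    unfold sc uu; field_simp; ring
  have hu : 0 < uu m := by unfold uu; positivity
  rw [e] at h
  conv_rhs => rw [h]
  field_simp

lemma bin_tendsto {x r : ℝ} (hr : 0 < r) (j : ℕ) :
    Tendsto (fun m => bin x r m (m + 1 + j)) atTop (𝓝 (x * r ^ j)) := by
  induction j with
  | zero => simp [bin_mid hr]
  | succ j ih =>
    have t0 : Tendsto (fun m : ℕ => ((m : ℝ) + 1)⁻¹) atTop (𝓝 0) := by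
      simpa using tendsto_one_div_add_atTop_nhds_zero_nat (𝕜 := ℝ)
    have t1 : Tendsto (fun m : ℕ => r * (1 + ((m : ℝ) + 1)⁻¹) *
        ((1 - j * ((m : ℝ) + 1)⁻¹) / (1 + (j + 1) * ((m : ℝ) + 1)⁻¹))) atTop
        (𝓝 (r * (1 + 0) * ((1 - j * 0) / (1 + (j + 1) * 0)))) := by
      apply Tendsto.mul (tendsto_const_nhds.mul (tendsto_const_nhds.add t0))
      exact Tendsto.div (tendsto_const_nhds.sub (tendsto_const_nhds.mul t0))
        (tendsto_const_nhds.add (tendsto_const_nhds.mul t0)) (by simp)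
    have t2 := ih.mul t1
    simp only [add_zero, mul_zero, sub_zero, mul_one, div_one] at t2
    rw [pow_succ, ← mul_assoc]
    refine t2.congr' ?_
    filter_upwards [eventually_ge_atTop j] with m hm
    rw [← add_assoc, bin_succ x r m (m + 1 + j) (by omega)]
    congr 1
    unfold sc; push_cast; field_simp; ring

lemma Pres.upper {F : ℝ → ℝ} (hF : Pres F) (h0 : ∀ x, 0 < x → 0 ≤ F x) {x r : ℝ} (hx : 0 < x)
    (hr : 0 < r) (m : ℕ) : F (uu m * (x / r)) * F (x * r) ≤ F x ^ 2 := by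
  rcases hF _ _ (bin_pos hx hr m) (bin_rr hx hr m) with h | h
  · have := h m (by omega)
    rw [bin_down hr] at this
    rw [this]; simp [sq_nonneg]
  · have hp := (pf2_of_fac (fac_of_rr (fun k hk => h0 _ (bin_pos hx hr m k hk)) h)).2 m m le_rfl
    simp only [coeff_poly] at hp
    rw [if_pos (by omega), if_pos (by omega), if_pos (by omega), bin_down hr, bin_up hr,
      bin_mid hr] at hp
    nlinarith

lemma Pres.grow {F : ℝ → ℝ} (hF : Pres F) (h0 : ∀ x, 0 < x → 0 ≤ F x) {y m : ℝ} (hy : 0 < y)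
    (h : 2 * y ≤ m) : 2 * F y ≤ F m := by
  have hm : 0 < m := by linarith
  have := hF.quad hy hy hm (by nlinarith)
  apply le_of_sq_le_sq _ (h0 m hm) |> fun h => h
  all_goals nlinarith

lemma Pres.lower {F : ℝ → ℝ} (hF : Pres F) (h0 : ∀ x, 0 < x → 0 ≤ F x) {x r : ℝ} (hx : 0 < x)
    (hr : 1 < r) (hFx : 0 < F x) (hFr : 0 < F (x * r)) {lam : ℝ} (hl0 : 0 < lam) (hl1 : lam < 1) :
    ∀ᶠ m in atTop, lam ^ 2 * F x ^ 2 ≤ F (uu m * (x / r)) * F (x * r) := by
  have hr0 : 0 < r := by linarith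
  set s := lam * F x / F (x * r) with hs
  have hs0 : 0 < s := by positivity
  obtain ⟨K, hK⟩ := tail hl0 hl1 (2 / s)
  obtain ⟨J1, hJ1⟩ := pow_unbounded_of_one_lt (K : ℝ) (by norm_num : (1 : ℝ) < 2)
  obtain ⟨J2, hJ2⟩ := pow_unbounded_of_one_lt (2 : ℝ) hr
  set J := max J1 J2 with hJ
  have hJ1' : K < 2 ^ J := hJ1.trans_le (pow_le_pow_right₀ (by norm_num) (le_max_left _ _))
  have hJ2' : 2 * x < x * r ^ J := by
    have := hJ2.trans_le (pow_le_pow_right₀ hr.le (le_max_right J1 J2))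
    nlinarith
  filter_upwards [(bin_tendsto (x := x) hr0 J).eventually (lt_mem_nhds hJ2'),
    eventually_ge_atTop J] with m hm hmJ
  by_contra hc
  push Not at hc
  rcases hF _ _ (bin_pos hx hr0 m) (bin_rr hx hr0 m) with h | h
  · have := h (m + 1) (by omega)
    rw [bin_mid hr0] at this
    exact hFx.ne' this
  · have hq := fac_of_rr (fun k hk => h0 _ (bin_pos hx hr0 m k hk)) h
    have := hK _ hq m s hs0
    simp only [coeff_poly] at this
    rw [if_pos (by omega), if_pos (by omega), if_pos (by omega), bin_down hr0, bin_up hr0,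
      bin_mid hr0] at this
    have h2 := this hFx (by rw [hs]; field_simp; exact le_rfl) (by
      rw [hs, ← mul_div_assoc (lam * F x), le_div_iff₀ hFr]; nlinarith) (by positivity) J
    rw [if_pos (by omega), mul_div_cancel₀ _ hs0.ne'] at h2
    have h3 := hF.grow h0 hx hm.le
    have h4 : (0 : ℝ) < 2 ^ J := by positivity
    nlinarith

lemma Pres.pos {F : ℝ → ℝ} (hF : Pres F) (h0 : ∀ x, 0 < x → 0 ≤ F x) {y : ℝ} (hy : 0 < y)
    (hFy : 0 < F y) {x : ℝ} (hx : 0 < x) : 0 < F x := by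
  by_contra hc
  have hx0 : F x = 0 := le_antisymm (not_lt.1 hc) (h0 x hx)
  have small : ∀ t, 0 < t → 4 * y * t ≤ x ^ 2 → F t = 0 := by
    intro t ht h
    have := hF.quad hy ht hx h
    rw [hx0] at this
    have h1 := h0 t ht
    nlinarith
  set r := 2 + 4 * y * y / x ^ 2 with hr
  have hr2 : 2 ≤ r := by rw [hr]; have : 0 ≤ 4 * y * y / x ^ 2 := by positivity
                         linarith
  have hFr : 0 < F (y * r) := by
    have := hF.grow h0 hy (m := y * r) (by nlinarith)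
    linarith
  obtain ⟨m, hm⟩ := (hF.lower h0 hy (by linarith) hFy hFr (lam := 1 / 2) (by norm_num)
    (by norm_num)).exists
  have hu0 : 0 < uu m := by unfold uu; positivity
  have hu1 : uu m ≤ 1 := by
    unfold uu
    apply pow_le_one₀ (by positivity)
    rw [div_le_one (by positivity)]; linarith
  rw [small (uu m * (y / r)) (by positivity) ?_] at hm
  · nlinarith [pow_pos hFy 2]
  · have h1 : 4 * y * y ≤ r * x ^ 2 := by
      rw [hr, add_mul, div_mul_cancel₀ _ (by positivity)]; nlinarith [sq_nonneg x]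
    have h2 : 4 * y * (y / r) ≤ x ^ 2 := by
      rw [← mul_div_assoc, div_le_iff₀ (by linarith)]; linarith
    have h3 : uu m * (y / r) ≤ y / r := mul_le_of_le_one_left (by positivity) hu1
    nlinarith

lemma Pres.lim {F : ℝ → ℝ} (hF : Pres F) (hp : ∀ x, 0 < x → 0 < F x) {v x : ℝ} (hv : 0 < v)
    (hx : v < x) : Tendsto (fun m => F (uu m * v)) atTop (𝓝 (F x ^ 2 / F (x ^ 2 / v))) := by
  have h0 : ∀ x, 0 < x → 0 ≤ F x := fun x hx => (hp x hx).le
  have hx0 : 0 < x := by linarith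
  have hr : 1 < x / v := by rw [one_lt_div hv]; exact hx
  have e1 : x / (x / v) = v := by field_simp
  have e2 : x * (x / v) = x ^ 2 / v := by ring
  have hFr : 0 < F (x ^ 2 / v) := hp _ (by positivity)
  set L := F x ^ 2 / F (x ^ 2 / v) with hL
  have hL0 : 0 < L := div_pos (pow_pos (hp x hx0) 2) hFr
  rw [tendsto_order]
  constructor
  · intro b hb
    have hc : Tendsto (fun lam : ℝ => lam ^ 2 * L) (𝓝[<] 1) (𝓝 (1 ^ 2 * L)) :=
      ((continuous_pow 2).mul continuous_const).continuousAt.tendsto.mono_left nhdsWithin_le_nhds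
    simp only [one_pow, one_mul] at hc
    obtain ⟨lam, h1, h2⟩ := ((hc.eventually (lt_mem_nhds hb)).and
      (Ioo_mem_nhdsLT (show (0 : ℝ) < 1 by norm_num))).exists
    filter_upwards [hF.lower h0 hx0 hr (hp x hx0) (by rw [e2]; exact hFr) h2.1 h2.2] with m hm
    rw [e1, e2] at hm
    refine h1.trans_le ?_
    rw [hL, ← mul_div_assoc, div_le_iff₀ hFr]
    exact hm
  · intro b hb
    refine Eventually.of_forall fun m => lt_of_le_of_lt ?_ hb
    have := hF.upper h0 hx0 (show 0 < x / v by positivity) m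
    rw [e1, e2] at this
    rw [hL, le_div_iff₀ hFr]
    exact this

lemma Pres.mul {F : ℝ → ℝ} (hF : Pres F) (hp : ∀ x, 0 < x → 0 < F x) {y d : ℝ} (hy : 0 < y)
    (hd : 0 < d) : F (y * d) * F 1 = F y * F d := by
  have main : ∀ d, 1 ≤ d → ∀ y1 y2, 0 < y1 → 0 < y2 → F (y1 * d) * F y2 = F y1 * F (y2 * d) := by
    intro d hd y1 y2 h1 h2
    have hd0 : 0 < d := by linarith
    set v := min y1 y2 / (2 * d) with hv
    have hm : 0 < min y1 y2 := lt_min h1 h2
    have hv0 : 0 < v := by positivity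
    have hvd : v * d = min y1 y2 / 2 := by rw [hv]; field_simp
    have aux : ∀ y, 0 < y → v * d < y → ∃ x, v * d < x ∧ x ^ 2 / v = y * d ∧ x ^ 2 / (v * d) = y := by
      intro y hy hlt
      refine ⟨Real.sqrt (y * (v * d)), ?_, ?_, ?_⟩
      · apply Real.lt_sqrt_of_sq_lt; nlinarith [mul_pos hv0 hd0]
      · rw [Real.sq_sqrt (by positivity)]; field_simp
      · rw [Real.sq_sqrt (by positivity)]; field_simp
    obtain ⟨x1, a1, b1, c1⟩ := aux y1 h1 (by linarith [min_le_left y1 y2])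
    obtain ⟨x2, a2, b2, c2⟩ := aux y2 h2 (by linarith [min_le_right y1 y2])
    have hle : v ≤ v * d := le_mul_of_one_le_right hv0.le hd
    have e1 := tendsto_nhds_unique (hF.lim hp hv0 (hle.trans_lt a1)) (hF.lim hp hv0 (hle.trans_lt a2))
    have e2 := tendsto_nhds_unique (hF.lim hp (mul_pos hv0 hd0) a1) (hF.lim hp (mul_pos hv0 hd0) a2)
    rw [b1, b2] at e1
    rw [c1, c2] at e2
    have p1 := hp _ (mul_pos h1 hd0)
    have p2 := hp _ (mul_pos h2 hd0)
    have p3 := hp _ h1
    have p4 := hp _ h2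
    have p5 := pow_pos (hp x1 ((mul_pos hv0 hd0).trans a1)) 2
    have p6 := pow_pos (hp x2 ((mul_pos hv0 hd0).trans a2)) 2
    rw [div_eq_div_iff p1.ne' p2.ne'] at e1
    rw [div_eq_div_iff p3.ne' p4.ne'] at e2
    apply mul_left_cancel₀ p6.ne'
    calc F x2 ^ 2 * (F (y1 * d) * F y2) = (F x2 ^ 2 * F (y1 * d)) * F y2 := by ring
      _ = (F x1 ^ 2 * F y2) * F (y2 * d) := by rw [← e1]; ring
      _ = _ := by rw [e2]; ring
  rcases le_total 1 d with h | h
  · simpa using main d h y 1 hy one_pos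
  · have hi : 1 ≤ d⁻¹ := one_le_inv_iff₀.2 ⟨hd, h⟩
    have := main d⁻¹ hi (y * d) d (mul_pos hy hd) hd
    rw [mul_assoc, mul_inv_cancel₀ hd.ne', mul_one] at this
    linarith

/-- a nonzero preserver is a power function -/
theorem Pres.power {F : ℝ → ℝ} (hF : Pres F) (h0 : ∀ x, 0 < x → 0 ≤ F x) {y : ℝ} (hy : 0 < y)
    (hFy : 0 < F y) : ∃ c α : ℝ, 0 < c ∧ 1 ≤ α ∧ ∀ x, 0 < x → F x = c * x ^ α := by
  have hp : ∀ x, 0 < x → 0 < F x := fun x hx => hF.pos h0 hy hFy hx
  have h1 := hp 1 one_pos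
  let φ : ℝ →+ ℝ := AddMonoidHom.mk' (fun t => Real.log (F (Real.exp t) / F 1)) (by
    intro a b
    have ha := hp _ (Real.exp_pos a)
    have hb := hp _ (Real.exp_pos b)
    rw [← Real.log_mul (by positivity) (by positivity), Real.exp_add]
    congr 1
    have := hF.mul hp (Real.exp_pos a) (Real.exp_pos b)
    field_simp
    linarith)
  have hφ : ∀ t, φ t = Real.log (F (Real.exp t) / F 1) := fun t => rfl
  have big : ∀ t, Real.log 2 ≤ t → Real.log 2 ≤ φ t := by
    intro t ht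
    rw [hφ]
    apply Real.log_le_log two_pos
    rw [le_div_iff₀ h1]
    apply hF.grow h0 one_pos
    have := Real.exp_le_exp.2 ht
    rw [Real.exp_log two_pos] at this
    linarith
  have l2 : 0 < Real.log 2 := Real.log_pos (by norm_num)
  have nn : ∀ t, 0 ≤ t → 0 ≤ φ t := by
    intro t ht
    rcases eq_or_lt_of_le ht with rfl | ht
    · simp
    obtain ⟨n, hn⟩ := exists_nat_ge (Real.log 2 / t)
    rw [div_le_iff₀ ht] at hn
    have := big _ hn
    rw [← nsmul_eq_mul, map_nsmul, nsmul_eq_mul] at this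
    by_contra hc
    push Not at hc
    nlinarith [mul_nonneg (Nat.cast_nonneg (α := ℝ) n) (neg_nonneg.2 hc.le)]
  have mono : Monotone φ := by
    intro a b hab
    have := nn (b - a) (by linarith)
    rw [map_sub] at this
    linarith
  have hc : Continuous φ := by
    apply φ.continuous_of_isBounded_nhds_zero (Icc_mem_nhds (show (-1 : ℝ) < 0 by norm_num)
      (show (0 : ℝ) < 1 by norm_num))
    apply (Metric.isBounded_Icc (φ (-1)) (φ 1)).subset
    rintro _ ⟨t, ht, rfl⟩
    exact ⟨mono ht.1, mono ht.2⟩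
  have lin : ∀ t, φ t = t * φ 1 := by
    intro t
    have := map_real_smul φ hc t 1
    simpa using this
  refine ⟨F 1, φ 1, h1, ?_, fun x hx => ?_⟩
  · have := big _ le_rfl
    rw [lin] at this
    nlinarith
  · have := lin (Real.log x)
    rw [hφ, Real.exp_log hx] at this
    rw [Real.rpow_def_of_pos hx, ← this, Real.exp_log (div_pos (hp x hx) h1)]
    field_simp

end Pool.Agent.H90.Had
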