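import Mathlib
import Pool.Agent.H90.HadA

namespace Pool.Agent.H90.Had

open Finset Polynomial Filter Topology Metric

lemma vit0 {R C : ℝ} (hR : 0 < R) {D : ℕ → ℂ → ℂ}
    (hd : ∀ᶠ j in atTop, DifferentiableOn ℂ (D j) (ball 0 R) ∧ ∀ z ∈ ball (0 : ℂ) R, ‖D j z‖ ≤ C)
    (ht : ∀ t : ℝ, 0 < t → t < R → Tendsto (fun j => D j t) atTop (𝓝 0)) :
    Tendsto (fun j => D j 0) atTop (𝓝 0) := by
  rw [Metric.tendsto_nhds]
  intro ε hε
  obtain ⟨j0, hj0⟩ := hd.exists
  have hC : 0 ≤ C := (norm_nonneg _).trans (hj0.2 0 (mem_ball_self hR))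
  set t := min (R / 2) (ε * R / (4 * (C + 1))) with htdef
  have ht0 : 0 < t := lt_min (by positivity) (by positivity)
  have htR : t < R := (min_le_left _ _).trans_lt (by linarith)
  have ht2 : 2 * C / R * t < ε / 2 := by
    have h1 : t ≤ ε * R / (4 * (C + 1)) := min_le_right _ _
    calc 2 * C / R * t ≤ 2 * C / R * (ε * R / (4 * (C + 1))) :=
          mul_le_mul_of_nonneg_left h1 (by positivity)
      _ = ε / 2 * (C / (C + 1)) := by field_simp; ring
      _ < ε / 2 := mul_lt_of_lt_one_right (by positivity) (by rw [div_lt_one (by positivity)]; linarith)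
  filter_upwards [hd, (Metric.tendsto_nhds.1 (ht t ht0 htR)) (ε / 2) (by positivity)] with j hj h2
  have hm : Set.MapsTo (D j) (ball 0 R) (closedBall (D j 0) (2 * C)) := by
    intro z hz
    rw [mem_closedBall, dist_eq_norm]
    linarith [norm_sub_le (D j z) (D j 0), hj.2 z hz, hj.2 0 (mem_ball_self hR)]
  have h3 := Complex.dist_le_div_mul_dist_of_mapsTo_ball hj.1 hm (z := (t : ℂ))
    (by simpa [abs_of_pos ht0] using htR)
  have h4 : dist (t : ℂ) 0 = t := by simp [abs_of_pos ht0]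
  rw [h4] at h3
  linarith [dist_triangle (D j 0) (D j t) 0, dist_comm (D j 0) (D j t)]

lemma vitm {R : ℝ} (hR : 0 < R) {ζ : ℂ} (hζ : ζ ∈ ball (0 : ℂ) R) (m : ℕ) :
    ∀ (C : ℝ) (D : ℕ → ℂ → ℂ),
    (∀ᶠ j in atTop, DifferentiableOn ℂ (D j) (ball 0 R) ∧ ∀ z ∈ ball (0 : ℂ) R, ‖D j z‖ ≤ C) →
    (∀ t : ℝ, 0 < t → t < R → Tendsto (fun j => D j t) atTop (𝓝 0)) →
    ∀ η : ℝ, 0 < η → ∀ᶠ j in atTop, ‖D j ζ‖ ≤ C * (‖ζ‖ / R) ^ m + η := by
  have hζ' : ‖ζ‖ < R := by simpa using hζ
  induction m with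
  | zero =>
    intro C D hd _ η hη
    filter_upwards [hd] with j hj
    simp only [pow_zero, mul_one]
    linarith [hj.2 ζ hζ]
  | succ m ih =>
    intro C D hd ht η hη
    have h0 := vit0 hR hd ht
    set e := η / (2 + R) with he
    have he0 : 0 < e := by positivity
    have hsm : ∀ᶠ j in atTop, ‖D j 0‖ < e := by
      simpa using (Metric.tendsto_nhds.1 h0) e he0
    have := ih ((C + e) / R) (fun j => dslope (D j) 0) (by
      filter_upwards [hd, hsm] with j hj h1
      refine ⟨(Complex.differentiableOn_dslope (ball_mem_nhds _ hR)).2 hj.1, fun z hz => ?_⟩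
      apply Complex.norm_dslope_le_div_of_mapsTo_ball hj.1 _ hz
      intro w hw
      rw [mem_closedBall, dist_eq_norm]
      linarith [norm_sub_le (D j w) (D j 0), hj.2 w hw]) (by
      intro t t0 tR
      have hne : (t : ℂ) ≠ 0 := by exact_mod_cast t0.ne'
      simp only [dslope_of_ne _ hne, slope_def_field]
      simpa using ((ht t t0 tR).sub h0).div_const (t : ℂ)) e he0
    filter_upwards [this, hsm] with j h1 h2
    have e1 : D j ζ = D j 0 + ζ * dslope (D j) 0 ζ := by
      have := sub_smul_dslope (D j) 0 ζ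
      simp only [sub_zero, smul_eq_mul] at this
      rw [this]; ring
    have q1 : (‖ζ‖ / R) ^ (m + 1) ≤ 1 :=
      pow_le_one₀ (by positivity) (by rw [div_le_one hR]; exact hζ'.le)
    calc ‖D j ζ‖ ≤ ‖D j 0‖ + ‖ζ‖ * ‖dslope (D j) 0 ζ‖ := by
          rw [e1, ← norm_mul]; exact norm_add_le _ _
      _ ≤ e + ‖ζ‖ * ((C + e) / R * (‖ζ‖ / R) ^ m + e) :=
          add_le_add h2.le (mul_le_mul_of_nonneg_left h1 (norm_nonneg _))
      _ = e + C * (‖ζ‖ / R) ^ (m + 1) + e * (‖ζ‖ / R) ^ (m + 1) + ‖ζ‖ * e := by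
          rw [pow_succ]; field_simp; ring
      _ ≤ e + C * (‖ζ‖ / R) ^ (m + 1) + e * 1 + R * e := by gcongr
      _ = _ := by rw [he]; field_simp; ring

/-- Vitali's theorem on a disc, for convergence along a radius -/
theorem vitali {R C : ℝ} (hR : 0 < R) {D : ℕ → ℂ → ℂ}
    (hd : ∀ᶠ j in atTop, DifferentiableOn ℂ (D j) (ball 0 R) ∧ ∀ z ∈ ball (0 : ℂ) R, ‖D j z‖ ≤ C)
    (ht : ∀ t : ℝ, 0 < t → t < R → Tendsto (fun j => D j t) atTop (𝓝 0))
    {ζ : ℂ} (hζ : ζ ∈ ball (0 : ℂ) R) : Tendsto (fun j => D j ζ) atTop (𝓝 0) := by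
  have hζ' : ‖ζ‖ < R := by simpa using hζ
  rw [Metric.tendsto_nhds]
  intro ε hε
  have h1 : Tendsto (fun m : ℕ => C * (‖ζ‖ / R) ^ m) atTop (𝓝 (C * 0)) :=
    (tendsto_pow_atTop_nhds_zero_of_lt_one (by positivity) (by rwa [div_lt_one hR])).const_mul C
  rw [mul_zero] at h1
  obtain ⟨m, hm⟩ := (h1.eventually (gt_mem_nhds (show (0 : ℝ) < ε / 2 by positivity))).exists
  filter_upwards [vitm hR hζ m C D hd ht (ε / 4) (by positivity)] with j hj
  rw [dist_zero_right]
  linarith

/-- a logarithm of `q (x e^ζ)` on the strip `|im ζ| < π` -/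
lemma exists_log {q : ℝ[X]} (hq : Fac q) {x : ℝ} (hx : 0 < x) : ∃ K : ℂ → ℂ,
    DifferentiableOn ℂ K {ζ | |ζ.im| < Real.pi} ∧
    (∀ t : ℝ, 0 < q.eval (x * Real.exp t) ∧ K t = (Real.log (q.eval (x * Real.exp t)) : ℝ)) ∧
    (∀ (ζ : ℂ) (t : ℝ), |ζ.im| < Real.pi → ζ.re ≤ t → (K ζ).re ≤ Real.log (q.eval (x * Real.exp t))) ∧
    (∀ θ : ℝ, |θ| < Real.pi → |q.eval (-x)| ≤ Real.exp (K (θ * Complex.I)).re) := by
  obtain ⟨c, hc, l, hl, rfl⟩ := hq
  induction l with
  | nil =>
    refine ⟨fun _ => (Real.log c : ℝ), differentiableOn_const _, fun t => by simp [hc],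
      fun ζ t _ _ => by simp, fun θ _ => by simp [Real.exp_log hc, abs_of_pos hc]⟩
  | cons r l ih =>
    obtain ⟨K, k1, k2, k3, k4⟩ := ih fun x hx => hl x (List.mem_cons_of_mem _ hx)
    have hr := hl r List.mem_cons_self
    simp only [List.map_cons, List.prod_cons]
    rw [mul_left_comm]
    generalize C c * (l.map fun r => X + C r).prod = p at *
    simp only [eval_mul, eval_add, eval_X, eval_C]
    have slit : ∀ ζ : ℂ, |ζ.im| < Real.pi → (x : ℂ) * Complex.exp ζ + r ∈ Complex.slitPlane := by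
      intro ζ hζ
      rw [Complex.mem_slitPlane_iff]
      by_cases h0 : ζ.im = 0
      · left
        simp [Complex.exp_re, Complex.exp_im, h0]
        positivity
      · right
        simp only [Complex.add_im, Complex.mul_im, Complex.ofReal_re, Complex.exp_im,
          Complex.ofReal_im, zero_mul, add_zero]
        refine mul_ne_zero hx.ne' (mul_ne_zero (Real.exp_pos _).ne' ?_)
        rw [abs_lt] at hζ
        rw [Ne, Real.sin_eq_zero_iff_of_lt_of_lt hζ.1 hζ.2]
        exact h0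
    refine ⟨fun ζ => Complex.log (x * Complex.exp ζ + r) + K ζ, ?_, ?_, ?_, ?_⟩
    · refine DifferentiableOn.add (fun ζ hζ => ?_) k1
      exact (DifferentiableAt.clog (f := fun ζ : ℂ => (x : ℂ) * Complex.exp ζ + r) (by fun_prop)
        (slit ζ hζ)).differentiableWithinAt
    · intro t
      have h1 : 0 < x * Real.exp t + r := by positivity
      refine ⟨mul_pos h1 (k2 t).1, ?_⟩
      beta_reduce
      rw [(k2 t).2, Real.log_mul h1.ne' (k2 t).1.ne', Complex.ofReal_add (Real.log _),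
        Complex.ofReal_log h1.le]
      push_cast; rfl
    · intro ζ t hζ ht
      have h1 : 0 < x * Real.exp t + r := by positivity
      rw [Complex.add_re, Real.log_mul h1.ne' (k2 t).1.ne', Complex.log_re]
      refine add_le_add ?_ (k3 ζ t hζ ht)
      apply Real.log_le_log (norm_pos_iff.2 (Complex.slitPlane_ne_zero (slit ζ hζ)))
      refine (norm_add_le _ _).trans ?_
      rw [norm_mul, Complex.norm_exp, Complex.norm_real, Complex.norm_real, Real.norm_of_nonneg hx.le,
        Real.norm_of_nonneg hr]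
      gcongr
    · intro θ hθ
      have hs := slit (θ * Complex.I) (by simpa using hθ)
      rw [Complex.add_re, Real.exp_add, abs_mul, Complex.log_re,
        Real.exp_log (norm_pos_iff.2 (Complex.slitPlane_ne_zero hs))]
      refine mul_le_mul ?_ (k4 θ hθ) (abs_nonneg _) (norm_nonneg _)
      apply le_of_sq_le_sq _ (norm_nonneg _) |> fun h => h
      rw [sq_abs, Complex.sq_norm, Complex.normSq_apply]
      simp only [Complex.add_re, Complex.mul_re, Complex.ofReal_re, Complex.exp_ofReal_mul_I_re,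
        Complex.ofReal_im, Complex.exp_ofReal_mul_I_im, zero_mul, sub_zero, Complex.add_im,
        Complex.mul_im, add_zero]
      have e1 : x ^ 2 * (Real.sin θ ^ 2 + Real.cos θ ^ 2) = x ^ 2 := by
        rw [Real.sin_sq_add_cos_sq, mul_one]
      nlinarith [
        mul_nonneg (mul_nonneg hx.le hr) (show 0 ≤ Real.cos θ + 1 by linarith [Real.neg_one_le_cos θ])]

/-- regular growth on the positive axis forces decay on the negative axis -/
theorem sector {q : ℕ → ℝ[X]} (hq : ∀ j, Fac (q j)) {x S : ℕ → ℝ} (hx : ∀ j, 0 < x j)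
    (hS : ∀ j, 0 < S j) {a ρ R θ : ℝ} (ha : 0 ≤ a) (hρ : 0 ≤ ρ) (hθ : 0 < θ) (hθR : θ < R)
    (hR : R < Real.pi)
    (hup : ∀ j, Real.log ((q j).eval (x j * Real.exp R)) / S j ≤ a * Real.exp (ρ * R))
    (hlim : ∀ t, 0 < t → t < R → Tendsto (fun j => Real.log ((q j).eval (x j * Real.exp t)) / S j)
      atTop (𝓝 (a * Real.exp (ρ * t)))) {b : ℝ} (hb : a * Real.cos (ρ * θ) < b) :
    ∀ᶠ j in atTop, |(q j).eval (-x j)| ≤ Real.exp (b * S j) := by
  have hR0 : 0 < R := hθ.trans hθR
  choose K k1 k2 k3 k4 using fun j => exists_log (hq j) (hx j)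
  set B := Real.exp (a * Real.exp (ρ * R)) with hB
  have hball : ∀ z ∈ ball (0 : ℂ) R, |z.im| < Real.pi ∧ z.re ≤ R := by
    intro z hz
    have : ‖z‖ < R := by simpa using hz
    exact ⟨(Complex.abs_im_le_norm z).trans_lt (this.trans hR),
      ((Complex.re_le_norm z).trans this.le)⟩
  let G : ℂ → ℂ := fun z => Complex.exp (a * Complex.exp (ρ * z))
  have hv := vitali (C := B + B) hR0 (D := fun j z => Complex.exp (K j z / S j) - G z)
    (Eventually.of_forall fun j => ⟨?_, fun z hz => ?_⟩) ?_ (ζ := θ * Complex.I)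
    (by simpa [abs_of_pos hθ] using hθR)
  · have h1 : Tendsto (fun j => Complex.exp (K j (θ * Complex.I) / S j)) atTop
        (𝓝 (G (θ * Complex.I))) := by
      simpa using hv.add_const (G (θ * Complex.I))
    have h2 := h1.norm
    have h3 : ‖G (θ * Complex.I)‖ < Real.exp b := by
      simp only [G, Complex.norm_exp]
      apply Real.exp_lt_exp.2
      rw [← mul_assoc, ← Complex.ofReal_mul]
      simpa [Complex.exp_ofReal_mul_I_re, -Complex.ofReal_mul] using hb
    filter_upwards [h2.eventually (gt_mem_nhds h3)] with j hj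
    rw [Complex.norm_exp, Real.exp_lt_exp, Complex.div_ofReal_re, div_lt_iff₀ (hS j)] at hj
    exact (k4 j θ (by rw [abs_of_pos hθ]; linarith)).trans (Real.exp_le_exp.2 hj.le)
  · refine DifferentiableOn.sub ?_ (by simp only [G]; fun_prop)
    exact (((k1 j).mono fun z hz => (hball z hz).1).div_const _).cexp
  · refine (norm_sub_le _ _).trans (add_le_add ?_ ?_)
    · rw [Complex.norm_exp, Complex.div_ofReal_re, hB]
      apply Real.exp_le_exp.2
      exact (div_le_div_of_nonneg_right (k3 j z R (hball z hz).1 (hball z hz).2) (hS j).le).trans (hup j)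
    · simp only [G, Complex.norm_exp, hB]
      apply Real.exp_le_exp.2
      refine (Complex.re_le_norm _).trans ?_
      rw [norm_mul, Complex.norm_real, Real.norm_of_nonneg ha, Complex.norm_exp]
      apply mul_le_mul_of_nonneg_left _ ha
      apply Real.exp_le_exp.2
      simp only [Complex.mul_re, Complex.ofReal_re, Complex.ofReal_im, zero_mul, sub_zero]
      exact mul_le_mul_of_nonneg_left (hball z hz).2 hρ
  · intro t t0 tR
    have h1 := ((Complex.continuous_exp.comp Complex.continuous_ofReal).tendsto _).comp (hlim t t0 tR)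
    have h2 := h1.sub_const (G t)
    have e : (Complex.exp ∘ Complex.ofReal) (a * Real.exp (ρ * t)) - G t = 0 := by
      simp [G]
    rw [e] at h2
    refine h2.congr fun j => ?_
    simp [(k2 j t).2]

end Pool.Agent.H90.Had
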