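import Mathlib
import Pool.Agent.H90.HadC

namespace Pool.Agent.H90.Had

open Finset Polynomial Filter Topology Nat

noncomputable def cc (α : ℝ) (k : ℕ) : ℝ := ((k ! : ℝ)⁻¹) ^ α

noncomputable def bb (α : ℝ) (n k : ℕ) : ℝ := ((n.choose k : ℝ) * ((n : ℝ)⁻¹) ^ k) ^ α

noncomputable def FF (α x : ℝ) : ℝ := ∑' k, cc α k * (-x) ^ k

lemma cc_nonneg (α : ℝ) (k : ℕ) : 0 ≤ cc α k := by unfold cc; positivity

lemma bb_nonneg (α : ℝ) (n k : ℕ) : 0 ≤ bb α n k := by unfold bb; positivity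

lemma cc_le {α : ℝ} (hα : 1 ≤ α) (k : ℕ) : cc α k ≤ (k ! : ℝ)⁻¹ := by
  have h1 : (1 : ℝ) ≤ k ! := by exact_mod_cast Nat.succ_le_of_lt (Nat.factorial_pos k)
  have := Real.rpow_le_rpow_of_exponent_ge (x := (k ! : ℝ)⁻¹) (by positivity)
    (inv_le_one_of_one_le₀ h1) hα
  rwa [Real.rpow_one] at this

lemma choose_le {n : ℕ} (hn : 0 < n) (k : ℕ) : (n.choose k : ℝ) * ((n : ℝ)⁻¹) ^ k ≤ (k ! : ℝ)⁻¹ := by
  have h := Nat.choose_le_pow_div (α := ℝ) k n
  have hn' : (0 : ℝ) < n := by exact_mod_cast hn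
  calc _ ≤ (n : ℝ) ^ k / k ! * ((n : ℝ)⁻¹) ^ k := by gcongr
    _ = _ := by rw [inv_pow]; field_simp

lemma le_choose {n : ℕ} (hn : 0 < n) {k : ℕ} (hk : k ≤ n) :
    (k ! : ℝ)⁻¹ * (1 - k * (k / n)) ≤ (n.choose k : ℝ) * ((n : ℝ)⁻¹) ^ k := by
  have h := Nat.pow_le_choose (α := ℝ) k n
  have hn' : (0 : ℝ) < n := by exact_mod_cast hn
  have hk' : (k : ℝ) ≤ n := by exact_mod_cast hk
  rw [Nat.cast_sub (by omega)] at h
  push_cast at h
  have b := one_add_mul_le_pow (a := -((k : ℝ) / n)) (by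
    have : (k : ℝ) / n ≤ 1 := by rw [div_le_one hn']; exact hk'
    linarith) k
  have b2 : (1 + -((k : ℝ) / n)) ^ k ≤ (((n : ℝ) + 1 - k) * (n : ℝ)⁻¹) ^ k := by
    apply pow_le_pow_left₀
    · have : (k : ℝ) / n ≤ 1 := by rw [div_le_one hn']; exact hk'
      linarith
    · rw [← div_eq_mul_inv, le_div_iff₀ hn']; field_simp; linarith
  calc (k ! : ℝ)⁻¹ * (1 - k * (k / n)) ≤ (k ! : ℝ)⁻¹ * (((n : ℝ) + 1 - k) * (n : ℝ)⁻¹) ^ k := by
        apply mul_le_mul_of_nonneg_left _ (by positivity)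
        linarith
    _ = ((n : ℝ) + 1 - k) ^ k / k ! * ((n : ℝ)⁻¹) ^ k := by rw [mul_pow]; ring
    _ ≤ _ := by gcongr

lemma bb_le {α : ℝ} (hα : 0 ≤ α) {n : ℕ} (hn : 0 < n) (k : ℕ) : bb α n k ≤ cc α k :=
  Real.rpow_le_rpow (by positivity) (choose_le hn k) hα

lemma sum_rpow_le {α : ℝ} (hα : 1 ≤ α) (a : ℕ → ℝ) (ha : ∀ k, 0 ≤ a k) (N : ℕ) :
    ∑ k ∈ range N, a k ^ α ≤ (∑ k ∈ range N, a k) ^ α := by
  induction N with
  | zero => simp; positivity
  | succ N ih =>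
    rw [sum_range_succ, sum_range_succ]
    exact (add_le_add ih le_rfl).trans
      (Real.add_rpow_le_rpow_add (sum_nonneg fun k _ => ha k) (ha N) hα)

lemma eval_bb (α : ℝ) (n : ℕ) {y : ℝ} (hy : 0 ≤ y) : (poly n (bb α n)).eval (y ^ α) =
    ∑ k ∈ range (n + 1), ((n.choose k : ℝ) * ((n : ℝ)⁻¹) ^ k * y ^ k) ^ α := by
  rw [eval_poly]
  apply sum_congr rfl
  intro k _
  rw [Real.mul_rpow (by positivity) (by positivity), bb, Real.rpow_pow_comm hy]

lemma eval_upper {α : ℝ} (hα : 1 ≤ α) {n : ℕ} (hn : 0 < n) {y : ℝ} (hy : 0 ≤ y) :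
    (poly n (bb α n)).eval (y ^ α) ≤ Real.exp (α * y) := by
  rw [eval_bb α n hy]
  refine (sum_rpow_le hα _ (fun k => by positivity) _).trans ?_
  rw [mul_comm α, Real.exp_mul]
  apply Real.rpow_le_rpow (sum_nonneg fun k _ => by positivity) _ (by linarith)
  refine le_trans (sum_le_sum fun k _ => ?_) (Real.sum_le_exp_of_nonneg hy (n + 1))
  rw [div_eq_inv_mul]
  exact mul_le_mul_of_nonneg_right (choose_le hn k) (by positivity)

lemma fact_le (k : ℕ) : ((k + 1)! : ℝ) * Real.exp k ≤ ((k : ℝ) + 1) ^ (k + 2) := by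
  induction k with
  | zero => simp
  | succ k ih =>
    have h1 : Real.exp 1 * ((k : ℝ) + 1) ^ (k + 2) ≤ ((k : ℝ) + 2) ^ (k + 2) := by
      have a1 : ((k : ℝ) + 1) / (k + 2) ≤ Real.exp (-(1 / (k + 2))) := by
        have := Real.add_one_le_exp (-(1 / ((k : ℝ) + 2)))
        refine le_trans (le_of_eq ?_) this
        field_simp; ring
      have a2 := pow_le_pow_left₀ (by positivity) a1 (k + 2)
      rw [← Real.exp_nat_mul, div_pow, div_le_iff₀ (by positivity)] at a2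
      have a3 : ((k + 2 : ℕ) : ℝ) * -(1 / ((k : ℝ) + 2)) = -1 := by push_cast; field_simp
      rw [a3] at a2
      calc Real.exp 1 * ((k : ℝ) + 1) ^ (k + 2) ≤ Real.exp 1 * (Real.exp (-1) * ((k : ℝ) + 2) ^ (k + 2)) := by
            gcongr
        _ = _ := by rw [← mul_assoc, ← Real.exp_add]; simp
    rw [Nat.factorial_succ (k + 1)]
    push_cast
    rw [Real.exp_add]
    calc ((k : ℝ) + 1 + 1) * ((k + 1)! : ℝ) * (Real.exp k * Real.exp 1)
        = ((k : ℝ) + 2) * (Real.exp 1 * (((k + 1)! : ℝ) * Real.exp k)) := by ring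
      _ ≤ ((k : ℝ) + 2) * (Real.exp 1 * ((k : ℝ) + 1) ^ (k + 2)) := by gcongr
      _ ≤ ((k : ℝ) + 2) * ((k : ℝ) + 2) ^ (k + 2) := by gcongr
      _ = _ := by ring

lemma eval_lower {α : ℝ} (hα : 0 ≤ α) {n : ℕ} {y : ℝ} (hy : 1 ≤ y) (hn : 2 * y ^ 2 ≤ n) :
    (Real.exp (y - 2) / (2 * y)) ^ α ≤ (poly n (bb α n)).eval (y ^ α) := by
  have hy0 : 0 ≤ y := by linarith
  rw [eval_bb α n hy0]
  obtain ⟨k, hk⟩ : ∃ k, ⌊y⌋₊ = k + 1 := ⟨⌊y⌋₊ - 1, by have := Nat.floor_pos.2 hy; omega⟩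
  have h1 : (k : ℝ) + 1 ≤ y := by have := Nat.floor_le hy0; rw [hk] at this; exact_mod_cast this
  have h2 : y < (k : ℝ) + 2 := by
    have := Nat.lt_floor_add_one y; rw [hk] at this; push_cast at this; linarith
  have hk0 : (0 : ℝ) ≤ k := Nat.cast_nonneg k
  have hn0 : (0 : ℝ) < n := by nlinarith
  have hkn : k + 1 ≤ n := by
    have : (k : ℝ) + 1 ≤ n := by nlinarith
    exact_mod_cast this
  refine le_trans ?_ (single_le_sum (f := fun k => ((n.choose k : ℝ) * ((n : ℝ)⁻¹) ^ k * y ^ k) ^ α)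
    (fun k _ => by positivity) (a := k + 1) (by simp; omega))
  apply Real.rpow_le_rpow (by positivity) _ hα
  have a1 := le_choose (n := n) (by exact_mod_cast hn0) hkn
  have a2 : (1 : ℝ) / 2 ≤ 1 - ((k + 1 : ℕ) : ℝ) * (((k + 1 : ℕ) : ℝ) / n) := by
    push_cast
    have : ((k : ℝ) + 1) * ((k + 1) / n) ≤ 1 / 2 := by
      rw [← mul_div_assoc, div_le_iff₀ hn0]; nlinarith
    linarith
  have a3 := fact_le k
  have hf : (0 : ℝ) < (k + 1)! := by exact_mod_cast Nat.factorial_pos _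
  have a4 : Real.exp (y - 2) / y ≤ ((k + 1)! : ℝ)⁻¹ * y ^ (k + 1) := by
    rw [div_le_iff₀ (by linarith), inv_mul_eq_div, div_mul_eq_mul_div, le_div_iff₀ hf, ← pow_succ]
    calc Real.exp (y - 2) * ((k + 1)! : ℝ) ≤ Real.exp k * ((k + 1)! : ℝ) := by
          gcongr; linarith
      _ ≤ ((k : ℝ) + 1) ^ (k + 2) := by rw [mul_comm]; exact a3
      _ ≤ _ := by gcongr
  calc Real.exp (y - 2) / (2 * y) = Real.exp (y - 2) / y * (1 / 2) := by field_simp
    _ ≤ ((k + 1)! : ℝ)⁻¹ * y ^ (k + 1) * (1 - ((k + 1 : ℕ) : ℝ) * (((k + 1 : ℕ) : ℝ) / n)) := by gcongr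
    _ = ((k + 1)! : ℝ)⁻¹ * (1 - ((k + 1 : ℕ) : ℝ) * (((k + 1 : ℕ) : ℝ) / n)) * y ^ (k + 1) := by ring
    _ ≤ _ := by gcongr

lemma bb_tendsto {α : ℝ} (hα : 0 ≤ α) (k : ℕ) : Tendsto (fun n => bb α n k) atTop (𝓝 (cc α k)) := by
  have h : Tendsto (fun n : ℕ => (n.choose k : ℝ) * ((n : ℝ)⁻¹) ^ k) atTop (𝓝 ((k ! : ℝ)⁻¹)) := by
    have t1 : Tendsto (fun n : ℕ => (k ! : ℝ)⁻¹ * (1 - k * (k / n))) atTop
        (𝓝 ((k ! : ℝ)⁻¹ * (1 - k * 0))) :=
      (tendsto_const_nhds.sub ((tendsto_const_div_atTop_nhds_zero_nat (k : ℝ)).const_mul _)).const_mul _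
    simp only [mul_zero, sub_zero, mul_one] at t1
    refine tendsto_of_tendsto_of_tendsto_of_le_of_le' t1 tendsto_const_nhds ?_ ?_
    · filter_upwards [eventually_gt_atTop 0, eventually_ge_atTop k] with n h1 h2 using le_choose h1 h2
    · filter_upwards [eventually_gt_atTop 0] with n h1 using choose_le h1 k
  exact h.rpow_const (Or.inr hα)

lemma term_le {α : ℝ} (hα : 1 ≤ α) (x : ℝ) (k : ℕ) : ‖cc α k * (-x) ^ k‖ ≤ |x| ^ k / k ! := by
  rw [norm_mul, norm_pow, norm_neg, Real.norm_of_nonneg (cc_nonneg α k), Real.norm_eq_abs,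
    div_eq_inv_mul]
  exact mul_le_mul_of_nonneg_right (cc_le hα k) (by positivity)

lemma eval_tendsto {α : ℝ} (hα : 1 ≤ α) (x : ℝ) :
    Tendsto (fun n => (poly n (bb α n)).eval (-x)) atTop (𝓝 (FF α x)) := by
  have h := tendsto_tsum_of_dominated_convergence (𝓕 := atTop)
    (f := fun n k => bb α n k * (-x) ^ k) (g := fun k => cc α k * (-x) ^ k)
    (Real.summable_pow_div_factorial |x|)
    (fun k => (bb_tendsto (by linarith) k).mul_const _) (by
      filter_upwards [eventually_gt_atTop 0] with n hn k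
      refine le_trans ?_ (term_le hα x k)
      rw [norm_mul, norm_mul, Real.norm_of_nonneg (bb_nonneg α n k),
        Real.norm_of_nonneg (cc_nonneg α k)]
      exact mul_le_mul_of_nonneg_right (bb_le (by linarith) hn k) (norm_nonneg _))
  refine h.congr fun n => ?_
  rw [eval_poly, tsum_eq_sum]
  intro k hk
  have : n < k := by simpa [Nat.lt_succ_iff] using hk
  simp [bb, Nat.choose_eq_zero_of_lt this, Real.zero_rpow (show α ≠ 0 by linarith)]

lemma log_div_tendsto {ρ : ℝ} (hρ : 0 < ρ) :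
    Tendsto (fun x : ℝ => Real.log x / x ^ ρ) atTop (𝓝 0) :=
  (isLittleO_log_rpow_atTop hρ).tendsto_div_nhds_zero

/-- step (A): real-rootedness of the Hadamard powers forces decay on the negative axis -/
theorem FF_decay {α : ℝ} (h1 : 1 < α) (h2 : α < 2) (h : ∀ n, 0 < n → RR n (bb α n)) :
    ∀ᶠ x in atTop, |FF α x| * x ^ 2 ≤ 1 := by
  by_contra hc
  rw [not_eventually, frequently_atTop] at hc
  choose x hx1 hx2 using fun j : ℕ => hc ((j : ℝ) + 1)
  have hα0 : 0 < α := by linarith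
  set ρ := α⁻¹ with hρ
  have hρ0 : 0 < ρ := inv_pos.2 hα0
  have hx0 : ∀ j, 1 ≤ x j := fun j => le_trans (by simp) (hx1 j)
  have hxp : ∀ j, 0 < x j := fun j => lt_of_lt_of_le one_pos (hx0 j)
  have hxt : Tendsto x atTop atTop :=
    tendsto_atTop_mono hx1 (tendsto_atTop_add_const_right _ _ tendsto_natCast_atTop_atTop)
  have hn : ∀ j, ∃ n : ℕ, 0 < n ∧ 2 * ((x j * Real.exp 4) ^ ρ) ^ 2 ≤ n ∧
      1 < |(poly n (bb α n)).eval (-x j)| * x j ^ 2 := by
    intro j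
    have a1 := ((eval_tendsto h1.le (x j)).abs.mul_const (x j ^ 2)).eventually
      (lt_mem_nhds (not_le.1 (hx2 j)))
    have a2 := (tendsto_natCast_atTop_atTop (R := ℝ)).eventually
      (eventually_ge_atTop (2 * ((x j * Real.exp 4) ^ ρ) ^ 2))
    exact ((eventually_gt_atTop 0).and (a2.and a1)).exists
  choose n n0 n1 n2 using hn
  set θ := (α * Real.pi / 2 + Real.pi) / 2 with hθ
  set R := (θ + Real.pi) / 2 with hR
  have pp := Real.pi_pos
  have hθ1 : α * Real.pi / 2 < θ := by rw [hθ]; nlinarith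
  have hθ2 : θ < Real.pi := by rw [hθ]; nlinarith
  have hθ0 : 0 < θ := lt_trans (by positivity) hθ1
  have hcos : Real.cos (ρ * θ) < 0 := by
    apply Real.cos_neg_of_pi_div_two_lt_of_lt
    · rw [hρ, inv_mul_eq_div, lt_div_iff₀ hα0]; linarith
    · have : ρ * θ < Real.pi := by
        rw [hρ, inv_mul_eq_div, div_lt_iff₀ hα0]; nlinarith
      linarith
  have ey : ∀ j t, (x j * Real.exp t) ^ ρ = x j ^ ρ * Real.exp (ρ * t) := by
    intro j t
    rw [Real.mul_rpow (hxp j).le (Real.exp_pos t).le, ← Real.exp_mul, mul_comm t]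
  have ex : ∀ j t, ((x j * Real.exp t) ^ ρ) ^ α = x j * Real.exp t := by
    intro j t
    rw [hρ, Real.rpow_inv_rpow (mul_pos (hxp j) (Real.exp_pos t)).le hα0.ne']
  have hS : ∀ j, 0 < x j ^ ρ := fun j => Real.rpow_pos_of_pos (hxp j) ρ
  have hfac : ∀ j, Fac (poly (n j) (bb α (n j))) := fun j =>
    fac_of_rr (fun k _ => bb_nonneg α _ k) (h _ (n0 j))
  have hpos : ∀ j t, 0 < (poly (n j) (bb α (n j))).eval (x j * Real.exp t) := fun j t => by
    obtain ⟨K, -, k2, -⟩ := exists_log (hfac j) (hxp j)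
    exact (k2 t).1
  have hup : ∀ j t, Real.log ((poly (n j) (bb α (n j))).eval (x j * Real.exp t)) / x j ^ ρ ≤
      α * Real.exp (ρ * t) := by
    intro j t
    rw [div_le_iff₀ (hS j), Real.log_le_iff_le_exp (hpos j t)]
    have := eval_upper h1.le (n0 j) (y := (x j * Real.exp t) ^ ρ)
      (Real.rpow_nonneg (mul_pos (hxp j) (Real.exp_pos t)).le _)
    rw [ex, ey] at this
    refine this.trans (le_of_eq ?_)
    congr 1; ring
  have hSt : Tendsto (fun j => x j ^ ρ) atTop atTop := (tendsto_rpow_atTop hρ0).comp hxt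
  have hlog : Tendsto (fun j => Real.log (x j) / x j ^ ρ) atTop (𝓝 0) := (log_div_tendsto hρ0).comp hxt
  have key := sector hfac hxp hS hα0.le hρ0.le hθ0 (show θ < R by rw [hR]; linarith)
    (show R < Real.pi by rw [hR]; linarith) (fun j => hup j R) (fun t t0 tR => ?_)
    (b := α * Real.cos (ρ * θ) / 2) (by nlinarith [mul_neg_of_pos_of_neg hα0 hcos])
  · have hb : 0 < -(α * Real.cos (ρ * θ) / 2) / 2 := by nlinarith [mul_neg_of_pos_of_neg hα0 hcos]
    obtain ⟨j, j1, j2⟩ := (key.and (hlog.eventually (gt_mem_nhds hb))).exists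
    have a1 := n2 j
    have a2 : x j ^ 2 = Real.exp (2 * Real.log (x j)) := by
      rw [show (2 : ℝ) * Real.log (x j) = ((2 : ℕ) : ℝ) * Real.log (x j) by norm_num,
        Real.exp_nat_mul, Real.exp_log (hxp j)]
    rw [div_lt_iff₀ (hS j)] at j2
    have a3 : |(poly (n j) (bb α (n j))).eval (-x j)| * x j ^ 2 ≤
        Real.exp (α * Real.cos (ρ * θ) / 2 * x j ^ ρ + 2 * Real.log (x j)) := by
      rw [Real.exp_add, ← a2]; gcongr
    have a4 := Real.exp_le_exp.2 (show α * Real.cos (ρ * θ) / 2 * x j ^ ρ + 2 * Real.log (x j) ≤ 0 by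
      linarith)
    rw [Real.exp_zero] at a4
    linarith
  · have t4 : t ≤ 4 := by linarith [Real.pi_le_four]
    have tl : Tendsto (fun j => α * (Real.exp (ρ * t) - (2 + Real.log 2 + ρ * t) / x j ^ ρ -
        ρ * (Real.log (x j) / x j ^ ρ))) atTop (𝓝 (α * (Real.exp (ρ * t) - 0 - ρ * 0))) :=
      ((tendsto_const_nhds.sub (hSt.const_div_atTop _)).sub (hlog.const_mul ρ)).const_mul α
    simp only [sub_zero, mul_zero] at tl
    refine tendsto_of_tendsto_of_tendsto_of_le_of_le tl tendsto_const_nhds (fun j => ?_)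
      (fun j => hup j t)
    have y1 : 1 ≤ (x j * Real.exp t) ^ ρ :=
      Real.one_le_rpow (one_le_mul_of_one_le_of_one_le (hx0 j) (Real.one_le_exp t0.le)) hρ0.le
    have y2 : (x j * Real.exp t) ^ ρ ≤ (x j * Real.exp 4) ^ ρ := by
      have := hxp j
      gcongr
    have := eval_lower hα0.le (n := n j) y1 (le_trans (by gcongr) (n1 j))
    rw [ex] at this
    have l1 := Real.log_le_log (by positivity) this
    rw [Real.log_rpow (by positivity), Real.log_div (by positivity) (by positivity), Real.log_exp,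
      Real.log_mul (by positivity) (by positivity),
      Real.log_rpow (mul_pos (hxp j) (Real.exp_pos t)),
      Real.log_mul (hxp j).ne' (Real.exp_pos t).ne', Real.log_exp, ey] at l1
    beta_reduce
    rw [le_div_iff₀ (hS j)]
    refine le_trans (le_of_eq ?_) l1
    have := (hS j).ne'
    field_simp; ring

end Pool.Agent.H90.Had
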