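import Mathlib
import Pool.Agent.H90.HadB
import Pool.Agent.H90.HadD

namespace Pool.Agent.H90.Had

open Filter Topology Nat MeasureTheory Set

lemma FF_summable {α : ℝ} (hα : 1 ≤ α) (x : ℝ) : Summable fun k => cc α k * (-x) ^ k :=
  Summable.of_norm_bounded (Real.summable_pow_div_factorial |x|) (term_le hα x)

lemma FF_bound {α : ℝ} (hα : 1 ≤ α) (x : ℝ) : |FF α x| ≤ Real.exp |x| := by
  have h := tsum_of_norm_bounded (NormedSpace.expSeries_div_hasSum_exp |x|) (term_le hα x)
  rw [Real.exp_eq_exp_ℝ]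
  exact h

lemma FF_cont {α : ℝ} (hα : 1 ≤ α) : Continuous (FF α) := by
  rw [continuous_iff_continuousAt]
  intro x
  have h : ContinuousOn (FF α) (Ioo (-(|x| + 1)) (|x| + 1)) := by
    apply continuousOn_tsum (u := fun k => (|x| + 1) ^ k / k !) (fun k => by fun_prop)
      (Real.summable_pow_div_factorial _)
    intro k y hy
    refine (term_le hα y k).trans ?_
    have : |y| ≤ |x| + 1 := abs_le.2 ⟨hy.1.le, hy.2.le⟩
    gcongr
  exact h.continuousAt (Ioo_mem_nhds (by linarith [neg_abs_le x]) (by linarith [le_abs_self x]))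

noncomputable def HH (α u : ℝ) : ℝ := Real.exp u * FF α (Real.exp u)

lemma cc_succ (α : ℝ) (k : ℕ) : cc α (k + 1) = cc α k * (1 / ((k : ℝ) + 1)) ^ α := by
  unfold cc
  rw [← Real.mul_rpow (by positivity) (by positivity), Nat.factorial_succ]
  congr 1
  push_cast; field_simp

lemma identity {α : ℝ} (hα : 1 ≤ α) (L : ℝ) :
    ∫ s in Ioi (0 : ℝ), s ^ (α - 1) * HH α (L - s) = Real.Gamma α * (1 - FF α (Real.exp L)) := by
  have hα0 : 0 < α := by linarith
  have hG := Real.Gamma_pos_of_pos hα0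
  let g : ℕ → ℝ → ℝ := fun k s => (cc α k * (-Real.exp L) ^ k * Real.exp L) *
    (s ^ (α - 1) * Real.exp (-(((k : ℝ) + 1) * s)))
  have hI : ∀ k : ℕ, ∫ s in Ioi (0 : ℝ), s ^ (α - 1) * Real.exp (-(((k : ℝ) + 1) * s)) =
      (1 / ((k : ℝ) + 1)) ^ α * Real.Gamma α := fun k =>
    Real.integral_rpow_mul_exp_neg_mul_Ioi hα0 (by positivity)
  have hint : ∀ k, Integrable (g k) (volume.restrict (Ioi 0)) := fun k =>
    (Integrable.of_integral_ne_zero (by rw [hI]; positivity)).const_mul _
  have hval : ∀ k, ∫ s in Ioi (0 : ℝ), g k s =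
      -(Real.Gamma α * (cc α (k + 1) * (-Real.exp L) ^ (k + 1))) := by
    intro k
    simp only [g]
    rw [integral_const_mul, hI, cc_succ]; ring
  have hnorm : ∀ k, ∫ s in Ioi (0 : ℝ), ‖g k s‖ =
      Real.Gamma α * ‖cc α (k + 1) * (-Real.exp L) ^ (k + 1)‖ := by
    intro k
    have : ∫ s in Ioi (0 : ℝ), ‖g k s‖ = ∫ s in Ioi (0 : ℝ),
        ‖cc α k * (-Real.exp L) ^ k * Real.exp L‖ * (s ^ (α - 1) * Real.exp (-(((k : ℝ) + 1) * s))) := by
      apply setIntegral_congr_fun measurableSet_Ioi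
      intro s hs
      have hs0 : 0 < s := hs
      simp only [g]
      rw [norm_mul, Real.norm_of_nonneg (r := s ^ (α - 1) * _) (by positivity)]
    rw [this, integral_const_mul, hI, cc_succ]
    simp only [norm_mul, norm_pow, norm_neg, Real.norm_of_nonneg (cc_nonneg α k),
      Real.norm_of_nonneg (Real.exp_pos L).le]
    rw [Real.norm_of_nonneg (by positivity)]
    ring
  have hs1 := (summable_nat_add_iff 1).2 (FF_summable hα (Real.exp L))
  have hsum := hasSum_integral_of_summable_integral_norm hint (by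
    simp only [hnorm]
    exact hs1.norm.mul_left _)
  have e1 : ∫ s in Ioi (0 : ℝ), s ^ (α - 1) * HH α (L - s) = ∫ s in Ioi (0 : ℝ), ∑' k, g k s := by
    apply setIntegral_congr_fun measurableSet_Ioi
    intro s _
    simp only [HH, FF, g]
    rw [← tsum_mul_left, ← tsum_mul_left]
    apply tsum_congr
    intro k
    have : Real.exp (-(((k : ℝ) + 1) * s)) = Real.exp (-s) ^ (k + 1) := by
      rw [← Real.exp_nat_mul]; congr 1; push_cast; ring
    rw [this, sub_eq_add_neg L, Real.exp_add, ← neg_mul, mul_pow]; ring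
  rw [e1, ← hsum.tsum_eq]
  simp only [hval]
  rw [tsum_neg, tsum_mul_left, FF, (FF_summable hα (Real.exp L)).tsum_eq_zero_add]
  simp [cc]

lemma HH_bound {α : ℝ} (hα : 1 ≤ α) (hd : ∀ᶠ x in atTop, |FF α x| * x ^ 2 ≤ 1) :
    ∃ C, ∀ u, (1 + |u|) * |HH α u| ≤ C * (1 + u ^ 2)⁻¹ := by
  obtain ⟨u0, hu0⟩ := eventually_atTop.1 (Real.tendsto_exp_atTop.eventually hd)
  set U := max u0 0 with hU
  set C := Real.exp (2 * U) * Real.exp (Real.exp U) with hC
  have hC1 : 1 ≤ C := one_le_mul_of_one_le_of_one_le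
    (Real.one_le_exp (by linarith [le_max_right u0 0])) (Real.one_le_exp (Real.exp_pos U).le)
  have b1 : ∀ u, |HH α u| ≤ C * Real.exp (-|u|) := by
    intro u
    rw [HH, abs_mul, abs_of_pos (Real.exp_pos u)]
    rcases le_total u U with h | h
    · have a1 := FF_bound hα (Real.exp u)
      rw [abs_of_pos (Real.exp_pos u)] at a1
      have a2 : Real.exp (Real.exp u) ≤ Real.exp (Real.exp U) := by gcongr
      have a3 : Real.exp u ≤ Real.exp (2 * U) * Real.exp (-|u|) := by
        rw [← Real.exp_add]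
        apply Real.exp_le_exp.2
        have := le_max_right u0 0
        rcases abs_cases u with h1 | h1 <;> linarith
      calc _ ≤ (Real.exp (2 * U) * Real.exp (-|u|)) * Real.exp (Real.exp U) :=
            mul_le_mul a3 (a1.trans a2) (abs_nonneg _) (by positivity)
        _ = _ := by rw [hC]; ring
    · have a1 := hu0 u ((le_max_left _ _).trans h)
      have a2 : 0 ≤ u := (le_max_right _ _).trans h
      rw [abs_of_nonneg a2, Real.exp_neg, ← div_eq_mul_inv, le_div_iff₀ (Real.exp_pos u)]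
      nlinarith
  refine ⟨6 * C, fun u => ?_⟩
  have a1 := Real.sum_le_exp_of_nonneg (abs_nonneg u) 4
  simp only [Finset.sum_range_succ, Finset.range_zero, Finset.sum_empty, Nat.factorial] at a1
  norm_num at a1
  have a2 : (1 + |u|) * (1 + u ^ 2) ≤ 6 * Real.exp |u| := by
    have : |u| ^ 2 = u ^ 2 := sq_abs u
    nlinarith [abs_nonneg u, sq_nonneg u]
  rw [← div_eq_mul_inv, le_div_iff₀ (by positivity)]
  have a3 := b1 u
  rw [Real.exp_neg, ← div_eq_mul_inv, le_div_iff₀ (Real.exp_pos _)] at a3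
  nlinarith [mul_le_mul_of_nonneg_left a2 (abs_nonneg (HH α u))]

lemma rpow_diff {β L : ℝ} (h0 : 0 < β) (h1 : β ≤ 1) (hL : 0 < L) (u : ℝ) :
    |max (L - u) 0 ^ β - L ^ β| ≤ |u| * L ^ (β - 1) := by
  have key : ∀ s : ℝ, |max (1 - s) 0 ^ β - 1| ≤ |s| := by
    intro s
    rcases le_total s 0 with h | h
    · rw [max_eq_left (by linarith), abs_of_nonpos h]
      have a1 : 1 ≤ (1 - s) ^ β := Real.one_le_rpow (by linarith) h0.le
      have a2 := Real.rpow_le_rpow_of_exponent_le (x := 1 - s) (by linarith) h1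
      rw [Real.rpow_one] at a2
      rw [abs_of_nonneg (by linarith)]; linarith
    · rw [abs_of_nonneg h]
      rcases lt_or_ge s 1 with h' | h'
      · rw [max_eq_left (by linarith)]
        have a1 : (1 - s) ^ β ≤ 1 := Real.rpow_le_one (by linarith) (by linarith) h0.le
        have a2 := Real.rpow_le_rpow_of_exponent_ge (x := 1 - s) (by linarith) (by linarith) h1
        rw [Real.rpow_one] at a2
        rw [abs_of_nonpos (by linarith)]; linarith
      · rw [max_eq_right (by linarith), Real.zero_rpow h0.ne']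
        simpa using h'
  have e : max (L - u) 0 = L * max (1 - u / L) 0 := by
    rw [mul_max_of_nonneg _ _ hL.le]; congr 1
    · field_simp
    · simp
  have hp : 0 < L ^ β := Real.rpow_pos_of_pos hL β
  rw [e, Real.mul_rpow hL.le (le_max_right _ _), ← _root_.mul_sub_one, abs_mul, abs_of_pos hp,
    Real.rpow_sub_one hL.ne']
  have := key (u / L)
  rw [abs_div, abs_of_pos hL] at this
  calc _ ≤ L ^ β * (|u| / L) := by gcongr
    _ = _ := by ring

/-- step (B) -/
theorem not_decay {α : ℝ} (h1 : 1 < α) (h2 : α < 2) : ¬ ∀ᶠ x in atTop, |FF α x| * x ^ 2 ≤ 1 := by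
  intro hd
  obtain ⟨C, hC⟩ := HH_bound h1.le hd
  have hc : Continuous (HH α) := Real.continuous_exp.mul ((FF_cont h1.le).comp Real.continuous_exp)
  have hB : Integrable fun u : ℝ => C * (1 + u ^ 2)⁻¹ := integrable_inv_one_add_sq.const_mul C
  have i1 : Integrable (HH α) := hB.mono' hc.aestronglyMeasurable (ae_of_all _ fun u => by
    have := hC u
    rw [Real.norm_eq_abs]
    nlinarith [mul_nonneg (abs_nonneg u) (abs_nonneg (HH α u))])
  have i2 : Integrable fun u => |u| * |HH α u| :=
    hB.mono' (continuous_abs.mul hc.abs).aestronglyMeasurable (ae_of_all _ fun u => by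
      have := hC u
      rw [Real.norm_of_nonneg (by positivity)]
      nlinarith [abs_nonneg (HH α u)])
  set β := α - 1 with hβ
  have b0 : 0 < β := by linarith
  have b1 : β < 1 := by linarith
  set M := ∫ u, HH α u with hM
  set A := ∫ u, |u| * |HH α u| with hA
  have main : ∀ L, 0 < L → |Real.Gamma α * (1 - FF α (Real.exp L)) - L ^ β * M| ≤ A * L ^ (β - 1) := by
    intro L hL
    have e1 : ∫ s in Ioi (0 : ℝ), s ^ β * HH α (L - s) = ∫ s, max s 0 ^ β * HH α (L - s) := by
      rw [← setIntegral_eq_integral_of_forall_compl_eq_zero (s := Ioi (0 : ℝ))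
        (f := fun s => max s 0 ^ β * HH α (L - s))]
      · apply setIntegral_congr_fun measurableSet_Ioi
        intro s hs
        simp only [max_eq_left (le_of_lt (mem_Ioi.1 hs))]
      · intro s hs
        rw [max_eq_right (by simpa using hs), Real.zero_rpow b0.ne', zero_mul]
    have e2 : ∫ s, max s 0 ^ β * HH α (L - s) = ∫ u, max (L - u) 0 ^ β * HH α u := by
      rw [← integral_sub_left_eq_self (fun u => max (L - u) 0 ^ β * HH α u) volume L]
      simp
    have hb : ∀ u, ‖(max (L - u) 0 ^ β - L ^ β) * HH α u‖ ≤ |u| * |HH α u| * L ^ (β - 1) := by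
      intro u
      rw [norm_mul, Real.norm_eq_abs, Real.norm_eq_abs]
      nlinarith [mul_le_mul_of_nonneg_right (rpow_diff b0 b1.le hL u) (abs_nonneg (HH α u))]
    have i3 : Integrable fun u => (max (L - u) 0 ^ β - L ^ β) * HH α u := by
      refine (i2.mul_const _).mono' (Continuous.aestronglyMeasurable ?_) (ae_of_all _ hb)
      refine Continuous.mul (Continuous.sub ?_ continuous_const) hc
      exact Continuous.rpow_const (by fun_prop) fun _ => Or.inr b0.le
    have e3 : ∫ u, max (L - u) 0 ^ β * HH α u =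
        (∫ u, (max (L - u) 0 ^ β - L ^ β) * HH α u) + L ^ β * M := by
      rw [hM, ← integral_const_mul, ← integral_add i3 (i1.const_mul _)]
      congr 1; ext u; ring
    rw [← identity h1.le L, ← hβ, e1, e2, e3, add_sub_cancel_right, hA, ← integral_mul_const,
      ← Real.norm_eq_abs]
    exact norm_integral_le_of_norm_le (i2.mul_const _) (ae_of_all _ hb)
  have t1 : Tendsto (fun L : ℝ => A * L ^ (β - 1)) atTop (𝓝 0) := by
    have := (tendsto_rpow_neg_atTop (show 0 < 1 - β by linarith)).const_mul A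
    simpa using this
  have t2 : Tendsto (fun L => Real.Gamma α * (1 - FF α (Real.exp L)) - L ^ β * M) atTop (𝓝 0) := by
    apply squeeze_zero_norm' _ t1
    filter_upwards [eventually_gt_atTop 0] with L hL using main L hL
  have t3 : Tendsto (FF α) atTop (𝓝 0) := by
    apply squeeze_zero_norm' _ tendsto_inv_atTop_zero
    filter_upwards [hd, eventually_ge_atTop 1] with x a1 a2
    rw [Real.norm_eq_abs, ← one_div, le_div_iff₀ (by linarith)]
    nlinarith [mul_nonneg (abs_nonneg (FF α x)) (show 0 ≤ x * (x - 1) by nlinarith)]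
  have t4 : Tendsto (fun L => L ^ β * M) atTop (𝓝 (Real.Gamma α)) := by
    have := (((t3.comp Real.tendsto_exp_atTop).const_sub 1).const_mul (Real.Gamma α)).sub t2
    simpa using this
  have hG := Real.Gamma_pos_of_pos (show 0 < α by linarith)
  have t5 := (tendsto_rpow_neg_atTop b0).mul t4
  have hM0 : M = 0 := by
    rw [zero_mul] at t5
    refine tendsto_nhds_unique tendsto_const_nhds (t5.congr' ?_)
    filter_upwards [eventually_gt_atTop 0] with L hL
    rw [← mul_assoc, ← Real.rpow_add hL]; simp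
  rw [hM0] at t4
  simp only [mul_zero] at t4
  exact hG.ne (tendsto_nhds_unique tendsto_const_nhds t4)

lemma rr_smul {n : ℕ} {a : ℕ → ℝ} {c : ℝ} (h : RR n fun k => c * a k) : RR n a := by
  intro z hz
  apply h z
  simp only [Complex.ofReal_mul, mul_assoc]
  rw [← Finset.mul_sum, hz, mul_zero]

/-- classification of the possible preservers -/
theorem Pres.form {F : ℝ → ℝ} (hF : Pres F) (h0 : ∀ x, 0 < x → 0 ≤ F x) {y : ℝ} (hy : 0 < y)
    (hFy : 0 < F y) : ∃ c α : ℝ, 0 < c ∧ (α = 1 ∨ 2 ≤ α) ∧ ∀ x, 0 < x → F x = c * x ^ α := by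
  obtain ⟨c, α, hc, hα, h⟩ := hF.power h0 hy hFy
  refine ⟨c, α, hc, ?_, h⟩
  by_contra hcon
  push Not at hcon
  have h1 : 1 < α := lt_of_le_of_ne hα (Ne.symm hcon.1)
  refine not_decay h1 hcon.2 (FF_decay h1 hcon.2 fun n hn => ?_)
  have hn' : (0 : ℝ) < (n : ℝ)⁻¹ := inv_pos.2 (by exact_mod_cast hn)
  have hpos : ∀ k ≤ n, (0 : ℝ) < 1 * (n.choose k * ((n : ℝ)⁻¹) ^ k) := by
    intro k hk
    have : (0 : ℝ) < n.choose k := by exact_mod_cast Nat.choose_pos hk
    positivity
  rcases hF n _ hpos (rr_binom one_pos hn' n) with h3 | h3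
  · have := h3 0 (Nat.zero_le _)
    rw [h _ (hpos 0 (Nat.zero_le _))] at this
    simp [hc.ne'] at this
  · apply rr_smul (c := c)
    intro z hz
    apply h3 z
    rw [← hz]
    apply Finset.sum_congr rfl
    intro k hk
    beta_reduce
    rw [h _ (hpos k (by simpa [Nat.lt_succ_iff] using hk)), one_mul, bb]

end Pool.Agent.H90.Had
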