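import Mathlib

namespace Pool.Agent.H90.Her

/-- `act` is a continuous left module action of the Banach algebra `A` on the normed space `X` -/
def IsAct {A X : Type} [NonUnitalCStarAlgebra A] [NormedAddCommGroup X] [NormedSpace ℂ X]
    (act : A →ₗ[ℂ] X →ₗ[ℂ] X) : Prop :=
  (∀ a b x, act (a * b) x = act a (act b x)) ∧ ∃ K : ℝ, ∀ a x, ‖act a x‖ ≤ K * ‖a‖ * ‖x‖

/-- the left ideal `L`, as a left Banach `A`-module, is projective: every module morphism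
`φ : L → Y` lifts through every admissible epimorphism `σ : X → Y` of left Banach modules -/
def Proj {A : Type} [NonUnitalCStarAlgebra A] (L : Submodule ℂ A)
    (hL : ∀ a x, x ∈ L → a * x ∈ L) : Prop :=
  ∀ (X Y : Type) [NormedAddCommGroup X] [NormedSpace ℂ X] [CompleteSpace X]
    [NormedAddCommGroup Y] [NormedSpace ℂ Y] [CompleteSpace Y]
    (aX : A →ₗ[ℂ] X →ₗ[ℂ] X) (aY : A →ₗ[ℂ] Y →ₗ[ℂ] Y), IsAct aX → IsAct aY →
    ∀ σ : X →L[ℂ] Y, (∀ a x, σ (aX a x) = aY a (σ x)) → (∃ s : Y →L[ℂ] X, ∀ y, σ (s y) = y) →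
    ∀ φ : L →L[ℂ] Y, (∀ a (x : L), φ ⟨a * x, hL a x x.2⟩ = aY a (φ x)) →
    ∃ ψ : L →L[ℂ] X, (∀ a (x : L), ψ ⟨a * x, hL a x x.2⟩ = aX a (ψ x)) ∧ ∀ x, σ (ψ x) = φ x

/-- every closed left ideal is projective -/
def Hereditary (A : Type) [NonUnitalCStarAlgebra A] : Prop :=
  ∀ L : Submodule ℂ A, IsClosed (L : Set A) → ∀ hL : ∀ a x, x ∈ L → a * x ∈ L, Proj L hL

end Pool.Agent.H90.Her
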