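import Mathlib
import Pool.Agent.H90.HerDefs

namespace Pool.Agent.H90.Her

open Filter Topology TopologicalSpace

lemma gel (C : Type) [NonUnitalCStarAlgebra C] (hc : ∀ x y : C, x * y = y * x) :
    ∃ (K : Type) (_ : TopologicalSpace K) (_ : CompactSpace K) (Φ : C →⋆ₙₐ[ℂ] C(K, ℂ)),
      (∀ a, ‖Φ a‖ = ‖a‖) ∧ ∀ g x, ∃ (c : ℂ) (b : C), Φ (c • x + b * x) = g * Φ x := by
  let _ : NonUnitalCommCStarAlgebra C := { ‹NonUnitalCStarAlgebra C› with mul_comm := hc }
  let G := gelfandStarTransform (Unitization ℂ C)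
  refine ⟨WeakDual.characterSpace ℂ (Unitization ℂ C), inferInstance, inferInstance,
    (G : Unitization ℂ C →⋆ₙₐ[ℂ] C(WeakDual.characterSpace ℂ (Unitization ℂ C), ℂ)).comp
    (Unitization.inrNonUnitalStarAlgHom ℂ C), fun a => ?_, fun g x => ?_⟩
  · show ‖G (a : Unitization ℂ C)‖ = _
    rw [StarAlgEquiv.norm_map, Unitization.norm_inr]
  · obtain ⟨w, rfl⟩ := G.surjective g
    refine ⟨w.fst, w.snd, ?_⟩
    show G ((w.fst • x + w.snd * x : C) : Unitization ℂ C) = G w * G (x : Unitization ℂ C)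
    rw [← map_mul]; congr 1
    ext <;> simp

noncomputable def ph (n : ℕ) (t : ℝ) : ℝ := max 0 (min 1 (2 ^ n * t - 2))

lemma ph_cont (n : ℕ) : Continuous (ph n) := by unfold ph; fun_prop
lemma ph_nonneg (n : ℕ) (t : ℝ) : 0 ≤ ph n t := le_max_left _ _
lemma ph_le (n : ℕ) (t : ℝ) : ph n t ≤ 1 := max_le zero_le_one (min_le_left _ _)
lemma ph_zero {n : ℕ} {t : ℝ} (h : 2 ^ n * t ≤ 2) : ph n t = 0 :=
  max_eq_left ((min_le_right _ _).trans (by linarith))
lemma ph_one {n : ℕ} {t : ℝ} (h : 3 ≤ 2 ^ n * t) : ph n t = 1 := by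
  rw [ph, min_eq_left (by linarith), max_eq_right zero_le_one]
lemma ph_mono (n : ℕ) {t : ℝ} (ht : 0 ≤ t) : ph n t ≤ ph (n + 1) t := by
  unfold ph
  refine max_le_max le_rfl (min_le_min le_rfl ?_)
  have : (0 : ℝ) ≤ 2 ^ n * t := by positivity
  rw [pow_succ]; nlinarith
lemma ph_mul {m n : ℕ} (h : m < n) (t : ℝ) : ph n t * ph m t = ph m t := by
  by_cases e : 2 ^ m * t ≤ 2
  · rw [ph_zero e, mul_zero]
  · push Not at e
    have ht : 0 < t := by
      by_contra h0
      push Not at h0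
      have : (2 : ℝ) ^ m * t ≤ 0 := mul_nonpos_of_nonneg_of_nonpos (by positivity) h0
      linarith
    have : (2 : ℝ) ^ (m + 1) ≤ 2 ^ n := pow_le_pow_right₀ (by norm_num) h
    rw [ph_one, one_mul]
    rw [pow_succ] at this
    nlinarith

lemma au (C : Type) [NonUnitalCStarAlgebra C] (hc : ∀ x y : C, x * y = y * x) [SeparableSpace C]
    (L : Submodule ℂ C) (hcl : IsClosed (L : Set C)) (hL : ∀ a x, x ∈ L → a * x ∈ L) :
    ∃ u : ℕ → C, (∀ n, u n ∈ L) ∧ u 1 = 0 ∧ (∀ m n, m < n → u n * u m = u m) ∧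
      (∀ x ∈ L, Tendsto (fun n => x * u n) atTop (𝓝 x)) ∧
      ∀ (ε : ℕ → ℂ) (S : Finset ℕ) (j : ℕ), (∀ n, ‖ε n‖ ≤ 1) →
        ‖∑ n ∈ S, ε n • (u (n + j + 1) - u (n + j))‖ ≤ 1 := by
  obtain ⟨K, _, _, Φ, hΦ, hg⟩ := gel C hc
  have inj : ∀ a b, Φ a = Φ b → a = b := fun a b h => by
    rw [← sub_eq_zero, ← norm_eq_zero, ← hΦ, map_sub, h, sub_self, norm_zero]
  have nle : ∀ (a : C) (r : ℝ), 0 ≤ r → (∀ k, ‖Φ a k‖ ≤ r) → ‖a‖ ≤ r := fun a r hr h => by
    rw [← hΦ]; exact (ContinuousMap.norm_le _ hr).2 h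
  have ple : ∀ (a : C) k, ‖Φ a k‖ ≤ ‖a‖ := fun a k => by
    rw [← hΦ]; exact (Φ a).norm_coe_le_norm k
  have : SeparableSpace L := (IsSeparable.of_separableSpace (L : Set C)).separableSpace
  let x : ℕ → L := denseSeq L
  let c : ℕ → ℝ := fun j => (1 / 2) ^ (j + 1) / (1 + ‖(x j : C)‖ ^ 2)
  have hc0 : ∀ j, 0 < c j := fun j => by positivity
  let y : ℕ → C := fun j => (c j : ℂ) • (star (x j : C) * x j)
  have hy : ∀ j, ‖y j‖ ≤ (1 / 2) ^ (j + 1) := fun j => by
    simp only [y, norm_smul, CStarRing.norm_star_mul_self, Complex.norm_real,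
      Real.norm_of_nonneg (hc0 j).le, c]
    rw [div_mul_eq_mul_div, div_le_iff₀ (by positivity)]
    have : (0 : ℝ) < (1 / 2) ^ (j + 1) := by positivity
    nlinarith
  have hs0 : HasSum (fun j : ℕ => ((1 : ℝ) / 2) ^ (j + 1)) 1 := by
    have := hasSum_geometric_two.mul_right (1 / 2)
    rw [show (2 : ℝ) * (1 / 2) = 1 by norm_num] at this
    exact this
  have hs : Summable y := Summable.of_norm_bounded hs0.summable hy
  set h := ∑' j, y j with hh
  have hhL : h ∈ L := hcl.mem_of_tendsto hs.hasSum (Eventually.of_forall fun S =>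
    L.sum_mem fun j _ => L.smul_mem _ (hL _ _ (x j).2))
  have hh1 : ‖h‖ ≤ 1 := tsum_of_norm_bounded hs0 hy
  have cΦ : Continuous Φ := (AddMonoidHomClass.isometry_of_norm Φ hΦ).continuous
  have hk : ∀ k, HasSum (fun j => c j * ‖Φ (x j) k‖ ^ 2) (Φ h k).re ∧ (Φ h k).im = 0 := by
    intro k
    have h1 : HasSum (fun j => Φ (y j) k) (Φ h k) :=
      (hs.hasSum.map Φ cΦ).map (ContinuousMap.evalCLM ℂ k) (ContinuousMap.evalCLM ℂ k).continuous
    have h2 : ∀ j, Φ (y j) k = ((c j * ‖Φ (x j) k‖ ^ 2 : ℝ) : ℂ) := fun j => by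
      simp only [y, map_smul, map_mul, map_star, ContinuousMap.smul_apply, ContinuousMap.mul_apply,
        ContinuousMap.star_apply, smul_eq_mul, Complex.star_def, Complex.conj_mul']
      push_cast; ring
    simp only [h2] at h1
    refine ⟨by simpa only [Complex.ofReal_re] using Complex.hasSum_re h1, ?_⟩
    have := Complex.hasSum_im h1
    simp only [Complex.ofReal_im] at this
    exact this.unique hasSum_zero
  let H : K → ℝ := fun k => (Φ h k).re
  have cH : Continuous H := Complex.continuous_re.comp (Φ h).continuous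
  have hH : ∀ k, Φ h k = (H k : ℂ) := fun k => Complex.ext rfl (hk k).2
  have H0 : ∀ k, 0 ≤ H k := fun k => (hk k).1.nonneg fun j => by have := hc0 j; positivity
  have H1 : ∀ k, H k ≤ 1 := fun k => ((Complex.re_le_norm _).trans (ple h k)).trans hh1
  have Hj : ∀ k j, c j * ‖Φ (x j) k‖ ^ 2 ≤ H k := fun k j =>
    le_hasSum (hk k).1 j fun i _ => by have := hc0 i; positivity
  have ex : ∀ n : ℕ, ∃ u ∈ L, ∀ k, Φ u k = (ph n (H k) : ℂ) := by
    intro n
    have pos : ∀ k, max (H k) (2 / 2 ^ n) ≠ 0 := fun k =>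
      (lt_max_of_lt_right (by positivity)).ne'
    obtain ⟨a, b, hab⟩ := hg ⟨fun k => ((ph n (H k) / max (H k) (2 / 2 ^ n) : ℝ) : ℂ),
      Complex.continuous_ofReal.comp (((ph_cont n).comp cH).div (cH.max continuous_const) pos)⟩ h
    refine ⟨_, L.add_mem (L.smul_mem a hhL) (hL b _ hhL), fun k => ?_⟩
    rw [hab, ContinuousMap.mul_apply, hH, ContinuousMap.coe_mk, ← Complex.ofReal_mul]
    congr 1
    by_cases e : 2 ^ n * H k ≤ 2
    · simp [ph_zero e]
    · have e2 : 2 / 2 ^ n ≤ H k := by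
        rw [div_le_iff₀ (by positivity)]; push Not at e; linarith
      have := pos k
      rw [max_eq_left e2] at this ⊢
      field_simp
  choose u huL hu using ex
  refine ⟨u, huL, ?_, fun m n hmn => ?_, fun z hz => ?_, fun ε S j hε => ?_⟩
  · apply inj; ext k
    rw [hu, ph_zero (by linarith [H1 k])]; simp
  · apply inj; ext k
    rw [map_mul, ContinuousMap.mul_apply, hu, hu, ← Complex.ofReal_mul, ph_mul hmn]
  · rw [Metric.tendsto_atTop]
    intro ε hε
    obtain ⟨j, hj⟩ := (denseRange_denseSeq L).exists_dist_lt ⟨z, hz⟩ (show 0 < ε / 4 by positivity)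
    have hj' : ‖z - x j‖ < ε / 4 := by rwa [← dist_eq_norm]
    obtain ⟨N, hN⟩ := pow_unbounded_of_one_lt (3 / (c j * (ε / 4) ^ 2)) (show (1 : ℝ) < 2 by norm_num)
    refine ⟨N, fun n hn => ?_⟩
    rw [dist_eq_norm]
    refine (nle _ (ε / 2) (by positivity) fun k => ?_).trans_lt (by linarith)
    rw [map_sub, map_mul, ContinuousMap.sub_apply, ContinuousMap.mul_apply, hu]
    by_cases e : 3 ≤ 2 ^ n * H k
    · rw [ph_one e]; simp; positivity
    · have e1 : ‖Φ (x j) k‖ ≤ ε / 4 := by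
        by_contra e2
        push Not at e e2
        have a1 : (2 : ℝ) ^ N ≤ 2 ^ n := pow_le_pow_right₀ (by norm_num) hn
        have a2 : c j * (ε / 4) ^ 2 ≤ H k := le_trans (by have := hc0 j; gcongr) (Hj k j)
        have a3 : 0 < c j * (ε / 4) ^ 2 := by have := hc0 j; positivity
        rw [div_lt_iff₀ a3] at hN
        have : (2 : ℝ) ^ N * (c j * (ε / 4) ^ 2) ≤ 2 ^ n * H k := by gcongr
        linarith
      have e3 : ‖Φ z k‖ ≤ ε / 2 := by
        have := ple (z - x j) k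
        rw [map_sub, ContinuousMap.sub_apply] at this
        linarith [norm_sub_norm_le (Φ z k) (Φ (x j) k)]
      rw [← mul_sub_one, norm_mul]
      refine (mul_le_of_le_one_right (norm_nonneg _) ?_).trans e3
      rw [← Complex.ofReal_one, ← Complex.ofReal_sub, Complex.norm_real, Real.norm_eq_abs, abs_le]
      constructor <;> linarith [ph_nonneg n (H k), ph_le n (H k)]
  · refine nle _ 1 zero_le_one fun k => ?_
    simp only [map_sum, map_smul, map_sub, ContinuousMap.coe_sum, Finset.sum_apply,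
      ContinuousMap.smul_apply, ContinuousMap.sub_apply, hu]
    refine (norm_sum_le _ _).trans ?_
    obtain ⟨N, hN⟩ := S.exists_nat_subset_range
    calc _ ≤ ∑ n ∈ S, (ph (n + j + 1) (H k) - ph (n + j) (H k)) := by
          refine Finset.sum_le_sum fun n _ => ?_
          rw [norm_smul, ← Complex.ofReal_sub, Complex.norm_real,
            Real.norm_of_nonneg (sub_nonneg.2 (ph_mono _ (H0 k)))]
          exact mul_le_of_le_one_left (sub_nonneg.2 (ph_mono _ (H0 k))) (hε n)
      _ ≤ ∑ n ∈ Finset.range N, (ph (n + j + 1) (H k) - ph (n + j) (H k)) :=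
          Finset.sum_le_sum_of_subset_of_nonneg hN fun n _ _ => sub_nonneg.2 (ph_mono _ (H0 k))
      _ = ph (N + j) (H k) - ph (0 + j) (H k) := by
          have := Finset.sum_range_sub (fun n => ph (n + j) (H k)) N
          simp only [Nat.add_right_comm _ 1 j] at this
          exact this
      _ ≤ 1 := by linarith [ph_le (N + j) (H k), ph_nonneg (0 + j) (H k)]

lemma signs {E F X : Type} [AddCommGroup E] [Module ℂ E] [AddCommGroup F] [Module ℂ F]
    [NormedAddCommGroup X] [NormedSpace ℂ X] (B : E →ₗ[ℂ] F →ₗ[ℂ] X) (u : ℕ → E) (v : ℕ → F)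
    (S : Finset ℕ) : ∀ x y, ∃ ε : ℕ → ℂ, (∀ n, ‖ε n‖ ≤ 1) ∧
      ‖B x y + ∑ n ∈ S, B (u n) (v n)‖ ≤ ‖B (x + ∑ n ∈ S, ε n • u n) (y + ∑ n ∈ S, ε n • v n)‖ := by
  classical
  induction S using Finset.induction_on with
  | empty => exact fun x y => ⟨0, by simp, by simp⟩
  | insert m S hm ih =>
    intro x y
    have key : ∀ t : ℂ, ‖t‖ ≤ 1 → ∃ ε : ℕ → ℂ, (∀ n, ‖ε n‖ ≤ 1) ∧
        ‖B (x + t • u m) (y + t • v m) + ∑ n ∈ S, B (u n) (v n)‖ ≤
        ‖B (x + ∑ n ∈ insert m S, ε n • u n) (y + ∑ n ∈ insert m S, ε n • v n)‖ := by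
      intro t ht
      obtain ⟨ε, h1, h2⟩ := ih (x + t • u m) (y + t • v m)
      refine ⟨Function.update ε m t, fun n => ?_, ?_⟩
      · by_cases e : n = m
        · simp [e, ht]
        · simp [e, h1]
      · have e1 : ∀ {G : Type} [AddCommGroup G] [Module ℂ G] (w : ℕ → G),
            ∑ n ∈ insert m S, Function.update ε m t n • w n = t • w m + ∑ n ∈ S, ε n • w n := by
          intro G _ _ w
          rw [Finset.sum_insert hm, Function.update_self]
          congr 1
          exact Finset.sum_congr rfl fun n hn => by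
            rw [Function.update_of_ne (by rintro rfl; exact hm hn)]
        rw [e1, e1, ← add_assoc, ← add_assoc]; exact h2
    obtain ⟨ε1, a1, b1⟩ := key 1 (by simp)
    obtain ⟨ε2, a2, b2⟩ := key (-1) (by simp)
    have e : (2 : ℂ) • (B x y + ∑ n ∈ insert m S, B (u n) (v n)) =
        (B (x + (1 : ℂ) • u m) (y + (1 : ℂ) • v m) + ∑ n ∈ S, B (u n) (v n)) +
        (B (x + (-1 : ℂ) • u m) (y + (-1 : ℂ) • v m) + ∑ n ∈ S, B (u n) (v n)) := by
      rw [Finset.sum_insert hm]
      simp only [map_add, map_smul, LinearMap.add_apply, LinearMap.smul_apply]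
      module
    have e2 := (congrArg norm e).le.trans (norm_add_le _ _)
    rw [norm_smul, Complex.norm_two] at e2
    by_contra hcon
    push Not at hcon
    linarith [hcon ε1 a1, hcon ε2 a2]

theorem hered_of_sep (C : Type) [NonUnitalCStarAlgebra C] (hc : ∀ x y : C, x * y = y * x)
    [SeparableSpace C] : Hereditary C := by
  intro L hcl hL X Y _ _ _ _ _ _ aX aY hX hY σ hσ ⟨s, hs⟩ φ hφ
  obtain ⟨u, uL, u1, umul, ulim, usg⟩ := au C hc L hcl hL
  obtain ⟨K, hK⟩ := hX.2
  let f : ℕ → C := fun n => u (n + 1 + 1) - u (n + 1)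
  let g : ℕ → L := fun n => ⟨u (n + 3) - u n, L.sub_mem (uL _) (uL _)⟩
  let B : C →ₗ[ℂ] L →ₗ[ℂ] X := aX.compl₂ (s.comp φ).toLinearMap
  let M : ℝ := |K| * (‖s.comp φ‖ * 3)
  have bd : ∀ (x z : C) (S : Finset ℕ), (∀ n ∈ S, x * f n = z * f n) →
      ‖∑ n ∈ S, B (x * f n) (g n)‖ ≤ M * ‖z‖ := by
    intro x z S hxz
    obtain ⟨ε, h1, h2⟩ := signs B (fun n => x * f n) g S 0 0
    simp only [map_zero, zero_add] at h2
    refine h2.trans ((hK _ _).trans ?_)
    have e1 : ‖∑ n ∈ S, ε n • (x * f n)‖ ≤ ‖z‖ := by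
      have : ∑ n ∈ S, ε n • (x * f n) = z * ∑ n ∈ S, ε n • f n := by
        rw [Finset.mul_sum]
        exact Finset.sum_congr rfl fun n hn => by rw [hxz n hn, mul_smul_comm]
      rw [this]
      exact (norm_mul_le _ _).trans (mul_le_of_le_one_right (norm_nonneg _) (usg ε S 1 h1))
    have e2 : ‖∑ n ∈ S, ε n • g n‖ ≤ 3 := by
      have : ((∑ n ∈ S, ε n • g n : L) : C) = ∑ n ∈ S, ε n • (u (n + 0 + 1) - u (n + 0)) +
          ∑ n ∈ S, ε n • (u (n + 1 + 1) - u (n + 1)) + ∑ n ∈ S, ε n • (u (n + 2 + 1) - u (n + 2)) := by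
        simp only [AddSubmonoidClass.coe_finsetSum, SetLike.val_smul, g, ← Finset.sum_add_distrib,
          ← smul_add]
        refine Finset.sum_congr rfl fun n _ => ?_
        congr 1
        simp only [add_zero, add_assoc]
        norm_num
      rw [Submodule.coe_norm, this]
      refine (norm_add₃_le).trans ?_
      linarith [usg ε S 0 h1, usg ε S 1 h1, usg ε S 2 h1]
    have e3 : ‖(s.comp φ) (∑ n ∈ S, ε n • g n)‖ ≤ ‖s.comp φ‖ * 3 :=
      (ContinuousLinearMap.le_opNorm _ _).trans (by gcongr)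
    calc _ ≤ |K| * ‖∑ n ∈ S, ε n • (x * f n)‖ * ‖(s.comp φ) (∑ n ∈ S, ε n • g n)‖ := by
          exact mul_le_mul_of_nonneg_right (mul_le_mul_of_nonneg_right (le_abs_self K)
            (norm_nonneg _)) (norm_nonneg _)
      _ ≤ |K| * ‖z‖ * (‖s.comp φ‖ * 3) := by gcongr
      _ = _ := by ring
  have sm : ∀ x : L, Summable fun n => B (x * f n) (g n) := by
    intro x
    rw [summable_iff_vanishing_norm]
    intro ε hε
    have t : Tendsto (fun n => M * ‖(x : C) - x * u n‖) atTop (𝓝 0) := by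
      simpa using (((ulim x x.2).const_sub (x : C)).norm).const_mul M
    obtain ⟨N, hN⟩ := (t.eventually (gt_mem_nhds hε)).exists
    refine ⟨Finset.range N, fun S hS => (bd x _ S fun n hn => ?_).trans_lt hN⟩
    have hn' : N ≤ n := by
      by_contra e
      exact Finset.disjoint_left.1 hS hn (Finset.mem_range.2 (by omega))
    have : u N * f n = 0 := by
      simp only [f]
      rw [hc, sub_mul, umul N _ (by omega), umul N _ (by omega), sub_self]
    rw [sub_mul, mul_assoc, this, mul_zero, sub_zero]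
  let ψ0 : L →ₗ[ℂ] X :=
    { toFun := fun x => ∑' n, B (x * f n) (g n)
      map_add' := fun x y => by
        rw [← (sm x).tsum_add (sm y)]
        simp [add_mul]
      map_smul' := fun c x => by
        rw [RingHom.id_apply, ← (sm x).tsum_const_smul]
        simp [smul_mul_assoc] }
  have hψ : ∀ x : L, ‖ψ0 x‖ ≤ M * ‖x‖ := fun x =>
    le_of_tendsto (sm x).hasSum.norm (Eventually.of_forall fun S => bd x x S fun _ _ => rfl)
  refine ⟨ψ0.mkContinuous M hψ, fun a x => ?_, fun x => ?_⟩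
  · let T : X →L[ℂ] X := (aX a).mkContinuous (K * ‖a‖) (hK a)
    have := ((sm x).hasSum.mapL T).tsum_eq
    refine Eq.trans ?_ this
    refine tsum_congr fun n => ?_
    show aX (a * x * f n) _ = aX a (aX (x * f n) _)
    rw [mul_assoc, hX.1]
  · have h1 := ((sm x).hasSum.mapL σ).tendsto_sum_nat
    have h2 : ∀ n, σ (B (x * f n) (g n)) =
        φ ⟨f n * x, hL _ _ x.2⟩ := fun n => by
      show σ (aX (x * f n) (s (φ (g n)))) = _
      rw [hσ, hs, ← hφ]
      congr 2
      simp only [g, f]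
      rw [mul_assoc, hc _ (x : C)]
      congr 1
      rw [sub_mul, mul_sub, mul_sub, hc (u (n + 1 + 1)) (u (n + 3)), hc (u (n + 1)) (u (n + 3)),
        umul _ _ (show n + 1 + 1 < n + 3 by omega), umul _ _ (show n + 1 < n + 3 by omega),
        umul _ _ (show n < n + 1 + 1 by omega), umul _ _ (show n < n + 1 by omega)]
      abel
    have h3 : ∀ N, ∑ n ∈ Finset.range N, σ (B (x * f n) (g n)) =
        φ ⟨u (N + 1) * x, hL _ _ x.2⟩ := fun N => by
      simp only [h2, ← map_sum]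
      congr 1
      apply Subtype.ext
      simp only [AddSubmonoidClass.coe_finsetSum, ← Finset.sum_mul, f]
      rw [Finset.sum_range_sub (fun n => u (n + 1)), zero_add, u1, sub_zero]
    simp only [h3] at h1
    refine tendsto_nhds_unique h1 ((φ.continuous.tendsto x).comp ?_)
    rw [tendsto_subtype_rng]
    simpa only [hc (x : C), Function.comp_def] using (ulim x x.2).comp (tendsto_add_atTop_nat 1)

end Pool.Agent.H90.Her
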