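import Mathlib
import Pool.Agent.H90.HerA

namespace Pool.Agent.H90.Her

open Filter Topology TopologicalSpace BoundedContinuousFunction

def M2 : Type := Matrix (Fin 2) (Fin 2) ℂ

open scoped Matrix.Norms.L2Operator in
noncomputable instance : CStarAlgebra M2 := inferInstanceAs (CStarAlgebra (Matrix (Fin 2) (Fin 2) ℂ))

instance : FiniteDimensional ℂ M2 := inferInstanceAs (FiniteDimensional ℂ (Matrix (Fin 2) (Fin 2) ℂ))

noncomputable def E0 : Bool → Matrix (Fin 2) (Fin 2) ℂ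
  | false => !![1, 0; 0, 0]
  | true => !![1 / 2, 1 / 2; 1 / 2, 1 / 2]

noncomputable def E (b : Bool) : M2 := E0 b

lemma E_idem (b : Bool) : E b * E b = E b := by
  show E0 b * E0 b = E0 b
  cases b <;> ext i j <;> fin_cases i <;> fin_cases j <;> simp [E0] <;> norm_num

lemma E_star (b : Bool) : star (E b) = E b := by
  show star (E0 b) = E0 b
  cases b <;> ext i j <;> fin_cases i <;> fin_cases j <;> simp [E0]

lemma E_ne (b : Bool) : E b ≠ 0 := fun h => by
  have : E0 b 0 0 = 0 := congrFun (congrFun h 0) 0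
  cases b <;> simp [E0] at this

lemma E_nc : E false * E true ≠ E true * E false := fun h => by
  have : (E0 false * E0 true) 0 1 = (E0 true * E0 false) 0 1 := congrFun (congrFun h 0) 1
  simp [E0] at this

lemma norm_E (b : Bool) : ‖E b‖ = 1 := by
  have h : ‖E b‖ * ‖E b‖ = ‖E b‖ := by rw [← CStarRing.norm_star_mul_self, E_star, E_idem]
  exact mul_left_cancel₀ (norm_ne_zero_iff.2 (E_ne b)) (by rw [h, mul_one])

def T : Type := List Bool
instance : TopologicalSpace T := ⊥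
instance : DiscreteTopology T := ⟨rfl⟩
instance : Countable T := inferInstanceAs (Countable (List Bool))
instance : DecidableEq T := inferInstanceAs (DecidableEq (List Bool))
def len (σ : T) : ℕ := List.length σ

def G : Type := ℕ → Bool
instance : TopologicalSpace G := ⊥
instance : DiscreteTopology G := ⟨rfl⟩

def res (γ : G) (n : ℕ) : T := (List.range n).map γ

@[simp] lemma len_res (γ : G) (n : ℕ) : len (res γ n) = n := by simp [len, res]

lemma res_eq {γ δ : G} {n : ℕ} : res γ n = res δ n ↔ ∀ i < n, γ i = δ i := by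
  unfold res
  refine List.map_inj_left.trans ?_
  simp

def On (γ : G) (σ : T) : Prop := σ = res γ (len σ)

lemma on_res (γ : G) (n : ℕ) : On γ (res γ n) := by simp [On]

lemma ev_off {γ δ : G} (h : γ ≠ δ) : ∀ᶠ n in atTop, ¬ On δ (res γ n) := by
  obtain ⟨i, hi⟩ := Function.ne_iff.1 h
  filter_upwards [eventually_gt_atTop i] with n hn e
  rw [On, len_res, res_eq] at e
  exact hi (e i hn)

abbrev BB := T →ᵇ M2

def Lim (a : BB) (γ : G) (l : ℂ) : Prop :=
  Tendsto (fun n => a (res γ n) - l • E (γ n)) atTop (𝓝 0)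

lemma Lim.norm_le' {a : BB} {γ : G} {l : ℂ} (h : Lim a γ l) {r : ℝ}
    (hr : ∀ᶠ n in atTop, ‖a (res γ n)‖ ≤ r) : ‖l‖ ≤ r := by
  have : Tendsto (fun n => r + ‖a (res γ n) - l • E (γ n)‖) atTop (𝓝 (r + 0)) :=
    (by simpa using h.norm : Tendsto (fun n => ‖a (res γ n) - l • E (γ n)‖) atTop (𝓝 0)).const_add r
  rw [add_zero] at this
  refine ge_of_tendsto this (hr.mono fun n hn => ?_)
  have := norm_sub_norm_le (l • E (γ n)) (a (res γ n))
  rw [norm_smul, norm_E, norm_sub_rev] at this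
  linarith

lemma Lim.norm_le {a : BB} {γ : G} {l : ℂ} (h : Lim a γ l) : ‖l‖ ≤ ‖a‖ :=
  h.norm_le' (Eventually.of_forall fun _ => a.norm_coe_le_norm _)

lemma Lim.add {a b : BB} {γ : G} {l m : ℂ} (h : Lim a γ l) (h' : Lim b γ m) :
    Lim (a + b) γ (l + m) := by
  have := Tendsto.add h h'
  simpa [Lim, add_smul, add_sub_add_comm] using this

lemma Lim.smul {a : BB} {γ : G} {l : ℂ} (h : Lim a γ l) (c : ℂ) : Lim (c • a) γ (c * l) := by
  have := Tendsto.const_smul h c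
  simpa [Lim, smul_sub, smul_smul] using this

lemma Lim.sub {a b : BB} {γ : G} {l m : ℂ} (h : Lim a γ l) (h' : Lim b γ m) :
    Lim (a - b) γ (l - m) := by
  simpa [sub_eq_add_neg] using h.add (h'.smul (-1))

lemma Lim.unique {a : BB} {γ : G} {l m : ℂ} (h : Lim a γ l) (h' : Lim a γ m) : l = m := by
  have := (h.sub h').norm_le
  simpa [sub_eq_zero] using this

lemma Lim.mul {a b : BB} {γ : G} {l m : ℂ} (h : Lim a γ l) (h' : Lim b γ m) :
    Lim (a * b) γ (l * m) := by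
  refine squeeze_zero_norm (a := fun n => ‖a (res γ n) - l • E (γ n)‖ * ‖b‖ +
    ‖l‖ * ‖b (res γ n) - m • E (γ n)‖) (fun n => ?_) ?_
  · have : (a * b) (res γ n) - (l * m) • E (γ n) = (a (res γ n) - l • E (γ n)) * b (res γ n) +
        l • (E (γ n) * (b (res γ n) - m • E (γ n))) := by
      simp only [BoundedContinuousFunction.mul_apply, sub_mul, mul_sub, smul_mul_assoc,
        mul_smul_comm, E_idem, smul_sub, smul_smul]
      abel
    rw [this]
    refine (norm_add_le _ _).trans (add_le_add ((norm_mul_le _ _).trans ?_) ?_)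
    · exact mul_le_mul_of_nonneg_left (b.norm_coe_le_norm _) (norm_nonneg _)
    · rw [norm_smul]
      refine mul_le_mul_of_nonneg_left ((norm_mul_le _ _).trans ?_) (norm_nonneg _)
      rw [norm_E, one_mul]
  · simpa using (h.norm.mul_const ‖b‖).add (h'.norm.const_mul ‖l‖)

lemma Lim.star {a : BB} {γ : G} {l : ℂ} (h : Lim a γ l) : Lim (star a) γ (star l) := by
  have := Tendsto.star h
  simpa [Lim, E_star] using this

def Sm (a : BB) : Prop := ∀ ε > 0, ∃ F : Finset G, ∀ σ, ε ≤ ‖a σ‖ → ∃ γ ∈ F, On γ σ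

lemma Sm.of_le {a b : BB} (h : Sm b) (K : ℝ) (hK : 0 ≤ K) (hab : ∀ σ, ‖a σ‖ ≤ K * ‖b σ‖) : Sm a := by
  intro ε hε
  obtain ⟨F, hF⟩ := h (ε / (K + 1)) (by positivity)
  refine ⟨F, fun σ hσ => hF σ ?_⟩
  rw [div_le_iff₀ (by positivity)]
  nlinarith [hab σ, norm_nonneg (b σ)]

lemma Sm.approx {a : BB} (h : ∀ ε > 0, ∃ b c : BB, Sm b ∧ Sm c ∧ ∀ σ, ‖a σ‖ ≤ ‖b σ‖ + ‖c σ‖ + ε) :
    Sm a := by
  classical
  intro ε hε
  obtain ⟨b, c, hb, hc, h⟩ := h (ε / 3) (by positivity)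
  obtain ⟨F, hF⟩ := hb (ε / 3) (by positivity)
  obtain ⟨F', hF'⟩ := hc (ε / 3) (by positivity)
  refine ⟨F ∪ F', fun σ hσ => ?_⟩
  by_cases e : ε / 3 ≤ ‖b σ‖
  · obtain ⟨γ, h1, h2⟩ := hF σ e
    exact ⟨γ, Finset.mem_union_left _ h1, h2⟩
  · obtain ⟨γ, h1, h2⟩ := hF' σ (by linarith [h σ])
    exact ⟨γ, Finset.mem_union_right _ h1, h2⟩

lemma sm_zero : Sm 0 := fun ε hε => ⟨∅, fun σ h => absurd h (by simpa using hε)⟩

/-- the algebra spanned by the finitely supported elements and the branch projections -/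
noncomputable def AA : NonUnitalStarSubalgebra ℂ BB where
  carrier := {a | (∀ γ, ∃ l, Lim a γ l) ∧ Sm a}
  zero_mem' := ⟨fun γ => ⟨0, by simp [Lim]⟩, sm_zero⟩
  add_mem' := by
    rintro a b ⟨a1, a2⟩ ⟨b1, b2⟩
    refine ⟨fun γ => ⟨_, (a1 γ).choose_spec.add (b1 γ).choose_spec⟩,
      Sm.approx fun ε hε => ⟨a, b, a2, b2, fun σ => ?_⟩⟩
    exact (norm_add_le _ _).trans (by linarith)
  mul_mem' := by
    rintro a b ⟨a1, -⟩ ⟨b1, b2⟩
    exact ⟨fun γ => ⟨_, (a1 γ).choose_spec.mul (b1 γ).choose_spec⟩,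
      b2.of_le ‖a‖ (norm_nonneg _) fun σ => (norm_mul_le _ _).trans
        (mul_le_mul_of_nonneg_right (a.norm_coe_le_norm _) (norm_nonneg _))⟩
  smul_mem' := by
    rintro c a ⟨a1, a2⟩
    exact ⟨fun γ => ⟨_, (a1 γ).choose_spec.smul c⟩,
      a2.of_le ‖c‖ (norm_nonneg _) fun σ => (norm_smul c (a σ)).le⟩
  star_mem' := by
    rintro a ⟨a1, a2⟩
    exact ⟨fun γ => ⟨_, (a1 γ).choose_spec.star⟩, a2.of_le 1 zero_le_one fun σ => by simp⟩

instance AA_closed : IsClosed (AA : Set BB) := by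
  refine isClosed_of_closure_subset fun a ha => ⟨fun γ => ?_, Sm.approx fun ε hε => ?_⟩
  · obtain ⟨b, hb, hba⟩ := mem_closure_iff_seq_limit.1 ha
    choose l hl using fun k => (hb k).1 γ
    have hc : CauchySeq l := by
      have := hba.cauchySeq
      rw [Metric.cauchySeq_iff] at this ⊢
      intro ε hε
      obtain ⟨N, hN⟩ := this ε hε
      refine ⟨N, fun m hm n hn => lt_of_le_of_lt ?_ (hN m hm n hn)⟩
      rw [dist_eq_norm, dist_eq_norm]
      exact ((hl m).sub (hl n)).norm_le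
    obtain ⟨l0, hl0⟩ := cauchySeq_tendsto_of_complete hc
    refine ⟨l0, NormedAddGroup.tendsto_nhds_zero.2 fun ε hε => ?_⟩
    obtain ⟨k, h1, h2⟩ := ((Metric.tendsto_nhds.1 hba (ε / 3) (by positivity)).and
      (Metric.tendsto_nhds.1 hl0 (ε / 3) (by positivity))).exists
    filter_upwards [NormedAddGroup.tendsto_nhds_zero.1 (hl k) (ε / 3) (by positivity)] with n hn
    have e : a (res γ n) - l0 • E (γ n) = (b k (res γ n) - l k • E (γ n)) -
        (b k - a) (res γ n) + (l k - l0) • E (γ n) := by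
      simp only [BoundedContinuousFunction.sub_apply, sub_smul]; abel
    rw [e]
    refine ((norm_add_le _ _).trans (add_le_add_left (norm_sub_le _ _) _)).trans_lt ?_
    rw [dist_eq_norm] at h1 h2
    rw [norm_smul, norm_E, mul_one]
    linarith [(b k - a).norm_coe_le_norm (res γ n)]
  · obtain ⟨b, hb, hab⟩ := Metric.mem_closure_iff.1 ha ε hε
    refine ⟨b, 0, hb.2, sm_zero, fun σ => ?_⟩
    have := (dist_coe_le_dist σ).trans hab.le
    rw [dist_eq_norm] at this
    simp only [BoundedContinuousFunction.coe_zero, Pi.zero_apply, norm_zero]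
    linarith [norm_sub_norm_le (a σ) (b σ)]

noncomputable instance : NonUnitalCStarAlgebra AA := NonUnitalStarSubalgebra.nonUnitalCStarAlgebra AA

noncomputable def χ (γ : G) (a : AA) : ℂ := (a.2.1 γ).choose
lemma χ_lim (γ : G) (a : AA) : Lim a γ (χ γ a) := (a.2.1 γ).choose_spec
lemma χ_add (γ : G) (a b : AA) : χ γ (a + b) = χ γ a + χ γ b :=
  (χ_lim γ _).unique ((χ_lim γ a).add (χ_lim γ b))
lemma χ_mul (γ : G) (a b : AA) : χ γ (a * b) = χ γ a * χ γ b :=
  (χ_lim γ _).unique ((χ_lim γ a).mul (χ_lim γ b))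
lemma χ_smul (γ : G) (c : ℂ) (a : AA) : χ γ (c • a) = c * χ γ a :=
  (χ_lim γ _).unique ((χ_lim γ a).smul c)
lemma χ_le (γ : G) (a : AA) : ‖χ γ a‖ ≤ ‖a‖ := (χ_lim γ a).norm_le

lemma χ_small (a : AA) {ε : ℝ} {F : Finset G} (hF : ∀ σ, ε ≤ ‖(a : BB) σ‖ → ∃ γ ∈ F, On γ σ)
    {γ : G} (hγ : γ ∉ F) : ‖χ γ a‖ ≤ ε := by
  refine (χ_lim γ a).norm_le' ?_
  have : ∀ᶠ n in atTop, ∀ δ ∈ F, ¬ On δ (res γ n) :=
    (eventually_all_finset F).2 fun δ hδ => ev_off (by rintro rfl; exact hγ hδ)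
  filter_upwards [this] with n hn
  by_contra e
  obtain ⟨δ, h1, h2⟩ := hF _ (not_le.1 e).le
  exact hn δ h1 h2

lemma χ_c0 (a : AA) : Tendsto (fun γ => χ γ a) cofinite (𝓝 0) := by
  refine NormedAddGroup.tendsto_nhds_zero.2 fun ε hε => ?_
  obtain ⟨F, hF⟩ := a.2.2 (ε / 2) (by positivity)
  filter_upwards [F.eventually_cofinite_notMem] with γ hγ
  linarith [χ_small a hF hγ]

open Classical in
noncomputable def P0 (γ : G) : BB := ofNormedAddCommGroupDiscrete
  (fun σ => if On γ σ then E (γ (len σ)) else 0) 1 fun σ => by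
    split_ifs <;> simp [norm_E]

open Classical in
lemma P0_apply (γ : G) (σ : T) : P0 γ σ = if On γ σ then E (γ (len σ)) else 0 := rfl

lemma P0_self (γ : G) : Lim (P0 γ) γ 1 := by simp [Lim, P0_apply, on_res]

lemma P0_other {γ δ : G} (h : δ ≠ γ) : Lim (P0 γ) δ 0 := by
  refine tendsto_const_nhds.congr' ?_
  filter_upwards [ev_off h] with n hn
  simp [P0_apply, hn]

noncomputable def P (γ : G) : AA := ⟨P0 γ, fun δ => by
  by_cases h : δ = γ
  · exact ⟨1, h ▸ P0_self δ⟩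
  · exact ⟨0, P0_other h⟩, fun ε hε => ⟨{γ}, fun σ h => ⟨γ, by simp, by
    by_contra e
    rw [P0_apply, if_neg e, norm_zero] at h
    linarith⟩⟩⟩

lemma χ_P (γ : G) : χ γ (P γ) = 1 := (χ_lim γ _).unique (P0_self γ)

lemma norm_P (γ : G) : ‖P γ‖ ≤ 1 :=
  (BoundedContinuousFunction.norm_le (f := P0 γ) zero_le_one).2 fun σ => by
    rw [P0_apply]; split_ifs <;> simp [norm_E]

lemma fin_len (N : ℕ) : {σ : T | len σ < N}.Finite := List.finite_length_lt Bool N

lemma exists_on (σ : T) : ∃ γ, On γ σ := by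
  refine ⟨fun i => List.getD σ i false, ?_⟩
  unfold On res len
  apply List.ext_getElem
  · simp
  · intro i h1 h2
    simp [List.getD_eq_getElem?_getD, List.getElem?_eq_getElem h1]

noncomputable def k0' : BB := ofNormedAddCommGroupDiscrete
  (fun σ => ((1 / 2 : ℂ) ^ len σ) • (1 : M2)) 1 fun σ => by
    have : Nontrivial M2 := ⟨⟨_, _, E_ne true⟩⟩
    rw [norm_smul, norm_one, mul_one, norm_pow]
    exact pow_le_one₀ (norm_nonneg _) (by norm_num)

lemma k0_apply (σ : T) : k0' σ = ((1 / 2 : ℂ) ^ len σ) • (1 : M2) := rfl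

lemma k0_norm (σ : T) : ‖k0' σ‖ = (1 / 2) ^ len σ := by
  have : Nontrivial M2 := ⟨⟨_, _, E_ne true⟩⟩
  rw [k0_apply, norm_smul, norm_one, mul_one, norm_pow]; norm_num

noncomputable def k0 : AA := ⟨k0', fun γ => ⟨0, by
    refine squeeze_zero_norm (a := fun n => (1 / 2 : ℝ) ^ n) (fun n => ?_)
      (tendsto_pow_atTop_nhds_zero_of_lt_one (by norm_num) (by norm_num))
    rw [zero_smul, sub_zero, k0_norm, len_res]⟩, fun ε hε => by
  classical
  obtain ⟨N, hN⟩ := exists_pow_lt_of_lt_one hε (show (1 / 2 : ℝ) < 1 by norm_num)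
  choose g hg using exists_on
  refine ⟨(fin_len N).toFinset.image g, fun σ hσ => ⟨g σ, Finset.mem_image_of_mem _ ?_, hg σ⟩⟩
  rw [Set.Finite.mem_toFinset]
  by_contra e
  rw [k0_norm] at hσ
  have : (1 / 2 : ℝ) ^ len σ ≤ (1 / 2) ^ N :=
    pow_le_pow_of_le_one (by norm_num) (by norm_num) (not_lt.1 e)
  linarith⟩

lemma k0_comm (a : AA) : k0 * a = a * k0 := by
  apply Subtype.ext; ext1 σ
  simp [k0, k0_apply]

lemma k0_inj (a : AA) (h : k0 * a = 0) : a = 0 := by
  apply Subtype.ext; ext1 σ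
  have := congrArg (fun b : AA => (b : BB) σ) h
  simpa [k0, k0_apply] using this

end Pool.Agent.H90.Her
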