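import Mathlib
import Pool.Agent.H90.HerB

namespace Pool.Agent.H90.Her

open Filter Topology TopologicalSpace BoundedContinuousFunction
open scoped ZeroAtInfty

section c0
variable {V : Type} [NormedAddCommGroup V]

def mk0 (f : G → V) (h : Tendsto f cofinite (𝓝 0)) : C₀(G, V) :=
  ⟨⟨f, continuous_of_discreteTopology⟩, by rw [cocompact_eq_cofinite]; exact h⟩

@[simp] lemma mk0_apply (f : G → V) (h : Tendsto f cofinite (𝓝 0)) (γ : G) : mk0 f h γ = f γ := rfl

lemma c0_tend (F : C₀(G, V)) : Tendsto F cofinite (𝓝 0) := by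
  rw [← cocompact_eq_cofinite]; exact F.zero_at_infty'

lemma c0_le (F : C₀(G, V)) (γ : G) : ‖F γ‖ ≤ ‖F‖ := F.toBCF.norm_coe_le_norm γ

lemma c0_norm (F : C₀(G, V)) {r : ℝ} (hr : 0 ≤ r) (h : ∀ γ, ‖F γ‖ ≤ r) : ‖F‖ ≤ r :=
  (BoundedContinuousFunction.norm_le (f := F.toBCF) hr).2 h

lemma tend_of_le {W : Type} [NormedAddCommGroup W] (F : C₀(G, V)) (f : G → W) (K : ℝ)
    (h : ∀ γ, ‖f γ‖ ≤ K * ‖F γ‖) : Tendsto f cofinite (𝓝 0) :=
  squeeze_zero_norm h (by simpa using (c0_tend F).norm.const_mul K)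

lemma c0_zero (F : C₀(G, V)) : ∃ γ, F γ = 0 := by
  have hc : (Function.support F).Countable := by
    have : Function.support F ⊆ ⋃ n : ℕ, {γ | ¬ ‖F γ‖ < 1 / ((n : ℝ) + 1)} := fun γ hγ => by
      obtain ⟨n, hn⟩ := exists_nat_one_div_lt (norm_pos_iff.2 hγ)
      exact Set.mem_iUnion.2 ⟨n, not_lt.2 hn.le⟩
    refine (Set.countable_iUnion fun n => Set.Finite.countable ?_).mono this
    exact NormedAddGroup.tendsto_nhds_zero.1 (c0_tend F) _ (by positivity)
  by_contra h
  push Not at h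
  have : Function.support F = Set.univ := Set.eq_univ_of_forall h
  rw [this, Set.countable_univ_iff] at hc
  have : Uncountable G := by
    refine ⟨fun hc => ?_⟩
    have : Nonempty G := ⟨fun _ => true⟩
    obtain ⟨f, hf⟩ := exists_surjective_nat G
    obtain ⟨n, hn⟩ := hf fun i => !(f i i)
    have := congrFun hn n
    simp at this
  exact not_countable hc

end c0

noncomputable def aX : AA →ₗ[ℂ] C₀(G, AA) →ₗ[ℂ] C₀(G, AA) :=
  LinearMap.mk₂ ℂ (fun a x => mk0 (fun γ => a * x γ) (tend_of_le x _ ‖a‖ fun _ => norm_mul_le _ _))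
    (fun a b x => by ext1 γ; simp [add_mul]) (fun c a x => by ext1 γ; simp [smul_mul_assoc])
    (fun a x y => by ext1 γ; simp [mul_add]) (fun c a x => by ext1 γ; simp [mul_smul_comm])

noncomputable def aY : AA →ₗ[ℂ] C₀(G, ℂ) →ₗ[ℂ] C₀(G, ℂ) :=
  LinearMap.mk₂ ℂ (fun a x => mk0 (fun γ => χ γ a * x γ) (tend_of_le x _ ‖a‖ fun γ =>
      (norm_mul_le _ _).trans (mul_le_mul_of_nonneg_right (χ_le γ a) (norm_nonneg _))))
    (fun a b x => by ext1 γ; simp [add_mul, χ_add]) (fun c a x => by ext1 γ; simp [χ_smul, mul_assoc])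
    (fun a x y => by ext1 γ; simp [mul_add]) (fun c a x => by ext1 γ; simp [mul_left_comm])

noncomputable def σ0 : C₀(G, AA) →L[ℂ] C₀(G, ℂ) :=
  LinearMap.mkContinuous
    { toFun := fun x => mk0 (fun γ => χ γ (x γ)) (tend_of_le x _ 1 fun γ => by simpa using χ_le γ _)
      map_add' := fun x y => by ext1 γ; simp [χ_add]
      map_smul' := fun c x => by ext1 γ; simp [χ_smul] } 1 fun x =>
    c0_norm _ (by positivity) fun γ => by simpa using (χ_le γ _).trans (c0_le x γ)

noncomputable def s0 : C₀(G, ℂ) →L[ℂ] C₀(G, AA) :=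
  LinearMap.mkContinuous
    { toFun := fun x => mk0 (fun γ => x γ • P γ) (tend_of_le x _ 1 fun γ => by
        rw [norm_smul, one_mul]; exact mul_le_of_le_one_right (norm_nonneg _) (norm_P γ))
      map_add' := fun x y => by ext1 γ; simp [add_smul]
      map_smul' := fun c x => by ext1 γ; simp [smul_smul] } 1 fun x =>
    c0_norm _ (by positivity) fun γ => by
      show ‖x γ • P γ‖ ≤ _
      rw [norm_smul, one_mul]
      exact (mul_le_of_le_one_right (norm_nonneg _) (norm_P γ)).trans (c0_le x γ)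

noncomputable def φ0 : (⊤ : Submodule ℂ AA) →L[ℂ] C₀(G, ℂ) :=
  LinearMap.mkContinuous
    { toFun := fun x => mk0 (fun γ => χ γ x) (χ_c0 _)
      map_add' := fun x y => by ext1 γ; simp [χ_add]
      map_smul' := fun c x => by ext1 γ; simp [χ_smul] } 1 fun x =>
    c0_norm _ (by positivity) fun γ => by rw [one_mul]; exact χ_le γ _

theorem not_hered : ¬ Hereditary AA := by
  intro h
  obtain ⟨ψ, h1, h2⟩ := h ⊤ (by simp) (fun _ _ _ => trivial) C₀(G, AA) C₀(G, ℂ) aX aY
    ⟨fun a b x => by ext1 γ; simp [aX, mul_assoc], 1, fun a x =>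
      c0_norm _ (by positivity) fun γ => by
        rw [one_mul]
        exact (norm_mul_le _ _).trans (mul_le_mul_of_nonneg_left (c0_le x γ) (norm_nonneg _))⟩
    ⟨fun a b x => by ext1 γ; simp [aY, mul_assoc, χ_mul], 1, fun a x =>
      c0_norm _ (by positivity) fun γ => by
        rw [one_mul]
        exact (norm_mul_le _ _).trans (mul_le_mul (χ_le γ a) (c0_le x γ) (norm_nonneg _)
          (norm_nonneg _))⟩
    σ0 (fun a x => by ext1 γ; simp [σ0, aX, aY, χ_mul])
    ⟨s0, fun y => by ext1 γ; simp [σ0, s0, χ_smul, χ_P]⟩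
    φ0 (fun a x => by ext1 γ; simp [φ0, aY, χ_mul])
  obtain ⟨γ, hγ⟩ := c0_zero (ψ ⟨k0, trivial⟩)
  have e1 := congrArg (fun F : C₀(G, AA) => F γ) (h1 k0 ⟨P γ, trivial⟩)
  have e2 := congrArg (fun F : C₀(G, AA) => F γ) (h1 (P γ) ⟨k0, trivial⟩)
  simp only [aX, LinearMap.mk₂_apply, mk0_apply, k0_comm (P γ), hγ, mul_zero] at e1 e2
  have e3 := k0_inj _ (e1.symm.trans e2)
  have e4 := congrArg (fun F : C₀(G, ℂ) => F γ) (h2 ⟨P γ, trivial⟩)
  have e5 : χ γ 0 = 0 := by simpa using χ_smul γ 0 0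
  simp [σ0, φ0, e3, χ_P, e5] at e4

lemma nc_nhd : ∃ ε > 0, ∀ x y : M2, ‖x - E false‖ < ε → ‖y - E true‖ < ε → x * y ≠ y * x := by
  have ho : IsOpen {z : M2 × M2 | z.1 * z.2 ≠ z.2 * z.1} :=
    isOpen_ne_fun (by fun_prop) (by fun_prop)
  obtain ⟨ε, hε, h⟩ := Metric.isOpen_iff.1 ho (E false, E true) E_nc
  refine ⟨ε, hε, fun x y hx hy => h (show (x, y) ∈ _ from ?_)⟩
  rw [Metric.mem_ball, Prod.dist_eq, dist_eq_norm, dist_eq_norm]
  exact max_lt hx hy

lemma supp_countable (S : Submodule ℂ AA) (hc : ∀ x ∈ S, ∀ y ∈ S, x * y = y * x) :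
    {γ | ∃ c ∈ S, χ γ c ≠ 0}.Countable := by
  obtain ⟨ε, hε, hnc⟩ := nc_nhd
  have ex : ∀ γ : {γ | ∃ c ∈ S, χ γ c ≠ 0}, ∃ c ∈ S, ∃ N : ℕ, ∀ n ≥ N,
      ‖((c : AA) : BB) (res γ n) - E (γ.1 n)‖ < ε := by
    rintro ⟨γ, c, hc, h⟩
    have h1 : χ γ ((χ γ c)⁻¹ • c) = 1 := by rw [χ_smul, inv_mul_cancel₀ h]
    have h2 := χ_lim γ ((χ γ c)⁻¹ • c)
    rw [h1] at h2
    obtain ⟨N, hN⟩ := eventually_atTop.1 (NormedAddGroup.tendsto_nhds_zero.1 h2 ε hε)
    exact ⟨_, S.smul_mem _ hc, N, fun n hn => by simpa using hN n hn⟩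
  choose c cS N hN using ex
  rw [← Set.countable_coe_iff]
  refine Function.Injective.countable (f := fun γ => (N γ, res γ (N γ))) fun γ δ h => ?_
  by_contra hne
  have h1 : N γ = N δ := congrArg Prod.fst h
  have h2 : res γ (N γ) = res δ (N δ) := congrArg Prod.snd h
  rw [← h1, res_eq] at h2
  have hex : ∃ i, γ.1 i ≠ δ.1 i := Function.ne_iff.1 fun e => hne (Subtype.ext e)
  classical
  let i := Nat.find hex
  have hi : γ.1 i ≠ δ.1 i := Nat.find_spec hex
  have hr : res γ i = res δ i := res_eq.2 fun j hj => not_not.1 (Nat.find_min hex hj)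
  have hiN : N γ ≤ i := not_lt.1 fun e => hi (h2 i e)
  have a1 := hN γ i hiN
  have a2 := hN δ i (h1 ▸ hiN)
  rw [← hr] at a2
  have cm := congrArg (fun b : AA => (b : BB) (res γ i)) (hc _ (cS γ) _ (cS δ))
  simp only [MulMemClass.coe_mul, BoundedContinuousFunction.mul_apply] at cm
  cases e1 : γ.1 i <;> cases e2 : δ.1 i
  · exact hi (e1.trans e2.symm)
  · rw [e1] at a1; rw [e2] at a2; exact hnc _ _ a1 a2 cm
  · rw [e1] at a1; rw [e2] at a2; exact hnc _ _ a2 a1 cm.symm
  · exact hi (e1.trans e2.symm)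

noncomputable def sgl (σ : T) (m : M2) : BB := ofNormedAddCommGroupDiscrete
  (fun τ => if τ = σ then m else 0) ‖m‖ fun τ => by split_ifs <;> simp

lemma sgl_apply (σ : T) (m : M2) (τ : T) : sgl σ m τ = if τ = σ then m else 0 := rfl

lemma sgl_cont (σ : T) : Continuous (sgl σ) := by
  refine LipschitzWith.continuous (K := 1) (LipschitzWith.of_dist_le_mul fun m m' => ?_)
  rw [NNReal.coe_one, one_mul, BoundedContinuousFunction.dist_le dist_nonneg]
  intro τ
  simp only [sgl_apply]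
  split_ifs <;> simp

lemma sep_of_countable (D : Set G) (hD : D.Countable) :
    IsSeparable {a : AA | ∀ γ, γ ∉ D → χ γ a = 0} := by
  classical
  have : SeparableSpace M2 := by
    have := FiniteDimensional.proper ℂ M2
    infer_instance
  have h1 : IsSeparable ((⋃ σ, Set.range (sgl σ)) ∪ P0 '' D) :=
    (IsSeparable.iUnion fun σ => isSeparable_range (sgl_cont σ)).union (hD.image _).isSeparable
  refine (Topology.IsInducing.subtypeVal.isSeparable_preimage
    (h1.span (R := ℂ)).closure).mono fun a ha => ?_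
  refine Metric.mem_closure_iff.2 fun ε hε => ?_
  obtain ⟨F, hF⟩ := a.2.2 (ε / 3) (by positivity)
  let r : AA := a - ∑ γ ∈ F, χ γ a • P γ
  have hr : ∀ γ ∈ F, Lim r γ 0 := by
    intro γ hγ
    have h2 : ∀ S : Finset G, Lim (∑ δ ∈ S, χ δ a • P0 δ) γ (if γ ∈ S then χ γ a else 0) := by
      intro S
      induction S using Finset.induction_on with
      | empty => simp [Lim]
      | insert δ S hδ ih =>
        rw [Finset.sum_insert hδ]
        by_cases e : γ = δ
        · subst e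
          simpa [hδ] using ((P0_self γ).smul (χ γ a)).add ih
        · simpa [e] using ((P0_other e).smul (χ δ a)).add ih
    have := (χ_lim γ a).sub (h2 F)
    simpa [hγ, r, P] using this
  have hev : ∀ᶠ n in atTop, ∀ γ ∈ F, ‖(r : BB) (res γ n)‖ < ε / 3 :=
    (eventually_all_finset F).2 fun γ hγ => by
      simpa using NormedAddGroup.tendsto_nhds_zero.1 (hr γ hγ) (ε / 3) (by positivity)
  obtain ⟨N, hN⟩ := eventually_atTop.1 hev
  refine ⟨∑ γ ∈ F, χ γ a • P0 γ + ∑ σ ∈ (fin_len N).toFinset, sgl σ ((r : BB) σ), ?_, ?_⟩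
  · refine Submodule.add_mem _ (Submodule.sum_mem _ fun γ _ => ?_) (Submodule.sum_mem _ fun σ _ =>
      Submodule.subset_span (Or.inl (Set.mem_iUnion.2 ⟨σ, _, rfl⟩)))
    by_cases e : γ ∈ D
    · exact Submodule.smul_mem _ _ (Submodule.subset_span (Or.inr ⟨γ, e, rfl⟩))
    · rw [ha γ e, zero_smul]; exact Submodule.zero_mem _
  · refine lt_of_le_of_lt ((BoundedContinuousFunction.dist_le (C := ε / 3) (by positivity)).2
      fun τ => ?_) (by linarith)
    have e : (a : BB) τ - (∑ γ ∈ F, χ γ a • P0 γ +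
        ∑ σ ∈ (fin_len N).toFinset, sgl σ ((r : BB) σ)) τ =
        (r : BB) τ - if len τ < N then (r : BB) τ else 0 := by
      simp [r, P, sgl_apply, sub_sub]
    rw [dist_eq_norm, e]
    split_ifs with h
    · simp; positivity
    · rw [sub_zero]
      by_cases e2 : ∃ γ ∈ F, On γ τ
      · obtain ⟨γ, h1, h2⟩ := e2
        rw [h2]
        exact (hN _ (not_lt.1 h) γ h1).le
      · have : (r : BB) τ = (a : BB) τ := by
          push Not at e2
          simp only [r, P, AddSubgroupClass.coe_sub, AddSubmonoidClass.coe_finsetSum,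
            SetLike.val_smul, BoundedContinuousFunction.sub_apply, BoundedContinuousFunction.coe_sum,
            Finset.sum_apply, BoundedContinuousFunction.smul_apply, sub_eq_self]
          exact Finset.sum_eq_zero fun γ hγ => by rw [P0_apply, if_neg (e2 γ hγ), smul_zero]
        rw [this]
        by_contra e3
        exact e2 (hF τ (not_le.1 e3).le)

theorem comm_sep (S : NonUnitalStarSubalgebra ℂ AA) (hc : ∀ x ∈ S, ∀ y ∈ S, x * y = y * x) :
    SeparableSpace S := by
  refine IsSeparable.separableSpace (s := (S : Set AA)) ?_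
  refine (sep_of_countable _ (supp_countable S.toNonUnitalSubalgebra.toSubmodule hc)).mono ?_
  intro a ha γ hγ
  by_contra e
  exact hγ ⟨a, ha, e⟩

end Pool.Agent.H90.Her
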