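import Mathlib

namespace Pool.Agent.H90.Her2

/-- a left Banach module over `A`: a complex Banach space with a bounded bilinear action -/
structure BMod (A : Type) [NonUnitalCStarAlgebra A] : Type 1 where
  X : Type
  [grp : NormedAddCommGroup X]
  [spc : NormedSpace ℂ X]
  cpl : CompleteSpace X
  act : A → X → X
  add_l : ∀ a b x, act (a + b) x = act a x + act b x
  smul_l : ∀ (c : ℂ) a x, act (c • a) x = c • act a x
  add_r : ∀ a x y, act a (x + y) = act a x + act a y
  smul_r : ∀ (c : ℂ) a x, act a (c • x) = c • act a x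
  mul_act : ∀ a b x, act (a * b) x = act a (act b x)
  bound : ∃ K : ℝ, ∀ a x, ‖act a x‖ ≤ K * ‖a‖ * ‖x‖

attribute [instance] BMod.grp BMod.spc

variable {A : Type} [NonUnitalCStarAlgebra A]

/-- a bounded linear map between the underlying Banach spaces -/
def Bdd (P Q : BMod A) (f : P.X → Q.X) : Prop := IsBoundedLinearMap ℂ f

/-- a morphism of left Banach modules -/
def Mor (P Q : BMod A) (f : P.X → Q.X) : Prop := Bdd P Q f ∧ ∀ a x, f (P.act a x) = Q.act a (f x)

/-- `P` is projective: morphisms out of `P` lift through admissible epimorphisms -/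
def Proj (P : BMod A) : Prop :=
  ∀ (X Y : BMod A) (σ : X.X → Y.X), Mor X Y σ → (∃ s, Bdd Y X s ∧ ∀ y, σ (s y) = y) →
    ∀ φ, Mor P Y φ → ∃ ψ, Mor P X ψ ∧ ∀ p, σ (ψ p) = φ p

/-- a closed left ideal -/
structure LIdeal (A : Type) [NonUnitalCStarAlgebra A] where
  L : Submodule ℂ A
  closed : IsClosed (L : Set A)
  mul_mem : ∀ a x, x ∈ L → a * x ∈ L

/-- the action of `A` on a left ideal by multiplication -/
def LIdeal.act (I : LIdeal A) (a : A) (x : I.L) : I.L := ⟨a * x, I.mul_mem a x x.2⟩

theorem LIdeal.bound (I : LIdeal A) : ∃ K : ℝ, ∀ a x, ‖I.act a x‖ ≤ K * ‖a‖ * ‖x‖ :=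
  ⟨1, fun a x => by rw [one_mul]; exact norm_mul_le a (x : A)⟩

/-- a closed left ideal as a left Banach module -/
noncomputable def LIdeal.mod (I : LIdeal A) : BMod A where
  X := I.L
  cpl := I.closed.completeSpace_coe
  act := I.act
  add_l a b x := Subtype.ext (add_mul a b x)
  smul_l c a x := Subtype.ext (smul_mul_assoc c a (x : A))
  add_r a x y := Subtype.ext (mul_add a (x : A) y)
  smul_r c a x := Subtype.ext (mul_smul_comm c a (x : A))
  mul_act a b x := Subtype.ext (mul_assoc a b x)
  bound := I.bound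

/-- every closed left ideal is projective -/
def Hereditary (A : Type) [NonUnitalCStarAlgebra A] : Prop := ∀ I : LIdeal A, Proj I.mod

/-- a commutative C*-subalgebra -/
structure CommSub (A : Type) [NonUnitalCStarAlgebra A] where
  S : NonUnitalStarSubalgebra ℂ A
  closed : IsClosed (S : Set A)
  comm : ∀ x ∈ S, ∀ y ∈ S, x * y = y * x

/-- its underlying type -/
def CommSub.T (C : CommSub A) : Type := C.S

noncomputable instance (C : CommSub A) : NonUnitalCStarAlgebra C.T :=
  NonUnitalStarSubalgebra.nonUnitalCStarAlgebra C.S (h_closed := C.closed)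

end Pool.Agent.H90.Her2
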