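import Mathlib

namespace Pool.Agent.H90.Hh

variable (A : Type) [NonUnitalNormedRing A] [NormedSpace ℂ A]

/-- a Banach `A`-bimodule, with left action `l` and right action `r` -/
structure BiMod : Type 1 where
  X : Type
  [grp : NormedAddCommGroup X]
  [spc : NormedSpace ℂ X]
  cpl : CompleteSpace X
  l : A → X → X
  r : X → A → X
  l_bil : IsBoundedBilinearMap ℂ fun p : A × X => l p.1 p.2
  r_bil : IsBoundedBilinearMap ℂ fun p : X × A => r p.1 p.2
  l_mul : ∀ a b x, l (a * b) x = l a (l b x)
  r_mul : ∀ x a b, r x (a * b) = r (r x a) b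
  l_r : ∀ a x b, l a (r x b) = r (l a x) b

attribute [instance] BiMod.grp BiMod.spc

variable {A}

section
variable {X Z : Type} [NormedAddCommGroup X] [NormedSpace ℂ X] [NormedAddCommGroup Z]
  [NormedSpace ℂ Z]

/-- the product of the norms of the entries -/
def pn (t : List A) : ℝ := (t.map norm).prod

/-- `f` is a multilinear map `X × A^n → Z` of norm at most `c` (tuples are lists of length `n`) -/
def IsML (n : ℕ) (f : X → List A → Z) (c : ℝ) : Prop :=
  (∀ t : List A, t.length = n → IsLinearMap ℂ fun x => f x t) ∧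
  (∀ x (s t : List A), s.length + t.length + 1 = n → IsLinearMap ℂ fun a => f x (s ++ a :: t)) ∧
  ∀ x (t : List A), t.length = n → ‖f x t‖ ≤ c * ‖x‖ * pn t

end

/-- the universal property of the completed projective tensor product -/
def Lifts {X C : Type} [NormedAddCommGroup X] [NormedSpace ℂ X] [NormedAddCommGroup C]
    [NormedSpace ℂ C] (n : ℕ) (ι : X → List A → C) : Prop :=
  ∀ (Z : Type) [NormedAddCommGroup Z] [NormedSpace ℂ Z] [CompleteSpace Z] (f : X → List A → Z)
    (c : ℝ), 0 ≤ c → IsML n f c →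
    ∃ F : C → Z, IsLinearMap ℂ F ∧ (∀ z, ‖F z‖ ≤ c * ‖z‖) ∧
      ∀ x (t : List A), t.length = n → F (ι x t) = f x t

/-- the completed projective tensor product of `X` with `n` copies of `A`; `ι x t` is the
elementary tensor -/
structure Tens (M : BiMod A) (n : ℕ) : Type 1 where
  C : Type
  [grp : NormedAddCommGroup C]
  [spc : NormedSpace ℂ C]
  cpl : CompleteSpace C
  ι : M.X → List A → C
  ml : IsML n ι 1
  lifts : Lifts n ι
  dense : Dense (Submodule.span ℂ {z | ∃ x t, t.length = n ∧ z = ι x t} : Set C)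

attribute [instance] Tens.grp Tens.spc

/-- multiply the entries in places `i` and `i + 1` (counted from `0`) -/
def ctr (i : ℕ) (t : List A) : List A :=
  t.take i ++ (t.getD i 0 * t.getD (i + 1) 0) :: t.drop (i + 2)

/-- the Hochschild formula for a tuple `t` of length `n + 1` -/
noncomputable def bd (M : BiMod A) {Z : Type} [AddCommGroup Z] (n : ℕ) (f : M.X → List A → Z)
    (x : M.X) (t : List A) : Z :=
  f (M.r x (t.getD 0 0)) t.tail + ∑ i ∈ Finset.range n, (-1 : ℤ) ^ (i + 1) • f x (ctr i t) +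
    (-1 : ℤ) ^ (n + 1) • f (M.l (t.getD n 0) x) (t.take n)

/-- `d` is the Hochschild boundary `d_n` -/
def IsBd {M : BiMod A} {n : ℕ} (T : Tens M (n + 1)) (S : Tens M n) (d : T.C → S.C) : Prop :=
  IsBoundedLinearMap ℂ d ∧ ∀ x (t : List A), t.length = n + 1 → d (T.ι x t) = bd M n S.ι x t

variable (A)

/-- all Hochschild homology of positive degree vanishes -/
def Vanish : Prop :=
  ∀ (M : BiMod A) (T : ∀ n, Tens M n) (d : ∀ n, (T (n + 1)).C → (T n).C),
    (∀ n, IsBd (T (n + 1)) (T n) (d n)) → ∀ k z, d k z = 0 ↔ ∃ w, d (k + 1) w = z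

/-- a bounded derivation into the dual bimodule -/
def IsDer (M : BiMod A) (D : A → StrongDual ℂ M.X) : Prop :=
  IsBoundedLinearMap ℂ D ∧ ∀ a b x, D (a * b) x = D b (M.r x a) + D a (M.l b x)

/-- Johnson's amenability: bounded derivations into dual bimodules are inner -/
def Amenable : Prop :=
  ∀ (M : BiMod A) (D : A → StrongDual ℂ M.X), IsDer A M D →
    ∃ Φ : StrongDual ℂ M.X, ∀ a x, D a x = Φ (M.r x a) - Φ (M.l a x)

/-- the tensor products and the boundary maps exist -/
def Exist : Prop :=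
  ∀ M : BiMod A, ∃ (T : ∀ n, Tens M n) (d : ∀ n, (T (n + 1)).C → (T n).C),
    ∀ n, IsBd (T (n + 1)) (T n) (d n)

/-- the image of `d_0` is closed for every bimodule -/
def HausZero : Prop :=
  ∀ (M : BiMod A) (T : Tens M 1) (S : Tens M 0) (d : T.C → S.C), IsBd T S d →
    IsClosed (Set.range d)

end Pool.Agent.H90.Hh
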