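import Mathlib
import Pool.Agent.H90.HhDefs

namespace Pool.Agent.H90.Hh

open Filter Topology

section Gen
variable {V Z : Type} [NormedAddCommGroup V] [NormedSpace ℂ V] [NormedAddCommGroup Z]
  [NormedSpace ℂ Z]

/-- the sequence approaches the subspace `P` -/
def Sm (P : Submodule ℂ Z) (y : ℕ → Z) : Prop := ∀ ε > 0, ∀ᶠ n in atTop, ∃ p ∈ P, ‖y n - p‖ < ε

lemma Sm.add {P : Submodule ℂ Z} {y z : ℕ → Z} (h : Sm P y) (h' : Sm P z) :
    Sm P fun n => y n + z n := fun ε hε => by
  filter_upwards [h (ε / 2) (by positivity), h' (ε / 2) (by positivity)] with n ⟨p, hp, h1⟩ ⟨q, hq, h2⟩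
  refine ⟨p + q, add_mem hp hq, ?_⟩
  rw [add_sub_add_comm]
  linarith [norm_add_le (y n - p) (z n - q)]

lemma Sm.smul {P : Submodule ℂ Z} {y : ℕ → Z} (h : Sm P y) (c : ℂ) : Sm P fun n => c • y n :=
  fun ε hε => by
  filter_upwards [h (ε / (‖c‖ + 1)) (by positivity)] with n ⟨p, hp, h1⟩
  refine ⟨c • p, P.smul_mem c hp, ?_⟩
  rw [← smul_sub, norm_smul]
  rw [lt_div_iff₀ (by positivity)] at h1
  nlinarith [norm_nonneg (y n - p)]

lemma Sm.of_mem {P : Submodule ℂ Z} {y : ℕ → Z} (h : ∀ n, y n ∈ P) : Sm P y :=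
  fun _ hε => .of_forall fun n => ⟨y n, h n, by simpa using hε⟩

lemma Sm.of_tendsto {P : Submodule ℂ Z} {y : ℕ → Z} (h : Tendsto y atTop (𝓝 0)) : Sm P y :=
  fun ε hε => (Metric.tendsto_nhds.1 h ε hε).mono fun n hn => ⟨0, zero_mem _, by simpa using hn⟩

lemma Sm.tendsto {y : ℕ → Z} (h : Sm ⊥ y) : Tendsto y atTop (𝓝 0) :=
  Metric.tendsto_nhds.2 fun ε hε => (h ε hε).mono fun n ⟨p, hp, h1⟩ => by
    rw [(Submodule.mem_bot ℂ).1 hp] at h1; simpa using h1

lemma Sm.approx {P : Submodule ℂ Z} {y : ℕ → Z}
    (h : ∀ ε > 0, ∃ z, Sm P z ∧ ∀ n, ‖y n - z n‖ ≤ ε) : Sm P y := fun ε hε => by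
  obtain ⟨z, h1, h2⟩ := h (ε / 2) (by positivity)
  filter_upwards [h1 (ε / 2) (by positivity)] with n ⟨p, hp, h3⟩
  exact ⟨p, hp, by linarith [norm_sub_le_norm_sub_add_norm_sub (y n) (z n) p, h2 n]⟩

lemma Sm.cl {P : Submodule ℂ Z} {G : ℕ → V → Z} (hl : ∀ n, IsLinearMap ℂ (G n)) {K : ℝ}
    (hK : 0 ≤ K) (hb : ∀ n z, ‖G n z‖ ≤ K * ‖z‖) {S : Set V} (h : ∀ z ∈ S, Sm P fun n => G n z)
    {z : V} (hz : z ∈ closure (Submodule.span ℂ S : Set V)) : Sm P fun n => G n z := by
  refine Sm.approx fun ε hε => ?_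
  obtain ⟨w, hw, h1⟩ := Metric.mem_closure_iff.1 hz (ε / (K + 1)) (by positivity)
  refine ⟨fun n => G n w, ?_, fun n => ?_⟩
  · clear h1
    induction hw using Submodule.span_induction with
    | mem x hx => exact h x hx
    | zero => exact .of_mem fun n => by rw [(hl n).map_zero]; exact zero_mem _
    | add x y _ _ h1 h2 => simpa only [(hl _).map_add] using h1.add h2
    | smul c x _ h1 => simpa only [(hl _).map_smul] using h1.smul c
  · rw [← (hl n).map_sub]
    rw [dist_eq_norm, lt_div_iff₀ (by positivity)] at h1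
    nlinarith [hb n (z - w), norm_nonneg (z - w)]

lemma eq_of_dense {F : V → Z} (hF : IsBoundedLinearMap ℂ F) {S : Set V}
    (hd : Dense (Submodule.span ℂ S : Set V)) (h : ∀ z ∈ S, F z = 0) (z : V) : F z = 0 := by
  obtain ⟨K, hK, hb⟩ := hF.bound
  have := (Sm.cl (P := ⊥) (G := fun _ => F) (fun _ => hF.toIsLinearMap) hK.le (fun _ => hb)
    (fun z hz => .of_mem fun _ => by simp [h z hz]) (hd z)).tendsto
  exact tendsto_nhds_unique tendsto_const_nhds this

lemma exact_of_approx {U : Type} [NormedAddCommGroup U] [NormedSpace ℂ U] [CompleteSpace U]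
    {d : U → V} (hd : IsBoundedLinearMap ℂ d) {e : V → Z} (he : IsBoundedLinearMap ℂ e)
    (h0 : ∀ w, e (d w) = 0) {K : ℝ} (hK : 0 ≤ K)
    (h : ∀ z, e z = 0 → ∀ ε > 0, ∃ w, ‖w‖ ≤ K * ‖z‖ ∧ ‖z - d w‖ < ε) (z : V) (hz : e z = 0) :
    ∃ w, d w = z := by
  have h1 : ∀ y : {y // e y = 0}, ∃ w, ‖w‖ ≤ K * ‖y.1‖ ∧ ‖y.1 - d w‖ ≤ 1 / 2 * ‖y.1‖ := by
    rintro ⟨y, hy⟩
    by_cases h2 : y = 0
    · exact ⟨0, by simp [h2], by simp [h2, hd.map_zero]⟩
    · obtain ⟨w, h3, h4⟩ := h y hy (1 / 2 * ‖y‖) (by have := norm_pos_iff.2 h2; positivity)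
      exact ⟨w, h3, h4.le⟩
  choose g hg hg' using h1
  let st : {y // e y = 0} → {y // e y = 0} := fun y =>
    ⟨y.1 - d (g y), by rw [he.map_sub, y.2, h0, sub_zero]⟩
  let y : ℕ → {y // e y = 0} := fun n => st^[n] ⟨z, hz⟩
  have hy : ∀ n, (y (n + 1)).1 = (y n).1 - d (g (y n)) := fun n => by
    simp only [y, Function.iterate_succ_apply', st]
  have hn : ∀ n, ‖(y n).1‖ ≤ (1 / 2) ^ n * ‖z‖ := by
    intro n
    induction n with
    | zero => simp [y]
    | succ n ih => rw [hy, pow_succ]; linarith [hg' (y n)]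
  have hs : Summable fun n => g (y n) :=
    .of_norm_bounded ((summable_geometric_two.mul_right ‖z‖).mul_left K) fun n =>
      (hg _).trans (mul_le_mul_of_nonneg_left (hn n) hK)
  let D : U →L[ℂ] V := IsBoundedLinearMap.toContinuousLinearMap d hd
  have h2 := (hs.hasSum.mapL D).tendsto_sum_nat
  have h3 : ∀ N, ∑ n ∈ Finset.range N, D (g (y n)) = z - (y N).1 := by
    intro N
    induction N with
    | zero => simp [y]
    | succ N ih => rw [Finset.sum_range_succ, ih, hy]; show _ + d _ = _; abel
  simp only [h3] at h2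
  have h4 : Tendsto (fun n => (y n).1) atTop (𝓝 0) :=
    squeeze_zero_norm hn (by
      simpa using (tendsto_pow_atTop_nhds_zero_of_lt_one (r := (1 / 2 : ℝ)) (by norm_num)
        (by norm_num)).mul_const ‖z‖)
  exact ⟨_, tendsto_nhds_unique h2 (by simpa using tendsto_const_nhds.sub h4)⟩

end Gen

variable {A : Type} [NonUnitalNormedRing A] [NormedSpace ℂ A]

section Comb
variable {Z : Type} [AddCommGroup Z]

def mid (g : List A → Z) : List A → Z
  | a :: b :: t => g (a * b :: t) - mid (fun s => g (a :: s)) (b :: t)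
  | _ => 0
termination_by t => t.length

omit [NormedSpace ℂ A] in
lemma sum_ctr (g : List A → Z) (a : A) (t : List A) :
    ∑ i ∈ Finset.range t.length, (-1 : ℤ) ^ (i + 1) • g (ctr i (a :: t)) = -mid g (a :: t) := by
  induction t generalizing a g with
  | nil => simp [mid]
  | cons b t ih =>
    rw [List.length_cons, Finset.sum_range_succ', mid, neg_sub, ← neg_neg (mid _ (b :: t)), ← ih,
      ← Finset.sum_neg_distrib]
    simp [ctr, pow_succ, sub_eq_add_neg]

/-- last entry and initial part -/
def la : A → List A → A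
  | a, [] => a
  | _, b :: t => la b t

def ini : A → List A → List A
  | _, [] => []
  | a, b :: t => a :: ini b t

lemma bd_cons (M : BiMod A) (f : M.X → List A → Z) (x : M.X) (a : A) (t : List A) :
    bd M t.length f x (a :: t) = f (M.r x a) t - mid (f x) (a :: t) +
      (-1 : ℤ) ^ (t.length + 1) • f (M.l (la a t) x) (ini a t) := by
  have h1 : ∀ (t : List A) a, (a :: t).getD t.length 0 = la a t := by
    intro t; induction t with
    | nil => intro a; rfl
    | cons b t ih => intro a; exact ih b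
  have h2 : ∀ (t : List A) a, (a :: t).take t.length = ini a t := by
    intro t; induction t with
    | nil => intro a; rfl
    | cons b t ih => intro a; rw [List.length_cons, List.take_succ_cons, ih, ini]
  rw [bd, sum_ctr, h1, h2, sub_eq_add_neg]; rfl

omit [NormedSpace ℂ A] in
lemma mid_congr {g h : List A → Z} (t : List A)
    (e : ∀ s, s.length + 1 = t.length → s ≠ [] → g s = h s) : mid g t = mid h t := by
  induction t generalizing g h with
  | nil => simp [mid]
  | cons a t ih =>
    cases t with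
    | nil => simp [mid]
    | cons b t =>
      rw [mid, mid, e _ (by simp) (by simp), ih fun s hs _ => e _ (by simpa using hs) (by simp)]

omit [NormedSpace ℂ A] in
lemma mid_map {Y : Type} [AddCommGroup Y] (F : Z →+ Y) (g : List A → Z) (t : List A) :
    mid (fun s => F (g s)) t = F (mid g t) := by
  induction t generalizing g with
  | nil => simp [mid]
  | cons a t ih =>
    cases t with
    | nil => simp [mid]
    | cons b t => rw [mid, mid, map_sub, ih]

omit [NormedSpace ℂ A] in
lemma mid_add (g h : List A → Z) (t : List A) :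
    mid (fun s => g s + h s) t = mid g t + mid h t := by
  induction t generalizing g h with
  | nil => simp [mid]
  | cons a t ih =>
    cases t with
    | nil => simp [mid]
    | cons b t => rw [mid, mid, mid, ih]; abel

omit [NormedSpace ℂ A] in
lemma mid_sub (g h : List A → Z) (t : List A) :
    mid (fun s => g s - h s) t = mid g t - mid h t := by
  simp only [sub_eq_add_neg]
  rw [mid_add]; congr 1
  exact mid_map (-AddMonoidHom.id Z) h t

omit [NormedSpace ℂ A] in
lemma mid_zsmul (c : ℤ) (g : List A → Z) (t : List A) :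
    mid (fun s => c • g s) t = c • mid g t := mid_map (zsmulAddGroupHom c) g t

omit [NormedSpace ℂ A] in
lemma mid_head (g : List A → Z) (a b : A) (t : List A) :
    mid (fun s => g (a * s.headD 0 :: s.tail)) (b :: t) = mid g (a * b :: t) := by
  cases t with
  | nil => simp [mid]
  | cons c t => simp [mid, mul_assoc]

omit [NormedSpace ℂ A] in
lemma mid_mid (g : List A → Z) (t : List A) : mid (mid g) t = 0 := by
  induction t generalizing g with
  | nil => simp [mid]
  | cons a t ih =>
    cases t with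
    | nil => simp [mid]
    | cons b t =>
      rw [mid, mid_congr (h := fun s => g (a * s.headD 0 :: s.tail) - mid (fun s => g (a :: s)) s)
        (b :: t),
        mid_sub, ih, mid_head]
      · simp
      · intro s _ hs
        cases s with
        | nil => exact (hs rfl).elim
        | cons c s => simp [mid]

omit [NormedSpace ℂ A] in
lemma mid_last (k : A → List A → Z) (a b : A) (t : List A) :
    mid (fun s => k (la (s.headD 0) s.tail) (ini (s.headD 0) s.tail)) (a :: b :: t) =
      mid (k (la b t)) (a :: ini b t) +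
        (-1 : ℤ) ^ t.length • k (la a (ini b t) * la b t) (ini a (ini b t)) := by
  induction t generalizing k a b with
  | nil => simp [mid, la, ini]
  | cons c t ih =>
    rw [mid, mid_congr (h := fun s => (fun u v => k u (a :: v)) (la (s.headD 0) s.tail)
      (ini (s.headD 0) s.tail)), ih fun u v => k u (a :: v)]
    · simp only [la, ini, mid, List.headD_cons, List.tail_cons, List.length_cons, pow_succ,
        mul_neg, mul_one, neg_smul]
      abel
    · intro s _ hs
      cases s with
      | nil => exact (hs rfl).elim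
      | cons c s => simp [la, ini]

omit [NonUnitalNormedRing A] [NormedSpace ℂ A] in
lemma len_ini (a : A) (t : List A) : (ini a t).length = t.length := by
  induction t generalizing a with
  | nil => rfl
  | cons b t ih => simp [ini, ih]

lemma bd_bd (M : BiMod A) (f : M.X → List A → Z) (n : ℕ) (x : M.X) (t : List A)
    (ht : t.length = n + 2) : bd M (n + 1) (bd M n f) x t = 0 := by
  obtain ⟨a, b, t, rfl⟩ : ∃ a b s, t = a :: b :: s := by
    match t, ht with
    | a :: b :: s, _ => exact ⟨a, b, s, rfl⟩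
  obtain rfl : n = t.length := by simpa using ht.symm
  have h1 := bd_cons M (bd M t.length f) x a (b :: t)
  rw [List.length_cons] at h1
  have h2 := bd_cons M f (M.l (la b t) x) a (ini b t)
  rw [len_ini] at h2
  rw [h1, bd_cons, la, ini, h2, mid_congr (h := fun s => f (M.r x (s.headD 0)) s.tail - mid (f x) s +
    (-1 : ℤ) ^ (t.length + 1) • f (M.l (la (s.headD 0) s.tail) x) (ini (s.headD 0) s.tail))
    (a :: b :: t), mid_add, mid_sub, mid_mid, mid_zsmul, mid_last fun u v => f (M.l u x) v, mid]
  · simp only [List.headD_cons, List.tail_cons, M.r_mul, M.l_mul, M.l_r, pow_succ, smul_add,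
      smul_sub, smul_smul]
    rcases neg_one_pow_eq_or ℤ t.length with h | h <;> simp [h] <;> abel
  · intro s hs hs'
    cases s with
    | nil => exact (hs' rfl).elim
    | cons c s =>
      obtain e : s.length = t.length := by simpa using hs
      rw [← e, bd_cons]; rfl

lemma bd_congr (M : BiMod A) {f g : M.X → List A → Z} {n : ℕ}
    (e : ∀ x s, s.length = n → f x s = g x s) (x : M.X) (t : List A) (ht : t.length = n + 1) :
    bd M n f x t = bd M n g x t := by
  cases t with
  | nil => simp at ht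
  | cons a t =>
    obtain rfl : n = t.length := by simpa using ht.symm
    rw [bd_cons, bd_cons, e _ _ rfl, e _ _ (len_ini _ _),
      mid_congr _ fun s hs _ => e x s (by simpa using hs)]

lemma bd_map (M : BiMod A) {Y : Type} [AddCommGroup Y] (F : Z →+ Y) (f : M.X → List A → Z) (n : ℕ)
    (x : M.X) (t : List A) : F (bd M n f x t) = bd M n (fun x t => F (f x t)) x t := by
  simp [bd, map_sum]

end Comb

end Pool.Agent.H90.Hh
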