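import Mathlib
import Pool.Agent.H90.HhA

namespace Pool.Agent.H90.Hh

open Filter Topology

variable {A : Type} [NonUnitalNormedRing A] [NormedSpace ℂ A]

section
variable {Z : Type} [NormedAddCommGroup Z] [NormedSpace ℂ Z]

def Bil (β : A → A → Z) (c : ℝ) : Prop :=
  (∀ u, IsLinearMap ℂ (β u)) ∧ (∀ v, IsLinearMap ℂ fun u => β u v) ∧
    ∀ u v, ‖β u v‖ ≤ c * ‖u‖ * ‖v‖

noncomputable def avg (E : ℕ → ℕ → A) (n : ℕ) (β : A → A → Z) : Z :=
  (1 / (n + 1) : ℂ) • ∑ i : Fin (n + 1), ∑ j : Fin (n + 1), β (E i j) (E j i)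

omit [NonUnitalNormedRing A] [NormedSpace ℂ A] in
lemma avg_map {Y : Type} [NormedAddCommGroup Y] [NormedSpace ℂ Y] {F : Z → Y}
    (hF : IsLinearMap ℂ F) (E : ℕ → ℕ → A) (n : ℕ) (β : A → A → Z) :
    F (avg E n β) = avg E n fun u v => F (β u v) := by
  change hF.mk' F (avg E n β) = avg E n fun u v => hF.mk' F (β u v)
  simp only [avg, map_smul, map_sum]

omit [NonUnitalNormedRing A] [NormedSpace ℂ A] in
lemma avg_add (E : ℕ → ℕ → A) (n : ℕ) (β γ : A → A → Z) :
    avg E n (fun u v => β u v + γ u v) = avg E n β + avg E n γ := by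
  simp only [avg, Finset.sum_add_distrib, smul_add]

omit [NonUnitalNormedRing A] [NormedSpace ℂ A] in
lemma avg_sub (E : ℕ → ℕ → A) (n : ℕ) (β γ : A → A → Z) :
    avg E n (fun u v => β u v - γ u v) = avg E n β - avg E n γ := by
  simp only [avg, Finset.sum_sub_distrib, smul_sub]

omit [NonUnitalNormedRing A] [NormedSpace ℂ A] in
lemma avg_lin {V : Type} [AddCommGroup V] [Module ℂ V] (E : ℕ → ℕ → A) (n : ℕ)
    {β : V → A → A → Z} (h : ∀ u v, IsLinearMap ℂ fun x => β x u v) :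
    IsLinearMap ℂ fun x => avg E n (β x) := by
  refine ⟨fun x y => ?_, fun c x => ?_⟩
  · rw [← avg_add]; congr 1; ext u v; exact (h u v).map_add x y
  · rw [avg_map (IsLinearMap.isLinearMap_smul c)]; congr 1; ext u v; exact (h u v).map_smul c x

omit [NonUnitalNormedRing A] [NormedSpace ℂ A] in
lemma avg_mem (E : ℕ → ℕ → A) (n : ℕ) {β : A → A → Z} {P : Submodule ℂ Z}
    (h : ∀ u v, β u v ∈ P) : avg E n β ∈ P :=
  P.smul_mem _ (P.sum_mem fun _ _ => P.sum_mem fun _ _ => h _ _)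

lemma bd_avg (M : BiMod A) (E : ℕ → ℕ → A) (n k : ℕ) (F : M.X → List A → A → A → Z) (x : M.X)
    (t : List A) : bd M k (fun x t => avg E n (F x t)) x t =
      avg E n fun u v => bd M k (fun x t => F x t u v) x t := by
  let G : (A → A → Z) →+ Z := AddMonoidHom.mk' (avg E n) (avg_add E n)
  have := bd_map M G F k x t
  change avg E n _ = bd M k (fun x t => avg E n (F x t)) x t at this
  rw [← this]
  congr 1
  ext u v
  exact bd_map M ((Pi.evalAddMonoidHom (fun _ => Z) v).comp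
    (Pi.evalAddMonoidHom (fun _ => A → Z) u)) F k x t

end

structure Good (E : ℕ → ℕ → A) : Prop where
  h0 : ∀ (Z : Type) [NormedAddCommGroup Z] [NormedSpace ℂ Z] (β : A → A → Z) (c : ℝ), 0 ≤ c →
    Bil β c → ∀ n, ‖avg E n β‖ ≤ 4 * c
  h1 : ∀ a, Tendsto (fun n => avg E n fun u v => a * u * v) atTop (𝓝 a)
  h2 : ∀ (Z : Type) [NormedAddCommGroup Z] [NormedSpace ℂ Z] (β : A → A → Z) (c : ℝ), 0 ≤ c →
    Bil β c → ∀ a b, Tendsto (fun n => avg E n (fun u v => β (a * b * u) v) -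
      avg E n fun u v => β (a * u) (v * b)) atTop (𝓝 0)
  h3 : ∃ R : ℕ → A →L[ℂ] A, (∀ m, ‖R m‖ ≤ 1) ∧ (∀ a, Tendsto (fun m => R m a) atTop (𝓝 a)) ∧
    ∀ m, ∃ (C : ℝ) (e : ℕ → A), (∀ i, ‖e i‖ ≤ C) ∧
      ∀ a, Tendsto (fun i => e i * a) atTop (𝓝 (R m a))

omit [NormedSpace ℂ A] in
lemma pn_nonneg (t : List A) : 0 ≤ pn t :=
  List.prod_nonneg fun _ h => by obtain ⟨a, -, rfl⟩ := List.mem_map.1 h; exact norm_nonneg a

omit [NormedSpace ℂ A] in
@[simp] lemma pn_cons (a : A) (t : List A) : pn (a :: t) = ‖a‖ * pn t := by simp [pn]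
omit [NormedSpace ℂ A] in
@[simp] lemma pn_nil : pn ([] : List A) = 1 := rfl

lemma lin_comp {U V W : Type} [AddCommGroup U] [Module ℂ U] [AddCommGroup V] [Module ℂ V]
    [AddCommGroup W] [Module ℂ W] {f : V → W} {g : U → V} (hf : IsLinearMap ℂ f)
    (hg : IsLinearMap ℂ g) : IsLinearMap ℂ fun x => f (g x) :=
  ⟨fun x y => by rw [hg.map_add, hf.map_add], fun c x => by rw [hg.map_smul, hf.map_smul]⟩

lemma lin_add {U V : Type} [AddCommGroup U] [Module ℂ U] [AddCommGroup V] [Module ℂ V]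
    {f g : U → V} (hf : IsLinearMap ℂ f) (hg : IsLinearMap ℂ g) :
    IsLinearMap ℂ fun x => f x + g x :=
  ⟨fun x y => by rw [hg.map_add, hf.map_add]; abel,
    fun c x => by rw [hg.map_smul, hf.map_smul, smul_add]⟩

lemma lin_sub {U V : Type} [AddCommGroup U] [Module ℂ U] [AddCommGroup V] [Module ℂ V]
    {f g : U → V} (hf : IsLinearMap ℂ f) (hg : IsLinearMap ℂ g) :
    IsLinearMap ℂ fun x => f x - g x :=
  ⟨fun x y => by rw [hg.map_add, hf.map_add]; abel,
    fun c x => by rw [hg.map_smul, hf.map_smul, smul_sub]⟩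

lemma lin_id {U : Type} [AddCommGroup U] [Module ℂ U] : IsLinearMap ℂ fun x : U => x :=
  ⟨fun _ _ => rfl, fun _ _ => rfl⟩

namespace BiMod
variable (M : BiMod A)
lemma r_x (a : A) : IsLinearMap ℂ fun x => M.r x a :=
  ⟨fun x y => M.r_bil.add_left x y a, fun c x => M.r_bil.smul_left c x a⟩
lemma r_a (x : M.X) : IsLinearMap ℂ fun a => M.r x a :=
  ⟨fun a b => M.r_bil.add_right x a b, fun c a => M.r_bil.smul_right c x a⟩
lemma l_x (a : A) : IsLinearMap ℂ fun x => M.l a x :=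
  ⟨fun x y => M.l_bil.add_right a x y, fun c x => M.l_bil.smul_right c a x⟩
lemma l_a (x : M.X) : IsLinearMap ℂ fun a => M.l a x :=
  ⟨fun a b => M.l_bil.add_left a b x, fun c a => M.l_bil.smul_left c a x⟩
lemma bd : ∃ K, 0 ≤ K ∧ (∀ x a, ‖M.r x a‖ ≤ K * ‖x‖ * ‖a‖) ∧ ∀ x a, ‖M.l a x‖ ≤ K * ‖x‖ * ‖a‖ := by
  obtain ⟨K, hK, h⟩ := M.r_bil.bound
  obtain ⟨L, hL, h'⟩ := M.l_bil.bound
  refine ⟨K + L, by positivity, fun x a => (h x a).trans (by gcongr; linarith), fun x a =>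
    (h' a x).trans ?_⟩
  rw [mul_right_comm]; gcongr; linarith
end BiMod

variable [IsScalarTower ℂ A A] [SMulCommClass ℂ A A]

omit [IsScalarTower ℂ A A] in
lemma mul_l (a : A) : IsLinearMap ℂ fun u : A => a * u := ⟨mul_add a, fun c x => mul_smul_comm c a x⟩
omit [SMulCommClass ℂ A A] in
lemma mul_r (a : A) : IsLinearMap ℂ fun u : A => u * a :=
  ⟨fun x y => add_mul x y a, fun c x => smul_mul_assoc c x a⟩

variable {M : BiMod A} {E : ℕ → ℕ → A}

section
variable {Z : Type} [NormedAddCommGroup Z] [NormedSpace ℂ Z] {f : M.X → List A → Z} {k : ℕ} {K : ℝ}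

omit [IsScalarTower ℂ A A] [SMulCommClass ℂ A A] in
lemma bil_S (hf : IsML (k + 1) f 1) (hr : ∀ x a, ‖M.r x a‖ ≤ K * ‖x‖ * ‖a‖) (x : M.X)
    {t : List A} (ht : t.length = k) : Bil (fun u v => f (M.r x u) (v :: t)) (K * ‖x‖ * pn t) := by
  refine ⟨fun u => hf.2.1 _ [] t (by simp [ht]),
    fun v => lin_comp (hf.1 (v :: t) (by simp [ht])) (M.r_a x), fun u v => ?_⟩
  refine (hf.2.2 _ _ (by simp [ht])).trans ?_
  have := mul_le_mul_of_nonneg_right (hr x u) (mul_nonneg (norm_nonneg v) (pn_nonneg t))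
  rw [pn_cons]; linarith

omit [IsScalarTower ℂ A A] [SMulCommClass ℂ A A] in
lemma ml_S (hG : Good E) (hf : IsML (k + 1) f 1) (hK : 0 ≤ K)
    (hr : ∀ x a, ‖M.r x a‖ ≤ K * ‖x‖ * ‖a‖) (n : ℕ) :
    IsML k (fun x t => avg E n fun u v => f (M.r x u) (v :: t)) (4 * K) := by
  refine ⟨fun t ht => avg_lin E n fun u v => lin_comp (hf.1 (v :: t) (by simp [ht])) (M.r_x u),
    fun x s t h => avg_lin E n fun u v => hf.2.1 _ (v :: s) t (by simp; omega), fun x t ht => ?_⟩
  have := pn_nonneg t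
  exact (hG.h0 _ _ _ (by positivity) (bil_S hf hr x ht) n).trans_eq (by ring)

omit [IsScalarTower ℂ A A] [SMulCommClass ℂ A A] in
lemma bil_T (hf : IsML (k + 2) f 1) (x : M.X) {t : List A} (ht : t.length = k) :
    Bil (fun u v => f x (u :: v :: t)) (‖x‖ * pn t) :=
  ⟨fun u => hf.2.1 _ [u] t (by simp; omega), fun v => hf.2.1 _ [] (v :: t) (by simp; omega),
    fun u v => (hf.2.2 _ _ (by simp [ht])).trans_eq (by simp; ring)⟩

omit [IsScalarTower ℂ A A] in
lemma Bil.left {β : A → A → Z} {c : ℝ} (h : Bil β c) (hc : 0 ≤ c) (a : A) :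
    Bil (fun u v => β (a * u) v) (c * ‖a‖) :=
  ⟨fun _ => h.1 _, fun v => lin_comp (h.2.1 v) (mul_l a), fun u v => (h.2.2 _ _).trans (by
    rw [mul_assoc c ‖a‖]; gcongr; exact norm_mul_le _ _)⟩

lemma ml_T (hG : Good E) (hf : IsML (k + 2) f 1) (n : ℕ) :
    IsML (k + 1) (fun x t => avg E n fun u v => f x (t.headD 0 * u :: v :: t.tail)) 4 := by
  refine ⟨fun t ht => avg_lin E n fun u v => hf.1 _ (by simp [ht]), fun x s t h => ?_,
    fun x t ht => ?_⟩
  · cases s with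
    | nil =>
      exact avg_lin E n fun u v => lin_comp (f := fun a => f x (a :: v :: t))
        (hf.2.1 x [] (v :: t) (by simp at h ⊢; omega)) (mul_r u)
    | cons b s => exact avg_lin E n fun u v => hf.2.1 x (b * u :: v :: s) t (by simp at h ⊢; omega)
  · cases t with
    | nil => simp at ht
    | cons a t =>
      have := pn_nonneg t
      exact (hG.h0 _ _ _ (by positivity) ((bil_T hf x (by simpa using ht)).left (by positivity) a)
        n).trans_eq (by simp; ring)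

omit [IsScalarTower ℂ A A] [SMulCommClass ℂ A A] [NormedSpace ℂ Z] in
lemma id_S (f : M.X → List A → Z) (x : M.X) (a u v : A) (t : List A) :
    bd M (t.length + 1) f (M.r x u) (v :: a :: t) +
      bd M t.length (fun x t => f (M.r x u) (v :: t)) x (a :: t) =
    f (M.r x (u * v)) (a :: t) - f (M.r x u) (v * a :: t) + f (M.r x (a * u)) (v :: t) := by
  have := bd_cons M f (M.r x u) v (a :: t)
  rw [List.length_cons] at this
  rw [this, bd_cons, mid, la, ini, M.r_mul, M.r_mul, M.l_r, pow_succ _ (t.length + 1)]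
  simp only [mul_neg, mul_one, neg_smul]
  abel

omit [IsScalarTower ℂ A A] [SMulCommClass ℂ A A] [NormedSpace ℂ Z] in
lemma id_T (f : M.X → List A → Z) (x : M.X) (a b u v : A) (t : List A) :
    bd M (t.length + 2) f x (a * u :: v :: b :: t) +
      bd M (t.length + 1) (fun x t => f x (t.headD 0 * u :: v :: t.tail)) x (a :: b :: t) =
    f (M.r x (a * u)) (v :: b :: t) + f (M.r x a) (b * u :: v :: t) - f x (a * u * v :: b :: t)
      - (f x (a * b * u :: v :: t) - f x (a * u :: v * b :: t)) := by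
  have h1 := bd_cons M f x (a * u) (v :: b :: t)
  have h2 := bd_cons M (fun x t => f x (t.headD 0 * u :: v :: t.tail)) x a (b :: t)
  simp only [List.length_cons] at h1 h2
  rw [h1, h2, mid, mid, mid, pow_succ _ (t.length + 1 + 1)]
  simp only [mul_neg, mul_one, neg_smul, la, ini, List.headD_cons, List.tail_cons]
  abel

end

/-- the essential part -/
def Ess {k : ℕ} (T : Tens M k) : Submodule ℂ T.C :=
  Submodule.span ℂ {z | ∃ x a t, t.length = k ∧ z = T.ι (M.r x a) t}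

omit [IsScalarTower ℂ A A] [SMulCommClass ℂ A A] in
lemma ess_mem {k : ℕ} (T : Tens M k) (x : M.X) (a : A) {t : List A} (ht : t.length = k) :
    T.ι (M.r x a) t ∈ Ess T := Submodule.subset_span ⟨x, a, t, ht, rfl⟩

omit [IsScalarTower ℂ A A] [SMulCommClass ℂ A A] in
lemma IsBd.dd {k : ℕ} {T2 : Tens M (k + 2)} {T1 : Tens M (k + 1)} {T0 : Tens M k}
    {d : T2.C → T1.C} {e : T1.C → T0.C} (hd : IsBd T2 T1 d) (he : IsBd T1 T0 e) (w : T2.C) :
    e (d w) = 0 := by
  refine eq_of_dense (he.1.comp hd.1) T2.dense ?_ w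
  rintro _ ⟨x, t, ht, rfl⟩
  have := bd_map M (he.1.toIsLinearMap.mk' e).toAddMonoidHom T1.ι (k + 1) x t
  rw [Function.comp, hd.2 x t ht]
  refine this.trans ((bd_congr M (fun x s hs => he.2 x s hs) x t ht).trans (bd_bd M _ k x t ht))

omit [IsScalarTower ℂ A A] [SMulCommClass ℂ A A] in
lemma lift_bd {k : ℕ} {T1 : Tens M (k + 1)} {T0 : Tens M k} {e : T1.C → T0.C} (he : IsBd T1 T0 e)
    {Z : Type} [NormedAddCommGroup Z] [NormedSpace ℂ Z] {F : T0.C → Z} (hF : IsLinearMap ℂ F)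
    {g : M.X → List A → Z} (hg : ∀ x (t : List A), t.length = k → F (T0.ι x t) = g x t)
    (x : M.X) {t : List A} (ht : t.length = k + 1) : F (e (T1.ι x t)) = bd M k g x t := by
  rw [he.2 x t ht]
  exact (bd_map M (hF.mk' F).toAddMonoidHom T0.ι k x t).trans (bd_congr M hg x t ht)

omit [IsScalarTower ℂ A A] [SMulCommClass ℂ A A] in
lemma slot_lim {k : ℕ} (T : Tens M (k + 1)) (x : M.X) {t : List A} (ht : t.length = k)
    {a : ℕ → A} {b : A} (h : Tendsto a atTop (𝓝 b)) :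
    Tendsto (fun n => T.ι x (b :: t) - T.ι x (a n :: t)) atTop (𝓝 0) := by
  have hl := T.ml.2.1 x [] t (by simp [ht])
  refine squeeze_zero_norm (a := fun n => ‖x‖ * (‖b - a n‖ * pn t)) (fun n => ?_) ?_
  · have := hl.map_sub b (a n)
    simp only [List.nil_append] at this
    rw [← this]
    simpa using T.ml.2.2 x ((b - a n) :: t) (by simp [ht])
  · simpa using (((tendsto_const_nhds (x := b)).sub h).norm.mul_const (pn t)).const_mul ‖x‖

omit [IsScalarTower ℂ A A] [SMulCommClass ℂ A A] in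
/-- first homotopy -/
lemma ex_S (hG : Good E) {k : ℕ} {T2 : Tens M (k + 2)} {T1 : Tens M (k + 1)} {T0 : Tens M k}
    {d : T2.C → T1.C} {e : T1.C → T0.C} (hd : IsBd T2 T1 d) (he : IsBd T1 T0 e) :
    ∃ K, 0 ≤ K ∧ ∀ y, e y = 0 → ∀ ε > 0, ∀ p ∈ Ess T1, ‖y - p‖ ≤ ε →
      ∃ w, ‖w‖ ≤ K * ‖y‖ ∧ ‖y - d w‖ ≤ K * ε := by
  obtain ⟨K, hK, hr, -⟩ := M.bd
  obtain ⟨Kd, hKd, bd1⟩ := hd.1.bound
  obtain ⟨Ke, hKe, bd2⟩ := he.1.bound
  have := T2.cpl
  have := T1.cpl
  choose s s1 s2 s3 using fun n => T1.lifts _ _ _ (by positivity) (ml_S hG T2.ml hK hr n)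
  choose s' s1' s2' s3' using fun n => T0.lifts _ _ _ (by positivity) (ml_S hG T1.ml hK hr n)
  let G := fun n y => d (s n y) + s' n (e y) - y
  have gl : ∀ n, IsLinearMap ℂ (G n) := fun n => lin_sub (lin_add
    (lin_comp hd.1.toIsLinearMap (s1 n)) (lin_comp (s1' n) he.1.toIsLinearMap)) lin_id
  have gb : ∀ n y, ‖G n y‖ ≤ (Kd * (4 * K) + 4 * K * Ke + 1) * ‖y‖ := fun n y => by
    have a1 := (bd1 (s n y)).trans (mul_le_mul_of_nonneg_left (s2 n y) hKd.le)
    have a2 := (s2' n (e y)).trans (mul_le_mul_of_nonneg_left (bd2 y) (by positivity))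
    have := norm_sub_le (d (s n y) + s' n (e y)) y
    have := norm_add_le (d (s n y)) (s' n (e y))
    show ‖d (s n y) + s' n (e y) - y‖ ≤ _
    nlinarith
  refine ⟨4 * K + (Kd * (4 * K) + 4 * K * Ke + 1) + 1, by positivity, fun y hy ε hε p hp h => ?_⟩
  have h1 := (Sm.cl (P := ⊥) gl (by positivity) gb ?_ (subset_closure hp)).tendsto
  · obtain ⟨n, hn⟩ := (Metric.tendsto_nhds.1 h1 ε hε).exists
    refine ⟨s n y, (s2 n y).trans (by gcongr; nlinarith [mul_nonneg hKd.le hK, mul_nonneg hK hKe.le]), ?_⟩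
    have e1 : y - d (s n y) = -(G n (y - p) + G n p) := by
      rw [← (gl n).map_add, sub_add_cancel]
      simp [G, hy, (s1' n).map_zero]
    rw [dist_zero_right] at hn
    have a1 := (gb n (y - p)).trans (mul_le_mul_of_nonneg_left h (by positivity))
    rw [e1, norm_neg]
    nlinarith [norm_add_le (G n (y - p)) (G n p), mul_nonneg hK hε.le]
  · rintro _ ⟨x, c, t, ht, rfl⟩
    obtain ⟨a, t, rfl⟩ := List.exists_cons_of_length_eq_add_one ht
    obtain rfl : k = t.length := by simpa using ht.symm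
    refine .of_tendsto ?_
    have hb := bil_S T1.ml hr x (t := t) rfl
    have := pn_nonneg t
    have h2 := hG.h2 _ _ _ (by positivity) hb c a
    have hl := lin_comp (T1.ml.1 (a :: t) ht) (M.r_a x)
    have h3 : Tendsto (fun n => T1.ι (M.r x (avg E n fun u v => c * u * v)) (a :: t)
        - T1.ι (M.r x c) (a :: t)) atTop (𝓝 0) := by
      refine squeeze_zero_norm (a := fun n => K * ‖x‖ * ‖(avg E n fun u v => c * u * v) - c‖ *
        pn (a :: t)) (fun n => ?_) ?_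
      · rw [← hl.map_sub]
        refine (T1.ml.2.2 _ _ ht).trans ?_
        rw [one_mul]
        exact mul_le_mul_of_nonneg_right (hr _ _) (pn_nonneg _)
      · simpa using ((((hG.h1 c).sub_const c).norm.const_mul (K * ‖x‖)).mul_const (pn (a :: t)))
    have h4 := h3.add h2
    rw [add_zero] at h4
    refine h4.congr fun n => ?_
    simp only [G]
    rw [s3 n _ _ ht, avg_map hd.1.toIsLinearMap, lift_bd he (s1' n) (s3' n) _ ht, bd_avg,
      ← avg_add, avg_map hl, sub_add_eq_add_sub, ← avg_sub, ← avg_add]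
    congr 2
    ext u v
    rw [hd.2 _ _ (by simp), id_S]
    simp only [← M.r_mul, mul_assoc]
    abel

end Pool.Agent.H90.Hh
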