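import Mathlib
import Pool.Agent.H90.HhB

namespace Pool.Agent.H90.Hh

open Filter Topology

variable {A : Type} [NonUnitalNormedRing A] [NormedSpace ℂ A] [IsScalarTower ℂ A A]
  [SMulCommClass ℂ A A] {M : BiMod A} {E : ℕ → ℕ → A}

lemma Sm.congr {Z : Type} [NormedAddCommGroup Z] [NormedSpace ℂ Z] {P : Submodule ℂ Z}
    {y z : ℕ → Z} (h : Sm P y) (e : ∀ n, y n = z n) : Sm P z := (funext e : y = z) ▸ h

lemma ex_T2 (hG : Good E) {k : ℕ} {T2 : Tens M (k + 3)} {T1 : Tens M (k + 2)} {T0 : Tens M (k + 1)}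
    {d : T2.C → T1.C} {e : T1.C → T0.C} (hd : IsBd T2 T1 d) (he : IsBd T1 T0 e) (z : T1.C)
    (hz : e z = 0) : ∃ w : ℕ → T2.C, (∀ n, ‖w n‖ ≤ 4 * ‖z‖) ∧ Sm (Ess T1) fun n => d (w n) + z := by
  obtain ⟨Kd, hKd, bd1⟩ := hd.1.bound
  obtain ⟨Ke, hKe, bd2⟩ := he.1.bound
  have := T2.cpl
  have := T1.cpl
  choose s s1 s2 s3 using fun n => T1.lifts _ _ _ (by positivity) (ml_T hG T2.ml n)
  choose s' s1' s2' s3' using fun n => T0.lifts _ _ _ (by positivity) (ml_T hG T1.ml n)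
  let G := fun n y => d (s n y) + s' n (e y) + y
  have gl : ∀ n, IsLinearMap ℂ (G n) := fun n => lin_add (lin_add
    (lin_comp hd.1.toIsLinearMap (s1 n)) (lin_comp (s1' n) he.1.toIsLinearMap)) lin_id
  have gb : ∀ n y, ‖G n y‖ ≤ (Kd * 4 + 4 * Ke + 1) * ‖y‖ := fun n y => by
    have a1 := (bd1 (s n y)).trans (mul_le_mul_of_nonneg_left (s2 n y) hKd.le)
    have a2 := (s2' n (e y)).trans (mul_le_mul_of_nonneg_left (bd2 y) (by positivity))
    have := norm_add₃_le (a := d (s n y)) (b := s' n (e y)) (c := y)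
    show ‖d (s n y) + s' n (e y) + y‖ ≤ _
    nlinarith
  refine ⟨fun n => s n z, fun n => s2 n z, ?_⟩
  have h1 := Sm.cl (P := Ess T1) gl (by positivity) gb ?_ (T1.dense z)
  · simpa [G, hz, (s1' _).map_zero] using h1
  rintro _ ⟨x, t, ht, rfl⟩
  obtain ⟨a, t, rfl⟩ := List.exists_cons_of_length_eq_add_one ht
  obtain ⟨b, t, rfl⟩ := List.exists_cons_of_length_eq_add_one (l := t) (n := k) (by simpa using ht)
  obtain rfl : k = t.length := by simpa using ht.symm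
  have := pn_nonneg t
  have h2 := hG.h2 _ _ _ (by positivity) (bil_T T1.ml x (t := t) rfl) a b
  have h3 := slot_lim T1 x (t := b :: t) rfl (hG.h1 a)
  have h4 := (Sm.of_mem (P := Ess T1) (y := fun n => avg E n fun u v =>
    T1.ι (M.r x (a * u)) (v :: b :: t) + T1.ι (M.r x a) (b * u :: v :: t)) fun n =>
      avg_mem E n fun u v => add_mem (ess_mem _ _ _ rfl) (ess_mem _ _ _ rfl)).add
    (.of_tendsto (by simpa using h3.sub h2))
  refine h4.congr fun n => Eq.symm ?_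
  have hl : IsLinearMap ℂ fun a => T1.ι x (a :: b :: t) := T1.ml.2.1 x [] (b :: t) (by simp)
  simp only [G]
  rw [s3 n _ _ ht, avg_map hd.1.toIsLinearMap, lift_bd he (s1' n) (s3' n) _ ht, bd_avg,
    ← avg_add, avg_map hl]
  have e : (avg E n fun u v => d (T2.ι x ((a :: b :: t).headD 0 * u :: v :: (a :: b :: t).tail)) +
      bd M (t.length + 1) (fun x t => T1.ι x (t.headD 0 * u :: v :: t.tail)) x (a :: b :: t)) =
      avg E n fun u v => T1.ι (M.r x (a * u)) (v :: b :: t) + T1.ι (M.r x a) (b * u :: v :: t)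
        - T1.ι x (a * u * v :: b :: t)
        - (T1.ι x (a * b * u :: v :: t) - T1.ι x (a * u :: v * b :: t)) := by
    congr 1
    ext u v
    rw [hd.2 _ _ (by simp)]
    exact id_T _ _ _ _ _ _ _
  rw [e, avg_sub, avg_sub, avg_sub]
  abel

omit [IsScalarTower ℂ A A] [SMulCommClass ℂ A A] in
lemma ex_phi (T : Tens M 1) (L : A →L[ℂ] A) : ∃ F : T.C → T.C, IsLinearMap ℂ F ∧
    (∀ z, ‖F z‖ ≤ ‖L‖ * ‖z‖) ∧ ∀ x a, F (T.ι x [a]) = T.ι x [L a] := by
  have := T.cpl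
  obtain ⟨F, h1, h2, h3⟩ := T.lifts _ (fun x t => T.ι x [L (t.headD 0)]) ‖L‖ (norm_nonneg _)
    ⟨fun t _ => T.ml.1 _ rfl, fun x s t h => by
      obtain rfl : s = [] := List.length_eq_zero_iff.1 (by omega)
      exact lin_comp (f := fun a => T.ι x [a]) (T.ml.2.1 x [] [] rfl) L.isLinear,
    fun x t ht => by
      obtain ⟨a, rfl⟩ := List.length_eq_one_iff.1 ht
      refine (T.ml.2.2 _ _ rfl).trans ?_
      have := mul_le_mul_of_nonneg_left (L.le_opNorm a) (norm_nonneg x)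
      simp only [pn_cons, pn_nil, List.headD_cons]; linarith⟩
  exact ⟨F, h1, h2, fun x a => h3 x [a] rfl⟩

omit [IsScalarTower ℂ A A] [SMulCommClass ℂ A A] in
lemma phi_lim (T : Tens M 1) {F : ℕ → T.C → T.C} {G : T.C → T.C} (hF : ∀ n, IsLinearMap ℂ (F n))
    (hG : IsLinearMap ℂ G) {K : ℝ} (hK : 0 ≤ K) (bF : ∀ n z, ‖F n z‖ ≤ K * ‖z‖)
    (bG : ∀ z, ‖G z‖ ≤ ‖z‖) {L : ℕ → A → A} {N : A → A} (eF : ∀ n x a, F n (T.ι x [a]) = T.ι x [L n a])
    (eG : ∀ x a, G (T.ι x [a]) = T.ι x [N a]) (h : ∀ a, Tendsto (fun n => L n a) atTop (𝓝 (N a)))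
    (z : T.C) {ε : ℝ} (hε : 0 < ε) : ∃ n, ‖G z - F n z‖ < ε := by
  have := (Sm.cl (P := ⊥) (G := fun n z => G z - F n z) (fun n => lin_sub hG (hF n))
    (K := 1 + K) (by positivity) (fun n z => by linarith [norm_sub_le (G z) (F n z), bF n z, bG z])
    ?_ (T.dense z)).tendsto
  · simpa using (Metric.tendsto_nhds.1 this ε hε).exists
  rintro _ ⟨x, t, ht, rfl⟩
  obtain ⟨a, rfl⟩ := List.length_eq_one_iff.1 ht
  simp only [eF, eG]
  exact .of_tendsto (slot_lim T x rfl (h a))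

lemma ex_left (hG : Good E) (T : Tens M 1) (z : T.C) {ε : ℝ} (hε : 0 < ε) :
    ∃ (c : A) (F : T.C → T.C), IsLinearMap ℂ F ∧ (∀ z, ‖F z‖ ≤ ‖c‖ * ‖z‖) ∧
      (∀ x a, F (T.ι x [a]) = T.ι x [c * a]) ∧ ‖z - F z‖ < ε := by
  obtain ⟨R, r1, r2, r3⟩ := hG.h3
  choose F f1 f2 f3 using ex_phi T
  have f4 : ∀ m z, ‖F (R m) z‖ ≤ 1 * ‖z‖ := fun m z => (f2 _ z).trans (by gcongr; exact r1 m)
  obtain ⟨m, hm⟩ := phi_lim T (G := fun z => z) (fun m => f1 (R m)) lin_id zero_le_one f4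
    (fun _ => le_rfl) (fun m => f3 (R m)) (N := fun a => a) (fun _ _ => rfl) r2 z (half_pos hε)
  obtain ⟨C, c, c1, c2⟩ := r3 m
  have f5 : ∀ c z, ‖F (ContinuousLinearMap.mul ℂ A c) z‖ ≤ ‖c‖ * ‖z‖ := fun c z =>
    (f2 _ z).trans (by gcongr; exact ContinuousLinearMap.opNorm_mul_apply_le ℂ A c)
  obtain ⟨i, hi⟩ := phi_lim T (fun i => f1 (ContinuousLinearMap.mul ℂ A (c i))) (f1 (R m))
    ((norm_nonneg _).trans (c1 0)) (fun i z => (f5 _ z).trans (by gcongr; exact c1 i))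
    (fun z => by simpa using f4 m z) (fun i => f3 _) (f3 (R m)) c2 z (half_pos hε)
  exact ⟨c i, _, f1 _, f5 _, f3 _,
    by linarith [norm_sub_le_norm_sub_add_norm_sub z (F (R m) z) (F (ContinuousLinearMap.mul ℂ A (c i)) z)]⟩

lemma ex_T1 (hG : Good E) {T2 : Tens M 2} {T1 : Tens M 1} {T0 : Tens M 0}
    {d : T2.C → T1.C} {e : T1.C → T0.C} (hd : IsBd T2 T1 d) (he : IsBd T1 T0 e) (z : T1.C)
    (hz : e z = 0) : ∃ w : ℕ → T2.C, (∀ n, ‖w n‖ ≤ 4 * ‖z‖) ∧ Sm (Ess T1) fun n => d (w n) + z := by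
  obtain ⟨K, hK, -, hl⟩ := M.bd
  obtain ⟨Kd, hKd, bd1⟩ := hd.1.bound
  obtain ⟨Ke, hKe, bd2⟩ := he.1.bound
  have := T2.cpl
  have := T1.cpl
  choose s s1 s2 s3 using fun n => T1.lifts _ _ _ (by positivity) (ml_T (k := 0) hG T2.ml n)
  refine ⟨fun n => s n z, fun n => s2 n z, Sm.approx fun ε hε => ?_⟩
  obtain ⟨c, F, f1, f2, f3, f4⟩ := ex_left hG T1 z (ε := ε / (Kd * 4 + 1)) (by positivity)
  let G := fun n y => d (s n y) + y
  have gl : ∀ n, IsLinearMap ℂ (G n) := fun n => lin_add (lin_comp hd.1.toIsLinearMap (s1 n)) lin_id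
  have gb : ∀ n y, ‖G n y‖ ≤ (Kd * 4 + 1) * ‖y‖ := fun n y => by
    have a1 := (bd1 (s n y)).trans (mul_le_mul_of_nonneg_left (s2 n y) hKd.le)
    have := norm_add_le (d (s n y)) y
    show ‖d (s n y) + y‖ ≤ _
    nlinarith
  have hb : ∀ y, Bil (fun u v => T1.ι (M.l v y) [u]) (K * ‖y‖) := fun y =>
    ⟨fun u => lin_comp (T1.ml.1 [u] rfl) (M.l_a y), fun v => T1.ml.2.1 _ [] [] rfl, fun u v =>
      (T1.ml.2.2 _ _ rfl).trans (by
        have := mul_le_mul_of_nonneg_right (hl y v) (norm_nonneg u)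
        simp only [pn_cons, pn_nil]; linarith)⟩
  have hV : ∀ n, IsML 0 (fun y (_ : List A) => avg E n fun u v => T1.ι (M.l v y) [c * u])
      (4 * (K * ‖c‖)) := fun n =>
    ⟨fun _ _ => avg_lin E n fun u v => lin_comp (T1.ml.1 _ rfl) (M.l_x v), fun _ _ _ h => by omega,
      fun y t ht => by
        obtain rfl := List.length_eq_zero_iff.1 ht
        exact (hG.h0 _ _ _ (by positivity) ((hb y).left (by positivity) c) n).trans_eq
          (by simp; ring)⟩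
  choose V v1 v2 v3 using fun n => T0.lifts _ _ _ (by positivity) (hV n)
  refine ⟨fun n => G n (F z), ?_, fun n => ?_⟩
  · have h1 := Sm.cl (P := Ess T1) (G := fun n y => G n (F y) + V n (e y))
      (fun n => lin_add (lin_comp (gl n) f1) (lin_comp (v1 n) he.1.toIsLinearMap))
      (K := (Kd * 4 + 1) * ‖c‖ + 4 * (K * ‖c‖) * Ke) (by positivity) (fun n y => by
        have a1 := (gb n (F y)).trans (mul_le_mul_of_nonneg_left (f2 y) (by positivity))
        have a2 := (v2 n (e y)).trans (mul_le_mul_of_nonneg_left (bd2 y) (by positivity))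
        have := norm_add_le (G n (F y)) (V n (e y))
        nlinarith) ?_ (T1.dense z)
    · simpa [hz, (v1 _).map_zero] using h1
    rintro _ ⟨x, t, ht, rfl⟩
    obtain ⟨a, rfl⟩ := List.length_eq_one_iff.1 ht
    have h2 := hG.h2 _ _ _ (by positivity) (hb x) c a
    have h3 := slot_lim T1 x (t := []) rfl (hG.h1 (c * a))
    have h4 := (Sm.of_mem (P := Ess T1) (y := fun n => avg E n fun u v =>
      T1.ι (M.r x (c * a * u)) [v] + T1.ι (M.r (M.l v x) a) [c * u]) fun n =>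
        avg_mem E n fun u v => add_mem (ess_mem _ _ _ rfl) (ess_mem _ _ _ rfl)).add
      (.of_tendsto (by simpa using h3.add h2))
    refine h4.congr fun n => Eq.symm ?_
    have hl : IsLinearMap ℂ fun a => T1.ι x [a] := T1.ml.2.1 x [] [] rfl
    simp only [G]
    rw [f3, s3 n _ _ rfl, avg_map hd.1.toIsLinearMap, lift_bd he (v1 n) (v3 n) _ ht, bd_avg,
      avg_map hl, add_right_comm _ (T1.ι x [c * a]), ← avg_add]
    have e : (avg E n fun u v => d (T2.ι x ([c * a].headD 0 * u :: v :: [c * a].tail)) +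
        bd M 0 (fun y _ => T1.ι (M.l v y) [c * u]) x [a]) =
        avg E n fun u v => T1.ι (M.r x (c * a * u)) [v] + T1.ι (M.r (M.l v x) a) [c * u]
          - T1.ι x [c * a * u * v]
          + (T1.ι (M.l v x) [c * a * u] - T1.ι (M.l (v * a) x) [c * u]) := by
      congr 1
      ext u v
      rw [hd.2 _ _ (by simp)]
      simp [bd, ctr, M.l_mul, M.l_r]
      abel
    rw [e, avg_add, avg_sub, avg_sub]
    abel
  · have e1 : d (s n z) + z - G n (F z) = G n (z - F z) := by rw [(gl n).map_sub]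
    rw [e1]
    rw [lt_div_iff₀ (by positivity)] at f4
    linarith [gb n (z - F z)]

theorem vanish (hG : Good E) : Vanish A := by
  intro M T d hd k z
  refine ⟨fun hz => ?_, fun ⟨w, hw⟩ => hw ▸ (hd (k + 1)).dd (hd k) w⟩
  have := (T (k + 2)).cpl
  obtain ⟨K, hK, h1⟩ := ex_S hG (hd (k + 1)) (hd k)
  obtain ⟨Kd, hKd, bd1⟩ := (hd (k + 1)).1.bound
  refine exact_of_approx (hd (k + 1)).1 (hd k).1 ((hd (k + 1)).dd (hd k))
    (K := K * (Kd * 4 + 1) + 4) (by positivity) (fun z hz ε hε => ?_) z hz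
  obtain ⟨w, w1, w2⟩ : ∃ w : ℕ → (T (k + 2)).C, (∀ n, ‖w n‖ ≤ 4 * ‖z‖) ∧
      Sm (Ess (T (k + 1))) fun n => d (k + 1) (w n) + z := by
    cases k with
    | zero => exact ex_T1 hG (hd 1) (hd 0) z hz
    | succ k => exact ex_T2 hG (hd (k + 2)) (hd (k + 1)) z hz
  obtain ⟨n, p, hp, h2⟩ := (w2 (ε / (K + 1)) (by positivity)).exists
  obtain ⟨v, v1, v2⟩ := h1 (d (k + 1) (w n) + z)
    (by rw [(hd k).1.map_add, hz, (hd (k + 1)).dd (hd k), add_zero]) _ (by positivity) p hp h2.le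
  refine ⟨v - w n, ?_, ?_⟩
  · have a1 := (bd1 (w n)).trans (mul_le_mul_of_nonneg_left (w1 n) hKd.le)
    have a2 := mul_le_mul_of_nonneg_left ((norm_add_le (d (k + 1) (w n)) z).trans
      (add_le_add a1 le_rfl)) hK
    nlinarith [norm_sub_le v (w n), w1 n]
  · have e : z - d (k + 1) (v - w n) = d (k + 1) (w n) + z - d (k + 1) v := by
      rw [(hd (k + 1)).1.map_sub]; abel
    rw [e]
    refine v2.trans_lt ?_
    rw [← mul_div_assoc, div_lt_iff₀ (by positivity)]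
    nlinarith

end Pool.Agent.H90.Hh
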