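import Mathlib

namespace Pool.Agent.H90.Kp

variable (E : Type) [NormedAddCommGroup E] [NormedSpace ℂ E]

/-- the compact operators on `E`, with the operator norm -/
def KS : Submodule ℂ (E →L[ℂ] E) := compactOperator (RingHom.id ℂ) E E

def KK : Type := KS E

noncomputable instance : NormedAddCommGroup (KK E) :=
  Submodule.normedAddCommGroup (KS E)

noncomputable instance : NormedSpace ℂ (KK E) :=
  Submodule.normedSpace (KS E)

variable {E}

/-- the underlying bounded operator -/
def KK.op (a : KK E) : E →L[ℂ] E := a.1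

theorem KK.cpt (a : KK E) : IsCompactOperator a.op := a.2

/-- the product (composition) of two compact operators -/
def KK.mul (a b : KK E) : KK E := ⟨a.op ∘L b.op, a.cpt.comp_clm b.op⟩

variable (E)

/-- a left Banach module over the algebra of compact operators on `E` -/
structure BMod : Type 1 where
  X : Type
  [grp : NormedAddCommGroup X]
  [spc : NormedSpace ℂ X]
  cpl : CompleteSpace X
  act : KK E → X → X
  add_l : ∀ a b x, act (a + b) x = act a x + act b x
  smul_l : ∀ (c : ℂ) a x, act (c • a) x = c • act a x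
  add_r : ∀ a x y, act a (x + y) = act a x + act a y
  smul_r : ∀ (c : ℂ) a x, act a (c • x) = c • act a x
  mul_act : ∀ a b x, act (a.mul b) x = act a (act b x)
  bound : ∃ K : ℝ, ∀ a x, ‖act a x‖ ≤ K * ‖a‖ * ‖x‖

attribute [instance] BMod.grp BMod.spc

/-- the algebra of compact operators is projective as a left module over itself -/
def LeftProj : Prop :=
  ∀ (Y : BMod E) (φ : Y.X → KK E), IsBoundedLinearMap ℂ φ →
    (∀ a y, φ (Y.act a y) = a.mul (φ y)) →
    (∃ s : KK E → Y.X, IsBoundedLinearMap ℂ s ∧ ∀ x, φ (s x) = x) →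
    ∃ ρ : KK E → Y.X, IsBoundedLinearMap ℂ ρ ∧ (∀ a x, ρ (a.mul x) = Y.act a (ρ x)) ∧
      ∀ x, φ (ρ x) = x

end Pool.Agent.H90.Kp
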