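import Mathlib
import Pool.Agent.H90.KpDefs

namespace Pool.Agent.H90.Kp

open Filter Topology

lemma hump {V : Type} [NormedAddCommGroup V] (g : Set ℕ → V)
    (gadd : ∀ B B', Disjoint B B' → g (B ∪ B') = g B + g B') (g1 : ∀ B, B.Nonempty → 1 ≤ ‖g B‖)
    (D : ℕ → V → V) (Dadd : ∀ n x y, D n (x + y) = D n x + D n y)
    (hl : ∀ B, Tendsto (fun n => D n (g B)) atTop (𝓝 (g B)))
    (hs : ∀ n, ∃ C : ℝ, ∀ B : ℕ → Set ℕ, Pairwise (fun i j => Disjoint (B i) (B j)) →
      ∀ N, ∑ j ∈ Finset.range N, ‖D n (g (B j))‖ ≤ C) : False := by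
  classical
  have small : ∀ n (A : Set ℕ), A.Infinite → ∃ A' ⊆ A, A'.Infinite ∧
      ∀ B ⊆ A', ‖D n (g B)‖ ≤ 1 / 4 := by
    intro n A hA
    by_contra hc
    push Not at hc
    obtain ⟨C, hC⟩ := hs n
    let e : ℕ × ℕ → ℕ := fun p => (hA.natEmbedding A (Nat.pair p.1 p.2) : ℕ)
    have he : Function.Injective e := fun p q h => by
      have := (hA.natEmbedding A).injective (Subtype.ext h)
      exact Prod.ext (Nat.pair_eq_pair.1 this).1 (Nat.pair_eq_pair.1 this).2
    have := fun j => hc (Set.range fun k => e (j, k))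
      (by rintro _ ⟨k, rfl⟩; exact (hA.natEmbedding A _).2)
      (Set.infinite_range_of_injective fun a b h => (Prod.ext_iff.1 (he h)).2)
    choose B hB hB' using this
    obtain ⟨N, hN⟩ := exists_nat_gt (4 * C)
    have h1 := hC B (fun i j hij => Set.disjoint_left.2 fun x h1 h2 => by
      obtain ⟨k, rfl⟩ := hB i h1
      obtain ⟨l, hl⟩ := hB j h2
      exact hij (Prod.ext_iff.1 (he hl)).1.symm) N
    have h2 := Finset.sum_le_sum fun j (_ : j ∈ Finset.range N) => (hB' j).le
    simp at h2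
    linarith
  let S := {p : Finset ℕ × Set ℕ // p.2.Infinite ∧ ∀ x ∈ p.1, x ∉ p.2}
  have step : ∀ (j : ℕ) (s : S), ∃ t : S, ∃ n ≥ j, ∃ a, t.1.1 = insert a s.1.1 ∧ a ∈ s.1.2 ∧
      t.1.2 ⊆ s.1.2 ∧ ‖D n (g s.1.1) - g s.1.1‖ < 1 / 4 ∧
      ∀ B ⊆ insert a t.1.2, ‖D n (g B)‖ ≤ 1 / 4 := by
    rintro j ⟨⟨F, A⟩, hA, hF⟩
    obtain ⟨n, h1, h2⟩ := ((eventually_ge_atTop j).and
      (Metric.tendsto_nhds.1 (hl F) (1 / 4) (by norm_num))).exists
    obtain ⟨A', h3, h4, h5⟩ := small n A hA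
    obtain ⟨a, ha⟩ := h4.nonempty
    refine ⟨⟨(insert a F, A' \ {a}), h4.sdiff (Set.finite_singleton a), fun x hx h => ?_⟩, n, h1, a,
      rfl, h3 ha, Set.sdiff_subset.trans h3, by rwa [dist_eq_norm] at h2, fun B hB => h5 B ?_⟩
    · rcases Finset.mem_insert.1 hx with rfl | hx
      · exact h.2 rfl
      · exact hF x hx (h3 h.1)
    · exact hB.trans (Set.insert_subset ha Set.sdiff_subset)
  choose t n hn a h1 h2 h3 h4 h5 using step
  let s : ℕ → S := fun j => Nat.rec ⟨(∅, Set.univ), Set.infinite_univ, by simp⟩ t j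
  have hs' : ∀ j, s (j + 1) = t j (s j) := fun _ => rfl
  have anti : Antitone fun j => (s j).1.2 := antitone_nat_of_succ_le fun j => h3 j (s j)
  have mono : Monotone fun j => (s j).1.1 := monotone_nat_of_le_succ fun j => by
    simp only [hs', h1]; exact Finset.subset_insert _ _
  let B : Set ℕ := ⋃ j, ((s j).1.1 : Set ℕ)
  obtain ⟨j, hj⟩ := eventually_atTop.1 (Metric.tendsto_nhds.1 (hl B) (1 / 2) (by norm_num))
  have h6 := hj _ (hn j (s j))
  let R : Set ℕ := B \ (s j).1.1
  have hR : R ⊆ insert (a j (s j)) (t j (s j)).1.2 := by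
    have : ∀ m, ∀ x ∈ (s (j + 1 + m)).1.1, x ∈ (s j).1.1 ∨ x ∈ insert (a j (s j)) (s (j + 1)).1.2 := by
      intro m
      induction m with
      | zero =>
        intro x hx
        rw [add_zero, hs', h1] at hx
        rcases Finset.mem_insert.1 hx with rfl | hx
        exacts [.inr (.inl rfl), .inl hx]
      | succ m ih =>
        intro x hx
        rw [← add_assoc, hs', h1] at hx
        rcases Finset.mem_insert.1 hx with rfl | hx
        exacts [.inr (.inr (anti (Nat.le_add_right (j + 1) m) (h2 _ _))), ih x hx]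
    rintro x ⟨hx, hx'⟩
    obtain ⟨m, hm⟩ := Set.mem_iUnion.1 hx
    exact (this m x (mono (show m ≤ j + 1 + m by omega) hm)).resolve_left hx'
  have hne : R.Nonempty := ⟨a j (s j), Set.mem_iUnion.2 ⟨j + 1, by simp [hs', h1]⟩,
    fun h => (s j).2.2 _ h (h2 _ _)⟩
  have e : g B = g (s j).1.1 + g R := by
    rw [← gadd _ _ Set.disjoint_sdiff_right, Set.union_sdiff_cancel (Set.subset_iUnion
      (fun j => ((s j).1.1 : Set ℕ)) j)]
  rw [dist_eq_norm, e, Dadd] at h6
  have h7 := h4 j (s j)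
  have h8 := h5 j (s j) R hR
  have h9 := g1 R hne
  generalize D (n j (s j)) (g (s j).1.1) = u at *
  generalize D (n j (s j)) (g R) = v at *
  have e2 : g R = (u - g (s j).1.1) + v - (u + v - (g (s j).1.1 + g R)) := by abel
  have b1 := norm_sub_le ((u - g (s j).1.1) + v) (u + v - (g (s j).1.1 + g R))
  have b2 := norm_add_le (u - g (s j).1.1) v
  rw [← e2] at b1
  linarith

noncomputable abbrev EE := lp (fun _ : ℕ => ℂ) 1
abbrev BB := EE →L[ℂ] EE
abbrev VV := EE →L[ℂ] ℂ

lemma hasSum_nm {V : Type} [NormedAddCommGroup V] (x : lp (fun _ : ℕ => V) 1) :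
    HasSum (fun k => ‖x k‖) ‖x‖ := by
  simpa using lp.hasSum_norm (p := 1) (by simp) x

lemma sum_nm_le {V : Type} [NormedAddCommGroup V] (x : lp (fun _ : ℕ => V) 1) (s : Finset ℕ) :
    ∑ k ∈ s, ‖x k‖ ≤ ‖x‖ := sum_le_hasSum s (fun _ _ => norm_nonneg _) (hasSum_nm x)

lemma nm_le {V : Type} [NormedAddCommGroup V] (x : lp (fun _ : ℕ => V) 1) {C : ℝ} (hC : 0 ≤ C)
    (h : ∀ s : Finset ℕ, ∑ k ∈ s, ‖x k‖ ≤ C) : ‖x‖ ≤ C :=
  lp.norm_le_of_forall_sum_le (by simp) hC (by simpa using h)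

noncomputable def ev (j : ℕ) : EE := lp.single 1 j 1

lemma ev_apply (i j : ℕ) : ev i j = if j = i then 1 else 0 := by
  rw [ev, lp.single_apply, Pi.single_apply]

lemma norm_ev (i : ℕ) : ‖ev i‖ = 1 := by
  rw [ev, lp.norm_single (by norm_num)]; simp

noncomputable def co (j : ℕ) : VV :=
  LinearMap.mkContinuous
    { toFun := fun x => x j, map_add' := fun _ _ => rfl, map_smul' := fun _ _ => rfl } 1
    fun x => by simpa using lp.norm_apply_le_norm (by simp) x j

@[simp] lemma co_apply (j : ℕ) (x : EE) : co j x = x j := rfl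

noncomputable def row (j : ℕ) : BB →L[ℂ] VV := ContinuousLinearMap.compL ℂ EE EE ℂ (co j)

@[simp] lemma row_apply (j : ℕ) (N : BB) (x : EE) : row j N x = N x j := rfl

lemma row_le (j : ℕ) (N : BB) : ‖row j N‖ ≤ ‖N‖ :=
  (row j N).opNorm_le_bound (norm_nonneg _) fun x =>
    (lp.norm_apply_le_norm (by simp) (N x) j).trans (N.le_opNorm x)

lemma hasSum_ev (x : EE) : HasSum (fun k => x k • ev k) x := by
  have := lp.hasSum_single (p := 1) (by simp) x
  refine this.congr_fun fun σ => ?_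
  rw [ev, ← lp.single_smul]; simp

lemma nuc_mul (a N : BB) {c : ℝ} (h : HasSum (fun i => ‖row i N‖) c) (s : Finset ℕ) :
    ∑ j ∈ s, ‖row j (a * N)‖ ≤ ‖a‖ * c := by
  have h1 : ∀ j, Summable fun i => ‖a (ev i) j‖ * ‖row i N‖ := fun j =>
    .of_nonneg_of_le (fun _ => by positivity) (fun i => mul_le_mul_of_nonneg_right
      ((lp.norm_apply_le_norm (by simp) _ j).trans (a.le_opNorm _)) (norm_nonneg _))
      (by simpa [norm_ev] using h.summable.mul_left ‖a‖)
  have h2 : ∀ j, ‖row j (a * N)‖ ≤ ∑' i, ‖a (ev i) j‖ * ‖row i N‖ := fun j => by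
    refine ContinuousLinearMap.opNorm_le_bound _ (tsum_nonneg fun _ => by positivity) fun x => ?_
    have h3 := (hasSum_ev (N x)).mapL (row j a)
    refine h3.norm_le_of_bounded ((h1 j).hasSum.mul_right ‖x‖) fun i => ?_
    rw [map_smul, smul_eq_mul, norm_mul, mul_comm, mul_assoc]
    exact mul_le_mul_of_nonneg_left ((row i N).le_opNorm x) (norm_nonneg _)
  refine (Finset.sum_le_sum fun j _ => h2 j).trans ?_
  refine hasSum_le (fun i => ?_) (hasSum_sum fun j _ => (h1 j).hasSum) (h.mul_left ‖a‖)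
  rw [← Finset.sum_mul]
  refine mul_le_mul_of_nonneg_right ((sum_nm_le _ s).trans ?_) (norm_nonneg _)
  simpa [norm_ev] using a.le_opNorm (ev i)

/-- rank one operators -/
noncomputable def rk (x : EE) (f : VV) : BB := f.smulRight x

lemma rk_cpt (x : EE) (f : VV) : IsCompactOperator (rk x f) :=
  (isCompactOperator_of_locallyCompactSpace_dom f).clm_comp
    (ContinuousLinearMap.toSpanSingleton ℂ x)

lemma sum_rk_apply (f : ℕ → VV) (N : ℕ) (x : EE) (k : ℕ) :
    (∑ j ∈ Finset.range N, rk (ev j) (f j)) x k = if k < N then f k x else 0 := by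
  rw [sum_apply, lp.coeFn_sum, Finset.sum_apply]
  simp [rk, ev_apply]

noncomputable def PP (n : ℕ) : BB := ∑ j ∈ Finset.range n, rk (ev j) (co j)

lemma PP_apply (n : ℕ) (x : EE) (k : ℕ) : PP n x k = if k < n then x k else 0 :=
  sum_rk_apply _ _ _ _

lemma norm_PP (n : ℕ) : ‖PP n‖ ≤ 1 := by
  refine ContinuousLinearMap.opNorm_le_bound _ zero_le_one fun x => ?_
  rw [one_mul]
  refine nm_le _ (norm_nonneg _) fun s => le_trans (Finset.sum_le_sum fun k _ => ?_) (sum_nm_le x s)
  rw [PP_apply]; split_ifs <;> simp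

lemma PP_lim (x : EE) : Tendsto (fun n => PP n x) atTop (𝓝 x) := by
  simpa [PP, rk, sum_apply] using (hasSum_ev x).tendsto_sum_nat

lemma PP_cpt {T : BB} (hT : IsCompactOperator T) : Tendsto (fun n => PP n * T) atTop (𝓝 T) := by
  refine Metric.tendsto_nhds.2 fun ε hε => ?_
  obtain ⟨S, hS, hS'⟩ := hT.image_closedBall_subset_compact (f := (T : EE →ₗ[ℂ] EE)) 1
  obtain ⟨t, -, ht, hc⟩ := finite_cover_balls_of_compact hS (show 0 < ε / 4 by positivity)
  filter_upwards [(eventually_all_finite ht (l := atTop)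
    (p := fun (y : EE) n => dist (PP n y) y < ε / 4)).2
    fun y _ => Metric.tendsto_nhds.1 (PP_lim y) _ (by positivity)] with n hn
  rw [dist_eq_norm]
  refine lt_of_le_of_lt (ContinuousLinearMap.opNorm_le_of_unit_norm (C := 3 * (ε / 4))
    (by positivity) fun x hx => ?_) (by linarith)
  have := hc (hS' ⟨x, by simp [hx], rfl⟩)
  simp only [Set.mem_iUnion, Metric.mem_ball, dist_eq_norm] at this
  obtain ⟨y, hy, h1⟩ := this
  have h2 := hn y hy
  rw [dist_eq_norm] at h2
  have h3 : ‖T x - y‖ < ε / 4 := h1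
  have h4 := ((PP n).le_opNorm (T x - y)).trans (mul_le_of_le_one_left (norm_nonneg _) (norm_PP n))
  have e : (PP n * T - T) x = PP n (T x - y) + (PP n y - y) - (T x - y) := by simp
  rw [e]
  linarith [norm_sub_le (PP n (T x - y) + (PP n y - y)) (T x - y),
    norm_add_le (PP n (T x - y)) (PP n y - y)]

lemma sum_ind (B : Set ℕ) (x : EE) : Summable fun k => ‖B.indicator x k‖ :=
  .of_nonneg_of_le (fun _ => norm_nonneg _) (fun k => norm_indicator_le_norm_self _ k)
    (hasSum_nm x).summable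

noncomputable def ind (B : Set ℕ) : VV :=
  LinearMap.mkContinuous
    { toFun := fun x => ∑' k, B.indicator x k
      map_add' := fun x y => by
        rw [← (sum_ind B x).of_norm.tsum_add (sum_ind B y).of_norm]
        exact tsum_congr fun k => by by_cases h : k ∈ B <;> simp [h]
      map_smul' := fun c x => by
        rw [RingHom.id_apply, smul_eq_mul, ← tsum_mul_left]
        exact tsum_congr fun k => by by_cases h : k ∈ B <;> simp [h] } 1
    fun x => by
      rw [one_mul]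
      exact tsum_of_norm_bounded (hasSum_nm x) fun k => norm_indicator_le_norm_self _ k

lemma ind_apply (B : Set ℕ) (x : EE) : ind B x = ∑' k, B.indicator x k := rfl

lemma ind_add (B B' : Set ℕ) (h : Disjoint B B') : ind (B ∪ B') = ind B + ind B' := by
  ext1 x
  rw [add_apply, ind_apply, ind_apply, ind_apply, Set.indicator_union_of_disjoint h,
    (sum_ind B x).of_norm.tsum_add (sum_ind B' x).of_norm]

lemma ind_one (B : Set ℕ) (h : B.Nonempty) : 1 ≤ ‖ind B‖ := by
  obtain ⟨k, hk⟩ := h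
  have := (ind B).le_opNorm (ev k)
  rw [ind_apply, tsum_eq_single k fun j hj => by
    by_cases h : j ∈ B <;> simp [h, ev_apply, hj]] at this
  simpa [hk, ev_apply, norm_ev] using this

lemma norm_sum_ind (B : ℕ → Set ℕ) (h : Pairwise fun i j => Disjoint (B i) (B j)) (N : ℕ) :
    ‖∑ j ∈ Finset.range N, rk (ev j) (ind (B j))‖ ≤ 1 := by
  refine ContinuousLinearMap.opNorm_le_bound _ zero_le_one fun x => ?_
  rw [one_mul]
  refine nm_le _ (norm_nonneg _) fun s => ?_
  have h1 : ∀ k ∈ s, ‖(∑ j ∈ Finset.range N, rk (ev j) (ind (B j))) x k‖ ≤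
      ∑' i, ‖(B k).indicator x i‖ := fun k _ => by
    rw [sum_rk_apply]
    split_ifs
    · exact norm_tsum_le_tsum_norm (sum_ind _ x)
    · simpa using tsum_nonneg fun _ => norm_nonneg _
  refine (Finset.sum_le_sum h1).trans ?_
  refine hasSum_le (fun i => ?_) (hasSum_sum fun k _ => (sum_ind (B k) x).hasSum) (hasSum_nm x)
  by_cases hi : ∃ k ∈ s, i ∈ B k
  · obtain ⟨k, hk, hi⟩ := hi
    rw [Finset.sum_eq_single k (fun j _ hj => by
      rw [Set.indicator_of_notMem (Set.disjoint_right.1 (h hj) hi), norm_zero]) (fun h => (h hk).elim)]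
    exact norm_indicator_le_norm_self _ i
  · push Not at hi
    rw [Finset.sum_eq_zero fun k hk => by rw [Set.indicator_of_notMem (hi k hk), norm_zero]]
    exact norm_nonneg _

end Pool.Agent.H90.Kp
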