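import Mathlib
import Pool.Agent.H90.HhC
import Pool.Agent.H90.KpA

namespace Pool.Agent.H90.Hh

open Filter Topology ZeroAtInfty Pool.Agent.H90.Kp

abbrev JJ := ℕ ⊕ ℕ
def AA : Type := C₀(JJ, EE)

noncomputable instance : NormedAddCommGroup AA := inferInstanceAs (NormedAddCommGroup C₀(JJ, EE))
noncomputable instance : NormedSpace ℂ AA := inferInstanceAs (NormedSpace ℂ C₀(JJ, EE))
instance : CompleteSpace AA := inferInstanceAs (CompleteSpace C₀(JJ, EE))

def AA.f (a : AA) : C₀(JJ, EE) := a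

lemma AA.ext {a b : AA} (h : ∀ s, a.f s = b.f s) : a = b := ZeroAtInftyContinuousMap.ext h
@[simp] lemma f_add (a b : AA) (s : JJ) : (a + b).f s = a.f s + b.f s := rfl
@[simp] lemma f_sub (a b : AA) (s : JJ) : (a - b).f s = a.f s - b.f s := rfl
@[simp] lemma f_smul (c : ℂ) (a : AA) (s : JJ) : (c • a).f s = c • a.f s := rfl
@[simp] lemma f_zero (s : JJ) : (0 : AA).f s = 0 := rfl
lemma f_le (a : AA) (s : JJ) : ‖a.f s‖ ≤ ‖a‖ := a.f.toBCF.norm_coe_le_norm s
lemma nA_le {a : AA} {c : ℝ} (hc : 0 ≤ c) (h : ∀ s, ‖a.f s‖ ≤ c) : ‖a‖ ≤ c :=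
  (BoundedContinuousFunction.norm_le (f := a.f.toBCF) hc).2 h
lemma f_lim (a : AA) : Tendsto a.f cofinite (𝓝 0) := by
  rw [← cocompact_eq_cofinite]; exact a.f.zero_at_infty'
lemma f_sum {ι : Type} (S : Finset ι) (a : ι → AA) (s : JJ) :
    (∑ i ∈ S, a i).f s = ∑ i ∈ S, (a i).f s := by
  classical
  induction S using Finset.induction_on with
  | empty => simp
  | insert i S h ih => simp [Finset.sum_insert h, ih]

def mkA (g : JJ → EE) (h : Tendsto g cofinite (𝓝 0)) : AA :=
  (⟨⟨g, continuous_of_discreteTopology⟩, by rw [cocompact_eq_cofinite]; exact h⟩ : C₀(JJ, EE))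

noncomputable def col (a : AA) (i : ℕ) : EE :=
  (1 / 2 : ℂ) • a.f (.inl i) + (1 / 2 : ℂ) ^ (i.unpair.1 + 1) • a.f (.inr i.unpair.1)

lemma col_le (a : AA) (i : ℕ) : ‖col a i‖ ≤ ‖a‖ := by
  refine (norm_add_le _ _).trans ?_
  have h1 : ((1 : ℝ) / 2) ^ i.unpair.1 ≤ 1 := pow_le_one₀ (by norm_num) (by norm_num)
  have h2 := f_le a (.inl i)
  have h3 := mul_le_mul h1 (f_le a (.inr i.unpair.1)) (norm_nonneg _) zero_le_one
  simp only [norm_smul, norm_pow, norm_div, norm_one, Complex.norm_two]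
  rw [pow_succ]
  linarith

lemma sum_col {c : ℕ → EE} {K : ℝ} (h : ∀ i, ‖c i‖ ≤ K) (x : EE) (i : ℕ) :
    ‖x i • c i‖ ≤ ‖x i‖ * K := by
  rw [norm_smul]; exact mul_le_mul_of_nonneg_left (h i) (norm_nonneg _)

lemma summ {c : ℕ → EE} {K : ℝ} (h : ∀ i, ‖c i‖ ≤ K) (x : EE) : Summable fun i => x i • c i :=
  .of_norm_bounded ((hasSum_nm x).summable.mul_right K) (sum_col h x)

noncomputable def hat (a : AA) : BB :=
  LinearMap.mkContinuous
    { toFun := fun x => ∑' i, x i • col a i
      map_add' := fun x y => by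
        rw [← (summ (col_le a) x).tsum_add (summ (col_le a) y)]
        exact tsum_congr fun i => by simp [add_smul]
      map_smul' := fun c x => by
        rw [RingHom.id_apply, ← (summ (col_le a) x).tsum_const_smul]
        exact tsum_congr fun i => by simp [smul_smul] } ‖a‖
    fun x => by
      rw [mul_comm]
      exact tsum_of_norm_bounded ((hasSum_nm x).mul_right _) (sum_col (col_le a) x)

lemma hat_le' (a : AA) {K : ℝ} (h : ∀ i, ‖col a i‖ ≤ K) (x : EE) : ‖hat a x‖ ≤ ‖x‖ * K :=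
  tsum_of_norm_bounded ((hasSum_nm x).mul_right _) (sum_col h x)

lemma hat_ev (a : AA) (i : ℕ) : hat a (ev i) = col a i := by
  show ∑' k, ev i k • col a k = _
  rw [tsum_eq_single i fun j hj => by simp [ev_apply, hj]]; simp [ev_apply]

lemma ext_ev {X Y : BB} (h : ∀ i, X (ev i) = Y (ev i)) : X = Y := by
  ext1 x
  refine ((hasSum_ev x).mapL X).unique (((hasSum_ev x).mapL Y).congr_fun fun σ => ?_)
  rw [map_smul, map_smul, h]

noncomputable instance : Mul AA := ⟨fun a b => mkA (fun s => hat b (a.f s)) (by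
  simpa [Function.comp_def] using ((hat b).continuous.tendsto 0).comp (f_lim a))⟩

@[simp] lemma f_mul (a b : AA) (s : JJ) : (a * b).f s = hat b (a.f s) := rfl

lemma hat_add (a b : AA) : hat (a + b) = hat a + hat b :=
  ext_ev fun i => by simp [hat_ev, col]; abel
lemma hat_smul (c : ℂ) (a : AA) : hat (c • a) = c • hat a :=
  ext_ev fun i => by simp [hat_ev, col, smul_comm c]
lemma hat_mul (a b : AA) : hat (a * b) = hat b * hat a :=
  ext_ev fun i => by simp [hat_ev, col]

noncomputable instance : NonUnitalNormedRing AA :=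
  { (inferInstance : NormedAddCommGroup AA), (inferInstance : Mul AA) with
    left_distrib := fun a b c => AA.ext fun s => by simp [hat_add]
    right_distrib := fun a b c => AA.ext fun s => by simp
    zero_mul := fun a => AA.ext fun s => by simp
    mul_zero := fun a => AA.ext fun s => by
      have := hat_smul 0 0
      rw [zero_smul, zero_smul] at this
      simp [this]
    mul_assoc := fun a b c => AA.ext fun s => by simp [hat_mul]
    norm_mul_le := fun a b => nA_le (by positivity) fun s =>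
      (hat_le' b (col_le b) _).trans (mul_le_mul_of_nonneg_right (f_le a s) (norm_nonneg _)) }

instance : IsScalarTower ℂ AA AA := ⟨fun c a b => AA.ext fun s => by simp⟩
instance : SMulCommClass ℂ AA AA := ⟨fun c a b => AA.ext fun s => by simp [hat_smul]⟩

noncomputable def el (s : JJ) (x : EE) : AA := mkA (fun t => if t = s then x else 0)
  (tendsto_const_nhds.congr' ((eventually_cofinite_ne s).mono fun _ h => (if_neg h).symm))

@[simp] lemma f_el (s t : JJ) (x : EE) : (el s x).f t = if t = s then x else 0 := rfl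

lemma el_le (s : JJ) (x : EE) : ‖el s x‖ ≤ ‖x‖ :=
  nA_le (norm_nonneg _) fun t => by rw [f_el]; split_ifs <;> simp

noncomputable def elL (s : JJ) : EE →L[ℂ] AA :=
  LinearMap.mkContinuous
    { toFun := el s
      map_add' := fun x y => AA.ext fun t => by simp; split_ifs <;> simp
      map_smul' := fun c x => AA.ext fun t => by simp } 1 fun x => by simpa using el_le s x

lemma el_mul (s : JJ) (x : EE) (a : AA) : el s x * a = el s (hat a x) :=
  AA.ext fun t => by simp; split_ifs <;> simp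

lemma el_smul (s : JJ) (c : ℂ) (x : EE) : el s (c • x) = c • el s x := (elL s).map_smul c x

noncomputable def EM (i j : ℕ) : AA := el (.inl i) ((2 : ℂ) • ev j)

lemma hat_EM (i j k : ℕ) : hat (EM i j) (ev k) = if k = i then ev j else 0 := by
  rw [hat_ev, col, EM]; simp only [f_el, Sum.inl.injEq, reduceCtorEq, if_false]
  split_ifs <;> simp [smul_smul]

lemma el_EM (s : JJ) (p i j : ℕ) : el s (ev p) * EM i j = if p = i then el s (ev j) else 0 := by
  rw [el_mul, hat_EM]; split_ifs
  · rfl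
  · exact (elL s).map_zero

lemma norm_sum_el {ι : Type} (S : Finset ι) {τ : ι → JJ} (hτ : Function.Injective τ) {x : ι → EE}
    {ε : ι → ℂ} (hε : ∀ i, ‖ε i‖ ≤ 1) (hx : ∀ i, ‖x i‖ ≤ 2) : ‖∑ i ∈ S, ε i • el (τ i) (x i)‖ ≤ 2 := by
  refine nA_le zero_le_two fun s => ?_
  rw [f_sum]
  by_cases h : ∃ i ∈ S, s = τ i
  · obtain ⟨i, hi, rfl⟩ := h
    rw [Finset.sum_eq_single i (fun j _ hj => by simp [hτ.eq_iff, hj.symm]) (fun h => (h hi).elim)]
    simp only [f_smul, f_el, if_true, norm_smul]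
    nlinarith [hε i, hx i, norm_nonneg (ε i), norm_nonneg (x i)]
  · push Not at h
    rw [Finset.sum_eq_zero fun i hi => by simp [h i hi]]; simp

lemma signs {ι E F X : Type} [AddCommGroup E] [Module ℂ E] [AddCommGroup F] [Module ℂ F]
    [NormedAddCommGroup X] [NormedSpace ℂ X] (B : E →ₗ[ℂ] F →ₗ[ℂ] X) (u : ι → E) (v : ι → F)
    (S : Finset ι) : ∀ x y, ∃ ε : ι → ℂ, (∀ n, ‖ε n‖ ≤ 1) ∧
      ‖B x y + ∑ n ∈ S, B (u n) (v n)‖ ≤ ‖B (x + ∑ n ∈ S, ε n • u n) (y + ∑ n ∈ S, ε n • v n)‖ := by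
  classical
  induction S using Finset.induction_on with
  | empty => exact fun x y => ⟨0, by simp, by simp⟩
  | insert m S hm ih =>
    intro x y
    have key : ∀ t : ℂ, ‖t‖ ≤ 1 → ∃ ε : ι → ℂ, (∀ n, ‖ε n‖ ≤ 1) ∧
        ‖B (x + t • u m) (y + t • v m) + ∑ n ∈ S, B (u n) (v n)‖ ≤
        ‖B (x + ∑ n ∈ insert m S, ε n • u n) (y + ∑ n ∈ insert m S, ε n • v n)‖ := by
      intro t ht
      obtain ⟨ε, h1, h2⟩ := ih (x + t • u m) (y + t • v m)
      refine ⟨Function.update ε m t, fun n => ?_, ?_⟩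
      · by_cases e : n = m
        · simp [e, ht]
        · simp [e, h1]
      · have e1 : ∀ {G : Type} [AddCommGroup G] [Module ℂ G] (w : ι → G),
            ∑ n ∈ insert m S, Function.update ε m t n • w n = t • w m + ∑ n ∈ S, ε n • w n := by
          intro G _ _ w
          rw [Finset.sum_insert hm, Function.update_self]
          congr 1
          exact Finset.sum_congr rfl fun n hn => by
            rw [Function.update_of_ne (by rintro rfl; exact hm hn)]
        rw [e1, e1, ← add_assoc, ← add_assoc]; exact h2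
    obtain ⟨ε1, a1, b1⟩ := key 1 (by simp)
    obtain ⟨ε2, a2, b2⟩ := key (-1) (by simp)
    have e : (2 : ℂ) • (B x y + ∑ n ∈ insert m S, B (u n) (v n)) =
        (B (x + (1 : ℂ) • u m) (y + (1 : ℂ) • v m) + ∑ n ∈ S, B (u n) (v n)) +
        (B (x + (-1 : ℂ) • u m) (y + (-1 : ℂ) • v m) + ∑ n ∈ S, B (u n) (v n)) := by
      rw [Finset.sum_insert hm]
      simp only [map_add, map_smul, LinearMap.add_apply, LinearMap.smul_apply]
      module
    have e2 := (congrArg norm e).le.trans (norm_add_le _ _)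
    rw [norm_smul, Complex.norm_two] at e2
    by_contra hcon
    push Not at hcon
    linarith [hcon ε1 a1, hcon ε2 a2]

lemma good0 (Z : Type) [NormedAddCommGroup Z] [NormedSpace ℂ Z] (β : AA → AA → Z) (c : ℝ)
    (hc : 0 ≤ c) (h : Bil β c) (n : ℕ) : ‖avg EM n β‖ ≤ 4 * c := by
  let B : AA →ₗ[ℂ] AA →ₗ[ℂ] Z := LinearMap.mk₂ ℂ β (fun x y v => (h.2.1 v).map_add x y)
    (fun c x v => (h.2.1 v).map_smul c x) (fun u => (h.1 u).map_add) fun c u => (h.1 u).map_smul c
  have h2 : ∀ j, ‖(2 : ℂ) • ev j‖ ≤ 2 := fun j => by simp [norm_smul, norm_ev]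
  have h1 : ∀ r : Fin (n + 1), ‖∑ i : Fin (n + 1), β (EM i (i + r : Fin _)) (EM (i + r : Fin _) i)‖
      ≤ 4 * c := fun r => by
    obtain ⟨ε, e1, e2⟩ := signs B (fun i : Fin (n + 1) => EM i (i + r : Fin _))
      (fun i => EM (i + r : Fin _) i) Finset.univ 0 0
    simp only [map_zero, zero_add] at e2
    refine e2.trans ((h.2.2 _ _).trans ?_)
    have a1 := norm_sum_el Finset.univ (τ := fun i : Fin (n + 1) => .inl i)
      (Sum.inl_injective.comp Fin.val_injective) e1 fun i => h2 (i + r : Fin _)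
    have a2 := norm_sum_el Finset.univ (τ := fun i : Fin (n + 1) => .inl (i + r : Fin _))
      (Sum.inl_injective.comp (Fin.val_injective.comp (add_left_injective r))) e1 fun i => h2 i
    calc _ ≤ c * 2 * 2 := by gcongr <;> assumption
      _ = _ := by ring
  have e : ∑ i : Fin (n + 1), ∑ j : Fin (n + 1), β (EM i j) (EM j i) =
      ∑ r : Fin (n + 1), ∑ i : Fin (n + 1), β (EM i (i + r : Fin _)) (EM (i + r : Fin _) i) := by
    exact (Finset.sum_congr rfl fun i _ => (Equiv.sum_comp (Equiv.addLeft i)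
      fun j : Fin (n + 1) => β (EM i j) (EM j i)).symm).trans Finset.sum_comm
  rw [avg, e, norm_smul]
  have h3 := (norm_sum_le _ _).trans (Finset.sum_le_sum fun r (_ : r ∈ Finset.univ) => h1 r)
  have e2 : ‖(1 / (n + 1) : ℂ)‖ = 1 / (n + 1) := by
    rw [norm_div, norm_one]; congr 1; exact_mod_cast Complex.norm_natCast (n + 1)
  rw [e2, div_mul_eq_mul_div, one_mul, div_le_iff₀ (by positivity)]
  simpa [mul_comm] using h3

noncomputable def FF (m : ℕ) : Finset JJ := (Finset.range m).disjSum (Finset.range m)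

lemma FF_lim : Tendsto FF atTop atTop := by
  refine tendsto_atTop_finset_of_monotone (fun a b h => Finset.disjSum_mono
    (Finset.range_mono h) (Finset.range_mono h)) fun s => ?_
  cases s with
  | inl i => exact ⟨i + 1, by simp [FF]⟩
  | inr i => exact ⟨i + 1, by simp [FF]⟩

noncomputable def evA (s : JJ) : AA →L[ℂ] EE :=
  LinearMap.mkContinuous
    { toFun := fun a => a.f s, map_add' := fun _ _ => rfl, map_smul' := fun _ _ => rfl } 1
    fun a => by simpa using f_le a s

noncomputable def RR (m : ℕ) : AA →L[ℂ] AA := ∑ s ∈ FF m, elL s ∘L evA s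

lemma RR_eq (m : ℕ) (a : AA) : RR m a = ∑ s ∈ FF m, el s (a.f s) := by
  rw [RR, sum_apply]; rfl

lemma RR_f (m : ℕ) (a : AA) (t : JJ) : (RR m a).f t = if t ∈ FF m then a.f t else 0 := by
  rw [RR_eq, f_sum]; simp

lemma RR_lim (a : AA) : Tendsto (fun m => RR m a) atTop (𝓝 a) := by
  refine Metric.tendsto_nhds.2 fun ε hε => ?_
  have h1 := Metric.tendsto_nhds.1 (f_lim a) (ε / 2) (by positivity)
  rw [eventually_cofinite] at h1
  filter_upwards [FF_lim.eventually_ge_atTop h1.toFinset] with m hm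
  rw [dist_eq_norm]
  refine (nA_le (c := ε / 2) (by positivity) fun s => ?_).trans_lt (by linarith)
  rw [f_sub, RR_f]
  split_ifs with h
  · simp; positivity
  · have : ¬ ¬ dist (a.f s) 0 < ε / 2 := fun h' => h (hm (h1.mem_toFinset.2 h'))
    simpa using (not_not.1 this).le

def SS : Set AA := {a | ∃ s p, a = el s (ev p)}

lemma SS_dense (a : AA) : a ∈ closure (Submodule.span ℂ SS : Set AA) := by
  refine isClosed_closure.mem_of_tendsto (RR_lim a) (.of_forall fun m => ?_)
  rw [RR_eq]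
  refine (Submodule.span ℂ SS).topologicalClosure.sum_mem fun s _ => ?_
  refine mem_closure_of_tendsto ((hasSum_ev (a.f s)).mapL (elL s)) (.of_forall fun F => ?_)
  exact Submodule.sum_mem _ fun p _ => by
    rw [map_smul]; exact Submodule.smul_mem _ _ (Submodule.subset_span ⟨s, p, rfl⟩)

lemma avg_row {Z : Type} [NormedAddCommGroup Z] [NormedSpace ℂ Z] {p n : ℕ} (h : p ≤ n)
    {β : AA → AA → Z} {g : ℕ → Z} (e : ∀ i j, β (EM i j) (EM j i) = if p = i then g j else 0) :
    avg EM n β = (1 / (n + 1) : ℂ) • ∑ j : Fin (n + 1), g j := by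
  rw [avg, Finset.sum_eq_single ⟨p, by omega⟩ (fun i _ hi => ?_) (by simp)]
  · simp [e]
  · exact Finset.sum_eq_zero fun j _ => by rw [e, if_neg fun h => hi (Fin.ext h.symm)]

lemma bil_mul (a : AA) : Bil (fun u v => a * u * v) ‖a‖ :=
  ⟨fun _ => mul_l _, fun v => lin_comp (mul_r v) (mul_l a), fun _ _ =>
    (norm_mul_le _ _).trans (mul_le_mul_of_nonneg_right (norm_mul_le _ _) (norm_nonneg _))⟩

lemma good1 (a : AA) : Tendsto (fun n => avg EM n fun u v => a * u * v) atTop (𝓝 a) := by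
  rw [← tendsto_sub_nhds_zero_iff]
  refine (Sm.cl (P := ⊥) (G := fun n a => (avg EM n fun u v => a * u * v) - a)
    (fun n => lin_sub (avg_lin EM n fun u v => lin_comp (mul_r v) (mul_r u)) lin_id) (K := 5)
    (by norm_num) (fun n a => ?_) ?_ (SS_dense a)).tendsto
  · linarith [good0 _ _ _ (norm_nonneg _) (bil_mul a) n,
      norm_sub_le (avg EM n fun u v => a * u * v) a]
  rintro _ ⟨s, p, rfl⟩
  refine .of_tendsto (tendsto_const_nhds.congr' ((eventually_ge_atTop p).mono fun n hn => ?_))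
  beta_reduce
  rw [avg_row hn (g := fun _ => el s (ev p)) fun i j => by
    rw [el_EM]; split_ifs with h <;> simp [el_EM, h]]
  have : (n + 1 : ℂ) ≠ 0 := by exact_mod_cast Nat.succ_ne_zero n
  simp [← Nat.cast_smul_eq_nsmul ℂ, smul_smul, this]

lemma Bil.right {Z : Type} [NormedAddCommGroup Z] [NormedSpace ℂ Z] {β : AA → AA → Z} {c : ℝ}
    (h : Bil β c) (hc : 0 ≤ c) (a : AA) : Bil (fun u v => β u (v * a)) (c * ‖a‖) :=
  ⟨fun u => lin_comp (h.1 u) (mul_r a), fun _ => h.2.1 _, fun u v => (h.2.2 _ _).trans (by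
    have := mul_le_mul_of_nonneg_left (norm_mul_le v a) (mul_nonneg hc (norm_nonneg u))
    linarith)⟩

lemma good2 (Z : Type) [NormedAddCommGroup Z] [NormedSpace ℂ Z] (β : AA → AA → Z) (c : ℝ)
    (hc : 0 ≤ c) (h : Bil β c) (a b : AA) : Tendsto (fun n => avg EM n (fun u v => β (a * b * u) v) -
      avg EM n fun u v => β (a * u) (v * b)) atTop (𝓝 0) := by
  have hb : ∀ n a b, ‖avg EM n (fun u v => β (a * b * u) v) -
      avg EM n fun u v => β (a * u) (v * b)‖ ≤ 8 * c * ‖a‖ * ‖b‖ := fun n a b => by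
    have a1 := good0 _ _ _ (by positivity) (h.left hc (a * b)) n
    have a2 := good0 _ _ _ (by positivity) ((h.left hc a).right (by positivity) b) n
    have a3 := mul_le_mul_of_nonneg_left (norm_mul_le a b) hc
    linarith [norm_sub_le (avg EM n (fun u v => β (a * b * u) v))
      (avg EM n fun u v => β (a * u) (v * b))]
  refine (Sm.cl (P := ⊥) (G := fun n a => avg EM n (fun u v => β (a * b * u) v) -
      avg EM n fun u v => β (a * u) (v * b)) (fun n => lin_sub
    (avg_lin EM n fun u v => lin_comp (h.2.1 v) (lin_comp (mul_r u) (mul_r b)))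
    (avg_lin EM n fun u v => lin_comp (h.2.1 _) (mul_r u))) (K := 8 * c * ‖b‖)
    (by positivity) (fun n a => (hb n a b).trans_eq (by ring)) ?_ (SS_dense a)).tendsto
  rintro _ ⟨s, p, rfl⟩
  refine Sm.cl (P := ⊥) (G := fun n b => avg EM n (fun u v => β (el s (ev p) * b * u) v) -
      avg EM n fun u v => β (el s (ev p) * u) (v * b)) (fun n => lin_sub
    (avg_lin EM n fun u v => lin_comp (h.2.1 v) (lin_comp (mul_r u) (mul_l _)))
    (avg_lin EM n fun u v => lin_comp (h.1 _) (mul_l v))) (by positivity) (fun n => hb n _) ?_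
    (SS_dense b)
  rintro _ ⟨t, q, rfl⟩
  obtain ⟨w, hw⟩ : ∃ w : ℂ, hat (el t (ev q)) (ev p) = w • ev q := by
    refine ⟨(if Sum.inl p = t then 1 / 2 else 0) +
      if Sum.inr p.unpair.1 = t then (1 / 2) ^ (p.unpair.1 + 1) else 0, ?_⟩
    rw [hat_ev, col, f_el, f_el, add_smul]
    split_ifs <;> simp
  refine .of_tendsto (tendsto_const_nhds.congr'
    (((eventually_ge_atTop p).and (eventually_ge_atTop q)).mono fun n hn => ?_))
  beta_reduce
  rw [avg_row hn.2 (g := fun j => w • β (el s (ev j)) (EM j q)) fun i j => ?_,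
    avg_row hn.1 (g := fun j => w • β (el s (ev j)) (EM j q)) fun i j => ?_, sub_self]
  · rw [el_EM]
    split_ifs with e
    · rw [← e, EM, el_mul, map_smul, hw, smul_comm, el_smul, (h.1 _).map_smul, EM]
    · exact (h.2.1 _).map_zero
  · rw [el_mul, hw, el_smul, smul_mul_assoc, (h.2.1 _).map_smul, el_EM]
    split_ifs with e
    · rw [e]
    · rw [(h.2.1 _).map_zero, smul_zero]

lemma ex_e (s : JJ) : ∃ (C : ℝ) (e : ℕ → AA), (∀ i, ‖e i‖ ≤ C) ∧
    ∀ a, Tendsto (fun i => e i * a) atTop (𝓝 (el s (a.f s))) := by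
  have h1 : ∀ (a : AA) k, Tendsto (fun i => a.f (.inl (Nat.pair k i))) atTop (𝓝 0) := fun a k => by
    rw [← Nat.cofinite_eq_atTop]
    exact (f_lim a).comp (Function.Injective.tendsto_cofinite fun i j h =>
      (Nat.pair_eq_pair.1 (Sum.inl_injective h)).2)
  cases s with
  | inl p =>
    refine ⟨4, fun i => el (.inl p) ((2 : ℂ) • ev p - (2 : ℂ) • ev (Nat.pair p.unpair.1 i)),
      fun i => (el_le _ _).trans ((norm_sub_le _ _).trans (by norm_num [norm_smul, norm_ev])),
      fun a => ?_⟩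
    have := ((elL (.inl p)).continuous.tendsto _).comp
      ((tendsto_const_nhds (x := a.f (.inl p))).sub (h1 a p.unpair.1))
    rw [sub_zero] at this
    refine this.congr fun i => ?_
    rw [el_mul]
    refine congrArg (el _) ?_
    simp [hat_ev, col, smul_smul]
  | inr k =>
    refine ⟨2 ^ (k + 1), fun i => el (.inr k) ((2 : ℂ) ^ (k + 1) • ev (Nat.pair k i)),
      fun i => (el_le _ _).trans (by simp [norm_smul, norm_ev]), fun a => ?_⟩
    have := ((elL (.inr k)).continuous.tendsto _).comp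
      (((h1 a k).const_smul ((2 : ℂ) ^ (k + 1) * (1 / 2))).add
        (tendsto_const_nhds (x := a.f (.inr k))))
    rw [smul_zero, zero_add] at this
    refine this.congr fun i => ?_
    rw [el_mul]
    refine congrArg (el _) ?_
    simp [hat_ev, col, smul_smul]

lemma good : Good EM := by
  refine ⟨good0, good1, good2, RR, fun m => ?_, RR_lim, fun m => ?_⟩
  · refine ContinuousLinearMap.opNorm_le_bound _ zero_le_one fun a => nA_le (by positivity) fun s => ?_
    rw [RR_f]; split_ifs <;> simp [f_le]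
  · choose C e h1 h2 using ex_e
    refine ⟨∑ s ∈ FF m, C s, fun i => ∑ s ∈ FF m, e s i,
      fun i => (norm_sum_le _ _).trans (Finset.sum_le_sum fun s _ => h1 s i), fun a => ?_⟩
    simp only [Finset.sum_mul, RR_eq]
    exact tendsto_finsetSum _ fun s _ => h2 s a

end Pool.Agent.H90.Hh
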