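import Mathlib
import Pool.Agent.H90.HhD

namespace Pool.Agent.H90.Hh

open Filter Topology Pool.Agent.H90.Kp

variable {A : Type} [NonUnitalNormedRing A] [NormedSpace ℂ A]

section
variable {X : Type} [NormedAddCommGroup X] [NormedSpace ℂ X]

def PH (A X : Type) [NonUnitalNormedRing A] [NormedSpace ℂ A] [NormedAddCommGroup X]
    [NormedSpace ℂ X] (n : ℕ) : Type := {φ : X → List A → ℂ // IsML n φ 1}

noncomputable abbrev BP (A X : Type) [NonUnitalNormedRing A] [NormedSpace ℂ A]
    [NormedAddCommGroup X] [NormedSpace ℂ X] (n : ℕ) := lp (fun _ : PH A X n => ℂ) ⊤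

noncomputable def ev0 (n : ℕ) (x : X) (t : List A) : BP A X n :=
  ⟨fun φ => if t.length = n then φ.1 x t else 0, memℓp_infty ⟨1 * ‖x‖ * pn t, by
    rintro _ ⟨φ, rfl⟩
    have := pn_nonneg t
    simp only
    split_ifs with h
    · exact φ.2.2.2 x t h
    · simp; positivity⟩⟩

lemma ev0_apply {n : ℕ} (x : X) {t : List A} (h : t.length = n) (φ : PH A X n) :
    ev0 n x t φ = φ.1 x t := if_pos h

noncomputable def eL (n : ℕ) : (X × List A →₀ ℂ) →ₗ[ℂ] BP A X n :=
  Finsupp.linearCombination ℂ fun p => ev0 n p.1 p.2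

noncomputable def CC (A X : Type) [NonUnitalNormedRing A] [NormedSpace ℂ A]
    [NormedAddCommGroup X] [NormedSpace ℂ X] (n : ℕ) : Submodule ℂ (BP A X n) :=
  (LinearMap.range (eL n)).topologicalClosure

noncomputable def eC (n : ℕ) : (X × List A →₀ ℂ) →ₗ[ℂ] CC A X n :=
  (eL n).codRestrict _ fun u => Submodule.le_topologicalClosure _ ⟨u, rfl⟩

lemma eC_dense (n : ℕ) : DenseRange (eC (A := A) (X := X) n) := by
  rintro ⟨z, hz⟩
  rw [closure_subtype]
  refine closure_mono ?_ hz
  rintro _ ⟨u, rfl⟩
  exact ⟨_, ⟨u, rfl⟩, rfl⟩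

noncomputable def io (n : ℕ) (x : X) (t : List A) : CC A X n := eC n (Finsupp.single (x, t) 1)

lemma io_val (n : ℕ) (x : X) (t : List A) : (io n x t).1 = ev0 n x t := by
  simp [io, eC, eL]

lemma io_ext {n : ℕ} {z w : CC A X n} (h : ∀ φ, z.1 φ = w.1 φ) : z = w :=
  Subtype.ext (lp.ext (funext h))

lemma io_ml (n : ℕ) : IsML n (io (A := A) (X := X) n) 1 := by
  refine ⟨fun t ht => ⟨fun x y => io_ext fun φ => ?_, fun c x => io_ext fun φ => ?_⟩,
    fun x s t h => ⟨fun a b => io_ext fun φ => ?_, fun c a => io_ext fun φ => ?_⟩, fun x t ht => ?_⟩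
  · simpa [io_val, ev0_apply _ ht] using (φ.2.1 t ht).map_add x y
  · simpa [io_val, ev0_apply _ ht] using (φ.2.1 t ht).map_smul c x
  · have e : ∀ a, (s ++ a :: t).length = n := fun a => by simp; omega
    simpa [io_val, ev0_apply _ (e _)] using (φ.2.2.1 x s t h).map_add a b
  · have e : ∀ a, (s ++ a :: t).length = n := fun a => by simp; omega
    simpa [io_val, ev0_apply _ (e _)] using (φ.2.2.1 x s t h).map_smul c a
  · have := pn_nonneg t
    show ‖(io n x t).1‖ ≤ _
    rw [io_val]
    exact lp.norm_le_of_forall_le (by positivity) fun φ => by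
      rw [ev0_apply _ ht]; exact φ.2.2.2 x t ht

lemma io_lifts (n : ℕ) : Lifts n (io (A := A) (X := X) n) := by
  intro Z _ _ _ f c hc hf
  let g : (X × List A →₀ ℂ) →ₗ[ℂ] Z :=
    Finsupp.linearCombination ℂ fun p => if p.2.length = n then f p.1 p.2 else 0
  have hb : ∀ u, ‖g u‖ ≤ c * ‖eC n u‖ := by
    intro u
    obtain ⟨y, h1, h2⟩ := exists_dual_vector'' ℂ (g u)
    have hy : ∀ x (t : List A), t.length = n → ‖y (f x t)‖ ≤ c * (‖x‖ * pn t) := fun x t ht =>
      (y.le_opNorm _).trans ((mul_le_of_le_one_left (norm_nonneg _) h1).trans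
        ((hf.2.2 x t ht).trans_eq (mul_assoc _ _ _)))
    have hl : IsLinearMap ℂ fun z => (c : ℂ)⁻¹ * y z :=
      lin_comp (IsLinearMap.isLinearMap_smul (c : ℂ)⁻¹) y.isLinear
    let φ : PH A X n := ⟨fun x t => (c : ℂ)⁻¹ * y (f x t), fun t ht => lin_comp (f := fun z => (c : ℂ)⁻¹ * y z) hl (hf.1 t ht),
      fun x s t h => lin_comp (f := fun z => (c : ℂ)⁻¹ * y z) hl (hf.2.1 x s t h), fun x t ht => by
        have := pn_nonneg t
        rw [norm_mul, norm_inv, Complex.norm_real, Real.norm_of_nonneg hc, one_mul]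
        exact inv_mul_le_of_le_mul₀ hc (by positivity) (hy x t ht)⟩
    have key : ∀ u, y (g u) = c * (eL n u) φ := by
      intro u
      induction u using Finsupp.induction_linear with
      | zero => simp
      | add u v h1 h2 => simp [h1, h2, mul_add]
      | single p a =>
        simp only [g, eL, Finsupp.linearCombination_single, map_smul, lp.coeFn_smul, Pi.smul_apply,
          smul_eq_mul, mul_left_comm (c : ℂ)]
        congr 1
        by_cases h : p.2.length = n
        · rw [if_pos h, ev0_apply _ h]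
          by_cases h0 : c = 0
          · simpa [h0] using hy _ _ h
          · exact (mul_inv_cancel_left₀ (by exact_mod_cast h0) _).symm
        · simp [h, ev0]
    have h3 := congrArg norm (h2.symm.trans (key u))
    simp only [RCLike.norm_ofReal, abs_norm, norm_mul, Complex.norm_real, Real.norm_of_nonneg hc] at h3
    rw [h3]
    exact mul_le_mul_of_nonneg_left (lp.norm_apply_le_norm (by simp) (eL n u) φ) hc
  refine ⟨g.extendOfNorm (eC n), (g.extendOfNorm (eC n)).isLinear,
    LinearMap.norm_extendOfNorm_apply_le (eC_dense n) c hb, fun x t ht => ?_⟩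
  rw [io, LinearMap.extendOfNorm_eq (eC_dense n) ⟨c, hb⟩]
  simp [g, ht]

lemma io_dense (n : ℕ) : Dense (Submodule.span ℂ
    {z : CC A X n | ∃ (x : X) (t : List A), t.length = n ∧ z = io n x t} : Set (CC A X n)) := by
  refine (eC_dense n).mono ?_
  rintro _ ⟨u, rfl⟩
  induction u using Finsupp.induction_linear with
  | zero => simp
  | add u v h1 h2 => rw [map_add]; exact add_mem h1 h2
  | single p a =>
    rw [← Finsupp.smul_single_one, map_smul]
    refine Submodule.smul_mem _ _ ?_
    by_cases h : p.2.length = n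
    · exact Submodule.subset_span ⟨p.1, p.2, h, rfl⟩
    · have : io n p.1 p.2 = 0 := io_ext fun φ => by simp [io_val, ev0, h]
      exact (show eC n (Finsupp.single p 1) = 0 from this) ▸ zero_mem _

end

noncomputable def tens (M : BiMod A) (n : ℕ) : Tens M n where
  C := CC A M.X n
  cpl := (Submodule.isClosed_topologicalClosure _).completeSpace_coe
  ι := io n
  ml := io_ml n
  lifts := io_lifts n
  dense := io_dense n

section
variable {Z : Type} [NormedAddCommGroup Z] [NormedSpace ℂ Z]

omit [NormedSpace ℂ A] in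
lemma mid_lin {V : Type} [AddCommGroup V] [Module ℂ V] {g : V → List A → Z} (t : List A)
    (h : ∀ s : List A, s.length + 1 = t.length → IsLinearMap ℂ fun x => g x s) :
    IsLinearMap ℂ fun x => mid (g x) t := by
  induction t generalizing g with
  | nil => simp only [mid]; exact ⟨by simp, by simp⟩
  | cons a t ih =>
    cases t with
    | nil => simp only [mid]; exact ⟨by simp, by simp⟩
    | cons b t =>
      simp only [mid]
      exact lin_sub (h _ (by simp)) (ih fun s hs => h _ (by simpa using hs))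

omit [NormedSpace ℂ A] [NormedSpace ℂ Z] in
lemma mid_le {g : List A → Z} {c : ℝ} (hc : 0 ≤ c) (a : A) (t : List A)
    (h : ∀ s : List A, s.length = t.length → ‖g s‖ ≤ c * pn s) :
    ‖mid g (a :: t)‖ ≤ t.length * c * pn (a :: t) := by
  induction t generalizing g a c with
  | nil => simp [mid]
  | cons b t ih =>
    have h1 := h (a * b :: t) rfl
    have h2 := ih (g := fun s => g (a :: s)) (c := c * ‖a‖) (by positivity) b fun s hs =>
      (h _ (by simp [hs])).trans_eq (by simp [mul_assoc])
    have h3 := mul_le_mul_of_nonneg_left (mul_le_mul_of_nonneg_right (norm_mul_le a b)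
      (pn_nonneg t)) hc
    rw [mid]
    refine (norm_sub_le _ _).trans ?_
    simp only [pn_cons, List.length_cons] at *
    push_cast
    linarith

omit [NormedSpace ℂ A] in
lemma pn_ini (a : A) (t : List A) : ‖la a t‖ * pn (ini a t) = pn (a :: t) := by
  induction t generalizing a with
  | nil => simp [la, ini]
  | cons b t ih => rw [la, ini, pn_cons, mul_left_comm, ih, pn_cons a]

lemma last_slot (s t : List A) {k : A → List A → Z}
    (h1 : ∀ u : List A, u.length = s.length + t.length → IsLinearMap ℂ fun a => k a u)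
    (h2 : ∀ c (u v : List A), u.length + v.length + 1 = s.length + t.length →
      IsLinearMap ℂ fun a => k c (u ++ a :: v)) :
    IsLinearMap ℂ fun a => k (la ((s ++ a :: t).headD 0) (s ++ a :: t).tail)
      (ini ((s ++ a :: t).headD 0) (s ++ a :: t).tail) := by
  induction s generalizing k with
  | nil =>
    cases t with
    | nil => exact h1 [] rfl
    | cons b t => exact h2 (la b t) [] (ini b t) (by simp [len_ini])
  | cons c s ih =>
    have := ih (k := fun u v => k u (c :: v)) (fun u hu => h1 _ (by simp; omega))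
      fun e u v h => h2 e (c :: u) v (by simp; omega)
    cases s <;> exact this

variable [IsScalarTower ℂ A A] [SMulCommClass ℂ A A]

lemma mid_slot (s t : List A) {g : List A → Z}
    (h : ∀ u v : List A, u.length + v.length + 1 = s.length + t.length →
      IsLinearMap ℂ fun a => g (u ++ a :: v)) : IsLinearMap ℂ fun a => mid g (s ++ a :: t) := by
  induction s generalizing g with
  | nil =>
    cases t with
    | nil => simp only [List.nil_append, mid]; exact ⟨by simp, by simp⟩
    | cons b t =>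
      simp only [List.nil_append, mid]
      exact lin_sub (lin_comp (f := fun a => g (a :: t)) (h [] t (by simp)) (mul_r b))
        (mid_lin _ fun s hs => h [] s (by simpa using hs))
  | cons c s ih =>
    have := ih (g := fun v => g (c :: v)) fun u v e => h (c :: u) v (by simp; omega)
    cases s with
    | nil =>
      simp only [List.cons_append, List.nil_append, mid]
      exact lin_sub (lin_comp (f := fun a => g (a :: t)) (h [] t (by simp [add_comm])) (mul_l c)) this
    | cons e s =>
      simp only [List.cons_append, mid]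
      exact lin_sub (h (c * e :: s) t (by simp; omega)) this

lemma bd_ml (M : BiMod A) {n : ℕ} {f : M.X → List A → Z} (hf : IsML n f 1) :
    ∃ c, 0 ≤ c ∧ IsML (n + 1) (bd M n f) c := by
  obtain ⟨K, hK, hr, hl⟩ := M.bd
  have hs : ∀ {V : Type} [AddCommGroup V] [Module ℂ V] {g : V → Z} (m : ℤ), IsLinearMap ℂ g →
      IsLinearMap ℂ fun x => m • g x := fun m hg =>
    ⟨fun x y => by rw [hg.map_add, smul_add], fun c x => by rw [hg.map_smul, smul_comm]⟩
  refine ⟨K + n + K, by positivity, fun t ht => ?_, fun x s t h => ?_, fun x t ht => ?_⟩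
  · obtain ⟨a, t, rfl⟩ := List.exists_cons_of_length_eq_add_one ht
    obtain rfl : n = t.length := by simpa using ht.symm
    simp only [bd_cons]
    exact lin_add (lin_sub (lin_comp (hf.1 t rfl) (M.r_x a))
      (mid_lin _ fun s hs => hf.1 s (by simpa using hs)))
      (hs _ (lin_comp (hf.1 _ (len_ini _ _)) (M.l_x _)))
  · have e : ∀ a, bd M n f x (s ++ a :: t) =
        f (M.r x ((s ++ a :: t).headD 0)) (s ++ a :: t).tail - mid (f x) (s ++ a :: t) +
        (-1 : ℤ) ^ (n + 1) • f (M.l (la ((s ++ a :: t).headD 0) (s ++ a :: t).tail) x)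
          (ini ((s ++ a :: t).headD 0) (s ++ a :: t).tail) := fun a => by
      obtain ⟨b, u, e⟩ := List.exists_cons_of_length_eq_add_one (l := s ++ a :: t) (n := n)
        (by simp; omega)
      obtain rfl : n = u.length := by
        have := congrArg List.length e
        simp at this; omega
      rw [e, bd_cons]; rfl
    simp only [e]
    refine lin_add (lin_sub ?_ (mid_slot s t fun u v e => hf.2.1 x u v (by omega)))
      (hs _ (last_slot s t (k := fun u v => f (M.l u x) v)
        (fun u hu => lin_comp (hf.1 u (by omega)) (M.l_a x)) fun c u v e => hf.2.1 _ u v (by omega)))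
    cases s with
    | nil => exact lin_comp (hf.1 t (by simpa using h)) (M.r_a x)
    | cons c s => exact hf.2.1 (M.r x c) s t (by simp at h; omega)
  · obtain ⟨a, t, rfl⟩ := List.exists_cons_of_length_eq_add_one ht
    obtain rfl : n = t.length := by simpa using ht.symm
    have h1 := (hf.2.2 (M.r x a) t rfl).trans (mul_le_mul_of_nonneg_right
      (mul_le_mul_of_nonneg_left (hr x a) zero_le_one) (pn_nonneg t))
    have h2 := mid_le (g := f x) (c := 1 * ‖x‖) (by positivity) a t fun s hs => hf.2.2 x s hs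
    have h3 := (hf.2.2 (M.l (la a t) x) _ (len_ini a t)).trans (mul_le_mul_of_nonneg_right
      (mul_le_mul_of_nonneg_left (hl x _) zero_le_one) (pn_nonneg _))
    rw [mul_assoc, mul_assoc, pn_ini] at h3
    have h4 : ‖(-1 : ℤ) ^ (t.length + 1) • f (M.l (la a t) x) (ini a t)‖ =
        ‖f (M.l (la a t) x) (ini a t)‖ := by
      rcases neg_one_pow_eq_or ℤ (t.length + 1) with h | h <;> simp [h]
    rw [bd_cons]
    refine (norm_add_le _ _).trans ((add_le_add (norm_sub_le _ _) h4.le).trans ?_)
    simp only [pn_cons] at *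
    linarith

end

theorem exist [IsScalarTower ℂ A A] [SMulCommClass ℂ A A] : Exist A := by
  intro M
  have : ∀ n, ∃ d, IsBd (tens M (n + 1)) (tens M n) d := fun n => by
    have := (tens M n).cpl
    obtain ⟨c, hc, h⟩ := bd_ml M (tens M n).ml
    obtain ⟨F, h1, h2, h3⟩ := (tens M (n + 1)).lifts _ _ c hc h
    exact ⟨F, ⟨h1, c + 1, by positivity, fun z => (h2 z).trans (by gcongr; linarith)⟩, h3⟩
  choose d hd using this
  exact ⟨tens M, d, hd⟩

noncomputable def MD : BiMod AA where
  X := StrongDual ℂ AA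
  cpl := inferInstance
  l a f := f ∘L (ContinuousLinearMap.mul ℂ AA).flip a
  r _ _ := 0
  l_bil := ⟨fun a b f => by ext; simp, fun c a f => by ext; simp,
    fun a f g => by ext; simp, fun c a f => by ext; simp, 1, one_pos, fun a f =>
      ContinuousLinearMap.opNorm_le_bound _ (by positivity) fun x => (f.le_opNorm _).trans (by
        have := mul_le_mul_of_nonneg_left (norm_mul_le x a) (norm_nonneg f)
        show ‖f‖ * ‖x * a‖ ≤ _
        linarith)⟩
  r_bil := ⟨by simp, by simp, by simp, by simp, 1, one_pos, fun _ _ => by simp; positivity⟩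
  l_mul a b f := by ext; simp [mul_assoc]
  r_mul _ _ _ := rfl
  l_r a _ _ := by ext; simp

lemma key (C : ℝ) : ∃ (a : AA) (f : StrongDual ℂ AA), C * ‖MD.l a f‖ < ‖f a‖ := by
  obtain ⟨k, hk⟩ := exists_pow_lt_of_lt_one (show 0 < 1 / (|C| + 1) by positivity)
    (show (1 / 2 : ℝ) < 1 by norm_num)
  refine ⟨el (.inr k) (ev 0), co 0 ∘L evA (.inr k), ?_⟩
  have h1 : ‖MD.l (el (.inr k) (ev 0)) (co 0 ∘L evA (.inr k))‖ ≤ (1 / 2) ^ k := by
    refine ContinuousLinearMap.opNorm_le_bound _ (by positivity) fun x => ?_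
    refine (lp.norm_apply_le_norm (by simp) (hat (el (.inr k) (ev 0)) (x.f (.inr k))) 0).trans ?_
    refine (hat_le' _ (K := (1 / 2) ^ k) (fun i => ?_) _).trans ?_
    · simp only [col, f_el, reduceCtorEq, if_false, smul_zero, zero_add, Sum.inr.injEq]
      split_ifs with h
      · rw [h, norm_smul, norm_ev, norm_pow, pow_succ]
        have : (0 : ℝ) < (1 / 2) ^ k := by positivity
        simp only [norm_div, norm_one, Complex.norm_two]; linarith
      · simp
    · rw [mul_comm]; gcongr; exact f_le _ _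
  have h2 : ‖(co 0 ∘L evA (.inr k)) (el (.inr k) (ev 0))‖ = 1 := by
    show ‖(el (.inr k) (ev 0)).f (.inr k) 0‖ = 1
    simp [ev_apply]
  rw [h2]
  rw [lt_div_iff₀ (by positivity)] at hk
  nlinarith [le_abs_self C, abs_nonneg C, norm_nonneg (MD.l (el (.inr k) (ev 0)) (co 0 ∘L evA (.inr k)))]

theorem not_amen : ¬ Amenable AA := by
  intro h
  obtain ⟨Φ, hΦ⟩ := h MD (NormedSpace.inclusionInDoubleDual ℂ AA)
    ⟨⟨⟨map_add _, map_smul _⟩, 1, one_pos, fun a => by
      rw [one_mul]; exact NormedSpace.double_dual_bound ℂ AA a⟩, fun a b (x : StrongDual ℂ AA) => by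
      show x (a * b) = 0 + x (a * b)
      rw [zero_add]⟩
  obtain ⟨a, f, h1⟩ := key ‖Φ‖
  have h2 : f a = Φ 0 - Φ (MD.l a f) := hΦ a f
  rw [h2, map_zero, zero_sub, norm_neg] at h1
  exact h1.not_ge (Φ.le_opNorm _)

theorem not_haus : ¬ HausZero AA := by
  intro h
  obtain ⟨T, d, hd⟩ := exist (A := AA) MD
  have hc := h MD _ _ _ (hd 0)
  have := (T 0).cpl
  have := (T 1).cpl
  obtain ⟨τ, t1, t2, t3⟩ := (T 1).lifts ℂ (fun (f : StrongDual ℂ AA) t => f (t.headD 0)) 1
    zero_le_one ⟨fun t _ => ⟨fun _ _ => rfl, fun _ _ => rfl⟩, fun (x : StrongDual ℂ AA) s t h => by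
      obtain rfl : s = [] := List.length_eq_zero_iff.1 (by omega)
      exact x.isLinear, fun (x : StrongDual ℂ AA) t ht => by
      obtain ⟨a, rfl⟩ := List.length_eq_one_iff.1 ht
      rw [pn_cons, pn_nil, one_mul, mul_one]
      exact x.le_opNorm a⟩
  have h0 : ∀ w, τ (d 1 w) = 0 := by
    refine eq_of_dense (IsBoundedLinearMap.comp ⟨t1, 1, one_pos, t2⟩ (hd 1).1) (T 2).dense ?_
    rintro _ ⟨x, t, ht, rfl⟩
    obtain ⟨a, b, rfl⟩ := List.length_eq_two.1 ht
    refine (lift_bd (hd 1) t1 t3 x ht).trans ?_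
    simp [bd, ctr, MD]
  let D := IsBoundedLinearMap.toContinuousLinearMap _ (hd 0).1
  have : CompleteSpace D.range := hc.completeSpace_coe
  obtain ⟨C, hC, h1⟩ := D.rangeRestrict.exists_preimage_norm_le
    fun ⟨_, w, hw⟩ => ⟨w, Subtype.ext hw⟩
  obtain ⟨a, f, h2⟩ := key C
  obtain ⟨w, h3, h4⟩ := h1 (D.rangeRestrict ((T 1).ι f [a]))
  have h5 : d 0 w = d 0 ((T 1).ι f [a]) := congrArg Subtype.val h3
  obtain ⟨v, hv⟩ := (vanish good MD T d hd 0 (w - (T 1).ι f [a])).1
    (by rw [(hd 0).1.map_sub, h5, sub_self])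
  have h6 := h0 v
  rw [hv, t1.map_sub, t3 _ _ rfl, sub_eq_zero] at h6
  have h7 : ‖d 0 ((T 1).ι f [a])‖ ≤ ‖MD.l a f‖ := by
    rw [(hd 0).2 _ _ rfl]
    have h8 : (T 0).ι (MD.r f a) [] = 0 := ((T 0).ml.1 [] rfl).map_zero
    simpa [bd, h8] using (T 0).ml.2.2 (MD.l a f) [] rfl
  have h9 := (t2 w).trans ((one_mul _).trans_le (h4.trans (mul_le_mul_of_nonneg_left h7 hC.le)))
  rw [h6] at h9
  exact h2.not_ge h9

end Pool.Agent.H90.Hh
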