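import Mathlib

/-!
The continuous high-low search game. A pure searcher strategy is a function of the list of
answers received so far, in chronological order; `true` means too high.
-/

namespace Pool.Agent.H90.HighLow

open scoped ENNReal

open Classical in
/-- Total cost `∑ |g_i - h|` of the first `n` guesses of the strategy `s` against the secret `h`;
play stops when a guess equals `h`. -/
noncomputable def cost : ℕ → (List Bool → ℝ) → ℝ → ℝ
  | 0, _, _ => 0
  | n + 1, s, h =>
    if s [] = h then 0 else |s [] - h| + cost n (fun l => s (decide (h < s []) :: l)) h

/-- The payoff `P(h)`, the sum over all guesses. -/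
noncomputable def payoff (s : List Bool → ℝ) (h : ℝ) : ℝ≥0∞ := ⨆ n, ENNReal.ofReal (cost n s h)

/-- The guess `lam k * a + (1 - lam k) * b` after the answers `l`, starting from the state `k` and
the interval `[a, b]`. -/
noncomputable def alp (lam : ℤ → ℝ) : List Bool → ℤ → ℝ → ℝ → ℝ
  | [], k, a, b => lam k * a + (1 - lam k) * b
  | true :: l, k, a, b => alp lam l (k - 1) a (lam k * a + (1 - lam k) * b)
  | false :: l, k, a, b => alp lam l (k + 1) (lam k * a + (1 - lam k) * b) b

/-- The strategy of Alpern's form with the parameters `lam`, started at `k = 0` on `[0, 1]`. -/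
noncomputable def alpern (lam : ℤ → ℝ) : List Bool → ℝ := fun l => alp lam l 0 0 1

end Pool.Agent.H90.HighLow
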