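import Pool.Agent.H90.HighLowDefs

namespace Pool.Agent.H90.HighLow

open scoped ENNReal

lemma cost_nonneg : ∀ (n : ℕ) (s : List Bool → ℝ) (h : ℝ), 0 ≤ cost n s h
  | 0, _, _ => le_rfl
  | n + 1, s, h => by
    rw [cost]
    split_ifs
    · exact le_rfl
    · exact add_nonneg (abs_nonneg _) (cost_nonneg n _ h)

lemma cost_lt (n : ℕ) (s : List Bool → ℝ) (h : ℝ) (hl : h < s []) :
    cost (n + 1) s h = (s [] - h) + cost n (fun l => s (true :: l)) h := by
  rw [cost, if_neg hl.ne', abs_of_pos (sub_pos.mpr hl), decide_eq_true hl]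

lemma cost_gt (n : ℕ) (s : List Bool → ℝ) (h : ℝ) (hl : s [] < h) :
    cost (n + 1) s h = (h - s []) + cost n (fun l => s (false :: l)) h := by
  rw [cost, if_neg hl.ne, abs_of_neg (sub_neg.mpr hl), decide_eq_false (not_lt.mpr hl.le), neg_sub]

lemma cost_eq (n : ℕ) (s : List Bool → ℝ) (h : ℝ) (hl : s [] = h) : cost (n + 1) s h = 0 := by
  rw [cost, if_pos hl]

/-! ### The tail strategy -/

/-- Upper values, scaled by `10^4`. -/
def U (k : ℤ) : ℤ :=
  if k ≤ -3 then 196 else if k = -2 then 778 else if k = -1 then 2492 else if k = 0 then 6246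
  else if k = 1 then 12492 else if k = 2 then 20778 else 10000 * k + 196

/-- Guess positions, scaled by `10^4`. -/
def X (k : ℤ) : ℤ :=
  if k ≤ -3 then 192 else if k = -2 then 763 else if k = -1 then 2312 else if k = 0 then 5000
  else if k = 1 then 7688 else if k = 2 then 9237 else 9808

lemma UX (k : ℤ) : 0 ≤ X k ∧ X k ≤ 10000 ∧ 0 ≤ U k ∧ 10000 * k ≤ U k ∧
    X k * (10000 + U (k - 1)) ≤ 10000 * U k ∧
    10000 * k * X k + (10000 - X k) * U (k + 1) ≤ 10000 * U k := by
  by_cases h1 : k ≤ -4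
  · have e1 : X k = 192 := if_pos (by omega)
    have e2 : U k = 196 := if_pos (by omega)
    have e3 : U (k - 1) = 196 := if_pos (by omega)
    have e4 : U (k + 1) = 196 := if_pos (by omega)
    rw [e1, e2, e3, e4]; omega
  by_cases h2 : 4 ≤ k
  · have f : ∀ j : ℤ, 3 ≤ j → U j = 10000 * j + 196 := by
      intro j hj
      unfold U
      rw [if_neg (by omega), if_neg (by omega), if_neg (by omega), if_neg (by omega),
        if_neg (by omega), if_neg (by omega)]
    have e1 : X k = 9808 := by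
      unfold X
      rw [if_neg (by omega), if_neg (by omega), if_neg (by omega), if_neg (by omega),
        if_neg (by omega), if_neg (by omega)]
    rw [e1, f k (by omega), f (k - 1) (by omega), f (k + 1) (by omega)]; omega
  push Not at h1 h2
  interval_cases k <;> decide

/-- The parameters of the tail strategy. -/
noncomputable def lam0 (k : ℤ) : ℝ := 1 - (X k : ℝ) / 10000

lemma tail_bound : ∀ (n : ℕ) (k : ℤ) (a b h : ℝ), a ≤ h → h ≤ b →
    (k : ℝ) * (h - a) + cost n (fun l => alp lam0 l k a b) h ≤ (U k : ℝ) / 10000 * (b - a) := by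
  have base : ∀ (k : ℤ) (a b h : ℝ), a ≤ h → h ≤ b →
      (k : ℝ) * (h - a) ≤ (U k : ℝ) / 10000 * (b - a) := by
    intro k a b h ha hb
    obtain ⟨_, _, h3, h4, _, _⟩ := UX k
    have h3' : (0 : ℝ) ≤ U k := by exact_mod_cast h3
    have h4' : 10000 * (k : ℝ) ≤ U k := by exact_mod_cast h4
    nlinarith [mul_nonneg h3' (sub_nonneg.mpr hb), mul_le_mul_of_nonneg_right h4' (sub_nonneg.mpr ha)]
  intro n
  induction n with
  | zero => intro k a b h ha hb; simpa [cost] using base k a b h ha hb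
  | succ n ih =>
    intro k a b h ha hb
    obtain ⟨_, _, _, _, h5, h6⟩ := UX k
    have h5' : (X k : ℝ) * (10000 + U (k - 1)) ≤ 10000 * U k := by exact_mod_cast h5
    have h6' : 10000 * (k : ℝ) * X k + (10000 - X k) * U (k + 1) ≤ 10000 * U k := by
      exact_mod_cast h6
    have hab : 0 ≤ b - a := by linarith
    set g := lam0 k * a + (1 - lam0 k) * b with hg
    have hg1 : g - a = (X k : ℝ) / 10000 * (b - a) := by rw [hg, lam0]; ring
    have hg2 : b - g = (10000 - X k : ℝ) / 10000 * (b - a) := by rw [hg, lam0]; ring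
    rcases lt_trichotomy h g with hl | hl | hl
    · rw [cost_lt n _ h hl]
      have := ih (k - 1) a g h ha hl.le
      simp only [alp, ← hg]
      push_cast at this
      rw [hg1] at this
      nlinarith [mul_le_mul_of_nonneg_right h5' hab]
    · rw [cost_eq n _ h hl.symm, add_zero]
      exact base k a b h ha hb
    · rw [cost_gt n _ h hl]
      have := ih (k + 1) g b h hl.le hb
      simp only [alp, ← hg]
      push_cast at this
      rw [hg2] at this
      have e : (k : ℝ) * (g - a) = k * ((X k : ℝ) / 10000 * (b - a)) := by rw [hg1]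
      nlinarith [mul_le_mul_of_nonneg_right h6' hab]

lemma tail_mem : ∀ (l : List Bool) (k : ℤ) (a b : ℝ), a ≤ b → alp lam0 l k a b ∈ Set.Icc a b := by
  have mid : ∀ (k : ℤ) (a b : ℝ), a ≤ b → lam0 k * a + (1 - lam0 k) * b ∈ Set.Icc a b := by
    intro k a b hab
    obtain ⟨h1, h2, _⟩ := UX k
    have h1' : (0 : ℝ) ≤ X k := by exact_mod_cast h1
    have h2' : (X k : ℝ) ≤ 10000 := by exact_mod_cast h2
    rw [lam0]
    constructor
    · nlinarith [mul_nonneg h1' (sub_nonneg.mpr hab)]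
    · nlinarith [mul_nonneg (sub_nonneg.mpr h2') (sub_nonneg.mpr hab)]
  intro l
  induction l with
  | nil => intro k a b hab; exact mid k a b hab
  | cons c l ih =>
    intro k a b hab
    have := mid k a b hab
    cases c
    · have q := ih (k + 1) _ b this.2
      exact ⟨this.1.trans q.1, q.2⟩
    · have q := ih (k - 1) a _ this.1
      exact ⟨q.1, q.2.trans this.2⟩

/-! ### Finite trees on the grid of mesh `1/64` -/

/-- Finite search trees. -/
inductive Tr
  | lf : Tr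
  | nd : ℕ → Tr → Tr → Tr

open Tr

/-- The strategy that follows the tree and then the tail strategy. -/
noncomputable def strat : Tr → ℤ → ℕ → ℕ → List Bool → ℝ
  | lf, k, a, b, l => alp lam0 l k ((a : ℝ) / 64) ((b : ℝ) / 64)
  | nd r _ _, _, _, _, [] => (r : ℝ) / 64
  | nd r t _, k, a, _, true :: l => strat t (k - 1) a r l
  | nd r _ t, k, _, b, false :: l => strat t (k + 1) r b l

/-- Validity of a tree on the interval `[a, b]`. -/
def ok : Tr → ℕ → ℕ → Bool
  | lf, _, _ => true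
  | nd r t1 t2, a, b => decide (a ≤ r) && decide (r ≤ b) && ok t1 a r && ok t2 r b

/-- The bound on the cell `i`, scaled by `64 * 10^4`. -/
def bd : Tr → ℤ → ℕ → ℕ → ℕ → ℤ
  | lf, k, a, b, _ => U k * ((b : ℤ) - a)
  | nd r t1 t2, k, a, b, i =>
    if i < r then 10000 * ((r : ℤ) - a) + bd t1 (k - 1) a r i
    else 10000 * k * ((r : ℤ) - a) + bd t2 (k + 1) r b i

lemma strat_mem : ∀ (t : Tr) (k : ℤ) (a b : ℕ) (l : List Bool), a ≤ b → ok t a b = true →
    strat t k a b l ∈ Set.Icc ((a : ℝ) / 64) ((b : ℝ) / 64)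
  | lf, k, a, b, l, hab, _ => by
    rw [strat]
    exact tail_mem l k _ _ (by gcongr)
  | nd r t1 t2, k, a, b, l, _, h => by
    simp only [ok, Bool.and_eq_true, decide_eq_true_eq] at h
    obtain ⟨⟨⟨h1, h2⟩, h3⟩, h4⟩ := h
    have e1 : (a : ℝ) / 64 ≤ (r : ℝ) / 64 := by gcongr
    have e2 : (r : ℝ) / 64 ≤ (b : ℝ) / 64 := by gcongr
    match l with
    | [] => exact ⟨e1, e2⟩
    | true :: l =>
      have q := strat_mem t1 (k - 1) a r l h1 h3
      exact ⟨q.1, q.2.trans e2⟩
    | false :: l =>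
      have q := strat_mem t2 (k + 1) r b l h2 h4
      exact ⟨e1.trans q.1, q.2⟩

lemma strat_bound : ∀ (t : Tr) (n : ℕ) (k : ℤ) (a b i : ℕ) (h : ℝ), a ≤ i → i < b →
    (i : ℝ) / 64 ≤ h → h ≤ ((i : ℝ) + 1) / 64 →
    (k : ℝ) * (h - (a : ℝ) / 64) + cost n (strat t k a b) h ≤ (bd t k a b i : ℝ) / 640000
  | lf, n, k, a, b, i, h, h1, h2, h3, h4 => by
    have e1 : (a : ℝ) ≤ i := by exact_mod_cast h1
    have e2 : (i : ℝ) + 1 ≤ b := by exact_mod_cast h2
    have := tail_bound n k ((a : ℝ) / 64) ((b : ℝ) / 64) h (by linarith) (by linarith)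
    have e : strat lf k a b = fun l => alp lam0 l k ((a : ℝ) / 64) ((b : ℝ) / 64) := by
      funext l; rw [strat]
    rw [e, bd]
    push_cast
    linarith
  | nd r t1 t2, n, k, a, b, i, h, h1, h2, h3, h4 => by
    have s0 : strat (nd r t1 t2) k a b [] = (r : ℝ) / 64 := rfl
    have s1 : (fun l => strat (nd r t1 t2) k a b (true :: l)) = strat t1 (k - 1) a r := rfl
    have s2 : (fun l => strat (nd r t1 t2) k a b (false :: l)) = strat t2 (k + 1) r b := rfl
    rw [bd]
    split_ifs with hi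
    · have e : (i : ℝ) + 1 ≤ r := by exact_mod_cast hi
      have hr : h ≤ (r : ℝ) / 64 := by linarith
      have z := strat_bound t1 0 (k - 1) a r i h h1 hi h3 h4
      rw [cost] at z
      push_cast at z ⊢
      cases n with
      | zero => rw [cost]; nlinarith
      | succ n =>
        rcases hr.eq_or_lt with he | hl
        · rw [cost_eq n _ h (by rw [s0, he])]; nlinarith
        · rw [cost_lt n _ h (by rw [s0]; exact hl), s0, s1]
          have q := strat_bound t1 n (k - 1) a r i h h1 hi h3 h4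
          push_cast at q
          nlinarith
    · push Not at hi
      have e : (r : ℝ) ≤ i := by exact_mod_cast hi
      have hr : (r : ℝ) / 64 ≤ h := by linarith
      have z := strat_bound t2 0 (k + 1) r b i h hi h2 h3 h4
      rw [cost] at z
      push_cast at z ⊢
      cases n with
      | zero => rw [cost]; nlinarith
      | succ n =>
        rcases hr.eq_or_lt with he | hl
        · rw [cost_eq n _ h (by rw [s0, he])]; nlinarith
        · rw [cost_gt n _ h (by rw [s0]; exact hl), s0, s2]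
          have q := strat_bound t2 n (k + 1) r b i h hi h2 h3 h4
          push_cast at q
          nlinarith

/-- Tree number 0. -/
def T0 : Tr :=
  nd 29 (nd 4 lf (nd 14 (nd 8 (nd 6 lf lf) (nd 10 (nd 9 lf lf) (nd 11 lf (nd 13 lf lf)))) (nd 24
    (nd 18 (nd 16 (nd 15 lf lf) lf) (nd 22 (nd 20 (nd 19 lf lf) (nd 21 lf lf)) (nd 23 lf lf)))
    (nd 26 lf (nd 28 (nd 27 lf lf) lf))))) (nd 55 (nd 39 (nd 33 (nd 30 lf (nd 31 lf lf)) (nd 36
    (nd 34 lf lf) (nd 37 lf (nd 38 lf lf)))) (nd 50 (nd 44 (nd 41 (nd 40 lf lf) (nd 42 lf lf))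
    (nd 48 (nd 45 lf (nd 46 lf (nd 47 lf lf))) lf)) (nd 54 (nd 51 lf (nd 53 (nd 52 lf lf) lf))
    lf))) (nd 63 (nd 60 (nd 56 lf (nd 59 (nd 57 lf lf) lf)) lf) lf))

/-- Tree number 1. -/
def T1 : Tr :=
  nd 31 (nd 6 lf (nd 17 (nd 10 (nd 7 lf lf) (nd 13 (nd 11 lf lf) (nd 15 lf (nd 16 lf lf)))) (nd
    26 (nd 21 (nd 19 (nd 18 lf lf) lf) (nd 24 lf lf)) (nd 29 lf lf)))) (nd 56 (nd 42 (nd 35 (nd
    32 lf lf) (nd 38 (nd 36 lf lf) (nd 40 lf (nd 41 lf lf)))) (nd 51 lf (nd 54 (nd 53 lf lf) (nd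
    55 lf lf)))) (nd 63 (nd 60 lf lf) lf))

/-- Tree number 2. -/
def T2 : Tr :=
  nd 36 (nd 10 (nd 2 lf (nd 7 (nd 4 lf lf) (nd 8 lf (nd 9 lf lf)))) (nd 26 (nd 17 (nd 12 (nd 11
    lf lf) (nd 14 lf lf)) (nd 22 (nd 19 (nd 18 lf lf) (nd 21 (nd 20 lf lf) lf)) (nd 24 lf (nd 25
    lf lf)))) (nd 31 (nd 29 (nd 28 (nd 27 lf lf) lf) lf) (nd 33 lf (nd 35 (nd 34 lf lf) lf)))))
    (nd 60 (nd 51 (nd 43 (nd 39 (nd 37 lf lf) (nd 40 lf (nd 42 (nd 41 lf lf) lf))) (nd 47 (nd 45
    (nd 44 lf lf) lf) (nd 49 lf (nd 50 lf lf)))) (nd 56 (nd 54 (nd 53 (nd 52 lf lf) lf) (nd 55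
    lf lf)) (nd 58 (nd 57 lf lf) lf))) lf)

/-- Tree number 3. -/
def T3 : Tr :=
  nd 32 (nd 7 (nd 1 lf (nd 3 (nd 2 lf lf) (nd 5 (nd 4 lf lf) (nd 6 lf lf)))) (nd 20 (nd 12 (nd
    10 lf lf) (nd 16 (nd 14 (nd 13 lf lf) lf) (nd 18 lf (nd 19 lf lf)))) (nd 28 (nd 25 (nd 22
    (nd 21 lf lf) (nd 24 (nd 23 lf lf) lf)) (nd 27 lf lf)) (nd 30 (nd 29 lf lf) (nd 31 lf
    lf))))) (nd 57 (nd 45 (nd 37 (nd 34 (nd 33 lf lf) (nd 36 lf lf)) (nd 41 (nd 39 (nd 38 lf lf)
    lf) (nd 43 lf (nd 44 lf lf)))) (nd 53 (nd 49 (nd 47 (nd 46 lf lf) lf) (nd 52 lf lf)) (nd 55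
    lf (nd 56 lf lf)))) (nd 63 (nd 61 (nd 59 (nd 58 lf lf) (nd 60 lf lf)) lf) lf))

/-- The four trees. -/
def TT : Fin 4 → Tr := ![T0, T1, T2, T3]

lemma TT_ok : ∀ j, ok (TT j) 0 64 = true := by decide +kernel

lemma TT_bd : ∀ i : Fin 64, (∀ j, 0 ≤ bd (TT j) 0 0 64 i) ∧
    ∑ j, bd (TT j) 0 0 64 i ≤ 1594880 := by decide +kernel

lemma mixed_bound (h : ℝ) (h0 : 0 ≤ h) (h1 : h ≤ 1) :
    ∑ j, (1 / 4 : ℝ≥0∞) * payoff (strat (TT j) 0 0 64) h ≤ ENNReal.ofReal (623 / 1000) := by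
  obtain ⟨i, hi, h3, h4⟩ : ∃ i : ℕ, i < 64 ∧ (i : ℝ) / 64 ≤ h ∧ h ≤ ((i : ℝ) + 1) / 64 := by
    rcases h1.eq_or_lt with he | hl
    · exact ⟨63, by norm_num, by rw [he]; norm_num, by rw [he]; norm_num⟩
    · refine ⟨⌊64 * h⌋₊, (Nat.floor_lt (by positivity)).mpr (by push_cast; linarith), ?_, ?_⟩
      · linarith [Nat.floor_le (show 0 ≤ 64 * h by positivity)]
      · linarith [Nat.lt_floor_add_one (64 * h)]
  obtain ⟨b0, b1⟩ := TT_bd ⟨i, hi⟩
  have key : ∀ j, payoff (strat (TT j) 0 0 64) h ≤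
      ENNReal.ofReal ((bd (TT j) 0 0 64 i : ℝ) / 640000) := by
    intro j
    refine iSup_le fun n => ENNReal.ofReal_le_ofReal ?_
    simpa using strat_bound (TT j) n 0 0 64 i h (Nat.zero_le _) hi h3 h4
  have nn : ∀ j, (0 : ℝ) ≤ 1 / 4 * ((bd (TT j) 0 0 64 i : ℝ) / 640000) := by
    intro j
    have : (0 : ℝ) ≤ bd (TT j) 0 0 64 i := by exact_mod_cast b0 j
    positivity
  calc ∑ j, (1 / 4 : ℝ≥0∞) * payoff (strat (TT j) 0 0 64) h
      ≤ ∑ j, ENNReal.ofReal (1 / 4 * ((bd (TT j) 0 0 64 i : ℝ) / 640000)) := by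
        refine Finset.sum_le_sum fun j _ => ?_
        rw [ENNReal.ofReal_mul (by norm_num), ENNReal.ofReal_div_of_pos (by norm_num)]
        simp only [ENNReal.ofReal_one, ENNReal.ofReal_ofNat]
        gcongr
        exact key j
    _ = ENNReal.ofReal (∑ j, 1 / 4 * ((bd (TT j) 0 0 64 i : ℝ) / 640000)) :=
        (ENNReal.ofReal_sum_of_nonneg fun j _ => nn j).symm
    _ ≤ _ := by
        apply ENNReal.ofReal_le_ofReal
        have : ((∑ j, bd (TT j) 0 0 64 i : ℤ) : ℝ) ≤ 1594880 := by exact_mod_cast b1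
        push_cast at this
        rw [← Finset.mul_sum, ← Finset.sum_div]
        linarith

/-! ### Lower bound for pure strategies -/

/-- Lower values after `m` guesses, scaled by `10^6`. -/
def L : ℕ → ℤ → ℤ
  | 0, k => max k 0 * 1000000
  | m + 1, k => max (max k 0 * 1000000) ((1000000 + L m (k - 1)) * L m (k + 1) /
      (1000000 + L m (k - 1) - k * 1000000 + L m (k + 1)))

lemma L_ge (m : ℕ) (k : ℤ) : max k 0 * 1000000 ≤ L m k := by
  cases m with
  | zero => exact le_rfl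
  | succ m => exact le_max_left _ _

lemma lower_base (k : ℤ) (a b ε : ℝ) (hab : a < b) (hε : 0 < ε) :
    ∃ a' b', a ≤ a' ∧ a' < b' ∧ b' ≤ b ∧ ∀ h ∈ Set.Ioo a' b',
      ((max k 0 : ℤ) : ℝ) * (b - a) - ε ≤ (k : ℝ) * (h - a) := by
  set δ := min (b - a) (ε / (|(k : ℝ)| + 1)) with hδ
  have hk : 0 < |(k : ℝ)| + 1 := by positivity
  have d0 : 0 < δ := lt_min (by linarith) (by positivity)
  have d1 : δ ≤ b - a := min_le_left _ _
  have d2 : δ * (|(k : ℝ)| + 1) ≤ ε := (le_div_iff₀ hk).mp (min_le_right _ _)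
  rcases le_total k 0 with h | h
  · refine ⟨a, a + δ, le_rfl, by linarith, by linarith, fun x hx => ?_⟩
    have hk' : (k : ℝ) ≤ 0 := by exact_mod_cast h
    rw [max_eq_right h]
    rw [abs_of_nonpos hk'] at d2
    push_cast
    nlinarith [hx.1, hx.2]
  · refine ⟨b - δ, b, by linarith, by linarith, le_rfl, fun x hx => ?_⟩
    have hk' : (0 : ℝ) ≤ k := by exact_mod_cast h
    rw [max_eq_left h]
    rw [abs_of_nonneg hk'] at d2
    nlinarith [hx.1, hx.2]

lemma lower : ∀ (m : ℕ) (k : ℤ) (s : List Bool → ℝ) (a b ε : ℝ), a < b → 0 < ε →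
    ∃ a' b', a ≤ a' ∧ a' < b' ∧ b' ≤ b ∧ ∀ h ∈ Set.Ioo a' b',
      (L m k : ℝ) / 1000000 * (b - a) - ε ≤ (k : ℝ) * (h - a) + cost m s h := by
  intro m
  induction m with
  | zero =>
    intro k s a b ε hab hε
    obtain ⟨a', b', h1, h2, h3, h4⟩ := lower_base k a b ε hab hε
    refine ⟨a', b', h1, h2, h3, fun h hh => ?_⟩
    have := h4 h hh
    rw [L, cost]
    push_cast at this ⊢
    linarith
  | succ m ih =>
    intro k s a b ε hab hε
    rw [L]
    rcases le_total ((1000000 + L m (k - 1)) * L m (k + 1) /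
      (1000000 + L m (k - 1) - k * 1000000 + L m (k + 1))) (max k 0 * 1000000) with hc | hc
    · rw [max_eq_left hc]
      obtain ⟨a', b', h1, h2, h3, h4⟩ := lower_base k a b ε hab hε
      refine ⟨a', b', h1, h2, h3, fun h hh => ?_⟩
      have := h4 h hh
      have := cost_nonneg (m + 1) s h
      push_cast at *
      linarith
    rw [max_eq_right hc]
    have g1 := L_ge m (k - 1)
    have g2 := L_ge m (k + 1)
    have hA : 0 < 1000000 + L m (k - 1) := by omega
    have hB : 0 < L m (k + 1) - k * 1000000 := by omega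
    have hAk : k * 1000000 ≤ 1000000 + L m (k - 1) := by omega
    have hB0 : 0 ≤ L m (k + 1) := by omega
    have hq := Int.ediv_mul_le ((1000000 + L m (k - 1)) * L m (k + 1))
      (b := 1000000 + L m (k - 1) - k * 1000000 + L m (k + 1)) (by omega)
    generalize (1000000 + L m (k - 1)) * L m (k + 1) /
      (1000000 + L m (k - 1) - k * 1000000 + L m (k + 1)) = q at hq
    obtain ⟨A, hAd⟩ : ∃ A : ℝ, A = 1 + (L m (k - 1) : ℝ) / 1000000 := ⟨_, rfl⟩
    obtain ⟨B, hBd⟩ : ∃ B : ℝ, B = (L m (k + 1) : ℝ) / 1000000 := ⟨_, rfl⟩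
    obtain ⟨Q, hQd⟩ : ∃ Q : ℝ, Q = (q : ℝ) / 1000000 := ⟨_, rfl⟩
    have hA' : 0 < A := by
      have : (0 : ℝ) < 1000000 + L m (k - 1) := by exact_mod_cast hA
      linarith
    have hB' : 0 < B - k := by
      have : (0 : ℝ) < L m (k + 1) - k * 1000000 := by exact_mod_cast hB
      linarith
    have hAk' : (k : ℝ) ≤ A := by
      have : (k : ℝ) * 1000000 ≤ 1000000 + L m (k - 1) := by exact_mod_cast hAk
      linarith
    have hB0' : 0 ≤ B := by
      have : (0 : ℝ) ≤ L m (k + 1) := by exact_mod_cast hB0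
      linarith
    have hQ : Q * (A + (B - k)) ≤ A * B := by
      have : (q : ℝ) * (1000000 + L m (k - 1) - k * 1000000 + L m (k + 1)) ≤
          (1000000 + L m (k - 1)) * L m (k + 1) := by exact_mod_cast hq
      rw [hAd, hBd, hQd]
      nlinarith
    rw [← hQd]
    have hS : 0 < A + (B - k) := by linarith
    have hw : 0 < b - a := by linarith
    have QA : Q ≤ A := by
      refine le_of_mul_le_mul_right (hQ.trans ?_) hS
      nlinarith
    have QB : Q ≤ B := by
      refine le_of_mul_le_mul_right (hQ.trans ?_) hS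
      nlinarith
    set g := s [] with hg
    by_cases hga : g ≤ a
    · obtain ⟨a', b', h1, h2, h3, h4⟩ := ih (k + 1) (fun l => s (false :: l)) a b ε hab hε
      refine ⟨a', b', h1, h2, h3, fun h hh => ?_⟩
      have := h4 h hh
      rw [cost_gt m s h (by linarith [hh.1]), ← hg]
      rw [← hBd] at this
      push_cast at this
      nlinarith [mul_le_mul_of_nonneg_right QB hw.le]
    by_cases hgb : b ≤ g
    · obtain ⟨a', b', h1, h2, h3, h4⟩ := ih (k - 1) (fun l => s (true :: l)) a b ε hab hε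
      refine ⟨a', b', h1, h2, h3, fun h hh => ?_⟩
      have := h4 h hh
      rw [cost_lt m s h (by linarith [hh.2]), ← hg]
      have e : (L m (k - 1) : ℝ) / 1000000 = A - 1 := by linarith
      rw [e] at this
      push_cast at this
      nlinarith [mul_le_mul_of_nonneg_right QA hw.le]
    push Not at hga hgb
    by_cases hx : Q * (b - a) ≤ A * (g - a)
    · obtain ⟨a', b', h1, h2, h3, h4⟩ := ih (k - 1) (fun l => s (true :: l)) a g ε hga hε
      refine ⟨a', b', h1, h2, by linarith, fun h hh => ?_⟩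
      have := h4 h hh
      rw [cost_lt m s h (by linarith [hh.2]), ← hg]
      have e : (L m (k - 1) : ℝ) / 1000000 = A - 1 := by linarith
      rw [e] at this
      push_cast at this
      nlinarith
    · push Not at hx
      obtain ⟨a', b', h1, h2, h3, h4⟩ := ih (k + 1) (fun l => s (false :: l)) g b ε hgb hε
      refine ⟨a', b', by linarith, h2, h3, fun h hh => ?_⟩
      have := h4 h hh
      rw [cost_gt m s h (by linarith [hh.1]), ← hg]
      rw [← hBd] at this
      push_cast at this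
      have hy : Q * (b - a) ≤ B * (b - a) - (B - k) * (g - a) := by
        refine le_of_mul_le_mul_left ?_ hA'
        nlinarith [mul_le_mul_of_nonneg_right hQ hw.le, mul_lt_mul_of_pos_left hx hB']
      nlinarith

lemma L_val : L 7 0 = 623590 := by decide +kernel

lemma pure_bound (t : List Bool → ℝ) : ∃ h ∈ Set.Icc (0 : ℝ) 1, h ∉ Set.range t ∧
    ENNReal.ofReal (6235 / 10000) ≤ payoff t h := by
  obtain ⟨a', b', h1, h2, h3, h4⟩ := lower 7 0 t 0 1 (9 / 100000) one_pos (by norm_num)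
  obtain ⟨h, hh, hm⟩ := ((Set.countable_range t).dense_compl ℝ).exists_between h2
  refine ⟨h, ⟨by linarith [hm.1], by linarith [hm.2]⟩, hh, ?_⟩
  refine le_trans (ENNReal.ofReal_le_ofReal ?_) (le_iSup (fun n => ENNReal.ofReal (cost n t h)) 7)
  have := h4 h hm
  rw [L_val] at this
  push_cast at this
  linarith

end Pool.Agent.H90.HighLow
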