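import Pool.Agent.H90.HopfDefs

namespace Pool.Agent.H90.Hopf

open Filter Topology Set
open scoped ContDiff

variable {d : ℕ}

noncomputable def PP (ε : ℝ) (p : Pt d) : ℝ := (‖p.2‖ ^ 2) ^ 2 * (1 + ε * p.1)

noncomputable def uu (p : Pt d) : ℝ := PP 1 p + expNegInvGlue p.1

noncomputable def vv (p : Pt d) : ℝ := PP (-1) p

lemma nsq_smooth : ContDiff ℝ ∞ fun p : Pt d => ‖p.2‖ ^ 2 := (contDiff_norm_sq ℝ).comp contDiff_snd

lemma PP_smooth (ε : ℝ) : ContDiff ℝ ∞ (PP ε : Pt d → ℝ) :=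
  (nsq_smooth.pow 2).mul (contDiff_const.add (contDiff_const.mul contDiff_fst))

lemma uu_smooth : ContDiff ℝ ∞ (uu : Pt d → ℝ) :=
  (PP_smooth 1).add (expNegInvGlue.contDiff.comp contDiff_fst)

lemma nsq_deriv (p : Pt d) : HasFDerivAt (fun p : Pt d => ‖p.2‖ ^ 2)
    (2 • (innerSL ℝ p.2).comp (ContinuousLinearMap.snd ℝ ℝ _)) p :=
  hasFDerivAt_snd.norm_sq

lemma PP_deriv (ε : ℝ) (p h : Pt d) : fderiv ℝ (PP ε) p h =
    ‖p.2‖ ^ 2 * (‖p.2‖ ^ 2 * (ε * h.1) + (1 + ε * p.1) * (4 * inner ℝ p.2 h.2)) := by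
  have h1 := ((nsq_deriv p).pow 2).mul
    ((hasFDerivAt_fst (𝕜 := ℝ) (p := p)).const_mul ε |>.const_add 1)
  have h2 : fderiv ℝ (PP ε) p = _ := h1.fderiv
  rw [h2]
  simp
  ring

lemma PP_second (ε : ℝ) (s : ℝ) (h : Pt d) :
    HasFDerivAt (fun q : Pt d => fderiv ℝ (PP ε) q h) (0 : Pt d →L[ℝ] ℝ) (s, 0) := by
  simp only [PP_deriv]
  have hK : DifferentiableAt ℝ (fun p : Pt d =>
      ‖p.2‖ ^ 2 * (ε * h.1) + (1 + ε * p.1) * (4 * inner ℝ p.2 h.2)) (s, 0) := by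
    refine ((nsq_deriv _).differentiableAt.mul_const _).add (DifferentiableAt.mul (by fun_prop) ?_)
    exact (differentiableAt_snd.inner ℝ (differentiableAt_const _)).const_mul _
  have := (nsq_deriv ((s, 0) : Pt d)).mul hK.hasFDerivAt
  refine this.congr_fderiv ?_
  ext <;> simp

lemma phi_diff : Differentiable ℝ expNegInvGlue :=
  (expNegInvGlue.contDiff (n := 1)).differentiable one_ne_zero

lemma dphi_diff : Differentiable ℝ (deriv expNegInvGlue) := by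
  have : ContDiff ℝ 1 (deriv expNegInvGlue) := (expNegInvGlue.contDiff (n := 2)).deriv'
  exact this.differentiable one_ne_zero

lemma left_zero {f : ℝ → ℝ} (hf : Differentiable ℝ f) (h : ∀ t ≤ 0, f t = 0) :
    ∀ t ≤ 0, deriv f t = 0 := by
  intro t ht
  have h1 : HasDerivWithinAt f (deriv f t) (Iic t) t := (hf t).hasDerivAt.hasDerivWithinAt
  have h2 : HasDerivWithinAt f 0 (Iic t) t :=
    (hasDerivWithinAt_const t (Iic t) (0 : ℝ)).congr (fun y hy => h y (le_trans hy ht)) (h t ht)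
  exact (uniqueDiffWithinAt_Iic t).eq_deriv _ h1 h2

lemma dphi_zero : ∀ t ≤ 0, deriv expNegInvGlue t = 0 :=
  left_zero phi_diff fun _ ht => expNegInvGlue.zero_of_nonpos ht

lemma dphi_pos {t : ℝ} (ht : 0 < t) : 0 < deriv expNegInvGlue t := by
  have e : expNegInvGlue =ᶠ[𝓝 t] fun x => Real.exp (-x⁻¹) := by
    filter_upwards [lt_mem_nhds ht] with x hx
    simp [expNegInvGlue, not_le.2 hx]
  have h := ((hasDerivAt_inv ht.ne').neg).exp
  rw [e.deriv_eq]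
  have h2 : deriv (fun x : ℝ => Real.exp (-x⁻¹)) t = _ := h.deriv
  rw [h2]
  have := Real.exp_pos (-t⁻¹)
  simp only [Pi.neg_apply, neg_neg]
  positivity

lemma uu_deriv (p h : Pt d) :
    fderiv ℝ uu p h = fderiv ℝ (PP 1) p h + deriv expNegInvGlue p.1 * h.1 := by
  have h1 := ((PP_smooth (d := d) 1).differentiable (by simp) p).hasFDerivAt.add
    ((phi_diff p.1).hasDerivAt.comp_hasFDerivAt p hasFDerivAt_fst)
  have h2 : fderiv ℝ uu p = _ := h1.fderiv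
  rw [h2]; simp

lemma hess_uu : hess (uu : Pt d → ℝ) (0, 0) = 0 := by
  ext i j
  simp only [hess, grad, Matrix.of_apply, uu_deriv, Matrix.zero_apply]
  have h1 := (PP_second 1 0 (bv (d := d) j)).add
    (((dphi_diff ((0, 0) : Pt d).1).hasDerivAt.comp_hasFDerivAt ((0, 0) : Pt d)
      hasFDerivAt_fst).mul_const (bv (d := d) j).1)
  have h2 : fderiv ℝ (fun q : Pt d => fderiv ℝ (PP 1) q (bv j) +
    deriv expNegInvGlue q.1 * (bv (d := d) j).1) (0, 0) = _ := h1.fderiv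
  rw [h2]
  simp [left_zero dphi_diff dphi_zero 0 le_rfl]

lemma hess_vv (s : ℝ) : hess (vv : Pt d → ℝ) (s, 0) = 0 := by
  ext i j
  simp only [hess, grad, Matrix.of_apply, Matrix.zero_apply]
  have h2 : fderiv ℝ (fun q : Pt d => fderiv ℝ vv q (bv j)) (s, 0) = 0 :=
    (PP_second (-1) s (bv j)).fderiv
  rw [h2]; rfl

lemma comp_pts {t s : ℝ} {y : EuclideanSpace ℝ (Fin d)} (ht : 0 ≤ t) (hs : 0 < s)
    (h : uu (t, y) = vv (s, y)) : t = 0 ∧ y = 0 := by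
  simp only [uu, vv, PP] at h
  have h1 := expNegInvGlue.nonneg t
  have h2 : 0 ≤ (‖y‖ ^ 2) ^ 2 := by positivity
  have h3 : (‖y‖ ^ 2) ^ 2 * (t + s) + expNegInvGlue t = 0 := by linarith
  have h4 : 0 ≤ (‖y‖ ^ 2) ^ 2 * (t + s) := by positivity
  constructor
  · exact le_antisymm (expNegInvGlue.zero_iff_nonpos.1 (by linarith)) ht
  · have h5 : (‖y‖ ^ 2) ^ 2 * (t + s) = 0 := by linarith
    have h6 := (mul_eq_zero.1 h5).resolve_right (by linarith)
    simpa using h6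

lemma glue : (fun p : Pt d => if 0 ≤ p.1 then vv p else uu (-p.1, p.2)) =
    fun p => PP (-1) p + expNegInvGlue (-p.1) := by
  funext p
  split_ifs with h
  · rw [expNegInvGlue.zero_of_nonpos (by linarith), add_zero, vv]
  · simp [uu, PP]

lemma freq (hd : 1 ≤ d) {f g : Pt d → ℝ} (h : ∀ p ∈ Om d, p.2 ≠ 0 → f p ≠ g p) :
    ¬ f =ᶠ[𝓝[closure (Om d)] 0] g := by
  intro hfg
  set y : EuclideanSpace ℝ (Fin d) := EuclideanSpace.single ⟨0, hd⟩ 1 with hy
  have hy1 : ‖y‖ = 1 := by simp [hy]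
  have hc : Tendsto (fun r : ℝ => ((r, r • y) : Pt d)) (𝓝[>] 0) (𝓝 0) := by
    have : Continuous fun r : ℝ => ((r, r • y) : Pt d) := by fun_prop
    have h2 := this.tendsto 0
    simp only [zero_smul] at h2
    exact h2.mono_left nhdsWithin_le_nhds
  have hm : ∀ᶠ r in 𝓝[>] (0 : ℝ), ((r, r • y) : Pt d) ∈ Om d ∧ r • y ≠ 0 := by
    filter_upwards [Ioo_mem_nhdsGT one_pos] with r hr
    refine ⟨⟨?_, hr.1, hr.2⟩, ?_⟩
    · simp only [norm_smul, hy1, mul_one, Real.norm_eq_abs, abs_of_pos hr.1]; exact hr.2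
    · rw [← norm_ne_zero_iff, norm_smul, hy1, mul_one, Real.norm_eq_abs, abs_of_pos hr.1]
      exact hr.1.ne'
  have h3 := (tendsto_nhdsWithin_iff.2 ⟨hc, hm.mono fun r hr => subset_closure hr.1⟩).eventually hfg
  obtain ⟨r, h4, h5⟩ := (hm.and h3).exists
  exact h _ h4.1 h4.2 h5

end Pool.Agent.H90.Hopf
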