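import Mathlib

/-! Principal curvatures of graphs over `ℝ × ℝ^d` and their elementary symmetric functions. -/

namespace Pool.Agent.H90.Hopf

/-- Points `(t, y)` of `ℝⁿ = ℝ × ℝ^d`, `n = d + 1`. -/
abbrev Pt (d : ℕ) := ℝ × EuclideanSpace ℝ (Fin d)

/-- The standard orthonormal basis: `none` is the `t` direction, `some i` the `y_i` direction. -/
noncomputable def bv {d : ℕ} : Option (Fin d) → Pt d
  | none => (1, 0)
  | some i => (0, EuclideanSpace.single i 1)

/-- First partial derivatives. -/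
noncomputable def grad {d : ℕ} (f : Pt d → ℝ) (p : Pt d) (i : Option (Fin d)) : ℝ :=
  fderiv ℝ f p (bv i)

/-- Second partial derivatives. -/
noncomputable def hess {d : ℕ} (f : Pt d → ℝ) (p : Pt d) :
    Matrix (Option (Fin d)) (Option (Fin d)) ℝ :=
  Matrix.of fun i j => fderiv ℝ (fun q => grad f q j) p (bv i)

/-- The shape operator `g⁻¹ h` of the graph of `f` for the upward unit normal, where
`g = I + ∇f ∇fᵀ` and `h = D²f / √(1 + |∇f|²)` are the two fundamental forms. -/
noncomputable def shape {d : ℕ} (f : Pt d → ℝ) (p : Pt d) :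
    Matrix (Option (Fin d)) (Option (Fin d)) ℝ :=
  (1 + Matrix.vecMulVec (grad f p) (grad f p))⁻¹ *
    ((Real.sqrt (1 + ∑ i, grad f p i ^ 2))⁻¹ • hess f p)

/-- `σ_m` of the principal curvatures (the eigenvalues of the shape operator, with
multiplicity). -/
noncomputable def sigma {d : ℕ} (m : ℕ) (f : Pt d → ℝ) (p : Pt d) : ℝ :=
  (shape f p).charpoly.roots.esymm m

/-- `Ω = {|y| < 1, 0 < t < 1}`. -/
def Om (d : ℕ) : Set (Pt d) := {p | ‖p.2‖ < 1 ∧ 0 < p.1 ∧ p.1 < 1}

end Pool.Agent.H90.Hopf
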