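import Mathlib

open Filter Topology

namespace Pool.Agent.H90.Hp

def Sh (ρ : ℂ → ℝ) (v : ℂ) (c : ℝ) : Prop := ∀ z, ρ (z + v) ≤ c * ρ z

structure Inv (ρ : ℂ → ℝ) (F : ℂ → ℂ) : Prop where
  one : ∀ z, 1 ≤ ρ z
  sh : ∀ w, Sh ρ w (Real.exp (√‖w‖))
  gr : ∀ p : ℕ, ∃ K, 0 ≤ K ∧ ∀ z, (1 + ‖z‖) ^ p ≤ K * ρ z
  diff : Differentiable ℂ F
  pg : ∃ (A : ℝ) (d : ℕ), 0 ≤ A ∧ ∀ z, ‖F z‖ ≤ A * (1 + ‖z‖) ^ d
  f0 : F 0 = 0
  f1 : 1 / 2 < ‖F 1‖
  bd : ∃ C, 0 < C ∧ C < 3 ∧ ∀ z, ‖F z‖ ≤ C * ρ z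

theorem pow_le_exp (p : ℕ) (t : ℝ) (ht : 0 ≤ t) : t ^ p ≤ p.factorial * Real.exp t := by
  have := Real.pow_div_factorial_le_exp t ht p
  rwa [div_le_iff₀ (by positivity), mul_comm] at this

theorem one_add_pow_le (p s : ℕ) : (1 + (s : ℝ)) ^ p ≤ p.factorial * 3 * 3 ^ s := by
  refine (pow_le_exp p _ (by positivity)).trans ?_
  have h1 : Real.exp (1 + s) = Real.exp 1 ^ (1 + s) := by
    rw [Real.exp_one_pow]; push_cast; rfl
  have h2 : Real.exp 1 ≤ 3 := by have := Real.exp_one_lt_d9; linarith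
  rw [h1, mul_assoc, ← pow_succ', add_comm s 1]
  gcongr

theorem aux (K : ℝ) (hK : 0 ≤ K) (D m : ℕ) :
    ∀ᶠ a : ℕ in atTop, ∀ r : ℕ, 1 ≤ r → K * (1 + ((m + r : ℕ) : ℝ)) ^ D ≤ (a : ℝ) ^ r := by
  set L := max 1 (K * (D.factorial * 3 * 3 ^ m)) with hL
  have hL1 : 1 ≤ L := le_max_left _ _
  filter_upwards [tendsto_natCast_atTop_atTop (R := ℝ) |>.eventually_ge_atTop (L * 3)] with a ha r hr
  calc K * (1 + ((m + r : ℕ) : ℝ)) ^ D ≤ K * (D.factorial * 3 * 3 ^ (m + r)) := by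
        gcongr; exact one_add_pow_le D (m + r)
    _ = K * (D.factorial * 3 * 3 ^ m) * 3 ^ r := by rw [pow_add]; ring
    _ ≤ L * 3 ^ r := by gcongr; exact le_max_right _ _
    _ ≤ L ^ r * 3 ^ r := by gcongr; exact le_self_pow₀ hL1 (by omega)
    _ = (L * 3) ^ r := by rw [mul_pow]
    _ ≤ (a : ℝ) ^ r := by gcongr

noncomputable def Gf (S : Finset ℤ) (d n : ℕ) (u : ℂ) : ℂ := ∏ i ∈ S, (1 - u / (i * n)) ^ d

theorem fac_le {i : ℤ} (hi : i ≠ 0) {n : ℕ} (hn : 1 ≤ n) (u : ℂ) :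
    ‖1 - u / (i * n)‖ ≤ 1 + ‖u‖ / n := by
  refine (norm_sub_le _ _).trans ?_
  rw [norm_one, norm_div, norm_mul, Complex.norm_natCast, Complex.norm_intCast]
  have h1 : (1 : ℝ) ≤ |(i : ℝ)| := by exact_mod_cast Int.one_le_abs hi
  have h2 : (0 : ℝ) < n := by exact_mod_cast hn
  gcongr
  nlinarith

theorem Gf_le (S : Finset ℤ) (hS : ∀ i ∈ S, i ≠ 0) (d : ℕ) {n : ℕ} (hn : 1 ≤ n) (u : ℂ) (M : ℝ)
    (h : 1 + ‖u‖ / n ≤ M) : ‖Gf S d n u‖ ≤ (M ^ d) ^ S.card := by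
  rw [Gf, norm_prod, ← Finset.prod_const]
  refine Finset.prod_le_prod (fun i _ => norm_nonneg _) fun i hi => ?_
  rw [norm_pow]
  exact pow_le_pow_left₀ (norm_nonneg _) ((fac_le (hS i hi) hn u).trans h) d

theorem shift_norm (z : ℂ) (j : ℤ) (n : ℕ) : ‖z + j * n‖ ≤ ‖z‖ + j.natAbs * n := by
  refine (norm_add_le _ _).trans ?_
  rw [norm_mul, Complex.norm_natCast, Complex.norm_intCast, Nat.cast_natAbs, Int.cast_abs]

theorem stepF {ρ : ℂ → ℝ} {F : ℂ → ℂ} (h : Inv ρ F) :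
    ∃ C', 0 < C' ∧ C' < 3 ∧ ∀ᶠ a : ℕ in atTop, ∃ F' : ℂ → ℂ, Differentiable ℂ F' ∧
      (∃ (A : ℝ) (d : ℕ), 0 ≤ A ∧ ∀ z, ‖F' z‖ ≤ A * (1 + ‖z‖) ^ d) ∧ F' 0 = 0 ∧ 1 / 2 < ‖F' 1‖ ∧
      ∀ (j : ℤ) (z : ℂ), ‖F' (z + j * ((a ^ 3 : ℕ) : ℂ))‖ ≤ C' * ((a : ℝ) ^ j.natAbs * ρ z) := by
  obtain ⟨A, d, hA, hF⟩ := h.pg
  obtain ⟨C, hC0, hC3, hC⟩ := h.bd
  set S : Finset ℤ := (Finset.Icc (-(3 * d : ℤ)) (3 * d)).erase 0 with hSd
  have hS : ∀ i ∈ S, i ≠ 0 := fun i hi => (Finset.mem_erase.1 hi).1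
  set c := S.card with hc
  set D := d + d + d * c with hD
  obtain ⟨K0, hK0, hK⟩ := h.gr (D + 1)
  set C' := (C + 3) / 2 with hC'
  have hC'0 : 0 < C' := by positivity
  set R := A * K0 / C' with hR
  have hR0 : 0 ≤ R := by positivity
  have hRC : A * K0 = R * C' := by rw [hR]; field_simp
  refine ⟨C', hC'0, by linarith, ?_⟩
  have t0 : Tendsto (fun a : ℕ => a ^ 3) atTop atTop := tendsto_pow_atTop (by norm_num)
  have t1 : Tendsto (fun a : ℕ => (((a ^ 3 : ℕ) : ℝ))⁻¹) atTop (𝓝 0) :=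
    tendsto_inv_atTop_nhds_zero_nat.comp t0
  have t2 : Tendsto (fun a : ℕ => (((a ^ 3 : ℕ) : ℂ))⁻¹) atTop (𝓝 0) :=
    tendsto_inv_atTop_nhds_zero_nat.comp t0
  have e1 : ∀ᶠ a : ℕ in atTop, C * ((1 + R * (((a ^ 3 : ℕ) : ℝ))⁻¹) ^ d) ^ c < C' := by
    have hc : Continuous fun t : ℝ => C * ((1 + R * t) ^ d) ^ c := by fun_prop
    have := (hc.tendsto 0).comp t1
    refine this.eventually (gt_mem_nhds ?_)
    simp; linarith
  have e2 : ∀ᶠ a : ℕ in atTop,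
      1 / 2 < ‖F 1 * ∏ i ∈ S, (1 - (1 / (i : ℂ)) * (((a ^ 3 : ℕ) : ℂ))⁻¹) ^ d‖ := by
    have hc : Continuous fun t : ℂ => ‖F 1 * ∏ i ∈ S, (1 - (1 / (i : ℂ)) * t) ^ d‖ := by fun_prop
    have := (hc.tendsto 0).comp t2
    refine this.eventually (lt_mem_nhds ?_)
    simpa using h.f1
  filter_upwards [e1, e2, aux R hR0 D 0, aux R hR0 D (3 * d), eventually_ge_atTop 1]
    with a e1 e2 e3 e4 ha
  set n := a ^ 3 with hn
  have hn1 : 1 ≤ n := Nat.one_le_pow _ _ ha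
  have hn1' : (1 : ℝ) ≤ n := by exact_mod_cast hn1
  have hρ : ∀ z, 0 ≤ ρ z := fun z => le_trans zero_le_one (h.one z)
  have hgl : ∀ z, ‖F z * Gf S d n z‖ ≤ A * (1 + ‖z‖) ^ D := by
    intro z
    have hz := norm_nonneg z
    have g1 := Gf_le S hS d hn1 z (1 + ‖z‖) (by gcongr; exact div_le_self hz hn1')
    rw [norm_mul]
    calc ‖F z‖ * ‖Gf S d n z‖ ≤ A * (1 + ‖z‖) ^ d * ((1 + ‖z‖) ^ d) ^ c :=
          mul_le_mul (hF z) g1 (norm_nonneg _) (by positivity)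
      _ = A * (1 + ‖z‖) ^ (d + d * c) := by rw [← pow_mul, pow_add]; ring
      _ ≤ A * (1 + ‖z‖) ^ D := by
          gcongr
          · linarith
          · omega
  refine ⟨fun u => F u * Gf S d n u, ?_, ⟨A, D, hA, hgl⟩, by simp [h.f0], ?_, ?_⟩
  · refine h.diff.mul ?_
    unfold Gf
    fun_prop
  · convert e2 using 3
    unfold Gf
    refine Finset.prod_congr rfl fun i _ => ?_
    rw [div_mul_eq_div_div, div_eq_mul_inv (1 / (i : ℂ))]
  intro j z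
  have hz := norm_nonneg z
  by_cases hj : j = 0
  · subst hj
    simp only [Int.cast_zero, zero_mul, add_zero, Int.natAbs_zero, pow_zero, one_mul]
    by_cases hzR : ‖z‖ ≤ R
    · have g1 := Gf_le S hS d hn1 z (1 + R * (n : ℝ)⁻¹) (by rw [div_eq_mul_inv]; gcongr)
      rw [norm_mul]
      calc ‖F z‖ * ‖Gf S d n z‖ ≤ C * ρ z * ((1 + R * (n : ℝ)⁻¹) ^ d) ^ c :=
            mul_le_mul (hC z) g1 (norm_nonneg _) (mul_nonneg hC0.le (hρ z))
        _ = C * ((1 + R * (n : ℝ)⁻¹) ^ d) ^ c * ρ z := by ring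
        _ ≤ C' * ρ z := mul_le_mul_of_nonneg_right e1.le (hρ z)
    · refine (hgl z).trans ?_
      have g2 : (1 + ‖z‖) * (A * (1 + ‖z‖) ^ D) ≤ (1 + ‖z‖) * (C' * ρ z) := by
        calc (1 + ‖z‖) * (A * (1 + ‖z‖) ^ D) = A * (1 + ‖z‖) ^ (D + 1) := by ring
          _ ≤ A * (K0 * ρ z) := mul_le_mul_of_nonneg_left (hK z) hA
          _ = R * (C' * ρ z) := by rw [← mul_assoc, hRC]; ring
          _ ≤ (1 + ‖z‖) * (C' * ρ z) :=
            mul_le_mul_of_nonneg_right (by linarith) (mul_nonneg hC'0.le (hρ z))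
      exact le_of_mul_le_mul_left g2 (by positivity)
  set s := j.natAbs with hs
  have hs1 : 1 ≤ s := Int.natAbs_pos.2 hj
  have hs0 : (0 : ℝ) ≤ s := Nat.cast_nonneg s
  set u := z + j * (n : ℂ) with hu
  have hu1 : ‖u‖ ≤ ‖z‖ + s * n := shift_norm z j n
  set M := (1 + ‖z‖) * (1 + (s : ℝ)) with hM
  have hM1 : 1 ≤ M := by nlinarith
  have hM2 : 1 + ‖u‖ / n ≤ M := by
    have : ‖u‖ / n ≤ ‖z‖ + s := by
      rw [div_le_iff₀ (by linarith)]; nlinarith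
    nlinarith
  have hFu : ‖F u‖ ≤ A * (M * n) ^ d := by
    refine (hF u).trans ?_
    gcongr
    have : 0 ≤ ‖z‖ * s * n := by positivity
    have : ‖z‖ ≤ ‖z‖ * n := le_mul_of_one_le_right hz hn1'
    rw [hM]; nlinarith
  have hMD : A * M ^ D ≤ C' * (R * (1 + (s : ℝ)) ^ D * ρ z) := by
    have g1 : (1 + ‖z‖) ^ D ≤ K0 * ρ z :=
      (pow_le_pow_right₀ (by linarith) (Nat.le_succ D)).trans (hK z)
    calc A * M ^ D = A * (1 + ‖z‖) ^ D * (1 + (s : ℝ)) ^ D := by rw [hM, mul_pow]; ring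
      _ ≤ A * (K0 * ρ z) * (1 + (s : ℝ)) ^ D := by gcongr
      _ = C' * (R * (1 + (s : ℝ)) ^ D * ρ z) := by rw [← mul_assoc, hRC]; ring
  show ‖F u * Gf S d n u‖ ≤ _
  rw [norm_mul]
  by_cases hjS : j ∈ S
  · have g1 : ‖Gf S d n u‖ ≤ (M / n) ^ d * (M ^ d) ^ c := by
      rw [Gf, ← Finset.mul_prod_erase S _ hjS, norm_mul, norm_pow]
      refine mul_le_mul ?_ ?_ (norm_nonneg _) (by positivity)
      · refine pow_le_pow_left₀ (norm_nonneg _) ?_ d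
        have hjc : (j : ℂ) ≠ 0 := by exact_mod_cast hj
        have hnc : (n : ℂ) ≠ 0 := by exact_mod_cast (by omega : n ≠ 0)
        have : 1 - u / (j * n) = -(z / (j * n)) := by rw [hu]; field_simp; ring
        rw [this, norm_neg, norm_div, norm_mul, Complex.norm_natCast, Complex.norm_intCast]
        have h1 : (1 : ℝ) ≤ |(j : ℝ)| := by exact_mod_cast Int.one_le_abs hj
        gcongr
        · nlinarith
        · nlinarith
      · refine (Gf_le (S.erase j) (fun i hi => hS i (Finset.mem_of_mem_erase hi)) d hn1 u M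
          hM2).trans ?_
        exact pow_le_pow_right₀ (one_le_pow₀ hM1) Finset.card_erase_le
    calc ‖F u‖ * ‖Gf S d n u‖ ≤ A * (M * n) ^ d * ((M / n) ^ d * (M ^ d) ^ c) :=
          mul_le_mul hFu g1 (norm_nonneg _) (by positivity)
      _ = A * M ^ D := by
          rw [hD, pow_add, pow_add, pow_mul, mul_pow, div_pow]
          field_simp
      _ ≤ C' * (R * (1 + (s : ℝ)) ^ D * ρ z) := hMD
      _ ≤ C' * ((a : ℝ) ^ s * ρ z) := by
          have := e3 s hs1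
          rw [zero_add] at this
          have := hρ z
          gcongr
  · have hs3 : 3 * d + 1 ≤ s := by
      by_contra hh
      apply hjS
      rw [hSd, Finset.mem_erase, Finset.mem_Icc]
      omega
    obtain ⟨r, hr⟩ : ∃ r, s = 3 * d + r := ⟨s - 3 * d, by omega⟩
    have g1 := Gf_le S hS d hn1 u M hM2
    have g2 := e4 r (by omega)
    rw [← hr] at g2
    calc ‖F u‖ * ‖Gf S d n u‖ ≤ A * (M * n) ^ d * (M ^ d) ^ c :=
          mul_le_mul hFu g1 (norm_nonneg _) (by positivity)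
      _ = A * M ^ (d + d * c) * (a : ℝ) ^ (3 * d) := by
          rw [pow_add, pow_mul, mul_pow, hn, pow_mul]; push_cast; ring
      _ ≤ A * M ^ D * (a : ℝ) ^ (3 * d) := by
          gcongr
          omega
      _ ≤ C' * (R * (1 + (s : ℝ)) ^ D * ρ z) * (a : ℝ) ^ (3 * d) := by gcongr
      _ ≤ C' * ((a : ℝ) ^ r * ρ z) * (a : ℝ) ^ (3 * d) := by
          have := hρ z
          gcongr
      _ = C' * ((a : ℝ) ^ s * ρ z) := by rw [hr, pow_add]; ring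

theorem step {ρ : ℂ → ℝ} {F : ℂ → ℂ} (h : Inv ρ F) (k : ℕ) :
    ∃ (a : ℕ) (ρ' : ℂ → ℝ) (F' : ℂ → ℂ), k ≤ a ∧ Inv ρ' F' ∧ (∀ z, ρ' z ≤ ρ z) ∧
      (∀ v c, 0 ≤ c → Sh ρ v c → Sh ρ' v c) ∧ Sh ρ' ((a ^ 3 : ℕ) : ℂ) a ∧
      Sh ρ' (-((a ^ 3 : ℕ) : ℂ)) a := by
  obtain ⟨C', hC0, hC3, he⟩ := stepF h
  obtain ⟨a, ⟨F', d1, d2, d3, d4, d5⟩, hk, h3⟩ :=
    (he.and ((eventually_ge_atTop k).and (eventually_ge_atTop 3))).exists
  set n := a ^ 3 with hn
  have ha3 : (3 : ℝ) ≤ a := by exact_mod_cast h3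
  have hn1 : (1 : ℝ) ≤ n := by exact_mod_cast Nat.one_le_pow _ _ (by omega : 0 < a)
  have hρ : ∀ z, 0 ≤ ρ z := fun z => le_trans zero_le_one (h.one z)
  let ρ' : ℂ → ℝ := fun z => ⨅ j : ℤ, (a : ℝ) ^ j.natAbs * ρ (z - j * n)
  have up : ∀ z (j : ℤ), ρ' z ≤ (a : ℝ) ^ j.natAbs * ρ (z - j * n) := fun z j =>
    ciInf_le ⟨0, by rintro _ ⟨j, rfl⟩; exact mul_nonneg (by positivity) (hρ _)⟩ j
  have lo : ∀ (x c : ℝ) z, 0 ≤ c → (∀ j : ℤ, x ≤ c * ((a : ℝ) ^ j.natAbs * ρ (z - j * n))) →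
      x ≤ c * ρ' z := by
    intro x c z hc hx
    rw [Real.mul_iInf_of_nonneg hc]
    exact le_ciInf hx
  have pres : ∀ v c, 0 ≤ c → Sh ρ v c → Sh ρ' v c := by
    intro v c hc hv z
    refine lo _ _ _ hc fun j => (up _ j).trans ?_
    have := hv (z - j * n)
    rw [add_sub_right_comm, mul_left_comm]
    gcongr
  refine ⟨a, ρ', F', hk, ⟨?_, fun w => pres _ _ (Real.exp_pos _).le (h.sh w), ?_, d1, d2, d3, d4,
    C', hC0, hC3, ?_⟩, ?_, pres, ?_, ?_⟩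
  · intro z
    have := lo 1 1 z zero_le_one fun j => by
      rw [one_mul]
      exact one_le_mul_of_one_le_of_one_le (one_le_pow₀ (by linarith)) (h.one _)
    rwa [one_mul] at this
  · intro p
    obtain ⟨K, hK0, hK⟩ := h.gr p
    refine ⟨K * (p.factorial * 3) * (n : ℝ) ^ p, by positivity, fun z => lo _ _ _ (by positivity)
      fun j => ?_⟩
    have g1 : ‖z‖ ≤ ‖z - j * n‖ + j.natAbs * n := by
      have := shift_norm (z - j * n) j n
      rwa [sub_add_cancel] at this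
    set y := ‖z - j * n‖
    have hy : 0 ≤ y := norm_nonneg _
    set s := j.natAbs
    have hs : (0 : ℝ) ≤ s := Nat.cast_nonneg _
    have g2 : 1 + ‖z‖ ≤ (1 + y) * (1 + s) * n := by
      have : 0 ≤ y * s * n := by positivity
      have : y ≤ y * n := le_mul_of_one_le_right hy hn1
      nlinarith
    have := hρ (z - j * n)
    calc (1 + ‖z‖) ^ p ≤ ((1 + y) * (1 + s) * n) ^ p := by gcongr
      _ = (1 + y) ^ p * (1 + (s : ℝ)) ^ p * (n : ℝ) ^ p := by rw [mul_pow, mul_pow]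
      _ ≤ (K * ρ (z - j * n)) * (p.factorial * 3 * (a : ℝ) ^ s) * (n : ℝ) ^ p := by
          gcongr
          · exact hK _
          · refine (one_add_pow_le p s).trans ?_
            gcongr
      _ = _ := by ring
  · intro z
    refine lo _ _ _ hC0.le fun j => ?_
    have := d5 j (z - j * n)
    rwa [sub_add_cancel] at this
  · intro z
    simpa using up z 0
  · intro z
    refine lo _ _ _ (by positivity) fun j => (up _ (j + 1)).trans ?_
    have e : z + (n : ℂ) - ((j + 1 : ℤ) : ℂ) * n = z - j * n := by push_cast; ring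
    rw [e, ← mul_assoc, ← pow_succ']
    have := hρ (z - j * n)
    gcongr
    · linarith
    · omega
  · intro z
    refine lo _ _ _ (by positivity) fun j => (up _ (j - 1)).trans ?_
    have e : z + -(n : ℂ) - ((j - 1 : ℤ) : ℂ) * n = z - j * n := by push_cast; ring
    rw [e, ← mul_assoc, ← pow_succ']
    have := hρ (z - j * n)
    gcongr
    · linarith
    · omega

theorem inv0 : Inv (fun z => Real.exp (√‖z‖)) (fun z => z) := by
  refine ⟨fun z => Real.one_le_exp (Real.sqrt_nonneg _), ?_, ?_, differentiable_id,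
    ⟨1, 1, zero_le_one, fun z => by simp⟩, rfl, by norm_num, 2, by norm_num, by norm_num, ?_⟩
  · intro w z
    rw [← Real.exp_add]
    refine Real.exp_le_exp.2 ?_
    rw [Real.sqrt_le_left (by positivity)]
    have := norm_add_le z w
    have h1 := Real.sq_sqrt (norm_nonneg z)
    have h2 := Real.sq_sqrt (norm_nonneg w)
    have : 0 ≤ √‖w‖ * √‖z‖ := by positivity
    nlinarith
  · intro p
    refine ⟨(2 * p).factorial * Real.exp 1, by positivity, fun z => ?_⟩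
    have h1 := Real.sq_sqrt (norm_nonneg z)
    have h0 := Real.sqrt_nonneg ‖z‖
    calc (1 + ‖z‖) ^ p ≤ ((1 + √‖z‖) ^ 2) ^ p := by gcongr; nlinarith
      _ = (1 + √‖z‖) ^ (2 * p) := by rw [pow_mul]
      _ ≤ (2 * p).factorial * Real.exp (1 + √‖z‖) := pow_le_exp _ _ (by positivity)
      _ = _ := by rw [Real.exp_add]; ring
  · intro z
    have h1 := Real.sq_sqrt (norm_nonneg z)
    have := pow_le_exp 2 (√‖z‖) (Real.sqrt_nonneg _)
    rw [h1] at this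
    simpa using this

end Pool.Agent.H90.Hp
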