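import Mathlib

namespace Pool.Agent.H90.Hp

noncomputable abbrev XX := lp (fun _ : ℕ × ℂ => ℂ) ⊤

noncomputable def wop (σ : ℕ × ℂ → ℕ × ℂ) (c : ℕ × ℂ → ℂ) (K : ℝ) (h : ∀ i, ‖c i‖ ≤ K) :
    XX →L[ℂ] XX :=
  LinearMap.mkContinuous
    { toFun := fun H => ⟨fun i => c i * H (σ i), memℓp_infty ⟨K * ‖H‖, by
        rintro _ ⟨i, rfl⟩
        show ‖c i * H (σ i)‖ ≤ _
        rw [norm_mul]
        exact mul_le_mul (h i) (lp.norm_apply_le_norm (by simp) H _) (norm_nonneg _)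
          ((norm_nonneg _).trans (h i))⟩⟩
      map_add' := fun H G => by
        ext i
        show c i * (H + G) (σ i) = c i * H (σ i) + c i * G (σ i)
        rw [lp.coeFn_add, Pi.add_apply, mul_add]
      map_smul' := fun a H => by
        ext i
        show c i * (a • H) (σ i) = a * (c i * H (σ i))
        rw [lp.coeFn_smul, Pi.smul_apply, smul_eq_mul]; ring } K (fun H => by
      have hK : 0 ≤ K := (norm_nonneg _).trans (h (0, 0))
      refine lp.norm_le_of_forall_le (by positivity) fun i => ?_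
      show ‖c i * H (σ i)‖ ≤ _
      rw [norm_mul]
      exact mul_le_mul (h i) (lp.norm_apply_le_norm (by simp) H _) (norm_nonneg _) hK)

theorem wop_apply (σ c K h) (H : XX) (i) : wop σ c K h H i = c i * H (σ i) := rfl

theorem norm_le_of (W : XX →L[ℂ] XX) (σ : ℕ × ℂ → ℕ × ℂ) (c : ℕ × ℂ → ℂ) (K : ℝ)
    (h : ∀ i, ‖c i‖ ≤ K) (hW : ∀ H i, W H i = c i * H (σ i)) : ‖W‖ ≤ K := by
  have hK : 0 ≤ K := (norm_nonneg _).trans (h (0, 0))
  refine W.opNorm_le_bound hK fun H => ?_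
  refine lp.norm_le_of_forall_le (by positivity) fun i => ?_
  rw [hW, norm_mul]
  exact mul_le_mul (h i) (lp.norm_apply_le_norm (by simp) H _) (norm_nonneg _) hK

section Cl
variable {E : Type} [NormedRing E] [NormedAlgebra ℂ E] [CompleteSpace E]

def BT (s : Set E) (_ : ∀ a ∈ s, ∀ b ∈ s, a * b = b * a) : Type :=
  (Algebra.adjoin ℂ s).topologicalClosure

variable (s : Set E) (hs : ∀ a ∈ s, ∀ b ∈ s, a * b = b * a)

noncomputable instance : NormedCommRing (BT s hs) :=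
  { (show NormedRing (BT s hs) from
      (inferInstance : NormedRing (Algebra.adjoin ℂ s).topologicalClosure)) with
    mul_comm := fun x y => by
      have h1 : ∀ a ∈ Algebra.adjoin ℂ s, ∀ b ∈ Algebra.adjoin ℂ s, a * b = b * a := by
        intro a ha b hb
        exact Algebra.commute_of_mem_adjoin_of_forall_mem_commute hb fun c hc =>
          (Algebra.commute_of_mem_adjoin_of_forall_mem_commute ha fun d hd =>
            (hs c hc d hd : Commute c d)).symm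
      have h2 : ∀ a ∈ Algebra.adjoin ℂ s, ∀ b ∈ (Algebra.adjoin ℂ s).topologicalClosure,
          a * b = b * a := by
        intro a ha b hb
        exact closure_minimal (s := (Algebra.adjoin ℂ s : Set E)) (t := {b | a * b = b * a})
          (fun b hb => h1 a ha b hb) (isClosed_eq (by fun_prop) (by fun_prop)) hb
      apply Subtype.ext
      exact closure_minimal (s := (Algebra.adjoin ℂ s : Set E)) (t := {a | a * y.1 = y.1 * a})
          (fun a ha => h2 a ha y.1 y.2) (isClosed_eq (by fun_prop) (by fun_prop)) x.2 }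

noncomputable instance : NormedAlgebra ℂ (BT s hs) :=
  (inferInstance : NormedAlgebra ℂ (Algebra.adjoin ℂ s).topologicalClosure)

instance : CompleteSpace (BT s hs) :=
  (Subalgebra.isClosed_topologicalClosure (Algebra.adjoin ℂ s)).completeSpace_coe

noncomputable def BT.val : BT s hs →ₐ[ℂ] E := (Algebra.adjoin ℂ s).topologicalClosure.val

theorem BT.norm_val (x : BT s hs) : ‖BT.val s hs x‖ = ‖x‖ := rfl

theorem BT.cont : Continuous (BT.val s hs) := continuous_subtype_val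

theorem BT.inj : Function.Injective (BT.val s hs) := Subtype.val_injective

theorem BT.ex {a : E} (ha : a ∈ s) : ∃ x : BT s hs, BT.val s hs x = a :=
  ⟨⟨a, (Algebra.adjoin ℂ s).le_topologicalClosure (Algebra.subset_adjoin ha)⟩, rfl⟩

end Cl

theorem exists_B0 {XX : Type} [NormedAddCommGroup XX] [NormedSpace ℂ XX] [CompleteSpace XX]
    (T S N : XX →L[ℂ] XX) (H0 : XX) (hTS : T * S = 1) (hST : S * T = 1)
    (hTN : T * N = N * T) (hSN : S * N = N * S) (h0 : T H0 = H0 + N H0) (hN0 : N H0 ≠ 0)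
    (hN : ∀ l : ℕ, ‖N ^ l‖ ≤ Real.exp 1 ^ l / l.factorial)
    (ha : ∀ k : ℕ, ∃ a : ℕ, k ≤ a ∧ ‖T ^ (a ^ 3)‖ ≤ a ∧ ‖S ^ (a ^ 3)‖ ≤ a) :
    ∃ (B : Type) (_ : NormedCommRing B) (_ : NormedAlgebra ℂ B) (_ : CompleteSpace B) (u : Bˣ),
      (u : B) ≠ 1 ∧ (∀ l : ℕ, ‖((u : B) - 1) ^ l‖ ≤ Real.exp 1 ^ l / l.factorial) ∧
      ∀ k : ℕ, ∃ a : ℕ, k ≤ a ∧ ‖((u ^ ((a ^ 3 : ℕ) : ℤ) : Bˣ) : B)‖ ≤ a ∧
        ‖((u ^ (-((a ^ 3 : ℕ) : ℤ)) : Bˣ) : B)‖ ≤ a := by
  have hs : ∀ a ∈ ({T, S, N} : Set (XX →L[ℂ] XX)), ∀ b ∈ ({T, S, N} : Set (XX →L[ℂ] XX)),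
      a * b = b * a := by
    intro a ha b hb
    simp only [Set.mem_insert_iff, Set.mem_singleton_iff] at ha hb
    rcases ha with rfl | rfl | rfl <;> rcases hb with rfl | rfl | rfl <;>
      first | rfl | exact hTS.trans hST.symm | exact hST.trans hTS.symm | exact hTN | exact hSN
            | exact hTN.symm | exact hSN.symm
  obtain ⟨t, ht⟩ := BT.ex _ hs (a := T) (by simp)
  obtain ⟨r, hr⟩ := BT.ex _ hs (a := S) (by simp)
  obtain ⟨q, hq⟩ := BT.ex _ hs (a := N) (by simp)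
  let I : Ideal (BT _ hs) :=
    { carrier := {b | BT.val _ hs b H0 = 0}
      add_mem' := fun {a b} ha hb => by
        simp only [Set.mem_setOf_eq] at ha hb ⊢
        rw [map_add, ContinuousLinearMap.add_apply, ha, hb, add_zero]
      zero_mem' := by simp
      smul_mem' := fun c b hb => by
        simp only [Set.mem_setOf_eq, smul_eq_mul] at hb ⊢
        rw [map_mul, ContinuousLinearMap.mul_apply, hb, map_zero] }
  haveI hI : IsClosed (I : Set (BT _ hs)) :=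
    isClosed_eq ((ContinuousLinearMap.apply ℂ XX H0).continuous.comp (BT.cont _ hs))
      continuous_const
  have htr : t * r = 1 := BT.inj _ hs (by rw [map_mul, ht, hr, hTS, map_one])
  let π := Ideal.Quotient.mk I
  let u : (BT _ hs ⧸ I)ˣ := ⟨π t, π r, by rw [← map_mul, htr, map_one],
    by rw [← map_mul, mul_comm, htr, map_one]⟩
  have hq1 : π t - 1 = π q := by
    rw [← map_one π, ← map_sub, Ideal.Quotient.eq]
    show BT.val _ hs (t - 1 - q) H0 = 0
    rw [map_sub, map_sub, ht, hq, map_one]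
    simp [h0]
  have hnorm : ∀ (b : BT _ hs) (l : ℕ), ‖(π b) ^ l‖ ≤ ‖(BT.val _ hs b) ^ l‖ := by
    intro b l
    rw [← map_pow, ← map_pow, BT.norm_val]
    exact Ideal.Quotient.norm_mk_le I _
  refine ⟨BT _ hs ⧸ I, inferInstance, inferInstance, inferInstance, u, ?_, ?_, ?_⟩
  · intro h
    have h1 : π q = 0 := by rw [← hq1]; exact sub_eq_zero.2 h
    rw [Ideal.Quotient.eq_zero_iff_mem] at h1
    have h2 : BT.val _ hs q H0 = 0 := h1
    rw [hq] at h2
    exact hN0 h2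
  · intro l
    show ‖(π t - 1) ^ l‖ ≤ _
    rw [hq1]
    refine (hnorm q l).trans ?_
    rw [hq]; exact hN l
  · intro k
    obtain ⟨a, h1, h2, h3⟩ := ha k
    refine ⟨a, h1, ?_, ?_⟩
    · rw [zpow_natCast, Units.val_pow_eq_pow_val]
      refine (hnorm t _).trans ?_
      rw [ht]; exact h2
    · rw [zpow_neg, zpow_natCast, ← inv_pow, Units.val_pow_eq_pow_val]
      refine (hnorm r _).trans ?_
      rw [hr]; exact h3

theorem exists_B (ω : ℂ → ℝ) (hω : ∀ z, 0 < ω z) (K : ℝ) (h1 : ∀ z, ω (z + 1) ≤ K * ω z)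
    (h2 : ∀ z, ω (z + (-1)) ≤ K * ω z)
    (ha : ∀ k : ℕ, ∃ a : ℕ, k ≤ a ∧ (∀ z, ω (z + ((a ^ 3 : ℕ) : ℂ)) ≤ a * ω z) ∧
      ∀ z, ω (z + (-((a ^ 3 : ℕ) : ℂ))) ≤ a * ω z)
    (G : ℕ → ℂ → ℂ) (hG : ∀ m z, G (m + 1) z = G m (z + 1) - G m z) (C : ℝ)
    (hb : ∀ m z, ‖G m z‖ ≤ C * (Real.exp 1 ^ m / m.factorial * ω z)) (hG0 : G 1 0 ≠ 0) :
    ∃ (B : Type) (_ : NormedCommRing B) (_ : NormedAlgebra ℂ B) (_ : CompleteSpace B) (u : Bˣ),
      (u : B) ≠ 1 ∧ (∀ l : ℕ, ‖((u : B) - 1) ^ l‖ ≤ Real.exp 1 ^ l / l.factorial) ∧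
      ∀ k : ℕ, ∃ a : ℕ, k ≤ a ∧ ‖((u ^ ((a ^ 3 : ℕ) : ℤ) : Bˣ) : B)‖ ≤ a ∧
        ‖((u ^ (-((a ^ 3 : ℕ) : ℤ)) : Bˣ) : B)‖ ≤ a := by
  have hωc : ∀ z, (ω z : ℂ) ≠ 0 := fun z => by exact_mod_cast (hω z).ne'
  have hc : ∀ (v : ℂ) (L : ℝ), (∀ z, ω (z + v) ≤ L * ω z) →
      ∀ i : ℕ × ℂ, ‖(ω (i.2 + v) : ℂ) / (ω i.2 : ℂ)‖ ≤ L := by
    intro v L h i
    rw [norm_div, Complex.norm_real, Complex.norm_real, Real.norm_of_nonneg (hω _).le,
      Real.norm_of_nonneg (hω _).le, div_le_iff₀ (hω _)]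
    exact h _
  set b : ℕ → ℝ := fun m => Real.exp 1 ^ m / m.factorial with hbd
  have hbpos : ∀ m, 0 < b m := fun m => by positivity
  have hbc : ∀ m, (b m : ℂ) ≠ 0 := fun m => by exact_mod_cast (hbpos m).ne'
  have hbm : ∀ l, ∀ i : ℕ × ℂ, ‖(b (i.1 + l) : ℂ) / (b i.1 : ℂ)‖ ≤ b l := by
    intro l i
    rw [norm_div, Complex.norm_real, Complex.norm_real, Real.norm_of_nonneg (hbpos _).le,
      Real.norm_of_nonneg (hbpos _).le, div_le_iff₀ (hbpos _)]
    simp only [hbd]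
    rw [div_mul_div_comm, ← pow_add, add_comm l i.1]
    refine div_le_div_of_nonneg_left (by positivity) (by positivity) ?_
    have := Nat.factorial_mul_factorial_dvd_factorial_add l i.1
    rw [add_comm l i.1] at this
    exact_mod_cast Nat.le_of_dvd (Nat.factorial_pos _) this
  let T := wop (fun i => (i.1, i.2 + 1)) (fun i => (ω (i.2 + 1) : ℂ) / (ω i.2 : ℂ)) K (hc 1 K h1)
  let S := wop (fun i => (i.1, i.2 + (-1))) (fun i => (ω (i.2 + (-1)) : ℂ) / (ω i.2 : ℂ)) K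
    (hc (-1) K h2)
  let N := wop (fun i => (i.1 + 1, i.2)) (fun i => (b (i.1 + 1) : ℂ) / (b i.1 : ℂ)) (b 1) (hbm 1)
  have hpow : ∀ (W : XX →L[ℂ] XX) (v : ℂ), (∀ (H : XX) i, W H i =
      (ω (i.2 + v) : ℂ) / (ω i.2 : ℂ) * H (i.1, i.2 + v)) → ∀ (n : ℕ) (H : XX) i, (W ^ n) H i =
      (ω (i.2 + n * v) : ℂ) / (ω i.2 : ℂ) * H (i.1, i.2 + n * v) := by
    intro W v hW n
    induction n with
    | zero => intro H i; simp [hωc]
    | succ n ih =>
      intro H i
      rw [pow_succ, ContinuousLinearMap.mul_apply, ih, hW]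
      have : i.2 + n * v + v = i.2 + ((n + 1 : ℕ) : ℂ) * v := by push_cast; ring
      simp only [this]
      have := hωc (i.2 + n * v)
      field_simp
  have hNpow : ∀ (n : ℕ) (H : XX) i, (N ^ n) H i =
      (b (i.1 + n) : ℂ) / (b i.1 : ℂ) * H (i.1 + n, i.2) := by
    intro n
    induction n with
    | zero => intro H i; simp [hbc]
    | succ n ih =>
      intro H i
      rw [pow_succ, ContinuousLinearMap.mul_apply, ih, wop_apply]
      have := hbc (i.1 + n)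
      simp only [add_assoc]
      field_simp
  let H0 : XX := ⟨fun i => G i.1 i.2 / ((b i.1 : ℂ) * (ω i.2 : ℂ)), memℓp_infty ⟨C, by
    rintro _ ⟨i, rfl⟩
    show ‖G i.1 i.2 / ((b i.1 : ℂ) * (ω i.2 : ℂ))‖ ≤ C
    rw [norm_div, norm_mul, Complex.norm_real, Complex.norm_real, Real.norm_of_nonneg (hω _).le,
      Real.norm_of_nonneg (hbpos _).le, div_le_iff₀ (mul_pos (hbpos _) (hω _))]
    exact hb _ _⟩⟩
  have H0a : ∀ i, H0 i = G i.1 i.2 / ((b i.1 : ℂ) * (ω i.2 : ℂ)) := fun i => rfl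
  refine exists_B0 T S N H0 ?_ ?_ ?_ ?_ ?_ ?_ ?_ ?_
  · ext H i
    simp only [T, S, ContinuousLinearMap.mul_apply, wop_apply, ContinuousLinearMap.one_apply,
      add_neg_cancel_right]
    have := hωc i.2
    have := hωc (i.2 + 1)
    field_simp
  · ext H i
    simp only [T, S, ContinuousLinearMap.mul_apply, wop_apply, ContinuousLinearMap.one_apply,
      neg_add_cancel_right]
    have := hωc i.2
    have := hωc (i.2 + -1)
    field_simp
  · ext H i
    simp only [T, N, ContinuousLinearMap.mul_apply, wop_apply]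
    ring
  · ext H i
    simp only [S, N, ContinuousLinearMap.mul_apply, wop_apply]
    ring
  · ext i
    rw [lp.coeFn_add, Pi.add_apply]
    simp only [T, N, wop_apply, H0a, hG]
    have := hωc i.2
    have := hωc (i.2 + 1)
    have := hbc i.1
    have := hbc (i.1 + 1)
    field_simp
    ring
  · intro h
    have h3 : N H0 (0, 0) = 0 := by rw [h]; rfl
    simp only [N, wop_apply, H0a] at h3
    have := hωc 0
    have := hbc 0
    have := hbc (0 + 1)
    apply hG0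
    simpa [*] using h3
  · intro l
    exact norm_le_of _ (fun i => (i.1 + l, i.2)) _ _ (hbm l) (hNpow l)
  · intro k
    obtain ⟨a, e1, e2, e3⟩ := ha k
    refine ⟨a, e1, ?_, ?_⟩
    · refine norm_le_of _ (fun i => (i.1, i.2 + ((a ^ 3 : ℕ) : ℂ))) _ _ (hc _ _ e2) fun H i => ?_
      rw [hpow T 1 (fun H i => rfl), mul_one]
    · refine norm_le_of _ (fun i => (i.1, i.2 + -((a ^ 3 : ℕ) : ℂ))) _ _ (hc _ _ e3) fun H i => ?_
      rw [hpow S (-1) (fun H i => rfl), mul_neg_one]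

end Pool.Agent.H90.Hp
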