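import Mathlib

open WeakDual

set_option linter.unusedSectionVars false

namespace Pool.Agent.H90.Hp

section Abs
variable {B : Type} [NormedCommRing B] [NormedAlgebra ℂ B] [CompleteSpace B]

theorem char_one (T : B) (hN : ∀ l : ℕ, ‖(T - 1) ^ l‖ ≤ Real.exp 1 ^ l / l.factorial)
    (θ : characterSpace ℂ B) : θ T = 1 := by
  by_contra hne
  have hδ : 0 < ‖θ T - 1‖ := norm_pos_iff.2 (sub_ne_zero.2 hne)
  set δ := ‖θ T - 1‖ with hδd
  set K := ‖CharacterSpace.toCLM θ‖
  have h1 : ∀ l : ℕ, 1 ≤ K * ((Real.exp 1 / δ) ^ l / l.factorial) := by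
    intro l
    have e1 : δ ^ l = ‖CharacterSpace.toCLM θ ((T - 1) ^ l)‖ := by
      have : CharacterSpace.toCLM θ ((T - 1) ^ l) = (θ T - 1) ^ l := by
        show θ ((T - 1) ^ l) = _
        rw [map_pow, map_sub, map_one]
      rw [this, norm_pow]
    have e2 : δ ^ l ≤ K * (Real.exp 1 ^ l / l.factorial) := by
      rw [e1]
      exact ((CharacterSpace.toCLM θ).le_opNorm _).trans
        (mul_le_mul_of_nonneg_left (hN l) (norm_nonneg _))
    have e3 : 0 < δ ^ l := pow_pos hδ l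
    rw [div_pow]
    have : K * (Real.exp 1 ^ l / δ ^ l / l.factorial) = K * (Real.exp 1 ^ l / l.factorial) / δ ^ l := by
      ring
    rw [this, le_div_iff₀ e3, one_mul]; exact e2
  have h2 : Filter.Tendsto (fun l : ℕ => K * ((Real.exp 1 / δ) ^ l / l.factorial)) Filter.atTop
      (nhds (K * 0)) :=
    ((Real.summable_pow_div_factorial (Real.exp 1 / δ)).tendsto_atTop_zero).const_mul K
  have := ge_of_tendsto' h2 h1
  linarith

/-- the functions `x ↦ e^{2πi n x} u^n` -/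
noncomputable def U (u : Bˣ) (n : ℤ) : C(UnitAddCircle, B) :=
  ⟨fun x => (fourier n x : ℂ) • ((u ^ n : Bˣ) : B), by fun_prop⟩

theorem U_apply (u : Bˣ) (n : ℤ) (x : UnitAddCircle) :
    U u n x = (fourier n x : ℂ) • ((u ^ n : Bˣ) : B) := rfl

theorem U_add (u : Bˣ) (n m : ℤ) : U u (n + m) = U u n * U u m := by
  ext x
  simp only [U_apply, ContinuousMap.mul_apply, fourier_add, zpow_add, Units.val_mul]
  rw [smul_mul_smul_comm]

theorem U_zero (u : Bˣ) : U u 0 = 1 := by
  ext x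
  simp [U_apply]

theorem U_norm (u : Bˣ) (n : ℤ) : ‖U u n‖ ≤ ‖((u ^ n : Bˣ) : B)‖ := by
  refine (ContinuousMap.norm_le _ (norm_nonneg _)).2 fun x => ?_
  rw [U_apply, norm_smul, fourier_apply, Circle.norm_coe, one_mul]

noncomputable def S0 (u : Bˣ) : Subalgebra ℂ C(UnitAddCircle, B) :=
  (Submodule.span ℂ (Set.range (U u))).toSubalgebra
    (Submodule.subset_span ⟨0, U_zero u⟩) (by
      intro x y hx hy
      induction hx using Submodule.span_induction with
      | mem x hx =>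
        obtain ⟨n, rfl⟩ := hx
        induction hy using Submodule.span_induction with
        | mem y hy =>
          obtain ⟨m, rfl⟩ := hy
          exact Submodule.subset_span ⟨n + m, U_add u n m⟩
        | zero => simp
        | add y z _ _ h1 h2 => rw [mul_add]; exact add_mem h1 h2
        | smul c y _ h1 => rw [mul_smul_comm]; exact Submodule.smul_mem _ _ h1
      | zero => simp
      | add y z _ _ h1 h2 => rw [add_mul]; exact add_mem h1 h2
      | smul c y _ h1 => rw [smul_mul_assoc]; exact Submodule.smul_mem _ _ h1)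

noncomputable def AA (u : Bˣ) : Subalgebra ℂ C(UnitAddCircle, B) := (S0 u).topologicalClosure

instance (u : Bˣ) : CompleteSpace (AA u) :=
  (Subalgebra.isClosed_topologicalClosure (S0 u)).completeSpace_coe

theorem span_le (u : Bˣ) {x : C(UnitAddCircle, B)} (hx : x ∈ Submodule.span ℂ (Set.range (U u))) :
    x ∈ AA u := (S0 u).le_topologicalClosure hx

noncomputable def Ua (u : Bˣ) (n : ℤ) : AA u := ⟨U u n, span_le u (Submodule.subset_span ⟨n, rfl⟩)⟩

theorem Ua_add (u : Bˣ) (n m : ℤ) : Ua u (n + m) = Ua u n * Ua u m := Subtype.ext (U_add u n m)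
theorem Ua_zero (u : Bˣ) : Ua u 0 = 1 := Subtype.ext (U_zero u)

theorem lin_ind (u : Bˣ) {Y : Type} [NormedAddCommGroup Y] [NormedSpace ℂ Y] (L : AA u →L[ℂ] Y)
    (h : ∀ n, L (Ua u n) = 0) (a : AA u) : L a = 0 := by
  have h1 : ∀ x, ∀ hx : x ∈ Submodule.span ℂ (Set.range (U u)), L ⟨x, span_le u hx⟩ = 0 := by
    intro x hx
    induction hx using Submodule.span_induction with
    | mem x hx => obtain ⟨n, rfl⟩ := hx; exact h n
    | zero => exact map_zero L
    | add y z hy hz h1 h2 =>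
      have : (⟨y + z, span_le u (add_mem hy hz)⟩ : AA u) = ⟨y, span_le u hy⟩ + ⟨z, span_le u hz⟩ := rfl
      rw [this, map_add, h1, h2, add_zero]
    | smul c y hy h1 =>
      have : (⟨c • y, span_le u (Submodule.smul_mem _ c hy)⟩ : AA u) = c • ⟨y, span_le u hy⟩ := rfl
      rw [this, map_smul, h1, smul_zero]
  have h2 : a ∈ closure {x : AA u | x.1 ∈ Submodule.span ℂ (Set.range (U u))} := by
    rw [closure_subtype]
    have : (Subtype.val '' {x : AA u | x.1 ∈ Submodule.span ℂ (Set.range (U u))}) =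
        (S0 u : Set C(UnitAddCircle, B)) := by
      ext x
      constructor
      · rintro ⟨y, hy, rfl⟩; exact hy
      · intro hx; exact ⟨⟨x, span_le u hx⟩, hx, rfl⟩
    rw [this]
    exact a.2
  have h3 : IsClosed {x : AA u | L x = 0} := isClosed_eq L.continuous continuous_const
  exact closure_minimal (fun x hx => h1 x.1 hx) h3 h2

theorem weak_am {A : Type} [NormedCommRing A] [NormedAlgebra ℂ A] (V : ℤ → A)
    (Ua_add : ∀ n m, V (n + m) = V n * V m) (Ua_zero : V 0 = 1)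
    (hind : ∀ L : A →L[ℂ] (A →L[ℂ] ℂ), (∀ n, L (V n) = 0) → ∀ a, L a = 0)
    (ha : ∀ k : ℕ, ∃ a : ℕ, k ≤ a ∧ ‖V ((a ^ 3 : ℕ) : ℤ)‖ ≤ a ∧ ‖V (-((a ^ 3 : ℕ) : ℤ))‖ ≤ a)
    (D : A →L[ℂ] (A →L[ℂ] ℂ))
    (hD : ∀ a b x, D (a * b) x = D b (x * a) + D a (b * x)) : D = 0 := by
  have h0 : ∀ x, D (V 0) x = 0 := by
    intro x
    have := hD 1 1 x
    simp only [mul_one, one_mul] at this
    rw [Ua_zero]
    linear_combination -this
  have hp : ∀ n : ℕ, ∀ y, D (V n) (V (1 - n) * y) = n * D (V 1) y := by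
    intro n
    induction n with
    | zero => intro y; simpa using h0 _
    | succ n ih =>
      intro y
      have e1 : V ((n + 1 : ℕ) : ℤ) = V n * V 1 := by rw [← Ua_add]; push_cast; rfl
      have e2 : V (1 - ((n + 1 : ℕ) : ℤ)) * y * V n = y := by
        rw [mul_right_comm, ← Ua_add]
        have : (1 - ((n + 1 : ℕ) : ℤ)) + n = 0 := by push_cast; ring
        rw [this, Ua_zero, one_mul]
      have e3 : V 1 * (V (1 - ((n + 1 : ℕ) : ℤ)) * y) = V (1 - n) * y := by
        rw [← mul_assoc, ← Ua_add]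
        have : 1 + (1 - ((n + 1 : ℕ) : ℤ)) = 1 - n := by push_cast; ring
        rw [this]
      rw [e1, hD, e2, e3, ih]; push_cast; ring
  have h1 : ∀ y, D (V 1) y = 0 := by
    intro y
    by_contra hne
    have hδ : 0 < ‖D (V 1) y‖ := norm_pos_iff.2 hne
    set δ := ‖D (V 1) y‖ with hδd
    obtain ⟨k, hk⟩ := exists_nat_gt (‖D‖ * ‖V 1‖ * ‖y‖ / δ)
    obtain ⟨a, hka, ha1, ha2⟩ := ha (k + 1)
    have e := hp (a ^ 3) y
    have n1 : ‖V ((a ^ 3 : ℕ) : ℤ)‖ ≤ a := ha1
    have n2 : ‖V (-((a ^ 3 : ℕ) : ℤ))‖ ≤ a := ha2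
    have n3 : ‖V (1 - ((a ^ 3 : ℕ) : ℤ)) * y‖ ≤ ‖V 1‖ * a * ‖y‖ := by
      rw [sub_eq_add_neg, Ua_add]
      refine (norm_mul_le _ _).trans (mul_le_mul_of_nonneg_right ?_ (norm_nonneg _))
      exact (norm_mul_le _ _).trans (mul_le_mul_of_nonneg_left n2 (norm_nonneg _))
    have n4 : (a : ℝ) ^ 3 * δ ≤ ‖D‖ * a * (‖V 1‖ * a * ‖y‖) := by
      have : (a : ℝ) ^ 3 * δ = ‖D (V ((a ^ 3 : ℕ) : ℤ)) (V (1 - ((a ^ 3 : ℕ) : ℤ)) * y)‖ := by
        rw [e, norm_mul]; simp [hδd]
      rw [this]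
      refine (ContinuousLinearMap.le_opNorm _ _).trans ?_
      refine mul_le_mul ?_ n3 (norm_nonneg _) (by positivity)
      exact (D.le_opNorm _).trans (mul_le_mul_of_nonneg_left n1 (norm_nonneg _))
    have ha0 : (k : ℝ) + 1 ≤ a := by exact_mod_cast hka
    have hk0 : (0 : ℝ) ≤ k := Nat.cast_nonneg k
    rw [div_lt_iff₀ hδ] at hk
    have hapos : (0 : ℝ) < a := by linarith
    have n5 : (a : ℝ) ^ 2 * (a * δ) ≤ (a : ℝ) ^ 2 * (‖D‖ * ‖V 1‖ * ‖y‖) := by nlinarith
    have n6 := le_of_mul_le_mul_left n5 (by positivity)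
    nlinarith
  have hm : ∀ y, D (V (-1)) y = 0 := by
    intro y
    have := hD (V 1) (V (-1)) (y * V (-1))
    rw [← Ua_add, h1, mul_assoc, ← Ua_add] at this
    norm_num at this
    rw [h0, Ua_zero, mul_one] at this
    exact this.symm
  have hall : ∀ n : ℤ, D (V n) = 0 := by
    intro n
    induction n using Int.induction_on with
    | zero => ext y; exact h0 y
    | succ n ih => ext y; rw [Ua_add, hD, ih, h1]; simp
    | pred n ih => ext y; rw [sub_eq_add_neg, Ua_add, hD, ih, hm]; simp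
  ext1 a
  exact hind D hall a

/-- the algebra as a type -/
def AT (u : Bˣ) : Type := AA u

noncomputable instance (u : Bˣ) : NormedCommRing (AT u) := inferInstanceAs (NormedCommRing (AA u))
noncomputable instance (u : Bˣ) : NormedAlgebra ℂ (AT u) := inferInstanceAs (NormedAlgebra ℂ (AA u))
instance (u : Bˣ) : CompleteSpace (AT u) := inferInstanceAs (CompleteSpace (AA u))

noncomputable def Vt (u : Bˣ) (n : ℤ) : AT u := Ua u n

noncomputable def inc (u : Bˣ) : AT u →ₐ[ℂ] C(UnitAddCircle, B) := (AA u).val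

theorem inc_cont (u : Bˣ) : Continuous (inc u) := continuous_subtype_val

theorem inc_inj (u : Bˣ) : Function.Injective (inc u) := Subtype.val_injective

theorem inc_Vt (u : Bˣ) (n : ℤ) : inc u (Vt u n) = U u n := rfl

theorem lin_ind' (u : Bˣ) {Y : Type} [NormedAddCommGroup Y] [NormedSpace ℂ Y] (L : AT u →L[ℂ] Y)
    (h : ∀ n, L (Vt u n) = 0) (a : AT u) : L a = 0 := lin_ind u L h a

noncomputable def incL (u : Bˣ) : AT u →L[ℂ] C(UnitAddCircle, B) :=
  ⟨(inc u).toLinearMap, inc_cont u⟩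

noncomputable def fc (n : ℤ) : C(UnitAddCircle, ℂ) →L[ℂ] ℂ :=
  (innerSL ℂ (fourierLp (T := 1) 2 n)).comp
    (ContinuousMap.toLp (E := ℂ) 2 AddCircle.haarAddCircle ℂ)

theorem fc_fourier (n m : ℤ) : fc n (fourier m) = if n = m then 1 else 0 :=
  orthonormal_iff_ite.1 (orthonormal_fourier (T := 1)) n m

theorem fc_inj (g : C(UnitAddCircle, ℂ)) (h : ∀ n, fc n g = 0) : g = 0 := by
  apply ContinuousMap.toLp_injective (p := 2) (𝕜 := ℂ) (AddCircle.haarAddCircle (T := 1))
  rw [map_zero]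
  apply (fourierBasis (T := 1)).repr.injective
  rw [map_zero]
  ext n
  rw [HilbertBasis.repr_apply_apply, coe_fourierBasis]
  exact h n

theorem semis (u : Bˣ) (χ : characterSpace ℂ B) (hχ : ∀ n : ℤ, χ ((u ^ n : Bˣ) : B) = 1)
    (a : AT u) (h : ∀ x, χ (inc u a x) = 0) : a = 0 := by
  apply inc_inj u
  rw [map_zero]
  ext x
  refine NormedSpace.eq_zero_of_forall_dual_eq_zero ℂ fun lam => ?_
  have key : ∀ n, fc n (lam.compLeftContinuous ℂ UnitAddCircle (inc u a)) = 0 := by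
    intro n
    have e : ∀ (l : B →L[ℂ] ℂ) (m : ℤ), l.compLeftContinuous ℂ UnitAddCircle (U u m) =
        l ((u ^ m : Bˣ) : B) • fourier m := by
      intro l m
      ext x
      show l (U u m x) = _
      rw [U_apply, map_smul]
      simp [mul_comm]
    have := lin_ind' u (((fc n).comp ((lam.compLeftContinuous ℂ UnitAddCircle).comp (incL u))) -
      lam ((u ^ n : Bˣ) : B) • ((fc n).comp
        (((CharacterSpace.toCLM χ).compLeftContinuous ℂ UnitAddCircle).comp (incL u)))) (by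
      intro m
      show fc n (lam.compLeftContinuous ℂ UnitAddCircle (U u m)) - lam ((u ^ n : Bˣ) : B) •
        fc n ((CharacterSpace.toCLM χ).compLeftContinuous ℂ UnitAddCircle (U u m)) = 0
      rw [e, e, map_smul, map_smul, fc_fourier]
      have : CharacterSpace.toCLM χ ((u ^ m : Bˣ) : B) = 1 := hχ m
      rw [this]
      split_ifs with hnm
      · subst hnm; simp
      · simp) a
    have e2 : (CharacterSpace.toCLM χ).compLeftContinuous ℂ UnitAddCircle (inc u a) = 0 := by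
      ext x; exact h x
    change fc n (lam.compLeftContinuous ℂ UnitAddCircle (inc u a)) - lam ((u ^ n : Bˣ) : B) •
        fc n ((CharacterSpace.toCLM χ).compLeftContinuous ℂ UnitAddCircle (inc u a)) = 0 at this
    rw [e2, map_zero, smul_zero, sub_zero] at this
    exact this
  have := fc_inj _ key
  exact DFunLike.congr_fun this x

theorem main (u : Bˣ) (hne : (u : B) ≠ 1)
    (hN : ∀ l : ℕ, ‖((u : B) - 1) ^ l‖ ≤ Real.exp 1 ^ l / l.factorial)
    (ha : ∀ k : ℕ, ∃ a : ℕ, k ≤ a ∧ ‖((u ^ ((a ^ 3 : ℕ) : ℤ) : Bˣ) : B)‖ ≤ a ∧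
      ‖((u ^ (-((a ^ 3 : ℕ) : ℤ)) : Bˣ) : B)‖ ≤ a) :
    (∀ D : AT u →L[ℂ] (AT u →L[ℂ] ℂ),
      (∀ a b x, D (a * b) x = D b (x * a) + D a (b * x)) → D = 0) ∧
    Ring.jacobson (AT u) = ⊥ ∧ Nontrivial (AT u) ∧
    ∃ φ ψ : AT u →ₐ[ℂ] B, Continuous φ ∧ Continuous ψ ∧ φ ≠ ψ ∧
      ∀ a, φ a - ψ a ∈ Ring.jacobson B := by
  haveI : Nontrivial B := ⟨⟨_, _, hne⟩⟩
  have hall : ∀ (θ : characterSpace ℂ B) (n : ℤ), θ ((u ^ n : Bˣ) : B) = 1 := by
    intro θ n
    have h1 : θ (u : B) = 1 := char_one _ hN θ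
    have h2 : θ ((u⁻¹ : Bˣ) : B) = 1 := by
      have : θ ((u : B) * ((u⁻¹ : Bˣ) : B)) = 1 := by rw [Units.mul_inv, map_one]
      rwa [map_mul, h1, one_mul] at this
    induction n using Int.induction_on with
    | zero => simp
    | succ n ih => rw [zpow_add_one, Units.val_mul, map_mul, ih, h1, one_mul]
    | pred n ih => rw [zpow_sub_one, Units.val_mul, map_mul, ih, h2, one_mul]
  obtain ⟨J0, hJ0⟩ := Ideal.exists_maximal B
  let χ : characterSpace ℂ B := J0.toCharacterSpace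
  let ev : UnitAddCircle → (AT u →ₐ[ℂ] B) := fun x =>
    (ContinuousMap.evalAlgHom ℂ B x).comp (inc u)
  have ev_cont : ∀ x, Continuous (ev x) := fun x =>
    (continuous_eval_const x).comp (inc_cont u)
  let χa : B →ₐ[ℂ] ℂ := CharacterSpace.equivAlgHom χ
  have χa_eq : ∀ b, χa b = χ b := fun b => rfl
  have ev_V : ∀ n, ev 0 (Vt u n) = ((u ^ n : Bˣ) : B) := by
    intro n
    show U u n 0 = _
    rw [U_apply]; simp
  refine ⟨fun D hD => weak_am (Vt u) (Ua_add u) (Ua_zero u) (fun L hL => lin_ind' u L hL) ?_ D hD,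
    ?_, ?_, ev 0, (Algebra.ofId ℂ B).comp (χa.comp (ev 0)), ev_cont 0, ?_, ?_, ?_⟩
  · intro k
    obtain ⟨a, h1, h2, h3⟩ := ha k
    exact ⟨a, h1, (U_norm u _).trans h2, (U_norm u _).trans h3⟩
  · rw [eq_bot_iff]
    intro a haa
    rw [Ideal.mem_bot]
    refine semis u χ (hall χ) a fun x => ?_
    have hs : Function.Surjective (χa.comp (ev x)) := fun z => ⟨algebraMap ℂ _ z, by simp⟩
    have hm := RingHom.ker_isMaximal_of_surjective (χa.comp (ev x)) hs
    rw [← Ideal.jacobson_bot] at haa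
    exact (Ideal.mem_sInf.1 haa) ⟨bot_le, hm⟩
  · refine ⟨⟨Vt u 1, 1, fun h => hne ?_⟩⟩
    have := ev_V 1
    rw [h, map_one, zpow_one] at this
    exact this.symm
  · exact (continuous_algebraMap ℂ B).comp ((map_continuous χ).comp (ev_cont 0))
  · intro h
    have h1 := DFunLike.congr_fun h (Vt u 1)
    change ev 0 (Vt u 1) = algebraMap ℂ B (χ (ev 0 (Vt u 1))) at h1
    rw [ev_V, hall, map_one, zpow_one] at h1
    exact hne h1
  · intro a
    rw [← Ideal.jacobson_bot]
    refine Ideal.mem_sInf.2 ?_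
    rintro J ⟨-, hJ⟩
    let θ : characterSpace ℂ B := J.toCharacterSpace
    have hJk : J = RingHom.ker θ := by
      refine hJ.eq_of_le (RingHom.ker_ne_top θ) fun b hb => ?_
      exact J.toCharacterSpace_apply_eq_zero_of_mem hb
    rw [hJk, RingHom.mem_ker]
    let evL : AT u →L[ℂ] B := ⟨(ev 0).toLinearMap, ev_cont 0⟩
    have := lin_ind' u ((CharacterSpace.toCLM θ).comp evL - (CharacterSpace.toCLM χ).comp evL) (by
      intro n
      show θ (ev 0 (Vt u n)) - χ (ev 0 (Vt u n)) = 0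
      rw [ev_V, hall, hall, sub_self]) a
    change θ (ev 0 a) - χ (ev 0 a) = 0 at this
    show θ (ev 0 a - algebraMap ℂ B (χ (ev 0 a))) = 0
    rw [map_sub, AlgHomClass.commutes]
    exact this

end Abs
end Pool.Agent.H90.Hp
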