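import Pool.Agent.H90.HpA
import Pool.Agent.H90.HpB
import Pool.Agent.H90.HpC

open Filter Topology

namespace Pool.Agent.H90.Hp

def Dl (G : ℂ → ℂ) : ℂ → ℂ := fun z => G (z + 1) - G z

theorem Dl_diff {G : ℂ → ℂ} (h : Differentiable ℂ G) : Differentiable ℂ (Dl G) := by
  unfold Dl; fun_prop

theorem Dl_one {G : ℂ → ℂ} (h : Differentiable ℂ G) (z : ℂ) (s r M : ℝ) (hr : 0 < r)
    (hb : ∀ u, ‖u - z‖ ≤ s + (r + 1) → ‖G u‖ ≤ M) (u : ℂ) (hu : ‖u - z‖ ≤ s) :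
    ‖Dl G u‖ ≤ M / r := by
  have h1 : ∀ x ∈ Metric.closedBall u 1, ‖deriv G x‖ ≤ M / r := by
    intro x hx
    refine Complex.norm_deriv_le_of_forall_mem_sphere_norm_le hr h.diffContOnCl fun y hy => hb y ?_
    rw [mem_closedBall_iff_norm] at hx
    rw [mem_sphere_iff_norm] at hy
    have : y - z = (y - x) + (x - u) + (u - z) := by ring
    rw [this]
    have := norm_add₃_le (a := y - x) (b := x - u) (c := u - z)
    linarith
  have := (convex_closedBall u 1).norm_image_sub_le_of_norm_deriv_le (𝕜 := ℂ)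
    (fun x _ => h x) h1 (Metric.mem_closedBall_self zero_le_one)
    (show u + 1 ∈ Metric.closedBall u 1 by simp)
  simpa [Dl] using this

theorem Dl_iter (z : ℂ) (r : ℝ) (hr : 0 < r) (m : ℕ) : ∀ (G : ℂ → ℂ) (M : ℝ), Differentiable ℂ G →
    (∀ u, ‖u - z‖ ≤ m * (r + 1) → ‖G u‖ ≤ M) → ‖(Dl^[m] G) z‖ ≤ M / r ^ m := by
  induction m with
  | zero => intro G M _ hb; simpa using hb z (by simp)
  | succ m ih =>
    intro G M h hb
    rw [Function.iterate_succ_apply]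
    have := ih (Dl G) (M / r) (Dl_diff h) (fun u hu => Dl_one h z (m * (r + 1)) r M hr
      (fun v hv => hb v (by push_cast; linarith)) u hu)
    rwa [div_div, ← pow_succ'] at this

theorem Inv.dl {ρ : ℂ → ℝ} {F : ℂ → ℂ} (h : Inv ρ F) (m : ℕ) (z : ℂ) :
    ‖(Dl^[m] F) z‖ ≤ (3 * Real.exp 1 * (Real.exp 1 ^ m / m.factorial)) * ρ z := by
  obtain ⟨C, hC0, hC3, hC⟩ := h.bd
  have hρ : ∀ z, 0 ≤ ρ z := fun z => le_trans zero_le_one (h.one z)
  have he : 1 ≤ Real.exp 1 := Real.one_le_exp zero_le_one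
  have := hρ z
  rcases Nat.eq_zero_or_pos m with rfl | hm
  · simp only [Function.iterate_zero, id, pow_zero, Nat.factorial_zero, Nat.cast_one, div_one, mul_one]
    refine (hC z).trans ?_
    gcongr
    linarith
  have hm' : (0 : ℝ) < m := by exact_mod_cast hm
  have h1 := Dl_iter z m hm' m F (3 * (Real.exp (m + 1) * ρ z)) h.diff (fun u hu => by
    refine (hC u).trans ?_
    have h2 := h.sh (u - z) z
    rw [add_sub_cancel] at h2
    have h3 : √‖u - z‖ ≤ m + 1 := by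
      rw [Real.sqrt_le_left (by positivity)]; nlinarith
    have h4 : ρ u ≤ Real.exp (m + 1) * ρ z := h2.trans (by gcongr)
    have := hρ u
    gcongr)
  refine h1.trans ?_
  have h5 : (m.factorial : ℝ) ≤ (m : ℝ) ^ m := by exact_mod_cast Nat.factorial_le_pow m
  have h6 : Real.exp (m + 1) = Real.exp 1 ^ m * Real.exp 1 := by
    rw [Real.exp_one_pow, Real.exp_add]
  calc 3 * (Real.exp (m + 1) * ρ z) / (m : ℝ) ^ m ≤ 3 * (Real.exp (m + 1) * ρ z) / m.factorial := by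
        gcongr
    _ = _ := by rw [h6]; ring

theorem exists_data : ∃ (B : Type) (_ : NormedCommRing B) (_ : NormedAlgebra ℂ B)
    (_ : CompleteSpace B) (u : Bˣ),
      (u : B) ≠ 1 ∧ (∀ l : ℕ, ‖((u : B) - 1) ^ l‖ ≤ Real.exp 1 ^ l / l.factorial) ∧
      ∀ k : ℕ, ∃ a : ℕ, k ≤ a ∧ ‖((u ^ ((a ^ 3 : ℕ) : ℤ) : Bˣ) : B)‖ ≤ a ∧
        ‖((u ^ (-((a ^ 3 : ℕ) : ℤ)) : Bˣ) : B)‖ ≤ a := by
  let St := {p : (ℂ → ℝ) × (ℂ → ℂ) // Inv p.1 p.2}
  have hstep : ∀ (p : St) (k : ℕ), ∃ (q : St) (a : ℕ), k ≤ a ∧ (∀ z, q.1.1 z ≤ p.1.1 z) ∧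
      (∀ v c, 0 ≤ c → Sh p.1.1 v c → Sh q.1.1 v c) ∧ Sh q.1.1 ((a ^ 3 : ℕ) : ℂ) a ∧
      Sh q.1.1 (-((a ^ 3 : ℕ) : ℂ)) a := by
    intro p k
    obtain ⟨a, ρ', F', h1, h2, h3⟩ := step p.2 k
    exact ⟨⟨(ρ', F'), h2⟩, a, h1, h3⟩
  choose nx av hk hle hpres hs1 hs2 using hstep
  let sq : ℕ → St := fun k => Nat.rec ⟨(_, _), inv0⟩ (fun k p => nx p k) k
  have sq_succ : ∀ k, sq (k + 1) = nx (sq k) k := fun k => rfl
  let ρ : ℕ → ℂ → ℝ := fun k => (sq k).1.1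
  let F : ℕ → ℂ → ℂ := fun k => (sq k).1.2
  have hI : ∀ k, Inv (ρ k) (F k) := fun k => (sq k).2
  have anti : ∀ z, Antitone fun k => ρ k z := fun z => antitone_nat_of_succ_le fun k => hle (sq k) k z
  have keep : ∀ v c, 0 ≤ c → ∀ k0, Sh (ρ k0) v c → ∀ k, k0 ≤ k → Sh (ρ k) v c := by
    intro v c hc k0 h0 k hk
    induction k, hk using Nat.le_induction with
    | base => exact h0
    | succ k _ ih => exact hpres (sq k) k v c hc ih
  let ω : ℂ → ℝ := fun z => ⨅ k, ρ k z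
  have up : ∀ z k, ω z ≤ ρ k z := fun z k =>
    ciInf_le ⟨1, by rintro _ ⟨j, rfl⟩; exact (hI j).one z⟩ k
  have lo : ∀ (x c : ℝ) z, 0 ≤ c → (∀ k, x ≤ c * ρ k z) → x ≤ c * ω z := by
    intro x c z hc hx
    rw [Real.mul_iInf_of_nonneg hc]
    exact le_ciInf hx
  have hω : ∀ z, 0 < ω z := fun z => lt_of_lt_of_le one_pos (le_ciInf fun k => (hI k).one z)
  have shω : ∀ v c, 0 ≤ c → ∀ k0, Sh (ρ k0) v c → Sh ω v c := by
    intro v c hc k0 h0 z
    refine lo _ _ _ hc fun k => (up _ (max k k0)).trans ?_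
    refine (keep v c hc k0 h0 _ (le_max_right _ _) z).trans ?_
    exact mul_le_mul_of_nonneg_left (anti z (le_max_left _ _)) hc
  let 𝒰 : Ultrafilter ℕ := Ultrafilter.of atTop
  have hU : (𝒰 : Filter ℕ) ≤ atTop := Ultrafilter.of_le _
  have hb : ∀ (m : ℕ) z j, ∀ᶠ k in (𝒰 : Filter ℕ), ‖(Dl^[m] (F k)) z‖ ≤
      (3 * Real.exp 1 * (Real.exp 1 ^ m / m.factorial)) * ρ j z := by
    intro m z j
    filter_upwards [hU (eventually_ge_atTop j)] with k hk
    exact ((hI k).dl m z).trans (mul_le_mul_of_nonneg_left (anti z hk) (by positivity))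
  have hlim : ∀ (m : ℕ) z, ∃ g, Tendsto (fun k => (Dl^[m] (F k)) z) 𝒰 (𝓝 g) := by
    intro m z
    obtain ⟨g, -, hg⟩ := (isCompact_closedBall (0 : ℂ)
      ((3 * Real.exp 1 * (Real.exp 1 ^ m / m.factorial)) * ρ 0 z)).ultrafilter_le_nhds
      (𝒰.map fun k => (Dl^[m] (F k)) z) (by
        rw [le_principal_iff, Ultrafilter.mem_coe, Ultrafilter.mem_map]
        filter_upwards [hb m z 0] with k hk
        simpa using hk)
    exact ⟨g, hg⟩
  choose G hG using hlim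
  refine exists_B ω hω (Real.exp 1) ?_ ?_ ?_ G ?_ (3 * Real.exp 1) ?_ ?_
  · have := shω 1 _ (Real.exp_pos _).le 0 ((hI 0).sh 1)
    rw [norm_one, Real.sqrt_one] at this
    exact this
  · have := shω (-1) _ (Real.exp_pos _).le 0 ((hI 0).sh (-1))
    rw [norm_neg, norm_one, Real.sqrt_one] at this
    exact this
  · intro k
    exact ⟨av (sq k) k, hk _ _, shω _ _ (Nat.cast_nonneg _) (k + 1) (hs1 (sq k) k),
      shω _ _ (Nat.cast_nonneg _) (k + 1) (hs2 (sq k) k)⟩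
  · intro m z
    refine tendsto_nhds_unique (hG (m + 1) z) ?_
    simp only [Function.iterate_succ_apply']
    exact (hG m (z + 1)).sub (hG m z)
  · intro m z
    rw [← mul_assoc]
    exact lo _ _ _ (by positivity) fun j => le_of_tendsto (hG m z).norm (hb m z j)
  · have h1 : 1 / 2 ≤ ‖G 1 0‖ := by
      refine ge_of_tendsto' (hG 1 0).norm fun k => ?_
      have := (hI k).f1
      simp only [Function.iterate_one, Dl, zero_add, (hI k).f0, sub_zero]
      exact this.le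
    intro h
    rw [h] at h1
    norm_num at h1

end Pool.Agent.H90.Hp
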