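import Pool.Agent.H90.IsoDefs

namespace Pool.Agent.H90.Iso

open Filter Topology Metric

noncomputable section

abbrev S2 : Type := sphere (0 : EuclideanSpace ℝ (Fin 3)) 1

lemma mem_S2 (d : EuclideanSpace ℝ (Fin 3)) :
    d ∈ sphere (0 : EuclideanSpace ℝ (Fin 3)) 1 ↔ d 0 ^ 2 + d 1 ^ 2 + d 2 ^ 2 = 1 := by
  rw [mem_sphere_zero_iff_norm, ← sq_eq_sq₀ (norm_nonneg _) zero_le_one,
    EuclideanSpace.real_norm_sq_eq, Fin.sum_univ_three, one_pow]

abbrev D2 : Type := closedBall (0 : ℂ) 1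

lemma D2_le (w : D2) : (w : ℂ).re ^ 2 + (w : ℂ).im ^ 2 ≤ 1 := by
  have h := mem_closedBall_zero_iff.1 w.2
  have : ‖(w : ℂ)‖ ^ 2 ≤ 1 := by nlinarith [norm_nonneg (w : ℂ)]
  rwa [Complex.sq_norm, Complex.normSq_apply, ← sq, ← sq] at this

def hemi (σ : ℝ) (hσ : σ ^ 2 = 1) : C(D2, S2) where
  toFun w := ⟨!₂[(w : ℂ).re, (w : ℂ).im, σ * √(1 - (w : ℂ).re ^ 2 - (w : ℂ).im ^ 2)], by
    rw [mem_S2]
    have := D2_le w
    simp only [Matrix.cons_val_zero, Matrix.cons_val_one, Matrix.cons_val]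
    rw [mul_pow, hσ, Real.sq_sqrt (by linarith)]; ring⟩
  continuous_toFun := by
    refine Continuous.subtype_mk ?_ _
    refine (PiLp.continuous_toLp 2 _).comp (continuous_pi fun i => ?_)
    fin_cases i <;> simp <;> fun_prop

def pr (d : S2) : D2 := ⟨⟨d.1 0, d.1 1⟩, by
  have := (mem_S2 _).1 d.2
  rw [mem_closedBall_zero_iff, ← sq_le_sq₀ (norm_nonneg _) zero_le_one, Complex.sq_norm,
    Complex.normSq_apply]
  nlinarith [sq_nonneg (d.1 2)]⟩

lemma cont_pr : Continuous pr := by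
  refine Continuous.subtype_mk ?_ _
  have : (fun d : S2 => (⟨d.1 0, d.1 1⟩ : ℂ)) = fun d => (d.1 0 : ℂ) + (d.1 1 : ℂ) * Complex.I := by
    funext d; apply Complex.ext <;> simp
  rw [this]; fun_prop

lemma hemi_pr (σ : ℝ) (hσ : σ ^ 2 = 1) (d : S2) (h : 0 ≤ σ * d.1 2) : hemi σ hσ (pr d) = d := by
  have h1 := (mem_S2 _).1 d.2
  apply Subtype.ext
  ext i
  fin_cases i
  · rfl
  · rfl
  · change σ * √(1 - d.1 0 ^ 2 - d.1 1 ^ 2) = d.1 2
    rw [show 1 - d.1 0 ^ 2 - d.1 1 ^ 2 = (σ * d.1 2) ^ 2 by rw [mul_pow, hσ]; linarith,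
      Real.sqrt_sq h, ← mul_assoc, ← sq, hσ, one_mul]

lemma exists_log (f : C(S2, Circle)) : ∃ L : S2 → ℝ, Continuous L ∧ ∀ d, Circle.exp (L d) = f d := by
  haveI : ContractibleSpace D2 := (convex_closedBall (0 : ℂ) 1).contractibleSpace ⟨0, by simp⟩
  haveI : LocallyPathConnectedSpace D2 := (convex_closedBall (0 : ℂ) 1).locallyPathConnectedSpace
  let c : ℝ → D2 := fun t => ⟨Circle.exp t, by simp⟩
  have hc : Continuous c := Continuous.subtype_mk (by fun_prop) _
  have heq : ∀ t, hemi 1 (by norm_num) (c t) = hemi (-1) (by norm_num) (c t) := by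
    intro t
    apply Subtype.ext
    have : 1 - ((c t : D2) : ℂ).re ^ 2 - ((c t : D2) : ℂ).im ^ 2 = 0 := by
      have := Circle.normSq_coe (Circle.exp t)
      rw [Complex.normSq_apply] at this
      change 1 - (Circle.exp t : ℂ).re ^ 2 - (Circle.exp t : ℂ).im ^ 2 = 0
      linarith
    ext i
    fin_cases i
    · rfl
    · rfl
    · change 1 * √_ = -1 * √_
      rw [this]; simp
  obtain ⟨e₀, he⟩ := Circle.exp_surjective (f (hemi 1 (by norm_num) (c 0)))
  obtain ⟨L1, ⟨a1, b1⟩, -⟩ := Circle.isCoveringMap_exp.existsUnique_continuousMap_lifts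
    (f.comp (hemi 1 (by norm_num))) (c 0) e₀ he
  obtain ⟨L2, ⟨a2, b2⟩, -⟩ := Circle.isCoveringMap_exp.existsUnique_continuousMap_lifts
    (f.comp (hemi (-1) (by norm_num))) (c 0) e₀ (by rw [he, heq]; rfl)
  have b1' : ∀ w, Circle.exp (L1 w) = f (hemi 1 (by norm_num) w) := fun w => congrFun b1 w
  have b2' : ∀ w, Circle.exp (L2 w) = f (hemi (-1) (by norm_num) w) := fun w => congrFun b2 w
  have hb : (fun t => L1 (c t)) = fun t => L2 (c t) :=
    Circle.isCoveringMap_exp.eq_of_comp_eq (by fun_prop) (by fun_prop)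
      (by funext t; simp only [Function.comp, b1', b2', heq]) 0 (by rw [a1, a2])
  refine ⟨fun d => if 0 ≤ d.1 2 then L1 (pr d) else L2 (pr d), ?_, fun d => ?_⟩
  · refine Continuous.if_le (L1.continuous.comp cont_pr) (L2.continuous.comp cont_pr)
      continuous_const (by fun_prop) fun d hd => ?_
    have h1 := (mem_S2 _).1 d.2
    obtain ⟨t, ht⟩ := Circle.exp_surjective ⟨(pr d : ℂ), by
      rw [Submonoid.unitSphere, Submonoid.mem_mk, Subsemigroup.mem_mk, mem_sphere_zero_iff_norm,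
        ← sq_eq_sq₀ (norm_nonneg _) zero_le_one, Complex.sq_norm, Complex.normSq_apply]
      change d.1 0 * d.1 0 + d.1 1 * d.1 1 = _
      rw [← hd] at h1; linarith⟩
    have : pr d = c t := Subtype.ext (congrArg Subtype.val ht).symm
    rw [this]
    exact congrFun hb t
  · beta_reduce
    split_ifs with h
    · rw [b1', hemi_pr _ _ _ (by linarith)]
    · rw [b2', hemi_pr _ _ _ (by linarith)]

theorem not_torus (k : ℕ) : IsEmpty (S2 ≃ₜ (Fin k → Circle)) := by
  refine ⟨fun h => ?_⟩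
  cases k with
  | zero =>
    have : (⟨!₂[1, 0, 0], by rw [mem_S2]; simp⟩ : S2) = ⟨!₂[0, 1, 0], by rw [mem_S2]; simp⟩ :=
      h.injective (Subsingleton.elim _ _)
    have := congrArg (fun d : S2 => d.1 0) this
    simp at this
  | succ k =>
    obtain ⟨L, hL, hL'⟩ := exists_log ⟨fun d => h d 0, by fun_prop⟩
    let γ : ℝ → S2 := fun t => h.symm fun _ => Circle.exp t
    have hγ : Continuous γ := by fun_prop
    have e1 : ∀ t, Circle.exp (L (γ t)) = Circle.exp t := fun t => by rw [hL']; simp [γ]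
    have hb : (fun t => L (γ t)) = fun t => t + L (γ 0) :=
      Circle.isCoveringMap_exp.eq_of_comp_eq (by fun_prop) (by fun_prop)
        (by funext t; simp only [Function.comp, Circle.exp_add, e1]; simp) 0 (by simp)
    have := congrFun hb (2 * Real.pi)
    have e2 : γ (2 * Real.pi) = γ 0 := by simp [γ]
    simp only [e2] at this
    linarith [Real.pi_pos]

end

end Pool.Agent.H90.Iso
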