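import Pool.Agent.H90.IsoA

namespace Pool.Agent.H90.Iso

open FreeGroup MonoidAlgebra

noncomputable section

abbrev F3 : Type := FreeGroup (Fin 3)
abbrev Lt : Type := Fin 3 × Bool

def bar (w : Lt) : Lt := (w.1, !w.2)

lemma bar_bar (w : Lt) : bar (bar w) = w := by simp [bar]

def barE : Lt ≃ Lt := ⟨bar, bar, bar_bar, bar_bar⟩

def gen (w : Lt) : F3 := mk [w]

lemma gen_bar (w : Lt) : gen (bar w) = (gen w)⁻¹ := by
  simp [gen, bar, inv_mk, invRev]

lemma one_notMem (w : Lt) : (1 : F3) ∉ startsWith w := fun h => startsWith.ne_one _ h rfl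

lemma norm_gen_mul {w : Lt} {g : F3} (h : g ∉ startsWith (bar w)) :
    (gen w * g).norm = g.norm + 1 := by
  unfold FreeGroup.norm
  have e : (gen w * g).toWord = w :: g.toWord := by
    have : gen w * g = mk (w :: g.toWord) := by
      conv_lhs => rw [← mk_toWord (x := g)]
      rw [gen, mul_mk]; rfl
    rw [this, toWord_mk]
    apply IsReduced.reduce_eq
    have hr := isReduced_toWord (x := g)
    cases hg : g.toWord with
    | nil => exact IsReduced.singleton
    | cons b L =>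
      rw [hg] at hr
      refine isReduced_cons_cons.2 ⟨fun h1 => ?_, hr⟩
      by_contra h2
      apply h
      simp only [startsWith, Set.mem_ofPred_eq, hg, List.getElem?_cons_zero, Option.some.injEq, bar]
      refine Prod.ext h1.symm ?_
      · simp only
        cases hb : b.2 <;> cases hw : w.2 <;> simp_all
  rw [e]; simp

lemma norm_gen (w : Lt) : (gen w).norm = 1 := by
  simpa using norm_gen_mul (one_notMem (bar w))

lemma sw_unique {w w' : Lt} {g : F3} (h : g ∈ startsWith w) (h' : g ∈ startsWith w') : w = w' := by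
  simp only [startsWith, Set.mem_ofPred_eq] at h h'
  rw [h] at h'
  exact Option.some.inj h'

lemma notMem_of_ne {w y : Lt} {g : F3} (h : g ∉ startsWith (bar w)) (hy : y ≠ bar w) :
    gen w * g ∉ startsWith (bar y) := fun h' => by
  have := sw_unique (startsWith_mk_mul (w := w) g h) h'
  exact hy (by rw [this, bar_bar])

variable (P : Fin 3 → ℝ)

def X3 : MonoidAlgebra ℝ F3 := ∑ w : Lt, single (gen w) (P w.1)

def ff (j : ℕ) (g : F3) : ℝ := (X3 P ^ j).coeff g

lemma ff_zero (g : F3) : ff P 0 g = if g = 1 then 1 else 0 := by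
  simp [ff, MonoidAlgebra.one_def, Finsupp.single_apply, eq_comm]

lemma ff_succ (j : ℕ) (g : F3) : ff P (j + 1) g = ∑ w : Lt, P w.1 * ff P j (gen w * g) := by
  rw [ff, pow_succ', X3, Finset.sum_mul, coeff_sum, Finsupp.finsetSum_apply, ← barE.sum_comp]
  refine Finset.sum_congr rfl fun w _ => ?_
  rw [coeff_single_mul_apply]
  change P w.1 * _ = _
  rw [show gen (barE w) = (gen w)⁻¹ from gen_bar w, inv_inv]; rfl

lemma ff_big (j : ℕ) : ∀ g : F3, j < g.norm → ff P j g = 0 := by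
  induction j with
  | zero => intro g hg; rw [ff_zero, if_neg]; rintro rfl; simp at hg
  | succ j ih =>
    intro g hg
    rw [ff_succ]
    refine Finset.sum_eq_zero fun w _ => ?_
    have := norm_mul_le (gen (bar w)) (gen w * g)
    rw [norm_gen, gen_bar, inv_mul_cancel_left] at this
    rw [ih _ (by omega), mul_zero]

lemma ff_split (j : ℕ) (w : Lt) (g : F3) : ff P (j + 1) (gen w * g) = P w.1 * ff P j g
    + ∑ y ∈ Finset.univ.erase (bar w), P y.1 * ff P j (gen y * (gen w * g)) := by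
  rw [ff_succ, ← Finset.add_sum_erase _ _ (Finset.mem_univ (bar w)), gen_bar, inv_mul_cancel_left]
  rfl

lemma ff_top (j : ℕ) (w : Lt) (g : F3) (h : g ∉ startsWith (bar w)) (hn : j ≤ g.norm + 1) :
    ff P (j + 1) (gen w * g) = P w.1 * ff P j g := by
  rw [ff_split, Finset.sum_eq_zero, add_zero]
  intro y hy
  rw [ff_big, mul_zero]
  rw [norm_gen_mul (notMem_of_ne h (Finset.ne_of_mem_erase hy)), norm_gen_mul h]; omega

lemma sum_erase (w : Lt) (F : Fin 3 → ℝ) :
    ∑ y ∈ Finset.univ.erase (bar w), F y.1 = 2 * ∑ i, F i - F w.1 := by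
  rw [Finset.sum_erase_eq_sub (Finset.mem_univ _), Fintype.sum_prod_type]
  simp [bar, Finset.mul_sum]

lemma sum_all (F : Fin 3 → ℝ) : ∑ y : Lt, F y.1 = 2 * ∑ i, F i := by
  rw [Fintype.sum_prod_type]; simp [Finset.mul_sum]

def q (n : ℕ) : ℝ := ∑ i, P i ^ n

lemma f1 (x : Lt) : ff P 1 (gen x) = P x.1 := by
  have := ff_top P 0 x 1 (one_notMem _) (by simp)
  simpa [ff_zero] using this

lemma f2e : ff P 2 1 = 2 * q P 2 := by
  rw [ff_succ]; simp only [mul_one, f1]
  rw [sum_all (fun i => P i * P i)]; simp [q, sq]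

lemma g1 (x : Lt) {y : Lt} (hy : y ≠ bar x) : gen x ∉ startsWith (bar y) := by
  simpa using notMem_of_ne (one_notMem (bar x)) hy

lemma f2 (x y : Lt) (hy : y ≠ bar x) : ff P 2 (gen y * gen x) = P y.1 * P x.1 := by
  rw [ff_top P 1 y _ (g1 x hy) (by simp), f1]

lemma f3 (x : Lt) : ff P 3 (gen x) = P x.1 * (4 * q P 2 - P x.1 ^ 2) := by
  have := ff_split P 2 x 1
  rw [mul_one, f2e, Finset.sum_congr rfl fun y hy => by rw [f2 P x y (Finset.ne_of_mem_erase hy)],
    sum_erase x fun i => P i * (P i * P x.1)] at this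
  rw [this]; simp only [q, Fin.sum_univ_three]; ring

lemma f3' (x y z : Lt) (hy : y ≠ bar x) (hz : z ≠ bar y) :
    ff P 3 (gen z * (gen y * gen x)) = P z.1 * (P y.1 * P x.1) := by
  rw [ff_top P 2 z _ (notMem_of_ne (g1 x hy) hz) (by rw [norm_gen_mul (g1 x hy), norm_gen]; simp),
    f2 P x y hy]

lemma f4e : ff P 4 1 = 8 * q P 2 ^ 2 - 2 * q P 4 := by
  rw [ff_succ]; simp only [mul_one, f3]
  rw [sum_all (fun i => P i * (P i * (4 * q P 2 - P i ^ 2)))]
  simp only [q, Fin.sum_univ_three]; ring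

lemma f4 (x y : Lt) (hy : y ≠ bar x) :
    ff P 4 (gen y * gen x) = P y.1 * P x.1 * (6 * q P 2 - P x.1 ^ 2 - P y.1 ^ 2) := by
  rw [ff_split, f3, Finset.sum_congr rfl fun z hz => by
    rw [f3' P x y z hy (Finset.ne_of_mem_erase hz)],
    sum_erase y fun i => P i * (P i * (P y.1 * P x.1))]
  simp only [q, Fin.sum_univ_three]; ring

lemma f5 (x : Lt) : ff P 5 (gen x)
    = P x.1 * (20 * q P 2 ^ 2 - 4 * q P 4 - 8 * q P 2 * P x.1 ^ 2 + 2 * P x.1 ^ 4) := by
  have := ff_split P 4 x 1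
  rw [mul_one, f4e, Finset.sum_congr rfl fun y hy => by rw [f4 P x y (Finset.ne_of_mem_erase hy)],
    sum_erase x fun i => P i * (P i * P x.1 * (6 * q P 2 - P x.1 ^ 2 - P i ^ 2))] at this
  rw [this]; simp only [q, Fin.sum_univ_three]; ring

lemma f6e : ff P 6 1 = 40 * q P 2 ^ 3 - 24 * q P 2 * q P 4 + 4 * q P 6 := by
  rw [ff_succ]; simp only [mul_one, f5]
  rw [sum_all (fun i => P i * (P i * (20 * q P 2 ^ 2 - 4 * q P 4 - 8 * q P 2 * P i ^ 2
    + 2 * P i ^ 4)))]
  simp only [q, Fin.sum_univ_three]; ring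

lemma f0 (x : Lt) : ff P 0 (gen x) = 0 := ff_big P 0 _ (by simp [norm_gen])

end

end Pool.Agent.H90.Iso
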