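import Pool.Agent.H90.IsoB

namespace Pool.Agent.H90.Iso

open FreeGroup MonoidAlgebra Filter Topology

noncomputable section

abbrev VV : Type := Option (Fin 3)
abbrev AA : Type := MonoidAlgebra ℝ (FreeGroup Lt)
abbrev MM : Type := Matrix VV VV AA

def sv : Lt → VV := fun _ => none
def tv : Lt → VV := fun e => some e.1

def r (a : Lt → ℝ) (i : Fin 3) : AA :=
  single (of (i, true)) (a (i, true)) + single (of (i, false)) (a (i, false))
def rs (a : Lt → ℝ) (i : Fin 3) : AA :=
  single (of (i, true))⁻¹ (a (i, true)) + single (of (i, false))⁻¹ (a (i, false))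

def M0 (a : Lt → ℝ) : MM := Matrix.of fun x y =>
  match x, y with
  | none, some i => r a i
  | some i, none => rs a i
  | _, _ => 0

def Bm (b : VV → ℝ) : MM := Matrix.diagonal fun x => b x • (1 : AA)

lemma lift_iter (J : (VV → ℝ) × (Lt → ℝ)) (x0 : VV) (δ : VV × FreeGroup Lt → ℝ)
    (h1 : δ (x0, 1) = 1) (h0 : ∀ q, q ≠ (x0, 1) → δ q = 0) (k : ℕ) : ∀ p : VV × FreeGroup Lt,
    (lift sv tv J)^[k] δ p = (((M0 J.2 + Bm J.1) ^ k) p.1 x0).coeff p.2⁻¹ := by
  induction k with
  | zero =>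
    rintro ⟨x, g⟩
    by_cases hx : x = x0
    · subst hx
      by_cases hg : g = 1
      · subst hg; simp [MonoidAlgebra.one_def, h1]
      · rw [Function.iterate_zero_apply, h0 _ (by simpa using hg)]
        simp [MonoidAlgebra.one_def, Finsupp.single_apply, hg, eq_comm]
    · rw [Function.iterate_zero_apply, h0 _ (by simp [hx])]
      simp [Matrix.one_apply_ne hx]
  | succ k ih =>
    rintro ⟨x, g⟩
    rw [Function.iterate_succ_apply', lift, pow_succ']
    simp only [ih]
    generalize (M0 J.2 + Bm J.1) ^ k = N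
    rw [add_mul, Matrix.add_apply, Bm, Matrix.diagonal_mul, Matrix.mul_apply]
    simp only [Fintype.sum_option, Fintype.sum_prod_type, Fintype.sum_bool]
    cases x with
    | none =>
      simp [sv, tv, M0, r, add_mul]
      ring
    | some i =>
      fin_cases i <;> simp [sv, tv, M0, rs, add_mul, Fin.sum_univ_three] <;> ring

def τ : AA →ₗ[ℝ] ℝ := (Finsupp.lapply 1).comp (coeffLinearEquiv ℝ).toLinearMap

lemma τ_apply (m : AA) : τ m = m.coeff 1 := rfl

lemma τ_comm (m n : AA) : τ (m * n) = τ (n * m) := by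
  induction m using MonoidAlgebra.induction_linear with
  | zero => simp
  | add x y hx hy => simp only [add_mul, mul_add, map_add, hx, hy]
  | single g c => simp [τ_apply, mul_comm]

lemma τ_one : τ 1 = 1 := by simp [τ_apply, MonoidAlgebra.one_def]

def T : MM →ₗ[ℝ] ℝ := τ.comp (Matrix.traceLinearMap VV ℝ AA)

lemma T_apply (N : MM) : T N = ∑ x, τ (N x x) := by simp [T, Matrix.trace]

lemma T_comm (N K : MM) : T (N * K) = T (K * N) := by
  simp only [T_apply, Matrix.mul_apply, map_sum]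
  rw [Finset.sum_comm]
  exact Finset.sum_congr rfl fun x _ => Finset.sum_congr rfl fun y _ => τ_comm _ _

lemma moment_eq (J : (VV → ℝ) × (Lt → ℝ)) (k : ℕ) :
    moment sv tv J k = T ((M0 J.2 + Bm J.1) ^ k) / 4 := by
  rw [moment, T_apply]
  congr 1
  · refine Finset.sum_congr rfl fun x _ => ?_
    rw [lift_iter J x _ (by simp) (fun q hq => by simp [hq]), inv_one]; rfl

open scoped Classical in
lemma contDiff_moment (k : ℕ) : ContDiff ℝ 1 fun J => moment sv tv J k := by
  have : ∀ (u : VV × FreeGroup Lt → ℝ) (p : VV × FreeGroup Lt),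
      ContDiff ℝ 1 fun J : (VV → ℝ) × (Lt → ℝ) => (lift sv tv J)^[k] u p := by
    intro u
    induction k with
    | zero => intro p; exact contDiff_const
    | succ k ih =>
      intro p
      simp only [Function.iterate_succ_apply', lift]
      refine ContDiff.add (ContDiff.mul (by fun_prop) (ih p)) (ContDiff.sum fun e _ => ?_)
      refine ContDiff.add ?_ ?_ <;> split_ifs
      · exact ContDiff.mul (by fun_prop) (ih _)
      · exact contDiff_const
      · exact ContDiff.mul (by fun_prop) (ih _)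
      · exact contDiff_const
  exact (ContDiff.sum fun x _ => this _ _).div_const _

def DD (M B : MM) : ℕ → MM
  | 0 => 0
  | k + 1 => DD M B k * M + M ^ k * B

lemma hasDerivAt_pow' (M B : MM) (k : ℕ) : ∀ L : MM →ₗ[ℝ] ℝ,
    HasDerivAt (fun t : ℝ => L ((M + t • B) ^ k)) (L (DD M B k)) 0 := by
  induction k with
  | zero => intro L; simpa [DD] using hasDerivAt_const (0 : ℝ) (L 1)
  | succ k ih =>
    intro L
    have h1 := ih (L.comp (LinearMap.mulRight ℝ M))
    have h2 := (hasDerivAt_id (0 : ℝ)).mul (ih (L.comp (LinearMap.mulRight ℝ B)))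
    have h3 := h1.add h2
    have e : (fun t : ℝ => L ((M + t • B) ^ (k + 1))) = fun t : ℝ =>
        L ((M + t • B) ^ k * M) + t * L ((M + t • B) ^ k * B) := by
      funext t
      rw [pow_succ, mul_add, map_add, mul_smul_comm, map_smul, smul_eq_mul]
    rw [e]
    refine h3.congr_deriv ?_
    simp [DD]

lemma T_DD (M B : MM) (k : ℕ) : ∀ l, T (DD M B (k + 1) * M ^ l) = (k + 1) * T (M ^ (k + l) * B) := by
  induction k with
  | zero => intro l; simp [DD, T_comm B]
  | succ k ih =>
    intro l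
    rw [DD, add_mul, map_add, mul_assoc, ← pow_succ', ih, mul_assoc, T_comm (M ^ (k + 1)),
      mul_assoc, T_comm B, ← pow_add, show k + (l + 1) = k + 1 + l by ring,
      show l + (k + 1) = k + 1 + l by ring]
    push_cast; ring

def Y (a : Lt → ℝ) : AA := ∑ i, r a i * rs a i

lemma pow_some (a : Lt → ℝ) (k : ℕ) (i : Fin 3) (y : VV) :
    (M0 a ^ (k + 1)) (some i) y = rs a i * (M0 a ^ k) none y := by
  rw [pow_succ', Matrix.mul_apply, Fintype.sum_option]; simp [M0]

lemma pow_none (a : Lt → ℝ) (k : ℕ) :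
    (M0 a ^ (k + 2)) none none = Y a * (M0 a ^ k) none none := by
  rw [pow_succ', Matrix.mul_apply, Fintype.sum_option]
  simp only [pow_some, Y, Finset.sum_mul, mul_assoc]
  simp [M0]

lemma pow_ss (a : Lt → ℝ) (k : ℕ) (i : Fin 3) :
    τ ((M0 a ^ (k + 2)) (some i) (some i)) = τ ((M0 a ^ k) none none * (r a i * rs a i)) := by
  rw [pow_some, pow_succ, Matrix.mul_apply, Fintype.sum_option, τ_comm]
  simp [M0, mul_assoc]

lemma pow_even (a : Lt → ℝ) (j : ℕ) : (M0 a ^ (2 * j)) none none = Y a ^ j := by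
  induction j with
  | zero => simp
  | succ j ih => rw [mul_add, mul_one, pow_none, ih, pow_succ']

lemma pow_odd (a : Lt → ℝ) (j : ℕ) : (M0 a ^ (2 * j + 1)) none none = 0 := by
  induction j with
  | zero => simp [M0]
  | succ j ih => rw [show 2 * (j + 1) + 1 = 2 * j + 1 + 2 by ring, pow_none, ih, mul_zero]

lemma T_pow (a : Lt → ℝ) (k : ℕ) : T (M0 a ^ (k + 2)) = 2 * τ (Y a * (M0 a ^ k) none none) := by
  rw [T_apply, Fintype.sum_option, pow_none]
  simp only [pow_ss]
  rw [← map_sum, ← Finset.mul_sum, ← Y, τ_comm (Y a)]; ring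

lemma T_even (a : Lt → ℝ) (j : ℕ) : T (M0 a ^ (2 * (j + 1))) = 2 * τ (Y a ^ (j + 1)) := by
  rw [mul_add, mul_one, T_pow, pow_even, pow_succ']

lemma T_odd (a : Lt → ℝ) (j : ℕ) : T (M0 a ^ (2 * j + 1)) = 0 := by
  cases j with
  | zero => simp [T_apply, Fintype.sum_option, M0]
  | succ j => rw [show 2 * (j + 1) + 1 = 2 * j + 1 + 2 by ring, T_pow, pow_odd]; simp

lemma T_B (N : MM) (b : VV → ℝ) : T (N * Bm b) = ∑ x, b x * τ (N x x) := by
  simp [T_apply, Bm, Matrix.mul_diagonal]

def ph : F3 →* FreeGroup Lt := FreeGroup.lift fun i => of (i, true) * (of (i, false))⁻¹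

lemma ph_inj : Function.Injective ph := by
  let ψ : FreeGroup Lt →* F3 := FreeGroup.lift fun e => if e.2 then of e.1 else 1
  have : ψ.comp ph = MonoidHom.id _ := by ext i; simp [ψ, ph]
  exact Function.LeftInverse.injective (g := ψ) fun x => DFunLike.congr_fun this x

def Ph : MonoidAlgebra ℝ F3 →ₐ[ℝ] AA := mapDomainAlgHom ℝ ℝ ph

lemma τ_Ph (m : MonoidAlgebra ℝ F3) : τ (Ph m) = m.coeff 1 := by
  have := Finsupp.mapDomain_apply ph_inj m.coeff 1
  rw [_root_.map_one] at this
  exact this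

def W3 (i : Fin 3) : MonoidAlgebra ℝ F3 := single (gen (i, true)) 1 + single (gen (i, false)) 1

def PP (a : Lt → ℝ) (i : Fin 3) : ℝ := a (i, true) * a (i, false)
def ss (a : Lt → ℝ) (i : Fin 3) : ℝ := a (i, true) ^ 2 + a (i, false) ^ 2

lemma r_rs (a : Lt → ℝ) (i : Fin 3) : r a i * rs a i = ss a i • (1 : AA) + PP a i • Ph (W3 i) := by
  have e1 : gen (i, true) = of i := rfl
  have e2 : gen (i, false) = (of i)⁻¹ := gen_bar (i, true)
  simp only [r, rs, add_mul, mul_add, single_mul_single, mul_inv_cancel, W3, e1, e2, map_add, Ph,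
    mapDomainAlgHom_apply, mapDomain_single, _root_.map_inv, ph, FreeGroup.lift_apply_of, mul_inv_rev,
    inv_inv, smul_add, smul_single, MonoidAlgebra.one_def, ss, PP, smul_eq_mul, mul_one, single_add,
    sq, mul_comm (a (i, false)) (a (i, true))]
  abel

lemma X3_eq (P : Fin 3 → ℝ) : X3 P = ∑ i, P i • W3 i := by
  simp [X3, W3, Fintype.sum_prod_type]

lemma Y_eq (a : Lt → ℝ) : Y a = (∑ i, ss a i) • (1 : AA) + Ph (X3 (PP a)) := by
  simp only [Y, r_rs, Finset.sum_add_distrib, X3_eq, map_sum, map_smul, Finset.sum_smul]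

lemma τ_XW (P : Fin 3 → ℝ) (j : ℕ) (i : Fin 3) :
    τ (Ph (X3 P) ^ j * Ph (W3 i)) = ff P j (gen (i, false)) + ff P j (gen (i, true)) := by
  rw [← map_pow, ← _root_.map_mul, τ_Ph, W3, mul_add, coeff_add, Finsupp.add_apply,
    coeff_mul_single_apply, coeff_mul_single_apply, ← gen_bar, ← gen_bar]
  simp [ff, bar]

lemma τ_X (P : Fin 3 → ℝ) (j : ℕ) : τ (Ph (X3 P) ^ j) = ff P j 1 := by
  rw [← map_pow, τ_Ph]; rfl

end

end Pool.Agent.H90.Iso
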