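import Pool.Agent.H90.IsoC

namespace Pool.Agent.H90.Iso

open MonoidAlgebra Filter Topology Metric

noncomputable section

def P0 (i : Fin 3) : ℝ := (i : ℕ) + 1

lemma P0_0 : P0 0 = 1 := by simp [P0]
lemma P0_1 : P0 1 = 2 := by norm_num [P0]
lemma P0_2 : P0 2 = 3 := by norm_num [P0]

lemma shift {X Yy : AA} {S : ℝ} (h : Yy = S • (1 : AA) + X) (m j : ℕ) :
    X ^ (m + 1) * Yy ^ j = X ^ m * Yy ^ (j + 1) - S • (X ^ m * Yy ^ j) := by
  have : X = Yy - S • (1 : AA) := by rw [h]; abel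
  rw [pow_succ, mul_assoc, pow_succ']
  conv_lhs => rw [show X * Yy ^ j = (Yy - S • (1 : AA)) * Yy ^ j by rw [← this]]
  rw [sub_mul, smul_mul_assoc, one_mul, mul_sub, mul_smul_comm]

lemma f1e (P : Fin 3 → ℝ) : ff P 1 1 = 0 := by rw [ff_succ]; simp [f0]

lemma inj_b (a : Lt → ℝ) (ha : PP a = P0) (b : VV → ℝ)
    (h : ∀ j < 7, T (M0 a ^ (2 * j) * Bm b) = 0) : b = 0 := by
  set κ : Fin 3 → ℝ := fun i => b (some i) + b none with hκ
  set Z : AA := ∑ i, κ i • (r a i * rs a i) with hZ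
  have h1 : ∀ j < 6, τ (Y a ^ j * Z) = 0 := by
    intro j hj
    have := h (j + 1) (by omega)
    rw [T_B, Fintype.sum_option, pow_even] at this
    simp only [mul_add, mul_one, pow_ss, pow_even] at this
    rw [← this, pow_succ]
    conv_rhs => rw [show Y a ^ j * Y a = ∑ i, Y a ^ j * (r a i * rs a i) by
      rw [← Finset.mul_sum]; rfl]
    simp only [hZ, hκ, Finset.mul_sum, mul_smul_comm, map_sum, map_smul, smul_eq_mul,
      ← Finset.sum_add_distrib]
    exact Finset.sum_congr rfl fun i _ => by ring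
  have h2 : ∀ m j, m + j < 6 → τ (Ph (X3 P0) ^ m * Y a ^ j * Z) = 0 := by
    intro m
    induction m with
    | zero => intro j hj; simpa using h1 j (by omega)
    | succ m ih =>
      intro j hj
      rw [shift (ha ▸ Y_eq a), sub_mul, smul_mul_assoc, map_sub, map_smul, ih _ (by omega),
        ih _ (by omega)]
      simp
  have h3 : ∀ m < 6, (∑ i, κ i * ss a i) * ff P0 m 1
      + ∑ i, κ i * P0 i * (ff P0 m (gen (i, false)) + ff P0 m (gen (i, true))) = 0 := by
    intro m hm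
    rw [← h2 m 0 hm, pow_zero, mul_one, hZ]
    simp only [r_rs, ha, Finset.mul_sum, mul_smul_comm, mul_add, mul_one, map_sum, map_smul,
      map_add, τ_XW, τ_X, smul_eq_mul, Finset.sum_mul, ← Finset.sum_add_distrib]
    exact Finset.sum_congr rfl fun i _ => by ring
  have e0 := h3 0 (by norm_num)
  simp only [f0, add_zero, mul_zero, Finset.sum_const_zero] at e0
  rw [ff_zero, if_pos rfl, mul_one] at e0
  have e1 := h3 1 (by norm_num)
  have e3 := h3 3 (by norm_num)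
  have e5 := h3 5 (by norm_num)
  rw [e0, zero_mul, zero_add] at e1 e3 e5
  simp only [f1, f3, f5, q, Fin.sum_univ_three, P0_0, P0_1, P0_2] at e1 e3 e5
  have k0 : κ 0 = 0 := by linarith
  have k1 : κ 1 = 0 := by linarith
  have k2 : κ 2 = 0 := by linarith
  have z := h 0 (by norm_num)
  rw [T_B, Fintype.sum_option] at z
  simp only [mul_zero, pow_zero, Matrix.one_apply_eq, τ_one, mul_one, Fin.sum_univ_three] at z
  simp only [hκ] at k0 k1 k2
  funext x
  rcases x with _ | i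
  · change b none = 0; linarith
  · fin_cases i
    · change b (some 0) = 0; linarith
    · change b (some 1) = 0; linarith
    · change b (some 2) = 0; linarith

lemma Bm_zero : Bm 0 = 0 := by simp [Bm]

lemma Bm_smul (t : ℝ) (b : VV → ℝ) : Bm (t • b) = t • Bm b := by
  rw [Bm, Bm, ← Matrix.diagonal_smul]
  congr 1
  funext x
  simp [smul_smul]

lemma moment_zero (a : Lt → ℝ) (k : ℕ) : moment sv tv (0, a) k = T (M0 a ^ k) / 4 := by
  rw [moment_eq, Bm_zero, add_zero]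

lemma local_b (a : Lt → ℝ) (ha : PP a = P0) : ∀ᶠ J in 𝓝 ((0, a) : (VV → ℝ) × (Lt → ℝ)),
    (∀ j, moment sv tv J (2 * j + 1) = 0) → J.1 = 0 := by
  let F : (VV → ℝ) × (Lt → ℝ) → Fin 7 → ℝ := fun J j => moment sv tv J (2 * j + 1)
  have hF : ContDiff ℝ 1 F := contDiff_pi.2 fun j => contDiff_moment _
  have hs := (hF.contDiffAt (x := (0, a))).hasStrictFDerivAt one_ne_zero
  set f' := fderiv ℝ F (0, a)
  let L : (VV → ℝ) →L[ℝ] Fin 7 → ℝ := f'.comp (ContinuousLinearMap.inl ℝ _ _)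
  have hL : LinearMap.ker (L : (VV → ℝ) →ₗ[ℝ] Fin 7 → ℝ) = ⊥ := by
    rw [LinearMap.ker_eq_bot']
    intro b hb
    refine inj_b a ha b fun j hj => ?_
    have c1 : HasDerivAt (fun t : ℝ => ((t • b, a) : (VV → ℝ) × (Lt → ℝ))) (b, 0) 0 := by
      simpa using ((hasDerivAt_id (0 : ℝ)).smul_const b).prodMk (hasDerivAt_const (0 : ℝ) a)
    have c2 : HasDerivAt (fun t : ℝ => F (t • b, a)) (f' (b, 0)) 0 :=
      HasFDerivAt.comp_hasDerivAt_of_eq (l := F) (0 : ℝ) hs.hasFDerivAt c1 (by simp)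
    have c3 := hasDerivAt_pi.1 c2 ⟨j, hj⟩
    have c4 : f' (b, 0) = 0 := hb
    rw [c4] at c3
    have c5 := (hasDerivAt_pow' (M0 a) (Bm b) (2 * j + 1) T).div_const 4
    simp only [F, moment_eq, Bm_smul] at c3
    have c6 := c5.unique c3
    have c7 := T_DD (M0 a) (Bm b) (2 * j) 0
    rw [pow_zero, mul_one, add_zero] at c7
    rw [c7] at c6
    simp only [Pi.zero_apply, div_eq_zero_iff, mul_eq_zero, OfNat.ofNat_ne_zero, or_false] at c6
    exact c6.resolve_left (by positivity)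
  obtain ⟨K, hK, hK'⟩ := LinearMap.exists_antilipschitzWith _ hL
  have hK0 : (0 : ℝ) < K := hK
  have h1 := hs.isLittleO.def (c := 1 / (2 * K)) (by positivity)
  have t1 : Tendsto (fun J : (VV → ℝ) × (Lt → ℝ) => (J, ((0, J.2) : (VV → ℝ) × (Lt → ℝ))))
      (𝓝 (0, a)) (𝓝 ((0, a), (0, a))) :=
    (by fun_prop : Continuous fun J : (VV → ℝ) × (Lt → ℝ) =>
      (J, ((0, J.2) : (VV → ℝ) × (Lt → ℝ)))).tendsto' _ _ rfl
  filter_upwards [t1.eventually h1] with J hJ h0
  have a1 : F J = 0 := funext fun j => h0 j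
  have a2 : F (0, J.2) = 0 := funext fun j => by simp only [F, moment_zero, T_odd]; simp
  have a3 : J - (0, J.2) = (J.1, 0) := by ext <;> simp
  simp only [a1, a2, a3, sub_self, zero_sub, norm_neg, Prod.norm_mk, norm_zero, norm_nonneg,
    sup_of_le_left] at hJ
  have a4 : ‖J.1‖ ≤ K * ‖f' (J.1, 0)‖ := ZeroHomClass.bound_of_antilipschitz _ hK' J.1
  have a5 : K * ‖f' (J.1, 0)‖ ≤ ‖J.1‖ / 2 := by
    calc _ ≤ K * (1 / (2 * K) * ‖J.1‖) := by gcongr
      _ = _ := by field_simp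
  exact norm_eq_zero.1 (by linarith [norm_nonneg J.1])

lemma even_rigid (a a' : Lt → ℝ) (ha : PP a' = P0) (h : ∀ k, T (M0 a ^ k) = T (M0 a' ^ k)) :
    ∑ i, ss a i = ∑ i, ss a' i ∧
      ∀ i, (PP a i ^ 2 - 1) * (PP a i ^ 2 - 4) * (PP a i ^ 2 - 9) = 0 := by
  have h1 : ∀ j, τ (Y a ^ j) = τ (Y a' ^ j) := by
    intro j
    cases j with
    | zero => simp
    | succ j => have := h (2 * (j + 1)); rw [T_even, T_even] at this; linarith
  have h2 : ∑ i, ss a i = ∑ i, ss a' i := by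
    have := h1 1
    rw [Y_eq, Y_eq, pow_one, pow_one, map_add, map_add, ← pow_one (Ph _), τ_X, f1e,
      ← pow_one (Ph _), τ_X, f1e] at this
    simpa [τ_one] using this
  have h3 : ∀ m j, τ (Ph (X3 (PP a)) ^ m * Y a ^ j) = τ (Ph (X3 P0) ^ m * Y a' ^ j) := by
    intro m
    induction m with
    | zero => intro j; simpa using h1 j
    | succ m ih =>
      intro j
      rw [shift (Y_eq a), shift (ha ▸ Y_eq a'), map_sub, map_sub, map_smul, map_smul, ih, ih, h2]
  have h4 : ∀ m, ff (PP a) m 1 = ff P0 m 1 := fun m => by simpa [τ_X] using h3 m 0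
  have e2 := h4 2
  have e4 := h4 4
  have e6 := h4 6
  rw [f2e, f2e] at e2
  rw [f4e, f4e] at e4
  rw [f6e, f6e] at e6
  have q2 : q P0 2 = 14 := by simp only [q, Fin.sum_univ_three, P0_0, P0_1, P0_2]; norm_num
  have q4 : q P0 4 = 98 := by simp only [q, Fin.sum_univ_three, P0_0, P0_1, P0_2]; norm_num
  have q6 : q P0 6 = 794 := by simp only [q, Fin.sum_univ_three, P0_0, P0_1, P0_2]; norm_num
  have p2 : q (PP a) 2 = 14 := by linarith
  have p4 : q (PP a) 4 = 98 := by rw [p2, q2, q4] at e4; linarith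
  have p6 : q (PP a) 6 = 794 := by rw [p2, p4, q2, q4, q6] at e6; linarith
  simp only [q, Fin.sum_univ_three] at p2 p4 p6
  refine ⟨h2, ?_⟩
  set x := PP a 0 ^ 2 with hx
  set y := PP a 1 ^ 2 with hy
  set z := PP a 2 ^ 2 with hz
  have p4' : x ^ 2 + y ^ 2 + z ^ 2 = 98 := by rw [hx, hy, hz, ← p4]; ring
  have p6' : x ^ 3 + y ^ 3 + z ^ 3 = 794 := by rw [hx, hy, hz, ← p6]; ring
  have s2 : x * y + x * z + y * z = 49 := by
    linear_combination (x + y + z + 14) / 2 * p2 - p4' / 2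
  have s3 : x * y * z = 36 := by
    linear_combination p6' / 3 - ((x + y + z) ^ 2 + 14 * (x + y + z) + 196) / 3 * p2
      + (x * y + x * z + y * z) * p2 + 14 * s2
  intro i
  fin_cases i
  · change (x - 1) * (x - 4) * (x - 9) = 0
    linear_combination x ^ 2 * p2 - x * s2 + s3
  · change (y - 1) * (y - 4) * (y - 9) = 0
    linear_combination y ^ 2 * p2 - y * s2 + s3
  · change (z - 1) * (z - 4) * (z - 9) = 0
    linear_combination z ^ 2 * p2 - z * s2 + s3

lemma T_congr (a a' : Lt → ℝ) (h : Y a = Y a') (k : ℕ) : T (M0 a ^ k) = T (M0 a' ^ k) := by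
  obtain ⟨j, rfl | rfl⟩ := Nat.even_or_odd' k
  · cases j with
    | zero => simp
    | succ j => rw [T_even, T_even, h]
  · rw [T_odd, T_odd]

def ψ (d : S2) : (VV → ℝ) × (Lt → ℝ) :=
  (0, fun e => ((if e.2 then 1 else -1) * d.1 e.1 + √(d.1 e.1 ^ 2 + 4 * P0 e.1)) / 2)

lemma P0_pos (i : Fin 3) : 0 < P0 i := by unfold P0; positivity

lemma cont_ψ : Continuous ψ := by unfold ψ; fun_prop

lemma ψ_PP (d : S2) : PP (ψ d).2 = P0 := by
  funext i
  have := Real.sq_sqrt (show 0 ≤ d.1 i ^ 2 + 4 * P0 i by have := P0_pos i; positivity)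
  simp only [PP, ψ, if_true, Bool.false_eq_true, if_false]
  linear_combination this / 4

lemma ψ_sub (d : S2) (i : Fin 3) : (ψ d).2 (i, true) - (ψ d).2 (i, false) = d.1 i := by
  simp only [ψ, if_true, Bool.false_eq_true, if_false]; ring

lemma ss_eq (a : Lt → ℝ) (i : Fin 3) :
    ss a i = (a (i, true) - a (i, false)) ^ 2 + 2 * PP a i := by unfold ss PP; ring

lemma ψ_ss (d : S2) : ∑ i, ss (ψ d).2 i = 13 := by
  have := (mem_S2 _).1 d.2
  simp only [ss_eq, ψ_sub, ψ_PP, Fin.sum_univ_three, P0_0, P0_1, P0_2]; linarith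

lemma ψ_par (d : S2) : ψ d ∈ Par VV Lt := by
  intro e
  have h : |d.1 e.1| < √(d.1 e.1 ^ 2 + 4 * P0 e.1) :=
    Real.lt_sqrt_of_sq_lt (by rw [sq_abs]; linarith [P0_pos e.1])
  have := abs_lt.1 h
  simp only [ψ]
  split_ifs <;> linarith

lemma ψ_inj : Function.Injective ψ := fun d d' h => by
  apply Subtype.ext
  ext i
  rw [← ψ_sub, ← ψ_sub, h]

lemma ψ_iso (d d' : S2) : ψ d ∈ isoDOS sv tv (ψ d') := by
  refine ⟨ψ_par d, fun k => ?_⟩
  change moment sv tv (0, (ψ d).2) k = moment sv tv (0, (ψ d').2) k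
  rw [moment_zero, moment_zero, T_congr]
  rw [Y_eq, Y_eq, ψ_PP, ψ_PP, ψ_ss, ψ_ss]

lemma mem_range (a : Lt → ℝ) (h0 : ∀ e, 0 < a e) (h1 : PP a = P0) (h2 : ∑ i, ss a i = 13) :
    ((0, a) : (VV → ℝ) × (Lt → ℝ)) ∈ Set.range ψ := by
  refine ⟨⟨WithLp.toLp 2 fun i => a (i, true) - a (i, false), ?_⟩, ?_⟩
  · rw [mem_S2]
    simp only [ss_eq, h1, Fin.sum_univ_three, P0_0, P0_1, P0_2] at h2
    simp only
    linarith
  · refine Prod.ext rfl (funext fun e => ?_)
    obtain ⟨i, c⟩ := e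
    have : √((a (i, true) - a (i, false)) ^ 2 + 4 * P0 i) = a (i, true) + a (i, false) := by
      rw [← h1, show (a (i, true) - a (i, false)) ^ 2 + 4 * PP a i
        = (a (i, true) + a (i, false)) ^ 2 by unfold PP; ring]
      exact Real.sqrt_sq (by linarith [h0 (i, true), h0 (i, false)])
    cases c <;> simp [ψ, this]
    ring

lemma local_iso (d d' : S2) : ∀ᶠ J in 𝓝 (ψ d), J ∈ isoDOS sv tv (ψ d') → J ∈ Set.range ψ := by
  have h1 := local_b (ψ d).2 (ψ_PP d)
  have h2 : ∀ᶠ J in 𝓝 (ψ d), ∀ i, |PP J.2 i - P0 i| < 1 / 2 := by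
    rw [eventually_all]
    intro i
    have c : Continuous fun J : (VV → ℝ) × (Lt → ℝ) => |PP J.2 i - P0 i| := by
      unfold PP; fun_prop
    exact c.continuousAt.eventually_lt continuousAt_const (by simp [ψ_PP])
  filter_upwards [h1, h2] with J hJ1 hJ2 hJ
  have e : ∀ k, moment sv tv (ψ d') k = T (M0 (ψ d').2 ^ k) / 4 := fun k => moment_zero _ k
  have hb := hJ1 fun j => by rw [hJ.2, e, T_odd, zero_div]
  obtain ⟨b, a⟩ := J
  simp only at hb hJ2
  subst hb
  obtain ⟨h3, h4⟩ := even_rigid a (ψ d').2 (ψ_PP d') fun k => by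
    have := hJ.2 k
    rw [e, moment_zero] at this
    linarith
  refine mem_range a hJ.1 (funext fun i => ?_) (h3.trans (ψ_ss d'))
  have h5 := abs_lt.1 (hJ2 i)
  have h6 := h4 i
  have h7 : 1 ≤ P0 i := by unfold P0; have := Nat.cast_nonneg (α := ℝ) i; linarith
  have h8 : PP a i = 1 ∨ PP a i = 2 ∨ PP a i = 3 := by
    rcases mul_eq_zero.1 h6 with h | h
    · rcases mul_eq_zero.1 h with h | h
      · left; nlinarith
      · right; left; nlinarith
    · right; right; nlinarith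
  have h9 : P0 i = 1 ∨ P0 i = 2 ∨ P0 i = 3 := by
    fin_cases i
    · exact Or.inl P0_0
    · exact Or.inr (Or.inl P0_1)
    · exact Or.inr (Or.inr P0_2)
  rcases h8 with h | h | h <;> rcases h9 with h' | h' | h' <;> linarith

theorem comp_eq (d : S2) : connectedComponentIn (isoDOS sv tv (ψ d)) (ψ d) = Set.range ψ := by
  haveI : ConnectedSpace S2 := Subtype.connectedSpace (isConnected_sphere (by
    rw [← Module.finrank_eq_rank]; simp) _ zero_le_one)
  refine Set.Subset.antisymm ?_ ((isPreconnected_range cont_ψ).subset_connectedComponentIn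
    ⟨d, rfl⟩ (by rintro _ ⟨d', rfl⟩; exact ψ_iso d' d))
  let O := interior {J | J ∈ isoDOS sv tv (ψ d) → J ∈ Set.range ψ}
  have hO : Set.range ψ ⊆ O := by
    rintro _ ⟨d', rfl⟩
    exact mem_interior_iff_mem_nhds.2 (local_iso d' d)
  intro J hJ
  by_contra hn
  obtain ⟨K, hK, hK1, hK2⟩ := isPreconnected_connectedComponentIn
    (x := ψ d) (F := isoDOS sv tv (ψ d)) O (Set.range ψ)ᶜ isOpen_interior
    (isCompact_range cont_ψ).isClosed.isOpen_compl
    (fun K _ => (em (K ∈ Set.range ψ)).imp (fun h => hO h) id)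
    ⟨ψ d, mem_connectedComponentIn (ψ_iso d d), hO ⟨d, rfl⟩⟩ ⟨J, hJ, hn⟩
  exact hK2 (interior_subset hK1 (connectedComponentIn_subset _ _ hK))

theorem main : ∃ J₀ ∈ Par VV Lt,
    Nonempty (connectedComponentIn (isoDOS sv tv J₀) J₀ ≃ₜ S2) ∧
    ∀ k : ℕ, IsEmpty (connectedComponentIn (isoDOS sv tv J₀) J₀ ≃ₜ (Fin k → Circle)) := by
  let d : S2 := ⟨!₂[1, 0, 0], by rw [mem_S2]; simp⟩
  have h : connectedComponentIn (isoDOS sv tv (ψ d)) (ψ d) ≃ₜ S2 :=
    (Homeomorph.setCongr (comp_eq d)).trans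
      (cont_ψ.isClosedEmbedding ψ_inj).isEmbedding.toHomeomorph.symm
  exact ⟨ψ d, ψ_par d, ⟨h⟩, fun k => ⟨fun g => (not_torus k).false (h.symm.trans g)⟩⟩

end

end Pool.Agent.H90.Iso
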