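import Mathlib

/-! Periodic Jacobi matrices on universal covers of finite multigraphs, and IsoDOS sets. -/

namespace Pool.Agent.H90.Iso

open scoped Classical

noncomputable section

variable {V E : Type} [Fintype V] [Fintype E]

/-- The multigraph with edge set `E`, the edge `e` joining `s e` and `t e`, is connected. -/
def Conn (s t : E → V) : Prop :=
  ∀ x y, Relation.ReflTransGen (fun x y => ∃ e, (s e = x ∧ t e = y) ∨ (t e = x ∧ s e = y)) x y

/-- Degree of a vertex; a self-loop counts twice. -/
def deg (s t : E → V) (x : V) : ℕ :=
  (Finset.univ.filter fun e => s e = x).card + (Finset.univ.filter fun e => t e = x).card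

/-- The lifted Jacobi matrix for parameters `J = (b, a)`. It acts on functions on the covering graph
with vertex set `V × FreeGroup E`, where `(s e, g)` is joined to `(t e, g * e)` by a lift of `e`.
Every connected component of this graph is a copy of the universal cover tree. -/
def lift (s t : E → V) (J : (V → ℝ) × (E → ℝ)) (u : V × FreeGroup E → ℝ) :
    V × FreeGroup E → ℝ := fun p =>
  J.1 p.1 * u p + ∑ e, ((if s e = p.1 then J.2 e * u (t e, p.2 * FreeGroup.of e) else 0)
    + (if t e = p.1 then J.2 e * u (s e, p.2 * (FreeGroup.of e)⁻¹) else 0))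

/-- The `k`-th moment `(1/p) ∑ₓ ⟨δ, H ^ k δ⟩` of the density of states. -/
def moment (s t : E → V) (J : (V → ℝ) × (E → ℝ)) (k : ℕ) : ℝ :=
  (∑ x, (lift s t J)^[k] (fun q => if q = (x, 1) then 1 else 0) (x, 1)) / Fintype.card V

/-- The parameter space: all edge weights positive. -/
def Par (V E : Type) : Set ((V → ℝ) × (E → ℝ)) := {J | ∀ e, 0 < J.2 e}

/-- The IsoDOS set: the density of states is a compactly supported probability measure, so two of
them agree exactly when all their moments agree. -/
def isoDOS (s t : E → V) (J₀ : (V → ℝ) × (E → ℝ)) : Set ((V → ℝ) × (E → ℝ)) :=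
  {J | J ∈ Par V E ∧ ∀ k, moment s t J k = moment s t J₀ k}

end

end Pool.Agent.H90.Iso
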