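import Mathlib

namespace Pool.Agent.H90.Iss

open Set MeasureTheory Filter Topology

/-- Euclidean space `ℝ^n` -/
abbrev Euc (n : ℕ) : Type := EuclideanSpace ℝ (Fin n)

/-- the state space `X = C([-T,0], ℝ^n)` with the sup norm -/
abbrev Hist (T : ℝ) (n : ℕ) : Type := C(Icc (-T) (0 : ℝ), Euc n)

def ClassK (α : ℝ → ℝ) : Prop :=
  ContinuousOn α (Ici 0) ∧ StrictMonoOn α (Ici 0) ∧ α 0 = 0

def ClassKInf (α : ℝ → ℝ) : Prop := ClassK α ∧ Tendsto α atTop atTop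

def ClassKL (β : ℝ → ℝ → ℝ) : Prop :=
  (∀ t, 0 ≤ t → ClassK (fun r => β r t)) ∧
    ∀ r, 0 ≤ r → AntitoneOn (β r) (Ici 0) ∧ Tendsto (β r) atTop (𝓝 0)

variable {T : ℝ} {n m : ℕ}

/-- `x(0)` -/
def cur (hT : 0 < T) (x : Hist T n) : Euc n := x ⟨0, by constructor <;> linarith⟩

/-- the history `ξ_t (s) = ξ (t + s)`, `s ∈ [-T,0]` -/
def seg (T : ℝ) (ξ : C(ℝ, Euc n)) (t : ℝ) : Hist T n :=
  ξ.comp ⟨fun s => t + (s : ℝ), by fun_prop⟩

/-- `x` on `[-T,0]` continued by `s ↦ x(0) + s w` for `s ≥ 0` -/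
noncomputable def ext (hT : 0 < T) (x : Hist T n) (w : Euc n) : C(ℝ, Euc n) :=
  ⟨fun s => x (projIcc (-T) 0 (neg_nonpos.2 hT.le) s) + max s 0 • w,
    (x.continuous.comp (continuous_projIcc (h := neg_nonpos.2 hT.le))).add
      ((continuous_id.max continuous_const).smul continuous_const)⟩

/-- upper right Dini derivative -/
noncomputable def dini (w : ℝ → ℝ) (t : ℝ) : EReal :=
  limsup (fun h : ℝ => (((w (t + h) - w t) / h : ℝ) : EReal)) (𝓝[>] 0)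

/-- the Driver derivative; `seg T (ext hT x (f x v)) h` is `φ*(h,x,v)` -/
noncomputable def driver (hT : 0 < T) (f : Hist T n → Euc m → Euc n) (V : Hist T n → ℝ)
    (x : Hist T n) (v : Euc m) : EReal :=
  limsup (fun h : ℝ => (((V (seg T (ext hT x (f x v)) h) - V x) / h : ℝ) : EReal)) (𝓝[>] 0)

/-- the standing assumptions on the right-hand side -/
def Admissible (f : Hist T n → Euc m → Euc n) : Prop :=
  Continuous (fun p : Hist T n × Euc m => f p.1 p.2) ∧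
    (∀ R : ℝ, ∃ L : ℝ, ∀ x y v, ‖x‖ ≤ R → ‖y‖ ≤ R → ‖v‖ ≤ R →
      ‖f x v - f y v‖ ≤ L * ‖x - y‖) ∧ f 0 0 = 0

/-- `u ∈ L^∞(ℝ_+, ℝ^m)` -/
def IsInput (u : ℝ → Euc m) : Prop := MemLp u ⊤ (volume.restrict (Ici (0 : ℝ)))

/-- `‖u‖_∞` -/
noncomputable def inputNorm (u : ℝ → Euc m) : ℝ :=
  (eLpNorm u ⊤ (volume.restrict (Ici (0 : ℝ)))).toReal

/-- `ξ` solves `ξ'(t) = f(ξ_t, u(t))` on `[0,b]` (integral form), from the initial state `ξ_0` -/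
def IsSol (f : Hist T n → Euc m → Euc n) (u : ℝ → Euc m) (ξ : C(ℝ, Euc n)) (b : ℝ) : Prop :=
  ∀ t ∈ Icc 0 b, IntervalIntegrable (fun s => f (seg T ξ s) (u s)) volume 0 t ∧
    ξ t = ξ 0 + ∫ s in (0 : ℝ)..t, f (seg T ξ s) (u s)

/-- the regularity condition on `V` -/
def Regular (hT : 0 < T) (f : Hist T n → Euc m → Euc n) (V : Hist T n → ℝ) : Prop :=
  ∀ u, IsInput u → ∀ (ξ : C(ℝ, Euc n)) (b : ℝ), 0 < b → IsSol f u ξ b →
    AbsolutelyContinuousOnInterval (fun t => V (seg T ξ t)) 0 b ∧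
    (∀ᵐ t : ℝ, t ∈ Ico 0 b →
      dini (fun t => V (seg T ξ t)) t = driver hT f V (seg T ξ t) (u t)) ∧
    ∀ t ∈ Ico 0 b, ContinuousWithinAt u (Ioi t) t →
      dini (fun t => V (seg T ξ t)) t = driver hT f V (seg T ξ t) (u t)

/-- the ISS estimate along all solutions defined on `[0,∞)` -/
def ISSEstimate (f : Hist T n → Euc m → Euc n) : Prop :=
  ∃ (β : ℝ → ℝ → ℝ) (γ : ℝ → ℝ), ClassKL β ∧ ClassKInf γ ∧
    ∀ u, IsInput u → ∀ ξ : C(ℝ, Euc n), (∀ b, IsSol f u ξ b) →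
      ∀ t, 0 ≤ t → ‖ξ t‖ ≤ β ‖seg T ξ 0‖ t + γ (inputNorm u)

end Pool.Agent.H90.Iss
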