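import Mathlib
import Pool.Agent.H90.IssDefs

namespace Pool.Agent.H90.Iss

open Set MeasureTheory Filter Topology

section BL
variable {P F F' : Type*} [NormedAddCommGroup P] [NormedAddCommGroup F] [NormedAddCommGroup F']

/-- bounded and Lipschitz on bounded sets -/
def BL (g : P → F) : Prop :=
  ∀ R : ℝ, ∃ L M : ℝ, 0 ≤ L ∧ 0 ≤ M ∧ (∀ p, ‖p‖ ≤ R → ‖g p‖ ≤ M) ∧
    ∀ p q, ‖p‖ ≤ R → ‖q‖ ≤ R → ‖g p - g q‖ ≤ L * ‖p - q‖

lemma BL.of_lip {g : P → F} {K : NNReal} (h : LipschitzWith K g) : BL g := by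
  intro R
  refine ⟨K, ‖g 0‖ + K * |R|, K.2, by positivity, fun p hp => ?_, fun p q _ _ => ?_⟩
  · have h1 := h.dist_le_mul p 0
    rw [dist_eq_norm, dist_zero_right] at h1
    have h2 : ‖g p‖ ≤ ‖g 0‖ + ‖g p - g 0‖ := by
      calc ‖g p‖ = ‖g 0 + (g p - g 0)‖ := by congr 1; abel
        _ ≤ _ := norm_add_le _ _
    have h3 : (K : ℝ) * ‖p‖ ≤ K * |R| := by
      gcongr; exact hp.trans (le_abs_self R)
    linarith
  · simpa [dist_eq_norm] using h.dist_le_mul p q

lemma BL.const (c : F) : BL (fun _ : P => c) := BL.of_lip (LipschitzWith.const c)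

lemma BL.comp {g : P → F} {φ : F → F'} (hφ : BL φ) (h : BL g) : BL (fun p => φ (g p)) := by
  intro R
  obtain ⟨L, M, hL, hM, hb, hl⟩ := h R
  obtain ⟨L', M', hL', hM', hb', hl'⟩ := hφ M
  refine ⟨L' * L, M', by positivity, hM', fun p hp => hb' _ (hb p hp), fun p q hp hq => ?_⟩
  calc _ ≤ L' * ‖g p - g q‖ := hl' _ _ (hb p hp) (hb q hq)
    _ ≤ L' * (L * ‖p - q‖) := by gcongr; exact hl p q hp hq
    _ = _ := by ring

lemma BL.add {g g' : P → F} (h : BL g) (h' : BL g') : BL (fun p => g p + g' p) := by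
  intro R
  obtain ⟨L, M, hL, hM, hb, hl⟩ := h R
  obtain ⟨L', M', hL', hM', hb', hl'⟩ := h' R
  refine ⟨L + L', M + M', by positivity, by positivity,
    fun p hp => (norm_add_le _ _).trans (add_le_add (hb p hp) (hb' p hp)), fun p q hp hq => ?_⟩
  calc _ = ‖(g p - g q) + (g' p - g' q)‖ := by rw [add_sub_add_comm]
    _ ≤ ‖g p - g q‖ + ‖g' p - g' q‖ := norm_add_le _ _
    _ ≤ L * ‖p - q‖ + L' * ‖p - q‖ := add_le_add (hl p q hp hq) (hl' p q hp hq)
    _ = _ := by ring

lemma BL.neg {g : P → F} (h : BL g) : BL (fun p => - g p) :=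
  (BL.of_lip (LipschitzWith.id.neg)).comp h

lemma BL.sub {g g' : P → F} (h : BL g) (h' : BL g') : BL (fun p => g p - g' p) := by
  simpa [sub_eq_add_neg] using h.add h'.neg

lemma BL.smul [NormedSpace ℝ F] {c : P → ℝ} {g : P → F} (hc : BL c) (h : BL g) :
    BL (fun p => c p • g p) := by
  intro R
  obtain ⟨L, M, hL, hM, hb, hl⟩ := hc R
  obtain ⟨L', M', hL', hM', hb', hl'⟩ := h R
  refine ⟨M * L' + L * M', M * M', by positivity, by positivity, fun p hp => ?_,
    fun p q hp hq => ?_⟩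
  · rw [norm_smul]; exact mul_le_mul (hb p hp) (hb' p hp) (norm_nonneg _) hM
  · calc _ = ‖c p • (g p - g q) + (c p - c q) • g q‖ := by
          congr 1; rw [smul_sub, sub_smul]; abel
      _ ≤ ‖c p‖ * ‖g p - g q‖ + ‖c p - c q‖ * ‖g q‖ := by
          refine (norm_add_le _ _).trans ?_
          rw [norm_smul, norm_smul]
      _ ≤ M * (L' * ‖p - q‖) + (L * ‖p - q‖) * M' := by
          gcongr
          · exact hb p hp
          · exact hl' p q hp hq
          · exact hl p q hp hq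
          · exact hb' q hq
      _ = _ := by ring

lemma BL.mul {c g : P → ℝ} (hc : BL c) (h : BL g) : BL (fun p => c p * g p) := hc.smul h

lemma BL.sq {c : P → ℝ} (hc : BL c) : BL (fun p => c p ^ 2) := by
  simpa [pow_two] using hc.mul hc

lemma BL.norm {g : P → F} (h : BL g) : BL (fun p => ‖g p‖) :=
  (BL.of_lip lipschitzWith_one_norm).comp h

lemma BL.clamp {c : P → ℝ} (hc : BL c) : BL (fun p => max 0 (min 1 (c p))) :=
  (BL.of_lip ((LipschitzWith.id.const_min (1 : ℝ)).const_max 0)).comp hc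

lemma BL.continuous {g : P → F} (h : BL g) : Continuous g := by
  rw [continuous_iff_continuousAt]
  intro p
  obtain ⟨L, M, hL, -, -, hl⟩ := h (‖p‖ + 1)
  have : LipschitzOnWith ⟨L, hL⟩ g (Metric.ball p 1) := by
    refine LipschitzOnWith.of_dist_le_mul fun a ha b hb => ?_
    have k : ∀ c ∈ Metric.ball p 1, ‖c‖ ≤ ‖p‖ + 1 := fun c hc => by
      have := mem_ball_iff_norm.1 hc
      calc ‖c‖ = ‖p + (c - p)‖ := by congr 1; abel
        _ ≤ ‖p‖ + ‖c - p‖ := norm_add_le _ _
        _ ≤ _ := by linarith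
    rw [dist_eq_norm, dist_eq_norm]
    exact hl a b (k a ha) (k b hb)
  exact this.continuousOn.continuousAt (Metric.ball_mem_nhds p one_pos)

end BL

abbrev X : Type := Hist 1 2

noncomputable def e0 : Euc 2 := EuclideanSpace.single 0 1
noncomputable def e1 : Euc 2 := EuclideanSpace.single 1 1

def old (x : X) : Euc 2 := x ⟨-1, by constructor <;> linarith⟩

noncomputable def II (x : X) : ℝ :=
  ∫ s in (-1 : ℝ)..0, (x (projIcc (-1) 0 (by linarith) s) 0) ^ 2

noncomputable def VV (x : X) : ℝ := ‖cur one_pos x‖ ^ 2 + 1296 * II x ^ 2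

noncomputable def rate (x : X) (w : Euc 2) : ℝ :=
  2 * (cur one_pos x 0 * w 0 + cur one_pos x 1 * w 1) +
    2592 * II x * (cur one_pos x 0 ^ 2 - old x 0 ^ 2)

noncomputable def GG (x : X) : Euc 2 :=
  (-1 / 2 : ℝ) • cur one_pos x - (1296 * II x * cur one_pos x 0) • e0

noncomputable def hh (x : X) : ℝ := 1 + 10000 * VV x ^ 2

noncomputable def FF (x : X) (v : Euc 2) : Euc 2 := hh x • (v - (2 : ℝ) • e0)

noncomputable def del (x : X) (v : Euc 2) : ℝ :=
  -‖cur one_pos x‖ + 357 * ‖v‖ - rate x (FF x v)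

noncomputable def ff (x : X) (v : Euc 2) : Euc 2 :=
  GG x + max 0 (min 1 (del x v)) • (FF x v - GG x)

lemma bl_eval (s : Icc (-1 : ℝ) 0) : BL (fun x : X => x s) :=
  BL.of_lip (K := 1) (LipschitzWith.of_dist_le_mul fun x y => by
    simpa using ContinuousMap.dist_apply_le_dist (f := x) (g := y) s)

lemma bl_coord (i : Fin 2) : BL (fun w : Euc 2 => w i) :=
  BL.of_lip (EuclideanSpace.proj (𝕜 := ℝ) i).lipschitz

lemma coord_le (w : Euc 2) (i : Fin 2) : |w i| ≤ ‖w‖ := by
  simpa using PiLp.norm_apply_le w i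

lemma cont_integrand (x : X) :
    Continuous (fun s : ℝ => (x (projIcc (-1) 0 (by linarith) s) 0) ^ 2) := by
  have : Continuous (fun s : ℝ => x (projIcc (-1) 0 (by linarith) s)) :=
    x.continuous.comp continuous_projIcc
  fun_prop

lemma II_nonneg (x : X) : 0 ≤ II x :=
  intervalIntegral.integral_nonneg (by norm_num) fun _ _ => sq_nonneg _

lemma II_le (x : X) : II x ≤ ‖x‖ ^ 2 := by
  have := intervalIntegral.norm_integral_le_of_norm_le_const (a := -1) (b := 0) (C := ‖x‖ ^ 2)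
    (f := fun s : ℝ => (x (projIcc (-1) 0 (by linarith) s) 0) ^ 2) (fun s _ => by
      rw [norm_pow, Real.norm_eq_abs]
      gcongr
      exact (coord_le _ _).trans (x.norm_coe_le_norm _))
  simp only [sub_neg_eq_add, zero_add, abs_one, mul_one, Real.norm_eq_abs] at this
  exact (le_abs_self _).trans this

lemma bl_II : BL II := by
  intro R
  refine ⟨2 * |R|, R ^ 2, by positivity, by positivity, fun p hp => ?_, fun p q hp hq => ?_⟩
  · rw [Real.norm_eq_abs, abs_of_nonneg (II_nonneg p)]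
    exact (II_le p).trans (by gcongr)
  · unfold II
    rw [← intervalIntegral.integral_sub ((cont_integrand p).intervalIntegrable _ _)
      ((cont_integrand q).intervalIntegrable _ _)]
    have := intervalIntegral.norm_integral_le_of_norm_le_const (a := -1) (b := 0)
      (C := 2 * |R| * ‖p - q‖)
      (f := fun s : ℝ => (p (projIcc (-1) 0 (by linarith) s) 0) ^ 2 -
        (q (projIcc (-1) 0 (by linarith) s) 0) ^ 2) (fun s _ => by
      set σ := projIcc (-1 : ℝ) 0 (by linarith) s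
      have h1 : |p σ 0| ≤ |R| :=
        ((coord_le _ _).trans (p.norm_coe_le_norm _)).trans (hp.trans (le_abs_self _))
      have h2 : |q σ 0| ≤ |R| :=
        ((coord_le _ _).trans (q.norm_coe_le_norm _)).trans (hq.trans (le_abs_self _))
      have h3 : |p σ 0 - q σ 0| ≤ ‖p - q‖ := by
        have := (coord_le ((p - q) σ) 0).trans ((p - q).norm_coe_le_norm _)
        simpa using this
      rw [Real.norm_eq_abs, sq_sub_sq, abs_mul]
      have h4 : |p σ 0 + q σ 0| ≤ 2 * |R| := (abs_add_le _ _).trans (by linarith)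
      gcongr)
    simpa using this

lemma bl_cur : BL (fun x : X => cur one_pos x) := bl_eval _
lemma bl_old : BL old := bl_eval _

lemma bl_VV : BL VV := bl_cur.norm.sq.add ((BL.const 1296).mul bl_II.sq)

lemma bl_ff : BL (fun p : X × Euc 2 => ff p.1 p.2) := by
  have h1 : BL (fun p : X × Euc 2 => p.1) := BL.of_lip LipschitzWith.prod_fst
  have h2 : BL (fun p : X × Euc 2 => p.2) := BL.of_lip LipschitzWith.prod_snd
  have hc : BL (fun p : X × Euc 2 => cur one_pos p.1) := bl_cur.comp h1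
  have ho : BL (fun p : X × Euc 2 => old p.1) := bl_old.comp h1
  have hI : BL (fun p : X × Euc 2 => II p.1) := bl_II.comp h1
  have hV : BL (fun p : X × Euc 2 => VV p.1) := bl_VV.comp h1
  have hG : BL (fun p : X × Euc 2 => GG p.1) :=
    ((BL.const _).smul hc).sub
      ((((BL.const 1296).mul hI).mul ((bl_coord 0).comp hc)).smul (BL.const e0))
  have hh' : BL (fun p : X × Euc 2 => hh p.1) :=
    (BL.const 1).add ((BL.const 10000).mul hV.sq)
  have hF : BL (fun p : X × Euc 2 => FF p.1 p.2) := hh'.smul (h2.sub (BL.const _))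
  have hr : BL (fun p : X × Euc 2 => rate p.1 (FF p.1 p.2)) :=
    ((BL.const 2).mul ((((bl_coord 0).comp hc).mul ((bl_coord 0).comp hF)).add
      (((bl_coord 1).comp hc).mul ((bl_coord 1).comp hF)))).add
      (((BL.const 2592).mul hI).mul (((bl_coord 0).comp hc).sq.sub ((bl_coord 0).comp ho).sq))
  have hd : BL (fun p : X × Euc 2 => del p.1 p.2) :=
    (hc.norm.neg.add ((BL.const 357).mul h2.norm)).sub hr
  exact hG.add (hd.clamp.smul (hF.sub hG))

lemma II_zero : II 0 = 0 := by simp [II]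

lemma admissible_ff : Admissible ff := by
  refine ⟨bl_ff.continuous, fun R => ?_, ?_⟩
  · obtain ⟨L, M, -, -, -, hl⟩ := bl_ff R
    refine ⟨L, fun x y v hx hy hv => ?_⟩
    have := hl (x, v) (y, v) (by simp [Prod.norm_def, hx, hv]) (by simp [Prod.norm_def, hy, hv])
    simpa [Prod.norm_def] using this
  · have hc : cur one_pos (0 : X) = 0 := rfl
    simp [ff, GG, del, rate, hc, II_zero]

lemma norm_sq_eq (w : Euc 2) : ‖w‖ ^ 2 = w 0 ^ 2 + w 1 ^ 2 := by
  rw [EuclideanSpace.real_norm_sq_eq]; simp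

lemma rate_GG (x : X) : rate x (GG x) ≤ -‖cur one_pos x‖ ^ 2 := by
  have h := II_nonneg x
  rw [norm_sq_eq]
  simp only [rate, GG, e0, PiLp.sub_apply, PiLp.smul_apply, smul_eq_mul]
  simp only [PiLp.single_apply]
  norm_num
  nlinarith [mul_nonneg h (sq_nonneg (old x 0))]

lemma rate_ff (x : X) (v : Euc 2) :
    rate x (ff x v) ≤ -min ‖cur one_pos x‖ (‖cur one_pos x‖ ^ 2) + 357 * ‖v‖ := by
  set l := max 0 (min 1 (del x v)) with hl
  have h0 : 0 ≤ l := le_max_left _ _
  have h1 : l ≤ 1 := max_le zero_le_one (min_le_left _ _)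
  have h2 : 0 ≤ l * del x v := by
    rcases le_total 0 (del x v) with h | h
    · positivity
    · have : l = 0 := by rw [hl, max_eq_left ((min_le_right _ _).trans h)]
      simp [this]
  have h3 : rate x (ff x v) = (1 - l) * rate x (GG x) + l * rate x (FF x v) := by
    simp only [rate, ff, ← hl, PiLp.add_apply, PiLp.sub_apply, PiLp.smul_apply, smul_eq_mul]
    ring
  have h4 := rate_GG x
  have h5 := min_le_left ‖cur one_pos x‖ (‖cur one_pos x‖ ^ 2)
  have h6 := min_le_right ‖cur one_pos x‖ (‖cur one_pos x‖ ^ 2)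
  have h7 := norm_nonneg v
  rw [h3]
  unfold del at h2
  nlinarith [mul_le_mul_of_nonneg_left h4 (sub_nonneg.2 h1), mul_le_mul_of_nonneg_left h5 h0,
    mul_le_mul_of_nonneg_left h6 (sub_nonneg.2 h1), mul_nonneg (sub_nonneg.2 h1) h7]

lemma ff_eq (x : X) (v : Euc 2) (h : 1 ≤ del x v) : ff x v = FF x v := by
  simp [ff, min_eq_left h]

end Pool.Agent.H90.Iss
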