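import Mathlib
import Pool.Agent.H90.IssA

namespace Pool.Agent.H90.Iss

open Set MeasureTheory Filter Topology

lemma cur_seg (ξ : C(ℝ, Euc 2)) (t : ℝ) : cur one_pos (seg 1 ξ t) = ξ t := by
  simp [cur, seg]

lemma old_seg (ξ : C(ℝ, Euc 2)) (t : ℝ) : old (seg 1 ξ t) = ξ (t - 1) := by
  simp [old, seg, sub_eq_add_neg]

lemma II_seg (ξ : C(ℝ, Euc 2)) (t : ℝ) :
    II (seg 1 ξ t) = ∫ s in (t - 1)..t, (ξ s 0) ^ 2 := by
  unfold II
  have : ∫ s in (-1 : ℝ)..0, ((seg 1 ξ t) (projIcc (-1) 0 (by linarith) s) 0) ^ 2 =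
      ∫ s in (-1 : ℝ)..0, (fun σ => (ξ σ 0) ^ 2) (t + s) := by
    refine intervalIntegral.integral_congr fun s hs => ?_
    rw [uIcc_of_le (by norm_num)] at hs
    simp only [projIcc_of_mem _ hs, seg]
    simp
  rw [this, intervalIntegral.integral_comp_add_left (fun σ => (ξ σ 0) ^ 2)]
  simp [sub_eq_add_neg]

lemma seg_ext_zero (x : X) (w : Euc 2) : seg 1 (ext one_pos x w) 0 = x := by
  ext1 s
  have h : max (s : ℝ) 0 = 0 := max_eq_right s.2.2
  simp [seg, ext, h]

lemma hasDerivAt_II (ξ : C(ℝ, Euc 2)) (t : ℝ) :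
    HasDerivAt (fun τ => II (seg 1 ξ τ)) (ξ t 0 ^ 2 - ξ (t - 1) 0 ^ 2) t := by
  have hc : Continuous (fun s => (ξ s 0) ^ 2) := by fun_prop
  have h1 : ∀ τ, HasDerivAt (fun τ => ∫ s in (0 : ℝ)..τ, (ξ s 0) ^ 2) (ξ τ 0 ^ 2) τ :=
    fun τ => (hc.integral_hasStrictDerivAt 0 τ).hasDerivAt
  have h2 := (h1 t).sub ((h1 (t - 1)).comp_sub_const t 1)
  refine h2.congr_of_eventuallyEq (Eventually.of_forall fun τ => ?_)
  simp only [II_seg, Pi.sub_apply]
  rw [intervalIntegral.integral_interval_sub_left (hc.intervalIntegrable _ _)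
    (hc.intervalIntegrable _ _)]

lemma VV_seg (ξ : C(ℝ, Euc 2)) (t : ℝ) :
    VV (seg 1 ξ t) = ξ t 0 ^ 2 + ξ t 1 ^ 2 + 1296 * II (seg 1 ξ t) ^ 2 := by
  rw [VV, cur_seg, norm_sq_eq]

lemma hasDeriv_VV (ξ : C(ℝ, Euc 2)) {t : ℝ} {w : Euc 2} {S : Set ℝ}
    (h : HasDerivWithinAt ξ w S t) :
    HasDerivWithinAt (fun τ => VV (seg 1 ξ τ)) (rate (seg 1 ξ t) w) S t := by
  have hi : ∀ i : Fin 2, HasDerivWithinAt (fun τ => ξ τ i) (w i) S t := fun i =>
    (EuclideanSpace.proj (𝕜 := ℝ) i).hasFDerivAt.comp_hasDerivWithinAt t h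
  have h2 := (((hi 0).pow 2).add ((hi 1).pow 2)).add
    (((hasDerivAt_II ξ t).hasDerivWithinAt (s := S)).pow 2 |>.const_mul 1296)
  have e1 : (fun τ => VV (seg 1 ξ τ)) =
      (((fun τ => ξ τ 0) ^ 2 + (fun τ => ξ τ 1) ^ 2) +
        fun τ => 1296 * ((fun τ => II (seg 1 ξ τ)) ^ 2) τ) := by
    funext τ; simp [VV_seg]
  rw [e1]
  refine h2.congr_deriv ?_
  simp only [rate, cur_seg, old_seg]
  norm_num
  ring

lemma dini_eq {W : ℝ → ℝ} {d t : ℝ} (h : HasDerivWithinAt W d (Ici t) t) :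
    dini W t = (d : EReal) := by
  have h1 := (hasDerivWithinAt_iff_tendsto_slope' (self_notMem_Ioi (a := t))).1
    (h.mono Ioi_subset_Ici_self)
  have h2 : Tendsto (fun h : ℝ => t + h) (𝓝[>] 0) (𝓝[>] t) := by
    refine tendsto_nhdsWithin_iff.2 ⟨?_, ?_⟩
    · have : Tendsto (fun h : ℝ => t + h) (𝓝 0) (𝓝 (t + 0)) :=
        (continuous_const.add continuous_id).tendsto 0
      simpa using this.mono_left nhdsWithin_le_nhds
    · filter_upwards [self_mem_nhdsWithin] with h hh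
      simpa using hh
  have h3 : Tendsto (fun h : ℝ => (W (t + h) - W t) / h) (𝓝[>] 0) (𝓝 d) := by
    refine (h1.comp h2).congr fun h => ?_
    simp [slope, div_eq_inv_mul]
  exact ((continuous_coe_real_ereal.tendsto d).comp h3).limsup_eq

lemma driver_eq {m : ℕ} (f : X → Euc m → Euc 2) (x : X) (v : Euc m) :
    driver one_pos f VV x v = (rate x (f x v) : EReal) := by
  set w := f x v
  have h1 : HasDerivWithinAt (ext one_pos x w) w (Ici 0) 0 := by
    have h2 : HasDerivAt (fun s : ℝ => cur one_pos x + s • w) w 0 := by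
      simpa using ((hasDerivAt_id (0 : ℝ)).smul_const w).const_add (cur one_pos x)
    have h3 : ∀ s ∈ Ici (0 : ℝ), ext one_pos x w s = cur one_pos x + s • w := fun s hs => by
      simp only [ext, ContinuousMap.coe_mk, cur]
      rw [projIcc_of_right_le _ hs, max_eq_left hs]
    exact h2.hasDerivWithinAt.congr h3 (h3 0 self_mem_Ici)
  have h4 := dini_eq (hasDeriv_VV _ h1)
  rw [seg_ext_zero] at h4
  rw [← h4]
  simp only [driver, dini, seg_ext_zero, zero_add, w]

lemma ac_congr {f g : ℝ → ℝ} {a b : ℝ} (hf : AbsolutelyContinuousOnInterval f a b)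
    (h : EqOn f g (uIcc a b)) : AbsolutelyContinuousOnInterval g a b := by
  rw [absolutelyContinuousOnInterval_iff] at hf ⊢
  intro ε hε
  obtain ⟨δ, hδ, H⟩ := hf ε hε
  refine ⟨δ, hδ, fun E hE hs => ?_⟩
  have := H E hE hs
  rwa [Finset.sum_congr rfl fun i hi => by rw [h (hE.1 i hi).1, h (hE.1 i hi).2]] at this

lemma continuous_seg (ξ : C(ℝ, Euc 2)) : Continuous (seg 1 ξ) := by
  refine ContinuousMap.continuous_of_continuous_uncurry _ ?_
  simp only [seg]
  exact ξ.continuous.comp (continuous_fst.add (continuous_subtype_val.comp continuous_snd))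

lemma regular {m : ℕ} (f : X → Euc m → Euc 2)
    (hf : Continuous (fun p : X × Euc m => f p.1 p.2)) : Regular one_pos f VV := by
  intro u _ ξ b hb hsol
  set g : ℝ → Euc 2 := fun s => f (seg 1 ξ s) (u s) with hg
  have hint : IntervalIntegrable g volume 0 b := (hsol b ⟨hb.le, le_rfl⟩).1
  have key : ∀ t ∈ Ico 0 b, HasDerivWithinAt (fun τ => ∫ s in (0 : ℝ)..τ, g s) (g t) (Ici t) t →
      dini (fun t => VV (seg 1 ξ t)) t = driver one_pos f VV (seg 1 ξ t) (u t) := by
    intro t ht hd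
    rw [driver_eq]
    refine dini_eq (hasDeriv_VV ξ ?_)
    refine (hd.const_add (ξ 0)).congr_of_eventuallyEq ?_ (hsol t ⟨ht.1, ht.2.le⟩).2
    filter_upwards [Icc_mem_nhdsGE ht.2] with τ hτ
    exact (hsol τ ⟨ht.1.trans hτ.1, hτ.2⟩).2
  refine ⟨?_, ?_, ?_⟩
  · have hi : ∀ i : Fin 2, AbsolutelyContinuousOnInterval (fun τ => ξ τ i) 0 b := by
      intro i
      have h1 : IntervalIntegrable (fun s => g s i) volume 0 b :=
        ⟨(EuclideanSpace.proj (𝕜 := ℝ) i).integrable_comp hint.1,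
          (EuclideanSpace.proj (𝕜 := ℝ) i).integrable_comp hint.2⟩
      have h2 := h1.absolutelyContinuousOnInterval_intervalIntegral (c := 0) left_mem_uIcc
      have h3 : AbsolutelyContinuousOnInterval (fun _ : ℝ => ξ 0 i) 0 b :=
        contDiffOn_const.absolutelyContinuousOnInterval
      refine ac_congr (h3.add h2) fun τ hτ => ?_
      rw [uIcc_of_le hb.le] at hτ
      have h4 := (EuclideanSpace.proj (𝕜 := ℝ) i).intervalIntegral_comp_comm (hsol τ hτ).1
      have h5 := (hsol τ hτ).2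
      simp only [Pi.add_apply]
      rw [h5]
      simp only [PiLp.add_apply, add_right_inj]
      exact h4
    have hI : AbsolutelyContinuousOnInterval (fun τ => II (seg 1 ξ τ)) 0 b := by
      refine ContDiffOn.absolutelyContinuousOnInterval (ContDiff.contDiffOn ?_)
      rw [contDiff_one_iff_deriv]
      refine ⟨fun t => (hasDerivAt_II ξ t).differentiableAt, ?_⟩
      have : deriv (fun τ => II (seg 1 ξ τ)) = fun t => ξ t 0 ^ 2 - ξ (t - 1) 0 ^ 2 :=
        funext fun t => (hasDerivAt_II ξ t).deriv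
      rw [this]
      fun_prop
    refine ac_congr ((((hi 0).mul (hi 0)).add ((hi 1).mul (hi 1))).add
      ((hI.mul hI).const_mul 1296)) fun τ _ => ?_
    simp [VV_seg, pow_two]
  · filter_upwards [hint.ae_hasDerivAt_integral] with t ht htb
    refine key t htb ?_
    exact (ht (by rw [uIcc_of_le hb.le]; exact ⟨htb.1, htb.2.le⟩) 0 left_mem_uIcc).hasDerivWithinAt
  · intro t ht hu
    refine key t ht ?_
    refine intervalIntegral.integral_hasDerivWithinAt_right (t := Ioi t)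
      (hsol t ⟨ht.1, ht.2.le⟩).1 ?_ ?_
    · refine ⟨Ioc 0 b, ?_, hint.1.aestronglyMeasurable⟩
      exact mem_of_superset (Ioc_mem_nhdsGT ht.2) (Ioc_subset_Ioc_left ht.1)
    · exact hf.continuousAt.comp_continuousWithinAt
        (f := fun s => (seg 1 ξ s, u s))
        ((continuous_seg ξ).continuousWithinAt.prodMk hu)

end Pool.Agent.H90.Iss
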