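import Mathlib
import Pool.Agent.H90.IssB

namespace Pool.Agent.H90.Iss

open Set MeasureTheory Filter Topology Real

noncomputable def tau (B : ℝ) : ℝ := 1 / (4 * B)
noncomputable def per (B : ℝ) : ℝ := 1 + tau B
noncomputable def om (B : ℝ) : ℝ := π / per B
noncomputable def yy (B t : ℝ) : ℝ := B / (1 + (B * sin (om B * t)) ^ 2)
noncomputable def yd (B t : ℝ) : ℝ :=
  -B * (2 * (B * sin (om B * t)) * (B * (cos (om B * t) * om B))) /
    (1 + (B * sin (om B * t)) ^ 2) ^ 2
noncomputable def SS (B : ℝ) : ℝ := ∫ s in (0 : ℝ)..per B, yy B s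
noncomputable def EE (B : ℝ) : ℝ := ∫ s in (0 : ℝ)..per B, yy B s ^ 2
noncomputable def JJ (B t : ℝ) : ℝ := ∫ s in t..(t + tau B), yy B s ^ 2
noncomputable def WW (B t : ℝ) : ℝ := ∫ s in (t - 1)..t, yy B s ^ 2
noncomputable def CC (B t : ℝ) : ℝ := 641 + 160 * ∫ s in (0 : ℝ)..t, (SS B / per B - yy B s)

variable {B : ℝ}

lemma tau_pos (hB : 1 ≤ B) : 0 < tau B := by unfold tau; positivity
lemma tau_le (hB : 1 ≤ B) : tau B ≤ 1 / 4 := by
  unfold tau; rw [div_le_div_iff₀ (by positivity) (by norm_num)]; linarith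
lemma tau_mul (hB : 1 ≤ B) : tau B * B = 1 / 4 := by unfold tau; field_simp
lemma per_ge (hB : 1 ≤ B) : 1 ≤ per B := by unfold per; linarith [tau_pos hB]
lemma per_le (hB : 1 ≤ B) : per B ≤ 5 / 4 := by unfold per; linarith [tau_le hB]
lemma om_pos (hB : 1 ≤ B) : 0 < om B := by
  have := per_ge hB
  unfold om; have := pi_pos; positivity
lemma om_le (hB : 1 ≤ B) : om B ≤ 4 := by
  have := per_ge hB
  unfold om; rw [div_le_iff₀ (by linarith)]; nlinarith [pi_le_four]
lemma om_per (hB : 1 ≤ B) : om B * per B = π := by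
  have := per_ge hB
  unfold om; field_simp

lemma yy_pos (hB : 1 ≤ B) (t : ℝ) : 0 < yy B t := by unfold yy; positivity
lemma yy_le (hB : 1 ≤ B) (t : ℝ) : yy B t ≤ B := by
  unfold yy; exact div_le_self (by linarith) (by nlinarith [sq_nonneg (B * sin (om B * t))])
lemma yy_zero : yy B 0 = B := by simp [yy]
lemma yy_cont : Continuous (yy B) := by
  unfold yy
  exact continuous_const.div (by fun_prop) fun t => by positivity
lemma yd_cont : Continuous (yd B) := by
  unfold yd
  exact Continuous.div (by fun_prop) (by fun_prop) fun t => by positivity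

lemma yy_per (hB : 1 ≤ B) : Function.Periodic (yy B) (per B) := fun t => by
  unfold yy
  rw [mul_add, om_per hB, sin_add_pi]
  ring

lemma yy_deriv (t : ℝ) : HasDerivAt (yy B) (yd B t) t := by
  have h1 : HasDerivAt (fun t => B * sin (om B * t)) (B * (cos (om B * t) * om B)) t := by
    simpa using (((hasDerivAt_id t).const_mul (om B)).sin).const_mul B
  have h2 := (hasDerivAt_const t B).div ((h1.pow 2).const_add 1)
    (by simp only [Pi.pow_apply]; positivity)
  refine h2.congr_deriv ?_
  simp only [yd]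
  norm_num

lemma yd_le (hB : 1 ≤ B) (t : ℝ) : |yd B t| ≤ 4 * B ^ 2 := by
  unfold yd
  generalize B * sin (om B * t) = a
  have h1 : |cos (om B * t) * om B| ≤ 4 := by
    rw [abs_mul, abs_of_pos (om_pos hB)]
    nlinarith [abs_cos_le_one (om B * t), om_le hB, om_pos hB, abs_nonneg (cos (om B * t))]
  have h2 : 2 * |a| ≤ (1 + a ^ 2) ^ 2 := by
    have : 2 * |a| ≤ 1 + a ^ 2 := by nlinarith [sq_nonneg (|a| - 1), sq_abs a]
    nlinarith [sq_nonneg a]
  rw [abs_div, abs_of_pos (by positivity : 0 < (1 + a ^ 2) ^ 2), div_le_iff₀ (by positivity)]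
  rw [abs_mul, abs_mul, abs_mul, abs_mul, abs_neg, abs_of_pos (by linarith : 0 < B), abs_two]
  calc B * (2 * |a| * (B * |cos (om B * t) * om B|)) ≤ B * ((1 + a ^ 2) ^ 2 * (B * 4)) := by
        gcongr
    _ = _ := by ring

lemma yy_slow (hB : 1 ≤ B) {s t : ℝ} (h : |s - t| ≤ tau B) : yy B t ≤ 3 * yy B s := by
  unfold yy
  set a := B * sin (om B * t)
  set b := B * sin (om B * s)
  have h1 : |b - a| ≤ 1 := by
    have h2 := abs_sin_sub_sin_le (om B * s) (om B * t)
    rw [← mul_sub, abs_mul, abs_of_pos (om_pos hB)] at h2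
    have h3 : om B * |s - t| ≤ 4 * tau B := by
      gcongr
      exact om_le hB
    rw [show b - a = B * (sin (om B * s) - sin (om B * t)) by simp only [a, b]; ring, abs_mul,
      abs_of_pos (by linarith : 0 < B)]
    nlinarith [tau_mul hB]
  have h4 : 1 + b ^ 2 ≤ 3 * (1 + a ^ 2) := by
    have := abs_le.1 h1
    nlinarith [sq_nonneg (b - 2 * a), sq_nonneg a]
  rw [← mul_div_assoc, div_le_div_iff₀ (by positivity) (by positivity)]
  nlinarith

lemma SS_le (hB : 1 ≤ B) : SS B ≤ 2 * per B := by
  have hP := per_ge hB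
  have h1 : SS B = ∫ s in (-(per B / 2))..(per B / 2), yy B s := by
    have := (yy_per hB).intervalIntegral_add_eq 0 (-(per B / 2))
    rw [zero_add, show -(per B / 2) + per B = per B / 2 by ring] at this
    exact this
  set c := 2 * B / per B with hc
  have hd : ∀ s : ℝ, HasDerivAt (fun s => per B / 2 * arctan (c * s)) (B / (1 + (c * s) ^ 2)) s := by
    intro s
    have := (((hasDerivAt_id s).const_mul c).arctan).const_mul (per B / 2)
    refine this.congr_deriv ?_
    simp only [id, mul_one, hc]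
    field_simp
  have hcont : Continuous (fun s => B / (1 + (c * s) ^ 2)) :=
    continuous_const.div (by fun_prop) fun t => by positivity
  have h2 : ∫ s in (-(per B / 2))..(per B / 2), yy B s ≤
      ∫ s in (-(per B / 2))..(per B / 2), B / (1 + (c * s) ^ 2) := by
    refine intervalIntegral.integral_mono_on (by linarith) (yy_cont.intervalIntegrable _ _)
      (hcont.intervalIntegrable _ _) fun s hs => ?_
    unfold yy
    have h3 : |om B * s| ≤ π / 2 := by
      rw [abs_mul, abs_of_pos (om_pos hB), ← om_per hB]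
      have : |s| ≤ per B / 2 := abs_le.2 ⟨hs.1, hs.2⟩
      nlinarith [om_pos hB]
    have h4 := mul_abs_le_abs_sin h3
    have h5 : |c * s| ≤ |B * sin (om B * s)| := by
      rw [abs_mul B, abs_of_pos (by linarith : 0 < B)]
      refine le_trans (le_of_eq ?_) (mul_le_mul_of_nonneg_left h4 (by linarith))
      rw [abs_mul, abs_mul, abs_of_pos (om_pos hB), abs_of_pos (by positivity : 0 < c), hc, om]
      field_simp
    have h6 : (c * s) ^ 2 ≤ (B * sin (om B * s)) ^ 2 := sq_le_sq.2 h5
    gcongr
  rw [intervalIntegral.integral_eq_sub_of_hasDerivAt (fun s _ => hd s)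
    (hcont.intervalIntegrable _ _)] at h2
  have h7 := arctan_lt_pi_div_two (c * (per B / 2))
  have h8 := neg_pi_div_two_lt_arctan (c * -(per B / 2))
  rw [h1]
  nlinarith [pi_le_four]

lemma SS_nonneg (hB : 1 ≤ B) : 0 ≤ SS B :=
  intervalIntegral.integral_nonneg (by linarith [per_ge hB]) fun s _ => (yy_pos hB s).le

lemma sq_cont : Continuous (fun s => yy B s ^ 2) := yy_cont.pow 2

lemma EE_le (hB : 1 ≤ B) : EE B ≤ 4 * B := by
  have h1 : EE B ≤ ∫ s in (0 : ℝ)..per B, B * yy B s := by
    refine intervalIntegral.integral_mono_on (by linarith [per_ge hB])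
      (sq_cont.intervalIntegrable _ _) ((continuous_const.mul yy_cont).intervalIntegrable _ _)
      fun s _ => ?_
    nlinarith [yy_pos hB s, yy_le hB s]
  rw [intervalIntegral.integral_const_mul] at h1
  have h2 := SS_le hB
  have h3 := per_le hB
  unfold SS at h2
  nlinarith

lemma JJ_ge (hB : 1 ≤ B) (t : ℝ) : tau B * (yy B t ^ 2 / 9) ≤ JJ B t := by
  have hτ := tau_pos hB
  have h1 : ∫ _ in t..(t + tau B), yy B t ^ 2 / 9 ≤ JJ B t := by
    refine intervalIntegral.integral_mono_on (by linarith) (by simp)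
      (sq_cont.intervalIntegrable _ _) fun s hs => ?_
    have := yy_slow hB (s := s) (t := t) (abs_le.2 ⟨by linarith [hs.1], by linarith [hs.2]⟩)
    nlinarith [yy_pos hB s, yy_pos hB t]
  rwa [intervalIntegral.integral_const, add_sub_cancel_left, smul_eq_mul] at h1

lemma JJ_le (hB : 1 ≤ B) (t : ℝ) : JJ B t ≤ tau B * (9 * yy B t ^ 2) := by
  have hτ := tau_pos hB
  have h1 : JJ B t ≤ ∫ _ in t..(t + tau B), 9 * yy B t ^ 2 := by
    refine intervalIntegral.integral_mono_on (by linarith)
      (sq_cont.intervalIntegrable _ _) (by simp) fun s hs => ?_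
    have := yy_slow hB (s := t) (t := s) (abs_le.2 ⟨by linarith [hs.2], by linarith [hs.1]⟩)
    nlinarith [yy_pos hB s, yy_pos hB t]
  rwa [intervalIntegral.integral_const, add_sub_cancel_left, smul_eq_mul] at h1

lemma WW_add (hB : 1 ≤ B) (t : ℝ) : WW B t + JJ B t = EE B := by
  have hp : Function.Periodic (fun s => yy B s ^ 2) (per B) := fun s => by
    simp only [yy_per hB s]
  have := hp.intervalIntegral_add_eq 0 (t - 1)
  rw [zero_add, show t - 1 + per B = t + tau B by unfold per; ring] at this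
  unfold WW JJ EE
  rw [this, intervalIntegral.integral_add_adjacent_intervals (sq_cont.intervalIntegrable _ _)
    (sq_cont.intervalIntegrable _ _)]

lemma WW_nonneg (t : ℝ) : 0 ≤ WW B t :=
  intervalIntegral.integral_nonneg (by linarith) fun _ _ => sq_nonneg _

lemma JJ_nonneg (hB : 1 ≤ B) (t : ℝ) : 0 ≤ JJ B t :=
  le_trans (by have := tau_pos hB; positivity) (JJ_ge hB t)

lemma EE_ge (hB : 1 ≤ B) : B / 36 ≤ EE B := by
  have h1 := JJ_ge hB 0
  have h2 := WW_add hB 0
  have h3 := WW_nonneg (B := B) 0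
  rw [yy_zero] at h1
  have h4 : tau B * (B ^ 2 / 9) = B / 36 := by
    rw [show tau B * (B ^ 2 / 9) = (tau B * B) * B / 9 by ring, tau_mul hB]; ring
  linarith

lemma WW_deriv (t : ℝ) : HasDerivAt (WW B) (yy B t ^ 2 - yy B (t - 1) ^ 2) t := by
  have h1 : ∀ τ, HasDerivAt (fun τ => ∫ s in (0 : ℝ)..τ, yy B s ^ 2) (yy B τ ^ 2) τ :=
    fun τ => (sq_cont.integral_hasStrictDerivAt 0 τ).hasDerivAt
  have h2 := (h1 t).sub ((h1 (t - 1)).comp_sub_const t 1)
  refine h2.congr_of_eventuallyEq (Eventually.of_forall fun τ => ?_)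
  simp only [WW, Pi.sub_apply]
  rw [intervalIntegral.integral_interval_sub_left (sq_cont.intervalIntegrable _ _)
    (sq_cont.intervalIntegrable _ _)]

lemma CC_deriv (t : ℝ) : HasDerivAt (CC B) (160 * (SS B / per B - yy B t)) t := by
  have hc : Continuous (fun s => SS B / per B - yy B s) := continuous_const.sub yy_cont
  exact (((hc.integral_hasStrictDerivAt 0 t).hasDerivAt).const_mul 160).const_add 641

lemma CC_per (hB : 1 ≤ B) : Function.Periodic (CC B) (per B) := fun t => by
  have hP := per_ge hB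
  have hc : Continuous (fun s => SS B / per B - yy B s) := continuous_const.sub yy_cont
  have hp : Function.Periodic (fun s => SS B / per B - yy B s) (per B) := fun s => by
    simp only [yy_per hB s]
  unfold CC
  rw [← intervalIntegral.integral_add_adjacent_intervals (b := t) (hc.intervalIntegrable _ _)
    (hc.intervalIntegrable _ _), hp.intervalIntegral_add_eq t 0, zero_add,
    intervalIntegral.integral_sub (a := 0) (b := per B) (by simp)
      (yy_cont.intervalIntegrable _ _)]
  have : ∫ s in (0 : ℝ)..per B, yy B s = SS B := rfl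
  rw [this]
  simp only [intervalIntegral.integral_const, sub_zero, smul_eq_mul]
  field_simp
  ring

lemma CC_bd (hB : 1 ≤ B) (t : ℝ) : 1 ≤ CC B t ∧ CC B t ≤ 1281 := by
  have hP := per_ge hB
  have hP' := per_le hB
  obtain ⟨s, hs, e⟩ := (CC_per hB).exists_mem_Ico₀ (by linarith) t
  rw [e]
  unfold CC
  rw [intervalIntegral.integral_sub (by simp) (yy_cont.intervalIntegrable _ _)]
  simp only [intervalIntegral.integral_const, sub_zero, smul_eq_mul]
  have h1 : 0 ≤ ∫ σ in (0 : ℝ)..s, yy B σ :=
    intervalIntegral.integral_nonneg hs.1 fun σ _ => (yy_pos hB σ).le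
  have h2 : ∫ σ in (0 : ℝ)..s, yy B σ ≤ SS B :=
    intervalIntegral.integral_mono_interval le_rfl hs.1 hs.2.le
      (Eventually.of_forall fun σ => (yy_pos hB σ).le) (yy_cont.intervalIntegrable _ _)
  have h3 := SS_le hB
  have h4 := SS_nonneg hB
  have h5 : 0 ≤ SS B / per B := by positivity
  have h6 : SS B / per B ≤ 2 := by rw [div_le_iff₀ (by linarith)]; exact h3
  have h7 : 0 ≤ s * (SS B / per B) := mul_nonneg hs.1 h5
  have h8 : s * (SS B / per B) ≤ 5 / 4 * 2 := by
    gcongr
    linarith [hs.2]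
  constructor <;> linarith

end Pool.Agent.H90.Iss
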