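import Mathlib
import Pool.Agent.H90.IssC

namespace Pool.Agent.H90.Iss

open Set MeasureTheory Filter Topology Real

noncomputable def ZZ (B t : ℝ) : ℝ := CC B t + 1296 * (EE B ^ 2 - WW B t ^ 2) - yy B t ^ 2
noncomputable def Zd (B t : ℝ) : ℝ :=
  160 * (SS B / per B - yy B t) - 2592 * WW B t * (yy B t ^ 2 - yy B (t - 1) ^ 2) -
    2 * yy B t * yd B t
noncomputable def zz (B t : ℝ) : ℝ := √(ZZ B t)
noncomputable def zd (B t : ℝ) : ℝ := Zd B t / (2 * zz B t)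

variable {B : ℝ}

lemma DD_bd (hB : 1 ≤ B) (t : ℝ) :
    yy B t ^ 2 ≤ 1296 * (EE B ^ 2 - WW B t ^ 2) ∧
      1296 * (EE B ^ 2 - WW B t ^ 2) ≤ (160 * yy B t) ^ 2 := by
  have h1 := WW_add hB t
  have h2 := WW_nonneg (B := B) t
  have h3 := JJ_nonneg hB t
  have h4 := JJ_ge hB t
  have h5 := JJ_le hB t
  have h6 := EE_ge hB
  have h7 := EE_le hB
  have h8 := tau_mul hB
  have h9 := tau_pos hB
  have hy := sq_nonneg (yy B t)
  have e : EE B ^ 2 - WW B t ^ 2 = JJ B t * (EE B + WW B t) := by rw [← h1]; ring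
  rw [e]
  constructor
  · calc yy B t ^ 2 = 1296 * ((tau B * (yy B t ^ 2 / 9)) * (B / 36)) := by
          rw [show 1296 * ((tau B * (yy B t ^ 2 / 9)) * (B / 36)) =
            4 * (tau B * B) * yy B t ^ 2 by ring, h8]; ring
      _ ≤ 1296 * (JJ B t * (EE B + WW B t)) := by
          gcongr
          linarith
  · calc 1296 * (JJ B t * (EE B + WW B t)) ≤ 1296 * ((tau B * (9 * yy B t ^ 2)) * (8 * B)) := by
          gcongr <;> linarith
      _ = 23328 * yy B t ^ 2 := by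
          rw [show 1296 * ((tau B * (9 * yy B t ^ 2)) * (8 * B)) =
            93312 * (tau B * B) * yy B t ^ 2 by ring, h8]; ring
      _ ≤ _ := by nlinarith

lemma ZZ_ge (hB : 1 ≤ B) (t : ℝ) : 1 ≤ ZZ B t := by
  unfold ZZ; linarith [(DD_bd hB t).1, (CC_bd hB t).1]

lemma zz_ge (hB : 1 ≤ B) (t : ℝ) : 1 ≤ zz B t := one_le_sqrt.2 (ZZ_ge hB t)

lemma zz_sq (hB : 1 ≤ B) (t : ℝ) : zz B t ^ 2 = ZZ B t := sq_sqrt (by linarith [ZZ_ge hB t])

lemma ZZ_deriv (t : ℝ) : HasDerivAt (ZZ B) (Zd B t) t := by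
  have h := ((CC_deriv (B := B) t).add ((((WW_deriv (B := B) t).pow 2).const_sub
    (EE B ^ 2)).const_mul 1296)).sub ((yy_deriv (B := B) t).pow 2)
  refine h.congr_deriv ?_
  simp only [Zd]
  norm_num
  ring

lemma zz_deriv (hB : 1 ≤ B) (t : ℝ) : HasDerivAt (zz B) (zd B t) t :=
  (ZZ_deriv t).sqrt (by linarith [ZZ_ge hB t])

lemma zz_cont (hB : 1 ≤ B) : Continuous (zz B) :=
  continuous_iff_continuousAt.2 fun t => (zz_deriv hB t).continuousAt

lemma WW_cont : Continuous (WW B) :=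
  continuous_iff_continuousAt.2 fun t => (WW_deriv t).continuousAt

lemma CC_cont : Continuous (CC B) :=
  continuous_iff_continuousAt.2 fun t => (CC_deriv t).continuousAt

lemma zd_cont (hB : 1 ≤ B) : Continuous (zd B) := by
  have h1 := yy_cont (B := B)
  have h2 := yd_cont (B := B)
  have h3 := WW_cont (B := B)
  have h4 := zz_cont hB
  unfold zd Zd
  exact Continuous.div (by fun_prop) (by fun_prop) fun t => by linarith [zz_ge hB t]

lemma mean_bd (hB : 1 ≤ B) : 0 ≤ SS B / per B ∧ SS B / per B ≤ 2 := by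
  have hP := per_ge hB
  have h4 := SS_nonneg hB
  exact ⟨by positivity, by rw [div_le_iff₀ (by linarith)]; exact SS_le hB⟩

lemma zd_le (hB : 1 ≤ B) (t : ℝ) : |zd B t| ≤ 6000 * B ^ 3 := by
  have h0 : 0 < B := by linarith
  have h1 : |SS B / per B - yy B t| ≤ 3 * B ^ 3 := by
    have := mean_bd hB
    have h2 : B ≤ B ^ 3 := by nlinarith [mul_pos h0 h0]
    rw [abs_le]; constructor <;> linarith [yy_pos hB t, yy_le hB t]
  have h2 : |yy B t ^ 2 - yy B (t - 1) ^ 2| ≤ B ^ 2 := by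
    have a1 : yy B t ^ 2 ≤ B ^ 2 := by gcongr; exacts [(yy_pos hB _).le, yy_le hB _]
    have a2 : yy B (t - 1) ^ 2 ≤ B ^ 2 := by gcongr; exacts [(yy_pos hB _).le, yy_le hB _]
    rw [abs_le]; constructor <;> nlinarith [sq_nonneg (yy B t), sq_nonneg (yy B (t - 1))]
  have h3 : WW B t ≤ 4 * B := by linarith [WW_add hB t, JJ_nonneg hB t, EE_le hB]
  have h4 : |2592 * WW B t * (yy B t ^ 2 - yy B (t - 1) ^ 2)| ≤ 2592 * (4 * B) * B ^ 2 := by
    rw [abs_mul, abs_of_nonneg (by linarith [WW_nonneg (B := B) t])]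
    gcongr
  have h5 : |2 * yy B t * yd B t| ≤ 2 * B * (4 * B ^ 2) := by
    rw [abs_mul, abs_of_nonneg (by linarith [yy_pos hB t])]
    gcongr
    exacts [yy_le hB t, yd_le hB t]
  have h6 : |Zd B t| ≤ 12000 * B ^ 3 := by
    unfold Zd
    have := abs_le.1 h1
    have := abs_le.1 h4
    have := abs_le.1 h5
    have : 0 < B ^ 3 := by positivity
    rw [abs_le]; constructor <;> nlinarith
  unfold zd
  have h7 := zz_ge hB t
  rw [abs_div, abs_of_pos (by linarith : 0 < 2 * zz B t), div_le_iff₀ (by linarith)]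
  have : 0 < B ^ 3 := by positivity
  nlinarith

noncomputable def xi (hB : 1 ≤ B) : C(ℝ, Euc 2) :=
  ⟨fun t => yy B t • e0 + zz B t • e1,
    (yy_cont.smul continuous_const).add ((zz_cont hB).smul continuous_const)⟩

noncomputable def xd (B t : ℝ) : Euc 2 := yd B t • e0 + zd B t • e1

lemma xi_0 (hB : 1 ≤ B) (t : ℝ) : xi hB t 0 = yy B t := by simp [xi, e0, e1]
lemma xi_1 (hB : 1 ≤ B) (t : ℝ) : xi hB t 1 = zz B t := by simp [xi, e0, e1]
lemma xd_0 (t : ℝ) : xd B t 0 = yd B t := by simp [xd, e0, e1]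
lemma xd_1 (t : ℝ) : xd B t 1 = zd B t := by simp [xd, e0, e1]

lemma xi_deriv (hB : 1 ≤ B) (t : ℝ) : HasDerivAt (xi hB) (xd B t) t :=
  ((yy_deriv t).smul_const e0).add ((zz_deriv hB t).smul_const e1)

lemma xd_cont (hB : 1 ≤ B) : Continuous (xd B) :=
  (yd_cont.smul continuous_const).add ((zd_cont hB).smul continuous_const)

lemma norm_e0 : ‖e0‖ = 1 := by simp [e0]
lemma norm_e1 : ‖e1‖ = 1 := by simp [e1]

lemma xd_le (hB : 1 ≤ B) (t : ℝ) : ‖xd B t‖ ≤ 10000 * B ^ 4 := by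
  have h1 : ‖xd B t‖ ≤ |yd B t| + |zd B t| := by
    refine (norm_add_le _ _).trans ?_
    rw [norm_smul, norm_smul, norm_e0, norm_e1]; simp
  have h2 := yd_le hB t
  have h3 := zd_le hB t
  have h4 : B ^ 2 ≤ B ^ 4 := pow_le_pow_right₀ hB (by norm_num)
  have h5 : B ^ 3 ≤ B ^ 4 := pow_le_pow_right₀ hB (by norm_num)
  have : 0 < B ^ 4 := by positivity
  linarith

lemma II_xi (hB : 1 ≤ B) (t : ℝ) : II (seg 1 (xi hB) t) = WW B t := by
  rw [II_seg]; simp only [xi_0]; rfl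

lemma VV_xi (hB : 1 ≤ B) (t : ℝ) : VV (seg 1 (xi hB) t) = CC B t + 1296 * EE B ^ 2 := by
  rw [VV_seg, II_xi, xi_0, xi_1, zz_sq hB, ZZ]; ring

lemma hh_xi (hB : 1 ≤ B) (t : ℝ) : ‖xd B t‖ ≤ hh (seg 1 (xi hB) t) := by
  have h1 : B ^ 2 ≤ VV (seg 1 (xi hB) t) := by
    rw [VV_xi]
    have := EE_ge hB
    have h2 : (B / 36) ^ 2 ≤ EE B ^ 2 := by gcongr
    nlinarith [(CC_bd hB t).1]
  have h2 : (B ^ 2) ^ 2 ≤ VV (seg 1 (xi hB) t) ^ 2 := by gcongr
  unfold hh
  nlinarith [xd_le hB t]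

lemma hh_pos (x : X) : 0 < hh x := by unfold hh; positivity

noncomputable def uu (hB : 1 ≤ B) (t : ℝ) : Euc 2 :=
  (2 : ℝ) • e0 + (hh (seg 1 (xi hB) t))⁻¹ • xd B t

lemma uu_bd (hB : 1 ≤ B) (t : ℝ) : 1 ≤ ‖uu hB t‖ ∧ ‖uu hB t‖ ≤ 3 := by
  have h0 := hh_pos (seg 1 (xi hB) t)
  have h1 : ‖(hh (seg 1 (xi hB) t))⁻¹ • xd B t‖ ≤ 1 := by
    rw [norm_smul, norm_inv, Real.norm_eq_abs, abs_of_pos h0, inv_mul_le_iff₀ h0, mul_one]
    exact hh_xi hB t
  have h2 : ‖(2 : ℝ) • e0‖ = 2 := by rw [norm_smul, norm_e0]; simp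
  constructor
  · have := norm_sub_le (uu hB t) ((hh (seg 1 (xi hB) t))⁻¹ • xd B t)
    rw [show uu hB t - (hh (seg 1 (xi hB) t))⁻¹ • xd B t = (2 : ℝ) • e0 by simp [uu], h2] at this
    linarith
  · exact (norm_add_le _ _).trans (by linarith)

lemma uu_cont (hB : 1 ≤ B) : Continuous (uu hB) := by
  have h1 : Continuous (fun t => hh (seg 1 (xi hB) t)) :=
    (((BL.const 1).add ((BL.const 10000).mul bl_VV.sq)).continuous).comp (continuous_seg _)
  exact continuous_const.add ((h1.inv₀ fun t => (hh_pos _).ne').smul (xd_cont hB))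

lemma FF_xi (hB : 1 ≤ B) (t : ℝ) : FF (seg 1 (xi hB) t) (uu hB t) = xd B t := by
  simp [FF, uu, smul_smul, (hh_pos _).ne']

lemma norm_xi (hB : 1 ≤ B) (t : ℝ) : ‖xi hB t‖ ≤ 36 + 160 * yy B t := by
  have h0 := yy_pos hB t
  refine (pow_le_pow_iff_left₀ (norm_nonneg _) (by positivity) two_ne_zero).1 ?_
  rw [norm_sq_eq, xi_0, xi_1, zz_sq hB, ZZ]
  nlinarith [(DD_bd hB t).2, (CC_bd hB t).2]

lemma ff_xi (hB : 1 ≤ B) (t : ℝ) : ff (seg 1 (xi hB) t) (uu hB t) = xd B t := by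
  rw [ff_eq, FF_xi]
  have h1 : rate (seg 1 (xi hB) t) (xd B t) = 160 * (SS B / per B - yy B t) := by
    have h2 := zz_ge hB t
    simp only [rate, cur_seg, old_seg, II_xi, xi_0, xi_1, xd_0, xd_1, zd, Zd]
    field_simp
    ring
  unfold del
  rw [FF_xi, h1, cur_seg]
  linarith [norm_xi hB t, (uu_bd hB t).1, (mean_bd hB).2]

lemma not_iss : ¬ ISSEstimate ff := by
  rintro ⟨β, γ, hβ, hγ, H⟩
  have hγ3 : 0 ≤ γ 3 := by
    have := hγ.1.2.1.monotoneOn (self_mem_Ici (a := (0 : ℝ))) (show (3 : ℝ) ∈ Ici 0 by norm_num)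
      (by norm_num)
    rwa [hγ.1.2.2] at this
  have hB : 1 ≤ γ 3 + 1 := by linarith
  set B := γ 3 + 1 with hBdef
  have hin : IsInput (uu hB) :=
    memLp_top_of_bound (uu_cont hB).aestronglyMeasurable 3
      (Eventually.of_forall fun t => (uu_bd hB t).2)
  have hn : inputNorm (uu hB) ≤ 3 := by
    unfold inputNorm
    refine ENNReal.toReal_le_of_le_ofReal (by norm_num) ?_
    rw [eLpNorm_exponent_top]
    exact eLpNormEssSup_le_of_ae_bound (Eventually.of_forall fun t => (uu_bd hB t).2)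
  have hsol : ∀ b, IsSol ff (uu hB) (xi hB) b := fun b t _ => by
    simp only [ff_xi]
    refine ⟨(xd_cont hB).intervalIntegrable _ _, ?_⟩
    rw [intervalIntegral.integral_eq_sub_of_hasDerivAt (fun s _ => xi_deriv hB s)
      ((xd_cont hB).intervalIntegrable _ _)]
    simp
  have hγu : γ (inputNorm (uu hB)) ≤ γ 3 :=
    hγ.1.2.1.monotoneOn (ENNReal.toReal_nonneg) (show (3 : ℝ) ∈ Ici 0 by norm_num) hn
  have hP := per_ge hB
  have hlim := (hβ.2 _ (norm_nonneg (seg 1 (xi hB) 0))).2.comp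
    (tendsto_natCast_atTop_atTop.atTop_mul_const (show 0 < per B by linarith))
  obtain ⟨k, hk⟩ := (hlim.eventually (gt_mem_nhds one_pos)).exists
  have h1 := H _ hin _ hsol (k * per B) (by positivity)
  have h2 : yy B (k * per B) = B := by
    have := (yy_per hB).nat_mul k 0
    rwa [zero_add, yy_zero] at this
  have h3 := coord_le (xi hB (k * per B)) 0
  rw [xi_0, h2] at h3
  have h4 := le_abs_self B
  simp only [Function.comp] at hk
  linarith

lemma kinf_of {α : ℝ → ℝ} (hc : Continuous α) (hm : StrictMonoOn α (Ici 0)) (h0 : α 0 = 0)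
    (hl : ∀ s, 1 ≤ s → s / 2 ≤ α s) : ClassKInf α := by
  refine ⟨⟨hc.continuousOn, hm, h0⟩, ?_⟩
  refine tendsto_atTop_mono' _ ?_ (tendsto_id.atTop_div_const two_pos)
  filter_upwards [eventually_ge_atTop 1] with s hs using hl s hs

lemma min_mono : StrictMonoOn (fun s : ℝ => min s (s ^ 2)) (Ici 0) := fun _ ha _ _ hab =>
  min_lt_min hab (pow_lt_pow_left₀ hab ha two_ne_zero)

theorem main : ∃ (T : ℝ) (hT : 0 < T) (n m : ℕ) (f : Hist T n → Euc m → Euc n)
    (V : Hist T n → ℝ) (ψ₁ ψ₂ α γ α' χ : ℝ → ℝ),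
    1 ≤ n ∧ 1 ≤ m ∧ Admissible f ∧ Continuous V ∧ Regular hT f V ∧
    ClassKInf ψ₁ ∧ ClassKInf ψ₂ ∧ (∀ x, ψ₁ ‖cur hT x‖ ≤ V x ∧ V x ≤ ψ₂ ‖x‖) ∧
    ClassKInf α ∧ ClassK χ ∧
    (∀ x v, χ ‖v‖ ≤ ‖cur hT x‖ → driver hT f V x v ≤ ((-α ‖cur hT x‖ : ℝ) : EReal)) ∧
    ClassKInf α' ∧ ClassKInf γ ∧
    (∀ x v, driver hT f V x v ≤ ((-α' ‖cur hT x‖ + γ ‖v‖ : ℝ) : EReal)) ∧
    ¬ ISSEstimate f := by
  refine ⟨1, one_pos, 2, 2, ff, VV, fun s => s ^ 2, fun s => s ^ 2 + 1296 * s ^ 4,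
    fun s => min s (s ^ 2) / 2, fun s => 357 * s, fun s => min s (s ^ 2),
    fun s => 714 * s + √(714 * s), by norm_num, by norm_num, admissible_ff, bl_VV.continuous,
    regular ff admissible_ff.1, ?_, ?_, fun x => ⟨?_, ?_⟩, ?_, ?_, fun x v h => ?_, ?_, ?_,
    fun x v => ?_, not_iss⟩
  · exact kinf_of (by fun_prop) (fun a ha b _ hab => pow_lt_pow_left₀ hab ha two_ne_zero)
      (by simp) fun s hs => by nlinarith
  · refine kinf_of (by fun_prop) (fun a ha b _ hab => ?_) (by simp) fun s hs => ?_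
    · have h1 := pow_lt_pow_left₀ hab ha two_ne_zero
      have h2 := pow_lt_pow_left₀ hab ha (by norm_num : 4 ≠ 0)
      linarith
    · have : 0 ≤ s ^ 4 := by positivity
      nlinarith
  · unfold VV; nlinarith [sq_nonneg (II x)]
  · have h1 : ‖cur one_pos x‖ ^ 2 ≤ ‖x‖ ^ 2 := by
      gcongr
      exact x.norm_coe_le_norm _
    have h2 : II x ^ 2 ≤ (‖x‖ ^ 2) ^ 2 := by
      gcongr
      exacts [II_nonneg x, II_le x]
    unfold VV
    nlinarith
  · refine kinf_of (by fun_prop) (fun a ha b hb hab => ?_) (by simp) fun s hs => ?_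
    · have := min_mono ha hb hab
      simp only at this ⊢
      linarith
    · have : s ≤ min s (s ^ 2) := le_min le_rfl (by nlinarith)
      linarith
  · refine ⟨by fun_prop, fun a ha b _ hab => ?_, by simp⟩
    have : √(714 * a) ≤ √(714 * b) := sqrt_le_sqrt (by linarith)
    simp only
    linarith
  · rw [driver_eq, EReal.coe_le_coe_iff]
    have h1 := rate_ff x v
    have h2 := norm_nonneg v
    have h3 := sqrt_nonneg (714 * ‖v‖)
    have h4 : 714 * ‖v‖ ≤ min ‖cur one_pos x‖ (‖cur one_pos x‖ ^ 2) := by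
      refine le_min (by linarith) ?_
      calc 714 * ‖v‖ = √(714 * ‖v‖) ^ 2 := (sq_sqrt (by positivity)).symm
        _ ≤ _ := by gcongr; linarith
    linarith
  · refine kinf_of (by fun_prop) min_mono (by simp) fun s hs => ?_
    have : s ≤ min s (s ^ 2) := le_min le_rfl (by nlinarith)
    linarith
  · exact kinf_of (by fun_prop) (fun a _ b _ hab => by linarith) (by simp)
      fun s hs => by linarith
  · rw [driver_eq, EReal.coe_le_coe_iff]
    exact rate_ff x v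

end Pool.Agent.H90.Iss
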