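import Mathlib
import Pool.Agent.H90.KpA

namespace Pool.Agent.H90.Kp

open Filter Topology BoundedContinuousFunction
open OnePoint (continuousMapMkNat tendsto_coe_infty)

noncomputable abbrev LL := lp (fun _ : ℕ => VV) 1
def PS : Type := C(OnePoint ℕ, BB) × (ℕ →ᵇ LL)
noncomputable instance : NormedAddCommGroup PS :=
  inferInstanceAs (NormedAddCommGroup (C(OnePoint ℕ, BB) × (ℕ →ᵇ LL)))
noncomputable instance : NormedSpace ℂ PS :=
  inferInstanceAs (NormedSpace ℂ (C(OnePoint ℕ, BB) × (ℕ →ᵇ LL)))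
instance : CompleteSpace PS := inferInstanceAs (CompleteSpace (C(OnePoint ℕ, BB) × (ℕ →ᵇ LL)))

lemma fst_le (p : PS) : ‖p.1‖ ≤ ‖p‖ := le_max_left _ _
lemma snd_le (p : PS) : ‖p.2‖ ≤ ‖p‖ := le_max_right _ _
lemma cont_fst (t : OnePoint ℕ) : Continuous fun p : PS => p.1 t :=
  (by fun_prop : Continuous fun p : C(OnePoint ℕ, BB) × (ℕ →ᵇ LL) => p.1 t)
lemma cont_snd (n : ℕ) : Continuous fun p : PS => p.2 n :=
  (by fun_prop : Continuous fun p : C(OnePoint ℕ, BB) × (ℕ →ᵇ LL) => p.2 n)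

noncomputable def YS : Submodule ℂ PS where
  carrier := {p | IsCompactOperator (p.1 OnePoint.infty) ∧
    ∀ (n j : ℕ), ((n : ℂ) + 1) • p.2 n j = row j (p.1 n)}
  zero_mem' := ⟨isCompactOperator_zero, fun n j => by
    show ((n : ℂ) + 1) • (0 : VV) = row j 0
    rw [map_zero]; ext1 x; simp⟩
  add_mem' := fun {p q} h h' => ⟨h.1.add h'.1, fun n j => by
    show ((n : ℂ) + 1) • (p.2 n j + q.2 n j) = row j (p.1 n + q.1 n)
    rw [smul_add, map_add, h.2, h'.2]⟩
  smul_mem' := fun c p h => ⟨h.1.smul c, fun n j => by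
    show ((n : ℂ) + 1) • (c • p.2 n j) = row j (c • p.1 n)
    rw [smul_comm, map_smul, h.2]⟩

lemma YS_closed : IsClosed (YS : Set PS) := by
  have h1 : IsClosed {p : PS | ∀ (n j : ℕ), ((n : ℂ) + 1) • p.2 n j = row j (p.1 n)} := by
    simp only [Set.ofPred_forall]
    refine isClosed_iInter fun n => isClosed_iInter fun j => isClosed_eq ?_
      ((row j).continuous.comp (cont_fst n))
    exact ((lp.lipschitzWith_one_eval 1 j).continuous.comp (cont_snd n)).const_smul ((n : ℂ) + 1)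
  exact IsClosed.inter (isClosed_setOfPred_isCompactOperator.preimage (cont_fst _)) h1

lemma Y_ext {y z : YS} (h : y.1.1 = z.1.1) : y = z := by
  refine Subtype.ext (Prod.ext h ?_)
  ext1 n
  refine lp.ext (funext fun j => ?_)
  have h1 := y.2.2 n j
  rw [h, ← z.2.2 n j] at h1
  exact smul_right_injective _ (by exact_mod_cast Nat.succ_ne_zero n) h1

lemma nn (n : ℕ) : ‖(n : ℂ) + 1‖ = n + 1 := by exact_mod_cast Complex.norm_natCast (n + 1)

lemma Y_sum (y : YS) (n : ℕ) :
    HasSum (fun i => ‖row i (y.1.1 n)‖) ((n + 1) * ‖y.1.2 n‖) := by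
  simpa only [← y.2.2 n, norm_smul, nn] using (hasSum_nm (y.1.2 n)).mul_left ((n : ℝ) + 1)

lemma Y_le (y : YS) (n : ℕ) : ‖y.1.2 n‖ ≤ ‖y‖ :=
  (y.1.2.norm_coe_le_norm n).trans (snd_le y.1)

lemma wle {N : BB} {n : ℕ} {c : ℝ} (h : ∀ s : Finset ℕ, ∑ j ∈ s, ‖row j N‖ ≤ (n + 1) * c)
    (s : Finset ℕ) : ∑ j ∈ s, ‖((n : ℂ) + 1)⁻¹ • row j N‖ ≤ c := by
  simp only [norm_smul, norm_inv, nn, ← Finset.mul_sum]
  rw [inv_mul_le_iff₀ (by positivity)]
  exact h s

lemma ex_Y (N : C(OnePoint ℕ, BB)) (hN : IsCompactOperator (N OnePoint.infty)) {c : ℝ} (hc : ‖N‖ ≤ c)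
    (h : ∀ (n : ℕ) (s : Finset ℕ), ∑ j ∈ s, ‖row j (N n)‖ ≤ (n + 1) * c) :
    ∃ y : YS, y.1.1 = N ∧ ‖y‖ ≤ c := by
  have h0 := (norm_nonneg N).trans hc
  let w : ℕ → LL := fun n => ⟨fun j => ((n : ℂ) + 1)⁻¹ • row j (N n),
    memℓp_gen' (C := c) (by simpa only [ENNReal.toReal_one, Real.rpow_one] using wle (h n))⟩
  have hw : ∀ n, ‖w n‖ ≤ c := fun n => nm_le _ h0 (wle (h n))
  refine ⟨⟨(N, ofNormedAddCommGroupDiscrete w c hw), hN, fun n j => ?_⟩, rfl, ?_⟩
  · exact smul_inv_smul₀ (by exact_mod_cast Nat.succ_ne_zero n) _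
  · exact max_le hc ((norm_le h0).2 hw)

lemma ex_act (a : KK EE) (y : YS) :
    ∃ z : YS, z.1.1 = ContinuousMap.const _ a.op * y.1.1 ∧ ‖z‖ ≤ ‖a‖ * ‖y‖ := by
  refine ex_Y _ (a.cpt.comp_clm (y.1.1 OnePoint.infty)) 
    ((ContinuousMap.norm_le _ (by positivity)).2 fun t => ?_) fun n s => ?_
  · exact (norm_mul_le a.op (y.1.1 t)).trans (mul_le_mul_of_nonneg_left
      ((y.1.1.norm_coe_le_norm t).trans (fst_le y.1)) (norm_nonneg _))
  · refine (nuc_mul a.op _ (Y_sum y n) s).trans ?_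
    rw [mul_left_comm]
    exact mul_le_mul_of_nonneg_left (mul_le_mul_of_nonneg_left (Y_le y n) (norm_nonneg _))
      (by positivity)

noncomputable def act (a : KK EE) (y : YS) : YS := (ex_act a y).choose

lemma act_apply (a : KK EE) (y : YS) (t : OnePoint ℕ) : (act a y).1.1 t = a.op * y.1.1 t := by
  rw [act, (ex_act a y).choose_spec.1]; rfl

noncomputable def YM : BMod EE where
  X := YS
  cpl := YS_closed.completeSpace_coe
  act := act
  add_l a b x := Y_ext (ContinuousMap.ext fun t => by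
    show _ = (act a x).1.1 t + (act b x).1.1 t
    simp only [act_apply]; exact add_mul a.op b.op _)
  smul_l c a x := Y_ext (ContinuousMap.ext fun t => by
    show _ = c • (act a x).1.1 t
    simp only [act_apply]; exact smul_mul_assoc c a.op _)
  add_r a x y := Y_ext (ContinuousMap.ext fun t => by
    show _ = (act a x).1.1 t + (act a y).1.1 t
    simp only [act_apply]; exact mul_add a.op _ _)
  smul_r c a x := Y_ext (ContinuousMap.ext fun t => by
    show _ = c • (act a x).1.1 t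
    simp only [act_apply]; exact mul_smul_comm c a.op _)
  mul_act a b x := Y_ext (ContinuousMap.ext fun t => by
    simp only [act_apply]; exact mul_assoc a.op b.op _)
  bound := ⟨1, fun a x => by rw [one_mul]; exact (ex_act a x).choose_spec.2⟩

noncomputable def phi (y : YS) : KK EE := ⟨y.1.1 OnePoint.infty, y.2.1⟩

lemma ex_sec (T : KK EE) : ∃ z : YS, z.1.1 = continuousMapMkNat (fun n => PP n * T.op) T.op
    (PP_cpt T.cpt) ∧ ‖z‖ ≤ ‖T‖ := by
  refine ex_Y _ T.cpt ((ContinuousMap.norm_le _ (norm_nonneg _)).2 fun t => ?_) fun n s => ?_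
  · induction t using OnePoint.rec with
    | infty => exact le_rfl
    | coe n => exact (norm_mul_le (PP n) T.op).trans (mul_le_of_le_one_left (norm_nonneg _) (norm_PP n))
  · have h1 : ∀ j ∈ s, ‖row j (PP n * T.op)‖ ≤ if j ∈ Finset.range n then ‖T‖ else 0 := fun j _ => by
      refine ContinuousLinearMap.opNorm_le_bound _ (by positivity) fun x => ?_
      rw [row_apply, mul_apply_eq_comp, PP_apply]
      by_cases h : j < n
      · simp only [h, Finset.mem_range, if_true]
        exact (lp.norm_apply_le_norm (by simp) _ j).trans (T.op.le_opNorm x)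
      · simp [h]
    refine (Finset.sum_le_sum h1).trans ?_
    rw [Finset.sum_ite_mem, Finset.sum_const, nsmul_eq_mul]
    refine mul_le_mul_of_nonneg_right ?_ (norm_nonneg _)
    have := Finset.card_le_card (Finset.inter_subset_right (s₁ := s) (s₂ := Finset.range n))
    rw [Finset.card_range] at this
    exact_mod_cast this.trans (Nat.le_succ n)

noncomputable def sec (T : KK EE) : YS := (ex_sec T).choose

lemma sec_inf (T : KK EE) : (sec T).1.1 OnePoint.infty = T.op := by
  rw [sec, (ex_sec T).choose_spec.1]; rfl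

lemma sec_nat (T : KK EE) (n : ℕ) : (sec T).1.1 n = PP n * T.op := by
  rw [sec, (ex_sec T).choose_spec.1]; rfl

lemma sec_blm : IsBoundedLinearMap ℂ sec := by
  refine ⟨⟨fun S T => Y_ext (ContinuousMap.ext fun t => ?_),
    fun c T => Y_ext (ContinuousMap.ext fun t => ?_)⟩, 1, one_pos,
    fun T => by rw [one_mul]; exact (ex_sec T).choose_spec.2⟩
  · show _ = (sec S).1.1 t + (sec T).1.1 t
    induction t using OnePoint.rec with
    | infty => simp only [sec_inf]; rfl
    | coe n => simp only [sec_nat]; exact mul_add _ S.op T.op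
  · show _ = c • (sec T).1.1 t
    induction t using OnePoint.rec with
    | infty => simp only [sec_inf]; rfl
    | coe n => simp only [sec_nat]; exact mul_smul_comm c _ T.op

noncomputable def rK (x : EE) (f : VV) : KK EE := ⟨rk x f, rk_cpt x f⟩

theorem not_proj : ¬ LeftProj EE := by
  intro h
  obtain ⟨ρ, ⟨hl, C, hC, hb⟩, hm, hs⟩ := h YM phi
    ⟨⟨fun _ _ => rfl, fun _ _ => rfl⟩, 1, one_pos, fun y => by
      rw [one_mul]; exact (y.1.1.norm_coe_le_norm OnePoint.infty).trans (fst_le y.1)⟩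
    (fun a y => Subtype.ext (act_apply a y OnePoint.infty)) ⟨sec, sec_blm, fun T => Subtype.ext (sec_inf T)⟩
  refine hump ind ind_add ind_one (fun n f => row 0 ((ρ (rK (ev 0) f)).1.1 n)) (fun n f g => ?_)
    (fun B => ?_) fun n => ⟨(n + 1) * C, fun B hB N => ?_⟩
  · have : rK (ev 0) (f + g) = rK (ev 0) f + rK (ev 0) g := Subtype.ext (by
      show rk _ _ = rk _ _ + rk _ _
      ext1 x; simp [rk, add_smul])
    rw [this, hl.map_add, ← map_add]; rfl
  · have h1 := ((row 0).continuous.tendsto _).comp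
      (((ρ (rK (ev 0) (ind B))).1.1.continuous.tendsto OnePoint.infty).comp (tendsto_coe_infty (X := ℕ)))
    have h2 : (ρ (rK (ev 0) (ind B))).1.1 OnePoint.infty = rk (ev 0) (ind B) :=
      congrArg KK.op (hs (rK (ev 0) (ind B)))
    have h3 : row 0 (rk (ev 0) (ind B)) = ind B := by ext1 x; simp [rk, ev_apply]
    rw [h2, h3] at h1
    rwa [coclosedCompact_eq_cocompact, cocompact_eq_cofinite, Nat.cofinite_eq_atTop] at h1
  · let T : KK EE := ⟨∑ j ∈ Finset.range N, rk (ev j) (ind (B j)),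
      Submodule.sum_mem _ fun j _ => rk_cpt _ _⟩
    have h1 : ∀ j ∈ Finset.range N, ‖row 0 ((ρ (rK (ev 0) (ind (B j)))).1.1 n)‖ =
        ‖row j ((ρ T).1.1 n)‖ := fun j hj => by
      have e : rK (ev 0) (ind (B j)) = (rK (ev 0) (co j)).mul T := Subtype.ext (by
        show rk _ _ = rk _ _ ∘L ∑ j ∈ Finset.range N, rk (ev j) (ind (B j))
        ext1 x
        rw [ContinuousLinearMap.comp_apply]
        simp only [rk, ContinuousLinearMap.smulRight_apply, co_apply]
        rw [← if_pos (Finset.mem_range.1 hj) (t := ind (B j) x) (e := 0),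
          ← sum_rk_apply (fun j => ind (B j))]
        rfl)
      rw [e, hm]
      congr 1
      ext1 x
      show (act _ _).1.1 (n : OnePoint ℕ) x 0 = _
      rw [act_apply]
      simp [rK, KK.op, rk, ev_apply]
    rw [Finset.sum_congr rfl h1]
    refine (sum_le_hasSum _ (fun _ _ => norm_nonneg _) (Y_sum (ρ T) n)).trans ?_
    refine mul_le_mul_of_nonneg_left ((Y_le _ n).trans ((hb T).trans ?_)) (by positivity)
    exact mul_le_of_le_one_right hC.le (norm_sum_ind B hB N)

end Pool.Agent.H90.Kp
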