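import Mathlib
import Pool.Agent.H90.KpDefs

namespace Pool.Agent.H90.Kp

variable {E : Type} [NormedAddCommGroup E] [NormedSpace ℂ E]

/-- the product `a b` (left modules, `s = true`) or `b a` (right modules, `s = false`) -/
def mulS (s : Bool) (a b : KK E) : KK E := if s then a.mul b else b.mul a

variable (E)

/-- a left (`s = true`) or right (`s = false`) Banach module over the compact operators;
`act a x` is `a · x` or `x · a` -/
structure SMod (s : Bool) : Type 1 where
  X : Type
  [grp : NormedAddCommGroup X]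
  [spc : NormedSpace ℂ X]
  cpl : CompleteSpace X
  act : KK E → X → X
  add_l : ∀ a b x, act (a + b) x = act a x + act b x
  smul_l : ∀ (c : ℂ) a x, act (c • a) x = c • act a x
  add_r : ∀ a x y, act a (x + y) = act a x + act a y
  smul_r : ∀ (c : ℂ) a x, act a (c • x) = c • act a x
  mul_act : ∀ a b x, act (mulS s a b) x = act a (act b x)
  bound : ∃ K : ℝ, ∀ a x, ‖act a x‖ ≤ K * ‖a‖ * ‖x‖

attribute [instance] SMod.grp SMod.spc

variable {E} {s : Bool}

/-- a bounded linear map between the underlying Banach spaces -/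
def Bdd (P Q : SMod E s) (f : P.X → Q.X) : Prop := IsBoundedLinearMap ℂ f

/-- a morphism of Banach modules -/
def Mor (P Q : SMod E s) (f : P.X → Q.X) : Prop :=
  Bdd P Q f ∧ ∀ a x, f (P.act a x) = Q.act a (f x)

/-- `P` is projective: morphisms out of `P` lift through admissible epimorphisms -/
def Proj (P : SMod E s) : Prop :=
  ∀ (X Y : SMod E s) (σ : X.X → Y.X), Mor X Y σ → (∃ t, Bdd Y X t ∧ ∀ y, σ (t y) = y) →
    ∀ φ, Mor P Y φ → ∃ ψ, Mor P X ψ ∧ ∀ p, σ (ψ p) = φ p

/-- `P` is the closed one-sided ideal `L` with the action by multiplication, through `e` -/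
def IsIdealMod (P : SMod E s) (L : Set (KK E)) (e : P.X → KK E) : Prop :=
  IsBoundedLinearMap ℂ e ∧ (∀ x, ‖e x‖ = ‖x‖) ∧ Set.range e = L ∧
    ∀ a x, e (P.act a x) = mulS s a (e x)

variable (E s)

/-- the compact operators form a projective module over themselves -/
def SelfProj : Prop := ∀ (P : SMod E s) (e : P.X → KK E), IsIdealMod P Set.univ e → Proj P

/-- every closed one-sided ideal is projective -/
def Hered : Prop :=
  ∀ (L : Set (KK E)) (P : SMod E s) (e : P.X → KK E), IsIdealMod P L e → Proj P

end Pool.Agent.H90.Kp
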