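import Mathlib
import Pool.Agent.H90.KpB
import Pool.Agent.H90.KpDefs2

namespace Pool.Agent.H90.Kp

variable {E : Type} [NormedAddCommGroup E] [NormedSpace ℂ E]

lemma KK_cpl [CompleteSpace E] : CompleteSpace (KK E) :=
  (isClosed_setOfPred_isCompactOperator (M₁ := E) (M₂ := E) (σ₁₂ := RingHom.id ℂ)).completeSpace_coe

lemma op_inj {a b : KK E} (h : a.op = b.op) : a = b := Subtype.ext h

noncomputable def selfMod (E : Type) [NormedAddCommGroup E] [NormedSpace ℂ E] [CompleteSpace E]
    (s : Bool) : SMod E s where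
  X := KK E
  cpl := KK_cpl
  act := mulS s
  add_l a b x := by
    cases s
    · exact op_inj (mul_add x.op a.op b.op)
    · exact op_inj (add_mul a.op b.op x.op)
  smul_l c a x := by
    cases s
    · exact op_inj (mul_smul_comm c x.op a.op)
    · exact op_inj (smul_mul_assoc c a.op x.op)
  add_r a x y := by
    cases s
    · exact op_inj (add_mul x.op y.op a.op)
    · exact op_inj (mul_add a.op x.op y.op)
  smul_r c a x := by
    cases s
    · exact op_inj (smul_mul_assoc c x.op a.op)
    · exact op_inj (mul_smul_comm c a.op x.op)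
  mul_act a b x := by cases s <;> rfl
  bound := ⟨1, fun a x => by
    rw [one_mul]
    cases s
    · exact (norm_mul_le x.op a.op).trans_eq (mul_comm _ _)
    · exact norm_mul_le a.op x.op⟩

lemma self_ideal [CompleteSpace E] (s : Bool) : IsIdealMod (selfMod E s) Set.univ id :=
  ⟨IsBoundedLinearMap.id, fun _ => rfl, Set.range_id, fun _ _ => rfl⟩

lemma Hered.self {s : Bool} (h : Hered E s) : SelfProj E s := fun P e hP => h _ P e hP

theorem not_left : ¬ SelfProj EE true := fun h => not_proj fun Y φ h1 h2 h3 => by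
  obtain ⟨ψ, ⟨h4, h5⟩, h6⟩ := h _ _ (self_ideal true)
    { X := Y.X, cpl := Y.cpl, act := Y.act, add_l := Y.add_l, smul_l := Y.smul_l, add_r := Y.add_r,
      smul_r := Y.smul_r, mul_act := Y.mul_act, bound := Y.bound } (selfMod EE true) φ ⟨h1, h2⟩ h3
    id ⟨IsBoundedLinearMap.id, fun _ _ => rfl⟩
  exact ⟨ψ, h4, h5, h6⟩

end Pool.Agent.H90.Kp
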