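import Mathlib
import Pool.Agent.H90.CsB
import Pool.Agent.H90.KpC

set_option maxSynthPendingDepth 4

namespace Pool.Agent.H90.Kp

open Filter Topology Function ContinuousLinearMap TopologicalSpace
open scoped Classical

lemma summ {ι Z : Type} [NormedAddCommGroup Z] [NormedSpace ℂ Z] [CompleteSpace Z] (f : ι → Z)
    {S : Set Z} (hS : IsCompact S) (h : ∀ F : Finset ι, ∑ i ∈ F, f i ∈ S) : Summable f := by
  by_contra hn
  rw [summable_iff_vanishing_norm] at hn
  push Not at hn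
  obtain ⟨ε, hε, hn⟩ := hn
  choose F F1 F2 using hn
  obtain ⟨y, -, y2⟩ := hS.exists_mapClusterPt (f := atTop) (u := fun G => ∑ i ∈ F G, f i)
    (le_principal_iff.2 (mem_map.2 (Eventually.of_forall fun G => h _)))
  have y1 : ε ≤ ‖y‖ := (isClosed_le continuous_const continuous_norm).mem_of_mapClusterPt y2
    (.of_forall F2)
  have st : ∀ z ∈ closure (Set.range fun G : Finset ι => ∑ i ∈ G, f i),
      z + y ∈ closure (Set.range fun G : Finset ι => ∑ i ∈ G, f i) := fun z hz =>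
    (isClosed_closure.preimage (continuous_add_const y)).closure_subset_iff.2 (by
      rintro _ ⟨G, rfl⟩
      refine isClosed_closure.mem_of_mapClusterPt
        (y2.continuousAt_comp (continuous_const_add _).continuousAt) ?_
      filter_upwards [eventually_ge_atTop G] with G' hG
      exact subset_closure ⟨G ∪ F G', Finset.sum_union ((F1 G').symm.mono_left hG)⟩) hz
  obtain ⟨C, hC⟩ := hS.isBounded.exists_norm_le
  obtain ⟨n, hn⟩ := exists_nat_gt (C / ε)
  have : ∀ n : ℕ, n • y ∈ closure (Set.range fun G : Finset ι => ∑ i ∈ G, f i) := fun n => by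
    induction n with
    | zero => exact subset_closure ⟨∅, by simp⟩
    | succ n ih => rw [succ_nsmul]; exact st _ ih
  have := hC _ (hS.isClosed.closure_subset_iff.2 (Set.range_subset_iff.2 h) (this n))
  rw [RCLike.norm_nsmul ℂ, nsmul_eq_mul] at this
  rw [div_lt_iff₀ hε] at hn
  nlinarith [n.cast_nonneg (α := ℝ)]

variable {Ψ E : Type} [NormedAddCommGroup E] [NormedSpace ℂ E]

structure Ps (N : Set Ψ) (V : Ψ → Set Ψ) (δ : Ψ → E →L[ℂ] ℂ) (u : Ψ → E) : Prop where
  sub : ∀ k, V k ⊆ N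
  emp : ∀ s ∈ N, V s = ∅
  ad : ∀ k l, k ≠ l → (V k ∩ V l).Finite
  inf : ∀ k ∉ N, (V k).Infinite
  cnt : N.Countable
  unc : Uncountable Ψ
  le : ∀ p x, ‖δ p x‖ ≤ ‖x‖
  ge : ∀ x c, 0 ≤ c → (∀ p, ‖δ p x‖ ≤ c) → ‖x‖ ≤ c
  val : ∀ p k, δ p (u k) = if p = k ∨ p ∈ V k then 1 else 0
  dn : ∀ D : Submodule ℂ E, IsClosed (D : Set E) → (∀ k, u k ∈ D) → ∀ x, x ∈ D

lemma exPs : ∃ (E : Type) (_ : NormedAddCommGroup E) (_ : NormedSpace ℂ E) (_ : CompleteSpace E)
    (N : Set (Set ℕ)) (V : Set ℕ → Set (Set ℕ)) (δ : Set ℕ → E →L[ℂ] ℂ) (u : Set ℕ → E),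
    Ps N V δ u := by
  let V : Set ℕ → Set (Set ℕ) := fun k => {s | k.Infinite ∧ ∃ n, s = k ∩ Set.Iic n}
  let u0 : Set ℕ → lp (fun _ : Set ℕ => ℂ) ⊤ := fun k =>
    ⟨fun p => if p = k ∨ p ∈ V k then 1 else 0, memℓp_infty ⟨1, by
      rintro _ ⟨p, rfl⟩; dsimp only; split_ifs <;> simp⟩⟩
  let X := (Submodule.span ℂ (Set.range u0)).topologicalClosure
  have cl : IsClosed (X : Set (lp (fun _ : Set ℕ => ℂ) ⊤)) := Submodule.isClosed_topologicalClosure _
  have gen : ∀ k, u0 k ∈ X := fun k =>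
    Submodule.le_topologicalClosure _ (Submodule.subset_span ⟨k, rfl⟩)
  refine ⟨X, _, _, cl.completeSpace_coe, {s | s.Finite}, V,
    fun p => lp.evalCLM ℂ (fun _ : Set ℕ => ℂ) ⊤ p ∘L X.subtypeL, fun k => ⟨u0 k, gen k⟩, ?_, fun s hs => ?_,
    fun k l e => ?_, fun k hk h => hk ?_, ?_, ?_, fun p x => lp.norm_apply_le_norm (by simp) x.1 p,
    fun x c hc h => lp.norm_le_of_forall_le hc h, fun p k => ?_, fun D d1 d2 z => ?_⟩
  · rintro k _ ⟨-, n, rfl⟩
    exact (Set.finite_Iic n).inter_of_right k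
  · exact Set.eq_empty_of_forall_notMem fun _ h => h.1 hs
  · obtain ⟨m, hm⟩ := not_forall.1 (mt Set.ext e)
    refine (Set.finite_Iio m).finite_subsets.subset ?_
    rintro _ ⟨⟨-, n, rfl⟩, -, n', e'⟩ x hx
    by_contra hx'
    have h1 : m ≤ n := (not_lt.1 hx').trans hx.2
    have h2 : m ≤ n' := (not_lt.1 hx').trans (e' ▸ hx : x ∈ l ∩ Set.Iic n').2
    simpa [h1, h2, hm] using Set.ext_iff.1 e' m
  · exact (h.sUnion fun s ⟨_, n, e⟩ => e ▸ (Set.finite_Iic n).inter_of_right k).subset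
      fun n hn => ⟨_, ⟨hk, n, rfl⟩, hn, le_refl n⟩
  · simpa using Set.countable_ofPred_finite_subset (Set.countable_univ (α := ℕ))
  · exact ⟨fun h => let ⟨f, hf⟩ := exists_surjective_nat (Set ℕ); cantor_surjective f hf⟩
  · show (u0 k).1 p = _
    by_cases e : p = k ∨ p ∈ V k <;> simp only [u0, e, if_true, if_false]
  · obtain ⟨y, y1, y2⟩ := Submodule.topologicalClosure_minimal _
      (Submodule.span_le.2 (by rintro _ ⟨k, rfl⟩; exact ⟨_, d2 k, rfl⟩ :
        Set.range u0 ⊆ D.map X.subtype)) (cl.isClosedEmbedding_subtypeVal.isClosedMap _ d1) z.2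
    exact Subtype.ext y2 ▸ y1

def WK (F : Finset Ψ) (x : Ψ → E) : Prop :=
  ∀ (z : Ψ → ℂ) (c : ℝ), 0 ≤ c → (∀ j, ‖z j‖ ≤ c) → ‖∑ j ∈ F, z j • x j‖ ≤ c

noncomputable def vv (V : Ψ → Set Ψ) (u : Ψ → E) (G : Finset Ψ) (k : Ψ) : E :=
  u k - ∑ s ∈ G, (V k).indicator u s

namespace Ps
variable {N : Set Ψ} {V : Ψ → Set Ψ} {δ : Ψ → E →L[ℂ] ℂ} {u : Ψ → E} (h : Ps N V δ u)
include h

lemma nm (k : Ψ) : k ∉ V k := fun e => by simp [h.emp k (h.sub k e)] at e

lemma vf (p k s : Ψ) : δ p ((V k).indicator u s) = if p = s ∧ s ∈ V k then 1 else 0 := by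
  by_cases e : s ∈ V k <;> simp [e, h.val, fun e => h.emp s (h.sub k e)]

lemma vv (p k : Ψ) (G : Finset Ψ) :
    δ p (vv V u G k) = if p = k ∨ p ∈ V k ∧ p ∉ G then 1 else 0 := by
  have := h.nm k
  simp only [Kp.vv, map_sub, map_sum, h.vf, h.val, ite_and, Finset.sum_ite_eq]
  by_cases p = k <;> by_cases p ∈ V k <;> by_cases p ∈ G <;> simp_all

lemma wk {F : Finset Ψ} {x : Ψ → E} (P : Ψ → Ψ → Prop) [∀ p j, Decidable (P p j)]
    (h1 : ∀ p j, δ p (x j) = if P p j then 1 else 0)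
    (h2 : ∀ p, ∀ i ∈ F, ∀ j ∈ F, P p i → P p j → i = j) : WK F x := fun z c hc hz =>
  h.ge _ _ hc fun p => by
    simp only [map_sum, map_smul, h1, smul_eq_mul, mul_ite, mul_one, mul_zero]
    by_cases e : ∃ i ∈ F, P p i
    · obtain ⟨i, i1, i2⟩ := e
      rw [Finset.sum_eq_single_of_mem i i1 fun j j1 j2 => if_neg fun e => j2 (h2 p j j1 i i1 e i2),
        if_pos i2]
      exact hz i
    · rw [Finset.sum_eq_zero fun j hj => if_neg fun e' => e ⟨j, hj, e'⟩]
      simpa using hc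

lemma wf (F : Finset Ψ) (k : Ψ) : WK F ((V k).indicator u) :=
  h.wk (fun p j => p = j ∧ j ∈ V k) (fun p j => h.vf p k j) fun _ _ _ _ _ a b => a.1.symm.trans b.1

lemma wv (F : Finset Ψ) : ∀ᶠ G in atTop, F ⊆ G ∧ WK F (Kp.vv V u G) := by
  filter_upwards [eventually_ge_atTop F, (eventually_all_finset F).2 fun i _ =>
    (eventually_all_finset F).2 fun j _ => eventually_ge_atTop
      (if e : i = j then ∅ else (h.ad i j e).toFinset)] with G g1 g2
  refine ⟨g1, h.wk (fun p j => p = j ∨ p ∈ V j ∧ p ∉ G) (fun p j => h.vv p j G)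
    fun p i hi j hj a b => by_contra fun e => ?_⟩
  have := @g2 i hi j hj p
  simp only [e, dite_false, Set.Finite.mem_toFinset, Set.mem_inter_iff] at this
  have := @g1 p
  grind

lemma n1 (k : Ψ) : ‖u k‖ ≤ 1 := h.ge _ _ zero_le_one fun p => by rw [h.val]; split_ifs <;> simp

lemma cex {Z : Type} [NormedAddCommGroup Z] [NormedSpace ℂ Z] [CompleteSpace Z] (R : E →ₗ[ℂ] Z)
    {C : ℝ} (hR : ∀ (F : Finset Ψ) x, WK F x → ∑ j ∈ F, ‖R (x j)‖ ≤ C) (D : Submodule ℂ Z)
    (d1 : IsClosed (D : Set Z)) (d2 : ∀ s ∈ N, R (u s) ∈ D) : {k | R (u k) ∉ D}.Countable := by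
  have s1 : ∀ k, Summable fun s => R ((V k).indicator u s) := fun k =>
    (summable_of_sum_le (fun _ => norm_nonneg _) fun F => hR F _ (h.wf F k)).of_norm
  have s2 : Summable fun k => ‖R (u k) - ∑' s, R ((V k).indicator u s)‖ :=
    summable_of_sum_le (c := C) (fun _ => norm_nonneg _) fun F => le_of_tendsto
      (tendsto_finsetSum F fun k _ => ((s1 k).hasSum.const_sub (R (u k))).norm)
      ((h.wv F).mono fun G hG => by simpa only [Kp.vv, map_sub, map_sum] using hR F _ hG.2)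
  refine s2.countable_support.mono fun k hk => mem_support.2 fun e => hk ?_
  rw [sub_eq_zero.1 (norm_eq_zero.1 e)]
  refine d1.mem_of_tendsto (s1 k).hasSum (.of_forall fun F => sum_mem fun s _ => ?_)
  by_cases e : s ∈ V k <;> simp [e, fun e => d2 s (h.sub k e)]

theorem no_dec [CompleteSpace E] (D : Ψ → E →ₗ[ℂ] E) {C : ℝ} (hC : 0 ≤ C)
    (h1 : ∀ x, HasSum (fun k => D k x) x)
    (h2 : ∀ (F : Finset Ψ) x, ‖∑ k ∈ F, D k x‖ ≤ C * ‖x‖)
    (h3 : ∀ k (F : Finset Ψ) x, WK F x → ∑ j ∈ F, ‖D k (x j)‖ ≤ C) : False := by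
  let M := ⋃ s ∈ N, support fun j => D j (u s)
  have hM : M.Countable := h.cnt.biUnion fun s _ => (h1 _).summable.countable_support
  have sm : ∀ (S : Set Ψ) x, Summable (S.indicator fun j => D j x) := fun S x =>
    (h1 x).summable.indicator S
  let Q : E →ₗ[ℂ] E :=
    { toFun := fun x => ∑' j, Mᶜ.indicator (fun j => D j x) j
      map_add' := fun x y => by
        rw [← (sm _ x).tsum_add (sm _ y)]
        exact tsum_congr fun j => by by_cases e : j ∈ Mᶜ <;> simp [e]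
      map_smul' := fun c x => by
        rw [← (sm _ x).tsum_const_smul]
        exact tsum_congr fun j => by by_cases e : j ∈ Mᶜ <;> simp [e] }
  have q1 : ∀ x, ‖Q x‖ ≤ C * ‖x‖ := fun x => le_of_tendsto' (sm _ x).hasSum.norm fun F => by
    rw [Finset.sum_indicator_eq_sum_filter]; exact h2 _ _
  let Z := (Submodule.span ℂ (Set.image2 (fun j s => D j (u s)) M N)).topologicalClosure
  have cl : IsClosed (Z : Set E) := Submodule.isClosed_topologicalClosure _
  have c1 := hM.biUnion fun j hj => h.cex (D j) (h3 j) Z cl fun s hs =>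
    Submodule.le_topologicalClosure _ (Submodule.subset_span (Set.mem_image2_of_mem hj hs))
  have c2 := h.cnt.biUnion fun n _ => h.cex ((δ n).toLinearMap ∘ₗ Q) (C := C) (fun F x hx => by
    choose c c1 c2 using fun j => Complex.exists_norm_eq_mul_self (δ n (Q (x j)))
    have : ((∑ j ∈ F, ‖δ n (Q (x j))‖ : ℝ) : ℂ) = δ n (Q (∑ j ∈ F, c j • x j)) := by simp [c2]
    have e := (h.le n _).trans ((q1 _).trans (mul_le_of_le_one_right hC
      (hx c 1 zero_le_one fun j => (c1 j).le)))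
    rw [← this, Complex.norm_real] at e
    exact (le_abs_self _).trans e) ⊥ isClosed_singleton fun s hs => by
      have : Q (u s) = 0 := (tsum_congr fun j => by
        by_cases e : j ∈ Mᶜ
        · simpa [e] using fun e' => e (Set.mem_biUnion hs e')
        · simp [e]).trans tsum_zero
      exact (Submodule.mem_bot ℂ).2 ((congrArg (δ n) this).trans (map_zero _))
  obtain ⟨c, c3, c4⟩ := ((hM.image2 h.cnt fun j s => D j (u s)).isSeparable.span (R := ℂ)).closure
  have : ∀ k, (∀ j ∈ M, D j (u k) ∈ Z) → ∃ d ∈ c, dist (u k - Q (u k)) d < 1 / 2 := fun k hk => by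
    refine Metric.mem_closure_iff.1 (c4 (?_ : _ ∈ (Z : Set E))) _ (by norm_num)
    refine cl.mem_of_tendsto ((h1 _).sub (sm Mᶜ _).hasSum) (.of_forall fun F => sum_mem fun j _ => ?_)
    by_cases e : j ∈ M <;> simp [e, hk j]
  choose! d d1 d2 using this
  have := h.unc
  refine Set.not_countable_univ (Set.union_compl_self _ ▸ ((c1.union c2).union h.cnt).union ?_)
  refine Set.countable_of_injective_of_countable_image (f := d) (fun k hk l hl e => ?_)
    (c3.mono ?_)
  · by_contra e'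
    simp only [Set.compl_union, Set.mem_inter_iff, Set.mem_compl_iff, Set.mem_iUnion, not_exists,
      Set.mem_ofPred_eq, not_not, Submodule.mem_bot, LinearMap.comp_apply, coe_coe] at hk hl
    obtain ⟨n, n1, n2⟩ := ((h.inf k hk.2).sdiff (h.ad k l e')).nonempty
    have n3 := h.sub k n1
    have a := h.le n ((u k - Q (u k)) - (u l - Q (u l)))
    have b := dist_triangle_right (u k - Q (u k)) (u l - Q (u l)) (d k)
    have n4 : ¬(n = l ∨ n ∈ V l) := by
      rintro (rfl | e)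
      exacts [hl.2 n3, n2 ⟨n1, e⟩]
    simp only [map_sub, hk.1.2 n n3, hl.1.2 n n3, h.val, if_neg n4, n1, or_true, if_true, sub_zero,
      norm_one, ← dist_eq_norm] at a
    linarith [d2 k hk.1.1, e ▸ d2 l hl.1.1]
  · rintro _ ⟨k, hk, rfl⟩
    exact d1 k fun j hj => by_contra fun e => hk (.inl (.inl (Set.mem_biUnion hj e)))

end Ps

end Pool.Agent.H90.Kp
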