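import Mathlib
import Pool.Agent.H90.KpDefs2

namespace Pool.Agent.H90.Kp

variable (E : Type) [NormedAddCommGroup E] [NormedSpace ℂ E]

/-- the algebra of compact operators is projective as a right module over itself
(`Y.act a y` is `y · a`) -/
def RightProj : Prop :=
  ∀ (Y : SMod E false) (φ : Y.X → KK E), IsBoundedLinearMap ℂ φ →
    (∀ a y, φ (Y.act a y) = (φ y).mul a) →
    (∃ s : KK E → Y.X, IsBoundedLinearMap ℂ s ∧ ∀ x, φ (s x) = x) →
    ∃ ρ : KK E → Y.X, IsBoundedLinearMap ℂ ρ ∧ (∀ a x, ρ (x.mul a) = Y.act a (ρ x)) ∧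
      ∀ x, φ (ρ x) = x

end Pool.Agent.H90.Kp
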