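import Mathlib
import Pool.Agent.H90.KrA
import Pool.Agent.H90.KrDefs

set_option maxSynthPendingDepth 4

namespace Pool.Agent.H90.Kp

open Filter Topology ContinuousLinearMap
open scoped Classical

variable {Ψ E : Type} [NormedAddCommGroup E] [NormedSpace ℂ E]

noncomputable def opL : KK E →L[ℂ] E →L[ℂ] E := (KS E).subtypeL

noncomputable def rE (x : E) (f : E →L[ℂ] ℂ) : KK E :=
  ⟨f.smulRight x, (isCompactOperator_of_locallyCompactSpace_dom f).clm_comp (toSpanSingleton ℂ x)⟩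

namespace Ps
variable {N : Set Ψ} {V : Ψ → Set Ψ} {δ : Ψ → E →L[ℂ] ℂ} {u : Ψ → E} (h : Ps N V δ u)
  [CompleteSpace E]
include h

lemma tau : ∃ τ : Ψ → KK E →L[ℂ] E,
    (∀ (F : Finset Ψ) w z, ‖∑ k ∈ F, δ k z • τ k w‖ ≤ ‖w‖ * ‖z‖) ∧ (∀ k w, ‖τ k w‖ ≤ ‖w‖) ∧
    ∀ w z, HasSum (fun k => δ k z • τ k w) (w.op z) := by
  have s1 : ∀ k (w : KK E), Summable fun s => w.op ((V k).indicator u s) := fun k w => by
    obtain ⟨S, hS, hS'⟩ := w.cpt.image_closedBall_subset_compact (f := (w.op : E →ₗ[ℂ] E)) 1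
    refine summ _ hS fun F => hS' ⟨∑ s ∈ F, (V k).indicator u s, ?_, map_sum _ _ _⟩
    simpa using h.wf F k 1 1 zero_le_one (by simp)
  let t : Ψ → KK E → E := fun k w => w.op (u k) - ∑' s, w.op ((V k).indicator u s)
  have t1 : ∀ k w, Tendsto (fun G => w.op (Kp.vv V u G k)) atTop (𝓝 (t k w)) := fun k w => by
    simp only [Kp.vv, map_sub, map_sum]
    exact (s1 k w).hasSum.const_sub (w.op (u k))
  have t2 : ∀ (F : Finset Ψ) (w : KK E) (z : Ψ → ℂ) c, 0 ≤ c → (∀ j, ‖z j‖ ≤ c) →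
      ‖∑ k ∈ F, z k • t k w‖ ≤ ‖w‖ * c := fun F w z c hc hz => le_of_tendsto
    (tendsto_finsetSum F fun k _ => (t1 k w).const_smul (z k)).norm ((h.wv F).mono fun G hG => by
      simp only [← map_smul, ← map_sum]
      exact le_of_opNorm_le_of_le _ le_rfl (hG.2 z c hc hz))
  have t3 : ∀ k w, ‖t k w‖ ≤ ‖w‖ := fun k w => by simpa using t2 {k} w 1 1 zero_le_one (by simp)
  let τ : Ψ → KK E →L[ℂ] E := fun k => LinearMap.mkContinuous
    { toFun := t k
      map_add' := fun a b => tendsto_nhds_unique (t1 k (a + b)) ((t1 k a).add (t1 k b))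
      map_smul' := fun c a => tendsto_nhds_unique (t1 k (c • a)) ((t1 k a).const_smul c) } 1
    fun w => (t3 k w).trans_eq (one_mul _).symm
  refine ⟨τ, fun F w z => t2 F w _ _ (norm_nonneg z) fun k => h.le k z, t3, fun w z => ?_⟩
  obtain ⟨D, d1, d2⟩ := Gd.tend_dense (l := atTop)
    (fun F : Finset Ψ => ∑ k ∈ F, (δ k).smulRight (t k w) - w.op) (C := ‖w‖ + ‖w‖) fun F z => by
      simp only [sub_apply, sum_apply, smulRight_apply, add_mul]
      exact (norm_sub_le _ _).trans (add_le_add (t2 F w _ _ (norm_nonneg z) fun k => h.le k z)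
        (w.op.le_opNorm z))
  simp only [sub_apply, sum_apply, smulRight_apply, tendsto_sub_nhds_zero_iff] at d2
  refine (d2 z).1 (h.dn D d1 (fun l => (d2 _).2 ?_) z)
  have := (hasSum_ite_eq l (t l w)).add (s1 l w).hasSum
  simp only [t, sub_add_cancel] at this
  refine this.congr_fun fun k => ?_
  have := h.nm l
  by_cases k = l <;> by_cases e : k ∈ V l <;> simp_all [h.val, fun e => h.emp k (h.sub l e), t]

theorem not_right : ¬RightProj E := fun H => by
  obtain ⟨τ, t1, t2, t3⟩ := h.tau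
  obtain ⟨Y, _, _, _, ι, hι⟩ := Cs.ex_Tens (KK E) (E →L[ℂ] E)
  have := KK_cpl (E := E)
  obtain ⟨O, -, o⟩ := hι.lift ((compL ℂ _ _ Y).bilinearComp ι (mul ℂ (E →L[ℂ] E)))
  replace o : ∀ w a c, O (ι w a) c = ι w (a * c) := fun w a c => by rw [o]; rfl
  obtain ⟨φ, -, p⟩ := hι.lift (Z := KK E) (LinearMap.mkContinuous₂ (LinearMap.mk₂ ℂ
    (fun (w : KK E) (a : E →L[ℂ] E) => (⟨w.op ∘L a, w.cpt.comp_clm a⟩ : KK E))
    (fun a b c => op_inj (add_mul a.op b.op c)) (fun c a b => op_inj (smul_mul_assoc c a.op b))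
    (fun a b c => op_inj (mul_add a.op b c)) fun c a b => op_inj (mul_smul_comm c a.op b)) 1
    fun w a => (norm_mul_le w.op a).trans_eq (by rw [one_mul]; rfl))
  replace p : ∀ w a, (φ (ι w a)).op = w.op * a := fun w a => by rw [p]; rfl
  choose G g0 g using fun k => hι.lift ((smulRightL ℂ E E).flip.bilinearComp (τ k)
    (compL ℂ E E ℂ (δ k)))
  replace g : ∀ k w a x, G k (ι w a) x = δ k (a x) • τ k w := fun k w a x => by rw [g]; rfl
  obtain ⟨ρ, ⟨hl, C, hC, hb⟩, hm, hs⟩ := H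
    { X := Y, cpl := ‹_›, act := fun a y => O y a.op
      add_l := fun a b y => (O y).map_add a.op b.op
      smul_l := fun c a y => (O y).map_smul c a.op
      add_r := fun a x y => by rw [map_add]; rfl
      smul_r := fun c a y => by rw [map_smul]; rfl
      mul_act := fun a b => hι.ext (O.flip (b.op * a.op)) (O.flip a.op ∘L O.flip b.op)
        fun w c => by simp only [comp_apply, flip_apply, o, mul_assoc]
      bound := ⟨‖O‖, fun a y => (O.le_opNorm₂ y a.op).trans_eq (mul_right_comm _ _ _)⟩ }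
    φ φ.isBoundedLinearMap (fun a y => op_inj (hι.ext (opL ∘L φ ∘L O.flip a.op)
      ((mul ℂ (E →L[ℂ] E)).flip a.op ∘L opL ∘L φ) (fun w c => by
        show (φ (O (ι w c) a.op)).op = (φ (ι w c)).op * a.op
        rw [o, p, p, mul_assoc]) y))
    ⟨ι.flip 1, (ι.flip 1).isBoundedLinearMap, fun w => op_inj ((p w 1).trans (mul_one _))⟩
  change KK E → Y at ρ
  replace hl : IsLinearMap ℂ ρ := hl
  replace hs : ∀ w, φ (ρ w) = w := hs
  replace hm : ∀ (a w : KK E), ρ (w.mul a) = O (ρ w) a.op := hm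
  replace hb : ∀ w : KK E, ‖(ρ w : Y)‖ ≤ C * ‖w‖ := hb
  have g1 : ∀ k y c x, G k (O y c) x = G k y (c x) := fun k y c x =>
    hι.ext (apply ℂ E x ∘L G k ∘L O.flip c) (apply ℂ E (c x) ∘L G k) (fun w a => by
      simp [o, g]) y
  have g2 : ∀ (F : Finset Ψ) x y, ‖∑ k ∈ F, G k y x‖ ≤ ‖x‖ * ‖y‖ := fun F x y => by
    simpa using hι.bd (∑ k ∈ F, apply ℂ E x ∘L G k) (norm_nonneg x) (fun w a => by
      simp only [sum_apply, comp_apply, apply_apply, g]
      exact (t1 F w _).trans ((mul_le_mul_of_nonneg_left (a.le_opNorm x) (norm_nonneg w)).trans_eq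
        (by ring))) y
  have g3 : ∀ x y, HasSum (fun k => G k y x) ((φ y).op x) := fun x y => by
    obtain ⟨D, d1, d2⟩ := Gd.tend_dense (l := atTop)
      (fun F : Finset Ψ => ∑ k ∈ F, apply ℂ E x ∘L G k - apply ℂ E x ∘L opL ∘L φ)
      (C := ‖x‖ + ‖apply ℂ E x ∘L opL ∘L φ‖) fun F y => by
        rw [sub_apply, add_mul]
        exact (norm_sub_le _ _).trans (add_le_add (by simpa using g2 F x y) (le_opNorm _ _))
    simp only [sub_apply, sum_apply, comp_apply, apply_apply, tendsto_sub_nhds_zero_iff] at d2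
    refine (d2 y).1 (hι.mem D d1 (fun w a => (d2 _).2 ?_) y)
    simp only [g, show opL (φ (ι w a)) = w.op * a from p w a]
    exact t3 w (a x)
  have g4 : ∀ k (F : Finset Ψ) x y, WK F x → ∑ j ∈ F, ‖G k y (x j)‖ ≤ ‖y‖ := fun k F x y hx => by
    choose f f1 f2 using fun j => exists_dual_vector'' ℂ (G k y (x j))
    have e := hι.bd (∑ j ∈ F, f j ∘L apply ℂ E (x j) ∘L G k) zero_le_one (fun w a => by
      have : (∑ j ∈ F, f j ∘L apply ℂ E (x j) ∘L G k) (ι w a) =
          δ k (a (∑ j ∈ F, f j (τ k w) • x j)) := by simp [g, mul_comm]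
      rw [this, one_mul, mul_comm]
      exact (h.le _ _).trans (le_of_opNorm_le_of_le _ le_rfl (hx _ _ (norm_nonneg w) fun j =>
        (le_of_opNorm_le_of_le _ (f1 j) (t2 k w)).trans_eq (one_mul _)))) y
    simp only [sum_apply, comp_apply, apply_apply, f2, one_mul] at e
    refine (le_abs_self _).trans (Eq.trans_le ?_ e)
    rw [← Real.norm_eq_abs, ← Complex.norm_real]
    simp
  have := h.unc
  obtain ⟨o0⟩ : Nonempty Ψ := inferInstance
  have r1 : ∀ (F : Finset Ψ) (x : Ψ → E), WK F x → ‖∑ j ∈ F, rE (x j) (δ j)‖ ≤ 1 := fun F x hx =>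
    opNorm_le_bound (opL (∑ j ∈ F, rE (x j) (δ j))) zero_le_one fun z => by
      rw [map_sum, sum_apply, one_mul]
      exact hx _ _ (norm_nonneg z) fun j => h.le j z
  refine h.no_dec (fun k =>
    { toFun := fun x => G k (ρ (rE x (δ o0))) (u o0)
      map_add' := fun x y => by
        rw [show rE (x + y) (δ o0) = rE x (δ o0) + rE y (δ o0) from
          op_inj (smulRightL ℂ E E (δ o0) |>.map_add x y), hl.map_add, map_add]; rfl
      map_smul' := fun c x => by
        rw [show rE (c • x) (δ o0) = c • rE x (δ o0) from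
          op_inj (smulRightL ℂ E E (δ o0) |>.map_smul c x), hl.map_smul, map_smul]; rfl })
    hC.le (fun x => ?_) (fun F x => ?_) fun k F x hx => ?_
  · have := g3 (u o0) (ρ (rE x (δ o0)))
    rw [hs] at this
    simpa [rE, KK.op, h.val] using this
  · refine (g2 F _ _).trans ((mul_le_of_le_one_left (norm_nonneg _) (h.n1 _)).trans ((hb _).trans
      (mul_le_mul_of_nonneg_left (opNorm_le_bound (rE x (δ o0)).op (norm_nonneg _) fun z => ?_)
        hC.le)))
    exact (norm_smul (δ o0 z) x).trans_le ((mul_le_mul_of_nonneg_right (h.le _ _)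
      (norm_nonneg _)).trans_eq (mul_comm _ _))
  · obtain ⟨J, j1, j2⟩ := (h.wv F).exists
    refine le_trans (Finset.sum_congr rfl fun j hj => ?_).le ((g4 k F _ _ j2).trans
      ((hb _).trans (mul_le_of_le_one_right hC.le (r1 F x hx))))
    have e : rE (x j) (δ o0) = (∑ j ∈ F, rE (x j) (δ j)).mul (rE (Kp.vv V u J j) (δ o0)) := by
      refine op_inj (ContinuousLinearMap.ext fun z => ?_)
      show δ o0 z • x j = opL (∑ j ∈ F, rE (x j) (δ j)) (δ o0 z • Kp.vv V u J j)
      rw [map_smul, map_sum, sum_apply, Finset.sum_eq_single_of_mem j hj fun i hi e => ?_]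
      · show _ = _ • δ j _ • x j
        simp [h.vv]
      · show δ i _ • x i = 0
        simp [h.vv, e, j1 hi]
    show ‖G k (ρ (rE (x j) (δ o0))) (u o0)‖ = _
    rw [e, hm, g1]
    simp [rE, KK.op, h.val]

end Ps

theorem ex_right : ∃ (E : Type) (_ : NormedAddCommGroup E) (_ : NormedSpace ℂ E),
    CompleteSpace E ∧ ¬RightProj E := by
  obtain ⟨E, _, _, _, N, V, δ, u, h⟩ := exPs
  exact ⟨E, _, _, ‹_›, h.not_right⟩

theorem ex_not (s : Bool) : ∃ (E : Type) (_ : NormedAddCommGroup E) (_ : NormedSpace ℂ E),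
    CompleteSpace E ∧ ¬SelfProj E s := by
  cases s
  · obtain ⟨E, i, j, _, h⟩ := ex_right
    refine ⟨E, i, j, ‹_›, fun H => h fun Y φ h1 h2 h3 => ?_⟩
    obtain ⟨ψ, ⟨h4, h5⟩, h6⟩ := H _ _ (self_ideal false) Y (selfMod E false) φ ⟨h1, h2⟩ h3
      id ⟨IsBoundedLinearMap.id, fun _ _ => rfl⟩
    exact ⟨ψ, h4, h5, h6⟩
  · exact ⟨EE, _, _, inferInstance, not_left⟩

end Pool.Agent.H90.Kp
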