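import Mathlib

set_option autoImplicit false

namespace Pool.Agent.H90.LuccDefs

variable (𝕜 : Type) [RCLike 𝕜] {X : Type} [NormedAddCommGroup X] [NormedSpace 𝕜 X]

/-- `x` is a semi-normalized `M`-bounded basis: dense span, biorthogonal functionals. -/
def IsBasis (x : ℕ → X) : Prop :=
  Dense (Submodule.span 𝕜 (Set.range x) : Set X) ∧
    ∃ φ : ℕ → StrongDual 𝕜 X, (∀ k n, φ k (x n) = if k = n then 1 else 0) ∧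
      (∃ a b : ℝ, 0 < a ∧ ∀ n, a ≤ ‖x n‖ ∧ ‖x n‖ ≤ b) ∧ ∃ M : ℝ, ∀ n, ‖x n‖ * ‖φ n‖ ≤ M

/-- Suppression unconditional for constant coefficients. -/
def SUCC (x : ℕ → X) : Prop :=
  ∃ C : ℝ, 1 ≤ C ∧ ∀ (A B : Finset ℕ) (ε : ℕ → 𝕜), B ⊆ A → (∀ n ∈ A, ‖ε n‖ = 1) →
    ‖∑ n ∈ B, ε n • x n‖ ≤ C * ‖∑ n ∈ A, ε n • x n‖

/-- Lower unconditional for constant coefficients. -/
def LUCC (x : ℕ → X) : Prop :=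
  ∃ C : ℝ, 1 ≤ C ∧ ∀ (A : Finset ℕ) (ε : ℕ → 𝕜) (a : ℕ → ℝ), (∀ n ∈ A, ‖ε n‖ = 1) →
    (∀ n ∈ A, 1 ≤ a n) → ‖∑ n ∈ A, ε n • x n‖ ≤ C * ‖∑ n ∈ A, (ε n * (a n : 𝕜)) • x n‖

end Pool.Agent.H90.LuccDefs
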