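import Pool.Agent.H90.LuccDefs

set_option autoImplicit false

namespace Pool.Agent.H90.LuccProof

open Pool.Agent.H90.LuccDefs
open scoped ENNReal

variable (𝕜 : Type) [RCLike 𝕜]

abbrev L1 := lp (fun _ : ℕ => 𝕜) 1

noncomputable def e (n : ℕ) : L1 𝕜 := lp.single 1 n 1

noncomputable def xb : ℕ → L1 𝕜
  | 0 => e 𝕜 0
  | (n + 1) => e 𝕜 (n + 1) - e 𝕜 n

variable {𝕜}

lemma e_apply (n k : ℕ) : e 𝕜 n k = if k = n then 1 else 0 := by
  simp [e, lp.single_apply, Pi.single_apply]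

lemma xb_apply (n k : ℕ) :
    xb 𝕜 n k = (if k = n then 1 else 0) - (if k + 1 = n then 1 else 0) := by
  cases n with
  | zero => simp [xb, e_apply]
  | succ n => simp [xb, e_apply]

lemma sum_apply (A : Finset ℕ) (c : ℕ → 𝕜) (k : ℕ) :
    (∑ n ∈ A, c n • xb 𝕜 n) k =
      (if k ∈ A then c k else 0) - (if k + 1 ∈ A then c (k + 1) else 0) := by
  rw [lp.coeFn_sum, Finset.sum_apply]
  simp only [lp.coeFn_smul, Pi.smul_apply, xb_apply, smul_eq_mul, mul_sub, Finset.sum_sub_distrib,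
    mul_ite, mul_one, mul_zero, Finset.sum_ite_eq]

lemma key (u v : 𝕜) (a b : ℝ) (hu : ‖u‖ = 1) (hv : ‖v‖ = 1) (ha : 1 ≤ a) (hb : 1 ≤ b) :
    ‖u - v‖ ≤ ‖u * a - v * b‖ := by
  apply le_of_sq_le_sq _ (norm_nonneg _) |>.trans le_rfl
  have h1 : RCLike.re u * RCLike.re u + RCLike.im u * RCLike.im u = 1 := by
    rw [← RCLike.normSq_apply, RCLike.normSq_eq_def', hu]; norm_num
  have h2 : RCLike.re v * RCLike.re v + RCLike.im v * RCLike.im v = 1 := by
    rw [← RCLike.normSq_apply, RCLike.normSq_eq_def', hv]; norm_num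
  rw [← RCLike.normSq_eq_def', ← RCLike.normSq_eq_def', RCLike.normSq_apply, RCLike.normSq_apply]
  simp only [map_sub, RCLike.mul_re, RCLike.mul_im, RCLike.ofReal_re, RCLike.ofReal_im, mul_zero,
    sub_zero, zero_add]
  have h3 : 0 ≤ 1 - (RCLike.re u * RCLike.re v + RCLike.im u * RCLike.im v) := by
    nlinarith [sq_nonneg (RCLike.re u - RCLike.re v), sq_nonneg (RCLike.im u - RCLike.im v)]
  have h4 : 0 ≤ a * b - 1 := by nlinarith
  have h5 := mul_nonneg h3 h4
  generalize RCLike.re u = p at *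
  generalize RCLike.im u = q at *
  generalize RCLike.re v = r at *
  generalize RCLike.im v = s at *
  have e1 : (p * a - r * b) * (p * a - r * b) + (q * a - s * b) * (q * a - s * b) =
      a ^ 2 * (p * p + q * q) + b ^ 2 * (r * r + s * s) - 2 * a * b * (p * r + q * s) := by ring
  have e2 : (p - r) * (p - r) + (q - s) * (q - s) =
      (p * p + q * q) + (r * r + s * s) - 2 * (p * r + q * s) := by ring
  rw [e1, e2, h1, h2]
  nlinarith [sq_nonneg (a - b)]

lemma lucc : LUCC 𝕜 (xb 𝕜) := by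
  refine ⟨1, le_rfl, fun A ε a hε ha => ?_⟩
  rw [one_mul]
  apply lp.norm_mono one_ne_zero
  intro k
  rw [sum_apply, sum_apply]
  have h1 : ∀ n ∈ A, ‖ε n‖ ≤ ‖ε n * (a n : 𝕜)‖ := fun n hn => by
    rw [norm_mul, hε n hn, RCLike.norm_ofReal, one_mul]
    exact (ha n hn).trans (le_abs_self _)
  split_ifs with h2 h3 h3
  · exact key _ _ _ _ (hε _ h2) (hε _ h3) (ha _ h2) (ha _ h3)
  · simpa using h1 _ h2
  · simpa using h1 _ h3
  · exact le_rfl

lemma norm_e (n : ℕ) : ‖e 𝕜 n‖ = 1 := by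
  simp [e, lp.norm_single]

lemma not_succ : ¬ SUCC 𝕜 (xb 𝕜) := by
  rintro ⟨C, hC, h⟩
  obtain ⟨m, hm⟩ := exists_nat_gt C
  have h1 := h (Finset.range (m + 1)) ((Finset.range (m + 1)).filter (fun n => n % 2 = 0))
    (fun _ => 1) (Finset.filter_subset _ _) (by simp)
  have h2 : ‖∑ n ∈ Finset.range (m + 1), (1 : 𝕜) • xb 𝕜 n‖ ≤ ‖e 𝕜 m‖ := by
    apply lp.norm_mono one_ne_zero
    intro k
    rw [sum_apply, e_apply]
    simp only [Finset.mem_range]
    split_ifs <;> first | omega | simp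
  rw [norm_e] at h2
  have h3 := lp.sum_rpow_le_norm_rpow (p := 1) (by simp)
    (∑ n ∈ (Finset.range (m + 1)).filter (fun n => n % 2 = 0), (1 : 𝕜) • xb 𝕜 n) (Finset.range m)
  simp only [ENNReal.toReal_one, Real.rpow_one] at h3
  have h4 : ∀ k ∈ Finset.range m, ‖(∑ n ∈ (Finset.range (m + 1)).filter (fun n => n % 2 = 0),
      (1 : 𝕜) • xb 𝕜 n) k‖ = 1 := by
    intro k hk
    rw [sum_apply]
    simp only [Finset.mem_range, Finset.mem_filter] at hk ⊢
    split_ifs <;> first | omega | simp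
  rw [Finset.sum_congr rfl h4] at h3
  simp only [Finset.sum_const, Finset.card_range, nsmul_eq_mul, mul_one] at h3
  nlinarith

lemma summ (y : L1 𝕜) : Summable (fun k => ‖y k‖) := by
  simpa using y.2.summable

noncomputable def phi (k : ℕ) : StrongDual 𝕜 (L1 𝕜) :=
  lp.tsumCLM 𝕜 ℕ 𝕜 - ∑ n ∈ Finset.range k, lp.evalCLM 𝕜 (fun _ : ℕ => 𝕜) 1 n

lemma phi_apply (k : ℕ) (y : L1 𝕜) : phi k y = ∑' n, y n - ∑ n ∈ Finset.range k, y n := by
  simp only [phi, sub_apply, _root_.sum_apply]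
  rfl

lemma phi_e (k n : ℕ) : phi k (e 𝕜 n) = if n < k then 0 else 1 := by
  rw [phi_apply]
  simp only [e_apply, tsum_ite_eq, Finset.sum_ite_eq', Finset.mem_range]
  split_ifs <;> simp

lemma phi_norm (k : ℕ) : ‖(phi k : StrongDual 𝕜 (L1 𝕜))‖ ≤ 1 := by
  apply ContinuousLinearMap.opNorm_le_bound _ zero_le_one
  intro y
  have h0 : Summable (fun n => y n) := Summable.of_norm (summ y)
  rw [phi_apply, ← h0.sum_add_tsum_nat_add k, add_sub_cancel_left, one_mul]
  have h2 : Summable (fun n => ‖y (n + k)‖) :=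
    (summable_nat_add_iff (f := fun n => ‖y n‖) k).2 (summ y)
  refine (norm_tsum_le_tsum_norm (f := fun n => y (n + k)) h2).trans ?_
  have h1 : ‖y‖ = ∑' n, ‖y n‖ := by simp [lp.norm_eq_tsum_rpow]
  rw [h1, ← (summ y).sum_add_tsum_nat_add k]
  have : 0 ≤ ∑ i ∈ Finset.range k, ‖y i‖ := Finset.sum_nonneg (fun _ _ => norm_nonneg _)
  linarith

lemma xb_norm (n : ℕ) : 1 ≤ ‖xb 𝕜 n‖ ∧ ‖xb 𝕜 n‖ ≤ 2 := by
  constructor
  · have := lp.norm_apply_le_norm one_ne_zero (xb 𝕜 n) n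
    rw [xb_apply] at this
    simpa using this
  · cases n with
    | zero => rw [xb, norm_e]; norm_num
    | succ n =>
      refine (norm_sub_le _ _).trans ?_
      rw [norm_e, norm_e]; norm_num

lemma isBasis : IsBasis 𝕜 (xb 𝕜) := by
  refine ⟨fun y => ?_, phi, fun k n => ?_, ⟨1, 2, one_pos, xb_norm⟩, 2, fun n => ?_⟩
  · have h1 : ∀ n, e 𝕜 n ∈ Submodule.span 𝕜 (Set.range (xb 𝕜)) := by
      intro n
      induction n with
      | zero => exact Submodule.subset_span ⟨0, rfl⟩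
      | succ n ih =>
        have : e 𝕜 (n + 1) = xb 𝕜 (n + 1) + e 𝕜 n := by simp [xb]
        rw [this]
        exact add_mem (Submodule.subset_span ⟨_, rfl⟩) ih
    refine mem_closure_of_tendsto (lp.hasSum_single (by simp) y) ?_
    refine Filter.Eventually.of_forall (fun s => Submodule.sum_mem _ (fun n _ => ?_))
    have : lp.single 1 n (y n) = y n • e 𝕜 n := by
      rw [e, ← lp.single_smul, smul_eq_mul, mul_one]
    rw [this]
    exact Submodule.smul_mem _ _ (h1 n)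
  · cases n with
    | zero => rw [xb, phi_e]; split_ifs <;> first | omega | rfl
    | succ n =>
      rw [xb, map_sub, phi_e, phi_e]
      split_ifs <;> first | omega | simp
  · have h1 := (xb_norm (𝕜 := 𝕜) n).2
    have h2 := phi_norm (𝕜 := 𝕜) n
    have h3 := norm_nonneg (xb 𝕜 n)
    nlinarith

end Pool.Agent.H90.LuccProof
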