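import Mathlib

set_option autoImplicit false

namespace Pool.Agent.H90.NaDefs

/-- The norm-attaining operators `X → Y` are norm dense in `L(X,Y)`. -/
def NADense (𝕜 X Y : Type*) [RCLike 𝕜] [NormedAddCommGroup X] [NormedSpace 𝕜 X]
    [NormedAddCommGroup Y] [NormedSpace 𝕜 Y] : Prop :=
  Dense {T : X →L[𝕜] Y | ∃ x : X, ‖x‖ = 1 ∧ ‖T x‖ = ‖T‖}

/-- `X₁` is a closed subspace which is the range of a projection of norm at most one. -/
def OneComplemented {𝕜 X : Type*} [RCLike 𝕜] [NormedAddCommGroup X] [NormedSpace 𝕜 X]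
    (X₁ : Submodule 𝕜 X) : Prop :=
  IsClosed (X₁ : Set X) ∧
    ∃ P : X →L[𝕜] X, (∀ x, P (P x) = P x) ∧ Set.range P = (X₁ : Set X) ∧ ‖P‖ ≤ 1

end Pool.Agent.H90.NaDefs
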