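import Mathlib

namespace Pool.Agent.H90.Norm

open Set MeasureTheory Filter Topology

/-- the left shift -/
def shift {Λ : Type*} (x : ℕ → Λ) : ℕ → Λ := fun n => x (n + 1)

/-- Shannon entropy of the partition `P ∨ T⁻¹P ∨ ... ∨ T^{-(n-1)}P` -/
noncomputable def blockEnt {X : Type*} [MeasurableSpace X] (m : Measure X) (T : X → X) {k : ℕ}
    (P : X → Fin k) (n : ℕ) : ℝ :=
  ∑ w : Fin n → Fin k, Real.negMulLog (m.real {x | ∀ i : Fin n, P (T^[i] x) = w i})

/-- Kolmogorov-Sinai entropy: the supremum over finite measurable partitions -/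
noncomputable def ksEntropy {X : Type*} [MeasurableSpace X] (m : Measure X) (T : X → X) : EReal :=
  ⨆ (k : ℕ) (P : X → Fin k) (_ : Measurable P),
    limsup (fun n : ℕ => ((blockEnt m T P n / n : ℝ) : EReal)) atTop

open Classical in
/-- the proportion of `j < N` with `E j` -/
noncomputable def freq (E : ℕ → Prop) (N : ℕ) : ℝ :=
  (((Finset.range N).filter E).card : ℝ) / N

/-- `x` is generic for `μ` -/
def Generic {Λ : Type*} [MeasurableSpace Λ] (μ : Measure (ℕ → Λ)) (x : ℕ → Λ) : Prop :=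
  ∀ (l : ℕ) (B : Fin l → Λ), Tendsto (freq fun j => ∀ i : Fin l, x (j + i) = B i) atTop
    (𝓝 (μ.real {z | ∀ i : Fin l, z i = B i}))

/-- `z` is simply `μ`-normal -/
def SimplyNormal {Λ : Type*} [MeasurableSpace Λ] (μ : Measure (ℕ → Λ)) (z : ℕ → Λ) : Prop :=
  ∀ a : Λ, Tendsto (freq fun j => z j = a) atTop (𝓝 (μ.real {z | z 0 = a}))

/-- `x|_S` -/
noncomputable def along {Λ : Type*} (x : ℕ → Λ) (S : Set ℕ) : ℕ → Λ :=
  fun n => x (Nat.nth (· ∈ S) n)

open Classical in
/-- the indicator sequence of `S` -/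
noncomputable def ind (S : Set ℕ) : ℕ → Bool := fun n => decide (n ∈ S)

/-- `ν` is derived from `S`: an invariant weak-* limit point of the empirical measures -/
def Derived (S : Set ℕ) (ν : Measure (ℕ → Bool)) : Prop :=
  IsProbabilityMeasure ν ∧ MeasurePreserving shift ν ν ∧
    ∃ N : ℕ → ℕ, StrictMono N ∧ ∀ F : C(ℕ → Bool, ℝ),
      Tendsto (fun k => (∑ n ∈ Finset.range (N k), F (shift^[n] (ind S))) / N k) atTop
        (𝓝 (∫ y, F y ∂ν))

/-- every measure derived from `S` has entropy zero -/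
def Deterministic (S : Set ℕ) : Prop := ∀ ν, Derived S ν → ksEntropy ν shift = 0

end Pool.Agent.H90.Norm
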