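import Mathlib
import Pool.Agent.H90.NormDefs

namespace Pool.Agent.H90.Norm

open Finset

abbrev W (L : ℕ) : Type := Fin L → Bool

def bit (b : Bool) : ℝ := if b then 1 else 0

lemma bit_nonneg (b : Bool) : 0 ≤ bit b := by cases b <;> simp [bit]
lemma bit_le (b : Bool) : bit b ≤ 1 := by cases b <;> simp [bit]

variable {L : ℕ}

def Dep (A : Fin L → Prop) (F : W L → ℝ) : Prop :=
  ∀ w w', (∀ j, A j → w j = w' j) → F w = F w'

lemma Dep.mono {A B : Fin L → Prop} {F : W L → ℝ} (h : Dep A F) (hAB : ∀ j, A j → B j) :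
    Dep B F := fun w w' H => h w w' fun j hj => H j (hAB j hj)

lemma Dep.mul {A : Fin L → Prop} {F G : W L → ℝ} (h : Dep A F) (h' : Dep A G) :
    Dep A (fun w => F w * G w) := fun w w' H => by simp only [h w w' H, h' w w' H]

lemma Dep.const {A : Fin L → Prop} (c : ℝ) : Dep A (fun _ => c) := fun _ _ _ => rfl

lemma Dep.one_add {A : Fin L → Prop} {F : W L → ℝ} (h : Dep A F) (c : ℝ) :
    Dep A (fun w => 1 + c * F w) := fun w w' H => by simp only [h w w' H]

lemma Dep.prod {A : Fin L → Prop} {ι : Type*} (s : Finset ι) {F : ι → W L → ℝ}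
    (h : ∀ i ∈ s, Dep A (F i)) : Dep A (fun w => ∏ i ∈ s, F i w) := fun w w' H =>
  prod_congr rfl fun i hi => h i hi w w' H

lemma dep_bit {A : Fin L → Prop} {i : Fin L} (h : A i) : Dep A (fun w => bit (w i)) :=
  fun w w' H => by simp only [H i h]

/-- martingale differences with respect to the order given by `e` -/
structure MD (e : Fin L → ℕ) (p : W L → ℝ) (t : Fin L → W L → ℝ) : Prop where
  dep : ∀ j, Dep (fun i => e i ≤ e j) (t j)
  orth : ∀ j F, Dep (fun i => e i < e j) F → ∑ w, p w * (F w * t j w) = 0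

lemma MD.drop {e : Fin L → ℕ} (he : Function.Injective e) {p : W L → ℝ} {t : Fin L → W L → ℝ}
    (h : MD e p t) (c : Fin L → ℝ) (s : Finset (Fin L)) {G : W L → ℝ}
    (hG : ∀ j ∈ s, Dep (fun i => e i < e j) G) :
    ∑ w, p w * (G w * ∏ j ∈ s, (1 + c j * t j w)) = ∑ w, p w * G w := by
  induction s using Finset.induction_on_max_value e with
  | empty => simp
  | insert a s ha hmax ih =>
    have h1 := ih fun j hj => hG j (mem_insert_of_mem hj)
    have h2 := h.orth a (fun w => G w * ∏ j ∈ s, (1 + c j * t j w))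
      ((hG a (mem_insert_self _ _)).mul (Dep.prod s fun j hj =>
        ((h.dep j).mono fun i hi => lt_of_le_of_lt hi
          (lt_of_le_of_ne (hmax j hj) fun e' => ha (he e' ▸ hj))).one_add _))
    simp only [prod_insert ha]
    rw [← h1]
    have : ∀ w, p w * (G w * ((1 + c a * t a w) * ∏ j ∈ s, (1 + c j * t j w))) =
        p w * (G w * ∏ j ∈ s, (1 + c j * t j w)) +
          c a * (p w * ((G w * ∏ j ∈ s, (1 + c j * t j w)) * t a w)) := fun w => by ring
    simp only [this, sum_add_distrib, ← mul_sum, h2, mul_zero, add_zero]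

def Ag (A : Fin L → Prop) (w w' : W L) : Prop := ∀ j, A j → w j = w' j

open Classical in
noncomputable def pred (p : W L → ℝ) (A : Fin L → Prop) (i : Fin L) (w : W L) : ℝ :=
  (∑ w', if Ag A w w' then p w' * bit (w' i) else 0) /
    (∑ w', if Ag A w w' then p w' else 0)

lemma pred_mem {p : W L → ℝ} (hp : ∀ w, 0 ≤ p w) (A : Fin L → Prop) (i : Fin L) (w : W L) :
    0 ≤ pred p A i w ∧ pred p A i w ≤ 1 := by
  classical
  unfold pred
  have h1 : 0 ≤ ∑ w', if Ag A w w' then p w' * bit (w' i) else 0 :=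
    sum_nonneg fun w' _ => by split_ifs; exacts [mul_nonneg (hp _) (bit_nonneg _), le_rfl]
  have h2 : (∑ w', if Ag A w w' then p w' * bit (w' i) else 0) ≤
      ∑ w', if Ag A w w' then p w' else 0 :=
    sum_le_sum fun w' _ => by
      split_ifs
      exacts [mul_le_of_le_one_right (hp _) (bit_le _), le_rfl]
  exact ⟨div_nonneg h1 (h1.trans h2), div_le_one_of_le₀ h2 (h1.trans h2)⟩

lemma dep_pred (p : W L → ℝ) (A : Fin L → Prop) (i : Fin L) : Dep A (pred p A i) := by
  intro w w' H
  have : ∀ u : W L, Ag A w u ↔ Ag A w' u := fun u =>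
    forall_congr' fun j => imp_congr_right fun hj => by rw [H j hj]
  have e : Ag A w = Ag A w' := funext fun u => propext (this u)
  unfold pred
  rw [e]

lemma pred_orth {p : W L → ℝ} (hp : ∀ w, 0 ≤ p w) (A : Fin L → Prop) (i : Fin L) {F : W L → ℝ}
    (hF : Dep A F) : ∑ w, p w * (F w * (bit (w i) - pred p A i w)) = 0 := by
  classical
  set den : W L → ℝ := fun w => ∑ w', if Ag A w w' then p w' else 0 with hden
  have hd : ∀ w w', (∀ j, A j → w j = w' j) → den w = den w' := fun w w' H => by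
    have : ∀ u : W L, Ag A w u ↔ Ag A w' u := fun u =>
      forall_congr' fun j => imp_congr_right fun hj => by rw [H j hj]
    simp only [hden, this]
  have h1 : ∑ w, p w * (F w * pred p A i w) = ∑ w, p w * (F w * bit (w i)) := by
    calc ∑ w, p w * (F w * pred p A i w)
        = ∑ w, ∑ w', if Ag A w' w then
            p w * (p w' * (F w' * bit (w' i)) / den w') else 0 := by
          refine sum_congr rfl fun w _ => ?_
          unfold pred
          rw [sum_div, mul_sum, mul_sum]
          refine sum_congr rfl fun w' _ => ?_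
          by_cases H : Ag A w w'
          · rw [if_pos H, if_pos (show Ag A w' w from fun j hj => (H j hj).symm), ← hd w w' H,
              ← hF w w' H]
            simp only [hden]
            ring
          · rw [if_neg H, if_neg fun H' : Ag A w' w => H fun j hj => (H' j hj).symm]
            simp
      _ = ∑ w', den w' * (p w' * (F w' * bit (w' i)) / den w') := by
          rw [sum_comm]
          refine sum_congr rfl fun w' _ => ?_
          simp only [hden, sum_mul, ite_mul, zero_mul]
      _ = _ := by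
          refine sum_congr rfl fun w' _ => ?_
          by_cases h0 : den w' = 0
          · have : p w' ≤ den w' := by
              have := single_le_sum (f := fun u => if Ag A w' u then p u else 0)
                (fun u _ => by split_ifs; exacts [hp _, le_rfl]) (mem_univ w')
              rwa [if_pos (show Ag A w' w' from fun _ _ => rfl)] at this
            have : p w' = 0 := le_antisymm (h0 ▸ this) (hp _)
            simp [this]
          · field_simp
  simp only [mul_sub, sum_sub_distrib, h1, sub_self]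

/-- the martingale difference of the `j`-th bit -/
noncomputable def md (e : Fin L → ℕ) (p : W L → ℝ) (j : Fin L) (w : W L) : ℝ :=
  bit (w j) - pred p (fun i => e i < e j) j w

lemma md_MD (e : Fin L → ℕ) {p : W L → ℝ} (hp : ∀ w, 0 ≤ p w) : MD e p (md e p) :=
  ⟨fun j w w' H => by
    simp only [md, H j le_rfl, dep_pred p _ j w w' fun i hi => H i (le_of_lt hi)],
   fun j _ hF => pred_orth hp _ j hF⟩

lemma md_abs (e : Fin L → ℕ) {p : W L → ℝ} (hp : ∀ w, 0 ≤ p w) (j : Fin L) (w : W L) :
    |md e p j w| ≤ 1 := by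
  have := pred_mem hp (fun i => e i < e j) j w
  have := bit_nonneg (w j)
  have := bit_le (w j)
  rw [md, abs_le]; constructor <;> linarith

lemma md_sq (e : Fin L → ℕ) {p : W L → ℝ} (hp : ∀ w, 0 ≤ p w) (j : Fin L) :
    ∑ w, p w * (bit (w j) * md e p j w) = ∑ w, p w * md e p j w ^ 2 := by
  have h := (md_MD e hp).orth j _ (dep_pred p (fun i => e i < e j) j)
  have : ∀ w, p w * (bit (w j) * md e p j w) = p w * md e p j w ^ 2 +
      p w * (pred p (fun i => e i < e j) j w * md e p j w) := fun w => by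
    simp only [md]; ring
  simp only [this, sum_add_distrib, h, add_zero]

def ef (L : ℕ) : Fin L → ℕ := fun i => i
def eb (L : ℕ) : Fin L → ℕ := fun i => i.rev

lemma ef_inj : Function.Injective (ef L) := Fin.val_injective
lemma eb_inj : Function.Injective (eb L) := Fin.val_injective.comp Fin.rev_injective
lemma eb_lt {i j : Fin L} : eb L i < eb L j ↔ j < i := by
  simp only [eb, ← Fin.lt_def, Fin.rev_lt_rev]
lemma eb_le {i j : Fin L} : eb L i ≤ eb L j ↔ j ≤ i := by
  simp only [eb, ← Fin.le_def, Fin.rev_le_rev]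

/-- the tilting density -/
noncomputable def tilt (p π : W L → ℝ) (u w : W L) : ℝ :=
  ∏ j, (1 + (1 / 2) * md (ef L) p j u * md (eb L) π j w)

lemma tilt_pos {p π : W L → ℝ} (hp : ∀ w, 0 ≤ p w) (hπ : ∀ w, 0 ≤ π w) (u w : W L) :
    0 < tilt p π u w := by
  refine prod_pos fun j _ => ?_
  have h : |md (ef L) p j u * md (eb L) π j w| ≤ 1 := by
    rw [abs_mul]
    exact mul_le_one₀ (md_abs _ hp _ _) (abs_nonneg _) (md_abs _ hπ _ _)
  have := (abs_le.1 h).1
  linarith

lemma tilt_left {p π : W L → ℝ} (hπ : ∀ w, 0 ≤ π w) (u : W L) :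
    ∑ w, π w * tilt p π u w = ∑ w, π w := by
  have := (md_MD (eb L) hπ).drop eb_inj (fun j => (1 / 2) * md (ef L) p j u) univ
    (G := fun _ => 1) fun _ _ => Dep.const 1
  simpa [tilt] using this

lemma tilt_right {p π : W L → ℝ} (hp : ∀ w, 0 ≤ p w) (w : W L) :
    ∑ u, p u * tilt p π u w = ∑ u, p u := by
  have := (md_MD (ef L) hp).drop ef_inj (fun j => (1 / 2) * md (eb L) π j w) univ
    (G := fun _ => 1) fun _ _ => Dep.const 1
  simp only [one_mul, mul_one] at this
  rw [← this]
  refine sum_congr rfl fun u _ => ?_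
  unfold tilt
  congr 1
  exact prod_congr rfl fun j _ => by ring

lemma tilt_corr {p π : W L → ℝ} (hp : ∀ w, 0 ≤ p w) (hπ : ∀ w, 0 ≤ π w) (i : Fin L) :
    ∑ w, π w * ∑ u, p u * (bit (u i) * bit (w i) * tilt p π u w) =
      (∑ u, p u * bit (u i)) * (∑ w, π w * bit (w i)) +
        (1 / 2) * (∑ u, p u * md (ef L) p i u ^ 2) * (∑ w, π w * md (eb L) π i w ^ 2) := by
  have hsplit : ∀ f : Fin L → ℝ, ∏ j, f j = f i * (∏ j ∈ Iio i, f j) * ∏ j ∈ Ioi i, f j := by
    intro f
    have h1 : (univ : Finset (Fin L)) = insert i (Iio i ∪ Ioi i) := by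
      ext j; simp only [mem_univ, mem_insert, mem_union, mem_Iio, mem_Ioi, true_iff]; omega
    rw [h1, prod_insert (by simp), prod_union (by
      rw [disjoint_left]; intro a ha hb; exact lt_asymm (mem_Iio.1 ha) (mem_Ioi.1 hb)), mul_assoc]
  have h1 : ∀ w, ∑ u, p u * (bit (u i) * bit (w i) * tilt p π u w) =
      ∑ u, p u * (bit (u i) * bit (w i) * (1 + (1 / 2) * md (ef L) p i u * md (eb L) π i w) *
        ∏ j ∈ Iio i, (1 + (1 / 2) * md (ef L) p j u * md (eb L) π j w)) := by
    intro w
    refine Eq.trans ?_ ((md_MD (ef L) hp).drop ef_inj (fun j => (1 / 2) * md (eb L) π j w)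
      (Ioi i) ?_)
    · refine sum_congr rfl fun u _ => ?_
      unfold tilt
      rw [hsplit]
      have : ∏ j ∈ Ioi i, (1 + 1 / 2 * md (eb L) π j w * md (ef L) p j u) =
          ∏ j ∈ Ioi i, (1 + 1 / 2 * md (ef L) p j u * md (eb L) π j w) :=
        prod_congr rfl fun j _ => by ring
      rw [this]
      ring
    · intro j hj u u' H
      have hij : i < j := mem_Ioi.1 hj
      have h2 : ∀ l ≤ i, md (ef L) p l u = md (ef L) p l u' := fun l hl =>
        (md_MD (ef L) hp).dep l u u' fun a ha => H a (lt_of_le_of_lt (le_trans ha hl) hij)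
      simp only
      rw [H i hij, h2 i le_rfl, prod_congr rfl fun l hl => by rw [h2 l (mem_Iio.1 hl).le]]
  have h3 : ∀ u, ∑ w, π w * (bit (u i) * bit (w i) *
      (1 + (1 / 2) * md (ef L) p i u * md (eb L) π i w) *
        ∏ j ∈ Iio i, (1 + (1 / 2) * md (ef L) p j u * md (eb L) π j w)) =
      ∑ w, π w * (bit (u i) * bit (w i) *
        (1 + (1 / 2) * md (ef L) p i u * md (eb L) π i w)) := by
    intro u
    refine (md_MD (eb L) hπ).drop eb_inj (fun j => (1 / 2) * md (ef L) p j u) (Iio i) ?_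
    intro j hj w w' H
    have hij : j < i := mem_Iio.1 hj
    simp only
    rw [H i (eb_lt.2 hij), (md_MD (eb L) hπ).dep i w w' fun a ha =>
      H a (eb_lt.2 (lt_of_lt_of_le hij (eb_le.1 ha)))]
  simp only [h1]
  calc _ = ∑ u, p u * ∑ w, π w * (bit (u i) * bit (w i) *
      (1 + (1 / 2) * md (ef L) p i u * md (eb L) π i w) *
        ∏ j ∈ Iio i, (1 + (1 / 2) * md (ef L) p j u * md (eb L) π j w)) := by
        simp only [mul_sum]
        rw [sum_comm]
        exact sum_congr rfl fun u _ => sum_congr rfl fun w _ => by ring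
    _ = ∑ u, p u * ∑ w, π w * (bit (u i) * bit (w i) *
        (1 + (1 / 2) * md (ef L) p i u * md (eb L) π i w)) := by simp only [h3]
    _ = _ := by
        rw [← md_sq _ hp, ← md_sq _ hπ, sum_mul_sum, mul_assoc, sum_mul_sum, mul_sum,
          ← sum_add_distrib]
        refine sum_congr rfl fun u _ => ?_
        rw [mul_sum, mul_sum, ← sum_add_distrib]
        exact sum_congr rfl fun w _ => by ring

/-- smoothed prediction probability -/
noncomputable def sm (β t : ℝ) (b : Bool) : ℝ := (1 - β) * (if b then t else 1 - t) + β / 2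

lemma sm_sum (β : ℝ) {e : Fin L → ℕ} (he : Function.Injective e) (θ : Fin L → W L → ℝ)
    (hθ : ∀ j, Dep (fun i => e i < e j) (θ j)) :
    ∑ u : W L, ∏ j, sm β (θ j u) (u j) = 1 := by
  set t : Fin L → W L → ℝ := fun j u => (2 * bit (u j) - 1) * (2 * θ j u - 1) with ht
  have hMD : MD e (fun _ => 1) t := by
    refine ⟨fun j u u' H => ?_, fun j F hF => ?_⟩
    · simp only [ht, H j le_rfl, hθ j u u' fun i hi => H i hi.le]
    · have hag : ∀ u : W L, ∀ i, e i < e j → Function.update u j (!u j) i = u i := fun u i hi =>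
        Function.update_of_ne (fun h => by rw [h] at hi; exact lt_irrefl _ hi) _ _
      refine sum_involution (fun u _ => Function.update u j (!u j)) (fun u _ => ?_)
        (fun u _ _ h => ?_) (fun _ _ => mem_univ _) (fun u _ => ?_)
      · simp only [ht, hF _ _ (hag u), hθ j _ _ (hag u), Function.update_self]
        cases u j <;> simp [bit] <;> ring
      · have := congrFun h j
        simp at this
      · simp
  have h := hMD.drop he (fun _ => 1 - β) univ (G := fun _ => 1) fun _ _ => Dep.const 1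
  have h2 : ∀ u : W L, ∏ j, sm β (θ j u) (u j) =
      (1 / 2) ^ L * ∏ j, (1 + (1 - β) * t j u) := fun u => by
    rw [show ((1 : ℝ) / 2) ^ L = ∏ _j : Fin L, (1 / 2 : ℝ) by simp, ← prod_mul_distrib]
    refine prod_congr rfl fun j _ => ?_
    simp only [sm, ht]
    cases u j <;> simp [bit] <;> ring
  simp only [one_mul] at h
  simp only [h2, ← mul_sum, h]
  simp

lemma sm_cost {γ : ℝ} (hγ : 0 < γ) : ∃ β C : ℝ, 0 < β ∧ β < 1 ∧ 0 < C ∧ ∀ t b, 0 ≤ t → t ≤ 1 →
    Real.exp (-(γ + C * (bit b - t) ^ 2)) ≤ sm β t b := by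
  set β := 1 - Real.exp (-γ / 2) with hβ
  have h0 : Real.exp (-γ / 2) < 1 := Real.exp_lt_one_iff.2 (by linarith)
  have h1 : 0 < Real.exp (-γ / 2) := Real.exp_pos _
  have hβ0 : 0 < β := by linarith
  have hβ1 : β < 1 := by linarith
  have hl : 0 < Real.log (2 / β) := Real.log_pos (by rw [lt_div_iff₀ hβ0]; linarith)
  refine ⟨β, Real.log (2 / β) / β ^ 2, hβ0, hβ1, by positivity, fun t b ht0 ht1 => ?_⟩
  obtain ⟨s, hs0, hs1, hs, hs'⟩ : ∃ s : ℝ, 0 ≤ s ∧ s ≤ 1 ∧ (bit b - t) ^ 2 = s ^ 2 ∧
      sm β t b = (1 - β) * (1 - s) + β / 2 := by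
    cases b
    · exact ⟨t, ht0, ht1, by simp [bit], by simp [sm]⟩
    · exact ⟨1 - t, by linarith, by linarith, by simp [bit], by simp [sm]⟩
  rw [hs, hs']
  have hC : 0 ≤ Real.log (2 / β) / β ^ 2 * s ^ 2 := by positivity
  rcases le_total s β with h | h
  · calc _ ≤ Real.exp (-γ / 2 + -γ / 2) := Real.exp_le_exp.2 (by linarith)
      _ = (1 - β) * (1 - β) := by rw [Real.exp_add, hβ]; ring
      _ ≤ _ := by nlinarith
  · have h2 : Real.log (2 / β) ≤ Real.log (2 / β) / β ^ 2 * s ^ 2 := by
      rw [div_mul_eq_mul_div, le_div_iff₀ (by positivity)]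
      gcongr
    calc _ ≤ Real.exp (-Real.log (2 / β)) := Real.exp_le_exp.2 (by linarith)
      _ = β / 2 := by rw [Real.exp_neg, Real.exp_log (by positivity)]; simp
      _ ≤ _ := by nlinarith

lemma sm_nonneg {β t : ℝ} (h0 : 0 < β) (h1 : β < 1) (ht0 : 0 ≤ t) (ht1 : t ≤ 1) (b : Bool) :
    0 ≤ sm β t b := by
  unfold sm
  have : 0 ≤ (if b then t else 1 - t) := by split_ifs <;> linarith
  have : 0 ≤ 1 - β := by linarith
  positivity

end Pool.Agent.H90.Norm
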