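import Mathlib
import Pool.Agent.H90.NormA

namespace Pool.Agent.H90.Norm

open Finset MeasureTheory Filter Topology

section Code
variable {Ω ι κ : Type*} [Fintype ι] [Fintype κ]

def Code (Z : Ω → ι) (c : Ω → ℝ) : Prop :=
  ∃ Q : ι → ℝ, (∀ z, 0 ≤ Q z) ∧ ∑ z, Q z ≤ 1 ∧ ∀ x, Real.exp (-c x) ≤ Q (Z x)

lemma Code.mono {Z : Ω → ι} {c c' : Ω → ℝ} (h : Code Z c) (hc : ∀ x, c x ≤ c' x) : Code Z c' := by
  obtain ⟨Q, h0, h1, h2⟩ := h
  exact ⟨Q, h0, h1, fun x => (Real.exp_le_exp.2 (neg_le_neg (hc x))).trans (h2 x)⟩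

lemma Code.comp {Ω' : Type*} {Z : Ω → ι} {c : Ω → ℝ} (h : Code Z c) (f : Ω' → Ω) :
    Code (fun x => Z (f x)) (fun x => c (f x)) := by
  obtain ⟨Q, h0, h1, h2⟩ := h
  exact ⟨Q, h0, h1, fun x => h2 _⟩

lemma Code.cond {Y : Ω → ι} {Z : Ω → κ} {c c₂ : Ω → ℝ} (h : Code Y c) (q : ι → κ → ℝ)
    (hq0 : ∀ y z, 0 ≤ q y z) (hq1 : ∀ y, ∑ z, q y z ≤ 1)
    (hZ : ∀ x, Real.exp (-c₂ x) ≤ q (Y x) (Z x)) : Code Z (fun x => c x + c₂ x) := by
  obtain ⟨Q, h0, h1, h2⟩ := h
  refine ⟨fun z => ∑ y, Q y * q y z, fun z => sum_nonneg fun y _ => mul_nonneg (h0 y) (hq0 y z),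
    ?_, fun x => ?_⟩
  · rw [sum_comm]
    refine le_trans (sum_le_sum fun y _ => ?_) h1
    rw [← mul_sum]
    exact mul_le_of_le_one_right (h0 y) (hq1 y)
  · refine le_trans ?_ (single_le_sum (f := fun y => Q y * q y (Z x))
      (fun y _ => mul_nonneg (h0 y) (hq0 y _)) (mem_univ (Y x)))
    rw [neg_add, Real.exp_add]
    exact mul_le_mul (h2 x) (hZ x) (Real.exp_pos _).le (h0 _)

lemma Code.map {Y : Ω → ι} {c : Ω → ℝ} (h : Code Y c) (F : ι → κ) :
    Code (fun x => F (Y x)) c := by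
  classical
  have := h.cond (Z := fun x => F (Y x)) (c₂ := fun _ => 0) (fun y z => if F y = z then 1 else 0)
    (fun y z => by split_ifs <;> norm_num) (fun y => by simp) (fun x => by simp)
  simpa using this

lemma Code.pi {J : Type*} [Fintype J] [DecidableEq J] {ι : J → Type*} [∀ j, Fintype (ι j)]
    {Z : ∀ j, Ω → ι j} {c : J → Ω → ℝ} (h : ∀ j, Code (Z j) (c j)) :
    Code (fun x j => Z j x) (fun x => ∑ j, c j x) := by
  choose Q h0 h1 h2 using h
  refine ⟨fun z => ∏ j, Q j (z j), fun z => prod_nonneg fun j _ => h0 j _, ?_, fun x => ?_⟩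
  · rw [← Fintype.piFinset_univ, ← prod_univ_sum]
    exact prod_le_one (fun j _ => sum_nonneg fun z _ => h0 j z) fun j _ => h1 j
  · rw [← sum_neg_distrib, Real.exp_sum]
    exact prod_le_prod (fun j _ => (Real.exp_pos _).le) fun j _ => h2 j x

variable [MeasurableSpace Ω] {m : Measure Ω} [IsProbabilityMeasure m]

noncomputable def law (m : Measure Ω) (Z : Ω → ι) (z : ι) : ℝ := m.real {x | Z x = z}

omit [Fintype ι] [IsProbabilityMeasure m] in
lemma law_nonneg (Z : Ω → ι) (z : ι) : 0 ≤ law m Z z := measureReal_nonneg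

omit [MeasurableSpace Ω] in
lemma comp_eq_sum (Z : Ω → ι) (F : ι → ℝ) :
    (fun x => F (Z x)) = fun x => ∑ z, Set.indicator {x | Z x = z} (fun _ => F z) x := by
  classical
  funext x
  simp [Set.indicator_apply]

lemma integrable_law {Z : Ω → ι} (hZ : ∀ z, MeasurableSet {x | Z x = z}) (F : ι → ℝ) :
    Integrable (fun x => F (Z x)) m := by
  rw [comp_eq_sum]
  exact integrable_finsetSum _ fun z _ => (integrable_const _).indicator (hZ z)

lemma integral_law {Z : Ω → ι} (hZ : ∀ z, MeasurableSet {x | Z x = z}) (F : ι → ℝ) :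
    ∫ x, F (Z x) ∂m = ∑ z, law m Z z * F z := by
  rw [comp_eq_sum, integral_finsetSum _ fun z _ => (integrable_const _).indicator (hZ z)]
  refine sum_congr rfl fun z _ => ?_
  rw [integral_indicator_const _ (hZ z), law, smul_eq_mul]

lemma law_sum {Z : Ω → ι} (hZ : ∀ z, MeasurableSet {x | Z x = z}) : ∑ z, law m Z z = 1 := by
  simpa using (integral_law (m := m) hZ fun _ => 1).symm

lemma gibbs {Z : Ω → ι} (hZ : ∀ z, MeasurableSet {x | Z x = z}) {c : Ω → ℝ} (h : Code Z c)
    (hc : Integrable c m) : ∑ z, Real.negMulLog (law m Z z) ≤ ∫ x, c x ∂m := by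
  obtain ⟨Q, h0, h1, h2⟩ := h
  have h3 : ∫ x, -Real.log (Q (Z x)) ∂m ≤ ∫ x, c x ∂m := by
    refine integral_mono (integrable_law hZ fun z => -Real.log (Q z)) hc fun x => ?_
    have := Real.log_le_log (Real.exp_pos _) (h2 x)
    rw [Real.log_exp] at this
    simp only
    linarith
  rw [integral_law hZ fun z => -Real.log (Q z)] at h3
  have h4 : ∀ z, Real.negMulLog (law m Z z) ≤ law m Z z * -Real.log (Q z) + (Q z - law m Z z) := by
    intro z
    rcases (law_nonneg (m := m) Z z).eq_or_lt with h5 | h5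
    · simp [← h5, h0 z]
    · obtain ⟨x, hx⟩ : {x | Z x = z}.Nonempty := by
        by_contra hne
        rw [Set.not_nonempty_iff_eq_empty] at hne
        simp [law, hne] at h5
      have hQ : 0 < Q z := by
        have := (Real.exp_pos _).trans_le (h2 x)
        rwa [show Z x = z from hx] at this
      have h6 := Real.log_le_sub_one_of_pos (div_pos hQ h5)
      rw [Real.log_div hQ.ne' h5.ne'] at h6
      have h7 := mul_le_mul_of_nonneg_left h6 h5.le
      rw [mul_sub _ (Q z / _), mul_div_cancel₀ _ h5.ne'] at h7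
      simp only [Real.negMulLog]
      linarith
  have h8 := sum_le_sum fun z (_ : z ∈ univ) => h4 z
  rw [sum_add_distrib, sum_sub_distrib, law_sum hZ] at h8
  linarith

def word (g : Ω → Bool) (T : Ω → Ω) (L : ℕ) (x : Ω) : W L := fun i => g (T^[i] x)

lemma word_meas {g : Ω → Bool} {T : Ω → Ω} (hg : Measurable g) (hT : Measurable T) (L : ℕ)
    (u : W L) : MeasurableSet {x | word g T L x = u} := by
  have : Measurable (word g T L) := measurable_pi_lambda _ fun i => hg.comp (hT.iterate i)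
  exact this (measurableSet_singleton u)

def Compress (m : Measure Ω) (T : Ω → Ω) (g : Ω → Bool) : Prop :=
  ∀ η : ℝ, 0 < η → ∃ L : ℕ, 0 < L ∧ ∃ c : Ω → ℝ, Integrable c m ∧ Code (word g T L) c ∧
    ∫ x, c x ∂m ≤ η * L

omit [IsProbabilityMeasure m] in
lemma integral_iter {T : Ω → Ω} (hT : MeasurePreserving T m m) {c : Ω → ℝ} (hc : Integrable c m)
    (k : ℕ) : Integrable (fun x => c (T^[k] x)) m ∧ ∫ x, c (T^[k] x) ∂m = ∫ x, c x ∂m := by
  have h := hT.iterate k
  refine ⟨h.integrable_comp_of_integrable hc, ?_⟩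
  rw [← integral_map h.measurable.aemeasurable (by rw [h.map_eq]; exact hc.aestronglyMeasurable),
    h.map_eq]

omit [IsProbabilityMeasure m] in
lemma Compress.ext {T : Ω → Ω} (hT : MeasurePreserving T m m) {g : Ω → Bool}
    (h : Compress m T g) {η : ℝ} (hη : 0 < η) : ∃ C : ℝ, ∀ M : ℕ, ∃ c : Ω → ℝ,
      Integrable c m ∧ Code (word g T M) c ∧ ∫ x, c x ∂m ≤ η * M + C := by
  obtain ⟨L, hL, c, hc, hcode, hint⟩ := h η hη
  refine ⟨η * L, fun M => ⟨fun x => ∑ b : Fin (M / L + 1), c (T^[b * L] x),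
    integrable_finsetSum _ fun b _ => (integral_iter hT hc _).1, ?_, ?_⟩⟩
  · have h1 := (Code.pi fun b : Fin (M / L + 1) => hcode.comp (T^[b * L])).map
      (fun y (i : Fin M) => y ⟨i / L, Nat.lt_succ_of_le (Nat.div_le_div_right i.2.le)⟩
        ⟨i % L, Nat.mod_lt _ hL⟩)
    have e : word g T M = fun x (i : Fin M) => word g T L (T^[(i / L) * L] x)
        ⟨i % L, Nat.mod_lt _ hL⟩ := by
      funext x i
      simp only [word]
      rw [← Function.iterate_add_apply, Nat.mod_add_div']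
    rw [e]
    exact h1
  · rw [integral_finsetSum _ fun b _ => (integral_iter hT hc _).1]
    simp only [(integral_iter hT hc _).2, sum_const, card_univ, Fintype.card_fin, nsmul_eq_mul]
    have h2 : ((M / L + 1 : ℕ) : ℝ) * L ≤ M + L := by
      have : (M / L + 1) * L ≤ M + L := by
        rw [add_mul, one_mul]; exact Nat.add_le_add_right (Nat.div_mul_le_self _ _) _
      exact_mod_cast this
    calc _ ≤ ((M / L + 1 : ℕ) : ℝ) * (η * L) := by gcongr
      _ = η * (((M / L + 1 : ℕ) : ℝ) * L) := by ring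
      _ ≤ η * (M + L) := by gcongr
      _ = _ := by ring

omit [IsProbabilityMeasure m] in
lemma Compress.not {T : Ω → Ω} {g : Ω → Bool} (h : Compress m T g) :
    Compress m T (fun x => !g x) := fun η hη => by
  obtain ⟨L, hL, c, hc, hcode, hint⟩ := h η hη
  exact ⟨L, hL, c, hc, hcode.map fun u i => !u i, hint⟩

end Code

section KS
variable {Λ : Type*} [Countable Λ] [MeasurableSpace Λ] [DiscreteMeasurableSpace Λ]

omit [Countable Λ] [MeasurableSpace Λ] [DiscreteMeasurableSpace Λ] in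
lemma shift_iter (x : ℕ → Λ) (k n : ℕ) : shift^[k] x n = x (n + k) := by
  induction k generalizing x n with
  | zero => rfl
  | succ k ih => rw [Function.iterate_succ_apply, ih]; rfl

open Classical in
noncomputable def letter (a : Λ) (x : ℕ → Λ) : Bool := decide (x 0 = a)

omit [Countable Λ] in
lemma letter_meas (a : Λ) : Measurable (letter a) := by
  classical
  exact (Measurable.of_discrete (f := fun b : Λ => decide (b = a))).comp (measurable_pi_apply 0)

def FD (s : Set (ℕ → Λ)) : Prop :=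
  ∃ (A : Finset Λ) (M : ℕ), ∀ x x' : ℕ → Λ,
    (∀ i < M, ∀ a ∈ A, (x i = a ↔ x' i = a)) → (x ∈ s ↔ x' ∈ s)

lemma approx (μ : Measure (ℕ → Λ)) [IsProbabilityMeasure μ] {s : Set (ℕ → Λ)}
    (hs : MeasurableSet s) {ε : ℝ} (hε : 0 < ε) :
    ∃ t, MeasurableSet t ∧ FD t ∧ μ.real (symmDiff t s) ≤ ε := by
  classical
  have hring : IsSetRing {t : Set (ℕ → Λ) | MeasurableSet t ∧ FD t} := by
    have key : ∀ {s t : Set (ℕ → Λ)}, FD s → FD t → ∃ (A : Finset Λ) (M : ℕ), ∀ x x' : ℕ → Λ,
        (∀ i < M, ∀ a ∈ A, (x i = a ↔ x' i = a)) → (x ∈ s ↔ x' ∈ s) ∧ (x ∈ t ↔ x' ∈ t) := by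
      rintro s t ⟨A, M, h⟩ ⟨A', M', h'⟩
      exact ⟨A ∪ A', max M M', fun x x' H =>
        ⟨h x x' fun i hi a ha => H i (lt_max_of_lt_left hi) a (mem_union_left _ ha),
          h' x x' fun i hi a ha => H i (lt_max_of_lt_right hi) a (mem_union_right _ ha)⟩⟩
    refine ⟨⟨MeasurableSet.empty, ∅, 0, by simp⟩, fun s t hs ht => ⟨hs.1.union ht.1, ?_⟩,
      fun s t hs ht => ⟨hs.1.diff ht.1, ?_⟩⟩
    · obtain ⟨A, M, h⟩ := key hs.2 ht.2
      exact ⟨A, M, fun x x' H => or_congr (h x x' H).1 (h x x' H).2⟩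
    · obtain ⟨A, M, h⟩ := key hs.2 ht.2
      exact ⟨A, M, fun x x' H => and_congr (h x x' H).1 (not_congr (h x x' H).2)⟩
  have hgen : (MeasurableSpace.pi : MeasurableSpace (ℕ → Λ)) =
      MeasurableSpace.generateFrom {t : Set (ℕ → Λ) | MeasurableSet t ∧ FD t} := by
    refine le_antisymm ?_ (MeasurableSpace.generateFrom_le fun t ht => ht.1)
    refine MeasurableSpace.pi_eq_generateFrom_projections.le.trans
      (MeasurableSpace.generateFrom_le ?_)
    rintro _ ⟨i, A, -, rfl⟩
    have : Function.eval i ⁻¹' A = ⋃ a ∈ A, {x : ℕ → Λ | x i = a} := by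
      ext x; simp
    rw [this]
    refine MeasurableSet.biUnion (Set.to_countable A) fun a _ =>
      MeasurableSpace.measurableSet_generateFrom ⟨?_, {a}, i + 1, fun x x' H => ?_⟩
    · exact (measurable_pi_apply (X := fun _ : ℕ => Λ) i) (MeasurableSet.of_discrete (s := {a}))
    · exact H i (Nat.lt_succ_self i) a (mem_singleton_self a)
  obtain ⟨t, ht, h⟩ := exists_measure_symmDiff_lt_of_generateFrom_isSetRing (μ := μ) hring
    ⟨{Set.univ}, Set.countable_singleton _, by
      rintro _ rfl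
      exact ⟨MeasurableSet.univ, ∅, 0, by simp⟩, by simp⟩ hgen hs (ENNReal.ofReal_pos.2 hε)
  exact ⟨t, ht.1, ht.2, ENNReal.toReal_le_of_le_ofReal hε.le h.le⟩

lemma approx_part (μ : Measure (ℕ → Λ)) [IsProbabilityMeasure μ] {k : ℕ} {P : (ℕ → Λ) → Fin k}
    (hP : Measurable P) {ε : ℝ} (hε : 0 < ε) :
    ∃ (Bad : Set (ℕ → Λ)) (P' : (ℕ → Λ) → Fin k) (A : Finset Λ) (M : ℕ), MeasurableSet Bad ∧
      μ.real Bad ≤ k * ε ∧ (∀ x ∉ Bad, P' x = P x) ∧ ∀ x x' : ℕ → Λ,
        (∀ i < M, ∀ a ∈ A, (x i = a ↔ x' i = a)) → P' x = P' x' := by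
  classical
  obtain ⟨x₀⟩ : Nonempty (ℕ → Λ) := μ.nonempty_of_neZero
  choose t ht hFD hμ using fun c : Fin k =>
    approx μ (hP (measurableSet_singleton c)) hε
  choose A M hA using hFD
  refine ⟨⋃ c, symmDiff (t c) (P ⁻¹' {c}),
    fun x => if h : ∃ c, x ∈ t c then h.choose else P x₀, univ.biUnion A, univ.sup M,
    MeasurableSet.iUnion fun c => (ht c).symmDiff (hP (measurableSet_singleton c)), ?_,
    fun x hx => ?_, fun x x' H => ?_⟩
  · refine (measureReal_iUnion_fintype_le _).trans ?_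
    simpa using sum_le_sum fun c (_ : c ∈ univ) => hμ c
  · have h1 : ∀ c, x ∈ t c ↔ P x = c := fun c => by
      have : x ∉ symmDiff (t c) (P ⁻¹' {c}) := fun h => hx (Set.mem_iUnion.2 ⟨c, h⟩)
      simp only [Set.mem_symmDiff, Set.mem_preimage, Set.mem_singleton_iff] at this
      tauto
    have h2 : ∃ c, x ∈ t c := ⟨P x, (h1 _).2 rfl⟩
    simp only [dif_pos h2]
    exact ((h1 _).1 h2.choose_spec).symm
  · have e : (fun c => x ∈ t c) = fun c => x' ∈ t c := funext fun c => propext
      (hA c x x' fun i hi a ha => H i (lt_of_lt_of_le hi (le_sup (f := M) (mem_univ c))) a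
        (mem_biUnion.2 ⟨c, mem_univ _, ha⟩))
    have gen : ∀ R R' : Fin k → Prop, R = R' → (if h : ∃ c, R c then h.choose else P x₀) =
        (if h : ∃ c, R' c then h.choose else P x₀) := by
      rintro R _ rfl; rfl
    exact gen _ _ e

lemma ks_le (μ : Measure (ℕ → Λ)) [IsProbabilityMeasure μ] (hT : MeasurePreserving shift μ μ)
    (hc : ∀ a, Compress μ shift (letter a)) {k : ℕ} {P : (ℕ → Λ) → Fin k} (hP : Measurable P)
    {ε : ℝ} (hε : 0 < ε) : ∃ C : ℝ, ∀ n : ℕ, blockEnt μ shift P n ≤ 3 * ε * n + C := by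
  classical
  obtain ⟨x₀⟩ : Nonempty (ℕ → Λ) := μ.nonempty_of_neZero
  have hk : (0 : ℝ) < k := by exact_mod_cast (P x₀).pos
  have hk1 : (1 : ℝ) ≤ k := by exact_mod_cast (P x₀).pos
  set θ := 1 - Real.exp (-ε) with hθ
  have hθ0 : 0 < θ := by have := Real.exp_lt_one_iff.2 (neg_lt_zero.2 hε); linarith
  have hθ1 : θ < 1 := by have := Real.exp_pos (-ε); linarith
  have hκ : 0 < Real.log (k / θ) := Real.log_pos (by rw [lt_div_iff₀ hθ0]; linarith)
  set κ := Real.log (k / θ) with hκdef
  obtain ⟨Bad, P', A, M, hBad, hμ, hP', hdep⟩ := approx_part μ hP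
    (show 0 < ε / κ / k by positivity)
  have hμ' : μ.real Bad * κ ≤ ε := by
    rw [mul_div_cancel₀ _ hk.ne', le_div_iff₀ hκ] at hμ
    exact hμ
  choose C hC using fun a : A => (hc a).ext hT (show 0 < ε / (A.card + 1) by positivity)
  refine ⟨ε * M + ∑ a, C a, fun n => ?_⟩
  choose c hci hcc hcb using fun a : A => hC a (n + M)
  have hY := Code.pi hcc
  set Y : (ℕ → Λ) → (A → W (n + M)) := fun x a => word (letter a.1) shift (n + M) x with hYdef
  set P'' : (A → W (n + M)) → Fin n → Fin k := fun y i =>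
    if h : ∃ x, Y x = y then P' (shift^[i] h.choose) else P x₀ with hP''
  have hPY : ∀ x (i : Fin n), P'' (Y x) i = P' (shift^[i] x) := by
    intro x i
    have h : ∃ x', Y x' = Y x := ⟨x, rfl⟩
    simp only [hP'', dif_pos h]
    refine hdep _ _ fun j hj a ha => ?_
    have := congrFun (congrFun h.choose_spec ⟨a, ha⟩) ⟨j + i, by omega⟩
    simpa [hYdef, word, letter, shift_iter] using this
  have hind : Integrable (Bad.indicator fun _ => κ) μ := (integrable_const _).indicator hBad
  have hZ := hY.cond (Z := fun x (i : Fin n) => P (shift^[i] x))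
    (c₂ := fun x => ∑ i : Fin n, (ε + Bad.indicator (fun _ => κ) (shift^[i] x)))
    (fun y z => ∏ i, ((1 - θ) * (if P'' y i = z i then 1 else 0) + θ / k))
    (fun y z => prod_nonneg fun i _ => by
      have : 0 ≤ 1 - θ := by linarith
      split_ifs <;> positivity)
    (fun y => by
      rw [← Fintype.piFinset_univ, ← prod_univ_sum
        (f := fun i c => (1 - θ) * (if P'' y i = c then 1 else 0) + θ / k)]
      refine le_of_eq (prod_eq_one fun i _ => ?_)
      rw [sum_add_distrib, ← mul_sum]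
      simp only [sum_ite_eq, mem_univ, if_true, sum_const, card_univ, Fintype.card_fin,
        nsmul_eq_mul]
      field_simp
      ring)
    (fun x => by
      rw [← sum_neg_distrib, Real.exp_sum]
      refine prod_le_prod (fun j _ => (Real.exp_pos _).le) fun i _ => ?_
      change _ ≤ (1 - θ) * (if P'' (Y x) i = _ then 1 else 0) + θ / k
      by_cases hb : shift^[i] x ∈ Bad
      · rw [Set.indicator_of_mem hb]
        have h1 : Real.exp (-(ε + κ)) ≤ Real.exp (-κ) := Real.exp_le_exp.2 (by linarith)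
        rw [Real.exp_neg κ, hκdef, Real.exp_log (by positivity), inv_div] at h1
        have : 0 ≤ (1 - θ) * (if P'' (Y x) i = P (shift^[i] x) then 1 else 0) :=
          mul_nonneg (by linarith) (by split_ifs <;> norm_num)
        linarith
      · rw [Set.indicator_of_notMem hb, hPY, hP' _ hb, if_pos rfl, add_zero, hθ]
        have : 0 ≤ θ / k := by positivity
        linarith)
  have hint2 : ∀ i : Fin n, Integrable
      (fun x => ε + Bad.indicator (fun _ => κ) (shift^[i] x)) μ := fun i =>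
    (integrable_const _).add (integral_iter hT hind i).1
  have hg := gibbs (m := μ) (fun z => by
    have : Measurable (fun x (i : Fin n) => P (shift^[i] x)) :=
      measurable_pi_lambda _ fun i => hP.comp (hT.measurable.iterate i)
    exact this (measurableSet_singleton z)) hZ
    ((integrable_finsetSum _ fun a _ => hci a).add (integrable_finsetSum _ fun i _ => hint2 i))
  rw [integral_add (integrable_finsetSum _ fun a _ => hci a)
    (integrable_finsetSum _ fun i _ => hint2 i), integral_finsetSum _ fun a _ => hci a,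
    integral_finsetSum _ fun i _ => hint2 i] at hg
  have h3 : ∀ i : Fin n, ∫ x, (ε + Bad.indicator (fun _ => κ) (shift^[i] x)) ∂μ ≤ 2 * ε := by
    intro i
    rw [integral_add (integrable_const _) (integral_iter hT hind i).1, (integral_iter hT hind i).2,
      integral_indicator_const _ hBad]
    simp only [integral_const, probReal_univ, smul_eq_mul, one_mul]
    linarith
  have h4 := sum_le_sum fun i (_ : i ∈ univ) => h3 i
  have h5 := sum_le_sum fun a (_ : a ∈ univ) => hcb a
  rw [sum_add_distrib] at h5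
  simp only [sum_const, card_univ, Fintype.card_fin, nsmul_eq_mul, Fintype.card_coe] at h4 h5
  have h6 : (A.card : ℝ) * (ε / (A.card + 1) * ((n + M : ℕ) : ℝ)) ≤ ε * (n + M) := by
    push_cast
    rw [← mul_assoc]
    gcongr
    rw [← mul_div_assoc, div_le_iff₀ (by positivity)]
    nlinarith
  have h7 : blockEnt μ shift P n =
      ∑ z, Real.negMulLog (law μ (fun x (i : Fin n) => P (shift^[i] x)) z) := by
    simp only [blockEnt, law, funext_iff]
  rw [h7]
  linarith

theorem ks_nonpos (μ : Measure (ℕ → Λ)) [IsProbabilityMeasure μ]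
    (hT : MeasurePreserving shift μ μ) (hc : ∀ a, Compress μ shift (letter a)) :
    ksEntropy μ shift ≤ 0 := by
  refine iSup_le fun k => iSup_le fun P => iSup_le fun hP => ?_
  refine EReal.le_of_forall_lt_iff_le.1 fun z hz => ?_
  have hz' : 0 < z := by exact_mod_cast hz
  obtain ⟨C, hC⟩ := ks_le μ hT hc hP (show 0 < z / 4 by positivity)
  refine limsup_le_of_le (by isBoundedDefault) ?_
  have h1 : Tendsto (fun n : ℕ => C / n) atTop (𝓝 0) := tendsto_const_div_atTop_nhds_zero_nat C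
  filter_upwards [h1.eventually (gt_mem_nhds (show 0 < z / 4 by positivity)),
    eventually_gt_atTop 0] with n hn hn0
  have hn' : (0 : ℝ) < n := by exact_mod_cast hn0
  rw [EReal.coe_le_coe_iff, div_le_iff₀ hn']
  rw [div_lt_iff₀ hn'] at hn
  linarith [hC n]

end KS

lemma ks_nonneg {X : Type*} [MeasurableSpace X] (m : Measure X) [IsProbabilityMeasure m]
    (T : X → X) : 0 ≤ ksEntropy m T := by
  refine le_trans ?_ (le_iSup_of_le 1 (le_iSup_of_le (fun _ => 0)
    (le_iSup_of_le measurable_const le_rfl)))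
  refine le_limsup_of_frequently_le (Frequently.of_forall fun n => ?_)
  refine EReal.coe_nonneg.2 (div_nonneg (sum_nonneg fun w _ => ?_) (Nat.cast_nonneg n))
  exact Real.negMulLog_nonneg measureReal_nonneg measureReal_le_one

end Pool.Agent.H90.Norm
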