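import Mathlib
import Pool.Agent.H90.NormB

namespace Pool.Agent.H90.Norm

open Finset MeasureTheory Filter Topology

section
variable {Ω ι κ : Type*} [Fintype ι] [Fintype κ]

lemma Code.unif [Nonempty ι] (Z : Ω → ι) : Code Z (fun _ => Real.log (Fintype.card ι)) := by
  have h : (0 : ℝ) < Fintype.card ι := by exact_mod_cast Fintype.card_pos
  refine ⟨fun _ => (Fintype.card ι : ℝ)⁻¹, fun _ => by positivity, ?_, fun x => ?_⟩
  · simp [h.ne']
  · rw [Real.exp_neg, Real.exp_log h]

lemma Code.mix [Nonempty κ] {Z : Ω → ι} {c : κ → Ω → ℝ} (h : ∀ j, Code Z (c j)) (s : Ω → κ) :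
    Code Z (fun x => Real.log (Fintype.card κ) + c (s x) x) := by
  choose Q h0 h1 h2 using h
  exact (Code.unif s).cond Q h0 h1 fun x => h2 _ x

lemma Code.prod {Y : Ω → ι} {Z : Ω → κ} {c c' : Ω → ℝ} (h : Code Y c) (h' : Code Z c') :
    Code (fun x => (Y x, Z x)) (fun x => c x + c' x) := by
  classical
  obtain ⟨Q, h0, h1, h2⟩ := h'
  refine h.cond (fun y z => if y = z.1 then Q z.2 else 0)
    (fun y z => by split_ifs; exacts [h0 _, le_rfl]) (fun y => ?_) fun x => by simpa using h2 x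
  rw [Fintype.sum_prod_type]
  simpa [sum_comm] using h1

lemma code_seq {L : ℕ} {β C γ : ℝ} (hβ0 : 0 < β) (hβ1 : β < 1)
    (hsm : ∀ t b, 0 ≤ t → t ≤ 1 → Real.exp (-(γ + C * (bit b - t) ^ 2)) ≤ sm β t b)
    {e : Fin L → ℕ} (he : Function.Injective e) (θ : Fin L → W L → ℝ)
    (hθ : ∀ j, Dep (fun i => e i < e j) (θ j)) (hθ' : ∀ j u, 0 ≤ θ j u ∧ θ j u ≤ 1)
    (Z : Ω → W L) : Code Z (fun x => ∑ j, (γ + C * (bit (Z x j) - θ j (Z x)) ^ 2)) := by
  refine ⟨fun u => ∏ j, sm β (θ j u) (u j), fun u => prod_nonneg fun j _ =>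
    sm_nonneg hβ0 hβ1 (hθ' j u).1 (hθ' j u).2 _, (sm_sum β he θ hθ).le, fun x => ?_⟩
  rw [← sum_neg_distrib, Real.exp_sum]
  exact prod_le_prod (fun j _ => (Real.exp_pos _).le) fun j _ =>
    hsm _ _ (hθ' j _).1 (hθ' j _).2

variable [MeasurableSpace Ω] {m : Measure Ω} [IsProbabilityMeasure m]

lemma unpred {T : Ω → Ω} (hT : MeasurePreserving T m m) {g : Ω → Bool} (hg : Measurable g)
    (h : ¬ Compress m T g) : ∃ σ : ℝ, 0 < σ ∧ ∀ (L : ℕ) (i : Fin L),
      σ ≤ ∑ u, law m (word g T L) u * md (ef L) (law m (word g T L)) i u ^ 2 := by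
  by_contra hcon
  push Not at hcon
  refine h fun η hη => ?_
  obtain ⟨β, C, hβ0, hβ1, hC, hsm⟩ := sm_cost (show 0 < η / 3 by positivity)
  obtain ⟨L, i, hLi⟩ := hcon (η / 3 / C) (by positivity)
  set p := law m (word g T L) with hp
  have hp0 : ∀ u, 0 ≤ p u := law_nonneg _
  obtain ⟨M, hM⟩ := exists_nat_gt (3 * C * i / η)
  have hM0 : 0 < M := by
    have : (0 : ℝ) < M := lt_of_le_of_lt (by positivity) hM
    exact_mod_cast this
  let win : Fin M → W M → W L := fun j u l =>
    if h : (l : ℕ) < i ∧ (i : ℕ) ≤ j then u ⟨j - i + l, by omega⟩ else false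
  have hcode := code_seq hβ0 hβ1 hsm ef_inj
    (fun j u => pred p (fun l => ef L l < ef L i) i (win j u))
    (fun j u u' H => by
      have : win j u = win j u' := funext fun l => by
        simp only [win]
        split_ifs with h
        · exact H _ (by simp only [ef]; omega)
        · rfl
      simp only [this])
    (fun j u => pred_mem hp0 _ _ _) (word g T M)
  have hw := word_meas hg hT.measurable L
  have hmd : Integrable (fun x => md (ef L) p i (word g T L x) ^ 2) m :=
    integrable_law hw fun u => md (ef L) p i u ^ 2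
  let d : Fin M → Ω → ℝ := fun j x =>
    md (ef L) p i (word g T L (T^[j - i] x)) ^ 2 + if (j : ℕ) < i then 1 else 0
  have hd : ∀ j, Integrable (fun x => η / 3 + C * d j x) m := fun j =>
    (integrable_const _).add
      (((integral_iter hT hmd _).1.add (integrable_const _)).const_mul C)
  refine ⟨M, hM0, fun x => ∑ j, (η / 3 + C * d j x), integrable_finsetSum _ fun j _ => hd j,
    hcode.mono fun x => sum_le_sum fun j _ => ?_, ?_⟩
  · gcongr
    simp only [d]
    split_ifs with hj
    · have h1 := pred_mem hp0 (fun l => ef L l < ef L i) i (win j (word g T M x))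
      have h2 := bit_nonneg (word g T M x j)
      have h3 := bit_le (word g T M x j)
      have : (bit (word g T M x j) -
          pred p (fun l => ef L l < ef L i) i (win j (word g T M x))) ^ 2 ≤ 1 := by
        rw [sq_le_one_iff_abs_le_one, abs_le]; constructor <;> linarith
      linarith [sq_nonneg (md (ef L) p i (word g T L (T^[j - i] x)))]
    · rw [add_zero, md]
      refine le_of_eq ?_
      congr 2
      · simp only [word]
        rw [← Function.iterate_add_apply]
        congr 3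
        omega
      · refine dep_pred _ _ _ _ _ fun l hl => ?_
        simp only [ef] at hl
        simp only [win, word]
        rw [dif_pos ⟨hl, by omega⟩, ← Function.iterate_add_apply, add_comm]
  · rw [integral_finsetSum _ fun j _ => hd j]
    have h1 : ∀ j : Fin M, ∫ x, (η / 3 + C * d j x) ∂m ≤
        2 * η / 3 + C * if (j : ℕ) < i then 1 else 0 := by
      intro j
      have hdj : Integrable (d j) m := (integral_iter hT hmd _).1.add (integrable_const _)
      rw [integral_add (integrable_const _) (hdj.const_mul C), integral_const_mul]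
      simp only [d]
      rw [integral_add (integral_iter hT hmd _).1 (integrable_const _), (integral_iter hT hmd _).2,
        integral_law hw fun u => md (ef L) p i u ^ 2]
      simp only [integral_const, probReal_univ, smul_eq_mul, one_mul]
      rw [lt_div_iff₀ hC] at hLi
      nlinarith
    refine (sum_le_sum fun j _ => h1 j).trans ?_
    rw [sum_add_distrib, ← mul_sum]
    have h2 : ∑ j : Fin M, (if (j : ℕ) < i then (1 : ℝ) else 0) ≤ i := by
      rw [Fin.sum_univ_eq_sum_range (fun j => if j < (i : ℕ) then (1 : ℝ) else 0), sum_boole]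
      have : #{j ∈ range M | j < (i : ℕ)} ≤ i :=
        (card_le_card fun j hj => mem_range.2 (mem_filter.1 hj).2).trans (card_range _).le
      exact_mod_cast this
    simp only [sum_const, card_univ, Fintype.card_fin, nsmul_eq_mul]
    rw [div_lt_iff₀ hη] at hM
    nlinarith

end

lemma sum_Ico_blocks (F : ℕ → ℝ) (n : ℕ) {a a' : ℕ} (h : a ≤ a') :
    ∑ b ∈ Ico (a * n) (a' * n), F b = ∑ r ∈ Ico a a', ∑ b ∈ Ico (r * n) ((r + 1) * n), F b := by
  induction a', h using Nat.le_induction with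
  | base => simp
  | succ a' h ih =>
    rw [sum_Ico_succ_top h, ← ih, sum_Ico_consecutive _ (Nat.mul_le_mul_right _ h)
      (Nat.mul_le_mul_right _ (Nat.le_succ _))]

lemma sum_block (F : ℕ → ℝ) (L b : ℕ) :
    ∑ t ∈ Ico (b * L) ((b + 1) * L), F t = ∑ i : Fin L, F (b * L + i) := by
  rw [sum_Ico_eq_sum_range, Fin.sum_univ_eq_sum_range (fun i => F (b * L + i))]
  congr 2
  rw [add_mul, one_mul, Nat.add_sub_cancel_left]

lemma div_of_mem {n r b : ℕ} (h : b ∈ Ico (r * n) ((r + 1) * n)) : b / n = r :=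
  Nat.div_eq_of_lt_le (mem_Ico.1 h).1 (mem_Ico.1 h).2

def blk (y : ℕ → Bool) (L b : ℕ) : W L := fun i => y (b * L + i)

noncomputable def emp (y : ℕ → Bool) (L n r : ℕ) (w : W L) : ℝ :=
  (∑ b ∈ Ico (r * n) ((r + 1) * n), if blk y L b = w then 1 else 0) / n

lemma emp_nonneg (y : ℕ → Bool) (L n r : ℕ) (w : W L) : 0 ≤ emp y L n r w :=
  div_nonneg (sum_nonneg fun b _ => by split_ifs <;> norm_num) (Nat.cast_nonneg n)

lemma emp_sum (y : ℕ → Bool) (L n r : ℕ) (F : W L → ℝ) :
    ∑ w, emp y L n r w * F w = (∑ b ∈ Ico (r * n) ((r + 1) * n), F (blk y L b)) / n := by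
  simp only [emp, div_mul_eq_mul_div, sum_mul, ← sum_div]
  rw [sum_comm]
  simp

noncomputable def var (y : ℕ → Bool) (L n r : ℕ) : ℝ :=
  ∑ b ∈ Ico (r * n) ((r + 1) * n), ∑ i, md (eb L) (emp y L n r) i (blk y L b) ^ 2

lemma var_nonneg (y : ℕ → Bool) (L n r : ℕ) : 0 ≤ var y L n r :=
  sum_nonneg fun _ _ => sum_nonneg fun _ _ => sq_nonneg _

def wd (y : ℕ → Bool) (L t : ℕ) : W L := fun i => y (t + i)

lemma code_wd (y : ℕ → Bool) {L : ℕ} (hL : 0 < L) {cb : ℕ → ℝ} (h : Code (blk y L) cb) :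
    Code (wd y L) (fun t => Real.log L + (cb (t / L) + cb (t / L + 1))) := by
  have : Nonempty (Fin L) := ⟨⟨0, hL⟩⟩
  have h1 := ((Code.unif fun t : ℕ => (⟨t % L, Nat.mod_lt _ hL⟩ : Fin L)).prod
    ((h.comp fun t => t / L).prod (h.comp fun t => t / L + 1))).map
    (fun (q : Fin L × W L × W L) (i : Fin L) =>
      if h : (q.1 : ℕ) + i < L then q.2.1 ⟨q.1 + i, h⟩ else q.2.2 ⟨q.1 + i - L, by omega⟩)
  rw [Fintype.card_fin] at h1
  have e : wd y L = fun t (i : Fin L) => if h : t % L + i < L then blk y L (t / L) ⟨t % L + i, h⟩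
      else blk y L (t / L + 1) ⟨t % L + i - L, by have := Nat.mod_lt t hL; omega⟩ := by
    funext t i
    have := Nat.div_add_mod' t L
    simp only [wd, blk]
    split_ifs with h
    · congr 1; omega
    · congr 1; rw [add_mul]; omega
  rw [e]
  exact h1

lemma sum_wd_cost {L NB N : ℕ} (hL : 0 < L) (hN : N ≤ NB * L) {cb : ℕ → ℝ} (h0 : ∀ b, 0 ≤ cb b) :
    ∑ t ∈ range N, (cb (t / L) + cb (t / L + 1)) ≤ 2 * L * ∑ b ∈ range (NB + 1), cb b := by
  have key : ∀ f : ℕ → ℝ, (∀ b, 0 ≤ f b) → ∑ t ∈ range N, f (t / L) ≤ L * ∑ b ∈ range NB, f b := by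
    intro f hf
    calc _ ≤ ∑ t ∈ Ico (0 * L) (NB * L), f (t / L) := by
          rw [zero_mul, ← range_eq_Ico]
          exact sum_le_sum_of_subset_of_nonneg (range_subset_range.2 hN) fun _ _ _ => hf _
      _ = _ := by
          rw [sum_Ico_blocks _ _ (Nat.zero_le _), ← range_eq_Ico, mul_sum]
          refine sum_congr rfl fun b _ => ?_
          rw [sum_congr rfl fun t ht => by rw [div_of_mem ht]]
          simp [add_mul]
  have h1 := key cb h0
  have h2 := key (fun b => cb (b + 1)) fun b => h0 _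
  have h3 := sum_range_succ cb NB
  have h4 := sum_range_succ' cb NB
  have hL' : (0 : ℝ) < L := by exact_mod_cast hL
  rw [sum_add_distrib]
  nlinarith [h0 NB, h0 0]

lemma block_code (y : ℕ → Bool) {L n K : ℕ} (hn : 0 < n) (hK : 1 ≤ K) {β C γ : ℝ} (hβ0 : 0 < β)
    (hβ1 : β < 1) (hC : 0 < C) (hγ : 0 < γ)
    (hsm : ∀ t b, 0 ≤ t → t ≤ 1 → Real.exp (-(γ + C * (bit b - t) ^ 2)) ≤ sm β t b) :
    ∃ cb : ℕ → ℝ, (∀ b, 0 ≤ cb b) ∧ Code (blk y L) cb ∧ ∀ x : ℕ,
      ∑ b ∈ range (K ^ 2 * n + x), cb b ≤ (K ^ 2 * n + x) * Real.log (K ^ 2 + 1) +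
        (K * n + x) * (L * Real.log 2) + K ^ 2 * n * L * γ +
        C * ∑ r ∈ Ico K (K ^ 2), var y L n r := by
  let cost : ℕ → ℕ → ℝ := fun r b =>
    ∑ j, (γ + C * md (eb L) (emp y L n r) j (blk y L b) ^ 2)
  let c : Fin (K ^ 2 + 1) → ℕ → ℝ := fun j b =>
    if (j : ℕ) < K ^ 2 then cost j b else L * Real.log 2
  have hc : ∀ j, Code (blk y L) (c j) := fun j => by
    simp only [c]
    split_ifs
    · exact code_seq hβ0 hβ1 hsm eb_inj
        (fun i => pred (emp y L n j) (fun l => eb L l < eb L i) i) (fun i => dep_pred _ _ _)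
        (fun i u => pred_mem (emp_nonneg y L n j) _ _ _) (blk y L)
    · simpa using Code.unif (blk y L)
  have hmix := Code.mix hc fun b =>
    if h : K ≤ b / n ∧ b / n < K ^ 2 then ⟨b / n, by omega⟩ else Fin.last _
  have hl2 : 0 ≤ L * Real.log 2 := mul_nonneg (Nat.cast_nonneg L) (Real.log_nonneg one_le_two)
  have hlK : 0 ≤ Real.log ((K : ℝ) ^ 2 + 1) := Real.log_nonneg (by nlinarith [sq_nonneg (K : ℝ)])
  refine ⟨fun b => Real.log (K ^ 2 + 1) +
    if K ≤ b / n ∧ b / n < K ^ 2 then cost (b / n) b else L * Real.log 2, fun b => ?_,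
    hmix.mono fun b => le_of_eq ?_, fun x => ?_⟩
  · refine add_nonneg hlK ?_
    split_ifs
    · exact sum_nonneg fun j _ => by positivity
    · exact hl2
  · simp only [Fintype.card_fin, c]
    push_cast
    congr 1
    split_ifs with h h1 h2
    · rfl
    · exact absurd h.2 h1
    · simp at h2
    · rfl
  · have hKK : K ≤ K ^ 2 := by nlinarith
    have h1 : ∀ b, (if K ≤ b / n ∧ b / n < K ^ 2 then cost (b / n) b else L * Real.log 2) =
        L * Real.log 2 + if K ≤ b / n ∧ b / n < K ^ 2 then cost (b / n) b - L * Real.log 2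
          else 0 := fun b => by split_ifs <;> ring
    have h2 : filter (fun b => K ≤ b / n ∧ b / n < K ^ 2) (range (K ^ 2 * n + x)) =
        Ico (K * n) (K ^ 2 * n) := by
      ext b
      simp only [mem_filter, mem_range, mem_Ico, Nat.le_div_iff_mul_le hn,
        Nat.div_lt_iff_lt_mul hn]
      omega
    simp only [h1, sum_add_distrib, ← sum_filter, h2]
    rw [sum_Ico_blocks _ _ hKK]
    have h3 : ∀ r ∈ Ico K (K ^ 2), ∑ b ∈ Ico (r * n) ((r + 1) * n),
        (cost (b / n) b - L * Real.log 2) =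
        n * L * γ - n * (L * Real.log 2) + C * var y L n r := by
      intro r _
      rw [sum_congr rfl fun b hb => by rw [div_of_mem hb]]
      simp only [cost, var, sum_add_distrib, sum_sub_distrib, mul_sum, sum_const, card_univ,
        Fintype.card_fin, nsmul_eq_mul, Nat.card_Ico, add_mul, one_mul, Nat.add_sub_cancel_left]
      ring
    rw [sum_congr rfl h3]
    simp only [sum_add_distrib, sum_const, card_range, nsmul_eq_mul, Nat.card_Ico, ← mul_sum,
      Nat.cast_sub hKK]
    push_cast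
    have : 0 ≤ (K : ℝ) * n * L * γ := by positivity
    nlinarith

end Pool.Agent.H90.Norm
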