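import Mathlib
import Pool.Agent.H90.NormC

namespace Pool.Agent.H90.Norm

open Finset MeasureTheory Filter Topology

lemma word_bool (L : ℕ) (z : ℕ → Bool) : word (letter true) shift L z = wd z L 0 := by
  funext i
  simp only [word, letter, wd, shift_iter, zero_add]
  cases z i <;> simp

lemma wd_shift (L n : ℕ) (y : ℕ → Bool) : wd (shift^[n] y) L 0 = wd y L n := by
  funext i
  simp only [wd, shift_iter, zero_add]
  rw [add_comm]

noncomputable def cylF (L : ℕ) (G : W L → ℝ) : C(ℕ → Bool, ℝ) :=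
  ⟨fun z => G (wd z L 0), continuous_of_discreteTopology.comp
    (continuous_pi fun _ => continuous_apply _)⟩

lemma smooth_code {L : ℕ} {Ω : Type*} {Z : Ω → W L} {c : Ω → ℝ} (h : Code Z c) :
    ∃ G : W L → ℝ, Code id G ∧ (∀ u, |G u| ≤ L + 1) ∧ ∀ x, G (Z x) ≤ Real.log 2 + c x := by
  obtain ⟨Q, h0, h1, h2⟩ := h
  have hp : (0 : ℝ) < (1 / 2) ^ L := by positivity
  have hQ : ∀ u, 0 < (Q u + (1 / 2) ^ L) / 2 := fun u => by have := h0 u; positivity
  refine ⟨fun u => -Real.log ((Q u + (1 / 2) ^ L) / 2), ⟨fun u => (Q u + (1 / 2) ^ L) / 2,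
    fun u => (hQ u).le, ?_, fun u => ?_⟩, fun u => ?_, fun x => ?_⟩
  · rw [← sum_div, sum_add_distrib]
    simp only [sum_const, card_univ, Fintype.card_pi, Fintype.card_bool, prod_const,
      Fintype.card_fin, nsmul_eq_mul]
    push_cast
    rw [← mul_pow]
    norm_num
    linarith
  · simp only [neg_neg, id, Real.exp_log (hQ u), le_refl]
  · have h3 : Q u ≤ 1 := (single_le_sum (fun z _ => h0 z) (mem_univ u)).trans h1
    have h4 : ((1 : ℝ) / 2) ^ L ≤ 1 := pow_le_one₀ (by norm_num) (by norm_num)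
    have h5 : Real.log ((Q u + (1 / 2) ^ L) / 2) ≤ 0 := Real.log_nonpos (hQ u).le (by linarith)
    have h6 : Real.log ((1 / 2) ^ (L + 1)) ≤ Real.log ((Q u + (1 / 2) ^ L) / 2) :=
      Real.log_le_log (by positivity) (by rw [pow_succ]; linarith [h0 u])
    rw [Real.log_pow, one_div, Real.log_inv] at h6
    have h7 : Real.log 2 ≤ 1 := by have := Real.log_two_lt_d9; linarith
    rw [abs_neg, abs_of_nonpos h5]
    push_cast at h6
    rw [one_div]
    nlinarith [Nat.cast_nonneg (α := ℝ) L]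
  · have h3 : Real.log (Real.exp (-c x) / 2) ≤ Real.log ((Q (Z x) + (1 / 2) ^ L) / 2) :=
      Real.log_le_log (by positivity) (by linarith [h2 x])
    rw [Real.log_div (Real.exp_pos _).ne' two_ne_zero, Real.log_exp] at h3
    simp only
    linarith

lemma transfer (y : ℕ → Bool) (ν : Measure (ℕ → Bool)) [IsProbabilityMeasure ν] {N : ℕ → ℕ}
    (hlim : ∀ F : C(ℕ → Bool, ℝ), Tendsto
      (fun k => (∑ n ∈ range (N k), F (shift^[n] y)) / N k) atTop (𝓝 (∫ y, F y ∂ν)))
    (L : ℕ) {δ : ℝ} (hδ : 0 < δ) : ∀ᶠ k in atTop, ∀ G : W L → ℝ, (∀ u, |G u| ≤ L + 1) →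
      ∫ z, G (wd z L 0) ∂ν ≤ (∑ t ∈ range (N k), G (wd y L t)) / N k + δ := by
  classical
  have hw : ∀ u, MeasurableSet {z : ℕ → Bool | wd z L 0 = u} := fun u => by
    have : Measurable (fun z : ℕ → Bool => wd z L 0) :=
      measurable_pi_lambda _ fun i => measurable_pi_apply _
    exact this (measurableSet_singleton u)
  let ρ : ℕ → W L → ℝ := fun k u =>
    (∑ t ∈ range (N k), if wd y L t = u then 1 else 0) / N k
  have h1 : ∀ u, Tendsto (fun k => ρ k u) atTop (𝓝 (law ν (fun z => wd z L 0) u)) := fun u => by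
    have := hlim (cylF L fun w => if w = u then 1 else 0)
    simp only [cylF, ContinuousMap.coe_mk, wd_shift] at this
    rw [integral_law hw fun w => if w = u then 1 else 0] at this
    simpa [ρ] using this
  have h2 : Tendsto (fun k => ∑ u, |law ν (fun z => wd z L 0) u - ρ k u| * (L + 1)) atTop
      (𝓝 0) := by
    have : (0 : ℝ) = ∑ u : W L, |law ν (fun z => wd z L 0) u - law ν (fun z => wd z L 0) u| *
        (L + 1) := by simp
    rw [this]
    exact tendsto_finsetSum _ fun u _ => ((tendsto_const_nhds.sub (h1 u)).abs).mul_const _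
  filter_upwards [h2.eventually (gt_mem_nhds hδ)] with k hk G hG
  have h3 : (∑ t ∈ range (N k), G (wd y L t)) / N k = ∑ u, ρ k u * G u := by
    simp only [ρ, div_mul_eq_mul_div, sum_mul, ← sum_div]
    rw [sum_comm]
    simp
  rw [integral_law hw, h3]
  have h4 : ∀ u, law ν (fun z => wd z L 0) u * G u ≤
      ρ k u * G u + |law ν (fun z => wd z L 0) u - ρ k u| * (L + 1) := fun u => by
    have := le_abs_self ((law ν (fun z => wd z L 0) u - ρ k u) * G u)
    rw [abs_mul] at this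
    have h5 := mul_le_mul_of_nonneg_left (hG u) (abs_nonneg (law ν (fun z => wd z L 0) u - ρ k u))
    linarith
  have := sum_le_sum fun u (_ : u ∈ univ) => h4 u
  rw [sum_add_distrib] at this
  linarith

lemma stage (y : ℕ → Bool) (ν : Measure (ℕ → Bool)) [IsProbabilityMeasure ν] {N : ℕ → ℕ}
    (hN : StrictMono N) (hlim : ∀ F : C(ℕ → Bool, ℝ), Tendsto
      (fun k => (∑ n ∈ range (N k), F (shift^[n] y)) / N k) atTop (𝓝 (∫ y, F y ∂ν)))
    (hnc : ¬ Compress ν shift (letter true)) :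
    ∃ c : ℝ, 0 < c ∧ ∃ K₁ : ℕ, ∀ K ≥ K₁, ∃ L₁ : ℕ, ∀ L ≥ L₁, ∀ d > 0, ∀ n₀ : ℕ, ∃ n ≥ n₀,
      d ∣ n ∧ c * (K ^ 2 * n * L) ≤ ∑ r ∈ Ico K (K ^ 2), var y L n r := by
  unfold Compress at hnc
  push Not at hnc
  obtain ⟨η, hη, hnc⟩ := hnc
  obtain ⟨β, C, hβ0, hβ1, hC, hsm⟩ := sm_cost (show 0 < η / 16 by positivity)
  obtain ⟨K₁, hK₁⟩ := exists_nat_gt (32 / η)
  refine ⟨η / 16 / C, by positivity, K₁ + 1, fun K hK => ?_⟩
  have hK1 : 1 ≤ K := by omega
  have hK' : (1 : ℝ) ≤ K := by exact_mod_cast hK1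
  have hKη : 32 ≤ η * K := by
    have : (K₁ : ℝ) + 1 ≤ K := by exact_mod_cast hK
    rw [div_lt_iff₀ hη] at hK₁
    nlinarith
  obtain ⟨L₁, hL₁⟩ := exists_nat_gt
    (8 * (Real.log 2 + 4 * Real.log (K ^ 2 + 1) - Real.log (η / 8)) / η)
  refine ⟨L₁ + 1, fun L hL d hd n₀ => ?_⟩
  have hL0 : 0 < L := by omega
  have hL' : (0 : ℝ) < L := by exact_mod_cast hL0
  have hLη : Real.log 2 + Real.log L + 4 * Real.log (K ^ 2 + 1) ≤ η * L / 4 := by
    have h1 : (L₁ : ℝ) + 1 ≤ L := by exact_mod_cast hL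
    have h2 := Real.log_le_sub_one_of_pos (show 0 < η / 8 * L by positivity)
    rw [Real.log_mul (by positivity) hL'.ne'] at h2
    rw [div_lt_iff₀ hη] at hL₁
    nlinarith
  obtain ⟨k, hk, hk2⟩ := ((transfer y ν hlim L (show 0 < η * L / 4 by positivity)).and
    (hN.tendsto_atTop.eventually_ge_atTop (K ^ 2 * L * d * (n₀ + K ^ 2 * d + 1)))).exists
  have hpos : 0 < K ^ 2 * L * d := by positivity
  set q := N k / (K ^ 2 * L * d) with hq
  have hq1 : n₀ + K ^ 2 * d + 1 ≤ q := (Nat.le_div_iff_mul_le hpos).2 (by rwa [mul_comm])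
  have hqn : q ≤ d * q := Nat.le_mul_of_pos_left _ hd
  refine ⟨d * q, by omega, dvd_mul_right _ _, ?_⟩
  set n := d * q with hn
  have hn0 : 0 < n := by omega
  have hN1 : K ^ 2 * n * L ≤ N k := by
    have := Nat.div_mul_le_self (N k) (K ^ 2 * L * d)
    calc K ^ 2 * n * L = q * (K ^ 2 * L * d) := by rw [hn]; ring
      _ ≤ _ := this
  have hN2 : N k ≤ (K ^ 2 * n + K ^ 2 * d) * L := by
    have := Nat.lt_mul_div_succ (N k) hpos
    calc N k ≤ K ^ 2 * L * d * (q + 1) := this.le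
      _ = _ := by rw [hn]; ring
  by_contra hcon
  push Not at hcon
  obtain ⟨cb, hcb0, hcb, hsum⟩ := block_code y (L := L) hn0 hK1 hβ0 hβ1 hC (by positivity) hsm
  obtain ⟨G, hG, hGb, hGc⟩ := smooth_code (code_wd y hL0 hcb)
  have hw : ∀ u, MeasurableSet {z : ℕ → Bool | wd z L 0 = u} := fun u => by
    have : Measurable (fun z : ℕ → Bool => wd z L 0) :=
      measurable_pi_lambda _ fun i => measurable_pi_apply _
    exact this (measurableSet_singleton u)
  have h1 := hnc L hL0 (fun z => G (wd z L 0)) (integrable_law hw G) (by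
    have := hG.comp fun z : ℕ → Bool => wd z L 0
    rwa [show word (letter true) shift L = fun z => wd z L 0 from funext (word_bool L)])
  have h2 := hk G hGb
  have h3 := sum_le_sum fun t (_ : t ∈ range (N k)) => hGc t
  have h4 := sum_wd_cost hL0 hN2 hcb0
  have h5 := hsum (K ^ 2 * d + 1)
  rw [← add_assoc] at h5
  simp only [sum_add_distrib (s := range (N k)) (f := fun _ => Real.log 2),
    sum_add_distrib (s := range (N k)) (f := fun _ => Real.log L), sum_const, card_range,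
    nsmul_eq_mul] at h3
  have hx : ((K ^ 2 * d + 1 : ℕ) : ℝ) ≤ n := by exact_mod_cast (by omega : K ^ 2 * d + 1 ≤ n)
  have hN1' : (K : ℝ) ^ 2 * n * L ≤ N k := by exact_mod_cast hN1
  have hn' : (0 : ℝ) < n := by exact_mod_cast hn0
  have hNpos : (0 : ℝ) < N k := lt_of_lt_of_le (by positivity) hN1'
  have hlK : 0 ≤ Real.log ((K : ℝ) ^ 2 + 1) := Real.log_nonneg (by nlinarith)
  have hl2 : Real.log 2 ≤ 1 := by have := Real.log_two_lt_d9; linarith
  have hl2' : 0 ≤ Real.log 2 := Real.log_nonneg one_le_two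
  set x : ℝ := ((K ^ 2 * d + 1 : ℕ) : ℝ)
  have hx0 : 0 ≤ x := Nat.cast_nonneg _
  have a1 : 2 * L * ((K ^ 2 * n + x) * Real.log (K ^ 2 + 1)) ≤
      N k * (4 * Real.log (K ^ 2 + 1)) := by
    have : (K : ℝ) ^ 2 * n + x ≤ 2 * (K ^ 2 * n) := by nlinarith [mul_le_mul hK' hK' zero_le_one (by linarith)]
    calc _ ≤ 2 * L * ((2 * (K ^ 2 * n)) * Real.log (K ^ 2 + 1)) := by gcongr
      _ = (K ^ 2 * n * L) * (4 * Real.log (K ^ 2 + 1)) := by ring
      _ ≤ _ := by gcongr
  have a2 : 2 * L * ((K * n + x) * (L * Real.log 2)) ≤ N k * (η * L / 8) := by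
    have : (K : ℝ) * n + x ≤ 2 * (K * n) := by nlinarith
    calc _ ≤ (2 : ℝ) * L * ((2 * (K * n)) * (L * 1)) := by gcongr
      _ = ((K : ℝ) * n * L * L / 8) * 32 := by ring
      _ ≤ (K * n * L * L / 8) * (η * K) := by gcongr
      _ = (K ^ 2 * n * L) * (η * L / 8) := by ring
      _ ≤ _ := by gcongr
  have a3 : 2 * L * (K ^ 2 * n * L * (η / 16) + C * ∑ r ∈ Ico K (K ^ 2), var y L n r) ≤
      N k * (η * L / 4) := by
    have : C * ∑ r ∈ Ico K (K ^ 2), var y L n r ≤ K ^ 2 * n * L * (η / 16) := by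
      calc _ ≤ C * (η / 16 / C * (K ^ 2 * n * L)) := by gcongr
        _ = _ := by field_simp
    calc _ ≤ 2 * L * (K ^ 2 * n * L * (η / 16) + K ^ 2 * n * L * (η / 16)) := by gcongr
      _ = (K ^ 2 * n * L) * (η * L / 4) := by ring
      _ ≤ _ := by gcongr
  have a4 : (∑ t ∈ range (N k), G (wd y L t)) / N k ≤ η * L / 4 + η * L / 8 + η * L / 4 := by
    rw [div_le_iff₀ hNpos]
    have := mul_le_mul_of_nonneg_left h5 (show (0 : ℝ) ≤ 2 * L by positivity)
    have := mul_le_mul_of_nonneg_left hLη hNpos.le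
    nlinarith
  have : 0 < η * L := by positivity
  linarith

end Pool.Agent.H90.Norm
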