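import Mathlib
import Pool.Agent.H90.NormD

namespace Pool.Agent.H90.Norm

open Finset MeasureTheory Filter Topology

lemma greedy {Ω ι : Type*} [Fintype ι] [Nonempty Ω] (ζ : ℕ → Ω → ι → ℝ) {R : ℝ}
    (hR : ∀ b x i, |ζ b x i| ≤ R) (h : ∀ b (S : ι → ℝ), ∃ x, ∑ i, S i * ζ b x i ≤ 0)
    (s : Finset ℕ) : ∃ z : ℕ → Ω,
      ∑ i, (∑ b ∈ s, ζ b (z b) i) ^ 2 ≤ s.card * (Fintype.card ι * R ^ 2) := by
  induction s using Finset.induction_on with
  | empty => exact ⟨fun _ => Classical.arbitrary _, by simp⟩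
  | insert a s ha ih =>
    obtain ⟨z, hz⟩ := ih
    obtain ⟨x, hx⟩ := h a fun i => ∑ b ∈ s, ζ b (z b) i
    refine ⟨Function.update z a x, ?_⟩
    have h1 : ∀ i, ∑ b ∈ insert a s, ζ b (Function.update z a x b) i =
        ζ a x i + ∑ b ∈ s, ζ b (z b) i := fun i => by
      rw [sum_insert ha, Function.update_self]
      congr 1
      exact sum_congr rfl fun b hb => by
        rw [Function.update_of_ne (fun e => ha (by rw [← e]; exact hb))]
    have h2 : ∀ i, (ζ a x i + ∑ b ∈ s, ζ b (z b) i) ^ 2 ≤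
        R ^ 2 + 2 * ((∑ b ∈ s, ζ b (z b) i) * ζ a x i) + (∑ b ∈ s, ζ b (z b) i) ^ 2 := fun i => by
      have := sq_le_sq' (abs_le.1 (hR a x i)).1 (abs_le.1 (hR a x i)).2
      nlinarith
    simp only [h1]
    refine (sum_le_sum fun i _ => h2 i).trans ?_
    rw [sum_add_distrib, sum_add_distrib, ← mul_sum, card_insert_of_notMem ha]
    simp only [sum_const, card_univ, nsmul_eq_mul]
    push_cast
    linarith

lemma centered {Ω ι : Type*} [Fintype ι] [MeasurableSpace Ω] {m : Measure Ω}
    [IsProbabilityMeasure m] {D : Ω → ℝ} (hD : ∀ x, 0 < D x) (hDi : Integrable D m)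
    (hD1 : ∫ x, D x ∂m = 1) {Z : Ω → ι → ℝ} (hZ : ∀ i, Measurable fun x => Z x i) {R : ℝ}
    (hb : ∀ x i, 0 ≤ Z x i ∧ Z x i ≤ R) :
    (∀ x i, |Z x i - ∫ x, Z x i * D x ∂m| ≤ R) ∧
      ∀ S : ι → ℝ, ∃ x, ∑ i, S i * (Z x i - ∫ x, Z x i * D x ∂m) ≤ 0 := by
  have hi : ∀ i, Integrable (fun x => Z x i * D x) m := fun i =>
    hDi.bdd_mul (c := R) (hZ i).aestronglyMeasurable (Eventually.of_forall fun x => by
      rw [Real.norm_eq_abs, abs_of_nonneg (hb x i).1]; exact (hb x i).2)
  refine ⟨fun x i => ?_, fun S => ?_⟩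
  · have h1 : 0 ≤ ∫ x, Z x i * D x ∂m := integral_nonneg fun x => mul_nonneg (hb x i).1 (hD x).le
    have h2 : ∫ x, Z x i * D x ∂m ≤ ∫ x, R * D x ∂m := integral_mono (hi i) (hDi.const_mul R)
      fun x => mul_le_mul_of_nonneg_right (hb x i).2 (hD x).le
    rw [integral_const_mul, hD1] at h2
    rw [abs_le]; constructor <;> linarith [(hb x i).1, (hb x i).2]
  · have h1 : ∀ i, Integrable
        (fun x => S i * (Z x i * D x - (∫ x, Z x i * D x ∂m) * D x)) m := fun i =>
      ((hi i).sub (hDi.const_mul _)).const_mul _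
    obtain ⟨x, hx⟩ := exists_le_integral (integrable_finsetSum univ fun i _ => h1 i)
    rw [integral_finsetSum _ fun i _ => h1 i] at hx
    have h2 : ∀ i, ∫ x, S i * (Z x i * D x - (∫ x, Z x i * D x ∂m) * D x) ∂m = 0 := fun i => by
      rw [integral_const_mul, integral_sub (hi i) (hDi.const_mul _), integral_const_mul, hD1]
      simp
    simp only [h2, sum_const_zero] at hx
    refine ⟨x, le_of_mul_le_mul_right ?_ (hD x)⟩
    rw [zero_mul, sum_mul]
    refine le_trans (le_of_eq (sum_congr rfl fun i _ => by ring)) hx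

variable {Λ : Type*} [Countable Λ] [MeasurableSpace Λ] [DiscreteMeasurableSpace Λ]

open Classical in
noncomputable def occ (B : Σ l, Fin l → Λ) (x : ℕ → Λ) (j : ℕ) : ℝ :=
  if ∀ i : Fin B.1, x (j + i) = B.2 i then 1 else 0

noncomputable def mB (μ : Measure (ℕ → Λ)) (B : Σ l, Fin l → Λ) : ℝ :=
  μ.real {z | ∀ i : Fin B.1, z i = B.2 i}

omit [Countable Λ] [MeasurableSpace Λ] [DiscreteMeasurableSpace Λ] in
lemma occ_mem (B : Σ l, Fin l → Λ) (x : ℕ → Λ) (j : ℕ) : 0 ≤ occ B x j ∧ occ B x j ≤ 1 := by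
  unfold occ; split_ifs <;> norm_num

omit [Countable Λ] in
lemma cyl_meas (B : Σ l, Fin l → Λ) :
    MeasurableSet {z : ℕ → Λ | ∀ i : Fin B.1, z i = B.2 i} := by
  rw [Set.ofPred_forall]
  exact MeasurableSet.iInter fun i =>
    (measurable_pi_apply (X := fun _ : ℕ => Λ) i) (MeasurableSet.of_discrete (s := {B.2 i}))

omit [Countable Λ] [MeasurableSpace Λ] [DiscreteMeasurableSpace Λ] in
lemma occ_eq (B : Σ l, Fin l → Λ) (j : ℕ) : (fun x => occ B x j) = fun x =>
    Set.indicator {z : ℕ → Λ | ∀ i : Fin B.1, z i = B.2 i} (fun _ => (1 : ℝ)) (shift^[j] x) := by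
  classical
  funext x
  simp only [occ, Set.indicator_apply, Set.mem_ofPred_eq, shift_iter, add_comm j]

omit [Countable Λ] [DiscreteMeasurableSpace Λ] in
lemma shift_meas : Measurable (shift : (ℕ → Λ) → ℕ → Λ) :=
  measurable_pi_lambda _ fun _ => measurable_pi_apply _

omit [Countable Λ] in
lemma occ_meas (B : Σ l, Fin l → Λ) (j : ℕ) : Measurable fun x => occ B x j := by
  rw [occ_eq]
  exact (measurable_const.indicator (cyl_meas B)).comp (shift_meas.iterate j)

omit [Countable Λ] in
lemma occ_int {μ : Measure (ℕ → Λ)} [IsProbabilityMeasure μ] (hT : MeasurePreserving shift μ μ)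
    (B : Σ l, Fin l → Λ) (j : ℕ) :
    Integrable (fun x => occ B x j) μ ∧ ∫ x, occ B x j ∂μ = mB μ B := by
  have := integral_iter hT ((integrable_const (1 : ℝ)).indicator (cyl_meas B)) j
  rw [occ_eq]
  refine ⟨this.1, ?_⟩
  rw [this.2, integral_indicator_const _ (cyl_meas B)]
  simp [mB]

omit [Countable Λ] in
lemma letter_int {μ : Measure (ℕ → Λ)} [IsProbabilityMeasure μ] (hT : MeasurePreserving shift μ μ)
    (a : Λ) {L : ℕ} (i : Fin L) :
    ∑ u, law μ (word (letter a) shift L) u * bit (u i) = μ.real {z | z 0 = a} := by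
  rw [← integral_law (word_meas (letter_meas a) hT.measurable L) fun u => bit (u i)]
  have h := (occ_int hT ⟨1, fun _ => a⟩ i).2
  simp only [mB, occ, Fin.forall_fin_one] at h
  refine Eq.trans ?_ h
  congr 1
  funext x
  have e : shift^[i] x 0 = x i := by rw [shift_iter, zero_add]
  by_cases hx : x i = a <;> simp [word, letter, bit, e, hx]

omit [Countable Λ] in
lemma interval {μ : Measure (ℕ → Λ)} [IsProbabilityMeasure μ] (hT : MeasurePreserving shift μ μ)
    (a : Λ) {σ : ℝ} (hσ : ∀ (L : ℕ) (i : Fin L), σ ≤ ∑ u, law μ (word (letter a) shift L) u *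
      md (ef L) (law μ (word (letter a) shift L)) i u ^ 2)
    (y : ℕ → Bool) {m : ℕ} (e : Fin m → Σ l, Fin l → Λ) (L : ℕ) {n : ℕ} (hn : 0 < n) (r : ℕ) :
    ∃ z : ℕ → ℕ → Λ,
      (∀ j, |∑ b ∈ Ico (r * n) ((r + 1) * n), ∑ t : Fin L, occ (e j) (z b) t -
        n * L * mB μ (e j)| ≤ L * √(n * (m + 1))) ∧
      μ.real {z | z 0 = a} * (∑ b ∈ Ico (r * n) ((r + 1) * n), ∑ i, bit (blk y L b i)) +
        σ / 2 * var y L n r - L * √(n * (m + 1)) ≤
      ∑ b ∈ Ico (r * n) ((r + 1) * n), ∑ i,
        bit (word (letter a) shift L (z b) i) * bit (blk y L b i) := by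
  have : Nonempty (ℕ → Λ) := ⟨fun _ => a⟩
  have hn' : (0 : ℝ) < n := by exact_mod_cast hn
  set s := Ico (r * n) ((r + 1) * n) with hs
  have hcard : s.card = n := by simp [hs, add_mul]
  set p := law μ (word (letter a) shift L) with hp
  set π := emp y L n r with hπ
  have hp0 : ∀ u, 0 ≤ p u := law_nonneg _
  have hπ0 : ∀ u, 0 ≤ π u := emp_nonneg y L n r
  have hw := word_meas (letter_meas a) hT.measurable L
  have hsum : ∀ F : W L → ℝ, ∑ b ∈ s, F (blk y L b) = n * ∑ w, π w * F w := fun F => by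
    rw [hπ, emp_sum, mul_div_cancel₀ _ hn'.ne']
  have hπ1 : ∑ w, π w = 1 := by
    have := hsum fun _ => 1
    simp only [sum_const, hcard, nsmul_eq_mul, mul_one] at this
    exact (mul_eq_left₀ hn'.ne').1 this.symm
  let D : ℕ → (ℕ → Λ) → ℝ := fun b x => tilt p π (word (letter a) shift L x) (blk y L b)
  let Z : ℕ → (ℕ → Λ) → Option (Fin m) → ℝ := fun b x o => o.elim
    (∑ i, bit (word (letter a) shift L x i) * bit (blk y L b i))
    (fun j => ∑ t : Fin L, occ (e j) x t)
  have hDi : ∀ b, Integrable (D b) μ := fun b => integrable_law hw fun u => tilt p π u _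
  have hc := fun b => centered (m := μ) (D := D b) (fun x => tilt_pos hp0 hπ0 _ _) (hDi b)
    (by
      rw [integral_law hw fun u => tilt p π u _, tilt_right hp0]
      exact law_sum hw)
    (Z := Z b) (R := L)
    (fun o => by
      cases o with
      | none =>
        have : Measurable (word (letter a) shift L) :=
          measurable_pi_lambda _ fun i => (letter_meas a).comp (hT.measurable.iterate i)
        exact (Measurable.of_discrete
          (f := fun u : W L => ∑ i, bit (u i) * bit (blk y L b i))).comp this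
      | some j => exact Finset.measurable_sum _ fun t _ => occ_meas _ _)
    (fun x o => by
      cases o with
      | none =>
        refine ⟨sum_nonneg fun i _ => mul_nonneg (bit_nonneg _) (bit_nonneg _), ?_⟩
        simpa [Z] using sum_le_card_nsmul univ _ 1 fun i _ =>
          mul_le_one₀ (bit_le (word (letter a) shift L x i)) (bit_nonneg _) (bit_le (blk y L b i))
      | some j =>
        refine ⟨sum_nonneg fun i _ => (occ_mem _ _ _).1, ?_⟩
        simpa [Z] using sum_le_card_nsmul univ _ 1 fun (t : Fin L) _ => (occ_mem (e j) x t).2)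
  obtain ⟨z, hz⟩ := greedy (fun b x o => Z b x o - ∫ x, Z b x o * D b x ∂μ)
    (fun b => (hc b).1) (fun b => (hc b).2) s
  have hbd : ∀ o, |∑ b ∈ s, Z b (z b) o - ∑ b ∈ s, ∫ x, Z b x o * D b x ∂μ| ≤
      L * √(n * (m + 1)) := fun o => by
    rw [← sum_sub_distrib]
    have h1 := (single_le_sum (fun o _ => sq_nonneg _) (mem_univ o)).trans hz
    refine abs_le_of_sq_le_sq' ?_ (by positivity) |> abs_le.2
    rw [mul_pow, Real.sq_sqrt (by positivity)]
    rw [hcard, Fintype.card_option, Fintype.card_fin] at h1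
    push_cast at h1
    linarith
  refine ⟨z, fun j => ?_, ?_⟩
  · have h1 := hbd (some j)
    have hi : ∀ b, Integrable (fun x => (∑ t : Fin L, occ (e j) x t) * D b x) μ := fun b =>
      (hDi b).bdd_mul (c := L) (Finset.measurable_sum _ fun t _ => occ_meas _ _).aestronglyMeasurable
        (Eventually.of_forall fun x => by
          rw [Real.norm_eq_abs, abs_of_nonneg (sum_nonneg fun i _ => (occ_mem _ _ _).1)]
          simpa using sum_le_card_nsmul univ _ 1 fun (t : Fin L) _ => (occ_mem (e j) x t).2)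
    have h2 : ∑ b ∈ s, ∫ x, Z b x (some j) * D b x ∂μ = n * L * mB μ (e j) := by
      simp only [Z, Option.elim]
      rw [← integral_finsetSum _ fun b _ => hi b]
      have h3 : ∀ x, ∑ b ∈ s, (∑ t : Fin L, occ (e j) x t) * D b x =
          n * ∑ t : Fin L, occ (e j) x t := fun x => by
        rw [← mul_sum, hsum fun w => tilt p π (word (letter a) shift L x) w, tilt_left hπ0, hπ1]
        ring
      simp only [h3]
      rw [integral_const_mul, integral_finsetSum _ fun t _ => (occ_int hT _ _).1]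
      simp only [(occ_int hT _ _).2, sum_const, card_univ, Fintype.card_fin, nsmul_eq_mul]
      ring
    rw [h2] at h1
    exact h1
  · have h1 := (abs_le.1 (hbd none)).1
    have h2 : ∑ b ∈ s, ∫ x, Z b x none * D b x ∂μ =
        ∑ i, n * ∑ w, π w * ∑ u, p u * (bit (u i) * bit (w i) * tilt p π u w) := by
      simp only [Z, D, Option.elim]
      have h3 : ∀ b, ∫ x, (∑ i, bit (word (letter a) shift L x i) * bit (blk y L b i)) *
          tilt p π (word (letter a) shift L x) (blk y L b) ∂μ =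
          ∑ i, ∑ u, p u * (bit (u i) * bit (blk y L b i) * tilt p π u (blk y L b)) := fun b => by
        rw [integral_law hw fun u => (∑ i, bit (u i) * bit (blk y L b i)) * tilt p π u (blk y L b),
          sum_comm]
        exact sum_congr rfl fun u _ => by rw [sum_mul, mul_sum]
      simp only [h3]
      rw [sum_comm]
      exact sum_congr rfl fun i _ =>
        hsum fun w => ∑ u, p u * (bit (u i) * bit (w i) * tilt p π u w)
    have h4 : ∀ i, μ.real {z | z 0 = a} * (∑ b ∈ s, bit (blk y L b i)) +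
        σ / 2 * ∑ b ∈ s, md (eb L) π i (blk y L b) ^ 2 ≤
        n * ∑ w, π w * ∑ u, p u * (bit (u i) * bit (w i) * tilt p π u w) := fun i => by
      rw [tilt_corr hp0 hπ0, letter_int hT, hsum fun w => bit (w i),
        hsum fun w => md (eb L) π i w ^ 2]
      have h5 : 0 ≤ n * ∑ w, π w * md (eb L) π i w ^ 2 :=
        mul_nonneg hn'.le (sum_nonneg fun w _ => mul_nonneg (hπ0 w) (sq_nonneg _))
      have h6 := mul_le_mul_of_nonneg_right (hσ L i) h5
      linarith
    have h7 := sum_le_sum fun i (_ : i ∈ univ) => h4 i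
    rw [sum_add_distrib, ← mul_sum, ← mul_sum, sum_comm, sum_comm (s := univ) (t := s)] at h7
    rw [h2] at h1
    simp only [Z, Option.elim] at h1
    unfold var
    linarith

end Pool.Agent.H90.Norm
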