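import Mathlib
import Pool.Agent.H90.NormE

namespace Pool.Agent.H90.Norm

open Finset MeasureTheory Filter Topology

structure Tiles (K I : ℕ → ℕ) : Prop where
  pos : ∀ m, 0 < I m
  big : ∀ m, m + 2 ≤ K m
  dvd : ∀ m, I m ∣ I (m + 1)
  grow : ∀ m, K m ^ 2 * I m ≤ K (m + 1) * I (m + 1)

namespace Tiles
variable {K I : ℕ → ℕ} (h : Tiles K I)
include h

lemma mono : StrictMono fun m => K m * I m := strictMono_nat_of_lt_succ fun m => by
  refine lt_of_lt_of_le ?_ (h.grow m)
  have := h.big m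
  exact Nat.mul_lt_mul_of_pos_right (by nlinarith) (h.pos m)

lemma lev_eq {m t : ℕ} (h1 : K m * I m ≤ t) (h2 : t < K (m + 1) * I (m + 1)) :
    Nat.findGreatest (fun m => K m * I m ≤ t) t = m := by
  rw [Nat.findGreatest_eq_iff]
  refine ⟨(h.mono.id_le m).trans h1, fun _ => h1, fun k hk _ hk2 => ?_⟩
  exact absurd ((h.mono.monotone (Nat.succ_le_of_lt hk)).trans hk2) (not_le.2 h2)

lemma exists_lev {m₀ N : ℕ} (hN : K m₀ * I m₀ ≤ N) :
    ∃ m, m₀ ≤ m ∧ K m * I m ≤ N ∧ N < K (m + 1) * I (m + 1) := by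
  have h0 : m₀ ≤ N := (h.mono.id_le m₀).trans hN
  refine ⟨Nat.findGreatest (fun m => K m * I m ≤ N) N,
    Nat.le_findGreatest (P := fun m => K m * I m ≤ N) h0 hN,
    Nat.findGreatest_spec (P := fun m => K m * I m ≤ N) h0 hN, ?_⟩
  by_contra hc
  push Not at hc
  exact Nat.findGreatest_is_greatest (P := fun m => K m * I m ≤ N) (Nat.lt_succ_self _)
    ((h.mono.id_le _).trans hc) hc

lemma tendsto {f : ℕ → ℝ} (hf : ∀ t, |f t| ≤ 1)
    (H : ∀ η : ℝ, 0 < η → ∃ m₀, ∀ m ≥ m₀, ∀ r, K m ≤ r → (r + 1) * I m ≤ K (m + 1) * I (m + 1) →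
      |∑ t ∈ Ico (r * I m) ((r + 1) * I m), f t| ≤ η * I m) :
    Tendsto (fun N : ℕ => (∑ t ∈ range N, f t) / N) atTop (𝓝 0) := by
  have htriv : ∀ s : Finset ℕ, |∑ t ∈ s, f t| ≤ s.card := fun s =>
    (abs_sum_le_sum_abs _ _).trans (by simpa using sum_le_card_nsmul s _ 1 fun t _ => hf t)
  rw [Metric.tendsto_atTop]
  intro ε hε
  obtain ⟨m₁, hm₁⟩ := H (ε / 4) (by positivity)
  obtain ⟨m₂, hm₂⟩ := exists_nat_gt (4 / ε)
  set m₀ := max m₁ m₂
  set T₀ : ℝ := ((K m₀ * I m₀ : ℕ) : ℝ)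
  have step : ∀ m ≥ m₀, |∑ t ∈ range (K m * I m), f t| ≤ T₀ + ε / 4 * (K m * I m : ℕ) →
      ∀ r, K m ≤ r → r * I m ≤ K (m + 1) * I (m + 1) →
        |∑ t ∈ range (r * I m), f t| ≤ T₀ + ε / 4 * (r * I m : ℕ) := by
    intro m hm h0 r hr
    induction r, hr using Nat.le_induction with
    | base => exact fun _ => h0
    | succ r hr ih =>
      intro hr2
      have hle : r * I m ≤ (r + 1) * I m := Nat.mul_le_mul_right _ (Nat.le_succ _)
      have h1 := ih (hle.trans hr2)
      have h2 := hm₁ m ((le_max_left _ _).trans hm) r hr hr2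
      rw [← sum_range_add_sum_Ico _ hle]
      refine (abs_add_le _ _).trans ?_
      push_cast at h1 ⊢
      linarith
  have base : ∀ m ≥ m₀, |∑ t ∈ range (K m * I m), f t| ≤ T₀ + ε / 4 * (K m * I m : ℕ) := by
    intro m hm
    induction m, hm using Nat.le_induction with
    | base =>
      have := htriv (range (K m₀ * I m₀))
      rw [card_range] at this
      have : 0 ≤ ε / 4 * (K m₀ * I m₀ : ℕ) := by positivity
      linarith
    | succ m hm ih =>
      obtain ⟨q, hq⟩ := h.dvd m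
      have e : K (m + 1) * I (m + 1) = (K (m + 1) * q) * I m := by rw [hq]; ring
      have h1 : K m ≤ K (m + 1) * q := by
        have := (h.mono (Nat.lt_succ_self m)).le
        simp only [Nat.succ_eq_add_one] at this
        rw [e] at this
        exact Nat.le_of_mul_le_mul_right this (h.pos m)
      have := step m hm ih _ h1 e.ge
      rwa [← e] at this
  obtain ⟨N₁, hN₁⟩ := exists_nat_gt (4 * T₀ / ε)
  refine ⟨max (K m₀ * I m₀) (N₁ + 1), fun N hN => ?_⟩
  obtain ⟨m, hm, hm1, hm2⟩ := h.exists_lev ((le_max_left _ _).trans hN)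
  have hN1 : N₁ + 1 ≤ N := (le_max_right _ _).trans hN
  have hN0 : (0 : ℝ) < N := by exact_mod_cast (by omega : 0 < N)
  have hr : N / I m * I m ≤ N := Nat.div_mul_le_self _ _
  have h1 := step m hm (base m hm) (N / I m) ((Nat.le_div_iff_mul_le (h.pos m)).2 hm1)
    (hr.trans hm2.le)
  have h2 := htriv (Ico (N / I m * I m) N)
  have h3 : (Ico (N / I m * I m) N).card ≤ I m := by
    have := Nat.lt_div_mul_add (a := N) (h.pos m)
    rw [Nat.card_Ico]; omega
  have h3' : ((Ico (N / I m * I m) N).card : ℝ) ≤ I m := by exact_mod_cast h3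
  have h4 : (I m : ℝ) ≤ ε / 4 * N := by
    have a1 : (m₂ : ℝ) ≤ K m := by
      exact_mod_cast ((le_max_right m₁ m₂).trans hm).trans ((Nat.le_add_right _ _).trans (h.big m))
    have a2 : (K m : ℝ) * I m ≤ N := by exact_mod_cast hm1
    rw [div_lt_iff₀ hε] at hm₂
    have a3 : (0 : ℝ) ≤ I m := Nat.cast_nonneg _
    have a4 : 4 ≤ ε * K m := by nlinarith
    nlinarith
  have h5 : T₀ ≤ ε / 4 * N := by
    have : (N₁ : ℝ) + 1 ≤ N := by exact_mod_cast hN1
    rw [div_lt_iff₀ hε] at hN₁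
    nlinarith
  have h6 : ((N / I m * I m : ℕ) : ℝ) ≤ N := by exact_mod_cast hr
  rw [Real.dist_eq, sub_zero, abs_div, abs_of_pos hN0, div_lt_iff₀ hN0,
    ← sum_range_add_sum_Ico _ hr]
  refine (abs_add_le _ _).trans_lt ?_
  have : ε / 4 * ((N / I m * I m : ℕ) : ℝ) ≤ ε / 4 * N := by gcongr
  have : 0 < ε * N := by positivity
  linarith

end Tiles

lemma sum_interval (F : ℕ → ℝ) (L n r : ℕ) :
    ∑ t ∈ Ico (r * (n * L)) ((r + 1) * (n * L)), F t =
      ∑ b ∈ Ico (r * n) ((r + 1) * n), ∑ i : Fin L, F (b * L + i) := by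
  rw [← mul_assoc, ← mul_assoc, sum_Ico_blocks _ _ (Nat.mul_le_mul_right _ (Nat.le_succ _))]
  exact sum_congr rfl fun b _ => sum_block F L b

lemma occ_cmp {Λ : Type*} (B : Σ l, Fin l → Λ) {x z : ℕ → Λ} {L s : ℕ}
    (h : ∀ i < L, x (s + i) = z i) :
    |∑ i : Fin L, occ B x (s + i) - ∑ i : Fin L, occ B z i| ≤ B.1 := by
  rw [← sum_sub_distrib]
  refine (abs_sum_le_sum_abs _ _).trans ?_
  have h1 : ∀ i : Fin L, |occ B x (s + i) - occ B z i| ≤ if L < i + B.1 then 1 else 0 := by
    intro i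
    split_ifs with hi
    · have := occ_mem B x (s + i)
      have := occ_mem B z i
      rw [abs_le]; constructor <;> linarith
    · have : occ B x (s + i) = occ B z i := by
        have e : (∀ l : Fin B.1, x (s + i + l) = B.2 l) ↔ ∀ l : Fin B.1, z (i + l) = B.2 l :=
          forall_congr' fun l => by rw [add_assoc, h _ (by omega)]
        unfold occ
        by_cases h1 : ∀ l : Fin B.1, z (i + l) = B.2 l
        · rw [if_pos h1, if_pos (e.2 h1)]
        · rw [if_neg h1, if_neg fun h2 => h1 (e.1 h2)]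
      simp [this]
  refine (sum_le_sum fun i _ => h1 i).trans ?_
  rw [Fin.sum_univ_eq_sum_range (fun i => if L < i + B.1 then (1 : ℝ) else 0), sum_boole]
  have : #{i ∈ range L | L < i + B.1} ≤ B.1 := by
    refine (card_le_card (t := Ico (L - B.1) L) fun i hi => ?_).trans (by rw [Nat.card_Ico]; omega)
    simp only [mem_filter, mem_range, mem_Ico] at hi ⊢
    omega
  exact_mod_cast this

lemma sqrt_bd {n m : ℕ} (h : (m + 1) ^ 3 ≤ n) : √((n : ℝ) * (m + 1)) ≤ n / (m + 1) := by
  have h' : ((m : ℝ) + 1) ^ 3 ≤ n := by exact_mod_cast h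
  refine Real.sqrt_le_iff.2 ⟨by positivity, ?_⟩
  rw [div_pow, le_div_iff₀ (by positivity)]
  nlinarith [Nat.cast_nonneg (α := ℝ) n]

variable {Λ : Type*} [Countable Λ] [MeasurableSpace Λ] [DiscreteMeasurableSpace Λ]

open Classical in
theorem construct {μ : Measure (ℕ → Λ)} [IsProbabilityMeasure μ]
    (hT : MeasurePreserving shift μ μ) (a : Λ) {σ : ℝ} (hσ0 : 0 < σ)
    (hσ : ∀ (L : ℕ) (i : Fin L), σ ≤ ∑ u, law μ (word (letter a) shift L) u *
      md (ef L) (law μ (word (letter a) shift L)) i u ^ 2)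
    (y : ℕ → Bool) {c : ℝ} (hc : 0 < c) {K₁ : ℕ}
    (hst : ∀ K ≥ K₁, ∃ L₁ : ℕ, ∀ L ≥ L₁, ∀ d > 0, ∀ n₀ : ℕ, ∃ n ≥ n₀,
      d ∣ n ∧ c * (K ^ 2 * n * L) ≤ ∑ r ∈ Ico K (K ^ 2), var y L n r) :
    ∃ x, Generic μ x ∧ ∃ δ : ℝ, 0 < δ ∧ ∃ᶠ N : ℕ in atTop, δ * N ≤
      ∑ t ∈ range N, ((if x t = a then 1 else 0) - μ.real {z | z 0 = a}) * bit (y t) := by
  have : Nonempty (Σ l, Fin l → Λ) := ⟨⟨0, Fin.elim0⟩⟩
  obtain ⟨e, he⟩ := exists_surjective_nat (Σ l, Fin l → Λ)
  let K : ℕ → ℕ := fun m => K₁ + m + 2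
  choose L₁ hL₁ using fun m => hst (K m) (by simp only [K]; omega)
  let L : ℕ → ℕ := fun m => L₁ m + (m + 1) * (∑ j ∈ range m, (e j).1) + 1
  have hL0 : ∀ m, 0 < L m := fun m => Nat.succ_pos _
  choose nn hn1 hn2 hn3 using fun m d => hL₁ m (L m) (by simp only [L]; omega) (max d 1)
    (lt_max_of_lt_right one_pos) ((m + 1) ^ 3 + K m ^ 2 * d)
  let D : ℕ → ℕ := fun m => Nat.rec 1 (fun m d => nn m d * L m) m
  let n : ℕ → ℕ := fun m => nn m (D m)
  have hD : ∀ m, D (m + 1) = n m * L m := fun m => rfl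
  have hn3' : ∀ m, (m + 1) ^ 3 ≤ n m := fun m => (Nat.le_add_right _ _).trans (hn1 m (D m))
  have hn0 : ∀ m, 0 < n m := fun m => lt_of_lt_of_le (by positivity) (hn3' m)
  have htile : Tiles K fun m => n m * L m := by
    refine ⟨fun m => Nat.mul_pos (hn0 m) (hL0 m), fun m => by simp only [K]; omega,
      fun m => ?_, fun m => ?_⟩
    · have := hn2 (m + 1) (D (m + 1))
      rw [max_eq_left (Nat.mul_pos (hn0 m) (hL0 m)), hD] at this
      exact this.mul_right _
    · have h1 : K (m + 1) ^ 2 * (n m * L m) ≤ n (m + 1) :=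
        (Nat.le_add_left _ _).trans (hn1 (m + 1) (D (m + 1)))
      have h2 : K m ≤ K (m + 1) := by simp only [K]; omega
      calc K m ^ 2 * (n m * L m) ≤ K (m + 1) ^ 2 * (n m * L m) := by gcongr
        _ ≤ n (m + 1) := h1
        _ ≤ n (m + 1) * L (m + 1) := Nat.le_mul_of_pos_right _ (hL0 _)
        _ ≤ _ := Nat.le_mul_of_pos_left _ (by simp only [K]; omega)
  choose z hz1 hz2 using fun m r =>
    interval hT a hσ y (fun j : Fin m => e j) (L m) (hn0 m) r
  let lev : ℕ → ℕ := fun t => Nat.findGreatest (fun m => K m * (n m * L m) ≤ t) t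
  let x : ℕ → Λ := fun t => z (lev t) (t / (n (lev t) * L (lev t))) (t / L (lev t)) (t % L (lev t))
  have hx : ∀ m r, K m ≤ r → (r + 1) * (n m * L m) ≤ K (m + 1) * (n (m + 1) * L (m + 1)) →
      ∀ b ∈ Ico (r * n m) ((r + 1) * n m), ∀ i < L m, x (b * L m + i) = z m r b i := by
    intro m r hr1 hr2 b hb i hi
    have hb' := mem_Ico.1 hb
    have h1 : r * (n m * L m) ≤ b * L m + i := by
      rw [← mul_assoc]; exact (Nat.mul_le_mul_right _ hb'.1).trans (Nat.le_add_right _ _)
    have h2 : b * L m + i < (r + 1) * (n m * L m) := by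
      rw [← mul_assoc]
      calc b * L m + i < (b + 1) * L m := by rw [add_mul, one_mul]; omega
        _ ≤ _ := Nat.mul_le_mul_right _ hb'.2
    have h3 : lev (b * L m + i) = m :=
      htile.lev_eq ((Nat.mul_le_mul_right _ hr1).trans h1) (h2.trans_le hr2)
    simp only [x, h3]
    rw [div_of_mem (mem_Ico.2 ⟨h1, h2⟩), Nat.mul_add_mod', Nat.mod_eq_of_lt hi,
      div_of_mem (r := b) (mem_Ico.2 ⟨Nat.le_add_right _ _, by rw [add_mul, one_mul]; omega⟩)]
  have herr : ∀ m, (L m : ℝ) * √(n m * (m + 1)) ≤ n m * L m / (m + 1) := fun m => by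
    calc _ ≤ (L m : ℝ) * (n m / (m + 1)) := by gcongr; exact sqrt_bd (hn3' m)
      _ = _ := by ring
  refine ⟨x, fun l B => ?_, σ * c / 4, by positivity, ?_⟩
  · obtain ⟨j, hj⟩ := he ⟨l, B⟩
    have hm : 0 ≤ mB μ (e j) ∧ mB μ (e j) ≤ 1 := ⟨measureReal_nonneg, measureReal_le_one⟩
    have h1 := htile.tendsto (f := fun t => occ (e j) x t - mB μ (e j))
      (fun t => by
        have := occ_mem (e j) x t
        rw [abs_le]; constructor <;> linarith [hm.1, hm.2])
      (fun η hη => by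
        obtain ⟨m₁, hm₁⟩ := exists_nat_gt (2 / η)
        refine ⟨max m₁ (j + 1), fun m hm r hr1 hr2 => ?_⟩
        have hjm : j < m := (le_max_right _ _).trans hm
        have h2 := hz1 m r ⟨j, hjm⟩
        have h3 : |∑ b ∈ Ico (r * n m) ((r + 1) * n m), (∑ i : Fin (L m), occ (e j) x (b * L m + i)
            - ∑ i : Fin (L m), occ (e j) (z m r b) i)| ≤ n m * (e j).1 := by
          refine (abs_sum_le_sum_abs _ _).trans ?_
          have := sum_le_card_nsmul _ _ _ fun b hb => occ_cmp (e j) (hx m r hr1 hr2 b hb)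
          simpa [add_mul] using this
        have h4 : ((m : ℝ) + 1) * (e j).1 ≤ L m := by
          have : (e j).1 ≤ ∑ j ∈ range m, (e j).1 :=
            single_le_sum (f := fun j => (e j).1) (fun _ _ => Nat.zero_le _) (mem_range.2 hjm)
          have : (m + 1) * (e j).1 ≤ L m := by
            have := Nat.mul_le_mul_left (m + 1) this
            simp only [L]; omega
          exact_mod_cast this
        have h5 : (n m : ℝ) * (e j).1 ≤ n m * L m / (m + 1) := by
          rw [mul_div_assoc]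
          gcongr
          rw [le_div_iff₀ (by positivity)]; linarith
        have h6 : 2 * ((n m : ℝ) * L m / (m + 1)) ≤ η * (n m * L m) := by
          have : (m₁ : ℝ) ≤ m := by exact_mod_cast (le_max_left _ _).trans hm
          rw [div_lt_iff₀ hη] at hm₁
          rw [← mul_div_assoc, div_le_iff₀ (by positivity)]
          have h7 : 2 ≤ η * (m + 1) := by nlinarith
          have h8 : (0 : ℝ) ≤ n m * L m := by positivity
          nlinarith
        rw [sum_interval]
        simp only [sum_sub_distrib, sum_const, card_univ, Fintype.card_fin, nsmul_eq_mul,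
          Nat.card_Ico, add_mul, one_mul, Nat.add_sub_cancel_left] at h2 h3 ⊢
        have h9 := herr m
        push_cast
        rw [abs_le] at h2 h3 ⊢
        constructor <;> linarith [h2.1, h2.2, h3.1, h3.2])
    rw [hj] at h1
    have h2 := h1.add_const (mB μ ⟨l, B⟩)
    rw [zero_add] at h2
    refine h2.congr' ?_
    filter_upwards [eventually_gt_atTop 0] with N hN
    have : (N : ℝ) ≠ 0 := by exact_mod_cast hN.ne'
    simp only [freq, occ, sum_sub_distrib, sum_boole, sum_const, card_range, nsmul_eq_mul]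
    field_simp
    ring
  · rw [frequently_atTop]
    intro N₀
    obtain ⟨m₁, hm₁⟩ := exists_nat_gt (8 / (σ * c))
    set m := max m₁ N₀
    have hKK : K m ≤ K m ^ 2 := Nat.le_self_pow two_ne_zero _
    have hle : K m * (n m * L m) ≤ K m ^ 2 * (n m * L m) := Nat.mul_le_mul_right _ hKK
    refine ⟨K m ^ 2 * (n m * L m),
      ((le_max_right _ _).trans (htile.mono.id_le m)).trans hle, ?_⟩
    set μa := μ.real {z | z 0 = a}
    have hμa : 0 ≤ μa ∧ μa ≤ 1 := ⟨measureReal_nonneg, measureReal_le_one⟩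
    set g : ℕ → ℝ := fun t => ((if x t = a then 1 else 0) - μa) * bit (y t) with hg
    have h1 : -((K m * (n m * L m) : ℕ) : ℝ) ≤ ∑ t ∈ range (K m * (n m * L m)), g t := by
      have := card_nsmul_le_sum (range (K m * (n m * L m))) g (-1) fun t _ => by
        have := bit_nonneg (y t)
        have := bit_le (y t)
        simp only [hg]
        split_ifs <;> nlinarith [hμa.1, hμa.2]
      simpa using this
    have h2 : ∀ r ∈ Ico (K m) (K m ^ 2), σ / 2 * var y (L m) (n m) r - n m * L m / (m + 1) ≤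
        ∑ t ∈ Ico (r * (n m * L m)) ((r + 1) * (n m * L m)), g t := by
      intro r hr
      have hr' := mem_Ico.1 hr
      have h3 := hz2 m r
      have h4 := hx m r hr'.1 ((Nat.mul_le_mul_right _ hr'.2).trans (htile.grow m))
      rw [sum_interval]
      have h5 : ∀ b ∈ Ico (r * n m) ((r + 1) * n m), ∑ i : Fin (L m), g (b * L m + i) =
          ∑ i, bit (word (letter a) shift (L m) (z m r b) i) * bit (blk y (L m) b i) -
            μa * ∑ i, bit (blk y (L m) b i) := fun b hb => by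
        rw [mul_sum, ← sum_sub_distrib]
        refine sum_congr rfl fun i _ => ?_
        have e1 : shift^[i] (z m r b) 0 = z m r b i := by rw [shift_iter, zero_add]
        simp only [hg, h4 b hb i i.2, word, letter, e1, blk]
        by_cases hza : z m r b i = a <;> simp [hza, bit] <;> split_ifs <;> simp
      rw [sum_congr rfl h5, sum_sub_distrib, ← mul_sum]
      linarith [herr m]
    have h6 := sum_le_sum h2
    rw [← sum_Ico_blocks g _ hKK, sum_sub_distrib, ← mul_sum] at h6
    have h7 := hn3 m (D m)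
    rw [← sum_range_add_sum_Ico _ hle]
    simp only [sum_const, Nat.card_Ico, nsmul_eq_mul, Nat.cast_sub hKK] at h6
    push_cast at h1 h6 ⊢
    have hm' : (m₁ : ℝ) ≤ m := by exact_mod_cast le_max_left _ _
    have hKm : (m : ℝ) + 2 ≤ K m := by exact_mod_cast htile.big m
    have hσc : 0 < σ * c := by positivity
    rw [div_lt_iff₀ hσc] at hm₁
    set I : ℝ := n m * L m with hI
    have hI0 : 0 ≤ I := by positivity
    have hm0 : (0 : ℝ) ≤ m := Nat.cast_nonneg m
    have a1 : K m * I ≤ σ * c / 8 * (K m ^ 2 * I) := by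
      have : 8 ≤ σ * c * K m := by nlinarith
      have : 0 ≤ K m * I := by positivity
      nlinarith
    have a2 : ((K m : ℝ) ^ 2 - K m) * (I / (m + 1)) ≤ σ * c / 8 * (K m ^ 2 * I) := by
      have b1 : I / (m + 1) ≤ σ * c / 8 * I := by
        rw [div_le_iff₀ (by positivity)]
        have : 8 ≤ σ * c * (m + 1) := by nlinarith
        nlinarith
      have b2 : 0 ≤ I / (m + 1) := by positivity
      calc _ ≤ (K m : ℝ) ^ 2 * (I / (m + 1)) := by gcongr; linarith
        _ ≤ (K m : ℝ) ^ 2 * (σ * c / 8 * I) := by gcongr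
        _ = _ := by ring
    have a3 : σ / 2 * (c * (K m ^ 2 * I)) ≤ σ / 2 * ∑ r ∈ Ico (K m) (K m ^ 2),
        var y (L m) (n m) r := by
      gcongr
      rw [hI, ← mul_assoc ((K m : ℝ) ^ 2)]
      exact h7
    linarith

open Classical in
lemma along_sum {Λ : Type*} (x : ℕ → Λ) (a : Λ) (S : Set ℕ) (N : ℕ) (r : ℝ) :
    ∑ t ∈ range N, ((if x t = a then 1 else 0) - r) * bit (ind S t) =
      #{j ∈ range (Nat.count (· ∈ S) N) | along x S j = a} - r * Nat.count (· ∈ S) N := by
  induction N with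
  | zero => simp
  | succ N ih =>
    rw [sum_range_succ, ih, Nat.count_succ]
    by_cases hN : N ∈ S
    · have : along x S (Nat.count (· ∈ S) N) = x N := by
        simp only [along]; rw [Nat.nth_count (p := (· ∈ S)) hN]
      rw [if_pos hN, ← sum_boole, ← sum_boole, sum_range_succ, this]
      simp only [ind, hN, decide_true, bit, if_true]
      push_cast
      ring
    · simp [ind, hN, bit]

theorem main (μ : Measure (ℕ → Λ)) [IsProbabilityMeasure μ] (hT : MeasurePreserving shift μ μ)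
    (hent : 0 < ksEntropy μ shift) (S : Set ℕ) (hS : S.Infinite) (hnd : ¬ Deterministic S) :
    ∃ x, Generic μ x ∧ ¬ SimplyNormal μ (along x S) := by
  classical
  obtain ⟨a, ha⟩ : ∃ a, ¬ Compress μ shift (letter a) := by
    by_contra h
    push Not at h
    exact absurd (ks_nonpos μ hT h) (not_le.2 hent)
  obtain ⟨σ, hσ0, hσ⟩ := unpred hT (letter_meas a) ha
  unfold Deterministic at hnd
  push Not at hnd
  obtain ⟨ν, ⟨hν, hνT, N, hN, hlim⟩, hν0⟩ := hnd
  have hnc : ¬ Compress ν shift (letter true) := fun h => by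
    refine hν0 (le_antisymm (ks_nonpos ν hνT fun b => ?_) (ks_nonneg ν shift))
    cases b
    · have e : letter false = fun x : ℕ → Bool => !letter true x := by
        funext x; simp only [letter]; cases x 0 <;> simp
      rw [e]; exact h.not
    · exact h
  obtain ⟨c, hc, K₁, hst⟩ := stage (ind S) ν hN hlim hnc
  obtain ⟨x, hx, δ, hδ, hfr⟩ := construct hT a hσ0 hσ (ind S) hc hst
  refine ⟨x, hx, fun hsn => ?_⟩
  have hcount : Tendsto (Nat.count (· ∈ S)) atTop atTop :=
    tendsto_atTop_atTop_of_monotone (Nat.count_monotone _) fun b =>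
      ⟨Nat.nth (· ∈ S) b, (Nat.count_nth_of_infinite hS b).ge⟩
  have h1 := ((hsn a).comp hcount).eventually (gt_mem_nhds (lt_add_of_pos_right _ hδ))
  obtain ⟨M, hM1, hM2, hM3⟩ := (hfr.and_eventually (h1.and (hcount.eventually_gt_atTop 0))).exists
  rw [along_sum] at hM1
  simp only [Function.comp, freq] at hM2
  have h2 : (0 : ℝ) < Nat.count (· ∈ S) M := by exact_mod_cast hM3
  have h3 : (Nat.count (· ∈ S) M : ℝ) ≤ M := by exact_mod_cast Nat.count_le (· ∈ S)
  rw [div_lt_iff₀ h2] at hM2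
  have h4 := mul_le_mul_of_nonneg_left h3 hδ.le
  linarith

end Pool.Agent.H90.Norm
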