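import Mathlib
import Pool.Agent.H90.GqDefs

namespace Pool.Agent.H90.Gq

variable {𝕜 : Type} [RCLike 𝕜] {X : Type} [NormedAddCommGroup X] [NormedSpace 𝕜 X]

/-- nearly unconditional -/
def NU (e : ℕ → X) (f : ℕ → X →L[𝕜] 𝕜) : Prop :=
  ∀ a : ℝ, 0 < a → a ≤ 1 → ∃ C : ℝ, ∀ (x : X) (A : Finset ℕ), (∀ n, ‖f n x‖ ≤ 1) →
    (∀ n ∈ A, a ≤ ‖f n x‖) → ‖∑ n ∈ A, f n x • e n‖ ≤ C * ‖x‖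

/-- `L`-quasi-greedy for largest coefficients, measured in `N` -/
def QGLC (N : X → ℝ) (e : ℕ → X) (f : ℕ → X →L[𝕜] 𝕜) (L : ℝ) : Prop :=
  ∀ (A : Finset ℕ) (ε : ℕ → 𝕜) (x : X), (∀ n ∈ A, ‖ε n‖ = 1) → (∀ n, ‖f n x‖ ≤ 1) →
    (∀ n ∈ A, f n x = 0) → N (∑ n ∈ A, ε n • e n) ≤ L * N (∑ n ∈ A, ε n • e n + x)

/-- `N` is equivalent to the norm of `X` -/
def EquivNorm (N : Seminorm 𝕜 X) : Prop :=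
  ∃ c d : ℝ, 0 < c ∧ ∀ x, c * ‖x‖ ≤ N x ∧ N x ≤ d * ‖x‖

end Pool.Agent.H90.Gq
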