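import Pool.Agent.H90.GqD
import Pool.Agent.H90.NqDefs

set_option linter.unusedSectionVars false

open Finset Filter Topology

namespace Pool.Agent.H90.Gq

variable {𝕜 : Type} [RCLike 𝕜] {X : Type} [NormedAddCommGroup X] [NormedSpace 𝕜 X]

def BB (M K : ℕ) : Finset ℕ := (Ico 1 (M ^ (K + 1))).image (Nat.pair K)
def bl (i : ℕ) : ℕ := (Nat.unpair i).1
def lv (M i : ℕ) : ℕ := Nat.log M (Nat.unpair i).2

theorem pair_inj (K : ℕ) : Function.Injective (Nat.pair K) := fun a b h => (Nat.pair_eq_pair.1 h).2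

theorem bl_eq {M K i : ℕ} (h : i ∈ BB M K) : bl i = K := by
  obtain ⟨t, -, rfl⟩ := mem_image.1 h
  simp [bl]

theorem card_le_lv {M : ℕ} (hM : 2 ≤ M) (K j : ℕ) :
    ((BB M K).filter fun i => lv M i ≤ j).card ≤ M ^ (j + 1) := by
  have : ((BB M K).filter fun i => lv M i ≤ j) ⊆ (range (M ^ (j + 1))).image (Nat.pair K) := by
    intro i hi
    obtain ⟨h1, h2⟩ := mem_filter.1 hi
    obtain ⟨t, -, rfl⟩ := mem_image.1 h1
    refine mem_image.2 ⟨t, mem_range.2 ?_, rfl⟩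
    simp only [lv, Nat.unpair_pair] at h2
    exact (Nat.lt_pow_succ_log_self (by omega) t).trans_le (Nat.pow_le_pow_right (by omega) (by omega))
  exact (card_le_card this).trans (card_image_le.trans (card_range _).le)

theorem lv_le {M : ℕ} (hM : 2 ≤ M) {K i : ℕ} (h : i ∈ BB M K) : lv M i ≤ K := by
  obtain ⟨t, ht, rfl⟩ := mem_image.1 h
  simp only [lv, Nat.unpair_pair]
  have := (Nat.log_lt_iff_lt_pow (b := M) (by omega) (by have := (mem_Ico.1 ht).1; omega)).2 (mem_Ico.1 ht).2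
  omega

theorem card_ge_lv {M : ℕ} (hM : 2 ≤ M) {K k : ℕ} (hk : k ≤ K) :
    M ^ k ≤ ((BB M K).filter fun i => lv M i = k).card := by
  have : (Ico (M ^ k) (M ^ (k + 1))).image (Nat.pair K) ⊆ (BB M K).filter fun i => lv M i = k := by
    intro i hi
    obtain ⟨t, ht, rfl⟩ := mem_image.1 hi
    obtain ⟨h1, h2⟩ := mem_Ico.1 ht
    have h0 : 0 < M ^ k := by positivity
    refine mem_filter.2 ⟨mem_image.2 ⟨t, mem_Ico.2 ⟨by omega,
      h2.trans_le (Nat.pow_le_pow_right (by omega) (by omega))⟩, rfl⟩, ?_⟩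
    simp only [lv, Nat.unpair_pair]
    exact Nat.log_eq_of_pow_le_of_lt_pow h1 h2
  refine le_trans ?_ (card_le_card this)
  rw [card_image_of_injective _ (pair_inj K), Nat.card_Ico, pow_succ]
  have := Nat.mul_le_mul_left (M ^ k) hM
  omega

noncomputable def wt (M i : ℕ) : ℝ := if i ∈ BB M (bl i) then (1 / 2) ^ lv M i else 0

theorem wt_mem {M K i : ℕ} (h : i ∈ BB M K) : wt M i = (1 / 2) ^ lv M i := by
  rw [wt, bl_eq h, if_pos h]

theorem wt_bd (M i : ℕ) : 0 ≤ wt M i ∧ wt M i ≤ 1 := by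
  unfold wt; split_ifs
  · exact ⟨by positivity, pow_le_one₀ (by norm_num) (by norm_num)⟩
  · simp

noncomputable def SS (M K : ℕ) : ℝ := ∑ j ∈ BB M K, wt M j

theorem SS_nn (M K : ℕ) : 0 ≤ SS M K := sum_nonneg fun j _ => (wt_bd M j).1

structure L1 (δ : ℕ → X) (ev : ℕ → X →L[𝕜] 𝕜) : Prop where
  dense : Dense (Submodule.span 𝕜 (Set.range δ) : Set X)
  bi : ∀ i j, ev i (δ j) = if i = j then 1 else 0
  n1 : ∀ i, ‖δ i‖ ≤ 1
  n2 : ∀ (s : Finset ℕ) y, ∑ i ∈ s, ‖ev i y‖ ≤ ‖y‖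

variable (M : ℕ) (δ : ℕ → X) (ev : ℕ → X →L[𝕜] 𝕜)

noncomputable def VV (𝕜 : Type) [RCLike 𝕜] [NormedSpace 𝕜 X] (M : ℕ) (δ : ℕ → X) (K : ℕ) : X :=
  (((1 + SS M K)⁻¹ : ℝ) : 𝕜) • ∑ j ∈ BB M K, ((wt M j : ℝ) : 𝕜) • δ j

noncomputable def ee (𝕜 : Type) [RCLike 𝕜] [NormedSpace 𝕜 X] (M : ℕ) (δ : ℕ → X) (i : ℕ) : X :=
  if i ∈ BB M (bl i) then δ i - VV 𝕜 M δ (bl i) else δ i

noncomputable def gg (K : ℕ) : X →L[𝕜] 𝕜 := ∑ j ∈ BB M K, ev j

noncomputable def ff (i : ℕ) : X →L[𝕜] 𝕜 := ev i + ((wt M i : ℝ) : 𝕜) • gg M ev (bl i)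

variable {M δ ev}

theorem ff_apply (i : ℕ) (y : X) : ff M ev i y = ev i y + ((wt M i : ℝ) : 𝕜) * gg M ev (bl i) y := rfl

theorem ee_mem {K i : ℕ} (h : i ∈ BB M K) : ee 𝕜 M δ i = δ i - VV 𝕜 M δ K := by
  rw [ee, bl_eq h, if_pos h]

theorem L1.ev_V (h : L1 δ ev) (K i : ℕ) : ev i (VV 𝕜 M δ K) =
    if i ∈ BB M K then (((1 + SS M K)⁻¹ * wt M i : ℝ) : 𝕜) else 0 := by
  simp only [VV, map_smul, map_sum, h.bi, smul_eq_mul, mul_ite, mul_one, mul_zero, sum_ite_eq]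
  split_ifs <;> simp

theorem L1.g_d (h : L1 δ ev) (K j : ℕ) : gg M ev K (δ j) = if j ∈ BB M K then 1 else 0 := by
  simp only [gg, ContinuousLinearMap.sum_apply, h.bi, sum_ite_eq']

theorem L1.g_V (h : L1 δ ev) (K K' : ℕ) : gg M ev K (VV 𝕜 M δ K') =
    if K = K' then (((1 + SS M K)⁻¹ * SS M K : ℝ) : 𝕜) else 0 := by
  simp only [gg, ContinuousLinearMap.sum_apply, h.ev_V]
  split_ifs with hK
  · subst hK
    rw [sum_congr rfl fun i hi => if_pos hi, SS, mul_sum]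
    push_cast; rfl
  · exact sum_eq_zero fun i hi => if_neg fun hh => hK ((bl_eq hi).symm.trans (bl_eq hh))

theorem L1.g_le (h : L1 δ ev) (K : ℕ) (y : X) : ‖gg M ev K y‖ ≤ ∑ j ∈ BB M K, ‖ev j y‖ := by
  rw [gg, ContinuousLinearMap.sum_apply]; exact norm_sum_le _ _

theorem L1.V_le (h : L1 δ ev) (K : ℕ) : ‖VV 𝕜 M δ K‖ ≤ 1 := by
  have h0 := SS_nn M K
  rw [VV, norm_smul, RCLike.norm_ofReal, abs_of_nonneg (by positivity), inv_mul_le_iff₀ (by positivity)]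
  refine (norm_sum_le _ _).trans ?_
  have : ∑ j ∈ BB M K, ‖((wt M j : ℝ) : 𝕜) • δ j‖ ≤ SS M K := sum_le_sum fun j _ => by
    rw [norm_smul, RCLike.norm_ofReal, abs_of_nonneg (wt_bd M j).1]
    exact mul_le_of_le_one_right (wt_bd M j).1 (h.n1 j)
  linarith

theorem sum_ee (K : ℕ) : ∑ j ∈ BB M K, ((wt M j : ℝ) : 𝕜) • ee 𝕜 M δ j = VV 𝕜 M δ K := by
  have h0 := SS_nn M K
  rw [sum_congr rfl fun j hj => by rw [ee_mem hj, smul_sub], sum_sub_distrib, ← sum_smul,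
    ← RCLike.ofReal_sum]
  change _ - ((SS M K : ℝ) : 𝕜) • _ = _
  have : (1 + (SS M K : 𝕜)) ≠ 0 := by exact_mod_cast (by positivity : (1 + SS M K) ≠ 0)
  rw [VV, smul_smul, sub_eq_iff_eq_add, ← add_smul]
  have e : (((1 + SS M K)⁻¹ : ℝ) : 𝕜) + (SS M K : 𝕜) * (((1 + SS M K)⁻¹ : ℝ) : 𝕜) = 1 := by
    push_cast; field_simp
  rw [e, one_smul]

theorem L1.e_le (h : L1 δ ev) (i : ℕ) : ‖ee 𝕜 M δ i‖ ≤ 2 := by
  have := h.n1 i
  have := h.V_le (M := M) (bl i)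
  unfold ee; split_ifs
  · exact (norm_sub_le _ _).trans (by linarith)
  · linarith

theorem L1.basis (h : L1 δ ev) : IsBasis (ee 𝕜 M δ) (ff M ev) := by
  refine ⟨h.dense.mono (Submodule.span_le.2 ?_), fun i j => ?_, 2, fun n => ⟨h.e_le n, ?_⟩⟩
  · rintro _ ⟨i, rfl⟩
    by_cases hi : i ∈ BB M (bl i)
    · have : δ i = ee 𝕜 M δ i + VV 𝕜 M δ (bl i) := by rw [ee_mem hi]; abel
      rw [this, ← sum_ee]
      exact add_mem (Submodule.subset_span ⟨i, rfl⟩) (Submodule.sum_mem _ fun j _ =>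
        Submodule.smul_mem _ _ (Submodule.subset_span ⟨j, rfl⟩))
    · exact Submodule.subset_span ⟨i, if_neg hi⟩
  · rw [ff_apply]
    by_cases hj : j ∈ BB M (bl j)
    · rw [ee_mem hj, map_sub, map_sub, h.bi, h.ev_V, h.g_d, h.g_V]
      have h0 := SS_nn M (bl j)
      have : (1 + (SS M (bl j) : 𝕜)) ≠ 0 := by exact_mod_cast (by positivity : (1 + SS M (bl j)) ≠ 0)
      by_cases hi : i ∈ BB M (bl j)
      · rw [if_pos hi, bl_eq hi, if_pos hj, if_pos rfl]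
        push_cast; field_simp; ring
      · rw [if_neg hi]
        by_cases hb : bl i = bl j
        · have : wt M i = 0 := by rw [wt, hb, if_neg hi]
          simp [this]
        · rw [if_neg hb, if_neg fun hh => hb (bl_eq hh).symm]; simp
    · have : ee 𝕜 M δ j = δ j := if_neg hj
      rw [this, h.bi, h.g_d, if_neg (show j ∉ BB M (bl i) from fun hh => hj (bl_eq hh ▸ hh))]; simp
  · refine ContinuousLinearMap.opNorm_le_bound _ (by norm_num) fun y => ?_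
    rw [ff_apply]
    refine (norm_add_le _ _).trans ?_
    have a1 := h.n2 {n} y
    rw [sum_singleton] at a1
    have a2 := (h.g_le (M := M) (bl n) y).trans (h.n2 _ y)
    rw [norm_mul, RCLike.norm_ofReal, abs_of_nonneg (wt_bd M n).1]
    have := mul_le_of_le_one_left (norm_nonneg (gg M ev (bl n) y)) (wt_bd M n).2
    linarith

theorem L1.count (h : L1 δ ev) (hM : 2 ≤ M) (a : ℝ) (ha : 0 < a) (r : ℕ) (hr : 4 ≤ a * 2 ^ r)
    (y : X) (hy : ∀ n, ‖ff M ev n y‖ ≤ 1) (K : ℕ) :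
    (((BB M K).filter fun i => a / 2 ≤ wt M i * ‖gg M ev K y‖).card : ℝ) ≤
      M ^ (r + 1) * (1 + 2 / a) * ∑ j ∈ BB M K, ‖ev j y‖ := by
  set n := ∑ j ∈ BB M K, ‖ev j y‖ with hn
  have hn0 : 0 ≤ n := sum_nonneg fun _ _ => norm_nonneg _
  set c := ‖gg M ev K y‖ with hc
  have hcn : c ≤ n := h.g_le K y
  have hc0 : 0 ≤ c := norm_nonneg _
  have hM1 : (1 : ℝ) ≤ M := by exact_mod_cast (by omega : 1 ≤ M)
  rcases ((BB M K).filter fun i => a / 2 ≤ wt M i * c).eq_empty_or_nonempty with h0 | hne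
  · rw [h0, card_empty, Nat.cast_zero]; positivity
  obtain ⟨i0, hi0, hmax⟩ := exists_max_image _ (lv M) hne
  obtain ⟨b1, b2⟩ := mem_filter.1 hi0
  set j := lv M i0 with hj
  have c1 : (((BB M K).filter fun i => a / 2 ≤ wt M i * c).card : ℝ) ≤ M ^ (j + 1) := by
    have := (card_le_card (fun i hi => mem_filter.2 ⟨(mem_filter.1 hi).1, hmax i hi⟩)).trans
      (card_le_lv hM K j)
    exact_mod_cast this
  refine c1.trans ?_
  have p1 : 0 ≤ (M : ℝ) ^ (r + 1) * n := by positivity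
  have p2 : 0 ≤ (M : ℝ) ^ (r + 1) * (2 / a * n) := by positivity
  by_cases hjr : j ≤ r
  · have q1 : 1 ≤ 2 / a * n := by
      have := mul_le_of_le_one_left hc0 (wt_bd M i0).2
      rw [div_mul_eq_mul_div, le_div_iff₀ ha]; linarith
    have q2 : (M : ℝ) ^ (j + 1) ≤ M ^ (r + 1) := pow_le_pow_right₀ hM1 (by omega)
    have q3 : (M : ℝ) ^ (r + 1) ≤ M ^ (r + 1) * (2 / a * n) := le_mul_of_one_le_right (by positivity) q1
    nlinarith
  · obtain ⟨k, hk⟩ : ∃ k, j = k + r := ⟨j - r, by omega⟩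
    have q1 : (M : ℝ) ^ k ≤ n := by
      have s1 : (M : ℝ) ^ k ≤ ((BB M K).filter fun i => lv M i = k).card := by
        exact_mod_cast card_ge_lv hM (by have := lv_le hM b1; omega)
      have s2 := card_nsmul_le_sum ((BB M K).filter fun i => lv M i = k) (fun i => ‖ev i y‖) 1
        fun i hi => by
          obtain ⟨d1, d2⟩ := mem_filter.1 hi
          have e1 := hy i
          rw [ff_apply, bl_eq d1, add_comm] at e1
          have e2 := norm_sub_le (((wt M i : ℝ) : 𝕜) * gg M ev K y + ev i y) (ev i y)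
          rw [add_sub_cancel_right, norm_mul, RCLike.norm_ofReal, abs_of_nonneg (wt_bd M i).1,
            wt_mem d1, d2, ← hc] at e2
          rw [wt_mem d1, d2] at e1
          rw [wt_mem b1, ← hj, hk, pow_add] at b2
          have e3 : (1 / 2 : ℝ) ^ r * 2 ^ r = 1 := by rw [← mul_pow]; norm_num
          have e4 : a / 2 * 2 ^ r ≤ (1 / 2) ^ k * (1 / 2) ^ r * c * 2 ^ r := by gcongr
          have e5 : (1 / 2 : ℝ) ^ k * (1 / 2) ^ r * c * 2 ^ r = (1 / 2) ^ k * c := by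
            linear_combination (1 / 2 : ℝ) ^ k * c * e3
          linarith
      rw [nsmul_eq_mul, mul_one] at s2
      exact s1.trans (s2.trans (sum_le_sum_of_subset_of_nonneg (filter_subset _ _)
        fun _ _ _ => norm_nonneg _))
    have q2 : (M : ℝ) ^ (j + 1) = M ^ (r + 1) * M ^ k := by rw [hk]; ring
    have q3 : (M : ℝ) ^ (r + 1) * M ^ k ≤ M ^ (r + 1) * n := by gcongr
    nlinarith

theorem L1.nu (h : L1 δ ev) (hM : 2 ≤ M) : NU (ee 𝕜 M δ) (ff M ev) := by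
  intro a ha _
  obtain ⟨r, hr⟩ := pow_unbounded_of_one_lt (4 / a) (one_lt_two (α := ℝ))
  rw [div_lt_iff₀ ha, mul_comm] at hr
  set D : ℝ := M ^ (r + 1) * (1 + 2 / a) with hD
  have hD0 : 0 ≤ D := by positivity
  refine ⟨(2 / a + D) * 2, fun y A hy hA => ?_⟩
  have n1 := fs_norm_le (h.e_le (M := M)) (fun n => ff M ev n y) A 1 fun i _ => hy i
  refine n1.trans ?_
  set A1 := A.filter fun i => a / 2 ≤ ‖ev i y‖ with hA1
  set T := A.image bl with hT
  have c1 : (A1.card : ℝ) ≤ 2 / a * ‖y‖ := by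
    have := (card_nsmul_le_sum A1 (fun i => ‖ev i y‖) (a / 2) fun i hi => (mem_filter.1 hi).2).trans
      (h.n2 A1 y)
    rw [nsmul_eq_mul] at this
    rw [div_mul_eq_mul_div, le_div_iff₀ ha]; linarith
  have sub : A ⊆ A1 ∪ T.biUnion fun K => (BB M K).filter fun i => a / 2 ≤ wt M i * ‖gg M ev K y‖ := by
    intro i hi
    by_cases h1 : a / 2 ≤ ‖ev i y‖
    · exact mem_union_left _ (mem_filter.2 ⟨hi, h1⟩)
    have e1 := (hA i hi).trans (norm_add_le _ _)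
    change a ≤ ‖ev i y‖ + ‖((wt M i : ℝ) : 𝕜) * gg M ev (bl i) y‖ at e1
    rw [norm_mul, RCLike.norm_ofReal, abs_of_nonneg (wt_bd M i).1] at e1
    refine mem_union_right _ (mem_biUnion.2 ⟨bl i, mem_image_of_mem _ hi, mem_filter.2 ⟨?_, by linarith⟩⟩)
    by_contra hh
    have : wt M i = 0 := if_neg hh
    rw [this] at e1
    linarith
  have c2 : (A.card : ℝ) ≤ A1.card + ∑ K ∈ T,
      (((BB M K).filter fun i => a / 2 ≤ wt M i * ‖gg M ev K y‖).card : ℝ) := by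
    exact_mod_cast (card_le_card sub).trans ((card_union_le _ _).trans
      (Nat.add_le_add_left card_biUnion_le _))
  have c3 := sum_le_sum (s := T) fun K _ => h.count hM a ha r hr.le y hy K
  rw [← mul_sum, ← sum_biUnion (fun K _ K' _ hK => disjoint_left.2 fun i h1 h2 =>
    hK ((bl_eq h1).symm.trans (bl_eq h2)))] at c3
  have c4 := mul_le_mul_of_nonneg_left (h.n2 (T.biUnion (BB M)) y) hD0
  nlinarith

end Pool.Agent.H90.Gq
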