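import Pool.Agent.H90.NqA

set_option linter.unusedSectionVars false

open Finset Filter Topology

namespace Pool.Agent.H90.Gq

variable {𝕜 : Type} [RCLike 𝕜] {X : Type} [NormedAddCommGroup X] [NormedSpace 𝕜 X]
variable {M : ℕ} {δ : ℕ → X} {ev : ℕ → X →L[𝕜] 𝕜}

theorem L1.notq (h : L1 δ ev) (C : ℝ) (hM : 4 * (1 + max C 0) ≤ M) (N : Seminorm 𝕜 X)
    (hN : EquivNorm N) : ¬QGLC N (ee 𝕜 M δ) (ff M ev) C := by
  intro hq
  obtain ⟨c, d, hc, hcd⟩ := hN
  set L := max C 0 with hL
  have hL0 : 0 ≤ L := le_max_right _ _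
  have hM4 : (4 : ℝ) ≤ M := by linarith
  have hM2 : 2 ≤ M := by exact_mod_cast (by linarith : (2 : ℝ) ≤ M)
  have hb := h.basis (M := M)
  set w : ℕ → 𝕜 := fun i => ((wt M i : ℝ) : 𝕜) with hw
  let U : ℕ → ℕ → X := fun K k => fs (ee 𝕜 M δ) w ((BB M K).filter fun i => k ≤ lv M i)
  have step : ∀ K k, N (U K (k + 1)) ≤ (1 + L) * N (U K k) := by
    intro K k
    set A := (BB M K).filter fun i => lv M i = k with hA
    have h2 : ((2 : 𝕜) ^ k) ≠ 0 := pow_ne_zero _ two_ne_zero
    have e1 : U K k = ((2 : 𝕜) ^ k)⁻¹ • ∑ n ∈ A, (1 : 𝕜) • ee 𝕜 M δ n + U K (k + 1) := by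
      have : ((BB M K).filter fun i => k ≤ lv M i) = A ∪ (BB M K).filter fun i => k + 1 ≤ lv M i := by
        ext i; simp only [hA, mem_union, mem_filter]; constructor
        · rintro ⟨a, b⟩; by_cases hh : lv M i = k
          · exact Or.inl ⟨a, hh⟩
          · exact Or.inr ⟨a, by omega⟩
        · rintro (⟨a, b⟩ | ⟨a, b⟩) <;> exact ⟨a, by omega⟩
      simp only [U, fs]
      rw [this, sum_union (disjoint_left.2 fun i a b => by
        have := (mem_filter.1 a).2; have := (mem_filter.1 b).2; omega), smul_sum]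
      congr 1
      refine sum_congr rfl fun i hi => ?_
      obtain ⟨a, b⟩ := mem_filter.1 hi
      simp only [hw, wt_mem a, b, one_smul]
      congr 1; push_cast; rw [one_div, inv_pow]
    have q := hq A (fun _ => 1) ((2 : 𝕜) ^ k • U K (k + 1)) (fun _ _ => norm_one) (fun n => by
      rw [map_smul, hb.coef]
      split_ifs with hn
      · obtain ⟨a, b⟩ := mem_filter.1 hn
        rw [norm_smul, norm_pow, RCLike.norm_two, hw]
        simp only [wt_mem a]
        rw [RCLike.norm_ofReal, abs_of_nonneg (by positivity)]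
        have : (1 / 2 : ℝ) ^ lv M n ≤ (1 / 2) ^ k :=
          pow_le_pow_of_le_one (by norm_num) (by norm_num) (by omega)
        have e3 : (2 : ℝ) ^ k * (1 / 2) ^ k = 1 := by rw [← mul_pow]; norm_num
        calc (2 : ℝ) ^ k * (1 / 2) ^ lv M n ≤ 2 ^ k * (1 / 2) ^ k := by gcongr
          _ = 1 := e3
      · simp) (fun n hn => by
      rw [map_smul, hb.coef, if_neg, smul_zero]
      intro b
      have := (mem_filter.1 hn).2; have := (mem_filter.1 b).2; omega)
    set s := ∑ n ∈ A, (1 : 𝕜) • ee 𝕜 M δ n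
    have e2 : s + (2 : 𝕜) ^ k • U K (k + 1) = (2 : 𝕜) ^ k • U K k := by
      rw [e1, smul_add, smul_inv_smul₀ h2]
    rw [e2, map_smul_eq_mul, norm_pow, RCLike.norm_two] at q
    have q2 : N s ≤ L * (2 ^ k * N (U K k)) :=
      q.trans (mul_le_mul_of_nonneg_right (le_max_left _ _) (by positivity))
    have q3 : N (((2 : 𝕜) ^ k)⁻¹ • s) ≤ L * N (U K k) := by
      rw [map_smul_eq_mul, norm_inv, norm_pow, RCLike.norm_two, inv_mul_le_iff₀ (by positivity)]
      linarith
    have e3 : U K (k + 1) = U K k - ((2 : 𝕜) ^ k)⁻¹ • s := by rw [e1]; abel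
    have q4 := map_sub_le_add N (U K k) (((2 : 𝕜) ^ k)⁻¹ • s)
    rw [← e3] at q4
    linarith
  have up : ∀ K k, N (U K k) ≤ (1 + L) ^ k * |d| := by
    intro K k
    induction k with
    | zero =>
      have : U K 0 = VV 𝕜 M δ K := by
        simp only [U]; rw [filter_true_of_mem fun _ _ => Nat.zero_le _]; exact sum_ee K
      rw [this, pow_zero, one_mul]
      refine (hcd _).2.trans ((mul_le_mul_of_nonneg_right (le_abs_self d) (norm_nonneg _)).trans ?_)
      exact mul_le_of_le_one_right (abs_nonneg d) (h.V_le K)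
    | succ k ih =>
      refine (step K k).trans ?_
      rw [pow_succ', mul_assoc]
      gcongr
  set q : ℝ := M / 2 with hq'
  have hq1 : 1 ≤ q := by linarith
  have lvl : ∀ K k, k ≤ K → q ^ k ≤ ∑ i ∈ (BB M K).filter (fun i => lv M i = k), wt M i ∧
      ∑ i ∈ (BB M K).filter (fun i => lv M i = k), wt M i ≤ M * q ^ k := by
    intro K k hk
    rw [sum_congr rfl (g := fun _ => (1 / 2 : ℝ) ^ k) fun i hi => by
      rw [wt_mem (mem_filter.1 hi).1, (mem_filter.1 hi).2], sum_const, nsmul_eq_mul]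
    have a1 : (M : ℝ) ^ k ≤ ((BB M K).filter fun i => lv M i = k).card := by
      exact_mod_cast card_ge_lv hM2 hk
    have a2 : (((BB M K).filter fun i => lv M i = k).card : ℝ) ≤ M ^ (k + 1) := by
      have : ((BB M K).filter fun i => lv M i = k) ⊆ (BB M K).filter fun i => lv M i ≤ k :=
        fun i hi => mem_filter.2 ⟨(mem_filter.1 hi).1, (mem_filter.1 hi).2.le⟩
      exact_mod_cast (card_le_card this).trans (card_le_lv hM2 K k)
    have e : q ^ k = M ^ k * (1 / 2) ^ k := by rw [← mul_pow, hq']; congr 1; ring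
    rw [e, ← mul_assoc, ← pow_succ']
    constructor <;> gcongr
  have low : ∀ k : ℕ, q ^ k ≤ (k + 3) * M * ‖U (k + 1) (k + 1)‖ := by
    intro k
    set K := k + 1 with hK
    have hS0 := SS_nn M K
    have hS : 1 + SS M K ≤ (k + 3) * M * q ^ K := by
      have e := sum_fiberwise_of_maps_to (s := BB M K) (t := range (K + 1)) (g := lv M)
        (fun i hi => mem_range.2 (Nat.lt_succ_of_le (lv_le hM2 hi))) (wt M)
      have b := sum_le_card_nsmul (range (K + 1))
        (fun j => ∑ i ∈ (BB M K).filter (fun i => lv M i = j), wt M i) (M * q ^ K) fun j hj => by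
          have hj' : j ≤ K := Nat.le_of_lt_succ (mem_range.1 hj)
          refine (lvl K j hj').2.trans ?_
          gcongr
      rw [e, card_range, nsmul_eq_mul] at b
      have : 1 ≤ (M : ℝ) * q ^ K := one_le_mul_of_one_le_of_one_le (by linarith) (one_le_pow₀ hq1)
      rw [hK] at b
      push_cast at b
      rw [SS, hK]
      nlinarith
    set W := ∑ j ∈ (BB M K).filter (fun i => K ≤ lv M i), wt M j with hW
    have hW1 : q ^ K ≤ W := (lvl K K le_rfl).1.trans (sum_le_sum_of_subset_of_nonneg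
      (fun i hi => mem_filter.2 ⟨(mem_filter.1 hi).1, (mem_filter.1 hi).2.ge⟩)
      fun i _ _ => (wt_bd M i).1)
    have hqK : 0 < q ^ K := by positivity
    have e1 : ∀ i ∈ (BB M K).filter (fun i => lv M i = k),
        ‖ev i (U K K)‖ = W * (1 + SS M K)⁻¹ * wt M i := by
      intro i hi
      obtain ⟨a, b⟩ := mem_filter.1 hi
      have hev : ev i (U K K) = -((W * (1 + SS M K)⁻¹ * wt M i : ℝ) : 𝕜) := by
        simp only [U, fs, map_sum, map_smul]
        rw [sum_congr rfl (g := fun j => -(w j * (((1 + SS M K)⁻¹ * wt M i : ℝ) : 𝕜))) fun j hj => by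
          obtain ⟨a', b'⟩ := mem_filter.1 hj
          rw [ee_mem a', map_sub, h.bi, h.ev_V, if_pos a, if_neg (by rintro rfl; omega)]
          simp]
        rw [sum_neg_distrib, ← sum_mul, hW]
        push_cast; simp only [hw]; ring
      have w0 := (wt_bd M i).1
      have w1 : 0 ≤ W := hqK.le.trans hW1
      rw [hev, norm_neg, RCLike.norm_ofReal, abs_of_nonneg
        (mul_nonneg (mul_nonneg w1 (inv_nonneg.2 (by linarith))) w0)]
    have e2 := h.n2 ((BB M K).filter fun i => lv M i = k) (U K K)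
    rw [sum_congr rfl e1, ← mul_sum] at e2
    have e3 : q ^ K * (1 + SS M K)⁻¹ * q ^ k ≤ ‖U K K‖ := by
      refine le_trans ?_ e2
      have w1 : 0 ≤ W := hqK.le.trans hW1
      have w2 : 0 ≤ (1 + SS M K)⁻¹ := inv_nonneg.2 (by linarith)
      exact mul_le_mul (mul_le_mul_of_nonneg_right hW1 w2) (lvl K k (by omega)).1
        (pow_nonneg (by linarith) _) (mul_nonneg w1 w2)
    rw [mul_right_comm, mul_inv_le_iff₀ (by linarith)] at e3
    have e4 : q ^ K * q ^ k ≤ q ^ K * ((k + 3) * M * ‖U K K‖) := by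
      refine e3.trans ((mul_le_mul_of_nonneg_left hS (norm_nonneg _)).trans (le_of_eq ?_))
      ring
    exact le_of_mul_le_mul_left e4 hqK
  set E : ℝ := M * ((1 + L) * |d|) + 1 with hE
  have hE0 : 0 < E := by positivity
  obtain ⟨n, hn, hn3⟩ := (((tendsto_pow_const_div_const_pow_of_one_lt 1 (one_lt_two (α := ℝ))).eventually
    (gt_mem_nhds (show 0 < c / (8 * E) by positivity))).and (eventually_ge_atTop 3)).exists
  obtain ⟨k, rfl⟩ : ∃ k, n = k + 3 := ⟨n - 3, by omega⟩
  rw [pow_one, div_lt_div_iff₀ (by positivity) (by positivity), pow_add] at hn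
  push_cast at hn
  have a1 := (hcd (U (k + 1) (k + 1))).1.trans (up (k + 1) (k + 1))
  have a2 : 2 ^ k * (1 + L) ^ k ≤ q ^ k := by rw [← mul_pow]; gcongr; linarith
  have a3 : (1 + L) ^ k * (c * 2 ^ k) ≤ (1 + L) ^ k * ((k + 3) * (M * ((1 + L) * |d|))) := by
    calc (1 + L) ^ k * (c * 2 ^ k) = c * (2 ^ k * (1 + L) ^ k) := by ring
      _ ≤ c * ((k + 3) * M * ‖U (k + 1) (k + 1)‖) := mul_le_mul_of_nonneg_left (a2.trans (low k)) hc.le
      _ = (k + 3) * M * (c * ‖U (k + 1) (k + 1)‖) := by ring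
      _ ≤ (k + 3) * M * ((1 + L) ^ (k + 1) * |d|) := by gcongr
      _ = _ := by ring
  have a4 := le_of_mul_le_mul_left a3 (by positivity)
  have : (0 : ℝ) ≤ k := Nat.cast_nonneg k
  rw [hE] at hn
  nlinarith

theorem l1_lp (𝕜 : Type) [RCLike 𝕜] : L1 (X := lp (fun _ : ℕ => 𝕜) 1)
    (fun i => lp.single 1 i (1 : 𝕜)) (fun i => lp.evalCLM 𝕜 (fun _ : ℕ => 𝕜) 1 i) := by
  refine ⟨fun y => ?_, fun i j => ?_, fun i => ?_, fun s y => ?_⟩
  · refine mem_closure_of_tendsto (lp.hasSum_single (by simp) y) (Eventually.of_forall fun s => ?_)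
    refine Submodule.sum_mem _ fun i _ => ?_
    have : lp.single 1 i (y i) = y i • (lp.single 1 i (1 : 𝕜) : lp (fun _ : ℕ => 𝕜) 1) := by
      rw [← lp.single_smul, smul_eq_mul, mul_one]
    rw [this]
    exact Submodule.smul_mem _ _ (Submodule.subset_span ⟨i, rfl⟩)
  · show (lp.single 1 j (1 : 𝕜) : lp (fun _ : ℕ => 𝕜) 1) i = _
    rw [lp.single_apply, Pi.single_apply]
  · rw [lp.norm_single (by simp), norm_one]
  · have := lp.sum_rpow_le_norm_rpow (p := 1) (by simp) y s
    show ∑ i ∈ s, ‖y i‖ ≤ ‖y‖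
    simpa using this

end Pool.Agent.H90.Gq
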