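import Mathlib

/-! Numerical range, numerical radius and numerical index of a normed space. -/

namespace Pool.Agent.H90.NumIdx

/-- `V(T) = {f (T x) : ‖x‖ = 1, ‖f‖ = 1, f x = 1}`. -/
def numRange (𝕜 : Type*) [RCLike 𝕜] {X : Type*} [NormedAddCommGroup X] [NormedSpace 𝕜 X]
    (T : X →L[𝕜] X) : Set 𝕜 :=
  {z | ∃ (x : X) (f : StrongDual 𝕜 X), ‖x‖ = 1 ∧ ‖f‖ = 1 ∧ f x = 1 ∧ z = f (T x)}

/-- `v(T) = sup {|z| : z ∈ V(T)}`. -/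
noncomputable def numRadius (𝕜 : Type*) [RCLike 𝕜] {X : Type*} [NormedAddCommGroup X]
    [NormedSpace 𝕜 X] (T : X →L[𝕜] X) : ℝ :=
  sSup {r | ∃ z ∈ numRange 𝕜 T, r = ‖z‖}

/-- `n(X) = inf {v(T) : ‖T‖ = 1}`. -/
noncomputable def numIndex (𝕜 : Type*) [RCLike 𝕜] (X : Type*) [NormedAddCommGroup X]
    [NormedSpace 𝕜 X] : ℝ :=
  sInf {r | ∃ T : X →L[𝕜] X, ‖T‖ = 1 ∧ r = numRadius 𝕜 T}

end Pool.Agent.H90.NumIdx
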