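import Pool.Agent.H90.NumIdxDefs

/-! Rank-one numerical index and the constant `κ_p`. -/

namespace Pool.Agent.H90.NumIdx

/-- `n₁(X) = inf {v(T) : T of rank one, ‖T‖ = 1}`; a rank-one operator is `x ↦ f x • y`. -/
noncomputable def rankOneIndex (𝕜 : Type*) [RCLike 𝕜] (X : Type*) [NormedAddCommGroup X]
    [NormedSpace 𝕜 X] : ℝ :=
  sInf {r | ∃ (T : X →L[𝕜] X) (f : StrongDual 𝕜 X) (y : X),
    (∀ x, T x = f x • y) ∧ ‖T‖ = 1 ∧ r = numRadius 𝕜 T}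

/-- `κ_p = 1 / (p^(1/p) q^(1/q))` with `q = p / (p - 1)`. -/
noncomputable def kappa (p : ℝ) : ℝ :=
  1 / (p ^ (1 / p) * (p / (p - 1)) ^ (1 / (p / (p - 1))))

end Pool.Agent.H90.NumIdx
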