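import Pool.Agent.H90.NumIdxCert

namespace Pool.Agent.H90.NumIdx

open Complex ComplexConjugate

/-- The numerical radius of the matrix `[[a, b], [c, d]]` on the `4`-norm plane is at most `V`. -/
def HV (a b c d : ℂ) (V : ℝ) : Prop :=
  ∀ u w : ℂ, ‖(u * conj u) * conj u * (a * u + b * w) + (w * conj w) * conj w * (c * u + d * w)‖
    ≤ V * (‖u‖ ^ 4 + ‖w‖ ^ 4)

lemma HV.na {a b c d : ℂ} {V : ℝ} (h : HV a b c d V) : ‖a‖ ≤ V := by simpa using h 1 0

lemma HV.nd {a b c d : ℂ} {V : ℝ} (h : HV a b c d V) : ‖d‖ ≤ V := by simpa using h 0 1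

lemma HV.nbc {a b c d : ℂ} {V : ℝ} (h : HV a b c d V) : ‖b‖ ≤ 2 * V ∧ ‖c‖ ≤ 2 * V := by
  have h1 : ‖a + b + (c + d)‖ ≤ 2 * V := by
    have := h 1 1; norm_num at this; linarith
  have h2 : ‖a - b + (-c + d)‖ ≤ 2 * V := by
    have := h 1 (-1)
    have e : (1 * conj 1 * conj 1 * (a * 1 + b * -1) + -1 * conj (-1) * conj (-1) * (c * 1 + d * -1))
      = a - b + (-c + d) := by simp; ring
    rw [e] at this; norm_num at this ⊢; linarith
  have h3 : ‖a + b * I + (-c * I + d)‖ ≤ 2 * V := by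
    have := h 1 I
    have e : (1 * conj 1 * conj 1 * (a * 1 + b * I) + I * conj I * conj I * (c * 1 + d * I))
      = a + b * I + (-c * I + d) := by
      simp only [map_one, conj_I]
      linear_combination (c * I + d * (I ^ 2 - 1)) * I_sq
    rw [e] at this; norm_num at this ⊢; linarith
  have h4 : ‖a - b * I + (c * I + d)‖ ≤ 2 * V := by
    have := h 1 (-I)
    have e : (1 * conj 1 * conj 1 * (a * 1 + b * -I) + -I * conj (-I) * conj (-I) * (c * 1 + d * -I))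
      = a - b * I + (c * I + d) := by
      simp only [map_one, map_neg, conj_I]
      linear_combination (-c * I + d * (I ^ 2 - 1)) * I_sq
    rw [e] at this; norm_num at this ⊢; linarith
  have key : ∀ (z ε : ℂ), ‖ε‖ = 1 → 4 * z = (a + b + (c + d)) - (a - b + (-c + d))
      + ε * ((a + b * I + (-c * I + d)) - (a - b * I + (c * I + d))) → ‖z‖ ≤ 2 * V := by
    intro z ε hε e
    have : ‖4 * z‖ ≤ 8 * V := by
      rw [e]
      refine (norm_add_le _ _).trans ?_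
      rw [norm_mul, hε, one_mul]
      linarith [norm_sub_le (a + b + (c + d)) (a - b + (-c + d)),
        norm_sub_le (a + b * I + (-c * I + d)) (a - b * I + (c * I + d))]
    rw [norm_mul] at this; norm_num at this; linarith
  exact ⟨key b (-I) (by simp) (by linear_combination (2 * b - 2 * c) * I_sq),
    key c I (by simp) (by linear_combination (-2 * b + 2 * c) * I_sq)⟩

noncomputable def pr (a b c d : ℂ) (e1 e2 e3 e4 e5 e6 e7 e8 : ℤ) : ℂ :=
  a * (e1 + e2 * I) + b * (e3 + e4 * I) + c * (e5 + e6 * I) + d * (e7 + e8 * I)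

lemma gi_le (x y : ℤ) : ‖(x : ℂ) + y * I‖ ≤ ((x.natAbs : ℤ) : ℝ) + ((y.natAbs : ℤ) : ℝ) := by
  refine (norm_add_le _ _).trans ?_
  simp

lemma gi_sq (x y : ℤ) : ‖(x : ℂ) + y * I‖ ^ 2 = (x : ℝ) * x + y * y := by
  rw [← normSq_eq_norm_sq, normSq_apply]; simp

lemma chk_sound {a b c d : ℂ} {V : ℝ} (h : HV a b c d V) (s : ℤ) :
    ∀ (f code : ℕ) (e1 e2 e3 e4 e5 e6 e7 e8 bud : ℤ),
      chk s f code e1 e2 e3 e4 e5 e6 e7 e8 bud = true →
      ‖pr a b c d e1 e2 e3 e4 e5 e6 e7 e8‖ ≤ bud * V := by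
  have hV : 0 ≤ V := (norm_nonneg _).trans h.na
  intro f
  induction f with
  | zero =>
    intro code e1 e2 e3 e4 e5 e6 e7 e8 bud hc
    simp only [chk, decide_eq_true_eq] at hc
    have hc' : (((e1.natAbs : ℤ) : ℝ) + ((e2.natAbs : ℤ) : ℝ)) + 2 * ((((e3.natAbs : ℤ) : ℝ)
      + ((e4.natAbs : ℤ) : ℝ)) + (((e5.natAbs : ℤ) : ℝ) + ((e6.natAbs : ℤ) : ℝ)))
      + (((e7.natAbs : ℤ) : ℝ) + ((e8.natAbs : ℤ) : ℝ)) ≤ (bud : ℝ) := by
      have : (((e1.natAbs : ℤ) + e2.natAbs + 2 * (e3.natAbs + e4.natAbs + e5.natAbs + e6.natAbs)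
        + e7.natAbs + e8.natAbs : ℤ) : ℝ) ≤ bud := by exact_mod_cast hc
      push_cast at this ⊢; linarith
    have m1 := mul_le_mul h.na (gi_le e1 e2) (norm_nonneg _) hV
    have m2 := mul_le_mul h.nbc.1 (gi_le e3 e4) (norm_nonneg _) (by linarith)
    have m3 := mul_le_mul h.nbc.2 (gi_le e5 e6) (norm_nonneg _) (by linarith)
    have m4 := mul_le_mul h.nd (gi_le e7 e8) (norm_nonneg _) hV
    have m5 := mul_le_mul_of_nonneg_right hc' hV
    rw [← norm_mul] at m1 m2 m3 m4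
    have := norm_add_le_of_le (norm_add_le_of_le (norm_add_le_of_le m1 m2) m3) m4
    unfold pr
    linarith
  | succ f ih =>
    intro code e1 e2 e3 e4 e5 e6 e7 e8 bud hc
    rw [chk] at hc
    split_ifs at hc with h0
    · exact ih _ _ _ _ _ _ _ _ _ _ hc
    · rw [Bool.and_eq_true, decide_eq_true_eq] at hc
      obtain ⟨hr, hc⟩ := hc
      have := ih _ _ _ _ _ _ _ _ _ _ hc
      have hr0 : (0 : ℤ) ≤ (code / 100000000000000000000000000 % 10000000000 : ℕ) :=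
        Int.natCast_nonneg _
      generalize ((code / 100000000000000000000000000 % 10000000000 : ℕ) : ℤ) = r at *
      generalize s * (((code / 10000000000000000 % 10000000000 : ℕ) : ℤ) - 5000000000) = m at *
      generalize (((code / 1000000 % 10000000000 : ℕ) : ℤ) - 5000000000) = l at *
      generalize s * (((code / 10000 % 100 : ℕ) : ℤ) - 50) = q at *
      generalize (((code / 100 % 100 : ℕ) : ℤ) - 50) = p at *
      generalize ((code % 100 : ℕ) : ℤ) = n at *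
      have hs := h (n : ℂ) (p + q * I)
      have hl : ‖(l : ℂ) + m * I‖ ≤ r := by
        have hr' : (l : ℝ) * l + m * m ≤ r * r := by exact_mod_cast hr
        have hr0' : (0 : ℝ) ≤ r := by exact_mod_cast hr0
        refine abs_le_of_sq_le_sq' ?_ hr0' |>.2
        rw [gi_sq]; linarith
      have hw : ‖(p : ℂ) + q * I‖ ^ 4 = ((p : ℝ) * p + q * q) * (p * p + q * q) := by
        rw [← gi_sq]; ring
      have hn : ‖(n : ℂ)‖ ^ 4 = (n : ℝ) * n * n * n := by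
        have : ‖(n : ℂ)‖ ^ 4 = (‖(n : ℂ)‖ ^ 2) ^ 2 := by ring
        rw [this, Complex.norm_intCast, sq_abs]; ring
      rw [hw, hn] at hs
      have m1 := mul_le_mul hl hs (norm_nonneg _) (by exact_mod_cast hr0)
      rw [← norm_mul] at m1
      have m2 := norm_add_le_of_le this m1
      have e : pr a b c d e1 e2 e3 e4 e5 e6 e7 e8 = pr a b c d (e1 - l * (n * n * n * n))
          (e2 - m * (n * n * n * n)) (e3 - n * n * n * (l * p - m * q))
          (e4 - n * n * n * (l * q + m * p)) (e5 - (p * p + q * q) * n * (l * p + m * q))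
          (e6 - (p * p + q * q) * n * (m * p - l * q)) (e7 - l * ((p * p + q * q) * (p * p + q * q)))
          (e8 - m * ((p * p + q * q) * (p * p + q * q))) + ((l : ℂ) + m * I) *
          ((n * conj (n : ℂ)) * conj (n : ℂ) * (a * n + b * (p + q * I)) + ((p + q * I) *
            conj ((p : ℂ) + q * I)) * conj ((p : ℂ) + q * I) * (c * n + d * (p + q * I))) := by
        have e1 : ((p : ℂ) + q * I) * (p - q * I) = p * p + q * q := by
          linear_combination (-(q : ℂ) * q) * I_sq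
        have e2 : conj ((p : ℂ) + q * I) = p - q * I := by simp; ring
        rw [e2, e1]
        simp only [pr, map_intCast]
        push_cast
        linear_combination (-b * n * n * n * m * q + c * (p * p + q * q) * n * m * q
          + d * (p * p + q * q) * q * q * (l + m * I)) * I_sq
      rw [e]
      push_cast at m2 ⊢
      linarith

lemma exists_step (f : ℕ → ℝ) : ∀ n : ℕ, 0 ≤ f 0 → f (n + 1) ≤ 0 →
    ∃ i ≤ n, 0 ≤ f i ∧ f (i + 1) ≤ 0 := by
  intro n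
  induction n with
  | zero => intro h0 h1; exact ⟨0, le_rfl, h0, h1⟩
  | succ n ih =>
    intro h0 h1
    rcases le_total (f (n + 1)) 0 with h | h
    · obtain ⟨i, hi, h⟩ := ih h0 h
      exact ⟨i, by omega, h⟩
    · exact ⟨n + 1, le_rfl, h, h1⟩

lemma fan (C A B : ℂ) (K s t : ℝ) (m : ℤ) (n : ℕ) (P Q G H : ℕ → ℤ) (hm : 0 < m) (hC : ‖C‖ ≤ K)
    (hv : ∀ i < n + 2, ‖C + P i * A + Q i * B‖ ≤ K)
    (he : ∀ i < n + 1, 0 < P i * Q (i + 1) - Q i * P (i + 1) ∧ m ≤ G i * P i + H i * Q i ∧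
      m ≤ G i * P (i + 1) + H i * Q (i + 1))
    (hl : ∀ i < n + 1, G i * s + H i * t ≤ m)
    (h0 : 0 ≤ P 0 * t - Q 0 * s) (h1 : P (n + 1) * t - Q (n + 1) * s ≤ 0) :
    ‖C + s * A + t * B‖ ≤ K := by
  obtain ⟨i, hi, ha, hb⟩ := exists_step (fun i => P i * t - Q i * s) n h0 h1
  obtain ⟨e1, e2, e3⟩ := he i (by omega)
  have e4 := hl i (by omega)
  have v1 := hv i (by omega)
  have v2 := hv (i + 1) (by omega)
  have e1' : (0 : ℝ) < P i * Q (i + 1) - Q i * P (i + 1) := by exact_mod_cast e1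
  have e2' : (m : ℝ) ≤ G i * P i + H i * Q i := by exact_mod_cast e2
  have e3' : (m : ℝ) ≤ G i * P (i + 1) + H i * Q (i + 1) := by exact_mod_cast e3
  have hm' : (0 : ℝ) < m := by exact_mod_cast hm
  have c1 : ∀ z : ℤ, (z : ℂ) = ((z : ℝ) : ℂ) := fun z => by simp
  rw [c1 (P i), c1 (Q i)] at v1
  rw [c1 (P (i + 1)), c1 (Q (i + 1))] at v2
  generalize (P i : ℝ) = p at *
  generalize (Q i : ℝ) = q at *
  generalize (P (i + 1) : ℝ) = p' at *
  generalize (Q (i + 1) : ℝ) = q' at *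
  generalize (G i : ℝ) = g at *
  generalize (H i : ℝ) = g' at *
  obtain ⟨α, β, hα, hβ, hs, ht⟩ : ∃ α β : ℝ, 0 ≤ α ∧ 0 ≤ β ∧ s = α * p + β * p' ∧
      t = α * q + β * q' := by
    refine ⟨-(p' * t - q' * s) / (p * q' - q * p'), (p * t - q * s) / (p * q' - q * p'),
      div_nonneg (by linarith) e1'.le, div_nonneg ha e1'.le, ?_, ?_⟩ <;>
    rw [div_mul_eq_mul_div, div_mul_eq_mul_div, ← add_div, eq_div_iff e1'.ne'] <;> ring
  have hsum : α + β ≤ 1 := by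
    have a1 := mul_le_mul_of_nonneg_left e2' hα
    have a2 := mul_le_mul_of_nonneg_left e3' hβ
    have : (α + β) * m ≤ 1 * m := by rw [hs, ht] at e4; linarith
    exact le_of_mul_le_mul_right this hm'
  have e : C + s * A + t * B = (α : ℂ) * (C + p * A + q * B) + (β : ℂ) * (C + p' * A + q' * B)
      + ((1 - α - β : ℝ) : ℂ) * C := by
    rw [hs, ht]; push_cast; ring
  rw [e]
  refine (norm_add₃_le).trans ?_
  rw [norm_mul, norm_mul, norm_mul, norm_real, norm_real, norm_real, Real.norm_of_nonneg hα,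
    Real.norm_of_nonneg hβ, Real.norm_of_nonneg (by linarith)]
  have a1 := mul_le_mul_of_nonneg_left v1 hα
  have a2 := mul_le_mul_of_nonneg_left v2 hβ
  have a3 := mul_le_mul_of_nonneg_left hC (show 0 ≤ 1 - α - β by linarith)
  linarith

lemma lev_z {a b c d : ℂ} {V : ℝ} (h : HV a b c d V) {i k : ℕ} (hi : i < 7) (hk : k < 7)
    (ζ : ℂ) (hζ : ‖ζ‖ ≤ 1) :
    ‖(yP k : ℂ) * 1000 * (a * xP i + b * xQ i) + yQ k * (1000 * ζ) * (c * xP i + d * xQ i)‖
      ≤ 1850000000 * V := by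
  have base : ∀ σ : ℤ, (σ = 1 ∨ σ = -1) → ∀ j < 8 + 2,
      ‖(yP k : ℂ) * 1000 * (a * xP i + b * xQ i) + zP j * (yQ k * (c * xP i + d * xQ i))
        + zQ j * (σ * I * (yQ k * (c * xP i + d * xQ i)))‖ ≤ 1850000000 * V := by
    intro σ hσ j hj
    have h1 : one σ i k j = true := by
      rcases hσ with rfl | rfl
      · exact (one_true hi hk hj).1
      · exact (one_true hi hk hj).2
    have := chk_sound h σ _ _ _ _ _ _ _ _ _ _ _ h1
    unfold pr at this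
    push_cast at this
    convert this using 2
    ring
  have hC : ‖(yP k : ℂ) * 1000 * (a * xP i + b * xQ i)‖ ≤ 1850000000 * V := by
    have h1 := base 1 (Or.inl rfl) 0 (by norm_num)
    have h2 := base 1 (Or.inl rfl) 9 (by norm_num)
    have h3 := norm_add_le_of_le h1 h2
    have e : (yP k : ℂ) * 1000 * (a * xP i + b * xQ i) + zP 0 * (yQ k * (c * xP i + d * xQ i))
        + zQ 0 * ((1 : ℤ) * I * (yQ k * (c * xP i + d * xQ i))) +
        ((yP k : ℂ) * 1000 * (a * xP i + b * xQ i) + zP 9 * (yQ k * (c * xP i + d * xQ i))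
        + zQ 9 * ((1 : ℤ) * I * (yQ k * (c * xP i + d * xQ i))))
        = 2 * ((yP k : ℂ) * 1000 * (a * xP i + b * xQ i)) := by
      simp [zP, zQ]; ring
    rw [e, norm_mul] at h3
    norm_num at h3 ⊢
    linarith
  have hn : ζ.re ^ 2 + ζ.im ^ 2 ≤ 1 := by
    have : ‖ζ‖ ^ 2 ≤ 1 := by nlinarith [norm_nonneg ζ]
    rw [← normSq_eq_norm_sq, normSq_apply] at this; linarith
  have main : ∀ σ : ℤ, (σ = 1 ∨ σ = -1) → ∀ t : ℝ, 0 ≤ t → ζ.re ^ 2 + t ^ 2 ≤ 1 →
      ‖(yP k : ℂ) * 1000 * (a * xP i + b * xQ i)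
        + ((1000 * ζ.re : ℝ) : ℂ) * (yQ k * (c * xP i + d * xQ i))
        + ((1000 * t : ℝ) : ℂ) * (σ * I * (yQ k * (c * xP i + d * xQ i)))‖ ≤ 1850000000 * V := by
    intro σ hσ t ht hn
    refine fan _ _ _ _ _ _ 1000000 8 zP zQ zG zH (by norm_num) hC (base σ hσ) (by decide) ?_
      (by simp [zP, zQ]; linarith) (by simp [zP, zQ]; linarith)
    intro j hj
    have h1 : ∀ j < 8 + 1, zG j ^ 2 + zH j ^ 2 ≤ 1000000 := by decide
    have h2 : (zG j : ℝ) ^ 2 + (zH j : ℝ) ^ 2 ≤ 1000000 := by exact_mod_cast h1 j hj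
    push_cast
    nlinarith [sq_nonneg ((zG j : ℝ) - 1000 * ζ.re), sq_nonneg ((zH j : ℝ) - 1000 * t)]
  rcases le_total 0 ζ.im with h0 | h0
  · have := main 1 (Or.inl rfl) ζ.im h0 hn
    convert this using 2
    conv_lhs => rw [← re_add_im ζ]
    push_cast; ring
  · have := main (-1) (Or.inr rfl) (-ζ.im) (by linarith) (by linarith)
    convert this using 2
    conv_lhs => rw [← re_add_im ζ]
    push_cast; ring

lemma young (g x : ℝ) : 4 * (g ^ 3 * x) ≤ 3 * g ^ 4 + x ^ 4 := by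
  nlinarith [mul_nonneg (sq_nonneg (x - g)) (sq_nonneg (x + g)),
    mul_nonneg (sq_nonneg (x - g)) (sq_nonneg g)]

lemma lev_y {a b c d : ℂ} {V : ℝ} (h : HV a b c d V) {i : ℕ} (hi : i < 7)
    (ζ : ℂ) (hζ : ‖ζ‖ ≤ 1) (h1 h2 : ℝ) (p1 : 0 ≤ h1) (p2 : 0 ≤ h2) (hh : h1 ^ 4 + h2 ^ 4 ≤ 1) :
    ‖((1000 * h1 ^ 3 : ℝ) : ℂ) * (1000 * (a * xP i + b * xQ i))
      + ((1000 * h2 ^ 3 : ℝ) : ℂ) * ((1000 * ζ) * (c * xP i + d * xQ i))‖ ≤ 1850000000 * V := by
  have hV : 0 ≤ V := (norm_nonneg _).trans h.na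
  have := fan 0 (1000 * (a * xP i + b * xQ i)) ((1000 * ζ) * (c * xP i + d * xQ i))
    (1850000000 * V) (1000 * h1 ^ 3) (1000 * h2 ^ 3) 1000000 5 yP yQ yG yH (by norm_num)
    (by simpa using hV) ?_ (by decide) ?_ (by simp [yP, yQ]; positivity)
    (by simp [yP, yQ]; positivity)
  · simpa only [zero_add] using this
  · intro k hk
    have := lev_z h hi hk ζ hζ
    convert this using 2
    ring
  · intro j hj
    have e1 : ∀ j < 5 + 1, yG j ^ 4 + yH j ^ 4 ≤ 1000000000000 := by decide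
    have e2 : (yG j : ℝ) ^ 4 + (yH j : ℝ) ^ 4 ≤ 1000000000000 := by exact_mod_cast e1 j hj
    have y1 := young h1 ((yG j : ℝ) / 1000)
    have y2 := young h2 ((yH j : ℝ) / 1000)
    push_cast
    nlinarith

lemma lev_x {a b c d : ℂ} {V : ℝ} (h : HV a b c d V)
    (ζ : ℂ) (hζ : ‖ζ‖ ≤ 1) (h1 h2 : ℝ) (p1 : 0 ≤ h1) (p2 : 0 ≤ h2) (hh : h1 ^ 4 + h2 ^ 4 ≤ 1)
    (x1 x2 : ℝ) (q1 : 0 ≤ x1) (q2 : 0 ≤ x2) (hx : x1 ^ 4 + x2 ^ 4 ≤ 1) :
    ‖(h1 : ℂ) ^ 3 * (a * x1 + b * x2) + (h2 : ℂ) ^ 3 * (ζ * (c * x1 + d * x2))‖ ≤ 37 / 20 * V := by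
  have hV : 0 ≤ V := (norm_nonneg _).trans h.na
  have := fan 0 (1000000 * (h1 ^ 3 * a + h2 ^ 3 * ζ * c)) (1000000 * (h1 ^ 3 * b + h2 ^ 3 * ζ * d))
    (1850000000 * V) (1000 * x1) (1000 * x2) 1000000000000 5 xP xQ (fun j => xG j ^ 3)
    (fun j => xH j ^ 3) (by norm_num)
    (by simpa using hV) ?_ (by decide) ?_ (by simp [xP, xQ]; positivity)
    (by simp [xP, xQ]; positivity)
  · have e : 0 + ((1000 * x1 : ℝ) : ℂ) * (1000000 * (h1 ^ 3 * a + h2 ^ 3 * ζ * c))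
        + ((1000 * x2 : ℝ) : ℂ) * (1000000 * (h1 ^ 3 * b + h2 ^ 3 * ζ * d)) = 1000000000 *
        ((h1 : ℂ) ^ 3 * (a * x1 + b * x2) + (h2 : ℂ) ^ 3 * (ζ * (c * x1 + d * x2))) := by
      push_cast; ring
    rw [e, norm_mul] at this
    norm_num at this ⊢
    linarith
  · intro i hi
    have := lev_y h hi ζ hζ h1 h2 p1 p2 hh
    convert this using 2
    push_cast; ring
  · intro j hj
    have e1 : ∀ j < 5 + 1, xG j ^ 4 + xH j ^ 4 ≤ 1000000000000 := by decide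
    have e2 : (xG j : ℝ) ^ 4 + (xH j : ℝ) ^ 4 ≤ 1000000000000 := by exact_mod_cast e1 j hj
    have y1 := young ((xG j : ℝ) / 1000) x1
    have y2 := young ((xH j : ℝ) / 1000) x2
    push_cast
    nlinarith

lemma exists_ph (z : ℂ) : ∃ ε : ℂ, ‖ε‖ = 1 ∧ z = ε * ‖z‖ :=
  ⟨exp (arg z * I), norm_exp_ofReal_mul_I _, by rw [mul_comm, norm_mul_exp_arg_mul_I]⟩

lemma mul_conj_one {ε : ℂ} (h : ‖ε‖ = 1) : ε * conj ε = 1 := by
  rw [mul_conj, normSq_eq_norm_sq, h]; simp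

lemma HV.rot {a b c d : ℂ} {V : ℝ} (h : HV a b c d V) {ε η : ℂ} (hε : ‖ε‖ = 1) (hη : ‖η‖ = 1) :
    HV a (b * η * conj ε) (c * ε * conj η) d V := by
  intro u w
  have := h (ε * u) (η * w)
  rw [norm_mul ε u, norm_mul η w, hε, hη, one_mul, one_mul] at this
  convert this using 2
  have e1 := mul_conj_one hε
  have e2 := mul_conj_one hη
  simp only [map_mul]
  have f1 : ε * u * (conj ε * conj u) = u * conj u := by linear_combination (u * conj u) * e1
  have f2 : η * w * (conj η * conj w) = w * conj w := by linear_combination (w * conj w) * e2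
  rw [f1, f2]
  linear_combination (-(u * conj u) * conj u * a * u) * e1 - (w * conj w * conj w * d * w) * e2

/-- The operator norm of the matrix is at most `37/20` times its numerical radius. -/
lemma HV.bound {a b c d : ℂ} {V : ℝ} (h : HV a b c d V) (u w : ℂ) (hx : ‖u‖ ^ 4 + ‖w‖ ^ 4 ≤ 1)
    (ρ : ℝ) (hρ : 0 ≤ ρ) (hz : ρ ^ 4 = ‖a * u + b * w‖ ^ 4 + ‖c * u + d * w‖ ^ 4) :
    ρ ≤ 37 / 20 * V := by
  have hV : 0 ≤ V := (norm_nonneg _).trans h.na
  rcases hρ.eq_or_lt with rfl | hρ'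
  · positivity
  obtain ⟨ε, hε, eu⟩ := exists_ph u
  obtain ⟨η, hη, ew⟩ := exists_ph w
  have e1 := mul_conj_one hε
  have e2 := mul_conj_one hη
  obtain ⟨z1, hz1⟩ : ∃ z, z = a * ‖u‖ + b * η * conj ε * ‖w‖ := ⟨_, rfl⟩
  obtain ⟨z2, hz2⟩ : ∃ z, z = c * ε * conj η * ‖u‖ + d * ‖w‖ := ⟨_, rfl⟩
  have n1 : ‖a * u + b * w‖ = ‖z1‖ := by
    have : a * u + b * w = ε * z1 := by
      rw [hz1]; linear_combination a * eu + b * ew - b * η * ‖w‖ * e1
    rw [this, norm_mul, hε, one_mul]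
  have n2 : ‖c * u + d * w‖ = ‖z2‖ := by
    have : c * u + d * w = η * z2 := by
      rw [hz2]; linear_combination c * eu + d * ew - c * ε * ‖u‖ * e2
    rw [this, norm_mul, hη, one_mul]
  rw [n1, n2] at hz
  obtain ⟨θ1, hθ1, t1⟩ := exists_ph z1
  obtain ⟨θ2, hθ2, t2⟩ := exists_ph z2
  have e3 := mul_conj_one hθ2
  have := lev_x (h.rot hε hη) (θ1 * conj θ2) (by simp [hθ1, hθ2]) (‖z1‖ / ρ) (‖z2‖ / ρ)
    (by positivity) (by positivity) (by rw [div_pow, div_pow, ← add_div, ← hz, div_self (by positivity)])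
    ‖u‖ ‖w‖ (norm_nonneg _) (norm_nonneg _) hx
  rw [← hz1, ← hz2] at this
  have hz' : ((ρ : ℂ)) ^ 4 = (‖z1‖ : ℂ) ^ 4 + (‖z2‖ : ℂ) ^ 4 := by exact_mod_cast hz
  have hρc : (ρ : ℂ) ≠ 0 := by exact_mod_cast hρ'.ne'
  have e : ((‖z1‖ / ρ : ℝ) : ℂ) ^ 3 * z1 + ((‖z2‖ / ρ : ℝ) : ℂ) ^ 3 * (θ1 * conj θ2 * z2)
      = θ1 * ρ := by
    push_cast
    field_simp
    linear_combination (‖z1‖ : ℂ) ^ 3 * t1 + (‖z2‖ : ℂ) ^ 3 * θ1 * conj θ2 * t2
      + (‖z2‖ : ℂ) ^ 4 * θ1 * e3 - θ1 * hz'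
  rw [e, norm_mul, hθ1, one_mul, norm_real, Real.norm_of_nonneg hρ] at this
  exact this

end Pool.Agent.H90.NumIdx
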