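import Pool.Agent.H90.NumIdxLow
import Pool.Agent.H90.NumIdxDefs

namespace Pool.Agent.H90.NumIdx

open Complex ComplexConjugate Filter Topology
open scoped ENNReal

section Gen
variable {X : Type*} [NormedAddCommGroup X] [NormedSpace ℂ X]

lemma rad_nonneg (T : X →L[ℂ] X) : 0 ≤ numRadius ℂ T :=
  Real.sSup_nonneg (by rintro r ⟨z, -, rfl⟩; exact norm_nonneg _)

lemma le_rad (T : X →L[ℂ] X) (x : X) (f : StrongDual ℂ X) (hx : ‖x‖ = 1) (hf : ‖f‖ = 1)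
    (hfx : f x = 1) : ‖f (T x)‖ ≤ numRadius ℂ T := by
  refine le_csSup ⟨‖T‖, ?_⟩ ⟨_, ⟨x, f, hx, hf, hfx, rfl⟩, rfl⟩
  rintro r ⟨z, ⟨y, g, hy, hg, -, rfl⟩, rfl⟩
  have h1 := g.le_opNorm (T y)
  have h2 := T.le_opNorm y
  rw [hg, one_mul] at h1
  rw [hy, mul_one] at h2
  linarith

lemma cub (u : ℂ) : ‖u * conj u * conj u‖ = ‖u‖ ^ 3 := by simp; ring

lemma quad (u : ℂ) : u * conj u * conj u * u = (‖u‖ : ℂ) ^ 4 := by
  have := mul_conj' u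
  linear_combination (u * conj u + (‖u‖ : ℂ) ^ 2) * this

lemma pow4_one {r : ℝ} (h0 : 0 ≤ r) (h : r ^ 4 = 1) : r = 1 := by
  have := (pow_left_inj₀ h0 zero_le_one (show 4 ≠ 0 by norm_num)).1 (by rw [h]; norm_num)
  exact this

lemma lower (p0 p1 : X →L[ℂ] ℂ) (e0 e1 : X) (h00 : p0 e0 = 1) (h01 : p0 e1 = 0)
    (h10 : p1 e0 = 0) (h11 : p1 e1 = 1) (hd : ∀ z, z = p0 z • e0 + p1 z • e1)
    (hn : ∀ z, ‖z‖ ^ 4 = ‖p0 z‖ ^ 4 + ‖p1 z‖ ^ 4) : 20 / 37 ≤ numIndex ℂ X := by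
  have he0 : ‖e0‖ = 1 := pow4_one (norm_nonneg _) (by rw [hn, h00, h10]; simp)
  have : Nontrivial X := ⟨e0, 0, fun h => by rw [h, norm_zero] at he0; exact zero_ne_one he0⟩
  refine le_csInf ⟨_, ContinuousLinearMap.id ℂ X, ContinuousLinearMap.norm_id, rfl⟩ ?_
  rintro _ ⟨T, hT, rfl⟩
  have hV := rad_nonneg T
  have hT0 : ∀ z, p0 (T z) = p0 (T e0) * p0 z + p0 (T e1) * p1 z := fun z => by
    conv_lhs => rw [hd z]
    simp only [map_add, map_smul, smul_eq_mul]; ring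
  have hT1 : ∀ z, p1 (T z) = p1 (T e0) * p0 z + p1 (T e1) * p1 z := fun z => by
    conv_lhs => rw [hd z]
    simp only [map_add, map_smul, smul_eq_mul]; ring
  have H1 : ∀ x : X, ‖x‖ = 1 → ‖p0 x * conj (p0 x) * conj (p0 x) * p0 (T x)
      + p1 x * conj (p1 x) * conj (p1 x) * p1 (T x)‖ ≤ numRadius ℂ T := by
    intro x hx
    have hx4 := hn x
    rw [hx, one_pow] at hx4
    let f : StrongDual ℂ X := (p0 x * conj (p0 x) * conj (p0 x)) • p0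
      + (p1 x * conj (p1 x) * conj (p1 x)) • p1
    have hf : ∀ z, f z = p0 x * conj (p0 x) * conj (p0 x) * p0 z
      + p1 x * conj (p1 x) * conj (p1 x) * p1 z := fun z => rfl
    have hfx : f x = 1 := by
      rw [hf, quad, quad]; exact_mod_cast hx4.symm
    have hf1 : ‖f‖ ≤ 1 := by
      refine ContinuousLinearMap.opNorm_le_of_unit_norm zero_le_one fun z hz => ?_
      have hz4 := hn z
      rw [hz, one_pow] at hz4
      rw [hf]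
      refine (norm_add_le _ _).trans ?_
      rw [norm_mul _ (p0 z), norm_mul _ (p1 z), cub, cub]
      linarith [young ‖p0 x‖ ‖p0 z‖, young ‖p1 x‖ ‖p1 z‖]
    have hf2 := f.le_opNorm x
    rw [hfx, hx, norm_one, mul_one] at hf2
    exact le_rad T x f hx (le_antisymm hf1 hf2) hfx
  have H : HV (p0 (T e0)) (p0 (T e1)) (p1 (T e0)) (p1 (T e1)) (numRadius ℂ T) := by
    intro u w
    obtain ⟨y, hy⟩ : ∃ y, y = u • e0 + w • e1 := ⟨_, rfl⟩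
    have y0 : p0 y = u := by simp [hy, h00, h01]
    have y1 : p1 y = w := by simp [hy, h10, h11]
    have yn := hn y
    rw [y0, y1] at yn
    rw [← yn]
    rcases (norm_nonneg y).eq_or_lt with h0 | h0
    · have : y = 0 := norm_eq_zero.1 h0.symm
      rw [this, map_zero] at y0 y1
      simp [← y0, ← y1, this]
    · have hc : (‖y‖ : ℂ) ≠ 0 := by exact_mod_cast h0.ne'
      have := H1 ((‖y‖ : ℂ)⁻¹ • y) (by rw [norm_smul, norm_inv, norm_real, norm_norm,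
        inv_mul_cancel₀ h0.ne'])
      rw [hT0, hT1] at this
      simp only [map_smul, smul_eq_mul, y0, y1, map_mul, map_inv₀, conj_ofReal] at this
      have e : u * conj u * conj u * (p0 (T e0) * u + p0 (T e1) * w) + w * conj w * conj w *
          (p1 (T e0) * u + p1 (T e1) * w) = (‖y‖ : ℂ) ^ 4 * ((‖y‖ : ℂ)⁻¹ * u * ((‖y‖ : ℂ)⁻¹ * conj u)
          * ((‖y‖ : ℂ)⁻¹ * conj u) * (p0 (T e0) * ((‖y‖ : ℂ)⁻¹ * u) + p0 (T e1) * ((‖y‖ : ℂ)⁻¹ * w))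
          + (‖y‖ : ℂ)⁻¹ * w * ((‖y‖ : ℂ)⁻¹ * conj w) * ((‖y‖ : ℂ)⁻¹ * conj w) *
          (p1 (T e0) * ((‖y‖ : ℂ)⁻¹ * u) + p1 (T e1) * ((‖y‖ : ℂ)⁻¹ * w))) := by
        field_simp
      rw [e, norm_mul, norm_pow, norm_real, norm_norm, mul_comm]
      exact mul_le_mul_of_nonneg_right this (by positivity)
  have : ‖T‖ ≤ 37 / 20 * numRadius ℂ T := by
    refine ContinuousLinearMap.opNorm_le_of_unit_norm (by positivity) fun z hz => ?_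
    have hz4 := hn z
    rw [hz, one_pow] at hz4
    exact H.bound (p0 z) (p1 z) hz4.ge _ (norm_nonneg _) (by rw [hn, hT0, hT1])
  linarith

lemma supp (g p : X →L[ℂ] ℂ) (x e : X) (hx : ‖x‖ = 1) (hg : ‖g‖ = 1) (hgx : g x = 1)
    (he : ∀ c : ℂ, ‖x + c • e‖ ^ 4 = ‖x‖ ^ 4 - ‖p x‖ ^ 4 + ‖p x + c‖ ^ 4) :
    g e = p x * conj (p x) * conj (p x) := by
  generalize p x = u at *
  obtain ⟨δ, hδ⟩ : ∃ δ, δ = g e - u * conj u * conj u := ⟨_, rfl⟩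
  obtain ⟨R, hR⟩ : ∃ R, R = (conj u * conj δ).re := ⟨_, rfl⟩
  obtain ⟨P, hP⟩ : ∃ P, P = normSq u := ⟨_, rfl⟩
  obtain ⟨Z, hZ⟩ : ∃ Z, Z = normSq δ := ⟨_, rfl⟩
  have key : ∀ ε : ℝ, 0 < ε → Z ≤ ε * (R ^ 2 + P * Z / 2 + ε * R * Z + ε ^ 2 * Z ^ 2 / 4) := by
    intro ε hε
    have h1 := he (ε * conj δ)
    have h2 := (re_le_norm _).trans (g.le_opNorm (x + (ε * conj δ) • e))
    have h3 := young 1 ‖x + (ε * conj δ) • e‖
    have h4 : ‖u + ε * conj δ‖ ^ 4 = (P + 2 * ε * R + ε ^ 2 * Z) ^ 2 := by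
      have : ‖u + ε * conj δ‖ ^ 2 = P + 2 * ε * R + ε ^ 2 * Z := by
        rw [← normSq_eq_norm_sq, hR, hP, hZ]
        simp [normSq_apply]; ring
      rw [← this]; ring
    have h5 : ‖u‖ ^ 4 = P ^ 2 := by rw [hP, normSq_eq_norm_sq]; ring
    have h6 : (g (x + (ε * conj δ) • e)).re = 1 + ε * (Z + P * R) := by
      have : g e = δ + u * conj u * conj u := by rw [hδ]; ring
      rw [map_add, map_smul, hgx, this, hR, hP, hZ]
      simp [normSq_apply]; ring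
    rw [h4, h5, hx] at h1
    rw [h6, hg] at h2
    have : ε * Z ≤ ε * (ε * (R ^ 2 + P * Z / 2 + ε * R * Z + ε ^ 2 * Z ^ 2 / 4)) := by
      linarith
    exact le_of_mul_le_mul_left this hε
  have hc : Continuous fun ε : ℝ => ε * (R ^ 2 + P * Z / 2 + ε * R * Z + ε ^ 2 * Z ^ 2 / 4) := by
    fun_prop
  have ht := (hc.tendsto 0).mono_left (nhdsWithin_le_nhds (s := Set.Ioi 0))
  have : Z ≤ 0 := by
    simpa using ge_of_tendsto ht (eventually_nhdsWithin_of_forall key)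
  have : normSq δ = 0 := le_antisymm (hZ ▸ this) (normSq_nonneg _)
  rw [normSq_eq_zero, hδ] at this
  exact sub_eq_zero.1 this

lemma case1 (σ π z : ℝ) (hσ : 0 ≤ σ) (h4 : 4 * π ≤ σ ^ 2) (hz : z ≤ 9 / 10 * σ) :
    σ ^ 2 * z / 4 + 89 / 400 * σ ^ 3 - π * z ≤ σ * (9 / 20) * (σ ^ 2 - 2 * π) := by
  nlinarith [mul_nonneg (sub_nonneg.2 h4) (sub_nonneg.2 hz), pow_nonneg hσ 3]

lemma case2 (σ π z : ℝ) (hσ : 0 ≤ σ) (hzs : (z - σ) ^ 2 ≤ 4 * π) (hz : 9 / 10 * σ ≤ z) :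
    σ ^ 2 * z * (31 / 252) + 29 / 100 * σ ^ 3 - π * z ≤ σ * (9 / 20) * (σ ^ 2 - 2 * π) := by
  have h0 : 0 ≤ z - 9 / 10 * σ := sub_nonneg.2 hz
  nlinarith [mul_nonneg (sub_nonneg.2 hzs) h0, mul_nonneg h0 (sq_nonneg (z - 34 / 25 * σ)),
    mul_nonneg hσ (sq_nonneg (z - 34 / 25 * σ)), pow_nonneg hσ 3, mul_nonneg h0 (sq_nonneg σ)]

lemma arith (σ π S D t : ℝ) (hσ : 0 ≤ σ) (hS : 0 ≤ S) (ht : 0 ≤ t) (h4 : 4 * π ≤ σ ^ 2)
    (hzs : (S ^ 2 - σ) ^ 2 ≤ 4 * π) (hD : D ^ 2 = σ * (σ ^ 2 - 2 * π) - π * S ^ 2) :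
    (S / 6 + t) * D ≤ 29 / 40 * (σ ^ 2 - 2 * π + t ^ 4) := by
  rcases hσ.eq_or_lt with rfl | hσ'
  · have hp : π = 0 := by nlinarith [sq_nonneg (S ^ 2 - 0)]
    have : D = 0 := by rw [hp] at hD; simpa using hD
    rw [this, hp]; nlinarith [pow_nonneg ht 4]
  have h1 : 2 * σ * ((S / 6 + t) * D) ≤ σ ^ 2 * (S / 6 + t) ^ 2 + D ^ 2 := by
    nlinarith [sq_nonneg (σ * (S / 6 + t) - D)]
  have h2 : σ ^ 2 * (S / 6 + t) ^ 2 - π * S ^ 2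
      ≤ σ * (9 / 20) * (σ ^ 2 - 2 * π) + σ * (29 / 20) * t ^ 4 := by
    rcases le_total (S ^ 2) (9 / 10 * σ) with hz | hz
    · have a1 : (S / 6 + t) ^ 2 ≤ S ^ 2 / 4 + 9 / 8 * t ^ 2 := by
        nlinarith [sq_nonneg (4 * S - 3 * t)]
      have a2 := mul_le_mul_of_nonneg_left a1 (sq_nonneg σ)
      have a3 : 9 / 8 * σ * t ^ 2 ≤ 29 / 20 * t ^ 4 + 89 / 400 * σ ^ 2 := by
        nlinarith [sq_nonneg (t ^ 2 - 39 / 100 * σ), sq_nonneg (t ^ 2), sq_nonneg σ]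
      have a4 := mul_le_mul_of_nonneg_left a3 hσ
      have a5 := case1 σ π (S ^ 2) hσ h4 hz
      linarith
    · have a1 : (S / 6 + t) ^ 2 ≤ S ^ 2 * (31 / 252) + 31 / 24 * t ^ 2 := by
        nlinarith [sq_nonneg (4 * S - 7 * t)]
      have a2 := mul_le_mul_of_nonneg_left a1 (sq_nonneg σ)
      have a3 : 31 / 24 * σ * t ^ 2 ≤ 29 / 20 * t ^ 4 + 29 / 100 * σ ^ 2 := by
        nlinarith [sq_nonneg (t ^ 2 - 89 / 200 * σ), sq_nonneg (t ^ 2), sq_nonneg σ]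
      have a4 := mul_le_mul_of_nonneg_left a3 hσ
      have a5 := case2 σ π (S ^ 2) hσ hzs hz
      linarith
  have h3 : 2 * σ * ((S / 6 + t) * D) ≤ 2 * σ * (29 / 40 * (σ ^ 2 - 2 * π + t ^ 4)) := by
    linarith
  exact le_of_mul_le_mul_left h3 (by linarith)

lemma vA (u w v : ℂ) : ‖(1 / 6 * u + v + 1 / 6 * w) * (u * conj u * conj u - w * conj w * conj w)‖
    ≤ 29 / 40 * (‖u‖ ^ 4 + ‖v‖ ^ 4 + ‖w‖ ^ 4) := by
  have h1 : ‖1 / 6 * u + v + 1 / 6 * w‖ ≤ ‖u + w‖ / 6 + ‖v‖ := by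
    have : 1 / 6 * u + v + 1 / 6 * w = 1 / 6 * (u + w) + v := by ring
    rw [this]
    refine (norm_add_le _ _).trans ?_
    rw [norm_mul]; norm_num; linarith
  have h2 := arith (normSq u + normSq w) (normSq u * normSq w) ‖u + w‖
    ‖u * conj u * conj u - w * conj w * conj w‖ ‖v‖
    (add_nonneg (normSq_nonneg _) (normSq_nonneg _)) (norm_nonneg _) (norm_nonneg _)
    (by nlinarith [sq_nonneg (normSq u - normSq w)])
    (by
      rw [← normSq_eq_norm_sq]; simp only [normSq_apply, add_re, add_im]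
      nlinarith [sq_nonneg (u.re * w.im - u.im * w.re)])
    (by
      rw [← normSq_eq_norm_sq, ← normSq_eq_norm_sq]
      simp only [normSq_apply, add_re, add_im, sub_re, sub_im, mul_re, mul_im, conj_re, conj_im]
      ring)
  rw [norm_mul]
  refine (mul_le_mul_of_nonneg_right h1 (norm_nonneg _)).trans (h2.trans (le_of_eq ?_))
  rw [normSq_eq_norm_sq, normSq_eq_norm_sq]; ring

lemma upper (p0 p1 p2 : X →L[ℂ] ℂ) (e0 e2 x0 : X)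
    (he0 : ∀ (x : X) (c : ℂ), ‖x + c • e0‖ ^ 4 = ‖x‖ ^ 4 - ‖p0 x‖ ^ 4 + ‖p0 x + c‖ ^ 4)
    (he2 : ∀ (x : X) (c : ℂ), ‖x + c • e2‖ ^ 4 = ‖x‖ ^ 4 - ‖p2 x‖ ^ 4 + ‖p2 x + c‖ ^ 4)
    (hs : ∀ x : X, ‖p0 x‖ ^ 4 + ‖p1 x‖ ^ 4 + ‖p2 x‖ ^ 4 ≤ ‖x‖ ^ 4)
    (hy : ‖e0 - e2‖ ^ 4 = 2) (a0 : p0 x0 = 11 / 20) (a1 : p1 x0 = 1) (a2 : p2 x0 = 11 / 20)
    (a3 : ‖x0‖ ^ 4 = 1 + 2 * (11 / 20) ^ 4) : numIndex ℂ X ≤ 43 / 80 := by
  let f : X →L[ℂ] ℂ := (1 / 6 : ℂ) • p0 + p1 + (1 / 6 : ℂ) • p2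
  have hf : ∀ z, f z = 1 / 6 * p0 z + p1 z + 1 / 6 * p2 z := fun z => rfl
  obtain ⟨T, hT⟩ : ∃ T : X →L[ℂ] X, ∀ z, T z = f z • (e0 - e2) :=
    ⟨f.smulRight (e0 - e2), fun z => rfl⟩
  have hN : 1349 / 1000 ≤ ‖T‖ := by
    have h1 := T.le_opNorm x0
    have h2 : ‖T x0‖ ^ 4 = (71 / 60) ^ 4 * 2 := by
      rw [hT, norm_smul, mul_pow, hy, hf, a0, a1, a2]; norm_num
    have h3 := pow_le_pow_left₀ (norm_nonneg _) h1 4
    rw [h2, mul_pow, a3] at h3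
    refine le_of_pow_le_pow_left₀ (n := 4) (by norm_num) (norm_nonneg _) ?_
    linarith
  have hpos : 0 < ‖T‖ := by linarith
  refine le_trans (b := numRadius ℂ ((‖T‖ : ℂ)⁻¹ • T)) (csInf_le ⟨0, ?_⟩ ⟨_, ?_, rfl⟩) ?_
  · rintro _ ⟨S, -, rfl⟩; exact rad_nonneg S
  · rw [norm_smul, norm_inv, norm_real, norm_norm, inv_mul_cancel₀ hpos.ne']
  refine Real.sSup_le ?_ (by norm_num)
  rintro _ ⟨_, ⟨x, g, hx, hg, hgx, rfl⟩, rfl⟩
  have g0 := supp g p0 x e0 hx hg hgx (he0 x)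
  have g2 := supp g p2 x e2 hx hg hgx (he2 x)
  have h1 := vA (p0 x) (p2 x) (p1 x)
  have h2 := hs x
  rw [hx] at h2
  rw [ContinuousLinearMap.smul_apply, hT, map_smul, map_smul, map_sub, g0, g2, hf, norm_smul,
    smul_eq_mul, norm_inv, norm_real, norm_norm, inv_mul_le_iff₀ hpos]
  linarith

end Gen

lemma toReal4 : (4 : ℝ≥0∞).toReal = ((4 : ℕ) : ℝ) := by norm_num

lemma lower2 [Fact (1 ≤ (4 : ℝ≥0∞))] : 20 / 37 ≤ numIndex ℂ (PiLp 4 fun _ : Fin 2 => ℂ) := by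
  refine lower (PiLp.proj 4 _ 0) (PiLp.proj 4 _ 1) (PiLp.single 4 0 1) (PiLp.single 4 1 1)
    (by simp) (by simp) (by simp) (by simp) ?_ ?_
  · intro z
    ext i
    fin_cases i <;> simp
  · intro z
    rw [PiLp.norm_eq_of_nat 4 (by norm_num), one_div,
      Real.rpow_inv_natCast_pow (by positivity) (by norm_num)]
    simp

lemma upd [Fact (1 ≤ (4 : ℝ≥0∞))] (i : ℕ) (x : lp (fun _ : ℕ => ℂ) 4) (c : ℂ) :
    ‖x + c • lp.single (E := fun _ : ℕ => ℂ) 4 i 1‖ ^ 4 = ‖x‖ ^ 4 - ‖x i‖ ^ 4 + ‖x i + c‖ ^ 4 := by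
  have h1 := lp.norm_compl_sum_single (p := 4) (by norm_num) x {i}
  have h2 := lp.norm_compl_sum_single (p := 4) (by norm_num)
    (x + c • lp.single (E := fun _ : ℕ => ℂ) 4 i 1) {i}
  have e0 : (x + c • lp.single (E := fun _ : ℕ => ℂ) 4 i 1) i = x i + c := by
    simp [lp.single_apply]
  have e : x + c • lp.single (E := fun _ : ℕ => ℂ) 4 i 1 - lp.single 4 i (x i + c)
      = x - lp.single 4 i (x i) := by
    rw [lp.single_add, ← lp.single_smul, smul_eq_mul, mul_one]; abel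
  simp only [Finset.sum_singleton, toReal4, Real.rpow_natCast] at h1 h2
  rw [e0, e, h1] at h2
  linarith

lemma upperN [Fact (1 ≤ (4 : ℝ≥0∞))] : numIndex ℂ (lp (fun _ : ℕ => ℂ) 4) ≤ 43 / 80 := by
  let s : ℕ → lp (fun _ : ℕ => ℂ) 4 := fun i => lp.single 4 i 1
  have n0 : ‖s 0‖ = 1 := by simp [s]
  refine upper (lp.evalCLM ℂ _ 4 0) (lp.evalCLM ℂ _ 4 1) (lp.evalCLM ℂ _ 4 2) (s 0) (s 2)
    (s 1 + (11 / 20 : ℂ) • s 0 + (11 / 20 : ℂ) • s 2) (upd 0) (upd 2) ?_ ?_ ?_ ?_ ?_ ?_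
  · intro x
    have := lp.sum_rpow_le_norm_rpow (p := 4) (by norm_num) x (Finset.range 3)
    simp only [toReal4, Real.rpow_natCast, Finset.sum_range_succ, Finset.range_zero,
      Finset.sum_empty, zero_add] at this
    exact this
  · have := upd 2 (s 0) (-1)
    rw [neg_one_smul, ← sub_eq_add_neg, n0] at this
    rw [this]; simp [s, lp.single_apply]; norm_num
  · change (s 1 + (11 / 20 : ℂ) • s 0 + (11 / 20 : ℂ) • s 2) 0 = _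
    simp [s, lp.single_apply]
  · change (s 1 + (11 / 20 : ℂ) • s 0 + (11 / 20 : ℂ) • s 2) 1 = _
    simp [s, lp.single_apply]
  · change (s 1 + (11 / 20 : ℂ) • s 0 + (11 / 20 : ℂ) • s 2) 2 = _
    simp [s, lp.single_apply]
  · rw [upd, upd]
    simp [s, lp.single_apply]; norm_num

theorem main [Fact (1 ≤ (4 : ℝ≥0∞))] :
    numIndex ℂ (lp (fun _ : ℕ => ℂ) 4) < numIndex ℂ (PiLp 4 fun _ : Fin 2 => ℂ) := by
  linarith [lower2, upperN]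

end Pool.Agent.H90.NumIdx
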