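import Pool.Agent.H90.NumIdxDefs2

namespace Pool.Agent.H90.NumIdx.Two

open ComplexConjugate Filter Topology RCLike MeasureTheory
open scoped ENNReal

lemma young (g x : ℝ) : 4 * (g ^ 3 * x) ≤ 3 * g ^ 4 + x ^ 4 := by
  nlinarith [mul_nonneg (sq_nonneg (x - g)) (sq_nonneg (x + g)),
    mul_nonneg (sq_nonneg (x - g)) (sq_nonneg g)]

lemma sos (r t : ℝ) : (r / 10 + t) ^ 2 * (r ^ 2 + t ^ 2 / 2) ^ 2 + (r ^ 3 - 2 / 7 * t ^ 3) ^ 2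
    ≤ 2 * (147 / 250) * (r ^ 2 + t ^ 2 / 2) * (r ^ 4 + t ^ 4) := by
  nlinarith [sq_nonneg (982 * r ^ 3 - 4076 * r ^ 2 * t - 494 * r * t ^ 2 + 5059 * t ^ 3),
    sq_nonneg (3949 * r ^ 3 - 1519 * r ^ 2 * t - 7631 * r * t ^ 2), sq_nonneg (r ^ 3 - r ^ 2 * t),
    sq_nonneg (r ^ 3 + r ^ 2 * t), sq_nonneg (r ^ 2 * t - r * t ^ 2),
    sq_nonneg (r ^ 2 * t + r * t ^ 2), sq_nonneg (r * t ^ 2 - t ^ 3), sq_nonneg (r * t ^ 2 + t ^ 3),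
    sq_nonneg (r ^ 3), sq_nonneg (r ^ 2 * t), sq_nonneg (r * t ^ 2), sq_nonneg (t ^ 3)]

lemma arith (r t X S D : ℝ) (hX : |X| ≤ r * t) (hS : S ^ 2 = r ^ 2 / 100 + t ^ 2 + X / 5)
    (hD : D ^ 2 = r ^ 6 + 4 / 49 * t ^ 6 - 4 / 7 * (r ^ 2 * t ^ 2) * X) :
    S * D ≤ 147 / 250 * (r ^ 4 + t ^ 4) := by
  obtain ⟨L, hL⟩ : ∃ L, L = r ^ 2 + t ^ 2 / 2 := ⟨_, rfl⟩
  have hL0 : 0 ≤ L := by rw [hL]; positivity
  rcases hL0.eq_or_lt with h0 | h0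
  · have hr : r = 0 := by nlinarith [sq_nonneg r, sq_nonneg t]
    have ht : t = 0 := by nlinarith [sq_nonneg r, sq_nonneg t]
    have : D = 0 := by rw [hr, ht] at hD; simpa using hD
    simp [this, hr, ht]
  have h1 : 2 * L * (S * D) ≤ S ^ 2 * L ^ 2 + D ^ 2 := by nlinarith [sq_nonneg (S * L - D)]
  have a1 := sos r t
  have a2 := sos r (-t)
  have h2 : S ^ 2 * L ^ 2 + D ^ 2 ≤ 2 * L * (147 / 250 * (r ^ 4 + t ^ 4)) := by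
    obtain ⟨b1, b2⟩ := abs_le.1 hX
    rw [hS, hD]
    rcases le_total 0 (L ^ 2 / 5 - 4 / 7 * (r ^ 2 * t ^ 2)) with hk | hk
    · have := mul_le_mul_of_nonneg_left b2 hk
      rw [hL] at this ⊢; linarith
    · have := mul_le_mul_of_nonpos_left b1 hk
      rw [hL] at this ⊢; linarith
  exact le_of_mul_le_mul_left (h1.trans h2) (by linarith)

variable {𝕜 : Type*} [RCLike 𝕜]

lemma vB (u w : 𝕜) : ‖(((1 / 10 : ℝ) : 𝕜) * u + w) *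
    (u * conj u * conj u - ((2 / 7 : ℝ) : 𝕜) * (w * conj w * conj w))‖
    ≤ 147 / 250 * (‖u‖ ^ 4 + ‖w‖ ^ 4) := by
  rw [norm_mul]
  have hu : ‖u‖ ^ 2 = re u * re u + im u * im u := by rw [← normSq_eq_def', normSq_apply]
  have hw : ‖w‖ ^ 2 = re w * re w + im w * im w := by rw [← normSq_eq_def', normSq_apply]
  refine arith ‖u‖ ‖w‖ (re (u * conj w)) _ _ ?_ ?_ ?_
  · simpa using abs_re_le_norm (u * conj w)
  · rw [← normSq_eq_def', normSq_apply, hu, hw]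
    simp only [map_add, mul_re, mul_im, conj_re, conj_im, ofReal_re, ofReal_im]; ring
  · have e1 : ‖u‖ ^ 6 = (‖u‖ ^ 2) ^ 3 := by ring
    have e2 : ‖w‖ ^ 6 = (‖w‖ ^ 2) ^ 3 := by ring
    rw [← normSq_eq_def', normSq_apply, e1, e2, hu, hw]
    simp only [map_sub, mul_re, mul_im, conj_re, conj_im, ofReal_re, ofReal_im]; ring

section Gen
variable {X : Type*} [NormedAddCommGroup X] [NormedSpace 𝕜 X]

lemma rad_nonneg (T : X →L[𝕜] X) : 0 ≤ numRadius 𝕜 T :=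
  Real.sSup_nonneg (by rintro r ⟨z, -, rfl⟩; exact norm_nonneg _)

lemma supp (g p : X →L[𝕜] 𝕜) (x e : X) (hx : ‖x‖ = 1) (hg : ‖g‖ = 1) (hgx : g x = 1)
    (he : ∀ c : 𝕜, ‖x + c • e‖ ^ 4 = ‖x‖ ^ 4 - ‖p x‖ ^ 4 + ‖p x + c‖ ^ 4) :
    g e = p x * conj (p x) * conj (p x) := by
  generalize p x = u at *
  obtain ⟨δ, hδ⟩ : ∃ δ, δ = g e - u * conj u * conj u := ⟨_, rfl⟩
  obtain ⟨R, hR⟩ : ∃ R, R = re (conj u * conj δ) := ⟨_, rfl⟩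
  obtain ⟨P, hP⟩ : ∃ P, P = normSq u := ⟨_, rfl⟩
  obtain ⟨Z, hZ⟩ : ∃ Z, Z = normSq δ := ⟨_, rfl⟩
  have key : ∀ ε : ℝ, 0 < ε → Z ≤ ε * (R ^ 2 + P * Z / 2 + ε * R * Z + ε ^ 2 * Z ^ 2 / 4) := by
    intro ε hε
    have h1 := he (ε * conj δ)
    have h2 := (re_le_norm _).trans (g.le_opNorm (x + ((ε : 𝕜) * conj δ) • e))
    have h3 := young 1 ‖x + ((ε : 𝕜) * conj δ) • e‖
    have h4 : ‖u + ε * conj δ‖ ^ 4 = (P + 2 * ε * R + ε ^ 2 * Z) ^ 2 := by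
      have : ‖u + ε * conj δ‖ ^ 2 = P + 2 * ε * R + ε ^ 2 * Z := by
        rw [← normSq_eq_def', hR, hP, hZ]
        simp only [normSq_apply, map_add, mul_re, mul_im, conj_re, conj_im, ofReal_re, ofReal_im]
        ring
      rw [← this]; ring
    have h5 : ‖u‖ ^ 4 = P ^ 2 := by rw [hP, normSq_eq_def']; ring
    have h6 : re (g (x + ((ε : 𝕜) * conj δ) • e)) = 1 + ε * (Z + P * R) := by
      have : g e = δ + u * conj u * conj u := by rw [hδ]; ring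
      rw [map_add, map_smul, hgx, this, hR, hP, hZ]
      simp only [normSq_apply, map_add, mul_re, mul_im, conj_re, conj_im, ofReal_re, ofReal_im,
        smul_eq_mul, one_re]
      ring
    rw [h4, h5, hx] at h1
    rw [h6, hg] at h2
    have : ε * Z ≤ ε * (ε * (R ^ 2 + P * Z / 2 + ε * R * Z + ε ^ 2 * Z ^ 2 / 4)) := by
      linarith
    exact le_of_mul_le_mul_left this hε
  have hc : Continuous fun ε : ℝ => ε * (R ^ 2 + P * Z / 2 + ε * R * Z + ε ^ 2 * Z ^ 2 / 4) := by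
    fun_prop
  have ht := (hc.tendsto 0).mono_left (nhdsWithin_le_nhds (s := Set.Ioi 0))
  have : Z ≤ 0 := by
    simpa using ge_of_tendsto ht (eventually_nhdsWithin_of_forall key)
  have : normSq δ = 0 := le_antisymm (hZ ▸ this) (normSq_nonneg _)
  rw [normSq_eq_zero, hδ] at this
  exact sub_eq_zero.1 this

lemma upper2 (p0 p1 : X →L[𝕜] 𝕜) (e0 e1 : X)
    (he0 : ∀ (x : X) (c : 𝕜), ‖x + c • e0‖ ^ 4 = ‖x‖ ^ 4 - ‖p0 x‖ ^ 4 + ‖p0 x + c‖ ^ 4)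
    (he1 : ∀ (x : X) (c : 𝕜), ‖x + c • e1‖ ^ 4 = ‖x‖ ^ 4 - ‖p1 x‖ ^ 4 + ‖p1 x + c‖ ^ 4)
    (hs : ∀ x : X, ‖p0 x‖ ^ 4 + ‖p1 x‖ ^ 4 ≤ ‖x‖ ^ 4)
    (h00 : p0 e0 = 1) (h01 : p0 e1 = 0) (h10 : p1 e0 = 0) (h11 : p1 e1 = 1) :
    ∃ (T : X →L[𝕜] X) (f : StrongDual 𝕜 X) (y : X), (∀ x, T x = f x • y) ∧ ‖T‖ = 1 ∧
      ∀ (x : X) (g : X →L[𝕜] 𝕜), ‖x‖ = 1 → ‖g‖ = 1 → g x = 1 → ‖g (T x)‖ ≤ 71 / 125 := by
  let f : X →L[𝕜] 𝕜 := ((1 / 10 : ℝ) : 𝕜) • p0 + p1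
  have hf : ∀ z, f z = ((1 / 10 : ℝ) : 𝕜) * p0 z + p1 z := fun z => rfl
  obtain ⟨T, hT⟩ : ∃ T : X →L[𝕜] X, ∀ z, T z = f z • (e0 + ((-2 / 7 : ℝ) : 𝕜) • e1) :=
    ⟨f.smulRight _, fun z => rfl⟩
  have n0 : ‖e0‖ ^ 4 = 1 := by simpa using he0 0 1
  have n1 : ‖e1‖ ^ 4 = 1 := by simpa using he1 0 1
  have hy : ‖e0 + ((-2 / 7 : ℝ) : 𝕜) • e1‖ ^ 4 = 1 + (2 / 7) ^ 4 := by
    rw [he1, n0, h10, zero_add, norm_ofReal, norm_zero]; norm_num [abs_of_neg]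
  have hx : ‖e1 + ((23 / 50 : ℝ) : 𝕜) • e0‖ ^ 4 = 1 + (23 / 50) ^ 4 := by
    rw [he0, n1, h01, zero_add, norm_ofReal, norm_zero]; norm_num [abs_of_pos]
  have hN : 259 / 250 ≤ ‖T‖ := by
    have h1 := T.le_opNorm (e1 + ((23 / 50 : ℝ) : 𝕜) • e0)
    have h2 : ‖T (e1 + ((23 / 50 : ℝ) : 𝕜) • e0)‖ ^ 4 = (523 / 500) ^ 4 * (1 + (2 / 7) ^ 4) := by
      have : f (e1 + ((23 / 50 : ℝ) : 𝕜) • e0) = ((523 / 500 : ℝ) : 𝕜) := by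
        rw [hf, map_add, map_add, map_smul, map_smul, h00, h01, h10, h11]
        simp only [smul_eq_mul]; push_cast; norm_num
      rw [hT, norm_smul, mul_pow, hy, this, norm_ofReal]; norm_num [abs_of_pos]
    have h3 := pow_le_pow_left₀ (norm_nonneg _) h1 4
    rw [h2, mul_pow, hx] at h3
    refine le_of_pow_le_pow_left₀ (n := 4) (by norm_num) (norm_nonneg _) ?_
    linarith
  have hpos : 0 < ‖T‖ := by linarith
  refine ⟨(‖T‖ : 𝕜)⁻¹ • T, (‖T‖ : 𝕜)⁻¹ • f, e0 + ((-2 / 7 : ℝ) : 𝕜) • e1, fun x => ?_, ?_, ?_⟩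
  · simp only [smul_apply, hT, smul_eq_mul, mul_smul]
  · rw [norm_smul, norm_inv, norm_ofReal, abs_norm, inv_mul_cancel₀ hpos.ne']
  intro x g hx hg hgx
  have g0 := supp g p0 x e0 hx hg hgx (he0 x)
  have g1 := supp g p1 x e1 hx hg hgx (he1 x)
  have h1 := vB (p0 x) (p1 x)
  have h2 := hs x
  rw [hx] at h2
  have e : g (e0 + ((-2 / 7 : ℝ) : 𝕜) • e1) = p0 x * conj (p0 x) * conj (p0 x)
      - ((2 / 7 : ℝ) : 𝕜) * (p1 x * conj (p1 x) * conj (p1 x)) := by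
    rw [map_add, map_smul, g0, g1, smul_eq_mul]; push_cast; ring
  rw [smul_apply, hT, map_smul, map_smul, e, hf, norm_smul,
    smul_eq_mul, norm_inv, norm_ofReal, abs_norm, inv_mul_le_iff₀ hpos]
  linarith

end Gen

lemma kappa4 : 71 / 125 < 1 / ((4 : ℝ) ^ (1 / 4 : ℝ) * (4 / 3 : ℝ) ^ (3 / 4 : ℝ)) := by
  have h1 : ((4 : ℝ) ^ (1 / 4 : ℝ) * (4 / 3 : ℝ) ^ (3 / 4 : ℝ)) ^ 4 = 256 / 27 := by
    rw [mul_pow, ← Real.rpow_natCast, ← Real.rpow_natCast, ← Real.rpow_mul (by norm_num),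
      ← Real.rpow_mul (by norm_num)]
    norm_num
  have h0 : 0 < (4 : ℝ) ^ (1 / 4 : ℝ) * (4 / 3 : ℝ) ^ (3 / 4 : ℝ) := by positivity
  generalize (4 : ℝ) ^ (1 / 4 : ℝ) * (4 / 3 : ℝ) ^ (3 / 4 : ℝ) = A at *
  have : A < 125 / 71 := lt_of_pow_lt_pow_left₀ 4 (by norm_num) (by rw [h1]; norm_num)
  rw [lt_div_iff₀ h0]; linarith

lemma kappa4' : 71 / 125 < kappa 4 := by
  have := kappa4
  unfold kappa
  norm_num at this ⊢
  exact this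

lemma plane [Fact (1 ≤ (4 : ℝ≥0∞))] :
    ∃ T : PiLp 4 (fun _ : Fin 2 => 𝕜) →L[𝕜] PiLp 4 (fun _ : Fin 2 => 𝕜), ‖T‖ = 1 ∧
      ∀ x (g : PiLp 4 (fun _ : Fin 2 => 𝕜) →L[𝕜] 𝕜), ‖x‖ = 1 → ‖g‖ = 1 → g x = 1 →
        ‖g (T x)‖ ≤ 71 / 125 := by
  have hn : ∀ z : PiLp 4 (fun _ : Fin 2 => 𝕜), ‖z‖ ^ 4 = ‖z 0‖ ^ 4 + ‖z 1‖ ^ 4 := by
    intro z
    rw [PiLp.norm_eq_of_nat 4 (by norm_num), one_div,
      Real.rpow_inv_natCast_pow (by positivity) (by norm_num)]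
    simp
  obtain ⟨T, -, -, -, h⟩ := upper2 (X := PiLp 4 (fun _ : Fin 2 => 𝕜)) (PiLp.proj 4 _ 0)
    (PiLp.proj 4 _ 1) (PiLp.single 4 0 1) (PiLp.single 4 1 1)
    (fun x c => by rw [hn, hn x]; simp; ring) (fun x c => by rw [hn, hn x]; simp)
    (fun x => by rw [hn]; simp) (by simp) (by simp) (by simp) (by simp)
  exact ⟨T, h⟩

section Meas
variable {Ω : Type*} [MeasurableSpace Ω] {μ : Measure Ω} [Fact (1 ≤ (4 : ℝ≥0∞))]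

lemma at_pt {a : Ω} (ha : μ {a} = 1) {P : Ω → Prop} (h : ∀ᵐ x ∂μ, P x) : P a := by
  by_contra hn
  have : μ {a} = 0 := measure_mono_null (by simpa using hn) (ae_iff.1 h)
  simp [ha] at this

lemma int4 (x : Lp 𝕜 4 μ) : Integrable (fun t => ‖x t‖ ^ 4) μ := by
  have := (Lp.memLp x).integrable_norm_rpow (by norm_num) (by norm_num)
  simpa using this

lemma nrm4 (x : Lp 𝕜 4 μ) : ‖x‖ ^ 4 = ∫ t, ‖x t‖ ^ 4 ∂μ := by
  have h := (Lp.memLp x).eLpNorm_eq_integral_rpow_norm (by norm_num) (by norm_num)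
  have h0 : 0 ≤ ∫ t, ‖x t‖ ^ 4 ∂μ := integral_nonneg fun t => by positivity
  have e : (4 : ℝ≥0∞).toReal = ((4 : ℕ) : ℝ) := by norm_num
  rw [e] at h
  simp only [Real.rpow_natCast] at h
  rw [Lp.norm_def, h, ENNReal.toReal_ofReal (by positivity),
    Real.rpow_inv_natCast_pow h0 (by norm_num)]

lemma split4 {a : Ω} (hm : MeasurableSet {a}) (ha : μ {a} = 1) (x : Lp 𝕜 4 μ) :
    ‖x‖ ^ 4 = ‖x a‖ ^ 4 + ∫ t in {a}ᶜ, ‖x t‖ ^ 4 ∂μ := by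
  rw [nrm4, ← integral_add_compl hm (int4 x), setIntegral_congr_fun (g := fun _ => ‖x a‖ ^ 4) hm
    (fun t ht => by rw [Set.mem_singleton_iff.1 ht])]
  simp [Measure.real, ha]

noncomputable def ev {a : Ω} (hm : MeasurableSet {a}) (ha : μ {a} = 1) : Lp 𝕜 4 μ →L[𝕜] 𝕜 :=
  LinearMap.mkContinuous
    { toFun := fun x => x a
      map_add' := fun x y => at_pt ha (Lp.coeFn_add x y)
      map_smul' := fun c x => at_pt ha (Lp.coeFn_smul c x) } 1 fun x => by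
    have h1 := split4 hm ha x
    have h0 : 0 ≤ ∫ t in {a}ᶜ, ‖x t‖ ^ 4 ∂μ := integral_nonneg fun t => by positivity
    rw [one_mul]
    exact le_of_pow_le_pow_left₀ (n := 4) (by norm_num) (norm_nonneg _) (by
      change ‖x a‖ ^ 4 ≤ _; linarith)

noncomputable def dl {a : Ω} (hm : MeasurableSet {a}) (ha : μ {a} = 1) : Lp 𝕜 4 μ :=
  indicatorConstLp 4 hm (by simp [ha]) 1

lemma dl_ae {a : Ω} (hm : MeasurableSet {a}) (ha : μ {a} = 1) :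
    (dl hm ha : Lp 𝕜 4 μ) =ᵐ[μ] Set.indicator {a} fun _ => 1 := indicatorConstLp_coeFn

lemma upd {a : Ω} (hm : MeasurableSet {a}) (ha : μ {a} = 1) (x : Lp 𝕜 4 μ) (c : 𝕜) :
    ‖x + c • dl hm ha‖ ^ 4 = ‖x‖ ^ 4 - ‖ev hm ha x‖ ^ 4 + ‖ev hm ha x + c‖ ^ 4 := by
  have h : ∀ᵐ t ∂μ, (x + c • (dl hm ha : Lp 𝕜 4 μ)) t = x t + c * Set.indicator {a} (fun _ => 1) t := by
    filter_upwards [Lp.coeFn_add x (c • dl hm ha), Lp.coeFn_smul c (dl hm ha : Lp 𝕜 4 μ),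
      dl_ae (𝕜 := 𝕜) hm ha] with t h1 h2 h3
    rw [h1, Pi.add_apply, h2, Pi.smul_apply, h3, smul_eq_mul]
  have e : ∫ t in {a}ᶜ, ‖(x + c • (dl hm ha : Lp 𝕜 4 μ)) t‖ ^ 4 ∂μ = ∫ t in {a}ᶜ, ‖x t‖ ^ 4 ∂μ := by
    refine setIntegral_congr_ae hm.compl ?_
    filter_upwards [h] with t ht hta
    rw [ht, Set.indicator_of_notMem hta]; simp
  rw [split4 hm ha, split4 hm ha x, e, at_pt ha h]
  change _ = _ - ‖x a‖ ^ 4 + ‖x a + c‖ ^ 4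
  simp; ring

lemma ev_dl {a b : Ω} (hm : MeasurableSet {a}) (ha : μ {a} = 1) (hm' : MeasurableSet {b})
    (hb : μ {b} = 1) : ev hm ha (dl hm' hb : Lp 𝕜 4 μ) = Set.indicator {b} (fun _ => 1) a :=
  at_pt ha (dl_ae hm' hb)

lemma sum_le (s : Finset Ω) (hm : ∀ a ∈ s, MeasurableSet {a}) (ha : ∀ a ∈ s, μ {a} = 1)
    (x : Lp 𝕜 4 μ) : ∑ a ∈ s, ‖x a‖ ^ 4 ≤ ‖x‖ ^ 4 := by
  have h1 : ∀ a ∈ s, ‖x a‖ ^ 4 = ∫ t in {a}, ‖x t‖ ^ 4 ∂μ := fun a h => by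
    rw [setIntegral_congr_fun (g := fun _ => ‖x a‖ ^ 4) (hm a h)
      (fun t ht => by rw [Set.mem_singleton_iff.1 ht])]
    simp [Measure.real, ha a h]
  rw [Finset.sum_congr rfl h1, ← integral_biUnion_finset s hm
    (fun a _ b _ hab => by simpa using hab) (fun a _ => (int4 x).integrableOn), nrm4]
  exact setIntegral_le_integral (int4 x) (Eventually.of_forall fun t => by positivity)

theorem rankOne_lt (𝕜 : Type*) [RCLike 𝕜] {a b : Ω} (hab : a ≠ b) (hm : MeasurableSet {a})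
    (hm' : MeasurableSet {b}) (ha : μ {a} = 1) (hb : μ {b} = 1) :
    rankOneIndex 𝕜 (Lp 𝕜 4 μ) < kappa 4 := by
  classical
  obtain ⟨T, f, y, h1, h2, h3⟩ := upper2 (𝕜 := 𝕜) (ev hm ha) (ev hm' hb) (dl hm ha) (dl hm' hb)
    (upd hm ha) (upd hm' hb)
    (fun x => by
      have := sum_le {a, b} (by simp [hm, hm']) (by simp [ha, hb]) x
      rwa [Finset.sum_pair hab] at this)
    (by simp [ev_dl]) (by simp [ev_dl, hab]) (by simp [ev_dl, hab.symm]) (by simp [ev_dl])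
  refine lt_of_le_of_lt (le_trans (b := numRadius 𝕜 T) (csInf_le ⟨0, ?_⟩ ⟨T, f, y, h1, h2, rfl⟩) ?_)
    kappa4'
  · rintro _ ⟨S, -, -, -, -, rfl⟩; exact rad_nonneg S
  · refine Real.sSup_le ?_ (by norm_num)
    rintro _ ⟨_, ⟨x, g, hx, hg, hgx, rfl⟩, rfl⟩
    exact h3 x g hx hg hgx

theorem index_lt (𝕜 : Type*) [RCLike 𝕜] {a b : Ω} (hab : a ≠ b) (hm : MeasurableSet {a})
    (hm' : MeasurableSet {b}) (ha : μ {a} = 1) (hb : μ {b} = 1) :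
    numIndex 𝕜 (Lp 𝕜 4 μ) < kappa 4 := by
  classical
  obtain ⟨T, f, y, h1, h2, h3⟩ := upper2 (𝕜 := 𝕜) (ev hm ha) (ev hm' hb) (dl hm ha) (dl hm' hb)
    (upd hm ha) (upd hm' hb)
    (fun x => by
      have := sum_le {a, b} (by simp [hm, hm']) (by simp [ha, hb]) x
      rwa [Finset.sum_pair hab] at this)
    (by simp [ev_dl]) (by simp [ev_dl, hab]) (by simp [ev_dl, hab.symm]) (by simp [ev_dl])
  refine lt_of_le_of_lt (le_trans (b := numRadius 𝕜 T) (csInf_le ⟨0, ?_⟩ ⟨T, h2, rfl⟩) ?_)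
    kappa4'
  · rintro _ ⟨S, -, rfl⟩; exact rad_nonneg S
  · refine Real.sSup_le ?_ (by norm_num)
    rintro _ ⟨_, ⟨x, g, hx, hg, hgx, rfl⟩, rfl⟩
    exact h3 x g hx hg hgx

end Meas

end Pool.Agent.H90.NumIdx.Two
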