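import Pool.Agent.H90.PhaseMuDefs

namespace Pool.Agent.H90.PhaseMu

open Complex

/-- Real form of the sector condition. -/
def Sec (θ : ℝ) (z : ℂ) : Prop := 0 ≤ z.re ∧ |z.im| * Real.cos θ ≤ z.re * Real.sin θ

lemma cos_nn {θ : ℝ} (h0 : 0 ≤ θ) (h1 : θ ≤ Real.pi / 2) : 0 ≤ Real.cos θ :=
  Real.cos_nonneg_of_mem_Icc ⟨by linarith [Real.pi_pos], h1⟩

lemma sin_nn {θ : ℝ} (h0 : 0 ≤ θ) (h1 : θ ≤ Real.pi / 2) : 0 ≤ Real.sin θ :=
  Real.sin_nonneg_of_nonneg_of_le_pi h0 (by linarith [Real.pi_pos])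

lemma mem_sector_iff {θ : ℝ} (h0 : 0 ≤ θ) (h1 : θ ≤ Real.pi / 2) (z : ℂ) :
    z ∈ sector θ ↔ Sec θ z := by
  by_cases hz : z = 0
  · subst hz; simp [sector, Sec]
  have hn : 0 < ‖z‖ := norm_pos_iff.mpr hz
  have hre : z.re = ‖z‖ * Real.cos |arg z| := by
    rw [Real.cos_abs, Complex.cos_arg hz]; field_simp
  have him : |z.im| = ‖z‖ * Real.sin |arg z| := by
    have h2 : z.im = ‖z‖ * Real.sin (arg z) := by rw [Complex.sin_arg]; field_simp
    rw [h2, abs_mul, abs_of_pos hn]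
    congr 1
    rcases le_total 0 (arg z) with h | h
    · rw [abs_of_nonneg h, abs_of_nonneg
        (Real.sin_nonneg_of_nonneg_of_le_pi h (Complex.arg_le_pi z))]
    · rw [abs_of_nonpos h, Real.sin_neg, abs_of_nonpos
        (Real.sin_nonpos_of_nonpos_of_neg_pi_le h (Complex.neg_pi_lt_arg z).le)]
  have key : z.re * Real.sin θ - |z.im| * Real.cos θ = ‖z‖ * Real.sin (θ - |arg z|) := by
    rw [hre, him, Real.sin_sub]; ring
  have ha0 : 0 ≤ |arg z| := abs_nonneg _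
  simp only [sector, Set.mem_ofPred_eq, hz, false_or, Sec]
  constructor
  · intro h
    refine ⟨Complex.abs_arg_le_pi_div_two_iff.mp (h.trans h1), ?_⟩
    have : 0 ≤ Real.sin (θ - |arg z|) :=
      Real.sin_nonneg_of_nonneg_of_le_pi (by linarith) (by linarith [Real.pi_pos])
    nlinarith [mul_nonneg hn.le this]
  · rintro ⟨h2, h3⟩
    have h4 := Complex.abs_arg_le_pi_div_two_iff.mpr h2
    by_contra hc
    push Not at hc
    have : Real.sin (θ - |arg z|) < 0 :=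
      Real.sin_neg_of_neg_of_neg_pi_lt (by linarith) (by linarith [Real.pi_pos])
    nlinarith [mul_neg_of_pos_of_neg hn this]

lemma Sec.smul {θ : ℝ} {z : ℂ} (h : Sec θ z) {t : ℝ} (ht : 0 ≤ t) : Sec θ ((t : ℂ) * z) := by
  obtain ⟨h1, h2⟩ := h
  refine ⟨by simp; positivity, ?_⟩
  have e1 : ((t : ℂ) * z).re = t * z.re := by simp
  have e2 : ((t : ℂ) * z).im = t * z.im := by simp
  rw [e1, e2, abs_mul, abs_of_nonneg ht]
  nlinarith [mul_le_mul_of_nonneg_left h2 ht]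

lemma Sec.conj {θ : ℝ} {z : ℂ} (h : Sec θ z) : Sec θ ((starRingEnd ℂ) z) := by
  obtain ⟨h1, h2⟩ := h
  refine ⟨by simpa using h1, ?_⟩
  simpa using h2

lemma Sec.zero (θ : ℝ) : Sec θ 0 := by simp [Sec]

variable {n : ℕ}

/-- A vector is a nonnegative multiple of a unit vector. -/
lemma exists_unit (y : E n) (hy : y ≠ 0) : ∃ u : E n, ‖u‖ = 1 ∧ y = ((‖y‖ : ℝ) : ℂ) • u := by
  have hn : ‖y‖ ≠ 0 := norm_ne_zero_iff.mpr hy
  have hc : ((‖y‖ : ℝ) : ℂ) ≠ 0 := by exact_mod_cast hn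
  refine ⟨((‖y‖ : ℝ) : ℂ)⁻¹ • y, ?_, ?_⟩
  · rw [norm_smul, norm_inv]; simp [hn]
  · rw [smul_smul, mul_inv_cancel₀ hc, one_smul]

lemma sec_all {θ : ℝ} {T : E n →L[ℂ] E n}
    (h : ∀ x : E n, ‖x‖ = 1 → Sec θ (inner ℂ x (T x))) (y : E n) : Sec θ (inner ℂ y (T y)) := by
  by_cases hy : y = 0
  · subst hy; simpa using Sec.zero θ
  obtain ⟨u, hu, e⟩ := exists_unit y hy
  have : inner ℂ y (T y) = (((‖y‖ ^ 2 : ℝ)) : ℂ) * inner ℂ u (T u) := by
    conv_lhs => rw [e]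
    rw [map_smul, inner_smul_left, inner_smul_right]
    simp; ring
  rw [this]
  exact (h u hu).smul (by positivity)

/-- Necessity: a sectorial contraction taking the unit vector `u` to the unit vector `v` forces
`cos θ ≤ Re ⟪u, v⟫`. -/
lemma necessity {θ : ℝ} (h0 : 0 ≤ θ) (h1 : θ ≤ Real.pi / 2) (T : E n →L[ℂ] E n)
    (hT : ‖T‖ ≤ 1) (hS : ∀ y : E n, Sec θ (inner ℂ y (T y))) (u v : E n) (hu : ‖u‖ = 1)
    (hv : ‖v‖ = 1) (huv : T u = v) : Real.cos θ ≤ (inner ℂ u v).re := by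
  have hc := cos_nn h0 h1
  have hs := sin_nn h0 h1
  set S := ContinuousLinearMap.adjoint T with hSdef
  have hSn : ‖S‖ ≤ 1 := by rw [hSdef, LinearIsometryEquiv.norm_map]; exact hT
  have hSv : S v = u := by
    have a1 : ‖S v‖ ≤ 1 := by
      have := S.le_opNorm v
      rw [hv] at this; linarith
    have a2 : inner ℂ (S v) u = 1 := by
      rw [hSdef, ContinuousLinearMap.adjoint_inner_left, huv, inner_self_eq_norm_sq_to_K, hv]
      simp
    have a3 : ‖S v - u‖ ^ 2 = ‖S v‖ ^ 2 - 2 * RCLike.re (inner ℂ (S v) u) + ‖u‖ ^ 2 :=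
      norm_sub_sq (𝕜 := ℂ) _ _
    rw [a2, hu] at a3
    simp at a3
    have a4 : ‖S v - u‖ ^ 2 ≤ 0 := by nlinarith [norm_nonneg (S v)]
    have a5 : ‖S v - u‖ = 0 := by nlinarith [norm_nonneg (S v - u)]
    exact sub_eq_zero.mp (norm_eq_zero.mp a5)
  set a := inner ℂ u v with ha
  set τ := inner ℂ u (T v) with hτ
  have hvv : inner ℂ v (T v) = a := by
    rw [← ContinuousLinearMap.adjoint_inner_left, ← hSdef, hSv]
  have hvu : inner ℂ v v = (1 : ℂ) := by rw [inner_self_eq_norm_sq_to_K, hv]; simp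
  have key : ∀ e : ℂ, (starRingEnd ℂ) e * e = 1 →
      Sec θ (2 * a + e * τ + (starRingEnd ℂ) e) := by
    intro e he
    have := hS (u + e • v)
    rw [map_add, map_smul, huv, inner_add_left, inner_add_right, inner_add_right,
      inner_smul_left, inner_smul_left, inner_smul_right, inner_smul_right, hvv, hvu, ← ha,
      ← hτ] at this
    convert this using 1
    linear_combination (-a) * he
  have hcs := Real.cos_sq_add_sin_sq θ
  have k1 := key ⟨-Real.cos θ, Real.sin θ⟩ (by apply Complex.ext <;> simp <;> nlinarith)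
  have k2 := key ⟨-Real.cos θ, -Real.sin θ⟩ (by apply Complex.ext <;> simp <;> nlinarith)
  have k3 := key ⟨0, 1⟩ (by apply Complex.ext <;> simp)
  have k4 := key ⟨0, -1⟩ (by apply Complex.ext <;> simp)
  simp only [Sec] at k1 k2 k3 k4
  generalize Real.cos θ = c at *
  generalize Real.sin θ = s at *
  simp at k1 k2 k3 k4
  obtain ⟨k11, k12⟩ := k1
  obtain ⟨k21, k22⟩ := k2
  obtain ⟨k31, k32⟩ := k3
  obtain ⟨k41, k42⟩ := k4
  rcases hs.eq_or_lt with hs0 | hs0
  · subst hs0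
    have hc1 : c = 1 := by nlinarith
    subst hc1
    have b3 := le_abs_self (2 * a.im + τ.re + -1)
    have b3' := neg_abs_le (2 * a.im + τ.re + -1)
    have b4 := le_abs_self (2 * a.im + -τ.re + 1)
    have b4' := neg_abs_le (2 * a.im + -τ.re + 1)
    linarith
  · have b1 := mul_le_mul_of_nonneg_right
      (neg_le_abs (2 * a.im + (-(c * τ.im) + s * τ.re) + -s)) hc
    have b2 := mul_le_mul_of_nonneg_right
      (le_abs_self (2 * a.im + (-(c * τ.im) + -(s * τ.re)) + s)) hc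
    have b3 : 0 ≤ s * (a.re - c) := by nlinarith
    by_contra hh
    push Not at hh
    nlinarith [mul_pos hs0 (sub_pos.mpr hh)]

/-- Construction: a sectorial isometry taking `u` to `v` when `cos θ ≤ Re ⟪u, v⟫`. -/
lemma construct {θ : ℝ} (h0 : 0 ≤ θ) (h1 : θ ≤ Real.pi / 2) (u v : E n) (hu : ‖u‖ = 1)
    (hv : ‖v‖ = 1) (h : Real.cos θ ≤ (inner ℂ u v).re) :
    ∃ T : E n →L[ℂ] E n, ‖T‖ ≤ 1 ∧ (∀ y : E n, Sec θ (inner ℂ y (T y))) ∧ T u = v := by
  have hc := cos_nn h0 h1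
  have hs := sin_nn h0 h1
  have hcs := Real.cos_sq_add_sin_sq θ
  set a := inner ℂ u v with ha
  have hauv : ‖a‖ ≤ 1 := by
    have := norm_inner_le_norm (𝕜 := ℂ) u v
    rwa [hu, hv, one_mul] at this
  have ha2 : a.re ^ 2 + a.im ^ 2 ≤ 1 := by
    have e := Complex.sq_norm a
    rw [Complex.normSq_apply] at e
    nlinarith [norm_nonneg a]
  set c := a.re with hcdef
  have hc0 : 0 ≤ c := hc.trans h
  set s := Real.sqrt (1 - c ^ 2) with hsdef
  have hs0 : 0 ≤ s := Real.sqrt_nonneg _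
  have hs2 : s ^ 2 = 1 - c ^ 2 := Real.sq_sqrt (by nlinarith)
  have huu : inner ℂ u u = (1 : ℂ) := by rw [inner_self_eq_norm_sq_to_K, hu]; simp
  have hvv : inner ℂ v v = (1 : ℂ) := by rw [inner_self_eq_norm_sq_to_K, hv]; simp
  have hvu : inner ℂ v u = (starRingEnd ℂ) a := by rw [ha, inner_conj_symm]
  -- `d = s u + i (v - c u)`
  set d : E n := ((s : ℂ) - I * c) • u + I • v with hd
  set δ : ℝ := s - a.im with hδ
  have hdu : inner ℂ d u = (δ : ℂ) := by
    rw [hd, inner_add_left, inner_smul_left, inner_smul_left, huu, hvu]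
    apply Complex.ext
    · simp [hδ, ← hcdef]; ring
    · simp [hδ, ← hcdef]
  have hdd : inner ℂ d d = ((2 * s * δ : ℝ) : ℂ) := by
    conv_lhs => rw [hd]
    rw [inner_add_right, inner_smul_right, inner_smul_right, ← hd, hdu, hd, inner_add_left,
      inner_smul_left, inner_smul_left, hvv, ← ha]
    apply Complex.ext
    · simp [hδ, ← hcdef]; nlinarith
    · simp [hδ, ← hcdef]; ring
  set K : E n →L[ℂ] E n := (s : ℂ) • ContinuousLinearMap.id ℂ (E n) -
    ((δ⁻¹ : ℝ) : ℂ) • (innerSL ℂ d).smulRight d with hK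
  have hKy : ∀ y, K y = (s : ℂ) • y - (((δ⁻¹ : ℝ) : ℂ) * inner ℂ d y) • d := by
    intro y; simp [hK, smul_smul]
  have hKu : K u = (s : ℂ) • u - d := by
    rw [hKy, hdu]
    by_cases h0 : δ = 0
    · have : d = 0 := by
        rw [← inner_self_eq_zero (𝕜 := ℂ), hdd, h0]; simp
      simp [this]
    · have : ((δ⁻¹ : ℝ) : ℂ) * (δ : ℂ) = 1 := by
        rw [← Complex.ofReal_mul, inv_mul_cancel₀ h0]; simp
      rw [this, one_smul]
  have hreal : ∀ y, inner ℂ y (K y) = ((s * ‖y‖ ^ 2 - δ⁻¹ * ‖inner ℂ d y‖ ^ 2 : ℝ) : ℂ) := by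
    intro y
    rw [hKy, inner_sub_right, inner_smul_right, inner_smul_right, inner_self_eq_norm_sq_to_K,
      ← inner_conj_symm y d, mul_assoc, Complex.mul_conj, Complex.normSq_eq_norm_sq]
    simp
  have hnorm : ∀ y, ‖K y‖ ^ 2 = s ^ 2 * ‖y‖ ^ 2 := by
    intro y
    have e1 : ((‖K y‖ ^ 2 : ℝ) : ℂ) = inner ℂ (K y) (K y) := by
      rw [inner_self_eq_norm_sq_to_K]; simp
    have e2 : inner ℂ y y = ((‖y‖ ^ 2 : ℝ) : ℂ) := by
      rw [inner_self_eq_norm_sq_to_K]; simp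
    have e3 : ((δ⁻¹ : ℝ) : ℂ) * ((δ⁻¹ : ℝ) : ℂ) * (δ : ℂ) = ((δ⁻¹ : ℝ) : ℂ) := by
      rw [← Complex.ofReal_mul, ← Complex.ofReal_mul]
      congr 1
      by_cases h0 : δ = 0
      · simp [h0]
      · field_simp
    rw [hKy, inner_sub_left, inner_sub_right, inner_sub_right, inner_smul_left, inner_smul_left,
      inner_smul_left, inner_smul_left, inner_smul_right, inner_smul_right, inner_smul_right,
      inner_smul_right, hdd, e2, ← inner_conj_symm y d] at e1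
    rw [← hKy] at e1
    have e4 : ((‖K y‖ ^ 2 : ℝ) : ℂ) = ((s ^ 2 * ‖y‖ ^ 2 : ℝ) : ℂ) := by
      rw [e1]
      simp only [map_mul, Complex.conj_ofReal]
      push_cast at e3 ⊢
      linear_combination (2 * s * (inner ℂ d y) * (starRingEnd ℂ) (inner ℂ d y)) * e3
    exact_mod_cast e4
  have hbd : ∀ y, |s * ‖y‖ ^ 2 - δ⁻¹ * ‖inner ℂ d y‖ ^ 2| ≤ s * ‖y‖ ^ 2 := by
    intro y
    have e1 := norm_inner_le_norm (𝕜 := ℂ) y (K y)
    rw [hreal, Complex.norm_real, Real.norm_eq_abs] at e1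
    have e2 : ‖K y‖ = s * ‖y‖ := by
      have := hnorm y
      rw [← mul_pow] at this
      exact (pow_left_inj₀ (norm_nonneg _) (by positivity) two_ne_zero).mp this
    rw [e2] at e1
    nlinarith
  refine ⟨(c : ℂ) • ContinuousLinearMap.id ℂ (E n) + I • K, ?_, ?_, ?_⟩
  · refine ContinuousLinearMap.opNorm_le_bound _ zero_le_one fun y => ?_
    have e1 : ‖((c : ℂ) • ContinuousLinearMap.id ℂ (E n) + I • K) y‖ ^ 2 = ‖y‖ ^ 2 := by
      have e0 : ((c : ℂ) • ContinuousLinearMap.id ℂ (E n) + I • K) y = (c : ℂ) • y + I • K y := by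
        simp
      rw [e0, norm_add_sq (𝕜 := ℂ), inner_smul_left, inner_smul_right, hreal, norm_smul,
        norm_smul, mul_pow, mul_pow, hnorm]
      simp [hs2, -Complex.ofReal_pow, -Complex.ofReal_inv]
      ring
    rw [one_mul]
    exact le_of_eq ((pow_left_inj₀ (norm_nonneg _) (norm_nonneg _) two_ne_zero).mp e1)
  · intro y
    have e0 : ((c : ℂ) • ContinuousLinearMap.id ℂ (E n) + I • K) y = (c : ℂ) • y + I • K y := by
      simp
    have e2 : inner ℂ y y = ((‖y‖ ^ 2 : ℝ) : ℂ) := by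
      rw [inner_self_eq_norm_sq_to_K]; simp
    rw [e0, inner_add_right, inner_smul_right, inner_smul_right, hreal, e2]
    have hb := hbd y
    generalize s * ‖y‖ ^ 2 - δ⁻¹ * ‖inner ℂ d y‖ ^ 2 = t at hb
    have hN : 0 ≤ ‖y‖ ^ 2 := by positivity
    generalize ‖y‖ ^ 2 = N at hb hN
    have hsc : s * Real.cos θ ≤ c * Real.sin θ := by
      have q1 : Real.cos θ ^ 2 ≤ c ^ 2 := pow_le_pow_left₀ hc h 2
      apply (pow_le_pow_iff_left₀ (by positivity) (by positivity) two_ne_zero).mp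
      rw [mul_pow, mul_pow, hs2]
      nlinarith
    refine ⟨?_, ?_⟩
    · simp; positivity
    · simp
      nlinarith [mul_le_mul_of_nonneg_right hb hc, mul_le_mul_of_nonneg_right hsc hN]
  · have e0 : ((c : ℂ) • ContinuousLinearMap.id ℂ (E n) + I • K) u = (c : ℂ) • u + I • K u := by
      simp
    rw [e0, hKu, hd]
    have hI : I * I = -1 := Complex.I_mul_I
    match_scalars
    · linear_combination (c : ℂ) * hI
    · linear_combination -hI

end Pool.Agent.H90.PhaseMu
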