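import Pool.Agent.H90.PhaseMuA

namespace Pool.Agent.H90.PhaseMu

open Complex

variable {n : ℕ}

lemma form_expand (T : E n →L[ℂ] E n) (p q : E n) (α β : ℂ) :
    inner ℂ (α • p + β • q) (T (α • p + β • q)) =
      (starRingEnd ℂ) α * α * inner ℂ p (T p) + (starRingEnd ℂ) β * β * inner ℂ q (T q) +
        (starRingEnd ℂ) α * β * inner ℂ p (T q) + (starRingEnd ℂ) β * α * inner ℂ q (T p) := by
  rw [map_add, map_smul, map_smul, inner_add_left, inner_add_right, inner_add_right,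
    inner_smul_left, inner_smul_left, inner_smul_left, inner_smul_left, inner_smul_right,
    inner_smul_right, inner_smul_right, inner_smul_right]
  ring

/-- Factor a rank one positive `2 × 2` matrix. -/
lemma factor (P Q : ℝ) (w : ℂ) (hP : 0 ≤ P) (hQ : 0 ≤ Q) (h : P * Q = normSq w) :
    ∃ α β : ℂ, (starRingEnd ℂ) α * α = P ∧ (starRingEnd ℂ) β * β = Q ∧
      (starRingEnd ℂ) α * β = w ∧ (starRingEnd ℂ) β * α = (starRingEnd ℂ) w := by
  rcases hP.eq_or_lt with h0 | h0
  · have hw : w = 0 := by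
      rw [← h0, zero_mul] at h
      exact normSq_eq_zero.mp h.symm
    refine ⟨0, (Real.sqrt Q : ℝ), by simp [← h0], ?_, by simp [hw], by simp [hw]⟩
    rw [Complex.conj_ofReal, ← Complex.ofReal_mul, Real.mul_self_sqrt hQ]
  · have hs : 0 < Real.sqrt P := Real.sqrt_pos.mpr h0
    have hsc : ((Real.sqrt P : ℝ) : ℂ) ≠ 0 := by exact_mod_cast hs.ne'
    have hss : ((Real.sqrt P : ℝ) : ℂ) * ((Real.sqrt P : ℝ) : ℂ) = P := by
      rw [← Complex.ofReal_mul, Real.mul_self_sqrt hP]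
    have hw : (starRingEnd ℂ) w * w = (P : ℂ) * Q := by
      rw [mul_comm, Complex.mul_conj, ← h]; simp
    refine ⟨(Real.sqrt P : ℝ), w / (Real.sqrt P : ℝ), ?_, ?_, ?_, ?_⟩
    · rw [Complex.conj_ofReal, hss]
    · rw [map_div₀, Complex.conj_ofReal, div_mul_div_comm, hss, hw]
      have : (P : ℂ) ≠ 0 := by exact_mod_cast h0.ne'
      field_simp
    · rw [Complex.conj_ofReal]; field_simp
    · rw [map_div₀, Complex.conj_ofReal]; field_simp

/-- Find the step length at which `I + λ D` becomes singular. -/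
lemma step (u v m : ℝ) (hm : 0 ≤ m) (h : u < 0 ∨ v < 0 ∨ u * v < m) :
    ∃ l : ℝ, 0 ≤ l ∧ 0 ≤ 1 + l * u ∧ 0 ≤ 1 + l * v ∧ (1 + l * u) * (1 + l * v) = l ^ 2 * m := by
  have main : ∀ L : ℝ, 0 ≤ L → 0 ≤ 1 + L * u → 0 ≤ 1 + L * v →
      (1 + L * u) * (1 + L * v) - L ^ 2 * m ≤ 0 →
      ∃ l : ℝ, 0 ≤ l ∧ 0 ≤ 1 + l * u ∧ 0 ≤ 1 + l * v ∧
        (1 + l * u) * (1 + l * v) = l ^ 2 * m := by
    intro L hL hu hv hf
    have hc : ContinuousOn (fun l : ℝ => (1 + l * u) * (1 + l * v) - l ^ 2 * m) (Set.Icc 0 L) := by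
      fun_prop
    obtain ⟨l, ⟨hl0, hl1⟩, hl⟩ := intermediate_value_Icc' hL hc (a := 0) (b := L)
      (show (0 : ℝ) ∈ Set.Icc _ _ from ⟨hf, by norm_num⟩)
    refine ⟨l, hl0, ?_, ?_, by linarith⟩
    · rcases le_total 0 u with h | h
      · positivity
      · nlinarith
    · rcases le_total 0 v with h | h
      · positivity
      · nlinarith
  by_cases huv : u < 0 ∨ v < 0
  · rcases le_total u v with h1 | h1
    · have hu : u < 0 := by rcases huv with h | h <;> linarith
      have e : -1 / u * u = -1 := by field_simp [hu.ne]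
      have hL : 0 ≤ -1 / u := div_nonneg_of_nonpos (by norm_num) hu.le
      refine main (-1 / u) hL (by linarith) (by nlinarith) ?_
      rw [e]; simp; positivity
    · have hv : v < 0 := by rcases huv with h | h <;> linarith
      have e : -1 / v * v = -1 := by field_simp [hv.ne]
      have hL : 0 ≤ -1 / v := div_nonneg_of_nonpos (by norm_num) hv.le
      refine main (-1 / v) hL (by nlinarith) (by linarith) ?_
      rw [e]; simp; positivity
  · push Not at huv
    obtain ⟨hu, hv⟩ := huv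
    have hlt : u * v < m := by
      rcases h with h | h | h
      · linarith
      · linarith
      · exact h
    have hd : 0 < m - u * v := by linarith
    set L := 1 + (1 + u + v) / (m - u * v) with hL
    have hL1 : 1 ≤ L := by
      have : 0 ≤ (1 + u + v) / (m - u * v) := by positivity
      linarith
    have hL2 : 1 + u + v ≤ L * (m - u * v) := by
      rw [hL, add_mul, div_mul_cancel₀ _ hd.ne']; linarith
    refine main L (by linarith) (by positivity) (by positivity) ?_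
    nlinarith

/-- Rank reduction for the three forms `‖z‖²`, `⟪z, A z⟫` and `Re ⟪z, B z⟫`. -/
lemma reduce (A B : E n →L[ℂ] E n) (p q : E n) :
    ∃ z : E n, inner ℂ z z = inner ℂ p p + inner ℂ q q ∧
      inner ℂ z (A z) = inner ℂ p (A p) + inner ℂ q (A q) ∧
      (inner ℂ p (B p) + inner ℂ q (B q)).re ≤ (inner ℂ z (B z)).re := by
  have dep : ∀ (p q : E n) (c : ℂ), p = c • q → ∃ z : E n, ∀ T : E n →L[ℂ] E n,
      inner ℂ z (T z) = inner ℂ p (T p) + inner ℂ q (T q) := by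
    intro p q c hp
    refine ⟨((Real.sqrt (normSq c + 1) : ℝ) : ℂ) • q, fun T => ?_⟩
    have hss : ((Real.sqrt (normSq c + 1) : ℝ) : ℂ) * ((Real.sqrt (normSq c + 1) : ℝ) : ℂ) =
        (starRingEnd ℂ) c * c + 1 := by
      rw [← Complex.ofReal_mul, Real.mul_self_sqrt (by linarith [normSq_nonneg c]), mul_comm,
        Complex.mul_conj]
      simp
    rw [hp, map_smul, map_smul, inner_smul_left, inner_smul_left, inner_smul_right,
      inner_smul_right, Complex.conj_ofReal]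
    linear_combination (inner ℂ q (T q)) * hss
  have fin : (∃ z : E n, ∀ T : E n →L[ℂ] E n,
      inner ℂ z (T z) = inner ℂ p (T p) + inner ℂ q (T q)) →
      ∃ z : E n, inner ℂ z z = inner ℂ p p + inner ℂ q q ∧
      inner ℂ z (A z) = inner ℂ p (A p) + inner ℂ q (A q) ∧
      (inner ℂ p (B p) + inner ℂ q (B q)).re ≤ (inner ℂ z (B z)).re := by
    rintro ⟨z, hz⟩
    exact ⟨z, by simpa using hz (ContinuousLinearMap.id ℂ _), hz A, by rw [hz B]⟩
  -- the direction
  let φ : (E n →L[ℂ] E n) → (ℝ × ℝ × ℂ) → ℂ := fun T x =>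
    x.1 * inner ℂ p (T p) + x.2.1 * inner ℂ q (T q) + x.2.2 * inner ℂ p (T q) +
      (starRingEnd ℂ) x.2.2 * inner ℂ q (T p)
  let f : (ℝ × ℝ × ℂ) →ₗ[ℝ] (ℝ × ℂ) :=
    { toFun := fun x => ((φ (ContinuousLinearMap.id ℂ _) x).re, φ A x)
      map_add' := by
        intro x y
        ext
        · simp [φ]; ring
        · simp [φ]; ring
      map_smul' := by
        intro t x
        ext
        · simp [φ]; ring
        · simp [φ]; ring }
  have hker : LinearMap.ker f ≠ ⊥ := f.ker_ne_bot_of_finrank_lt (by simp)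
  obtain ⟨x0, hx0, hx0ne⟩ := Submodule.exists_mem_ne_zero_of_ne_bot hker
  obtain ⟨x, hx, hxne, hxB⟩ : ∃ x : ℝ × ℝ × ℂ, f x = 0 ∧ x ≠ 0 ∧ 0 ≤ (φ B x).re := by
    rcases le_total 0 (φ B x0).re with h | h
    · exact ⟨x0, hx0, hx0ne, h⟩
    · refine ⟨-x0, by rw [map_neg, LinearMap.mem_ker.mp hx0, neg_zero], neg_ne_zero.mpr hx0ne, ?_⟩
      have : φ B (-x0) = -φ B x0 := by simp [φ]; ring
      rw [this, Complex.neg_re]; linarith
  obtain ⟨u, v, w⟩ := x
  have h1 : (φ (ContinuousLinearMap.id ℂ _) (u, v, w)).re = 0 := congrArg Prod.fst hx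
  have h2 : φ A (u, v, w) = 0 := congrArg Prod.snd hx
  have hpp : inner ℂ p p = ((‖p‖ ^ 2 : ℝ) : ℂ) := by rw [inner_self_eq_norm_sq_to_K]; simp
  have hqq : inner ℂ q q = ((‖q‖ ^ 2 : ℝ) : ℂ) := by rw [inner_self_eq_norm_sq_to_K]; simp
  obtain ⟨g, hg⟩ : ∃ g, inner ℂ p q = g := ⟨_, rfl⟩
  have hqp : inner ℂ q p = (starRingEnd ℂ) g := by rw [← hg, inner_conj_symm]
  have h1' : φ (ContinuousLinearMap.id ℂ _) (u, v, w) = 0 := by
    apply Complex.ext h1
    simp only [φ, ContinuousLinearMap.id_apply, hpp, hqq, hqp, hg]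
    simp [-Complex.ofReal_pow]; ring
  by_cases hcase : u < 0 ∨ v < 0 ∨ u * v < normSq w
  · obtain ⟨l, hl0, hl1, hl2, hl3⟩ := step u v (normSq w) (normSq_nonneg w) hcase
    obtain ⟨α, β, e1, e2, e3, e4⟩ := factor (1 + l * u) (1 + l * v) (l * w) hl1 hl2
      (by rw [hl3, normSq_mul, normSq_ofReal]; ring)
    have hT : ∀ T : E n →L[ℂ] E n, inner ℂ (α • p + β • q) (T (α • p + β • q)) =
        inner ℂ p (T p) + inner ℂ q (T q) + l * φ T (u, v, w) := by
      intro T
      rw [form_expand, e1, e2, e3, e4]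
      simp [φ]; ring
    refine ⟨α • p + β • q, ?_, ?_, ?_⟩
    · have := hT (ContinuousLinearMap.id ℂ _)
      rw [h1'] at this
      simpa using this
    · rw [hT A, h2]; simp
    · rw [hT B, Complex.add_re _ (_ * _), Complex.re_ofReal_mul]
      nlinarith [mul_nonneg hl0 hxB]
  · push Not at hcase
    obtain ⟨hu, hv, hw⟩ := hcase
    simp only [φ, ContinuousLinearMap.id_apply, hpp, hqq, hqp, hg] at h1
    rcases hu.eq_or_lt with hu0 | hu0
    · subst hu0
      have hw0 : w = 0 := normSq_eq_zero.mp (le_antisymm (by simpa using hw) (normSq_nonneg w))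
      subst hw0
      have hv0 : v ≠ 0 := by
        rintro rfl
        exact hxne rfl
      have hq : q = 0 := by
        simp [-Complex.ofReal_pow] at h1
        rcases h1 with h | h
        · exact absurd h hv0
        · exact h
      obtain ⟨z, hz⟩ := dep q p 0 (by simp [hq])
      exact fin ⟨z, fun T => by rw [hz T, add_comm]⟩
    · have hd : ((u : ℂ) • p + w • q) = 0 := by
        have e := form_expand (ContinuousLinearMap.id ℂ _) p q u w
        simp only [ContinuousLinearMap.id_apply, hpp, hqq, hqp, hg] at e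
        rw [inner_self_eq_norm_sq_to_K] at e
        generalize (u : ℂ) • p + w • q = d at e ⊢
        have e' := congrArg Complex.re e
        simp [-Complex.ofReal_pow] at h1
        simp [← Complex.ofReal_pow] at e'
        rw [Complex.normSq_apply] at hw
        have hle : ‖d‖ ^ 2 ≤ 0 := by
          have hN := sq_nonneg ‖q‖
          rw [e']
          nlinarith [mul_le_mul_of_nonneg_right hw hN]
        exact norm_eq_zero.mp (by nlinarith [norm_nonneg d])
      have huc : (u : ℂ) ≠ 0 := by exact_mod_cast hu0.ne'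
      refine fin (dep p q (-w / u) ?_)
      have : p = (u : ℂ)⁻¹ • ((u : ℂ) • p + w • q) + (-w / u) • q := by
        match_scalars
        · field_simp
        · field_simp; ring
      rw [this, hd]; simp

/-- Losslessness: if `γ` exceeds `‖A y‖` on every unit `y` with `-⟪y, A y⟫` in the sector, then
multipliers exist. -/
lemma separate {θ : ℝ} (h0 : 0 ≤ θ) (h1 : θ ≤ Real.pi / 2) (A : E n →L[ℂ] E n) (γ : ℝ)
    (hγ : 0 < γ) (h : ∀ y : E n, ‖y‖ = 1 → Sec θ (-inner ℂ y (A y)) → ‖A y‖ < γ) :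
    ∃ r : ℝ, 0 < r ∧ ∃ β : ℝ, |β| * Real.sin θ ≤ Real.cos θ ∧ ∀ x : E n, ‖x‖ = 1 →
      r * (‖A x‖ ^ 2 - γ ^ 2) - 2 * ((1 + I * β) * inner ℂ x (A x)).re < 0 := by
  have hc := cos_nn h0 h1
  have hs := sin_nn h0 h1
  set K : Set (ℝ × ℂ) := (fun y : E n × ℝ => (y.2 * ‖A y.1‖ ^ 2, inner ℂ y.1 (A y.1))) ''
    (Metric.sphere 0 1 ×ˢ Set.Icc 0 1) with hK
  set C : Set (ℝ × ℂ) := {y | γ ^ 2 ≤ y.1 ∧ Sec θ (-y.2)} with hC
  have hKc : IsCompact K :=
    ((isCompact_sphere 0 1).prod isCompact_Icc).image (by fun_prop)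
  have hCc : IsClosed C := by
    simp only [hC, Sec]
    refine IsClosed.and ?_ (IsClosed.and ?_ ?_) <;> exact isClosed_le (by fun_prop) (by fun_prop)
  have memK : ∀ (x : E n) (t : ℝ), ‖x‖ = 1 → 0 ≤ t → t ≤ ‖A x‖ ^ 2 →
      (t, inner ℂ x (A x)) ∈ K := by
    intro x t hx ht0 ht1
    by_cases hA : ‖A x‖ ^ 2 = 0
    · refine ⟨(x, 0), ⟨by simpa using hx, by simp⟩, ?_⟩
      have : t = 0 := by linarith
      simp [this]
    · have hpos : 0 < ‖A x‖ ^ 2 := lt_of_le_of_ne (by positivity) (Ne.symm hA)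
      refine ⟨(x, t / ‖A x‖ ^ 2), ⟨by simpa using hx, by positivity,
        (div_le_one hpos).mpr ht1⟩, ?_⟩
      simp only [div_mul_cancel₀ _ hA]
  have hB : ∀ z : E n, (inner ℂ z ((ContinuousLinearMap.adjoint A ∘L A) z)).re = ‖A z‖ ^ 2 := by
    intro z
    rw [ContinuousLinearMap.comp_apply, ContinuousLinearMap.adjoint_inner_right,
      inner_self_eq_norm_sq_to_K]
    simp [← Complex.ofReal_pow]
  have hKv : Convex ℝ K := by
    rintro _ ⟨⟨x, t⟩, ⟨hx, ht0, ht1⟩, rfl⟩ _ ⟨⟨y, s⟩, ⟨hy, hs0, hs1⟩, rfl⟩ a b ha hb hab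
    simp only [mem_sphere_iff_norm, sub_zero] at hx hy ht0 ht1 hs0 hs1
    have sc : ∀ (T : E n →L[ℂ] E n) (x : E n) (a : ℝ), 0 ≤ a →
        inner ℂ (((Real.sqrt a : ℝ) : ℂ) • x) (T (((Real.sqrt a : ℝ) : ℂ) • x)) =
          (a : ℂ) * inner ℂ x (T x) := by
      intro T x a ha
      rw [map_smul, inner_smul_left, inner_smul_right, Complex.conj_ofReal, ← mul_assoc,
        ← Complex.ofReal_mul, Real.mul_self_sqrt ha]
    obtain ⟨z, z1, z2, z3⟩ := reduce A (ContinuousLinearMap.adjoint A ∘L A)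
      (((Real.sqrt a : ℝ) : ℂ) • x) (((Real.sqrt b : ℝ) : ℂ) • y)
    have i1 := sc (ContinuousLinearMap.id ℂ _) x a ha
    have i2 := sc (ContinuousLinearMap.id ℂ _) y b hb
    simp only [ContinuousLinearMap.id_apply] at i1 i2
    rw [i1, i2, inner_self_eq_norm_sq_to_K, inner_self_eq_norm_sq_to_K,
      inner_self_eq_norm_sq_to_K, hx, hy] at z1
    rw [sc A x a ha, sc A y b hb] at z2
    rw [sc _ x a ha, sc _ y b hb, hB, Complex.add_re, Complex.re_ofReal_mul,
      Complex.re_ofReal_mul, hB, hB] at z3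
    have hz : ‖z‖ = 1 := by
      have e := congrArg Complex.re z1
      simp [← Complex.ofReal_pow] at e
      rw [hab] at e
      nlinarith [norm_nonneg z]
    have := memK z (a * (t * ‖A x‖ ^ 2) + b * (s * ‖A y‖ ^ 2)) hz (by positivity) (by
      have q1 : t * ‖A x‖ ^ 2 ≤ ‖A x‖ ^ 2 := mul_le_of_le_one_left (by positivity) ht1
      have q2 : s * ‖A y‖ ^ 2 ≤ ‖A y‖ ^ 2 := mul_le_of_le_one_left (by positivity) hs1
      nlinarith [mul_le_mul_of_nonneg_left q1 ha, mul_le_mul_of_nonneg_left q2 hb])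
    convert this using 1
    rw [z2]
    ext <;> simp
  have hCv : Convex ℝ C := by
    rintro ⟨x1, x2⟩ ⟨hx1, hx2, hx3⟩ ⟨y1, y2⟩ ⟨hy1, hy2, hy3⟩ a b ha hb hab
    simp only [Complex.neg_re, Complex.neg_im, abs_neg] at hx1 hx2 hx3 hy1 hy2 hy3
    refine ⟨?_, ?_, ?_⟩
    · simp only [Prod.smul_mk, Prod.mk_add_mk, smul_eq_mul]
      nlinarith [mul_le_mul_of_nonneg_left hx1 ha, mul_le_mul_of_nonneg_left hy1 hb]
    · simp
      nlinarith [mul_nonneg ha hx2, mul_nonneg hb hy2]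
    · simp only [Prod.smul_mk, Prod.mk_add_mk, Complex.neg_re, Complex.neg_im, abs_neg,
        Complex.add_re, Complex.add_im, Complex.smul_re, Complex.smul_im, smul_eq_mul]
      have q : |a * x2.im + b * y2.im| ≤ a * |x2.im| + b * |y2.im| := by
        refine (abs_add_le _ _).trans ?_
        rw [abs_mul, abs_mul, abs_of_nonneg ha, abs_of_nonneg hb]
      nlinarith [mul_le_mul_of_nonneg_right q hc, mul_le_mul_of_nonneg_left hx3 ha,
        mul_le_mul_of_nonneg_left hy3 hb]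
  have hdis : Disjoint K C := by
    rw [Set.disjoint_left]
    rintro _ ⟨⟨x, t⟩, ⟨hx, ht0, ht1⟩, rfl⟩ ⟨c1, c2⟩
    simp only [mem_sphere_iff_norm, sub_zero] at hx ht0 ht1 c1 c2
    have q := h x hx c2
    have q1 : t * ‖A x‖ ^ 2 ≤ ‖A x‖ ^ 2 := mul_le_of_le_one_left (by positivity) ht1
    nlinarith [norm_nonneg (A x)]
  obtain ⟨f, u, v, hfK, huv, hfC⟩ := geometric_hahn_banach_compact_closed hKv hKc hCv hCc hdis
  set r0 := f (1, 0) with hr0
  set c1 := f (0, 1) with hc1
  set c2 := f (0, I) with hc2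
  have hf : ∀ (s : ℝ) (a : ℂ), f (s, a) = s * r0 + a.re * c1 + a.im * c2 := by
    intro s a
    have : (s, a) = s • ((1 : ℝ), (0 : ℂ)) + a.re • ((0 : ℝ), (1 : ℂ)) + a.im • ((0 : ℝ), I) := by
      ext <;> simp
    rw [this, map_add, map_add, map_smul, map_smul, map_smul]
    simp [hr0, hc1, hc2]
  have ray : ∀ k : ℝ, (∀ t : ℝ, 0 ≤ t → v < γ ^ 2 * r0 + t * k) → 0 ≤ k := by
    intro k hk
    by_contra hneg
    push Not at hneg
    have h00 := hk 0 le_rfl
    have := hk ((γ ^ 2 * r0 - v) / (-k)) (div_nonneg (by linarith) (by linarith))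
    have e : (γ ^ 2 * r0 - v) / (-k) * k = -(γ ^ 2 * r0 - v) := by field_simp [hneg.ne]
    linarith
  have hv0 : v < γ ^ 2 * r0 := by
    have := hfC (γ ^ 2, 0) ⟨le_rfl, by simpa using Sec.zero θ⟩
    rw [hf] at this; simpa using this
  have hr00 : 0 ≤ r0 := ray r0 fun t ht => by
    have := hfC (γ ^ 2 + t, 0) ⟨by simpa using ht, by simpa using Sec.zero θ⟩
    rw [hf] at this; simp at this; linarith
  have hc10 : 0 ≤ -c1 := ray _ fun t ht => by
    have := hfC (γ ^ 2, -(t : ℂ)) ⟨le_rfl, by simp [Sec]; exact ⟨ht, by positivity⟩⟩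
    rw [hf] at this; simp at this; linarith
  have hp : 0 ≤ -(Real.cos θ * c1) - Real.sin θ * c2 := ray _ fun t ht => by
    have := hfC (γ ^ 2, ⟨-(t * Real.cos θ), -(t * Real.sin θ)⟩) ⟨le_rfl, by
      refine ⟨by simp; positivity, ?_⟩
      simp [abs_mul, abs_of_nonneg ht, abs_of_nonneg hs]
      exact le_of_eq (by ring)⟩
    rw [hf] at this; simp at this; linarith
  have hm : 0 ≤ -(Real.cos θ * c1) + Real.sin θ * c2 := ray _ fun t ht => by
    have := hfC (γ ^ 2, ⟨-(t * Real.cos θ), t * Real.sin θ⟩) ⟨le_rfl, by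
      refine ⟨by simp; positivity, ?_⟩
      simp [abs_mul, abs_of_nonneg ht, abs_of_nonneg hs]
      exact le_of_eq (by ring)⟩
    rw [hf] at this; simp at this; linarith
  set N := ‖A‖ with hN
  have hN0 : 0 ≤ N := norm_nonneg _
  set ε := (v - u) / (2 * (N ^ 2 + N + 1)) with hε
  have hε0 : 0 < ε := by
    have : 0 < v - u := by linarith
    positivity
  have hε1 : ε * (N ^ 2 + N + 1) = (v - u) / 2 := by rw [hε]; field_simp
  have he : 0 < -c1 + ε := by linarith
  refine ⟨2 * (r0 + ε) / (-c1 + ε), by positivity, c2 / (-c1 + ε), ?_, ?_⟩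
  · rw [abs_div, abs_of_pos he, div_mul_eq_mul_div, div_le_iff₀ he]
    have : |c2| * Real.sin θ ≤ -(Real.cos θ * c1) := by
      rcases abs_cases c2 with ⟨e, _⟩ | ⟨e, _⟩ <;> rw [e] <;> linarith
    nlinarith [mul_nonneg hc hε0.le]
  · intro x hx
    have k1 := hfK _ (memK x (‖A x‖ ^ 2) hx (by positivity) le_rfl)
    rw [hf] at k1
    have k2 : ‖A x‖ ≤ N := by
      have := A.le_opNorm x
      rwa [hx, mul_one] at this
    have k3 : ‖A x‖ ^ 2 ≤ N ^ 2 := pow_le_pow_left₀ (norm_nonneg _) k2 2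
    have k4 : -(inner ℂ x (A x)).re ≤ N := by
      have q1 := norm_inner_le_norm (𝕜 := ℂ) x (A x)
      have q2 := Complex.abs_re_le_norm (inner ℂ x (A x))
      rw [hx, one_mul] at q1
      linarith [neg_le_abs (inner ℂ x (A x)).re]
    generalize inner ℂ x (A x) = a at *
    have e : 2 * (r0 + ε) / (-c1 + ε) * (‖A x‖ ^ 2 - γ ^ 2) -
        2 * ((1 + I * ((c2 / (-c1 + ε) : ℝ) : ℂ)) * a).re =
        2 / (-c1 + ε) * ((r0 + ε) * (‖A x‖ ^ 2 - γ ^ 2) - (-c1 + ε) * a.re + c2 * a.im) := by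
      simp only [Complex.mul_re, Complex.add_re, Complex.add_im, Complex.mul_im, Complex.one_re,
        Complex.one_im, Complex.I_re, Complex.I_im, Complex.ofReal_re, Complex.ofReal_im]
      field_simp
      ring
    rw [e]
    apply mul_neg_of_pos_of_neg (by positivity)
    nlinarith [mul_le_mul_of_nonneg_left k3 hε0.le, mul_le_mul_of_nonneg_left k4 hε0.le,
      mul_pos hε0 (pow_pos hγ 2)]

end Pool.Agent.H90.PhaseMu
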