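import Pool.Agent.H90.PhaseMuB

namespace Pool.Agent.H90.PhaseMu

open Complex Matrix
open scoped ComplexOrder

variable {n : ℕ}

lemma inner_op (A : Mat n) (x : Fin n → ℂ) :
    star x ⬝ᵥ (A *ᵥ x) = inner ℂ (WithLp.toLp 2 x : E n) (op A (WithLp.toLp 2 x)) := by
  rw [op, Matrix.toEuclideanCLM_toLp, EuclideanSpace.inner_toLp_toLp, dotProduct_comm]

lemma op_mul (A B : Mat n) (x : E n) : op (A * B) x = op A (op B x) := by
  simp [op, map_mul]

lemma op_star (A : Mat n) : op Aᴴ = ContinuousLinearMap.adjoint (op A) := by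
  rw [op, op, ← Matrix.star_eq_conjTranspose, map_star, ContinuousLinearMap.star_eq_adjoint]

lemma op_surj (T : E n →L[ℂ] E n) : ∃ A : Mat n, op A = T :=
  (Matrix.toEuclideanCLM (n := Fin n) (𝕜 := ℂ)).surjective T

lemma lmi_form (M : Mat n) (γ r β : ℝ) (x : E n) :
    inner ℂ x (op (-lmi M γ r β) x) =
      ((-(r * (‖op M x‖ ^ 2 - γ ^ 2 * ‖x‖ ^ 2) -
        2 * ((1 + I * β) * inner ℂ x (op M x)).re) : ℝ) : ℂ) := by
  have e1 : op (-lmi M γ r β) x = -((r : ℂ) • (op Mᴴ (op M x) - ((γ : ℂ) ^ 2) • x) -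
      ((1 + I * β) • op M x + (starRingEnd ℂ) (1 + I * β) • op Mᴴ x)) := by
    rw [← op_mul]
    simp only [lmi, op, map_neg, map_sub, map_add, map_smul, map_one, conjTranspose_smul]
    simp
  rw [e1, op_star, inner_neg_right, inner_sub_right, inner_smul_right, inner_sub_right,
    inner_add_right, inner_smul_right, inner_smul_right, inner_smul_right,
    ContinuousLinearMap.adjoint_inner_right, ContinuousLinearMap.adjoint_inner_right,
    inner_self_eq_norm_sq_to_K, inner_self_eq_norm_sq_to_K, ← inner_conj_symm (op M x) x,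
    ← map_mul, Complex.add_conj]
  simp

lemma posDef_iff (M : Mat n) (γ r β : ℝ) :
    (-lmi M γ r β).PosDef ↔ ∀ x : E n, ‖x‖ = 1 →
      r * (‖op M x‖ ^ 2 - γ ^ 2) - 2 * ((1 + I * β) * inner ℂ x (op M x)).re < 0 := by
  rw [Matrix.posDef_iff_dotProduct_mulVec]
  constructor
  · rintro ⟨_, h⟩ x hx
    have hx0 : x.ofLp ≠ 0 := by
      intro h0
      have : x = 0 := by ext i; simpa using congrFun h0 i
      simp [this] at hx
    have := h hx0
    rw [inner_op, WithLp.toLp_ofLp, lmi_form, hx] at this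
    have := Complex.zero_lt_real.mp this
    linarith
  · intro h
    refine ⟨?_, fun x hx => ?_⟩
    · unfold lmi Matrix.IsHermitian
      simp only [conjTranspose_neg, conjTranspose_sub, conjTranspose_add, conjTranspose_smul,
        conjTranspose_mul, conjTranspose_conjTranspose, conjTranspose_one, star_star]
      simp [add_comm]
    · rw [inner_op, lmi_form, Complex.zero_lt_real]
      set y : E n := WithLp.toLp 2 x with hy
      have hy0 : y ≠ 0 := by
        intro h0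
        apply hx
        ext i
        simpa [hy] using congrArg (fun z : E n => z i) h0
      obtain ⟨u, hu, e⟩ := exists_unit y hy0
      have hN : 0 < ‖y‖ := norm_pos_iff.mpr hy0
      have k := h u hu
      have e1 : ‖op M y‖ = ‖y‖ * ‖op M u‖ := by
        conv_lhs => rw [e]
        rw [map_smul, norm_smul]; simp
      have e2 : inner ℂ y (op M y) = ((‖y‖ ^ 2 : ℝ) : ℂ) * inner ℂ u (op M u) := by
        conv_lhs => rw [e]
        rw [map_smul, inner_smul_left, inner_smul_right]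
        simp; ring
      rw [e1, e2, mul_left_comm, Complex.re_ofReal_mul]
      nlinarith [mul_pos (pow_pos hN 2) (neg_pos.mpr k)]

lemma beta_iff {θ : ℝ} (h0 : 0 ≤ θ) (h1 : θ ≤ Real.pi / 2) (β : ℝ) :
    (θ = 0 ∨ β ∈ Set.Icc (-Real.cot θ) (Real.cot θ)) ↔ |β| * Real.sin θ ≤ Real.cos θ := by
  rcases h0.eq_or_lt with h | h
  · subst h; simp
  · have hs : 0 < Real.sin θ := Real.sin_pos_of_pos_of_lt_pi h (by linarith [Real.pi_pos])
    rw [Set.mem_Icc, ← abs_le, Real.cot_eq_cos_div_sin, le_div_iff₀ hs]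
    simp [h.ne']

/-- The feasible set of the LMI problem. -/
lemma feas_iff {θ : ℝ} (h0 : 0 ≤ θ) (h1 : θ ≤ Real.pi / 2) (M : Mat n) (γ : ℝ) (hγ : 0 < γ) :
    (∃ r : ℝ, 0 < r ∧ ∃ β : ℝ,
      (θ = 0 ∨ β ∈ Set.Icc (-Real.cot θ) (Real.cot θ)) ∧ (-lmi M γ r β).PosDef) ↔
    ∀ y : E n, ‖y‖ = 1 → Sec θ (-inner ℂ y (op M y)) → ‖op M y‖ < γ := by
  simp only [beta_iff h0 h1, posDef_iff]
  refine ⟨?_, separate h0 h1 (op M) γ hγ⟩
  rintro ⟨r, hr, β, hβ, h⟩ y hy ⟨s1, s2⟩
  have k := h y hy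
  have hc := cos_nn h0 h1
  have hs := sin_nn h0 h1
  have hcs := Real.cos_sq_add_sin_sq θ
  generalize inner ℂ y (op M y) = a at *
  simp only [Complex.neg_re, Complex.neg_im, abs_neg] at s1 s2
  have e : ((1 + I * β) * a).re = a.re - β * a.im := by simp
  rw [e] at k
  have q : -(β * a.im) ≤ |β| * |a.im| := by rw [← abs_mul]; exact neg_le_abs _
  have q2 : |β| * |a.im| ≤ -a.re := by
    rcases hc.eq_or_lt with hc0 | hc0
    · have hs1 : Real.sin θ = 1 := by rw [← hc0] at hcs; nlinarith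
      rw [hs1, ← hc0] at hβ
      have : |β| = 0 := by linarith [abs_nonneg β]
      rw [this]; linarith
    · refine le_of_mul_le_mul_right ?_ hc0
      nlinarith [mul_le_mul_of_nonneg_left s2 (abs_nonneg β), mul_le_mul_of_nonneg_left hβ s1]
  have k2 : r * (‖op M y‖ ^ 2 - γ ^ 2) < 0 := by linarith
  have k3 : ‖op M y‖ ^ 2 < γ ^ 2 := by
    by_contra hh
    push Not at hh
    nlinarith [mul_nonneg hr.le (sub_nonneg.mpr hh)]
  exact lt_of_pow_lt_pow_left₀ 2 hγ.le k3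

lemma muHat_empty {θ : ℝ} (h0 : 0 ≤ θ) (h1 : θ ≤ Real.pi / 2) (M : Mat n)
    (h : ∀ y : E n, ‖y‖ = 1 → ¬ Sec θ (-inner ℂ y (op M y))) : muHat θ M = 0 := by
  have : {γ : ℝ | 0 < γ ∧ ∃ r : ℝ, 0 < r ∧ ∃ β : ℝ,
      (θ = 0 ∨ β ∈ Set.Icc (-Real.cot θ) (Real.cot θ)) ∧ (-lmi M γ r β).PosDef} = Set.Ioi 0 := by
    ext γ
    refine ⟨fun hh => hh.1, fun hh => ⟨hh, (feas_iff h0 h1 M γ hh).mpr fun y hy hs => ?_⟩⟩
    exact absurd hs (h y hy)
  rw [muHat, this, csInf_Ioi]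

lemma muHat_max {θ : ℝ} (h0 : 0 ≤ θ) (h1 : θ ≤ Real.pi / 2) (M : Mat n) (x : E n)
    (hx : ‖x‖ = 1) (hs : Sec θ (-inner ℂ x (op M x)))
    (h : ∀ y : E n, ‖y‖ = 1 → Sec θ (-inner ℂ y (op M y)) → ‖op M y‖ ≤ ‖op M x‖) :
    muHat θ M = ‖op M x‖ := by
  have : {γ : ℝ | 0 < γ ∧ ∃ r : ℝ, 0 < r ∧ ∃ β : ℝ,
      (θ = 0 ∨ β ∈ Set.Icc (-Real.cot θ) (Real.cot θ)) ∧ (-lmi M γ r β).PosDef} =
      Set.Ioi ‖op M x‖ := by
    ext γ
    constructor
    · rintro ⟨hγ, hh⟩
      exact (feas_iff h0 h1 M γ hγ).mp hh x hx hs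
    · intro hh
      have hγ : 0 < γ := lt_of_le_of_lt (norm_nonneg _) hh
      exact ⟨hγ, (feas_iff h0 h1 M γ hγ).mpr fun y hy hs => lt_of_le_of_lt (h y hy hs) hh⟩
  rw [muHat, this, csInf_Ioi]

lemma exists_max (θ : ℝ) (M : Mat n) (y0 : E n) (hy0 : ‖y0‖ = 1)
    (hs0 : Sec θ (-inner ℂ y0 (op M y0))) :
    ∃ x : E n, ‖x‖ = 1 ∧ Sec θ (-inner ℂ x (op M x)) ∧
      ∀ y : E n, ‖y‖ = 1 → Sec θ (-inner ℂ y (op M y)) → ‖op M y‖ ≤ ‖op M x‖ := by
  have hcl : IsClosed {y : E n | Sec θ (-inner ℂ y (op M y))} := by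
    simp only [Sec]
    refine IsClosed.and ?_ ?_ <;> exact isClosed_le (by fun_prop) (by fun_prop)
  obtain ⟨x, ⟨hx1, hx2⟩, hmax⟩ := ((isCompact_sphere (0 : E n) 1).inter_right hcl).exists_isMaxOn
    ⟨y0, by simpa using hy0, hs0⟩ (f := fun y => ‖op M y‖) (by fun_prop)
  exact ⟨x, by simpa using hx1, hx2, fun y hy hs => hmax ⟨by simpa using hy, hs⟩⟩

lemma mem_sing_iff {θ : ℝ} (h0 : 0 ≤ θ) (h1 : θ ≤ Real.pi / 2) (M Γ : Mat n) :
    Γ ∈ Sing θ M ↔ (∀ y : E n, Sec θ (inner ℂ y (op Γ y))) ∧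
      ∃ x : E n, ‖x‖ = 1 ∧ op Γ (op M x) = -x := by
  have hop : ∀ x : E n, op (1 + Γ * M) x = x + op Γ (op M x) := by
    intro x
    rw [← op_mul]; simp [op]
  simp only [Sing, Gam, Set.mem_ofPred_eq, mem_sector_iff h0 h1]
  refine and_congr ⟨fun h => sec_all h, fun h x _ => h x⟩ ?_
  rw [← Matrix.exists_mulVec_eq_zero_iff]
  constructor
  · rintro ⟨v, hv, h⟩
    set y : E n := WithLp.toLp 2 v with hy
    have hy0 : y ≠ 0 := by
      intro h0
      apply hv
      ext i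
      simpa [hy] using congrArg (fun z : E n => z i) h0
    have h2 : op (1 + Γ * M) y = 0 := by
      rw [op, hy, Matrix.toEuclideanCLM_toLp, h]; rfl
    obtain ⟨u, hu, e⟩ := exists_unit y hy0
    refine ⟨u, hu, ?_⟩
    rw [e, map_smul, smul_eq_zero, hop] at h2
    rcases h2 with h2 | h2
    · exact absurd (by simpa using h2) hy0
    · exact eq_neg_of_add_eq_zero_right h2
  · rintro ⟨x, hx, h⟩
    refine ⟨x.ofLp, ?_, ?_⟩
    · intro h0
      have : x = 0 := by ext i; simpa using congrFun h0 i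
      simp [this] at hx
    · have h2 : op (1 + Γ * M) x = 0 := by rw [hop, h]; simp
      rw [← Matrix.ofLp_toEuclideanCLM]
      exact congrArg WithLp.ofLp h2

/-- A singular pair gives a point of the sector set with a gain bound. -/
lemma sing_bound {θ : ℝ} (A T : E n →L[ℂ] E n) (hT : ∀ y : E n, Sec θ (inner ℂ y (T y)))
    (x : E n) (hx : ‖x‖ = 1) (h : T (A x) = -x) :
    Sec θ (-inner ℂ x (A x)) ∧ 1 ≤ ‖T‖ * ‖A x‖ := by
  constructor
  · have := (hT (A x)).conj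
    rwa [h, inner_conj_symm, inner_neg_left] at this
  · have := T.le_opNorm (A x)
    rwa [h, norm_neg, hx] at this

/-- The minimal norm in `S_θ(M)` is attained. -/
lemma exists_min {θ : ℝ} (h0 : 0 ≤ θ) (h1 : θ ≤ Real.pi / 2) (M : Mat n)
    (hne : (Sing θ M).Nonempty) :
    ∃ Γ ∈ Sing θ M, sInf (sbar '' Sing θ M) = sbar Γ := by
  obtain ⟨Γ0, hΓ0⟩ := hne
  obtain ⟨a1, x0, a2, a3⟩ := (mem_sing_iff h0 h1 M Γ0).mp hΓ0
  have : ProperSpace (E n →L[ℂ] E n) := FiniteDimensional.proper ℂ _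
  have hcl : IsClosed {z : (E n →L[ℂ] E n) × E n |
      (∀ y : E n, Sec θ (inner ℂ y (z.1 y))) ∧ z.1 (op M z.2) = -z.2} := by
    refine IsClosed.and ?_ (isClosed_eq (by fun_prop) (by fun_prop))
    rw [Set.ofPred_forall]
    refine isClosed_iInter fun y => ?_
    simp only [Sec]
    refine IsClosed.and ?_ ?_ <;> exact isClosed_le (by fun_prop) (by fun_prop)
  obtain ⟨⟨T, x⟩, ⟨⟨b1, b2⟩, b3, b4⟩, hmin⟩ :=
    (((isCompact_closedBall (0 : E n →L[ℂ] E n) ‖op Γ0‖).prod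
      (isCompact_sphere (0 : E n) 1)).inter_right hcl).exists_isMinOn
    ⟨(op Γ0, x0), ⟨by simp, by simpa using a2⟩, a1, a3⟩ (f := fun z => ‖z.1‖) (by fun_prop)
  obtain ⟨Γ, rfl⟩ := op_surj T
  have hΓ : Γ ∈ Sing θ M := (mem_sing_iff h0 h1 M Γ).mpr ⟨b3, x, by simpa using b2, b4⟩
  refine ⟨Γ, hΓ, IsLeast.csInf_eq ⟨⟨Γ, hΓ, rfl⟩, ?_⟩⟩
  rintro _ ⟨Δ, hΔ, rfl⟩
  obtain ⟨c1, y, c2, c3⟩ := (mem_sing_iff h0 h1 M Δ).mp hΔ
  by_cases hle : ‖op Δ‖ ≤ ‖op Γ0‖
  · exact hmin (a := (op Δ, y)) ⟨⟨by simpa using hle, by simpa using c2⟩, c1, c3⟩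
  · have : ‖op Γ‖ ≤ ‖op Γ0‖ := by simpa using b1
    unfold sbar
    linarith

theorem characterisation {θ : ℝ} (h0 : 0 ≤ θ) (h1 : θ ≤ Real.pi / 2) (M : Mat n) :
    mu θ M = muHat θ M ↔
      (∀ y : E n, ‖y‖ = 1 → ¬ Sec θ (-inner ℂ y (op M y))) ∨
      ∃ x : E n, ‖x‖ = 1 ∧ Real.cos θ * ‖op M x‖ ≤ -(inner ℂ x (op M x)).re ∧
        ∀ y : E n, ‖y‖ = 1 → Sec θ (-inner ℂ y (op M y)) → ‖op M y‖ ≤ ‖op M x‖ := by
  have hc := cos_nn h0 h1
  have hs := sin_nn h0 h1
  have hcs := Real.cos_sq_add_sin_sq θ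
  constructor
  · intro heq
    by_contra hcon
    push Not at hcon
    obtain ⟨⟨y0, hy0, hs0⟩, hno⟩ := hcon
    obtain ⟨x, hx, hsx, hmax⟩ := exists_max θ M y0 hy0 hs0
    rw [muHat_max h0 h1 M x hx hsx hmax] at heq
    have hpos : 0 < ‖op M x‖ := by
      rcases (norm_nonneg (op M x)).eq_or_lt with h | h
      · obtain ⟨y, hy, hsy, hlt⟩ := hno x hx (by
          have : op M x = 0 := norm_eq_zero.mp h.symm
          simp [this])
        linarith [hmax y hy hsy]
      · exact h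
    have hne : (Sing θ M).Nonempty := by
      by_contra hh
      rw [mu, if_neg hh] at heq
      linarith
    obtain ⟨Γ, hΓ, hinf⟩ := exists_min h0 h1 M hne
    rw [mu, if_pos hne, hinf, sbar] at heq
    obtain ⟨c1, z, c2, c3⟩ := (mem_sing_iff h0 h1 M Γ).mp hΓ
    obtain ⟨d1, d2⟩ := sing_bound (op M) (op Γ) c1 z c2 c3
    have hΓpos : 0 < ‖op Γ‖ := by
      rcases (norm_nonneg (op Γ)).eq_or_lt with h | h
      · rw [← h] at d2; linarith
      · exact h
    have e1 : ‖op Γ‖ * ‖op M x‖ = 1 := by rw [← heq]; field_simp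
    have e2 : ‖op M z‖ = ‖op M x‖ := by
      refine le_antisymm (hmax z c2 d1) ?_
      rw [← e1] at d2
      exact le_of_mul_le_mul_left d2 hΓpos
    set m := ‖op M x‖ with hm
    have hmc : ((m : ℝ) : ℂ) ≠ 0 := by exact_mod_cast hpos.ne'
    have k := necessity h0 h1 (((m : ℝ) : ℂ) • op Γ) (by
        rw [norm_smul, Complex.norm_real, Real.norm_eq_abs, abs_of_pos hpos]; linarith)
      (fun y => by
        rw [_root_.smul_apply, inner_smul_right]
        exact (c1 y).smul hpos.le)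
      (((m : ℝ) : ℂ)⁻¹ • op M z) (-z) (by
        rw [norm_smul, norm_inv, Complex.norm_real, Real.norm_eq_abs, abs_of_pos hpos, e2]
        field_simp) (by rw [norm_neg, c2]) (by
        rw [_root_.smul_apply, map_smul, smul_smul, mul_inv_cancel₀ hmc, one_smul,
          c3])
    rw [inner_smul_left, inner_neg_right, ← inner_conj_symm (op M z) z, ← Complex.ofReal_inv,
      Complex.conj_ofReal, Complex.re_ofReal_mul, Complex.neg_re, Complex.conj_re] at k
    obtain ⟨y, hy, hsy, hlt⟩ := hno z c2 (by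
      rw [e2]
      have := mul_le_mul_of_nonneg_right k hpos.le
      rwa [mul_right_comm, inv_mul_cancel₀ hpos.ne', one_mul] at this)
    linarith [hmax y hy hsy]
  · rintro (h | ⟨x, hx, hre, hmax⟩)
    · rw [muHat_empty h0 h1 M h, mu, if_neg]
      rintro ⟨Γ, hΓ⟩
      obtain ⟨c1, z, c2, c3⟩ := (mem_sing_iff h0 h1 M Γ).mp hΓ
      exact h z c2 (sing_bound (op M) (op Γ) c1 z c2 c3).1
    · have hsx : Sec θ (-inner ℂ x (op M x)) := by
        have q1 := norm_inner_le_norm (𝕜 := ℂ) x (op M x)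
        rw [hx, one_mul] at q1
        have q2 := Complex.sq_norm (inner ℂ x (op M x))
        rw [Complex.normSq_apply] at q2
        have q0 := norm_nonneg (inner ℂ x (op M x))
        generalize inner ℂ x (op M x) = a at *
        have q3 : Real.cos θ * ‖a‖ ≤ -a.re := (mul_le_mul_of_nonneg_left q1 hc).trans hre
        have q4 : 0 ≤ -a.re := (mul_nonneg hc q0).trans q3
        refine ⟨by simpa using q4, ?_⟩
        simp only [Complex.neg_re, Complex.neg_im, abs_neg]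
        apply (pow_le_pow_iff_left₀ (by positivity) (by positivity) two_ne_zero).mp
        have q5 := pow_le_pow_left₀ (mul_nonneg hc q0) q3 2
        rw [mul_pow, mul_pow, sq_abs]
        rw [mul_pow, q2] at q5
        nlinarith
      rw [muHat_max h0 h1 M x hx hsx hmax]
      have low : ∀ Γ ∈ Sing θ M, 1 ≤ sbar Γ * ‖op M x‖ := by
        intro Γ hΓ
        obtain ⟨c1, z, c2, c3⟩ := (mem_sing_iff h0 h1 M Γ).mp hΓ
        obtain ⟨d1, d2⟩ := sing_bound (op M) (op Γ) c1 z c2 c3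
        exact d2.trans (mul_le_mul_of_nonneg_left (hmax z c2 d1) (norm_nonneg _))
      rcases (norm_nonneg (op M x)).eq_or_lt with hz | hpos
      · rw [mu, if_neg, hz]
        rintro ⟨Γ, hΓ⟩
        have := low Γ hΓ
        rw [← hz] at this
        linarith
      · set m := ‖op M x‖ with hm
        have hmc : ((m : ℝ) : ℂ) ≠ 0 := by exact_mod_cast hpos.ne'
        obtain ⟨T, t1, t2, t3⟩ := construct h0 h1 (((m : ℝ) : ℂ)⁻¹ • op M x) (-x) (by
          rw [norm_smul, norm_inv, Complex.norm_real, Real.norm_eq_abs, abs_of_pos hpos, ← hm]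
          field_simp) (by rw [norm_neg, hx]) (by
          rw [inner_smul_left, inner_neg_right, ← inner_conj_symm (op M x) x,
            ← Complex.ofReal_inv, Complex.conj_ofReal, Complex.re_ofReal_mul, Complex.neg_re,
            Complex.conj_re, inv_mul_eq_div, le_div_iff₀ hpos]
          exact hre)
        obtain ⟨Γ, hΓ⟩ := op_surj (((m⁻¹ : ℝ) : ℂ) • T)
        have hmem : Γ ∈ Sing θ M := by
          refine (mem_sing_iff h0 h1 M Γ).mpr ⟨fun y => ?_, x, hx, ?_⟩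
          · rw [hΓ, _root_.smul_apply, inner_smul_right]
            exact (t2 y).smul (by positivity)
          · rw [hΓ, _root_.smul_apply, ← map_smul, Complex.ofReal_inv, t3]
        have hle : sbar Γ ≤ m⁻¹ := by
          rw [sbar, hΓ, norm_smul, Complex.norm_real, Real.norm_eq_abs, abs_of_pos (by positivity)]
          exact mul_le_of_le_one_right (by positivity) t1
        have hlow : ∀ Δ ∈ Sing θ M, m⁻¹ ≤ sbar Δ := by
          intro Δ hΔ
          rw [inv_eq_one_div, div_le_iff₀ hpos]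
          exact low Δ hΔ
        have hinf : sInf (sbar '' Sing θ M) = m⁻¹ := by
          refine IsLeast.csInf_eq ⟨⟨Γ, hmem, le_antisymm hle (hlow Γ hmem)⟩, ?_⟩
          rintro _ ⟨Δ, hΔ, rfl⟩
          exact hlow Δ hΔ
        rw [mu, if_pos ⟨Γ, hmem⟩, hinf]
        simp

lemma mu_le {θ : ℝ} (h0 : 0 ≤ θ) (h1 : θ ≤ Real.pi / 2) (M : Mat n) : mu θ M ≤ muHat θ M := by
  by_cases hne : (Sing θ M).Nonempty
  · obtain ⟨Γ, hΓ, hinf⟩ := exists_min h0 h1 M hne
    obtain ⟨c1, z, c2, c3⟩ := (mem_sing_iff h0 h1 M Γ).mp hΓ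
    obtain ⟨d1, d2⟩ := sing_bound (op M) (op Γ) c1 z c2 c3
    obtain ⟨x, hx, hsx, hmax⟩ := exists_max θ M z c2 d1
    have hΓpos : 0 < ‖op Γ‖ := by
      rcases (norm_nonneg (op Γ)).eq_or_lt with h | h
      · rw [← h] at d2; linarith
      · exact h
    rw [muHat_max h0 h1 M x hx hsx hmax, mu, if_pos hne, hinf, sbar, div_le_iff₀ hΓpos]
    nlinarith [mul_le_mul_of_nonneg_left (hmax z c2 d1) hΓpos.le]
  · rw [mu, if_neg hne]
    exact Real.sInf_nonneg fun γ hγ => hγ.1.le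

theorem gap {θ : ℝ} (h0 : 0 ≤ θ) (h1 : θ < Real.pi / 2) (hn : 2 ≤ n) :
    ∃ M : Mat n, mu θ M < muHat θ M := by
  let i : Fin n := ⟨0, by omega⟩
  let j : Fin n := ⟨1, by omega⟩
  have hij : i ≠ j := by simp [i, j]
  refine ⟨Matrix.single i j 1, lt_of_le_of_ne (mu_le h0 h1.le _) ?_⟩
  have hc : 0 < Real.cos θ := Real.cos_pos_of_mem_Ioo ⟨by linarith [Real.pi_pos], h1⟩
  have hop : ∀ y : E n, op (Matrix.single i j (1 : ℂ)) y = EuclideanSpace.single i (y j) := by
    intro y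
    ext k
    have : (op (Matrix.single i j (1 : ℂ)) y).ofLp = Matrix.single i j (1 : ℂ) *ᵥ y.ofLp :=
      Matrix.ofLp_toEuclideanCLM _ _
    rw [this, Matrix.single_mulVec]
    simp [Function.update_apply]
  rw [Ne, characterisation h0 h1.le]
  have hs : Sec θ (-inner ℂ (EuclideanSpace.single j (1 : ℂ) : E n)
      (op (Matrix.single i j (1 : ℂ)) (EuclideanSpace.single j 1))) := by
    rw [hop, EuclideanSpace.inner_single_right]
    simpa [hij] using Sec.zero θ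
  rintro (h | ⟨x, hx, h2, h3⟩)
  · exact h _ (by simp) hs
  · have k := h3 _ (by simp) hs
    rw [hop, hop] at k
    rw [hop, EuclideanSpace.inner_single_right] at h2
    simp only [EuclideanSpace.norm_single] at k h2
    have k1 : 1 ≤ ‖x j‖ := by simpa using k
    have k2 : ‖x i‖ ^ 2 + ‖x j‖ ^ 2 ≤ 1 := by
      have e := EuclideanSpace.norm_sq_eq x
      rw [hx] at e
      have := Finset.sum_le_sum_of_subset_of_nonneg (s := {i, j}) (t := Finset.univ)
        (f := fun k => ‖x k‖ ^ 2) (Finset.subset_univ _) (fun _ _ _ => by positivity)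
      rw [Finset.sum_pair hij] at this
      linarith
    have k3 : x i = 0 := norm_eq_zero.mp (by nlinarith [norm_nonneg (x i)])
    rw [k3] at h2
    simp at h2
    nlinarith

theorem half (M : Mat n) : mu (Real.pi / 2) M = muHat (Real.pi / 2) M := by
  rw [characterisation (by positivity) le_rfl]
  by_cases h : ∀ y : E n, ‖y‖ = 1 → ¬ Sec (Real.pi / 2) (-inner ℂ y (op M y))
  · exact Or.inl h
  · push Not at h
    obtain ⟨y, hy, hs⟩ := h
    obtain ⟨x, hx, hsx, hmax⟩ := exists_max _ M y hy hs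
    exact Or.inr ⟨x, hx, by simpa using hsx.1, hmax⟩

end Pool.Agent.H90.PhaseMu
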