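import Mathlib

/-!
Definitions for the phase-sensitive structured singular value and its LMI bound.
-/

namespace Pool.Agent.H90.PhaseMu

open Matrix
open scoped ComplexOrder

/-- `ℂ^n` with the Euclidean norm. -/
abbrev E (n : ℕ) := EuclideanSpace ℂ (Fin n)

/-- Complex `n × n` matrices. -/
abbrev Mat (n : ℕ) := Matrix (Fin n) (Fin n) ℂ

/-- The operator `x ↦ A x` on Euclidean space. -/
noncomputable def op {n : ℕ} (A : Mat n) : E n →L[ℂ] E n :=
  Matrix.toEuclideanCLM (n := Fin n) (𝕜 := ℂ) A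

/-- The largest singular value: the Euclidean operator norm. -/
noncomputable def sbar {n : ℕ} (A : Mat n) : ℝ := ‖op A‖

/-- The closed set `{z : z = 0 or |arg z| ≤ θ}`. -/
def sector (θ : ℝ) : Set ℂ := {z | z = 0 ∨ |Complex.arg z| ≤ θ}

/-- `Γ_θ`: matrices whose numerical range `{x* Γ x : ‖x‖ = 1}` lies in the sector. -/
def Gam (n : ℕ) (θ : ℝ) : Set (Mat n) :=
  {Γ | ∀ x : E n, ‖x‖ = 1 → inner ℂ x (op Γ x) ∈ sector θ}

/-- `S_θ(M)`: the `Γ ∈ Γ_θ` with `I + Γ M` singular. -/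
def Sing {n : ℕ} (θ : ℝ) (M : Mat n) : Set (Mat n) :=
  {Γ | Γ ∈ Gam n θ ∧ (1 + Γ * M).det = 0}

open Classical in
/-- The phase-sensitive structured singular value `μ_θ(M)`. -/
noncomputable def mu {n : ℕ} (θ : ℝ) (M : Mat n) : ℝ :=
  if (Sing θ M).Nonempty then 1 / sInf (sbar '' Sing θ M) else 0

/-- The matrix `r (M* M - γ² I) - ((1 + jβ) M + ((1 + jβ) M)*)`. -/
noncomputable def lmi {n : ℕ} (M : Mat n) (γ r β : ℝ) : Mat n :=
  (r : ℂ) • (Mᴴ * M - ((γ : ℂ) ^ 2) • (1 : Mat n)) -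
    ((1 + Complex.I * (β : ℂ)) • M + ((1 + Complex.I * (β : ℂ)) • M)ᴴ)

/-- The LMI bound: `β ∈ [-cot θ, cot θ]` for `θ > 0`, `β` free for `θ = 0`; a matrix is
negative definite when its negative is positive definite. -/
noncomputable def muHat {n : ℕ} (θ : ℝ) (M : Mat n) : ℝ :=
  sInf {γ : ℝ | 0 < γ ∧ ∃ r : ℝ, 0 < r ∧ ∃ β : ℝ,
    (θ = 0 ∨ β ∈ Set.Icc (-Real.cot θ) (Real.cot θ)) ∧ (-lmi M γ r β).PosDef}

end Pool.Agent.H90.PhaseMu
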