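import Mathlib

set_option autoImplicit false

namespace Pool.Agent.H90.PredualDefs

/-- `ℂ`-uniform convexity. -/
def CUC (Y : Type*) [NormedAddCommGroup Y] [NormedSpace ℂ Y] : Prop :=
  ∀ ε : ℝ, 0 < ε → ∃ δ : ℝ, 0 < δ ∧ ∀ y₀ y₁ : Y,
    (∀ w : ℂ, ‖w‖ = 1 → ‖y₀ + w • y₁‖ ≤ 1) → ε < ‖y₁‖ → ‖y₀‖ < 1 - δ

/-- The dual of `X` is isometrically isomorphic to `ℓ₁`. -/
def IsL1Predual (𝕜 X : Type*) [RCLike 𝕜] [NormedAddCommGroup X] [NormedSpace 𝕜 X] : Prop :=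
  Nonempty (StrongDual 𝕜 X ≃ₗᵢ[𝕜] lp (fun _ : ℕ => 𝕜) 1)

end Pool.Agent.H90.PredualDefs
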