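import Pool.Agent.H90.AseDefs
import Pool.Agent.H90.PredualDefs

set_option autoImplicit false

namespace Pool.Agent.H90.PredualProof

open Set Metric Filter Topology Pool.Agent.H90.AseDefs Pool.Agent.H90.PredualDefs

variable {𝕜 X Y : Type*} [RCLike 𝕜] [NormedAddCommGroup X] [NormedSpace 𝕜 X]
  [NormedAddCommGroup Y] [NormedSpace 𝕜 Y]

lemma exists_rot (a : 𝕜) : ∃ l : 𝕜, ‖l‖ = 1 ∧ l * a = (‖a‖ : ℝ) := by
  by_cases h : a = 0
  · exact ⟨1, norm_one, by simp [h]⟩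
  · refine ⟨(‖a‖ : ℝ) / a, ?_, div_mul_cancel₀ _ h⟩
    rw [norm_div, RCLike.norm_ofReal, abs_norm, div_self (norm_ne_zero_iff.2 h)]

lemma norm_le_of_re {g : StrongDual 𝕜 X} {c : ℝ} (h : ∀ x, ‖x‖ ≤ 1 → RCLike.re (g x) ≤ c) :
    ‖g‖ ≤ c := by
  refine ContinuousLinearMap.opNorm_le_of_unit_norm (by simpa using h 0) fun x hx => ?_
  obtain ⟨l, h1, h2⟩ := exists_rot (g x)
  have := h (l • x) (by rw [norm_smul, h1, hx, one_mul])
  rwa [map_smul, smul_eq_mul, h2, RCLike.ofReal_re] at this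

structure Data (𝕜 X : Type*) [RCLike 𝕜] [NormedAddCommGroup X] [NormedSpace 𝕜 X] where
  B : StrongDual 𝕜 X →ₗ[𝕜] (ℕ → 𝕜)
  f : ℕ → StrongDual 𝕜 X
  h1 : ∀ ψ, HasSum (fun i => ‖B ψ i‖) ‖ψ‖
  h2 : ∀ ψ x, HasSum (fun i => B ψ i * f i x) (ψ x)
  h3 : ∀ j i, B (f j) i = if i = j then 1 else 0

lemma exists_data (h : IsL1Predual 𝕜 X) : Nonempty (Data 𝕜 X) := by
  obtain ⟨Φ⟩ := h
  refine ⟨⟨⟨⟨fun ψ i => Φ ψ i, fun a b => funext fun i => by simp⟩,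
    fun a b => funext fun i => by simp⟩, fun j => Φ.symm (lp.single 1 j 1), fun ψ => ?_,
    fun ψ x => ?_, fun j i => ?_⟩⟩
  · have := lp.hasSum_norm (p := 1) (by simp) (Φ ψ)
    simpa using this
  · have := ((lp.hasSum_single (p := 1) (by simp) (Φ ψ)).mapL
      Φ.symm.toContinuousLinearEquiv.toContinuousLinearMap).mapL
        (ContinuousLinearMap.apply 𝕜 𝕜 x)
    have e : ∀ i, lp.single 1 i (Φ ψ i) = Φ ψ i • (lp.single 1 i 1 : lp (fun _ : ℕ => 𝕜) 1) :=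
      fun i => by rw [← lp.single_smul, smul_eq_mul, mul_one]
    have e2 : ∀ i, ContinuousLinearMap.apply 𝕜 𝕜 x
        (Φ.symm.toContinuousLinearEquiv.toContinuousLinearMap (lp.single 1 i (Φ ψ i))) =
        Φ ψ i * Φ.symm (lp.single 1 i 1) x := fun i => by
      rw [e, map_smul, map_smul]
      rfl
    have e3 : ContinuousLinearMap.apply 𝕜 𝕜 x
        (Φ.symm.toContinuousLinearEquiv.toContinuousLinearMap (Φ ψ)) = ψ x :=
      congrArg (fun φ : StrongDual 𝕜 X => φ x) (Φ.symm_apply_apply ψ)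
    rw [e3, funext e2] at this
    exact this
  · simp [lp.single_apply, Pi.single_apply]

variable (D : Data 𝕜 X)

lemma norm_f (j : ℕ) : ‖D.f j‖ = 1 := by
  have := D.h1 (D.f j)
  refine this.unique ?_
  convert hasSum_ite_eq j (1 : ℝ) using 2 with i
  rw [D.h3]
  split_ifs <;> simp

lemma f_le (j : ℕ) {x : X} (hx : ‖x‖ ≤ 1) : ‖D.f j x‖ ≤ 1 :=
  norm_f D j ▸ (D.f j).unit_le_opNorm x hx

lemma B_le (ψ : StrongDual 𝕜 X) (j : ℕ) : ‖D.B ψ j‖ ≤ ‖ψ‖ :=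
  le_hasSum (D.h1 ψ) j fun _ _ => norm_nonneg _

lemma helly {a : ℕ → 𝕜} (ha : ∀ i, ‖a i‖ ≤ 1) (N : ℕ) {θ : ℝ} (hθ : 0 < θ) :
    ∃ x, ‖x‖ ≤ 1 ∧ ∀ i < N, ‖D.f i x - a i‖ < θ := by
  let : NormedSpace ℝ X := NormedSpace.restrictScalars ℝ 𝕜 X
  have : IsScalarTower ℝ 𝕜 X := RestrictScalars.isScalarTower ℝ 𝕜 X
  let L : X →L[𝕜] (Fin N → 𝕜) := ContinuousLinearMap.pi fun i => D.f i
  have hc : Convex ℝ (L '' closedBall 0 1) :=
    (convex_closedBall 0 1).linear_image (L.restrictScalars ℝ).toLinearMap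
  have : (fun i : Fin N => a i) ∈ closure (L '' closedBall 0 1) := by
    by_contra hn
    obtain ⟨g, u, g1, g2⟩ := RCLike.geometric_hahn_banach_closed_point (𝕜 := 𝕜) hc.closure
      isClosed_closure hn
    have e : ∀ v : Fin N → 𝕜, g v = ∑ i, v i * g (Pi.single i 1) := fun v => by
      conv_lhs => rw [← Finset.univ_sum_single v, map_sum]
      refine Finset.sum_congr rfl fun i _ => ?_
      rw [← smul_eq_mul, ← map_smul, ← Pi.single_smul', smul_eq_mul, mul_one]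
    have a1 : ‖g.comp L‖ ≤ u := norm_le_of_re fun x hx =>
      (g1 _ (subset_closure ⟨x, mem_closedBall_zero_iff.2 hx, rfl⟩)).le
    have a2 : g.comp L = ∑ i : Fin N, g (Pi.single i 1) • D.f i := by
      ext x
      rw [ContinuousLinearMap.comp_apply, e]
      simp [L, mul_comm]
    have a3 : ∀ j : Fin N, D.B (g.comp L) j = g (Pi.single j 1) := fun j => by
      simp [a2, D.h3, Fin.val_inj]
    have a4 := sum_le_hasSum (Finset.range N) (fun _ _ => norm_nonneg _) (D.h1 (g.comp L))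
    rw [← Fin.sum_univ_eq_sum_range (fun i => ‖D.B (g.comp L) i‖)] at a4
    have a5 : ‖g fun i : Fin N => a i‖ ≤ ∑ i : Fin N, ‖D.B (g.comp L) i‖ := by
      rw [e]
      refine (norm_sum_le _ _).trans (Finset.sum_le_sum fun i _ => ?_)
      rw [a3, norm_mul]
      exact mul_le_of_le_one_left (norm_nonneg _) (ha i)
    linarith [RCLike.re_le_norm (g fun i : Fin N => a i)]
  obtain ⟨_, ⟨x, hx, rfl⟩, h⟩ := Metric.mem_closure_iff.1 this θ hθ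
  refine ⟨x, mem_closedBall_zero_iff.1 hx, fun i hi => ?_⟩
  have := (dist_le_pi_dist _ _ (⟨i, hi⟩ : Fin N)).trans_lt h
  rwa [dist_comm, dist_eq_norm] at this

lemma approx {u : X} (hu : ‖u‖ ≤ 1) {t : 𝕜} (ht : ‖D.f 1 u + t‖ ≤ 1) :
    ∃ x : ℕ → X, (∀ n, ‖x n‖ ≤ 1) ∧ ∀ ψ : StrongDual 𝕜 X,
      Tendsto (fun n => ψ (x n)) atTop (𝓝 (ψ u + D.B ψ 1 * t)) := by
  have ha : ∀ i, ‖D.f i u + if i = 1 then t else 0‖ ≤ 1 := fun i => by
    split_ifs with h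
    · rwa [h]
    · simpa using f_le D i hu
  choose x x1 x2 using fun N : ℕ => helly D ha N (θ := 1 / ((N : ℝ) + 1)) (by positivity)
  refine ⟨x, x1, fun ψ => ?_⟩
  have e1 : HasSum (fun i => D.B ψ i * (D.f i u + if i = 1 then t else 0))
      (ψ u + D.B ψ 1 * t) := by
    convert (D.h2 ψ u).add (hasSum_ite_eq 1 (D.B ψ 1 * t)) using 2 with i
    split_ifs with h <;> simp [h, mul_add]
  rw [← e1.tsum_eq]
  simp_rw [← fun n => (D.h2 ψ (x n)).tsum_eq]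
  refine tendsto_tsum_of_dominated_convergence (D.h1 ψ).summable (fun i => ?_)
    (Eventually.of_forall fun n i => ?_)
  · refine Tendsto.const_mul _ (tendsto_iff_norm_sub_tendsto_zero.2 ?_)
    refine squeeze_zero' (Eventually.of_forall fun _ => norm_nonneg _) ?_
      tendsto_one_div_add_atTop_nhds_zero_nat
    filter_upwards [eventually_gt_atTop i] with n hn using (x2 n i hn).le
  · rw [norm_mul]
    exact mul_le_of_le_one_right (norm_nonneg _) (f_le D i (x1 n))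

lemma coeff_zero {ψ : StrongDual 𝕜 X} (h1 : ‖ψ‖ ≤ 1) {u : X} (hu : ‖u‖ ≤ 1) (h2 : ψ u = 1)
    (h3 : ‖D.f 1 u‖ ≤ 1 / 2) : D.B ψ 1 = 0 := by
  have a1 : HasSum (fun i => ‖D.B ψ i‖ - if i = 1 then ‖D.B ψ 1‖ / 2 else 0)
      (‖ψ‖ - ‖D.B ψ 1‖ / 2) := (D.h1 ψ).sub (hasSum_ite_eq 1 _)
  have a2 := (D.h2 ψ u).norm_le_of_bounded a1 fun i => by
    rw [norm_mul]
    split_ifs with h
    · rw [h]
      nlinarith [norm_nonneg (D.B ψ 1)]
    · simpa using mul_le_of_le_one_right (norm_nonneg _) (f_le D i hu)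
  rw [h2, norm_one] at a2
  exact norm_eq_zero.1 (le_antisymm (by linarith) (norm_nonneg _))

lemma rse_zero {S : X →L[𝕜] Y} (hS : RSE S) (h1 : ‖S‖ = 1) {u : X} (hu : ‖u‖ ≤ 1)
    (h2 : ‖S u‖ = 1) (h3 : ‖D.f 1 u‖ ≤ 1 / 2) (h : StrongDual 𝕜 Y) : D.B (h.comp S) 1 = 0 := by
  obtain ⟨x₁, -, H⟩ := hS
  obtain ⟨g, g1, g2⟩ := exists_dual_vector'' 𝕜 (S u)
  rw [h2, RCLike.ofReal_one] at g2
  have g3 := coeff_zero D (ψ := g.comp S) ((g.opNorm_comp_le S).trans (by rwa [h1, mul_one])) hu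
    g2 h3
  have key : ∀ t : 𝕜, ‖t‖ ≤ 1 / 2 →
      h (S u) + D.B (h.comp S) 1 * t = (g (S x₁))⁻¹ * h (S x₁) := fun t ht => by
    obtain ⟨x, x1, x2⟩ := approx D hu (t := t) (by linarith [norm_add_le (D.f 1 u) t])
    have a1 := x2 (g.comp S)
    rw [g3, zero_mul, add_zero, ContinuousLinearMap.comp_apply, g2] at a1
    obtain ⟨σ, l, l1, -, l3⟩ := H x x1 (by
      rw [h1]
      exact tendsto_of_tendsto_of_tendsto_of_le_of_le (by simpa using a1.norm) tendsto_const_nhds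
        (fun n => by simpa using g.le_of_opNorm_le g1 (S (x n)))
        fun n => h1 ▸ S.unit_le_opNorm _ (x1 n))
    have a2 := tendsto_nhds_unique (a1.comp l1.tendsto_atTop) ((g.continuous.tendsto _).comp l3)
    have a3 := tendsto_nhds_unique ((x2 (h.comp S)).comp l1.tendsto_atTop)
      ((h.continuous.tendsto _).comp l3)
    rw [map_smul, smul_eq_mul] at a2 a3
    rw [← eq_inv_of_mul_eq_one_left a2.symm]
    exact a3
  have k := (key (1 / 2) (by simp)).trans (key 0 (by simp)).symm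
  simpa using k

include D in
theorem main (h : CompactBPBpRSE 𝕜 X Y) {ε : ℝ} (hε : 0 < ε) : ∃ δ : ℝ, 0 < δ ∧ ∀ y₀ y₁ : Y,
    (∀ w : 𝕜, ‖w‖ = 1 → ‖y₀ + w • y₁‖ ≤ 1) → ε < ‖y₁‖ → ‖y₀‖ < 1 - δ := by
  obtain ⟨η, h0, h1, H⟩ := h (min ε (1 / 4)) (by positivity)
  have η1 : η < 1 / 4 := h1.trans_le (min_le_right _ _)
  refine ⟨η / 4, by positivity, fun y₀ y₁ hy y1 => ?_⟩
  by_contra hc
  push Not at hc
  have bi : ∀ a b : 𝕜, ‖a‖ ≤ 1 → ‖b‖ ≤ 1 → ‖a • y₀ + b • y₁‖ ≤ 1 := fun a b ha hb => by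
    obtain ⟨g, g1, g2⟩ := exists_dual_vector'' 𝕜 (a • y₀ + b • y₁)
    obtain ⟨l, l1, l2⟩ := exists_rot (g y₀)
    obtain ⟨m, m1, m2⟩ := exists_rot (g y₁)
    have l0 : l ≠ 0 := norm_pos_iff.1 (by rw [l1]; exact one_pos)
    have a1 := (g.le_of_opNorm_le g1 _).trans ((one_mul _).le.trans
      (hy (l⁻¹ * m) (by simp [l1, m1])))
    have a2 : ‖g (y₀ + (l⁻¹ * m) • y₁)‖ = ‖g y₀‖ + ‖g y₁‖ := by
      rw [← one_mul ‖g (y₀ + (l⁻¹ * m) • y₁)‖, ← l1, ← norm_mul, map_add, map_smul, mul_add, l2,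
        smul_eq_mul, ← mul_assoc, mul_inv_cancel_left₀ l0, m2, ← RCLike.ofReal_add,
        RCLike.norm_ofReal, abs_of_nonneg (by positivity)]
    have a3 : ‖g (a • y₀ + b • y₁)‖ ≤ ‖g y₀‖ + ‖g y₁‖ := by
      rw [map_add, map_smul, map_smul]
      refine (norm_add_le _ _).trans (add_le_add ?_ ?_) <;> rw [norm_smul]
      · exact mul_le_of_le_one_left (norm_nonneg _) ha
      · exact mul_le_of_le_one_left (norm_nonneg _) hb
    rw [g2, RCLike.norm_ofReal, abs_norm] at a3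
    linarith
  have y01 : ‖y₀‖ ≤ 1 := by simpa using bi 1 0 (by simp) (by simp)
  have y11 : ‖y₁‖ ≤ 1 := by simpa using bi 0 1 (by simp) (by simp)
  let T0 : X →L[𝕜] Y := (D.f 0).smulRight y₀ + (D.f 1).smulRight y₁
  have t0 : ∀ x, T0 x = D.f 0 x • y₀ + D.f 1 x • y₁ := fun x => rfl
  have t1 : ‖T0‖ ≤ 1 := ContinuousLinearMap.opNorm_le_of_unit_norm zero_le_one fun x hx =>
    bi _ _ (f_le D 0 hx.le) (f_le D 1 hx.le)
  obtain ⟨x, x1, x2⟩ := helly D (a := fun i => if i = 0 then 1 else 0)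
    (fun i => by split_ifs <;> simp) 2 (θ := η / 4) (by positivity)
  have x3 : ‖D.f 0 x - 1‖ < η / 4 := by simpa using x2 0
  have x4 : ‖D.f 1 x‖ < η / 4 := by simpa using x2 1
  have t2 : 1 - η < ‖T0 x‖ := by
    have e : y₀ = T0 x - ((D.f 0 x - 1) • y₀ + D.f 1 x • y₁) := by rw [t0]; module
    have a1 := norm_sub_le (T0 x) ((D.f 0 x - 1) • y₀ + D.f 1 x • y₁)
    have a2 := norm_add_le ((D.f 0 x - 1) • y₀) (D.f 1 x • y₁)
    rw [← e] at a1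
    rw [norm_smul, norm_smul] at a2
    have a3 := mul_le_of_le_one_right (norm_nonneg (D.f 0 x - 1)) y01
    have a4 := mul_le_of_le_one_right (norm_nonneg (D.f 1 x)) y11
    linarith
  have t3 : ‖T0 x‖ ≤ ‖x‖ := by simpa using T0.le_of_opNorm_le t1 x
  have t4 := T0.unit_le_opNorm x x1
  have xp : 0 < ‖x‖ := by linarith
  have Tp : 0 < ‖T0‖ := by linarith
  have n1 : ‖((‖x‖⁻¹ : ℝ) : 𝕜)‖ = ‖x‖⁻¹ := by rw [RCLike.norm_ofReal, abs_of_pos (by positivity)]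
  have n2 : ‖((‖T0‖⁻¹ : ℝ) : 𝕜)‖ = ‖T0‖⁻¹ := by rw [RCLike.norm_ofReal, abs_of_pos (by positivity)]
  have i1 : 1 ≤ ‖x‖⁻¹ := (one_le_inv₀ xp).2 x1
  have i2 : 1 ≤ ‖T0‖⁻¹ := (one_le_inv₀ Tp).2 t1
  have cp : ∀ (f : StrongDual 𝕜 X) (y : Y), IsCompactOperator (f.smulRight y) := fun f y =>
    (isCompactOperator_of_locallyCompactSpace_dom f).clm_comp
      (ContinuousLinearMap.toSpanSingleton 𝕜 y)
  obtain ⟨S, u, -, s0, s1, s2, s3, s4, s5⟩ := H (((‖T0‖⁻¹ : ℝ) : 𝕜) • T0) (((‖x‖⁻¹ : ℝ) : 𝕜) • x)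
    (((cp _ _).add (cp _ _)).smul _) (by rw [norm_smul, n2, inv_mul_cancel₀ Tp.ne'])
    (by rw [norm_smul, n1, inv_mul_cancel₀ xp.ne']) (by
      rw [smul_apply, map_smul, norm_smul, norm_smul, n1, n2]
      have := le_mul_of_one_le_left (norm_nonneg (T0 x)) i1
      have := le_mul_of_one_le_left (by positivity : 0 ≤ ‖x‖⁻¹ * ‖T0 x‖) i2
      linarith)
  have u1 : ‖D.f 1 u‖ ≤ 1 / 2 := by
    have a1 := (D.f 1).le_opNorm (((‖x‖⁻¹ : ℝ) : 𝕜) • x - u)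
    rw [norm_f, one_mul, map_sub, map_smul] at a1
    have a2 := norm_sub_norm_le (D.f 1 u) (((‖x‖⁻¹ : ℝ) : 𝕜) • D.f 1 x)
    rw [norm_sub_rev, norm_smul, n1] at a2
    have a3 : ‖x‖⁻¹ * ‖D.f 1 x‖ ≤ 1 / 4 := by
      rw [inv_mul_le_iff₀ xp]
      linarith
    linarith [min_le_right ε (1 / 4)]
  obtain ⟨g, g1, g2⟩ := exists_dual_vector'' 𝕜 y₁
  have b1 := rse_zero D s0 s2 s1.le s3 u1 g
  have b2 : g.comp (S - ((‖T0‖⁻¹ : ℝ) : 𝕜) • T0) =
      g.comp S - ((‖T0‖⁻¹ : ℝ) : 𝕜) • (g y₀ • D.f 0 + g y₁ • D.f 1) := by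
    ext v
    simp [t0, mul_comm, add_mul]
  have b3 := B_le D (g.comp (S - ((‖T0‖⁻¹ : ℝ) : 𝕜) • T0)) 1
  have b4 := (g.opNorm_comp_le (S - ((‖T0‖⁻¹ : ℝ) : 𝕜) • T0)).trans
    (mul_le_of_le_one_left (norm_nonneg _) g1)
  have b5 : D.B (g.comp (S - ((‖T0‖⁻¹ : ℝ) : 𝕜) • T0)) 1 = -(((‖T0‖⁻¹ : ℝ) : 𝕜) * g y₁) := by
    rw [b2]
    simp [b1, D.h3]
  rw [b5, norm_neg, norm_mul, n2, g2, RCLike.norm_ofReal, abs_norm] at b3
  have := le_mul_of_one_le_left (norm_nonneg y₁) i2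
  linarith [min_le_left ε (1 / 4)]

theorem real_case {X Y : Type*} [NormedAddCommGroup X] [NormedSpace ℝ X] [NormedAddCommGroup Y]
    [NormedSpace ℝ Y] (hX : IsL1Predual ℝ X) (h : CompactBPBpRSE ℝ X Y) : UniformConvexSpace Y := by
  obtain ⟨D⟩ := exists_data hX
  refine ⟨fun ε hε => ?_⟩
  obtain ⟨δ, h0, H⟩ := main D h (ε := ε / 4) (by positivity)
  refine ⟨δ, h0, fun a ha b hb hab => ?_⟩
  have := H ((1 / 2 : ℝ) • (a + b)) ((1 / 2 : ℝ) • (a - b)) (fun w hw => by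
    rcases (abs_eq zero_le_one).1 hw with rfl | rfl
    · have : (1 / 2 : ℝ) • (a + b) + (1 : ℝ) • (1 / 2 : ℝ) • (a - b) = a := by module
      rw [this, ha]
    · have : (1 / 2 : ℝ) • (a + b) + (-1 : ℝ) • (1 / 2 : ℝ) • (a - b) = b := by module
      rw [this, hb]) (by rw [norm_smul]; norm_num; linarith)
  rw [norm_smul] at this
  norm_num at this
  linarith

end Pool.Agent.H90.PredualProof
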