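import Mathlib

set_option autoImplicit false

namespace Pool.Agent.H90.RangeDefs

variable (𝕜 X Y : Type*) [RCLike 𝕜] [NormedAddCommGroup X] [NormedSpace 𝕜 X]
  [NormedAddCommGroup Y] [NormedSpace 𝕜 Y]

/-- The pointwise Bishop-Phelps-Bollobas property of the pair `(X,Y)`. -/
def PointBPB : Prop :=
  ∀ ε : ℝ, 0 < ε → ∃ η : ℝ, 0 < η ∧ ∀ (T : X →L[𝕜] Y) (x₀ : X),
    ‖T‖ = 1 → ‖x₀‖ = 1 → 1 - η < ‖T x₀‖ → ∃ S : X →L[𝕜] Y, ‖S‖ = 1 ∧ ‖S x₀‖ = 1 ∧ ‖S - T‖ < ε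

/-- The Bishop-Phelps-Bollobas property of the pair `(X,Y)`. -/
def BPBp : Prop :=
  ∀ ε : ℝ, 0 < ε → ∃ η : ℝ, 0 < η ∧ ∀ (T : X →L[𝕜] Y) (x₀ : X),
    ‖T‖ = 1 → ‖x₀‖ = 1 → 1 - η < ‖T x₀‖ →
      ∃ (S : X →L[𝕜] Y) (x : X), ‖x‖ = 1 ∧ ‖S‖ = 1 ∧ ‖S x‖ = 1 ∧ ‖x - x₀‖ < ε ∧ ‖S - T‖ < ε

variable {𝕜 Y}

/-- `Y₁` is a closed subspace which is the range of a norm-one projection. -/
def OneCompl (Y₁ : Submodule 𝕜 Y) : Prop :=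
  IsClosed (Y₁ : Set Y) ∧
    ∃ P : Y →L[𝕜] Y, (∀ y, P (P y) = P y) ∧ Set.range P = (Y₁ : Set Y) ∧ ‖P‖ = 1

end Pool.Agent.H90.RangeDefs
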