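import Pool.Agent.H90.BpbProof
import Pool.Agent.H90.RangeDefs

set_option autoImplicit false

namespace Pool.Agent.H90.RangeProof

open Set Metric Filter Topology Pool.Agent.H90.AseLocal Pool.Agent.H90.AseSpace
  Pool.Agent.H90.RangeDefs Pool.Agent.H90.NaProof Pool.Agent.H90.BpbProof
open scoped ENNReal InnerProductSpace Pointwise

variable {𝕜 : Type} [RCLike 𝕜]

lemma space_of_convex {Z : Type} [NormedAddCommGroup Z] [NormedSpace 𝕜 Z] [NormedSpace ℝ Z]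
    [IsScalarTower ℝ 𝕜 Z] [CompleteSpace Z] {B : Set Z} (hc : Convex ℝ B) (hcl : IsClosed B)
    (hb : ∀ z ∈ B, ∀ l : 𝕜, ‖l‖ = 1 → l • z ∈ B) (h1 : ∀ z, ‖z‖ ≤ 1 → z ∈ B)
    (h2 : ∀ z ∈ B, ‖z‖ ≤ 3) :
    ∃ (X : Type) (_ : NormedAddCommGroup X) (_ : NormedSpace 𝕜 X) (E : Z ≃L[𝕜] X),
      ∀ z, ‖E z‖ ≤ 1 ↔ z ∈ B := by
  let F := {f : StrongDual 𝕜 Z // ∀ z ∈ B, ‖f z‖ ≤ 1}
  obtain ⟨X, i1, i2, -, E, e1, e2⟩ := exists_renorm (fun f : F => f.1) (fun f z => by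
    have : ‖f.1‖ ≤ 2 := ContinuousLinearMap.opNorm_le_of_unit_norm zero_le_two fun v hv =>
      (f.2 v (h1 v hv.le)).trans one_le_two
    exact f.1.le_of_opNorm_le this z) (fun z M _ h => by
    obtain ⟨g, g1, g2⟩ := exists_dual_vector'' 𝕜 z
    have := h ⟨(1 / 3 : 𝕜) • g, fun v hv => by
      have a3 := h2 v hv
      have a4 := g.le_opNorm v
      rw [smul_apply, norm_smul]
      norm_num
      nlinarith [norm_nonneg v]⟩
    simp only [smul_apply, norm_smul, g2] at this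
    norm_num at this
    linarith)
  refine ⟨X, i1, i2, E, fun z => ⟨fun hz => ?_, fun hz => e2 z 1 zero_le_one fun f => f.2 z hz⟩⟩
  by_contra hn
  obtain ⟨f, u, f1, f2⟩ := RCLike.geometric_hahn_banach_closed_point (𝕜 := 𝕜) hc hcl hn
  have u0 : 0 < u := by simpa using f1 0 (h1 0 (by simp))
  have hs : ‖((u⁻¹ : ℝ) : 𝕜)‖ = u⁻¹ := by rw [RCLike.norm_ofReal, abs_of_pos (by positivity)]
  have := (e1 ⟨((u⁻¹ : ℝ) : 𝕜) • f, fun v hv => by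
    obtain ⟨l, l1, l2⟩ := exists_rot (f v)
    have := f1 _ (hb v hv l l1)
    rw [map_smul, smul_eq_mul, l2, RCLike.ofReal_re] at this
    rw [smul_apply, norm_smul, hs, inv_mul_le_iff₀ u0]
    linarith⟩ z).trans hz
  simp only [smul_apply, norm_smul, hs] at this
  rw [inv_mul_le_iff₀ u0] at this
  linarith [RCLike.re_le_norm (f z)]

lemma riesz_dir {H : Type} [NormedAddCommGroup H] [InnerProductSpace 𝕜 H] {w h : H}
    (h1 : ‖h‖ ≤ 1) (h2 : ∀ k, ‖k‖ ≤ 1 → RCLike.re ⟪w, k⟫_𝕜 ≤ RCLike.re ⟪w, h⟫_𝕜) :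
    w = ((‖w‖ : ℝ) : 𝕜) • h := by
  by_cases hw : w = 0
  · simp [hw]
  obtain ⟨k, k1, k2⟩ := unit_dir (𝕜 := 𝕜) hw
  have a1 : ‖w‖ ≤ RCLike.re ⟪w, h⟫_𝕜 := by
    refine le_trans (le_of_eq ?_) (h2 k k1.le)
    conv_rhs => rw [k2]
    rw [inner_smul_left, inner_self_eq_norm_sq_to_K, k1]
    simp
  have a2 := norm_sub_sq (𝕜 := 𝕜) w (((‖w‖ : ℝ) : 𝕜) • h)
  rw [inner_smul_right, RCLike.re_ofReal_mul, norm_smul, RCLike.norm_ofReal, abs_norm,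
    mul_pow] at a2
  have a3 : ‖h‖ ^ 2 ≤ 1 := pow_le_one₀ (norm_nonneg _) h1
  have a4 : ‖w - ((‖w‖ : ℝ) : 𝕜) • h‖ ^ 2 ≤ 0 := by
    nlinarith [norm_nonneg w, mul_le_mul_of_nonneg_left a1 (norm_nonneg w),
      mul_le_mul_of_nonneg_left a3 (sq_nonneg ‖w‖)]
  exact sub_eq_zero.1 (norm_eq_zero.1 (pow_eq_zero_iff two_ne_zero |>.1
    (le_antisymm a4 (sq_nonneg _))))

lemma stadium' {H : Type} [NormedAddCommGroup H] [InnerProductSpace 𝕜 H] [FiniteDimensional 𝕜 H]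
    {a v : H} (ha : ‖a‖ = 1) (hv : ‖v‖ = 1) (hav : ⟪a, v⟫_𝕜 = 0)
    (hs : ∀ z, z = ⟪a, z⟫_𝕜 • a + ⟪v, z⟫_𝕜 • v) :
    ∃ (X : Type) (_ : NormedAddCommGroup X) (_ : NormedSpace 𝕜 X) (_ : FiniteDimensional 𝕜 X)
      (x₀ y : X) (α β : StrongDual 𝕜 X), ‖x₀‖ = 1 ∧ ‖y‖ ≤ 1 ∧ ‖α‖ ≤ 1 ∧ ‖β‖ ≤ 1 ∧ α x₀ = 1 ∧
      β y = 1 / 2 ∧ (∀ u, ‖u‖ ≤ 1 → ‖u - x₀‖ < 1 / 8 → ∀ t : 𝕜, ‖t‖ = 1 / 2 → ‖u + t • y‖ ≤ 1) ∧
      ∀ (x : X) (f g : StrongDual 𝕜 X), ‖x‖ = 1 → ‖f‖ ≤ 1 → ‖g‖ ≤ 1 → f x = 1 → g x = 1 →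
        f = g := by
  let : NormedSpace ℝ H := NormedSpace.restrictScalars ℝ 𝕜 H
  have : IsScalarTower ℝ 𝕜 H := RestrictScalars.isScalarTower ℝ 𝕜 H
  have : CompleteSpace H := FiniteDimensional.complete 𝕜 H
  have : ProperSpace H := FiniteDimensional.proper_rclike 𝕜 H
  let B : Set H := (fun t : 𝕜 => t • v) '' closedBall 0 1 + closedBall 0 1
  have mem : ∀ z, z ∈ B ↔ ∃ (t : 𝕜) (h : H), ‖t‖ ≤ 1 ∧ ‖h‖ ≤ 1 ∧ t • v + h = z := fun z =>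
    ⟨fun ⟨_, ⟨t, t1, rfl⟩, h, h1, e⟩ => ⟨t, h, by simpa using t1, by simpa using h1, e⟩,
      fun ⟨t, h, t1, h1, e⟩ => ⟨_, ⟨t, by simpa using t1, rfl⟩, h, by simpa using h1, e⟩⟩
  have hc : Convex ℝ B := ((convex_closedBall (0 : 𝕜) 1).is_linear_image
    ⟨fun s t => add_smul s t v, fun r t => smul_assoc r t v⟩).add (convex_closedBall 0 1)
  have hcl : IsClosed B := (((isCompact_closedBall (0 : 𝕜) 1).image (by fun_prop)).add
    (isCompact_closedBall 0 1)).isClosed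
  have in1 : ∀ z, ‖z‖ ≤ 1 → z ∈ B := fun z hz => (mem z).2 ⟨0, z, by simp, hz, by simp⟩
  obtain ⟨X, i1, i2, E, hB⟩ := space_of_convex (𝕜 := 𝕜) hc hcl (fun z hz l hl => by
    obtain ⟨t, h, t1, h1, rfl⟩ := (mem z).1 hz
    exact (mem _).2 ⟨l * t, l • h, by simpa [hl] using t1, by simpa [norm_smul, hl] using h1,
      by rw [smul_add, smul_smul]⟩) in1 (fun z hz => by
    obtain ⟨t, h, t1, h1, rfl⟩ := (mem z).1 hz
    have := norm_add_le (t • v) h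
    rw [norm_smul, hv] at this
    linarith)
  have i4 : FiniteDimensional 𝕜 X := E.toLinearEquiv.finiteDimensional
  have mB : ∀ x, ‖x‖ ≤ 1 → E.symm x ∈ B := fun x hx => (hB _).1 (by simpa using hx)
  have vv : ⟪v, v⟫_𝕜 = 1 := by rw [inner_self_eq_norm_sq_to_K, hv]; simp
  have aa : ⟪a, a⟫_𝕜 = 1 := by rw [inner_self_eq_norm_sq_to_K, ha]; simp
  have va : ⟪v, a⟫_𝕜 = 0 := by rw [← inner_conj_symm, hav, map_zero]
  have b1 : ∀ z ∈ B, ‖⟪a, z⟫_𝕜‖ ≤ 1 := fun z hz => by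
    obtain ⟨t, h, t1, h1, rfl⟩ := (mem z).1 hz
    rw [inner_add_right, inner_smul_right, hav, mul_zero, zero_add]
    exact (norm_inner_le_norm _ _).trans (by rwa [ha, one_mul])
  have b2 : ∀ z ∈ B, ‖⟪v, z⟫_𝕜‖ ≤ 2 := fun z hz => by
    obtain ⟨t, h, t1, h1, rfl⟩ := (mem z).1 hz
    rw [inner_add_right, inner_smul_right, vv, mul_one]
    have := norm_inner_le_norm (𝕜 := 𝕜) v h
    rw [hv, one_mul] at this
    linarith [norm_add_le t ⟪v, h⟫_𝕜]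
  let α : StrongDual 𝕜 X := (innerSL 𝕜 a).comp (E.symm : X →L[𝕜] H)
  let β : StrongDual 𝕜 X := (1 / 2 : 𝕜) • (innerSL 𝕜 v).comp (E.symm : X →L[𝕜] H)
  have α1 : ‖α‖ ≤ 1 := ContinuousLinearMap.opNorm_le_of_unit_norm zero_le_one fun x hx =>
    b1 _ (mB x hx.le)
  have β0 : ∀ x, β x = 1 / 2 * ⟪v, E.symm x⟫_𝕜 := fun x => rfl
  have β1 : ‖β‖ ≤ 1 := ContinuousLinearMap.opNorm_le_of_unit_norm zero_le_one fun x hx => by
    have := b2 _ (mB x hx.le)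
    rw [β0, norm_mul]
    norm_num
    linarith
  have α2 : α (E a) = 1 := by simp [α, ha]
  refine ⟨X, i1, i2, i4, E a, E v, α, β, le_antisymm ((hB a).2 (in1 a ha.le)) ?_,
    (hB v).2 (in1 v hv.le), α1, β1, α2, by simp [β0, hv], fun u u1 u2 t ht => ?_,
    fun x f g hx f1 g1 f2 g2 => ?_⟩
  · simpa [α2] using α.le_of_opNorm_le α1 (E a)
  · obtain ⟨z, rfl⟩ := E.surjective u
    have c1 := β.le_of_opNorm_le β1 (E z - E a)
    rw [β0, ← map_sub, E.symm_apply_apply, inner_sub_right, va, sub_zero, norm_mul, map_sub] at c1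
    norm_num at c1
    rw [← map_smul, ← map_add, hB, mem]
    refine ⟨⟪v, z⟫_𝕜 + t, ⟪a, z⟫_𝕜 • a, by linarith [norm_add_le ⟪v, z⟫_𝕜 t], ?_, ?_⟩
    · rw [norm_smul, ha, mul_one]
      exact b1 z ((hB z).1 u1)
    · conv_rhs => rw [hs z]
      module
  · obtain ⟨z, rfl⟩ := E.surjective x
    obtain ⟨t, h, t1, h1, rfl⟩ := (mem z).1 ((hB z).1 hx.le)
    have key : ∀ f : StrongDual 𝕜 X, ‖f‖ ≤ 1 → f (E (t • v + h)) = 1 →
        ∃ r : 𝕜, (∀ z, f (E z) = r * ⟪h, z⟫_𝕜) := fun f f1 f2 => by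
      obtain ⟨w, hw⟩ := (InnerProductSpace.toDual 𝕜 H).surjective (f.comp (E : H →L[𝕜] X))
      have hw' : ∀ z, f (E z) = ⟪w, z⟫_𝕜 := fun z => (congrArg (fun φ => φ z) hw).symm
      have := riesz_dir (w := w) h1 fun k hk => by
        have c1 := (RCLike.re_le_norm _).trans ((f.unit_le_opNorm _
          ((hB _).2 ((mem _).2 ⟨t, k, t1, hk, rfl⟩))).trans f1)
        have c2 := congrArg RCLike.re f2
        rw [hw', inner_add_right, map_add] at c1 c2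
        rw [RCLike.one_re] at c2
        linarith
      refine ⟨(‖w‖ : ℝ), fun z => ?_⟩
      rw [hw', this, inner_smul_left, ← this, RCLike.conj_ofReal]
    obtain ⟨r, hr⟩ := key f f1 f2
    obtain ⟨s, hs⟩ := key g g1 g2
    have : r = s := by
      rw [hr] at f2
      rw [hs] at g2
      exact (eq_inv_of_mul_eq_one_left f2).trans (eq_inv_of_mul_eq_one_left g2).symm
    ext x
    obtain ⟨z, rfl⟩ := E.surjective x
    rw [hr, hs, this]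

lemma stadium : ∃ (X : Type) (_ : NormedAddCommGroup X) (_ : NormedSpace 𝕜 X)
      (_ : FiniteDimensional 𝕜 X)
      (x₀ y : X) (α β : StrongDual 𝕜 X), ‖x₀‖ = 1 ∧ ‖y‖ ≤ 1 ∧ ‖α‖ ≤ 1 ∧ ‖β‖ ≤ 1 ∧ α x₀ = 1 ∧
      β y = 1 / 2 ∧ (∀ u, ‖u‖ ≤ 1 → ‖u - x₀‖ < 1 / 8 → ∀ t : 𝕜, ‖t‖ = 1 / 2 → ‖u + t • y‖ ≤ 1) ∧
      ∀ (x : X) (f g : StrongDual 𝕜 X), ‖x‖ = 1 → ‖f‖ ≤ 1 → ‖g‖ ≤ 1 → f x = 1 → g x = 1 →
        f = g :=
  stadium' (H := EuclideanSpace 𝕜 (Fin 2)) (a := EuclideanSpace.single 0 1)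
    (v := EuclideanSpace.single 1 1) (by simp) (by simp)
    (by simp [EuclideanSpace.inner_single_left]) fun z => by
      ext i
      fin_cases i <;> simp [EuclideanSpace.inner_single_left]

lemma point_fun {X : Type} [NormedAddCommGroup X] [NormedSpace 𝕜 X] [FiniteDimensional 𝕜 X]
    (hs : ∀ (x : X) (f g : StrongDual 𝕜 X), ‖x‖ = 1 → ‖f‖ ≤ 1 → ‖g‖ ≤ 1 → f x = 1 → g x = 1 →
      f = g) {ε : ℝ} (hε : 0 < ε) : ∃ η : ℝ, 0 < η ∧ ∀ (f : StrongDual 𝕜 X) (x : X), ‖f‖ ≤ 1 →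
      ‖x‖ = 1 → 1 - η < ‖f x‖ → ∃ g : StrongDual 𝕜 X, ‖g‖ ≤ 1 ∧ ‖g x‖ = 1 ∧ ‖g - f‖ < ε := by
  have : ProperSpace X := FiniteDimensional.proper_rclike 𝕜 X
  have : ProperSpace (StrongDual 𝕜 X) := FiniteDimensional.proper_rclike 𝕜 _
  have hK : IsCompact ((closedBall (0 : StrongDual 𝕜 X) 1 ×ˢ closedBall (0 : StrongDual 𝕜 X) 1 ×ˢ
      sphere (0 : X) 1) ∩ ({q | q.2.1 q.2.2 = 1} ∩ {q | ε ≤ ‖q.2.1 - q.1‖})) :=
    ((isCompact_closedBall _ _).prod ((isCompact_closedBall _ _).prod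
      (isCompact_sphere _ _))).inter_right ((isClosed_eq (by fun_prop) continuous_const).inter
        (isClosed_le continuous_const (by fun_prop)))
  obtain ⟨η, h0, hk⟩ := hK.exists_forall_le' (f := fun q => 1 - RCLike.re (q.1 q.2.2)) (a := 0)
    (by fun_prop) fun ⟨f, g, x⟩ ⟨⟨a1, a2, a3⟩, a4, a5⟩ => by
      simp only [mem_closedBall_zero_iff, mem_sphere_zero_iff_norm, mem_ofPred_eq] at a1 a2 a3 a4 a5
      have h2 : ‖f x‖ ≤ 1 := (f.unit_le_opNorm x a3.le).trans a1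
      have h3 := RCLike.re_le_norm (f x)
      refine sub_pos.2 (lt_of_le_of_ne (h3.trans h2) fun e => ?_)
      have e' : RCLike.re (f x) = 1 := e
      have h4 : f x = 1 := by
        have := (RCLike.re_eq_self_of_le (a := f x) (by linarith)).symm
        rw [this, e', RCLike.ofReal_one]
      rw [hs x f g a3 a1 a2 h4 a4, sub_self, norm_zero] at a5
      exact absurd a5 (not_le.2 hε)
  refine ⟨η, h0, fun f x f1 hx h => ?_⟩
  obtain ⟨l, l1, l2⟩ := exists_rot (f x)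
  obtain ⟨g, g1, g2⟩ := exists_dual_vector'' 𝕜 x
  rw [hx, RCLike.ofReal_one] at g2
  have l0 : l ≠ 0 := norm_pos_iff.1 (by rw [l1]; exact one_pos)
  refine ⟨l⁻¹ • g, by simpa [norm_smul, l1] using g1, by simp [l1, g2], ?_⟩
  have : ‖l⁻¹ • g - f‖ = ‖g - l • f‖ := by
    rw [← one_mul ‖l⁻¹ • g - f‖, ← l1, ← norm_smul, smul_sub, smul_inv_smul₀ l0]
  rw [this]
  by_contra hc
  have := hk (l • f, g, x) ⟨⟨by simpa [norm_smul, l1] using f1, by simpa using g1,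
    by simpa using hx⟩, g2, not_lt.1 hc⟩
  simp only [smul_apply, smul_eq_mul, l2, RCLike.ofReal_re] at this
  linarith

lemma fail2 {C : Type} [NormedAddCommGroup C] [NormedSpace 𝕜 C] [CompleteSpace C]
    {c : ℕ → StrongDual 𝕜 C} (hc : ∀ n y, ‖c n y‖ ≤ ‖y‖)
    {e : ℕ → C} (hce : ∀ n m, c n (e m) = if n = m then 1 else 0)
    (hl : ∀ y M, (∀ n, ‖c n y‖ ≤ M) → ‖y‖ ≤ M) {X : Type} [NormedAddCommGroup X] [NormedSpace 𝕜 X]
    {x₀ y : X} {α β : StrongDual 𝕜 X} (x1 : ‖x₀‖ = 1) (y1 : ‖y‖ ≤ 1) (α1 : ‖α‖ ≤ 1) (β1 : ‖β‖ ≤ 1)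
    (α2 : α x₀ = 1) (β2 : β y = 1 / 2)
    (hf : ∀ u, ‖u‖ ≤ 1 → ‖u - x₀‖ < 1 / 8 → ∀ t : 𝕜, ‖t‖ = 1 / 2 → ‖u + t • y‖ ≤ 1) :
    ∃ (Y : Type) (_ : NormedAddCommGroup Y) (_ : NormedSpace 𝕜 Y) (_ : CompleteSpace Y),
      ¬ BPBp 𝕜 X Y := by
  obtain ⟨Y, i1, i2, i3, G, R, h1, h2, h3, h4⟩ := exists_target2 hc
  refine ⟨Y, i1, i2, i3, fun hd => ?_⟩
  obtain ⟨η, hη, H⟩ := hd (1 / 8) (by norm_num)
  obtain ⟨k, hk⟩ := exists_pow_lt_of_lt_one (half_pos hη) (show (1 / 2 : ℝ) < 1 by norm_num)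
  have k0 : (0 : ℝ) < (1 / 2) ^ k := by positivity
  have k1 : (1 / 2 : ℝ) ^ k ≤ 1 := pow_le_one₀ (by norm_num) (by norm_num)
  let T0 : X →L[𝕜] Y := G.comp (α.smulRight (e k) + β.smulRight (e (k + 1)))
  have t1 : ∀ p, T0 p = G (α p • e k + β p • e (k + 1)) := fun p => rfl
  have t2 : ‖T0‖ ≤ 1 + 2 * (1 / 2) ^ k := by
    refine ContinuousLinearMap.opNorm_le_of_unit_norm (by positivity) fun p hx => ?_
    have p1 := (α.unit_le_opNorm p hx.le).trans α1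
    have p2 := (β.unit_le_opNorm p hx.le).trans β1
    have a1 : ‖α p • e k + β p • e (k + 1)‖ ≤ 1 := hl _ _ fun n => by
      rw [map_add, map_smul, map_smul, hce, hce]
      split_ifs with a b b
      · omega
      · simpa using p1
      · simpa using p2
      · simp
    have a2 : ‖DD hc (α p • e k + β p • e (k + 1))‖ ≤ 2 * (1 / 2) ^ k := by
      rw [map_add, map_smul, map_smul]
      refine (norm_add_le _ _).trans ?_
      rw [norm_smul, norm_smul, DD_e hc hce, DD_e hc hce, pow_succ]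
      nlinarith
    rw [t1]
    linarith [h3 (α p • e k + β p • e (k + 1))]
  have t3 : 1 ≤ ‖T0 x₀‖ := by
    have := (hc k _).trans (h2 (T0 x₀))
    rw [t1, h1] at this
    simpa [t1, hce, α2] using this
  have t4 : 1 ≤ ‖T0‖ := t3.trans (T0.unit_le_opNorm _ x1.le)
  have hn : ‖((‖T0‖⁻¹ : ℝ) : 𝕜)‖ = ‖T0‖⁻¹ := by
    rw [RCLike.norm_ofReal, abs_of_pos (by positivity)]
  obtain ⟨S, u, s2, s1, s3, s4, s5⟩ := H (((‖T0‖⁻¹ : ℝ) : 𝕜) • T0) x₀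
    (by rw [norm_smul, hn, inv_mul_cancel₀ (by positivity)]) x1 (by
      rw [smul_apply, norm_smul, hn, lt_inv_mul_iff₀ (by positivity)]
      nlinarith)
  have b : ∀ t : 𝕜, ‖t‖ = 1 / 2 → ‖S u + t • S y‖ ≤ ‖S u‖ := fun t ht => by
    rw [← map_smul, ← map_add, s3, ← s1]
    exact S.unit_le_opNorm _ (hf u s2.le s4 t ht)
  have b3 := h4 _ _ (b (1 / 2) (by simp)) (by
    rw [sub_eq_add_neg, ← neg_smul]; exact b _ (by simp)) (k + 1)
  simp only [map_smul, smul_eq_mul] at b3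
  have b4 : c (k + 1) (R (S y)) = 0 := (mul_eq_zero.1 b3).resolve_left (by simp)
  have b5 : c (k + 1) (R ((S - ((‖T0‖⁻¹ : ℝ) : 𝕜) • T0) y)) = -((‖T0‖⁻¹ : ℝ) : 𝕜) * (1 / 2) := by
    rw [sub_apply, smul_apply, map_sub, map_sub, b4, map_smul, t1, h1]
    simp [hce, β2]
  have b6 := (hc (k + 1) _).trans ((h2 _).trans ((S - ((‖T0‖⁻¹ : ℝ) : 𝕜) • T0).unit_le_opNorm
    y y1))
  rw [b5, norm_mul, norm_neg, hn] at b6
  have b7 : ‖T0‖⁻¹ < 1 / 4 := by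
    have : ‖(1 / 2 : 𝕜)‖ = 1 / 2 := by simp
    rw [this] at b6
    linarith
  rw [inv_lt_comm₀ (by positivity) (by norm_num)] at b7
  norm_num at b7
  linarith

lemma range_ext' {Y L : Type} [NormedAddCommGroup Y] [NormedSpace 𝕜 Y] [CompleteSpace Y]
    [NormedAddCommGroup L] [NormedSpace 𝕜 L] [CompleteSpace L]
    [DecidableEq (closedBall (0 : StrongDual 𝕜 Y) 1 × ℕ)]
    {c : closedBall (0 : StrongDual 𝕜 Y) 1 × ℕ → StrongDual 𝕜 L}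
    {e : closedBall (0 : StrongDual 𝕜 Y) 1 × ℕ → L} (hc : ∀ n y, ‖c n y‖ ≤ ‖y‖)
    (hce : ∀ n m, c n (e m) = if n = m then 1 else 0)
    (hl : ∀ y M, 0 ≤ M → (∀ n, ‖c n y‖ ≤ M) → ‖y‖ ≤ M) :
    ∃ (W : Type) (_ : NormedAddCommGroup W) (_ : NormedSpace 𝕜 W) (_ : CompleteSpace W)
      (ι : Y →L[𝕜] W) (π : W →L[𝕜] Y) (φ : closedBall (0 : StrongDual 𝕜 Y) 1 × ℕ → StrongDual 𝕜 W)
      (d : closedBall (0 : StrongDual 𝕜 Y) 1 × ℕ → W), (∀ y, ‖ι y‖ ≤ ‖y‖) ∧ (∀ x, ‖π x‖ ≤ ‖x‖) ∧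
      (∀ y, π (ι y) = y) ∧ (∀ n y, ‖φ n y‖ ≤ ‖y‖) ∧ (∀ n m, φ n (d m) = if n = m then 1 else 0) ∧
      ∀ y M, 0 ≤ M → (∀ n, ‖φ n y‖ ≤ M) → ‖y‖ ≤ M := by
  let C := (Submodule.span 𝕜 (range e)).topologicalClosure
  have : CompleteSpace C := (Submodule.isClosed_topologicalClosure _).completeSpace_coe
  let F : closedBall (0 : StrongDual 𝕜 Y) 1 × ℕ → StrongDual 𝕜 (Y × C) := fun n =>
    n.1.1.comp (ContinuousLinearMap.fst 𝕜 Y C) +
      ((c n).comp C.subtypeL).comp (ContinuousLinearMap.snd 𝕜 Y C)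
  have F0 : ∀ n z, F n z = n.1.1 z.1 + c n z.2.1 := fun n z => rfl
  have F1 : ∀ (n : closedBall (0 : StrongDual 𝕜 Y) 1 × ℕ) y, ‖n.1.1 y‖ ≤ ‖y‖ := fun n y => by
    simpa using n.1.1.le_of_opNorm_le (mem_closedBall_zero_iff.1 n.1.2) y
  have key : ∀ (z : Y × C) M, (∀ n, ‖F n z‖ ≤ M) → ‖z.1‖ ≤ M := fun z M h => by
    obtain ⟨g, g1, g2⟩ := exists_dual_vector'' 𝕜 z.1
    refine le_of_forall_pos_le_add fun ε hε => ?_
    obtain ⟨v, hv, hd⟩ := Metric.mem_closure_iff.1 z.2.2 ε hε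
    have h0 : ∀ᶠ n in atTop, c (⟨g, mem_closedBall_zero_iff.2 g1⟩, n) v = 0 := by
      clear hd
      induction hv using Submodule.span_induction with
      | mem u hu =>
        obtain ⟨i, rfl⟩ := hu
        filter_upwards [eventually_gt_atTop i.2] with n hn
        rw [hce, if_neg fun h => hn.ne' (congrArg Prod.snd h)]
      | zero => exact Eventually.of_forall fun n => map_zero _
      | add a b _ _ h1 h2 =>
        filter_upwards [h1, h2] with n h1 h2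
        rw [map_add, h1, h2, add_zero]
      | smul t a _ h1 =>
        filter_upwards [h1] with n h1
        rw [map_smul, h1, smul_zero]
    obtain ⟨n, hn⟩ := h0.exists
    have a1 := hc (⟨g, mem_closedBall_zero_iff.2 g1⟩, n) (z.2.1 - v)
    rw [map_sub, hn, sub_zero, ← dist_eq_norm] at a1
    have a2 := h (⟨g, mem_closedBall_zero_iff.2 g1⟩, n)
    rw [F0] at a2
    have a3 := norm_sub_le (g z.1 + c (⟨g, mem_closedBall_zero_iff.2 g1⟩, n) z.2.1)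
      (c (⟨g, mem_closedBall_zero_iff.2 g1⟩, n) z.2.1)
    rw [add_sub_cancel_right, g2, RCLike.norm_ofReal, abs_norm, ← g2] at a3
    linarith
  obtain ⟨W, i1, i2, i3, E, e1, e2⟩ := exists_renorm F (fun n z => by
    have a1 := (F1 n z.1).trans (norm_fst_le z)
    have a2 := (hc n z.2.1).trans (norm_snd_le z)
    rw [F0]
    linarith [norm_add_le (n.1.1 z.1) (c n z.2.1)]) (fun z M hM h => by
    have a1 := key z M h
    have a2 : ‖z.2‖ ≤ 2 * M := hl z.2.1 _ (by positivity) fun n => by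
      have a3 := norm_sub_le (F n z) (n.1.1 z.1)
      rw [F0, add_sub_cancel_left, ← F0] at a3
      linarith [h n, F1 n z.1]
    exact max_le (by linarith) (by linarith))
  refine ⟨W, i1, i2, i3, (E : Y × C →L[𝕜] W).comp (ContinuousLinearMap.inl 𝕜 Y C),
    (ContinuousLinearMap.fst 𝕜 Y C).comp (E.symm : W →L[𝕜] Y × C),
    fun n => (F n).comp (E.symm : W →L[𝕜] Y × C), fun m => E (0, ⟨e m,
      Submodule.le_topologicalClosure _ (Submodule.subset_span ⟨m, rfl⟩)⟩), fun y => ?_,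
    fun x => ?_, fun y => by simp, fun n x => ?_, fun n m => ?_, fun x M hM h => ?_⟩
  · exact e2 _ _ (norm_nonneg _) fun n => by simpa [F0] using F1 n y
  · simpa using key (E.symm x) _ fun n => e1 n _
  · simpa using e1 n (E.symm x)
  · simp [F0, hce]
  · simpa using e2 (E.symm x) M hM h

lemma point_of_beta {X W Γ : Type} [NormedAddCommGroup X] [NormedSpace 𝕜 X] [NormedAddCommGroup W]
    [NormedSpace 𝕜 W] [DecidableEq Γ] {φ : Γ → StrongDual 𝕜 W} {d : Γ → W}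
    (h1 : ∀ n y, ‖φ n y‖ ≤ ‖y‖) (h2 : ∀ n m, φ n (d m) = if n = m then 1 else 0)
    (h3 : ∀ y M, 0 ≤ M → (∀ n, ‖φ n y‖ ≤ M) → ‖y‖ ≤ M)
    (hX : ∀ ε : ℝ, 0 < ε → ∃ η : ℝ, 0 < η ∧ ∀ (f : StrongDual 𝕜 X) (x : X), ‖f‖ ≤ 1 →
      ‖x‖ = 1 → 1 - η < ‖f x‖ → ∃ g : StrongDual 𝕜 X, ‖g‖ ≤ 1 ∧ ‖g x‖ = 1 ∧ ‖g - f‖ < ε) :
    PointBPB 𝕜 X W := by
  intro ε hε
  obtain ⟨η, h0, H⟩ := hX ε hε
  refine ⟨min η 1, by positivity, fun T x hT hx h => ?_⟩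
  obtain ⟨n, hn⟩ : ∃ n, 1 - min η 1 < ‖φ n (T x)‖ := by
    by_contra hc
    push Not at hc
    exact absurd (h3 _ _ (sub_nonneg.2 (min_le_right _ _)) hc) (not_le.2 h)
  have Tv : ∀ m v, ‖φ m (T v)‖ ≤ ‖v‖ := fun m v =>
    (h1 m _).trans (by simpa using T.le_of_opNorm_le hT.le v)
  obtain ⟨g, g1, g2, g3⟩ := H ((φ n).comp T) x (ContinuousLinearMap.opNorm_le_bound _ zero_le_one
    fun v => by simpa using Tv n v) hx (by
      rw [ContinuousLinearMap.comp_apply]; linarith [min_le_left η 1])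
  have dn : ‖d n‖ ≤ 1 := h3 _ _ zero_le_one fun m => by rw [h2]; split_ifs <;> simp
  let S : X →L[𝕜] W := T + (g - (φ n).comp T).smulRight (d n)
  have S0 : ∀ m v, φ m (S v) = if m = n then g v else φ m (T v) := fun m v => by
    have : S v = T v + (g v - φ n (T v)) • d n := rfl
    rw [this, map_add, map_smul, h2]
    split_ifs with h <;> simp [h]
  have S1 : ‖S‖ ≤ 1 := ContinuousLinearMap.opNorm_le_of_unit_norm zero_le_one fun v hv =>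
    h3 _ _ zero_le_one fun m => by
      rw [S0]
      split_ifs
      · exact (g.unit_le_opNorm v hv.le).trans g1
      · exact hv ▸ Tv m v
  have S2 : 1 ≤ ‖S x‖ := by simpa [S0, g2] using h1 n (S x)
  have S3 := S.unit_le_opNorm x hx.le
  refine ⟨S, by linarith, by linarith, ?_⟩
  rw [add_sub_cancel_left, ContinuousLinearMap.norm_smulRight_apply]
  exact (mul_le_of_le_one_right (norm_nonneg _) dn).trans_lt g3

lemma transfer {X Y W : Type} [NormedAddCommGroup X] [NormedSpace 𝕜 X] [NormedAddCommGroup Y]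
    [NormedSpace 𝕜 Y] [NormedAddCommGroup W] [NormedSpace 𝕜 W] (ι : Y →L[𝕜] W) (π : W →L[𝕜] Y)
    (h1 : ∀ y, ‖ι y‖ = ‖y‖) (h2 : ∀ y, π (ι y) = y) (h3 : Function.Surjective ι)
    (h : BPBp 𝕜 X W) : BPBp 𝕜 X Y := by
  have h4 : ∀ w, ‖π w‖ = ‖w‖ := fun w => by
    obtain ⟨y, rfl⟩ := h3 w
    rw [h2, h1]
  intro ε hε
  obtain ⟨η, h0, H⟩ := h ε hε
  refine ⟨η, h0, fun T x hT hx a => ?_⟩
  obtain ⟨S, u, s1, s2, s3, s4, s5⟩ := H (ι.comp T) x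
    (hT ▸ ContinuousLinearMap.opNorm_ext _ _ fun v => h1 _) hx (by simpa [h1] using a)
  refine ⟨π.comp S, u, s1, s2 ▸ ContinuousLinearMap.opNorm_ext _ _ fun v => h4 _,
    (h4 _).trans s3, s4, lt_of_eq_of_lt (ContinuousLinearMap.opNorm_ext _ _ fun v => ?_) s5⟩
  rw [← h4 ((S - ι.comp T) v)]
  simp [h2]

theorem final : ¬ ∀ (X Y : Type) [NormedAddCommGroup X] [NormedSpace 𝕜 X] [CompleteSpace X]
      [NormedAddCommGroup Y] [NormedSpace 𝕜 Y] [CompleteSpace Y] (Y₁ : Submodule 𝕜 Y),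
      OneCompl Y₁ → PointBPB 𝕜 X Y → BPBp 𝕜 X Y₁ := by
  classical
  intro h
  obtain ⟨X, i1, i2, i3, x₀, y, α, β, a1, a2, a3, a4, a5, a6, a7, a8⟩ := stadium (𝕜 := 𝕜)
  have : CompleteSpace X := FiniteDimensional.complete 𝕜 X
  obtain ⟨Y, j1, j2, j3, hY⟩ := fail2 (C := lp (fun _ : ℕ => 𝕜) ∞)
    (c := fun n => lp.evalCLM 𝕜 (fun _ : ℕ => 𝕜) ∞ n) (e := fun n => lp.single ∞ n 1)
    (fun n y => lp.norm_apply_le_norm ENNReal.top_ne_zero y n)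
    (fun n m => by
      change (lp.single ∞ m (1 : 𝕜) : lp (fun _ : ℕ => 𝕜) ∞) n = _
      rw [lp.single_apply, Pi.single_apply])
    (fun _ M h => lp.norm_le_of_forall_le' M h) a1 a2 a3 a4 a5 a6 a7
  obtain ⟨W, k1, k2, k3, ι, π, φ, d, b1, b2, b3, b4, b5, b6⟩ := range_ext' (𝕜 := 𝕜) (Y := Y)
    (L := lp (fun _ : closedBall (0 : StrongDual 𝕜 Y) 1 × ℕ => 𝕜) ∞)
    (c := fun n => lp.evalCLM 𝕜 (fun _ => 𝕜) ∞ n) (e := fun n => lp.single ∞ n 1)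
    (fun n y => lp.norm_apply_le_norm ENNReal.top_ne_zero y n)
    (fun n m => by
      change (lp.single ∞ m (1 : 𝕜) : lp (fun _ => 𝕜) ∞) n = _
      rw [lp.single_apply, Pi.single_apply])
    (fun _ M hM h => lp.norm_le_of_forall_le hM h)
  have b7 : ∀ y, ‖ι y‖ = ‖y‖ := fun y => le_antisymm (b1 y) (by simpa [b3] using b2 (ι y))
  obtain ⟨c1, P, c2, c3, c4⟩ := oneCompl b7 b2 b3
  have c5 : 1 ≤ ‖P‖ := by
    by_contra hc
    refine hY fun ε _ => ⟨1, one_pos, fun T x _ _ hx => ?_⟩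
    obtain ⟨w, hw⟩ : ι (T x) ∈ range P := c3 ▸ ⟨T x, rfl⟩
    have := P.le_opNorm (P w)
    rw [c2, hw, b7] at this
    nlinarith
  refine hY (transfer ι.rangeRestrict (π.comp ι.range.subtypeL) b7 b3 ?_
    (h X W ι.range ⟨c1, P, c2, c3, le_antisymm c4 c5⟩
      (point_of_beta b4 b5 b6 fun ε hε => point_fun a8 hε)))
  rintro ⟨_, y, rfl⟩
  exact ⟨y, rfl⟩

end Pool.Agent.H90.RangeProof
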