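import Pool.Agent.H90.RdvBlock

namespace Pool.Agent.H90.Rdv

open MeasureTheory Equiv Finset
open scoped ENNReal

variable {n : ℕ}

lemma pr_miss (hn : 0 < n) (c : Fin n) (j : ℕ) :
    1 - (j : ℝ) / n ≤ pr (fun ρ : Perm (Fin n) => ∀ i : Fin n, i.val < j → ρ i ≠ c) := by
  have hn0 : (0 : ℝ) < n := by exact_mod_cast hn
  have e1 := pr_split (fun _ : Perm (Fin n) => True) (fun ρ => ∀ i : Fin n, i.val < j → ρ i ≠ c)
  rw [pr_true] at e1
  have e2 : pr (fun ρ : Perm (Fin n) => True ∧ ¬ ∀ i : Fin n, i.val < j → ρ i ≠ c) ≤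
      ∑ i ∈ univ.filter (fun i : Fin n => i.val < j), pr (fun ρ : Perm (Fin n) => ρ i = c) := by
    refine le_trans (pr_mono fun ρ h => ?_) (pr_exists _ _)
    have h2 := h.2
    push Not at h2
    simpa using h2
  have t : ∀ i ∈ univ.filter (fun i : Fin n => i.val < j),
      pr (fun ρ : Perm (Fin n) => ρ i = c) ≤ 1 / n := by
    intro i _
    rw [le_div_iff₀ hn0]
    simpa using pr_one c i
  have e3 := Finset.sum_le_card_nsmul _ _ _ t
  rw [Fin.card_filter_val_lt, nsmul_eq_mul] at e3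
  have e4 : ((min n j : ℕ) : ℝ) * (1 / n) ≤ j / n := by
    rw [mul_one_div]
    gcongr
    exact min_le_right _ _
  have e5 : pr (fun ρ : Perm (Fin n) => True ∧ ∀ i : Fin n, i.val < j → ρ i ≠ c) ≤
      pr (fun ρ : Perm (Fin n) => ∀ i : Fin n, i.val < j → ρ i ≠ c) := pr_mono fun _ h => h.2
  linarith

lemma pr_der (hn : 0 < n) (j : ℕ) (hj : j ≤ n) :
    (1 - 1 / (n : ℝ)) ^ j ≤ pr (fun ρ : Perm (Fin n) => ∀ i : Fin n, i.val < j → ρ i ≠ i) := by
  have hn0 : (0 : ℝ) < n := by exact_mod_cast hn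
  have hn1 : (1 : ℝ) ≤ n := by exact_mod_cast hn
  induction j with
  | zero =>
    rw [pow_zero, ← pr_true (α := Fin n)]
    exact pr_mono fun _ _ i hi => absurd hi (Nat.not_lt_zero _)
  | succ j ih =>
    have ih' := ih (by omega)
    set P : Perm (Fin n) → Prop := fun ρ => ∀ i : Fin n, i.val < j → ρ i ≠ i with hP
    let y : Fin n := ⟨j, by omega⟩
    have e1 := pr_split P (fun ρ => ρ y = y)
    have e2 := switch_up P y y univ (by
      intro ρ h1 h2 y' _ i hi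
      have hiy : i ≠ y := by
        intro e; rw [e] at hi; exact lt_irrefl _ hi
      rw [Perm.mul_apply, swap_apply_def, if_neg hiy]
      split_ifs with d
      · rw [h2]; exact hiy.symm
      · exact h1 i hi)
    have e3 : pr (fun ρ => P ρ ∧ ¬ ρ y = y) ≤
        pr (fun ρ : Perm (Fin n) => ∀ i : Fin n, i.val < j + 1 → ρ i ≠ i) := by
      refine pr_mono fun ρ h i hi => ?_
      rcases Nat.lt_succ_iff_lt_or_eq.mp hi with h1 | h1
      · exact h.1 i h1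
      · have : i = y := Fin.ext h1
        rw [this]; exact h.2
    rw [Finset.card_univ, Fintype.card_fin, ← le_div_iff₀ hn0] at e2
    have hl0 : 0 ≤ 1 - 1 / (n : ℝ) := by
      rw [sub_nonneg, div_le_one hn0]; exact hn1
    have e4 := mul_le_mul_of_nonneg_right ih' hl0
    have e5 : pr P * (1 - 1 / (n : ℝ)) = pr P - pr P / n := by ring
    rw [pow_succ]
    linarith

/-- Weights of an Anderson-Weber block. -/
noncomputable def awP (n : ℕ) (θ : ℝ) : Option (Perm (Fin n)) → ℝ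
  | none => θ
  | some _ => (1 - θ) / n.factorial

/-- Schedules of an Anderson-Weber block. -/
def awB (hn : 0 < n) : Option (Perm (Fin n)) → Fin n → Fin n
  | none => fun _ => ⟨0, hn⟩
  | some σ => σ

lemma awBlock_eq (hn : 0 < n) (θ : ℝ) : awBlock hn θ = law (awP n θ) (awB hn) := by
  rw [awBlock, law, Fintype.sum_option]; rfl

lemma aw_sv (hn : 0 < n) (θ : ℝ) (h0 : 0 ≤ θ) (h1 : θ ≤ 1) (π : Perm (Fin n))
    (hπ : π ⟨0, hn⟩ ≠ ⟨0, hn⟩) (j : ℕ) (hj : j ≤ n) :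
    θ ^ 2 + 2 * θ * (1 - θ) * (1 - (j : ℝ) / n) + (1 - θ) ^ 2 * (1 - 1 / (n : ℝ)) ^ j ≤
      sv (awP n θ) (awB hn) π j := by
  classical
  have hf : (0 : ℝ) < n.factorial := by exact_mod_cast Nat.factorial_pos n
  have hθ : 0 ≤ 1 - θ := by linarith
  have r1 := sum_relabel (α := Fin n) π (fun ρ => ∀ i : Fin n, i.val < j → ρ i ≠ ⟨0, hn⟩)
  have r2 := sum_relabel (α := Fin n) (Equiv.refl _)
    (fun ρ => ∀ i : Fin n, i.val < j → ρ i ≠ π ⟨0, hn⟩)
  have r3 := fun σ : Perm (Fin n) => sum_relabel (α := Fin n) (π.trans σ.symm)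
    (fun ρ => ∀ i : Fin n, i.val < j → ρ i ≠ i)
  rw [Fintype.card_fin] at r1 r2 r3
  have m1 := pr_miss hn ⟨0, hn⟩ j
  have m2 := pr_miss hn (π ⟨0, hn⟩) j
  have m3 := pr_der hn j hj
  unfold sv
  simp only [Fintype.sum_option, awP, awB, Finset.sum_add_distrib, ← Finset.mul_sum]
  have a0 : ind (∀ i : Fin n, i.val < j → (⟨0, hn⟩ : Fin n) ≠ π ⟨0, hn⟩) = 1 :=
    ind_pos fun _ _ => hπ.symm
  have a1 : ∑ σ : Perm (Fin n), ind (∀ i : Fin n, i.val < j → (⟨0, hn⟩ : Fin n) ≠ π (σ i)) =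
      n.factorial * pr (fun ρ : Perm (Fin n) => ∀ i : Fin n, i.val < j → ρ i ≠ ⟨0, hn⟩) := by
    rw [← r1]
    refine Finset.sum_congr rfl fun σ _ => ind_congr ?_
    simp only [Equiv.trans_apply, ne_comm]
  have a2 : ∑ σ : Perm (Fin n), ind (∀ i : Fin n, i.val < j → σ i ≠ π ⟨0, hn⟩) =
      n.factorial * pr (fun ρ : Perm (Fin n) => ∀ i : Fin n, i.val < j → ρ i ≠ π ⟨0, hn⟩) := by
    rw [← r2]
    rfl
  have a3 : ∀ σ : Perm (Fin n), ∑ σ' : Perm (Fin n),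
      ind (∀ i : Fin n, i.val < j → σ i ≠ π (σ' i)) =
      n.factorial * pr (fun ρ : Perm (Fin n) => ∀ i : Fin n, i.val < j → ρ i ≠ i) := by
    intro σ
    rw [← r3 σ]
    refine Finset.sum_congr rfl fun σ' _ => ind_congr ?_
    simp only [Equiv.trans_apply, ne_eq, Equiv.symm_apply_eq]
    simp only [eq_comm]
  rw [a0, a1, a2]
  simp only [a3, Finset.sum_const, Finset.card_univ, Fintype.card_perm, Fintype.card_fin,
    nsmul_eq_mul]
  generalize pr (fun ρ : Perm (Fin n) => ∀ i : Fin n, i.val < j → ρ i ≠ ⟨0, hn⟩) = x1 at *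
  generalize pr (fun ρ : Perm (Fin n) => ∀ i : Fin n, i.val < j → ρ i ≠ π ⟨0, hn⟩) = x2 at *
  generalize pr (fun ρ : Perm (Fin n) => ∀ i : Fin n, i.val < j → ρ i ≠ i) = x3 at *
  have e : θ * θ * 1 + (1 - θ) / n.factorial * θ * (n.factorial * x2) +
      (θ * ((1 - θ) / n.factorial) * (n.factorial * x1) +
      (1 - θ) / n.factorial * ((1 - θ) / n.factorial) * (n.factorial * (n.factorial * x3))) =
      θ ^ 2 + θ * (1 - θ) * x1 + θ * (1 - θ) * x2 + (1 - θ) ^ 2 * x3 := by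
    field_simp; ring
  have k1 := mul_le_mul_of_nonneg_left m1 (mul_nonneg h0 hθ)
  have k2 := mul_le_mul_of_nonneg_left m2 (mul_nonneg h0 hθ)
  have k3 := mul_le_mul_of_nonneg_left m3 (sq_nonneg (1 - θ))
  linarith

lemma pow_le_inv_e (hn : 0 < n) : (1 - 1 / (n : ℝ)) ^ n ≤ 0.3678794412 := by
  have hn0 : (0 : ℝ) < n := by exact_mod_cast hn
  have hn1 : (1 : ℝ) ≤ n := by exact_mod_cast hn
  have hl0 : 0 ≤ 1 - 1 / (n : ℝ) := by
    rw [sub_nonneg, div_le_one hn0]; exact hn1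
  have h1 : 1 - 1 / (n : ℝ) ≤ Real.exp (-(1 / n)) := by linarith [Real.add_one_le_exp (-(1 / n))]
  calc (1 - 1 / (n : ℝ)) ^ n ≤ Real.exp (-(1 / n)) ^ n := pow_le_pow_left₀ hl0 h1 n
    _ = Real.exp (-1) := by
        rw [← Real.exp_nat_mul]; congr 1; field_simp
    _ ≤ _ := Real.exp_neg_one_lt_d9.le

theorem aw_lower (hn : 0 < n) (hN : 100000 ≤ n) (θ : ℝ) (h0 : 0 ≤ θ) (h1 : θ ≤ 1) :
    ENNReal.ofReal (0.82885 * n) ≤ expTime (AW hn θ) := by
  classical
  have hn0 : (0 : ℝ) < n := by exact_mod_cast hn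
  have hN' : (100000 : ℝ) ≤ n := by exact_mod_cast hN
  have hf : (0 : ℝ) < n.factorial := by exact_mod_cast Nat.factorial_pos n
  have hθ : 0 ≤ 1 - θ := by linarith
  have p0 : ∀ ω, 0 ≤ awP n θ ω := by
    intro ω; cases ω
    · exact h0
    · simp only [awP]; positivity
  have p1 : ∑ ω, awP n θ ω = 1 := by
    simp only [Fintype.sum_option, awP, Finset.sum_const, Finset.card_univ, Fintype.card_perm,
      Fintype.card_fin, nsmul_eq_mul]
    field_simp; ring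
  have key : ∀ π : Perm (Fin n), π ⟨0, hn⟩ ≠ ⟨0, hn⟩ → ENNReal.ofReal (0.82887 * n) ≤
      ∫⁻ x, ∫⁻ y, meetTime π x y ∂(AW hn θ) ∂(AW hn θ) := by
    intro π hπ
    have hν := pow_le_inv_e hn
    set ν := (1 - 1 / (n : ℝ)) ^ n with hνd
    have s1 : ∑ j : Fin n, (θ ^ 2 + 2 * θ * (1 - θ) * (1 - ((j : ℕ) : ℝ) / n) +
        (1 - θ) ^ 2 * (1 - 1 / (n : ℝ)) ^ (j : ℕ)) ≤ ∑ j : Fin n, sv (awP n θ) (awB hn) π j :=
      Finset.sum_le_sum fun j _ => aw_sv hn θ h0 h1 π hπ j j.2.le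
    have g1 : ∑ j : Fin n, (1 - 1 / (n : ℝ)) ^ (j : ℕ) = n * (1 - ν) := by
      rw [Fin.sum_univ_eq_sum_range (fun j => (1 - 1 / (n : ℝ)) ^ j) n, geom_sum_eq (by
        have : 0 < 1 / (n : ℝ) := by positivity
        linarith), ← hνd]
      field_simp; ring
    have g2 : ∑ j : Fin n, (1 - ((j : ℕ) : ℝ) / n) = (n + 1) / 2 := by
      rw [Fin.sum_univ_eq_sum_range (fun j => 1 - (j : ℝ) / n) n, Finset.sum_sub_distrib,
        ← Finset.sum_div, ← Nat.cast_sum]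
      have := Finset.sum_range_id_mul_two n
      have e : ((∑ i ∈ range n, i : ℕ) : ℝ) = n * (n - 1) / 2 := by
        rw [eq_div_iff two_ne_zero]
        have := congrArg (Nat.cast : ℕ → ℝ) this
        rw [Nat.cast_mul, Nat.cast_mul, Nat.cast_sub hn] at this
        simpa using this
      rw [e]; simp; field_simp; ring
    rw [Finset.sum_add_distrib, Finset.sum_add_distrib, ← Finset.mul_sum, ← Finset.mul_sum, g1,
      g2] at s1
    simp only [Finset.sum_const, Finset.card_univ, Fintype.card_fin, nsmul_eq_mul] at s1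
    have s2 := aw_sv hn θ h0 h1 π hπ n le_rfl
    rw [div_self hn0.ne', ← hνd] at s2
    have s3 : n * (θ + (1 - θ) ^ 2 * (1 - ν)) ≤ ∑ j : Fin n, sv (awP n θ) (awB hn) π j := by
      nlinarith [mul_nonneg h0 hθ]
    have s4 : 0.82887 * (1 - θ ^ 2 - (1 - θ) ^ 2 * ν) ≤ θ + (1 - θ) ^ 2 * (1 - ν) := by
      nlinarith [mul_le_mul_of_nonneg_left hν (sq_nonneg (1 - θ)), sq_nonneg (θ - 0.2475)]
    rw [AW, awBlock_eq]
    refine time_lower hn _ _ p0 p1 π _ (lt_of_lt_of_le ?_ s3) ?_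
    · apply mul_pos hn0
      nlinarith [mul_le_mul_of_nonneg_left hν (sq_nonneg (1 - θ)), sq_nonneg (θ - 0.2)]
    · nlinarith [mul_le_mul_of_nonneg_left s4 hn0.le, mul_le_mul_of_nonneg_left s2 hn0.le]
  have hfE : (n.factorial : ℝ≥0∞) = ENNReal.ofReal n.factorial := by simp
  unfold expTime
  rw [ENNReal.le_div_iff_mul_le (Or.inl (by simp [Nat.factorial_ne_zero])) (Or.inl (by simp))]
  have c1 : (1 - 1 / (n : ℝ)) * n.factorial ≤
      #(univ.filter fun π : Perm (Fin n) => π ⟨0, hn⟩ ≠ ⟨0, hn⟩) := by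
    have e1 := pr_miss hn ⟨0, hn⟩ 1
    have e2 : pr (fun ρ : Perm (Fin n) => ∀ i : Fin n, i.val < 1 → ρ i ≠ ⟨0, hn⟩) ≤
        pr (fun ρ : Perm (Fin n) => ρ ⟨0, hn⟩ ≠ ⟨0, hn⟩) := pr_mono fun ρ h => h _ (by simp)
    have e3 := e1.trans e2
    rw [pr, Fintype.card_fin, le_div_iff₀ hf] at e3
    simpa using e3
  calc ENNReal.ofReal (0.82885 * n) * (n.factorial : ℝ≥0∞)
      ≤ ENNReal.ofReal (#(univ.filter fun π : Perm (Fin n) => π ⟨0, hn⟩ ≠ ⟨0, hn⟩) *
          (0.82887 * n)) := by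
        rw [hfE, ← ENNReal.ofReal_mul (by positivity)]
        apply ENNReal.ofReal_le_ofReal
        have e : (1 - 1 / (n : ℝ)) * n.factorial * (0.82887 * n) =
            0.82887 * (n - 1) * n.factorial := by field_simp
        have := mul_le_mul_of_nonneg_right c1 (show (0 : ℝ) ≤ 0.82887 * n by positivity)
        nlinarith
    _ = ∑ π ∈ univ.filter fun π : Perm (Fin n) => π ⟨0, hn⟩ ≠ ⟨0, hn⟩,
          ENNReal.ofReal (0.82887 * n) := by
        rw [Finset.sum_const, nsmul_eq_mul, ENNReal.ofReal_mul (by positivity)]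
        simp
    _ ≤ ∑ π ∈ univ.filter fun π : Perm (Fin n) => π ⟨0, hn⟩ ≠ ⟨0, hn⟩,
          ∫⁻ x, ∫⁻ y, meetTime π x y ∂(AW hn θ) ∂(AW hn θ) :=
        Finset.sum_le_sum fun π hπ => key π (Finset.mem_filter.mp hπ).2
    _ ≤ _ := Finset.sum_le_sum_of_subset (Finset.filter_subset _ _)

end Pool.Agent.H90.Rdv
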