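import Mathlib

namespace Pool.Agent.H90.Rdv

open Equiv Finset

/-- Real indicator of a proposition. -/
noncomputable def ind (P : Prop) : ℝ := @ite ℝ P (Classical.propDecidable P) 1 0

lemma ind_pos {P : Prop} (h : P) : ind P = 1 := if_pos h

lemma ind_neg {P : Prop} (h : ¬ P) : ind P = 0 := if_neg h

lemma ind_nonneg (P : Prop) : 0 ≤ ind P := by
  by_cases h : P
  · rw [ind_pos h]; exact zero_le_one
  · rw [ind_neg h]

lemma ind_le_one (P : Prop) : ind P ≤ 1 := by
  by_cases h : P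
  · rw [ind_pos h]
  · rw [ind_neg h]; exact zero_le_one

lemma ind_congr {P Q : Prop} (h : P ↔ Q) : ind P = ind Q := by rw [propext h]

variable {α : Type*} [Fintype α] [DecidableEq α]

open Classical in
/-- Probability of an event for a uniform permutation. -/
noncomputable def pr (P : Perm α → Prop) : ℝ :=
  (#(univ.filter P) : ℝ) / ((Fintype.card α).factorial : ℝ)

omit [DecidableEq α] in
lemma fac_pos : (0 : ℝ) < ((Fintype.card α).factorial : ℝ) := by
  exact_mod_cast Nat.factorial_pos _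

lemma pr_nonneg (P : Perm α → Prop) : 0 ≤ pr P := by unfold pr; positivity

lemma pr_mono {P Q : Perm α → Prop} (h : ∀ ρ, P ρ → Q ρ) : pr P ≤ pr Q := by
  classical
  unfold pr
  gcongr
  exact h _

lemma pr_true : pr (fun _ : Perm α => True) = 1 := by
  unfold pr
  simp [Fintype.card_perm, Nat.factorial_ne_zero]

lemma pr_le_one (P : Perm α → Prop) : pr P ≤ 1 := pr_true (α := α) ▸ pr_mono fun _ _ => trivial

lemma pr_split (P Q : Perm α → Prop) :
    pr P = pr (fun ρ => P ρ ∧ Q ρ) + pr (fun ρ => P ρ ∧ ¬ Q ρ) := by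
  classical
  unfold pr
  rw [← add_div, ← Nat.cast_add]
  congr 2
  rw [← Finset.card_filter_add_card_filter_not (s := univ.filter P) Q, Finset.filter_filter,
    Finset.filter_filter]
  congr 1 <;> congr 1 <;> ext <;> simp

lemma pr_or (P Q : Perm α → Prop) : pr (fun ρ => P ρ ∨ Q ρ) ≤ pr P + pr Q := by
  rw [pr_split _ P]
  exact add_le_add (pr_mono fun _ h => h.2) (pr_mono fun _ h => h.1.resolve_left h.2)

lemma pr_exists {ι : Type*} (s : Finset ι) (Q : ι → Perm α → Prop) :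
    pr (fun ρ => ∃ i ∈ s, Q i ρ) ≤ ∑ i ∈ s, pr (Q i) := by
  classical
  induction s using Finset.induction_on with
  | empty => simp [pr]
  | insert a s ha ih =>
    rw [Finset.sum_insert ha]
    refine le_trans (pr_mono fun ρ h => ?_) ((pr_or (Q a) _).trans (add_le_add le_rfl ih))
    simpa using h

lemma switch_up (P : Perm α → Prop) (x y : α) (W : Finset α)
    (h : ∀ ρ, P ρ → ρ y = x → ∀ y' ∈ W, P (ρ * swap y y')) :
    pr (fun ρ => P ρ ∧ ρ y = x) * #W ≤ pr P := by
  classical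
  unfold pr
  rw [div_mul_eq_mul_div, ← Nat.cast_mul, ← Finset.card_product]
  gcongr
  refine Finset.card_le_card_of_injOn (fun z => z.1 * swap y z.2) ?_ ?_
  · rintro ⟨ρ, y'⟩ hz
    simp only [coe_product, coe_filter, mem_univ, true_and, Set.mem_prod, Set.mem_ofPred_eq,
      mem_coe] at hz ⊢
    exact h ρ hz.1.1 hz.1.2 y' hz.2
  · rintro ⟨ρ, y'⟩ hz ⟨σ, y''⟩ hw e
    simp only [coe_product, coe_filter, mem_univ, true_and, Set.mem_prod, Set.mem_ofPred_eq,
      mem_coe] at hz hw e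
    have e1 : (ρ * swap y y') y' = x := by simp [hz.1.2]
    have e2 : (σ * swap y y'') y'' = x := by simp [hw.1.2]
    rw [← e] at e2
    have e3 : y' = y'' := (ρ * swap y y').injective (e1.trans e2.symm)
    subst e3
    rw [mul_left_inj] at e
    rw [e]

lemma switch_down (P : Perm α → Prop) (x y : α) :
    pr (fun ρ => P (ρ * swap y (ρ⁻¹ x))) ≤ Fintype.card α * pr (fun ρ => P ρ ∧ ρ y = x) := by
  classical
  unfold pr
  rw [← mul_div_assoc, ← Nat.cast_mul, mul_comm, ← Finset.card_univ (α := α),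
    ← Finset.card_product]
  gcongr
  refine Finset.card_le_card_of_injOn (fun ρ => (ρ * swap y (ρ⁻¹ x), ρ⁻¹ x)) ?_ ?_
  · intro ρ hz
    simp only [coe_product, coe_filter, mem_univ, true_and, Set.mem_prod, Set.mem_ofPred_eq,
      mem_coe, and_true] at hz ⊢
    exact ⟨hz, by simp⟩
  · intro ρ _ σ _ e
    simp only [Prod.mk.injEq] at e
    obtain ⟨e1, e2⟩ := e
    rw [e2, mul_left_inj] at e1
    exact e1

lemma pr_one (x y : α) : pr (fun ρ : Perm α => ρ y = x) * Fintype.card α ≤ 1 := by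
  have := switch_up (fun _ : Perm α => True) x y univ (fun _ _ _ _ _ => trivial)
  rw [pr_true] at this
  simpa using this

lemma pr_two (x1 y1 x2 y2 : α) (hy : y1 ≠ y2) :
    pr (fun ρ : Perm α => ρ y1 = x1 ∧ ρ y2 = x2) * (Fintype.card α - 1) * Fintype.card α ≤ 1 := by
  have h := switch_up (fun ρ : Perm α => ρ y1 = x1) x2 y2 (univ.erase y1) (by
    intro ρ h1 _ y' hy'
    have : y' ≠ y1 := (Finset.mem_erase.mp hy').1
    rw [Perm.mul_apply, swap_apply_of_ne_of_ne hy this.symm, h1])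
  have hpos : 0 < Fintype.card α := Fintype.card_pos_iff.mpr ⟨y1⟩
  rw [Finset.card_erase_of_mem (mem_univ _), Finset.card_univ, Nat.cast_sub hpos,
    Nat.cast_one] at h
  exact (mul_le_mul_of_nonneg_right h (by positivity)).trans (pr_one x1 y1)

/-- Avoiding a set of forbidden pairs under side conditions at the home location. -/
lemma avoid_bound (h : α) (X Y : Finset α) (hn : 2 ≤ Fintype.card α) (Z : Finset (α × α))
    (hZ : ∀ z ∈ Z, z.1 ≠ h ∧ z.2 ≠ h) (hc : #Z ≤ 3 * Fintype.card α) :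
    pr (fun ρ : Perm α => (ρ h ∉ X ∧ ∀ y ∈ Y, ρ y ≠ h) ∧ ∀ z ∈ Z, ρ z.2 ≠ z.1) ≤
      pr (fun ρ : Perm α => ρ h ∉ X ∧ ∀ y ∈ Y, ρ y ≠ h) * (1 - 1 / Fintype.card α) ^ #Z +
        #Z * (8 / (Fintype.card α : ℝ) ^ 2) := by
  set n : ℝ := (Fintype.card α : ℝ) with hnd
  have hn2 : (2 : ℝ) ≤ n := by rw [hnd]; exact_mod_cast hn
  have hn0 : 0 < n := by linarith
  induction Z using Finset.induction_on with
  | empty => simp
  | insert z Z hz ih =>
    obtain ⟨x, y⟩ := z
    have hc' : #Z + 1 ≤ 3 * Fintype.card α := by rwa [Finset.card_insert_of_notMem hz] at hc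
    have ih' := ih (fun w hw => hZ w (mem_insert_of_mem hw)) (by omega)
    obtain ⟨hx, hy⟩ := hZ (x, y) (mem_insert_self _ _)
    simp only at hx hy
    set P : Perm α → Prop := fun ρ => (ρ h ∉ X ∧ ∀ y ∈ Y, ρ y ≠ h) ∧ ∀ z ∈ Z, ρ z.2 ≠ z.1 with hP
    have e1 : pr (fun ρ : Perm α => (ρ h ∉ X ∧ ∀ y ∈ Y, ρ y ≠ h) ∧
        ∀ z ∈ insert (x, y) Z, ρ z.2 ≠ z.1) ≤ pr (fun ρ => P ρ ∧ ¬ ρ y = x) :=
      pr_mono fun ρ hρ => ⟨⟨hρ.1, fun w hw => hρ.2 w (mem_insert_of_mem hw)⟩,
        hρ.2 (x, y) (mem_insert_self _ _)⟩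
    have e2 := pr_split P (fun ρ => ρ y = x)
    have e3 := switch_down P x y
    have e4 : pr P ≤ pr (fun ρ => P (ρ * swap y (ρ⁻¹ x))) +
        (pr (fun ρ : Perm α => ρ h = x) + (pr (fun ρ : Perm α => ρ y = h) +
          pr (fun ρ : Perm α => ∃ w ∈ Z, ρ y = w.1 ∧ ρ w.2 = x))) := by
      refine le_trans (pr_mono ?_) ((pr_or _ _).trans (add_le_add le_rfl
        ((pr_or _ _).trans (add_le_add le_rfl (pr_or _ _)))))
      intro ρ ⟨⟨p1, p2⟩, p3⟩
      by_contra hcon
      push Not at hcon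
      obtain ⟨c0, c1, c2, c3⟩ := hcon
      apply c0
      have q1 : h ≠ ρ⁻¹ x := by
        intro e; apply c1; rw [e]; simp
      refine ⟨⟨?_, fun y0 hy0 => ?_⟩, fun w hw => ?_⟩
      · rw [Perm.mul_apply, swap_apply_of_ne_of_ne hy.symm q1]; exact p1
      · rw [Perm.mul_apply, swap_apply_def]
        split_ifs with d1 d2
        · simpa using hx
        · exact c2
        · exact p2 y0 hy0
      · rw [Perm.mul_apply, swap_apply_def]
        split_ifs with d1 d2
        · intro e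
          apply hz
          have : x = w.1 := by simpa using e
          rw [this, ← d1]; exact hw
        · intro e
          exact c3 w hw e (by rw [d2]; simp)
        · exact p3 w hw
    have b1 : pr (fun ρ : Perm α => ρ h = x) ≤ 1 / n := by
      rw [le_div_iff₀ hn0]; exact pr_one x h
    have b2 : pr (fun ρ : Perm α => ρ y = h) ≤ 1 / n := by
      rw [le_div_iff₀ hn0]; exact pr_one h y
    have b3 : pr (fun ρ : Perm α => ∃ w ∈ Z, ρ y = w.1 ∧ ρ w.2 = x) ≤ 6 / n := by
      refine (pr_exists Z _).trans ?_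
      have t : ∀ w ∈ Z, pr (fun ρ : Perm α => ρ y = w.1 ∧ ρ w.2 = x) ≤ 2 / n ^ 2 := by
        intro w hw
        by_cases hw2 : y = w.2
        · refine le_trans (pr_mono (Q := fun _ => False) ?_) (by simp [pr]; positivity)
          rintro ρ ⟨r1, r2⟩
          apply hz
          rw [← hw2, r1] at r2
          rw [← r2, hw2]; exact hw
        · have := pr_two w.1 y x w.2 hw2
          rw [← hnd] at this
          rw [le_div_iff₀ (by positivity)]
          have nn := pr_nonneg (fun ρ : Perm α => ρ y = w.1 ∧ ρ w.2 = x)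
          nlinarith [mul_nonneg nn (mul_nonneg hn0.le (sub_nonneg.mpr hn2))]
      refine (Finset.sum_le_card_nsmul _ _ _ t).trans ?_
      have : (#Z : ℝ) ≤ 3 * n := by rw [hnd]; exact_mod_cast (by omega : #Z ≤ 3 * Fintype.card α)
      rw [nsmul_eq_mul]
      calc (#Z : ℝ) * (2 / n ^ 2) ≤ 3 * n * (2 / n ^ 2) := by gcongr
        _ = 6 / n := by field_simp; norm_num
    rw [← hnd] at e3
    have e5 : pr P / n - 8 / n ^ 2 ≤ pr (fun ρ => P ρ ∧ ρ y = x) := by
      have : pr P - 8 / n ≤ n * pr (fun ρ => P ρ ∧ ρ y = x) := by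
        have : 1 / n + (1 / n + 6 / n) = 8 / n := by ring
        linarith
      have e : pr P / n - 8 / n ^ 2 = (pr P - 8 / n) / n := by field_simp
      rw [e, div_le_iff₀ hn0]; linarith
    have hl0 : 0 ≤ 1 - 1 / n := by
      rw [sub_nonneg, div_le_one hn0]; linarith
    have hl1 : 1 - 1 / n ≤ 1 := by
      have : 0 ≤ 1 / n := by positivity
      linarith
    rw [Finset.card_insert_of_notMem hz, pow_succ]
    push_cast
    have e6 : pr P - pr P / n = pr P * (1 - 1 / n) := by ring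
    have e7 := mul_le_mul_of_nonneg_right ih' hl0
    have e8 : (#Z : ℝ) * (8 / n ^ 2) * (1 - 1 / n) ≤ #Z * (8 / n ^ 2) :=
      mul_le_of_le_one_right (by positivity) hl1
    nlinarith

/-- The side conditions at the home location. -/
lemma home_bound (h : α) (X Y : Finset α) (hn : 2 ≤ Fintype.card α) (hX : h ∉ X) (hY : h ∉ Y) :
    pr (fun ρ : Perm α => ρ h ∉ X ∧ ∀ y ∈ Y, ρ y ≠ h) ≤
      (1 - #X / (Fintype.card α - 1 : ℝ)) * (1 - #Y / (Fintype.card α - 1 : ℝ)) +
        1 / Fintype.card α := by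
  set n : ℝ := (Fintype.card α : ℝ) with hnd
  have hn2 : (2 : ℝ) ≤ n := by rw [hnd]; exact_mod_cast hn
  have hn0 : 0 < n := by linarith
  have hn1 : 0 < n - 1 := by linarith
  have cnt : ∀ X : Finset α, h ∉ X → (#((univ.erase h) \ X) : ℝ) = n - 1 - #X := by
    intro X hX
    have sub : X ⊆ univ.erase h := fun a ha =>
      mem_erase.mpr ⟨fun e => hX (by rw [← e]; exact ha), mem_univ _⟩
    rw [Finset.card_sdiff_of_subset sub, Nat.cast_sub (Finset.card_le_card sub),
      Finset.card_erase_of_mem (mem_univ _), Finset.card_univ, Nat.cast_sub (by omega)]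
    simp [hnd]
  have e1 : pr (fun ρ : Perm α => ρ h ∉ X ∧ ∀ y ∈ Y, ρ y ≠ h) ≤
      pr (fun ρ : Perm α => ∃ w ∈ ((univ.erase h) \ X) ×ˢ ((univ.erase h) \ Y),
        ρ h = w.1 ∧ ρ w.2 = h) + pr (fun ρ : Perm α => ρ h = h) := by
    refine le_trans (pr_mono ?_) (pr_or _ _)
    intro ρ ⟨p1, p2⟩
    by_cases hh : ρ h = h
    · exact Or.inr hh
    · refine Or.inl ⟨(ρ h, ρ⁻¹ h), ?_, rfl, by simp⟩
      simp only [mem_product, mem_sdiff, mem_erase, mem_univ, and_true]
      refine ⟨⟨hh, p1⟩, fun e => hh ?_, fun e => p2 _ e (by simp)⟩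
      conv_lhs => rw [← e]
      simp
  have b1 : pr (fun ρ : Perm α => ρ h = h) ≤ 1 / n := by
    rw [le_div_iff₀ hn0]; exact pr_one h h
  refine e1.trans (add_le_add ((pr_exists _ _).trans ?_) b1)
  have t : ∀ w ∈ ((univ.erase h) \ X) ×ˢ ((univ.erase h) \ Y),
      pr (fun ρ : Perm α => ρ h = w.1 ∧ ρ w.2 = h) ≤ 1 / (n - 1) ^ 2 := by
    intro w hw
    simp only [mem_product, mem_sdiff, mem_erase] at hw
    have := pr_two w.1 h h w.2 (Ne.symm hw.2.1.1)
    rw [← hnd] at this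
    rw [le_div_iff₀ (by positivity)]
    have nn := pr_nonneg (fun ρ : Perm α => ρ h = w.1 ∧ ρ w.2 = h)
    nlinarith [mul_nonneg nn hn1.le]
  refine (Finset.sum_le_card_nsmul _ _ _ t).trans (le_of_eq ?_)
  rw [nsmul_eq_mul, Finset.card_product, Nat.cast_mul, cnt X hX, cnt Y hY]
  field_simp

/-- Averaging over a relabelling. -/
lemma sum_relabel {β : Type*} [Fintype β] [DecidableEq β] (e : β ≃ α) (P : Perm α → Prop) :
    ∑ σ : α ≃ β, ind (P (σ.trans e)) = ((Fintype.card α).factorial : ℝ) * pr P := by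
  rw [pr, mul_div_cancel₀ _ fac_pos.ne', Finset.card_filter]
  push_cast
  exact Fintype.sum_equiv ((Equiv.refl α).equivCongr e) _ _ (fun σ => by
    unfold ind
    congr 1)

end Pool.Agent.H90.Rdv
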