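import Pool.Agent.H90.RdvDefs
import Pool.Agent.H90.RdvPerm

namespace Pool.Agent.H90.Rdv

open MeasureTheory ProbabilityTheory
open scoped ENNReal

variable {n B : ℕ}

open Classical in
/-- Indicator of no meeting in the first `s` steps. -/
noncomputable def nm (π : Equiv.Perm (Fin n)) (s : ℕ) (x y : ℕ → Fin n) : ℝ≥0∞ :=
  if ∀ t < s, x t ≠ π (y t) then 1 else 0

open Classical in
/-- Indicator of no meeting in the first `j` steps of a block. -/
noncomputable def nb (π : Equiv.Perm (Fin n)) (j : ℕ) (a b : Fin B → Fin n) : ℝ≥0∞ :=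
  if ∀ i : Fin B, i.val < j → a i ≠ π (b i) then 1 else 0

lemma meetTime_eq (π : Equiv.Perm (Fin n)) (x y : ℕ → Fin n) :
    meetTime π x y = ∑' s, nm π s x y := by
  classical
  by_cases h : ∃ t, x t = π (y t)
  · have h0 := Nat.find_spec h
    have e1 : meetTime π x y = (Nat.find h : ℝ≥0∞) + 1 := by
      unfold meetTime
      refine le_antisymm (iInf₂_le (Nat.find h) h0) (le_iInf₂ fun t ht => ?_)
      have := Nat.find_min' h ht
      gcongr
    have e2 : ∀ s, nm π s x y = if s ∈ Finset.range (Nat.find h + 1) then 1 else 0 := by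
      intro s
      unfold nm
      congr 1
      rw [Finset.mem_range, Nat.lt_succ_iff, Nat.le_find_iff]
    rw [e1, tsum_eq_sum (s := Finset.range (Nat.find h + 1)) (fun s hs => by rw [e2, if_neg hs]),
      Finset.sum_congr rfl (fun s hs => by rw [e2, if_pos hs])]
    simp
  · push Not at h
    have e1 : meetTime π x y = ⊤ := by simp [meetTime, h]
    have e2 : ∀ s, nm π s x y = 1 := fun s => if_pos fun t _ => h t
    simp [e1, e2]

lemma nm_meas (π : Equiv.Perm (Fin n)) (s : ℕ) :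
    Measurable (fun p : (ℕ → Fin n) × (ℕ → Fin n) => nm π s p.1 p.2) := by
  classical
  unfold nm
  refine Measurable.ite ?_ measurable_const measurable_const
  have : {p : (ℕ → Fin n) × (ℕ → Fin n) | ∀ t < s, p.1 t ≠ π (p.2 t)} =
      ⋂ t, ⋂ (_ : t < s), (fun p : (ℕ → Fin n) × (ℕ → Fin n) => (p.1 t, p.2 t)) ⁻¹'
        {z : Fin n × Fin n | z.1 ≠ π z.2} := by
    ext p; simp
  rw [this]
  refine MeasurableSet.iInter fun t => MeasurableSet.iInter fun _ => ?_
  exact (show Measurable (fun p : (ℕ → Fin n) × (ℕ → Fin n) => (p.1 t, p.2 t)) by fun_prop)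
    (MeasurableSet.of_discrete)

/-- The schedule built from a sequence of blocks. -/
def glue (hB : 0 < B) (ω : ℕ → Fin B → Fin n) : ℕ → Fin n :=
  fun t => ω (t / B) ⟨t % B, Nat.mod_lt t hB⟩

lemma glue_meas (hB : 0 < B) : Measurable (glue (n := n) hB) := by
  unfold glue; fun_prop

lemma nm_glue (hB : 0 < B) (π : Equiv.Perm (Fin n)) (k j : ℕ) (hj : j < B)
    (ω ω' : ℕ → Fin B → Fin n) :
    nm π (k * B + j) (glue hB ω) (glue hB ω') =
      ∏ i ∈ Finset.range (k + 1), nb π (if i < k then B else j) (ω i) (ω' i) := by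
  classical
  unfold nm nb
  rw [Finset.prod_ite_zero, Finset.prod_const_one]
  congr 1
  apply propext
  constructor
  · intro h i hi a ha
    have hi' : i ≤ k := Nat.lt_succ_iff.mp (Finset.mem_range.mp hi)
    have hlt : i * B + a.val < k * B + j := by
      split_ifs at ha with h1
      · have : (i + 1) * B ≤ k * B := Nat.mul_le_mul_right _ h1
        have := a.2
        nlinarith
      · have : i = k := by omega
        subst this; omega
    have := h _ hlt
    have e1 : (i * B + a.val) / B = i := by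
      rw [mul_comm, Nat.mul_add_div hB, Nat.div_eq_of_lt a.2, add_zero]
    have e2 : (i * B + a.val) % B = a.val := by
      rw [mul_comm, Nat.mul_add_mod, Nat.mod_eq_of_lt a.2]
    simpa [glue, e1, e2] using this
  · intro h t ht
    have e := Nat.div_add_mod t B
    have hk : t / B < k + 1 := by
      rw [Nat.div_lt_iff_lt_mul hB]; nlinarith
    refine h (t / B) (Finset.mem_range.mpr hk) ⟨t % B, Nat.mod_lt t hB⟩ ?_
    split_ifs with h1
    · exact Nat.mod_lt t hB
    · have h2 : t / B = k := by omega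
      rw [h2, mul_comm] at e
      simp only
      omega

/-- Probability of no meeting in the first `j` steps of one block. -/
noncomputable def surv (μ : Measure (Fin B → Fin n)) (π : Equiv.Perm (Fin n)) (j : ℕ) : ℝ≥0∞ :=
  ∫⁻ a, ∫⁻ b, nb π j a b ∂μ ∂μ

lemma prod_inf {X : Type*} [MeasurableSpace X] [DiscreteMeasurableSpace X] (μ : Measure X)
    [IsProbabilityMeasure μ] (s : Finset ℕ) (f : ℕ → X → ℝ≥0∞) :
    ∫⁻ ω, ∏ i ∈ s, f i (ω i) ∂(Measure.infinitePi fun _ : ℕ => μ) = ∏ i ∈ s, ∫⁻ a, f i a ∂μ := by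
  rw [lintegral_prod_eq_prod_lintegral_of_indepFun s (fun i (ω : ℕ → X) => f i (ω i))
    (iIndepFun_infinitePi (P := fun _ : ℕ => μ) (X := f) fun i => Measurable.of_discrete)
    (fun i => (Measurable.of_discrete (f := f i)).comp (measurable_pi_apply i))]
  refine Finset.prod_congr rfl fun i _ => ?_
  exact (measurePreserving_eval_infinitePi (fun _ : ℕ => μ) i).lintegral_comp
    (Measurable.of_discrete (f := f i))

lemma block_prob (hB : 0 < B) (μ : Measure (Fin B → Fin n)) [IsProbabilityMeasure μ] :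
    IsProbabilityMeasure (blockStrat hB μ) :=
  Measure.isProbabilityMeasure_map (glue_meas hB).aemeasurable

lemma block_nm (hB : 0 < B) (μ : Measure (Fin B → Fin n)) [IsProbabilityMeasure μ]
    (π : Equiv.Perm (Fin n)) (k j : ℕ) (hj : j < B) :
    ∫⁻ x, ∫⁻ y, nm π (k * B + j) x y ∂(blockStrat hB μ) ∂(blockStrat hB μ) =
      surv μ π B ^ k * surv μ π j := by
  have := block_prob hB μ
  have e : blockStrat hB μ = (Measure.infinitePi fun _ : ℕ => μ).map (glue hB) := rfl
  have m1 : Measurable fun x => ∫⁻ y, nm π (k * B + j) x y ∂(blockStrat hB μ) :=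
    (nm_meas π _).lintegral_prod_right'
  conv_lhs => rw [e, lintegral_map (e ▸ m1) (glue_meas hB)]
  have e2 : ∀ ω : ℕ → Fin B → Fin n, ∫⁻ y, nm π (k * B + j) (glue hB ω) y
      ∂((Measure.infinitePi fun _ : ℕ => μ).map (glue hB)) =
      ∏ i ∈ Finset.range (k + 1), ∫⁻ b, nb π (if i < k then B else j) (ω i) b ∂μ := by
    intro ω
    have m2 : Measurable fun y => nm π (k * B + j) (glue hB ω) y :=
      (nm_meas π _).comp (measurable_const.prodMk measurable_id)
    rw [lintegral_map m2 (glue_meas hB)]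
    simp_rw [nm_glue hB π k j hj]
    exact prod_inf μ _ (fun i b => nb π (if i < k then B else j) (ω i) b)
  simp_rw [e2]
  rw [prod_inf μ _ (fun i a => ∫⁻ b, nb π (if i < k then B else j) a b ∂μ),
    Finset.prod_range_succ, if_neg (lt_irrefl k),
    Finset.prod_congr rfl (fun i hi => by rw [if_pos (Finset.mem_range.mp hi)])]
  simp [surv]

lemma block_time (hB : 0 < B) (μ : Measure (Fin B → Fin n)) [IsProbabilityMeasure μ]
    (π : Equiv.Perm (Fin n)) :
    ∫⁻ x, ∫⁻ y, meetTime π x y ∂(blockStrat hB μ) ∂(blockStrat hB μ) =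
      (1 - surv μ π B)⁻¹ * ∑ j : Fin B, surv μ π j := by
  have := block_prob hB μ
  have : NeZero B := ⟨hB.ne'⟩
  simp_rw [meetTime_eq]
  have e1 : ∀ x, ∫⁻ y, ∑' s, nm π s x y ∂(blockStrat hB μ) =
      ∑' s, ∫⁻ y, nm π s x y ∂(blockStrat hB μ) := fun x =>
    lintegral_tsum fun s =>
      ((nm_meas π s).comp (measurable_const.prodMk measurable_id)).aemeasurable
  simp_rw [e1]
  rw [lintegral_tsum fun s => ((nm_meas π s).lintegral_prod_right').aemeasurable,
    ← (Nat.divModEquiv B).symm.tsum_eq, ENNReal.tsum_prod', ← ENNReal.tsum_geometric,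
    ← ENNReal.tsum_mul_right]
  refine tsum_congr fun k => ?_
  rw [tsum_fintype, Finset.mul_sum]
  refine Finset.sum_congr rfl fun j _ => ?_
  exact block_nm hB μ π k j j.2

/-! ### Finitely supported block laws -/

section Fin
variable {Ω : Type*} [Fintype Ω]

/-- The law of the block `β ω` with `ω` drawn from the weights `p`. -/
noncomputable def law (p : Ω → ℝ) (β : Ω → Fin B → Fin n) : Measure (Fin B → Fin n) :=
  ∑ ω, ENNReal.ofReal (p ω) • Measure.dirac (β ω)

/-- Real form of the survival probability. -/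
noncomputable def sv (p : Ω → ℝ) (β : Ω → Fin B → Fin n) (π : Equiv.Perm (Fin n)) (j : ℕ) : ℝ :=
  ∑ ω, ∑ ω', p ω * p ω' * ind (∀ i : Fin B, i.val < j → β ω i ≠ π (β ω' i))

lemma law_prob (p : Ω → ℝ) (β : Ω → Fin B → Fin n) (h0 : ∀ ω, 0 ≤ p ω) (h1 : ∑ ω, p ω = 1) :
    IsProbabilityMeasure (law p β) := by
  constructor
  rw [law, Measure.finsetSum_apply]
  simp only [Measure.smul_apply, measure_univ, smul_eq_mul, mul_one]
  rw [← ENNReal.ofReal_sum_of_nonneg fun ω _ => h0 ω, h1, ENNReal.ofReal_one]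

lemma sv_nonneg (p : Ω → ℝ) (β : Ω → Fin B → Fin n) (h0 : ∀ ω, 0 ≤ p ω)
    (π : Equiv.Perm (Fin n)) (j : ℕ) : 0 ≤ sv p β π j := by
  exact Finset.sum_nonneg fun ω _ => Finset.sum_nonneg fun ω' _ =>
    mul_nonneg (mul_nonneg (h0 ω) (h0 ω')) (ind_nonneg _)

lemma surv_law (p : Ω → ℝ) (β : Ω → Fin B → Fin n) (h0 : ∀ ω, 0 ≤ p ω)
    (π : Equiv.Perm (Fin n)) (j : ℕ) : surv (law p β) π j = ENNReal.ofReal (sv p β π j) := by
  classical
  have nn : ∀ ω ω', 0 ≤ p ω * p ω' * ind (∀ i : Fin B, i.val < j → β ω i ≠ π (β ω' i)) :=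
    fun ω ω' => mul_nonneg (mul_nonneg (h0 ω) (h0 ω')) (ind_nonneg _)
  unfold surv law sv
  rw [ENNReal.ofReal_sum_of_nonneg fun ω _ => Finset.sum_nonneg fun ω' _ => nn ω ω']
  simp only [lintegral_finsetSum_measure, lintegral_smul_measure, lintegral_dirac, smul_eq_mul]
  refine Finset.sum_congr rfl fun ω _ => ?_
  rw [ENNReal.ofReal_sum_of_nonneg fun ω' _ => nn ω ω', Finset.mul_sum]
  refine Finset.sum_congr rfl fun ω' _ => ?_
  rw [ENNReal.ofReal_mul (mul_nonneg (h0 ω) (h0 ω')), ENNReal.ofReal_mul (h0 ω), mul_assoc]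
  unfold nb
  split_ifs with h
  · rw [ind_pos h]; simp
  · rw [ind_neg h]; simp

lemma time_upper (hB : 0 < B) (p : Ω → ℝ) (β : Ω → Fin B → Fin n) (h0 : ∀ ω, 0 ≤ p ω)
    (h1 : ∑ ω, p ω = 1) (π : Equiv.Perm (Fin n)) (c : ℝ) (hq : sv p β π B < 1)
    (h : ∑ j : Fin B, sv p β π j ≤ c * (1 - sv p β π B)) :
    ∫⁻ x, ∫⁻ y, meetTime π x y ∂(blockStrat hB (law p β)) ∂(blockStrat hB (law p β)) ≤
      ENNReal.ofReal c := by
  have := law_prob p β h0 h1
  rw [block_time]
  simp_rw [surv_law p β h0]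
  have hpos : 0 < 1 - sv p β π B := by linarith
  rw [← ENNReal.ofReal_one, ← ENNReal.ofReal_sub _ (sv_nonneg p β h0 π B),
    ← ENNReal.ofReal_sum_of_nonneg fun j _ => sv_nonneg p β h0 π _,
    ← ENNReal.ofReal_inv_of_pos hpos, ← ENNReal.ofReal_mul (inv_pos.mpr hpos).le]
  apply ENNReal.ofReal_le_ofReal
  rw [inv_mul_le_iff₀ hpos]
  linarith

lemma time_lower (hB : 0 < B) (p : Ω → ℝ) (β : Ω → Fin B → Fin n) (h0 : ∀ ω, 0 ≤ p ω)
    (h1 : ∑ ω, p ω = 1) (π : Equiv.Perm (Fin n)) (c : ℝ)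
    (hS : 0 < ∑ j : Fin B, sv p β π j)
    (h : c * (1 - sv p β π B) ≤ ∑ j : Fin B, sv p β π j) :
    ENNReal.ofReal c ≤
      ∫⁻ x, ∫⁻ y, meetTime π x y ∂(blockStrat hB (law p β)) ∂(blockStrat hB (law p β)) := by
  have := law_prob p β h0 h1
  rw [block_time]
  simp_rw [surv_law p β h0]
  rw [← ENNReal.ofReal_one, ← ENNReal.ofReal_sub _ (sv_nonneg p β h0 π B),
    ← ENNReal.ofReal_sum_of_nonneg fun j _ => sv_nonneg p β h0 π _]
  rcases le_or_gt (1 - sv p β π B) 0 with hq | hpos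
  · rw [ENNReal.ofReal_eq_zero.mpr hq, ENNReal.inv_zero,
      ENNReal.top_mul (ENNReal.ofReal_pos.mpr hS).ne']
    exact le_top
  · rw [← ENNReal.ofReal_inv_of_pos hpos, ← ENNReal.ofReal_mul (inv_pos.mpr hpos).le]
    apply ENNReal.ofReal_le_ofReal
    rw [le_inv_mul_iff₀ hpos]
    linarith

end Fin

end Pool.Agent.H90.Rdv
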