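import Mathlib

/-!
Symmetric rendezvous on `n` locations. Steps are numbered from `0` in a walk schedule, so the
meeting time is one more than the first index at which the players meet.
-/

namespace Pool.Agent.H90.Rdv

open MeasureTheory
open scoped ENNReal

/-- The meeting time `τ = min {t ≥ 1 : x_t = π (y_t)}`, infinite if the players never meet. -/
noncomputable def meetTime {n : ℕ} (π : Equiv.Perm (Fin n)) (x y : ℕ → Fin n) : ℝ≥0∞ :=
  ⨅ (t : ℕ) (_ : x t = π (y t)), ((t : ℝ≥0∞) + 1)

/-- The expected meeting time when both players sample their schedules independently from `D`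
and `π` is uniform. -/
noncomputable def expTime {n : ℕ} (D : Measure (ℕ → Fin n)) : ℝ≥0∞ :=
  (∑ π : Equiv.Perm (Fin n), ∫⁻ x, ∫⁻ y, meetTime π x y ∂D ∂D) / (n.factorial : ℝ≥0∞)

/-- The strategy that plays independent blocks of length `B`, each with law `μ`. -/
noncomputable def blockStrat {n B : ℕ} (hB : 0 < B) (μ : Measure (Fin B → Fin n)) :
    Measure (ℕ → Fin n) :=
  (Measure.infinitePi fun _ : ℕ => μ).map fun ω t => ω (t / B) ⟨t % B, Nat.mod_lt t hB⟩

/-- One Anderson-Weber block: stay at the first location with probability `θ`, otherwise visit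
all locations in a uniformly random order. -/
noncomputable def awBlock {n : ℕ} (hn : 0 < n) (θ : ℝ) : Measure (Fin n → Fin n) :=
  ENNReal.ofReal θ • Measure.dirac (fun _ => ⟨0, hn⟩) +
    ∑ σ : Equiv.Perm (Fin n), ENNReal.ofReal ((1 - θ) / n.factorial) • Measure.dirac ⇑σ

/-- The Anderson-Weber strategy with parameter `θ`. -/
noncomputable def AW {n : ℕ} (hn : 0 < n) (θ : ℝ) : Measure (ℕ → Fin n) :=
  blockStrat hn (awBlock hn θ)

end Pool.Agent.H90.Rdv
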