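import Pool.Agent.H90.RdvAW

namespace Pool.Agent.H90.Rdv

open Equiv Finset

/-- The nine types: `none` is a unit at home, `some b` a unit touring the half `b`. -/
def wd : Fin 9 → Fin 6 → Option Bool :=
  ![![none, none, none, none, none, none],
    ![some false, some true, none, none, none, none],
    ![none, none, some false, some true, none, none],
    ![some false, some true, some false, some true, none, none],
    ![some false, none, none, some true, none, some true],
    ![none, none, none, none, some false, some true],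
    ![some false, some true, none, none, some false, some true],
    ![none, none, some false, some true, some true, some false],
    ![some false, some true, some false, some true, some true, some false]]

/-- The half `b` was toured before unit `u` while the other player was at home. -/
def full (τ τ' : Fin 9) (u : ℕ) (b : Bool) : Prop :=
  ∃ v : Fin 6, v.val < u ∧ wd τ v = some b ∧ wd τ' v = none

/-- The half `b` is toured in unit `u` while the other player is at home. -/
def part (τ τ' : Fin 9) (u : ℕ) (b : Bool) : Prop :=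
  ∃ v : Fin 6, v.val = u ∧ wd τ v = some b ∧ wd τ' v = none

instance (τ τ' : Fin 9) (u : ℕ) (b : Bool) : Decidable (full τ τ' u b) := by
  unfold full; infer_instance

instance (τ τ' : Fin 9) (u : ℕ) (b : Bool) : Decidable (part τ τ' u b) := by
  unfold part; infer_instance

/-- Number of finished halves. -/
def kx (τ τ' : Fin 9) (u : ℕ) : ℕ := ∑ b, if full τ τ' u b then 1 else 0

/-- Number of halves in progress. -/
def nx (τ τ' : Fin 9) (u : ℕ) : ℕ := ∑ b, if ¬ full τ τ' u b ∧ part τ τ' u b then 1 else 0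

/-- Number of finished units in which both players tour. -/
def kz (τ τ' : Fin 9) (u : ℕ) : ℕ :=
  ∑ v : Fin 6, if v.val < u ∧ wd τ v ≠ none ∧ wd τ' v ≠ none then 1 else 0

/-- Whether both players tour in unit `u`. -/
def nz (τ τ' : Fin 9) (u : ℕ) : ℕ :=
  ∑ v : Fin 6, if v.val = u ∧ wd τ v ≠ none ∧ wd τ' v ≠ none then 1 else 0

variable {h : ℕ} [NeZero h]

/-- Labels: home and two halves. -/
abbrev Lab (h : ℕ) := Option (Bool × Fin h)

omit [NeZero h] in
lemma card_lab : Fintype.card (Lab h) = 2 * h + 1 := by simp [Lab]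

/-- The label visited in unit `v` at offset `i`. -/
def loc (τ : Fin 9) (c : Fin 6 → Fin h) (v : Fin 6) (i : Fin h) : Lab h :=
  (wd τ v).map fun b => (b, i + c v)

/-- Labels toured while the other player is at home. -/
def XS (τ τ' : Fin 9) (c : Fin 6 → Fin h) (u j : ℕ) : Finset (Bool × Fin h) :=
  univ.filter fun z => full τ τ' u z.1 ∨
    ∃ v : Fin 6, v.val = u ∧ wd τ v = some z.1 ∧ wd τ' v = none ∧ (z.2 - c v).val < j

lemma XS_spec (τ τ' : Fin 9) (c c' : Fin 6 → Fin h) (u j : ℕ) (z : Bool × Fin h)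
    (hz : z ∈ XS τ τ' c u j) : ∃ (v : Fin 6) (i : Fin h), (v.val < u ∨ (v.val = u ∧ i.val < j)) ∧
      loc τ c v i = some z ∧ loc τ' c' v i = none := by
  rcases (mem_filter.mp hz).2 with ⟨v, h1, h2, h3⟩ | ⟨v, h1, h2, h3, h4⟩
  · exact ⟨v, z.2 - c v, Or.inl h1, by simp [loc, h2], by simp [loc, h3]⟩
  · exact ⟨v, z.2 - c v, Or.inr ⟨h1, h4⟩, by simp [loc, h2], by simp [loc, h3]⟩

lemma XS_card (τ τ' : Fin 9) (c : Fin 6 → Fin h) (u j : ℕ) (hj : j ≤ h) :
    h * kx τ τ' u + j * nx τ τ' u ≤ #(XS τ τ' c u j) := by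
  rw [XS, Finset.card_filter, Fintype.sum_prod_type, kx, nx, Finset.mul_sum, Finset.mul_sum,
    ← Finset.sum_add_distrib]
  refine Finset.sum_le_sum fun b _ => ?_
  by_cases h1 : full τ τ' u b
  · simp [h1]
  by_cases h2 : part τ τ' u b
  · obtain ⟨v, a1, a2, a3⟩ := h2
    have h2 : part τ τ' u b := ⟨v, a1, a2, a3⟩
    simp only [h1, h2, if_false, not_false_eq_true, and_self, if_true, mul_zero, mul_one, zero_add,
      false_or]
    rw [← Finset.card_filter]
    have e : #(univ.filter fun i : Fin h => i.val < j) = j := by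
      rw [Fin.card_filter_val_lt, min_eq_right hj]
    conv_lhs => rw [← e]
    refine Finset.card_le_card_of_injOn (fun i => i + c v) ?_ ?_
    · intro i hi
      simp only [coe_filter, mem_univ, true_and, Set.mem_ofPred_eq] at hi ⊢
      exact ⟨v, a1, a2, a3, by simpa using hi⟩
    · intro i _ i' _ e
      simpa using e
  · simp [h1, h2]

/-- Times before `(u, j)` at which both players tour. -/
def TS (h : ℕ) (τ τ' : Fin 9) (u j : ℕ) : Finset (Fin 6 × Fin h) :=
  univ.filter fun z => (z.1.val < u ∨ (z.1.val = u ∧ z.2.val < j)) ∧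
    wd τ z.1 ≠ none ∧ wd τ' z.1 ≠ none

omit [NeZero h] in
lemma TS_card (τ τ' : Fin 9) (u j : ℕ) (hj : j ≤ h) :
    h * kz τ τ' u + j * nz τ τ' u ≤ #(TS h τ τ' u j) := by
  rw [TS, Finset.card_filter, Fintype.sum_prod_type, kz, nz, Finset.mul_sum, Finset.mul_sum,
    ← Finset.sum_add_distrib]
  refine Finset.sum_le_sum fun v _ => ?_
  by_cases h0 : wd τ v ≠ none ∧ wd τ' v ≠ none
  · by_cases h1 : v.val < u
    · simp [h0, h1, h1.ne]
    by_cases h2 : v.val = u
    · simp only [h0, h2, lt_self_iff_false, ne_eq, not_false_eq_true, and_self, and_true,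
        true_and, false_or, if_false, if_true, mul_zero, mul_one, zero_add]
      rw [← Finset.card_filter, Fin.card_filter_val_lt, min_eq_right hj]
    · simp [h1, h2]
  · simp [h0]

/-- The bound for the pair of types `τ, τ'` at time `(u, j)`. -/
noncomputable def Bd (h : ℕ) (τ τ' : Fin 9) (u j : ℕ) : ℝ :=
  (1 - ((h * kx τ τ' u + j * nx τ τ' u : ℕ) : ℝ) / (2 * h)) *
    (1 - ((h * kx τ' τ u + j * nx τ' τ u : ℕ) : ℝ) / (2 * h)) *
      (1 - 1 / (2 * h + 1 : ℝ)) ^ (h * kz τ τ' u + j * nz τ τ' u)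

lemma pair_bound (τ τ' : Fin 9) (c c' : Fin 6 → Fin h) (u j : ℕ) (hj : j ≤ h)
    (good : ∀ v v', c v - c' v = c v' - c' v' → v = v') :
    pr (fun ρ : Perm (Lab h) => ∀ (v : Fin 6) (i : Fin h),
      (v.val < u ∨ (v.val = u ∧ i.val < j)) → loc τ c v i ≠ ρ (loc τ' c' v i)) ≤
      Bd h τ τ' u j + 25 / (2 * h + 1) := by
  have hh : 0 < h := Nat.pos_of_neZero h
  have hh' : (0 : ℝ) < h := by exact_mod_cast hh
  set X : Finset (Lab h) := (XS τ τ' c u j).map Function.Embedding.some with hX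
  set Y : Finset (Lab h) := (XS τ' τ c' u j).map Function.Embedding.some with hY
  set Z : Finset (Lab h × Lab h) :=
    (TS h τ τ' u j).image fun z => (loc τ c z.1 z.2, loc τ' c' z.1 z.2) with hZ
  have hn : 2 ≤ Fintype.card (Lab h) := by rw [card_lab]; omega
  have zc : #Z = #(TS h τ τ' u j) := by
    refine Finset.card_image_of_injOn ?_
    rintro ⟨v, i⟩ h1 ⟨v', i'⟩ h2 e
    simp only [TS, coe_filter, mem_univ, true_and, Set.mem_ofPred_eq] at h1 h2
    obtain ⟨b1, e1⟩ := Option.ne_none_iff_exists'.mp h1.2.1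
    obtain ⟨b2, e2⟩ := Option.ne_none_iff_exists'.mp h1.2.2
    obtain ⟨b3, e3⟩ := Option.ne_none_iff_exists'.mp h2.2.1
    obtain ⟨b4, e4⟩ := Option.ne_none_iff_exists'.mp h2.2.2
    simp only [loc, e1, e2, e3, e4, Option.map_some, Prod.mk.injEq, Option.some.injEq] at e
    obtain ⟨⟨_, f1⟩, _, f2⟩ := e
    have : v = v' := good v v' (by
      have q1 : c v - c' v = (i + c v) - (i + c' v) := by abel
      have q2 : c v' - c' v' = (i' + c v') - (i' + c' v') := by abel
      rw [q1, q2, f1, f2])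
    subst this
    rw [add_left_inj] at f1
    rw [f1]
  have zle : #Z ≤ 6 * h := by
    rw [zc]
    refine (Finset.card_filter_le _ _).trans ?_
    simp
  have a1 := avoid_bound (none : Lab h) X Y hn Z (by
    intro z hz
    obtain ⟨⟨v, i⟩, h1, rfl⟩ := Finset.mem_image.mp hz
    have h2 := (mem_filter.mp h1).2.2
    simpa [loc] using h2) (by rw [card_lab]; omega)
  have a2 := home_bound (none : Lab h) X Y hn (by simp [hX]) (by simp [hY])
  have a0 : pr (fun ρ : Perm (Lab h) => ∀ (v : Fin 6) (i : Fin h),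
      (v.val < u ∨ (v.val = u ∧ i.val < j)) → loc τ c v i ≠ ρ (loc τ' c' v i)) ≤
      pr (fun ρ : Perm (Lab h) => (ρ none ∉ X ∧ ∀ y ∈ Y, ρ y ≠ none) ∧
        ∀ z ∈ Z, ρ z.2 ≠ z.1) := by
    refine pr_mono fun ρ hρ => ⟨⟨fun hx => ?_, fun y hy e => ?_⟩, fun z hz e => ?_⟩
    · obtain ⟨z, z1, z2⟩ := Finset.mem_map.mp hx
      obtain ⟨v, i, t1, t2, t3⟩ := XS_spec τ τ' c c' u j z z1
      exact hρ v i t1 (by rw [t2, t3]; exact z2)
    · obtain ⟨z, z1, z2⟩ := Finset.mem_map.mp hy
      obtain ⟨v, i, t1, t2, t3⟩ := XS_spec τ' τ c' c u j z z1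
      refine hρ v i t1 ?_
      rw [t2, t3, ← e, ← z2]; rfl
    · obtain ⟨⟨v, i⟩, h1, rfl⟩ := Finset.mem_image.mp hz
      exact hρ v i (mem_filter.mp h1).2.1 e.symm
  rw [card_lab] at a1 a2
  push_cast at a1 a2
  rw [add_sub_cancel_right] at a2
  have xc : ∀ (τ τ' : Fin 9) (c : Fin 6 → Fin h), 0 ≤ 1 - (#(XS τ τ' c u j) : ℝ) / (2 * h) ∧
      1 - (#(XS τ τ' c u j) : ℝ) / (2 * h) ≤
        1 - ((h * kx τ τ' u + j * nx τ τ' u : ℕ) : ℝ) / (2 * h) := by
    intro τ τ' c
    constructor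
    · rw [sub_nonneg, div_le_one (by positivity)]
      have : #(XS τ τ' c u j) ≤ 2 * h := (Finset.card_filter_le _ _).trans (by simp)
      exact_mod_cast this
    · have := XS_card τ τ' c u j hj
      gcongr
  rw [hX, hY, Finset.card_map, Finset.card_map, ← hX, ← hY] at a2
  obtain ⟨x0, x1⟩ := xc τ τ' c
  obtain ⟨y0, y1⟩ := xc τ' τ c'
  have l0 : 0 ≤ 1 - 1 / (2 * h + 1 : ℝ) := by
    rw [sub_nonneg, div_le_one (by positivity)]; linarith
  have l1 : 1 - 1 / (2 * h + 1 : ℝ) ≤ 1 := by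
    have : 0 ≤ 1 / (2 * h + 1 : ℝ) := by positivity
    linarith
  have p1 : (1 - 1 / (2 * h + 1 : ℝ)) ^ #Z ≤
      (1 - 1 / (2 * h + 1 : ℝ)) ^ (h * kz τ τ' u + j * nz τ τ' u) :=
    pow_le_pow_of_le_one l0 l1 (zc ▸ TS_card τ τ' u j hj)
  have p2 : (1 - 1 / (2 * h + 1 : ℝ)) ^ #Z ≤ 1 := pow_le_one₀ l0 l1
  have p0 : 0 ≤ (1 - 1 / (2 * h + 1 : ℝ)) ^ #Z := pow_nonneg l0 _
  have f1 := mul_le_mul x1 y1 y0 (x0.trans x1)
  have f2 := mul_le_mul f1 p1 p0 (mul_nonneg (x0.trans x1) (y0.trans y1))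
  have f3 := mul_le_mul_of_nonneg_right a2 p0
  have f4 : 1 / (2 * h + 1 : ℝ) * (1 - 1 / (2 * h + 1 : ℝ)) ^ #Z ≤ 1 / (2 * h + 1 : ℝ) :=
    mul_le_of_le_one_right (by positivity) p2
  have f5 : (#Z : ℝ) * (8 / (2 * h + 1 : ℝ) ^ 2) ≤ 24 / (2 * h + 1 : ℝ) := by
    have : (#Z : ℝ) ≤ 3 * (2 * h + 1) := by
      have : (#Z : ℝ) ≤ 6 * h := by exact_mod_cast zle
      linarith
    calc (#Z : ℝ) * (8 / (2 * h + 1 : ℝ) ^ 2) ≤ 3 * (2 * h + 1) * (8 / (2 * h + 1 : ℝ) ^ 2) := by
          gcongr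
      _ = 24 / (2 * h + 1 : ℝ) := by field_simp; norm_num
  have f6 : (25 : ℝ) / (2 * h + 1) = 1 / (2 * h + 1) + 24 / (2 * h + 1) := by ring
  unfold Bd
  rw [add_mul] at f3
  linarith

lemma bad_count (c' : Fin 6 → Fin h) :
    ∑ c : Fin 6 → Fin h, ind (¬ ∀ v v', c v - c' v = c v' - c' v' → v = v') ≤
      36 / h * (h : ℝ) ^ 6 := by
  have hh' : (0 : ℝ) < h := by exact_mod_cast Nat.pos_of_neZero h
  have one : ∀ w : Fin 6 × Fin 6, ∑ c : Fin 6 → Fin h,
      ind (w.1 ≠ w.2 ∧ c w.1 - c' w.1 = c w.2 - c' w.2) ≤ 1 / h * (h : ℝ) ^ 6 := by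
    rintro ⟨v, v'⟩
    by_cases hv : v = v'
    · rw [Finset.sum_eq_zero fun c _ => ind_neg (by simp [hv])]; positivity
    have e : ∑ c : Fin 6 → Fin h, ind (v ≠ v' ∧ c v - c' v = c v' - c' v') =
        #(univ.filter fun c : Fin 6 → Fin h => c v - c' v = c v' - c' v') := by
      rw [Finset.card_filter]
      push_cast
      refine Finset.sum_congr rfl fun c _ => ?_
      split_ifs with q
      · exact ind_pos ⟨hv, q⟩
      · exact ind_neg fun r => q r.2
    simp only
    rw [e, one_div_mul_eq_div, le_div_iff₀ hh']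
    have k : #((univ.filter fun c : Fin 6 → Fin h => c v - c' v = c v' - c' v') ×ˢ
        (univ : Finset (Fin h))) ≤ #(univ : Finset (Fin 6 → Fin h)) := by
      refine Finset.card_le_card_of_injOn (fun z => Function.update z.1 v z.2)
        (fun _ _ => mem_univ _) ?_
      rintro ⟨c, s⟩ h1 ⟨d, t⟩ h2 e
      simp only [coe_product, coe_filter, mem_univ, true_and, Set.mem_prod, Set.mem_ofPred_eq,
        mem_coe, and_true] at h1 h2 e
      have r1 : s = t := by simpa using congrFun e v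
      have r2 : ∀ w, w ≠ v → c w = d w := fun w hw => by simpa [hw] using congrFun e w
      have r3 : c v = d v := by
        rw [r2 v' (Ne.symm hv), ← h2, sub_left_inj] at h1
        exact h1
      have r4 : c = d := by
        funext w
        by_cases hw : w = v
        · rw [hw, r3]
        · exact r2 w hw
      rw [r1, r4]
    rw [Finset.card_product] at k
    simp only [Finset.card_univ, Fintype.card_fin, Fintype.card_fun] at k
    exact_mod_cast k
  calc ∑ c : Fin 6 → Fin h, ind (¬ ∀ v v', c v - c' v = c v' - c' v' → v = v')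
      ≤ ∑ c : Fin 6 → Fin h, ∑ w : Fin 6 × Fin 6,
        ind (w.1 ≠ w.2 ∧ c w.1 - c' w.1 = c w.2 - c' w.2) := by
        refine Finset.sum_le_sum fun c _ => ?_
        by_cases q : ∀ v v', c v - c' v = c v' - c' v' → v = v'
        · rw [ind_neg (not_not.mpr q)]
          exact Finset.sum_nonneg fun _ _ => ind_nonneg _
        · rw [ind_pos q]
          push Not at q
          obtain ⟨v, v', q1, q2⟩ := q
          refine le_trans ?_ (Finset.single_le_sum (fun w _ => ind_nonneg _) (mem_univ (v, v')))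
          rw [ind_pos ⟨q2, q1⟩]
    _ = ∑ w : Fin 6 × Fin 6, ∑ c : Fin 6 → Fin h,
        ind (w.1 ≠ w.2 ∧ c w.1 - c' w.1 = c w.2 - c' w.2) := Finset.sum_comm
    _ ≤ _ := by
        refine (Finset.sum_le_card_nsmul _ _ _ fun w _ => one w).trans (le_of_eq ?_)
        simp; ring

end Pool.Agent.H90.Rdv
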