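import Pool.Agent.H90.RdvNew1

namespace Pool.Agent.H90.Rdv

open MeasureTheory Equiv Finset
open scoped ENNReal

/-- Weights of the nine types, in thousandths. -/
def W : Fin 9 → ℕ := ![15, 39, 44, 140, 14, 45, 139, 139, 425]

/-- Limit contribution of one unit. -/
def TQ (τ τ' : Fin 9) (u : ℕ) : ℚ :=
  if nz τ τ' u = 1 then
    (1 - (kx τ τ' u : ℚ) / 2) * (1 - (kx τ' τ u : ℚ) / 2) * (606531 / 1000000) ^ kz τ τ' u *
      (1 - 60653 / 100000)
  else (1 - (kx τ τ' u : ℚ) / 2 - (nx τ τ' u : ℚ) / 4) *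
    (1 - (kx τ' τ u : ℚ) / 2 - (nx τ' τ u : ℚ) / 4) * (606531 / 1000000) ^ kz τ τ' u / 2

/-- Limit survival probability of a whole block. -/
def QQ (τ τ' : Fin 9) : ℚ :=
  (1 - (kx τ τ' 6 : ℚ) / 2) * (1 - (kx τ' τ 6 : ℚ) / 2) * (606531 / 1000000) ^ kz τ τ' 6

lemma num1 : ∑ τ, ∑ τ', (W τ : ℚ) * W τ' * ∑ u : Fin 6, TQ τ τ' u ≤ 812740 := by decide +kernel

lemma num2 : ∑ τ, ∑ τ', (W τ : ℚ) * W τ' * QQ τ τ' ≤ 19327 := by decide +kernel

lemma W_sum : ∑ τ, W τ = 1000 := by decide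

lemma shape : ∀ (τ τ' : Fin 9) (u : Fin 6), kx τ τ' u + nx τ τ' u ≤ 2 ∧
    (nz τ τ' u = 1 ∧ nx τ τ' u = 0 ∧ nx τ' τ u = 0 ∨
      nz τ τ' u = 0 ∧ (nx τ τ' u = 0 ∨ nx τ' τ u = 0)) := by decide +kernel

lemma shape6 : ∀ τ τ' : Fin 9, kx τ τ' 6 ≤ 2 := by decide +kernel

lemma lam_bounds {h : ℕ} (hh : 100000000 ≤ h) :
    0.60653 ≤ (1 - 1 / (2 * h + 1 : ℝ)) ^ h ∧ (1 - 1 / (2 * h + 1 : ℝ)) ^ h ≤ 0.606531 := by
  have hh' : (100000000 : ℝ) ≤ h := by exact_mod_cast hh
  have l0 : 0 ≤ 1 - 1 / (2 * h + 1 : ℝ) := by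
    rw [sub_nonneg, div_le_one (by positivity)]; linarith
  have p0 := pow_nonneg l0 h
  constructor
  · have e1 : Real.exp (-(1 / (2 * h))) ≤ 1 - 1 / (2 * h + 1 : ℝ) := by
      have e : 1 - 1 / (2 * h + 1 : ℝ) = (1 / (2 * h : ℝ) + 1)⁻¹ := by field_simp; ring
      rw [e, Real.exp_neg]
      exact inv_anti₀ (by positivity) (Real.add_one_le_exp _)
    have e2 : Real.exp (-(1 / (2 * h))) ^ (h * 2) ≤ (1 - 1 / (2 * h + 1 : ℝ)) ^ (h * 2) :=
      pow_le_pow_left₀ (Real.exp_pos _).le e1 _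
    rw [← Real.exp_nat_mul, show ((h * 2 : ℕ) : ℝ) * -(1 / (2 * h)) = -1 by
      push_cast; field_simp, pow_mul] at e2
    have e3 := Real.exp_neg_one_gt_d9
    by_contra hc
    push Not at hc
    nlinarith
  · have e1 := pow_le_inv_e (n := h * 2 + 1) (by omega)
    push_cast at e1
    rw [pow_succ, pow_mul, mul_comm (h : ℝ) 2] at e1
    have e2 : 0.99999999 ≤ 1 - 1 / (2 * h + 1 : ℝ) := by
      have : 1 / (2 * h + 1 : ℝ) ≤ 0.00000001 := by
        rw [div_le_iff₀ (by positivity)]; linarith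
      linarith
    have e3 := mul_le_mul_of_nonneg_left e2 (sq_nonneg ((1 - 1 / (2 * h + 1 : ℝ)) ^ h))
    by_contra hc
    push Not at hc
    nlinarith

lemma sum_id (h : ℕ) : ∑ j : Fin h, ((j : ℕ) : ℝ) = h * (h - 1) / 2 := by
  rw [Fin.sum_univ_eq_sum_range (fun j => (j : ℝ)) h]
  induction h with
  | zero => simp
  | succ h ih => rw [Finset.sum_range_succ, ih]; push_cast; ring

lemma unit_sum {h : ℕ} (hh : 100000000 ≤ h) (τ τ' : Fin 9) (u : Fin 6) :
    ∑ j : Fin h, Bd h τ τ' u j ≤ (2 * h + 1) * (TQ τ τ' u : ℝ) + 1 := by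
  have hh' : (100000000 : ℝ) ≤ h := by exact_mod_cast hh
  have h0 : (0 : ℝ) < h := by linarith
  obtain ⟨m1, m2⟩ := lam_bounds hh
  obtain ⟨s1, s2⟩ := shape τ τ' u
  obtain ⟨s3, _⟩ := shape τ' τ u
  unfold Bd TQ
  generalize kx τ τ' u = a at *
  generalize kx τ' τ u = b at *
  generalize nx τ τ' u = a' at *
  generalize nx τ' τ u = b' at *
  generalize kz τ τ' u = k at *
  generalize nz τ τ' u = k' at *
  have s1' : (a : ℝ) + a' ≤ 2 := by exact_mod_cast s1
  have s3' : (b : ℝ) + b' ≤ 2 := by exact_mod_cast s3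
  have a0 : (0 : ℝ) ≤ a := by positivity
  have b0 : (0 : ℝ) ≤ b := by positivity
  have a0' : (0 : ℝ) ≤ a' := by positivity
  have b0' : (0 : ℝ) ≤ b' := by positivity
  set l := 1 - 1 / (2 * h + 1 : ℝ) with hl
  have lp : 0 ≤ l ^ h := by linarith
  have pk : (l ^ h) ^ k ≤ (606531 / 1000000 : ℝ) ^ k := pow_le_pow_left₀ lp (by linarith) k
  have pk0 : 0 ≤ (l ^ h) ^ k := pow_nonneg lp k
  have pk1 : (l ^ h) ^ k ≤ 1 := pow_le_one₀ lp (by linarith)
  rcases s2 with ⟨rfl, rfl, rfl⟩ | ⟨rfl, s4⟩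
  · have e : ∀ j : Fin h, (1 - ((h * a + j * 0 : ℕ) : ℝ) / (2 * h)) *
        (1 - ((h * b + j * 0 : ℕ) : ℝ) / (2 * h)) * l ^ (h * k + j * 1) =
        (1 - a / 2) * (1 - b / 2) * (l ^ h) ^ k * l ^ (j : ℕ) := by
      intro j
      rw [mul_one, pow_add, pow_mul]
      push_cast
      field_simp
      ring
    have g : ∑ j : Fin h, l ^ (j : ℕ) = (2 * h + 1) * (1 - l ^ h) := by
      rw [Fin.sum_univ_eq_sum_range (fun j => l ^ j) h, geom_sum_eq (by
        have : 0 < 1 / (2 * h + 1 : ℝ) := by positivity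
        linarith)]
      generalize l ^ h = x
      rw [hl]
      field_simp
      ring
    simp only [e]
    rw [← Finset.mul_sum, g, if_pos trivial]
    push_cast
    have f0 : 0 ≤ (1 - (a : ℝ) / 2) * (1 - b / 2) :=
      mul_nonneg (by push_cast at s1'; linarith) (by push_cast at s3'; linarith)
    have f1 : (l ^ h) ^ k * (1 - l ^ h) ≤ (606531 / 1000000 : ℝ) ^ k * (1 - 60653 / 100000) :=
      mul_le_mul pk (by linarith) (by linarith) (by positivity)
    have f2 := mul_le_mul_of_nonneg_left f1 (mul_nonneg f0 (show (0 : ℝ) ≤ 2 * h + 1 by linarith))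
    nlinarith
  · have hab : (a' : ℝ) * b' = 0 := by
      rcases s4 with r | r <;> simp [r]
    have e : ∀ j : Fin h, (1 - ((h * a + j * a' : ℕ) : ℝ) / (2 * h)) *
        (1 - ((h * b + j * b' : ℕ) : ℝ) / (2 * h)) * l ^ (h * k + j * 0) =
        (1 - a / 2) * (1 - b / 2) * (l ^ h) ^ k -
          (a' * (1 - b / 2) + b' * (1 - a / 2)) * (l ^ h) ^ k / (2 * h) * ((j : ℕ) : ℝ) := by
      intro j
      rw [mul_zero, add_zero, pow_mul]
      push_cast
      field_simp
      linear_combination (((j : ℕ) : ℝ) ^ 2) * hab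
    simp only [e]
    rw [Finset.sum_sub_distrib, ← Finset.mul_sum (s := univ) (f := fun j : Fin h => ((j : ℕ) : ℝ)),
      sum_id, if_neg (by norm_num)]
    simp only [Finset.sum_const, Finset.card_univ, Fintype.card_fin, nsmul_eq_mul]
    push_cast
    set D := (a' : ℝ) * (1 - b / 2) + b' * (1 - a / 2) with hD
    set F := (1 - (a : ℝ) / 2 - a' / 4) * (1 - b / 2 - b' / 4) with hF
    have f0 : 0 ≤ F := mul_nonneg (by linarith) (by linarith)
    have fD : D ≤ 4 := by nlinarith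
    have D0 : 0 ≤ D := add_nonneg (mul_nonneg a0' (by linarith)) (mul_nonneg b0' (by linarith))
    have e2 : h * ((1 - (a : ℝ) / 2) * (1 - b / 2) * (l ^ h) ^ k) -
        D * (l ^ h) ^ k / (2 * h) * (h * (h - 1) / 2) =
        h * (F * (l ^ h) ^ k) + D / 4 * (l ^ h) ^ k := by
      rw [hF, hD]
      field_simp
      linear_combination (-(8 : ℝ) * h) * hab
    rw [e2]
    have f1 := mul_le_mul_of_nonneg_left pk f0
    have f2 : D / 4 * (l ^ h) ^ k ≤ 1 := by nlinarith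
    have f3 : 0 ≤ F * (606531 / 1000000 : ℝ) ^ k := by positivity
    nlinarith [mul_le_mul_of_nonneg_left f1 h0.le]

lemma end_bound {h : ℕ} (hh : 100000000 ≤ h) (τ τ' : Fin 9) :
    Bd h τ τ' 6 0 ≤ (QQ τ τ' : ℝ) := by
  have hh' : (100000000 : ℝ) ≤ h := by exact_mod_cast hh
  have h0 : (0 : ℝ) < h := by linarith
  obtain ⟨m1, m2⟩ := lam_bounds hh
  have s1 : (kx τ τ' 6 : ℝ) ≤ 2 := by exact_mod_cast shape6 τ τ'
  have s2 : (kx τ' τ 6 : ℝ) ≤ 2 := by exact_mod_cast shape6 τ' τ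
  unfold Bd QQ
  simp only [zero_mul, add_zero, pow_mul]
  push_cast
  have e : ∀ x : ℝ, h * x / (2 * h) = x / 2 := fun x => by field_simp
  rw [e, e]
  exact mul_le_mul_of_nonneg_left (pow_le_pow_left₀ (by linarith) (by linarith) _)
    (mul_nonneg (by linarith) (by linarith))

variable {h : ℕ} [NeZero h]

/-- Randomness of one block: a relabelling, a type and six shifts. -/
abbrev Om (h : ℕ) := (Lab h ≃ Fin (2 * h + 1)) × Fin 9 × (Fin 6 → Fin h)

/-- Weights. -/
noncomputable def nP (h : ℕ) (ω : Om h) : ℝ :=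
  (W ω.2.1 : ℝ) / 1000 / ((2 * h + 1).factorial * (h : ℝ) ^ 6)

/-- Schedules. -/
def nB (ω : Om h) (t : Fin (6 * h)) : Fin (2 * h + 1) :=
  ω.1 (loc ω.2.1 ω.2.2 (finProdFinEquiv.symm t).1 (finProdFinEquiv.symm t).2)

omit [NeZero h] in
lemma card_rel : Fintype.card (Lab h ≃ Fin (2 * h + 1)) = (2 * h + 1).factorial := by
  rw [Fintype.card_equiv (Fintype.equivFinOfCardEq card_lab), card_lab]

lemma nP_sum : ∑ ω, nP h ω = 1 := by
  have hh' : (0 : ℝ) < h := by exact_mod_cast Nat.pos_of_neZero h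
  have hf : (0 : ℝ) < (2 * h + 1).factorial := by exact_mod_cast Nat.factorial_pos _
  have hW : ∑ τ, (W τ : ℝ) = 1000 := by exact_mod_cast W_sum
  simp only [nP, Fintype.sum_prod_type, Finset.sum_const, Finset.card_univ, card_rel,
    nsmul_eq_mul, Fintype.card_fun, Fintype.card_fin, ← Finset.mul_sum, ← Finset.sum_div, hW]
  push_cast
  field_simp

lemma new_sv (π : Perm (Fin (2 * h + 1))) (u j : ℕ) (hj : j ≤ h) :
    sv (nP h) nB π (j + h * u) ≤
      ∑ τ, ∑ τ', (W τ : ℝ) * W τ' / 1000000 * Bd h τ τ' u j + (25 / (2 * h + 1) + 36 / h) := by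
  have hh' : (0 : ℝ) < h := by exact_mod_cast Nat.pos_of_neZero h
  have hf : (0 : ℝ) < (2 * h + 1).factorial := by exact_mod_cast Nat.factorial_pos _
  have hW : ∑ τ, (W τ : ℝ) = 1000 := by exact_mod_cast W_sum
  set E : ℝ := 25 / (2 * h + 1) with hE
  have inner : ∀ (σ : Lab h ≃ Fin (2 * h + 1)) (τ τ' : Fin 9) (c c' : Fin 6 → Fin h),
      ∑ σ' : Lab h ≃ Fin (2 * h + 1), ind (∀ i : Fin (6 * h), i.val < j + h * u →
        nB (σ, τ, c) i ≠ π (nB (σ', τ', c') i)) ≤ (2 * h + 1).factorial *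
          (Bd h τ τ' u j + E + ind (¬ ∀ v v', c v - c' v = c v' - c' v' → v = v')) := by
    intro σ τ τ' c c'
    have r := sum_relabel (α := Lab h) (π.trans σ.symm) (fun ρ => ∀ i : Fin (6 * h),
      i.val < j + h * u → loc τ c (finProdFinEquiv.symm i).1 (finProdFinEquiv.symm i).2 ≠
        ρ (loc τ' c' (finProdFinEquiv.symm i).1 (finProdFinEquiv.symm i).2))
    rw [card_lab] at r
    have e : ∀ σ' : Lab h ≃ Fin (2 * h + 1), ind (∀ i : Fin (6 * h), i.val < j + h * u →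
        nB (σ, τ, c) i ≠ π (nB (σ', τ', c') i)) = ind (∀ i : Fin (6 * h),
        i.val < j + h * u → loc τ c (finProdFinEquiv.symm i).1 (finProdFinEquiv.symm i).2 ≠
        (σ'.trans (π.trans σ.symm))
          (loc τ' c' (finProdFinEquiv.symm i).1 (finProdFinEquiv.symm i).2)) := by
      intro σ'
      refine ind_congr ?_
      simp only [nB, Equiv.trans_apply, ne_eq, Equiv.eq_symm_apply]
    simp only [e]
    rw [r]
    refine mul_le_mul_of_nonneg_left ?_ hf.le
    have pb := pair_bound τ τ' c c' u j hj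
    by_cases good : ∀ v v', c v - c' v = c v' - c' v' → v = v'
    · rw [ind_neg (not_not.mpr good), add_zero]
      refine le_trans (pr_mono fun ρ hρ v i hvi => ?_) (pb good)
      have := hρ (finProdFinEquiv (v, i)) (by
        rw [finProdFinEquiv_apply_val]
        simp only
        rcases hvi with q | ⟨q1, q2⟩
        · have : h * (v.val + 1) ≤ h * u := Nat.mul_le_mul_left _ q
          have := i.2
          nlinarith
        · rw [q1]; omega)
      simpa using this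
    · rw [ind_pos good]
      have b0 : 0 ≤ Bd h τ τ' u j := by
        have xc : ∀ τ τ' : Fin 9,
            0 ≤ 1 - ((h * kx τ τ' u + j * nx τ τ' u : ℕ) : ℝ) / (2 * h) := by
          intro τ τ'
          rw [sub_nonneg, div_le_one (by positivity)]
          have q : #(XS τ τ' c u j) ≤ 2 * h := (Finset.card_filter_le _ _).trans (by simp)
          exact_mod_cast (XS_card τ τ' c u j hj).trans q
        refine mul_nonneg (mul_nonneg (xc τ τ') (xc τ' τ)) (pow_nonneg ?_ _)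
        rw [sub_nonneg, div_le_one (by positivity)]; linarith
      have : 0 ≤ E := by positivity
      linarith [pr_le_one (fun ρ : Perm (Lab h) => ∀ i : Fin (6 * h),
        i.val < j + h * u → loc τ c (finProdFinEquiv.symm i).1 (finProdFinEquiv.symm i).2 ≠
          ρ (loc τ' c' (finProdFinEquiv.symm i).1 (finProdFinEquiv.symm i).2))]
  set K : ℝ := (2 * h + 1).factorial * (h : ℝ) ^ 6 with hK
  have mid : ∀ (σ : Lab h ≃ Fin (2 * h + 1)) (τ τ' : Fin 9),
      ∑ c : Fin 6 → Fin h, ∑ c' : Fin 6 → Fin h, ∑ σ' : Lab h ≃ Fin (2 * h + 1),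
        ind (∀ i : Fin (6 * h), i.val < j + h * u → nB (σ, τ, c) i ≠ π (nB (σ', τ', c') i)) ≤
        K * (h : ℝ) ^ 6 * (Bd h τ τ' u j + E + 36 / h) := by
    intro σ τ τ'
    refine (Finset.sum_le_sum fun c _ => Finset.sum_le_sum fun c' _ => inner σ τ τ' c c').trans ?_
    rw [Finset.sum_comm]
    have t : ∀ c' ∈ (univ : Finset (Fin 6 → Fin h)), ∑ c : Fin 6 → Fin h,
        ((2 * h + 1).factorial : ℝ) * (Bd h τ τ' u j + E +
          ind (¬ ∀ v v', c v - c' v = c v' - c' v' → v = v')) ≤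
        K * (Bd h τ τ' u j + E + 36 / h) := by
      intro c' _
      rw [← Finset.mul_sum, Finset.sum_add_distrib, hK, mul_assoc]
      refine mul_le_mul_of_nonneg_left ?_ hf.le
      simp only [Finset.sum_const, Finset.card_univ, Fintype.card_fun, Fintype.card_fin,
        nsmul_eq_mul]
      push_cast
      nlinarith [bad_count c']
    refine (Finset.sum_le_card_nsmul _ _ _ t).trans (le_of_eq ?_)
    simp only [Finset.card_univ, Fintype.card_fun, Fintype.card_fin, nsmul_eq_mul]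
    push_cast
    ring
  have re : sv (nP h) nB π (j + h * u) = ∑ σ : Lab h ≃ Fin (2 * h + 1), ∑ τ, ∑ τ',
      (W τ : ℝ) / 1000 / K * ((W τ' : ℝ) / 1000 / K) *
      ∑ c : Fin 6 → Fin h, ∑ c' : Fin 6 → Fin h, ∑ σ' : Lab h ≃ Fin (2 * h + 1),
        ind (∀ i : Fin (6 * h), i.val < j + h * u → nB (σ, τ, c) i ≠ π (nB (σ', τ', c') i)) := by
    unfold sv
    simp only [Fintype.sum_prod_type, nP, ← hK, Finset.mul_sum]
    refine Finset.sum_congr rfl fun σ _ => Finset.sum_congr rfl fun τ _ => ?_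
    rw [Finset.sum_comm (s := (univ : Finset (Fin 9)))]
    refine Finset.sum_congr rfl fun c _ => ?_
    rw [Finset.sum_comm]
    refine Finset.sum_congr rfl fun τ' _ => ?_
    rw [Finset.sum_comm]
  rw [re]
  have hK0 : 0 < K := by positivity
  have t : ∀ σ ∈ (univ : Finset (Lab h ≃ Fin (2 * h + 1))), ∑ τ, ∑ τ',
      (W τ : ℝ) / 1000 / K * ((W τ' : ℝ) / 1000 / K) *
      ∑ c : Fin 6 → Fin h, ∑ c' : Fin 6 → Fin h, ∑ σ' : Lab h ≃ Fin (2 * h + 1),
        ind (∀ i : Fin (6 * h), i.val < j + h * u → nB (σ, τ, c) i ≠ π (nB (σ', τ', c') i)) ≤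
      ∑ τ, ∑ τ', (W τ : ℝ) / 1000 / K * ((W τ' : ℝ) / 1000 / K) *
        (K * (h : ℝ) ^ 6 * (Bd h τ τ' u j + E + 36 / h)) := fun σ _ =>
    Finset.sum_le_sum fun τ _ => Finset.sum_le_sum fun τ' _ =>
      mul_le_mul_of_nonneg_left (mid σ τ τ') (by positivity)
  refine (Finset.sum_le_card_nsmul _ _ _ t).trans (le_of_eq ?_)
  rw [Finset.card_univ, card_rel, nsmul_eq_mul, Finset.mul_sum]
  have e1 : E + 36 / h = ∑ τ, ∑ τ', (W τ : ℝ) * W τ' / 1000000 * (E + 36 / h) := by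
    simp only [← Finset.sum_mul, ← Finset.sum_div, ← Finset.mul_sum, hW]
    ring
  rw [e1, ← Finset.sum_add_distrib]
  refine Finset.sum_congr rfl fun τ _ => ?_
  rw [Finset.mul_sum, ← Finset.sum_add_distrib]
  refine Finset.sum_congr rfl fun τ' _ => ?_
  rw [hK]
  field_simp
  ring

theorem new_upper (hh : 100000000 ≤ h) :
    expTime (blockStrat (show 0 < 6 * h by omega) (law (nP h) nB)) ≤
      ENNReal.ofReal (0.8288 * (2 * h + 1)) := by
  have hh' : (100000000 : ℝ) ≤ h := by exact_mod_cast hh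
  have h0 : (0 : ℝ) < h := by linarith
  have hW : ∑ τ, (W τ : ℝ) = 1000 := by exact_mod_cast W_sum
  have p0 : ∀ ω, 0 ≤ nP h ω := fun ω => by unfold nP; positivity
  have n1 : ∑ τ, ∑ τ', (W τ : ℝ) * W τ' * ∑ u : Fin 6, (TQ τ τ' u : ℝ) ≤ 812740 := by
    exact_mod_cast num1
  have n2 : ∑ τ, ∑ τ', (W τ : ℝ) * W τ' * (QQ τ τ' : ℝ) ≤ 19327 := by exact_mod_cast num2
  have hE : 25 / (2 * h + 1 : ℝ) + 36 / h ≤ 49 / h := by
    have : 25 / (2 * h + 1 : ℝ) ≤ 13 / h := by
      rw [div_le_div_iff₀ (by positivity) h0]; linarith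
    have e : (49 : ℝ) / h = 13 / h + 36 / h := by ring
    linarith
  have key : ∀ π : Perm (Fin (2 * h + 1)), ∫⁻ x, ∫⁻ y, meetTime π x y
      ∂(blockStrat (show 0 < 6 * h by omega) (law (nP h) nB))
      ∂(blockStrat (show 0 < 6 * h by omega) (law (nP h) nB)) ≤
      ENNReal.ofReal (0.8288 * (2 * h + 1)) := by
    intro π
    have q1 := new_sv π 6 0 (Nat.zero_le _)
    rw [zero_add, mul_comm h 6] at q1
    have q2 : ∑ τ, ∑ τ', (W τ : ℝ) * W τ' / 1000000 * Bd h τ τ' 6 0 ≤ 0.019327 := by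
      refine le_trans (Finset.sum_le_sum fun τ _ => Finset.sum_le_sum fun τ' _ =>
        mul_le_mul_of_nonneg_left (end_bound hh τ τ') (by positivity)) ?_
      simp only [div_mul_eq_mul_div, ← Finset.sum_div]
      linarith
    have q3 : ∑ t : Fin (6 * h), sv (nP h) nB π t ≤ 0.81274 * (2 * h + 1) + 300 := by
      rw [← finProdFinEquiv.sum_comp, Fintype.sum_prod_type]
      simp only [finProdFinEquiv_apply_val]
      refine le_trans (Finset.sum_le_sum fun u _ => Finset.sum_le_sum fun j _ =>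
        (new_sv π u j j.2.le).trans (add_le_add le_rfl hE)) ?_
      simp only [Finset.sum_add_distrib, Finset.sum_const, Finset.card_univ, Fintype.card_fin,
        nsmul_eq_mul]
      have r1 : ∑ u : Fin 6, ∑ j : Fin h, ∑ τ, ∑ τ', (W τ : ℝ) * W τ' / 1000000 * Bd h τ τ' u j =
          ∑ τ, ∑ τ', (W τ : ℝ) * W τ' / 1000000 * ∑ u : Fin 6, ∑ j : Fin h, Bd h τ τ' u j := by
        simp only [Finset.mul_sum]
        calc _ = ∑ u : Fin 6, ∑ τ, ∑ τ', ∑ j : Fin h,
              (W τ : ℝ) * W τ' / 1000000 * Bd h τ τ' u j := by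
              refine Finset.sum_congr rfl fun u _ => ?_
              rw [Finset.sum_comm]
              exact Finset.sum_congr rfl fun τ _ => Finset.sum_comm
          _ = _ := by
              rw [Finset.sum_comm]
              exact Finset.sum_congr rfl fun τ _ => Finset.sum_comm
      have r2 : ∑ τ, ∑ τ', (W τ : ℝ) * W τ' / 1000000 * ∑ u : Fin 6, ∑ j : Fin h, Bd h τ τ' u j ≤
          ∑ τ, ∑ τ', (W τ : ℝ) * W τ' / 1000000 *
            ((2 * h + 1) * ∑ u : Fin 6, (TQ τ τ' u : ℝ) + 6) := by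
        refine Finset.sum_le_sum fun τ _ => Finset.sum_le_sum fun τ' _ =>
          mul_le_mul_of_nonneg_left ?_ (by positivity)
        refine (Finset.sum_le_sum fun u _ => unit_sum hh τ τ' u).trans (le_of_eq ?_)
        rw [Finset.sum_add_distrib, ← Finset.mul_sum]; simp
      have r3 : ∑ τ, ∑ τ', (W τ : ℝ) * W τ' / 1000000 *
            ((2 * h + 1) * ∑ u : Fin 6, (TQ τ τ' u : ℝ) + 6) =
          (2 * h + 1) / 1000000 * (∑ τ, ∑ τ', (W τ : ℝ) * W τ' * ∑ u : Fin 6, (TQ τ τ' u : ℝ)) +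
            6 / 1000000 * ∑ τ, ∑ τ', (W τ : ℝ) * W τ' := by
        rw [Finset.mul_sum, Finset.mul_sum, ← Finset.sum_add_distrib]
        refine Finset.sum_congr rfl fun τ _ => ?_
        rw [Finset.mul_sum, Finset.mul_sum, ← Finset.sum_add_distrib]
        refine Finset.sum_congr rfl fun τ' _ => ?_
        ring
      have r4 : ∑ τ, ∑ τ', (W τ : ℝ) * W τ' = 1000000 := by
        simp only [← Finset.mul_sum, ← Finset.sum_mul, hW]; norm_num
      have r5 := mul_le_mul_of_nonneg_left n1 (show (0 : ℝ) ≤ (2 * h + 1) / 1000000 by positivity)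
      have r6 : ((6 : ℕ) : ℝ) * (h * (49 / h)) = 294 := by push_cast; field_simp; norm_num
      rw [r1, r6]
      rw [r3, r4] at r2
      linarith
    have q4 : 49 / (h : ℝ) ≤ 0.0000005 := by rw [div_le_iff₀ h0]; linarith
    refine time_upper _ _ _ p0 nP_sum π _ (by linarith) (q3.trans ?_)
    have q5 : 0.9806725 ≤ 1 - sv (nP h) nB π (6 * h) := by linarith
    nlinarith [mul_le_mul_of_nonneg_left q5 (show (0 : ℝ) ≤ 2 * h + 1 by positivity)]
  unfold expTime
  rw [ENNReal.div_le_iff (by simp [Nat.factorial_ne_zero]) (by simp)]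
  refine (Finset.sum_le_card_nsmul _ _ _ fun π _ => key π).trans (le_of_eq ?_)
  simp [Fintype.card_perm, mul_comm]

end Pool.Agent.H90.Rdv
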