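import Mathlib

/-! The symmetrised products of distinct matrices. -/

namespace Pool.Agent.H90.Recht

/-- `S_m(A_1, …, A_n)`: the sum of `A_{j_1} ⋯ A_{j_m}` over all ordered `m`-tuples of pairwise
distinct indices. -/
noncomputable def S {n d : ℕ} (m : ℕ) (A : Fin n → Matrix (Fin d) (Fin d) ℝ) :
    Matrix (Fin d) (Fin d) ℝ :=
  ∑ j ∈ Finset.univ.filter (fun j : Fin m → Fin n => Function.Injective j),
    (List.ofFn fun i => A (j i)).prod

end Pool.Agent.H90.Recht
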