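import Pool.Agent.H90.AseDefs

set_option autoImplicit false

namespace Pool.Agent.H90.RseProof

open Set Metric Filter Topology Pool.Agent.H90.AseDefs

variable {𝕜 X Z : Type*} [RCLike 𝕜] [NormedAddCommGroup X] [NormedSpace 𝕜 X]
  [NormedAddCommGroup Z] [NormedSpace 𝕜 Z]

lemma unit_dir {y : Z} (hy : y ≠ 0) : ∃ w : Z, ‖w‖ = 1 ∧ y = ((‖y‖ : ℝ) : 𝕜) • w := by
  have h : ((‖y‖ : ℝ) : 𝕜) ≠ 0 := by simpa using hy
  refine ⟨((‖y‖ : ℝ) : 𝕜)⁻¹ • y, ?_, by rw [smul_inv_smul₀ h]⟩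
  rw [norm_smul, norm_inv, RCLike.norm_ofReal, abs_norm, inv_mul_cancel₀ (norm_ne_zero_iff.2 hy)]

lemma aux {W : Type*} [NormedAddCommGroup W] [NormedSpace 𝕜 W] (p : W →L[𝕜] Z) (q : W →L[𝕜] X)
    (hn : ∀ w, ‖w‖ = ‖p w‖ + ‖q w‖) (j : Z × X →L[𝕜] W) (jp : ∀ v, p (j v) = v.1)
    (jq : ∀ v, q (j v) = v.2) (h : BPBpRSE 𝕜 X W) : BPBpASE 𝕜 X Z := by
  intro ε hε
  obtain ⟨κ, k0, k1, k2⟩ : ∃ κ : ℝ, 0 < κ ∧ κ ≤ 1 / 2 ∧ 4 * κ ≤ ε :=
    ⟨min (1 / 2) (ε / 4), by positivity, min_le_left _ _, by linarith [min_le_right (1 / 2) (ε / 4)]⟩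
  obtain ⟨η, h0, h1, H⟩ := h (κ / 2) (half_pos k0)
  refine ⟨η, h0, by linarith, fun T x _ hT hx hTx => ?_⟩
  have n1 : ‖((1 - κ : ℝ) : 𝕜)‖ = 1 - κ := by rw [RCLike.norm_ofReal, abs_of_pos (by linarith)]
  have n2 : ‖((κ : ℝ) : 𝕜)‖ = κ := by rw [RCLike.norm_ofReal, abs_of_pos k0]
  let T' : X →L[𝕜] W := j.comp ((((1 - κ : ℝ) : 𝕜) • T).prod
    (((κ : ℝ) : 𝕜) • ContinuousLinearMap.id 𝕜 X))
  have tp : ∀ v, p (T' v) = ((1 - κ : ℝ) : 𝕜) • T v := fun v => jp _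
  have tq : ∀ v, q (T' v) = ((κ : ℝ) : 𝕜) • v := fun v => jq _
  have tn : ∀ v, ‖T' v‖ = (1 - κ) * ‖T v‖ + κ * ‖v‖ := fun v => by
    rw [hn, tp, tq, norm_smul, norm_smul, n1, n2]
  have t1 : ‖T'‖ = 1 := by
    apply le_antisymm
    · refine ContinuousLinearMap.opNorm_le_of_unit_norm zero_le_one fun v hv => ?_
      have := T.unit_le_opNorm v hv.le
      rw [tn, hv]
      nlinarith
    · have a : ∀ v, ‖v‖ = 1 → ‖T v‖ ≤ (‖T'‖ - κ) / (1 - κ) := fun v hv => by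
        have := T'.unit_le_opNorm v hv.le
        rw [tn, hv] at this
        rw [le_div_iff₀ (by linarith)]
        linarith
      have := ContinuousLinearMap.opNorm_le_of_unit_norm ((norm_nonneg _).trans (a x hx)) a
      rw [hT, le_div_iff₀ (by linarith)] at this
      linarith
  obtain ⟨S', x₀, -, ⟨x₁, r1, r2⟩, s1, s2, s3, s4, s5⟩ := H T' x trivial t1 hx (by
    rw [tn, hx]; nlinarith)
  have d : ∀ v, ‖p (S' v) - ((1 - κ : ℝ) : 𝕜) • T v‖ + ‖q (S' v) - ((κ : ℝ) : 𝕜) • v‖ ≤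
      κ / 2 * ‖v‖ := fun v => by
    have := (S' - T').le_of_opNorm_le s4.le v
    rwa [hn, sub_apply, map_sub, map_sub, tp, tq] at this
  have d1 : ∀ v, ‖q (S' v)‖ ≤ 3 * κ / 2 * ‖v‖ ∧ κ / 2 * ‖v‖ ≤ ‖q (S' v)‖ := fun v => by
    have a := abs_le.1 (abs_norm_sub_norm_le (q (S' v)) (((κ : ℝ) : 𝕜) • v))
    rw [norm_smul, n2] at a
    have := d v
    have := norm_nonneg (p (S' v) - ((1 - κ : ℝ) : 𝕜) • T v)
    constructor <;> linarith [a.1, a.2]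
  have e0 := hn (S' x₀)
  obtain ⟨y, y1, y2⟩ := unit_dir (𝕜 := 𝕜) (y := p (S' x₀)) (norm_pos_iff.1 (by
    have := (d1 x₀).1
    rw [s1] at this
    linarith))
  obtain ⟨g, g1, g2⟩ := exists_dual_vector'' 𝕜 (q (S' x₀))
  let S : X →L[𝕜] Z := p.comp S' + (g.comp (q.comp S')).smulRight y
  have Sv : ∀ v, S v = p (S' v) + g (q (S' v)) • y := fun v => rfl
  have gq : ∀ v, ‖g (q (S' v)) • y‖ ≤ ‖q (S' v)‖ := fun v => by
    rw [norm_smul, y1, mul_one]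
    simpa using g.le_of_opNorm_le g1 (q (S' v))
  have b1 : ∀ v, ‖S v‖ ≤ ‖S' v‖ := fun v => by
    rw [Sv, hn (S' v)]
    linarith [norm_add_le (p (S' v)) (g (q (S' v)) • y), gq v]
  have b2 : ‖S x₀‖ = 1 := by
    rw [Sv, g2, y2, ← add_smul, norm_smul, y1, mul_one, ← RCLike.ofReal_add, RCLike.norm_ofReal,
      ← e0, s3, abs_one]
  have b3 : ‖S‖ = 1 := le_antisymm (ContinuousLinearMap.opNorm_le_of_unit_norm zero_le_one
    fun v hv => (b1 v).trans (s2 ▸ S'.unit_le_opNorm v hv.le)) (b2 ▸ S.unit_le_opNorm x₀ s1.le)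
  refine ⟨S, x₀, trivial, ⟨x₁, r1, fun u u1 u2 => ?_⟩, s1, b3, b2, ?_, by linarith⟩
  · rw [b3] at u2
    obtain ⟨σ, l, l1, l2, l3⟩ := r2 u u1 (by
      rw [s2]
      exact tendsto_of_tendsto_of_tendsto_of_le_of_le u2 tendsto_const_nhds (fun n => b1 _)
        fun n => s2 ▸ S'.unit_le_opNorm _ (u1 n))
    refine ⟨σ, l, l1, l2, ?_⟩
    rw [tendsto_iff_norm_sub_tendsto_zero] at l3 ⊢
    have l4 := l3.const_mul (2 / κ)
    rw [mul_zero] at l4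
    refine squeeze_zero (fun _ => norm_nonneg _) (fun n => ?_) l4
    have c1 := (d1 (u (σ n) - l • x₁)).2
    have c2 := hn (S' (u (σ n) - l • x₁))
    have c3 := norm_nonneg (p (S' (u (σ n) - l • x₁)))
    rw [← map_smul, ← map_sub, div_mul_eq_mul_div, le_div_iff₀ k0]
    linarith
  · refine lt_of_le_of_lt (ContinuousLinearMap.opNorm_le_of_unit_norm (C := 3 * κ)
      (by positivity) fun v hv => ?_) (by linarith)
    have e : (S - T) v = (p (S' v) - ((1 - κ : ℝ) : 𝕜) • T v) +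
        (g (q (S' v)) • y - ((κ : ℝ) : 𝕜) • T v) := by
      rw [sub_apply, Sv]
      push_cast
      module
    rw [e]
    have c1 := norm_add_le (p (S' v) - ((1 - κ : ℝ) : 𝕜) • T v)
      (g (q (S' v)) • y - ((κ : ℝ) : 𝕜) • T v)
    have c2 := norm_sub_le (g (q (S' v)) • y) (((κ : ℝ) : 𝕜) • T v)
    have c3 := d v
    have c4 := (d1 v).1
    have c5 := gq v
    have c6 := T.unit_le_opNorm v hv.le
    have c7 := norm_nonneg (q (S' v) - ((κ : ℝ) : 𝕜) • v)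
    rw [norm_smul ((κ : ℝ) : 𝕜), n2] at c2
    rw [hv] at c3 c4
    nlinarith

theorem main (h : BPBpRSE 𝕜 X (WithLp 1 (Z × X))) : BPBpASE 𝕜 X Z :=
  aux (WithLp.fstL 1 𝕜 Z X) (WithLp.sndL 1 𝕜 Z X) WithLp.prod_norm_eq_of_L1
    ((WithLp.prodContinuousLinearEquiv 1 𝕜 Z X).symm : Z × X →L[𝕜] _) (fun _ => rfl)
    (fun _ => rfl) h

end Pool.Agent.H90.RseProof
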