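import Mathlib

namespace Pool.Agent.H90.Sat

open Filter Topology

variable {H : Type} [NormedAddCommGroup H] [InnerProductSpace ℂ H] [CompleteSpace H]

/-- finite-rank operators -/
def FinRank (X : H →L[ℂ] H) : Prop := FiniteDimensional ℂ (LinearMap.range (X : H →ₗ[ℂ] H))

def ClAdd (I : Set (H →L[ℂ] H)) : Prop := ∀ X Y, I X → I Y → I (X + Y)
def ClSmul (I : Set (H →L[ℂ] H)) : Prop := ∀ (c : ℂ) X, I X → I (c • X)
def ClMul (I : Set (H →L[ℂ] H)) : Prop := ∀ A B X, I X → I (A * X * B)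
def ClStar (I : Set (H →L[ℂ] H)) : Prop := ∀ X, I X → I (star X)
def Between (I : Set (H →L[ℂ] H)) : Prop :=
  (∀ X, FinRank X → I X) ∧ ∀ X, I X → IsCompactOperator X

/-- a complex subspace closed under left and right multiplication and adjoints, between the
finite-rank and the compact operators -/
def IsIdl (I : Set (H →L[ℂ] H)) : Prop :=
  ClAdd I ∧ ClSmul I ∧ ClMul I ∧ ClStar I ∧ Between I

def NAdd (I : Set (H →L[ℂ] H)) (nm : (H →L[ℂ] H) → ℝ) : Prop :=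
  ∀ X Y, I X → I Y → nm (X + Y) ≤ nm X + nm Y
def NSmul (I : Set (H →L[ℂ] H)) (nm : (H →L[ℂ] H) → ℝ) : Prop :=
  ∀ (c : ℂ) X, I X → nm (c • X) = ‖c‖ * nm X
def NPos (I : Set (H →L[ℂ] H)) (nm : (H →L[ℂ] H) → ℝ) : Prop :=
  ∀ X, I X → X ≠ 0 → 0 < nm X
def NMul (I : Set (H →L[ℂ] H)) (nm : (H →L[ℂ] H) → ℝ) : Prop :=
  ∀ A B X, I X → nm (A * X * B) ≤ ‖A‖ * nm X * ‖B‖
def NOne (nm : (H →L[ℂ] H) → ℝ) : Prop :=
  ∀ (X : H →L[ℂ] H) (x y : H), (∀ v, X v = inner ℂ y v • x) → nm X = ‖X‖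

/-- `nm` is a symmetric norm on `I` -/
def IsSymNorm (I : Set (H →L[ℂ] H)) (nm : (H →L[ℂ] H) → ℝ) : Prop :=
  NAdd I nm ∧ NSmul I nm ∧ NPos I nm ∧ NMul I nm ∧ NOne nm

def IsCau (nm : (H →L[ℂ] H) → ℝ) (X : ℕ → H →L[ℂ] H) : Prop :=
  ∀ ε > 0, ∃ N, ∀ m ≥ N, ∀ n ≥ N, nm (X m - X n) < ε

/-- `I` is complete for `nm` -/
def IsCompl (I : Set (H →L[ℂ] H)) (nm : (H →L[ℂ] H) → ℝ) : Prop :=
  ∀ X : ℕ → H →L[ℂ] H, (∀ n, X n ∈ I) → IsCau nm X →
    ∃ Y ∈ I, Tendsto (fun n => nm (X n - Y)) atTop (𝓝 0)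

/-- the finite-rank operators are dense in `I` -/
def FinDense (I : Set (H →L[ℂ] H)) (nm : (H →L[ℂ] H) → ℝ) : Prop :=
  ∀ X ∈ I, ∀ ε > 0, ∃ R, FinRank R ∧ nm (X - R) < ε

/-- finite-rank positive contractions increasing strongly to the identity -/
def IsAppr (A : ℕ → H →L[ℂ] H) : Prop :=
  (∀ m, FinRank (A m) ∧ 0 ≤ A m ∧ A m ≤ 1) ∧ Monotone A ∧
    ∀ x, Tendsto (fun m => A m x) atTop (𝓝 x)

/-- the commutator -/
noncomputable def comm (X T : H →L[ℂ] H) : H →L[ℂ] H := X * T - T * X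

/-- Voiculescu's modulus of quasicentral approximation -/
noncomputable def kk (nm : (H →L[ℂ] H) → ℝ) {n : ℕ} (τ : Fin n → H →L[ℂ] H) : ENNReal :=
  sInf {C | ∃ A, IsAppr A ∧
    Tendsto (fun m => ⨆ j, ENNReal.ofReal (nm (comm (A m) (τ j)))) atTop (𝓝 C)}

/-- the commutant modulo `I` -/
def EE (I : Set (H →L[ℂ] H)) {n : ℕ} (τ : Fin n → H →L[ℂ] H) : Set (H →L[ℂ] H) :=
  {X | ∀ j, comm X (τ j) ∈ I}

/-- norm of the image in the Calkin algebra -/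
noncomputable def ess (X : H →L[ℂ] H) : ℝ :=
  Metric.infDist X {K : H →L[ℂ] H | IsCompactOperator K}

/-- the monomial `a x_i b` or `a x_i^* b` -/
structure Mono (H : Type) [NormedAddCommGroup H] [InnerProductSpace ℂ H] where
  a : H →L[ℂ] H
  i : ℕ
  s : Bool
  b : H →L[ℂ] H

noncomputable def Mono.eval (x : ℕ → H →L[ℂ] H) (t : Mono H) : H →L[ℂ] H :=
  t.a * (if t.s then star (x t.i) else x t.i) * t.b

/-- a star-polynomial of degree at most one: a constant and a list of monomials -/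
structure Poly (H : Type) [NormedAddCommGroup H] [InnerProductSpace ℂ H] where
  c : H →L[ℂ] H
  l : List (Mono H)

noncomputable def Poly.eval (P : Poly H) (x : ℕ → H →L[ℂ] H) : H →L[ℂ] H :=
  P.c + (P.l.map (Mono.eval x)).sum

def Poly.In (P : Poly H) (E : Set (H →L[ℂ] H)) : Prop :=
  P.c ∈ E ∧ ∀ t ∈ P.l, t.a ∈ E ∧ t.b ∈ E

/-- a sequence in the unit ball of the image of `E` in the Calkin algebra, given by lifts -/
def Ball (E : Set (H →L[ℂ] H)) (b : ℕ → H →L[ℂ] H) : Prop := ∀ i, b i ∈ E ∧ ess (b i) ≤ 1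

/-- the image of `E` in the Calkin algebra is countably degree-1 saturated -/
def Saturated (E : Set (H →L[ℂ] H)) : Prop :=
  ∀ (P : ℕ → Poly H) (K : ℕ → Set ℝ), (∀ k, (P k).In E) → (∀ k, IsCompact (K k)) →
    (∀ N : ℕ, 0 < N → ∃ b, Ball E b ∧
      ∀ k ≤ N, ∃ t ∈ K k, |ess ((P k).eval b) - t| < 1 / (N : ℝ)) →
    ∃ b, Ball E b ∧ ∀ k, ess ((P k).eval b) ∈ K k

end Pool.Agent.H90.Sat
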