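import Mathlib
import Pool.Agent.H90.SatDefs

namespace Pool.Agent.H90.Sat

open Filter Topology InnerProductSpace

section Gen
variable {H : Type} [NormedAddCommGroup H] [InnerProductSpace ℂ H] [CompleteSpace H]

/-- span of the rank one operators -/
def FR (H : Type) [NormedAddCommGroup H] [InnerProductSpace ℂ H] : Submodule ℂ (H →L[ℂ] H) :=
  Submodule.span ℂ {X | ∃ x y : H, X = rankOne ℂ x y}

omit [CompleteSpace H] in
lemma rk_mem (x y : H) : rankOne ℂ x y ∈ FR H := Submodule.subset_span ⟨x, y, rfl⟩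

lemma mul_rk (A B : H →L[ℂ] H) (x y : H) :
    A * rankOne ℂ x y * B = rankOne ℂ (A x) (star B y) := by
  ext v
  simp [ContinuousLinearMap.star_eq_adjoint, ContinuousLinearMap.adjoint_inner_left]

omit [CompleteSpace H] in
lemma FR_ind {p : (H →L[ℂ] H) → Prop} (h0 : p 0) (h1 : ∀ x y : H, p (rankOne ℂ x y))
    (h2 : ∀ X Y, p X → p Y → p (X + Y)) {X : H →L[ℂ] H} (hX : X ∈ FR H) : p X := by
  suffices h : ∀ c : ℂ, p (c • X) by simpa using h 1
  induction hX using Submodule.span_induction with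
  | mem X hX =>
    obtain ⟨x, y, rfl⟩ := hX
    intro c
    have : c • rankOne ℂ x y = rankOne ℂ (c • x) y := by
      ext v; simp [smul_smul]
    rw [this]; exact h1 _ _
  | zero => simpa using h0
  | add X Y _ _ hX hY => intro c; rw [smul_add]; exact h2 _ _ (hX c) (hY c)
  | smul a X _ hX => intro c; rw [smul_smul]; exact hX _

lemma FR_mul (A B : H →L[ℂ] H) {X : H →L[ℂ] H} (hX : X ∈ FR H) : A * X * B ∈ FR H := by
  refine FR_ind (p := fun X => A * X * B ∈ FR H) (by simp) (fun x y => ?_) (fun X Y h1 h2 => ?_) hX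
  · rw [mul_rk]; exact rk_mem _ _
  · rw [mul_add, add_mul]; exact add_mem h1 h2

lemma FR_star {X : H →L[ℂ] H} (hX : X ∈ FR H) : star X ∈ FR H := by
  refine FR_ind (p := fun X => star X ∈ FR H) (by simp) (fun x y => ?_) (fun X Y h1 h2 => ?_) hX
  · rw [ContinuousLinearMap.star_eq_adjoint, adjoint_rankOne]; exact rk_mem _ _
  · rw [star_add]; exact add_mem h1 h2

lemma finRank_iff {X : H →L[ℂ] H} : FinRank X ↔ X ∈ FR H := by
  constructor
  · intro h
    unfold FinRank at h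
    set U := LinearMap.range (X : H →ₗ[ℂ] H)
    let b := stdOrthonormalBasis ℂ U
    have h1 := b.starProjection_eq_sum_rankOne
    have h2 : X = 1 * U.starProjection * X := by
      ext v
      have hv : X v ∈ U := ⟨v, rfl⟩
      rw [one_mul]
      exact (Submodule.starProjection_eq_self_iff.2 hv).symm
    rw [h2]
    refine FR_mul _ _ ?_
    rw [h1]
    exact Submodule.sum_mem _ fun i _ => rk_mem _ _
  · intro hX
    refine FR_ind (p := FinRank) ?_ (fun x y => ?_) (fun X Y h1 h2 => ?_) hX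
    · unfold FinRank
      refine Submodule.finiteDimensional_of_le (S₂ := ⊥) ?_
      rintro _ ⟨v, rfl⟩
      simp
    · unfold FinRank
      refine Submodule.finiteDimensional_of_le (S₂ := ℂ ∙ x) ?_
      rintro _ ⟨v, rfl⟩
      exact Submodule.smul_mem _ _ (Submodule.mem_span_singleton_self x)
    · unfold FinRank at *
      refine Submodule.finiteDimensional_of_le
        (S₂ := LinearMap.range (X : H →ₗ[ℂ] H) ⊔ LinearMap.range (Y : H →ₗ[ℂ] H)) ?_
      rintro _ ⟨v, rfl⟩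
      exact Submodule.add_mem_sup ⟨v, rfl⟩ ⟨v, rfl⟩

omit [CompleteSpace H] in
lemma FR_cpt {X : H →L[ℂ] H} (hX : X ∈ FR H) : IsCompactOperator X := by
  refine FR_ind (p := fun X => IsCompactOperator X) isCompactOperator_zero (fun x y => ?_)
    (fun X Y h1 h2 => h1.add h2) hX
  rw [rankOne_def']
  exact (isCompactOperator_of_locallyCompactSpace_dom (innerSL ℂ y)).clm_comp
    (ContinuousLinearMap.toSpanSingleton ℂ x)

end Gen

abbrev W := List Bool
noncomputable abbrev HS := lp (fun _ : W => ℂ) 2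
abbrev BH := HS →L[ℂ] HS

noncomputable def ev (i : W) : HS := lp.single 2 i 1

lemma inner_ev (i : W) (v : HS) : inner ℂ (ev i) v = v i := by
  rw [ev, lp.inner_single_left]; simp

lemma ev_apply (i j : W) : ev i j = if j = i then 1 else 0 := by
  rw [ev, lp.single_apply, Pi.single_apply]

lemma norm_ev (i : W) : ‖ev i‖ = 1 := by
  rw [ev, lp.norm_single (by norm_num)]; simp

lemma co_le (v : HS) (i : W) : ‖v i‖ ≤ ‖v‖ := lp.norm_apply_le_norm (by norm_num) v i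

lemma sum_sq_le (v : HS) (s : Finset W) : ∑ i ∈ s, ‖v i‖ ^ 2 ≤ ‖v‖ ^ 2 := by
  have := lp.sum_rpow_le_norm_rpow (p := 2) (by norm_num) v s
  simpa using this

noncomputable def wt (σ : W) : ℝ := (1 / 2) ^ σ.length

lemma wt_pos (σ : W) : 0 < wt σ := by unfold wt; positivity
lemma wt_le (σ : W) : wt σ ≤ 1 := pow_le_one₀ (by norm_num) (by norm_num)

/-- weighted diagonal sum -/
noncomputable def ds (X : BH) (s : Finset W) : ℝ := ∑ σ ∈ s, wt σ * ‖X (ev σ) σ‖

/-- `c` bounds the Macaev type norm of `X` -/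
def Bd (X : BH) (c : ℝ) : Prop := ∀ A B : BH, ‖A‖ ≤ 1 → ‖B‖ ≤ 1 → ∀ s, ds (A * X * B) s ≤ c

lemma Bd.nonneg {X : BH} {c : ℝ} (h : Bd X c) : 0 ≤ c := by
  simpa [ds] using h 0 0 (by simp) (by simp) ∅

lemma Bd.mono {X : BH} {c d : ℝ} (h : Bd X c) (hd : c ≤ d) : Bd X d :=
  fun A B hA hB s => (h A B hA hB s).trans hd

lemma Bd_zero : Bd 0 0 := fun A B _ _ s => by simp [ds]

lemma Bd.add {X Y : BH} {c d : ℝ} (h : Bd X c) (h' : Bd Y d) : Bd (X + Y) (c + d) := by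
  intro A B hA hB s
  refine le_trans ?_ (add_le_add (h A B hA hB s) (h' A B hA hB s))
  rw [mul_add, add_mul, ds, ds, ds, ← Finset.sum_add_distrib]
  refine Finset.sum_le_sum fun σ _ => ?_
  rw [← mul_add]
  exact mul_le_mul_of_nonneg_left (norm_add_le _ _) (wt_pos σ).le

lemma ds_smul (a : ℂ) (X : BH) (s : Finset W) : ds (a • X) s = ‖a‖ * ds X s := by
  simp only [ds, Finset.mul_sum]
  refine Finset.sum_congr rfl fun σ _ => ?_
  simp only [smul_apply, lp.coeFn_smul, Pi.smul_apply, smul_eq_mul, norm_mul]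
  ring

lemma Bd.smul {X : BH} {c : ℝ} (h : Bd X c) (a : ℂ) : Bd (a • X) (‖a‖ * c) := by
  intro A B hA hB s
  rw [mul_smul_comm, smul_mul_assoc, ds_smul]
  exact mul_le_mul_of_nonneg_left (h A B hA hB s) (norm_nonneg _)

lemma Bd.neg {X : BH} {c : ℝ} (h : Bd X c) : Bd (-X) c := by simpa using h.smul (-1)

lemma Bd.sub {X Y : BH} {c d : ℝ} (h : Bd X c) (h' : Bd Y d) : Bd (X - Y) (c + d) := by
  rw [sub_eq_add_neg]; exact h.add h'.neg

lemma Bd.con {X : BH} {c : ℝ} (h : Bd X c) {A B : BH} (hA : ‖A‖ ≤ 1) (hB : ‖B‖ ≤ 1) :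
    Bd (A * X * B) c := by
  intro A' B' hA' hB' s
  have : A' * (A * X * B) * B' = (A' * A) * X * (B * B') := by simp only [mul_assoc]
  rw [this]
  refine h _ _ ((norm_mul_le _ _).trans ?_) ((norm_mul_le _ _).trans ?_) s
  · exact mul_le_one₀ hA' (norm_nonneg _) hA
  · exact mul_le_one₀ hB (norm_nonneg _) hB'

lemma exists_con (A : BH) : ∃ A' : BH, ‖A'‖ ≤ 1 ∧ A = (‖A‖ : ℂ) • A' := by
  by_cases h : A = 0
  · exact ⟨0, by simp, by simp [h]⟩
  · have h' : ‖A‖ ≠ 0 := norm_ne_zero_iff.2 h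
    refine ⟨(‖A‖ : ℂ)⁻¹ • A, ?_, ?_⟩
    · rw [norm_smul]; simp [h']
    · rw [smul_smul, mul_inv_cancel₀ (by exact_mod_cast h'), one_smul]

lemma Bd.mul {X : BH} {c : ℝ} (h : Bd X c) (A B : BH) : Bd (A * X * B) (‖A‖ * c * ‖B‖) := by
  obtain ⟨A', hA, eA⟩ := exists_con A
  obtain ⟨B', hB, eB⟩ := exists_con B
  have h1 := ((h.con hA hB).smul (‖A‖ : ℂ)).smul (‖B‖ : ℂ)
  have e : A * X * B = (‖B‖ : ℂ) • (‖A‖ : ℂ) • (A' * X * B') := by
    conv_lhs => rw [eA, eB]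
    simp only [smul_mul_assoc, mul_smul_comm]
  rw [e]
  refine h1.mono (le_of_eq ?_)
  simp; ring

lemma ent_star (X : BH) (σ τ : W) : (star X) (ev σ) τ = star (X (ev τ) σ) := by
  rw [← inner_ev, ← inner_ev, ContinuousLinearMap.star_eq_adjoint,
    ContinuousLinearMap.adjoint_inner_right]
  exact (inner_conj_symm _ _).symm

lemma nst (A : BH) : ‖star A‖ = ‖A‖ := by
  rw [ContinuousLinearMap.star_eq_adjoint, LinearIsometryEquiv.norm_map]

lemma n1 : ‖(1 : BH)‖ ≤ 1 := ContinuousLinearMap.norm_id_le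

lemma Bd.star {X : BH} {c : ℝ} (h : Bd X c) : Bd (star X) c := by
  intro A B hA hB s
  have : A * Star.star X * B = Star.star (Star.star B * X * Star.star A) := by
    simp [mul_assoc]
  rw [this]
  refine le_trans (le_of_eq ?_) (h (Star.star B) (Star.star A) (by rwa [nst]) (by rwa [nst]) s)
  simp only [ds, ent_star, norm_star]

lemma sum_rk (x y : HS) (s : Finset W) : ∑ σ ∈ s, ‖rankOne ℂ x y (ev σ) σ‖ ≤ ‖x‖ * ‖y‖ := by
  have e : ∀ σ, ‖rankOne ℂ x y (ev σ) σ‖ = ‖x σ‖ * ‖y σ‖ := by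
    intro σ
    simp only [rankOne_apply, lp.coeFn_smul, Pi.smul_apply, smul_eq_mul, norm_mul]
    rw [norm_inner_symm, inner_ev, mul_comm]
  simp only [e]
  refine abs_le_of_sq_le_sq' ?_ (by positivity) |>.2
  refine (Finset.sum_mul_sq_le_sq_mul_sq _ _ _).trans ?_
  rw [mul_pow]
  exact mul_le_mul (sum_sq_le x s) (sum_sq_le y s) (by positivity) (by positivity)

lemma sum_rk' {A B : BH} (hA : ‖A‖ ≤ 1) (hB : ‖B‖ ≤ 1) (x y : HS) (s : Finset W) :
    ∑ σ ∈ s, ‖(A * rankOne ℂ x y * B) (ev σ) σ‖ ≤ ‖x‖ * ‖y‖ := by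
  rw [mul_rk]
  refine (sum_rk _ _ s).trans (mul_le_mul ?_ ?_ (by positivity) (by positivity))
  · exact (A.le_opNorm x).trans (mul_le_of_le_one_left (norm_nonneg _) hA)
  · exact ((star B).le_opNorm y).trans (mul_le_of_le_one_left (norm_nonneg _) (by rwa [nst]))

lemma Bd_rk (x y : HS) : Bd (rankOne ℂ x y) (‖x‖ * ‖y‖) := by
  intro A B hA hB s
  refine le_trans ?_ (sum_rk' hA hB x y s)
  exact Finset.sum_le_sum fun σ _ => mul_le_of_le_one_left (norm_nonneg _) (wt_le σ)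

lemma Bd.norm_le {X : BH} {c : ℝ} (h : Bd X c) : ‖X‖ ≤ c := by
  have key : ∀ u v : HS, ‖inner ℂ u (X v)‖ ≤ ‖u‖ * c * ‖v‖ := by
    intro u v
    have h1 := h.mul (rankOne ℂ (ev []) u) (rankOne ℂ v (ev [])) 1 1 n1 n1 {[]}
    simpa [ds, wt, norm_ev, ev_apply] using h1
  refine X.opNorm_le_bound h.nonneg fun v => ?_
  have := key (X v) v
  rw [inner_self_eq_norm_sq_to_K] at this
  simp only [norm_pow, RCLike.norm_ofReal, abs_norm] at this
  by_cases h0 : ‖X v‖ = 0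
  · rw [h0]; exact mul_nonneg h.nonneg (norm_nonneg _)
  · have : 0 < ‖X v‖ := lt_of_le_of_ne (norm_nonneg _) (Ne.symm h0)
    nlinarith

lemma cont_ds (A B : BH) (s : Finset W) : Continuous fun X : BH => ds (A * X * B) s := by
  unfold ds
  simp only [← inner_ev]
  fun_prop

lemma Bd_lim {X : ℕ → BH} {Y : BH} {c : ℝ} (h : Tendsto X atTop (𝓝 Y))
    (hb : ∀ᶠ n in atTop, Bd (X n) c) : Bd Y c := fun A B hA hB s =>
  le_of_tendsto (((cont_ds A B s).tendsto Y).comp h) (hb.mono fun _ hn => hn A B hA hB s)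

lemma FR_Bd {X : BH} (hX : X ∈ FR HS) : ∃ c, Bd X c :=
  FR_ind (p := fun X => ∃ c, Bd X c) ⟨0, Bd_zero⟩ (fun x y => ⟨_, Bd_rk x y⟩)
    (fun _ _ ⟨_, h1⟩ ⟨_, h2⟩ => ⟨_, h1.add h2⟩) hX

noncomputable def nm (X : BH) : ℝ := sInf {c | Bd X c}

lemma Bd.nm_le {X : BH} {c : ℝ} (h : Bd X c) : nm X ≤ c :=
  csInf_le ⟨0, fun _ hc => Bd.nonneg hc⟩ h

lemma Bd_nm {X : BH} (h : ∃ c, Bd X c) : Bd X (nm X) := fun A B hA hB s =>
  le_csInf h fun _ hc => hc A B hA hB s

/-- the ideal -/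
def II : Set BH := {X | ∀ ε > 0, ∃ R ∈ FR HS, Bd (X - R) ε}

lemma II_Bd {X : BH} (h : X ∈ II) : Bd X (nm X) := by
  obtain ⟨R, hR, h1⟩ := h 1 one_pos
  obtain ⟨c, hc⟩ := FR_Bd hR
  exact Bd_nm ⟨_, by simpa using h1.add hc⟩

lemma FR_II {X : BH} (h : X ∈ FR HS) : X ∈ II :=
  fun ε hε => ⟨X, h, by simpa using Bd_zero.mono hε.le⟩

lemma II_add {X Y : BH} (hX : X ∈ II) (hY : Y ∈ II) : X + Y ∈ II := by
  intro ε hε
  obtain ⟨R, hR, h1⟩ := hX (ε / 2) (by positivity)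
  obtain ⟨S, hS, h2⟩ := hY (ε / 2) (by positivity)
  refine ⟨R + S, add_mem hR hS, ?_⟩
  have := h1.add h2
  rwa [add_halves, sub_add_sub_comm] at this

lemma II_mul (A B : BH) {X : BH} (hX : X ∈ II) : A * X * B ∈ II := by
  intro ε hε
  obtain ⟨R, hR, h1⟩ := hX (ε / (‖A‖ * ‖B‖ + 1)) (by positivity)
  refine ⟨A * R * B, FR_mul _ _ hR, ?_⟩
  rw [← sub_mul, ← mul_sub]
  refine (h1.mul A B).mono ?_
  rw [mul_right_comm, ← mul_div_assoc, div_le_iff₀ (by positivity)]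
  nlinarith

lemma II_smul (c : ℂ) {X : BH} (hX : X ∈ II) : c • X ∈ II := by
  simpa using II_mul (c • 1) 1 hX

lemma II_sub {X Y : BH} (hX : X ∈ II) (hY : Y ∈ II) : X - Y ∈ II := by
  simpa [sub_eq_add_neg] using II_add hX (II_smul (-1) hY)

lemma II_star {X : BH} (hX : X ∈ II) : star X ∈ II := by
  intro ε hε
  obtain ⟨R, hR, h1⟩ := hX ε hε
  exact ⟨star R, FR_star hR, by simpa using h1.star⟩

lemma II_cpt {X : BH} (hX : X ∈ II) : IsCompactOperator X := by
  have : X ∈ closure {K : BH | IsCompactOperator K} := by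
    refine Metric.mem_closure_iff.2 fun ε hε => ?_
    obtain ⟨R, hR, h1⟩ := hX (ε / 2) (by positivity)
    refine ⟨R, FR_cpt hR, ?_⟩
    rw [dist_eq_norm]
    linarith [h1.norm_le]
  rwa [isClosed_setOfPred_isCompactOperator.closure_eq] at this

lemma isIdl : IsIdl II :=
  ⟨fun _ _ h h' => II_add h h', fun c _ h => II_smul c h, fun A B _ h => II_mul A B h,
    fun _ h => II_star h, fun _ h => FR_II (finRank_iff.1 h), fun _ h => II_cpt h⟩

lemma isSym : IsSymNorm II nm := by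
  refine ⟨fun X Y hX hY => ((II_Bd hX).add (II_Bd hY)).nm_le, fun c X hX => ?_,
    fun X hX h0 => (norm_pos_iff.2 h0).trans_le (II_Bd hX).norm_le,
    fun A B X hX => ((II_Bd hX).mul A B).nm_le, fun X x y h => ?_⟩
  · refine le_antisymm ((II_Bd hX).smul c).nm_le ?_
    by_cases hc : c = 0
    · simpa [hc] using (II_Bd (FR_II (zero_mem _))).nonneg
    · have h1 := ((II_Bd (II_smul c hX)).smul c⁻¹).nm_le
      rw [smul_smul, inv_mul_cancel₀ hc, one_smul, norm_inv] at h1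
      have h2 : 0 < ‖c‖ := norm_pos_iff.2 hc
      calc ‖c‖ * nm X ≤ ‖c‖ * (‖c‖⁻¹ * nm (c • X)) := by gcongr
        _ = _ := by field_simp
  · obtain rfl : X = rankOne ℂ x y := ContinuousLinearMap.ext h
    exact le_antisymm (by simpa using (Bd_rk x y).nm_le) (II_Bd (FR_II (rk_mem x y))).norm_le

lemma finDense : FinDense II nm := by
  intro X hX ε hε
  obtain ⟨R, hR, h1⟩ := hX (ε / 2) (by positivity)
  exact ⟨R, finRank_iff.2 hR, by linarith [h1.nm_le]⟩

lemma isCompl : IsCompl II nm := by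
  intro X hX hc
  have hb : ∀ ε > 0, ∃ N, ∀ m ≥ N, ∀ n ≥ N, Bd (X m - X n) ε := fun ε hε =>
    (hc ε hε).imp fun N hN m hm n hn => (II_Bd (II_sub (hX m) (hX n))).mono (hN m hm n hn).le
  have hcs : CauchySeq X := by
    refine Metric.cauchySeq_iff.2 fun ε hε => ?_
    obtain ⟨N, hN⟩ := hb (ε / 2) (by positivity)
    exact ⟨N, fun m hm n hn => by rw [dist_eq_norm]; linarith [(hN m hm n hn).norm_le]⟩
  obtain ⟨Y, hY⟩ := cauchySeq_tendsto_of_complete hcs
  have hb' : ∀ ε > 0, ∃ N, ∀ m ≥ N, Bd (X m - Y) ε := fun ε hε =>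
    (hb ε hε).imp fun N hN m hm => Bd_lim (tendsto_const_nhds.sub hY)
      ((eventually_ge_atTop N).mono fun n hn => hN m hm n hn)
  refine ⟨Y, fun ε hε => ?_, ?_⟩
  · obtain ⟨N, hN⟩ := hb' (ε / 2) (by positivity)
    obtain ⟨R, hR, h1⟩ := hX N (ε / 2) (by positivity)
    refine ⟨R, hR, ?_⟩
    have := h1.sub (hN N le_rfl)
    rwa [add_halves, sub_sub_sub_cancel_left] at this
  · refine Metric.tendsto_atTop.2 fun ε hε => ?_
    obtain ⟨N, hN⟩ := hb' (ε / 2) (by positivity)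
    refine ⟨N, fun n hn => ?_⟩
    have h1 := hN n hn
    rw [Real.dist_eq, sub_zero, abs_of_nonneg (Bd_nm ⟨_, h1⟩).nonneg]
    linarith [h1.nm_le]

end Pool.Agent.H90.Sat
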