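import Mathlib
import Pool.Agent.H90.SatA

namespace Pool.Agent.H90.Sat

open Filter Topology InnerProductSpace

def Ok (w : W → ℝ) (g : W → W) : Prop := (∀ σ, |w σ| ≤ 1) ∧ Function.Injective g

lemma Ok.sum_le {w : W → ℝ} {g : W → W} (h : Ok w g) (x : HS) (s : Finset W) :
    ∑ σ ∈ s, ‖(w σ : ℂ) * x (g σ)‖ ^ (2 : ENNReal).toReal ≤ ‖x‖ ^ (2 : ENNReal).toReal := by
  simp only [ENNReal.toReal_ofNat, Real.rpow_ofNat]
  refine le_trans ?_ (sum_sq_le x (s.image g))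
  rw [Finset.sum_image fun a _ b _ hab => h.2 hab]
  refine Finset.sum_le_sum fun σ _ => pow_le_pow_left₀ (norm_nonneg _) ?_ 2
  rw [norm_mul, Complex.norm_real, Real.norm_eq_abs]
  exact mul_le_of_le_one_left (norm_nonneg _) (h.1 σ)

noncomputable def Ml {w : W → ℝ} {g : W → W} (h : Ok w g) : HS →ₗ[ℂ] HS where
  toFun x := ⟨fun σ => (w σ : ℂ) * x (g σ), memℓp_gen' (h.sum_le x)⟩
  map_add' x y := by ext σ; simp [mul_add]
  map_smul' c x := by ext σ; simp [mul_left_comm]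

lemma Ml_le {w : W → ℝ} {g : W → W} (h : Ok w g) (x : HS) : ‖Ml h x‖ ≤ 1 * ‖x‖ := by
  rw [one_mul]
  exact lp.norm_le_of_forall_sum_le (by norm_num) (norm_nonneg _) (h.sum_le x)

open Classical in
/-- weighted composition operator -/
noncomputable def M (w : W → ℝ) (g : W → W) : BH :=
  if h : Ok w g then (Ml h).mkContinuous 1 (Ml_le h) else 0

lemma M_apply {w : W → ℝ} {g : W → W} (h : Ok w g) (x : HS) (σ : W) :
    M w g x σ = w σ * x (g σ) := by
  rw [M, dif_pos h]; rfl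

lemma norm_M (w : W → ℝ) (g : W → W) : ‖M w g‖ ≤ 1 := by
  unfold M
  split_ifs with h
  · exact LinearMap.mkContinuous_norm_le _ zero_le_one _
  · simp

noncomputable def D (w : W → ℝ) : BH := M w id
noncomputable def C (g : W → W) : BH := M (fun _ => 1) g

lemma D_apply {w : W → ℝ} (h : ∀ σ, |w σ| ≤ 1) (x : HS) (σ : W) : D w x σ = w σ * x σ :=
  M_apply ⟨h, Function.injective_id⟩ x σ

lemma C_apply {g : W → W} (h : Function.Injective g) (x : HS) (σ : W) : C g x σ = x (g σ) := by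
  rw [C, M_apply ⟨by simp, h⟩]; simp

lemma hasSum_ev (x : HS) : HasSum (fun σ => x σ • ev σ) x := by
  have := lp.hasSum_single (p := 2) (by norm_num) x
  refine this.congr_fun fun σ => ?_
  rw [ev, ← lp.single_smul]; simp

lemma ext_ev {X Y : BH} (h : ∀ σ τ, X (ev σ) τ = Y (ev σ) τ) : X = Y := by
  ext1 x
  have h1 := (hasSum_ev x).mapL X
  have h2 := (hasSum_ev x).mapL Y
  refine h1.unique (h2.congr_fun fun σ => ?_)
  rw [map_smul, map_smul, lp.ext (funext (h σ))]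

lemma strong {T : ℕ → BH} (hT : ∀ n, ‖T n‖ ≤ 1)
    (h : ∀ σ, Tendsto (fun n => T n (ev σ)) atTop (𝓝 0)) (x : HS) :
    Tendsto (fun n => T n x) atTop (𝓝 0) := by
  refine Metric.tendsto_nhds.2 fun ε hε => ?_
  obtain ⟨s, hs⟩ := (Metric.tendsto_nhds.1 (hasSum_ev x) (ε / 2) (by positivity)).exists
  have h1 : Tendsto (fun n => T n (∑ σ ∈ s, x σ • ev σ)) atTop (𝓝 0) := by
    simp only [map_sum, map_smul]
    simpa using tendsto_finsetSum s fun σ _ => (h σ).const_smul (x σ)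
  filter_upwards [Metric.tendsto_nhds.1 h1 (ε / 2) (by positivity)] with n hn
  rw [dist_zero_right] at hn ⊢
  rw [dist_comm, dist_eq_norm] at hs
  have e : T n x = T n (x - ∑ σ ∈ s, x σ • ev σ) + T n (∑ σ ∈ s, x σ • ev σ) := by
    rw [← map_add, sub_add_cancel]
  have h2 := ((T n).le_opNorm (x - ∑ σ ∈ s, x σ • ev σ)).trans
    (mul_le_of_le_one_left (norm_nonneg _) (hT n))
  rw [e]
  linarith [norm_add_le (T n (x - ∑ σ ∈ s, x σ • ev σ)) (T n (∑ σ ∈ s, x σ • ev σ))]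

lemma star_D {w : W → ℝ} (h : ∀ σ, |w σ| ≤ 1) : star (D w) = D w := by
  refine ext_ev fun σ τ => ?_
  rw [ent_star, D_apply h, D_apply h, ev_apply, ev_apply]
  by_cases e : σ = τ
  · simp [e]
  · simp [e, Ne.symm e]

lemma star_C_ev {g : W → W} (h : Function.Injective g) (σ : W) : star (C g) (ev σ) = ev (g σ) := by
  ext τ
  rw [ent_star, C_apply h, ev_apply, ev_apply]
  by_cases e : τ = g σ
  · simp [e]
  · simp [e, Ne.symm e]

lemma D_eq_sum {w : W → ℝ} (h : ∀ σ, |w σ| ≤ 1) (s : Finset W) (hs : ∀ σ ∉ s, w σ = 0) :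
    D w = ∑ σ ∈ s, (w σ : ℂ) • rankOne ℂ (ev σ) (ev σ) := by
  ext x τ
  rw [D_apply h]
  simp only [sum_apply, smul_apply, rankOne_apply, inner_ev, lp.coeFn_sum,
    Finset.sum_apply, lp.coeFn_smul, Pi.smul_apply, ev_apply, smul_eq_mul, mul_ite, mul_one,
    mul_zero, Finset.sum_ite_eq]
  split_ifs with h1
  · rfl
  · simp [hs τ h1]

lemma D_FR {w : W → ℝ} (h : ∀ σ, |w σ| ≤ 1) (L : ℕ) (hs : ∀ σ : W, L ≤ σ.length → w σ = 0) :
    D w ∈ FR HS := by
  rw [D_eq_sum h (List.finite_length_lt Bool L).toFinset fun σ hσ => hs σ (by simpa using hσ)]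
  exact Submodule.sum_mem _ fun σ _ => Submodule.smul_mem _ _ (rk_mem _ _)

lemma D_nonneg {w : W → ℝ} (h0 : ∀ σ, 0 ≤ w σ) (h1 : ∀ σ, w σ ≤ 1) : 0 ≤ D w := by
  have h2 : ∀ σ, |√(w σ)| ≤ 1 := fun σ => by
    rw [abs_of_nonneg (Real.sqrt_nonneg _)]; exact Real.sqrt_le_one.2 (h1 σ)
  have e : D w = ContinuousLinearMap.adjoint (D fun σ => √(w σ)) ∘L D fun σ => √(w σ) := by
    rw [← ContinuousLinearMap.star_eq_adjoint, star_D h2]
    ext x σ
    rw [D_apply fun σ => by rw [abs_of_nonneg (h0 σ)]; exact h1 σ,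
      ContinuousLinearMap.comp_apply, D_apply h2, D_apply h2, ← mul_assoc, ← Complex.ofReal_mul,
      Real.mul_self_sqrt (h0 σ)]
  rw [ContinuousLinearMap.nonneg_iff_isPositive, e]
  exact ContinuousLinearMap.isPositive_adjoint_comp_self _

lemma D_sub {w v : W → ℝ} (hw : ∀ σ, |w σ| ≤ 1) (hv : ∀ σ, |v σ| ≤ 1)
    (h : ∀ σ, |w σ - v σ| ≤ 1) : D w - D v = D fun σ => w σ - v σ := by
  ext x σ
  simp [D_apply hw, D_apply hv, D_apply h, sub_mul]

lemma D_one : D (fun _ => 1) = 1 := by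
  ext x σ
  rw [D_apply (by simp)]; simp

lemma D_le {w v : W → ℝ} (h0 : ∀ σ, 0 ≤ w σ) (h : ∀ σ, w σ ≤ v σ) (h1 : ∀ σ, v σ ≤ 1) :
    D w ≤ D v := by
  rw [← sub_nonneg, D_sub]
  · exact D_nonneg (fun σ => sub_nonneg.2 (h σ)) fun σ => by linarith [h0 σ, h1 σ]
  all_goals exact fun σ => abs_le.2 ⟨by linarith [h0 σ, h1 σ, h σ], by linarith [h0 σ, h1 σ, h σ]⟩

noncomputable def U (i : Bool) : BH := C (i :: ·)

lemma U_apply (i : Bool) (x : HS) (σ : W) : U i x σ = x (i :: σ) :=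
  C_apply List.cons_injective x σ

noncomputable def cm (X T : BH) : BH := X * T - T * X

lemma cm_DU {w : W → ℝ} (h0 : ∀ σ, 0 ≤ w σ) (h1 : ∀ σ, w σ ≤ 1) (i : Bool) :
    cm (D w) (U i) = D (fun σ => w σ - w (i :: σ)) * U i := by
  have h2 : ∀ σ, |w σ| ≤ 1 := fun σ => by rw [abs_of_nonneg (h0 σ)]; exact h1 σ
  have h3 : ∀ σ, |w σ - w (i :: σ)| ≤ 1 := fun σ =>
    abs_le.2 ⟨by linarith [h0 σ, h1 (i :: σ)], by linarith [h1 σ, h0 (i :: σ)]⟩
  ext x σ
  simp [cm, D_apply h2, D_apply h3, U_apply, sub_mul]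

noncomputable def RR (i : Bool) : BH := U i + star (U i)
noncomputable def JJ (i : Bool) : BH := Complex.I • (U i - star (U i))
noncomputable def τ : Fin 4 → BH := ![RR false, JJ false, RR true, JJ true]

lemma sa_τ (j : Fin 4) : IsSelfAdjoint (τ j) := by
  have h1 : ∀ i, IsSelfAdjoint (RR i) := fun i => by
    simp [IsSelfAdjoint, RR, add_comm]
  have h2 : ∀ i, IsSelfAdjoint (JJ i) := fun i => by
    simp [IsSelfAdjoint, JJ, smul_sub]; abel
  fin_cases j <;> simp [τ, h1, h2]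

lemma cm_R {X : BH} (hX : star X = X) (i : Bool) :
    cm X (RR i) = cm X (U i) - star (cm X (U i)) := by
  simp only [cm, RR, star_sub, star_mul, hX]; noncomm_ring

lemma cm_J {X : BH} (hX : star X = X) (i : Bool) :
    cm X (JJ i) = Complex.I • (cm X (U i) + star (cm X (U i))) := by
  simp only [cm, JJ, star_sub, star_mul, hX, mul_smul_comm, smul_mul_assoc, ← smul_sub]
  congr 1; noncomm_ring

lemma cm_U (X : BH) (i : Bool) :
    cm X (U i) = (1 / 2 : ℂ) • cm X (RR i) + (-Complex.I / 2) • cm X (JJ i) := by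
  simp only [cm, RR, JJ, mul_smul_comm, smul_mul_assoc, ← smul_sub, smul_smul]
  have : -Complex.I / 2 * Complex.I = 1 / 2 := by
    rw [div_mul_eq_mul_div, neg_mul, Complex.I_mul_I]; simp
  rw [this, ← smul_add]
  have : X * (U i + star (U i)) - (U i + star (U i)) * X +
      (X * (U i - star (U i)) - (U i - star (U i)) * X) = (2 : ℂ) • (X * U i - U i * X) := by
    rw [two_smul]; noncomm_ring
  rw [this, smul_smul]; simp

lemma Bd_τ {X : BH} (hX : star X = X) {c : ℝ} (h : ∀ i, Bd (cm X (U i)) c) (j : Fin 4) :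
    Bd (cm X (τ j)) (c + c) := by
  have h1 : ∀ i, Bd (cm X (RR i)) (c + c) := fun i => by
    rw [cm_R hX]; exact (h i).sub (h i).star
  have h2 : ∀ i, Bd (cm X (JJ i)) (c + c) := fun i => by
    rw [cm_J hX]; simpa using ((h i).add (h i).star).smul Complex.I
  fin_cases j <;> simp [τ, h1, h2]

lemma EE_of {X : BH} (hX : star X = X) (h : ∀ i, cm X (U i) ∈ FR HS) : X ∈ EE II τ := by
  have h1 : ∀ i, cm X (RR i) ∈ II := fun i => by
    rw [cm_R hX]; exact FR_II (sub_mem (h i) (FR_star (h i)))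
  have h2 : ∀ i, cm X (JJ i) ∈ II := fun i => by
    rw [cm_J hX]; exact FR_II (Submodule.smul_mem _ _ (add_mem (h i) (FR_star (h i))))
  intro j
  fin_cases j
  exacts [h1 false, h2 false, h1 true, h2 true]

lemma Bd_U {X : BH} {c : ℝ} (h : ∀ j, Bd (cm X (τ j)) c) (i : Bool) : Bd (cm X (U i)) c := by
  have h1 : Bd (cm X (RR i)) c := by cases i; exacts [h 0, h 2]
  have h2 : Bd (cm X (JJ i)) c := by cases i; exacts [h 1, h 3]
  rw [cm_U]
  refine ((h1.smul _).add (h2.smul _)).mono (le_of_eq ?_)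
  simp; ring

lemma II_U {X : BH} (h : X ∈ EE II τ) (i : Bool) : cm X (U i) ∈ II := by
  have h1 : cm X (RR i) ∈ II := by cases i; exacts [h 0, h 2]
  have h2 : cm X (JJ i) ∈ II := by cases i; exacts [h 1, h 3]
  rw [cm_U]
  exact II_add (II_smul _ h1) (II_smul _ h2)

lemma cm_ent (X : BH) (i : Bool) (σ : W) :
    cm X (U i) (ev (i :: σ)) σ = X (ev σ) σ - X (ev (i :: σ)) (i :: σ) := by
  have : U i (ev (i :: σ)) = ev σ := by
    ext τ; simp [U_apply, ev_apply]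
  simp [cm, this, U_apply]

lemma co_small (y : HS) {ε : ℝ} (hε : 0 < ε) :
    ∀ᶠ L in atTop, ∀ σ : W, L ≤ σ.length → ‖y σ‖ ≤ ε := by
  have h1 := ((lp.memℓp y).summable (by norm_num)).tendsto_cofinite_zero
  have h2 := h1.eventually (gt_mem_nhds (show 0 < ε ^ 2 by positivity))
  rw [eventually_cofinite] at h2
  obtain ⟨N, hN⟩ := (h2.image List.length).bddAbove
  filter_upwards [eventually_gt_atTop N] with L hL σ hσ
  by_contra hc
  have : σ.length ≤ N := hN ⟨σ, ?_, rfl⟩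
  · omega
  · simp only [ENNReal.toReal_ofNat, Real.rpow_ofNat, not_lt, Set.mem_ofPred_eq]
    exact pow_le_pow_left₀ hε.le (not_le.1 hc).le 2

lemma cpt_small {K : BH} (hK : IsCompactOperator K) {ε : ℝ} (hε : 0 < ε) :
    ∃ L, ∀ σ : W, L ≤ σ.length → ∀ ρ, ‖K (ev ρ) σ‖ ≤ ε := by
  obtain ⟨S, hS, hS'⟩ := hK.image_closedBall_subset_compact (f := (K : HS →ₗ[ℂ] HS)) 1
  obtain ⟨t, -, ht, hc⟩ := finite_cover_balls_of_compact hS (show 0 < ε / 2 by positivity)
  obtain ⟨L, hL⟩ := ((eventually_all_finite ht (l := atTop)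
    (p := fun (y : HS) L => ∀ σ : W, L ≤ σ.length → ‖y σ‖ ≤ ε / 2)).2
    fun y _ => co_small y (by positivity)).exists
  refine ⟨L, fun σ hσ ρ => ?_⟩
  have := hc (hS' ⟨ev ρ, by simp [norm_ev], rfl⟩)
  simp only [Set.mem_iUnion, Metric.mem_ball, dist_eq_norm] at this
  obtain ⟨y, hy, h1⟩ := this
  have h2 := co_le (K (ev ρ) - y) σ
  have h3 := hL y hy σ hσ
  have h4 : K (ev ρ) σ = (K (ev ρ) - y) σ + y σ := by simp
  have h5 : ‖K (ev ρ) - y‖ < ε / 2 := h1
  rw [h4]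
  linarith [norm_add_le ((K (ev ρ) - y) σ) (y σ)]

end Pool.Agent.H90.Sat
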