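import Mathlib
import Pool.Agent.H90.SatB

namespace Pool.Agent.H90.Sat

open Filter Topology InnerProductSpace

def WL : ℕ → Finset W
  | 0 => {[]}
  | l + 1 => (Finset.univ ×ˢ WL l).image fun p : Bool × W => p.1 :: p.2

lemma mem_WL {l : ℕ} {σ : W} : σ ∈ WL l ↔ σ.length = l := by
  induction l generalizing σ with
  | zero => simp [WL]
  | succ l ih => cases σ <;> simp [WL, ih]

lemma sum_WL {E : Type} [AddCommMonoid E] (l : ℕ) (F : W → E) :
    ∑ σ ∈ WL (l + 1), F σ = ∑ σ ∈ WL l, (F (false :: σ) + F (true :: σ)) := by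
  rw [WL, Finset.sum_image fun a _ b _ h => Prod.ext (List.cons.inj h).1 (List.cons.inj h).2,
    Finset.sum_product_right]
  simp [add_comm]

lemma card_WL (l : ℕ) : ∑ _σ ∈ WL l, (1 : ℝ) = 2 ^ l := by
  induction l with
  | zero => simp [WL]
  | succ l ih => rw [sum_WL, Finset.sum_add_distrib, ih]; ring

lemma wt_WL (l : ℕ) : ∑ σ ∈ WL l, wt σ = 1 := by
  have : ∀ σ ∈ WL l, wt σ = (1 / 2) ^ l * 1 := fun σ h => by rw [wt, mem_WL.1 h, mul_one]
  rw [Finset.sum_congr rfl this, ← Finset.mul_sum, card_WL, ← mul_pow]; norm_num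

def BL (L : ℕ) : Finset W := (Finset.range L).biUnion WL

lemma mem_BL {L : ℕ} {σ : W} : σ ∈ BL L ↔ σ.length < L := by simp [BL, mem_WL]

lemma sum_BL (L : ℕ) (F : W → ℝ) :
    ∑ σ ∈ BL L, F σ = ∑ l ∈ Finset.range L, ∑ σ ∈ WL l, F σ := by
  refine Finset.sum_biUnion fun a _ b _ hab => ?_
  exact Finset.disjoint_left.2 fun σ h1 h2 => hab ((mem_WL.1 h1).symm.trans (mem_WL.1 h2))

lemma tele {f : W → ℂ} {a : ℂ} {c : ℝ}
    (h : ∀ i s, ∑ σ ∈ s, wt σ * ‖f σ - f (i :: σ)‖ ≤ c)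
    (hl : ∀ ε > 0, ∃ L, ∀ σ : W, L ≤ σ.length → ‖f σ - a‖ ≤ ε) : ‖f [] - a‖ ≤ c := by
  have key : ∀ L, ‖f [] - ∑ σ ∈ WL L, (wt σ : ℂ) * f σ‖ ≤ ∑ l ∈ Finset.range L, ∑ σ ∈ WL l,
      (wt σ * ‖f σ - f (false :: σ)‖ + wt σ * ‖f σ - f (true :: σ)‖) / 2 := by
    intro L
    induction L with
    | zero => simp [WL, wt]
    | succ L ih =>
      rw [Finset.sum_range_succ, sum_WL]
      refine (norm_sub_le_norm_sub_add_norm_sub _ (∑ σ ∈ WL L, (wt σ : ℂ) * f σ) _).trans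
        (add_le_add ih ?_)
      rw [← Finset.sum_sub_distrib]
      refine (norm_sum_le _ _).trans (Finset.sum_le_sum fun σ _ => ?_)
      have e : (wt σ : ℂ) * f σ - (wt (false :: σ) * f (false :: σ) + wt (true :: σ) * f (true :: σ))
          = ((wt σ / 2 : ℝ) : ℂ) * ((f σ - f (false :: σ)) + (f σ - f (true :: σ))) := by
        simp only [wt, List.length_cons, pow_succ]; push_cast; ring
      rw [e, norm_mul, Complex.norm_real, Real.norm_of_nonneg (by linarith [wt_pos σ])]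
      have := norm_add_le (f σ - f (false :: σ)) (f σ - f (true :: σ))
      nlinarith [wt_pos σ]
  refine le_of_forall_pos_le_add fun ε hε => ?_
  obtain ⟨L, hL⟩ := hl ε hε
  have h1 := key L
  rw [← sum_BL, ← Finset.sum_div, Finset.sum_add_distrib] at h1
  have h2 : ‖∑ σ ∈ WL L, (wt σ : ℂ) * f σ - a‖ ≤ ε := by
    have e : a = ∑ σ ∈ WL L, (wt σ : ℂ) * a := by
      rw [← Finset.sum_mul, ← Complex.ofReal_sum, wt_WL]; simp
    rw [e, ← Finset.sum_sub_distrib]
    refine (norm_sum_le _ _).trans ?_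
    rw [← one_mul ε, ← wt_WL L, Finset.sum_mul]
    refine Finset.sum_le_sum fun σ hσ => ?_
    rw [← mul_sub, norm_mul, Complex.norm_real, Real.norm_of_nonneg (wt_pos σ).le]
    exact mul_le_mul_of_nonneg_left (hL σ (mem_WL.1 hσ).ge) (wt_pos σ).le
  have h3 := norm_sub_le_norm_sub_add_norm_sub (f []) (∑ σ ∈ WL L, (wt σ : ℂ) * f σ) a
  linarith [h false (BL L), h true (BL L)]

lemma inj_app (r : W) : Function.Injective fun σ : W => σ ++ r := List.append_left_injective r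

lemma root_le {X : BH} {r : W} {a : ℂ} {c : ℝ} (h : ∀ i, Bd (C (· ++ r) * cm X (U i)) c)
    (hl : ∀ ε > 0, ∃ L, ∀ σ : W, L ≤ σ.length → ‖X (ev (σ ++ r)) (σ ++ r) - a‖ ≤ ε) :
    ‖X (ev r) r - a‖ ≤ c := by
  refine tele (f := fun σ => X (ev (σ ++ r)) (σ ++ r)) (fun i s => ?_) hl
  have hi : Function.Injective fun σ : W => i :: (σ ++ r) :=
    List.cons_injective.comp (inj_app r)
  refine le_trans (le_of_eq ?_)
    (h i 1 (star (C fun σ => i :: (σ ++ r))) n1 (by rw [nst]; exact norm_M _ _) s)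
  refine Finset.sum_congr rfl fun σ _ => ?_
  rw [one_mul, mul_apply_eq_comp, star_C_ev hi, mul_apply_eq_comp, C_apply (inj_app r), cm_ent]
  rfl

noncomputable def Q (L : ℕ) : BH := D fun σ => if σ.length < L then 1 else 0

lemma Bd_Q (L : ℕ) : Bd (Q L) (L + 1) := by
  intro A B hA hB s
  have h1 : ∀ σ, ‖(A * Q L * B) (ev σ) σ‖ ≤ 1 := fun σ => by
    refine (co_le _ _).trans (((A * Q L * B).le_opNorm _).trans ?_)
    rw [norm_ev, mul_one]
    refine (norm_mul_le _ _).trans (mul_le_one₀ ((norm_mul_le _ _).trans ?_) (norm_nonneg _) hB)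
    exact mul_le_one₀ hA (norm_nonneg _) (norm_M _ _)
  have h2 : ∑ σ ∈ s, ‖(A * Q L * B) (ev σ) σ‖ ≤ 2 ^ L := by
    have e : Q L = ∑ ρ ∈ BL L, rankOne ℂ (ev ρ) (ev ρ) := by
      rw [Q, D_eq_sum (fun σ => by split_ifs <;> simp) (BL L) fun σ h => if_neg (mem_BL.not.1 h)]
      exact Finset.sum_congr rfl fun σ h => by simp [mem_BL.1 h]
    have e2 : ∀ σ, ‖(A * Q L * B) (ev σ) σ‖ ≤
        ∑ ρ ∈ BL L, ‖(A * rankOne ℂ (ev ρ) (ev ρ) * B) (ev σ) σ‖ := fun σ => by
      rw [e, Finset.mul_sum, Finset.sum_mul, sum_apply, lp.coeFn_sum, Finset.sum_apply]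
      exact norm_sum_le _ _
    refine (Finset.sum_le_sum fun σ _ => e2 σ).trans ?_
    rw [Finset.sum_comm]
    refine (Finset.sum_le_sum fun ρ _ => sum_rk' hA hB _ _ s).trans ?_
    simp only [norm_ev, mul_one]
    rw [sum_BL]
    simp only [card_WL]
    rw [geom_sum_eq (by norm_num)]; norm_num
  have h3 : ∑ σ ∈ s.filter (· ∈ BL L), wt σ ≤ L := by
    refine (Finset.sum_le_sum_of_subset_of_nonneg (t := BL L) (fun σ h => (Finset.mem_filter.1 h).2)
      fun σ _ _ => (wt_pos σ).le).trans ?_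
    rw [sum_BL]; simp [wt_WL]
  have h4 : ds (A * Q L * B) s ≤ ∑ σ ∈ s, ((if σ ∈ BL L then wt σ else 0) +
      (1 / 2) ^ L * ‖(A * Q L * B) (ev σ) σ‖) := by
    refine Finset.sum_le_sum fun σ _ => ?_
    split_ifs with h
    · have := mul_le_of_le_one_right (wt_pos σ).le (h1 σ)
      have : 0 ≤ (1 / 2) ^ L * ‖(A * Q L * B) (ev σ) σ‖ := by positivity
      linarith
    · rw [zero_add]
      refine mul_le_mul_of_nonneg_right ?_ (norm_nonneg _)
      exact pow_le_pow_of_le_one (by norm_num) (by norm_num) (not_lt.1 (mem_BL.not.1 h))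
  rw [Finset.sum_add_distrib, ← Finset.sum_filter, ← Finset.mul_sum] at h4
  have h5 : (1 / 2 : ℝ) ^ L * 2 ^ L = 1 := by rw [← mul_pow]; norm_num
  have h6 := mul_le_mul_of_nonneg_left h2 (show 0 ≤ (1 / 2 : ℝ) ^ L by positivity)
  linarith

noncomputable def aa (L : ℕ) (σ : W) : ℝ := max 0 (1 - σ.length / (L + 1))

lemma aa0 (L : ℕ) (σ : W) : 0 ≤ aa L σ := le_max_left _ _
lemma aa1 (L : ℕ) (σ : W) : aa L σ ≤ 1 := max_le zero_le_one (by
  have : (0 : ℝ) ≤ σ.length / (L + 1) := by positivity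
  linarith)
lemma aab (L : ℕ) (σ : W) : |aa L σ| ≤ 1 := by rw [abs_of_nonneg (aa0 L σ)]; exact aa1 L σ

lemma aa_eq {L : ℕ} {σ : W} (h : σ.length ≤ L + 1) : aa L σ = 1 - σ.length / (L + 1) := by
  refine max_eq_right ?_
  rw [sub_nonneg, div_le_one (by positivity)]; exact_mod_cast h

lemma aa_zero {L : ℕ} {σ : W} (h : L + 1 ≤ σ.length) : aa L σ = 0 := by
  refine max_eq_left ?_
  rw [sub_nonpos, one_le_div (by positivity)]; exact_mod_cast h

lemma Bd_aa (L : ℕ) (i : Bool) : Bd (cm (D (aa L)) (U i)) 2 := by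
  have e : D (fun σ => aa L σ - aa L (i :: σ)) = (1 / (L + 1) : ℂ) • Q (L + 1) := by
    ext x σ
    rw [D_apply fun σ => abs_le.2 ⟨by linarith [aa0 L σ, aa1 L (i :: σ)],
      by linarith [aa1 L σ, aa0 L (i :: σ)]⟩, smul_apply, lp.coeFn_smul, Pi.smul_apply, Q,
      D_apply fun σ => by split_ifs <;> simp]
    split_ifs with h
    · rw [aa_eq h.le, aa_eq (by simpa using h)]
      simp only [List.length_cons, smul_eq_mul]; push_cast; ring
    · rw [aa_zero (by omega), aa_zero (by simp; omega)]; simp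
  rw [cm_DU (aa0 L) (aa1 L), e, smul_mul_assoc]
  have := ((Bd_Q (L + 1)).con n1 (norm_M (fun _ => 1) (i :: ·))).smul (1 / (L + 1) : ℂ)
  rw [one_mul] at this
  refine this.mono ?_
  have e2 : ‖(1 / (L + 1) : ℂ)‖ = 1 / (L + 1) := by
    rw [norm_div, norm_one]; congr 1; exact_mod_cast Complex.norm_natCast (L + 1)
  rw [e2, div_mul_eq_mul_div, div_le_iff₀ (by positivity)]
  push_cast
  have : (0 : ℝ) ≤ L := by positivity
  linarith

lemma appr_aa : IsAppr fun L => D (aa L) := by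
  refine ⟨fun L => ⟨finRank_iff.2 (D_FR (aab L) (L + 1) fun σ h => aa_zero h),
    D_nonneg (aa0 L) (aa1 L), ?_⟩, fun L L' h => D_le (aa0 L) (fun σ => ?_) (aa1 L'), fun x => ?_⟩
  · rw [← D_one]; exact D_le (aa0 L) (aa1 L) fun _ => le_rfl
  · refine max_le_max le_rfl (sub_le_sub_left ?_ _)
    gcongr
  · have hb : ∀ L σ, |1 - aa L σ| ≤ 1 := fun L σ =>
      abs_le.2 ⟨by linarith [aa1 L σ], by linarith [aa0 L σ]⟩
    have := strong (T := fun L => D fun σ => 1 - aa L σ) (fun L => norm_M _ _) (fun σ => ?_) x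
    · have h2 := (tendsto_const_nhds (x := x)).sub this
      rw [sub_zero] at h2
      refine h2.congr fun L => ?_
      rw [← D_sub (by simp) (aab L) (hb L), D_one]; simp
    · have e : ∀ L, (D fun σ => 1 - aa L σ) (ev σ) = ((1 - aa L σ : ℝ) : ℂ) • ev σ := fun L => by
        ext ρ
        rw [D_apply (hb L), lp.coeFn_smul, Pi.smul_apply, ev_apply]
        split_ifs with h <;> simp [h]
      simp only [e]
      have h1 : Tendsto (fun L : ℕ => (σ.length : ℝ) / (L + 1)) atTop (𝓝 0) :=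
        tendsto_const_nhds.div_atTop (tendsto_natCast_atTop_atTop.atTop_add tendsto_const_nhds)
      have h2 : Tendsto (fun L => 1 - aa L σ) atTop (𝓝 (1 - max 0 (1 - 0))) :=
        tendsto_const_nhds.sub (tendsto_const_nhds.max (tendsto_const_nhds.sub h1))
      have h3 := ((Complex.continuous_ofReal.tendsto _).comp h2).smul_const (ev σ)
      simpa using h3

lemma kk_lt : kk nm τ < ⊤ := by
  obtain ⟨c, φ, hφ, hc⟩ := CompactSpace.tendsto_subseq fun L =>
    ⨆ j, ENNReal.ofReal (nm (comm (D (aa L)) (τ j)))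
  obtain ⟨h1, h2, h3⟩ := appr_aa
  refine lt_of_le_of_lt (sInf_le ⟨fun m => D (aa (φ m)), ⟨fun m => h1 _, h2.comp hφ.monotone,
    fun x => (h3 x).comp hφ.tendsto_atTop⟩, hc⟩) ?_
  refine lt_of_le_of_lt (le_of_tendsto' hc fun m => iSup_le fun j => ?_)
    (ENNReal.ofReal_lt_top (r := 2 + 2))
  exact ENNReal.ofReal_le_ofReal (Bd_τ (star_D (aab _)) (Bd_aa _) j).nm_le

lemma kk_pos : 0 < kk nm τ := by
  refine lt_of_lt_of_le zero_lt_one (le_sInf ?_)
  rintro c ⟨A, ⟨h1, -, h3⟩, hc⟩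
  have h4 : Tendsto (fun m => ENNReal.ofReal ‖A m (ev []) []‖) atTop (𝓝 1) := by
    have h5 := (tendsto_const_nhds (x := ev [])).inner (𝕜 := ℂ) (h3 (ev []))
    simp only [inner_ev, ev_apply, if_true] at h5
    simpa using ENNReal.tendsto_ofReal h5.norm
  refine le_of_tendsto_of_tendsto' h4 hc fun m => ?_
  have hA := finRank_iff.1 (h1 m).1
  obtain ⟨j, hj⟩ := Finite.exists_max fun j => nm (cm (A m) (τ j))
  refine le_iSup_of_le j (ENNReal.ofReal_le_ofReal ?_)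
  have h6 : ∀ k, Bd (cm (A m) (τ k)) (nm (cm (A m) (τ j))) := fun k => by
    refine (II_Bd (FR_II (sub_mem ?_ ?_))).mono (hj k)
    · simpa using FR_mul 1 (τ k) hA
    · simpa using FR_mul (τ k) 1 hA
  have := root_le (X := A m) (r := []) (a := 0) (c := nm (cm (A m) (τ j))) (fun i => ?_)
    fun ε hε => ?_
  · simpa [cm, comm] using this
  · have h7 := (Bd_U h6 i).con (norm_M (fun _ => 1) (· ++ [])) n1
    rwa [mul_one] at h7
  · obtain ⟨L, hL⟩ := cpt_small (FR_cpt hA) hε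
    exact ⟨L, fun σ hσ => by simpa using hL σ hσ σ⟩

end Pool.Agent.H90.Sat
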