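import Mathlib
import Pool.Agent.H90.SatC

namespace Pool.Agent.H90.Sat

open Filter Topology InnerProductSpace

/-- index of the branch containing a word -/
def br : W → Option ℕ
  | [] => none
  | i :: σ => match br σ with
    | some n => some n
    | none => if i then some σ.length else none

def sp (n : ℕ) : W := List.replicate n false
def rt (n : ℕ) : W := true :: sp n

lemma br_sp (n : ℕ) : br (sp n) = none := by
  induction n with
  | zero => rfl
  | succ n ih => rw [sp, List.replicate_succ, br, ← sp, ih]; simp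

lemma br_app (n : ℕ) (σ : W) : br (σ ++ rt n) = some n := by
  induction σ with
  | nil => rw [List.nil_append, rt, br, br_sp]; simp [sp]
  | cons i σ ih => rw [List.cons_append, br, ih]

lemma EE_br {G : Option ℕ → ℝ} (h0 : ∀ o, 0 ≤ G o) (h1 : ∀ o, G o ≤ 1) (hn : G none = 0) (N : ℕ)
    (hN : ∀ n, N ≤ n → G (some n) = 0) : D (fun σ => G (br σ)) ∈ EE II τ := by
  refine EE_of (star_D fun σ => by rw [abs_of_nonneg (h0 _)]; exact h1 _) fun i => ?_
  rw [cm_DU (fun σ => h0 _) fun σ => h1 _]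
  have := FR_mul 1 (U i) (D_FR (w := fun σ => G (br σ) - G (br (i :: σ))) (fun σ =>
    abs_le.2 ⟨by linarith [h0 (br σ), h1 (br (i :: σ))], by linarith [h1 (br σ), h0 (br (i :: σ))]⟩)
    N fun σ hσ => ?_)
  · rwa [one_mul] at this
  · rw [br]
    cases h : br σ with
    | some n => simp
    | none => cases i <;> simp [hn, hN _ hσ]

noncomputable def gp (n : ℕ) (o : Option ℕ) : ℝ := if o = some n then 1 else 0
noncomputable def ee (n : ℕ) : ℝ := if Even n then 1 else 0
noncomputable def gb (N : ℕ) : Option ℕ → ℝ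
  | none => 0
  | some n => if n ≤ N then ee n else 0

lemma ee0 (n : ℕ) : 0 ≤ ee n := by unfold ee; split_ifs <;> simp
lemma ee1 (n : ℕ) : ee n ≤ 1 := by unfold ee; split_ifs <;> simp
lemma gp0 (n : ℕ) (o : Option ℕ) : 0 ≤ gp n o := by unfold gp; split_ifs <;> simp
lemma gp1 (n : ℕ) (o : Option ℕ) : gp n o ≤ 1 := by unfold gp; split_ifs <;> simp
lemma gpb (n : ℕ) (o : Option ℕ) : |gp n o| ≤ 1 := by rw [abs_of_nonneg (gp0 _ _)]; exact gp1 _ _
lemma gb0 (N : ℕ) (o : Option ℕ) : 0 ≤ gb N o := by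
  cases o <;> simp only [gb, le_refl]; split_ifs <;> simp [ee0]
lemma gb1 (N : ℕ) (o : Option ℕ) : gb N o ≤ 1 := by
  cases o <;> simp only [gb, zero_le_one]; split_ifs <;> simp [ee1]
lemma gbb (N : ℕ) (o : Option ℕ) : |gb N o| ≤ 1 := by rw [abs_of_nonneg (gb0 _ _)]; exact gb1 _ _

noncomputable def pp (n : ℕ) : BH := D fun σ => gp n (br σ)
noncomputable def bb (N : ℕ) : BH := D fun σ => gb N (br σ)

lemma pp_EE (n : ℕ) : pp n ∈ EE II τ :=
  EE_br (gp0 n) (gp1 n) (by simp [gp]) (n + 1) fun m hm => by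
    rw [gp, if_neg]; simp; omega

lemma bb_EE (N : ℕ) : bb N ∈ EE II τ :=
  EE_br (gb0 N) (gb1 N) rfl (N + 1) fun m hm => by rw [gb, if_neg]; omega

noncomputable def PP (n : ℕ) : Poly HS := ⟨-((ee n : ℂ) • pp n), [⟨pp n, 0, false, pp n⟩]⟩

lemma PP_eval (n : ℕ) (b : ℕ → BH) :
    (PP n).eval b = pp n * b 0 * pp n - (ee n : ℂ) • pp n := by
  simp [Poly.eval, PP, Mono.eval, sub_eq_neg_add]

lemma PP_in (n : ℕ) : (PP n).In (EE II τ) := by
  refine ⟨fun j => ?_, by simp [PP, pp_EE]⟩
  have := II_smul (-(ee n : ℂ)) (pp_EE n j)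
  have e : (PP n).c * τ j - τ j * (PP n).c = -(ee n : ℂ) • (pp n * τ j - τ j * pp n) := by
    show -((ee n : ℂ) • pp n) * τ j - τ j * -((ee n : ℂ) • pp n) = _
    rw [← neg_smul, smul_mul_assoc, mul_smul_comm, smul_sub]
  rwa [comm, e]

lemma PP_bb {n N : ℕ} (h : n ≤ N) : (PP n).eval (fun _ => bb N) = 0 := by
  rw [PP_eval]
  ext x σ
  simp only [pp, bb, sub_apply, mul_apply_eq_comp, smul_apply, lp.coeFn_sub, lp.coeFn_smul,
    Pi.sub_apply, Pi.smul_apply, D_apply fun σ => gpb n (br σ), D_apply fun σ => gbb N (br σ)]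
  by_cases e : br σ = some n <;> simp [gp, e, gb, h]

lemma ess_le (X : BH) : ess X ≤ ‖X‖ := by
  simpa [ess] using Metric.infDist_le_dist_of_mem (x := X) (y := 0)
    (s := {K : BH | IsCompactOperator K}) isCompactOperator_zero

lemma ess_nonneg (X : BH) : 0 ≤ ess X := Metric.infDist_nonneg

lemma cpt_of_ess {X : BH} (h : ess X = 0) : IsCompactOperator X :=
  (isClosed_setOfPred_isCompactOperator.mem_iff_infDist_zero
    ⟨(0 : BH), isCompactOperator_zero⟩).2 h

lemma tail_FR {R : BH} (hR : R ∈ FR HS) :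
    ∀ ε > 0, ∀ᶠ n in atTop, Bd (C (· ++ rt n) * R) ε := by
  refine FR_ind (p := fun R => ∀ ε > 0, ∀ᶠ n in atTop, Bd (C (· ++ rt n) * R) ε)
    (fun ε hε => .of_forall fun n => by simpa using Bd_zero.mono hε.le) (fun x y ε hε => ?_)
    (fun X Y h1 h2 ε hε => ?_) hR
  · have h1 := strong (T := fun n => C (· ++ rt n)) (fun n => norm_M _ _) (fun σ => ?_) x
    · have h2 := (h1.norm.mul_const ‖y‖).eventually (gt_mem_nhds (show _ < ε by simpa using hε))
      refine h2.mono fun n hn => ?_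
      have := mul_rk (C (· ++ rt n)) 1 x y
      rw [mul_one, star_one] at this
      rw [this]
      exact (Bd_rk _ _).mono hn.le
    · refine tendsto_const_nhds.congr' ((eventually_ge_atTop σ.length).mono fun n hn => ?_)
      ext ρ
      rw [C_apply (inj_app _), ev_apply, if_neg]
      · rfl
      · intro e
        have := congrArg List.length e
        simp [rt, sp] at this
        omega
  · filter_upwards [h1 (ε / 2) (by positivity), h2 (ε / 2) (by positivity)] with n h3 h4
    have := h3.add h4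
    rwa [add_halves, ← mul_add] at this

lemma tail_II {Y : BH} (hY : Y ∈ II) {ε : ℝ} (hε : 0 < ε) :
    ∀ᶠ n in atTop, Bd (C (· ++ rt n) * Y) ε := by
  obtain ⟨R, hR, h1⟩ := hY (ε / 2) (by positivity)
  filter_upwards [tail_FR hR (ε / 2) (by positivity)] with n hn
  have := (h1.con (norm_M (fun _ => 1) (· ++ rt n)) n1).add hn
  rwa [add_halves, mul_one, ← C, ← mul_add, sub_add_cancel] at this

theorem not_sat : ¬ Saturated (EE II τ) := by
  intro h
  obtain ⟨b, hb, h1⟩ := h PP (fun _ => {0}) PP_in (fun _ => isCompact_singleton) fun N hN =>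
    ⟨fun _ => bb N, fun _ => ⟨bb_EE N, (ess_le _).trans (norm_M _ _)⟩, fun k hk =>
      ⟨0, rfl, by
        rw [PP_bb hk, le_antisymm ((ess_le 0).trans_eq norm_zero) (ess_nonneg _)]
        simpa using hN⟩⟩
  set X := b 0
  have hX : X ∈ EE II τ := (hb 0).1
  have h2 : ∀ n, ∀ ε > 0, ∃ L, ∀ σ : W, L ≤ σ.length →
      ‖X (ev (σ ++ rt n)) (σ ++ rt n) - ee n‖ ≤ ε := by
    intro n ε hε
    obtain ⟨L, hL⟩ := cpt_small (cpt_of_ess (h1 n)) hε
    refine ⟨L, fun σ hσ => ?_⟩
    have h3 := hL (σ ++ rt n) (by simp; omega) (σ ++ rt n)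
    have e : pp n (ev (σ ++ rt n)) = ev (σ ++ rt n) := by
      ext ρ
      rw [pp, D_apply fun σ => gpb n (br σ), ev_apply]
      split_ifs with h <;> simp [h, br_app, gp]
    rw [PP_eval] at h3
    simp only [sub_apply, mul_apply_eq_comp, smul_apply, e, lp.coeFn_sub, lp.coeFn_smul,
      Pi.sub_apply, Pi.smul_apply, ev_apply] at h3
    rw [pp, D_apply fun σ => gpb n (br σ)] at h3
    simpa [br_app, gp] using h3
  have h3 : ∀ᶠ n in atTop, ‖X (ev (rt n)) (rt n) - ee n‖ ≤ 1 / 10 := by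
    filter_upwards [tail_II (II_U hX false) (ε := 1 / 10) (by norm_num),
      tail_II (II_U hX true) (ε := 1 / 10) (by norm_num)] with n h4 h5
    exact root_le (fun i => by cases i; exacts [h4, h5]) (h2 n)
  obtain ⟨N, hN⟩ := eventually_atTop.1 h3
  obtain ⟨L0, h4⟩ := cpt_small (II_cpt (II_U hX false)) (ε := 1 / 10) (by norm_num)
  obtain ⟨L1, h5⟩ := cpt_small (II_cpt (II_U hX true)) (ε := 1 / 10) (by norm_num)
  set n := N + L0 + L1
  have a1 := hN n (by omega)
  have a2 := hN (n + 1) (by omega)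
  have a3 := h4 (sp n) (by simp [sp]; omega) (false :: sp n)
  have a4 := h5 (sp n) (by simp [sp]; omega) (true :: sp n)
  have a5 := h5 (sp (n + 1)) (by simp [sp]; omega) (true :: sp (n + 1))
  rw [cm_ent] at a3 a4 a5
  have e1 : false :: sp n = sp (n + 1) := rfl
  rw [e1] at a3
  rw [← rt] at a4 a5
  have a6 : ‖(ee n : ℂ) - ee (n + 1)‖ = 1 := by
    unfold ee
    by_cases he : Even n <;> simp [he, Nat.even_add_one]
  generalize X (ev (rt n)) (rt n) = u at *
  generalize X (ev (rt (n + 1))) (rt (n + 1)) = v at *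
  generalize X (ev (sp n)) (sp n) = s at *
  generalize X (ev (sp (n + 1))) (sp (n + 1)) = t at *
  have e : (ee n : ℂ) - ee (n + 1) =
      (v - ee (n + 1)) - (u - ee n) - (s - u) + (s - t) + (t - v) := by ring
  rw [e] at a6
  have b1 := norm_add_le ((v - ee (n + 1)) - (u - ee n) - (s - u) + (s - t)) (t - v)
  have b2 := norm_add_le ((v - ee (n + 1)) - (u - ee n) - (s - u)) (s - t)
  have b3 := norm_sub_le ((v - ee (n + 1)) - (u - ee n)) (s - u)
  have b4 := norm_sub_le (v - ee (n + 1)) (u - ee n)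
  linarith

lemma sep_HS : TopologicalSpace.SeparableSpace HS := by
  rw [← TopologicalSpace.isSeparable_univ_iff]
  have h1 := ((Set.countable_range ev).isSeparable.span (R := ℂ)).closure
  refine h1.mono fun x _ => ?_
  exact mem_closure_of_tendsto (hasSum_ev x) (.of_forall fun s =>
    Submodule.sum_mem _ fun σ _ => Submodule.smul_mem _ _ (Submodule.subset_span ⟨σ, rfl⟩))

lemma inf_HS : ¬ FiniteDimensional ℂ HS := by
  intro h
  have h1 : Orthonormal ℂ ev := by
    rw [orthonormal_iff_ite]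
    intro i j
    rw [inner_ev, ev_apply]
  have := h1.linearIndependent.finite
  exact not_finite W

end Pool.Agent.H90.Sat
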