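import Mathlib

set_option autoImplicit false

open scoped InnerProductSpace ComplexConjugate Topology
open Filter Finset

namespace Pool.Agent.H90.SchDil

variable {H : Type*} [NormedAddCommGroup H] [InnerProductSpace ℂ H] [CompleteSpace H]
variable (b : HilbertBasis ℕ ℂ H)

/-- Hilbert-Schmidt condition. -/
def HS (a : H →L[ℂ] H) : Prop := Summable fun n => ‖a (b n)‖ ^ 2
/-- Squared Hilbert-Schmidt norm. -/
noncomputable def nn (a : H →L[ℂ] H) : ℝ := ∑' n, ‖a (b n)‖ ^ 2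
/-- Real Hilbert-Schmidt pairing. -/
noncomputable def ip (a c : H →L[ℂ] H) : ℝ := ∑' n, (⟪a (b n), c (b n)⟫_ℂ).re

omit [CompleteSpace H] in
lemma parseval (v : H) : HasSum (fun i => ‖⟪b i, v⟫_ℂ‖ ^ 2) (‖v‖ ^ 2) := by
  have h := Complex.hasSum_re (b.hasSum_inner_mul_inner v v)
  have e1 : (⟪v, v⟫_ℂ).re = ‖v‖ ^ 2 := by
    have := inner_self_eq_norm_sq (𝕜 := ℂ) v
    simpa using this
  rw [e1] at h
  convert h using 2 with i
  rw [← inner_conj_symm v (b i), Complex.conj_mul']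
  norm_cast

omit [CompleteSpace H] in
lemma abs_re_inner_le (u v : H) : |(⟪u, v⟫_ℂ).re| ≤ (‖u‖ ^ 2 + ‖v‖ ^ 2) / 2 := by
  have h1 : |(⟪u, v⟫_ℂ).re| ≤ ‖u‖ * ‖v‖ :=
    (Complex.abs_re_le_norm _).trans (norm_inner_le_norm _ _)
  nlinarith [sq_nonneg (‖u‖ - ‖v‖)]

omit [CompleteSpace H] in
lemma summ_ip {a c : H →L[ℂ] H} (ha : HS b a) (hc : HS b c) :
    Summable fun n => (⟪a (b n), c (b n)⟫_ℂ).re := by
  refine Summable.of_norm_bounded ((ha.add hc).div_const 2) fun n => ?_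
  exact abs_re_inner_le _ _

omit [CompleteSpace H] in
lemma nsq_add (u v : H) : ‖u + v‖ ^ 2 = ‖u‖ ^ 2 + 2 * (⟪u, v⟫_ℂ).re + ‖v‖ ^ 2 := by
  have := norm_add_sq (𝕜 := ℂ) u v
  simpa using this

omit [CompleteSpace H] in
lemma HS.add {a c : H →L[ℂ] H} (ha : HS b a) (hc : HS b c) : HS b (a + c) := by
  have := (Summable.add ha ((summ_ip b ha hc).mul_left 2)).add hc
  refine this.congr fun n => ?_
  simp [nsq_add]

omit [CompleteSpace H] in
lemma HS.smul {a : H →L[ℂ] H} (ha : HS b a) (t : ℂ) : HS b (t • a) := by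
  have := ha.mul_left (‖t‖ ^ 2)
  refine this.congr fun n => ?_
  simp [norm_smul, mul_pow]

omit [CompleteSpace H] in
lemma HS.neg {a : H →L[ℂ] H} (ha : HS b a) : HS b (-a) := by
  simpa using HS.smul b ha (-1)

omit [CompleteSpace H] in
lemma HS.sub {a c : H →L[ℂ] H} (ha : HS b a) (hc : HS b c) : HS b (a - c) := by
  rw [sub_eq_add_neg]; exact HS.add b ha (HS.neg b hc)

omit [CompleteSpace H] in
lemma nn_add {a c : H →L[ℂ] H} (ha : HS b a) (hc : HS b c) :
    nn b (a + c) = nn b a + 2 * ip b a c + nn b c := by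
  unfold nn ip
  rw [← tsum_mul_left, ← Summable.tsum_add ha ((summ_ip b ha hc).mul_left 2),
    ← (Summable.add ha ((summ_ip b ha hc).mul_left 2)).tsum_add hc]
  refine tsum_congr fun n => ?_
  simp [nsq_add]

omit [CompleteSpace H] in
lemma ip_add {a c d : H →L[ℂ] H} (ha : HS b a) (hc : HS b c) (hd : HS b d) :
    ip b a (c + d) = ip b a c + ip b a d := by
  unfold ip
  rw [← (summ_ip b ha hc).tsum_add (summ_ip b ha hd)]
  refine tsum_congr fun n => ?_
  simp

omit [CompleteSpace H] in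
lemma ip_smul (a c : H →L[ℂ] H) (t : ℝ) : ip b a ((t : ℂ) • c) = t * ip b a c := by
  unfold ip
  rw [← tsum_mul_left]
  refine tsum_congr fun n => ?_
  simp only [smul_apply, inner_smul_right, Complex.re_ofReal_mul]

omit [CompleteSpace H] in
lemma nn_smul (a : H →L[ℂ] H) (t : ℂ) : nn b (t • a) = ‖t‖ ^ 2 * nn b a := by
  unfold nn
  rw [← tsum_mul_left]
  refine tsum_congr fun n => ?_
  simp [norm_smul, mul_pow]

omit [CompleteSpace H] in
lemma nn_nonneg (a : H →L[ℂ] H) : 0 ≤ nn b a := tsum_nonneg fun _ => by positivity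

omit [CompleteSpace H] in
lemma eq_zero_of_nn {a : H →L[ℂ] H} (ha : HS b a) (h : nn b a ≤ 0) : a = 0 := by
  have h0 : ∀ n, a (b n) = 0 := by
    intro n
    have := ha.le_tsum n (fun _ _ => by positivity)
    have h2 : ‖a (b n)‖ ^ 2 ≤ 0 := this.trans h
    have : ‖a (b n)‖ = 0 := by nlinarith [norm_nonneg (a (b n))]
    simpa using this
  ext v
  have := (b.hasSum_repr v).mapL a
  simp only [map_smul, h0, smul_zero] at this
  simpa using this.unique hasSum_zero

/-- the entrywise pairing -/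
noncomputable def F (a c : H →L[ℂ] H) (p : ℕ × ℕ) : ℝ :=
  (⟪a (b p.1), b p.2⟫_ℂ * ⟪b p.2, c (b p.1)⟫_ℂ).re

lemma trunc_nonneg {a c : H →L[ℂ] H} (ha : 0 ≤ a) (hc : 0 ≤ c) (n : ℕ) :
    0 ≤ ∑ p ∈ range n ×ˢ range n, F b a c p := by
  obtain ⟨k, rfl⟩ : ∃ k : H →L[ℂ] H, c = star k * k :=
    CStarAlgebra.nonneg_iff_eq_star_mul_self.1 hc
  have hpos := (ContinuousLinearMap.nonneg_iff_isPositive a).1 ha
  have key : HasSum (fun m => ∑ p ∈ range n ×ˢ range n,
      (⟪a (b p.1), b p.2⟫_ℂ * (⟪k (b p.2), b m⟫_ℂ * ⟪b m, k (b p.1)⟫_ℂ)).re)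
      (∑ p ∈ range n ×ˢ range n, F b a (star k * k) p) := by
    refine hasSum_sum fun p _ => ?_
    have h1 := (b.hasSum_inner_mul_inner (k (b p.2)) (k (b p.1))).mul_left
      ⟪a (b p.1), b p.2⟫_ℂ
    have h2 := Complex.hasSum_re h1
    convert h2 using 2
    simp [F, ContinuousLinearMap.star_eq_adjoint, ContinuousLinearMap.adjoint_inner_right]
  refine key.nonneg fun m => ?_
  have h := hpos.re_inner_nonneg_left (∑ i ∈ range n, ⟪k (b i), b m⟫_ℂ • b i)
  rw [map_sum, sum_inner] at h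
  simp only [inner_sum, map_smul, inner_smul_left, inner_smul_right, inner_conj_symm] at h
  rw [sum_product]
  simp only [RCLike.re_to_complex, Complex.re_sum] at h
  refine h.trans_eq (sum_congr rfl fun j _ => sum_congr rfl fun i _ => ?_)
  congr 1; ring

lemma tend_sq : Tendsto (fun n : ℕ => range n ×ˢ range n) atTop atTop := by
  refine tendsto_atTop_finset_of_monotone (fun m n h => ?_) fun p => ?_
  · exact product_subset_product (range_mono h) (range_mono h)
  · exact ⟨max p.1 p.2 + 1, by simp⟩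

omit [CompleteSpace H] in
lemma F_self (a : H →L[ℂ] H) (p : ℕ × ℕ) : F b a a p = ‖⟪b p.2, a (b p.1)⟫_ℂ‖ ^ 2 := by
  unfold F
  rw [← inner_conj_symm (a (b p.1)) (b p.2), Complex.conj_mul']
  norm_cast

omit [CompleteSpace H] in
lemma F_le (a c : H →L[ℂ] H) (p : ℕ × ℕ) : |F b a c p| ≤ (F b a a p + F b c c p) / 2 := by
  rw [F_self, F_self]
  unfold F
  refine (Complex.abs_re_le_norm _).trans ?_
  rw [norm_mul, norm_inner_symm]
  nlinarith [sq_nonneg (‖⟪b p.2, a (b p.1)⟫_ℂ‖ - ‖⟪b p.2, c (b p.1)⟫_ℂ‖)]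

omit [CompleteSpace H] in
lemma hs_iff (a : H →L[ℂ] H) : HS b a ↔ Summable (F b a a) := by
  rw [summable_prod_of_nonneg (fun p => by rw [F_self]; positivity)]
  simp only [F_self]
  simp only [(parseval b _).tsum_eq, (parseval b _).summable, implies_true, true_and]
  rfl

omit [CompleteSpace H] in
lemma hasSum_F {a c : H →L[ℂ] H} (ha : HS b a) (hc : HS b c) :
    HasSum (F b a c) (ip b a c) := by
  have hs : Summable (F b a c) :=
    Summable.of_norm_bounded ((((hs_iff b a).1 ha).add ((hs_iff b c).1 hc)).div_const 2)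
      (F_le b a c)
  convert hs.hasSum using 1
  rw [hs.tsum_prod]
  refine tsum_congr fun j => ?_
  exact (Complex.hasSum_re (b.hasSum_inner_mul_inner (a (b j)) (c (b j)))).tsum_eq.symm

lemma ip_nonneg {a c : H →L[ℂ] H} (ha : 0 ≤ a) (hc : 0 ≤ c) (h1 : HS b a) (h2 : HS b c) :
    0 ≤ ip b a c :=
  ge_of_tendsto' (Tendsto.comp (hasSum_F b h1 h2) tend_sq) fun n => trunc_nonneg b ha hc n

lemma HS.mono {a c : H →L[ℂ] H} (ha : 0 ≤ a) (hac : a ≤ c) (h2 : HS b c) : HS b a := by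
  rw [hs_iff] at h2 ⊢
  have hc : 0 ≤ c := ha.trans hac
  refine summable_of_sum_le (c := ∑' p, F b c c p) (fun p => by rw [F_self]; positivity) ?_
  intro u
  obtain ⟨n, hn⟩ := (tend_sq.eventually (eventually_ge_atTop u)).exists
  have h3 := trunc_nonneg b ha (sub_nonneg.2 hac) n
  have h4 := trunc_nonneg b (sub_nonneg.2 hac) hc n
  have e3 : ∀ p, F b a (c - a) p = F b a c p - F b a a p := by
    intro p; simp [F, mul_sub]
  have e4 : ∀ p, F b (c - a) c p = F b c c p - F b a c p := by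
    intro p; simp [F, sub_mul]
  simp only [e3, e4, sum_sub_distrib] at h3 h4
  calc ∑ p ∈ u, F b a a p ≤ ∑ p ∈ range n ×ˢ range n, F b a a p :=
        sum_le_sum_of_subset_of_nonneg hn fun p _ _ => by rw [F_self]; positivity
    _ ≤ ∑ p ∈ range n ×ˢ range n, F b c c p := by linarith
    _ ≤ _ := h2.sum_le_tsum _ fun p _ => by rw [F_self]; positivity

end Pool.Agent.H90.SchDil
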