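import Mathlib
import Pool.Agent.H90.SchDilA

set_option autoImplicit false

open scoped InnerProductSpace ComplexConjugate Topology
open Filter Finset InnerProductSpace

namespace Pool.Agent.H90.SchDil

variable {H : Type*} [NormedAddCommGroup H] [InnerProductSpace ℂ H] [CompleteSpace H]
variable (b : HilbertBasis ℕ ℂ H)

/-- membership in the Schatten class of order four -/
def S4 (x : H →L[ℂ] H) : Prop := HS b (star x * x)
/-- fourth power of the Schatten norm of order four -/
noncomputable def q4 (x : H →L[ℂ] H) : ℝ := nn b (star x * x)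

lemma nsq_eq (x : H →L[ℂ] H) (v : H) : ‖x v‖ ^ 2 = (⟪(star x * x) v, v⟫_ℂ).re := by
  have := inner_self_eq_norm_sq (𝕜 := ℂ) (x v)
  simp only [ContinuousLinearMap.star_eq_adjoint, mul_apply_eq_comp,
    ContinuousLinearMap.adjoint_inner_left]
  simpa using this.symm

lemma norm_eq_of {x y : H →L[ℂ] H} (h : star x * x = star y * y) (v : H) : ‖x v‖ = ‖y v‖ := by
  have : ‖x v‖ ^ 2 = ‖y v‖ ^ 2 := by rw [nsq_eq, nsq_eq, h]
  exact (sq_eq_sq₀ (norm_nonneg _) (norm_nonneg _)).1 this

lemma S4.add {x y : H →L[ℂ] H} (hx : S4 b x) (hy : S4 b y) : S4 b (x + y) := by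
  have h2 := HS.add b (HS.add b hx hy) (HS.add b hx hy)
  refine HS.mono b (star_mul_self_nonneg _) ?_ h2
  rw [← sub_nonneg]
  convert star_mul_self_nonneg (x - y) using 1
  simp only [star_add, star_sub]; noncomm_ring

lemma star_smul_mul (x : H →L[ℂ] H) (t : ℂ) :
    star (t • x) * (t • x) = ((‖t‖ ^ 2 : ℝ) : ℂ) • (star x * x) := by
  rw [star_smul, smul_mul_smul_comm]
  congr 1
  rw [Complex.star_def, Complex.conj_mul']; norm_cast

lemma S4.smul {x : H →L[ℂ] H} (hx : S4 b x) (t : ℂ) : S4 b (t • x) := by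
  unfold S4; rw [star_smul_mul]; exact HS.smul b hx _

lemma q4_smul (x : H →L[ℂ] H) (t : ℂ) : q4 b (t • x) = ‖t‖ ^ 4 * q4 b x := by
  unfold q4; rw [star_smul_mul, nn_smul]; simp; left; ring

lemma S4.sub {x y : H →L[ℂ] H} (hx : S4 b x) (hy : S4 b y) : S4 b (x - y) := by
  have := S4.add b hx (S4.smul b hy (-1))
  simpa [sub_eq_add_neg] using this

lemma mul_star_eq_zero {x y : H →L[ℂ] H} (hx : S4 b x) (hy : S4 b y)
    (h : ip b (star x * x) (star y * y) ≤ 0) : x * star y = 0 := by
  have key : ∀ v : H, ‖v‖ ≤ 1 → x (star y v) = 0 := by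
    intro v hv
    set w := star y v with hw
    have hR : (0 : H →L[ℂ] H) ≤ rankOne ℂ w w :=
      (ContinuousLinearMap.nonneg_iff_isPositive _).2 (isPositive_rankOne_self w)
    have hle : rankOne ℂ w w ≤ star y * y := by
      rw [ContinuousLinearMap.le_def]
      have p1 := (ContinuousLinearMap.nonneg_iff_isPositive _).1 hR
      have p2 := (ContinuousLinearMap.nonneg_iff_isPositive _).1 (star_mul_self_nonneg y)
      refine ⟨p2.1.sub p1.1, fun z => ?_⟩
      have e1 : ⟪w, z⟫_ℂ = ⟪v, y z⟫_ℂ := by
        simp [hw, ContinuousLinearMap.star_eq_adjoint, ContinuousLinearMap.adjoint_inner_left]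
      have e2 := nsq_eq y z
      have e3 : ‖⟪v, y z⟫_ℂ‖ ≤ ‖y z‖ :=
        (norm_inner_le_norm _ _).trans (mul_le_of_le_one_left (norm_nonneg _) hv)
      have e4 : (⟪(rankOne ℂ w w) z, z⟫_ℂ).re = ‖⟪v, y z⟫_ℂ‖ ^ 2 := by
        rw [rankOne_apply, inner_smul_left, e1, Complex.conj_mul']; norm_cast
      have e5 : ‖⟪v, y z⟫_ℂ‖ ^ 2 ≤ ‖y z‖ ^ 2 := by gcongr
      simp only [ContinuousLinearMap.reApplyInnerSelf, sub_apply, inner_sub_left, map_sub,
        RCLike.re_to_complex]
      linarith
    have hsR : HS b (rankOne ℂ w w) := HS.mono b hR hle hy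
    have h1 := ip_nonneg b (star_mul_self_nonneg x) (sub_nonneg.2 hle) hx (HS.sub b hy hsR)
    have h2 := ip_add b hx (HS.sub b hy hsR) hsR
    rw [sub_add_cancel] at h2
    have h3 : ip b (star x * x) (rankOne ℂ w w) = ‖x w‖ ^ 2 := by
      have := Complex.hasSum_re (b.hasSum_inner_mul_inner w ((star x * x) w))
      rw [nsq_eq, ← inner_conj_symm, Complex.conj_re, ← this.tsum_eq]
      refine tsum_congr fun n => ?_
      rw [rankOne_apply, inner_smul_right]
      simp [ContinuousLinearMap.star_eq_adjoint, ContinuousLinearMap.adjoint_inner_left,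
        ContinuousLinearMap.adjoint_inner_right]
    have : ‖x w‖ = 0 := by nlinarith [norm_nonneg (x w)]
    simpa using this
  ext v
  have := key (((‖v‖ + 1)⁻¹ : ℝ) • v) (by
    rw [norm_smul, Real.norm_eq_abs, abs_of_pos (by positivity), inv_mul_le_iff₀ (by positivity)]
    linarith)
  rw [ContinuousLinearMap.map_smul_of_tower, ContinuousLinearMap.map_smul_of_tower,
    smul_eq_zero] at this
  rcases this with h | h
  · exact absurd h (by positivity)
  · simpa using h

lemma disj1 {h k : H →L[ℂ] H} (hh : S4 b h) (hk : S4 b k)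
    (e : q4 b (h + k) + q4 b (h - k) ≤ 2 * q4 b h + 2 * q4 b k) :
    h * star k = 0 ∧ star h * k + star k * h = 0 := by
  set B := star h * k + star k * h with hB
  have e1 : star (h + k) * (h + k) = (star h * h + star k * k) + B := by
    simp only [star_add, hB]; noncomm_ring
  have e2 : star (h - k) * (h - k) = (star h * h + star k * k) + ((-1 : ℝ) : ℂ) • B := by
    simp only [star_sub, hB]; simp; noncomm_ring
  have hX := HS.add b hh hk
  have hBs : HS b B := by
    have := HS.sub b (S4.add b hh hk) hX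
    rwa [e1, add_sub_cancel_left] at this
  unfold q4 at e
  rw [e1, e2, nn_add b hX hBs, nn_add b hX (HS.smul b hBs _), ip_smul, nn_smul,
    nn_add b hh hk] at e
  have p1 := ip_nonneg b (star_mul_self_nonneg h) (star_mul_self_nonneg k) hh hk
  have p2 := nn_nonneg b B
  simp at e
  exact ⟨mul_star_eq_zero b hh hk (by linarith), eq_zero_of_nn b hBs (by linarith)⟩

lemma disj {h k : H →L[ℂ] H} (hh : S4 b h) (hk : S4 b k)
    (e : ∀ t : ℂ, ‖t‖ = 1 → q4 b (h + t • k) ≤ q4 b h + q4 b k) :
    h * star k = 0 ∧ star h * k = 0 := by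
  have a1 := disj1 b hh hk (by
    have u1 := e 1 (by simp)
    have u2 := e (-1) (by simp)
    simp only [one_smul, neg_smul, ← sub_eq_add_neg] at u1 u2
    linarith)
  have a2 := disj1 b hh (S4.smul b hk Complex.I) (by
    have u1 := e Complex.I (by simp)
    have u2 := e (-Complex.I) (by simp)
    simp only [neg_smul, ← sub_eq_add_neg] at u1 u2
    rw [q4_smul]; simp; linarith)
  refine ⟨a1.1, ?_⟩
  have a3 : star h * k - star k * h = 0 := by
    have := a2.2
    rw [star_smul, mul_smul_comm, smul_mul_assoc, Complex.star_def, Complex.conj_I, neg_smul,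
      ← sub_eq_add_neg, ← smul_sub, smul_eq_zero] at this
    exact this.resolve_left Complex.I_ne_zero
  have a4 : (2 : ℂ) • (star h * k) = 0 := by
    rw [two_smul]
    calc _ = (star h * k + star k * h) + (star h * k - star k * h) := by abel
      _ = 0 := by rw [a1.2, a3, add_zero]
  simpa using a4

lemma strict {f d : H →L[ℂ] H} (hf : S4 b f) (hd : S4 b d)
    (h1 : ∀ t : ℝ, q4 b f ≤ q4 b (f + (t : ℂ) • d)) (h2 : q4 b (f + d) ≤ q4 b f) : d = 0 := by
  set A := star f * f with hA
  set C := star f * d + star d * f with hC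
  set D := star d * d with hD
  have e1 : ∀ t : ℝ, star (f + (t : ℂ) • d) * (f + (t : ℂ) • d)
      = A + (t : ℂ) • (C + (t : ℂ) • D) := by
    intro t
    simp only [star_add, star_smul, Complex.star_def, Complex.conj_ofReal, hA, hC, hD, add_mul,
      mul_add, smul_add, mul_smul_comm, smul_mul_assoc]
    abel
  have hCs : HS b C := by
    have := HS.sub b (HS.sub b (S4.add b hf (S4.smul b hd ((1 : ℝ) : ℂ))) hf) hd
    rw [e1, ← hA, ← hD] at this
    convert this using 1
    simp
  have e2 : ∀ t : ℝ, q4 b (f + (t : ℂ) • d) = nn b A + 2 * (t * (ip b A C + t * ip b A D))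
      + t ^ 2 * (nn b C + 2 * (t * ip b C D) + t ^ 2 * nn b D) := by
    intro t
    unfold q4
    rw [e1, nn_add b hf (HS.smul b (HS.add b hCs (HS.smul b hd _)) _), ip_smul, nn_smul,
      ip_add b hf hCs (HS.smul b hd _), ip_smul, nn_add b hCs (HS.smul b hd _), ip_smul, nn_smul]
    simp [hA, hD]
  have z : ip b A C = 0 := by
    have hm : IsLocalMin (fun t : ℝ => nn b A + 2 * (t * (ip b A C + t * ip b A D))
      + t ^ 2 * (nn b C + 2 * (t * ip b C D) + t ^ 2 * nn b D)) 0 := by
      refine Eventually.of_forall fun t => ?_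
      have := h1 t
      rw [e2] at this
      simpa [q4] using this
    have hder : HasDerivAt (fun t : ℝ => nn b A + 2 * (t * (ip b A C + t * ip b A D))
      + t ^ 2 * (nn b C + 2 * (t * ip b C D) + t ^ 2 * nn b D)) (2 * ip b A C) 0 := by
      have i := hasDerivAt_id (0 : ℝ)
      have := ((hasDerivAt_const (0 : ℝ) (nn b A)).add (((i.mul ((i.mul_const (ip b A D)).const_add
        (ip b A C)))).const_mul 2)).add ((i.pow 2).mul ((((i.mul_const (ip b C D)).const_mul
          2).const_add (nn b C)).add ((i.pow 2).mul_const (nn b D))))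
      refine HasDerivAt.congr_deriv (this.congr_of_eventuallyEq ?_) (by simp)
      exact Eventually.of_forall fun t => by simp
    have := hm.hasDerivAt_eq_zero hder
    linarith
  have e3 := e2 1
  have e4 := nn_add b hCs hd
  simp only [Complex.ofReal_one, one_smul] at e3
  have p1 := ip_nonneg b (star_mul_self_nonneg f) (star_mul_self_nonneg d) hf hd
  have p2 := nn_nonneg b (C + D)
  have h2' : q4 b (f + d) ≤ nn b A := h2
  have u1 : f * star d = 0 := mul_star_eq_zero b hf hd (by nlinarith)
  have u2 : C + D = 0 := eq_zero_of_nn b (HS.add b hCs hd) (by nlinarith)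
  have u3 : d * star f = 0 := by simpa using congrArg star u1
  have u4 : star (d * star d) * (d * star d) = 0 := by
    have : d * (C + D) * star d = 0 := by rw [u2]; simp
    rw [← this]
    simp only [hC, hD, star_mul, star_star, mul_add, add_mul, ← mul_assoc, u3]
    simp only [mul_assoc, u1]
    simp
  rw [CStarRing.star_mul_self_eq_zero_iff, CStarRing.mul_star_self_eq_zero_iff] at u4
  exact u4

end Pool.Agent.H90.SchDil
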