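import Mathlib
import Pool.Agent.H90.SchDilB

set_option autoImplicit false

open scoped InnerProductSpace ComplexConjugate Topology
open Filter Finset InnerProductSpace

namespace Pool.Agent.H90.SchDil

variable {H : Type*} [NormedAddCommGroup H] [InnerProductSpace ℂ H] [CompleteSpace H]
variable (b : HilbertBasis ℕ ℂ H)

lemma compact_core {A : H →L[ℂ] H} (hA : HS b A) (c : ℕ → H →L[ℂ] H)
    (hs : ∀ n, star (c n) = c n) (hn : ∀ n v, ‖c n v‖ = ‖A v‖) {δ : ℝ} (hδ : 0 < δ) :
    ∃ n m, n < m ∧ nn b (c m - c n) < δ := by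
  let z : ℕ → (ℕ × ℕ → ℂ) := fun n p => ⟪b p.2, c n (b p.1)⟫_ℂ
  have hz : ∀ n, z n ∈ Set.pi Set.univ (fun p : ℕ × ℕ => Metric.closedBall (0 : ℂ) ‖A (b p.1)‖) := by
    intro n p _
    simp only [z, mem_closedBall_zero_iff]
    refine (norm_inner_le_norm _ _).trans ?_
    rw [b.orthonormal.1, one_mul, hn]
  obtain ⟨a, -, φ, hφ, ht⟩ :=
    (isCompact_univ_pi fun p : ℕ × ℕ => isCompact_closedBall (0 : ℂ) ‖A (b p.1)‖).tendsto_subseq hz
  have hent : ∀ j i, Tendsto (fun n => ‖⟪b i, (c (φ (n + 1)) - c (φ n)) (b j)⟫_ℂ‖ ^ 2) atTop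
      (𝓝 0) := by
    intro j i
    have h1 := tendsto_pi_nhds.1 ht (j, i)
    have h2 := ((h1.comp (tendsto_add_atTop_nat 1)).sub h1).norm.pow 2
    simpa [z, inner_sub_right] using h2
  have hb : ∀ n v, ‖(c (φ (n + 1)) - c (φ n)) v‖ ^ 2 ≤ 4 * ‖A v‖ ^ 2 := by
    intro n v
    have : ‖(c (φ (n + 1)) - c (φ n)) v‖ ≤ 2 * ‖A v‖ := by
      rw [sub_apply]
      refine (norm_sub_le _ _).trans ?_
      rw [hn, hn]; linarith
    nlinarith [norm_nonneg ((c (φ (n + 1)) - c (φ n)) v)]
  have hcol : ∀ j, Tendsto (fun n => ‖(c (φ (n + 1)) - c (φ n)) (b j)‖ ^ 2) atTop (𝓝 0) := by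
    intro j
    have := tendsto_tsum_of_dominated_convergence (𝓕 := atTop) (Summable.mul_left 4 hA) (hent j)
      (Eventually.of_forall fun n i => by
        rw [Real.norm_of_nonneg (by positivity)]
        refine le_trans ?_ (hb n (b i))
        have e : ⟪b i, (c (φ (n + 1)) - c (φ n)) (b j)⟫_ℂ
            = ⟪(c (φ (n + 1)) - c (φ n)) (b i), b j⟫_ℂ := by
          rw [← ContinuousLinearMap.adjoint_inner_left, ← ContinuousLinearMap.star_eq_adjoint,
            star_sub, hs, hs]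
        rw [e]
        gcongr
        refine (norm_inner_le_norm _ _).trans ?_
        rw [b.orthonormal.1, mul_one])
    simpa only [(parseval b _).tsum_eq, tsum_zero] using this
  have hall := tendsto_tsum_of_dominated_convergence (𝓕 := atTop) (Summable.mul_left 4 hA) hcol
    (Eventually.of_forall fun n j => by
      rw [Real.norm_of_nonneg (by positivity)]; exact hb n _)
  rw [tsum_zero] at hall
  obtain ⟨n, hn⟩ := (hall.eventually (gt_mem_nhds hδ)).exists
  exact ⟨φ n, φ (n + 1), hφ (Nat.lt_succ_self n), hn⟩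

lemma compact {f : H →L[ℂ] H} (hf : S4 b f) (h k : ℕ → H →L[ℂ] H)
    (h1 : ∀ n, h n + k n = f) (h2 : ∀ n, h n * star (k n) = 0) (h3 : ∀ n, star (h n) * k n = 0)
    {δ : ℝ} (hδ : 0 < δ) : ∃ n m, n < m ∧ q4 b ((h m - k m) - (h n - k n)) < δ := by
  have h2' : ∀ n, k n * star (h n) = 0 := fun n => by simpa using congrArg star (h2 n)
  have h3' : ∀ n, star (k n) * h n = 0 := fun n => by simpa using congrArg star (h3 n)
  have ec : ∀ n, star f * (h n - k n) = star (h n) * h n - star (k n) * k n := by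
    intro n
    rw [← h1 n]
    simp only [star_add, add_mul, mul_sub, h3, h3']
    abel
  have eA : ∀ n, star f * f = star (h n) * h n + star (k n) * k n := by
    intro n
    rw [← h1 n]
    simp only [star_add, add_mul, mul_add, h3, h3']
    abel
  have hn : ∀ n v, ‖(star f * (h n - k n)) v‖ = ‖(star f * f) v‖ := by
    intro n v
    apply norm_eq_of
    rw [ec n, eA n]
    have z1 : star (h n) * h n * (star (k n) * k n) = 0 := by
      rw [mul_assoc, ← mul_assoc (h n), h2]; simp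
    have z2 : star (k n) * k n * (star (h n) * h n) = 0 := by
      rw [mul_assoc, ← mul_assoc (k n), h2']; simp
    simp only [star_add, star_sub, star_mul, star_star, add_mul, mul_add, sub_mul, mul_sub, z1, z2]
    abel
  obtain ⟨n, m, hnm, hlt⟩ := compact_core b hf (fun n => star f * (h n - k n))
    (fun n => by rw [ec n]; simp) hn (δ := δ / 4) (by positivity)
  refine ⟨n, m, hnm, ?_⟩
  have hg : ∀ n w, ‖star (h n - k n) w‖ = ‖star f w‖ := by
    intro n w
    apply norm_eq_of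
    rw [← h1 n]
    simp only [star_add, star_sub, star_star, add_mul, mul_add, sub_mul, mul_sub, h2, h2']
    abel
  set d := (h m - k m) - (h n - k n) with hd
  have hHS : HS b (star f * (h m - k m) - star f * (h n - k n)) :=
    HS.sub b (by unfold HS; simp only [hn]; exact hf) (by unfold HS; simp only [hn]; exact hf)
  have hpt : ∀ j, ‖(star d * d) (b j)‖ ^ 2
      ≤ 4 * ‖(star f * (h m - k m) - star f * (h n - k n)) (b j)‖ ^ 2 := by
    intro j
    rw [← mul_sub, ← hd]
    have : ‖(star d * d) (b j)‖ ≤ 2 * ‖(star f * d) (b j)‖ := by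
      simp only [mul_apply_eq_comp]
      generalize d (b j) = w
      rw [hd, star_sub, sub_apply]
      refine (norm_sub_le _ _).trans ?_
      rw [hg, hg]; linarith
    nlinarith [norm_nonneg ((star d * d) (b j))]
  have hsum := Summable.mul_left 4 hHS
  calc q4 b d ≤ ∑' j, 4 * ‖(star f * (h m - k m) - star f * (h n - k n)) (b j)‖ ^ 2 :=
        Summable.tsum_le_tsum hpt (Summable.of_nonneg_of_le (fun _ => by positivity) hpt hsum) hsum
    _ = 4 * nn b (star f * (h m - k m) - star f * (h n - k n)) := tsum_mul_left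
    _ < δ := by linarith

theorem no_dil (T J P U : (H →L[ℂ] H) →ₗ[ℂ] (H →L[ℂ] H)) (e0 e1 : H →L[ℂ] H)
    (s0 : S4 b e0) (s1 : S4 b e1)
    (he : ∀ t : ℂ, ‖t‖ = 1 → q4 b (e0 + t • e1) ≤ q4 b e0 + q4 b e1)
    (hpos : 0 < q4 b (e0 - e1)) (hT1 : T (e0 + e1) = e0 + e1) (hT2 : T (e0 - e1) = 0)
    (hJ : ∀ x, S4 b x → S4 b (J x) ∧ q4 b (J x) = q4 b x)
    (hP : ∀ x, S4 b x → q4 b (P x) ≤ q4 b x)
    (hU : ∀ x, S4 b x → S4 b (U x) ∧ q4 b (U x) = q4 b x)
    (hd : ∀ n : ℕ, ∀ x, S4 b x → P ((U ^ n) (J x)) = J ((T ^ n) x)) : False := by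
  have hUn : ∀ (n : ℕ) x, S4 b x → S4 b ((U ^ n) x) ∧ q4 b ((U ^ n) x) = q4 b x := by
    intro n
    induction n with
    | zero => intro x hx; simpa using hx
    | succ n ih =>
      intro x hx
      rw [pow_succ', Module.End.mul_apply]
      exact ⟨(hU _ (ih x hx).1).1, by rw [(hU _ (ih x hx).1).2, (ih x hx).2]⟩
  have sf := (hJ _ (S4.add b s0 s1)).1
  have sg := (hJ _ (S4.sub b s0 s1)).1
  set f := J (e0 + e1) with hf
  have pf : P f = f := by simpa only [pow_zero, Module.End.one_apply] using hd 0 _ (S4.add b s0 s1)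
  have pUf : P (U f) = f := by simpa only [pow_one, hT1] using hd 1 _ (S4.add b s0 s1)
  have hfix : U f = f := by
    have sd := S4.sub b (hU f sf).1 sf
    rw [← sub_eq_zero]
    refine strict b sf sd (fun t => ?_) (by simp [(hU f sf).2])
    have := hP _ (S4.add b sf (S4.smul b sd (t : ℂ)))
    simpa [pf, pUf] using this
  have hfixn : ∀ n : ℕ, (U ^ n) f = f := by
    intro n
    induction n with
    | zero => simp
    | succ n ih => rw [pow_succ', Module.End.mul_apply, ih, hfix]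
  have hdis : ∀ n : ℕ, (U ^ n) (J e0) * star ((U ^ n) (J e1)) = 0 ∧
      star ((U ^ n) (J e0)) * (U ^ n) (J e1) = 0 := by
    intro n
    refine disj b (hUn n _ (hJ _ s0).1).1 (hUn n _ (hJ _ s1).1).1 fun t ht => ?_
    have st := S4.add b s0 (S4.smul b s1 t)
    rw [← map_smul, ← map_smul, ← map_add, ← map_add, (hUn n _ (hJ _ st).1).2, (hJ _ st).2,
      (hUn n _ (hJ _ s0).1).2, (hUn n _ (hJ _ s1).1).2, (hJ _ s0).2, (hJ _ s1).2]
    exact he t ht
  obtain ⟨n, m, hnm, hlt⟩ := compact b sf (fun n => (U ^ n) (J e0)) (fun n => (U ^ n) (J e1))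
    (fun n => by rw [← map_add, ← map_add, hfixn]) (fun n => (hdis n).1) (fun n => (hdis n).2) hpos
  obtain ⟨r, rfl⟩ := Nat.exists_eq_add_of_lt hnm
  simp only [← map_sub] at hlt
  have sr := S4.sub b (hUn (r + 1) _ sg).1 sg
  rw [add_assoc, pow_add, Module.End.mul_apply, ← map_sub, (hUn n _ sr).2] at hlt
  have h5 := hP _ sr
  have p0 : P (J (e0 - e1)) = J (e0 - e1) := by simpa using hd 0 _ (S4.sub b s0 s1)
  rw [map_sub, hd (r + 1) _ (S4.sub b s0 s1), p0, pow_succ, Module.End.mul_apply, hT2, map_zero,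
    map_zero, zero_sub, ← neg_one_smul ℂ, q4_smul, (hJ _ (S4.sub b s0 s1)).2] at h5
  simp only [norm_neg, norm_one, one_pow, one_mul] at h5
  linarith

end Pool.Agent.H90.SchDil
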