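import Mathlib
import Pool.Agent.H90.SchDilC

set_option autoImplicit false

open scoped InnerProductSpace ComplexConjugate Topology NNReal ENNReal
open Filter Finset InnerProductSpace

namespace Pool.Agent.H90.SchDil

variable {H : Type*} [NormedAddCommGroup H] [InnerProductSpace ℂ H] [CompleteSpace H]
variable (b : HilbertBasis ℕ ℂ H)

/-- the Schatten functional of the statement -/
noncomputable def QQ (r : ℝ) (x : H →L[ℂ] H) : ℝ≥0∞ :=
  ∑' n : ℕ, ENNReal.ofReal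
    (inner ℂ (b n) ((cfc (fun t : ℝ => t ^ (r / 2)) (star x * x)) (b n))).re

lemma QQ4 (x : H →L[ℂ] H) : QQ b 4 x = ∑' n, ENNReal.ofReal (‖(star x * x) (b n)‖ ^ 2) := by
  unfold QQ
  have hs : IsSelfAdjoint (star x * x) := IsSelfAdjoint.star_mul_self x
  have e : cfc (fun t : ℝ => t ^ ((4 : ℝ) / 2)) (star x * x) = star (star x * x) * (star x * x) := by
    have : (fun t : ℝ => t ^ ((4 : ℝ) / 2)) = fun t : ℝ => t ^ 2 := by
      ext t; rw [show (4 : ℝ) / 2 = 2 by norm_num, Real.rpow_two]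
    rw [this, cfc_pow_id (R := ℝ) (star x * x) 2, hs.star_eq, sq]
  rw [e]
  refine tsum_congr fun n => ?_
  rw [nsq_eq, ← inner_conj_symm, Complex.conj_re]

lemma QQ4_eq {x : H →L[ℂ] H} (hx : S4 b x) : QQ b 4 x = ENNReal.ofReal (q4 b x) := by
  rw [QQ4, ← ENNReal.ofReal_tsum_of_nonneg (fun _ => by positivity) hx]; rfl

lemma QQ4_lt (x : H →L[ℂ] H) : QQ b 4 x < ⊤ ↔ S4 b x := by
  refine ⟨fun h => ?_, fun h => by rw [QQ4_eq b h]; exact ENNReal.ofReal_lt_top⟩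
  rw [QQ4] at h
  have := ENNReal.summable_toReal h.ne
  refine this.congr fun n => ?_
  rw [ENNReal.toReal_ofReal (by positivity)]

lemma q4_nonneg (x : H →L[ℂ] H) : 0 ≤ q4 b x := nn_nonneg b _

/-- the modulus -/
noncomputable def md (x : H →L[ℂ] H) : H →L[ℂ] H :=
  cfc (fun t : ℝ => t ^ ((1 : ℝ) / 2)) (star x * x)

lemma md_nonneg (x : H →L[ℂ] H) : 0 ≤ md x := by
  refine cfc_nonneg fun t ht => ?_
  exact Real.rpow_nonneg (spectrum_nonneg_of_nonneg (star_mul_self_nonneg x) ht) _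

lemma md_sq (x : H →L[ℂ] H) : md x * md x = star x * x := by
  have hs : IsSelfAdjoint (star x * x) := IsSelfAdjoint.star_mul_self x
  have hc : Continuous fun t : ℝ => t ^ ((1 : ℝ) / 2) :=
    Real.continuous_rpow_const (by norm_num)
  unfold md
  rw [← cfc_mul _ _ _ hc.continuousOn hc.continuousOn]
  conv_rhs => rw [← cfc_id ℝ (star x * x)]
  refine cfc_congr fun t ht => ?_
  have h0 : 0 ≤ t := spectrum_nonneg_of_nonneg (star_mul_self_nonneg x) ht
  simp only [id]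
  rw [← Real.rpow_add' h0 (by norm_num)]; norm_num

lemma QQ1_le (x : H →L[ℂ] H) : QQ b 1 x ≤ ∑' n, ENNReal.ofReal ‖x (b n)‖ := by
  refine ENNReal.tsum_le_tsum fun n => ENNReal.ofReal_le_ofReal ?_
  have hs : IsSelfAdjoint (md x) := IsSelfAdjoint.of_nonneg (md_nonneg x)
  have : ‖md x (b n)‖ = ‖x (b n)‖ := norm_eq_of (by rw [hs.star_eq, md_sq]) _
  refine (Complex.re_le_norm _).trans ((norm_inner_le_norm _ _).trans ?_)
  rw [b.orthonormal.1, one_mul]
  exact this.le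

lemma factor (x : H →L[ℂ] H) {ε : ℝ} (hε : 0 < ε) : ∃ y s : H →L[ℂ] H,
    x = y * (s + (ε : ℂ) • 1) ∧ (∀ v, ‖y v‖ ^ 2 ≤ (⟪v, md x v⟫_ℂ).re) ∧
      ∀ v, ‖s v‖ ^ 2 = (⟪v, md x v⟫_ℂ).re := by
  have h0 := md_nonneg x
  have hs : IsSelfAdjoint (md x) := IsSelfAdjoint.of_nonneg h0
  have hpos : ∀ t : ℝ, √t + ε ≠ 0 := fun t => by positivity
  have hc : Continuous fun t : ℝ => (√t + ε)⁻¹ := Continuous.inv₀ (by fun_prop) hpos
  set G := cfc (fun t : ℝ => (√t + ε)⁻¹) (md x) with hG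
  set s := cfc (fun t : ℝ => √t) (md x) with hS
  have hGs : IsSelfAdjoint G := cfc_predicate _ _
  have hSs : IsSelfAdjoint s := cfc_predicate _ _
  refine ⟨x * G, s, ?_, fun v => ?_, fun v => ?_⟩
  · have : s + (ε : ℂ) • 1 = cfc (fun t : ℝ => √t + ε) (md x) := by
      rw [cfc_add_const ε (fun t : ℝ => √t) (md x), Algebra.algebraMap_eq_smul_one]
      simp [hS]
    rw [this, mul_assoc, hG, ← cfc_mul _ _ _ hc.continuousOn (by fun_prop)]
    simp only [inv_mul_cancel₀ (hpos _)]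
    rw [cfc_const_one ℝ (md x), mul_one]
  · have e : star (x * G) * (x * G) = cfc (fun t : ℝ => (√t + ε)⁻¹ * (t * t) * (√t + ε)⁻¹) (md x) := by
      rw [cfc_mul (fun t : ℝ => (√t + ε)⁻¹ * (t * t)) _ _ (hc.mul (by fun_prop)).continuousOn
        hc.continuousOn,
        cfc_mul _ (fun t : ℝ => t * t) _ hc.continuousOn (by fun_prop), cfc_mul (fun t : ℝ => t) (fun t : ℝ => t) (md x),
        cfc_id' ℝ (md x), md_sq, star_mul, hGs.star_eq]
      simp only [mul_assoc, hG]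
    have le : star (x * G) * (x * G) ≤ md x := by
      rw [e]
      conv_rhs => rw [← cfc_id' ℝ (md x)]
      refine cfc_mono (fun t ht => ?_) ((hc.mul (by fun_prop)).mul hc).continuousOn (by fun_prop)
      have t0 : 0 ≤ t := spectrum_nonneg_of_nonneg h0 ht
      have h1 := Real.mul_self_sqrt t0
      have h2 := Real.sqrt_nonneg t
      have h3 : 0 < √t + ε := by positivity
      rw [show (√t + ε)⁻¹ * (t * t) * (√t + ε)⁻¹ = t * t / ((√t + ε) * (√t + ε)) by field_simp,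
        div_le_iff₀ (by positivity)]
      gcongr
      nlinarith
    have := ((ContinuousLinearMap.le_def _ _).1 le).re_inner_nonneg_left v
    rw [nsq_eq, ← inner_conj_symm v, Complex.conj_re]
    simp only [sub_apply, inner_sub_left, map_sub, RCLike.re_to_complex] at this
    linarith
  · have e : star s * s = md x := by
      rw [hSs.star_eq, hS, ← cfc_mul _ _ _ (by fun_prop) (by fun_prop)]
      conv_rhs => rw [← cfc_id' ℝ (md x)]
      exact cfc_congr fun t ht => Real.mul_self_sqrt (spectrum_nonneg_of_nonneg h0 ht)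
    rw [nsq_eq, e, ← inner_conj_symm v, Complex.conj_re]

lemma trace_dual (x : H →L[ℂ] H) (hx : QQ b 1 x < ⊤) :
    ENNReal.ofReal (‖⟪b 0, x (b 0)⟫_ℂ‖ + ‖⟪b 1, x (b 1)⟫_ℂ‖) ≤ QQ b 1 x := by
  have hnn : ∀ v, 0 ≤ (⟪v, md x v⟫_ℂ).re := fun v =>
    ((ContinuousLinearMap.nonneg_iff_isPositive _).1 (md_nonneg x)).re_inner_nonneg_right v
  have hsum : Summable fun n => (⟪b n, md x (b n)⟫_ℂ).re := by
    have := ENNReal.summable_toReal hx.ne
    refine this.congr fun n => ?_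
    exact ENNReal.toReal_ofReal (hnn _)
  have hQ : QQ b 1 x = ENNReal.ofReal (∑' n, (⟪b n, md x (b n)⟫_ℂ).re) := by
    rw [ENNReal.ofReal_tsum_of_nonneg (fun _ => hnn _) hsum]; rfl
  rw [hQ]
  set τ := ∑' n, (⟪b n, md x (b n)⟫_ℂ).re with hτ
  have hτ0 : 0 ≤ τ := tsum_nonneg fun _ => hnn _
  refine ENNReal.ofReal_le_ofReal (le_of_forall_pos_le_add fun η hη => ?_)
  obtain ⟨y, s, hxy, hy, hs⟩ := factor x (ε := η / (1 + τ)) (by positivity)
  set ε := η / (1 + τ) with hε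
  have hε0 : 0 < ε := by positivity
  have hη' : ε * (1 + τ) = η := by rw [hε]; field_simp
  have b1 : ‖s (b 0)‖ ^ 2 + ‖s (b 1)‖ ^ 2 ≤ τ := by
    have := hsum.sum_le_tsum (range 2) fun _ _ => hnn _
    rw [hs, hs]
    simpa [sum_range_succ] using this
  have b2 : ‖star y (b 0)‖ ^ 2 + ‖star y (b 1)‖ ^ 2 ≤ τ := by
    refine hasSum_le (fun n => ?_) ((parseval b (star y (b 0))).add (parseval b (star y (b 1))))
      hsum.hasSum
    refine le_trans ?_ (hy _)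
    have := (parseval b (y (b n))).summable.sum_le_tsum (range 2) fun _ _ => by positivity
    rw [(parseval b _).tsum_eq] at this
    simp only [ContinuousLinearMap.star_eq_adjoint, ContinuousLinearMap.adjoint_inner_right]
    rw [norm_inner_symm (y (b n)), norm_inner_symm (y (b n))]
    simpa [sum_range_succ] using this
  have b3 : ∀ i, ‖⟪b i, x (b i)⟫_ℂ‖ ≤ ‖star y (b i)‖ * (‖s (b i)‖ + ε) := by
    intro i
    rw [hxy, mul_apply_eq_comp, ← ContinuousLinearMap.adjoint_inner_left,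
      ← ContinuousLinearMap.star_eq_adjoint]
    refine (norm_inner_le_norm _ _).trans ?_
    gcongr
    rw [add_apply]
    refine (norm_add_le _ _).trans ?_
    simp [norm_smul, b.orthonormal.1 i, abs_of_pos hε0]
  have c0 := b3 0
  have c1 := b3 1
  have d0 : ε * ‖star y (b 0)‖ + ε * ‖star y (b 1)‖ ≤ ε * (1 + τ) := by
    rw [← mul_add]
    refine mul_le_mul_of_nonneg_left ?_ hε0.le
    nlinarith [sq_nonneg (‖star y (b 0)‖ - 1), sq_nonneg (‖star y (b 1)‖ - 1)]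
  nlinarith [sq_nonneg (‖star y (b 0)‖ - ‖s (b 0)‖), sq_nonneg (‖star y (b 1)‖ - ‖s (b 1)‖)]

/-- diagonal rank-two operators -/
noncomputable def DD (α β : ℂ) : H →L[ℂ] H :=
  α • rankOne ℂ (b 0) (b 0) + β • rankOne ℂ (b 1) (b 1)

omit [CompleteSpace H] in
lemma DD_apply (α β : ℂ) (n : ℕ) :
    DD b α β (b n) = (if n = 0 then α else if n = 1 then β else 0) • b n := by
  have ho := orthonormal_iff_ite.1 b.orthonormal
  simp only [DD, add_apply, smul_apply, rankOne_apply, ho]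
  rcases n with _ | _ | n <;> simp

lemma DD_star_mul (α β : ℂ) :
    star (DD b α β) * DD b α β = DD b ((‖α‖ ^ 2 : ℝ) : ℂ) ((‖β‖ ^ 2 : ℝ) : ℂ) := by
  have ho := orthonormal_iff_ite.1 b.orthonormal
  ext v
  simp only [DD, star_add, star_smul, ContinuousLinearMap.star_eq_adjoint, adjoint_rankOne,
    mul_apply_eq_comp, add_apply, smul_apply, rankOne_apply, inner_add_right, inner_smul_right, ho,
    smul_smul]
  simp [← mul_assoc, Complex.conj_mul']

omit [CompleteSpace H] in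
lemma DD_hasSum (α β : ℂ) (g : ℝ → ℝ) (hg : g 0 = 0) :
    HasSum (fun n => g ‖DD b α β (b n)‖) (g ‖α‖ + g ‖β‖) := by
  have := hasSum_sum_of_ne_finset_zero (f := fun n => g ‖DD b α β (b n)‖) (s := range 2)
    (L := SummationFilter.unconditional ℕ) (by
      intro n hn
      rcases n with _ | _ | n
      · simp at hn
      · simp at hn
      · simp [DD_apply, hg])
  simpa [sum_range_succ, DD_apply, norm_smul, b.orthonormal.1 _] using this

lemma DD_S4 (α β : ℂ) : S4 b (DD b α β) := by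
  unfold S4; rw [DD_star_mul]
  exact (DD_hasSum b _ _ (fun t => t ^ 2) (by simp)).summable

lemma DD_q4 (α β : ℂ) : q4 b (DD b α β) = ‖α‖ ^ 4 + ‖β‖ ^ 4 := by
  unfold q4 nn; rw [DD_star_mul, (DD_hasSum b _ _ (fun t => t ^ 2) (by simp)).tsum_eq]
  simp; ring

lemma DD_norm : ‖DD b 1 1‖ ≤ 1 := by
  have h := CStarRing.norm_star_mul_self (x := DD b 1 1)
  rw [DD_star_mul] at h
  simp only [norm_one, one_pow, Complex.ofReal_one] at h
  nlinarith [norm_nonneg (DD b 1 1)]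

/-- the averaging functional -/
noncomputable def av : (H →L[ℂ] H) →ₗ[ℂ] ℂ where
  toFun x := (⟪b 0, x (b 0)⟫_ℂ + ⟪b 1, x (b 1)⟫_ℂ) / 2
  map_add' x y := by simp only [add_apply, inner_add_right]; ring
  map_smul' t x := by simp only [smul_apply, inner_smul_right, RingHom.id_apply, smul_eq_mul]; ring

/-- the averaging map -/
noncomputable def TT : (H →L[ℂ] H) →ₗ[ℂ] (H →L[ℂ] H) := (av b).smulRight (DD b 1 1)

omit [CompleteSpace H] in
lemma TT_eq (x : H →L[ℂ] H) : TT b x = DD b (av b x) (av b x) := by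
  simp [TT, DD]

omit [CompleteSpace H] in
lemma av_DD (α β : ℂ) : av b (DD b α β) = (α + β) / 2 := by
  simp [av, DD_apply, b.orthonormal.1 _]

omit [CompleteSpace H] in
lemma av_le (x : H →L[ℂ] H) :
    2 * ‖av b x‖ ≤ ‖⟪b 0, x (b 0)⟫_ℂ‖ + ‖⟪b 1, x (b 1)⟫_ℂ‖ := by
  have := norm_add_le ⟪b 0, x (b 0)⟫_ℂ ⟪b 1, x (b 1)⟫_ℂ
  simp only [av, LinearMap.coe_mk, AddHom.coe_mk, norm_div, Complex.norm_ofNat]
  linarith

omit [CompleteSpace H] in
lemma ent_le (x : H →L[ℂ] H) (i : ℕ) : ‖⟪b i, x (b i)⟫_ℂ‖ ≤ ‖x (b i)‖ := by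
  refine (norm_inner_le_norm _ _).trans ?_
  rw [b.orthonormal.1, one_mul]

lemma TT_norm (x : H →L[ℂ] H) : ‖TT b x‖ ≤ ‖x‖ := by
  have h1 := av_le b x
  have h2 : ∀ i, ‖⟪b i, x (b i)⟫_ℂ‖ ≤ ‖x‖ := fun i =>
    (ent_le b x i).trans ((x.le_opNorm _).trans (by rw [b.orthonormal.1, mul_one]))
  have h3 := DD_norm b
  simp only [TT, LinearMap.smulRight_apply, norm_smul]
  nlinarith [h2 0, h2 1, norm_nonneg (av b x), norm_nonneg (DD b 1 1)]

lemma TT_q4 {x : H →L[ℂ] H} (hx : S4 b x) : q4 b (TT b x) ≤ 2 * q4 b x := by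
  have h1 := av_le b x
  have h2 : ∀ i, ‖x (b i)‖ ^ 4 ≤ q4 b x := by
    intro i
    have a1 : ‖x (b i)‖ ^ 2 ≤ ‖(star x * x) (b i)‖ := by
      rw [nsq_eq]
      refine (Complex.re_le_norm _).trans ((norm_inner_le_norm _ _).trans ?_)
      rw [b.orthonormal.1, mul_one]
    have a2 : ‖(star x * x) (b i)‖ ^ 2 ≤ q4 b x := hx.le_tsum i fun _ _ => by positivity
    calc ‖x (b i)‖ ^ 4 = (‖x (b i)‖ ^ 2) ^ 2 := by ring
      _ ≤ ‖(star x * x) (b i)‖ ^ 2 := by gcongr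
      _ ≤ _ := a2
  rw [TT_eq, DD_q4]
  have : ‖av b x‖ ^ 4 ≤ q4 b x := by
    rcases le_total ‖x (b 0)‖ ‖x (b 1)‖ with h | h
    · exact le_trans (by gcongr; linarith [ent_le b x 0, ent_le b x 1]) (h2 1)
    · exact le_trans (by gcongr; linarith [ent_le b x 0, ent_le b x 1]) (h2 0)
  linarith

lemma TT_Q1 (x : H →L[ℂ] H) (hx : QQ b 1 x < ⊤) : QQ b 1 (TT b x) ≤ QQ b 1 x := by
  refine (QQ1_le b _).trans (le_trans ?_ (trace_dual b x hx))
  have := DD_hasSum b (av b x) (av b x) (fun t => t) rfl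
  rw [TT_eq, ← ENNReal.ofReal_tsum_of_nonneg (fun _ => norm_nonneg _) this.summable, this.tsum_eq]
  exact ENNReal.ofReal_le_ofReal (by linarith [av_le b x])

theorem main (J P U : (H →L[ℂ] H) →ₗ[ℂ] (H →L[ℂ] H))
    (hJ : ∀ x, QQ b 4 x < ⊤ → QQ b 4 (J x) = QQ b 4 x)
    (hP : ∀ y, QQ b 4 y < ⊤ → QQ b 4 (P y) ≤ QQ b 4 y)
    (hU : ∀ x, QQ b 4 x < ⊤ → QQ b 4 (U x) = QQ b 4 x)
    (hd : ∀ n : ℕ, ∀ x, QQ b 4 x < ⊤ → P ((U ^ n) (J x)) = J ((TT b ^ n) x)) : False := by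
  have iso : ∀ V : (H →L[ℂ] H) →ₗ[ℂ] (H →L[ℂ] H),
      (∀ x, QQ b 4 x < ⊤ → QQ b 4 (V x) = QQ b 4 x) →
      ∀ x, S4 b x → S4 b (V x) ∧ q4 b (V x) = q4 b x := by
    intro V hV x hx
    have h1 := hV x ((QQ4_lt b x).2 hx)
    have h2 : S4 b (V x) := (QQ4_lt b _).1 (by rw [h1]; exact (QQ4_lt b x).2 hx)
    rw [QQ4_eq b hx, QQ4_eq b h2,
      ENNReal.ofReal_eq_ofReal_iff (q4_nonneg b _) (q4_nonneg b _)] at h1
    exact ⟨h2, h1⟩
  have ea : ∀ t : ℂ, DD b 1 0 + t • DD b 0 1 = DD b 1 t := by intro t; simp [DD]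
  have e1 : DD b 1 0 + DD b 0 1 = DD b 1 1 := by simpa using ea 1
  have e2 : DD b 1 0 - DD b 0 1 = DD b 1 (-1) := by simpa [sub_eq_add_neg] using ea (-1)
  refine no_dil b (TT b) J P U (DD b 1 0) (DD b 0 1) (DD_S4 b _ _) (DD_S4 b _ _) ?_ ?_ ?_ ?_
    (iso J hJ) ?_ (iso U hU) fun n x hx => hd n x ((QQ4_lt b x).2 hx)
  · intro t ht
    rw [ea]; simp [DD_q4, ht]
  · rw [e2, DD_q4]; simp
  · rw [e1, TT_eq, av_DD]; simp
  · rw [e2, TT_eq, av_DD]; simp [DD]
  · intro x hx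
    have h1 := hP x ((QQ4_lt b x).2 hx)
    have h2 : S4 b (P x) := (QQ4_lt b _).1 (h1.trans_lt ((QQ4_lt b x).2 hx))
    rwa [QQ4_eq b hx, QQ4_eq b h2, ENNReal.ofReal_le_ofReal_iff (q4_nonneg b _)] at h1

end Pool.Agent.H90.SchDil
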