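import Mathlib
import Pool.Agent.H90.CsA

namespace Pool.Agent.H90.Sy

open Filter Topology Function Finset

/-- iterated ultrafilter limits commute for Schur-bounded arrays -/
def RO (N : ℕ) (D : ℕ → ℕ → ℂ) (κ : ℝ) : Prop := ∀ (α β : ℕ → ℂ) (a b : ℝ), (∀ n, ‖α n‖ ≤ a) →
  (∀ n, ‖β n‖ ≤ b) → ‖∑ n ∈ range N, ∑ m ∈ range N, D n m * (α n * β m)‖ ≤ κ * (a * b)

lemma tri' {κ : ℝ} (hκ : 0 < κ) : ∃ N D, RO N D κ ∧ ∀ t : ℕ → ℕ → ℂ,
    (∀ n < N, ∀ m < n, 3 / 4 ≤ (t n m).re ∧ -1 / 4 ≤ (-t m n).re) →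
      1 ≤ (∑ n ∈ range N, ∑ m ∈ range N, D n m * t n m).re := by
  obtain ⟨N, D, d1, d2⟩ := Cs.tri hκ
  have e : ∀ t : ℕ → ℕ → ℂ, ∑ n ∈ range N, ∑ m ∈ range N,
      D (Pi.single n (Pi.single m 1)) * t n m =
      D fun n m => if n < N then if m < N then t n m else 0 else 0 := fun t => by
    simp only [mul_comm (D _), ← smul_eq_mul, ← map_smul, ← map_sum]
    congr 1
    ext n m
    simp [Finset.sum_apply, Pi.single_apply, ite_apply]
  refine ⟨N, _, fun α β a b h1 h2 => ?_, fun t ht => by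
    rw [e]
    exact d1 _ fun n hn m hm => by simpa only [hn, hm.trans hn, if_true] using ht n hn m hm⟩
  rw [e]
  refine Eq.trans_le ?_ (d2 ℂ (fun n => if n < N then star (α n) else 0)
    (fun n => if n < N then β n else 0) a b (fun n => ?_) fun n => ?_)
  · congr 2
    ext n m
    split_ifs <;> simp [mul_comm]
  · split_ifs
    exacts [by simpa using h1 n, by simpa using (norm_nonneg _).trans (h1 n)]
  · split_ifs
    exacts [h2 n, by simpa using (norm_nonneg _).trans (h2 n)]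

noncomputable def VV : Ultrafilter (ℕ × ℕ) :=
  (hyperfilter ℕ).bind fun n => (hyperfilter ℕ).map (Prod.mk n)

lemma ev_VV {P : ℕ × ℕ → Prop} :
    (∀ᶠ d in VV, P d) ↔ ∀ᶠ n in hyperfilter ℕ, ∀ᶠ m in hyperfilter ℕ, P (n, m) :=
  eventually_bind

lemma ev_gt (M : ℕ) : ∀ᶠ d : ℕ × ℕ in VV, M < d.1 ∧ d.1 < d.2 :=
  ev_VV.2 (((eventually_gt_atTop M).filter_mono Nat.hyperfilter_le_atTop).mono fun n h =>
    ((eventually_gt_atTop n).filter_mono Nat.hyperfilter_le_atTop).mono fun _ h' => ⟨h, h'⟩)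

lemma ul {ι : Type} (l : Ultrafilter ι) {φ : ι → ℂ} {C : ℝ} (h : ∀ i, ‖φ i‖ ≤ C) :
    Tendsto φ l (𝓝 (limUnder l φ)) := by
  obtain ⟨v, -, hv⟩ := (isCompact_closedBall (0 : ℂ) C).ultrafilter_le_nhds (l.map φ)
    (le_principal_iff.2 (mem_map.2 (Eventually.of_forall (by simpa using h))))
  exact tendsto_nhds_limUnder ⟨v, hv⟩

def Sq (d : ℕ → ℕ × ℕ) : Prop := (∀ n, (d n).1 < (d n).2) ∧ ∀ n m, n < m → (d n).2 < (d m).1

def Gm (C : ℝ) (M : ℕ × ℕ → ℕ × ℕ → ℂ) : Prop := ∀ d d', Sq d → Sq d' → ∀ N D κ, 0 < κ →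
  RO N D κ → (∑ n ∈ range N, ∑ m ∈ range N, D n m * M (d n) (d' m)).re ≤ κ * C

lemma Gm.comm {C : ℝ} {M : ℕ × ℕ → ℕ × ℕ → ℂ} (h : Gm C M) (hb : ∀ d d', ‖M d d'‖ ≤ C) :
    (limUnder VV fun d => limUnder VV fun d' => M d d') =
      limUnder VV fun d' => limUnder VV fun d => M d d' := by
  have a1 := fun d => ul VV (hb d)
  have b1 := fun d' => ul VV fun d => hb d d'
  have a2 := ul VV fun d => le_of_tendsto' (a1 d).norm (hb d)
  have b2 := ul VV fun d' => le_of_tendsto' (b1 d').norm fun d => hb d d'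
  generalize (limUnder VV fun d => limUnder VV fun d' => M d d') = v at a2 ⊢
  generalize (limUnder VV fun d' => limUnder VV fun d => M d d') = w at b2 ⊢
  by_contra hn
  have e0 : 0 < ‖w - v‖ := norm_pos_iff.2 (sub_ne_zero.2 (Ne.symm hn))
  have e1 : 0 < ‖w - v‖ / 8 := by positivity
  obtain ⟨q, q1, q2⟩ := exists_seq_of_forall_finset_exists (fun q : (ℕ × ℕ) × ℕ × ℕ =>
      dist (limUnder VV (M q.1)) v < ‖w - v‖ / 8 ∧ q.1.1 < q.1.2 ∧
      dist (limUnder VV fun d => M d q.2) w < ‖w - v‖ / 8 ∧ q.2.1 < q.2.2)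
    (fun p q => (p.1.2 < q.1.1 ∧ dist (M q.1 p.2) (limUnder VV fun d => M d p.2) < ‖w - v‖ / 8) ∧
      p.2.2 < q.2.1 ∧ dist (M p.1 q.2) (limUnder VV (M p.1)) < ‖w - v‖ / 8) fun s _ => by
    obtain ⟨d, d1, d2, d3⟩ := ((Metric.tendsto_nhds.1 a2 _ e1).and ((ev_gt 0).and
      ((eventually_all_finset s).2 fun p _ => (ev_gt p.1.2).and
        (Metric.tendsto_nhds.1 (b1 p.2) _ e1)))).exists
    obtain ⟨d', c1, c2, c3⟩ := ((Metric.tendsto_nhds.1 b2 _ e1).and ((ev_gt 0).and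
      ((eventually_all_finset s).2 fun p _ => (ev_gt p.2.2).and
        (Metric.tendsto_nhds.1 (a1 p.1) _ e1)))).exists
    exact ⟨(d, d'), ⟨d1, d2.2, c1, c2.2⟩, fun p hp =>
      ⟨⟨(d3 p hp).1.1, (d3 p hp).2⟩, (c3 p hp).1.1, (c3 p hp).2⟩⟩
  obtain ⟨κ, k0, k1⟩ : ∃ κ > 0, κ * (‖(w - v)⁻¹‖ * C + ‖(w - v)⁻¹‖ * ‖v‖) < 1 :=
    ((((continuous_mul_const _).tendsto' (0 : ℝ) 0 (zero_mul _)).eventually
      (gt_mem_nhds zero_lt_one)).filter_mono nhdsWithin_le_nhds |>.and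
      (self_mem_nhdsWithin (s := Set.Ioi (0 : ℝ)))).exists.imp fun _ h => ⟨h.2, h.1⟩
  obtain ⟨N, D, d1, d2⟩ := tri' k0
  have w0 : w - v ≠ 0 := norm_pos_iff.1 e0
  have cl : ∀ x y z : ℂ, dist x y < ‖w - v‖ / 8 → dist y z < ‖w - v‖ / 8 →
      |((w - v)⁻¹ * (x - z)).re| ≤ 1 / 4 := fun x y z h1 h2 => by
    refine (Complex.abs_re_le_norm _).trans ?_
    rw [norm_mul, norm_inv, inv_mul_le_iff₀ e0, ← dist_eq_norm x]
    linarith [dist_triangle x y z]
  have f1 := d2 (fun n m => (w - v)⁻¹ * (M (q n).1 (q m).2 - v)) fun n _ m hm => ⟨by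
    have := cl _ _ _ (q2 m n hm).1.2 (q1 m).2.2.1
    rw [show (w - v)⁻¹ * (M (q n).1 (q m).2 - v) = (w - v)⁻¹ * (M (q n).1 (q m).2 - w) + 1 by
      field_simp; ring, Complex.add_re, Complex.one_re]
    linarith [(abs_le.1 this).1], by
    rw [Complex.neg_re]; linarith [(abs_le.1 (cl _ _ _ (q2 m n hm).2.2 (q1 m).1)).2]⟩
  have f2 := h (fun n => (q n).1) (fun n => (q n).2) ⟨fun n => (q1 n).2.1, fun n m e => (q2 n m e).1.1⟩
    ⟨fun n => (q1 n).2.2.2, fun n m e => (q2 n m e).2.1⟩ N (fun n m => D n m * (w - v)⁻¹)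
    (κ * ‖(w - v)⁻¹‖) (mul_pos k0 (norm_pos_iff.2 (inv_ne_zero w0))) fun α β a b h1 h2 => by
      simpa only [mul_assoc] using d1 (fun n => (w - v)⁻¹ * α n) β (‖(w - v)⁻¹‖ * a) b
        (fun n => (norm_mul _ _).trans_le (mul_le_mul_of_nonneg_left (h1 n) (norm_nonneg _))) h2
  have f3 := (Complex.abs_re_le_norm _).trans (d1 _ _ _ _ (fun _ => le_refl ‖(w - v)⁻¹‖)
    fun _ => le_refl ‖v‖)
  simp only [mul_sub, sum_sub_distrib, Complex.sub_re, ← mul_assoc] at f1 f2 f3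
  nlinarith [(abs_le.1 f3).1]

abbrev Cf := ℕ → ℕ × ℕ

structure Good (C : ℝ) (Φ : Cf → ℂ) : Prop where
  bd : ∀ c, ‖Φ c‖ ≤ C
  gm : ∀ a b c, a ≠ b → Gm C fun d d' => Φ (update (update c a d) b d')

noncomputable def EE (a : ℕ) (Φ : Cf → ℂ) (c : Cf) : ℂ := limUnder VV fun d => Φ (update c a d)

variable {C : ℝ} {Φ : Cf → ℂ}

lemma Good.t (h : Good C Φ) (a : ℕ) (c : Cf) :
    Tendsto (fun d => Φ (update c a d)) VV (𝓝 (EE a Φ c)) := ul VV fun _ => h.bd _

lemma Good.ee (h : Good C Φ) (e : ℕ) : Good C (EE e Φ) := by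
  have bd : ∀ c, ‖EE e Φ c‖ ≤ C := fun c => le_of_tendsto' (h.t e c).norm fun _ => h.bd _
  refine ⟨bd, fun a b c hab d d' h1 h2 N D κ k0 hD => ?_⟩
  by_cases ha : e = a
  · subst ha
    simpa [EE, update_comm hab.symm] using (Complex.re_le_norm _).trans
      (hD 1 (fun m => EE e Φ (update c b (d' m))) 1 C (by simp) fun _ => bd _)
  by_cases hb : e = b
  · subst hb
    simpa [EE] using (Complex.re_le_norm _).trans
      (hD (fun n => EE e Φ (update c a (d n))) 1 C 1 (fun _ => bd _) (by simp))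
  refine le_of_tendsto' ((Complex.continuous_re.tendsto _).comp (tendsto_finsetSum _ fun n _ =>
    tendsto_finsetSum _ fun m _ => (h.t e _).const_mul (D n m))) fun x => ?_
  simpa only [comp_apply, update_comm ha, update_comm hb] using
    h.gm a b (update c e x) hab d d' h1 h2 N D κ k0 hD

lemma Good.fold (h : Good C Φ) (l : List ℕ) : Good C (l.foldr EE Φ) := by
  induction l with
  | nil => exact h
  | cons a l ih => exact ih.ee a

lemma Good.perm (h : Good C Φ) {l l' : List ℕ} (p : l.Perm l') : l.foldr EE Φ = l'.foldr EE Φ := by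
  induction p with
  | nil => rfl
  | cons a _ ih => simp only [List.foldr_cons, ih]
  | swap a b l =>
    by_cases e : a = b
    · rw [e]
    ext c
    simpa only [List.foldr_cons, EE, update_comm (Ne.symm e)] using
      (((h.fold l).gm a b c e).comm fun _ _ => (h.fold l).bd _).symm
  | trans _ _ h1 h2 => exact h1.trans h2

noncomputable def FF : List ℕ → Cf → Filter Cf
  | [], c => pure c
  | a :: l, c => (VV : Filter (ℕ × ℕ)).bind fun d => FF l (update c a d)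

lemma ev_cons {a : ℕ} {l : List ℕ} {c : Cf} {P : Cf → Prop} :
    (∀ᶠ c' in FF (a :: l) c, P c') ↔ ∀ᶠ d in VV, ∀ᶠ c' in FF l (update c a d), P c' :=
  eventually_bind

lemma ev_app {l l' : List ℕ} {P : Cf → Prop} (c : Cf) :
    (∀ᶠ c' in FF (l ++ l') c, P c') ↔ ∀ᶠ c1 in FF l c, ∀ᶠ c' in FF l' c1, P c' := by
  induction l generalizing c with
  | nil => simp [FF]
  | cons a l ih => simp only [List.cons_append, ev_cons, ih]

lemma ev_two {l : List ℕ} {a b : ℕ} {P : Cf → Prop} {c : Cf} :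
    (∀ᶠ c' in FF (l ++ [a, b]) c, P c') ↔
      ∀ᶠ c1 in FF l c, ∀ᶠ d in VV, ∀ᶠ d' in VV, P (update (update c1 a d) b d') := by
  simp only [ev_app, FF, eventually_bind, eventually_pure]

instance FF_ne (l : List ℕ) (c : Cf) : (FF l c).NeBot := by
  induction l generalizing c with
  | nil => exact pure_neBot
  | cons a l ih =>
    refine eventually_false_iff_eq_bot.not.1 (fun h => ?_) |> NeBot.mk
    obtain ⟨_, h⟩ := (ev_cons.1 h).exists
    exact h.exists.elim fun _ => id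

lemma Good.tf (h : Good C Φ) (l : List ℕ) (c : Cf) : Tendsto Φ (FF l c) (𝓝 (l.foldr EE Φ c)) := by
  induction l generalizing c with
  | nil => exact tendsto_pure_nhds _ _
  | cons a l ih =>
    refine Metric.tendsto_nhds.2 fun ε hε => ev_cons.2 ?_
    filter_upwards [Metric.tendsto_nhds.1 ((h.fold l).t a c) _ (half_pos hε)] with d hd
    filter_upwards [Metric.tendsto_nhds.1 (ih (update c a d)) _ (half_pos hε)] with c' hc
    exact dist_triangle _ _ _ |>.trans_lt ((add_lt_add hc hd).trans_eq (add_halves ε))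

lemma sep {l : List ℕ} (hl : l.Nodup) (M : ℕ) (c : Cf) : ∀ᶠ c' in FF l c,
    (∀ a ∈ l, M < (c' a).1 ∧ (c' a).1 < (c' a).2) ∧ (∀ a ∉ l, c' a = c a) ∧
      ∀ a ∈ l, ∀ b ∈ l, a ≠ b → (c' a).2 < (c' b).1 ∨ (c' b).2 < (c' a).1 := by
  induction l generalizing c M with
  | nil => simp [FF]
  | cons a l ih =>
    obtain ⟨h1, h2⟩ := List.nodup_cons.1 hl
    refine ev_cons.2 ((ev_gt M).mono fun d hd => (ih h2 d.2 _).mono fun c' hc => ?_)
    have := hc.2.1 a h1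
    rw [update_self] at this
    simp only [List.mem_cons, not_or]
    refine ⟨?_, fun b hb => (hc.2.1 b hb.2).trans (update_of_ne hb.1 _ _), ?_⟩ <;> grind

end Pool.Agent.H90.Sy
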