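import Mathlib
import Pool.Agent.H90.SyA

set_option maxSynthPendingDepth 4

namespace Pool.Agent.H90.Sy

open Filter Topology Function Finset

variable {Ω : Type} [MetricSpace Ω] [CompactSpace Ω]

lemma orth (s : Finset ℕ) {R : ℕ → C(Ω, ℂ)} (h : ∀ n m, n < m → R n * R m = 0) {b : ℝ}
    (hb : ∀ n, ‖R n‖ ≤ b) {c : ℕ → ℂ} (hc : ∀ n, ‖c n‖ ≤ 1) : ‖∑ n ∈ s, c n • R n‖ ≤ b := by
  have b0 := (norm_nonneg _).trans (hb 0)
  refine (ContinuousMap.norm_le _ b0).2 fun p => ?_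
  rw [ContinuousMap.sum_apply]
  by_cases e : ∃ n ∈ s, R n p ≠ 0
  · obtain ⟨n, n1, n2⟩ := e
    rw [sum_eq_single_of_mem n n1 fun m _ hm => ?_, ContinuousMap.smul_apply, norm_smul]
    · exact (mul_le_of_le_one_left (norm_nonneg _) (hc n)).trans
        (((R n).norm_coe_le_norm p).trans (hb n))
    · obtain e | e := hm.lt_or_gt <;>
      simpa [n2] using Or.inr (a := c m = 0) (by simpa [n2] using congrArg (· p) (h _ _ e))
  · push Not at e
    rw [sum_eq_zero fun n hn => by simp [e n hn]]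
    simpa using b0

lemma step [∀ y : Ω, (𝓝[≠] y).NeBot] (y : Ω) {U : Set Ω} (hU : U ∈ 𝓝 y)
    {s : Set (C(Ω, ℂ) →L[ℂ] ℂ)} (hs : s.Finite) {ε : ℝ} (hε : 0 < ε) :
    ∃ (y' : Ω) (Q : C(Ω, ℂ)), ∃ V ∈ 𝓝 y', V ⊆ U ∧ (∀ p ∈ V, Q p = 1) ∧ (∀ p ∉ U, Q p = 0) ∧
      Q y = 0 ∧ ‖Q‖ ≤ 1 ∧ ∀ μ ∈ s, ‖μ Q‖ ≤ ε := by
  have o : IsOpen (interior U \ {y}) := isOpen_interior.sdiff isClosed_singleton
  have := ((infinite_of_mem_nhds y (interior_mem_nhds.2 hU)).sdiff (Set.finite_singleton y)).to_subtype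
  obtain ⟨W, w1, w2, w3⟩ := exists_seq_infinite_isOpen_pairwise_disjoint ↥(interior U \ {y})
  choose x hx using fun n => (w1 n).nonempty
  have w4 := fun n => o.isOpenMap_subtype_val _ (w2 n)
  choose K k1 k2 k3 using fun n => exists_mem_nhds_isClosed_subset
    ((w4 n).mem_nhds (Set.mem_image_of_mem _ (hx n)))
  choose g g0 g1 g2 using fun n => exists_continuous_zero_one_of_isClosed (w4 n).isClosed_compl
    (k2 n) (Set.disjoint_left.2 fun p h h' => h (k3 n h'))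
  let Q : ℕ → C(Ω, ℂ) := fun n => ⟨fun p => g n p, by fun_prop⟩
  have q0 : ∀ n p, p ∉ Subtype.val '' W n → Q n p = 0 := fun n p h => by simp [Q, g0 n h]
  have q1 : ∀ n, ‖Q n‖ ≤ 1 := fun n => (ContinuousMap.norm_le _ zero_le_one).2 fun p => by
    simpa [Q, abs_of_nonneg (g2 n p).1] using (g2 n p).2
  have t : ∀ μ : C(Ω, ℂ) →L[ℂ] ℂ, Tendsto (fun n => ‖μ (Q n)‖) atTop (𝓝 0) := fun μ =>
    (summable_of_sum_le (c := ‖μ‖ * 1) (fun _ => norm_nonneg _) fun F => by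
      choose c c1 c2 using fun n => Complex.exists_norm_eq_mul_self (μ (Q n))
      have e := μ.le_of_opNorm_le_of_le le_rfl (orth F (fun n m e => ContinuousMap.ext fun p => by
        by_cases h : p ∈ Subtype.val '' W n
        · rw [ContinuousMap.mul_apply, q0 m p fun h' => Set.disjoint_left.1
            ((Set.disjoint_image_iff Subtype.val_injective).2 (w3 e.ne)) h h']
          simp
        · simp [q0 n p h]) q1 fun n => (c1 n).le)
      simp only [map_sum, map_smul, smul_eq_mul, ← c2] at e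
      rw [← Complex.ofReal_sum, Complex.norm_real] at e
      exact (le_abs_self _).trans e).tendsto_atTop_zero
  obtain ⟨n, hn⟩ := ((eventually_all_finite hs).2 fun μ _ => (t μ).eventually
    (eventually_le_nhds hε)).exists
  have sb : Subtype.val '' W n ⊆ interior U \ {y} := Subtype.coe_image_subset _ _
  exact ⟨x n, Q n, K n, k1 n, fun p h => interior_subset (sb (k3 n h)).1,
    fun p h => by simp [Q, g1 n h], fun p h => q0 n p fun h' => h (interior_subset (sb h').1),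
    q0 n y fun h => (sb h).2 rfl, q1 n, hn⟩

def fam (Q : ℕ → C(Ω, ℂ)) (m : ℕ) : Set C(Ω, ℂ) :=
  {g | ∃ i ≤ m, g = Q i ∨ ∃ j ≤ m, g = Q i - Q j}

omit [CompactSpace Ω] in
lemma fam_fin (Q : ℕ → C(Ω, ℂ)) (m : ℕ) : (fam Q m).Finite :=
  (((Set.finite_Iic m).image Q).union ((Set.finite_Iic m).image2 (fun i j => Q i - Q j)
    (Set.finite_Iic m))).subset (by
      rintro _ ⟨i, hi, rfl | ⟨j, hj, rfl⟩⟩
      exacts [.inl ⟨i, hi, rfl⟩, .inr ⟨i, hi, j, hj, rfl⟩])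

variable {k : ℕ}

abbrev HH (Ω : Type) [MetricSpace Ω] [CompactSpace Ω] (k : ℕ) :=
  ContinuousMultilinearMap ℂ (fun _ : Fin (k + 1) => C(Ω, ℂ)) C(Fin (k + 2) → Ω, ℂ)

structure Ch (h : HH Ω k) (y : ℕ → Ω) (Q : ℕ → C(Ω, ℂ)) : Prop where
  nm : ∀ m, ‖Q m‖ ≤ 1
  mul : ∀ m n, m < n → Q m * Q n = Q n
  val : ∀ m n, Q m (y n) = if m ≤ n then 1 else 0
  K : ∀ m F z z', (∀ s, F s ∈ fam Q m) → (∀ p, z p = z' p ∨ ∃ l l', m ≤ l ∧ m ≤ l' ∧ z p = y l ∧
    z' p = y l') → ‖h F z - h F z'‖ ≤ 1 / ((m : ℝ) + 1)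
  B : ∀ m F s z, (∀ s, F s ∈ fam Q m) → (∀ p, ∃ l ≤ m, z p = y l) →
    ‖h (update F s (Q (m + 1))) z‖ ≤ 1 / ((m : ℝ) + 1)

lemma seq_rec {α : Type} (d : α) (P : ℕ → (ℕ → α) → α → Prop) (h : ∀ n H, ∃ a, P n H a) :
    ∃ f : ℕ → α, f 0 = d ∧ ∀ n, ∃ H, (∀ i ≤ n, H i = f i) ∧ P n H (f (n + 1)) := by
  choose nx hn using h
  let G : ℕ → ℕ → α := fun n => Nat.rec (fun _ => d) (fun n H => update H (n + 1) (nx n H)) n
  refine ⟨fun n => G n n, rfl, fun n => ⟨G n, fun i hi => ?_, by simpa [G] using hn n (G n)⟩⟩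
  induction n, hi using Nat.le_induction with
  | base => rfl
  | succ n e ih => exact (update_of_ne (by omega) _ _).trans ih

lemma exCh [Nonempty Ω] [∀ y : Ω, (𝓝[≠] y).NeBot] (h : HH Ω k) : ∃ y Q, Ch h y Q := by
  obtain ⟨y0⟩ := ‹Nonempty Ω›
  obtain ⟨f, f0, hf⟩ := seq_rec (α := Ω × C(Ω, ℂ) × Set Ω) (y0, 1, Set.univ) (fun m H a =>
      (H m).2.2 ∈ 𝓝 (H m).1 → ∃ δ > 0, (∀ F, (∀ s, F s ∈ fam (fun i => (H i).2.1) m) →
        ∀ z z', dist z z' < δ → ‖h F z - h F z'‖ ≤ 1 / ((m : ℝ) + 1)) ∧ a.2.2 ∈ 𝓝 a.1 ∧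
      a.2.2 ⊆ (H m).2.2 ∩ Metric.ball (H m).1 (δ / 2) ∧ (∀ p ∈ a.2.2, a.2.1 p = 1) ∧
      (∀ p ∉ (H m).2.2, a.2.1 p = 0) ∧ a.2.1 (H m).1 = 0 ∧ ‖a.2.1‖ ≤ 1 ∧
      ∀ F s z, (∀ s, F s ∈ fam (fun i => (H i).2.1) m) → (∀ p, ∃ l ≤ m, z p = (H l).1) →
        ‖h (update F s a.2.1) z‖ ≤ 1 / ((m : ℝ) + 1)) fun m H => by
    by_cases hV : (H m).2.2 ∈ 𝓝 (H m).1
    swap
    · exact ⟨H m, fun e => absurd e hV⟩
    have e0 : 0 < 1 / ((m : ℝ) + 1) := by positivity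
    have fin := Set.Finite.pi' fun _ : Fin (k + 1) => fam_fin (fun i => (H i).2.1) m
    obtain ⟨δ, d1, d0⟩ := (((eventually_all_finite fin (l := 𝓝[>] (0 : ℝ)) (p := fun F δ =>
        ∀ z z', dist z z' < δ → ‖h F z - h F z'‖ ≤ 1 / ((m : ℝ) + 1))).2 fun F _ => by
      obtain ⟨δ, d0, d1⟩ := Metric.uniformContinuous_iff.1
        (CompactSpace.uniformContinuous_of_continuous (h F).continuous) _ e0
      exact ((eventually_le_nhds d0).filter_mono nhdsWithin_le_nhds).mono fun δ' e z z' hz =>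
        (dist_eq_norm (h F z) _).ge.trans (d1 (hz.trans_le e)).le).and self_mem_nhdsWithin).exists
    obtain ⟨y', Q, V, v1, v2, v3, v4, v5, v6, v7⟩ := step (H m).1
      (inter_mem hV (Metric.ball_mem_nhds _ (half_pos d0)))
      (((fin.prod ((Set.finite_univ (α := Fin (k + 1))).prod (Set.Finite.pi' fun _ : Fin (k + 2) =>
        (Set.finite_Iic m).image fun l => (H l).1))).image fun q =>
          ContinuousMap.evalCLM ℂ q.2.2 ∘L h.toContinuousLinearMap q.1 q.2.1)) e0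
    exact ⟨(y', Q, V), fun _ => ⟨δ, d0, d1, v1, v2, v3, fun p e => v4 p fun e' => e e'.1, v5, v6,
      fun F s z h1 h2 => v7 _ ⟨(F, s, z), ⟨h1, trivial, fun p =>
        (h2 p).imp fun _ e => ⟨e.1, e.2.symm⟩⟩, rfl⟩⟩⟩
  choose H h1 h2 using hf
  have iv : ∀ m, (f m).2.2 ∈ 𝓝 (f m).1 := fun m => by
    induction m with
    | zero => simp [f0]
    | succ m ih => exact (h2 m (by rwa [h1 m m le_rfl])).choose_spec.2.2.1
  choose δ d0 d1 d2 d3 d4 d5 d6 d7 d8 using fun m => h2 m (by rw [h1 m m le_rfl]; exact iv m)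
  have fm : ∀ m, fam (fun i => (H m i).2.1) m = fam (fun i => (f i).2.1) m := fun m =>
    Set.ext fun g => exists_congr fun i => and_congr_right fun hi => by
      simp only [h1 m i hi]
      exact or_congr_right (exists_congr fun j => and_congr_right fun hj => by rw [h1 m j hj])
  simp only [h1 _ _ le_rfl, fm] at d1 d3 d5 d6 d8
  have an : Antitone fun m => (f m).2.2 := antitone_nat_of_succ_le fun m p e => (d3 m e).1
  have o1 : ∀ m, ∀ p ∈ (f m).2.2, (f m).2.1 p = 1 := fun m => by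
    cases m
    exacts [by simp [f0], d4 _]
  have ml : ∀ m n, m < n → (f m).2.1 * (f n).2.1 = (f n).2.1 := fun m n e => by
    obtain ⟨n, rfl⟩ := Nat.exists_eq_add_one_of_ne_zero (Nat.ne_zero_of_lt e)
    ext p
    by_cases hp : p ∈ (f n).2.2
    · simp [o1 m p (an (Nat.le_of_lt_succ e) hp)]
    · simp [d5 n p hp]
  refine ⟨fun m => (f m).1, fun m => (f m).2.1, fun m => ?_, ml, fun m n => ?_,
    fun m F z z' a b => d1 m F a z z' ((dist_pi_lt_iff (d0 m)).2 fun p => ?_),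
    fun m F s z a b => d8 m F s z a fun p => (b p).imp fun l e => ⟨e.1, by rw [h1 m l e.1, e.2]⟩⟩
  · cases m
    exacts [by rw [f0]; exact (ContinuousMap.norm_le _ zero_le_one).2 (by simp), d7 _]
  · split_ifs with e
    · exact o1 m _ (an e (mem_of_mem_nhds (iv n)))
    · obtain rfl | e := (Nat.succ_le_of_lt (not_le.1 e)).eq_or_lt
      exacts [d6 n, by rw [← ml _ _ e]; simp [d6 n]]
  · have cl : ∀ l, m ≤ l → dist (f l).1 (f m).1 < δ m / 2 := fun l e => by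
      obtain rfl | e := e.eq_or_lt
      exacts [by simpa using d0 _, (d3 m (an e (mem_of_mem_nhds (iv l)))).2]
    obtain e | ⟨l, l', e1, e2, e3, e4⟩ := b p
    · simpa [e] using d0 m
    · rw [e3, e4]
      linarith [dist_triangle_right (f l).1 (f l').1 (f m).1, cl l e1, cl l' e2]

end Pool.Agent.H90.Sy
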