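import Mathlib
import Pool.Agent.H90.SyB

set_option maxSynthPendingDepth 4

namespace Pool.Agent.H90.Sy

open Filter Topology Function Finset

variable {Ω : Type} [MetricSpace Ω] [CompactSpace Ω] {k : ℕ}

def sg (m i : ℕ) (s : Fin (m + 2)) : Fin (m + 1) :=
  ⟨if s ≤ i then if s ≤ m then s else 0 else s - 1, by split_ifs <;> omega⟩

def EL (τ : C(Fin (k + 2) → Ω, ℂ) →L[ℂ] ℂ) (κ : ℝ) : Prop :=
  ∀ (ι : Type) [Fintype ι] (φ : ι → Fin (k + 2)) (a : ι → C(Ω, ℂ)) (w : C(Fin (k + 2) → Ω, ℂ)),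
    (∀ z, w z = ∏ s, a s (z (φ s))) → ‖τ w‖ ≤ κ * ∏ s, ‖a s‖

structure Hy (h : HH Ω k) (C : ℝ) : Prop where
  h0 : 0 ≤ C
  h1 : ∀ τ κ, 0 < κ → EL τ κ → ∀ F, ‖τ (h F)‖ ≤ κ * (C * ∏ s, ‖F s‖)
  h2 : ∀ F (E : C(Ω, ℂ)) z, (∀ s : Fin k, F s.castSucc * F s.succ = 0) →
    F (Fin.last k) (z 0) = 0 → E (z 0) = 1 → h F z = h (update F 0 (E * F 0)) z
  h3 : ∀ F (z : Fin (k + 1) → Ω), ∑ i ∈ range (k + 2), (-1) ^ i * h F (z ∘ sg k i) =
    ∑ i ∈ range (k + 2), (-1) ^ i * ∏ s, F s (z (sg k i s.succ))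

lemma avg {ψ : ℕ → C(Ω, ℂ) → ℂ} (hl : (∀ n, IsLinearMap ℂ (ψ n)) ∨ ∀ n f g, ψ n f = ψ n g)
    {R : ℕ → C(Ω, ℂ)} (h : ∀ n m, n < m → R n * R m = 0) (hb : ∀ n, ‖R n‖ ≤ 2) {N : ℕ} {K : ℝ}
    (H : ∀ σ : ℕ → ℝ, (∀ n, |σ n| ≤ 1) → ∀ f, ‖f‖ ≤ 2 → (∑ n ∈ range N, σ n * ψ n f).re ≤ K) :
    (∑ n ∈ range N, ψ n (R n)).re ≤ K := by
  obtain hl | hl := hl
  · obtain ⟨σ, s1, s2⟩ := Cs.signs (fun n m => ψ n (R m)) N
    refine s2.trans (Eq.trans_le ?_ (H σ s1 _ (orth (range N) h hb (c := fun n => σ n)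
      fun n => by simpa using s1 n)))
    congr 1
    refine sum_congr rfl fun n _ => ?_
    rw [show ψ n = (hl n).mk' _ from rfl]
    simp only [map_sum, map_smul, smul_eq_mul, mul_sum, mul_assoc]
  · simpa [hl _ (R _) 0] using H 1 (by simp) 0 (by simp)

def up (F : Fin (k + 1) → C(Ω, ℂ)) (a : ℕ) (f : C(Ω, ℂ)) (s : Fin (k + 1)) : C(Ω, ℂ) :=
  if s = a then f else F s

lemma up_lin (h : HH Ω k) (a : ℕ) : (∀ F, IsLinearMap ℂ fun f => h (up F a f)) ∨
    ∀ F f g, h (up F a f) = h (up F a g) := by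
  by_cases e : a < k + 1
  · refine .inl fun F => ?_
    have : ∀ f, up F a f = update F ⟨a, e⟩ f := fun f => by
      ext1 s; simp [up, update_apply, Fin.ext_iff]
    simp only [this]
    exact ⟨h.map_update_add F _, h.map_update_smul F _⟩
  · exact .inr fun F f g => congrArg h (funext fun s => by simp [up, show (s : ℕ) ≠ a by omega])

noncomputable def RR (Q : ℕ → C(Ω, ℂ)) (d : ℕ × ℕ) : C(Ω, ℂ) := Q d.1 - Q d.2

noncomputable def Ph (h : HH Ω k) (y : ℕ → Ω) (Q : ℕ → C(Ω, ℂ)) (β : Fin (k + 2) → ℕ) (c : Cf) :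
    ℂ := h (fun s => RR Q (c s)) fun p => y (c (β p)).1

variable {h : HH Ω k} {y : ℕ → Ω} {Q : ℕ → C(Ω, ℂ)} {C : ℝ}

lemma Ch.n2 (H : Ch h y Q) (d : ℕ × ℕ) : ‖RR Q d‖ ≤ 2 :=
  (norm_sub_le _ _).trans (by linarith [H.nm d.1, H.nm d.2])

lemma Ch.rq (H : Ch h y Q) {d : ℕ × ℕ} {n : ℕ} (h1 : d.1 < d.2) (h2 : d.2 < n) :
    RR Q d * Q n = 0 := by rw [RR, sub_mul, H.mul _ _ h2, H.mul _ _ (h1.trans h2), sub_self]

lemma Ch.rr (H : Ch h y Q) {d d' : ℕ × ℕ} (h1 : d.1 < d.2) (h2 : d.2 < d'.1) (h3 : d'.1 < d'.2) :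
    RR Q d * RR Q d' = 0 := by
  rw [RR.eq_1 Q d', mul_sub, H.rq h1 h2, H.rq h1 (h2.trans h3), sub_self]

lemma good (H : Ch h y Q) (G : Hy h C) (β : Fin (k + 2) → ℕ) :
    Good (C * 2 ^ (k + 1)) (Ph h y Q β) := by
  have pr : ∀ F : Fin (k + 1) → C(Ω, ℂ), (∀ s, ‖F s‖ ≤ 2) → C * ∏ s, ‖F s‖ ≤ C * 2 ^ (k + 1) :=
    fun F hF => mul_le_mul_of_nonneg_left ((prod_le_prod (fun _ _ => norm_nonneg _)
      fun s _ => hF s).trans_eq (by simp)) G.h0
  refine ⟨fun c => ?_, fun a b c hab d d' h1 h2 N D κ k0 hD => ?_⟩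
  · refine (G.h1 (ContinuousMap.evalCLM ℂ _) 1 one_pos (fun ι _ φ a w hw => ?_) _).trans
      ((one_mul _).trans_le (pr _ fun _ => H.n2 _))
    rw [ContinuousMap.evalCLM_apply, hw, norm_prod, one_mul]
    exact prod_le_prod (fun _ _ => norm_nonneg _) fun s _ => (a s).norm_coe_le_norm _
  let z : ℕ → ℕ → Fin (k + 2) → Ω := fun n m p =>
    y (update (update c a (d n)) b (d' m) (β p)).1
  have H0 : ∀ σ μ : ℕ → ℝ, (∀ n, |σ n| ≤ 1) → (∀ n, |μ n| ≤ 1) → ∀ F, (∀ s, ‖F s‖ ≤ 2) →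
      (∑ n ∈ range N, σ n * ∑ m ∈ range N, μ m * (D n m * h F (z n m))).re ≤
        κ * (C * 2 ^ (k + 1)) := fun σ μ s1 s2 F hF => by
    have := G.h1 (∑ n ∈ range N, (σ n : ℂ) • ∑ m ∈ range N, (μ m : ℂ) • D n m •
      ContinuousMap.evalCLM ℂ (z n m)) κ k0 (fun ι _ φ f w hw => ?_) F
    · simp only [_root_.sum_apply, _root_.smul_apply, smul_eq_mul, ContinuousMap.evalCLM_apply] at this
      exact (Complex.re_le_norm _).trans (this.trans (mul_le_mul_of_nonneg_left (pr F hF) k0.le))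
    rw [← prod_filter_mul_prod_filter_not univ fun s => β (φ s) = a]
    refine Eq.trans_le ?_ (hD (fun n => σ n * ∏ s with β (φ s) = a, f s (y (d n).1))
      (fun m => μ m * ∏ s with ¬β (φ s) = a, f s (y (update c b (d' m) (β (φ s))).1)) _ _
      (fun n => ?_) fun n => ?_)
    · simp only [_root_.sum_apply, _root_.smul_apply, smul_eq_mul, ContinuousMap.evalCLM_apply, hw,
        mul_sum]
      congr 1
      refine sum_congr rfl fun n _ => sum_congr rfl fun m _ => ?_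
      rw [← prod_filter_mul_prod_filter_not univ fun s => β (φ s) = a,
        prod_congr rfl fun s hs => show f s (z n m (φ s)) = f s (y (d n).1) by
          simp [z, (mem_filter.1 hs).2, hab],
        prod_congr rfl fun s hs => show f s (z n m (φ s)) =
            f s (y (update c b (d' m) (β (φ s))).1) by
          simp [z, update_apply, (mem_filter.1 hs).2]]
      ring
    all_goals
      rw [norm_mul, norm_prod]
      refine (mul_le_of_le_one_left (prod_nonneg fun _ _ => norm_nonneg _) (by simp [s1, s2])).trans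
        (prod_le_prod (fun _ _ => norm_nonneg _) fun s _ => (f s).norm_coe_le_norm _)
  have e : ∀ n m, Ph h y Q β (update (update c a (d n)) b (d' m)) =
      h (up (up (fun s => RR Q (c s)) b (RR Q (d' m))) a (RR Q (d n))) (z n m) := fun n m =>
    congrArg (fun F => h F (z n m)) (funext fun s => by
      simp only [up, update_apply]; split_ifs <;> first | rfl | omega)
  have cm : ∀ (F : Fin (k + 1) → C(Ω, ℂ)) f g, up (up F b g) a f = up (up F a f) b g :=
    fun F f g => funext fun s => by simp only [up]; split_ifs <;> first | rfl | omega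
  simp only [e]
  refine avg (ψ := fun n f => ∑ m ∈ range N,
      D n m * h (up (up (fun s => RR Q (c s)) b (RR Q (d' m))) a f) (z n m))
    ((up_lin h a).imp (fun l n => ⟨fun f g => ?_, fun t f => ?_⟩) fun l n f g => ?_)
    (fun n m e => H.rr (h1.1 n) (h1.2 n m e) (h1.1 m)) (fun _ => H.n2 _) fun σ s1 f hf => ?_
  · simp [(l _).map_add, mul_add, sum_add_distrib]
  · simp [(l _).map_smul, mul_sum, mul_left_comm]
  · simp only [l _ f g]
  simp only [mul_sum, cm]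
  rw [sum_comm]
  refine avg (ψ := fun m g => ∑ n ∈ range N,
      σ n * (D n m * h (up (up (fun s => RR Q (c s)) a f) b g) (z n m)))
    ((up_lin h b).imp (fun l n => ⟨fun f g => ?_, fun t f => ?_⟩) fun l n f g => ?_)
    (fun n m e => H.rr (h2.1 n) (h2.2 n m e) (h2.1 m)) (fun _ => H.n2 _) fun μ s2 g hg => ?_
  · simp [(l _).map_add, mul_add, sum_add_distrib]
  · simp [(l _).map_smul, mul_sum, mul_left_comm]
  · simp only [l _ f g]
  refine Eq.trans_le ?_ (H0 σ μ s1 s2 (up (up (fun s => RR Q (c s)) a f) b g) fun s => by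
    simp only [up]; split_ifs; exacts [hg, hf, H.n2 _])
  simp only [mul_sum]
  rw [sum_comm]
  simp only [mul_left_comm]

noncomputable def vl (h : HH Ω k) (y : ℕ → Ω) (Q : ℕ → C(Ω, ℂ)) (β : Fin (k + 2) → ℕ) : ℂ :=
  (List.range (k + 2)).foldr EE (Ph h y Q β) 0

def l0 (k a : ℕ) : List ℕ := (List.range (k + 1)).filter (· ≠ a)

lemma nes (H : Ch h y Q) (G : Hy h C) (β : Fin (k + 2) → ℕ) {a p q : ℕ} (ha : a ≤ k)
    (e : p = a ∧ q = k + 1 ∨ q = a ∧ p = k + 1) {ε : ℝ} (hε : 0 < ε) :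
    ∀ᶠ c in FF (l0 k a) 0, ∀ᶠ d in VV, ∀ᶠ d' in VV,
      ‖Ph h y Q β (update (update c p d) q d') - vl h y Q β‖ < ε := by
  have : (List.range (k + 2)).Perm (l0 k a ++ [p, q]) :=
    (List.perm_ext_iff_of_nodup List.nodup_range (List.nodup_append.2
      ⟨List.nodup_range.filter _, by simp; omega, by simp [l0]; omega⟩)).2 (by simp [l0]; omega)
  rw [vl, (good H G β).perm this]
  exact (ev_two (P := fun c => ‖Ph h y Q β c - _‖ < ε)).1 ((Metric.tendsto_nhds.1
    ((good H G β).tf _ 0) ε hε).mono fun c hc => by rwa [← dist_eq_norm])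

def ga (k u j : ℕ) (p : Fin (k + 2)) : ℕ := if p ≤ j then p else if p = j + 1 then u else p - 1

lemma bnd (c : Cf) (k M : ℕ) : ∃ b, M ≤ b ∧ ∀ s ≤ k, (c s).1 ≤ b ∧ (c s).2 ≤ b :=
  ((eventually_ge_atTop M).and ((eventually_all_finite (Set.finite_Iic k)).2 fun _ _ =>
    (eventually_ge_atTop _).and (eventually_ge_atTop _))).exists

omit [CompactSpace Ω] in
lemma fam_up {c : Cf} {b m n : ℕ} (hb : ∀ s ≤ k, (c s).1 ≤ b ∧ (c s).2 ≤ b) (h1 : b ≤ m)
    (h2 : n ≤ m) (i s : Fin (k + 1)) : update (fun s : Fin (k + 1) => RR Q (c s)) i (Q n) s ∈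
      fam Q m := by
  rw [update_apply]
  split_ifs
  exacts [⟨n, h2, .inl rfl⟩, ⟨_, (hb s (by omega)).1.trans h1, .inr
    ⟨_, (hb s (by omega)).2.trans h1, rfl⟩⟩]

lemma eps {ε : ℝ} (hε : 0 < ε) : ∃ M : ℕ, ∀ m : ℕ, M ≤ m → 1 / ((m : ℝ) + 1) ≤ ε :=
  eventually_atTop.1 (tendsto_one_div_add_atTop_nhds_zero_nat.eventually (eventually_le_nhds hε))

lemma clA (H : Ch h y Q) (G : Hy h C) (hk : 1 ≤ k) {j : ℕ} (hj : j ≤ k) :
    vl h y Q (ga k 0 j) = vl h y Q (ga k (k + 1) j) := by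
  refine eq_of_forall_dist_le fun ε hε => ?_
  have e0 : 0 < ε / 3 := by positivity
  obtain ⟨M, hM⟩ := eps e0
  obtain ⟨c, a1, a2, c1, -, c2⟩ := ((nes H G (ga k 0 j) k.zero_le (.inl ⟨rfl, rfl⟩) e0).and
    ((nes H G (ga k (k + 1) j) k.zero_le (.inl ⟨rfl, rfl⟩) e0).and
      (sep (l := l0 k 0) (List.nodup_range.filter _) 0 0))).exists
  obtain ⟨b, b1, b2⟩ := bnd c k M
  obtain ⟨d, a1, a2, d1, d2⟩ := (a1.and (a2.and (ev_gt b))).exists
  obtain ⟨d', a1, a2, d3, -⟩ := (a1.and (a2.and (ev_gt d.1))).exists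
  simp only [l0, List.mem_filter, List.mem_range, decide_eq_true_eq] at c1 c2
  have e1 : (fun s : Fin (k + 1) => RR Q (update (update c 0 d) (k + 1) d' s)) =
      update (fun s : Fin (k + 1) => RR Q (c s)) 0 (RR Q d) := funext fun s => by
    simp only [update_apply, Fin.ext_iff, Fin.val_zero]; split_ifs <;> first | rfl | omega
  have e2 : ∀ (f E : C(Ω, ℂ)) z, z 0 = y d.1 → RR Q (c 1) * f = 0 → E (y d.1) = 1 →
      h (update (fun s : Fin (k + 1) => RR Q (c s)) 0 f) z =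
        h (update (fun s : Fin (k + 1) => RR Q (c s)) 0 (E * f)) z := fun f E z z0 hf hE => by
    refine (G.h2 _ E z (fun s => ?_) ?_ (z0 ▸ hE)).trans (by rw [update_idem, update_self])
    · rw [update_of_ne (Fin.succ_ne_zero s), update_apply]
      split_ifs with e
      · rw [mul_comm, ← hf, Fin.val_succ, show (s : ℕ) = 0 from congrArg Fin.val e]
      · have e : (s : ℕ) ≠ 0 := fun e' => e (Fin.ext e')
        have a := c1 s ⟨by omega, e⟩
        have a' := c1 (s + 1) ⟨by omega, by omega⟩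
        obtain e | e := c2 s ⟨by omega, e⟩ (s + 1) ⟨by omega, by omega⟩ (by omega)
        exacts [H.rr a.2 e a'.2, (mul_comm _ _).trans (H.rr a'.2 e a.2)]
    · have := b2 k le_rfl
      rw [update_of_ne (Fin.ne_of_val_ne (show k ≠ 0 by omega)), z0]
      simp [RR, H.val, show (c k).1 ≤ d.1 by omega, show (c k).2 ≤ d.1 by omega]
  have e3 : ∀ z, z 0 = y d.1 → h (update (fun s : Fin (k + 1) => RR Q (c s)) 0 (RR Q d)) z =
      h (update (fun s : Fin (k + 1) => RR Q (c s)) 0 (Q d.1)) z := fun z z0 => by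
    have a := (c1 1 ⟨by omega, by omega⟩).2
    have a' := (b2 1 hk).2.trans_lt d1
    rw [e2 _ (Q d.1) z z0 (H.rr a a' d2) (by simp [H.val]),
      e2 (Q d.1) (RR Q d) z z0 (H.rq a a') (by simp [RR, H.val, d2]), mul_comm]
  rw [Ph, e1, e3 _ (by simp [ga])] at a1 a2
  have := (H.K d.1 _ (fun p => y (update (update c 0 d) (k + 1) d' (ga k 0 j p)).1)
    (fun p => y (update (update c 0 d) (k + 1) d' (ga k (k + 1) j p)).1)
    (fam_up b2 d1.le le_rfl 0) fun p => by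
      by_cases e : (p : ℕ) = j + 1
      · exact .inr ⟨d.1, d'.1, le_rfl, d3.le, by simp [ga, e], by simp [ga, e]⟩
      · exact .inl (by simp [ga, e])).trans (hM _ (by omega))
  rw [dist_eq_norm]
  refine Eq.trans_le ?_ ((norm_add_le_of_le (norm_sub_le_of_le this a1.le) a2.le).trans_eq (by ring))
  congr 1
  ring

lemma clB (H : Ch h y Q) (G : Hy h C) {j : ℕ} (hj : j < k) :
    vl h y Q (fun p => sg k (j + 1) p) =
      vl h y Q (ga k (k + 1) j) + vl h y Q (ga k (k + 1) (j + 1)) := by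
  refine eq_of_forall_dist_le fun ε hε => ?_
  have e0 : 0 < ε / 9 := by positivity
  obtain ⟨M, hM⟩ := eps e0
  obtain ⟨c, a1, a2, a3⟩ := ((nes H G (fun p => sg k (j + 1) p) hj (.inl ⟨rfl, rfl⟩) e0).and
    ((nes H G (ga k (k + 1) j) hj (.inr ⟨rfl, rfl⟩) e0).and
      (nes H G (ga k (k + 1) (j + 1)) hj (.inl ⟨rfl, rfl⟩) e0))).exists
  obtain ⟨b, b1, b2⟩ := bnd c k M
  let i : Fin (k + 1) := ⟨j + 1, by omega⟩
  let z : ℕ → ℕ → Fin (k + 2) → Ω := fun p q t =>
    y (if t = j + 1 then p else if t = j + 2 then q else (c (sg k (j + 1) t)).1)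
  let W : C(Ω, ℂ) → ℕ → ℕ → ℂ := fun f p q =>
    h (update (fun s : Fin (k + 1) => RR Q (c s)) i f) (z p q)
  have hB : ∀ n p q, b < n → p < n → q < n → ‖W (Q n) p q‖ ≤ ε / 9 := fun n p q h1 h2 h3 => by
    obtain ⟨m, rfl⟩ := Nat.exists_eq_add_one_of_ne_zero (Nat.ne_zero_of_lt h1)
    have := H.B m _ i (z p q) (fam_up b2 (by omega) m.zero_le i) fun t => ⟨_, by
      have := (b2 (sg k (j + 1) t) (by omega)).1
      split_ifs <;> omega, rfl⟩
    rw [update_idem] at this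
    exact this.trans (hM _ (by omega))
  have hK : ∀ m p q q', b ≤ m → m ≤ q → m ≤ q' → ‖W (Q m) p q - W (Q m) p q'‖ ≤ ε / 9 :=
    fun m p q q' h1 h2 h3 => (H.K m _ _ _ (fam_up b2 h1 le_rfl i) fun t => by
      by_cases e : (t : ℕ) = j + 2
      · exact .inr ⟨q, q', h2, h3, by simp [z, e], by simp [z, e]⟩
      · exact .inl (by simp [z, e])).trans (hM _ (by omega))
  have t := fun p => Metric.tendsto_nhds.1 (ul (hyperfilter ℕ) (φ := fun s => W (Q s) p s) fun s =>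
    (ContinuousMap.norm_coe_le_norm _ _).trans ((h.toContinuousLinearMap _ i).le_of_opNorm_le_of_le
      le_rfl (H.nm s))) _ e0
  obtain ⟨d, a1, a2, a3, ⟨d1, d2⟩, t1⟩ := (a1.and (a2.and (a3.and ((ev_gt b).and
    (ev_VV.2 (.of_forall t) : ∀ᶠ d : ℕ × ℕ in VV, dist (W (Q d.2) d.1 d.2)
      (limUnder (hyperfilter ℕ) fun s => W (Q s) d.1 s) < ε / 9))))).exists
  obtain ⟨d', a1, a2, a3, ⟨d3, d4⟩, t2⟩ := (a1.and (a2.and (a3.and ((ev_gt d.2).and
    (ev_VV.2 ((t d.1).mono fun _ e => .of_forall fun _ => e) :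
      ∀ᶠ d' : ℕ × ℕ in VV, dist (W (Q d'.1) d.1 d'.1)
        (limUnder (hyperfilter ℕ) fun s => W (Q s) d.1 s) < ε / 9))))).exists
  have sb : ∀ (d : ℕ × ℕ) p q, W (RR Q d) p q = W (Q d.1) p q - W (Q d.2) p q := fun d p q =>
    congrArg (· (z p q)) (h.map_update_sub _ i _ _)
  have e1 : Ph h y Q (fun p => sg k (j + 1) p) (update (update c (j + 1) d) (k + 1) d') =
      W (RR Q d) d.1 d.1 := by
    refine congrArg₂ (fun F z => h F z) (funext fun s => ?_) (funext fun s => congrArg y ?_) <;>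
    simp only [update_apply, Fin.ext_iff, i, sg] <;> split_ifs <;> first | rfl | omega
  have e2 : Ph h y Q (ga k (k + 1) j) (update (update c (k + 1) d) (j + 1) d') =
      W (RR Q d') d.1 d'.1 := by
    refine congrArg₂ (fun F z => h F z) (funext fun s => ?_) (funext fun s => congrArg y ?_) <;>
    simp only [update_apply, Fin.ext_iff, i, sg, ga] <;> split_ifs <;> first | rfl | omega
  have e3 : Ph h y Q (ga k (k + 1) (j + 1)) (update (update c (j + 1) d) (k + 1) d') =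
      W (RR Q d) d.1 d'.1 := by
    refine congrArg₂ (fun F z => h F z) (funext fun s => ?_) (funext fun s => congrArg y ?_) <;>
    simp only [update_apply, Fin.ext_iff, i, sg, ga] <;> split_ifs <;> first | rfl | omega
  rw [e1, sb] at a1
  rw [e2, sb] at a2
  rw [e3, sb] at a3
  have f1 := hK d.1 d.1 d.1 d'.1 d1.le le_rfl (by omega)
  have f2 := hB d.2 d.1 d.1 (by omega) d2 d2
  have f3 := hK d.2 d.1 d'.1 d.2 (by omega) d3.le le_rfl
  have f4 := hB d'.2 d.1 d'.1 (by omega) (by omega) d4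
  rw [dist_eq_norm] at t1 t2 ⊢
  have := norm_sub_le_of_le (norm_add_le_of_le (norm_add_le_of_le (norm_sub_le_of_le
    (norm_add_le_of_le (norm_add_le_of_le (norm_sub_le_of_le (norm_add_le_of_le f1 f3) f2)
      t1.le) f4) t2.le) a2.le) a3.le) a1.le
  refine Eq.trans_le ?_ (this.trans_eq (by ring))
  congr 1
  ring

theorem core [Nonempty Ω] [∀ y : Ω, (𝓝[≠] y).NeBot] (hk : 1 ≤ k) (G : Hy h C) : False := by
  obtain ⟨y, Q, H⟩ := exCh h
  have s1 : ∀ j ≤ k, ∑ i ∈ range (j + 1), (-1) ^ i * vl h y Q (fun p => sg k i p) =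
      (-1) ^ j * vl h y Q (ga k 0 j) := fun j hj => by
    induction j with
    | zero =>
      rw [sum_range_one]
      congr 2
      ext p
      simp only [sg, ga]
      split_ifs <;> omega
    | succ j ih =>
      rw [sum_range_succ, ih (by omega), clB H G hj, clA H G hk hj, clA H G hk (j := j) (by omega)]
      ring
  have s2 : ∑ i ∈ range (k + 2), (-1) ^ i * vl h y Q (fun p => sg k i p) = 0 := by
    rw [sum_range_succ, s1 k le_rfl, show (fun p => (sg k (k + 1) p : ℕ)) = ga k 0 k from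
      funext fun p => by simp only [sg, ga]; split_ifs <;> omega]
    ring
  have t := tendsto_finsetSum (range (k + 2)) fun i _ =>
    ((good H G fun p => sg k i p).tf (List.range (k + 2)) 0).const_mul ((-1) ^ i)
  refine zero_ne_one (s2.symm.trans (tendsto_nhds_unique_of_eventuallyEq t tendsto_const_nhds
    ((sep List.nodup_range 0 0).mono fun c ⟨c1, _, c2⟩ => ?_)))
  simp only [List.mem_range] at c1 c2
  have v : ∀ a b, a < k + 2 → b < k + 2 → RR Q (c a) (y (c b).1) = if a = b then 1 else 0 :=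
    fun a b ha hb => by
      have := c1 a ha
      have := c1 b hb
      have := c2 a ha b hb
      simp only [RR, ContinuousMap.sub_apply, H.val]
      split_ifs <;> grind
  refine (G.h3 (fun s => RR Q (c s)) fun p => y (c p).1).trans ?_
  rw [sum_eq_single_of_mem 0 (by simp) fun i _ hi => ?_, prod_eq_one fun s _ => ?_]
  · simp
  · rw [v _ _ (by omega) (by omega), if_pos (by simp [sg])]
  · rw [prod_eq_zero (mem_univ 0), mul_zero]
    rw [v _ _ (by omega) (by omega), if_neg]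
    simp only [sg, Fin.val_succ, Fin.val_zero]
    split_ifs <;> first | omega | simp

end Pool.Agent.H90.Sy
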