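import Mathlib

namespace Pool.Agent.H90.Sy

variable (A : Type) [NormedRing A] [NormedAlgebra ℂ A]

/-- a Banach `A`-bimodule: `l a x` is `a · x` and `r x a` is `x · a` -/
structure BiMod : Type 1 where
  X : Type
  [grp : NormedAddCommGroup X]
  [spc : NormedSpace ℂ X]
  cpl : CompleteSpace X
  l : A → X → X
  r : X → A → X
  l_bil : IsBoundedBilinearMap ℂ fun p : A × X => l p.1 p.2
  r_bil : IsBoundedBilinearMap ℂ fun p : X × A => r p.1 p.2
  l_mul : ∀ a b x, l (a * b) x = l a (l b x)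
  r_mul : ∀ x a b, r x (a * b) = r (r x a) b
  l_r : ∀ a x b, l a (r x b) = r (l a x) b

attribute [instance] BiMod.grp BiMod.spc

variable {A}

/-- `a · x = x · a` -/
def Symm (M : BiMod A) : Prop := ∀ a x, M.l a x = M.r x a

/-- the Hochschild coboundary of an `n`-cochain -/
noncomputable def cob (M : BiMod A) {n : ℕ} (f : (Fin n → A) → M.X) (a : Fin (n + 1) → A) : M.X :=
  M.l (a 0) (f (Fin.tail a)) +
    ∑ i : Fin n, (-1 : ℂ) ^ ((i : ℕ) + 1) • f (Fin.contractNth i.castSucc (· * ·) a) +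
    (-1 : ℂ) ^ (n + 1) • M.r (f (Fin.init a)) (a (Fin.last n))

/-- `f` is a bounded `n`-linear map -/
def Coch (M : BiMod A) {n : ℕ} (f : (Fin n → A) → M.X) : Prop :=
  ∃ g : ContinuousMultilinearMap ℂ (fun _ : Fin n => A) M.X, ∀ a, g a = f a

/-- the continuous Hochschild cohomology of degree `n + 1` vanishes -/
def HZero (M : BiMod A) (n : ℕ) : Prop :=
  ∀ f : (Fin (n + 1) → A) → M.X, Coch M f → (∀ a, cob M f a = 0) →
    ∃ g : (Fin n → A) → M.X, Coch M g ∧ ∀ a, f a = cob M g a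

/-- a bounded derivation into the dual bimodule -/
def IsDer (M : BiMod A) (D : A → StrongDual ℂ M.X) : Prop :=
  IsBoundedLinearMap ℂ D ∧ ∀ a b x, D (a * b) x = D b (M.r x a) + D a (M.l b x)

variable (A)

/-- bounded derivations into dual bimodules are inner -/
def Amenable : Prop :=
  ∀ (M : BiMod A) (D : A → StrongDual ℂ M.X), IsDer M D →
    ∃ Φ : StrongDual ℂ M.X, ∀ a x, D a x = Φ (M.r x a) - Φ (M.l a x)

end Pool.Agent.H90.Sy
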