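import Mathlib
import Pool.Agent.H90.SyC
import Pool.Agent.H90.SyDefs

set_option maxSynthPendingDepth 4

namespace Pool.Agent.H90.Sy

open Filter Topology Function Finset BoundedContinuousFunction

lemma dd (F : ℕ → ℕ → ℂ) (n : ℕ) (h : ∀ i j, i ≤ j → j < n → F j i = F i (j + 1)) :
    ∑ a ∈ range n, (-1) ^ a * ∑ b ∈ range (n + 1), (-1) ^ b * F a b = 0 := by
  induction n with
  | zero => simp
  | succ n ih =>
    have := ih fun i j a b => h i j a (by omega)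
    rw [sum_congr rfl fun a _ => by rw [sum_range_succ, mul_add], sum_add_distrib, sum_range_succ,
      this, zero_add, mul_sum, ← sum_add_distrib]
    refine sum_eq_zero fun a ha => ?_
    rw [h a n (Nat.lt_succ_iff.1 (mem_range.1 ha)) n.lt_succ_self]
    ring

lemma dd' {m : ℕ} (G : (Fin (m + 3) → Fin (m + 1)) → ℂ) : ∑ a ∈ range (m + 2), (-1) ^ a *
    ∑ b ∈ range (m + 3), (-1) ^ b * G (fun s => sg m a (sg (m + 1) b s)) = 0 :=
  dd (fun a b => G fun s => sg m a (sg (m + 1) b s)) _ fun i j h1 h2 => congrArg G <|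
    funext fun s => Fin.ext (by simp only [sg]; split_ifs <;> omega)

lemma sg0 (m i : ℕ) : sg m i 0 = 0 := Fin.ext (by simp [sg])

variable {Ω : Type} [MetricSpace Ω] [CompactSpace Ω] {k : ℕ}

noncomputable def cb {n : ℕ} (f : (Fin n → C(Ω, ℂ)) → ℂ) (p : Ω) (a : Fin (n + 1) → C(Ω, ℂ)) :
    ℂ := a 0 p * f (Fin.tail a) +
  ∑ i : Fin n, (-1 : ℂ) ^ ((i : ℕ) + 1) * f (Fin.contractNth i.castSucc (· * ·) a) +
    (-1 : ℂ) ^ (n + 1) * (a (Fin.last n) p * f (Fin.init a))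

omit [CompactSpace Ω] in
lemma cb_sum {n : ℕ} (s : Finset ℕ) (c : ℕ → ℂ) (f : ℕ → (Fin n → C(Ω, ℂ)) → ℂ) (p : Ω)
    (a : Fin (n + 1) → C(Ω, ℂ)) :
    cb (fun a => ∑ j ∈ s, c j * f j a) p a = ∑ j ∈ s, c j * cb (f j) p a := by
  simp only [cb, mul_add, sum_add_distrib, mul_sum]
  rw [sum_comm]
  simp only [mul_left_comm]

omit [CompactSpace Ω] in
lemma link {m : ℕ} (a : Fin (m + 1) → C(Ω, ℂ)) (z : Fin (m + 1) → Ω) :
    cb (fun a => ∏ s, a s (z s.succ)) (z 0) a =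
      ∑ i ∈ range (m + 2), (-1) ^ i * ∏ s, a s (z (sg m i s.succ)) := by
  rw [sum_range_succ, sum_range_succ', sum_range, cb, add_comm (a 0 (z 0) * _)]
  congr 2
  · refine sum_congr rfl fun i _ => congrArg _ ?_
    obtain _ | m := m
    · exact i.elim0
    rw [Fin.prod_univ_succAbove _ i, Fin.contractNth_apply_of_eq _ _ _ _ rfl,
      Fin.prod_univ_succAbove _ i.castSucc, Fin.prod_univ_succAbove _ i, ContinuousMap.mul_apply,
      mul_assoc, Fin.succAbove_castSucc_self]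
    refine congrArg₂ _ (congrArg _ (congrArg z (Fin.ext ?_))) (congrArg₂ _
      (congrArg _ (congrArg z (Fin.ext ?_))) (prod_congr rfl fun s _ => ?_))
    · simp only [sg, Fin.val_succ, Fin.val_castSucc]
      split_ifs <;> omega
    · simp only [sg, Fin.val_succ]
      split_ifs <;> omega
    · rw [Fin.contractNth_apply_of_ne _ _ _ _ fun e => i.succAbove_ne s (Fin.ext e.symm)]
      have := i.succAbove_ne s
      generalize i.succAbove s = t at this ⊢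
      refine congrArg _ (congrArg z (Fin.ext ?_))
      simp only [sg, Fin.succAbove, Fin.lt_def, Fin.val_succ, Fin.val_castSucc, apply_ite Fin.val]
      split_ifs <;> omega
  · rw [Fin.prod_univ_succ, pow_zero, one_mul]
    congr 1
  · rw [Fin.prod_univ_castSucc, mul_comm]
    congr 2
    · refine funext fun s => ?_
      rw [Fin.init]
      congr 2
      exact Fin.ext (by simp [sg])
    · congr 1
      exact Fin.ext (by simp [sg])

abbrev ZZ (Ω : Type) [MetricSpace Ω] (k : ℕ) := C(Fin (k + 2) → Ω, ℂ)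

abbrev TT (Ω : Type) [MetricSpace Ω] [CompactSpace Ω] (k : ℕ) := {τ : ZZ Ω k →L[ℂ] ℂ // EL τ 1}

def DZ (w : ZZ Ω k) : Prop := ∀ z, ∑ i ∈ range (k + 2), (-1) ^ i * w (z ∘ sg k i) = 0

def XS (Ω : Type) [MetricSpace Ω] [CompactSpace Ω] (k : ℕ) :
    Submodule ℂ (ZZ Ω k × (TT Ω k →ᵇ ℂ)) where
  carrier := {x | DZ x.1 ∧ ∀ τ, x.2 τ = τ.1 x.1}
  add_mem' := fun ⟨a, b⟩ ⟨c, d⟩ => ⟨fun z => by simp [mul_add, sum_add_distrib, a z, c z],
    fun τ => by simp [b, d]⟩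
  zero_mem' := ⟨fun z => by simp, fun τ => by simp⟩
  smul_mem' := fun c x ⟨a, b⟩ => ⟨fun z => by
    simpa [mul_sum, mul_left_comm] using congrArg (c * ·) (a z), fun τ => by simp [b]⟩

lemma XS_cl : IsClosed (XS Ω k : Set (ZZ Ω k × (TT Ω k →ᵇ ℂ))) := by
  change IsClosed {x : ZZ Ω k × (TT Ω k →ᵇ ℂ) | DZ x.1 ∧ ∀ τ, x.2 τ = τ.1 x.1}
  simp only [DZ, Set.ofPred_and, Set.ofPred_forall]
  refine IsClosed.inter ?_ ?_ <;>
    exact isClosed_iInter fun _ => isClosed_eq (by fun_prop) (by fun_prop)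

noncomputable def pr : XS Ω k →L[ℂ] ZZ Ω k := (ContinuousLinearMap.fst ℂ _ _).comp (XS Ω k).subtypeL

lemma ext1 {x y : XS Ω k} (h : ∀ z, pr x z = pr y z) : x = y := by
  have h : x.1.1 = y.1.1 := ContinuousMap.ext h
  exact Subtype.ext (Prod.ext h (BoundedContinuousFunction.ext fun τ => by rw [x.2.2, y.2.2, h]))

lemma pr_D (x : XS Ω k) : DZ (pr x) := x.2.1

lemma EL_ev (z : Fin (k + 2) → Ω) : EL (ContinuousMap.evalCLM ℂ z) 1 := fun ι _ φ a w hw => by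
  rw [ContinuousMap.evalCLM_apply, hw, norm_prod, one_mul]
  exact prod_le_prod (fun _ _ => norm_nonneg _) fun s _ => (a s).norm_coe_le_norm _

noncomputable def mkX (w : ZZ Ω k) (h : DZ w) (b : ℝ) (hb : ∀ τ : TT Ω k, ‖τ.1 w‖ ≤ b) : XS Ω k :=
  ⟨(w, ofNormedAddCommGroup (fun τ => τ.1 w) (by fun_prop) b hb), h, fun _ => rfl⟩

lemma pr_mk (w : ZZ Ω k) (h : DZ w) (b : ℝ) (hb : ∀ τ : TT Ω k, ‖τ.1 w‖ ≤ b) :
    pr (mkX w h b hb) = w := rfl

lemma mkX_le {w : ZZ Ω k} (h : DZ w) {b : ℝ} (hb : ∀ τ : TT Ω k, ‖τ.1 w‖ ≤ b) (b0 : 0 ≤ b) :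
    ‖mkX w h b hb‖ ≤ b :=
  max_le ((ContinuousMap.norm_le _ b0).2 fun z => hb ⟨_, EL_ev z⟩)
    (norm_ofNormedAddCommGroup_le _ b0 hb)

lemma bd {τ : ZZ Ω k →L[ℂ] ℂ} {κ : ℝ} (k0 : 0 < κ) (h : EL τ κ) (x : XS Ω k) :
    ‖τ (pr x)‖ ≤ κ * ‖x‖ := by
  have e : ∀ w, ‖((κ : ℂ)⁻¹ • τ) w‖ = κ⁻¹ * ‖τ w‖ := fun w => by
    simp [abs_of_pos k0]
  rw [← inv_mul_le_iff₀ k0, ← e]
  exact (congrArg _ (x.2.2 ⟨_, fun ι _ φ a w hw => by
    rw [e, inv_mul_le_iff₀ k0, one_mul]; exact h ι φ a w hw⟩)).ge.trans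
    ((norm_coe_le_norm _ _).trans (norm_snd_le x.1))

noncomputable def pl (p : Fin (k + 2)) : C(Ω, ℂ) →L[ℂ] ZZ Ω k :=
  ContinuousMap.compCLM ℂ ℂ ⟨fun z => z p, by fun_prop⟩

omit [CompactSpace Ω] in
lemma pl_ap (p : Fin (k + 2)) (c : C(Ω, ℂ)) (z : Fin (k + 2) → Ω) : pl p c z = c (z p) := rfl

lemma bd2 (c : C(Ω, ℂ)) (x : XS Ω k) (τ : TT Ω k) : ‖τ.1 (pl 0 c * pr x)‖ ≤ ‖c‖ * ‖x‖ := by
  by_cases e : c = 0
  · rw [e, map_zero, zero_mul, map_zero, norm_zero, norm_zero, zero_mul]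
  refine bd (τ := τ.1 ∘L ContinuousLinearMap.mul ℂ _ (pl 0 c)) (norm_pos_iff.2 e)
    (fun ι _ φ a w hw => ?_) x
  refine (τ.2 (Option ι) (·.elim 0 φ) (·.elim c a) (pl 0 c * w) fun z => ?_).trans_eq ?_
  · rw [Fintype.prod_option, ContinuousMap.mul_apply, hw]
    rfl
  · rw [Fintype.prod_option, one_mul]
    rfl

lemma act_D (c : C(Ω, ℂ)) (x : XS Ω k) : DZ (pl 0 c * pr x) := fun z => by
  simpa only [ContinuousMap.mul_apply, pl_ap, Function.comp_apply, sg0, mul_sum, mul_left_comm, mul_zero]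
    using congrArg (c (z 0) * ·) (pr_D x z)

noncomputable def act0 (c : C(Ω, ℂ)) (x : XS Ω k) : XS Ω k := mkX _ (act_D c x) _ (bd2 c x)

lemma act0_ap (c : C(Ω, ℂ)) (x : XS Ω k) (z : Fin (k + 2) → Ω) :
    pr (act0 c x) z = c (z 0) * pr x z := rfl

noncomputable def act : C(Ω, ℂ) →L[ℂ] XS Ω k →L[ℂ] XS Ω k :=
  LinearMap.mkContinuous₂ (LinearMap.mk₂ ℂ act0
    (fun _ _ _ => ext1 fun z => by simp only [act0_ap, map_add, ContinuousMap.add_apply, add_mul])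
    (fun _ _ _ => ext1 fun z => by
      simp only [act0_ap, map_smul, ContinuousMap.smul_apply, smul_eq_mul, mul_assoc])
    (fun _ _ _ => ext1 fun z => by simp only [act0_ap, map_add, ContinuousMap.add_apply, mul_add])
    fun _ _ _ => ext1 fun z => by
      simp only [act0_ap, map_smul, ContinuousMap.smul_apply, smul_eq_mul, mul_left_comm]) 1
    fun c x => (mkX_le (act_D c x) (bd2 c x) (by positivity)).trans_eq (by rw [one_mul])

lemma act_ap (c : C(Ω, ℂ)) (x : XS Ω k) (z : Fin (k + 2) → Ω) :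
    pr (act c x) z = c (z 0) * pr x z := rfl

lemma act_bil : IsBoundedBilinearMap ℂ fun p : C(Ω, ℂ) × XS Ω k => act p.1 p.2 :=
  ⟨fun _ _ _ => by simp only [map_add]; rfl, fun _ _ _ => by simp only [map_smul]; rfl,
    fun _ _ _ => map_add _ _ _, fun _ _ _ => map_smul _ _ _, 1, one_pos, fun c x =>
      (mkX_le (act_D c x) (bd2 c x) (by positivity)).trans_eq (by rw [one_mul])⟩

noncomputable def MM (Ω : Type) [MetricSpace Ω] [CompactSpace Ω] (k : ℕ) : BiMod C(Ω, ℂ) where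
  X := XS Ω k
  cpl := XS_cl.completeSpace_coe
  l a x := act a x
  r x a := act a x
  l_bil := act_bil
  r_bil := ⟨fun _ _ _ => map_add _ _ _, fun _ _ _ => map_smul _ _ _, 
    fun x y z => act_bil.add_left y z x, fun c x y => act_bil.smul_left c y x, act_bil.bound.imp fun _ e =>
      ⟨e.1, fun x y => (e.2 y x).trans_eq (mul_right_comm _ _ _)⟩⟩
  l_mul a b x := ext1 fun z => by simp only [act_ap, ContinuousMap.mul_apply, mul_assoc]
  r_mul x a b := ext1 fun z => by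
    simp only [act_ap, ContinuousMap.mul_apply, mul_left_comm, mul_assoc]
  l_r a x b := ext1 fun z => by simp only [act_ap, mul_left_comm]

lemma cob_ap {n : ℕ} (f : (Fin n → C(Ω, ℂ)) → XS Ω k) (a : Fin (n + 1) → C(Ω, ℂ))
    (z : Fin (k + 2) → Ω) : pr (cob (MM Ω k) f a) z = cb (fun a => pr (f a) z) (z 0) a := by
  have : cob (MM Ω k) f a = act (a 0) (f (Fin.tail a)) +
    ∑ i : Fin n, (-1 : ℂ) ^ ((i : ℕ) + 1) • f (Fin.contractNth i.castSucc (· * ·) a) +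
    (-1 : ℂ) ^ (n + 1) • act (a (Fin.last n)) (f (Fin.init a)) := rfl
  rw [this]
  simp only [cb, map_add, map_sum, map_smul, ContinuousMap.add_apply, ContinuousMap.sum_apply,
    ContinuousMap.smul_apply, act_ap, smul_eq_mul]

noncomputable def el {n : ℕ} (φ : Fin n → Fin (k + 2)) :
    ContinuousMultilinearMap ℂ (fun _ : Fin n => C(Ω, ℂ)) (ZZ Ω k) :=
  (ContinuousMultilinearMap.mkPiAlgebra ℂ (Fin n) (ZZ Ω k)).compContinuousLinearMap
    fun s => pl (φ s)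

lemma el_ap {n : ℕ} (φ : Fin n → Fin (k + 2)) (a : Fin n → C(Ω, ℂ)) (z : Fin (k + 2) → Ω) :
    el φ a z = ∏ s, a s (z (φ s)) := by simp [el, pl_ap]

noncomputable def f0 (Ω : Type) [MetricSpace Ω] [CompactSpace Ω] (k : ℕ) :
    ContinuousMultilinearMap ℂ (fun _ : Fin (k + 2) => C(Ω, ℂ)) (ZZ Ω k) :=
  ∑ i ∈ range (k + 3), (-1 : ℂ) ^ i • el fun s => sg (k + 1) i s.succ

lemma f0_ap (a : Fin (k + 2) → C(Ω, ℂ)) (z : Fin (k + 2) → Ω) : f0 Ω k a z =
    ∑ i ∈ range (k + 3), (-1) ^ i * ∏ s, a s (z (sg (k + 1) i s.succ)) := by simp [f0, el_ap]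

lemma f0_bd (a : Fin (k + 2) → C(Ω, ℂ)) (τ : TT Ω k) :
    ‖τ.1 (f0 Ω k a)‖ ≤ (k + 3 : ℕ) * ∏ s, ‖a s‖ := by
  rw [f0, _root_.sum_apply, map_sum]
  refine (norm_sum_le_of_le _ fun i _ => ?_).trans_eq (by rw [sum_const, card_range, nsmul_eq_mul])
  simpa using τ.2 _ _ a _ (el_ap _ a)

lemma f0_D (a : Fin (k + 2) → C(Ω, ℂ)) : DZ (f0 Ω k a) := fun z => by
  simp only [f0_ap]
  exact dd' fun φ => ∏ s, a s (z (φ s.succ))

noncomputable def f1 (Ω : Type) [MetricSpace Ω] [CompactSpace Ω] (k : ℕ) :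
    ContinuousMultilinearMap ℂ (fun _ : Fin (k + 2) => C(Ω, ℂ)) (XS Ω k) :=
  MultilinearMap.mkContinuous ⟨fun a => mkX _ (f0_D a) _ (f0_bd a),
    fun _ _ _ _ => ext1 fun z => by
      simp only [map_add, pr_mk, ContinuousMultilinearMap.map_update_add],
    fun _ _ _ _ => ext1 fun z => by
      simp only [map_smul, pr_mk, ContinuousMultilinearMap.map_update_smul]⟩ (k + 3 : ℕ)
    fun a => mkX_le (f0_D a) (f0_bd a) (by positivity)

lemma f1_ap (a : Fin (k + 2) → C(Ω, ℂ)) (z : Fin (k + 2) → Ω) : pr (f1 Ω k a) z =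
    ∑ i ∈ range (k + 3), (-1) ^ i * ∏ s, a s (z (sg (k + 1) i s.succ)) := f0_ap a z

theorem main [Nonempty Ω] [∀ y : Ω, (𝓝[≠] y).NeBot] (hk : 1 ≤ k) :
    ¬HZero (MM Ω k) (k + 1) := fun H => by
  obtain ⟨g0, ⟨g, rfl : ⇑g = g0⟩, hg⟩ : ∃ g0, (∃ g : ContinuousMultilinearMap ℂ
      (fun _ : Fin (k + 1) => C(Ω, ℂ)) (MM Ω k).X, ⇑g = g0) ∧ ∀ a, f1 Ω k a = cob (MM Ω k) g0 a := by
    refine (H (f1 Ω k) ⟨f1 Ω k, fun _ => rfl⟩ fun a => ext1 fun z => ?_).imp fun _ e =>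
      ⟨e.1.imp fun _ => funext, e.2⟩
    refine (cob_ap (f1 Ω k) a z).trans ?_
    simp only [f1_ap]
    refine (cb_sum _ _ _ _ _).trans ((sum_congr rfl fun i _ => congrArg _ ?_).trans
      (dd' fun φ => ∏ s, a s (z (φ s.succ))))
    exact (congrArg (cb _ · a) (congrArg z (sg0 (k + 1) i).symm)).trans
      (link a (z ∘ sg (k + 1) i))
  let g' : ContinuousMultilinearMap ℂ (fun _ : Fin (k + 1) => C(Ω, ℂ)) (XS Ω k) := g
  let h : HH Ω k := el Fin.succ - pr.compContinuousMultilinearMap g'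
  have eh : ∀ a, h a = el Fin.succ a - pr (g' a) := fun a => rfl
  refine core (h := h) (C := 1 + ‖g'‖) hk ⟨by positivity, fun τ κ k0 hτ F => ?_,
    fun F E z h1 h2 h3 => ?_, fun F z => ?_⟩
  · rw [eh, map_sub, add_mul, one_mul, mul_add]
    exact norm_sub_le_of_le (hτ _ _ F _ (el_ap _ F)) ((bd k0 hτ _).trans
      (mul_le_mul_of_nonneg_left (g'.le_opNorm F) k0.le))
  · have := (f1_ap _ z).symm.trans ((congrArg (fun x : XS Ω k => pr x z) (hg (Fin.cons E F))).trans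
      (cob_ap g' _ z))
    have e2 : cb (fun a => h a z) (z 0) (Fin.cons E F) = 0 := by
      rw [← link] at this
      simp only [cb] at this
      simp only [cb, eh, ContinuousMap.sub_apply, el_ap, mul_sub, sum_sub_distrib]
      linear_combination this
    rw [cb, Fin.sum_univ_succ, sum_eq_zero fun s _ => ?_, show (Fin.cons E F : Fin (k + 2) → _)
      (Fin.last (k + 1)) = F (Fin.last k) from rfl, h2, Fin.cons_zero, h3, Fin.tail_cons,
      show Fin.contractNth (Fin.castSucc 0) (· * ·) (Fin.cons E F) = update F 0 (E * F 0) from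
        funext fun s => by cases s using Fin.cases <;> simp [Fin.contractNth]] at e2
    · simpa [sub_eq_zero, ← sub_eq_add_neg] using e2
    · rw [h.map_coord_zero s.succ ((Fin.contractNth_apply_of_eq _ _ _ _ rfl).trans (h1 s))]
      simp
  · simp only [eh, ContinuousMap.sub_apply, el_ap, mul_sub, sum_sub_distrib, pr_D (g' F) z,
      sub_zero, Function.comp_apply]

end Pool.Agent.H90.Sy
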