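import Mathlib

set_option autoImplicit false

namespace Pool.Agent.H90.SyMean

open Set Finset

variable {G : Type} [AddCommGroup G]

noncomputable def Av (g : G × ℕ) : (G → ℝ) →ₗ[ℝ] (G → ℝ) where
  toFun f := fun x => ((g.2 : ℝ) + 1)⁻¹ * ∑ j ∈ range (g.2 + 1), f (x + j • g.1)
  map_add' f h := by funext x; simp [sum_add_distrib, mul_add]
  map_smul' c f := by funext x; simp [← mul_sum]; ring

theorem Av_apply (g : G × ℕ) (f : G → ℝ) (x : G) :
    Av g f x = ((g.2 : ℝ) + 1)⁻¹ * ∑ j ∈ range (g.2 + 1), f (x + j • g.1) := rfl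

theorem Av_le (g : G × ℕ) (f : G → ℝ) (c : ℝ) (h : ∀ x, f x ≤ c) (x : G) : Av g f x ≤ c := by
  rw [Av_apply, inv_mul_le_iff₀ (by positivity)]
  refine (sum_le_sum fun j _ => h _).trans ?_
  simp

theorem Av_comm (g h : G × ℕ) (f : G → ℝ) : Av g (Av h f) = Av h (Av g f) := by
  funext x
  simp only [Av_apply, mul_sum]
  rw [sum_comm]
  refine sum_congr rfl fun i _ => sum_congr rfl fun j _ => ?_
  rw [add_right_comm]
  ring

noncomputable def T : List (G × ℕ) → (G → ℝ) →ₗ[ℝ] (G → ℝ)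
  | [] => LinearMap.id
  | g :: l => (Av g).comp (T l)

theorem T_le (l : List (G × ℕ)) (f : G → ℝ) (c : ℝ) (h : ∀ x, f x ≤ c) (x : G) : T l f x ≤ c := by
  induction l generalizing x with
  | nil => exact h x
  | cons g l ih => exact Av_le g _ c ih x

theorem T_ge (l : List (G × ℕ)) (f : G → ℝ) (c : ℝ) (h : ∀ x, c ≤ f x) (x : G) : c ≤ T l f x := by
  have := T_le l (-f) (-c) (fun x => by simpa using h x) x
  rw [map_neg] at this
  simpa using this

theorem T_Av (l : List (G × ℕ)) (g : G × ℕ) (f : G → ℝ) : T l (Av g f) = Av g (T l f) := by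
  induction l with
  | nil => rfl
  | cons h l ih =>
    show Av h (T l (Av g f)) = Av g (Av h (T l f))
    rw [ih, Av_comm]

theorem T_app (l m : List (G × ℕ)) (f : G → ℝ) : T (l ++ m) f = T l (T m f) := by
  induction l with
  | nil => rfl
  | cons h l ih =>
    show Av h (T (l ++ m) f) = Av h (T l (T m f))
    rw [ih]

theorem T_comm (l m : List (G × ℕ)) (f : G → ℝ) : T l (T m f) = T m (T l f) := by
  induction l with
  | nil => rfl
  | cons h l ih =>
    show Av h (T l (T m f)) = T m (Av h (T l f))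
    rw [ih, T_Av]

def Bd (f : G → ℝ) : Prop := ∃ C, ∀ x, |f x| ≤ C

def BdS (G : Type) [AddCommGroup G] : Submodule ℝ (G → ℝ) where
  carrier := {f | Bd f}
  add_mem' := by
    rintro f g ⟨C, hC⟩ ⟨D, hD⟩
    exact ⟨C + D, fun x => (abs_add_le _ _).trans (add_le_add (hC x) (hD x))⟩
  zero_mem' := ⟨0, by simp⟩
  smul_mem' := by
    rintro c f ⟨C, hC⟩
    exact ⟨|c| * C, fun x => by
      rw [Pi.smul_apply, smul_eq_mul, abs_mul]
      exact mul_le_mul_of_nonneg_left (hC x) (abs_nonneg _)⟩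

def U (f : G → ℝ) : Set ℝ := {c | ∃ l, ∀ x, T l f x ≤ c}

theorem U_ne (f : BdS G) : (U f.1).Nonempty := by
  obtain ⟨C, hC⟩ := f.2
  exact ⟨C, [], fun x => (abs_le.1 (hC x)).2⟩

theorem U_bdd (f : BdS G) : BddBelow (U f.1) := by
  obtain ⟨C, hC⟩ := f.2
  refine ⟨-C, ?_⟩
  rintro c ⟨l, hl⟩
  exact (T_ge l _ _ (fun x => (abs_le.1 (hC x)).1) 0).trans (hl 0)

theorem exists_lin : ∃ M : BdS G →ₗ[ℝ] ℝ, ∀ f : BdS G, ∀ c ∈ U f.1, M f ≤ c := by
  have hle : ∀ (t : ℝ), 0 < t → ∀ f : BdS G, sInf (U (t • f).1) ≤ t * sInf (U f.1) := by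
    intro t ht f
    rw [← div_le_iff₀' ht]
    refine le_csInf (U_ne f) ?_
    rintro c ⟨l, hl⟩
    rw [div_le_iff₀' ht]
    refine csInf_le (U_bdd _) ⟨l, fun x => ?_⟩
    rw [Submodule.coe_smul, map_smul]
    exact mul_le_mul_of_nonneg_left (hl x) ht.le
  obtain ⟨M, -, hM⟩ := exists_extension_of_le_sublinear (⊥ : BdS G →ₗ.[ℝ] ℝ)
    (fun f => sInf (U f.1))
    (fun t ht f => le_antisymm (hle t ht f) (by
      have := hle t⁻¹ (inv_pos.2 ht) (t • f)
      rw [smul_smul, inv_mul_cancel₀ ht.ne', one_smul, le_inv_mul_iff₀ ht] at this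
      exact this))
    (fun f g => by
      rw [← sub_le_iff_le_add]
      refine le_csInf (U_ne f) ?_
      rintro c ⟨l, hl⟩
      rw [sub_le_comm]
      refine le_csInf (U_ne g) ?_
      rintro d ⟨m, hm⟩
      rw [sub_le_iff_le_add']
      refine csInf_le (U_bdd _) ⟨l ++ m, fun x => ?_⟩
      rw [Submodule.coe_add, map_add, Pi.add_apply, T_app, T_app]
      refine add_le_add ?_ (T_le l _ d hm x)
      rw [T_comm]
      exact T_le m _ c hl x)
    (fun x => by
      have hx : x = 0 := Subtype.ext ((Submodule.mem_bot ℝ).1 x.2)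
      rw [hx, LinearPMap.map_zero]
      refine le_csInf (U_ne _) ?_
      rintro c ⟨l, hl⟩
      simpa using hl 0)
  exact ⟨M, fun f c hc => (hM f).trans (csInf_le (U_bdd f) hc)⟩

/-- an invariant mean on an abelian group -/
theorem exists_mean (G : Type) [AddCommGroup G] : ∃ M : (G → ℝ) → ℝ,
    (∀ f g, Bd f → Bd g → M (fun x => f x + g x) = M f + M g) ∧
    (∀ f g, Bd f → Bd g → M (fun x => f x - g x) = M f - M g) ∧
    (∀ f C, (∀ x, |f x| ≤ C) → |M f| ≤ C) ∧ (∀ c, M (fun _ => c) = c) ∧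
    ∀ f g, Bd f → M (fun x => f (g + x)) = M f := by
  classical
  obtain ⟨M, hM⟩ := exists_lin (G := G)
  have up : ∀ (f : BdS G) (c : ℝ), (∀ x, f.1 x ≤ c) → M f ≤ c := fun f c h => hM f c ⟨[], h⟩
  have lo : ∀ (f : BdS G) (c : ℝ), (∀ x, c ≤ f.1 x) → c ≤ M f := fun f c h => by
    have := up (-f) (-c) (fun x => by simpa using h x)
    rw [map_neg] at this
    linarith
  have inv : ∀ (f : BdS G) (g : G) (h : Bd fun x => f.1 (g + x)), M ⟨_, h⟩ ≤ M f := by
    intro f g h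
    rw [← sub_nonpos, ← map_sub]
    obtain ⟨C, hC⟩ := f.2
    refine le_of_forall_pos_le_add fun e he => ?_
    obtain ⟨n, hn⟩ := exists_nat_gt (2 * C / e)
    refine hM _ _ ⟨[(g, n)], fun x => ?_⟩
    show Av (g, n) _ x ≤ _
    rw [Av_apply, inv_mul_le_iff₀ (by positivity)]
    have := sum_range_sub (fun j : ℕ => f.1 (x + j • g)) (n + 1)
    have e2 : ∑ j ∈ range (n + 1), ((⟨_, h⟩ - f : BdS G) : G → ℝ) (x + j • g) =
        ∑ j ∈ range (n + 1), (f.1 (x + (j + 1) • g) - f.1 (x + j • g)) := by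
      refine sum_congr rfl fun j _ => ?_
      show f.1 (g + (x + j • g)) - f.1 (x + j • g) = _
      rw [succ_nsmul, add_comm g, add_assoc]
    rw [e2, this]
    have h1 := abs_le.1 (hC (x + (n + 1) • g))
    have h2 := abs_le.1 (hC (x + 0 • g))
    rw [div_lt_iff₀ he] at hn
    simp only
    nlinarith
  refine ⟨fun f => if h : Bd f then M ⟨f, h⟩ else 0, ?_, ?_, ?_, ?_, ?_⟩
  · intro f g hf hg
    have h : Bd fun x => f x + g x := (BdS G).add_mem hf hg
    simp only [dif_pos h, dif_pos hf, dif_pos hg, ← map_add]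
    rfl
  · intro f g hf hg
    have h : Bd fun x => f x - g x := (BdS G).sub_mem hf hg
    simp only [dif_pos h, dif_pos hf, dif_pos hg, ← map_sub]
    rfl
  · intro f C h
    have h' : Bd f := ⟨C, h⟩
    simp only [dif_pos h']
    exact abs_le.2 ⟨lo _ _ fun x => (abs_le.1 (h x)).1, up _ _ fun x => (abs_le.1 (h x)).2⟩
  · intro c
    have h' : Bd fun _ : G => c := ⟨|c|, fun _ => le_rfl⟩
    simp only [dif_pos h']
    exact le_antisymm (up _ _ fun _ => le_rfl) (lo _ _ fun _ => le_rfl)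
  · intro f g hf
    have h : Bd fun x => f (g + x) := by
      obtain ⟨C, hC⟩ := hf
      exact ⟨C, fun x => hC _⟩
    simp only [dif_pos h, dif_pos hf]
    refine le_antisymm (inv ⟨f, hf⟩ g h) ?_
    have h2 : Bd fun x => f (g + (-g + x)) := by simpa using hf
    have := inv ⟨_, h⟩ (-g) h2
    simpa using this

end Pool.Agent.H90.SyMean
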