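import Mathlib
import Pool.Agent.H90.SyDefs
import Pool.Agent.H90.SyMean

set_option maxSynthPendingDepth 4

namespace Pool.Agent.H90.Sy

open BoundedContinuousFunction SyMean

lemma cmean (G : Type) [CommGroup G] [TopologicalSpace G] : ∃ m : (G →ᵇ ℂ) →L[ℂ] ℂ, m 1 = 1 ∧
    ∀ g (f f' : G →ᵇ ℂ), (∀ x, f' x = f (g * x)) → m f' = m f := by
  obtain ⟨M, m1, m2, m3, m4, m5⟩ := exists_mean (Additive G)
  let S := Submodule.span ℂ {h : G →ᵇ ℂ | ∃ (g : G) (f f' : G →ᵇ ℂ), (∀ x, f' x = f (g * x)) ∧
    h = f' - f}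
  have b0 : ∀ (f : G →ᵇ ℂ) (x : Additive G), |(f x.toMul).re| ≤ ‖f‖ := fun f x =>
    (Complex.abs_re_le_norm _).trans (f.norm_coe_le_norm _)
  have bd : ∀ f : G →ᵇ ℂ, Bd fun x : Additive G => (f x.toMul).re := fun f => ⟨_, b0 f⟩
  have key : ∀ h ∈ S, ∀ c : ℂ, M (fun x => ((c • h) x.toMul).re) = 0 := fun h hh => by
    induction hh using Submodule.span_induction with
    | mem h e =>
      obtain ⟨g, f, f', e, rfl⟩ := e
      intro c
      have := (m2 _ _ (bd (c • f')) (bd (c • f))).trans (sub_eq_zero.2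
        (Eq.trans (by simp [e]) (m5 _ (.ofMul g) (bd (c • f)))))
      simpa [mul_sub] using this
    | zero => simpa using m4 0
    | add f g _ _ h1 h2 =>
      intro c
      have := m1 _ _ (bd (c • f)) (bd (c • g))
      rw [h1, h2] at this
      simpa [mul_add] using this
    | smul t f _ h => intro c; rw [smul_smul]; exact h _
  have : IsClosed (S.topologicalClosure : Set (G →ᵇ ℂ)) := S.isClosed_topologicalClosure
  obtain ⟨φ, hφ⟩ := SeparatingDual.exists_eq_one (R := ℂ) (x := S.topologicalClosure.mkQL 1)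
    fun e => by
      obtain ⟨h, h1, h2⟩ := Metric.mem_closure_iff.1
        ((Submodule.Quotient.mk_eq_zero S.topologicalClosure).1 e) 1 one_pos
      have e1 := m2 _ _ (bd 1) (bd ((1 : ℂ) • h))
      have e2 := m3 _ _ (b0 (1 - h))
      rw [key h h1] at e1
      rw [dist_eq_norm] at h2
      simp only [one_smul, coe_one, Pi.one_apply, Complex.one_re, m4, BoundedContinuousFunction.sub_apply,
        Complex.sub_re] at e1 e2
      rw [e1] at e2
      norm_num at e2
      linarith
  refine ⟨φ ∘L S.topologicalClosure.mkQL, hφ, fun g f f' e => ?_⟩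
  rw [← sub_eq_zero, ← map_sub]
  exact (congrArg φ ((Submodule.Quotient.mk_eq_zero _).2 (S.le_topologicalClosure
    (Submodule.subset_span ⟨g, f, f', e, rfl⟩)))).trans φ.map_zero

theorem amen (A : Type) [CommCStarAlgebra A] : Amenable A := fun M D ⟨hD, d⟩ => by
  obtain ⟨m, m1, m2⟩ := cmean (unitary A)
  let L := M.l_bil.toContinuousLinearMap
  let R := M.r_bil.toContinuousLinearMap.flip
  let D' := hD.toContinuousLinearMap
  have hL : ∀ a x, M.l a x = L a x := fun _ _ => rfl
  have hR : ∀ a x, M.r x a = R a x := fun _ _ => rfl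
  have hd : ∀ a, D a = D' a := fun _ => rfl
  have rm : ∀ a b x, R b (R a x) = R (a * b) x := fun a b x => (M.r_mul x a b).symm
  have lr : ∀ a b x, R b (L a x) = L a (R b x) := fun a b x => (M.l_r a x b).symm
  simp only [hL, hR, hd] at d ⊢
  have un : ∀ u : unitary A, ‖(u : A)‖ ≤ 1 := fun u => by
    obtain _ | _ := subsingleton_or_nontrivial A
    exacts [by simp [Subsingleton.elim (u : A) 0], (CStarRing.norm_coe_unitary u).le]
  have b : ∀ x (u : unitary A), ‖D' u (R (star u) x)‖ ≤ ‖D'‖ * ‖R‖ * ‖x‖ := fun x u => by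
    refine (D'.le_of_opNorm₂_le_of_le le_rfl (un u) (R.le_of_opNorm₂_le_of_le le_rfl
      ((norm_star _).trans_le (un u)) le_rfl)).trans_eq (by ring)
  let F : M.X →L[ℂ] (unitary A →ᵇ ℂ) := LinearMap.mkContinuous
    ⟨⟨fun x => ofNormedAddCommGroup (fun u => D' u (R (star u) x)) (by fun_prop) _ (b x),
      fun x y => by ext; simp⟩, fun c x => by ext; simp⟩ _
    fun x => norm_ofNormedAddCommGroup_le _ (by positivity) (b x)
  have hF : ∀ x u, F x u = D' u (R (star u) x) := fun _ _ => rfl
  have k1 : ∀ a x, m (F (R a x)) - m (F (L a x)) = D' a (R 1 x) := fun a x => by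
    have ha : a ∈ Submodule.span ℂ (unitary A : Set A) := by
      rw [CStarAlgebra.span_unitary]; trivial
    induction ha using Submodule.span_induction with
    | mem v hv =>
      rw [← m2 ⟨v, hv⟩ (F (R v x)) (F (L v x) + D' v (R 1 x) • 1) fun u => ?_]
      · simp [m1]
      have e : v * (star v * star (u : A)) = star (u : A) := by
        rw [← mul_assoc, hv.2, one_mul]
      simp only [BoundedContinuousFunction.add_apply, BoundedContinuousFunction.smul_apply, hF,
        rm, lr, Submonoid.coe_mul, star_mul', e, coe_one,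
        Pi.one_apply, smul_eq_mul, mul_one]
      rw [mul_comm v, d, rm, u.2.1, add_comm]
    | zero => simp
    | add a b _ _ h1 h2 =>
      simp only [map_add, _root_.add_apply]
      linear_combination h1 + h2
    | smul c a _ h =>
      simp only [map_smul, _root_.smul_apply, smul_eq_mul]
      linear_combination c * h
  refine ⟨m ∘L F - D' 1 + D' 1 ∘L R 1, fun a x => ?_⟩
  have e1 := d 1 a x
  have e2 := d 1 a (R 1 x)
  simp only [_root_.add_apply, _root_.sub_apply,
    ContinuousLinearMap.comp_apply, rm, lr, mul_one, one_mul] at e1 e2 ⊢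
  linear_combination e1 - e2 - k1 a x

end Pool.Agent.H90.Sy
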