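import Mathlib
import Pool.Agent.H90.SyA

set_option maxSynthPendingDepth 4

namespace Pool.Agent.H90.Tg

open Filter Topology Function Finset Sy

variable {Ω : Type} [TopologicalSpace Ω] [CompactSpace Ω]

lemma orth (s : Finset ℕ) {R : ℕ → C(Ω, ℂ)} (h : ∀ n m, n < m → R n * R m = 0) {b : ℝ}
    (hb : ∀ n, ‖R n‖ ≤ b) {c : ℕ → ℂ} (hc : ∀ n, ‖c n‖ ≤ 1) : ‖∑ n ∈ s, c n • R n‖ ≤ b := by
  have b0 := (norm_nonneg _).trans (hb 0)
  refine (ContinuousMap.norm_le _ b0).2 fun p => ?_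
  rw [ContinuousMap.sum_apply]
  by_cases e : ∃ n ∈ s, R n p ≠ 0
  · obtain ⟨n, n1, n2⟩ := e
    rw [sum_eq_single_of_mem n n1 fun m _ hm => ?_, ContinuousMap.smul_apply, norm_smul]
    · exact (mul_le_of_le_one_left (norm_nonneg _) (hc n)).trans
        (((R n).norm_coe_le_norm p).trans (hb n))
    · obtain e | e := hm.lt_or_gt <;>
      simpa [n2] using Or.inr (a := c m = 0) (by simpa [n2] using congrArg (· p) (h _ _ e))
  · push Not at e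
    rw [sum_eq_zero fun n hn => by simp [e n hn]]
    simpa using b0

lemma step [T2Space Ω] {P : Set Ω} {y : Ω} (hy : AccPt y (𝓟 P)) {U : Set Ω} (hU : U ∈ 𝓝 y)
    {s : Set (C(Ω, ℂ) →L[ℂ] ℂ)} (hs : s.Finite) {ε : ℝ} (hε : 0 < ε) :
    ∃ y' ∈ P, ∃ Q : C(Ω, ℂ), ∃ V ∈ 𝓝 y', V ⊆ U ∧ (∀ p ∈ V, Q p = 1) ∧ (∀ p ∉ U, Q p = 0) ∧
      Q y = 0 ∧ ‖Q‖ ≤ 1 ∧ ∀ μ ∈ s, ‖μ Q‖ ≤ ε := by
  obtain ⟨q, r1, r2⟩ := exists_seq_of_forall_finset_exists (fun q : Ω × Set Ω × Set Ω =>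
      q.1 ∈ P ∧ q.1 ∈ q.2.1 ∧ IsOpen q.2.1 ∧ q.2.1 ⊆ U ∧ q.2.2 ∈ 𝓝 y ∧ Disjoint q.2.1 q.2.2)
      (fun p q => q.2.1 ⊆ p.2.2) fun t ht => by
    obtain ⟨x, ⟨x1, x2⟩, x3⟩ := accPt_iff_nhds.1 hy _ (interior_mem_nhds.2
      (inter_mem hU ((biInter_finset_mem t).2 fun p hp => (ht p hp).2.2.2.2.1)))
    obtain ⟨u, v, u1, v1, u2, v2, d⟩ := t2_separation x3
    exact ⟨(x, u ∩ _, v), ⟨x2, ⟨u2, x1⟩, u1.inter isOpen_interior, fun _ e =>
      (interior_subset e.2).1, v1.mem_nhds v2, d.mono_left Set.inter_subset_left⟩, fun p hp _ e =>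
      Set.mem_iInter₂.1 (interior_subset e.2).2 p hp⟩
  let W := fun n => (q n).2.1
  have w4 : ∀ n, IsOpen (W n) := fun n => (r1 n).2.2.1
  choose K k1 k2 k3 using fun n => exists_mem_nhds_isClosed_subset ((w4 n).mem_nhds (r1 n).2.1)
  choose g g0 g1 g2 using fun n => exists_continuous_zero_one_of_isClosed (w4 n).isClosed_compl
    (k2 n) (Set.disjoint_left.2 fun p h h' => h (k3 n h'))
  let Q : ℕ → C(Ω, ℂ) := fun n => ⟨fun p => g n p, by fun_prop⟩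
  have q0 : ∀ n p, p ∉ W n → Q n p = 0 := fun n p h => by simp [Q, g0 n h]
  have q1 : ∀ n, ‖Q n‖ ≤ 1 := fun n => (ContinuousMap.norm_le _ zero_le_one).2 fun p => by
    simpa [Q, abs_of_nonneg (g2 n p).1] using (g2 n p).2
  have t : ∀ μ : C(Ω, ℂ) →L[ℂ] ℂ, Tendsto (fun n => ‖μ (Q n)‖) atTop (𝓝 0) := fun μ =>
    (summable_of_sum_le (c := ‖μ‖ * 1) (fun _ => norm_nonneg _) fun F => by
      choose c c1 c2 using fun n => Complex.exists_norm_eq_mul_self (μ (Q n))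
      have e := μ.le_of_opNorm_le_of_le le_rfl (orth F (fun n m e => ContinuousMap.ext fun p => by
        by_cases h : p ∈ W n
        · rw [ContinuousMap.mul_apply, q0 m p fun h' => Set.disjoint_left.1
            (r1 n).2.2.2.2.2 h (r2 n m e h')]
          simp
        · simp [q0 n p h]) q1 fun n => (c1 n).le)
      simp only [map_sum, map_smul, smul_eq_mul, ← c2] at e
      rw [← Complex.ofReal_sum, Complex.norm_real] at e
      exact (le_abs_self _).trans e).tendsto_atTop_zero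
  obtain ⟨n, hn⟩ := ((eventually_all_finite hs).2 fun μ _ => (t μ).eventually
    (eventually_le_nhds hε)).exists
  exact ⟨_, (r1 n).1, Q n, K n, k1 n, fun p h => (r1 n).2.2.2.1 (k3 n h),
    fun p h => by simp [Q, g1 n h], fun p h => q0 n p fun h' => h ((r1 n).2.2.2.1 h'),
    q0 n y fun h => Set.disjoint_left.1 (r1 n).2.2.2.2.2 h (mem_of_mem_nhds (r1 n).2.2.2.2.1),
    q1 n, hn⟩

def fam (Q : ℕ → C(Ω, ℂ)) (m : ℕ) : Set C(Ω, ℂ) :=
  {g | ∃ i ≤ m, g = Q i ∨ ∃ j ≤ m, g = Q i - Q j}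

omit [CompactSpace Ω] in
lemma fam_fin (Q : ℕ → C(Ω, ℂ)) (m : ℕ) : (fam Q m).Finite :=
  (((Set.finite_Iic m).image Q).union ((Set.finite_Iic m).image2 (fun i j => Q i - Q j)
    (Set.finite_Iic m))).subset (by
      rintro _ ⟨i, hi, rfl | ⟨j, hj, rfl⟩⟩
      exacts [.inl ⟨i, hi, rfl⟩, .inr ⟨i, hi, j, hj, rfl⟩])

variable {k : ℕ}

abbrev HH (Ω : Type) [TopologicalSpace Ω] [CompactSpace Ω] (k : ℕ) :=
  (Fin (k + 2) → Ω) → ContinuousMultilinearMap ℂ (fun _ : Fin (k + 1) => C(Ω, ℂ)) ℂ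

structure Ch (h : HH Ω k) (y : ℕ → Ω) (Q : ℕ → C(Ω, ℂ)) : Prop where
  nm : ∀ m, ‖Q m‖ ≤ 1
  mul : ∀ m n, m < n → Q m * Q n = Q n
  val : ∀ m n, Q m (y n) = if m ≤ n then 1 else 0
  K : ∀ m F z p l, (∀ s, F s ∈ fam Q m) → (∀ p, ∃ l ≤ m, z p = y l) → p ≠ 0 → z p = y m →
    m ≤ l → ‖h (update z p (y l)) F - h z F‖ ≤ 1 / ((m : ℝ) + 1)
  B : ∀ m F s z, (∀ s, F s ∈ fam Q m) → (∀ p, ∃ l ≤ m, z p = y l) →
    ‖h z (update F s (Q (m + 1)))‖ ≤ 1 / ((m : ℝ) + 1)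

lemma seq_rec {α : Type} (d : α) (P : ℕ → (ℕ → α) → α → Prop) (h : ∀ n H, ∃ a, P n H a) :
    ∃ f : ℕ → α, f 0 = d ∧ ∀ n, ∃ H, (∀ i ≤ n, H i = f i) ∧ P n H (f (n + 1)) := by
  choose nx hn using h
  let G : ℕ → ℕ → α := fun n => Nat.rec (fun _ => d) (fun n H => update H (n + 1) (nx n H)) n
  refine ⟨fun n => G n n, rfl, fun n => ⟨G n, fun i hi => ?_, by simpa [G] using hn n (G n)⟩⟩
  induction n, hi using Nat.le_induction with
  | base => rfl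
  | succ n e ih => exact (update_of_ne (by omega) _ _).trans ih

lemma exCh [T2Space Ω] {P : Set Ω} (hP : Preperfect P) (h0 : P.Nonempty) (h : HH Ω k)
    (hc : ∀ F z p, p ≠ 0 → Continuous fun x => h (update z p x) F) : ∃ y Q, Ch h y Q := by
  obtain ⟨y0, hy⟩ := h0
  obtain ⟨f, f0, hf⟩ := seq_rec (α := Ω × C(Ω, ℂ) × Set Ω) (y0, 1, Set.univ) (fun m H a =>
      (H m).2.2 ∈ 𝓝 (H m).1 ∧ (H m).1 ∈ P → (a.2.2 ∈ 𝓝 a.1 ∧ a.1 ∈ P) ∧
      a.2.2 ⊆ (H m).2.2 ∧ (∀ x ∈ a.2.2, ∀ F z p, (∀ s, F s ∈ fam (fun i => (H i).2.1) m) →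
        (∀ p, ∃ l ≤ m, z p = (H l).1) → p ≠ 0 → z p = (H m).1 →
        ‖h (update z p x) F - h z F‖ ≤ 1 / ((m : ℝ) + 1)) ∧ (∀ p ∈ a.2.2, a.2.1 p = 1) ∧
      (∀ p ∉ (H m).2.2, a.2.1 p = 0) ∧ a.2.1 (H m).1 = 0 ∧ ‖a.2.1‖ ≤ 1 ∧
      ∀ F s z, (∀ s, F s ∈ fam (fun i => (H i).2.1) m) → (∀ p, ∃ l ≤ m, z p = (H l).1) →
        ‖h z (update F s a.2.1)‖ ≤ 1 / ((m : ℝ) + 1)) fun m H => by
    by_cases hV : (H m).2.2 ∈ 𝓝 (H m).1 ∧ (H m).1 ∈ P
    swap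
    · exact ⟨H m, fun e => absurd e hV⟩
    have e0 : 0 < 1 / ((m : ℝ) + 1) := by positivity
    have fin := ((Set.Finite.pi' fun _ : Fin (k + 1) => fam_fin (fun i => (H i).2.1) m).prod
      (Set.Finite.pi' fun _ : Fin (k + 2) => (Set.finite_Iic m).image fun l => (H l).1))
    have d1 := (eventually_all_finite (fin.prod (Set.finite_univ (α := Fin (k + 2))))
        (l := 𝓝 (H m).1) (p := fun q x => q.2 ≠ 0 → q.1.2 q.2 = (H m).1 →
          ‖h (update q.1.2 q.2 x) q.1.1 - h q.1.2 q.1.1‖ ≤ 1 / ((m : ℝ) + 1))).2 fun q _ => by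
      by_cases e : q.2 ≠ 0 ∧ q.1.2 q.2 = (H m).1
      · refine (Metric.tendsto_nhds.1 ((hc q.1.1 q.1.2 q.2 e.1).tendsto (H m).1) _ e0).mono
          fun x hx _ _ => ?_
        rw [← e.2, update_eq_self, dist_eq_norm] at hx
        exact hx.le
      · exact .of_forall fun x a b => absurd ⟨a, b⟩ e
    obtain ⟨y', v0, Q, V, v1, v2, v3, v4, v5, v6, v7⟩ := step (hP _ hV.2) (inter_mem hV.1 d1)
      ((fin.prod (Set.finite_univ (α := Fin (k + 1)))).image fun q =>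
        (h q.1.2).toContinuousLinearMap q.1.1 q.2) e0
    exact ⟨(y', Q, V), fun _ => ⟨⟨v1, v0⟩, fun _ e => (v2 e).1, fun x e F z p h1 h2 =>
      (v2 e).2 ((F, z), p) ⟨⟨h1, fun p => (h2 p).imp fun _ e => ⟨e.1, e.2.symm⟩⟩, trivial⟩, v3,
      fun p e => v4 p fun e' => e e'.1, v5, v6, fun F s z h1 h2 => v7 _ ⟨((F, z), s),
        ⟨⟨h1, fun p => (h2 p).imp fun _ e => ⟨e.1, e.2.symm⟩⟩, trivial⟩, rfl⟩⟩⟩
  choose H h1 h2 using hf
  have iv : ∀ m, (f m).2.2 ∈ 𝓝 (f m).1 ∧ (f m).1 ∈ P := fun m => by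
    induction m with
    | zero => simp [f0, hy]
    | succ m ih => exact (h2 m (by rwa [h1 m m le_rfl])).1
  choose d2 d3 d1 d4 d5 d6 d7 d8 using fun m => h2 m (by rw [h1 m m le_rfl]; exact iv m)
  have fm : ∀ m, fam (fun i => (H m i).2.1) m = fam (fun i => (f i).2.1) m := fun m =>
    Set.ext fun g => exists_congr fun i => and_congr_right fun hi => by
      simp only [h1 m i hi]
      exact or_congr_right (exists_congr fun j => and_congr_right fun hj => by rw [h1 m j hj])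
  simp only [h1 _ _ le_rfl, fm] at d1 d3 d5 d6 d8
  have an : Antitone fun m => (f m).2.2 := antitone_nat_of_succ_le d3
  have o1 : ∀ m, ∀ p ∈ (f m).2.2, (f m).2.1 p = 1 := fun m => by
    cases m
    exacts [by simp [f0], d4 _]
  have ml : ∀ m n, m < n → (f m).2.1 * (f n).2.1 = (f n).2.1 := fun m n e => by
    obtain ⟨n, rfl⟩ := Nat.exists_eq_add_one_of_ne_zero (Nat.ne_zero_of_lt e)
    ext p
    by_cases hp : p ∈ (f n).2.2
    · simp [o1 m p (an (Nat.le_of_lt_succ e) hp)]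
    · simp [d5 n p hp]
  refine ⟨fun m => (f m).1, fun m => (f m).2.1, fun m => ?_, ml, fun m n => ?_,
    fun m F z p l a b c d e => ?_,
    fun m F s z a b => d8 m F s z a fun p => (b p).imp fun l e => ⟨e.1, by rw [h1 m l e.1, e.2]⟩⟩
  · cases m
    exacts [by rw [f0]; exact (ContinuousMap.norm_le _ zero_le_one).2 (by simp), d7 _]
  · split_ifs with e
    · exact o1 m _ (an e (mem_of_mem_nhds (iv n).1))
    · obtain rfl | e := (Nat.succ_le_of_lt (not_le.1 e)).eq_or_lt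
      exacts [d6 n, by rw [← ml _ _ e]; simp [d6 n]]
  · obtain rfl | e := e.eq_or_lt
    · rw [← d, update_eq_self, sub_self, norm_zero]
      positivity
    · exact d1 m _ (an e (mem_of_mem_nhds (iv l).1)) F z p a
        (fun p => (b p).imp fun l e => ⟨e.1, by rw [h1 m l e.1, e.2]⟩) c d

end Pool.Agent.H90.Tg
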