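import Mathlib
import Pool.Agent.H90.TgDefs
import Pool.Agent.H90.SyD

set_option maxSynthPendingDepth 4

namespace Pool.Agent.H90.Tg

open Filter Topology Function Finset BoundedContinuousFunction

def Dc (Ω : Type) : Type := Ω

instance (Ω : Type) : TopologicalSpace (Dc Ω) := ⊥

instance (Ω : Type) : DiscreteTopology (Dc Ω) := ⟨rfl⟩

def SP (Ω : Type) (n : ℕ) : Type := Fin (n + 1) → Ω

def emb {Ω : Type} {n : ℕ} (z : SP Ω n) : (Fin (n + 1) → Ω) × Dc Ω := (z, z (Fin.last n))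

variable {Ω : Type} [TopologicalSpace Ω] {n m : ℕ}

instance : TopologicalSpace (SP Ω n) := .induced emb inferInstance

lemma c_ap (p : Fin (n + 1)) : Continuous fun z : SP Ω n => z p :=
  (continuous_apply p).comp (continuous_fst.comp (continuous_induced_dom (f := emb)))

lemma c_l : Continuous fun z : SP Ω n => (emb z).2 :=
  continuous_snd.comp (continuous_induced_dom (f := emb))

lemma c_to {X : Type} [TopologicalSpace X] {g : X → SP Ω n} (h1 : ∀ p, Continuous fun x => g x p)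
    (h2 : Continuous fun x => (emb (g x)).2) : Continuous g :=
  continuous_induced_rng.2 ((continuous_pi h1).prodMk h2)

def pb (σ : Fin (n + 1) → Fin (m + 1)) (h : σ (Fin.last n) = Fin.last m) : C(SP Ω m, SP Ω n) :=
  ⟨fun z => fun p => z (σ p), c_to (fun _ => c_ap _) (c_l.congr fun z => congrArg z h.symm)⟩

abbrev ZZ (Ω : Type) [TopologicalSpace Ω] (n : ℕ) := SP Ω n →ᵇ ℂ

def EL (τ : ZZ Ω n →L[ℂ] ℂ) (κ : ℝ) : Prop :=
  ∀ (ι : Type) [Fintype ι] (φ : ι → Fin (n + 1)) (a : ι → Ω → ℂ) (b : ι → ℝ) (w : ZZ Ω n),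
    (∀ i t, ‖a i t‖ ≤ b i) → (∀ z, w z = ∏ i, a i (z (φ i))) → ‖τ w‖ ≤ κ * ∏ i, b i

abbrev TT (Ω : Type) [TopologicalSpace Ω] (n : ℕ) := {τ : ZZ Ω n →L[ℂ] ℂ // EL τ 1}

def XS (Ω : Type) [TopologicalSpace Ω] (n : ℕ) : Submodule ℂ (ZZ Ω n × (TT Ω n →ᵇ ℂ)) where
  carrier := {x | ∀ τ, x.2 τ = τ.1 x.1}
  add_mem' := fun b d τ => by simp [b τ, d τ]
  zero_mem' := fun τ => by simp
  smul_mem' := fun c x b τ => by simp [b τ]

lemma XS_cl : IsClosed (XS Ω n : Set (ZZ Ω n × (TT Ω n →ᵇ ℂ))) := by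
  change IsClosed {x : ZZ Ω n × (TT Ω n →ᵇ ℂ) | ∀ τ, x.2 τ = τ.1 x.1}
  simp only [Set.ofPred_forall]
  exact isClosed_iInter fun _ => isClosed_eq (by fun_prop) (by fun_prop)

instance : CompleteSpace (XS Ω n) := XS_cl.completeSpace_coe

noncomputable def pr : XS Ω n →L[ℂ] ZZ Ω n := (ContinuousLinearMap.fst ℂ _ _).comp (XS Ω n).subtypeL

lemma ext1 {x y : XS Ω n} (h : ∀ z, pr x z = pr y z) : x = y := by
  have h : x.1.1 = y.1.1 := BoundedContinuousFunction.ext h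
  exact Subtype.ext (Prod.ext h (BoundedContinuousFunction.ext fun τ => by rw [x.2, y.2, h]))

lemma EL_ev (z : SP Ω n) : EL (BoundedContinuousFunction.evalCLM ℂ z) 1 :=
  fun ι _ φ a b w hb hw => by
    rw [BoundedContinuousFunction.evalCLM_apply, hw, norm_prod, one_mul]
    exact prod_le_prod (fun _ _ => norm_nonneg _) fun s _ => hb s _

noncomputable def mkX (w : ZZ Ω n) (b : ℝ) (hb : ∀ τ : TT Ω n, ‖τ.1 w‖ ≤ b) : XS Ω n :=
  ⟨(w, ofNormedAddCommGroup (fun τ => τ.1 w) (by fun_prop) b hb), fun _ => rfl⟩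

lemma pr_mk (w : ZZ Ω n) (b : ℝ) (hb : ∀ τ : TT Ω n, ‖τ.1 w‖ ≤ b) : pr (mkX w b hb) = w := rfl

lemma nm_le (x : XS Ω n) {b : ℝ} (hb : ∀ τ : TT Ω n, ‖τ.1 (pr x)‖ ≤ b) (b0 : 0 ≤ b) : ‖x‖ ≤ b :=
  max_le ((norm_le b0).2 fun z => hb ⟨_, EL_ev z⟩)
    ((norm_le b0).2 fun τ => (congrArg _ (x.2 τ)).trans_le (hb τ))

lemma bd {τ : ZZ Ω n →L[ℂ] ℂ} {κ : ℝ} (k0 : 0 < κ) (h : EL τ κ) (x : XS Ω n) :
    ‖τ (pr x)‖ ≤ κ * ‖x‖ := by
  have e : ∀ w, ‖((κ : ℂ)⁻¹ • τ) w‖ = κ⁻¹ * ‖τ w‖ := fun w => by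
    simp [abs_of_pos k0]
  rw [← inv_mul_le_iff₀ k0, ← e]
  exact (congrArg _ (x.2 ⟨_, fun ι _ φ a b w hb hw => by
    rw [e, inv_mul_le_iff₀ k0, one_mul]; exact h ι φ a b w hb hw⟩)).ge.trans
    ((norm_coe_le_norm _ _).trans (norm_snd_le x.1))

lemma pt_le (x : XS Ω n) (z : SP Ω n) : ‖pr x z‖ ≤ ‖x‖ :=
  (bd one_pos (EL_ev z) x).trans_eq (one_mul _)

noncomputable def opX {E : Type} [NormedAddCommGroup E] [NormedSpace ℂ E] (g : E →ₗ[ℂ] ZZ Ω n)
    (κ : ℝ) (k0 : 0 ≤ κ) (h : ∀ x (τ : TT Ω n), ‖τ.1 (g x)‖ ≤ κ * ‖x‖) : E →L[ℂ] XS Ω n :=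
  LinearMap.mkContinuous ⟨⟨fun x => mkX (g x) _ (h x), fun _ _ => ext1 fun _ => by
    simp only [pr_mk, map_add]⟩, fun _ _ => ext1 fun _ => by
      simp only [pr_mk, map_smul, RingHom.id_apply]⟩ κ fun x => nm_le _ (h x) (by positivity)

noncomputable def pbZ (g : C(SP Ω m, SP Ω n)) : ZZ Ω n →L[ℂ] ZZ Ω m :=
  LinearMap.mkContinuous ⟨⟨fun w => w.compContinuous g, fun _ _ => rfl⟩, fun _ _ => rfl⟩ 1
    fun w => (norm_compContinuous_le _ _).trans_eq (one_mul _).symm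

noncomputable def pbX (σ : Fin (n + 1) → Fin (m + 1)) (h : σ (Fin.last n) = Fin.last m) :
    XS Ω n →L[ℂ] XS Ω m :=
  opX (pbZ (pb σ h) ∘L pr).toLinearMap 1 zero_le_one fun x τ =>
    bd (τ := τ.1 ∘L pbZ (pb σ h)) one_pos
      (fun ι _ φ a b _ hb hw => τ.2 ι (σ ∘ φ) a b _ hb fun _ => hw _) x

lemma pbX_ap (σ : Fin (n + 1) → Fin (m + 1)) (h : σ (Fin.last n) = Fin.last m) (x : XS Ω n)
    (z : SP Ω m) : pr (pbX σ h x) z = pr x fun p => z (σ p) := rfl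

lemma mul_bd {c : ZZ Ω n} (p : Fin (n + 1)) (a : Ω → ℂ) {b : ℝ} (b0 : 0 ≤ b)
    (hb : ∀ t, ‖a t‖ ≤ b) (hc : ∀ z, c z = a (z p)) (x : XS Ω n) (τ : TT Ω n) :
    ‖τ.1 (c * pr x)‖ ≤ b * ‖x‖ := by
  obtain rfl | e := b0.eq_or_lt
  · rw [show c = 0 from BoundedContinuousFunction.ext fun z => (hc z).trans
      (norm_le_zero_iff.1 (hb _)), zero_mul, map_zero, norm_zero, zero_mul]
  refine bd (τ := τ.1 ∘L ContinuousLinearMap.mul ℂ _ c) e (fun ι _ φ a' b' w h1 hw => ?_) x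
  refine (τ.2 (Option ι) (·.elim p φ) (·.elim a a') (·.elim b b') (c * w)
    (fun i => by cases i; exacts [hb, h1 _]) fun z => ?_).trans_eq ?_
  · rw [Fintype.prod_option, BoundedContinuousFunction.mul_apply, hw, hc]
    rfl
  · rw [Fintype.prod_option, one_mul]
    rfl

def sd (n i : ℕ) (s : Fin (n + 2)) : Fin (n + 1) :=
  ⟨if s ≤ i ∧ s ≤ n then s else s - 1, by split_ifs <;> omega⟩

lemma sd0 (n i : ℕ) : sd n i 0 = 0 := Fin.ext (by simp [sd])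

lemma sdl (n i : ℕ) : sd n i (Fin.last _) = Fin.last _ := Fin.ext (by simp [sd])

lemma dd2 {V : Type} [AddCommGroup V] [Module ℂ V] (F : ℕ → ℕ → V) (n : ℕ)
    (h : ∀ i j, i ≤ j → j < n → F j i = F i (j + 1)) :
    ∑ a ∈ range n, (-1 : ℂ) ^ a • ∑ b ∈ range (n + 1), (-1 : ℂ) ^ b • F a b = 0 := by
  induction n with
  | zero => simp
  | succ n ih =>
    have := ih fun i j a b => h i j a (by omega)
    rw [sum_congr rfl fun a _ => by rw [sum_range_succ, smul_add], sum_add_distrib, sum_range_succ,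
      this, zero_add, smul_sum, ← sum_add_distrib]
    refine sum_eq_zero fun a ha => ?_
    rw [h a n (Nat.lt_succ_iff.1 (mem_range.1 ha)) n.lt_succ_self, smul_smul, smul_smul, ← add_smul]
    rw [show (-1 : ℂ) ^ n * (-1) ^ a + (-1) ^ a * (-1) ^ (n + 1) = 0 by ring, zero_smul]

lemma dd3 {V : Type} [AddCommGroup V] [Module ℂ V] (G : (Fin (n + 3) → Fin (n + 1)) → V) :
    ∑ a ∈ range (n + 1), (-1 : ℂ) ^ a •
      ∑ b ∈ range (n + 2), (-1 : ℂ) ^ b • G (fun s => sd n a (sd (n + 1) b s)) = 0 :=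
  dd2 (fun a b => G fun s => sd n a (sd (n + 1) b s)) _ fun i j h1 h2 => congrArg G <|
    funext fun s => Fin.ext (by simp only [sd]; split_ifs <;> omega)

noncomputable def DX (n : ℕ) : XS Ω (n + 1) →L[ℂ] XS Ω n :=
  ∑ i ∈ range (n + 1), (-1 : ℂ) ^ i • pbX (Ω := Ω) (sd n i) (sdl n i)

lemma DX_ap (x : XS Ω (n + 1)) (z : SP Ω n) :
    pr (DX n x) z = ∑ i ∈ range (n + 1), (-1 : ℂ) ^ i * pr x fun p => z (sd n i p) := by
  simp only [DX, _root_.sum_apply, _root_.smul_apply, map_sum, map_smul,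
    BoundedContinuousFunction.sum_apply, BoundedContinuousFunction.smul_apply, smul_eq_mul, pbX_ap]

noncomputable def SX (n : ℕ) : XS Ω n →L[ℂ] XS Ω (n + 1) := pbX Fin.succ (Fin.succ_last n)

lemma DS0 (x : XS Ω 0) : DX 0 (SX 0 x) = x := ext1 fun z => by
  rw [DX_ap, sum_range_one, pow_zero, one_mul, SX, pbX_ap]
  exact congrArg _ (funext fun p => congrArg z (Subsingleton.elim (α := Fin 1) _ _))

lemma DS (x : XS Ω (n + 1)) (h : DX n x = 0) : DX (n + 1) (SX (n + 1) x) = x := ext1 fun z => by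
  have : (0 : ℂ) = ∑ i ∈ range (n + 1), (-1 : ℂ) ^ i * pr x fun p => z (sd n i p).succ := by
    have := DX_ap x fun p => z p.succ
    rw [h, map_zero] at this
    exact this
  rw [DX_ap, sum_range_succ', sum_congr rfl (g := fun i => -((-1 : ℂ) ^ i *
    pr x fun p => z (sd n i p).succ)) fun i hi => ?_, sum_neg_distrib, ← this, neg_zero, zero_add,
    pow_zero, one_mul, SX, pbX_ap]
  · exact congrArg _ (funext fun p => congrArg z (Fin.ext (by simp [sd])))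
  · rw [pow_succ, mul_neg_one, neg_mul, SX, pbX_ap]
    refine congrArg (fun u => -(_ * pr x u)) (funext fun p => congrArg z (Fin.ext ?_))
    have := mem_range.1 hi
    simp only [sd, Fin.val_succ]
    split_ifs <;> omega

variable [CompactSpace Ω]

noncomputable def pl (p : Fin (n + 1)) : C(Ω, ℂ) →ₗ[ℂ] ZZ Ω n :=
  ⟨⟨fun c => ofNormedAddCommGroup (fun z => c (z p)) (c.continuous.comp (c_ap p)) ‖c‖
    fun _ => c.norm_coe_le_norm _, fun _ _ => rfl⟩, fun _ _ => rfl⟩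

lemma pl_ap (p : Fin (n + 1)) (c : C(Ω, ℂ)) (z : SP Ω n) : pl p c z = c (z p) := rfl

noncomputable def act (c : C(Ω, ℂ)) (x : XS Ω n) : XS Ω n :=
  mkX (pl 0 c * pr x) _ (mul_bd 0 c (norm_nonneg c) c.norm_coe_le_norm (pl_ap 0 c) x)

lemma act_ap (c : C(Ω, ℂ)) (x : XS Ω n) (z : SP Ω n) : pr (act c x) z = c (z 0) * pr x z := rfl

noncomputable def BL (Ω : Type) [TopologicalSpace Ω] [CompactSpace Ω] (n : ℕ) : LMod C(Ω, ℂ) where
  X := XS Ω n
  cpl := inferInstance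
  act := act
  bil := ⟨fun _ _ _ => ext1 fun z => by simp [act_ap, add_mul],
    fun _ _ _ => ext1 fun z => by simp [act_ap, mul_assoc],
    fun _ _ _ => ext1 fun z => by simp [act_ap, mul_add],
    fun _ _ _ => ext1 fun z => by simp [act_ap, mul_left_comm], 1, one_pos, fun c x =>
      (nm_le _ (mul_bd 0 c (norm_nonneg c) c.norm_coe_le_norm (pl_ap 0 c) x)
        (by positivity)).trans_eq (by rw [one_mul])⟩
  act_mul a b x := ext1 fun z => by simp only [act_ap, ContinuousMap.mul_apply, mul_assoc]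

lemma DX_act (c : C(Ω, ℂ)) (x : XS Ω (n + 1)) : DX n (act c x) = act c (DX n x) :=
  ext1 fun z => by simp only [DX_ap, act_ap, sd0, mul_sum, mul_left_comm]

end Pool.Agent.H90.Tg
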