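import Mathlib
import Pool.Agent.H90.TgD

set_option maxSynthPendingDepth 4

namespace Pool.Agent.H90.Tg

open Filter Topology Function Finset

variable {Ω : Type} [TopologicalSpace Ω] {n : ℕ}

section
variable {ι κ μ : Type} [Fintype ι] [DecidableEq κ]

noncomputable def sm (p : κ) (x : C(Ω, ℂ)) (a : κ → C(Ω, ℂ)) (s : κ) : C(Ω, ℂ) :=
  (if s = p then x else 1) * a s

noncomputable def push (φ : ι → κ) (a : ι → C(Ω, ℂ)) (s : κ) : C(Ω, ℂ) := ∏ q with φ q = s, a q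

lemma push_sm [DecidableEq ι] (φ : ι → κ) (p : ι) (c : C(Ω, ℂ)) (a : ι → C(Ω, ℂ)) :
    push φ (sm p c a) = sm (φ p) c (push φ a) := funext fun s => by
  simp only [push, sm, prod_mul_distrib, prod_ite_eq', mem_filter,
    mem_univ, true_and, eq_comm (a := s)]

lemma push_push [Fintype κ] [DecidableEq μ] (φ : ι → κ) (ψ : κ → μ) (a : ι → C(Ω, ℂ)) :
    push ψ (push φ a) = push (fun q => ψ (φ q)) a := funext fun s => by
  simp only [push, prod_fiberwise_eq_prod_filter, mem_filter, mem_univ, true_and]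

lemma push_prod [Fintype κ] (φ : ι → κ) (a : ι → C(Ω, ℂ)) (z : κ → Ω) :
    ∏ s, push φ a s (z s) = ∏ q, a q (z (φ q)) := by
  rw [← prod_fiberwise univ φ]
  refine prod_congr rfl fun s _ => ?_
  rw [push, ContinuousMap.prod_apply]
  exact prod_congr rfl fun q hq => by rw [(mem_filter.1 hq).2]

lemma push_norm [CompactSpace Ω] [Nonempty Ω] [Fintype κ] (φ : ι → κ) (a : ι → C(Ω, ℂ)) :
    ∏ s, ‖push φ a s‖ ≤ ∏ q, ‖a q‖ := by
  rw [← prod_fiberwise univ φ]
  exact prod_le_prod (fun _ _ => norm_nonneg _) fun s _ => norm_prod_le _ _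

omit [Fintype ι] in
lemma sm_up (a : κ → C(Ω, ℂ)) (p : κ) (x : C(Ω, ℂ)) :
    sm p x (update a p 1) = update a p x := funext fun s => by
  by_cases e : s = p <;> simp [e, sm]

lemma up1 [CompactSpace Ω] [Nonempty Ω] [Fintype κ] (a : κ → C(Ω, ℂ)) (p : κ) :
    ‖a p‖ * ∏ s, ‖update a p 1 s‖ = ∏ s, ‖a s‖ := by
  rw [← mul_prod_erase univ _ (mem_univ p), ← mul_prod_erase univ (fun s => ‖a s‖) (mem_univ p),
    update_self, norm_one, one_mul]
  exact congrArg _ (prod_congr rfl fun s hs => by rw [update_of_ne (ne_of_mem_erase hs)])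

lemma sm_prod [Fintype κ] (a : κ → C(Ω, ℂ)) (p : κ) (x : C(Ω, ℂ)) (z : κ → Ω) :
    ∏ s, sm p x a s (z s) = x (z p) * ∏ s, a s (z s) := by
  simp only [sm, ContinuousMap.mul_apply, prod_mul_distrib]
  rw [prod_eq_single p (fun s _ e => by simp [e]) (by simp), if_pos rfl]

end

lemma lin_sum {U V : Type} [AddCommGroup U] [Module ℂ U] [AddCommGroup V] [Module ℂ V] {φ : U → V}
    (h : IsLinearMap ℂ φ) (s : Finset ℕ) (c : ℕ → ℂ) (x : ℕ → U) :
    φ (∑ i ∈ s, c i • x i) = ∑ i ∈ s, c i • φ (x i) :=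
  (map_sum (h.mk' φ) _ _).trans (sum_congr rfl fun _ _ => h.map_smul _ _)

noncomputable def bb {V : Type} [AddCommGroup V] [Module ℂ V] (F : (Fin (n + 1) → C(Ω, ℂ)) → V)
    (a : Fin (n + 2) → C(Ω, ℂ)) : V := ∑ i ∈ range (n + 1), (-1 : ℂ) ^ i • F (push (sd n i) a)

lemma bb_bb {V : Type} [AddCommGroup V] [Module ℂ V] (F : (Fin (n + 1) → C(Ω, ℂ)) → V)
    (a : Fin (n + 3) → C(Ω, ℂ)) : bb (bb F) a = 0 := by
  refine Eq.trans ?_ (dd3 fun φ => F (push φ a))
  simp only [bb, push_push, smul_sum]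
  rw [sum_comm]
  exact sum_congr rfl fun _ _ => sum_congr rfl fun _ _ => smul_comm _ _ _

lemma bb_sub {V : Type} [AddCommGroup V] [Module ℂ V] (F G : (Fin (n + 1) → C(Ω, ℂ)) → V)
    (a : Fin (n + 2) → C(Ω, ℂ)) : bb (fun a => F a - G a) a = bb F a - bb G a := by
  simp only [bb, smul_sub, sum_sub_distrib]

variable [CompactSpace Ω] {U V : BMod C(Ω, ℂ)}

structure Gd (U : BMod C(Ω, ℂ)) (F : (Fin (n + 1) → C(Ω, ℂ)) → U.X) : Prop where
  lin : ∀ a p, IsLinearMap ℂ fun x => F (sm p x a)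
  bdd : ∃ C, 0 ≤ C ∧ ∀ a, ‖F a‖ ≤ C * ∏ s, ‖a s‖
  lf : ∀ c a, F (sm 0 c a) = U.l c (F a)
  rt : ∀ c a, F (sm (Fin.last n) c a) = U.r (F a) c

lemma l_lin (U : BMod C(Ω, ℂ)) (c : C(Ω, ℂ)) : IsLinearMap ℂ (U.l c) :=
  (U.l_bil.isBoundedLinearMap_right c).toIsLinearMap

lemma r_lin (U : BMod C(Ω, ℂ)) (c : C(Ω, ℂ)) : IsLinearMap ℂ fun x => U.r x c :=
  (U.r_bil.isBoundedLinearMap_left c).toIsLinearMap

variable {F G : (Fin (n + 1) → C(Ω, ℂ)) → U.X}

lemma Gd.sub (h : Gd U F) (h' : Gd U G) : Gd U fun a => F a - G a := by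
  obtain ⟨C, c0, c1⟩ := h.bdd
  obtain ⟨D, d0, d1⟩ := h'.bdd
  exact ⟨fun a p => ⟨fun x y => by rw [(h.lin a p).map_add, (h'.lin a p).map_add]; abel,
    fun c x => by rw [(h.lin a p).map_smul, (h'.lin a p).map_smul, smul_sub]⟩,
    ⟨C + D, by positivity, fun a => (norm_sub_le_of_le (c1 a) (d1 a)).trans_eq (by ring)⟩,
    fun c a => by rw [h.lf, h'.lf, (l_lin U c).map_sub],
    fun c a => by rw [h.rt, h'.rt, (r_lin U c).map_sub]⟩

lemma Gd.mor (h : Gd U F) {φ : U.X → V.X} (hφ : BMor U V φ) : Gd V fun a => φ (F a) := by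
  obtain ⟨C, c0, c1⟩ := h.bdd
  obtain ⟨D, d0, d1⟩ := hφ.1.bound
  exact ⟨fun a p => ⟨fun x y => by rw [(h.lin a p).map_add, hφ.1.map_add],
    fun c x => by rw [(h.lin a p).map_smul, hφ.1.map_smul]⟩,
    ⟨D * C, by positivity, fun a => (d1 _).trans ((mul_le_mul_of_nonneg_left (c1 a) d0.le).trans_eq
      (by ring))⟩, fun c a => by rw [h.lf, hφ.2.1], fun c a => by rw [h.rt, hφ.2.2]⟩

lemma Gd.bb [Nonempty Ω] (h : Gd U F) : Gd U (bb F) := by
  obtain ⟨C, c0, c1⟩ := h.bdd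
  refine ⟨fun a p => ⟨fun x y => ?_, fun c x => ?_⟩, ⟨(n + 1 : ℕ) * C, by positivity, fun a => ?_⟩,
    fun c a => ?_, fun c a => ?_⟩
  · simp only [Tg.bb, push_sm, (h.lin _ _).map_add, smul_add, sum_add_distrib]
  · simp only [Tg.bb, push_sm, (h.lin _ _).map_smul, smul_sum, smul_comm c]
  · refine (norm_sum_le_of_le _ fun i _ => ?_).trans_eq
      (by rw [sum_const, card_range, nsmul_eq_mul, mul_assoc])
    rw [norm_smul, norm_pow, norm_neg, norm_one, one_pow, one_mul]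
    exact (c1 _).trans (mul_le_mul_of_nonneg_left (push_norm _ _) c0)
  · simp only [Tg.bb, push_sm, sd0, h.lf, lin_sum (l_lin U c)]
  · simp only [Tg.bb, push_sm, sdl, h.rt]
    exact (lin_sum (r_lin U c) _ _ _).symm

noncomputable def nm (a : Fin (n + 2) → C(Ω, ℂ)) : Fin (n + 2) → C(Ω, ℂ) :=
  update (update a 0 1) (Fin.last _) 1

noncomputable def lam (V : BMod C(Ω, ℂ)) (s : U.X → V.X) (F : (Fin (n + 2) → C(Ω, ℂ)) → U.X)
    (a : Fin (n + 2) → C(Ω, ℂ)) : V.X := V.l (a 0) (V.r (s (F (nm a))) (a (Fin.last _)))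

variable {F : (Fin (n + 2) → C(Ω, ℂ)) → U.X} {s : U.X → V.X}

lemma lam_eq (h : Gd U F) {d : V.X → U.X} (hd : BMor V U d) (e : ∀ a, d (s (F a)) = F a)
    (a : Fin (n + 2) → C(Ω, ℂ)) : d (lam V s F a) = F a := by
  rw [lam, hd.2.1, hd.2.2, e, ← h.rt, ← h.lf, nm, sm_up,
    ← update_of_ne (Fin.last_pos.ne') 1 a, update_eq_self, sm_up, update_eq_self]

lemma Gd.lam [Nonempty Ω] (h : Gd U F) (hs : IsBoundedLinearMap ℂ s) : Gd V (lam V s F) := by
  obtain ⟨C, c0, c1⟩ := h.bdd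
  obtain ⟨D, d0, d1⟩ := hs.bound
  obtain ⟨L, l0, l1⟩ := V.l_bil.bound
  obtain ⟨R, r0, r1⟩ := V.r_bil.bound
  have ne : Fin.last (n + 1) ≠ 0 := Fin.last_pos.ne'
  have n0 : ∀ x a, nm (sm (0 : Fin (n + 2)) x a) = nm (Ω := Ω) a := fun x a =>
    funext fun s => by simp only [nm, update_apply]; split_ifs <;> simp [*, sm]
  have nl : ∀ x a, nm (sm (Fin.last (n + 1)) x a) = nm (Ω := Ω) a := fun x a =>
    funext fun s => by simp only [nm, update_apply]; split_ifs <;> simp [*, sm]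
  have lf : ∀ c a, Tg.lam V s F (sm 0 c a) = V.l c (Tg.lam V s F a) := fun c a => by
    simp only [Tg.lam, n0]
    simp only [sm, if_true, if_neg ne, one_mul, V.l_mul]
  have rt : ∀ c a, Tg.lam V s F (sm (Fin.last _) c a) = V.r (Tg.lam V s F a) c :=
    fun c a => by
      simp only [Tg.lam, nl]
      simp only [sm, if_true, if_neg ne.symm, one_mul, mul_comm c, V.r_mul, V.l_r]
  refine ⟨fun a p => ?_, ⟨L * R * D * C, by positivity, fun a => ?_⟩, lf, rt⟩
  · by_cases e : p = 0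
    · simp only [e, lf]
      exact (V.l_bil.isBoundedLinearMap_left _).toIsLinearMap
    by_cases e' : p = Fin.last _
    · simp only [e', rt]
      exact (V.r_bil.isBoundedLinearMap_right _).toIsLinearMap
    have : ∀ x, nm (sm p x a) = sm p x (nm a) := fun x => funext fun s => by
      simp only [nm, update_apply, sm]
      split_ifs <;> simp_all
    have e1 : ∀ x, sm p x a 0 = a 0 := fun x => by rw [sm, if_neg (Ne.symm e), one_mul]
    have e2 : ∀ x, sm p x a (Fin.last _) = a (Fin.last _) := fun x => by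
      rw [sm, if_neg (Ne.symm e'), one_mul]
    simp only [Tg.lam, this, e1, e2]
    exact ⟨fun x y => by rw [(h.lin _ p).map_add, hs.map_add, (r_lin V _).map_add,
      (l_lin V _).map_add], fun c x => by
        rw [(h.lin _ p).map_smul, hs.map_smul, (r_lin V _).map_smul, (l_lin V _).map_smul]⟩
  · rw [← up1 a 0, ← up1 _ (Fin.last _), update_of_ne ne]
    refine (l1 _ _).trans ((mul_le_mul_of_nonneg_left ((r1 _ _).trans (mul_le_mul_of_nonneg_right
      (mul_le_mul_of_nonneg_left ((d1 _).trans (mul_le_mul_of_nonneg_left (c1 _) d0.le)) r0.le)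
      (norm_nonneg _))) (by positivity)).trans_eq ?_)
    simp only [nm]
    ring

end Pool.Agent.H90.Tg
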