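import Mathlib
import Pool.Agent.H90.TgE
import Pool.Agent.H90.TgC

set_option maxSynthPendingDepth 4

namespace Pool.Agent.H90.Tg

open Filter Topology Function Finset

lemma signs' {α : Type} [DecidableEq α] (c : α → α → ℂ) (S : Finset α) : ∃ σ : α → ℝ,
    (∀ k, |σ k| ≤ 1) ∧ (∑ m ∈ S, c m m).re ≤ (∑ m ∈ S, ∑ k ∈ S, σ m * σ k * c m k).re := by
  induction S using Finset.induction_on with
  | empty => exact ⟨0, by simp, by simp⟩
  | insert N S hN ih =>
    obtain ⟨σ, s1, s2⟩ := ih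
    obtain ⟨e, e1, e2⟩ : ∃ e : ℝ, e * e = 1 ∧
        0 ≤ e * (∑ k ∈ S, (σ k * c k N + σ k * c N k)).re := by
      rcases le_total 0 (∑ k ∈ S, (σ k * c k N + σ k * c N k)).re with h | h
      exacts [⟨1, by simp, by linarith⟩, ⟨-1, by simp, by linarith⟩]
    refine ⟨update σ N e, fun k => ?_, ?_⟩
    · rcases eq_or_ne k N with rfl | h
      · rw [update_self]; nlinarith [abs_mul_abs_self e, abs_nonneg e]
      · rw [update_of_ne h]; exact s1 k
    · have hu : ∀ k ∈ S, update σ N e k = σ k := fun k hk =>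
        update_of_ne (ne_of_mem_of_not_mem hk hN) _ _
      have : ∑ m ∈ insert N S, ∑ k ∈ insert N S, (update σ N e m : ℂ) * update σ N e k * c m k
          = ∑ m ∈ S, ∑ k ∈ S, σ m * σ k * c m k + c N N
            + e * ∑ k ∈ S, (σ k * c k N + σ k * c N k) := by
        simp only [sum_insert hN, update_self, sum_add_distrib, ← Complex.ofReal_mul e e, e1]
        rw [sum_congr rfl fun m hm => sum_congr rfl fun k hk => by rw [hu m hm, hu k hk],
          sum_congr (s₁ := S) (f := fun k => (update σ N e k : ℂ) * e * c k N)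
            (g := fun k => e * (σ k * c k N)) rfl fun m hm => by rw [hu m hm]; ring,
          sum_congr (s₁ := S) (f := fun k => e * (update σ N e k : ℂ) * c N k)
            (g := fun k => e * (σ k * c N k)) rfl fun m hm => by rw [hu m hm]; ring,
          mul_add, mul_sum, mul_sum]
        push_cast; ring
      rw [this, sum_insert hN]
      simp only [Complex.add_re, Complex.re_ofReal_mul]
      linarith

section
variable {A : Type} [NormedRing A] [NormedAlgebra ℂ A]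

noncomputable def LMod.ac (M : LMod A) : A →L[ℂ] M.X →L[ℂ] M.X := M.bil.toContinuousLinearMap

lemma LMod.ac_mul (M : LMod A) (a b : A) : M.ac (a * b) = M.ac a ∘L M.ac b :=
  ContinuousLinearMap.ext (M.act_mul a b)

noncomputable def Hom (M Y : LMod A) : BMod A where
  X := M.X →L[ℂ] Y.X
  cpl := have := Y.cpl; inferInstance
  l a T := Y.ac a ∘L T
  r T a := T ∘L M.ac a
  l_bil := ⟨fun _ _ _ => by ext; simp, fun _ _ _ => by ext; simp, fun _ _ _ => by ext; simp,
    fun _ _ _ => by ext; simp, ‖Y.ac‖ + 1, by positivity, fun a T =>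
      (ContinuousLinearMap.opNorm_comp_le _ _).trans (mul_le_mul_of_nonneg_right
        ((Y.ac.le_opNorm a).trans (by nlinarith [norm_nonneg a])) (norm_nonneg T))⟩
  r_bil := ⟨fun _ _ _ => by ext; simp, fun _ _ _ => by ext; simp, fun _ _ _ => by ext; simp,
    fun _ _ _ => by ext; simp, ‖M.ac‖ + 1, by positivity, fun T a =>
      (ContinuousLinearMap.opNorm_comp_le _ _).trans ((mul_le_mul_of_nonneg_left
        (M.ac.le_opNorm a) (norm_nonneg T)).trans
          (by nlinarith [mul_nonneg (norm_nonneg a) (norm_nonneg T)]))⟩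
  l_mul a b T := by rw [Y.ac_mul]; rfl
  r_mul T a b := by rw [M.ac_mul]; rfl
  l_r _ _ _ := rfl

noncomputable def pc (M : LMod A) {Y Z : LMod A} (φ : Y.X →L[ℂ] Z.X) (T : (Hom M Y).X) :
    (Hom M Z).X := φ ∘L (show M.X →L[ℂ] Y.X from T)

lemma pc_lin (M : LMod A) {Y Z : LMod A} (φ : Y.X →L[ℂ] Z.X) : IsBoundedLinearMap ℂ (pc M φ) :=
  (ContinuousLinearMap.compL ℂ M.X Y.X Z.X φ).isBoundedLinearMap

lemma pc_mor (M : LMod A) {Y Z : LMod A} (φ : Y.X →L[ℂ] Z.X)
    (h : ∀ a x, φ (Y.act a x) = Z.act a (φ x)) : BMor (Hom M Y) (Hom M Z) (pc M φ) :=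
  ⟨pc_lin M φ, fun a _ => ContinuousLinearMap.ext fun _ => h a _, fun _ _ => rfl⟩

end

variable {Ω : Type} [TopologicalSpace Ω] {n k : ℕ}

lemma nm0 (x : XS Ω 0) {b : ℝ} (h : ∀ z, ‖pr x z‖ ≤ b) (b0 : 0 ≤ b) : ‖x‖ ≤ b :=
  nm_le x (fun τ => by
    simpa using τ.2 Unit (fun _ => 0) (fun _ t => pr x fun _ => t) (fun _ => b) (pr x)
      (fun _ _ => h _) fun z => by
        rw [Fintype.prod_unique]
        exact congrArg _ (funext fun p => congrArg z (Subsingleton.elim (α := Fin 1) _ _))) b0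

open Classical in
noncomputable def dl (t : Ω) : XS Ω 0 :=
  mkX (BoundedContinuousFunction.ofNormedAddCommGroup (fun z => if z 0 = t then 1 else 0)
    ((continuous_of_discreteTopology (f := fun u : Dc Ω => if u = t then (1 : ℂ) else 0)).comp c_l)
    1 fun z => by split_ifs <;> simp) 1 fun τ => by
      simpa using τ.2 Unit (fun _ => 0) (fun _ u => if u = t then 1 else 0) (fun _ => 1) _
        (fun _ _ => by split_ifs <;> simp) fun z => by rw [Fintype.prod_unique]; rfl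

open Classical in
lemma dl_ap (t : Ω) (z : SP Ω 0) : pr (dl t) z = if z 0 = t then 1 else 0 := rfl

def cz (n : ℕ) (p : Fin (n + 2)) : Fin (n + 1) := ⟨if p ≤ n then p else 0, by split_ifs <;> omega⟩

def cy (z : Fin (n + 1) → Ω) : SP Ω (n + 1) := fun p => z (cz n p)

lemma czl : cz n (Fin.last _) = 0 := Fin.ext (by simp [cz])

lemma cz0 : cz n 0 = 0 := Fin.ext (by simp [cz])

variable [CompactSpace Ω]

noncomputable abbrev XX (Ω : Type) [TopologicalSpace Ω] [CompactSpace Ω] (n : ℕ) := Hom (BL Ω 0) (BL Ω n)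

noncomputable def ev (T : (XX Ω n).X) (m : XS Ω 0) (z : SP Ω n) : ℂ :=
  pr ((show XS Ω 0 →L[ℂ] XS Ω n from T) m) z

lemma ext2 {T T' : (XX Ω n).X} (h : ∀ m z, ev T m z = ev T' m z) : T = T' :=
  ContinuousLinearMap.ext fun m => ext1 (h m)

lemma ev_lin (m : XS Ω 0) (z : SP Ω n) : IsLinearMap ℂ fun T => ev T m z :=
  ⟨fun _ _ => rfl, fun _ _ => rfl⟩

lemma ev_l (c : C(Ω, ℂ)) (T : (XX Ω n).X) (m : XS Ω 0) (z : SP Ω n) :
    ev ((XX Ω n).l c T) m z = c (z 0) * ev T m z := rfl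

lemma ev_r (c : C(Ω, ℂ)) (T : (XX Ω n).X) (m : XS Ω 0) (z : SP Ω n) :
    ev ((XX Ω n).r T c) m z = ev T (act c m) z := rfl

noncomputable def DH (n : ℕ) : (XX Ω (n + 1)).X → (XX Ω n).X :=
  pc (BL Ω 0) (Y := BL Ω (n + 1)) (Z := BL Ω n) (DX n)

noncomputable def SH (n : ℕ) : (XX Ω n).X → (XX Ω (n + 1)).X :=
  pc (BL Ω 0) (Y := BL Ω n) (Z := BL Ω (n + 1)) (SX n)

lemma DH_mor : BMor (XX Ω (n + 1)) (XX Ω n) (DH n) := pc_mor _ _ DX_act

lemma ev_D (T : (XX Ω (n + 1)).X) (m : XS Ω 0) (z : SP Ω n) :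
    ev (DH n T) m z = ∑ i ∈ range (n + 1), (-1 : ℂ) ^ i * ev T m fun p => z (sd n i p) :=
  DX_ap _ z

lemma DHS0 (T : (XX Ω 0).X) : DH 0 (SH 0 T) = T := ContinuousLinearMap.ext fun _ => DS0 _

lemma DHS (T : (XX Ω (n + 1)).X) (h : DH n T = 0) : DH (n + 1) (SH (n + 1) T) = T :=
  ContinuousLinearMap.ext fun m => DS _ (congrArg (fun T : XS Ω 0 →L[ℂ] XS Ω n => T m) h)

lemma io_bd (a : Fin (n + 1) → C(Ω, ℂ)) (x : XS Ω 0) (τ : TT Ω n) : ‖τ.1 ((∏ s, pl s (a s)) *
    pbZ (pb (fun _ => Fin.last n) rfl) (pr x))‖ ≤ (∏ s, ‖a s‖) * ‖x‖ := by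
  refine (τ.2 (Option (Fin (n + 1))) (·.elim (Fin.last n) id)
    (·.elim (fun t => pr x fun _ => t) fun s => a s) (·.elim ‖x‖ fun s => ‖a s‖) _
    (fun i t => by cases i; exacts [pt_le _ _, (a _).norm_coe_le_norm _]) fun z => ?_).trans_eq ?_
  · rw [Fintype.prod_option, BoundedContinuousFunction.mul_apply, mul_comm,
      BoundedContinuousFunction.prod_apply]
    rfl
  · rw [Fintype.prod_option, one_mul, mul_comm]
    rfl

noncomputable def io (n : ℕ) (a : Fin (n + 1) → C(Ω, ℂ)) : (XX Ω n).X :=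
  opX (E := XS Ω 0) (ContinuousLinearMap.mul ℂ _ (∏ s, pl s (a s)) ∘L
    pbZ (pb (fun _ => Fin.last n) rfl) ∘L pr).toLinearMap _ (by positivity) (io_bd a)

lemma io_ap (a : Fin (n + 1) → C(Ω, ℂ)) (m : XS Ω 0) (z : SP Ω n) :
    ev (io n a) m z = (∏ s, a s (z s)) * pr m fun _ => z (Fin.last n) :=
  congrArg (· * pr m fun _ => z (Fin.last n))
    (BoundedContinuousFunction.prod_apply univ (fun s => pl s (a s)) z)

lemma io_gd : Gd (XX Ω n) (io n) :=
  ⟨fun a p => ⟨fun x y => ext2 fun m z => by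
      rw [(ev_lin m z).map_add]; simp only [io_ap, sm_prod, ContinuousMap.add_apply, add_mul],
    fun c x => ext2 fun m z => by
      rw [(ev_lin m z).map_smul]
      simp only [io_ap, sm_prod, ContinuousMap.smul_apply, smul_eq_mul, mul_assoc]⟩,
    ⟨1, zero_le_one, fun a => (ContinuousLinearMap.opNorm_le_bound
      (show XS Ω 0 →L[ℂ] XS Ω n from io n a) (by positivity) fun x => nm_le _ (io_bd a x)
      (by positivity)).trans_eq (one_mul _).symm⟩, fun c a => ext2 fun m z => by simp only [ev_l, io_ap, sm_prod, mul_assoc],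
    fun c a => ext2 fun m z => by
      simp only [ev_r, io_ap, sm_prod, act_ap, mul_assoc, mul_left_comm]⟩

lemma ev_bb (F : (Fin (n + 1) → C(Ω, ℂ)) → (XX Ω k).X) (a : Fin (n + 2) → C(Ω, ℂ)) (m : XS Ω 0)
    (z : SP Ω k) :
    ev (bb F a) m z = ∑ i ∈ range (n + 1), (-1 : ℂ) ^ i * ev (F (push (sd n i) a)) m z :=
  lin_sum (ev_lin m z) _ _ _

lemma D_io (a : Fin (n + 2) → C(Ω, ℂ)) : DH n (io (n + 1) a) = bb (io n) a := ext2 fun m z => by
  simp only [ev_D, ev_bb, io_ap, push_prod, sdl]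

theorem fin [T2Space Ω] {P : Set Ω} (hP : Preperfect P) (h0 : P.Nonempty) (hk : 1 ≤ k)
    {η : (Fin (k + 2) → C(Ω, ℂ)) → (XX Ω (k + 2)).X} (hη : Gd _ η)
    (e : ∀ a, DH (k + 1) (io (k + 2) a - bb η a) = 0) : False := by
  classical
  have : Nonempty Ω := ⟨h0.some⟩
  have G := hη.bb
  obtain ⟨C, c0, c1⟩ := G.bdd
  let φ : Fin (k + 1) → Fin (k + 3) := fun s => s.castSucc.succ
  have nT : ∀ F m z, ‖m‖ ≤ 1 → ∀ τ κ, 0 < κ → EL τ κ → ‖τ (pr ((show XS Ω 0 →L[ℂ] XS Ω (k + 2) from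
      bb η (push φ F)) m))‖ ≤ κ * (C * ∏ s, ‖F s‖) := fun F m (z : Unit) hm τ κ k0 hτ =>
    (bd k0 hτ _).trans (mul_le_mul_of_nonneg_left ((ContinuousLinearMap.le_of_opNorm_le_of_le _
      ((c1 _).trans (mul_le_mul_of_nonneg_left (push_norm _ _) c0)) hm).trans_eq (mul_one _)) k0.le)
  have n1 : ∀ t : Ω, ‖dl t‖ ≤ 1 := fun t => nm0 _ (fun z => by rw [dl_ap]; split_ifs <;> simp)
    zero_le_one
  have b : ∀ z F, ‖ev (bb η (push φ F)) (dl (z 0)) (cy z)‖ ≤ C * ∏ s, ‖F s‖ := fun z F =>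
    (nT F _ () (n1 _) _ 1 one_pos (EL_ev (cy z))).trans_eq (one_mul _)
  let h : HH Ω k := fun z => MultilinearMap.mkContinuous (MultilinearMap.mk'
    (fun F => ev (bb η (push φ F)) (dl (z 0)) (cy z))
    (fun F p x y => by
      rw [← sm_up F p, ← sm_up F p x, ← sm_up F p y]
      simp only [push_sm, (G.lin _ _).map_add, (ev_lin _ _).map_add])
    fun F p c x => by
      rw [← sm_up F p, ← sm_up F p x]
      simp only [push_sm, (G.lin _ _).map_smul, (ev_lin _ _).map_smul]) C (b z)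
  have hh : ∀ z F, h z F = ev (bb η (push φ F)) (dl (z 0)) (cy z) := fun _ _ => rfl
  refine core (h := h) (C := C) hP h0 hk ⟨c0, fun F z p hp => ?_, fun s c z κ k0 hE F => ?_,
    fun F E z h1 h2 h3 => ?_, fun F z => ?_, b⟩
  · simp only [hh, update_of_ne hp.symm]
    exact (BoundedContinuousFunction.continuous _).comp (c_to (fun q => (continuous_apply _).comp
      (continuous_const.update p continuous_id)) (continuous_const.congr fun x =>
        (update_of_ne hp.symm x z).symm.trans (congrArg _ czl.symm)))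
  · obtain ⟨σ, s1, s2⟩ := signs' (fun t t' => ∑ j ∈ s with z j 0 = t,
      c j * ev (bb η (push φ F)) (dl t') (cy (z j))) (s.image (z · 0))
    have m1 : ‖∑ t ∈ s.image (z · 0), (σ t : ℂ) • dl t‖ ≤ 1 := nm0 _ (fun u => by
      simp only [map_sum, map_smul, BoundedContinuousFunction.sum_apply,
        BoundedContinuousFunction.smul_apply, dl_ap, smul_eq_mul, mul_ite, mul_one, mul_zero,
        sum_ite_eq]
      split_ifs <;> simp [s1]) zero_le_one
    have := nT F _ () m1 (∑ j ∈ s, (c j * σ (z j 0)) • BoundedContinuousFunction.evalCLM ℂ (cy (z j)))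
      κ k0 fun ι _ ψ a b w hb hw => by
        refine Eq.trans_le ?_ ((hE (Option ι) (·.elim 0 fun i => cz _ (ψ i))
          (·.elim (fun t => σ t) a) (·.elim 1 b) fun i t => by
            cases i; exacts [by simpa using s1 t, hb _ _]).trans_eq (by simp))
        simp only [_root_.sum_apply, _root_.smul_apply, BoundedContinuousFunction.evalCLM_apply, hw,
          Fintype.prod_option, smul_eq_mul, mul_assoc]
        rfl
    refine Eq.trans_le ?_ (s2.trans (Eq.trans_le ?_ ((Complex.re_le_norm _).trans this)))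
    · rw [← sum_fiberwise_of_maps_to (fun j hj => mem_image_of_mem (z · 0) hj)]
      exact congrArg _ (sum_congr rfl fun t _ => sum_congr rfl fun j hj => by
        rw [hh, (mem_filter.1 hj).2])
    · rw [_root_.sum_apply, ← sum_fiberwise_of_maps_to (fun j hj => mem_image_of_mem (z · 0) hj)]
      refine congrArg _ (sum_congr rfl fun t _ => ?_)
      simp only [mul_sum]
      rw [sum_comm]
      refine sum_congr rfl fun j hj => ?_
      simp only [_root_.smul_apply, map_sum, map_smul, smul_eq_mul, (mem_filter.1 hj).2]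
      exact sum_congr rfl fun u _ => (fun a b c e : ℂ => (by ring : a * b * (c * e) =
        b * (c * a * e))) _ _ _ _
  · have z0 : ∀ x : Fin (k + 2) → C(Ω, ℂ), ((∃ p, x p = 0) ∨ x (Fin.last _) (z 0) = 0) →
        ev (η x) (dl (z 0)) (cy z) = 0 := by
      rintro x (⟨p, hp⟩ | hp)
      · rw [← update_eq_self p x, hp, ← sm_up, (hη.lin _ p).map_zero, (ev_lin _ _).map_zero]
      · rw [← update_eq_self (Fin.last _) x, ← sm_up, hη.rt, ev_r, show act (x (Fin.last _))
          (dl (z 0)) = 0 from ext1 fun u => by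
            rw [act_ap, dl_ap]; split_ifs with e <;> simp [*], ev, map_zero, map_zero]
        rfl
    rw [show update F 0 (E * F 0) = sm 0 E F from funext fun s => by
      by_cases e : s = 0 <;> simp [e, sm], hh, hh, ev_bb, ev_bb]
    refine sum_congr rfl fun i hi => congrArg _ ?_
    rw [push_push, push_push, push_sm]
    obtain rfl | i0 := i.eq_zero_or_pos
    · rw [show sd (k + 1) 0 (φ 0) = 0 from Fin.ext (by simp [sd, φ]), hη.lf, ev_l, cy, cz0, h3,
        one_mul]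
    have : (∃ p, push (fun q => sd (k + 1) i (φ q)) F p = 0) ∨
        push (fun q => sd (k + 1) i (φ q)) F (Fin.last _) (z 0) = 0 := by
      by_cases e : i ≤ k
      · refine .inl ⟨⟨i, by omega⟩, eq_zero_of_zero_dvd ((h1 ⟨i - 1, by omega⟩).symm.dvd.trans ?_)⟩
        rw [← prod_pair (Fin.castSucc_lt_succ.ne)]
        refine prod_dvd_prod_of_subset _ _ _ fun q hq => mem_filter.2 ⟨mem_univ _, Fin.ext ?_⟩
        obtain rfl | rfl := mem_insert.1 hq |>.imp_right mem_singleton.1 <;>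
          simp only [sd, φ, Fin.val_succ, Fin.val_castSucc] <;> split_ifs <;> omega
      · refine .inr ?_
        rw [push, ContinuousMap.prod_apply]
        refine prod_eq_zero (mem_filter.2 ⟨mem_univ _, Fin.ext ?_⟩) h2
        have := mem_range.1 hi
        simp only [sd, φ, Fin.val_succ, Fin.val_castSucc, Fin.val_last]
        split_ifs <;> omega
    rw [z0 _ this, z0 _ (this.imp (.imp fun p e => by rw [sm, e, mul_zero]) fun e => by
      rw [sm, ContinuousMap.mul_apply, e, mul_zero])]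
  · have := congrArg (ev · (dl (z 0)) (cy z)) (e (push φ F))
    simp only [ev_D, (ev_lin _ _).map_sub, (ev_lin _ _).map_zero, mul_sub, sum_sub_distrib,
      sub_eq_zero, io_ap, push_prod, sdl] at this
    refine Eq.trans (sum_congr rfl fun i hi => congrArg _ ?_) (this.symm.trans
      (sum_congr rfl fun i hi => congrArg _ ?_))
    · rw [hh, comp_apply, Sy.sg0]
      refine congrArg _ (funext fun p => congrArg z (Fin.ext ?_))
      have := mem_range.1 hi
      simp only [Sy.sg, cz, sd]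
      split_ifs <;> omega
    · rw [dl_ap, cy, czl, if_pos rfl, mul_one]
      refine prod_congr rfl fun s _ => congrArg _ (congrArg z (Fin.ext ?_))
      have := mem_range.1 hi
      simp only [Sy.sg, cz, sd, φ, Fin.val_succ, Fin.val_castSucc]
      split_ifs <;> omega

theorem noRes [T2Space Ω] {P : Set Ω} (hP : Preperfect P) (h0 : P.Nonempty)
    (U : ℕ → BMod C(Ω, ℂ)) (d : ∀ j, (U (j + 1)).X → (U j).X) (s : ∀ j, (U j).X → (U (j + 1)).X)
    (hd : ∀ j, BMor _ _ (d j)) (hs : ∀ j, IsBoundedLinearMap ℂ (s j)) (e0 : ∀ x, d 0 (s 0 x) = x)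
    (e1 : ∀ j x, d j x = 0 → d (j + 1) (s (j + 1) x) = x)
    (R : ∀ j, ((U j).X → (XX Ω j).X) → Prop) (r1 : ∀ j ψ, R j ψ → BMor _ _ ψ)
    (r2 : ∀ j ψ, R j ψ → ∃ ψ', R (j + 1) ψ' ∧ ∀ x, DH j (ψ' x) = ψ (d j x))
    (ψ0 : (U 0).X → (XX Ω 0).X) (r0 : R 0 ψ0) (φ0 : (Fin 1 → C(Ω, ℂ)) → (U 0).X) (f0 : Gd _ φ0)
    (f1 : ∀ a, ψ0 (φ0 a) = io 0 a) (hk : 1 ≤ k) (hz : ∀ x : (U (k + 1)).X, x = 0) : False := by
  have : Nonempty Ω := ⟨h0.some⟩
  have mb : ∀ {U V : BMod C(Ω, ℂ)} {φ : U.X → V.X} (_ : BMor U V φ) {n}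
      (F : (Fin (n + 1) → C(Ω, ℂ)) → U.X) a, φ (bb F a) = bb (fun a => φ (F a)) a :=
    fun h _ _ _ => lin_sum h.1.toIsLinearMap _ _ _
  have key : ∀ j, ∃ (ψ : (U j).X → (XX Ω j).X) (φ : (Fin (j + 1) → C(Ω, ℂ)) → (U j).X)
      (η : (Fin (j + 1) → C(Ω, ℂ)) → (XX Ω (j + 1)).X), R j ψ ∧ Gd _ φ ∧ Gd _ η ∧
      (∀ a, DH j (io (j + 1) a - bb η a) = ψ (bb φ a)) ∧ (∀ a, d j (s j (bb φ a)) = bb φ a) :=
    fun j => by
    induction j with
    | zero =>
      refine ⟨ψ0, φ0, fun a => SH 0 (io 0 a) - SH 0 (io 0 a), r0, f0, ?_, fun a => ?_, fun _ => e0 _⟩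
      · simp only [sub_self]
        exact ⟨fun _ _ => ⟨fun _ _ => by simp, fun _ _ => by simp⟩, ⟨0, le_rfl, by simp⟩,
          fun c _ => (l_lin _ c).map_zero.symm, fun c _ => (r_lin _ c).map_zero.symm⟩
      · rw [mb (r1 _ _ r0)]
        simp only [sub_self, bb, smul_zero, sum_const_zero, sub_zero, D_io, f1]
    | succ j ih =>
      obtain ⟨ψ, φ, η, a1, a2, a3, a4, a5⟩ := ih
      obtain ⟨ψ', b1, b2⟩ := r2 j ψ a1
      have b3 := a2.bb.lam (hs j)
      have b4 := lam_eq a2.bb (hd j) a5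
      have b5 := (io_gd.sub a3.bb).sub (b3.mor (r1 _ _ b1))
      have b6 := lam_eq (s := SH (j + 1)) b5 DH_mor fun a => DHS _ (by
        rw [DH_mor.1.toIsLinearMap.map_sub, a4, b2, b4, sub_self])
      refine ⟨ψ', _, _, b1, b3, b5.lam (s := SH (j + 1)) (pc_lin _ _), fun a => ?_, fun a => e1 _ _ ?_⟩
      · rw [DH_mor.1.toIsLinearMap.map_sub, D_io, mb DH_mor, mb (r1 _ _ b1)]
        simp only [b6, bb_sub, bb_bb]
        abel
      · rw [mb (hd j)]
        simp only [b4, bb_bb]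
  obtain ⟨ψ, φ, η, a1, -, a3, a4, -⟩ := key (k + 1)
  exact fin hP h0 hk a3 fun a => by rw [a4, hz (bb φ a), (r1 _ _ a1).1.toIsLinearMap.map_zero]

end Pool.Agent.H90.Tg
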