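import Mathlib
import Pool.Agent.H90.TgF

set_option maxSynthPendingDepth 4

namespace Pool.Agent.H90.Tg

open Filter Topology Function Finset

section
variable {A X Y Z : Type} [NormedAddCommGroup A] [NormedSpace ℂ A] [NormedAddCommGroup X]
  [NormedSpace ℂ X] [NormedAddCommGroup Y] [NormedSpace ℂ Y] [NormedAddCommGroup Z] [NormedSpace ℂ Z]

lemma bil_flip {f : X × Y → Z} (h : IsBoundedBilinearMap ℂ f) :
    IsBoundedBilinearMap ℂ fun p : Y × X => f (p.2, p.1) :=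
  ⟨fun x y z => h.add_right z x y, fun c x y => h.smul_right c y x, fun x y z => h.add_left y z x,
    fun c x y => h.smul_left c y x, h.bound.imp fun _ e =>
      ⟨e.1, fun x y => (e.2 y x).trans_eq (mul_right_comm _ _ _)⟩⟩

lemma bil_sub (S : Submodule ℂ (X × Y)) {f : A × X → X} {g : A × Y → Y}
    (hf : IsBoundedBilinearMap ℂ f) (hg : IsBoundedBilinearMap ℂ g)
    (h : ∀ a (x : S), (f (a, x.1.1), g (a, x.1.2)) ∈ S) :
    IsBoundedBilinearMap ℂ fun p : A × S => (⟨_, h p.1 p.2⟩ : S) := by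
  obtain ⟨C, c0, c1⟩ := hf.bound
  obtain ⟨D, d0, d1⟩ := hg.bound
  refine ⟨fun _ _ _ => Subtype.ext (Prod.ext (hf.add_left _ _ _) (hg.add_left _ _ _)),
    fun _ _ _ => Subtype.ext (Prod.ext (hf.smul_left _ _ _) (hg.smul_left _ _ _)),
    fun _ _ _ => Subtype.ext (Prod.ext (hf.add_right _ _ _) (hg.add_right _ _ _)),
    fun _ _ _ => Subtype.ext (Prod.ext (hf.smul_right _ _ _) (hg.smul_right _ _ _)),
    C + D, by positivity, fun a x => max_le ((c1 _ _).trans ?_) ((d1 _ _).trans ?_)⟩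
  · exact mul_le_mul (mul_le_mul_of_nonneg_right (by linarith) (norm_nonneg a)) (norm_fst_le x.1)
      (norm_nonneg _) (by positivity)
  · exact mul_le_mul (mul_le_mul_of_nonneg_right (by linarith) (norm_nonneg a)) (norm_snd_le x.1)
      (norm_nonneg _) (by positivity)

def pbk {ψ : X → Z} {σ : Y → Z} (h1 : IsBoundedLinearMap ℂ ψ) (h2 : IsBoundedLinearMap ℂ σ) :
    Submodule ℂ (X × Y) where
  carrier := {x | σ x.2 = ψ x.1}
  add_mem' := fun {x y} a b => by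
    rw [Set.mem_ofPred_eq, Prod.snd_add, Prod.fst_add, h1.map_add, h2.map_add, a, b]
  zero_mem' := h2.toIsLinearMap.map_zero.trans h1.toIsLinearMap.map_zero.symm
  smul_mem' := fun c x a => by
    rw [Set.mem_ofPred_eq, Prod.smul_snd, Prod.smul_fst, h1.map_smul, h2.map_smul, a]

variable {ψ : X → Z} {σ : Y → Z} (h1 : IsBoundedLinearMap ℂ ψ) (h2 : IsBoundedLinearMap ℂ σ)

lemma pbk_cpl (hX : CompleteSpace X) (hY : CompleteSpace Y) : CompleteSpace (pbk h1 h2) :=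
  (isClosed_eq (h2.continuous.comp continuous_snd)
    (h1.continuous.comp continuous_fst)).completeSpace_coe

lemma pbk_fst : IsBoundedLinearMap ℂ fun x : pbk h1 h2 => x.1.1 :=
  ((ContinuousLinearMap.fst ℂ X Y).comp (pbk h1 h2).subtypeL).isBoundedLinearMap

lemma pbk_snd : IsBoundedLinearMap ℂ fun x : pbk h1 h2 => x.1.2 :=
  ((ContinuousLinearMap.snd ℂ X Y).comp (pbk h1 h2).subtypeL).isBoundedLinearMap

lemma pbk_sec {S : Z → Y} (h3 : IsBoundedLinearMap ℂ S) (e : ∀ p, σ (S (ψ p)) = ψ p) :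
    ∃ s : X → pbk h1 h2, IsBoundedLinearMap ℂ s ∧ ∀ x, (s x).1.1 = x :=
  ⟨_, (((ContinuousLinearMap.id ℂ X).prod (h3.comp h1).toContinuousLinearMap).codRestrict
    (pbk h1 h2) e).isBoundedLinearMap, fun _ => rfl⟩

end

section
variable {A : Type} [NormedRing A] [NormedAlgebra ℂ A]

lemma Proj.lift {P Y Z : LMod A} (hP : Proj P) {ψ : P.X → Z.X} {σ : Y.X → Z.X} (h1 : IsMor P Z ψ)
    (h2 : IsMor Y Z σ) {S : Z.X → Y.X} (h3 : IsBoundedLinearMap ℂ S) (e : ∀ p, σ (S (ψ p)) = ψ p) :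
    ∃ ρ, IsMor P Y ρ ∧ ∀ p, σ (ρ p) = ψ p := by
  have m : ∀ a (x : pbk h1.1 h2.1), (P.act a x.1.1, Y.act a x.1.2) ∈ pbk h1.1 h2.1 := fun a x =>
    (h2.2 _ _).trans ((congrArg _ x.2).trans (h1.2 _ _).symm)
  obtain ⟨ρ, r1, r2⟩ := hP ⟨pbk h1.1 h2.1, pbk_cpl _ _ P.cpl Y.cpl, fun a x => ⟨_, m a x⟩,
    bil_sub _ P.bil Y.bil m, fun _ _ _ => Subtype.ext (Prod.ext (P.act_mul _ _ _)
      (Y.act_mul _ _ _))⟩ (fun x => x.1.1) ⟨pbk_fst _ _, fun _ _ => rfl⟩ (pbk_sec _ _ h3 e)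
  exact ⟨fun p => (ρ p).1.2, ⟨(pbk_snd _ _).comp r1.1, fun a x => congrArg (·.1.2) (r1.2 a x)⟩,
    fun p => (ρ p).2.trans (congrArg _ (r2 p))⟩

lemma BProj.lift {P Y Z : BMod A} (hP : BProj P) {ψ : P.X → Z.X} {σ : Y.X → Z.X} (h1 : BMor P Z ψ)
    (h2 : BMor Y Z σ) {S : Z.X → Y.X} (h3 : IsBoundedLinearMap ℂ S) (e : ∀ p, σ (S (ψ p)) = ψ p) :
    ∃ ρ, BMor P Y ρ ∧ ∀ p, σ (ρ p) = ψ p := by
  have m : ∀ a (x : pbk h1.1 h2.1), (P.l a x.1.1, Y.l a x.1.2) ∈ pbk h1.1 h2.1 := fun a x =>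
    (h2.2.1 _ _).trans ((congrArg _ x.2).trans (h1.2.1 _ _).symm)
  have m' : ∀ a (x : pbk h1.1 h2.1), (P.r x.1.1 a, Y.r x.1.2 a) ∈ pbk h1.1 h2.1 := fun a x =>
    (h2.2.2 _ _).trans ((congrArg (Z.r · a) x.2).trans (h1.2.2 _ _).symm)
  obtain ⟨ρ, r1, r2⟩ := hP ⟨pbk h1.1 h2.1, pbk_cpl _ _ P.cpl Y.cpl, fun a x => ⟨_, m a x⟩,
    fun x a => ⟨_, m' a x⟩, bil_sub _ P.l_bil Y.l_bil m,
    bil_flip (bil_sub _ (bil_flip P.r_bil) (bil_flip Y.r_bil) m'),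
    fun _ _ _ => Subtype.ext (Prod.ext (P.l_mul _ _ _) (Y.l_mul _ _ _)),
    fun _ _ _ => Subtype.ext (Prod.ext (P.r_mul _ _ _) (Y.r_mul _ _ _)),
    fun _ _ _ => Subtype.ext (Prod.ext (P.l_r _ _ _) (Y.l_r _ _ _))⟩ (fun x => x.1.1)
    ⟨pbk_fst _ _, fun _ _ => rfl, fun _ _ => rfl⟩ (pbk_sec _ _ h3 e)
  exact ⟨fun p => (ρ p).1.2, ⟨(pbk_snd _ _).comp r1.1, fun a x => congrArg (·.1.2) (r1.2.1 a x),
    fun x a => congrArg (·.1.2) (r1.2.2 x a)⟩, fun p => (ρ p).2.trans (congrArg _ (r2 p))⟩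

end

def cns {α : Type 1} (M : α) (P : ℕ → α) : ℕ → α
  | 0 => M
  | j + 1 => P j

variable {Ω : Type} [TopologicalSpace Ω] [CompactSpace Ω] [T2Space Ω] {W : Set Ω}

theorem dg_inf (hP : Preperfect W) (h0 : W.Nonempty) (n : ℕ) : ¬HasRes (BL Ω 0) n := by
  rintro ⟨P, d, e, ⟨c1, c2, c3, c4⟩, ⟨s, u, s1, s2, s3, s4, s5⟩, hp, hz⟩
  let P' : ℕ → LMod C(Ω, ℂ) := cns (BL Ω 0) P
  let d' : ∀ j, (P' (j + 1)).X → (P' j).X := fun j => Nat.casesOn j e d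
  let s' : ∀ j : ℕ, (P' j).X → (P' (j + 1)).X := fun j => Nat.casesOn j u s
  have md : ∀ j, IsMor _ _ (d' j) := fun j => Nat.casesOn j c1 c2
  have ms : ∀ j : ℕ, IsBoundedLinearMap ℂ (s' j) := fun j => by
    cases j
    exacts [s2, s1 _]
  have dd : ∀ j x, d' j (d' (j + 1) x) = 0 := fun j => Nat.casesOn j c3 c4
  have ex : ∀ j x, d' (j + 1) (s' (j + 1) x) + s' j (d' j x) = x := fun j => Nat.casesOn j s4 s5
  refine noRes hP h0 (fun j => Hom (BL Ω 0) (P' j))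
    (fun j => pc _ (md j).1.toContinuousLinearMap) (fun j => pc _ (ms j).toContinuousLinearMap)
    (fun j => pc_mor _ _ (md j).2) (fun j => pc_lin _ _)
    (fun T => ContinuousLinearMap.ext fun m => s3 _)
    (fun j T h => ContinuousLinearMap.ext fun m => ?_)
    (fun j ψ => ∃ (ψ1 : (P' j).X → (BL Ω j).X) (h : IsMor _ _ ψ1),
      ψ = pc _ h.1.toContinuousLinearMap ∧ ∀ p, DX j (SX j (ψ1 (d' j p))) = ψ1 (d' j p))
    (fun j ψ ⟨ψ1, h, e, _⟩ => e ▸ pc_mor _ _ h.2) (fun j ψ ⟨ψ1, h, e, f⟩ => ?_) _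
    ⟨id, ⟨IsBoundedLinearMap.id, fun _ _ => rfl⟩, rfl, fun _ => DS0 _⟩ (io 0) io_gd (fun _ => rfl)
    (k := n + 1) (by omega) fun T => ContinuousLinearMap.ext fun m => hz _ (by omega) _
  · have := ex j ((show (BL Ω 0).X →L[ℂ] (P' (j + 1)).X from T) m)
    rw [show d' j ((show (BL Ω 0).X →L[ℂ] (P' (j + 1)).X from T) m) = 0 from
      congrArg (fun T : (BL Ω 0).X →L[ℂ] (P' j).X => T m) h, (ms j).toIsLinearMap.map_zero,
      add_zero] at this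
    exact this
  · obtain ⟨ρ, r1, r2⟩ := (hp j).lift (Y := BL Ω (j + 1)) (Z := BL Ω j) (ψ := fun p => ψ1 (d' j p))
      ⟨h.1.comp (md j).1, fun a x => (congrArg ψ1 ((md j).2 a x)).trans (h.2 _ _)⟩
      ⟨(DX j).isBoundedLinearMap, DX_act⟩ (SX j).isBoundedLinearMap f
    refine ⟨_, ⟨ρ, r1, rfl, fun p => DS _ ((r2 _).trans ?_)⟩, fun T => ?_⟩
    · exact (congrArg ψ1 (dd j p)).trans h.1.toIsLinearMap.map_zero
    · rw [e]
      exact ContinuousLinearMap.ext fun m => r2 _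

noncomputable def reg (Ω : Type) [TopologicalSpace Ω] [CompactSpace Ω] : BMod C(Ω, ℂ) where
  X := C(Ω, ℂ)
  cpl := inferInstance
  l a b := a * b
  r a b := a * b
  l_bil := isBoundedBilinearMap_mul
  r_bil := isBoundedBilinearMap_mul
  l_mul := mul_assoc
  r_mul a b c := (mul_assoc a b c).symm
  l_r a b c := (mul_assoc a b c).symm

theorem db_inf (hP : Preperfect W) (h0 : W.Nonempty) (n : ℕ) : ¬BHasRes C(Ω, ℂ) n := by
  rintro ⟨P, d, e, ⟨c1, c2, c3, c4⟩, ⟨s, u, s1, s2, s3, s4, s5⟩, hp, hz⟩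
  let P' : ℕ → BMod C(Ω, ℂ) := cns (reg Ω) P
  let d' : ∀ j, (P' (j + 1)).X → (P' j).X := fun j => Nat.casesOn j e d
  let s' : ∀ j : ℕ, (P' j).X → (P' (j + 1)).X := fun j => Nat.casesOn j u s
  have md : ∀ j, BMor _ _ (d' j) := fun j => Nat.casesOn j c1 c2
  have ms : ∀ j : ℕ, IsBoundedLinearMap ℂ (s' j) := fun j => by
    cases j
    exacts [s2, s1 _]
  have dd : ∀ j x, d' j (d' (j + 1) x) = 0 := fun j => Nat.casesOn j c3 c4
  have ex : ∀ j x, d' (j + 1) (s' (j + 1) x) + s' j (d' j x) = x := fun j => Nat.casesOn j s4 s5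
  have e1 : ∀ (c : C(Ω, ℂ)) (a : Fin 1 → C(Ω, ℂ)) p, sm p c a = fun _ => c * a 0 := fun c a p =>
    funext fun s => by rw [sm, if_pos (Subsingleton.elim _ _), Subsingleton.elim s 0]
  have G := io_gd (Ω := Ω) (n := 0)
  obtain ⟨C, c0, c5⟩ := G.bdd
  refine noRes hP h0 P' d' s' md ms s3 (fun j x h => ?_)
    (fun j ψ => BMor _ _ ψ ∧ ∀ p, DH j (SH j (ψ (d' j p))) = ψ (d' j p)) (fun _ _ h => h.1)
    (fun j ψ h => ?_) (fun a : C(Ω, ℂ) => io 0 fun _ => a) ⟨⟨⟨?_, C + 1, by positivity,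
      fun a : C(Ω, ℂ) => ?_⟩, fun a x => ?_, fun (x : C(Ω, ℂ)) a => ?_⟩, fun _ => DHS0 _⟩
    (fun a => a 0) ⟨fun a p => ?_, ⟨1, zero_le_one, fun a => ?_⟩, fun c a => ?_, fun c a => ?_⟩
    (fun a => congrArg _ (funext fun s => congrArg a (Subsingleton.elim _ _)))
    (k := n + 1) (by omega) (hz _ (by omega))
  · have := ex j x
    rwa [h, (ms j).toIsLinearMap.map_zero, add_zero] at this
  · obtain ⟨ρ, r1, r2⟩ := (hp j).lift (ψ := fun p => ψ (d' j p)) ⟨h.1.1.comp (md j).1,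
      fun a x => (congrArg ψ ((md j).2.1 a x)).trans (h.1.2.1 _ _),
      fun x a => (congrArg ψ ((md j).2.2 x a)).trans (h.1.2.2 _ _)⟩ DH_mor (pc_lin _ _) h.2
    exact ⟨ρ, ⟨r1, fun p => DHS _ ((r2 _).trans ((congrArg ψ (dd j p)).trans
      h.1.1.toIsLinearMap.map_zero))⟩, r2⟩
  · have := G.lin 1 0
    simp only [e1, Pi.one_apply, mul_one] at this
    exact this
  · refine (c5 _).trans ?_
    rw [Fin.prod_univ_one]
    exact mul_le_mul_of_nonneg_right (le_add_of_nonneg_right zero_le_one) (norm_nonneg a)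
  · exact (congrArg _ (e1 a (fun _ => x) 0).symm).trans (G.lf a _)
  · exact (congrArg _ ((funext fun _ => mul_comm x a).trans (e1 a (fun _ => x) _).symm)).trans
      (G.rt a _)
  · simp only [e1]
    exact ⟨fun x y => add_mul x y _, fun c x => smul_mul_assoc c x _⟩
  · rw [Fin.prod_univ_one, one_mul]
    exact le_rfl
  · rw [e1]
    rfl
  · rw [e1]
    exact mul_comm c _

end Pool.Agent.H90.Tg
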