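import Mathlib

namespace Pool.Agent.H90.Tg

open Filter Topology Function

lemma pre_ult : Preperfect {u : Ultrafilter ℕ | (u : Filter ℕ) ≤ cofinite} := fun u hu => by
  refine accPt_iff_nhds.2 fun U hU => ?_
  obtain ⟨_, ⟨s, rfl⟩, h1, h2⟩ := ultrafilterBasis_is_basis.mem_nhds_iff.1 hU
  have hs : s.Infinite := fun h => (u.compl_mem_iff_notMem.1 (hu h.compl_mem_cofinite)) h1
  let e := hs.natEmbedding
  have key : ∀ f : ℕ → ℕ, Injective f → (hyperfilter ℕ).map (fun n => (e (f n) : ℕ)) ∈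
      U ∩ {u : Ultrafilter ℕ | (u : Filter ℕ) ≤ cofinite} := fun f hf =>
    ⟨h2 (show (fun n => (e (f n) : ℕ)) ⁻¹' s ∈ (hyperfilter ℕ : Filter ℕ) from
      univ_mem' fun n => (e (f n)).2),
      ((Subtype.val_injective.comp (e.injective.comp hf)).tendsto_cofinite.mono_left
        hyperfilter_le_cofinite :)⟩
  by_cases h : (hyperfilter ℕ).map (fun n => (e (2 * n) : ℕ)) = u
  · refine ⟨_, key (fun n => 2 * n + 1) fun a b h => by simpa using h, fun h' => ?_⟩
    have a : Set.range (fun n => (e (2 * n) : ℕ)) ∈ u := h ▸ range_mem_map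
    have b : Set.range (fun n => (e (2 * n + 1) : ℕ)) ∈ u := h' ▸ range_mem_map
    obtain ⟨_, ⟨n, rfl⟩, m, hm⟩ := u.nonempty_of_mem (inter_mem a b)
    have := e.injective (Subtype.val_injective hm)
    omega
  · exact ⟨_, key (fun n => 2 * n) fun a b h => by simpa using h, h⟩

lemma pre_sc : ∃ W : Set (StoneCech ℕ), Preperfect W ∧ W.Nonempty := by
  have hc : Continuous (pure : ℕ → Ultrafilter ℕ) := continuous_of_discreteTopology
  have c := continuous_ultrafilter_extend (stoneCechUnit : ℕ → StoneCech ℕ)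
  have i : Injective (Ultrafilter.extend (stoneCechUnit : ℕ → StoneCech ℕ)) :=
    LeftInverse.injective (g := stoneCechExtend hc) (congrFun (denseRange_pure.equalizer
      ((continuous_stoneCechExtend hc).comp c) continuous_id (funext fun n => by simp)))
  refine ⟨Ultrafilter.extend stoneCechUnit '' {u : Ultrafilter ℕ | (u : Filter ℕ) ≤ cofinite}, ?_,
    ⟨_, hyperfilter ℕ, hyperfilter_le_cofinite, rfl⟩⟩
  rintro _ ⟨u, hu, rfl⟩
  refine accPt_iff_nhds.2 fun U hU => ?_
  obtain ⟨v, ⟨v1, v2⟩, v3⟩ := accPt_iff_nhds.1 (pre_ult u hu) _ (c.continuousAt hU)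
  exact ⟨_, ⟨v1, v, v2, rfl⟩, i.ne v3⟩

end Pool.Agent.H90.Tg
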