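import Mathlib
import Pool.Agent.H90.TgDefs

namespace Pool.Agent.H90.Tg

variable (A : Type) [NormedRing A] [NormedAlgebra ℂ A]

/-- the unitization `A₊ = ℂ ⊕ A` as a Banach `A`-bimodule: `(c, b)` stands for `c · 1 + b` -/
noncomputable def plus [CompleteSpace A] : BMod A where
  X := ℂ × A
  cpl := inferInstance
  l a x := (0, x.1 • a + a * x.2)
  r x a := (0, x.1 • a + x.2 * a)
  l_bil := ⟨fun _ _ _ => by simp [add_mul]; abel, fun _ _ _ => by simp [smul_smul, mul_comm],
    fun _ _ _ => by simp [mul_add, add_smul]; abel, fun _ _ _ => by simp [smul_smul],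
    2, two_pos, fun a x => max_le (by simp; positivity) ((norm_add_le _ _).trans (by
      have h1 := mul_le_mul_of_nonneg_left (norm_fst_le x) (norm_nonneg a)
      have h2 := mul_le_mul_of_nonneg_left (norm_snd_le x) (norm_nonneg a)
      have h3 := norm_mul_le a x.2
      simp only [norm_smul]
      nlinarith))⟩
  r_bil := ⟨fun _ _ _ => by simp [add_mul, add_smul]; abel, fun _ _ _ => by simp [smul_smul],
    fun _ _ _ => by simp [mul_add]; abel, fun _ _ _ => by simp [smul_smul, mul_comm],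
    2, two_pos, fun x a => max_le (by simp; positivity) ((norm_add_le _ _).trans (by
      have h1 := mul_le_mul_of_nonneg_left (norm_fst_le x) (norm_nonneg a)
      have h2 := mul_le_mul_of_nonneg_left (norm_snd_le x) (norm_nonneg a)
      have h3 := norm_mul_le x.2 a
      simp only [norm_smul]
      nlinarith))⟩
  l_mul _ _ _ := by simp [mul_add, mul_assoc]
  r_mul _ _ _ := by simp [add_mul, mul_assoc]
  l_r _ _ _ := by simp [mul_add, add_mul, mul_assoc]

variable {A}

/-- the bimodule `M` has a projective resolution (a complex `0 ← M ← P 0 ← P 1 ← ⋯` of bimodule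
morphisms with a bounded linear contracting homotopy, all `P k` projective) with `P k = 0` for
all `k > n` -/
def BRes (M : BMod A) (n : ℕ) : Prop :=
  ∃ (P : ℕ → BMod A) (d : ∀ k, (P (k + 1)).X → (P k).X) (e : (P 0).X → M.X),
    (BMor (P 0) M e ∧ (∀ k, BMor (P (k + 1)) (P k) (d k)) ∧ (∀ x, e (d 0 x) = 0) ∧
      ∀ k x, d k (d (k + 1) x) = 0) ∧
    (∃ (s : ∀ k, (P k).X → (P (k + 1)).X) (u : M.X → (P 0).X), (∀ k, IsBoundedLinearMap ℂ (s k)) ∧
      IsBoundedLinearMap ℂ u ∧ (∀ z, e (u z) = z) ∧ (∀ x, d 0 (s 0 x) + u (e x) = x) ∧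
      ∀ k x, d (k + 1) (s (k + 1) x) + s k (d k x) = x) ∧
    (∀ k, BProj (P k)) ∧ ∀ k, n < k → ∀ x : (P k).X, x = 0

end Pool.Agent.H90.Tg
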