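import Mathlib
import Pool.Agent.H90.TgPDefs
import Pool.Agent.H90.TgG

set_option maxSynthPendingDepth 4

namespace Pool.Agent.H90.Tg

open Filter Topology Function Finset

variable {Ω : Type} [TopologicalSpace Ω] [CompactSpace Ω] [T2Space Ω] {W : Set Ω}

lemma BMor.cmp {A : Type} [NormedRing A] [NormedAlgebra ℂ A] {U V Z : BMod A} {φ : U.X → V.X}
    {ψ : V.X → Z.X} (h : BMor V Z ψ) (h' : BMor U V φ) : BMor U Z fun x => ψ (φ x) :=
  ⟨h.1.comp h'.1, fun a x => (congrArg ψ (h'.2.1 a x)).trans (h.2.1 _ _),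
    fun x a => (congrArg ψ (h'.2.2 x a)).trans (h.2.2 _ _)⟩

theorem db_ret (hP : Preperfect W) (h0 : W.Nonempty) (M : BMod C(Ω, ℂ)) (π : M.X → C(Ω, ℂ))
    (ι : C(Ω, ℂ) → M.X) (hπ : BMor M (reg Ω) π) (hι : BMor (reg Ω) M ι) (hr : ∀ a, π (ι a) = a)
    (n : ℕ) : ¬BRes M n := by
  rintro ⟨P, d, e, ⟨c1, c2, c3, c4⟩, ⟨s, u, s1, s2, s3, s4, s5⟩, hp, hz⟩
  let P' : ℕ → BMod C(Ω, ℂ) := cns M P
  let d' : ∀ j, (P' (j + 1)).X → (P' j).X := fun j => Nat.casesOn j e d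
  let s' : ∀ j : ℕ, (P' j).X → (P' (j + 1)).X := fun j => Nat.casesOn j u s
  have md : ∀ j, BMor _ _ (d' j) := fun j => Nat.casesOn j c1 c2
  have ms : ∀ j : ℕ, IsBoundedLinearMap ℂ (s' j) := fun j => by
    cases j
    exacts [s2, s1 _]
  have dd : ∀ j x, d' j (d' (j + 1) x) = 0 := fun j => Nat.casesOn j c3 c4
  have ex : ∀ j x, d' (j + 1) (s' (j + 1) x) + s' j (d' j x) = x := fun j => Nat.casesOn j s4 s5
  have e1 : ∀ (c : C(Ω, ℂ)) (a : Fin 1 → C(Ω, ℂ)) p, sm p c a = fun _ => c * a 0 := fun c a p =>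
    funext fun s => by rw [sm, if_pos (Subsingleton.elim _ _), Subsingleton.elim s 0]
  have G := io_gd (Ω := Ω) (n := 0)
  obtain ⟨C, c0, c5⟩ := G.bdd
  have m0 : BMor (reg Ω) (XX Ω 0) fun a : C(Ω, ℂ) => io 0 fun _ => a := by
    refine ⟨⟨?_, C + 1, by positivity, fun a : C(Ω, ℂ) => ?_⟩, fun a x => ?_,
      fun (x : C(Ω, ℂ)) a => ?_⟩
    · have := G.lin 1 0
      simp only [e1, Pi.one_apply, mul_one] at this
      exact this
    · refine (c5 _).trans ?_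
      rw [Fin.prod_univ_one]
      exact mul_le_mul_of_nonneg_right (le_add_of_nonneg_right zero_le_one) (norm_nonneg a)
    · exact (congrArg _ (e1 a (fun _ => x) 0).symm).trans (G.lf a _)
    · exact (congrArg _ ((funext fun _ => mul_comm x a).trans (e1 a (fun _ => x) _).symm)).trans
        (G.rt a _)
  have g0 : Gd (reg Ω) fun a : Fin (0 + 1) → C(Ω, ℂ) => a 0 := by
    refine ⟨fun a p => ?_, ⟨1, zero_le_one, fun a => ?_⟩, fun c a => ?_, fun c a => ?_⟩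
    · simp only [e1]
      exact ⟨fun x y => add_mul x y _, fun c x => smul_mul_assoc c x _⟩
    · rw [Fin.prod_univ_one, one_mul]
      exact le_rfl
    · rw [e1]
      rfl
    · rw [e1]
      exact mul_comm c _
  refine noRes hP h0 P' d' s' md ms s3 (fun j x h => ?_)
    (fun j ψ => BMor _ _ ψ ∧ ∀ p, DH j (SH j (ψ (d' j p))) = ψ (d' j p)) (fun _ _ h => h.1)
    (fun j ψ h => ?_) (fun x : M.X => io 0 fun _ => π x) ⟨m0.cmp hπ, fun _ => DHS0 _⟩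
    (fun a => ι (a 0)) (g0.mor hι)
    (fun a => congrArg _ (funext fun s => (hr _).trans (congrArg a (Subsingleton.elim _ _))))
    (k := n + 1) (by omega) (hz _ (by omega))
  · have := ex j x
    rwa [h, (ms j).toIsLinearMap.map_zero, add_zero] at this
  · obtain ⟨ρ, r1, r2⟩ := (hp j).lift (ψ := fun p => ψ (d' j p)) (h.1.cmp (md j)) DH_mor
      (pc_lin _ _) h.2
    exact ⟨ρ, ⟨r1, fun p => DHS _ ((r2 _).trans ((congrArg ψ (dd j p)).trans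
      h.1.1.toIsLinearMap.map_zero))⟩, r2⟩

theorem db_plus (hP : Preperfect W) (h0 : W.Nonempty) (n : ℕ) : ¬BRes (plus C(Ω, ℂ)) n := by
  refine db_ret hP h0 _ (fun x : ℂ × C(Ω, ℂ) => x.1 • (1 : C(Ω, ℂ)) + x.2)
    (fun a => ((0, a) : ℂ × C(Ω, ℂ))) ⟨?_, fun a (x : ℂ × C(Ω, ℂ)) => ?_, fun (x : ℂ × C(Ω, ℂ)) a => ?_⟩
    ⟨(ContinuousLinearMap.inr ℂ ℂ C(Ω, ℂ)).isBoundedLinearMap, fun a (x : C(Ω, ℂ)) => ?_,
      fun (x : C(Ω, ℂ)) a => ?_⟩ (fun a => by simp) n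
  · exact ((ContinuousLinearMap.fst ℂ ℂ C(Ω, ℂ)).smulRight (1 : C(Ω, ℂ)) +
      ContinuousLinearMap.snd ℂ ℂ C(Ω, ℂ)).isBoundedLinearMap
  · show (0 : ℂ) • (1 : C(Ω, ℂ)) + (x.1 • a + a * x.2) = a * (x.1 • (1 : C(Ω, ℂ)) + x.2)
    simp [mul_add]
  · show (0 : ℂ) • (1 : C(Ω, ℂ)) + (x.1 • a + x.2 * a) = (x.1 • (1 : C(Ω, ℂ)) + x.2) * a
    simp [add_mul]
  · show ((0, a * x) : ℂ × C(Ω, ℂ)) = (0, (0 : ℂ) • a + a * x)
    simp
  · show ((0, x * a) : ℂ × C(Ω, ℂ)) = (0, (0 : ℂ) • a + x * a)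
    simp

end Pool.Agent.H90.Tg
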