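import Mathlib

set_option autoImplicit false

namespace Pool.Agent.H90.TileFix

open Set Filter Topology MeasureTheory BoundedContinuousFunction

noncomputable def w (y : ℝ) : ℝ := (1 + y ^ 2)⁻¹

lemma w_pos (y : ℝ) : 0 < w y := by unfold w; positivity

lemma w_window {s y : ℝ} (h : |s - y| ≤ 1) : w s ≤ 3 * w y := by
  unfold w
  have h1 := abs_le.1 h
  rw [← div_eq_mul_inv, inv_eq_one_div, div_le_div_iff₀ (by positivity) (by positivity)]
  nlinarith [sq_nonneg (s + (s - y)), sq_nonneg s, h1.1, h1.2, sq_nonneg (s - y),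
    mul_nonneg (sub_nonneg.2 h1.2) (by linarith [h1.1] : 0 ≤ s - y + 1)]

lemma w_cont : Continuous w := by
  unfold w
  exact Continuous.inv₀ (by fun_prop) (fun x => by positivity)

lemma w_int (x : ℝ) : Integrable (fun t => w (x - t)) :=
  integrable_inv_one_add_sq.comp_sub_left x

lemma w_integral (x : ℝ) : ∫ t, w (x - t) = Real.pi := by
  rw [integral_sub_left_eq_self w volume x]
  exact integral_univ_inv_one_add_sq

structure Mesh (η : ℝ) (m : ℤ → ℝ) : Prop where
  pos : 0 < η
  small : η ≤ 1 / 4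
  lo : ∀ n, η ≤ m (n + 1) - m n
  hi : ∀ n, m (n + 1) - m n ≤ 2 * η
  close : ∀ n, |1 / (m (n + 1) - m n) - 1 / η| ≤ η
  cover : ∀ t, ∃ n, m n < t ∧ t ≤ m (n + 1)

variable {η : ℝ} {m : ℤ → ℝ}

lemma Mesh.le (h : Mesh η m) (n : ℤ) : m n ≤ m (n + 1) := by linarith [h.lo n, h.pos]

lemma Mesh.strictMono (h : Mesh η m) : StrictMono m :=
  strictMono_int_of_lt_succ (fun n => by linarith [h.lo n, h.pos])

lemma Mesh.hasSum (h : Mesh η m) {g : ℝ → ℝ} (hg : Integrable g) :
    HasSum (fun n => ∫ t in m n..m (n + 1), g t) (∫ t, g t) := by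
  have h1 := hasSum_integral_iUnion (μ := volume) (f := g) (s := fun n => Ioc (m n) (m (n + 1)))
    (fun _ => measurableSet_Ioc) h.strictMono.monotone.pairwise_disjoint_on_Ioc_succ
    hg.integrableOn
  have h2 : ⋃ n, Ioc (m n) (m (n + 1)) = univ :=
    eq_univ_of_forall (fun t => mem_iUnion.2 (h.cover t))
  rw [h2, Measure.restrict_univ] at h1
  simpa only [intervalIntegral.integral_of_le (h.le _)] using h1

noncomputable def mid (m : ℤ → ℝ) (n : ℤ) : ℝ := (m n + m (n + 1)) / 2

lemma Mesh.near (h : Mesh η m) {n : ℤ} {t : ℝ} (ht : t ∈ uIcc (m n) (m (n + 1))) :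
    |t - mid m n| ≤ η := by
  rw [uIcc_of_le (h.le n)] at ht
  unfold mid
  rw [abs_le]; constructor <;> linarith [ht.1, ht.2, h.hi n]

lemma Mesh.w_le (h : Mesh η m) (x : ℝ) (n : ℤ) :
    w (x - mid m n) ≤ 3 / η * ∫ t in m n..m (n + 1), w (x - t) := by
  have h1 : ∫ _ in m n..m (n + 1), w (x - mid m n) / 3 ≤ ∫ t in m n..m (n + 1), w (x - t) := by
    apply intervalIntegral.integral_mono_on (h.le n) (by simp) (w_int x).intervalIntegrable
    intro t ht
    have h2 := h.near (n := n) (t := t) (by rwa [uIcc_of_le (h.le n)])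
    have := w_window (s := x - mid m n) (y := x - t) (by
      rw [show x - mid m n - (x - t) = t - mid m n by ring]; linarith [h.small])
    linarith
  rw [intervalIntegral.integral_const, smul_eq_mul] at h1
  have h3 := h.lo n
  have h4 := w_pos (x - mid m n)
  rw [div_mul_eq_mul_div, le_div_iff₀ h.pos]
  nlinarith

lemma Mesh.w_summable (h : Mesh η m) (x : ℝ) : Summable (fun n => w (x - mid m n)) :=
  Summable.of_nonneg_of_le (fun _ => (w_pos _).le) (h.w_le x)
    ((h.hasSum (w_int x)).summable.mul_left _)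

lemma Mesh.w_tsum (h : Mesh η m) (x : ℝ) : ∑' n, w (x - mid m n) ≤ 12 / η := by
  have h1 := (h.hasSum (w_int x)).mul_left (3 / η)
  refine (Summable.tsum_le_tsum (h.w_le x) (h.w_summable x) h1.summable).trans ?_
  rw [h1.tsum_eq, w_integral, div_mul_eq_mul_div]
  gcongr
  · exact h.pos.le
  · linarith [Real.pi_le_four]

lemma Mesh.abs_tsum_le (h : Mesh η m) (x c : ℝ) (hc : 0 ≤ c) {a : ℤ → ℝ}
    (ha : ∀ n, |a n| ≤ c * w (x - mid m n)) : Summable a ∧ ∑' n, |a n| ≤ c * (12 / η) ∧
      |∑' n, a n| ≤ c * (12 / η) := by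
  have h1 := (h.w_summable x).mul_left c
  have h2 : Summable (fun n => |a n|) := Summable.of_nonneg_of_le (fun _ => abs_nonneg _) ha h1
  have h3 : ∑' n, |a n| ≤ c * (12 / η) := by
    refine (Summable.tsum_le_tsum ha h2 h1).trans ?_
    rw [tsum_mul_left]
    exact mul_le_mul_of_nonneg_left (h.w_tsum x) hc
  exact ⟨h2.of_abs, h3, (norm_tsum_le_tsum_norm (f := a) h2).trans h3⟩

structure Ker (C : ℝ) (P K K' : ℝ → ℝ) : Prop where
  pos : 0 < C
  dP : ∀ x, HasDerivAt P (K x) x
  dK : ∀ x, HasDerivAt K (K' x) x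
  bP : ∀ y, |P y| ≤ C * w y
  bK : ∀ y, |K y| ≤ C * w y
  bK' : ∀ y, |K' y| ≤ C * w y
  zero : ∫ y, P y = 0

variable {C : ℝ} {P K K' : ℝ → ℝ}

lemma Ker.contP (k : Ker C P K K') : Continuous P :=
  continuous_iff_continuousAt.2 (fun x => (k.dP x).continuousAt)

lemma Ker.contK (k : Ker C P K K') : Continuous K :=
  continuous_iff_continuousAt.2 (fun x => (k.dK x).continuousAt)

lemma Ker.intP (k : Ker C P K K') : Integrable P :=
  (integrable_inv_one_add_sq.const_mul C).mono' k.contP.aestronglyMeasurable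
    (Eventually.of_forall k.bP)

lemma Ker.intK (k : Ker C P K K') : Integrable K :=
  (integrable_inv_one_add_sq.const_mul C).mono' k.contK.aestronglyMeasurable
    (Eventually.of_forall k.bK)

lemma Ker.osc (k : Ker C P K K') (hη : η ≤ 1) {y s : ℝ} (hs : |s| ≤ η) :
    |K (y - s) - K y| ≤ 3 * C * η * w y := by
  have h1 := Convex.norm_image_sub_le_of_norm_hasDerivWithin_le (s := Icc (y - η) (y + η))
    (f := K) (f' := K') (C := C * (3 * w y)) (fun x _ => (k.dK x).hasDerivWithinAt)
    (fun x hx => (k.bK' x).trans (mul_le_mul_of_nonneg_left (w_window (by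
      rw [abs_le]; constructor <;> linarith [hx.1, hx.2])) k.pos.le)) (convex_Icc _ _)
    (x := y) (y := y - s) ⟨by linarith [abs_nonneg s], by linarith [abs_nonneg s]⟩
    ⟨by linarith [le_abs_self s], by linarith [neg_abs_le s]⟩
  rw [Real.norm_eq_abs, Real.norm_eq_abs, sub_sub_cancel_left, abs_neg] at h1
  refine h1.trans ?_
  have := mul_le_mul_of_nonneg_left hs (show 0 ≤ C * (3 * w y) by have := k.pos; have := w_pos y; positivity)
  linarith

lemma Ker.first (k : Ker C P K K') (hη : η ≤ 1) {y a b : ℝ} (ha : |a| ≤ η) (hb : |b| ≤ η) :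
    |P (y - a) - P (y - b) + K y * (a - b)| ≤ 3 * C * η * w y * |a - b| := by
  have hd : ∀ s, HasDerivAt (fun s => P (y - s) + K y * s) (K y - K (y - s)) s := fun s => by
    have h1 := (k.dP (y - s)).comp s ((hasDerivAt_id s).const_sub y)
    have h2 := h1.add ((hasDerivAt_id s).const_mul (K y))
    have e : K y - K (y - s) = K (y - s) * -1 + K y * 1 := by ring
    rw [e]
    exact h2
  have h1 := Convex.norm_image_sub_le_of_norm_hasDerivWithin_le (s := Icc (-η) η)
    (C := 3 * C * η * w y) (fun x _ => (hd x).hasDerivWithinAt)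
    (fun x hx => by
      rw [Real.norm_eq_abs, abs_sub_comm]; exact k.osc hη (abs_le.2 hx)) (convex_Icc _ _)
    (x := b) (y := a) (abs_le.1 hb) (abs_le.1 ha)
  rw [Real.norm_eq_abs, Real.norm_eq_abs] at h1
  convert h1 using 2
  ring

noncomputable def al (m : ℤ → ℝ) (A : ℝ →ᵇ ℝ) (n : ℤ) : ℝ := ∫ t in m n..m (n + 1), A t

lemma Mesh.al_le (h : Mesh η m) (A : ℝ →ᵇ ℝ) (n : ℤ) :
    |al m A n| ≤ ‖A‖ * (m (n + 1) - m n) := by
  have := intervalIntegral.norm_integral_le_of_norm_le_const (a := m n) (b := m (n + 1))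
    (f := fun t => A t) (C := ‖A‖) (fun t _ => A.norm_coe_le_norm t)
  rwa [abs_of_nonneg (sub_nonneg.2 (h.le n))] at this

lemma al_sub (A B : ℝ →ᵇ ℝ) (n : ℤ) : al m A n - al m B n = al m (A - B) n := by
  unfold al
  rw [← intervalIntegral.integral_sub (A.continuous.intervalIntegrable _ _)
    (B.continuous.intervalIntegrable _ _)]
  rfl

lemma Mesh.al_small (h : Mesh η m) {A : ℝ →ᵇ ℝ} (hA : ‖A‖ ≤ 1 / 8) (n : ℤ) : |al m A n| ≤ η := by
  have h1 := h.al_le A n
  have h2 := h.hi n
  have h3 := h.lo n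
  have h4 := h.pos
  nlinarith [norm_nonneg A]

noncomputable def Phi (m : ℤ → ℝ) (P K : ℝ → ℝ) (A : ℝ →ᵇ ℝ) (x : ℝ) : ℝ :=
  ∑' n, P (x - mid m n - al m A n) + ∫ t, K (x - t) * A t

lemma Ker.intKA (k : Ker C P K K') (A : ℝ →ᵇ ℝ) (x : ℝ) : Integrable (fun t => K (x - t) * A t) :=
  (k.intK.comp_sub_left x).mul_bdd A.continuous.aestronglyMeasurable
    (Eventually.of_forall A.norm_coe_le_norm)

lemma P_le (h : Mesh η m) (k : Ker C P K K') {A : ℝ →ᵇ ℝ} (hA : ‖A‖ ≤ 1 / 8) {x x0 : ℝ}
    (hx : |x - x0| ≤ 1 / 2) (n : ℤ) :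
    |P (x - mid m n - al m A n)| ≤ 3 * C * w (x0 - mid m n) := by
  refine (k.bP _).trans ?_
  have h1 := abs_le.1 (h.al_small hA n)
  have h2 := abs_le.1 hx
  have := w_window (s := x - mid m n - al m A n) (y := x0 - mid m n) (by
    rw [abs_le]; constructor <;> linarith [h1.1, h1.2, h2.1, h2.2, h.small])
  nlinarith [k.pos]

lemma Phi_cont (h : Mesh η m) (k : Ker C P K K') {A : ℝ →ᵇ ℝ} (hA : ‖A‖ ≤ 1 / 8) :
    Continuous (Phi m P K A) := by
  apply Continuous.add
  · rw [continuous_iff_continuousAt]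
    intro x0
    have h1 : ContinuousOn (fun x => ∑' n, P (x - mid m n - al m A n)) (Metric.ball x0 (1 / 2)) :=
      continuousOn_tsum (fun n => (k.contP.comp (by fun_prop)).continuousOn)
        ((h.w_summable x0).mul_left (3 * C))
        (fun n x hx => P_le h k hA (le_of_lt (by simpa [Real.dist_eq] using hx)) n)
    exact h1.continuousAt (Metric.ball_mem_nhds _ (by norm_num))
  · have e : (fun x => ∫ t, K (x - t) * A t) = fun x => ∫ t, K t * A (x - t) := by
      funext x
      rw [← integral_sub_left_eq_self _ volume x]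
      simp
    rw [e]
    refine continuous_of_dominated (bound := fun t => ‖K t‖ * ‖A‖) (fun x => ?_) (fun x => ?_)
      (k.intK.norm.mul_const _) (Eventually.of_forall (fun t => by fun_prop))
    · exact (k.contK.mul (by fun_prop)).aestronglyMeasurable
    · refine Eventually.of_forall (fun t => ?_)
      rw [norm_mul]
      exact mul_le_mul_of_nonneg_left (A.norm_coe_le_norm _) (norm_nonneg _)

lemma Phi_lip (h : Mesh η m) (k : Ker C P K K') {A B : ℝ →ᵇ ℝ} (hA : ‖A‖ ≤ 1 / 8)
    (hB : ‖B‖ ≤ 1 / 8) (x : ℝ) :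
    |Phi m P K A x - Phi m P K B x| ≤ 144 * C * η * ‖A - B‖ := by
  have hη : η ≤ 1 := by linarith [h.small]
  have sA := (h.abs_tsum_le x (3 * C) (by linarith [k.pos]) (P_le h k hA (x := x) (by simp))).1
  have sB := (h.abs_tsum_le x (3 * C) (by linarith [k.pos]) (P_le h k hB (x := x) (by simp))).1
  have sD := h.hasSum (k.intKA (A - B) x)
  have e : Phi m P K A x - Phi m P K B x = ∑' n, (P (x - mid m n - al m A n) -
      P (x - mid m n - al m B n) + ∫ t in m n..m (n + 1), K (x - t) * (A - B) t) := by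
    rw [(sA.sub sB).tsum_add sD.summable, sA.tsum_sub sB, sD.tsum_eq]
    unfold Phi
    have : ∫ t, K (x - t) * (A - B) t = (∫ t, K (x - t) * A t) - ∫ t, K (x - t) * B t := by
      rw [← integral_sub (k.intKA A x) (k.intKA B x)]
      congr 1
      funext t
      simp [mul_sub]
    rw [this]; ring
  have hC := k.pos
  have hp := h.pos
  have h1 := (h.abs_tsum_le x (12 * C * η ^ 2 * ‖A - B‖) (by positivity)
    (a := fun n => P (x - mid m n - al m A n) - P (x - mid m n - al m B n) +
      ∫ t in m n..m (n + 1), K (x - t) * (A - B) t) (fun n => by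
      have a1 := k.first hη (y := x - mid m n) (h.al_small hA n) (h.al_small hB n)
      rw [al_sub] at a1
      have a2 := h.al_le (A - B) n
      have a3 : (∫ t in m n..m (n + 1), K (x - t) * (A - B) t) - K (x - mid m n) * al m (A - B) n =
          ∫ t in m n..m (n + 1), (K (x - t) - K (x - mid m n)) * (A - B) t := by
        unfold al
        rw [← intervalIntegral.integral_const_mul, ← intervalIntegral.integral_sub
          (k.intKA (A - B) x).intervalIntegrable
          (Continuous.intervalIntegrable (by fun_prop) _ _)]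
        congr 1
        funext t
        ring
      have a4 := intervalIntegral.norm_integral_le_of_norm_le_const (a := m n) (b := m (n + 1))
        (f := fun t => (K (x - t) - K (x - mid m n)) * (A - B) t)
        (C := 3 * C * η * w (x - mid m n) * ‖A - B‖) (fun t ht => by
          have b1 := k.osc hη (y := x - mid m n) (h.near (uIoc_subset_uIcc ht))
          rw [show x - mid m n - (t - mid m n) = x - t by ring] at b1
          rw [norm_mul]
          exact mul_le_mul b1 ((A - B).norm_coe_le_norm t) (norm_nonneg _)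
            (le_trans (abs_nonneg _) b1))
      rw [← a3, Real.norm_eq_abs, abs_of_nonneg (sub_nonneg.2 (h.le n))] at a4
      have a5 := abs_add_le (P (x - mid m n - al m A n) - P (x - mid m n - al m B n) +
        K (x - mid m n) * al m (A - B) n) ((∫ t in m n..m (n + 1), K (x - t) * (A - B) t) -
        K (x - mid m n) * al m (A - B) n)
      rw [show ∀ a b c : ℝ, a + b + (c - b) = a + c by intros; ring] at a5
      have a6 := h.hi n
      have a7 : 0 ≤ 3 * C * η * w (x - mid m n) := by have := w_pos (x - mid m n); positivity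
      have a8 := mul_le_mul_of_nonneg_left a2 a7
      have a9 : 3 * C * η * w (x - mid m n) * ‖A - B‖ * (m (n + 1) - m n) ≤
          3 * C * η * w (x - mid m n) * ‖A - B‖ * (2 * η) :=
        mul_le_mul_of_nonneg_left a6 (by positivity)
      nlinarith)).2.2
  rw [e]
  refine h1.trans (le_of_eq ?_)
  field_simp
  ring

lemma Phi_zero (h : Mesh η m) (k : Ker C P K K') (x : ℝ) :
    |Phi m P K 0 x| ≤ 40 * C * η := by
  have hη : η ≤ 1 := by linarith [h.small]
  have hC := k.pos
  have hp := h.pos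
  have iP : Integrable (fun t => P (x - t)) := k.intP.comp_sub_left x
  have s1 := h.hasSum iP
  rw [integral_sub_left_eq_self P volume x, k.zero] at s1
  have s2 := h.hasSum iP.norm
  have s3 : ∫ t, ‖P (x - t)‖ ≤ 4 * C := by
    refine (integral_mono iP.norm ((w_int x).const_mul C) (fun t => k.bP _)).trans ?_
    rw [integral_const_mul, w_integral]
    nlinarith [Real.pi_le_four]
  let J : ℤ → ℝ := fun n => ∫ t in m n..m (n + 1), P (x - t)
  have b1 : ∀ n, ‖(1 / (m (n + 1) - m n) - 1 / η) * J n‖ ≤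
      η * ∫ t in m n..m (n + 1), ‖P (x - t)‖ := fun n => by
    rw [norm_mul]
    exact mul_le_mul (h.close n) (intervalIntegral.norm_integral_le_integral_norm (h.le n))
      (norm_nonneg _) hp.le
  have b2 : Summable (fun n => (1 / (m (n + 1) - m n) - 1 / η) * J n) :=
    Summable.of_norm_bounded (s2.summable.mul_left η) b1
  have b3 := tsum_of_norm_bounded (s2.mul_left η) b1
  have b4 := h.abs_tsum_le x (3 * C * η ^ 2) (by positivity)
    (a := fun n => P (x - mid m n) - 1 / (m (n + 1) - m n) * J n) (fun n => by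
      have hl : 0 < m (n + 1) - m n := by linarith [h.lo n]
      have a3 : ∫ t in m n..m (n + 1), (P (x - t) - P (x - mid m n) +
          K (x - mid m n) * (t - mid m n)) = J n - (m (n + 1) - m n) * P (x - mid m n) := by
        rw [intervalIntegral.integral_add (iP.intervalIntegrable.sub (by simp))
          (Continuous.intervalIntegrable (by fun_prop) _ _),
          intervalIntegral.integral_sub iP.intervalIntegrable (by simp),
          intervalIntegral.integral_const_mul, intervalIntegral.integral_sub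
          (Continuous.intervalIntegrable (by fun_prop) _ _) (by simp)]
        simp only [integral_id, intervalIntegral.integral_const, smul_eq_mul, J, mid]
        ring
      have a4 := intervalIntegral.norm_integral_le_of_norm_le_const (a := m n) (b := m (n + 1))
        (f := fun t => P (x - t) - P (x - mid m n) + K (x - mid m n) * (t - mid m n))
        (C := 3 * C * η * w (x - mid m n) * η) (fun t ht => by
          have c0 := h.near (uIoc_subset_uIcc ht)
          have c1 := k.first hη (y := x - mid m n) c0 (b := 0) (by simpa using hp.le)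
          rw [show x - mid m n - (t - mid m n) = x - t by ring, sub_zero, sub_zero] at c1
          refine c1.trans (mul_le_mul_of_nonneg_left c0 ?_)
          have := w_pos (x - mid m n); positivity)
      rw [a3, Real.norm_eq_abs, abs_of_pos hl] at a4
      have e : P (x - mid m n) - 1 / (m (n + 1) - m n) * J n =
          -(J n - (m (n + 1) - m n) * P (x - mid m n)) / (m (n + 1) - m n) := by
        field_simp; ring
      rw [e, abs_div, abs_neg, abs_of_pos hl, div_le_iff₀ hl]
      nlinarith)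
  have e : Phi m P K 0 x = ∑' n, (P (x - mid m n) - 1 / (m (n + 1) - m n) * J n) +
      ∑' n, (1 / (m (n + 1) - m n) - 1 / η) * J n := by
    have s4 := s1.mul_left (1 / η)
    rw [mul_zero] at s4
    have s5 := (b4.1.hasSum.add b2.hasSum).add s4
    rw [add_zero] at s5
    rw [← s5.tsum_eq]
    simp only [Phi, al, coe_zero, Pi.zero_apply, intervalIntegral.integral_zero, sub_zero, mul_zero,
      integral_zero, add_zero, J]
    congr 1
    funext n
    ring
  rw [e]
  refine (abs_add_le _ _).trans ?_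
  have b5 := b4.2.2
  rw [show 3 * C * η ^ 2 * (12 / η) = 36 * C * η by field_simp; norm_num] at b5
  rw [Real.norm_eq_abs] at b3
  nlinarith

theorem fixed (h : Mesh η m) (k : Ker C P K K') (hs : C * η ≤ 1 / 1000) :
    ∃ A : ℝ →ᵇ ℝ, ‖A‖ ≤ 1 / 8 ∧ ∀ x, A x = Phi m P K A x := by
  have hb : ∀ A : ℝ →ᵇ ℝ, ‖A‖ ≤ 1 / 8 → ∀ x, ‖Phi m P K A x‖ ≤ 1 / 8 := fun A hA x => by
    have h1 := Phi_lip h k hA (B := 0) (by simp) x
    have h2 := Phi_zero h k x
    rw [sub_zero] at h1
    have h3 := abs_add_le (Phi m P K A x - Phi m P K 0 x) (Phi m P K 0 x)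
    rw [sub_add_cancel] at h3
    have h4 : 0 ≤ C * η := mul_nonneg k.pos.le h.pos.le
    rw [Real.norm_eq_abs]
    nlinarith [norm_nonneg A]
  let S := Metric.closedBall (0 : ℝ →ᵇ ℝ) (1 / 8)
  have hS : ∀ A : S, ‖(A : ℝ →ᵇ ℝ)‖ ≤ 1 / 8 := fun A => by simpa [S] using A.2
  let F : S → S := fun A => ⟨ofNormedAddCommGroup (Phi m P K A) (Phi_cont h k (hS A)) (1 / 8)
    (hb A (hS A)), by
      simp only [S, Metric.mem_closedBall, dist_zero_right]
      exact norm_ofNormedAddCommGroup_le _ (by norm_num) _⟩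
  have : CompleteSpace S := Metric.isClosed_closedBall.completeSpace_coe
  have : Nonempty S := ⟨⟨0, by simp [S]⟩⟩
  have hF : ContractingWith (1 / 2) F := by
    refine ⟨by rw [← NNReal.coe_lt_coe]; norm_num, LipschitzWith.of_dist_le_mul (fun A B => ?_)⟩
    rw [Subtype.dist_eq, Subtype.dist_eq A B, dist_le (by positivity)]
    intro x
    have h1 := Phi_lip h k (hS A) (hS B) x
    rw [dist_eq_norm (A : ℝ →ᵇ ℝ)]
    refine le_trans h1 ?_
    have : ((1 / 2 : NNReal) : ℝ) = 1 / 2 := by norm_num
    rw [this]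
    nlinarith [norm_nonneg ((A : ℝ →ᵇ ℝ) - B)]
  refine ⟨(hF.fixedPoint F : S), hS _, fun x => ?_⟩
  have := hF.fixedPoint_isFixedPt
  exact (congrArg (fun A : S => (A : ℝ →ᵇ ℝ) x) this).symm

end Pool.Agent.H90.TileFix
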