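import Pool.Agent.H90.TileFix

set_option autoImplicit false

namespace Pool.Agent.H90.TileKer

open Set Filter Topology MeasureTheory Pool.Agent.H90.TileFix SchwartzMap FourierTransform
open scoped ContDiff Real

noncomputable def b1 : ContDiffBump (3 : ℝ) := ⟨1, 2, one_pos, one_lt_two⟩

noncomputable def b2 : ContDiffBump (3 : ℝ) := ⟨1 / 2, 1, by norm_num, by norm_num⟩

noncomputable def ev (x : ℝ) : ℝ := b1 x + b1 (-x)

noncomputable def psi (x : ℝ) : ℂ := (ev x : ℂ) / (2 * π * Complex.I * x)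

lemma b1_zero {x : ℝ} (h : 2 ≤ |x - 3|) : b1 x = 0 := b1.zero_of_le_dist h

lemma ev_zero {x : ℝ} (h : |x| ≤ 1 ∨ 5 ≤ |x|) : ev x = 0 := by
  unfold ev
  rw [b1_zero, b1_zero, add_zero]
  · rcases h with h | h <;> cases abs_cases x <;> cases abs_cases (-x - 3) <;> linarith
  · rcases h with h | h <;> cases abs_cases x <;> cases abs_cases (x - 3) <;> linarith

lemma ev_smooth : ContDiff ℝ ∞ (fun x => (ev x : ℂ)) :=
  Complex.ofRealCLM.contDiff.comp (b1.contDiff.add (b1.contDiff.comp contDiff_neg))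

lemma psi_smooth : ContDiff ℝ ∞ psi := by
  rw [contDiff_iff_contDiffAt]
  intro x
  by_cases hx : x = 0
  · subst hx
    have : psi =ᶠ[𝓝 0] fun _ => 0 := by
      filter_upwards [Metric.ball_mem_nhds (0 : ℝ) one_pos] with y hy
      have : |y| < 1 := by simpa using hy
      simp [psi, ev_zero (Or.inl this.le)]
    exact contDiffAt_const.congr_of_eventuallyEq this
  · have h1 : ContDiffAt ℝ ∞ (fun y : ℝ => (2 * π * Complex.I * y : ℂ)) x :=
      contDiffAt_const.mul Complex.ofRealCLM.contDiff.contDiffAt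
    have h2 := ev_smooth.contDiffAt.mul (h1.inv (by simp [hx]))
    exact h2

lemma psi_supp : HasCompactSupport psi := by
  apply HasCompactSupport.intro (isCompact_closedBall (0 : ℝ) 5)
  intro x hx
  have : 5 < |x| := by simpa using hx
  simp [psi, ev_zero (Or.inr this.le)]

noncomputable def psiS : 𝓢(ℝ, ℂ) := psi_supp.toSchwartzMap psi_smooth

noncomputable def b2S : 𝓢(ℝ, ℂ) :=
  HasCompactSupport.toSchwartzMap (f := fun x => (b2 x : ℂ))
    (b2.hasCompactSupport.comp_left (g := fun r : ℝ => (r : ℂ)) rfl)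
    (Complex.ofRealCLM.contDiff.comp b2.contDiff)

noncomputable def Pc : 𝓢(ℝ, ℂ) := 𝓕⁻ psiS

noncomputable def Kc : 𝓢(ℝ, ℂ) := derivCLM ℂ ℂ Pc

noncomputable def Kc' : 𝓢(ℝ, ℂ) := derivCLM ℂ ℂ Kc

noncomputable def fc : 𝓢(ℝ, ℂ) := 𝓕⁻ b2S

lemma F_Pc (x : ℝ) : 𝓕 (Pc : ℝ → ℂ) x = psi x := by
  rw [← fourier_coe, Pc, fourier_fourierInv_eq]; rfl

lemma F_fc (x : ℝ) : 𝓕 (fc : ℝ → ℂ) x = b2 x := by
  rw [← fourier_coe, fc, fourier_fourierInv_eq]; rfl

lemma F_Kc (x : ℝ) : 𝓕 (Kc : ℝ → ℂ) x = ev x := by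
  have h := Real.fourier_deriv Pc.integrable Pc.differentiable Kc.integrable
  have e : (Kc : ℝ → ℂ) = deriv Pc := rfl
  rw [e, h]
  simp only [F_Pc, psi, smul_eq_mul]
  by_cases hx : x = 0
  · subst hx; simp [ev_zero (Or.inl (by simp : |(0 : ℝ)| ≤ 1))]
  · rw [mul_div_cancel₀]
    simp [hx]

lemma Pc_real (x : ℝ) : Pc x = ((Pc x).re : ℂ) := by
  symm
  rw [← Complex.conj_eq_iff_re, Pc, fourierInv_coe, Real.fourierInv_eq', ← integral_conj,
    ← integral_neg_eq_self]
  congr 1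
  funext v
  have e : ∀ y, psiS y = psi y := fun _ => rfl
  simp only [e, psi, ev, smul_eq_mul, map_mul, map_div₀, Complex.conj_ofReal, ← Complex.exp_conj,
    Complex.conj_I, neg_neg, inner_neg_left, map_ofNat]
  push_cast
  rw [add_comm (b1 (-v) : ℂ)]
  congr 2
  · ring
  · ring

lemma decay (g : 𝓢(ℝ, ℂ)) : ∃ C, 0 < C ∧ ∀ y, ‖g y‖ ≤ C * w y := by
  refine ⟨SchwartzMap.seminorm ℝ 0 0 g + SchwartzMap.seminorm ℝ 2 0 g + 1, by positivity, fun y => ?_⟩
  have h1 := g.norm_le_seminorm ℝ y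
  have h2 := g.norm_pow_mul_le_seminorm ℝ 2 y
  rw [Real.norm_eq_abs, sq_abs] at h2
  rw [w, ← div_eq_mul_inv, le_div_iff₀ (by positivity)]
  linarith

noncomputable def hc : 𝓢(ℝ, ℂ) := convolution (ContinuousLinearMap.mul ℂ ℂ) fc Pc

theorem kernels : ∃ (C : ℝ) (P K K' : ℝ → ℝ) (f h : ℝ → ℂ), Ker C P K K' ∧ Integrable f ∧
    (∀ x, ∫ y, f y * (K (x - y) : ℂ) = f x) ∧ (∀ x, ∫ y, f y * (P (x - y) : ℂ) = h x) ∧
    Integrable h ∧ ¬ h =ᵐ[volume] 0 := by
  obtain ⟨C1, p1, d1⟩ := decay Pc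
  obtain ⟨C2, p2, d2⟩ := decay Kc
  obtain ⟨C3, p3, d3⟩ := decay Kc'
  have dP : ∀ x, HasDerivAt (fun x => (Pc x).re) (Kc x).re x := fun x =>
    Complex.reCLM.hasFDerivAt.comp_hasDerivAt x (Pc.hasDerivAt x)
  have dK : ∀ x, HasDerivAt (fun x => (Kc x).re) (Kc' x).re x := fun x =>
    Complex.reCLM.hasFDerivAt.comp_hasDerivAt x (Kc.hasDerivAt x)
  have Kc_real : ∀ x, Kc x = ((Kc x).re : ℂ) := fun x => by
    have h1 := (dP x).ofReal_comp
    have h2 : (fun y => (((Pc y).re : ℝ) : ℂ)) = Pc := funext (fun y => (Pc_real y).symm)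
    rw [h2] at h1
    exact (Pc.hasDerivAt x).unique h1
  refine ⟨C1 + C2 + C3, fun x => (Pc x).re, fun x => (Kc x).re, fun x => (Kc' x).re, fc, hc,
    ⟨by positivity, dP, dK, fun y => ?_, fun y => ?_, fun y => ?_, ?_⟩, fc.integrable,
    fun x => ?_, fun x => ?_, hc.integrable, fun h0 => ?_⟩
  · have := w_pos y
    exact (Complex.abs_re_le_norm _).trans ((d1 y).trans (by nlinarith))
  · have := w_pos y
    exact (Complex.abs_re_le_norm _).trans ((d2 y).trans (by nlinarith))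
  · have := w_pos y
    exact (Complex.abs_re_le_norm _).trans ((d3 y).trans (by nlinarith))
  · have h1 := F_Pc 0
    rw [Real.fourier_eq] at h1
    simp only [inner_zero_right, neg_zero, AddChar.map_zero_eq_one, one_smul, psi,
      Complex.ofReal_zero, mul_zero, div_zero] at h1
    have h2 := integral_re (𝕜 := ℂ) (Pc.integrable (μ := volume))
    simp only [RCLike.re_to_complex] at h2
    rw [h2, h1, Complex.zero_re]
  · have h1 : convolution (ContinuousLinearMap.mul ℂ ℂ) fc Kc = fc := by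
      rw [← fourierInv_fourier_eq (F := 𝓢(ℝ, ℂ)) (convolution (ContinuousLinearMap.mul ℂ ℂ) fc Kc),
        fourier_convolution]
      conv_rhs => rw [← fourierInv_fourier_eq (F := 𝓢(ℝ, ℂ)) fc]
      congr 1
      ext ξ
      rw [pairing_apply_apply, fourier_coe, fourier_coe, F_fc, F_Kc, ContinuousLinearMap.mul_apply']
      by_cases hξ : 1 ≤ |ξ - 3|
      · have : b2 ξ = 0 := b2.zero_of_le_dist hξ
        simp [this]
      · push Not at hξ
        have a1 : b1 ξ = 1 := b1.one_of_mem_closedBall hξ.le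
        have a2 : b1 (-ξ) = 0 := b1_zero (by
          cases abs_cases (ξ - 3) <;> cases abs_cases (-ξ - 3) <;> linarith)
        simp [ev, a1, a2]
    have h2 := convolution_apply (ContinuousLinearMap.mul ℂ ℂ) fc Kc x
    rw [h1, convolution_def] at h2
    rw [h2]
    simp only [← Kc_real, ContinuousLinearMap.mul_apply']
  · rw [hc, convolution_apply, convolution_def]
    simp only [← Pc_real, ContinuousLinearMap.mul_apply']
  · have h1 : 𝓕 (hc : ℝ → ℂ) 3 = 0 := by
      rw [Real.fourier_eq]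
      apply integral_eq_zero_of_ae
      filter_upwards [h0] with y hy
      simp [hy]
    rw [← fourier_coe, hc, fourier_convolution, pairing_apply_apply, fourier_coe, fourier_coe,
      F_fc, F_Pc, ContinuousLinearMap.mul_apply'] at h1
    have a0 : b2 3 = 1 := b2.one_of_mem_closedBall (by simp [b2])
    have a1 : b1 3 = 1 := b1.one_of_mem_closedBall (by simp [b1])
    have a2 : b1 (-3) = 0 := b1_zero (by norm_num [abs_of_neg])
    simp [psi, ev, a0, a1, a2] at h1

end Pool.Agent.H90.TileKer
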