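import Mathlib
import Pool.Agent.H90.TgC

set_option maxSynthPendingDepth 4

namespace Pool.Agent.H90.Ub

open Filter Topology Function Finset
open Tg hiding Ch exCh

variable {Ω : Type} [TopologicalSpace Ω] [CompactSpace Ω] {k : ℕ}

lemma reg (u : Ω) (μ : C(Ω, ℂ) →L[ℂ] ℂ) {ε : ℝ} (hε : 0 < ε) : ∀ᶠ V in (𝓝 u).smallSets,
    ∀ g : C(Ω, ℂ), (∀ x ∉ V, g x = 0) → (∀ᶠ x in 𝓝 u, g x = 0) → ‖μ g‖ ≤ ε * ‖g‖ := by
  refine (eventually_smallSets' fun s t e h g a => h g fun x hx => a x fun h' => hx (e h')).2 ?_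
  by_contra hn
  push Not at hn
  obtain ⟨Q, r1, r2⟩ := exists_seq_of_forall_finset_exists (fun g : C(Ω, ℂ) =>
      (∀ᶠ x in 𝓝 u, g x = 0) ∧ ‖g‖ ≤ 1 ∧ ε ≤ ‖μ g‖) (fun g g' => g * g' = 0) fun t ht => by
    obtain ⟨g, g1, g2, g3⟩ := hn _ ((eventually_all_finset t).2 fun p hp => (ht p hp).1)
    have g0 : 0 < ‖g‖ := norm_pos_iff.2 fun e => by simp [e] at g3
    refine ⟨(‖g‖ : ℂ)⁻¹ • g, ⟨g2.mono fun x e => by simp [e], by simp [norm_smul, g0.ne'], ?_⟩,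
      fun p hp => ContinuousMap.ext fun x => ?_⟩
    · simpa [le_inv_mul_iff₀ g0, mul_comm] using g3.le
    · by_cases e : p x = 0
      · simp [e]
      · simp [g1 x fun h => e (h p hp)]
  have t : Tendsto (fun n => ‖μ (Q n)‖) atTop (𝓝 0) :=
    (summable_of_sum_le (c := ‖μ‖ * 1) (fun _ => norm_nonneg _) fun F => by
      choose c c1 c2 using fun n => Complex.exists_norm_eq_mul_self (μ (Q n))
      have e := μ.le_of_opNorm_le_of_le le_rfl (orth F r2 (fun n => (r1 n).2.1) fun n => (c1 n).le)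
      simp only [map_sum, map_smul, smul_eq_mul, ← c2] at e
      rw [← Complex.ofReal_sum, Complex.norm_real] at e
      exact (le_abs_self _).trans e).tendsto_atTop_zero
  obtain ⟨n, hn⟩ := (t.eventually (gt_mem_nhds hε)).exists
  exact hn.not_ge (r1 n).2.2

lemma tube (u : Ω) {n : ℕ} {g : (Fin n → Ω) → ℂ} (hg : Continuous g) (p : Fin n) {ε : ℝ}
    (hε : 0 < ε) : ∀ᶠ x in 𝓝 u, ∀ z, ‖g (update z p x) - g (update z p u)‖ ≤ ε :=
  (isCompact_univ.eventually_forall_of_forall_eventually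
    (P := fun x z => ‖g (update z p x) - g (update z p u)‖ ≤ ε) fun z _ =>
      (((hg.comp (continuous_snd.update p continuous_fst)).sub
        (hg.comp (continuous_snd.update p continuous_const))).norm.tendsto' (u, z) 0
          (by simp)).eventually (eventually_le_nhds hε)).mono fun _ h z => h z trivial

omit [CompactSpace Ω] in
lemma exind {V : Set Ω} (h : IsClopen V) :
    ∃ Q : C(Ω, ℂ), (∀ x ∈ V, Q x = 1) ∧ ∀ x ∉ V, Q x = 0 :=
  ⟨⟨V.indicator 1, h.continuous_indicator continuous_const⟩, fun x e => Set.indicator_of_mem e _,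
    fun x e => Set.indicator_of_notMem e _⟩

lemma exf [T2Space Ω] [ExtremallyDisconnected Ω] (u : Ω) {g : ℕ → C(Ω, ℂ)}
    (hg : ∀ i j, i ≠ j → g i * g j = 0) {s : ℕ → ℕ} (hs : Injective s) : ∃ (b : ℕ) (f : C(Ω, ℂ)),
    ‖f‖ ≤ 1 ∧ (∀ᶠ x in 𝓝 u, f x = 0) ∧ (∀ j, f * g j = g j ∨ f * g j = 0) ∧
      ∀ n, f * g (s (2 * n + b)) = g (s (2 * n + b)) := by
  let U : ℕ → Set Ω := fun b => ⋃ n, {x | g (s (2 * n + b)) x ≠ 0}
  have o : ∀ j, IsOpen {x | g j x ≠ 0} := fun j => isOpen_ne_fun (g j).continuous continuous_const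
  have oU : ∀ b, IsOpen (U b) := fun b => isOpen_iUnion fun _ => o _
  have d : ∀ b j, (∀ n, s (2 * n + b) ≠ j) → Disjoint (U b) {x | g j x ≠ 0} := fun b j e =>
    Set.disjoint_iUnion_left.2 fun n => Set.disjoint_left.2 fun x h h' =>
      mul_ne_zero h h' (congrArg (· x) (hg _ _ (e n)))
  obtain ⟨b, hb⟩ : ∃ b, u ∉ closure (U b) := by
    by_contra! h
    exact Set.disjoint_left.1 (ExtremallyDisconnected.disjoint_closure_of_disjoint_isOpen
      (Set.disjoint_iUnion_right.2 fun m => d 0 _ fun n e => by have := hs e; omega) (oU 0) (oU 1))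
      (h 0) (h 1)
  obtain ⟨f, f1, f2⟩ := exind ⟨isClosed_closure, ExtremallyDisconnected.open_closure _ (oU b)⟩
  have e : ∀ n, f * g (s (2 * n + b)) = g (s (2 * n + b)) := fun n => ContinuousMap.ext fun x => by
    by_cases h : g (s (2 * n + b)) x = 0
    · simp [h]
    · simp [f1 x (subset_closure (Set.mem_iUnion.2 ⟨n, h⟩))]
  refine ⟨b, f, (ContinuousMap.norm_le _ zero_le_one).2 fun x => ?_,
    (isClosed_closure.isOpen_compl.eventually_mem hb).mono f2, fun j => ?_, e⟩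
  · by_cases h : x ∈ closure (U b) <;> simp [*]
  · by_cases h : ∃ n, s (2 * n + b) = j
    · obtain ⟨n, rfl⟩ := h
      exact .inl (e n)
    refine .inr (ContinuousMap.ext fun x => ?_)
    by_cases h' : g j x = 0
    · simp [h']
    · simp [f2 x fun e => Set.disjoint_left.1 ((d b j (not_exists.1 h)).closure_left (o j)) e h']

def fm (Q : ℕ → C(Ω, ℂ)) (m : ℕ) : Set C(Ω, ℂ) :=
  fam Q m ∪ (fun s => ∑ j ∈ s, (Q j - Q (j + 1)) + Q m) '' (range m).powerset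

omit [CompactSpace Ω] in
lemma fm_fin (Q : ℕ → C(Ω, ℂ)) (m : ℕ) : (fm Q m).Finite :=
  (fam_fin Q m).union ((finite_toSet _).image _)

omit [CompactSpace Ω] in
lemma fm_congr {Q Q' : ℕ → C(Ω, ℂ)} {m : ℕ} (h : ∀ i ≤ m, Q i = Q' i) : fm Q m = fm Q' m :=
  congrArg₂ (· ∪ ·) (Set.ext fun g => exists_congr fun i => and_congr_right fun hi => by
      simp only [h i hi]
      exact or_congr_right (exists_congr fun j => and_congr_right fun hj => by rw [h j hj]))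
    (Set.image_congr fun s hs => congrArg₂ (· + ·) (sum_congr rfl fun j hj => by
      have := mem_range.1 (mem_powerset.1 hs hj)
      rw [h j (by omega), h (j + 1) (by omega)]) (h m le_rfl))

structure Ch (u : Ω) (h : HH Ω k) (y : ℕ → Ω) (Q : ℕ → C(Ω, ℂ)) : Prop where
  q0 : Q 0 = 1
  nm : ∀ m, ‖Q m‖ ≤ 1
  mul : ∀ m n, m ≤ n → Q m * Q n = Q n
  val : ∀ m n, Q m (y n) = if m ≤ n then 1 else 0
  ev : ∀ m, ∀ᶠ x in 𝓝 u, Q m x = 1
  K : ∀ m F z p l, (∀ s, F s ∈ fm Q (m + 1)) → m + 1 ≤ l →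
    ‖h (update z p (y l)) F - h (update z p u) F‖ ≤ 1 / ((m : ℝ) + 1)
  B : ∀ m F s z g, (∀ s, F s ∈ fm Q m) → (∀ p, z p = u ∨ ∃ l ≤ m, z p = y l) →
    Q (m + 1) * g = g → (∀ᶠ x in 𝓝 u, g x = 0) → ‖h z (update F s g)‖ ≤ 1 / ((m : ℝ) + 1) * ‖g‖

lemma exCh [T2Space Ω] [TotallyDisconnectedSpace Ω] (u : Ω) [hu : (𝓝[≠] u).NeBot] (h : HH Ω k)
    (hc : ∀ F, Continuous fun z => h z F) : ∃ y Q, Ch u h y Q := by
  obtain ⟨y0, hy⟩ := (self_mem_nhdsWithin (a := u) (s := {u}ᶜ) |> Filter.nonempty_of_mem)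
  have kk : ∀ (Q : ℕ → C(Ω, ℂ)) (m n : ℕ), ∀ᶠ x in 𝓝 u, ∀ F z p, (∀ s, F s ∈ fm Q m) →
      ‖h (update z p x) F - h (update z p u) F‖ ≤ 1 / ((n : ℝ) + 1) := fun Q m n =>
    ((eventually_all_finite (Set.Finite.pi' fun _ : Fin (k + 1) => fm_fin Q m)).2 fun F _ =>
      eventually_all.2 fun p => tube u (hc F) p (by positivity)).mono fun x e F z p a => e F a p z
  obtain ⟨f, f0, hf⟩ := seq_rec (α := Ω × C(Ω, ℂ) × Set Ω) (y0, 1, Set.univ) (fun m H a =>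
      (H m).2.2 ∈ 𝓝 u ∧ (H m).1 ≠ u → (a.2.2 ∈ 𝓝 u ∧ a.1 ≠ u) ∧ a.1 ∈ a.2.2 ∧
      a.2.2 ⊆ (H m).2.2 ∧ (H m).1 ∉ a.2.2 ∧ (∀ p ∈ a.2.2, a.2.1 p = 1) ∧
      (∀ p ∉ a.2.2, a.2.1 p = 0) ∧ (∀ x ∈ a.2.2, ∀ F z p, (∀ s, F s ∈ fm (fun i => (H i).2.1) m) →
        ‖h (update z p x) F - h (update z p u) F‖ ≤ 1 / (((m - 1 : ℕ) : ℝ) + 1)) ∧
      (∀ F z p, (∀ s, F s ∈ fm (update (fun i => (H i).2.1) (m + 1) a.2.1) (m + 1)) →
        ‖h (update z p a.1) F - h (update z p u) F‖ ≤ 1 / ((m : ℝ) + 1)) ∧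
      ∀ F s z (g : C(Ω, ℂ)), (∀ s, F s ∈ fm (fun i => (H i).2.1) m) →
        (∀ p, z p = u ∨ ∃ l ≤ m, z p = (H l).1) → (∀ x ∉ a.2.2, g x = 0) →
        (∀ᶠ x in 𝓝 u, g x = 0) → ‖h z (update F s g)‖ ≤ 1 / ((m : ℝ) + 1) * ‖g‖) fun m H => by
    by_cases hV : (H m).2.2 ∈ 𝓝 u ∧ (H m).1 ≠ u
    swap
    · exact ⟨H m, fun e => absurd e hV⟩
    have e0 : 0 < 1 / ((m : ℝ) + 1) := by positivity
    obtain ⟨W, w1, w2⟩ := ((eventually_all_finite ((((Set.Finite.pi' fun _ : Fin (k + 1) =>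
      fm_fin (fun i => (H i).2.1) m).prod (Set.Finite.pi' fun _ : Fin (k + 2) =>
        ((Set.finite_Iic m).image fun l => (H l).1).insert u)).prod
        (Set.finite_univ (α := Fin (k + 1)))))).2 fun q _ =>
        reg u ((h q.1.2).toContinuousLinearMap q.1.1 q.2) e0).exists_mem_of_smallSets
    obtain ⟨V, v1, v2, v3⟩ := compact_exists_isClopen_in_isOpen isOpen_interior
      (mem_interior_iff_mem_nhds.2 (inter_mem (inter_mem hV.1 (kk (fun i => (H i).2.1) m (m - 1)))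
        (inter_mem w1 (isOpen_compl_singleton.mem_nhds hV.2.symm))))
    replace v3 := v3.trans interior_subset
    obtain ⟨Q, q1, q2⟩ := exind v1
    obtain ⟨y, y1, y2, y3⟩ := ((eventually_mem_nhdsWithin (a := u) (s := {u}ᶜ)).and (((v1.2.eventually_mem v2).and
        (kk (update (fun i => (H i).2.1) (m + 1) Q) (m + 1) m)).filter_mono
          nhdsWithin_le_nhds)).exists
    exact ⟨(y, Q, V), fun _ => ⟨⟨v1.2.mem_nhds v2, y1⟩, y2, fun _ e => (v3 e).1.1,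
      fun e => (v3 e).2.2 rfl, q1, q2, fun x e => (v3 e).1.2, y3, fun F s z g h1 h2 h3 =>
        w2 ((F, z), s) ⟨⟨h1, fun p => (h2 p).imp_right (.imp fun _ e => ⟨e.1, e.2.symm⟩)⟩, trivial⟩
          g fun x e => h3 x fun e' => e (v3 e').2.1⟩⟩
  choose H h1 h2 using hf
  have iv : ∀ m, (f m).2.2 ∈ 𝓝 u ∧ (f m).1 ≠ u := fun m => by
    induction m with
    | zero => simpa [f0] using hy
    | succ m ih => exact (h2 m (by rwa [h1 m m le_rfl])).1
  choose d2 d0 d3 d6 d4 d5 d1 d7 d8 using fun m => h2 m (by rw [h1 m m le_rfl]; exact iv m)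
  have fe : ∀ m, fm (fun i => (H m i).2.1) m = fm (fun i => (f i).2.1) m := fun m =>
    fm_congr fun i hi => by simp only [h1 m i hi]
  have fe' : ∀ m, fm (update (fun i => (H m i).2.1) (m + 1) (f (m + 1)).2.1) (m + 1) =
      fm (fun i => (f i).2.1) (m + 1) := fun m => fm_congr fun i hi => by
    obtain rfl | e := hi.eq_or_lt
    exacts [update_self .., by rw [update_of_ne e.ne, h1 m i (by omega)]]
  simp only [h1 _ _ le_rfl, fe, fe'] at d1 d3 d6 d7 d8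
  have an : Antitone fun m => (f m).2.2 := antitone_nat_of_succ_le d3
  have o1 : ∀ m, ∀ p ∈ (f m).2.2, (f m).2.1 p = 1 := fun m => by
    cases m
    exacts [by simp [f0], d4 _]
  have o2 : ∀ m, ∀ p ∉ (f m).2.2, (f m).2.1 p = 0 := fun m => by
    cases m
    exacts [by simp [f0], d5 _]
  have o3 : ∀ m, (f m).1 ∈ (f m).2.2 := fun m => by
    cases m
    exacts [by simp [f0], d0 _]
  refine ⟨fun m => (f m).1, fun m => (f m).2.1, by rw [f0], fun m =>
    (ContinuousMap.norm_le _ zero_le_one).2 fun x => ?_, fun m n e => ContinuousMap.ext fun x => ?_,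
    fun m n => ?_, fun m => mem_of_superset (iv m).1 (o1 m), fun m F z p l a e => ?_,
    fun m F s z g a b c => d8 m F s z g a (fun p => (b p).imp_right (.imp fun l e =>
      ⟨e.1, by rw [h1 m l e.1, e.2]⟩)) fun x hx => by rw [← c]; simp [d5 m x hx]⟩
  · by_cases hp : x ∈ (f m).2.2
    exacts [by simp [o1 m x hp], by simp [o2 m x hp]]
  · by_cases hp : x ∈ (f n).2.2
    exacts [by simp [o1 m x (an e hp)], by simp [o2 n x hp]]
  · split_ifs with e
    exacts [o1 m _ (an e (o3 n)), o2 m _ fun e' => d6 n (an (not_le.1 e) e')]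
  · obtain rfl | e := e.eq_or_lt
    exacts [d7 m F z p a, d1 (m + 1) _ (an e (o3 l)) F z p a]

end Pool.Agent.H90.Ub
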