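import Mathlib
import Pool.Agent.H90.UbB

set_option maxSynthPendingDepth 4

namespace Pool.Agent.H90.Ub

open Filter Topology Function Finset
open Sy hiding EL Hy avg up up_lin RR Ph good vl nes fam_up clA clB core fam fam_fin orth step HH Ch
  seq_rec exCh
open Tg hiding Ch exCh Hy good nes clA clB core

variable {Ω : Type} [TopologicalSpace Ω] [CompactSpace Ω] {k : ℕ}

structure Hy (u : Ω) (h : HH Ω k) (C : ℝ) : Prop where
  h0 : 0 ≤ C
  hc : ∀ F, Continuous fun z => h z F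
  h1 : ∀ s c z κ, 0 < κ → EF s c z κ → ∀ F,
    (∑ j ∈ s, c j * h (z j) F).re ≤ κ * (C * ∏ s, ‖F s‖)
  h2 : ∀ F (E : C(Ω, ℂ)) z, (∀ s : Fin k, F s.castSucc * F s.succ = 0) →
    F (Fin.last k) u = 0 → E (z 0) = 1 → h z F = h z (update F 0 (E * F 0))
  h3 : ∀ F (z : Fin (k + 1) → Ω), F (Fin.last k) u = 0 →
    ∑ i ∈ range (k + 1), (-1) ^ i * h (z ∘ sg k i) F +
      (-1) ^ (k + 1) * h (update (z ∘ sg k (k + 1)) (Fin.last _) u) F =
    ∑ i ∈ range (k + 1), (-1) ^ i * ∏ s, F s (z (sg k i s.succ))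
  h4 : ∀ z F, ‖h z F‖ ≤ C * ∏ s, ‖F s‖

variable {u : Ω} {h : HH Ω k} {y : ℕ → Ω} {Q : ℕ → C(Ω, ℂ)} {C : ℝ}

lemma Ch.kb (H : Ch u h y Q) {ε : ℝ} (hε : 0 < ε) : ∃ M : ℕ, ∀ m, M ≤ m →
    (∀ F z p l, (∀ s, F s ∈ fm Q m) → m ≤ l →
      ‖h (update z p (y l)) F - h (update z p u) F‖ ≤ ε) ∧
    ∀ F s z g, (∀ s, F s ∈ fm Q m) → (∀ p, z p = u ∨ ∃ l ≤ m, z p = y l) → Q (m + 1) * g = g →
      (∀ᶠ x in 𝓝 u, g x = 0) → ‖h z (update F s g)‖ ≤ ε * ‖g‖ := by
  obtain ⟨M, hM⟩ := eps hε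
  refine ⟨M + 1, fun m e => ⟨fun F z p l a b => ?_, fun F s z g a b c d => (H.B m F s z g a b c
    d).trans (mul_le_mul_of_nonneg_right (hM m (by omega)) (norm_nonneg _))⟩⟩
  obtain ⟨m, rfl⟩ := Nat.exists_eq_add_one_of_ne_zero (by omega : m ≠ 0)
  exact (H.K m F z p l a b).trans (hM m (by omega))

lemma Ch.rv (H : Ch u h y Q) (a b : ℕ) : ∀ᶠ x in 𝓝 u, (Q a - Q b) x = 0 :=
  ((H.ev a).and (H.ev b)).mono fun x e => by simp [e.1, e.2]

lemma Ch.ru (H : Ch u h y Q) (d : ℕ × ℕ) : RR Q d u = 0 := (H.rv d.1 d.2).self_of_nhds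

lemma Ch.n2 (H : Ch u h y Q) (d : ℕ × ℕ) : ‖RR Q d‖ ≤ 2 :=
  (norm_sub_le _ _).trans (by linarith [H.nm d.1, H.nm d.2])

lemma Ch.rq (H : Ch u h y Q) {d : ℕ × ℕ} {n : ℕ} (h1 : d.1 < d.2) (h2 : d.2 < n) :
    RR Q d * Q n = 0 := by rw [RR, sub_mul, H.mul _ _ h2.le, H.mul _ _ (h1.trans h2).le, sub_self]

lemma Ch.rr (H : Ch u h y Q) {d d' : ℕ × ℕ} (h1 : d.1 < d.2) (h2 : d.2 < d'.1) (h3 : d'.1 < d'.2) :
    RR Q d * RR Q d' = 0 := by
  rw [RR.eq_1 Q d', mul_sub, H.rq h1 h2, H.rq h1 (h2.trans h3), sub_self]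

lemma good (H : Ch u h y Q) (G : Hy u h C) (β : Fin (k + 2) → ℕ) :
    Good (C * 2 ^ (k + 1)) (Ph h y Q β) := by
  have pr : ∀ F : Fin (k + 1) → C(Ω, ℂ), (∀ s, ‖F s‖ ≤ 2) → C * ∏ s, ‖F s‖ ≤ C * 2 ^ (k + 1) :=
    fun F hF => mul_le_mul_of_nonneg_left ((prod_le_prod (fun _ _ => norm_nonneg _)
      fun s _ => hF s).trans_eq (by simp)) G.h0
  refine ⟨fun c => (G.h4 _ _).trans (pr _ fun _ => H.n2 _),
    fun a b c hab d d' h1 h2 N D κ k0 hD => ?_⟩
  let z : ℕ → ℕ → Fin (k + 2) → Ω := fun n m p =>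
    y (update (update c a (d n)) b (d' m) (β p)).1
  have H0 : ∀ σ μ : ℕ → ℝ, (∀ n, |σ n| ≤ 1) → (∀ n, |μ n| ≤ 1) → ∀ F, (∀ s, ‖F s‖ ≤ 2) →
      (∑ n ∈ range N, σ n * ∑ m ∈ range N, μ m * (D n m * h (z n m) F)).re ≤
        κ * (C * 2 ^ (k + 1)) := fun σ μ s1 s2 F hF => by
    have := G.h1 (range N ×ˢ range N) (fun j => σ j.1 * (μ j.2 * D j.1 j.2)) (fun j => z j.1 j.2)
      κ k0 (fun ι _ φ f w hw => ?_) F
    · simp only [sum_product, mul_assoc, ← mul_sum] at this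
      exact this.trans (mul_le_mul_of_nonneg_left (pr F hF) k0.le)
    rw [← prod_filter_mul_prod_filter_not univ fun s => β (φ s) = a]
    refine Eq.trans_le ?_ (hD (fun n => σ n * ∏ s with β (φ s) = a, f s (y (d n).1))
      (fun m => μ m * ∏ s with ¬β (φ s) = a, f s (y (update c b (d' m) (β (φ s))).1)) _ _
      (fun n => ?_) fun n => ?_)
    · rw [sum_product]
      congr 1
      refine sum_congr rfl fun n _ => sum_congr rfl fun m _ => ?_
      rw [← prod_filter_mul_prod_filter_not univ fun s => β (φ s) = a,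
        prod_congr rfl fun s hs => show f s (z n m (φ s)) = f s (y (d n).1) by
          simp [z, (mem_filter.1 hs).2, hab],
        prod_congr rfl fun s hs => show f s (z n m (φ s)) =
            f s (y (update c b (d' m) (β (φ s))).1) by
          simp [z, update_apply, (mem_filter.1 hs).2]]
      ring
    all_goals
      rw [norm_mul, norm_prod]
      refine (mul_le_of_le_one_left (prod_nonneg fun _ _ => norm_nonneg _) (by simp [s1, s2])).trans
        (prod_le_prod (fun _ _ => norm_nonneg _) fun s _ => hw s _)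
  have e : ∀ n m, Ph h y Q β (update (update c a (d n)) b (d' m)) =
      h (z n m) (up (up (fun s => RR Q (c s)) b (RR Q (d' m))) a (RR Q (d n))) := fun n m =>
    congrArg (h (z n m)) (funext fun s => by
      simp only [up, update_apply]; split_ifs <;> first | rfl | omega)
  have cm : ∀ (F : Fin (k + 1) → C(Ω, ℂ)) f g, up (up F b g) a f = up (up F a f) b g :=
    fun F f g => funext fun s => by simp only [up]; split_ifs <;> first | rfl | omega
  simp only [e]
  refine avg (ψ := fun n f => ∑ m ∈ range N,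
      D n m * h (z n m) (up (up (fun s => RR Q (c s)) b (RR Q (d' m))) a f))
    ((up_lin h a).imp (fun l n => ⟨fun f g => ?_, fun t f => ?_⟩) fun l n f g => ?_)
    (fun n m e => H.rr (h1.1 n) (h1.2 n m e) (h1.1 m)) (fun _ => H.n2 _) fun σ s1 f hf => ?_
  · simp [(l _ _).map_add, mul_add, sum_add_distrib]
  · simp [(l _ _).map_smul, mul_sum, mul_left_comm]
  · simp only [l _ _ f g]
  simp only [mul_sum, cm]
  rw [sum_comm]
  refine avg (ψ := fun m g => ∑ n ∈ range N,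
      σ n * (D n m * h (z n m) (up (up (fun s => RR Q (c s)) a f) b g)))
    ((up_lin h b).imp (fun l n => ⟨fun f g => ?_, fun t f => ?_⟩) fun l n f g => ?_)
    (fun n m e => H.rr (h2.1 n) (h2.2 n m e) (h2.1 m)) (fun _ => H.n2 _) fun μ s2 g hg => ?_
  · simp [(l _ _).map_add, mul_add, sum_add_distrib]
  · simp [(l _ _).map_smul, mul_sum, mul_left_comm]
  · simp only [l _ _ f g]
  refine Eq.trans_le ?_ (H0 σ μ s1 s2 (up (up (fun s => RR Q (c s)) a f) b g) fun s => by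
    simp only [up]; split_ifs; exacts [hg, hf, H.n2 _])
  simp only [mul_sum]
  rw [sum_comm]
  simp only [mul_left_comm]

lemma nes (H : Ch u h y Q) (G : Hy u h C) (β : Fin (k + 2) → ℕ) {a p q : ℕ} (ha : a ≤ k)
    (e : p = a ∧ q = k + 1 ∨ q = a ∧ p = k + 1) {ε : ℝ} (hε : 0 < ε) :
    ∀ᶠ c in FF (l0 k a) 0, ∀ᶠ d in VV, ∀ᶠ d' in VV,
      ‖Ph h y Q β (update (update c p d) q d') - vl h y Q β‖ < ε := by
  have : (List.range (k + 2)).Perm (l0 k a ++ [p, q]) :=
    (List.perm_ext_iff_of_nodup List.nodup_range (List.nodup_append.2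
      ⟨List.nodup_range.filter _, by simp; omega, by simp [l0]; omega⟩)).2 (by simp [l0]; omega)
  rw [vl, (good H G β).perm this]
  exact (ev_two (P := fun c => ‖Ph h y Q β c - _‖ < ε)).1 ((Metric.tendsto_nhds.1
    ((good H G β).tf _ 0) ε hε).mono fun c hc => by rwa [← dist_eq_norm])

lemma clA (H : Ch u h y Q) (G : Hy u h C) (hk : 1 ≤ k) {j : ℕ} (hj : j ≤ k) :
    vl h y Q (ga k 0 j) = vl h y Q (ga k (k + 1) j) := by
  refine eq_of_forall_dist_le fun ε hε => ?_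
  have e0 : 0 < ε / 4 := by positivity
  obtain ⟨M, hM⟩ := H.kb e0
  obtain ⟨c, a1, a2, c1, -, c2⟩ := ((nes H G (ga k 0 j) k.zero_le (.inl ⟨rfl, rfl⟩) e0).and
    ((nes H G (ga k (k + 1) j) k.zero_le (.inl ⟨rfl, rfl⟩) e0).and
      (sep (l := l0 k 0) (List.nodup_range.filter _) 0 0))).exists
  obtain ⟨b, b1, b2⟩ := bnd c k M
  obtain ⟨d, a1, a2, d1, d2⟩ := (a1.and (a2.and (ev_gt b))).exists
  obtain ⟨d', a1, a2, d3, -⟩ := (a1.and (a2.and (ev_gt d.1))).exists
  simp only [l0, List.mem_filter, List.mem_range, decide_eq_true_eq] at c1 c2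
  have e1 : (fun s : Fin (k + 1) => RR Q (update (update c 0 d) (k + 1) d' s)) =
      update (fun s : Fin (k + 1) => RR Q (c s)) 0 (RR Q d) := funext fun s => by
    simp only [update_apply, Fin.ext_iff, Fin.val_zero]; split_ifs <;> first | rfl | omega
  have e2 : ∀ (f E : C(Ω, ℂ)) z, z 0 = y d.1 → RR Q (c 1) * f = 0 → E (y d.1) = 1 →
      h z (update (fun s : Fin (k + 1) => RR Q (c s)) 0 f) =
        h z (update (fun s : Fin (k + 1) => RR Q (c s)) 0 (E * f)) := fun f E z z0 hf hE => by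
    refine (G.h2 _ E z (fun s => ?_) ?_ (z0 ▸ hE)).trans (by rw [update_idem, update_self])
    · rw [update_of_ne (Fin.succ_ne_zero s), update_apply]
      split_ifs with e
      · rw [mul_comm, ← hf, Fin.val_succ, show (s : ℕ) = 0 from congrArg Fin.val e]
      · have e : (s : ℕ) ≠ 0 := fun e' => e (Fin.ext e')
        have a := c1 s ⟨by omega, e⟩
        have a' := c1 (s + 1) ⟨by omega, by omega⟩
        obtain e | e := c2 s ⟨by omega, e⟩ (s + 1) ⟨by omega, by omega⟩ (by omega)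
        exacts [H.rr a.2 e a'.2, (mul_comm _ _).trans (H.rr a'.2 e a.2)]
    · rw [update_of_ne (Fin.ne_of_val_ne (show k ≠ 0 by omega))]
      exact H.ru _
  have e3 : ∀ z, z 0 = y d.1 → h z (update (fun s : Fin (k + 1) => RR Q (c s)) 0 (RR Q d)) =
      h z (update (fun s : Fin (k + 1) => RR Q (c s)) 0 (Q d.1)) := fun z z0 => by
    have a := (c1 1 ⟨by omega, by omega⟩).2
    have a' := (b2 1 hk).2.trans_lt d1
    rw [e2 _ (Q d.1) z z0 (H.rr a a' d2) (by simp [H.val]),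
      e2 (Q d.1) (RR Q d) z z0 (H.rq a a') (by simp [RR, H.val, d2]), mul_comm]
  rw [Ph, e1, e3 _ (by simp [ga])] at a1 a2
  have k1 := fun l => (hM d.1 (by omega)).1 _
    (fun p => y (update (update c 0 d) (k + 1) d' (ga k 0 j p)).1) ⟨j + 1, by omega⟩ l
    fun s => .inl (fam_up b2 d1.le le_rfl 0 s)
  have k2 := k1 d.1 le_rfl
  replace k1 := k1 d'.1 d3.le
  rw [update_eq_self_iff.2 (by simp [ga])] at k2
  rw [show update (fun p : Fin (k + 2) => y (update (update c 0 d) (k + 1) d' (ga k 0 j p)).1)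
      ⟨j + 1, by omega⟩ (y d'.1) =
      fun p => y (update (update c 0 d) (k + 1) d' (ga k (k + 1) j p)).1 from funext fun p => by
    by_cases e : (p : ℕ) = j + 1 <;> simp [ga, e, update_apply, Fin.ext_iff]] at k1
  rw [dist_eq_norm]
  refine Eq.trans_le ?_ ((norm_add_le_of_le (norm_sub_le_of_le (norm_sub_le_of_le a2.le a1.le) k1)
    k2).trans_eq (by ring))
  congr 1
  ring

lemma atom [T2Space Ω] [ExtremallyDisconnected Ω] (H : Ch u h y Q)
    (hc : ∀ F, Continuous fun z => h z F) {F : Fin (k + 1) → C(Ω, ℂ)} {b : ℕ}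
    (hF : ∀ m, b ≤ m → ∀ s, F s ∈ fm Q m) {z : Fin (k + 2) → Ω} (hz : ∀ p, ∃ l ≤ b, z p = y l)
    (i : Fin (k + 1)) (p1 p2 : Fin (k + 2)) {ε : ℝ} (hε : 0 < ε) :
    ∀ᶠ p in hyperfilter ℕ, ∀ᶠ q in hyperfilter ℕ,
      ‖h (update (update z p1 (y p)) p2 (y p)) (update F i (Q (p + 1))) -
        h (update (update z p1 (y p)) p2 (y q)) (update F i (Q (q + 1)))‖ ≤ ε := by
  let W : C(Ω, ℂ) → Ω → Ω → ℂ := fun g x x' => h (update (update z p1 x) p2 x') (update F i g)
  by_contra hn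
  simp only [← Ultrafilter.eventually_not, not_le] at hn
  have e0 : 0 < ε / 9 := by positivity
  obtain ⟨M, hM⟩ := H.kb e0
  have ge := fun n => (eventually_ge_atTop n).filter_mono Nat.hyperfilter_le_atTop
  obtain ⟨s, s1, s2⟩ := exists_seq_of_forall_finset_exists (fun p => (b ≤ p ∧ M ≤ p) ∧
      ∀ᶠ q in hyperfilter ℕ, ε < ‖W (Q (p + 1)) (y p) (y p) - W (Q (q + 1)) (y p) (y q)‖)
      (fun p q => p + 1 ≤ q ∧ ε < ‖W (Q (p + 1)) (y p) (y p) - W (Q (q + 1)) (y p) (y q)‖)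
      fun t ht => ((((ge b).and (ge M)).and hn).and ((eventually_all_finset t).2 fun p hp =>
        (ge _).and (ht p hp).2)).exists
  have o : ∀ a c, a < c → (Q a - Q (a + 1)) * (Q c - Q (c + 1)) = 0 := fun a c e => by
    rw [sub_mul, mul_sub, mul_sub, H.mul a c e.le, H.mul a _ (by omega), H.mul _ c e,
      H.mul _ _ (by omega), sub_self]
  obtain ⟨β, f, f1, f2, f3, f4⟩ := exf u (g := fun j => Q j - Q (j + 1)) (fun a c e => by
    obtain e | e := e.lt_or_gt
    exacts [o _ _ e, (mul_comm _ _).trans (o _ _ e)])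
    (StrictMono.injective (f := s) fun m n e => (s2 m n e).1)
  have gm : ∀ n, f * (1 - Q n) + Q n ∈ fm Q n := fun n => by
    suffices ∃ t ⊆ range n, ∑ j ∈ t, (Q j - Q (j + 1)) = f * (1 - Q n) from
      this.elim fun t e => .inr ⟨t, mem_coe.2 (mem_powerset.2 e.1), by simp only [e.2]⟩
    induction n with
    | zero => exact ⟨∅, empty_subset _, by simp [H.q0]⟩
    | succ n ih =>
      obtain ⟨t, t1, t2⟩ := ih
      obtain e | e := f3 n
      · refine ⟨insert n t, range_add_one ▸ insert_subset_insert _ t1, ?_⟩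
        rw [sum_insert fun e => notMem_range_self (t1 e), t2]
        linear_combination -e
      · exact ⟨t, t1.trans (range_mono n.le_succ), by rw [t2]; linear_combination -e⟩
  obtain ⟨v, -, hv⟩ := isCompact_univ.ultrafilter_le_nhds
    ((hyperfilter ℕ).map fun n => y (s (2 * n + β))) (by simp)
  have T : Tendsto (fun n => y (s (2 * n + β))) (hyperfilter ℕ) (𝓝 v) := hv
  have cu : Continuous fun x : Ω × Ω => update (update z p1 x.1) p2 x.2 := by fun_prop
  have cw : Continuous fun x : Ω × Ω => ‖W f x.1 x.1 - W f x.1 x.2‖ :=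
    (((hc _).comp (cu.comp (continuous_fst.prodMk continuous_fst))).sub ((hc _).comp cu)).norm
  obtain ⟨n, hn⟩ := (((cw.tendsto' (v, v) 0 (by simp)).comp ((T.comp tendsto_fst).prodMk_nhds
    (T.comp tendsto_snd))).eventually (eventually_le_nhds e0)).curry.exists
  obtain ⟨n', t0, e⟩ := (hn.and (ge (n + 1))).exists
  obtain ⟨ml, bad⟩ := s2 (2 * n + β) (2 * n' + β) (by omega)
  have fm := f4 n
  have fl := f4 n'
  obtain ⟨⟨m1, m2⟩, -⟩ := s1 (2 * n + β)
  simp only [comp_apply] at t0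
  generalize s (2 * n + β) = m at *
  generalize s (2 * n' + β) = l at *
  have hB : ∀ n x g, m ≤ n → (x = u ∨ x = y n) → Q (n + 1) * g = g → (∀ᶠ x in 𝓝 u, g x = 0) →
      ∀ c, ‖g‖ ≤ c → ‖W g (y m) x‖ ≤ ε / 9 * c := fun n x g a1 a2 a3 a4 c a5 =>
    ((hM n (by omega)).2 F i _ g (hF n (by omega)) (fun p => by
      simp only [update_apply]
      split_ifs
      exacts [a2.imp_right fun e => ⟨n, le_rfl, e⟩, .inr ⟨m, a1, rfl⟩,
        .inr ((hz p).imp fun _ e => ⟨by omega, e.2⟩)]) a3 a4).trans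
      (mul_le_mul_of_nonneg_left a5 e0.le)
  have hq : ∀ n, m ≤ n → ‖W (f * Q (n + 1)) (y m) (y n)‖ ≤ ε / 9 * (1 * 1) := fun n a =>
    hB n _ _ a (.inr rfl) (by rw [mul_left_comm, H.mul _ _ le_rfl]) (f2.mono fun x e => by simp [e])
      _ (norm_mul_le_of_le f1 (H.nm _))
  have hK : ∀ n, m ≤ n → ‖W (f * (1 - Q n) + Q n) (y m) (y n) - W (f * (1 - Q n) + Q n) (y m) u‖ ≤
      ε / 9 := fun n a => (hM n (by omega)).1 _ _ p2 n (fun s => by
    rw [update_apply]
    split_ifs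
    exacts [gm n, hF n (by omega) s]) le_rfl
  have t5 := hB m u ((f - 1) * (Q (m + 1) - Q l)) le_rfl (.inl rfl)
    (by rw [mul_left_comm, mul_sub (Q _), H.mul _ _ le_rfl, H.mul _ _ ml])
    ((H.rv (m + 1) l).mono fun x e => by rw [ContinuousMap.mul_apply, e, mul_zero]) _
    (norm_mul_le_of_le (norm_sub_le_of_le f1 (H.q0 ▸ H.nm 0)) (H.n2 (m + 1, l)))
  have sb : ∀ g g' x x', W (g - g') x x' = W g x x' - W g' x x' := fun g g' x x' =>
    (h _).map_update_sub _ i _ _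
  have ad : ∀ g g' x x', W (g + g') x x' = W g x x' + W g' x x' := fun g g' x x' =>
    (h _).map_update_add _ i _ _
  have id : ∀ n x, f * (Q n - Q (n + 1)) = Q n - Q (n + 1) → W f (y m) x =
      W (f * (1 - Q n) + Q n) (y m) x - W (Q (n + 1)) (y m) x + W (f * Q (n + 1)) (y m) x :=
    fun n x e => by
      rw [← sb, ← ad]
      congr 1
      linear_combination e
  rw [show (f - 1) * (Q (m + 1) - Q l) = f * (1 - Q l) + Q l - (f * (1 - Q m) + Q m) by
    linear_combination -fm, sb] at t5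
  rw [id m _ fm, id l _ fl] at t0
  refine bad.not_ge (Eq.trans_le ?_ ((norm_sub_le_of_le (norm_sub_le_of_le (norm_add_le_of_le
    (norm_sub_le_of_le (norm_sub_le_of_le (hq m le_rfl) t0) (hq l (by omega))) (hK m le_rfl)) t5)
    (hK l (by omega))).trans_eq (by ring)))
  congr 1
  ring

lemma clB [T2Space Ω] [ExtremallyDisconnected Ω] (H : Ch u h y Q) (G : Hy u h C) {j : ℕ}
    (hj : j < k) : vl h y Q (fun p => sg k (j + 1) p) =
      vl h y Q (ga k (k + 1) j) + vl h y Q (ga k (k + 1) (j + 1)) := by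
  refine eq_of_forall_dist_le fun ε hε => ?_
  have e0 : 0 < ε / 14 := by positivity
  obtain ⟨M, hM⟩ := H.kb e0
  obtain ⟨c, a1, a2, a3⟩ := ((nes H G (fun p => sg k (j + 1) p) hj (.inl ⟨rfl, rfl⟩) e0).and
    ((nes H G (ga k (k + 1) j) hj (.inr ⟨rfl, rfl⟩) e0).and
      (nes H G (ga k (k + 1) (j + 1)) hj (.inl ⟨rfl, rfl⟩) e0))).exists
  obtain ⟨b, b1, b2⟩ := bnd c k M
  let i : Fin (k + 1) := ⟨j + 1, by omega⟩
  let p1 : Fin (k + 2) := ⟨j + 1, by omega⟩
  let p2 : Fin (k + 2) := ⟨j + 2, by omega⟩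
  let z : Fin (k + 2) → Ω := fun t => y (c (sg k (j + 1) t)).1
  let W : C(Ω, ℂ) → Ω → Ω → ℂ := fun f x x' =>
    h (update (update z p1 x) p2 x') (update (fun s : Fin (k + 1) => RR Q (c s)) i f)
  have hF : ∀ m, b ≤ m → ∀ s : Fin (k + 1), RR Q (c s) ∈ fm Q m := fun m e s =>
    .inl ⟨_, (b2 s (by omega)).1.trans e, .inr ⟨_, (b2 s (by omega)).2.trans e, rfl⟩⟩
  have hz : ∀ p, ∃ l ≤ b, z p = y l := fun p => ⟨_, (b2 _ (by omega)).1, rfl⟩
  have t := atom H G.hc hF hz i p1 p2 e0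
  obtain ⟨d, a1, a2, a3, ⟨d1, d2⟩, t1⟩ := (a1.and (a2.and (a3.and ((ev_gt b).and
    (ev_VV.2 (t.mono fun _ e => .of_forall fun _ => e) : ∀ᶠ d : ℕ × ℕ in VV,
      ∀ᶠ q in hyperfilter ℕ, ‖W (Q (d.1 + 1)) (y d.1) (y d.1) - W (Q (q + 1)) (y d.1) (y q)‖ ≤
        ε / 14))))).exists
  obtain ⟨d', a1, a2, a3, ⟨d3, d4⟩, t2⟩ := (a1.and (a2.and (a3.and ((ev_gt d.2).and
    (ev_VV.2 (t1.mono fun _ e => .of_forall fun _ => e) : ∀ᶠ d' : ℕ × ℕ in VV,
      ‖W (Q (d.1 + 1)) (y d.1) (y d.1) - W (Q (d'.1 + 1)) (y d.1) (y d'.1)‖ ≤ ε / 14))))).exists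
  have hK : ∀ m l, b ≤ m → m ≤ l → ‖W (Q m) (y d.1) (y l) - W (Q m) (y d.1) u‖ ≤ ε / 14 :=
    fun m l h1 h2 => (hM m (by omega)).1 _ _ p2 l (fun s => .inl (fam_up b2 h1 le_rfl i s)) h2
  have sb : ∀ (d : ℕ × ℕ) p q, W (RR Q d) p q = W (Q d.1) p q - W (Q d.2) p q := fun d p q =>
    (h _).map_update_sub _ i _ _
  have hB : ∀ n x a a', d.1 ≤ n → (x = u ∨ x = y n) → n < a → n < a' →
      ‖W (Q a) (y d.1) x - W (Q a') (y d.1) x‖ ≤ ε / 14 * 2 := fun n x a a' h1 h2 h3 h4 => by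
    rw [← sb (a, a')]
    refine ((hM n (by omega)).2 _ i (update (update z p1 (y d.1)) p2 x) (RR Q (a, a'))
      (hF n (by omega)) (fun p => ?_) ?_ (H.rv a a')).trans
      (mul_le_mul_of_nonneg_left (H.n2 _) e0.le)
    · simp only [update_apply]
      split_ifs
      exacts [h2.imp_right fun e => ⟨n, le_rfl, e⟩, .inr ⟨_, h1, rfl⟩,
        .inr ((hz p).imp fun _ e => ⟨by omega, e.2⟩)]
    · rw [RR, mul_sub, H.mul _ _ h3, H.mul _ _ h4]
  have zz : ∀ p q, update (update z p1 (y p)) p2 (y q) = fun t : Fin (k + 2) =>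
      y (if t = j + 2 then q else if t = j + 1 then p else (c (sg k (j + 1) t)).1) := fun p q =>
    funext fun t => by simp only [update_apply, Fin.ext_iff, p1, p2, z, apply_ite y]
  have e1 : Ph h y Q (fun p => sg k (j + 1) p) (update (update c (j + 1) d) (k + 1) d') =
      W (RR Q d) (y d.1) (y d.1) := by
    refine congrArg₂ (fun F z => h z F) (funext fun s => ?_)
      (Eq.trans (funext fun s => congrArg y ?_) (zz _ _).symm) <;>
    simp only [update_apply, Fin.ext_iff, i, sg] <;> split_ifs <;> first | rfl | omega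
  have e2 : Ph h y Q (ga k (k + 1) j) (update (update c (k + 1) d) (j + 1) d') =
      W (RR Q d') (y d.1) (y d'.1) := by
    refine congrArg₂ (fun F z => h z F) (funext fun s => ?_)
      (Eq.trans (funext fun s => congrArg y ?_) (zz _ _).symm) <;>
    simp only [update_apply, Fin.ext_iff, i, sg, ga] <;> split_ifs <;>
    first | rfl | omega
  have e3 : Ph h y Q (ga k (k + 1) (j + 1)) (update (update c (j + 1) d) (k + 1) d') =
      W (RR Q d) (y d.1) (y d'.1) := by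
    refine congrArg₂ (fun F z => h z F) (funext fun s => ?_)
      (Eq.trans (funext fun s => congrArg y ?_) (zz _ _).symm) <;>
    simp only [update_apply, Fin.ext_iff, i, sg, ga] <;> split_ifs <;>
    first | rfl | omega
  rw [e1, sb] at a1
  rw [e2, sb] at a2
  rw [e3, sb] at a3
  rw [dist_eq_norm]
  have := norm_add_le_of_le (norm_add_le_of_le (norm_sub_le_of_le (norm_sub_le_of_le
    (norm_sub_le_of_le (norm_add_le_of_le (norm_add_le_of_le (norm_sub_le_of_le (norm_add_le_of_le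
      (norm_sub_le_of_le (hK d.1 d.1 d1.le le_rfl) (hK d.1 d'.1 d1.le (by omega)))
      (hK d.2 d'.1 (by omega) d3.le)) (hK d'.1 d'.1 (by omega) le_rfl))
      (hB d.1 u d.2 d'.1 le_rfl (.inl rfl) d2 (by omega)))
      (hB d.1 _ (d.1 + 1) d.2 le_rfl (.inr rfl) (by omega) d2))
      (hB d'.1 _ (d'.1 + 1) d'.2 (by omega) (.inr rfl) (by omega) d4)) t2) a1.le) a2.le) a3.le
  refine Eq.trans_le ?_ (this.trans_eq (by ring))
  congr 1
  ring

lemma clU (H : Ch u h y Q) (G : Hy u h C) : Tendsto (fun c : Cf => h (update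
    ((fun p : Fin (k + 1) => y (c p).1) ∘ sg k (k + 1)) (Fin.last _) u) fun s => RR Q (c s))
    (FF (List.range (k + 2)) 0) (𝓝 (vl h y Q (ga k (k + 1) k))) := by
  refine ((good H G (ga k (k + 1) k)).tf _ 0).congr_dist (Metric.tendsto_nhds.2 fun ε hε => ?_)
  obtain ⟨M, hM⟩ := H.kb (half_pos hε)
  rw [List.range_succ]
  refine (ev_app _).2 (.of_forall fun c => ?_)
  obtain ⟨b, b1, b2⟩ := bnd c k M
  refine ev_cons.2 ((ev_gt b).mono fun d hd => eventually_pure.2 ?_)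
  rw [dist_zero_right, Real.norm_of_nonneg dist_nonneg, dist_eq_norm]
  refine Eq.trans_lt ?_ (((hM b b1).1 (fun s => RR Q (update c (k + 1) d s)) ((fun p : Fin (k + 1) =>
    y (update c (k + 1) d p).1) ∘ sg k (k + 1)) (Fin.last _) d.1 (fun s => ?_) hd.1.le).trans_lt
    (half_lt_self hε))
  · refine congrArg (fun z => ‖h z _ - _‖) (funext fun p => ?_)
    simp only [update_apply, Fin.ext_iff, ga, sg, comp_apply, Fin.val_last]
    split_ifs <;> first | rfl | omega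
  · rw [update_of_ne (by omega)]
    exact .inl ⟨_, (b2 s (by omega)).1, .inr ⟨_, (b2 s (by omega)).2, rfl⟩⟩

theorem core [T2Space Ω] [ExtremallyDisconnected Ω] [(𝓝[≠] u).NeBot] (hk : 1 ≤ k)
    (G : Hy u h C) : False := by
  obtain ⟨y, Q, H⟩ := exCh u h G.hc
  have s1 : ∀ j ≤ k, ∑ i ∈ range (j + 1), (-1) ^ i * vl h y Q (fun p => sg k i p) =
      (-1) ^ j * vl h y Q (ga k (k + 1) j) := fun j hj => by
    induction j with
    | zero =>
      rw [sum_range_one, ← clA H G hk hj]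
      congr 2
      ext p
      simp only [sg, ga]
      split_ifs <;> omega
    | succ j ih =>
      rw [sum_range_succ, ih (by omega), clB H G hj]
      ring
  have t := (tendsto_finsetSum (range (k + 1)) fun i _ =>
    ((good H G fun p => sg k i p).tf (List.range (k + 2)) 0).const_mul ((-1) ^ i)).add
    ((clU H G).const_mul ((-1) ^ (k + 1)))
  refine zero_ne_one (Eq.trans ?_ (tendsto_nhds_unique_of_eventuallyEq t tendsto_const_nhds
    ((sep List.nodup_range 0 0).mono fun c ⟨c1, _, c2⟩ => ?_)))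
  · exact (Eq.trans (congrArg (· + _) (s1 k le_rfl)) (by ring)).symm
  simp only [List.mem_range] at c1 c2
  have v : ∀ a b, a < k + 2 → b < k + 2 → RR Q (c a) (y (c b).1) = if a = b then 1 else 0 :=
    fun a b ha hb => by
      have := c1 a ha
      have := c1 b hb
      have := c2 a ha b hb
      simp only [RR, ContinuousMap.sub_apply, H.val]
      split_ifs <;> grind
  refine (G.h3 (fun s => RR Q (c s)) (fun p => y (c p).1) (H.ru _)).trans ?_
  rw [sum_eq_single_of_mem 0 (by simp) fun i _ hi => ?_, prod_eq_one fun s _ => ?_]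
  · simp
  · rw [v _ _ (by omega) (by omega), if_pos (by simp [sg])]
  · rw [prod_eq_zero (mem_univ 0), mul_zero]
    rw [v _ _ (by omega) (by omega), if_neg]
    simp only [sg, Fin.val_succ, Fin.val_zero]
    split_ifs <;> first | omega | simp

end Pool.Agent.H90.Ub
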