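import Mathlib
import Pool.Agent.H90.TgDefs

namespace Pool.Agent.H90.Tg

variable {A : Type} [NormedRing A] [NormedAlgebra ℂ A]

/-- the action is not zero and the only invariant linear subspaces are `0` and the whole module -/
def Irr (M : LMod A) : Prop :=
  (∃ a x, M.act a x ≠ 0) ∧
    ∀ N : Submodule ℂ M.X, (∀ a, ∀ x ∈ N, M.act a x ∈ N) → N = ⊥ ∨ N = ⊤

end Pool.Agent.H90.Tg
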