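import Mathlib
import Pool.Agent.H90.UbC
import Pool.Agent.H90.TgG
import Pool.Agent.H90.UbDefs

set_option maxSynthPendingDepth 4

namespace Pool.Agent.H90.Ub

open Filter Topology Function Finset
open Tg hiding Ch exCh Hy good nes clA clB core

variable {Ω : Type} [TopologicalSpace Ω] {n k : ℕ}

open Classical in
noncomputable def cu (u : Ω) (z : Fin (n + 1) → Ω) : SP Ω (n + 1) :=
  update (fun p => z (cz n p)) (Fin.last _) u

noncomputable def pv (u : Ω) : XS Ω 0 →L[ℂ] ℂ :=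
  BoundedContinuousFunction.evalCLM ℂ (show SP Ω 0 from fun _ => u) ∘L pr

variable [CompactSpace Ω]

lemma dl_act (u : Ω) (a : C(Ω, ℂ)) (x : ℂ) : (a u * x) • dl u = act a (x • dl u) :=
  ext1 fun z => by
    simp only [act_ap, map_smul, BoundedContinuousFunction.smul_apply, dl_ap, smul_eq_mul]
    split_ifs with e <;> simp [*]

noncomputable def pu (u : Ω) (T : (XX Ω n).X) : (XX Ω n).X :=
  (show XS Ω 0 →L[ℂ] XS Ω n from T) ∘L ContinuousLinearMap.toSpanSingleton ℂ (dl u) ∘L pv u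

lemma pu_mor (u : Ω) : BMor (XX Ω n) (XX Ω n) (pu u) :=
  ⟨((ContinuousLinearMap.compL ℂ (XS Ω 0) (XS Ω 0) (XS Ω n)).flip _).isBoundedLinearMap,
    fun _ _ => rfl, fun T a => ContinuousLinearMap.ext fun m =>
      congrArg (show XS Ω 0 →L[ℂ] XS Ω n from T) (dl_act u a (pv u m)).symm⟩

lemma ev_pu (u : Ω) (T : (XX Ω n).X) (z : SP Ω n) : ev (pu u T) (dl u) z = ev T (dl u) z := by
  have : pv u (dl u) • dl u = dl u := by
    rw [show pv u (dl u) = 1 from if_pos rfl, one_smul]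
  exact congrArg (fun m => ev T m z) this

theorem fin2 [T2Space Ω] [ExtremallyDisconnected Ω] (u : Ω) [(𝓝[≠] u).NeBot] (hk : 1 ≤ k)
    {η : (Fin (k + 2) → C(Ω, ℂ)) → (XX Ω (k + 2)).X} (hη : Gd _ η)
    (e : ∀ a, DH (k + 1) (pu u (io (k + 2) a) - bb η a) = 0) : False := by
  classical
  have : Nonempty Ω := ⟨u⟩
  have G := hη.bb
  obtain ⟨C, c0, c1⟩ := G.bdd
  let φ : Fin (k + 1) → Fin (k + 3) := fun s => s.castSucc.succ
  have n1 : ‖dl u‖ ≤ 1 := nm0 _ (fun z => by rw [dl_ap]; split_ifs <;> simp) zero_le_one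
  have nT : ∀ F τ κ, 0 < κ → EL τ κ → ‖τ (pr ((show XS Ω 0 →L[ℂ] XS Ω (k + 2) from
      bb η (push φ F)) (dl u)))‖ ≤ κ * (C * ∏ s, ‖F s‖) := fun F τ κ k0 hτ =>
    (bd k0 hτ _).trans (mul_le_mul_of_nonneg_left ((ContinuousLinearMap.le_of_opNorm_le_of_le _
      ((c1 _).trans (mul_le_mul_of_nonneg_left (push_norm _ _) c0)) n1).trans_eq (mul_one _)) k0.le)
  have b : ∀ z F, ‖ev (bb η (push φ F)) (dl u) (cu u z)‖ ≤ C * ∏ s, ‖F s‖ := fun z F =>
    (nT F _ 1 one_pos (EL_ev (cu u z))).trans_eq (one_mul _)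
  let h : HH Ω k := fun z => MultilinearMap.mkContinuous (MultilinearMap.mk'
    (fun F => ev (bb η (push φ F)) (dl u) (cu u z))
    (fun F p x y => by
      rw [← sm_up F p, ← sm_up F p x, ← sm_up F p y]
      simp only [push_sm, (G.lin _ _).map_add, (ev_lin _ _).map_add])
    fun F p c x => by
      rw [← sm_up F p, ← sm_up F p x]
      simp only [push_sm, (G.lin _ _).map_smul, (ev_lin _ _).map_smul]) C (b z)
  have hh : ∀ z F, h z F = ev (bb η (push φ F)) (dl u) (cu u z) := fun _ _ => rfl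
  refine core (u := u) (h := h) (C := C) hk ⟨c0, fun F => ?_, fun s c z κ k0 hE F => ?_,
    fun F E z h1 h2 h3 => ?_, fun F z h2 => ?_, b⟩
  · simp only [hh]
    refine (BoundedContinuousFunction.continuous _).comp (c_to (fun q => ?_)
      (continuous_const.congr fun x => (update_self (Fin.last _) u fun p => x (cz _ p)).symm))
    simp only [cu, update_apply]
    split_ifs
    exacts [continuous_const, continuous_apply _]
  · have := nT F (∑ j ∈ s, c j • BoundedContinuousFunction.evalCLM ℂ (cu u (z j)))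
      κ k0 fun ι _ ψ a b w hb hw => by
        refine Eq.trans_le ?_ (hE ι (fun i => cz _ (ψ i))
          (fun i t => a i (if ψ i = Fin.last _ then u else t)) b fun i t => hb _ _)
        simp only [_root_.sum_apply, _root_.smul_apply, BoundedContinuousFunction.evalCLM_apply, hw,
          smul_eq_mul, cu, update_apply]
    refine Eq.trans_le ?_ ((Complex.re_le_norm _).trans this)
    rw [_root_.sum_apply]
    rfl
  · have z0 : ∀ x : Fin (k + 2) → C(Ω, ℂ), ((∃ p, x p = 0) ∨ x (Fin.last _) u = 0) →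
        ev (η x) (dl u) (cu u z) = 0 := by
      rintro x (⟨p, hp⟩ | hp)
      · rw [← update_eq_self p x, hp, ← sm_up, (hη.lin _ p).map_zero, (ev_lin _ _).map_zero]
      · rw [← update_eq_self (Fin.last _) x, ← sm_up, hη.rt, ev_r, show act (x (Fin.last _))
          (dl u) = 0 from ext1 fun u => by
            rw [act_ap, dl_ap]; split_ifs with e <;> simp [*], ev, map_zero, map_zero]
        rfl
    rw [show update F 0 (E * F 0) = sm 0 E F from funext fun s => by
      by_cases e : s = 0 <;> simp [e, sm], hh, hh, ev_bb, ev_bb]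
    refine sum_congr rfl fun i hi => congrArg _ ?_
    rw [push_push, push_push, push_sm]
    obtain rfl | i0 := i.eq_zero_or_pos
    · rw [show sd (k + 1) 0 (φ 0) = 0 from Fin.ext (by simp [sd, φ]), hη.lf, ev_l, cu,
        update_of_ne Fin.last_pos.ne, cz0, h3, one_mul]
    have : (∃ p, push (fun q => sd (k + 1) i (φ q)) F p = 0) ∨
        push (fun q => sd (k + 1) i (φ q)) F (Fin.last _) u = 0 := by
      by_cases e : i ≤ k
      · refine .inl ⟨⟨i, by omega⟩, eq_zero_of_zero_dvd ((h1 ⟨i - 1, by omega⟩).symm.dvd.trans ?_)⟩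
        rw [← prod_pair (Fin.castSucc_lt_succ.ne)]
        refine prod_dvd_prod_of_subset _ _ _ fun q hq => mem_filter.2 ⟨mem_univ _, Fin.ext ?_⟩
        obtain rfl | rfl := mem_insert.1 hq |>.imp_right mem_singleton.1 <;>
          simp only [sd, φ, Fin.val_succ, Fin.val_castSucc] <;> split_ifs <;> omega
      · refine .inr ?_
        rw [push, ContinuousMap.prod_apply]
        refine prod_eq_zero (mem_filter.2 ⟨mem_univ _, Fin.ext ?_⟩) h2
        have := mem_range.1 hi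
        simp only [sd, φ, Fin.val_succ, Fin.val_castSucc, Fin.val_last]
        split_ifs <;> omega
    rw [z0 _ this, z0 _ (this.imp (.imp fun p e => by rw [sm, e, mul_zero]) fun e => by
      rw [sm, ContinuousMap.mul_apply, e, mul_zero])]
  · have := congrArg (ev · (dl u) (cu u z)) (e (push φ F))
    simp only [ev_D, (ev_lin _ _).map_sub, (ev_lin _ _).map_zero, mul_sub, sum_sub_distrib,
      sub_eq_zero, ev_pu, io_ap, push_prod, sdl] at this
    rw [sum_range_succ _ (k + 1), sum_range_succ _ (k + 1), prod_eq_zero (mem_univ (Fin.last k)) (by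
      rw [show sd (k + 1) (k + 1) (φ (Fin.last k)) = Fin.last _ from Fin.ext (by simp [sd, φ]), cu,
        update_self, h2]), zero_mul, mul_zero, add_zero] at this
    refine Eq.trans (congrArg₂ (· + ·) (sum_congr rfl fun i hi => congrArg _ ?_) (congrArg _ ?_))
      (this.symm.trans (sum_congr rfl fun i hi => congrArg _ ?_))
    · rw [hh]
      refine congrArg _ (funext fun p => ?_)
      have := mem_range.1 hi
      simp only [cu, update_apply, comp_apply, Fin.ext_iff, Fin.val_last, sd]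
      split_ifs <;> first | rfl | omega | skip
      all_goals
        refine congrArg z (Fin.ext ?_)
        simp only [Sy.sg, cz]
        split_ifs <;> omega
    · rw [hh]
      refine congrArg _ (funext fun p => ?_)
      by_cases e : (p : ℕ) ≤ k
      · rw [cu, cu, update_of_ne (Fin.ne_of_val_ne (by simp; omega)), update_of_ne
          (Fin.ne_of_val_ne (by simp only [cz, Fin.val_last]; split_ifs <;> omega)), update_of_ne
          (Fin.ne_of_val_ne (by simp only [sd, Fin.val_last]; split_ifs <;> omega))]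
        refine congrArg z (Fin.ext ?_)
        simp only [Sy.sg, cz, sd]
        split_ifs <;> omega
      · rw [show sd (k + 1) (k + 1) p = Fin.last _ from Fin.ext (by
          simp only [sd, Fin.val_last]; split_ifs <;> omega), cu, cu, update_self, update_apply]
        split_ifs with e'
        · rfl
        · rw [show cz (k + 1) p = Fin.last _ from Fin.ext (by
            have : (p : ℕ) ≠ k + 2 := fun h => e' (Fin.ext h)
            simp only [cz, Fin.val_last]; split_ifs <;> omega), update_self]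
    · have := mem_range.1 hi
      rw [dl_ap, cu, update_self, if_pos rfl, mul_one]
      refine prod_congr rfl fun s _ => congrArg _ ((update_of_ne (Fin.ne_of_val_ne ?_) _ _).trans
        (congrArg z (Fin.ext ?_))) <;>
      simp only [Sy.sg, cz, sd, φ, Fin.val_succ, Fin.val_castSucc, Fin.val_last] <;>
      split_ifs <;> omega

theorem noRes2 [T2Space Ω] [ExtremallyDisconnected Ω] (u : Ω) [(𝓝[≠] u).NeBot]
    (U : ℕ → BMod C(Ω, ℂ)) (d : ∀ j, (U (j + 1)).X → (U j).X) (s : ∀ j, (U j).X → (U (j + 1)).X)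
    (hd : ∀ j, BMor _ _ (d j)) (hs : ∀ j, IsBoundedLinearMap ℂ (s j)) (e0 : ∀ x, d 0 (s 0 x) = x)
    (e1 : ∀ j x, d j x = 0 → d (j + 1) (s (j + 1) x) = x)
    (R : ∀ j, ((U j).X → (XX Ω j).X) → Prop) (r1 : ∀ j ψ, R j ψ → BMor _ _ ψ)
    (r2 : ∀ j ψ, R j ψ → ∃ ψ', R (j + 1) ψ' ∧ ∀ x, DH j (ψ' x) = ψ (d j x))
    (ψ0 : (U 0).X → (XX Ω 0).X) (r0 : R 0 ψ0) (φ0 : (Fin 1 → C(Ω, ℂ)) → (U 0).X) (f0 : Gd _ φ0)
    (f1 : ∀ a, ψ0 (φ0 a) = pu u (io 0 a)) (hk : 1 ≤ k) (hz : ∀ x : (U (k + 1)).X, x = 0) :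
    False := by
  have : Nonempty Ω := ⟨u⟩
  let ι : ∀ j, (Fin (j + 1) → C(Ω, ℂ)) → (XX Ω j).X := fun j a => pu u (io j a)
  have i1 : ∀ j, Gd _ (ι j) := fun j => io_gd.mor (pu_mor u)
  have i2 : ∀ j a, DH j (ι (j + 1) a) = bb (ι j) a := fun j a =>
    (congrArg (pu u) (D_io a)).trans (lin_sum (pu_mor u).1.toIsLinearMap _ _ _)
  have mb : ∀ {U V : BMod C(Ω, ℂ)} {φ : U.X → V.X} (_ : BMor U V φ) {n}
      (F : (Fin (n + 1) → C(Ω, ℂ)) → U.X) a, φ (bb F a) = bb (fun a => φ (F a)) a :=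
    fun h _ _ _ => lin_sum h.1.toIsLinearMap _ _ _
  have key : ∀ j, ∃ (ψ : (U j).X → (XX Ω j).X) (φ : (Fin (j + 1) → C(Ω, ℂ)) → (U j).X)
      (η : (Fin (j + 1) → C(Ω, ℂ)) → (XX Ω (j + 1)).X), R j ψ ∧ Gd _ φ ∧ Gd _ η ∧
      (∀ a, DH j (ι (j + 1) a - bb η a) = ψ (bb φ a)) ∧ (∀ a, d j (s j (bb φ a)) = bb φ a) :=
    fun j => by
    induction j with
    | zero =>
      refine ⟨ψ0, φ0, fun a => SH 0 (ι 0 a) - SH 0 (ι 0 a), r0, f0, ?_, fun a => ?_, fun _ => e0 _⟩
      · simp only [sub_self]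
        exact ⟨fun _ _ => ⟨fun _ _ => by simp, fun _ _ => by simp⟩, ⟨0, le_rfl, by simp⟩,
          fun c _ => (l_lin _ c).map_zero.symm, fun c _ => (r_lin _ c).map_zero.symm⟩
      · rw [mb (r1 _ _ r0)]
        simp only [sub_self, bb, smul_zero, sum_const_zero, sub_zero, i2, f1]
        rfl
    | succ j ih =>
      obtain ⟨ψ, φ, η, a1, a2, a3, a4, a5⟩ := ih
      obtain ⟨ψ', b1, b2⟩ := r2 j ψ a1
      have b3 := a2.bb.lam (hs j)
      have b4 := lam_eq a2.bb (hd j) a5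
      have b5 := ((i1 _).sub a3.bb).sub (b3.mor (r1 _ _ b1))
      have b6 := lam_eq (s := SH (j + 1)) b5 DH_mor fun a => DHS _ (by
        rw [DH_mor.1.toIsLinearMap.map_sub, a4, b2, b4, sub_self])
      refine ⟨ψ', _, _, b1, b3, b5.lam (s := SH (j + 1)) (pc_lin _ _), fun a => ?_, fun a => e1 _ _ ?_⟩
      · rw [DH_mor.1.toIsLinearMap.map_sub, i2, mb DH_mor, mb (r1 _ _ b1)]
        simp only [b6, bb_sub, bb_bb]
        abel
      · rw [mb (hd j)]
        simp only [b4, bb_bb]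
  obtain ⟨ψ, φ, η, a1, -, a3, a4, -⟩ := key (k + 1)
  exact fin2 u hk a3 fun a => by
    rw [← (r1 _ _ a1).1.toIsLinearMap.map_zero, ← hz (bb φ a)]
    exact a4 a

noncomputable def pt (u : Ω) : LMod C(Ω, ℂ) where
  X := ℂ
  cpl := inferInstance
  act a x := a u * x
  bil := ((ContinuousLinearMap.mul ℂ ℂ).comp (ContinuousMap.evalCLM ℂ u)).isBoundedBilinearMap
  act_mul a b x := mul_assoc (a u) (b u) x

lemma pt_irr (u : Ω) : Irr (pt u) :=
  ⟨⟨1, (1 : ℂ), (mul_one (1 : ℂ)).trans_ne (one_ne_zero (α := ℂ))⟩, fun N _ =>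
    eq_bot_or_eq_top (α := Submodule ℂ ℂ) N⟩

lemma f1 (u : Ω) (a : Fin 1 → C(Ω, ℂ)) (m : XS Ω 0) (z : SP Ω 0) :
    pr (ev (io 0 a) m (fun _ => u) • dl u) z = ev (io 0 a) (pv u m • dl u) z := by
  classical
  rw [io_ap, io_ap, map_smul, map_smul, BoundedContinuousFunction.smul_apply,
    BoundedContinuousFunction.smul_apply, dl_ap, dl_ap, Fin.prod_univ_one, Fin.prod_univ_one]
  change (a 0 u * pv u m) * (if z 0 = u then 1 else 0) =
    a 0 (z 0) * (pv u m * if z 0 = u then 1 else 0)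
  split_ifs with e <;> simp [*]

theorem ds_inf [T2Space Ω] [ExtremallyDisconnected Ω] (u : Ω) [(𝓝[≠] u).NeBot] (n : ℕ) :
    ¬HasRes (pt u) n := by
  rintro ⟨P, d, e, ⟨c1, c2, c3, c4⟩, ⟨s, u', s1, s2, s3, s4, s5⟩, hp, hz⟩
  let P' : ℕ → LMod C(Ω, ℂ) := cns (pt u) P
  let d' : ∀ j, (P' (j + 1)).X → (P' j).X := fun j => Nat.casesOn j e d
  let s' : ∀ j : ℕ, (P' j).X → (P' (j + 1)).X := fun j => Nat.casesOn j u' s
  have md : ∀ j, IsMor _ _ (d' j) := fun j => Nat.casesOn j c1 c2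
  have ms : ∀ j : ℕ, IsBoundedLinearMap ℂ (s' j) := fun j => by
    cases j
    exacts [s2, s1 _]
  have dd : ∀ j x, d' j (d' (j + 1) x) = 0 := fun j => Nat.casesOn j c3 c4
  have ex : ∀ j x, d' (j + 1) (s' (j + 1) x) + s' j (d' j x) = x := fun j => Nat.casesOn j s4 s5
  refine noRes2 u (fun j => Hom (BL Ω 0) (P' j))
    (fun j => pc _ (md j).1.toContinuousLinearMap) (fun j => pc _ (ms j).toContinuousLinearMap)
    (fun j => pc_mor _ _ (md j).2) (fun j => pc_lin _ _)
    (fun T => ContinuousLinearMap.ext fun m => s3 _)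
    (fun j T h => ContinuousLinearMap.ext fun m => ?_)
    (fun j ψ => ∃ (ψ1 : (P' j).X → (BL Ω j).X) (h : IsMor _ _ ψ1),
      ψ = pc _ h.1.toContinuousLinearMap ∧ ∀ p, DX j (SX j (ψ1 (d' j p))) = ψ1 (d' j p))
    (fun j ψ ⟨ψ1, h, e, _⟩ => e ▸ pc_mor _ _ h.2) (fun j ψ ⟨ψ1, h, e, f⟩ => ?_) _
    ⟨fun x : ℂ => x • dl u, ⟨(ContinuousLinearMap.toSpanSingleton ℂ (dl u)).isBoundedLinearMap,
      dl_act u⟩, rfl, fun _ => DS0 _⟩ _ (io_gd.mor (pc_mor (BL Ω 0) (Y := BL Ω 0) (Z := pt u)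
        (pv u) fun _ _ => rfl)) (fun a => ext2 fun m z => f1 u a m z)
    (k := n + 1) (by omega) fun T => ContinuousLinearMap.ext fun m => hz _ (by omega) _
  · have := ex j ((show (BL Ω 0).X →L[ℂ] (P' (j + 1)).X from T) m)
    rw [show d' j ((show (BL Ω 0).X →L[ℂ] (P' (j + 1)).X from T) m) = 0 from
      congrArg (fun T : (BL Ω 0).X →L[ℂ] (P' j).X => T m) h, (ms j).toIsLinearMap.map_zero,
      add_zero] at this
    exact this
  · obtain ⟨ρ, r1, r2⟩ := (hp j).lift (Y := BL Ω (j + 1)) (Z := BL Ω j) (ψ := fun p => ψ1 (d' j p))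
      ⟨h.1.comp (md j).1, fun a x => (congrArg ψ1 ((md j).2 a x)).trans (h.2 _ _)⟩
      ⟨(DX j).isBoundedLinearMap, DX_act⟩ (SX j).isBoundedLinearMap f
    refine ⟨_, ⟨ρ, r1, rfl, fun p => DS _ ((r2 _).trans ?_)⟩, fun T => ?_⟩
    · exact (congrArg ψ1 (dd j p)).trans h.1.toIsLinearMap.map_zero
    · rw [e]
      exact ContinuousLinearMap.ext fun m => r2 _


end Pool.Agent.H90.Ub
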