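import Mathlib

set_option autoImplicit false

namespace Pool.Agent.H90.UniqDefs

/-- Points having at most one nearest point in `G`. -/
def UniqSet {E : Type*} [NormedAddCommGroup E] (G : Set E) : Set E :=
  {x | ∀ g₁ ∈ G, ∀ g₂ ∈ G, ‖x - g₁‖ = Metric.infDist x G → ‖x - g₂‖ = Metric.infDist x G → g₁ = g₂}

/-- Strict convexity of the norm. -/
def StrConv (𝕜 E : Type*) [RCLike 𝕜] [NormedAddCommGroup E] [NormedSpace 𝕜 E] : Prop :=
  ∀ x y : E, ‖x‖ = 1 → ‖y‖ = 1 → x ≠ y → ‖(1 / 2 : 𝕜) • (x + y)‖ < 1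

end Pool.Agent.H90.UniqDefs
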