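import Pool.Agent.H90.AseSpace
import Pool.Agent.H90.UniqDefs

set_option autoImplicit false

namespace Pool.Agent.H90.UniqProof

open Set Metric Filter Topology Pool.Agent.H90.AseLocal Pool.Agent.H90.AseSpace
  Pool.Agent.H90.UniqDefs
open scoped ENNReal

variable {𝕜 : Type} [RCLike 𝕜]

lemma space_of_convex {Z : Type} [NormedAddCommGroup Z] [NormedSpace 𝕜 Z] [NormedSpace ℝ Z]
    [IsScalarTower ℝ 𝕜 Z] [CompleteSpace Z] {B : Set Z} (hc : Convex ℝ B) (hcl : IsClosed B)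
    (hb : ∀ z ∈ B, ∀ l : 𝕜, ‖l‖ = 1 → l • z ∈ B) (h1 : ∀ z, ‖z‖ ≤ 1 / 2 → z ∈ B)
    (h2 : ∀ z ∈ B, ‖z‖ ≤ 3) :
    ∃ (X : Type) (_ : NormedAddCommGroup X) (_ : NormedSpace 𝕜 X) (_ : CompleteSpace X)
      (E : Z ≃L[𝕜] X), ∀ z, ‖E z‖ ≤ 1 ↔ z ∈ B := by
  let F := {f : StrongDual 𝕜 Z // ∀ z ∈ B, ‖f z‖ ≤ 1}
  obtain ⟨X, i1, i2, i3, E, e1, e2⟩ := exists_renorm (fun f : F => f.1) (fun f z => by
    have : ‖f.1‖ ≤ 2 := ContinuousLinearMap.opNorm_le_of_unit_norm zero_le_two fun v hv => by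
      have := f.2 _ (h1 ((1 / 2 : 𝕜) • v) (by simp [norm_smul, hv]))
      rw [map_smul, norm_smul] at this
      norm_num at this
      linarith
    exact f.1.le_of_opNorm_le this z) (fun z M _ h => by
    obtain ⟨g, g1, g2⟩ := exists_dual_vector'' 𝕜 z
    have := h ⟨(1 / 3 : 𝕜) • g, fun v hv => by
      have a3 := h2 v hv
      have a4 := g.le_opNorm v
      rw [smul_apply, norm_smul]
      norm_num
      nlinarith [norm_nonneg v]⟩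
    simp only [smul_apply, norm_smul, g2] at this
    norm_num at this
    linarith)
  refine ⟨X, i1, i2, i3, E, fun z => ⟨fun hz => ?_,
    fun hz => e2 z 1 zero_le_one fun f => f.2 z hz⟩⟩
  by_contra hn
  obtain ⟨f, u, f1, f2⟩ := RCLike.geometric_hahn_banach_closed_point (𝕜 := 𝕜) hc hcl hn
  have u0 : 0 < u := by simpa using f1 0 (h1 0 (by simp))
  have hs : ‖((u⁻¹ : ℝ) : 𝕜)‖ = u⁻¹ := by rw [RCLike.norm_ofReal, abs_of_pos (by positivity)]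
  have := (e1 ⟨((u⁻¹ : ℝ) : 𝕜) • f, fun v hv => by
    obtain ⟨l, l1, l2⟩ := exists_rot (f v)
    have := f1 _ (hb v hv l l1)
    rw [map_smul, smul_eq_mul, l2, RCLike.ofReal_re] at this
    rw [smul_apply, norm_smul, hs, inv_mul_le_iff₀ u0]
    linarith⟩ z).trans hz
  simp only [smul_apply, norm_smul, hs] at this
  rw [inv_mul_le_iff₀ u0] at this
  linarith [RCLike.re_le_norm (f z)]

section abstract

variable {E H : Type} [NormedAddCommGroup E] [NormedSpace 𝕜 E] [NormedAddCommGroup H]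
  [NormedSpace 𝕜 H]

lemma rot_gen {p : E →L[𝕜] H} (hR : ∀ u v : E, ‖u‖ ≤ 1 → ‖v‖ ≤ 1 → 2 ≤ ‖u + v‖ → p v ≠ 0 → u = v)
    {u v : E} (hu : ‖u‖ ≤ 1) (hv : ‖v‖ ≤ 1) {a b : ℝ} (ha : 0 < a) (hb : 0 < b)
    (h : a + b ≤ ‖((a : ℝ) : 𝕜) • u + ((b : ℝ) : 𝕜) • v‖) (hp : p v ≠ 0) : u = v := by
  obtain ⟨f, f1, f2⟩ := exists_dual_vector'' 𝕜 (((a : ℝ) : 𝕜) • u + ((b : ℝ) : 𝕜) • v)
  have a1 := (RCLike.re_le_norm _).trans ((f.unit_le_opNorm u hu).trans f1)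
  have a2 := (RCLike.re_le_norm _).trans ((f.unit_le_opNorm v hv).trans f1)
  have a3 := congrArg RCLike.re f2
  simp only [map_add, map_smul, smul_eq_mul, RCLike.re_ofReal_mul, RCLike.ofReal_re] at a3
  have a4 := (RCLike.re_le_norm _).trans (f.le_of_opNorm_le f1 (u + v))
  rw [map_add, map_add, one_mul] at a4
  refine hR u v hu hv ?_ hp
  have b1 : 1 ≤ RCLike.re (f u) := by nlinarith
  have b2 : 1 ≤ RCLike.re (f v) := by nlinarith
  linarith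

lemma dense_uniq {p : E →L[𝕜] H}
    (hR : ∀ u v : E, ‖u‖ ≤ 1 → ‖v‖ ≤ 1 → 2 ≤ ‖u + v‖ → p v ≠ 0 → u = v) {G : Set E}
    (hG : IsCompact G) (hD : Dense (p ⁻¹' (p '' G)ᶜ)) : Dense (UniqSet G) := by
  rcases G.eq_empty_or_nonempty with rfl | hne
  · exact dense_univ.mono fun x _ => by simp [UniqSet]
  refine fun x₀ => closure_minimal (fun x hx => ?_) isClosed_closure (hD x₀)
  obtain ⟨g, hg, hd⟩ := hG.exists_infDist_eq_dist hne x
  rw [dist_eq_norm] at hd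
  have hp : p (x - g) ≠ 0 := fun h => hx ⟨g, hg, by rw [map_sub, sub_eq_zero] at h; exact h.symm⟩
  obtain ⟨v, v1, v2⟩ := unit_dir (𝕜 := 𝕜) (y := x - g) fun h => hp (by rw [h, map_zero])
  have d0 : 0 < ‖x - g‖ := norm_pos_iff.2 fun h => hp (by rw [h, map_zero])
  obtain ⟨d, hd'⟩ : ∃ d, d = ‖x - g‖ := ⟨_, rfl⟩
  rw [← hd'] at hd v2 d0
  have pv : p v ≠ 0 := fun h => hp (by rw [v2, map_smul, h, smul_zero])
  have key : ∀ s : ℝ, 0 < s → s < d → x - ((s : ℝ) : 𝕜) • v ∈ UniqSet G := fun s s0 s1 => by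
    have e1 : x - ((s : ℝ) : 𝕜) • v - g = ((d - s : ℝ) : 𝕜) • v := by
      rw [sub_right_comm, v2, RCLike.ofReal_sub, sub_smul]
    have e2 : infDist (x - ((s : ℝ) : 𝕜) • v) G ≤ d - s := by
      refine (infDist_le_dist_of_mem hg).trans ?_
      rw [dist_eq_norm, e1, norm_smul, v1, RCLike.norm_ofReal, mul_one, abs_of_pos (by linarith)]
    have e3 : ∀ g' ∈ G, ‖x - ((s : ℝ) : 𝕜) • v - g'‖ = infDist (x - ((s : ℝ) : 𝕜) • v) G →
        g' = g := fun g' h1 h2 => by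
      have c0 : ((d - s : ℝ) : 𝕜) ≠ 0 := RCLike.ofReal_ne_zero.2 (by linarith)
      have := rot_gen hR (u := ((d - s : ℝ) : 𝕜)⁻¹ • (x - ((s : ℝ) : 𝕜) • v - g')) (by
        rw [norm_smul, norm_inv, RCLike.norm_ofReal, abs_of_pos (by linarith),
          inv_mul_le_iff₀ (by linarith)]
        linarith) v1.le (a := d - s) (b := s) (by linarith) s0 (by
        rw [smul_inv_smul₀ c0, sub_right_comm, sub_add_cancel, sub_add_cancel, ← hd,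
          ← dist_eq_norm]
        exact infDist_le_dist_of_mem h1) pv
      rw [inv_smul_eq_iff₀ c0, ← e1] at this
      exact sub_right_injective this
    exact fun g₁ a1 g₂ a2 b1 b2 => (e3 g₁ a1 b1).trans (e3 g₂ a2 b2).symm
  have t1 : Tendsto (fun s : ℝ => x - ((s : ℝ) : 𝕜) • v) (𝓝[>] 0) (𝓝 x) := by
    have : ContinuousAt (fun s : ℝ => x - ((s : ℝ) : 𝕜) • v) 0 := by fun_prop
    simpa using this.tendsto.mono_left nhdsWithin_le_nhds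
  refine mem_closure_of_tendsto t1 ?_
  filter_upwards [Ioo_mem_nhdsGT d0] with s hs using key s hs.1 hs.2

omit [NormedSpace 𝕜 E] in
lemma residual_uniq {G : Set E} (hG : IsCompact G) (hD : Dense (UniqSet G)) :
    UniqSet G ∈ residual E := by
  have : CompactSpace G := isCompact_iff_compactSpace.1 hG
  let A : ℕ → Set E := fun n => Prod.fst '' {q : E × (G × G) | ‖q.1 - q.2.1‖ = infDist q.1 G ∧
    ‖q.1 - q.2.2‖ = infDist q.1 G ∧ 1 / ((n : ℝ) + 1) ≤ ‖(q.2.1 : E) - q.2.2‖}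
  have hi : Continuous fun q : E × (G × G) => infDist q.1 G :=
    (continuous_infDist_pt G).comp continuous_fst
  have j1 : Continuous fun q : E × (G × G) => ‖q.1 - q.2.1‖ := by fun_prop
  have j2 : Continuous fun q : E × (G × G) => ‖q.1 - q.2.2‖ := by fun_prop
  have j3 : Continuous fun q : E × (G × G) => ‖(q.2.1 : E) - q.2.2‖ := by fun_prop
  have hA : ∀ n, IsClosed (A n) := fun n => isClosedMap_fst_of_compactSpace _
    ((isClosed_eq j1 hi).inter ((isClosed_eq j2 hi).inter (isClosed_le continuous_const j3)))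
  refine mem_of_superset ((countable_iInter_mem (s := fun n => (A n)ᶜ)).2 fun n =>
    residual_of_dense_open (hA n).isOpen_compl (hD.mono ?_)) fun x hx g₁ a1 g₂ a2 b1 b2 => ?_
  · rintro x hx ⟨⟨y, g₁, g₂⟩, ⟨c1, c2, c3⟩, rfl⟩
    rw [hx _ g₁.2 _ g₂.2 c1 c2, sub_self, norm_zero] at c3
    exact absurd c3 (not_le.2 (by positivity))
  · by_contra hn
    obtain ⟨n, hn⟩ := exists_nat_one_div_lt (norm_pos_iff.2 (sub_ne_zero.2 hn))
    exact mem_iInter.1 hx n ⟨(x, ⟨g₁, a1⟩, ⟨g₂, a2⟩), ⟨b1, b2, hn.le⟩, rfl⟩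

end abstract

section space

variable {H : Type} [NormedAddCommGroup H] [InnerProductSpace 𝕜 H]

variable (𝕜 H) in
def BB : Set ((𝕜 × 𝕜) × H) := {z | ∀ l m : ℝ, 0 < l → l * m = 1 →
  2 * ‖z.2‖ ≤ l * (1 - ‖z.1.1‖ ^ 2) + m * (1 - ‖z.1.2‖ ^ 2)}

lemma ar_small {t a b : ℝ} (b1 : b ≤ 1) (h : ∀ l m : ℝ, 0 < l → l * m = 1 → t ≤ l * a + m * b)
    (t0 : 0 ≤ t) : 0 ≤ a ∧ (0 < t → 0 < a) := by
  have key : ∀ c, 0 < c → a ≤ 0 → t ≤ c ∧ 0 ≤ a + c ^ 2 := fun c c0 a0 => by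
    have := h c⁻¹ c (by positivity) (inv_mul_cancel₀ c0.ne')
    have e : c * (c⁻¹ * a) = a := by field_simp
    have := mul_nonpos_of_nonneg_of_nonpos (inv_pos.2 c0).le a0
    constructor <;> nlinarith
  constructor
  · by_contra hc
    push Not at hc
    have := (key (min 1 (-a / 2)) (lt_min one_pos (by linarith)) hc.le).2
    have h1 := min_le_left 1 (-a / 2)
    have h2 := min_le_right 1 (-a / 2)
    have h3 : 0 < min 1 (-a / 2) := lt_min one_pos (by linarith)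
    nlinarith
  · intro tp
    by_contra hc
    push Not at hc
    linarith [(key (t / 2) (by linarith) hc).1]

lemma BB_fst {z : (𝕜 × 𝕜) × H} (hz : z ∈ BB 𝕜 H) :
    0 ≤ 1 - ‖z.1.1‖ ^ 2 ∧ (z.2 ≠ 0 → 0 < 1 - ‖z.1.1‖ ^ 2) := by
  have := ar_small (by nlinarith [sq_nonneg ‖z.1.2‖]) hz (by positivity)
  exact ⟨this.1, fun h => this.2 (by have := norm_pos_iff.2 h; positivity)⟩

lemma BB_snd {z : (𝕜 × 𝕜) × H} (hz : z ∈ BB 𝕜 H) :
    0 ≤ 1 - ‖z.1.2‖ ^ 2 ∧ (z.2 ≠ 0 → 0 < 1 - ‖z.1.2‖ ^ 2) := by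
  have := ar_small (t := 2 * ‖z.2‖) (a := 1 - ‖z.1.2‖ ^ 2) (b := 1 - ‖z.1.1‖ ^ 2)
    (by nlinarith [sq_nonneg ‖z.1.1‖]) (fun l m l0 h => by
      have := hz m l (by nlinarith) (by linarith)
      linarith) (by positivity)
  exact ⟨this.1, fun h => this.2 (by have := norm_pos_iff.2 h; positivity)⟩

lemma mem_BB {z : (𝕜 × 𝕜) × H} (h1 : 0 ≤ 1 - ‖z.1.1‖ ^ 2) (h2 : 0 ≤ 1 - ‖z.1.2‖ ^ 2)
    (h3 : ‖z.2‖ ^ 2 ≤ (1 - ‖z.1.1‖ ^ 2) * (1 - ‖z.1.2‖ ^ 2)) : z ∈ BB 𝕜 H := fun l m l0 h => by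
  have m0 : 0 < m := by nlinarith
  refine le_of_sq_le_sq ?_ (by positivity)
  generalize 1 - ‖z.1.1‖ ^ 2 = a at *
  generalize 1 - ‖z.1.2‖ ^ 2 = b at *
  have : l * a * (m * b) = a * b := by rw [mul_mul_mul_comm, h, one_mul]
  nlinarith [sq_nonneg (l * a - m * b)]

lemma sq_conv {V : Type} [NormedAddCommGroup V] [NormedSpace ℝ V] (x y : V) {r s : ℝ}
    (hr : 0 ≤ r) (hs : 0 ≤ s) (h : r + s = 1) :
    ‖r • x + s • y‖ ≤ r * ‖x‖ + s * ‖y‖ ∧ ‖r • x + s • y‖ ^ 2 ≤ r * ‖x‖ ^ 2 + s * ‖y‖ ^ 2 := by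
  have a : ‖r • x + s • y‖ ≤ r * ‖x‖ + s * ‖y‖ := by
    have := norm_add_le (r • x) (s • y)
    rwa [norm_smul, norm_smul, Real.norm_of_nonneg hr, Real.norm_of_nonneg hs] at this
  refine ⟨a, (pow_le_pow_left₀ (norm_nonneg _) a 2).trans ?_⟩
  have : s = 1 - r := by linarith
  subst this
  nlinarith [mul_nonneg (mul_nonneg hr hs) (sq_nonneg (‖x‖ - ‖y‖))]

lemma mid_sq {V : Type} [NormedAddCommGroup V] [InnerProductSpace 𝕜 V] (x y : V) :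
    ‖(1 / 2 : 𝕜) • (x + y)‖ ^ 2 = (‖x‖ ^ 2 + ‖y‖ ^ 2) / 2 - ‖x - y‖ ^ 2 / 4 := by
  have := parallelogram_law_with_norm 𝕜 x y
  rw [norm_smul]
  norm_num
  nlinarith

lemma exists_E [CompleteSpace H] :
    ∃ (X : Type) (_ : NormedAddCommGroup X) (_ : NormedSpace 𝕜 X) (_ : CompleteSpace X)
      (E : ((𝕜 × 𝕜) × H) ≃L[𝕜] X), ∀ z, ‖E z‖ ≤ 1 ↔ z ∈ BB 𝕜 H := by
  let : NormedSpace ℝ H := NormedSpace.restrictScalars ℝ 𝕜 H
  have : IsScalarTower ℝ 𝕜 H := RestrictScalars.isScalarTower ℝ 𝕜 H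
  refine space_of_convex (fun x hx y hy r s hr hs h l m l0 hm => ?_) ?_
    (fun z hz l hl => by simpa [BB, norm_smul, hl] using hz) (fun z hz => ?_) fun z hz => ?_
  · have m0 : 0 < m := by nlinarith
    have a1 := (sq_conv x.2 y.2 hr hs h).1
    have a2 := mul_le_mul_of_nonneg_left (sq_conv x.1.1 y.1.1 hr hs h).2 l0.le
    have a3 := mul_le_mul_of_nonneg_left (sq_conv x.1.2 y.1.2 hr hs h).2 m0.le
    have a4 := mul_le_mul_of_nonneg_left (hx l m l0 hm) hr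
    have a5 := mul_le_mul_of_nonneg_left (hy l m l0 hm) hs
    simp only [Prod.fst_add, Prod.snd_add, Prod.smul_fst, Prod.smul_snd]
    have : s = 1 - r := by linarith
    subst this
    linarith
  · simp only [BB, ofPred_forall]
    exact isClosed_iInter fun l => isClosed_iInter fun m => isClosed_iInter fun _ =>
      isClosed_iInter fun _ => isClosed_le (by fun_prop) (by fun_prop)
  · have a1 := pow_le_pow_left₀ (norm_nonneg _) (((norm_fst_le _).trans (norm_fst_le z)).trans hz) 2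
    have a2 := pow_le_pow_left₀ (norm_nonneg _) (((norm_snd_le _).trans (norm_fst_le z)).trans hz) 2
    have a3 := pow_le_pow_left₀ (norm_nonneg _) ((norm_snd_le z).trans hz) 2
    exact mem_BB (by linarith) (by linarith) (by nlinarith)
  · have a1 := (BB_fst hz).1
    have a2 := (BB_snd hz).1
    have a3 := hz 1 1 one_pos (by norm_num)
    exact max_le (max_le (by nlinarith) (by nlinarith))
      (by nlinarith [sq_nonneg ‖z.1.1‖, sq_nonneg ‖z.1.2‖])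

lemma rotund {X : Type} [NormedAddCommGroup X] [NormedSpace 𝕜 X] {E : ((𝕜 × 𝕜) × H) ≃L[𝕜] X}
    (hB : ∀ z, ‖E z‖ ≤ 1 ↔ z ∈ BB 𝕜 H) {w z : (𝕜 × 𝕜) × H} (hw : w ∈ BB 𝕜 H) (hz : z ∈ BB 𝕜 H)
    (h : 2 ≤ ‖E w + E z‖) (h0 : z.2 ≠ 0) : w = z := by
  obtain ⟨c, hc⟩ : ∃ c, c = (1 / 2 : 𝕜) • (w + z) := ⟨_, rfl⟩
  have c0 : 1 ≤ ‖E c‖ := by
    rw [hc, map_smul, map_add, norm_smul]
    norm_num
    linarith
  have c1 : ‖c.1.1‖ ^ 2 = (‖w.1.1‖ ^ 2 + ‖z.1.1‖ ^ 2) / 2 - ‖w.1.1 - z.1.1‖ ^ 2 / 4 := by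
    rw [hc]; exact mid_sq (𝕜 := 𝕜) w.1.1 z.1.1
  have c2 : ‖c.1.2‖ ^ 2 = (‖w.1.2‖ ^ 2 + ‖z.1.2‖ ^ 2) / 2 - ‖w.1.2 - z.1.2‖ ^ 2 / 4 := by
    rw [hc]; exact mid_sq (𝕜 := 𝕜) w.1.2 z.1.2
  have c3 : ‖c.2‖ ^ 2 = (‖w.2‖ ^ 2 + ‖z.2‖ ^ 2) / 2 - ‖w.2 - z.2‖ ^ 2 / 4 := by
    rw [hc]; exact mid_sq (𝕜 := 𝕜) w.2 z.2
  have c4 : 2 * ‖c.2‖ ≤ ‖w.2‖ + ‖z.2‖ := by
    have : c.2 = (1 / 2 : 𝕜) • (w.2 + z.2) := by rw [hc]; rfl
    rw [this, norm_smul]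
    norm_num
    linarith [norm_add_le w.2 z.2]
  have a0 : 0 < 1 - ‖c.1.1‖ ^ 2 := by
    linarith [(BB_fst hw).1, (BB_fst hz).2 h0, sq_nonneg ‖w.1.1 - z.1.1‖]
  have b0 : 0 < 1 - ‖c.1.2‖ ^ 2 := by
    linarith [(BB_snd hw).1, (BB_snd hz).2 h0, sq_nonneg ‖w.1.2 - z.1.2‖]
  have k : (1 - ‖c.1.1‖ ^ 2) * (1 - ‖c.1.2‖ ^ 2) ≤ ‖c.2‖ ^ 2 := by
    by_contra hn
    push Not at hn
    have e : ∀ᶠ v in 𝓝 c, v ∈ BB 𝕜 H := by
      filter_upwards [ContinuousAt.eventually_lt (g := fun v : (𝕜 × 𝕜) × H => 1 - ‖v.1.1‖ ^ 2)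
          continuousAt_const (by fun_prop) a0,
        ContinuousAt.eventually_lt (g := fun v : (𝕜 × 𝕜) × H => 1 - ‖v.1.2‖ ^ 2)
          continuousAt_const (by fun_prop) b0,
        ContinuousAt.eventually_lt (f := fun v : (𝕜 × 𝕜) × H => ‖v.2‖ ^ 2)
          (g := fun v => (1 - ‖v.1.1‖ ^ 2) * (1 - ‖v.1.2‖ ^ 2)) (by fun_prop) (by fun_prop) hn]
        with v e1 e2 e3 using mem_BB e1.le e2.le e3.le
    have t1 : Tendsto (fun r : ℝ => ((r : ℝ) : 𝕜) • c) (𝓝[>] 1) (𝓝 c) := by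
      have : ContinuousAt (fun r : ℝ => ((r : ℝ) : 𝕜) • c) 1 := by fun_prop
      simpa using this.tendsto.mono_left nhdsWithin_le_nhds
    obtain ⟨r, r1, r2⟩ := ((t1.eventually e).and self_mem_nhdsWithin).exists
    have := (hB _).2 r1
    rw [map_smul, norm_smul, RCLike.norm_ofReal] at this
    have r3 : (1 : ℝ) < r := r2
    nlinarith [le_abs_self r]
  obtain ⟨q, q0, q1⟩ : ∃ q : ℝ, 0 < q ∧ q ^ 2 = (1 - ‖c.1.1‖ ^ 2) * (1 - ‖c.1.2‖ ^ 2) :=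
    ⟨√_, Real.sqrt_pos.2 (mul_pos a0 b0), Real.sq_sqrt (mul_pos a0 b0).le⟩
  have q2 : q ≤ ‖c.2‖ := le_of_sq_le_sq (q1 ▸ k) (norm_nonneg _)
  obtain ⟨l, m, l0, m0, lm, l1, m1⟩ : ∃ l m : ℝ, 0 < l ∧ 0 < m ∧ l * m = 1 ∧
      l * (1 - ‖c.1.1‖ ^ 2) = q ∧ m * (1 - ‖c.1.2‖ ^ 2) = q :=
    ⟨q / _, q / _, div_pos q0 a0, div_pos q0 b0, by
      rw [div_mul_div_comm, ← sq, q1, div_self (mul_pos a0 b0).ne'], div_mul_cancel₀ _ a0.ne',
      div_mul_cancel₀ _ b0.ne'⟩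
  have d1 := hw l m l0 lm
  have d2 := hz l m l0 lm
  have d3 := mul_nonneg l0.le (sq_nonneg ‖w.1.1 - z.1.1‖)
  have d4 := mul_nonneg m0.le (sq_nonneg ‖w.1.2 - z.1.2‖)
  rw [c1] at l1
  rw [c2] at m1
  have z0 : ∀ {V : Type} [NormedAddCommGroup V] {x y : V}, ‖x - y‖ ^ 2 ≤ 0 → x = y := fun h =>
    sub_eq_zero.1 (norm_eq_zero.1 (pow_eq_zero_iff two_ne_zero |>.1 (le_antisymm h (sq_nonneg _))))
  have e1 : w.1.1 = z.1.1 := z0 (nonpos_of_mul_nonpos_right (a := l) (by linarith) l0)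
  have e2 : w.1.2 = z.1.2 := z0 (nonpos_of_mul_nonpos_right (a := m) (by linarith) m0)
  rw [e1, e2] at d1
  rw [e1, sub_self, norm_zero] at l1
  rw [e2, sub_self, norm_zero] at m1
  have f1 : ‖w.2‖ ^ 2 ≤ q ^ 2 := pow_le_pow_left₀ (norm_nonneg _) (by linarith) 2
  have f2 : ‖z.2‖ ^ 2 ≤ q ^ 2 := pow_le_pow_left₀ (norm_nonneg _) (by linarith) 2
  exact Prod.ext (Prod.ext e1 e2) (z0 (by linarith))

lemma main [CompleteSpace H] (hH : ¬ FiniteDimensional 𝕜 H) :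
    ¬ ∀ (E : Type) [NormedAddCommGroup E] [NormedSpace 𝕜 E] [CompleteSpace E],
      (∀ G : Set E, IsCompact G → Dense (UniqSet G) ∧ ¬ IsMeagre (UniqSet G)) → StrConv 𝕜 E := by
  intro h
  obtain ⟨X, i1, i2, i3, E, hB⟩ := exists_E (𝕜 := 𝕜) (H := H)
  have mB : ∀ x, ‖x‖ ≤ 1 → E.symm x ∈ BB 𝕜 H := fun x hx => (hB _).1 (by simpa using hx)
  let p : X →L[𝕜] H := (ContinuousLinearMap.snd 𝕜 (𝕜 × 𝕜) H).comp (E.symm : X →L[𝕜] (𝕜 × 𝕜) × H)
  have po : IsOpenMap p := p.isOpenMap fun t => ⟨E (0, t), by simp [p]⟩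
  have := h X fun G hG => by
    have hD := dense_uniq (p := p) (fun u v hu hv a b => E.symm.injective
      (rotund hB (mB u hu) (mB v hv) (by simpa using a) b)) hG (Dense.preimage (by
        rw [← interior_eq_empty_iff_dense_compl, eq_empty_iff_forall_notMem]
        intro t ht
        obtain ⟨r, r0, hr⟩ := Metric.nhds_basis_closedBall.mem_iff.1 (mem_interior_iff_mem_nhds.1 ht)
        exact hH (FiniteDimensional.of_isCompact_closedBall 𝕜 r0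
          ((hG.image p.continuous).of_isClosed_subset isClosed_closedBall hr))) po)
    exact ⟨hD, not_isMeagre_of_mem_residual (residual_uniq hG hD)⟩
  let α : StrongDual 𝕜 X := (ContinuousLinearMap.fst 𝕜 𝕜 𝕜).comp
    ((ContinuousLinearMap.fst 𝕜 (𝕜 × 𝕜) H).comp (E.symm : X →L[𝕜] (𝕜 × 𝕜) × H))
  have α1 : ‖α‖ ≤ 1 := ContinuousLinearMap.opNorm_le_of_unit_norm zero_le_one fun x hx =>
    le_of_sq_le_sq (by linarith [(BB_fst (mB x hx.le)).1] : ‖(E.symm x).1.1‖ ^ 2 ≤ 1 ^ 2) zero_le_one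
  have α2 : ∀ s, 1 ≤ ‖E ((1, s), 0)‖ := fun s => by
    simpa [α] using α.le_of_opNorm_le α1 (E ((1, s), 0))
  have n : ∀ s : 𝕜, ‖s‖ = 1 → ‖E ((1, s), 0)‖ = 1 := fun s hs => le_antisymm
    ((hB _).2 (mem_BB (by simp) (by simp [hs]) (by simp))) (α2 s)
  have a := this _ _ (n 1 norm_one) (n (-1) (by simp)) fun e => by
    have := congrArg (fun z => z.1.2) (E.injective e)
    norm_num at this
  have e : (1 / 2 : 𝕜) • ((((1 : 𝕜), (1 : 𝕜)), (0 : H)) + ((1, -1), 0)) = ((1, 0), 0) := by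
    simp [one_add_one_eq_two]
  rw [← map_add, ← map_smul, e] at a
  linarith [α2 0]

end space

theorem final : ¬ ∀ (E : Type) [NormedAddCommGroup E] [NormedSpace 𝕜 E] [CompleteSpace E],
      (∀ G : Set E, IsCompact G → Dense (UniqSet G) ∧ ¬ IsMeagre (UniqSet G)) → StrConv 𝕜 E :=
  main (H := lp (fun _ : ℕ => 𝕜) 2) fun h => by
    have li : LinearIndependent 𝕜 fun n : ℕ => (lp.single 2 n (1 : 𝕜) : lp (fun _ : ℕ => 𝕜) 2) := by
      rw [linearIndependent_iff']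
      intro s g h i hi
      have := congrArg (lp.evalCLM 𝕜 (fun _ : ℕ => 𝕜) 2 i) h
      rw [map_sum, map_zero] at this
      have e : ∀ j, lp.evalCLM 𝕜 (fun _ : ℕ => 𝕜) 2 i (g j • lp.single 2 j (1 : 𝕜)) =
          if i = j then g j else 0 := fun j => by
        rw [map_smul]
        change g j • (lp.single 2 j (1 : 𝕜) : lp (fun _ : ℕ => 𝕜) 2) i = _
        rw [lp.single_apply, Pi.single_apply]
        simp
      simpa [e, hi] using this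
    exact not_finite_iff_infinite.2 inferInstance li.finite

end Pool.Agent.H90.UniqProof
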