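import Mathlib

namespace Pool.Agent.H90.Vo

open MeasureTheory

/-- Lebesgue measure on `[0, 1]` -/
noncomputable def mu : Measure ℝ := volume.restrict (Set.Icc 0 1)

/-- the Banach space `L¹[0, 1]` -/
def L1 : Type := Lp ℂ 1 mu

noncomputable instance : NormedAddCommGroup L1 := Lp.instNormedAddCommGroup

noncomputable instance : NormedSpace ℂ L1 := Lp.instNormedSpace

/-- a function representing the class `f` -/
noncomputable def fn (f : L1) : ℝ → ℂ := f.1

/-- the extension of `f` by zero outside `[0, 1]` -/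
noncomputable def ex (f : L1) : ℝ → ℂ := (Set.Icc 0 1).indicator (fn f)

theorem ex_int (f : L1) : Integrable (ex f) volume :=
  (integrable_indicator_iff measurableSet_Icc).2 (MeasureTheory.L1.integrable_coeFn f)

theorem sh_int (s : ℝ) (f : L1) : Integrable (fun t => ex f (t - s)) mu :=
  ((ex_int f).comp_sub_right s).restrict

/-- the truncated shift: `(Sh s f) t = f (t - s)` for `s ≤ t` and `0` for `t < s` -/
noncomputable def Sh (s : ℝ) (f : L1) : L1 := Integrable.toL1 (fun t => ex f (t - s)) (sh_int s f)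

/-- truncated convolution on `L¹[0, 1]`, as a Bochner integral of truncated shifts -/
noncomputable def conv (f g : L1) : L1 := ∫ s, fn g s • Sh s f ∂mu

/-- a left Banach module over the Volterra algebra -/
structure LMod : Type 1 where
  X : Type
  [grp : NormedAddCommGroup X]
  [spc : NormedSpace ℂ X]
  cpl : CompleteSpace X
  act : L1 → X → X
  bil : IsBoundedBilinearMap ℂ fun p : L1 × X => act p.1 p.2
  act_conv : ∀ a b x, act (conv a b) x = act a (act b x)

attribute [instance] LMod.grp LMod.spc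

/-- a bounded module morphism -/
def IsMor (M N : LMod) (φ : M.X → N.X) : Prop :=
  IsBoundedLinearMap ℂ φ ∧ ∀ a x, φ (M.act a x) = N.act a (φ x)

/-- every morphism onto `P` with a bounded linear right inverse has a right inverse morphism -/
def Proj (P : LMod) : Prop :=
  ∀ (Y : LMod) (φ : Y.X → P.X), IsMor Y P φ →
    (∃ s : P.X → Y.X, IsBoundedLinearMap ℂ s ∧ ∀ x, φ (s x) = x) →
    ∃ ρ : P.X → Y.X, IsMor P Y ρ ∧ ∀ x, φ (ρ x) = x

/-- `0 ← M ← P 0 ← P 1 ← ⋯` is a complex of modules -/
def IsCx (M : LMod) (P : ℕ → LMod) (d : ∀ k, (P (k + 1)).X → (P k).X) (e : (P 0).X → M.X) : Prop :=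
  IsMor (P 0) M e ∧ (∀ k, IsMor (P (k + 1)) (P k) (d k)) ∧ (∀ x, e (d 0 x) = 0) ∧
    ∀ k x, d k (d (k + 1) x) = 0

/-- the complex splits as a complex of Banach spaces (it has a bounded contracting homotopy) -/
def Splits (M : LMod) (P : ℕ → LMod) (d : ∀ k, (P (k + 1)).X → (P k).X) (e : (P 0).X → M.X) :
    Prop :=
  ∃ (s : ∀ k, (P k).X → (P (k + 1)).X) (u : M.X → (P 0).X), (∀ k, IsBoundedLinearMap ℂ (s k)) ∧
    IsBoundedLinearMap ℂ u ∧ (∀ z, e (u z) = z) ∧ (∀ x, d 0 (s 0 x) + u (e x) = x) ∧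
    ∀ k x, d (k + 1) (s (k + 1) x) + s k (d k x) = x

/-- `M` has a projective resolution with `P k = 0` for all `k > n` -/
def HasRes (M : LMod) (n : ℕ) : Prop :=
  ∃ (P : ℕ → LMod) (d : ∀ k, (P (k + 1)).X → (P k).X) (e : (P 0).X → M.X),
    IsCx M P d e ∧ Splits M P d e ∧ (∀ k, Proj (P k)) ∧ ∀ k, n < k → ∀ x : (P k).X, x = 0

theorem zero_bil : IsBoundedBilinearMap ℂ fun _ : L1 × ℂ => (0 : ℂ) :=
  ⟨by simp, by simp, by simp, by simp, 1, one_pos, fun _ _ => by simp; positivity⟩

/-- the one-dimensional module with zero action -/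
noncomputable def zeroMod : LMod where
  X := ℂ
  cpl := Complex.instCompleteSpace
  act := fun _ _ => 0
  bil := zero_bil
  act_conv := fun _ _ _ => rfl

end Pool.Agent.H90.Vo
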