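import Mathlib
import Pool.Agent.H90.VoDefs

namespace Pool.Agent.H90.Vo

open Filter Topology MeasureTheory Set

instance : CompleteSpace L1 := inferInstanceAs (CompleteSpace (Lp ℂ 1 mu))
instance : IsFiniteMeasure mu := ⟨by simp [mu]⟩

lemma fn_int (f : L1) : Integrable (fn f) mu := MeasureTheory.L1.integrable_coeFn f
lemma fn_ext {f g : L1} (h : fn f =ᵐ[mu] fn g) : f = g := Lp.ext h
lemma fn_add (f g : L1) : fn (f + g) =ᵐ[mu] fn f + fn g := Lp.coeFn_add f g
lemma fn_smul (c : ℂ) (f : L1) : fn (c • f) =ᵐ[mu] c • fn f := Lp.coeFn_smul c f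
lemma fn_norm (f : L1) : ‖f‖ = ∫ t, ‖fn f t‖ ∂mu := MeasureTheory.L1.norm_eq_integral_norm f
lemma fn_sh (s : ℝ) (f : L1) : fn (Sh s f) =ᵐ[mu] fun t => ex f (t - s) := (sh_int s f).coeFn_toL1
lemma mu_mem : ∀ᵐ t ∂mu, t ∈ Icc (0 : ℝ) 1 := ae_restrict_mem measurableSet_Icc

lemma ex_ae {f : L1} {g : ℝ → ℂ} (h : fn f =ᵐ[mu] g) : ex f =ᵐ[volume] (Icc 0 1).indicator g :=
  (ae_eq_restrict_iff_indicator_ae_eq measurableSet_Icc).1 h

lemma ae_sh {p : ℝ → Prop} (h : ∀ᵐ t, p t) (s : ℝ) : ∀ᵐ t ∂mu, p (t - s) :=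
  ae_restrict_of_ae ((measurePreserving_sub_right volume s).quasiMeasurePreserving.ae h)

lemma sh_le (s : ℝ) (f : L1) : ‖Sh s f‖ ≤ 1 * ‖f‖ := by
  rw [fn_norm, fn_norm, one_mul, integral_congr_ae (g := fun t => ‖ex f (t - s)‖)
    ((fn_sh s f).mono fun t h => by simp only [h]), mu,
    ← integral_indicator (f := fun t => ‖fn f t‖) measurableSet_Icc]
  refine (setIntegral_le_integral ((ex_int f).comp_sub_right s).norm
    (.of_forall fun _ => norm_nonneg _)).trans (le_of_eq ?_)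
  rw [integral_sub_right_eq_self (fun t => ‖ex f t‖) s]
  simp only [ex, norm_indicator_eq_indicator_norm]

noncomputable def ShL (s : ℝ) : L1 →L[ℂ] L1 :=
  LinearMap.mkContinuous
    { toFun := Sh s
      map_add' := fun f g => fn_ext (by
        filter_upwards [fn_sh s (f + g), fn_add (Sh s f) (Sh s g), fn_sh s f, fn_sh s g,
          ae_sh (ex_ae (fn_add f g)) s] with t h1 h2 h3 h4 h5
        rw [h1, h2, Pi.add_apply, h3, h4, h5, indicator_add']; rfl)
      map_smul' := fun c f => fn_ext (by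
        filter_upwards [fn_sh s (c • f), fn_smul c (Sh s f), fn_sh s f,
          ae_sh (ex_ae (fn_smul c f)) s] with t h1 h2 h3 h5
        rw [h1, RingHom.id_apply, h2, Pi.smul_apply, h3, h5]
        exact indicator_const_smul_apply _ c _ _) } 1 (sh_le s)

variable {Z Z' : Type} [NormedAddCommGroup Z] [NormedSpace ℂ Z] [NormedAddCommGroup Z']
  [NormedSpace ℂ Z']

structure SG (τ : ℝ → Z →L[ℂ] Z) : Prop where
  cont : ∀ z, Continuous fun t => τ t z
  bd : ∀ t z, ‖τ t z‖ ≤ ‖z‖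
  add : ∀ s t z, 0 ≤ s → 0 ≤ t → τ s (τ t z) = τ (s + t) z
  zero : ∀ z, τ 0 z = z
  one : ∀ t z, 1 ≤ t → τ t z = 0

lemma ex_out (f : L1) {t : ℝ} (h : t ∉ Icc (0 : ℝ) 1) : ex f t = 0 := indicator_of_notMem h _

lemma sg_sh : SG ShL := by
  refine ⟨fun f => ?_, fun t z => (sh_le t z).trans_eq (one_mul _), fun s t f hs ht => fn_ext ?_,
    fun f => fn_ext ?_, fun t f ht => fn_ext ?_⟩
  · have := (LpToLpRestrictCLM ℝ ℂ ℂ volume 1 (Icc 0 1)).continuous.comp
      (Continuous.compMeasurePreservingLp (f := fun _ => (ex_int f).toL1) continuous_const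
      (g := fun x : ℝ => (⟨fun p : ℝ × ℝ => p.2 - p.1, by fun_prop⟩ : C(ℝ × ℝ, ℝ)).curry x)
      (ContinuousMap.continuous _) (fun x => measurePreserving_sub_right volume x) (by simp))
    refine this.congr fun s => Lp.ext ((LpToLpRestrictCLM_coeFn ℂ _ _).trans
      (EventuallyEq.trans (ae_restrict_of_ae (Lp.coeFn_compMeasurePreserving _ _))
        (EventuallyEq.trans (ae_sh (ex_int f).coeFn_toL1 s) (fn_sh s f).symm)))
  · filter_upwards [fn_sh s (Sh t f), fn_sh (s + t) f, ae_sh (ex_ae (fn_sh t f)) s, mu_mem]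
      with x h1 h2 h3 h4
    refine h1.trans (h3.trans (Eq.trans ?_ h2.symm))
    rw [← sub_sub]
    exact indicator_apply_eq_self.2 fun h => ex_out f fun h' =>
      h ⟨by linarith [h'.1], by linarith [h4.2]⟩
  · filter_upwards [fn_sh 0 f, mu_mem] with x h1 h2
    exact h1.trans (by rw [sub_zero, ex, indicator_of_mem h2])
  · filter_upwards [fn_sh t f, mu_mem, Lp.coeFn_zero ℂ 1 mu,
      ae_restrict_of_ae (s := Icc 0 1) (Measure.ae_ne volume (1 : ℝ))] with x h1 h2 h3 h4
    refine h1.trans (Eq.trans (ex_out f fun h => ?_) h3.symm)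
    exact h4 (le_antisymm h2.2 (by linarith [h.1]))

namespace SG
variable {τ : ℝ → Z →L[ℂ] Z} {τ' : ℝ → Z' →L[ℂ] Z'} (h : SG τ) (h' : SG τ')
include h

lemma int (a : L1) (z : Z) : Integrable (fun t => fn a t • τ t z) mu :=
  ((fn_int a).norm.mul_const ‖z‖).mono' ((fn_int a).1.smul (h.cont z).aestronglyMeasurable)
    (.of_forall fun x => by
      rw [norm_smul]; exact mul_le_mul_of_nonneg_left (h.bd x z) (norm_nonneg _))

lemma le (a : L1) (z : Z) : ‖∫ t, fn a t • τ t z ∂mu‖ ≤ 1 * ‖a‖ * ‖z‖ := by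
  rw [one_mul, fn_norm, ← integral_mul_const]
  exact norm_integral_le_of_norm_le ((fn_int a).norm.mul_const ‖z‖) (.of_forall fun x => by
    rw [norm_smul]; exact mul_le_mul_of_nonneg_left (h.bd x z) (norm_nonneg _))

noncomputable def J : L1 →L[ℂ] Z →L[ℂ] Z :=
  LinearMap.mkContinuous₂ (LinearMap.mk₂ ℂ (fun a z => ∫ t, fn a t • τ t z ∂mu)
    (fun f f' g => by
      refine Eq.trans (integral_congr_ae ?_) (integral_add (h.int f g) (h.int f' g))
      filter_upwards [fn_add f f'] with a ha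
      rw [ha, Pi.add_apply, add_smul])
    (fun c f g => by
      refine Eq.trans (integral_congr_ae ?_) (integral_smul c _)
      filter_upwards [fn_smul c f] with a ha
      rw [ha, Pi.smul_apply, smul_assoc])
    (fun f g g' => by
      refine Eq.trans ?_ (integral_add (h.int f g) (h.int f g'))
      simp only [map_add, smul_add])
    fun c f g => by
      refine Eq.trans ?_ (integral_smul c _)
      simp only [map_smul, smul_comm c]) 1 h.le

lemma J_eq (a : L1) (z : Z) : h.J a z = ∫ t, fn a t • τ t z ∂mu := rfl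

lemma J_le (a : L1) (z : Z) : ‖h.J a z‖ ≤ ‖a‖ * ‖z‖ := (h.le a z).trans_eq (by rw [one_mul])

lemma J_ex (a : L1) (z : Z) : h.J a z = ∫ t, ex a t • τ t z := by
  rw [J_eq, mu, ← integral_indicator measurableSet_Icc]
  exact integral_congr_ae (.of_forall fun t => by
    by_cases h : t ∈ Icc (0 : ℝ) 1 <;> simp [ex, h])

variable [CompleteSpace Z] [CompleteSpace Z']

lemma J_comm (R : Z →L[ℂ] Z') (hR : ∀ t z, 0 ≤ t → R (τ t z) = τ' t (R z)) (a : L1) (z : Z) :
    R (h.J a z) = h'.J a (R z) := by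
  rw [J_eq, J_eq, ← R.integral_comp_comm (h.int a z)]
  exact integral_congr_ae (mu_mem.mono fun t ht => by simp [hR t z ht.1])

lemma J_tau {s : ℝ} (hs : 0 ≤ s) (a : L1) (z : Z) : τ s (h.J a z) = h.J a (τ s z) :=
  h.J_comm h _ (fun t z ht => by rw [h.add _ _ _ hs ht, h.add _ _ _ ht hs, add_comm]) a z

lemma J_sh {s : ℝ} (hs : 0 ≤ s) (a : L1) (z : Z) : h.J (ShL s a) z = τ s (h.J a z) := by
  rw [h.J_tau hs, J_ex, J_ex, ← integral_sub_right_eq_self (fun t => ex a t • τ t (τ s z)) s]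
  refine integral_congr_ae ((ex_ae (fn_sh s a)).mono fun t ht => ?_)
  show ex (Sh s a) t • _ = ex a (t - s) • τ (t - s) (τ s z)
  rw [ht]
  by_cases h1 : t - s ∈ Icc (0 : ℝ) 1
  · rw [h.add _ _ _ h1.1 hs, sub_add_cancel]
    by_cases h2 : t ≤ 1
    · rw [indicator_of_mem (mem_Icc.2 ⟨by linarith [h1.1], h2⟩)]
    · rw [h.one t z (not_le.1 h2).le, smul_zero, smul_zero]
  · simp [ex_out a h1, indicator_apply]

lemma J_J (a b : L1) (z : Z) : h.J a (h.J b z) = h.J b (h.J a z) :=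
  h.J_comm h _ (fun _ z ht => (h.J_tau ht a z).symm) b z

lemma J_conv (a b : L1) (z : Z) : h.J (conv a b) z = h.J a (h.J b z) := by
  rw [h.J_J, show conv a b = sg_sh.J b a from rfl]
  exact sg_sh.J_comm h (h.J.flip z) (fun t a ht => h.J_sh ht a z) b a

end SG

lemma conv_assoc (a b c : L1) : conv (conv a b) c = conv a (conv b c) :=
  (sg_sh.J_J c b a).trans (sg_sh.J_conv b c a).symm

lemma approx : ∃ e : ℕ → L1, (∀ m, ‖e m‖ ≤ 1) ∧ ∀ {Z : Type} [NormedAddCommGroup Z]
    [NormedSpace ℂ Z] [CompleteSpace Z] {τ : ℝ → Z →L[ℂ] Z} (h : SG τ) z,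
    Tendsto (fun m => h.J (e m) z) atTop (𝓝 z) := by
  have h0 : ∀ m : ℕ, mu.real (Icc 0 (1 / (m + 1))) = 1 / (m + 1) := fun m => by
    rw [mu, measureReal_restrict_apply measurableSet_Icc, inter_eq_left.2 (Icc_subset_Icc_right
      (by rw [div_le_one (by positivity)]; simp)), Real.volume_real_Icc_of_le (by positivity),
      sub_zero]
  let e : ℕ → L1 := fun m => indicatorConstLp (μ := mu) (s := Icc (0 : ℝ) (1 / (m + 1))) 1
    measurableSet_Icc (measure_ne_top mu _) (m + 1 : ℂ)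
  have e1 : ∀ m, ‖e m‖ ≤ 1 := fun m => by
    refine (norm_indicatorConstLp (by simp) (by simp)).trans_le ?_
    rw [h0, show ((m : ℂ) + 1) = ((m + 1 : ℕ) : ℂ) by simp, Complex.norm_natCast]
    simp only [ENNReal.toReal_one, div_one, Real.rpow_one]
    rw [Nat.cast_succ, mul_one_div_cancel (by positivity)]
  have e2 : ∀ m, ∫ t, fn (e m) t ∂mu = 1 := fun m => by
    refine (integral_indicatorConstLp _ _ _).trans ?_
    rw [h0, Complex.real_smul]; push_cast
    exact one_div_mul_cancel (by exact_mod_cast m.succ_ne_zero)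
  refine ⟨e, e1, fun {Z} _ _ _ τ h z => Metric.tendsto_nhds.2 fun ε hε => ?_⟩
  obtain ⟨δ, h1, h2⟩ := Metric.continuous_iff.1 (h.cont z) 0 (ε / 2) (by positivity)
  filter_upwards [(tendsto_order.1 tendsto_one_div_add_atTop_nhds_zero_nat).2 δ h1] with m hm
  have hi := fn_int (e m)
  have h3 : h.J (e m) z - z = ∫ x, fn (e m) x • τ x z - fn (e m) x • z ∂mu := by
    rw [integral_sub (h.int _ _) (hi.smul_const z), integral_smul_const, e2, one_smul, h.J_eq]
  rw [dist_eq_norm, h3]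
  refine (norm_integral_le_of_norm_le (hi.norm.mul_const (ε / 2)) ?_).trans_lt ?_
  · filter_upwards [indicatorConstLp_coeFn_notMem (p := 1) (μ := mu) (s := Icc 0 (1 / (m + 1)))
      (hs := measurableSet_Icc) (hμs := measure_ne_top mu _) (c := (m + 1 : ℂ))] with x hx
    rw [← smul_sub, norm_smul]
    by_cases h4 : x ∈ Icc (0 : ℝ) (1 / (m + 1))
    · have := h2 x (by rw [dist_zero_right, Real.norm_of_nonneg h4.1]; linarith [h4.2])
      rw [h.zero, dist_eq_norm] at this
      exact mul_le_mul_of_nonneg_left this.le (norm_nonneg _)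
    · rw [show fn (e m) x = 0 from hx h4]; simp
  · rw [integral_mul_const, ← fn_norm]
    nlinarith [e1 m]

end Pool.Agent.H90.Vo
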