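import Mathlib

namespace Pool.Agent.H90.Vo

open Filter Topology

variable {S : Type} [Semigroup S]

section
variable {E E' : Type} [AddCommGroup E] [AddCommGroup E']

def dl (A : S → E → E) (c : List S → E) : List S → E
  | [] => 0
  | [a] => A a (c [])
  | a :: b :: t => c (b * a :: t) - dl A (fun s => c (a :: s)) (b :: t)
termination_by t => t.length

lemma dl_rel {A : S → E → E} {A' : S → E' → E'} (R : E → E' → Prop) (h0 : R 0 0)
    (h1 : ∀ x y x' y', R x x' → R y y' → R (x - y) (x' - y'))
    (h2 : ∀ a x x', R x x' → R (A a x) (A' a x')) (t : List S) :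
    ∀ (c : List S → E) (c' : List S → E'), (∀ s, s.length + 1 = t.length → R (c s) (c' s)) →
      R (dl A c t) (dl A' c' t) := by
  induction t with
  | nil => intro c c' _; simpa only [dl] using h0
  | cons a t ih =>
    intro c c' h
    cases t with
    | nil => simpa only [dl] using h2 a _ _ (h [] rfl)
    | cons b t =>
      rw [dl, dl]
      exact h1 _ _ _ _ (h _ rfl) (ih _ _ fun s hs => h _ (by simpa using hs))

lemma dl_congr (A : S → E → E) {c c' : List S → E} (t : List S)
    (h : ∀ s, s.length + 1 = t.length → c s = c' s) : dl A c t = dl A c' t :=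
  dl_rel Eq rfl (fun _ _ _ _ h1 h2 => by rw [h1, h2]) (fun _ _ _ h => by rw [h]) t c c' h

lemma dl_sub {A : S → E → E} (hA : ∀ a x y, A a (x - y) = A a x - A a y) (t : List S) :
    ∀ c c' : List S → E, dl A (fun s => c s - c' s) t = dl A c t - dl A c' t := by
  induction t with
  | nil => intro c c'; simp [dl]
  | cons a t ih =>
    intro c c'
    cases t with
    | nil => simp only [dl, hA]
    | cons b t => rw [dl, dl, dl, ih]; abel

lemma dl_dl {A : S → E → E} (hA : ∀ a x y, A a (x - y) = A a x - A a y)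
    (hm : ∀ a b x, A (b * a) x = A b (A a x)) (t : List S) :
    ∀ c : List S → E, dl A (dl A c) t = 0 := by
  induction t with
  | nil => intro c; simp [dl]
  | cons a t ih =>
    intro c
    cases t with
    | nil => simpa [dl] using hA a 0 0
    | cons b t =>
      cases t with
      | nil => simp [dl, hm]
      | cons d t =>
        rw [dl, dl_congr A (c' := fun s => c (s.headD a * a :: s.tail) -
          dl A (fun s => c (a :: s)) s) (b :: d :: t), dl_sub hA, ih, dl, dl]
        · simp [mul_assoc]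
        · intro s hs
          cases s with
          | nil => simp at hs
          | cons x s => rw [dl]; rfl

end

variable [PseudoMetricSpace S] {X Y : Type} [NormedAddCommGroup X] [NormedSpace ℂ X]
  [NormedAddCommGroup Y] [NormedSpace ℂ Y]

def DD : List S → List S → ℝ
  | a :: t, b :: s => dist a b + DD t s
  | _, _ => 0

omit [Semigroup S] in
lemma DD_nn (t : List S) : ∀ s : List S, 0 ≤ DD t s := by
  induction t with
  | nil => intro s; simp [DD]
  | cons a t ih =>
    intro s
    cases s with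
    | nil => simp [DD]
    | cons b s => exact add_nonneg dist_nonneg (ih s)

omit [Semigroup S] in
lemma DD_self (t : List S) : DD t t = 0 := by
  induction t with
  | nil => simp [DD]
  | cons a t ih => simp [DD, ih]

def Lip (j : ℕ) (c : List S → X) : Prop :=
  ∃ L, 0 ≤ L ∧ ∀ t t' : List S, t.length = j → t'.length = j →
    ‖c t‖ ≤ L ∧ ‖c t - c t'‖ ≤ L * DD t t'

structure Act (A : S → X →L[ℂ] X) : Prop where
  mul : ∀ a b x, A (b * a) x = A b (A a x)
  bd : ∃ K, 1 ≤ K ∧ ∀ a b x, ‖A a x‖ ≤ K * ‖x‖ ∧ ‖A a x - A b x‖ ≤ K * dist a b * ‖x‖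

omit [Semigroup S] in
lemma Lip.map {j} {c : List S → X} (h : Lip j c) (D : X →L[ℂ] Y) : Lip j fun t => D (c t) := by
  obtain ⟨L, h0, h⟩ := h
  refine ⟨‖D‖ * L, by positivity, fun t t' h1 h2 => ⟨(D.le_opNorm _).trans ?_, ?_⟩⟩
  · exact mul_le_mul_of_nonneg_left (h t t' h1 h2).1 (norm_nonneg _)
  · rw [← map_sub, mul_assoc]
    exact (D.le_opNorm _).trans (mul_le_mul_of_nonneg_left (h t t' h1 h2).2 (norm_nonneg _))

omit [Semigroup S] [NormedSpace ℂ X] in
lemma Lip.sub {j} {c c' : List S → X} (h : Lip j c) (h' : Lip j c') : Lip j fun t => c t - c' t := by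
  obtain ⟨L, h0, h⟩ := h
  obtain ⟨L', h0', h'⟩ := h'
  refine ⟨L + L', by positivity, fun t t' h1 h2 => ⟨(norm_sub_le _ _).trans
    (add_le_add (h t t' h1 h2).1 (h' t t' h1 h2).1), ?_⟩⟩
  rw [sub_sub_sub_comm, add_mul]
  exact (norm_sub_le _ _).trans (add_le_add (h t t' h1 h2).2 (h' t t' h1 h2).2)

lemma Lip.dl (hS : ∀ a b a' b' : S, dist (b * a) (b' * a') ≤ dist a a' + dist b b')
    {A : S → X →L[ℂ] X} (hA : Act A) {j} {c : List S → X} (h : Lip j c) :
    Lip (j + 1) (dl (fun a x => A a x) c) := by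
  obtain ⟨L, h0, h⟩ := h
  obtain ⟨K, k1, k2⟩ := hA.bd
  have key : ∀ (n : ℕ) (t t' : List S) (η : ℝ) (g g' : List S → X), 0 ≤ η → t.length = n + 1 →
      t'.length = n + 1 → (∀ s s' : List S, s.length = n → s'.length = n →
        ‖g s‖ ≤ L ∧ ‖g s - g' s'‖ ≤ L * (η + DD s s')) →
      ‖Vo.dl (fun a x => A a x) g t - Vo.dl (fun a x => A a x) g' t'‖ ≤
        (n + 1) * (K * L * (η + DD t t')) := by
    intro n
    induction n with
    | zero =>
      intro t t' η g g' hη h1 h2 hg
      obtain ⟨a, rfl⟩ := List.length_eq_one_iff.1 h1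
      obtain ⟨b, rfl⟩ := List.length_eq_one_iff.1 h2
      obtain ⟨g1, g2⟩ := hg [] [] rfl rfl
      have a1 := (k2 a b (g [])).2.trans (mul_le_mul_of_nonneg_left g1 (by positivity))
      have a2 := (k2 b b (g [] - g' [])).1.trans (mul_le_mul_of_nonneg_left g2 (by positivity))
      rw [map_sub] at a2
      simp only [Vo.dl, DD] at a2 ⊢
      push_cast
      linarith [norm_sub_le_norm_sub_add_norm_sub (A a (g [])) (A b (g [])) (A b (g' []))]
    | succ n ih =>
      intro t t' η g g' hη h1 h2 hg
      obtain ⟨a, b, t, rfl⟩ : ∃ a b s, t = a :: b :: s := by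
        match t, h1 with
        | a :: b :: s, _ => exact ⟨a, b, s, rfl⟩
      obtain ⟨a', b', t', rfl⟩ : ∃ a b s, t' = a :: b :: s := by
        match t', h2 with
        | a :: b :: s, _ => exact ⟨a, b, s, rfl⟩
      have a1 := (hg (b * a :: t) (b' * a' :: t') (by simpa using h1) (by simpa using h2)).2
      have a2 := ih (b :: t) (b' :: t') (η + dist a a') (fun s => g (a :: s)) (fun s => g' (a' :: s))
        (by positivity) (by simpa using h1) (by simpa using h2) fun s s' h3 h4 => by
          simpa only [DD, add_assoc] using hg (a :: s) (a' :: s') (by simp [h3]) (by simp [h4])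
      rw [Vo.dl, Vo.dl, sub_sub_sub_comm]
      refine (norm_sub_le _ _).trans ?_
      simp only [DD] at a1 a2 ⊢
      have a3 := DD_nn t t'
      have a4 : L * (η + (dist (b * a) (b' * a') + DD t t')) ≤
          K * L * (η + (dist a a' + (dist b b' + DD t t'))) :=
        mul_le_mul (le_mul_of_one_le_left h0 k1) (by linarith [hS a b a' b']) (by positivity)
          (by positivity)
      push_cast
      rw [add_assoc η] at a2
      linarith
  refine ⟨(j + 1) * (K * L), by positivity, fun t t' h1 h2 => ⟨?_, ?_⟩⟩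
  · have := key j t t 1 c (fun _ => 0) zero_le_one h1 h1 fun s s' h3 h4 => ⟨(h s s' h3 h4).1, by
      rw [sub_zero]; nlinarith [(h s s' h3 h4).1, DD_nn s s']⟩
    rwa [DD_self, add_zero, mul_one, dl_rel (A' := fun a x => A a x) (fun x (_ : X) => x = 0) rfl
      (fun _ _ _ _ h1 h2 => by rw [h1, h2, sub_zero]) (fun _ _ _ h => by rw [h, map_zero]) t
      (fun _ => 0) c fun _ _ => rfl, sub_zero] at this
  · simpa only [zero_add, mul_assoc] using key j t t' 0 c c le_rfl h1 h2 (by simpa using h)

lemma acy {J : S → X →L[ℂ] X} {A : S → StrongDual ℂ X →L[ℂ] StrongDual ℂ X}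
    (hA : ∀ a μ φ, A a μ φ = μ (J a φ)) {e : ℕ → S}
    (he : ∀ b, Tendsto (fun m => dist (b * e m) b) atTop (𝓝 0)) {j} {c : List S → StrongDual ℂ X}
    (h1 : Lip (j + 1) c) (h2 : ∀ t : List S, t.length = j + 2 → dl (fun a x => A a x) c t = 0) :
    ∃ h, Lip j h ∧ ∀ t : List S, t.length = j + 1 → dl (fun a x => A a x) h t = c t := by
  obtain ⟨L, h0, h1⟩ := h1
  let U : Ultrafilter ℕ := hyperfilter ℕ
  have hU : (U : Filter ℕ) ≤ atTop := Nat.hyperfilter_le_atTop
  have : ∀ t : List S, ∃ z : StrongDual ℂ X, t.length = j →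
      ∀ φ, Tendsto (fun m => c (e m :: t) φ) U (𝓝 (z φ)) := fun t => by
    by_cases ht : t.length = j
    · have hb : ∀ φ m, ‖c (e m :: t) φ‖ ≤ L * ‖φ‖ := fun φ m =>
        (c _).le_of_opNorm_le (h1 _ _ (by simp [ht]) (by simp [ht] : (e m :: t).length = _)).1 φ
      have : ∀ φ, ∃ y, Tendsto (fun m => c (e m :: t) φ) U (𝓝 y) := fun φ => by
        obtain ⟨y, -, hy⟩ := (isCompact_closedBall (0 : ℂ) (L * ‖φ‖)).ultrafilter_le_nhds
          (U.map fun m => c (e m :: t) φ)
          (le_principal_iff.2 (mem_map.2 (univ_mem' fun n => mem_closedBall_zero_iff.2 (hb φ n))))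
        exact ⟨y, hy⟩
      choose z hz using this
      exact ⟨LinearMap.mkContinuous
        { toFun := z
          map_add' := fun x y => tendsto_nhds_unique (hz _)
            (by simpa only [map_add] using (hz x).add (hz y))
          map_smul' := fun r x => tendsto_nhds_unique (hz _)
            (by simpa only [map_smul, RingHom.id_apply] using (hz x).const_smul r) } L
        fun φ => le_of_tendsto' (hz φ).norm (hb φ), fun _ => hz⟩
    · exact ⟨0, fun h => (ht h).elim⟩
  choose h hh using this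
  refine ⟨h, ⟨L, h0, fun t t' a1 a2 => ⟨?_, ?_⟩⟩, fun t ht => ?_⟩
  · exact (h t).opNorm_le_bound h0 fun φ => le_of_tendsto' (hh t a1 φ).norm fun m =>
      (c _).le_of_opNorm_le (h1 _ _ (by simp [a1]) (by simp [a1] : (e m :: t).length = _)).1 φ
  · refine (h t - h t').opNorm_le_bound (mul_nonneg h0 (DD_nn _ _)) fun φ =>
      le_of_tendsto' ((hh t a1 φ).sub (hh t' a2 φ)).norm fun m => ?_
    simpa [DD] using (c _ - c _).le_of_opNorm_le
      (h1 (e m :: t) (e m :: t') (by simp [a1]) (by simp [a2])).2 φ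
  · obtain ⟨b, t, rfl⟩ := List.exists_cons_of_length_eq_add_one ht
    have a1 := dl_rel (A := fun a (v : ℕ → StrongDual ℂ X) m => A a (v m)) (A' := fun a x => A a x)
      (fun v z => ∀ φ, Tendsto (fun m => v m φ) U (𝓝 (z φ))) (fun _ => tendsto_const_nhds)
      (fun _ _ _ _ h1 h2 φ => (h1 φ).sub (h2 φ)) (fun a v z h φ => by simpa only [hA] using h _)
      (b :: t) (fun s m => c (e m :: s)) h fun s hs => hh s (by omega)
    have a2 : ∀ m, dl (fun a (v : ℕ → StrongDual ℂ X) m => A a (v m)) (fun s m => c (e m :: s))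
        (b :: t) m = c (b * e m :: t) := fun m => by
      have := h2 (e m :: b :: t) (by simp [← ht])
      rw [dl, sub_eq_zero] at this
      rw [this]
      exact dl_rel (fun (v : ℕ → StrongDual ℂ X) z => v m = z) rfl
        (fun _ _ _ _ h1 h2 => by rw [← h1, ← h2]; rfl) (fun _ _ _ h => by rw [← h]) _ _ _
        fun _ _ => rfl
    have a3 : Tendsto (fun m => c (b * e m :: t)) atTop (𝓝 (c (b :: t))) := by
      rw [tendsto_iff_norm_sub_tendsto_zero]
      refine squeeze_zero (fun _ => norm_nonneg _) (fun m => (h1 _ _ (by simpa using ht) ht).2) ?_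
      simpa [DD, DD_self] using (he b).const_mul L
    ext φ
    refine tendsto_nhds_unique (a1 φ) ?_
    simp only [a2]
    exact (((ContinuousLinearMap.apply ℂ ℂ φ).continuous.tendsto _).comp a3).mono_left hU

end Pool.Agent.H90.Vo
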