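import Mathlib
import Pool.Agent.H90.VoA
import Pool.Agent.H90.GdB

namespace Pool.Agent.H90.Vo

open Filter Topology MeasureTheory ENNReal

lemma ring_dd {R : Type} [Ring R] (f : ℕ → R) (h : ∀ i k, i ≤ k → f i * f (k + 1) = f k * f i)
    (k : ℕ) : (∑ i ∈ Finset.range k, (-1) ^ i * f i) *
      (∑ i ∈ Finset.range (k + 1), (-1) ^ i * f i) = 0 := by
  induction k with
  | zero => simp
  | succ k ih =>
    have h1 : (∑ i ∈ Finset.range (k + 1), (-1) ^ i * f i) * f (k + 1) =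
        f k * ∑ i ∈ Finset.range (k + 1), (-1) ^ i * f i := by
      rw [Finset.sum_mul, Finset.mul_sum]
      exact Finset.sum_congr rfl fun i hi => by
        rw [mul_assoc, h i k (by simpa [Nat.lt_succ_iff] using hi)]
        rcases neg_one_pow_eq_or R i with e | e <;> simp [e]
    rw [Finset.sum_range_succ _ (k + 1), mul_add]
    nth_rw 1 [Finset.sum_range_succ _ k]
    rw [add_mul, ih, pow_succ]
    rcases neg_one_pow_eq_or R k with e | e <;> simp [e, h1]

lemma ring_io {R : Type} [Ring R] (f : ℕ → R) (ι : R) (h0 : f 0 * ι = 1)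
    (h : ∀ i, f (i + 1) * ι = ι * f i) (k : ℕ) :
    (∑ i ∈ Finset.range (k + 1), (-1) ^ i * f i) * ι =
      1 - ι * ∑ i ∈ Finset.range k, (-1) ^ i * f i := by
  rw [Finset.sum_range_succ', add_mul, Finset.sum_mul, Finset.mul_sum, sub_eq_neg_add,
    ← Finset.sum_neg_distrib]
  congr 1
  · exact Finset.sum_congr rfl fun i _ => by
      rw [mul_assoc, h, pow_succ]
      rcases neg_one_pow_eq_or R i with e | e <;> simp [e]
  · simp [h0]

noncomputable def th (n : ℕ) (x : ℝ≥0∞) : ℝ :=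
  max 0 (min 1 (2 - 2 ^ (n + 1) * truncateToReal 1 x))

lemma th_cont (n : ℕ) : Continuous (th n) := by
  have := continuous_truncateToReal one_ne_top
  unfold th; fun_prop

lemma th_nn (n x) : 0 ≤ th n x := le_max_left _ _
lemma th_le (n x) : th n x ≤ 1 := max_le zero_le_one (min_le_left _ _)

lemma th_mono {m n : ℕ} (h : m ≤ n) {x y : ℝ≥0∞} (h' : x ≤ y) : th n y ≤ th m x := by
  have := monotone_truncateToReal one_ne_top h'
  have := truncateToReal_nonneg (t := 1) (x := x)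
  unfold th; gcongr; norm_num

lemma th_mul {m n : ℕ} (h : m < n) {x y : ℝ≥0∞} (h' : x ≤ y) : th m x * th n y = th n y := by
  by_cases h1 : 2 ^ (m + 1) * truncateToReal 1 x ≤ 1
  · rw [show th m x = 1 by rw [th, min_eq_left (by linarith), max_eq_right zero_le_one], one_mul]
  · have : th n y = 0 := le_antisymm ((th_mono h h').trans (max_le le_rfl
      ((min_le_right _ _).trans (by rw [pow_succ _ (m + 1)]; linarith)))) (th_nn _ _)
    rw [this, mul_zero]

lemma th_zero (n) : th n 0 = 1 := by simp [th, truncateToReal]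

lemma th_one (n) {x : ℝ≥0∞} (h : 1 ≤ x) : th n x = 0 :=
  le_antisymm ((th_mono n.zero_le h).trans (by simp [th, truncateToReal])) (th_nn _ _)

lemma th_lim {x : ℝ≥0∞} (h : x ≠ 0) : ∀ᶠ n in atTop, th n x = 0 := by
  have h1 : 0 < truncateToReal 1 x := toReal_pos (by simp [h]) (by simp)
  filter_upwards [((tendsto_pow_atTop_atTop_of_one_lt (one_lt_two (α := ℝ))).atTop_mul_const
    h1).eventually_ge_atTop 1] with n hn
  exact max_eq_left ((min_le_right _ _).trans (by rw [pow_succ]; linarith))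

abbrev Q : Type := {p : ℝ≥0∞ × (ℕ → ℝ≥0∞) // ∀ i, p.2 i ≤ p.1}

instance : CompactSpace Q := isCompact_iff_compactSpace.1
  (show IsClosed {p : ℝ≥0∞ × (ℕ → ℝ≥0∞) | ∀ i, p.2 i ≤ p.1} by
    simp only [Set.ofPred_forall]
    exact isClosed_iInter fun i => isClosed_le (by fun_prop) (by fun_prop)).isCompact

def CS : Submodule ℂ C(Q, ℂ) where
  carrier := {φ | ∀ p : Q, 1 ≤ p.1.1 → φ p = 0}
  add_mem' := fun h1 h2 p hp => by simp [h1 p hp, h2 p hp]
  zero_mem' := fun _ _ => rfl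
  smul_mem' := fun c φ h p hp => by simp [h p hp]

def CC : Type := CS

noncomputable instance : NormedAddCommGroup CC := inferInstanceAs (NormedAddCommGroup CS)
noncomputable instance : NormedSpace ℂ CC := inferInstanceAs (NormedSpace ℂ CS)

instance : CompleteSpace CC := (show IsClosed {φ : C(Q, ℂ) | ∀ p : Q, 1 ≤ p.1.1 → φ p = 0} by
  simp only [Set.ofPred_forall]
  exact isClosed_iInter fun p => isClosed_iInter fun _ =>
    isClosed_eq (continuous_eval_const p) continuous_const).isComplete.completeSpace_coe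

noncomputable def vl : CC →L[ℂ] C(Q, ℂ) := CS.subtypeL

lemma vl_z (φ : CC) (p : Q) (h : 1 ≤ p.1.1) : vl φ p = 0 := φ.2 p h

abbrev W : Type := StrongDual ℂ CC

structure Mp where
  g : C(Q, Q)
  h : ∀ p, p.1.1 ≤ (g p).1.1

noncomputable def op (h : C(Q, ℂ)) (g : Mp) : CC →L[ℂ] CC :=
  (ContinuousLinearMap.mul ℂ _ h ∘L ContinuousMap.compCLM ℂ ℂ g.g ∘L vl).codRestrict CS
    fun φ p hp => (congrArg (h p * ·) (vl_z φ _ (hp.trans (g.h p)))).trans (mul_zero _)

lemma op_ap (h g) (φ : CC) (p) : vl (op h g φ) p = h p * vl φ (g.g p) := rfl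

lemma cs_ext {φ ψ : CC} (h : ∀ p, vl φ p = vl ψ p) : φ = ψ := Subtype.ext (ContinuousMap.ext h)

lemma cs_le' {φ : CC} {c : ℝ} (hc : 0 ≤ c) (e : ∀ p, ‖vl φ p‖ ≤ c) : ‖φ‖ ≤ c :=
  (ContinuousMap.norm_le (vl φ) hc).2 e

lemma op_le {h : C(Q, ℂ)} {c : ℝ} (hc : 0 ≤ c) (g : Mp) (φ : CC)
    (e : ∀ p, ‖h p * vl φ (g.g p)‖ ≤ c) : ‖op h g φ‖ ≤ c := cs_le' hc e

lemma cs_le (φ : CC) (p) : ‖vl φ p‖ ≤ ‖φ‖ := (vl φ).norm_coe_le_norm p

noncomputable def du (R : CC →L[ℂ] CC) : W →L[ℂ] W := (ContinuousLinearMap.compL ℂ _ _ _).flip R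

lemma du_ap (R μ φ) : du R μ φ = μ (R φ) := rfl

def idm : Mp := ⟨.id _, fun _ => le_rfl⟩

noncomputable def tr (t : ℝ) : Mp :=
  ⟨⟨fun p => ⟨(p.1.1 + ENNReal.ofReal t, p.1.2), fun i => (p.2 i).trans le_self_add⟩, by fun_prop⟩,
    fun _ => le_self_add⟩

def del (i : ℕ) : Mp :=
  ⟨⟨fun p => ⟨(p.1.1, fun j => p.1.2 (if j < i then j else j + 1)), fun _ => p.2 _⟩, by fun_prop⟩,
    fun _ => le_rfl⟩

def io : Mp :=
  ⟨⟨fun p => ⟨(p.1.1, fun j => Nat.casesOn j p.1.1 p.1.2), fun j => by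
    cases j
    exacts [le_rfl, p.2 _]⟩, Continuous.subtype_mk (.prodMk (by fun_prop) (continuous_pi fun j => by
      cases j <;> fun_prop)) _⟩, fun _ => le_rfl⟩

def s0 : C(Q, ℝ≥0∞) := ⟨fun p => p.1.1, by fun_prop⟩

noncomputable def mn (k : ℕ) : C(Q, ℝ≥0∞) :=
  ⟨fun p => (Finset.range k).inf fun i => p.1.2 i, Continuous.finset_inf_apply fun _ _ => by fun_prop⟩

lemma sg : SG fun t => op 1 (tr t) := by
  refine ⟨fun φ => Continuous.subtype_mk ((⟨fun p : ℝ × Q => 1 * vl φ ((tr p.1).g p.2), ?_⟩ :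
    C(ℝ × Q, ℂ)).curry.continuous) _, fun t φ => op_le (norm_nonneg _) _ _ fun p => by
      simpa using cs_le φ _, fun s t φ hs ht => cs_ext fun p => ?_, fun φ => cs_ext fun p => ?_,
    fun t φ ht => cs_ext fun p => ?_⟩
  · have := continuous_ofReal
    exact continuous_const.mul ((vl φ).continuous.comp (Continuous.subtype_mk (by fun_prop) _))
  · simp [op_ap, tr, ofReal_add hs ht, add_assoc]
  · simp [op_ap, tr]
  · exact (one_mul _).trans (vl_z φ _ ((one_le_ofReal.2 ht).trans le_add_self))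

noncomputable def tc (n : ℕ) (u : C(Q, ℝ≥0∞)) : C(Q, ℂ) :=
  ⟨fun p => th n (u p), by have := th_cont n; fun_prop⟩

noncomputable def M (u : C(Q, ℝ≥0∞)) (n : ℕ) : W →L[ℂ] W := du (op (tc n u) idm)

lemma du_le {R : CC →L[ℂ] CC} {c : ℝ} (hc : 0 ≤ c) (h : ∀ φ, ‖R φ‖ ≤ c * ‖φ‖) (μ : W) :
    ‖du R μ‖ ≤ c * ‖μ‖ := ContinuousLinearMap.opNorm_le_bound _ (by positivity) fun φ =>
  (μ.le_opNorm_of_le (h φ)).trans_eq (by ring)

lemma tc_le (n u) (φ : CC) (p q) : ‖tc n u p * vl φ q‖ ≤ th n (u p) * ‖φ‖ := by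
  rw [norm_mul]
  exact mul_le_mul (by simp [tc, abs_of_nonneg (th_nn _ _)]) (cs_le φ q) (norm_nonneg _) (th_nn _ _)

lemma M_le (u n μ) : ‖M u n μ‖ ≤ 1 * ‖μ‖ := du_le zero_le_one (fun φ => op_le (by positivity) _ _
  fun _ => (tc_le _ _ _ _ _).trans (mul_le_mul_of_nonneg_right (th_le _ _) (norm_nonneg _))) μ

noncomputable def Null (u : C(Q, ℝ≥0∞)) : Submodule ℂ W :=
  (Gd.tend_dense (l := atTop) (M u) (M_le u)).choose

lemma null_cl (u) : IsClosed (Null u : Set W) := (Gd.tend_dense (M u) (M_le u)).choose_spec.1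

lemma null_iff {u μ} : μ ∈ Null u ↔ Tendsto (fun n => M u n μ) atTop (𝓝 0) :=
  (Gd.tend_dense (M u) (M_le u)).choose_spec.2 μ

lemma M_M {u v : C(Q, ℝ≥0∞)} (h : ∀ p, u p ≤ v p) {m n : ℕ} (h' : m < n) (μ : W) :
    M v n (M u m μ) = M v n μ ∧ M u m (M v n μ) = M v n μ := by
  constructor <;> ext φ <;> refine congrArg μ (cs_ext fun p => ?_)
  · show (th m (u p) : ℂ) * (th n (v p) * vl φ p) = th n (v p) * vl φ p
    rw [← mul_assoc, ← Complex.ofReal_mul, th_mul h' (h p)]
  · show (th n (v p) : ℂ) * (th m (u p) * vl φ p) = th n (v p) * vl φ p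
    rw [← mul_assoc, ← Complex.ofReal_mul, mul_comm (th n _), th_mul h' (h p)]

lemma null_mono {u v : C(Q, ℝ≥0∞)} (h : ∀ p, u p ≤ v p) : Null u ≤ Null v := fun μ hμ => by
  rw [null_iff, ← tendsto_add_atTop_iff_nat 1]
  refine squeeze_zero_norm (fun n => ?_) (tendsto_zero_iff_norm_tendsto_zero.1 (null_iff.1 hμ))
  rw [← (M_M h n.lt_succ_self μ).1]
  simpa using M_le _ _ _

lemma null_push {u v : C(Q, ℝ≥0∞)} (g : Mp) (h : ∀ p, u p ≤ v (g.g p)) {μ} (hμ : μ ∈ Null u) :
    du (op 1 g) μ ∈ Null v := by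
  have := ((du (op 1 g)).continuous.tendsto _).comp
    (null_iff.1 (null_mono (v := v.comp g.g) h hμ))
  rw [map_zero] at this
  refine null_iff.2 (this.congr fun n => ?_)
  ext φ
  exact congrArg μ (cs_ext fun p => by simp [op_ap, idm, tc])

lemma ex_proj (u : C(Q, ℝ≥0∞)) : ∃ p : W →L[ℂ] W, (∀ μ, p μ ∈ Null u) ∧ (∀ μ ∈ Null u, p μ = μ) ∧
    ∀ R : W →L[ℂ] W, (∀ n μ, R (M u n μ) = M u n (R μ)) → ∀ μ, R (p μ) = p (R μ) := by
  have : ∀ μ : W, ∃ z, Tendsto (fun n => M u n μ) atTop (𝓝 z) := fun μ => by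
    refine cauchySeq_tendsto_of_complete (cauchySeq_of_summable_dist (summable_of_sum_range_le
      (c := 2 * ‖μ‖) (fun _ => dist_nonneg) fun N => ?_))
    have : ∀ n, ∃ φ : CC, ‖φ‖ ≤ 1 ∧ dist (M u n μ) (M u (n + 1) μ) ≤
        2 * ((M u n μ - M u (n + 1) μ) φ).re := fun n => by
      rw [dist_eq_norm]
      generalize M u n μ - M u (n + 1) μ = ν
      by_cases h : ν = 0
      · exact ⟨0, by simp, by simp [h]⟩
      · obtain ⟨φ, h1, h2⟩ := ν.exists_lt_apply_of_lt_opNorm (half_lt_self (norm_pos_iff.2 h))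
        obtain ⟨c, h3, h4⟩ := Complex.exists_norm_eq_mul_self (ν φ)
        refine ⟨c • φ, by rw [norm_smul, h3, one_mul]; exact h1.le, ?_⟩
        rw [map_smul, smul_eq_mul, ← h4, Complex.ofReal_re]; linarith
    choose φ h1 h2 using this
    refine (Finset.sum_le_sum fun n _ => h2 n).trans ?_
    rw [← Finset.mul_sum, ← Complex.re_sum]
    refine mul_le_mul_of_nonneg_left ((Complex.re_le_norm _).trans ?_) zero_le_two
    have e : ∑ n ∈ Finset.range N, (M u n μ - M u (n + 1) μ) (φ n) =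
        μ (∑ n ∈ Finset.range N, op (tc n u - tc (n + 1) u) idm (φ n)) := by
      rw [map_sum]
      refine Finset.sum_congr rfl fun n _ => (map_sub μ _ _).symm.trans (congrArg μ ?_)
      exact cs_ext fun p => (sub_mul _ _ _).symm
    rw [e]
    refine μ.unit_le_opNorm _ (cs_le' zero_le_one fun p => ?_)
    rw [map_sum, ContinuousMap.sum_apply]
    refine (norm_sum_le_of_le _ (n := fun n => th n (u p) - th (n + 1) (u p)) fun n _ => ?_).trans ?_
    · rw [op_ap, norm_mul]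
      refine (mul_le_of_le_one_right (norm_nonneg _) ((cs_le _ _).trans (h1 n))).trans_eq ?_
      show ‖(th n (u p) : ℂ) - th (n + 1) (u p)‖ = _
      rw [← Complex.ofReal_sub, Complex.norm_of_nonneg (sub_nonneg.2 (th_mono n.le_succ le_rfl))]
    · rw [Finset.sum_range_sub' fun n => th n (u p)]
      linarith [th_le 0 (u p), th_nn N (u p)]
  choose a ha using this
  let a' : W →L[ℂ] W := continuousLinearMapOfTendsto (M u) (tendsto_pi_nhds.2 ha)
  refine ⟨.id ℂ _ - a', fun μ => null_iff.2 ?_, fun μ h => ?_, fun R hR μ => ?_⟩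
  · refine (tendsto_sub_nhds_zero_iff.2 (ha μ)).congr fun m => ?_
    show _ = M u m (μ - a μ)
    rw [map_sub, tendsto_nhds_unique (((M u m).continuous.tendsto _).comp (ha μ))
      ((ha μ).congr' ((eventually_gt_atTop m).mono fun n hn => (M_M (fun _ => le_rfl) hn μ).2.symm))]
  · show μ - a μ = μ
    rw [tendsto_nhds_unique (ha μ) (null_iff.1 h), sub_zero]
  · show R (μ - a μ) = R μ - a (R μ)
    rw [map_sub, tendsto_nhds_unique ((R.continuous.tendsto _).comp (ha μ))
      ((ha (R μ)).congr fun n => (hR n μ).symm)]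

noncomputable def AW (a : L1) : W →L[ℂ] W := du (sg.J a)

lemma AW_comm (h : C(Q, ℂ)) (g : Mp) (e1 : ∀ t p, h ((tr t).g p) = h p)
    (e2 : ∀ t p, g.g ((tr t).g p) = (tr t).g (g.g p)) (a μ) :
    du (op h g) (AW a μ) = AW a (du (op h g) μ) := by
  ext φ
  exact congrArg μ (sg.J_comm sg (op h g) (fun t ψ _ => cs_ext fun p => by
    simp [op_ap, e1, e2]) a φ).symm

lemma AW_null (a : L1) (μ : W) : AW a μ ∈ Null s0 := by
  have h1 := tendsto_integral_filter_of_dominated_convergence (μ := mu) (l := atTop)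
    (F := fun n t => ‖fn a t‖ * th n (ENNReal.ofReal t)) (f := fun _ => 0) (fun t => ‖fn a t‖)
    (.of_forall fun n => (fn_int a).norm.1.mul
      ((th_cont n).comp continuous_ofReal).aestronglyMeasurable)
    (.of_forall fun n => .of_forall fun t => by
      rw [Real.norm_of_nonneg (mul_nonneg (norm_nonneg _) (th_nn _ _))]
      exact mul_le_of_le_one_right (norm_nonneg _) (th_le _ _)) (fn_int a).norm (by
      filter_upwards [mu_mem, ae_restrict_of_ae (s := Set.Icc 0 1) (Measure.ae_ne volume (0 : ℝ))]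
        with t h1 h2
      exact tendsto_const_nhds.congr' ((th_lim (ofReal_pos.2 (h1.1.lt_of_ne' h2)).ne').mono
        fun n hn => by simp [hn]))
  refine null_iff.2 (squeeze_zero_norm (fun n => ?_) (by simpa using h1.mul_const ‖μ‖))
  refine du_le (R := sg.J a ∘L op (tc n s0) idm)
    (integral_nonneg fun t => mul_nonneg (norm_nonneg _) (th_nn _ _)) (fun φ => ?_) μ
  rw [← integral_mul_const]
  refine norm_integral_le_of_norm_le (((fn_int a).norm.mul_bdd (c := 1)
    ((th_cont n).comp continuous_ofReal).aestronglyMeasurable (.of_forall fun t => by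
      simpa [abs_of_nonneg (th_nn _ _)] using th_le _ _)).mul_const _) (.of_forall fun t => ?_)
  rw [norm_smul, mul_assoc]
  refine mul_le_mul_of_nonneg_left (op_le (mul_nonneg (th_nn _ _) (norm_nonneg _)) _ _ fun p => ?_)
    (norm_nonneg _)
  rw [ContinuousMap.one_apply, one_mul]
  exact (tc_le _ _ _ _ _).trans (mul_le_mul_of_nonneg_right (th_mono le_rfl le_add_self)
    (norm_nonneg _))

noncomputable def de : W :=
  ContinuousMap.evalCLM ℂ (⟨(0, 0), fun _ => le_rfl⟩ : Q) ∘L vl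

lemma de_not : de ∉ Null s0 := fun h => by
  have := ((ContinuousLinearMap.apply ℂ ℂ (E := CC) ⟨tc 0 s0, fun p hp => by
    simp [tc, s0, th_one 0 hp]⟩).continuous.tendsto _).comp (null_iff.1 h)
  have h1 := tendsto_nhds_unique (this.congr (f₂ := fun _ => 1) fun n => by
    show (th n 0 : ℂ) * th 0 0 = 1
    simp [th_zero]) tendsto_const_nhds
  simp at h1

noncomputable def DW (k : ℕ) : W →L[ℂ] W := ∑ i ∈ Finset.range k, (-1) ^ i * du (op 1 (del i))

lemma DW_DW (k μ) : DW k (DW (k + 1) μ) = 0 :=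
  congrArg (· μ) (ring_dd (fun i => du (op 1 (del i))) (fun i k h => by
    ext μ φ
    refine congrArg μ (cs_ext fun p => ?_)
    refine congrArg (fun q => 1 * (1 * vl φ q)) (Subtype.ext (Prod.ext rfl (funext fun j => congrArg p.1.2 ?_)))
    split_ifs <;> omega) k)

lemma DW_io (k μ) : DW (k + 1) (du (op 1 io) μ) = μ - du (op 1 io) (DW k μ) :=
  congrArg (· μ) (ring_io (fun i => du (op 1 (del i))) (du (op 1 io)) (by
    ext μ φ
    exact congrArg μ (cs_ext fun p => (one_mul _).trans (one_mul _))) (fun i => by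
    ext μ φ
    refine congrArg μ (cs_ext fun p => ?_)
    refine congrArg (fun q => 1 * (1 * vl φ q)) (Subtype.ext (Prod.ext rfl (funext fun j => ?_)))
    cases j with
    | zero => rfl
    | succ j => by_cases h : j < i <;> simp [del, io, h]) k)

lemma DW_ind (k : ℕ) (μ : W) : DW k μ = ∑ i ∈ Finset.range k, (-1 : ℂ) ^ i • du (op 1 (del i)) μ := by
  rw [DW, sum_apply]
  refine Finset.sum_congr rfl fun i hi => ?_
  · clear hi
    generalize du (op 1 (del i)) = R
    induction i with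
    | zero => simp
    | succ i ih =>
      rw [pow_succ', pow_succ', mul_assoc, mul_smul, ← ih]; exact (neg_one_smul ℂ _).symm

lemma DW_AW (k a μ) : DW k (AW a μ) = AW a (DW k μ) := by
  rw [DW_ind, DW_ind, map_sum]
  exact Finset.sum_congr rfl fun i _ => by
    rw [map_smul, AW_comm _ _ (fun _ _ => rfl) fun _ _ => rfl]

lemma DW_null (k) {μ} (h : μ ∈ Null (mn (k + 1))) : DW (k + 1) μ ∈ Null (s0 ⊓ mn k) := by
  rw [DW_ind]
  refine Submodule.sum_mem _ fun i _ => Submodule.smul_mem _ _ (null_push _ (fun p => ?_) h)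
  show _ ≤ p.1.1 ⊓ (Finset.range k).inf fun j => p.1.2 (if j < i then j else j + 1)
  refine le_inf ((Finset.inf_le (Finset.mem_range.2 k.succ_pos)).trans (p.2 0))
    (Finset.le_inf fun j hj => Finset.inf_le (Finset.mem_range.2 ?_))
  have := Finset.mem_range.1 hj
  split_ifs <;> omega

lemma io_null (k) {μ} (h : μ ∈ Null (s0 ⊓ mn k)) : du (op 1 io) μ ∈ Null (mn (k + 1)) :=
  null_push _ (fun p => show p.1.1 ⊓ (Finset.range k).inf p.1.2 ≤ (Finset.range (k + 1)).inf
      (io.g p).1.2 from Finset.le_inf fun j hj => by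
    cases j with
    | zero => exact inf_le_left
    | succ j => exact inf_le_right.trans (Finset.inf_le (f := p.1.2) (by simpa using hj))) h

end Pool.Agent.H90.Vo
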