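import Mathlib
import Pool.Agent.H90.VoB
import Pool.Agent.H90.VoC

namespace Pool.Agent.H90.Vo

open Filter Topology

noncomputable def AL : L1 →L[ℂ] W →L[ℂ] W := (ContinuousLinearMap.compL ℂ _ _ _).flip ∘L sg.J

lemma AL_eq (a) : AL a = AW a := rfl

lemma AL_conv (a b μ) : AL (conv a b) μ = AL a (AL b μ) := by
  ext φ
  exact congrArg μ ((sg.J_conv a b φ).trans (sg.J_J a b φ))

lemma AL_le (a μ) : ‖AL a μ‖ ≤ ‖a‖ * ‖μ‖ := du_le (norm_nonneg _) (sg.J_le a) μ

lemma AL_M (k n a μ) : AL a (M (mn k) n μ) = M (mn k) n (AL a μ) :=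
  (AW_comm _ idm (fun _ _ => rfl) (fun _ _ => rfl) a μ).symm

lemma AL_null (k a) {μ} (h : μ ∈ Null (mn k)) : AL a μ ∈ Null (mn k) := by
  have := ((AL a).continuous.tendsto _).comp (null_iff.1 h)
  rw [map_zero] at this
  exact null_iff.2 (this.congr fun n => AL_M k n a μ)

lemma null_top (μ) : μ ∈ Null (mn 0) := null_iff.2 (tendsto_const_nhds.congr fun n => by
  ext φ
  refine (map_zero μ).symm.trans (congrArg μ (cs_ext fun p => ?_))
  show _ = (th n ⊤ : ℂ) * _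
  simp [th_one n le_top])

noncomputable def LMod.A (M : LMod) : L1 →L[ℂ] M.X →L[ℂ] M.X := M.bil.toContinuousLinearMap

lemma lift (P : LMod) (hP : Proj P) (Y : Submodule ℂ (P.X × W)) (hc : IsClosed (Y : Set (P.X × W)))
    (hm : ∀ a, ∀ z ∈ Y, (P.A a z.1, AL a z.2) ∈ Y) (σ : P.X →L[ℂ] W) (hσ : ∀ x, (x, σ x) ∈ Y) :
    ∃ α : P.X →L[ℂ] W, (∀ x, (x, α x) ∈ Y) ∧ ∀ a x, α (P.A a x) = AL a (α x) := by
  have := P.cpl
  let N : LMod :=
    { X := Y
      cpl := hc.isComplete.completeSpace_coe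
      act := fun a z => ⟨_, hm a z.1 z.2⟩
      bil := ⟨fun a b u => Subtype.ext (by simp), fun c a u => Subtype.ext (by simp),
        fun a u v => Subtype.ext (by simp), fun c a u => Subtype.ext (by simp), ‖P.A‖ + 1,
        by positivity, fun a u => by
          have h1 := (P.A.le_opNorm₂ a u.1.1).trans
            (mul_le_mul_of_nonneg_left (norm_fst_le u.1) (by positivity))
          have h2 := (AL_le a u.1.2).trans
            (mul_le_mul_of_nonneg_left (norm_snd_le u.1) (norm_nonneg _))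
          have h3 : 0 ≤ ‖P.A‖ * ‖a‖ * ‖u.1‖ := by positivity
          have h4 : 0 ≤ ‖a‖ * ‖u.1‖ := by positivity
          show max ‖P.A a u.1.1‖ ‖AL a u.1.2‖ ≤ (‖P.A‖ + 1) * ‖a‖ * ‖u.1‖
          exact max_le (by linarith) (by linarith)⟩
      act_conv := fun a b u => Subtype.ext (Prod.ext (P.act_conv a b _) (AL_conv a b _)) }
  obtain ⟨r, ⟨r1, r2⟩, r3⟩ := hP N (fun z : Y => z.1.1)
    ⟨⟨⟨fun _ _ => rfl, fun _ _ => rfl⟩, 1, one_pos, fun z : Y => by
      rw [one_mul]; exact norm_fst_le z.1⟩, fun _ _ => rfl⟩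
    ⟨_, (((ContinuousLinearMap.id ℂ _).prod σ).codRestrict Y hσ).isBoundedLinearMap, fun _ => rfl⟩
  refine ⟨ContinuousLinearMap.snd ℂ _ _ ∘L Y.subtypeL ∘L r1.toContinuousLinearMap, fun x => ?_,
    fun a x => congrArg (fun z : Y => z.1.2) (r2 a x)⟩
  have := (r x).2
  rwa [← Prod.mk.eta (p := (r x).1), show (r x).1.1 = x from r3 x] at this

def SB : Type := {a : L1 // ‖a‖ ≤ 1}

noncomputable instance : PseudoMetricSpace SB := Subtype.pseudoMetricSpace

noncomputable instance : Semigroup SB where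
  mul a b := ⟨conv a.1 b.1, (sg_sh.J_le b.1 a.1).trans (mul_le_one₀ b.2 (norm_nonneg _) a.2)⟩
  mul_assoc a b c := Subtype.ext (conv_assoc a.1 b.1 c.1)

lemma sb_dist (a b : SB) : dist a b = ‖a.1 - b.1‖ := dist_eq_norm a.1 b.1

lemma sb_mul (a b a' b' : SB) : dist (b * a) (b' * a') ≤ dist a a' + dist b b' := by
  simp only [sb_dist]
  show ‖sg_sh.J a.1 b.1 - sg_sh.J a'.1 b'.1‖ ≤ _
  have h1 := (sg_sh.J_le (a.1 - a'.1) b.1).trans (mul_le_of_le_one_right (norm_nonneg _) b.2)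
  have h2 := (sg_sh.J_le a'.1 (b.1 - b'.1)).trans (mul_le_of_le_one_left (norm_nonneg _) a'.2)
  rw [map_sub, sub_apply] at h1
  rw [map_sub] at h2
  linarith [norm_sub_le_norm_sub_add_norm_sub (sg_sh.J a.1 b.1) (sg_sh.J a'.1 b.1)
    (sg_sh.J a'.1 b'.1)]

lemma act_of {X : Type} [NormedAddCommGroup X] [NormedSpace ℂ X] (A : L1 →L[ℂ] X →L[ℂ] X)
    (h : ∀ a b x, A (conv a b) x = A a (A b x)) : Act fun a : SB => A a.1 := by
  have := A.opNorm_nonneg
  refine ⟨fun a b x => h _ _ _, ‖A‖ + 1, by linarith, fun a b x => ⟨(A.le_opNorm₂ _ _).trans ?_, ?_⟩⟩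
  · exact mul_le_mul_of_nonneg_right ((mul_le_of_le_one_right this a.2).trans (by linarith))
      (norm_nonneg _)
  · rw [← sub_apply, ← map_sub, sb_dist]
    refine (A.le_opNorm₂ _ _).trans ?_
    gcongr; linarith

lemma dl_map {X Y : Type} [NormedAddCommGroup X] [NormedSpace ℂ X] [NormedAddCommGroup Y]
    [NormedSpace ℂ Y] {A : SB → X → X} {A' : SB → Y → Y} (D : X →L[ℂ] Y)
    (h : ∀ a x, D (A a x) = A' a (D x)) (c : List SB → X) (t) :
    dl A' (fun s => D (c s)) t = D (dl A c t) :=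
  dl_rel (fun y x => y = D x) (map_zero D).symm (fun _ _ _ _ h1 h2 => by rw [h1, h2, map_sub])
    (fun _ _ _ h1 => by rw [h1, h]) t _ _ fun _ _ => rfl

theorem no_res (n : ℕ) : ¬HasRes zeroMod n := by
  rintro ⟨P, d, e, ⟨⟨e1, e2⟩, d1, e3, d2⟩, ⟨s, u, s1, u1, u2, s2, s3⟩, hP, hn⟩
  obtain ⟨ε, a1, a2⟩ := approx
  let D : ∀ k, (P (k + 1)).X →L[ℂ] (P k).X := fun k => (d1 k).1.toContinuousLinearMap
  let Sg : ∀ k, (P k).X →L[ℂ] (P (k + 1)).X := fun k => (s1 k).toContinuousLinearMap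
  obtain ⟨E, hE⟩ : ∃ E : (P 0).X →L[ℂ] ℂ, ∀ x, E x = e x :=
    ⟨e1.toContinuousLinearMap, fun _ => rfl⟩
  have e4 : ∀ a x, E ((P 0).A a x) = 0 := fun a x => (hE _).trans (e2 a x)
  have e5 : ∀ x, E (D 0 x) = 0 := fun x => (hE _).trans (e3 x)
  have e6 : E (u (1 : ℂ)) = 1 := (hE _).trans (u2 _)
  have h0 : (0 : ℂ) • de = 0 := zero_smul ℂ de
  have dm : ∀ k a x, D k ((P (k + 1)).A a x) = (P k).A a (D k x) := fun k => (d1 k).2
  let Inv := fun k (α : (P k).X →L[ℂ] W) => (∀ a x, α ((P k).A a x) = AL a (α x)) ∧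
    (∀ x, α x ∈ Null (mn k)) ∧ ∀ x, α (D k x) ∈ Null (s0 ⊓ mn k) ∧ DW k (α (D k x)) = 0
  let Φ : (P 0).X × W →L[ℂ] W := ContinuousLinearMap.snd ℂ _ _ -
    (E ∘L ContinuousLinearMap.fst ℂ _ _).smulRight de
  obtain ⟨α0, b1, b2⟩ := lift (P 0) (hP 0) ((Null s0).comap Φ.toLinearMap)
    ((null_cl _).preimage Φ.continuous) (fun a z _ => by
      show AL a z.2 - E ((P 0).A a z.1) • de ∈ Null s0
      rw [e4, h0, sub_zero]
      exact AW_null a _) (E.smulRight de) fun x => by simp [Φ]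
  replace b1 : ∀ x, α0 x - E x • de ∈ Null s0 := b1
  have i0 : Inv 0 α0 := ⟨b2, fun _ => null_top _, fun x => ⟨null_mono (u := s0)
    (fun p => le_inf le_rfl le_top) (by
      have := b1 (D 0 x)
      rwa [e5, h0, sub_zero] at this), rfl⟩⟩
  have mm : ∀ k, Null (mn (k + 1)) ≤ Null (s0 ⊓ mn (k + 1)) := fun k => null_mono fun p =>
    le_inf ((Finset.inf_le (Finset.mem_range.2 k.succ_pos)).trans (p.2 0)) le_rfl
  have st : ∀ k α, Inv k α → ∃ β, Inv (k + 1) β ∧ ∀ x, DW (k + 1) (β x) = α (D k x) := by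
    rintro k α ⟨c1, -, c3⟩
    obtain ⟨β, c4, c5⟩ := lift (P (k + 1)) (hP _) ((Null (mn (k + 1))).comap
      (ContinuousLinearMap.snd ℂ _ _).toLinearMap ⊓ (DW (k + 1) ∘L ContinuousLinearMap.snd ℂ _ _ -
        α ∘L D k ∘L ContinuousLinearMap.fst ℂ _ _).ker)
      (((null_cl _).preimage continuous_snd).inter (ContinuousLinearMap.isClosed_ker _))
      (fun a z h => ⟨AL_null _ a h.1, sub_eq_zero.2 (show DW _ (AL a z.2) = α (D k ((P _).A a z.1)) by
        rw [dm, c1, ← show DW (k + 1) z.2 = α (D k z.1) from sub_eq_zero.1 h.2]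
        exact DW_AW _ _ _)⟩) (du (op 1 io) ∘L α ∘L D k)
      fun x => ⟨io_null k (c3 x).1, sub_eq_zero.2 (show DW _ (du _ (α (D k x))) = α (D k x) by
        rw [DW_io, (c3 x).2, map_zero, sub_zero])⟩
    have c6 : ∀ x, DW (k + 1) (β x) = α (D k x) := fun x => sub_eq_zero.1 (c4 x).2
    exact ⟨β, ⟨c5, fun x => (c4 x).1, fun x => ⟨mm k (c4 _).1, by
      rw [c6, show D k (D (k + 1) x) = 0 from d2 k x, map_zero]⟩⟩, c6⟩
  choose nx n1 n2 using st
  let α : ∀ k, {α // Inv k α} := fun k => Nat.rec ⟨α0, i0⟩ (fun k a => ⟨nx k a.1 a.2, n1 _ _ _⟩) k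
  have α1 : ∀ k x, DW (k + 1) ((α (k + 1)).1 x) = (α k).1 (D k x) := fun k => n2 k _ (α k).2
  let A : ∀ k, SB → (P k).X → (P k).X := fun k a x => (P k).A a.1 x
  let B : SB → W → W := fun a x => AL a.1 x
  have ac := fun k => act_of (P k).A (P k).act_conv
  let y : ∀ k, List SB → (P k).X := fun k => Nat.rec (fun _ => u (1 : ℂ))
    (fun k c t => Sg k (dl (A k) c t)) k
  have y1 : ∀ k, Lip k (y k) := fun k => by
    induction k with
    | zero => exact ⟨_, norm_nonneg (u (1 : ℂ)), fun t t' _ _ => ⟨le_rfl, by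
        simpa [y] using mul_nonneg (norm_nonneg _) (DD_nn t t')⟩⟩
    | succ k ih => exact (ih.dl sb_mul (ac k)).map _
  have y2 : ∀ k (t : List SB), t.length = k + 1 → D k (y (k + 1) t) = dl (A k) (y k) t := by
    intro k
    induction k with
    | zero =>
      intro t ht
      obtain ⟨a, rfl⟩ := List.length_eq_one_iff.1 ht
      have := s2 (dl (A 0) (y 0) [a])
      rwa [show e (dl (A 0) (y 0) [a]) = (0 : ℂ) by rw [dl]; exact e2 _ _,
        show u (0 : ℂ) = 0 from u1.map_zero, add_zero] at this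
    | succ k ih =>
      intro t ht
      have := s3 k (dl (A _) (y _) t)
      rwa [show d k (dl (A _) (y _) t) = 0 from (dl_map (D k) (fun a => dm k a.1) _ t).symm.trans
        ((dl_congr _ t fun s hs => ih s (by omega)).trans
          (dl_dl (fun a => map_sub _) (ac k).mul t _)), (s1 k).map_zero, add_zero] at this
  have key : ∀ m k, k + m = n + 1 → ∃ g : List SB → W, Lip k g ∧
      (∀ t : List SB, t.length = k → g t ∈ Null (s0 ⊓ mn k) ∧ DW k (g t) = 0) ∧
      ∀ t : List SB, t.length = k + 1 → dl B g t = dl B (fun s => (α k).1 (y k s)) t := by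
    intro m
    induction m with
    | zero =>
      intro k hk
      refine ⟨fun s => (α k).1 (y k s), (y1 k).map _, fun t _ => ?_, fun _ _ => rfl⟩
      beta_reduce
      rw [hn k (by omega) (y k t), map_zero]
      exact ⟨zero_mem _, map_zero _⟩
    | succ m ih =>
      intro k hk
      obtain ⟨g, g1, g2, g3⟩ := ih (k + 1) (by omega)
      obtain ⟨h, h1, h2⟩ := acy (J := fun a : SB => sg.J a.1) (A := fun a => AL a.1)
        (fun _ _ _ => rfl) (e := fun m => ⟨ε m, a1 m⟩) (fun b => by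
          simp only [sb_dist]
          exact tendsto_iff_norm_sub_tendsto_zero.1 (a2 sg_sh b.1)) (((y1 _).map (α _).1).sub g1)
        fun t ht => by rw [dl_sub fun a => map_sub _, g3 t ht, sub_self]
      obtain ⟨p, p1, p2, p3⟩ := ex_proj (mn (k + 1))
      refine ⟨fun t => DW (k + 1) (p (h t)), (h1.map p).map _,
        fun t _ => ⟨DW_null k (p1 _), DW_DW _ _⟩, fun t ht => ?_⟩
      rw [dl_map (A := B) (A' := B) (DW _) fun a => DW_AW _ a.1, dl_map (A := B) (A' := B) p fun a x =>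
        (p3 _ (fun n => AL_M _ n a.1) x).symm, h2 t ht, p2 _ (sub_mem ((α _).2.2.1 _)
          (null_mono (fun _ => inf_le_right) (g2 t ht).1)), map_sub, (g2 t ht).2, sub_zero, α1,
        y2 k t ht, dl_map (A := A k) (A' := B) _ fun a => (α k).2.1 a.1]
  obtain ⟨g, -, g2, g3⟩ := key (n + 1) 0 (zero_add _)
  have f1 : g [] = α0 (u (1 : ℂ)) := by
    ext φ
    refine tendsto_nhds_unique (((g []).continuous.tendsto _).comp (a2 sg φ))
      ((((α0 _).continuous.tendsto _).comp (a2 sg φ)).congr fun m => ?_)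
    have := g3 [⟨ε m, a1 m⟩] rfl
    rw [dl, dl] at this
    exact (congrArg (· φ) this).symm
  have f2 := sub_mem (null_mono (v := s0) (fun _ => inf_le_left) (g2 [] rfl).1) (b1 (u (1 : ℂ)))
  rw [f1, sub_sub_cancel, e6, one_smul] at f2
  exact de_not f2

end Pool.Agent.H90.Vo
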