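import Mathlib

namespace Pool.Agent.H90.Wlp

open Set MeasureTheory

/-- `f : [0,1] → X` is Riemann integrable (values of `f` off `[0,1]` play no role) -/
def RiemannIntegrable {X : Type*} [NormedAddCommGroup X] [NormedSpace ℝ X] (f : ℝ → X) : Prop :=
  ∃ x : X, ∀ ε : ℝ, 0 < ε → ∃ δ : ℝ, 0 < δ ∧ ∀ (n : ℕ) (p t : ℕ → ℝ), p 0 = 0 → p n = 1 →
    (∀ j < n, p j < p (j + 1) ∧ p (j + 1) - p j < δ ∧ t j ∈ Icc (p j) (p (j + 1))) →
    ‖∑ j ∈ Finset.range n, (p (j + 1) - p j) • f (t j) - x‖ < ε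

/-- `f : [0,1] → X` is continuous at `t` for the weak topology of `X` -/
def WeaklyContinuousAt {X : Type*} [NormedAddCommGroup X] [NormedSpace ℝ X] (f : ℝ → X)
    (t : ℝ) : Prop :=
  ContinuousWithinAt (fun s => toWeakSpace ℝ X (f s)) (Icc 0 1) t

/-- the weak Lebesgue property -/
def WLP (X : Type*) [NormedAddCommGroup X] [NormedSpace ℝ X] : Prop :=
  ∀ f : ℝ → X, RiemannIntegrable f → volume {t ∈ Icc (0 : ℝ) 1 | ¬ WeaklyContinuousAt f t} = 0

/-- strong measure zero subsets of the line -/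
def StrongNull (A : Set ℝ) : Prop :=
  ∀ ε : ℕ → ℝ, (∀ n, 0 < ε n) → ∃ a : ℕ → ℝ, A ⊆ ⋃ n, Icc (a n) (a n + ε n)

/-- `non(SN)`: the least cardinality of a set of reals that is not of strong measure zero -/
noncomputable def nonSN : Cardinal.{0} :=
  sInf {c | ∃ A : Set ℝ, ¬ StrongNull A ∧ Cardinal.mk A = c}

end Pool.Agent.H90.Wlp
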