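import Mathlib
import Pool.Agent.H90.WlpDefs

namespace Pool.Agent.H90.Wlp

open Set MeasureTheory Filter Topology

lemma weak_iff {X : Type*} [NormedAddCommGroup X] [NormedSpace ℝ X] (f : ℝ → X) (t : ℝ) :
    WeaklyContinuousAt f t ↔ ∀ φ : X →L[ℝ] ℝ, ContinuousWithinAt (fun s => φ (f s)) (Icc 0 1) t := by
  have h : IsInducing (fun (x : WeakSpace ℝ X) (φ : X →L[ℝ] ℝ) =>
    (topDualPairing ℝ X).flip x φ) := ⟨rfl⟩
  unfold WeaklyContinuousAt ContinuousWithinAt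
  rw [h.tendsto_nhds_iff, tendsto_pi_nhds]
  rfl

lemma StrongNull.mono {A B : Set ℝ} (h : StrongNull B) (hAB : A ⊆ B) : StrongNull A :=
  fun ε hε => (h ε hε).imp fun _ ha => hAB.trans ha

lemma sn_many {A : ℕ → Set ℝ} (h : ∀ k, StrongNull (A k)) (ε : ℕ → ℝ) (hε : ∀ n, 0 < ε n) :
    ∃ a : ℕ → ℝ, ∀ k, ∀ x ∈ A k, ∃ n, k ≤ n ∧ x ∈ Icc (a n) (a n + ε n) := by
  choose a ha using fun k => h k (fun m => ε (Nat.pair k m)) fun m => hε _
  refine ⟨fun n => a n.unpair.1 n.unpair.2, fun k x hx => ?_⟩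
  obtain ⟨m, hm⟩ := mem_iUnion.1 (ha k hx)
  exact ⟨Nat.pair k m, Nat.left_le_pair k m, by simpa using hm⟩

lemma not_sn_univ : ¬ StrongNull univ := by
  intro h
  obtain ⟨a, ha⟩ := h (fun n => (1 / 2) ^ n) fun n => by positivity
  have h1 := (measure_mono (μ := volume) ha).trans (measure_iUnion_le _)
  simp only [Real.volume_univ, Real.volume_Icc, add_sub_cancel_left] at h1
  rw [← ENNReal.ofReal_tsum_of_nonneg (fun n => by positivity) summable_geometric_two] at h1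
  exact absurd h1 (by simp)

lemma lt_nonSN_iff (Γ : Type*) : Cardinal.mk Γ < Cardinal.lift nonSN ↔
    ∀ g : Γ → ℝ, StrongNull (range g) := by
  constructor
  · intro h g
    by_contra hc
    have h1 : nonSN ≤ Cardinal.mk (range g) := csInf_le' ⟨_, hc, rfl⟩
    have h2 := Cardinal.mk_range_le_lift (f := g)
    rw [Cardinal.lift_uzero] at h2
    exact absurd ((Cardinal.lift_le.2 h1).trans h2) (not_le.2 h)
  · intro h
    by_contra hc
    push Not at hc
    obtain ⟨A, hA, hc2⟩ : nonSN ∈ {c | ∃ A : Set ℝ, ¬ StrongNull A ∧ Cardinal.mk A = c} :=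
      csInf_mem ⟨_, univ, not_sn_univ, rfl⟩
    rw [← hc2, ← Cardinal.lift_uzero (Cardinal.mk Γ)] at hc
    obtain ⟨ι⟩ := Cardinal.lift_mk_le'.1 hc
    classical
    refine hA ((h (Function.extend ι (fun x => (x : ℝ)) 0)).mono fun x hx => ?_)
    exact ⟨ι ⟨x, hx⟩, ι.injective.extend_apply _ _ _⟩

/-- simultaneous guessing: few sequences in a bounded product are matched infinitely often -/
lemma guess {Γ : Type*} (h : ∀ g : Γ → ℝ, StrongNull (range g)) (B : ℕ → ℕ) (d : Γ → ℕ → ℕ)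
    (hd : ∀ γ k, d γ k ≤ B k) [Nonempty Γ] :
    ∃ c : ℕ → Γ, ∀ γ m, ∃ k, m ≤ k ∧ d γ k = d (c k) k := by
  let w : ℕ → ℝ := fun k => Nat.rec 1 (fun k w => w / (4 * (B (k + 1) + 1))) k
  have ws : ∀ k, w (k + 1) = w k / (4 * (B (k + 1) + 1)) := fun k => rfl
  have w0 : ∀ k, 0 < w k := by
    intro k
    induction k with
    | zero => exact one_pos
    | succ k ih => rw [ws]; positivity
  have w1 : ∀ k, (B (k + 1) + 1) * w (k + 1) = w k / 4 := by
    intro k; rw [ws]; field_simp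
  have w2 : ∀ k, w (k + 1) ≤ w k / 4 := by
    intro k
    nlinarith [w1 k, w0 (k + 1), (Nat.cast_nonneg (B (k + 1)) : (0 : ℝ) ≤ _)]
  have w3 : ∀ j i, w (j + i) ≤ w j * (1 / 4) ^ i := by
    intro j i
    induction i with
    | zero => simp
    | succ i ih => rw [← add_assoc, pow_succ]; linarith [w2 (j + i)]
  have tb : ∀ γ j i, (d γ (i + (j + 1)) : ℝ) * w (i + (j + 1)) ≤ w j / 4 * (1 / 4) ^ i := by
    intro γ j i
    have e : i + (j + 1) = j + i + 1 := by ring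
    rw [e]
    have a1 : (d γ (j + i + 1) : ℝ) ≤ B (j + i + 1) := by exact_mod_cast hd γ _
    nlinarith [w1 (j + i), w0 (j + i + 1), w3 j i]
  have geo : ∀ j, HasSum (fun i : ℕ => w j / 4 * (1 / 4 : ℝ) ^ i) (w j / 3) := by
    intro j
    have := (hasSum_geometric_of_lt_one (r := (1 / 4 : ℝ)) (by norm_num) (by norm_num)).mul_left (w j / 4)
    rwa [show w j / 4 * (1 - 1 / 4 : ℝ)⁻¹ = w j / 3 by ring] at this
  have sm : ∀ γ j, Summable fun i => (d γ (i + (j + 1)) : ℝ) * w (i + (j + 1)) := fun γ j =>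
    Summable.of_nonneg_of_le (fun i => mul_nonneg (Nat.cast_nonneg _) (w0 (i + (j + 1))).le) (tb γ j)
      (geo j).summable
  have sm0 : ∀ γ, Summable fun i => (d γ i : ℝ) * w i := fun γ =>
    (summable_nat_add_iff 1).1 (sm γ 0)
  let x : Γ → ℝ := fun γ => ∑' i, (d γ i : ℝ) * w i
  have sep : ∀ γ γ' k, |x γ - x γ'| ≤ w k / 2 → d γ k = d γ' k := by
    intro γ γ' k hk
    by_contra hne
    have hex : ∃ j, d γ j ≠ d γ' j := ⟨k, hne⟩
    classical
    set j := Nat.find hex with hj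
    have hj1 : d γ j ≠ d γ' j := Nat.find_spec hex
    have hjk : j ≤ k := Nat.find_min' hex hne
    have hj2 : ∀ i < j, d γ i = d γ' i := fun i hi => not_not.1 (Nat.find_min hex hi)
    have sp : ∀ γ, x γ = ∑ i ∈ Finset.range j, (d γ i : ℝ) * w i + d γ j * w j +
        ∑' i, (d γ (i + (j + 1)) : ℝ) * w (i + (j + 1)) := by
      intro γ
      rw [← Finset.sum_range_succ (fun i => (d γ i : ℝ) * w i)]
      exact ((sm0 γ).sum_add_tsum_nat_add (j + 1)).symm
    have t0 : ∀ γ, 0 ≤ ∑' i, (d γ (i + (j + 1)) : ℝ) * w (i + (j + 1)) := fun γ =>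
      tsum_nonneg fun i => mul_nonneg (Nat.cast_nonneg _) (w0 (i + (j + 1))).le
    have t1 : ∀ γ, ∑' i, (d γ (i + (j + 1)) : ℝ) * w (i + (j + 1)) ≤ w j / 3 := fun γ =>
      hasSum_le (tb γ j) (sm γ j).hasSum (geo j)
    have e : ∑ i ∈ Finset.range j, (d γ i : ℝ) * w i = ∑ i ∈ Finset.range j, (d γ' i : ℝ) * w i :=
      Finset.sum_congr rfl fun i hi => by rw [hj2 i (Finset.mem_range.1 hi)]
    have wk : w k ≤ w j := by
      have := w3 j (k - j)
      rw [Nat.add_sub_cancel' hjk] at this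
      exact this.trans (mul_le_of_le_one_right (w0 j).le (pow_le_one₀ (by norm_num) (by norm_num)))
    rw [sp γ, sp γ', e, abs_le] at hk
    have p := w0 j
    rcases lt_or_gt_of_ne hj1 with hl | hl
    · have : (d γ j : ℝ) + 1 ≤ d γ' j := by exact_mod_cast hl
      nlinarith [t0 γ, t0 γ', t1 γ, t1 γ']
    · have : (d γ' j : ℝ) + 1 ≤ d γ j := by exact_mod_cast hl
      nlinarith [t0 γ, t0 γ', t1 γ, t1 γ']
  obtain ⟨a, ha⟩ := sn_many (A := fun _ => range x) (fun _ => h x) (fun k => w k / 2)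
    fun k => half_pos (w0 k)
  have : ∀ k, ∃ c : Γ, ∀ γ, x γ ∈ Icc (a k) (a k + w k / 2) → d γ k = d c k := by
    intro k
    by_cases hk : ∃ c, x c ∈ Icc (a k) (a k + w k / 2)
    · obtain ⟨c, hc⟩ := hk
      refine ⟨c, fun γ hγ => sep _ _ _ ?_⟩
      rw [abs_le]; constructor <;> linarith [hc.1, hc.2, hγ.1, hγ.2]
    · exact ⟨Classical.arbitrary Γ, fun γ hγ => absurd ⟨γ, hγ⟩ hk⟩
  choose c hc using this
  refine ⟨c, fun γ m => ?_⟩
  obtain ⟨n, h1, h2⟩ := ha m (x γ) (mem_range_self γ)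
  exact ⟨n, h1, hc n γ h2⟩

end Pool.Agent.H90.Wlp
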