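import Mathlib
import Pool.Agent.H90.WlpA

namespace Pool.Agent.H90.Wlp

open Set MeasureTheory Filter Topology

variable {X : Type*} [NormedAddCommGroup X] [NormedSpace ℝ X]

lemma unif {f : ℝ → X} (hf : RiemannIntegrable f) {ε : ℝ} (hε : 0 < ε) : ∃ N : ℕ, 0 < N ∧
    ∀ a b : ℕ → ℝ, (∀ j < N, a j ∈ Icc ((j : ℝ) / N) ((j + 1) / N)) →
      (∀ j < N, b j ∈ Icc ((j : ℝ) / N) ((j + 1) / N)) →
      ‖∑ j ∈ Finset.range N, (N : ℝ)⁻¹ • (f (a j) - f (b j))‖ < ε := by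
  obtain ⟨x, hx⟩ := hf
  obtain ⟨δ, hδ, h⟩ := hx (ε / 2) (half_pos hε)
  obtain ⟨N, hN⟩ := exists_nat_gt δ⁻¹
  have hN0 : (0 : ℝ) < N := (inv_pos.2 hδ).trans hN
  refine ⟨N, by exact_mod_cast hN0, fun a b ha hb => ?_⟩
  have e : ∀ j : ℕ, ((j + 1 : ℕ) : ℝ) / N - (j : ℝ) / N = (N : ℝ)⁻¹ := by
    intro j; push_cast; field_simp; ring
  have key : ∀ a : ℕ → ℝ, (∀ j < N, a j ∈ Icc ((j : ℝ) / N) ((j + 1) / N)) →
      ‖∑ j ∈ Finset.range N, (N : ℝ)⁻¹ • f (a j) - x‖ < ε / 2 := by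
    intro a ha
    have := h N (fun j => (j : ℝ) / N) a (by simp) (div_self hN0.ne') fun j hj => ⟨by
      have := inv_pos.2 hN0
      linarith [e j], by rw [e]; exact inv_lt_of_inv_lt₀ hδ hN, by simpa using ha j hj⟩
    simpa only [e] using this
  have := norm_sub_le (∑ j ∈ Finset.range N, (N : ℝ)⁻¹ • f (a j) - x)
    (∑ j ∈ Finset.range N, (N : ℝ)⁻¹ • f (b j) - x)
  rw [sub_sub_sub_cancel_right, ← Finset.sum_sub_distrib] at this
  simp only [smul_sub]
  linarith [key a ha, key b hb]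

lemma left_mem {N : ℕ} (hN : 0 < N) (j : ℕ) : (j : ℝ) / N ∈ Icc ((j : ℝ) / N) ((j + 1) / N) := by
  have : (0 : ℝ) < N := by exact_mod_cast hN
  exact ⟨le_rfl, by gcongr; linarith⟩

lemma exists_cell {N : ℕ} (hN : 0 < N) {s : ℝ} (hs : s ∈ Icc (0 : ℝ) 1) :
    ∃ j < N, s ∈ Icc ((j : ℝ) / N) ((j + 1) / N) := by
  have hN0 : (0 : ℝ) < N := by exact_mod_cast hN
  rcases eq_or_lt_of_le hs.2 with h | h
  · obtain ⟨M, rfl⟩ : ∃ M, N = M + 1 := ⟨N - 1, by omega⟩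
    refine ⟨M, by omega, ?_, ?_⟩
    · rw [h, div_le_one hN0]; push_cast; linarith
    · rw [h, le_div_iff₀ hN0]; push_cast; linarith
  · have h0 : 0 ≤ s * N := mul_nonneg hs.1 hN0.le
    refine ⟨⌊s * N⌋₊, (Nat.floor_lt h0).2 (by nlinarith), ?_, ?_⟩
    · rw [div_le_iff₀ hN0]; exact Nat.floor_le h0
    · rw [le_div_iff₀ hN0]; exact (Nat.lt_floor_add_one _).le

lemma bounded {f : ℝ → X} (hf : RiemannIntegrable f) : ∃ C, ∀ s ∈ Icc (0 : ℝ) 1, ‖f s‖ ≤ C := by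
  obtain ⟨N, hN, h⟩ := unif hf one_pos
  have hN0 : (0 : ℝ) < N := by exact_mod_cast hN
  refine ⟨N + ∑ j ∈ Finset.range N, ‖f (j / N)‖, fun s hs => ?_⟩
  obtain ⟨j, hj, hsj⟩ := exists_cell hN hs
  have := h (fun i => if i = j then s else i / N) (fun i => i / N) (fun i _ => by
    split_ifs with h1
    · rw [h1]; exact hsj
    · exact left_mem hN i) (fun i _ => left_mem hN i)
  rw [Finset.sum_eq_single j (fun i _ hi => by simp [hi]) (by simp [hj])] at this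
  simp only [if_true, norm_smul, norm_inv, Real.norm_natCast] at this
  rw [inv_mul_lt_iff₀ hN0, mul_one] at this
  have h2 := Finset.single_le_sum (f := fun i : ℕ => ‖f (i / N)‖) (fun _ _ => norm_nonneg _)
    (Finset.mem_range.2 hj)
  linarith [norm_sub_norm_le (f s) (f (j / N))]

theorem ae_cont {Γ : Type*} (h : ∀ g : Γ → ℝ, StrongNull (range g)) (ψ : Γ → X →L[ℝ] ℝ)
    (hψ : ∀ γ x, ψ γ x ≤ ‖x‖) {f : ℝ → X} (hf : RiemannIntegrable f) :
    ∀ᵐ t : ℝ, t ∈ Icc (0 : ℝ) 1 → ∀ γ, ContinuousWithinAt (fun s => ψ γ (f s)) (Icc 0 1) t := by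
  classical
  rcases isEmpty_or_nonempty Γ with hΓ | hΓ
  · exact ae_of_all _ fun t _ γ => hΓ.elim γ
  choose N N0 hN using fun k : ℕ => unif hf (ε := (1 / 2) ^ k / (k + 1)) (by positivity)
  let S : Γ → ℕ → Finset ℕ := fun γ k => (Finset.range (N k)).filter fun j =>
    ∃ a ∈ Icc ((j : ℝ) / N k) ((j + 1) / N k), ∃ b ∈ Icc ((j : ℝ) / N k) ((j + 1) / N k),
      1 / ((k : ℝ) + 1) < ψ γ (f a) - ψ γ (f b)
  have card : ∀ γ k, ((S γ k).card : ℝ) * (N k : ℝ)⁻¹ ≤ (1 / 2) ^ k := by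
    intro γ k
    have : ∀ j : ℕ, ∃ a ∈ Icc ((j : ℝ) / N k) ((j + 1) / N k), ∃ b ∈ Icc ((j : ℝ) / N k) ((j + 1) / N k),
        (if j ∈ S γ k then 1 / ((k : ℝ) + 1) else 0) ≤ ψ γ (f a) - ψ γ (f b) := by
      intro j
      split_ifs with hj
      · obtain ⟨a, ha, b, hb, hab⟩ := (Finset.mem_filter.1 hj).2
        exact ⟨a, ha, b, hb, hab.le⟩
      · exact ⟨_, left_mem (N0 k) j, _, left_mem (N0 k) j, by simp⟩
    choose a ha b hb hab using this
    have h1 := (hψ γ _).trans (hN k a b (fun j _ => ha j) (fun j _ => hb j)).le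
    rw [map_sum] at h1
    simp only [map_smul, map_sub, smul_eq_mul] at h1
    have h2 : ∑ j ∈ Finset.range (N k), (N k : ℝ)⁻¹ * (if j ∈ S γ k then 1 / ((k : ℝ) + 1) else 0) ≤
        ∑ j ∈ Finset.range (N k), (N k : ℝ)⁻¹ * (ψ γ (f (a j)) - ψ γ (f (b j))) :=
      Finset.sum_le_sum fun j _ => mul_le_mul_of_nonneg_left (hab j) (by positivity)
    rw [← Finset.mul_sum, Finset.sum_ite_mem, Finset.inter_eq_right.2
      (show S γ k ⊆ Finset.range (N k) from Finset.filter_subset _ _),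
      Finset.sum_const, nsmul_eq_mul] at h2
    have h3 := h2.trans h1
    rw [le_div_iff₀ (by positivity)] at h3
    refine le_trans (le_of_eq ?_) h3
    field_simp
  obtain ⟨c, hc⟩ := guess h (fun k => (Finset.range (N k)).powerset.sup Encodable.encode)
    (fun γ k => Encodable.encode (S γ k)) fun γ k =>
      Finset.le_sup (f := Encodable.encode) (Finset.mem_powerset.2 (Finset.filter_subset _ _))
  let E : ℕ → Set ℝ := fun k => ⋃ j ∈ S (c k) k, Icc ((j : ℝ) / N k) ((j + 1) / N k)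
  have hE : ∀ k, volume (E k) ≤ ENNReal.ofReal ((1 / 2) ^ k) := by
    intro k
    refine (measure_biUnion_finset_le _ _).trans ?_
    have e : ∀ j : ℕ, ((j : ℝ) + 1) / N k - j / N k = (N k : ℝ)⁻¹ := by intro j; ring
    simp only [Real.volume_Icc, e, Finset.sum_const, nsmul_eq_mul]
    rw [← ENNReal.ofReal_natCast, ← ENNReal.ofReal_mul (Nat.cast_nonneg _)]
    exact ENNReal.ofReal_le_ofReal (card _ _)
  have hsum : ∑' k, volume (E k) ≠ ⊤ := by
    refine ne_top_of_le_ne_top ?_ (ENNReal.tsum_le_tsum hE)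
    rw [← ENNReal.ofReal_tsum_of_nonneg (fun n => by positivity) summable_geometric_two]
    exact ENNReal.ofReal_ne_top
  have hirr : ∀ᵐ t : ℝ, t ∉ range ((↑) : ℚ → ℝ) :=
    measure_eq_zero_iff_ae_notMem.1 ((countable_range _).measure_zero _)
  filter_upwards [ae_eventually_notMem hsum, hirr] with t h1 h2 ht γ
  obtain ⟨m, hm⟩ := eventually_atTop.1 h1
  rw [Metric.continuousWithinAt_iff']
  intro η hη
  obtain ⟨m', hm'⟩ := exists_nat_one_div_lt hη
  obtain ⟨k, hk, hk2⟩ := hc γ (max m m')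
  have e := Encodable.encode_injective hk2
  obtain ⟨j, hj, htj⟩ := exists_cell (N0 k) ht
  have hjS : j ∉ S γ k := by
    intro hjS
    rw [e] at hjS
    exact hm k ((le_max_left _ _).trans hk) (mem_biUnion hjS htj)
  have hlt : 1 / ((k : ℝ) + 1) < η := by
    refine lt_of_le_of_lt ?_ hm'
    have : (m' : ℝ) ≤ k := by exact_mod_cast (le_max_right _ _).trans hk
    gcongr
  have hnb : Icc ((j : ℝ) / N k) ((j + 1) / N k) ∈ 𝓝 t := by
    apply Icc_mem_nhds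
    · refine lt_of_le_of_ne htj.1 fun h3 => h2 ⟨j / N k, ?_⟩
      rw [← h3]; push_cast; rfl
    · refine lt_of_le_of_ne htj.2 fun h3 => h2 ⟨(j + 1) / N k, ?_⟩
      rw [h3]; push_cast; rfl
  filter_upwards [mem_nhdsWithin_of_mem_nhds hnb] with s hs
  simp only [S, Finset.mem_filter, Finset.mem_range, hj, true_and, not_exists, not_and, not_lt] at hjS
  rw [Real.dist_eq, abs_lt]
  constructor <;> linarith [hjS s hs t htj, hjS t htj s hs]

lemma cwa_of_approx {g : ℝ → ℝ} {s : Set ℝ} {t : ℝ} (ht : t ∈ s)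
    (h : ∀ ε > 0, ∃ u : ℝ → ℝ, ContinuousWithinAt u s t ∧ ∀ x ∈ s, |g x - u x| ≤ ε) :
    ContinuousWithinAt g s t := by
  rw [Metric.continuousWithinAt_iff']
  intro η hη
  obtain ⟨u, hu, h2⟩ := h (η / 3) (by positivity)
  filter_upwards [Metric.continuousWithinAt_iff'.1 hu (η / 3) (by positivity), self_mem_nhdsWithin]
    with x h3 hx
  have a1 := abs_le.1 (h2 x hx)
  have a2 := abs_le.1 (h2 t ht)
  rw [Real.dist_eq, abs_lt] at h3 ⊢
  constructor <;> linarith [a1.1, a1.2, a2.1, a2.2, h3.1, h3.2]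

theorem wlp_of_small {Γ : Type*} (h : ∀ g : Γ → ℝ, StrongNull (range g)) :
    WLP (lp (fun _ : Γ => ℝ) 2) := by
  classical
  intro f hf
  obtain ⟨C, hC⟩ := bounded hf
  have hC0 : 0 ≤ C := (norm_nonneg _).trans (hC 0 ⟨le_rfl, zero_le_one⟩)
  have := ae_cont h (fun γ => innerSL ℝ (lp.single 2 γ (1 : ℝ) : lp (fun _ : Γ => ℝ) 2)) (fun γ x => by
    refine (real_inner_le_norm (lp.single 2 γ (1 : ℝ) : lp (fun _ : Γ => ℝ) 2) x).trans ?_
    rw [lp.norm_single (by norm_num)]; simp) hf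
  rw [measure_eq_zero_iff_ae_notMem]
  filter_upwards [this] with t ht
  rintro ⟨ht1, ht2⟩
  refine ht2 ((weak_iff f t).2 fun φ => cwa_of_approx ht1 fun ε hε => ?_)
  set y := (InnerProductSpace.toDual ℝ _).symm φ with hy
  have h1 := lp.hasSum_single (E := fun _ : Γ => ℝ) (p := 2) (by norm_num) y
  obtain ⟨F, hF⟩ := (Metric.tendsto_nhds.1 h1 (ε / (C + 1)) (by positivity)).exists
  refine ⟨fun s => ∑ i ∈ F, y i * inner ℝ (lp.single 2 i (1 : ℝ) : lp (fun _ : Γ => ℝ) 2) (f s),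
    ?_, fun s hs => ?_⟩
  · exact tendsto_finsetSum _ fun i _ => (ht ht1 i).const_mul _
  · have e1 : φ (f s) = inner ℝ y (f s) := by rw [hy, InnerProductSpace.toDual_symm_apply]
    have e2 : ∑ i ∈ F, y i * inner ℝ (lp.single 2 i (1 : ℝ) : lp (fun _ : Γ => ℝ) 2) (f s) =
        inner ℝ (∑ i ∈ F, (lp.single 2 i (y i) : lp (fun _ : Γ => ℝ) 2)) (f s) := by
      rw [sum_inner]
      apply Finset.sum_congr rfl
      intro i _
      rw [lp.inner_single_left, lp.inner_single_left]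
      simp [mul_comm]
    beta_reduce at hF ⊢
    rw [e1, e2, ← inner_sub_left]
    refine (abs_real_inner_le_norm _ _).trans ?_
    rw [dist_comm, dist_eq_norm, lt_div_iff₀ (by positivity)] at hF
    nlinarith [hC s hs, norm_nonneg (y - ∑ i ∈ F, (lp.single 2 i (y i) : lp (fun _ : Γ => ℝ) 2))]

end Pool.Agent.H90.Wlp
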