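import Mathlib
import Pool.Agent.H90.WlpA

namespace Pool.Agent.H90.Wlp

open Set MeasureTheory Filter Topology

lemma exists_bits (b : ℕ) : ∃ β : ℕ → Finset ℕ,
    (∀ J ⊆ Finset.range b, ((Finset.range (2 ^ b)).filter fun c => J ⊆ β c).card * 2 ^ J.card ≤ 2 ^ b) ∧
    (∀ j < b, ((Finset.range (2 ^ b)).filter fun c => j ∉ β c).card * 2 ≤ 2 ^ b) := by
  have hc : (Finset.range b).powerset.card = 2 ^ b := by simp
  let e := Finset.equivFinOfCardEq hc
  let β : ℕ → Finset ℕ := fun c => if h : c < 2 ^ b then (e.symm ⟨c, h⟩).1 else ∅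
  have hsub : ∀ c, β c ⊆ Finset.range b := by
    intro c
    simp only [β]
    split_ifs with h
    · exact Finset.mem_powerset.1 (e.symm ⟨c, h⟩).2
    · simp
  have hinj : ∀ c < 2 ^ b, ∀ c' < 2 ^ b, β c = β c' → c = c' := by
    intro c h c' h' hcc
    simp only [β, dif_pos h, dif_pos h'] at hcc
    simpa using e.symm.injective (Subtype.ext hcc)
  refine ⟨β, fun J hJ => ?_, fun j hj => ?_⟩
  · have h1 := Finset.card_le_card_of_injOn (s := (Finset.range (2 ^ b)).filter fun c => J ⊆ β c)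
      (t := Finset.Icc J (Finset.range b)) β
      (fun c hc => by
        simp only [Finset.coe_filter, mem_ofPred_eq] at hc
        exact Finset.mem_coe.2 (Finset.mem_Icc.2 ⟨hc.2, hsub c⟩))
      (fun c hc c' hc' h => by
        simp only [Finset.coe_filter, mem_ofPred_eq, Finset.mem_range] at hc hc'
        exact hinj c hc.1 c' hc'.1 h)
    rw [Finset.card_Icc_finset hJ, Finset.card_range] at h1
    have h2 : J.card ≤ b := by simpa using Finset.card_le_card hJ
    calc _ ≤ 2 ^ (b - J.card) * 2 ^ J.card := Nat.mul_le_mul_right _ h1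
      _ = 2 ^ b := by rw [← pow_add]; congr 1; omega
  · have h1 := Finset.card_le_card_of_injOn (s := (Finset.range (2 ^ b)).filter fun c => j ∉ β c)
      (t := ((Finset.range b).erase j).powerset) β
      (fun c hc => by
        simp only [Finset.coe_filter, mem_ofPred_eq] at hc
        exact Finset.mem_coe.2 (Finset.mem_powerset.2 (Finset.subset_erase.2 ⟨hsub c, hc.2⟩)))
      (fun c hc c' hc' h => by
        simp only [Finset.coe_filter, mem_ofPred_eq, Finset.mem_range] at hc hc'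
        exact hinj c hc.1 c' hc'.1 h)
    rw [Finset.card_powerset, Finset.card_erase_of_mem (Finset.mem_range.2 hj), Finset.card_range] at h1
    calc _ ≤ 2 ^ (b - 1) * 2 := Nat.mul_le_mul_right _ h1
      _ = 2 ^ b := by rw [← pow_succ]; congr 1; omega

noncomputable def bits (b : ℕ) : ℕ → Finset ℕ := (exists_bits b).choose

def cell (M a : ℕ) : Set ℝ := Icc ((a : ℝ) / M) ((a + 1) / M)

lemma child_sub {M : ℕ} (hM : 0 < M) {q c : ℕ} (hc : c < q) (a : ℕ) :
    cell (M * q) (a * q + c) ⊆ cell M a := by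
  have hM0 : (0 : ℝ) < M := by exact_mod_cast hM
  have hq0 : (0 : ℝ) < q := by exact_mod_cast (Nat.zero_le c).trans_lt hc
  have hc' : (c : ℝ) + 1 ≤ q := by exact_mod_cast hc
  apply Icc_subset_Icc
  · push_cast
    rw [div_le_div_iff₀ hM0 (by positivity)]
    nlinarith [mul_nonneg (Nat.cast_nonneg c : (0 : ℝ) ≤ c) hM0.le]
  · push_cast
    rw [div_le_div_iff₀ (by positivity) hM0]
    nlinarith [mul_le_mul_of_nonneg_right hc' hM0.le]

lemma child_cover {M q : ℕ} (hM : 0 < M) (hq : 0 < q) (a : ℕ) :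
    cell M a ⊆ ⋃ c ∈ Finset.range q, cell (M * q) (a * q + c) := by
  have hM0 : (0 : ℝ) < M := by exact_mod_cast hM
  have hq0 : (0 : ℝ) < q := by exact_mod_cast hq
  intro t ht
  obtain ⟨h1, h2⟩ := ht
  rw [div_le_iff₀ hM0] at h1
  rw [le_div_iff₀ hM0] at h2
  have key : ∃ c : ℕ, c < q ∧ (c : ℝ) ≤ (t * M - a) * q ∧ (t * M - a) * q ≤ c + 1 := by
    rcases eq_or_lt_of_le h2 with h | h
    · obtain ⟨r, rfl⟩ : ∃ r, q = r + 1 := ⟨q - 1, by omega⟩
      refine ⟨r, by omega, ?_, ?_⟩ <;> rw [h] <;> push_cast <;> linarith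
    · have h0 : 0 ≤ (t * M - a) * q := mul_nonneg (by linarith) hq0.le
      exact ⟨⌊(t * M - a) * q⌋₊, (Nat.floor_lt h0).2 (by nlinarith), Nat.floor_le h0,
        (Nat.lt_floor_add_one _).le⟩
  obtain ⟨c, c1, c2, c3⟩ := key
  refine mem_biUnion (Finset.mem_coe.2 (Finset.mem_range.2 c1)) ⟨?_, ?_⟩
  · push_cast; rw [div_le_iff₀ (by positivity)]; linarith
  · push_cast; rw [le_div_iff₀ (by positivity)]; linarith

lemma vol_cell (M a : ℕ) : volume.real (cell M a) = (M : ℝ)⁻¹ := by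
  have : ((a : ℝ) + 1) / M - a / M = (M : ℝ)⁻¹ := by ring
  rw [cell, Real.volume_real_Icc, this, max_eq_left (by positivity)]

def MM (b : ℕ → ℕ) : ℕ → ℕ
  | 0 => 1
  | N + 1 => MM b N * 2 ^ b N

lemma MM_pos (b : ℕ → ℕ) : ∀ N, 0 < MM b N
  | 0 => one_pos
  | N + 1 => Nat.mul_pos (MM_pos b N) (by positivity)

noncomputable def KK (b f : ℕ → ℕ) : ℕ → Finset ℕ
  | 0 => {0}
  | N + 1 => (KK b f N ×ˢ (Finset.range (2 ^ b N)).filter fun c => f N ∉ bits (b N) c).image
      fun z => z.1 * 2 ^ b N + z.2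

def CC (b f : ℕ → ℕ) : Set ℝ := {t | ∀ N, ∃ a ∈ KK b f N, t ∈ cell (MM b N) a}

lemma card_KK {b f : ℕ → ℕ} (h : ∀ N, f N < b N) : ∀ N, (KK b f N).card * 2 ^ N ≤ MM b N
  | 0 => by simp [KK, MM]
  | N + 1 => by
    have h1 := card_KK h N
    have h2 := (exists_bits (b N)).choose_spec.2 _ (h N)
    calc (KK b f (N + 1)).card * 2 ^ (N + 1) ≤ ((KK b f N).card *
          ((Finset.range (2 ^ b N)).filter fun c => f N ∉ bits (b N) c).card) * 2 ^ (N + 1) := by
          apply Nat.mul_le_mul_right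
          rw [← Finset.card_product]
          exact Finset.card_image_le
      _ = ((KK b f N).card * 2 ^ N) *
          (((Finset.range (2 ^ b N)).filter fun c => f N ∉ bits (b N) c).card * 2) := by ring
      _ ≤ _ := Nat.mul_le_mul h1 h2

lemma capture (b : ℕ → ℕ) {P : Set ℝ} (hP : IsClosed P) (hP2 : 1 / 2 ≤ volume.real (P ∩ Icc 0 1)) :
    ∃ Φ : ℕ → Finset ℕ, (∀ N, (Φ N).card ≤ MM b N * (N + 2)) ∧
      ∀ f : ℕ → ℕ, (∀ N, f N < b N) → CC b f ∩ P = ∅ → ∃ N, f N ∈ Φ N := by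
  classical
  let good : ℕ → ℕ → Prop := fun N a => (1 / 2) ^ (N + 1) * (MM b N : ℝ)⁻¹ ≤
    volume.real (P ∩ cell (MM b N) a)
  let J : ℕ → ℕ → Finset ℕ := fun N a => (Finset.range (b N)).filter fun j =>
    ∀ c < 2 ^ b N, j ∉ bits (b N) c → ¬ good (N + 1) (a * 2 ^ b N + c)
  have fin : ∀ M a, volume (P ∩ cell M a) ≠ ⊤ := fun M a =>
    ne_top_of_le_ne_top (by simp [cell]) (measure_mono inter_subset_right)
  have hJ : ∀ N a, good N a → (J N a).card ≤ N + 2 := by
    intro N a ha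
    have M0 : (0 : ℝ) < MM b N := by exact_mod_cast MM_pos b N
    have h1 : volume.real (P ∩ cell (MM b N) a) ≤ ∑ c ∈ Finset.range (2 ^ b N),
        volume.real (P ∩ cell (MM b (N + 1)) (a * 2 ^ b N + c)) := by
      refine le_trans (measureReal_mono ?_ ?_) (measureReal_biUnion_finset_le _ _)
      · rw [← inter_iUnion₂]
        exact inter_subset_inter_right _ (child_cover (MM_pos b N) (by positivity) a)
      · exact ((measure_biUnion_finset_le _ _).trans_lt
          (ENNReal.sum_lt_top.2 fun c _ => (fin _ _).lt_top)).ne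
    have h2 : ∀ c ∈ Finset.range (2 ^ b N), volume.real (P ∩ cell (MM b (N + 1)) (a * 2 ^ b N + c)) ≤
        (1 / 2) ^ (N + 2) * (MM b (N + 1) : ℝ)⁻¹ +
          if J N a ⊆ bits (b N) c then (MM b (N + 1) : ℝ)⁻¹ else 0 := by
      intro c hc
      split_ifs with h
      · have := measureReal_mono (μ := volume) (inter_subset_right (s := P)
          (t := cell (MM b (N + 1)) (a * 2 ^ b N + c))) (by simp [cell])
        rw [vol_cell] at this
        have : (0 : ℝ) ≤ (1 / 2) ^ (N + 2) * (MM b (N + 1) : ℝ)⁻¹ := by positivity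
        linarith
      · obtain ⟨j, hj, hj2⟩ := Finset.not_subset.1 h
        have := (Finset.mem_filter.1 hj).2 c (Finset.mem_range.1 hc) hj2
        simp only [good, not_le] at this
        linarith
    have h3 := (ha.trans h1).trans (Finset.sum_le_sum h2)
    rw [Finset.sum_add_distrib, ← Finset.sum_filter] at h3
    simp only [Finset.sum_const, Finset.card_range, nsmul_eq_mul, MM] at h3
    have h4 := (exists_bits (b N)).choose_spec.1 (J N a) (Finset.filter_subset _ _)
    have h5 : (((Finset.range (2 ^ b N)).filter fun c => J N a ⊆ bits (b N) c).card : ℝ) *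
        2 ^ (J N a).card ≤ 2 ^ b N := by exact_mod_cast h4
    generalize (((Finset.range (2 ^ b N)).filter fun c => J N a ⊆ bits (b N) c).card : ℝ) = u at h3 h5
    push_cast at h3
    have h6 : (2 : ℝ) ^ b N ≤ u * 2 ^ (N + 2) := by
      have e1 : (1 / 2 : ℝ) ^ (N + 1) = 2 * ((2 : ℝ) ^ (N + 2))⁻¹ := by
        rw [one_div, inv_pow]; field_simp; ring
      have e2 : (1 / 2 : ℝ) ^ (N + 2) = ((2 : ℝ) ^ (N + 2))⁻¹ := by rw [one_div, inv_pow]
      rw [e1, e2] at h3
      field_simp at h3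
      linarith
    have h7 : (2 : ℝ) ^ (J N a).card ≤ 2 ^ (N + 2) := by
      have hu : 0 < u := by
        by_contra hu
        push Not at hu
        nlinarith [pow_pos (two_pos (α := ℝ)) (b N), pow_pos (two_pos (α := ℝ)) (N + 2)]
      exact le_of_mul_le_mul_left (h5.trans h6) hu
    exact (pow_le_pow_iff_right₀ one_lt_two).1 h7
  refine ⟨fun N => ((Finset.range (MM b N)).filter (good N)).biUnion (J N), fun N => ?_,
    fun f hf hd => ?_⟩
  · refine (Finset.card_biUnion_le_card_mul _ _ (N + 2) fun a ha =>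
      hJ N a (Finset.mem_filter.1 ha).2).trans (Nat.mul_le_mul_right _ ?_)
    simpa using Finset.card_filter_le (Finset.range (MM b N)) (good N)
  by_contra hc
  push Not at hc
  let Q : ℕ → ℕ → Prop := fun N a => a ∈ KK b f N ∧ a < MM b N ∧ good N a
  have step : ∀ N a, Q N a → ∃ a', Q (N + 1) a' ∧ cell (MM b (N + 1)) a' ⊆ cell (MM b N) a := by
    intro N a ⟨q1, q2, q3⟩
    have h1 : f N ∉ J N a := fun h => hc N (Finset.mem_biUnion.2
      ⟨a, Finset.mem_filter.2 ⟨Finset.mem_range.2 q2, q3⟩, h⟩)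
    simp only [J, Finset.mem_filter, Finset.mem_range, hf N, true_and, not_forall, not_not] at h1
    obtain ⟨c, c1, c2, c3⟩ := h1
    refine ⟨a * 2 ^ b N + c, ⟨?_, ?_, c3⟩, child_sub (MM_pos b N) c1 a⟩
    · exact Finset.mem_image.2 ⟨(a, c), Finset.mem_product.2
        ⟨q1, Finset.mem_filter.2 ⟨Finset.mem_range.2 c1, c2⟩⟩, rfl⟩
    · simp only [MM]; nlinarith
  choose g g1 g2 using step
  have Q0 : Q 0 0 := ⟨by simp [KK], by simp [MM], by simpa [good, MM, cell] using hP2⟩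
  let s : ∀ N, {a // Q N a} := fun N => Nat.rec ⟨0, Q0⟩ (fun N x => ⟨g N x.1 x.2, g1 N x.1 x.2⟩) N
  obtain ⟨t, ht⟩ := IsCompact.nonempty_iInter_of_sequence_nonempty_isCompact_isClosed
    (fun N => P ∩ cell (MM b N) (s N).1) (fun N => inter_subset_inter_right _ (g2 N _ (s N).2))
    (fun N => by
      rw [nonempty_iff_ne_empty]
      intro h0
      have := (s N).2.2.2
      simp only [good, h0, measureReal_empty] at this
      have M0 : (0 : ℝ) < MM b N := by exact_mod_cast MM_pos b N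
      exact absurd this (not_le.2 (by positivity)))
    (isCompact_Icc.inter_left hP) (fun N => hP.inter isClosed_Icc)
  rw [mem_iInter] at ht
  have : t ∈ CC b f ∩ P := ⟨fun N => ⟨_, (s N).2.1, (ht N).2⟩, (ht 0).1⟩
  rw [hd] at this
  exact this

lemma vol_nbhd {b f : ℕ → ℕ} (h : ∀ N, f N < b N) (N : ℕ) {δ : ℝ} (hδ : 0 ≤ δ) :
    volume (⋃ a ∈ KK b f N, Icc ((a : ℝ) / MM b N - δ) ((a + 1) / MM b N + δ)) ≤
      ENNReal.ofReal ((1 / 2) ^ N * (1 + 2 * δ * MM b N)) := by
  refine (measure_biUnion_finset_le _ _).trans ?_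
  have e : ∀ a : ℕ, ((a : ℝ) + 1) / MM b N + δ - (a / MM b N - δ) = (MM b N : ℝ)⁻¹ + 2 * δ := by
    intro a; ring
  simp only [Real.volume_Icc, e, Finset.sum_const, nsmul_eq_mul]
  rw [← ENNReal.ofReal_natCast, ← ENNReal.ofReal_mul (Nat.cast_nonneg _)]
  apply ENNReal.ofReal_le_ofReal
  have M0 : (0 : ℝ) < MM b N := by exact_mod_cast MM_pos b N
  have h1 : ((KK b f N).card : ℝ) * 2 ^ N ≤ MM b N := by exact_mod_cast card_KK h N
  have h2 : ((KK b f N).card : ℝ) ≤ (1 / 2) ^ N * MM b N := by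
    rw [one_div, inv_pow, inv_mul_eq_div, le_div_iff₀ (by positivity)]; exact h1
  calc _ ≤ (1 / 2) ^ N * MM b N * ((MM b N : ℝ)⁻¹ + 2 * δ) := by gcongr
    _ = _ := by field_simp

lemma vol_CC {b f : ℕ → ℕ} (h : ∀ N, f N < b N) : volume (CC b f) = 0 := by
  have h1 : ∀ N, volume (CC b f) ≤ ENNReal.ofReal ((1 / 2) ^ N) := by
    intro N
    have := vol_nbhd h N le_rfl
    simp only [sub_zero, add_zero, mul_zero, zero_mul, mul_one] at this
    refine le_trans (measure_mono fun t ht => ?_) this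
    obtain ⟨a, ha, hta⟩ := ht N
    exact mem_biUnion ha hta
  have h2 : Tendsto (fun N : ℕ => ENNReal.ofReal ((1 / 2 : ℝ) ^ N)) atTop (𝓝 (ENNReal.ofReal 0)) :=
    ENNReal.tendsto_ofReal (tendsto_pow_atTop_nhds_zero_of_lt_one (by norm_num) (by norm_num))
  simpa using ge_of_tendsto' h2 h1

open Classical in
lemma tag_sum {b f : ℕ → ℕ} (h : ∀ N, f N < b N) (N : ℕ) {δ : ℝ} (hδ : 0 ≤ δ) {n : ℕ} {p t : ℕ → ℝ}
    (hp : ∀ j < n, p j < p (j + 1) ∧ p (j + 1) - p j < δ ∧ t j ∈ Icc (p j) (p (j + 1))) :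
    ∑ j ∈ (Finset.range n).filter (fun j => t j ∈ CC b f), (p (j + 1) - p j) ≤
      (1 / 2) ^ N * (1 + 2 * δ * MM b N) := by
  have mono : ∀ i j, i ≤ j → j ≤ n → p i ≤ p j := by
    intro i j hij hj
    induction j, hij using Nat.le_induction with
    | base => exact le_rfl
    | succ j _ ih => exact (ih (by omega)).trans (hp j (by omega)).1.le
  have h1 := measure_biUnion_finset (μ := volume)
    (s := (Finset.range n).filter (fun j => t j ∈ CC b f)) (f := fun j => Ioc (p j) (p (j + 1)))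
    (fun i hi j hj hij => by
      simp only [Finset.coe_filter, Finset.mem_range, mem_ofPred_eq] at hi hj
      rcases lt_or_gt_of_ne hij with h | h
      · exact Ioc_disjoint_Ioc_of_le (mono _ _ h hj.1.le)
      · exact (Ioc_disjoint_Ioc_of_le (mono _ _ h hi.1.le)).symm)
    (fun _ _ => measurableSet_Ioc)
  simp only [Real.volume_Ioc] at h1
  rw [← ENNReal.ofReal_sum_of_nonneg (fun j hj =>
    sub_nonneg.2 (hp j (Finset.mem_range.1 (Finset.mem_filter.1 hj).1)).1.le)] at h1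
  rw [← ENNReal.ofReal_le_ofReal_iff (by positivity), ← h1]
  refine le_trans (measure_mono ?_) (vol_nbhd h N hδ)
  intro s hs
  simp only [mem_iUnion, Finset.mem_filter, Finset.mem_range] at hs
  obtain ⟨j, ⟨hj, hj2⟩, hs⟩ := hs
  obtain ⟨a, ha, hta⟩ := hj2 N
  obtain ⟨-, p2, p3⟩ := hp j hj
  exact mem_biUnion ha ⟨by linarith [hta.1, hs.1, p3.2], by linarith [hta.2, hs.2, p3.1]⟩

end Pool.Agent.H90.Wlp
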