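import Mathlib
import Pool.Agent.H90.WlpB
import Pool.Agent.H90.WlpC

namespace Pool.Agent.H90.Wlp

open Set MeasureTheory Filter Topology

lemma exists_b (B : ℕ → ℕ → ℕ) : ∃ b : ℕ → ℕ, ∀ N, b N = B N (MM b N) := by
  let M : ℕ → ℕ := fun N => Nat.rec 1 (fun N m => m * 2 ^ B N m) N
  have h : ∀ N, MM (fun N => B N (M N)) N = M N := by
    intro N
    induction N with
    | zero => rfl
    | succ N ih => simp only [MM, ih]; rfl
  exact ⟨fun N => B N (M N), fun N => by rw [h]⟩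

lemma nonnull {Γ : Type*} {g : Γ → ℝ} (hg : ¬ StrongNull (range g)) :
    ∃ (b : ℕ → ℕ) (d : Γ → ℕ → ℕ), (∀ γ N, d γ N < b N) ∧
      volume ((⋃ γ, CC b (d γ)) ∩ Icc 0 1) ≠ 0 := by
  classical
  obtain ⟨k, hk⟩ : ∃ k : ℕ, ¬ StrongNull (range g ∩ Icc (-k) k) := by
    by_contra hc
    push Not at hc
    refine hg fun ε hε => ?_
    obtain ⟨a, ha⟩ := sn_many hc ε hε
    refine ⟨a, fun x hx => ?_⟩
    obtain ⟨k, hk⟩ := exists_nat_ge |x|
    obtain ⟨n, -, hn⟩ := ha k x ⟨hx, abs_le.1 hk⟩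
    exact mem_iUnion.2 ⟨n, hn⟩
  unfold StrongNull at hk
  push Not at hk
  obtain ⟨ε, hε, hk⟩ := hk
  have hη : ∀ N h : ℕ, ∃ η : ℝ, 0 < η ∧ ∀ i < h, η ≤ ε (Nat.pair N i) := by
    intro N h
    induction h with
    | zero => exact ⟨1, one_pos, fun i hi => absurd hi (by omega)⟩
    | succ h ih =>
      obtain ⟨η, h1, h2⟩ := ih
      refine ⟨min η (ε (Nat.pair N h)), lt_min h1 (hε _), fun i hi => ?_⟩
      rcases Nat.lt_succ_iff_lt_or_eq.1 hi with h3 | rfl
      · exact (min_le_left _ _).trans (h2 i h3)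
      · exact min_le_right _ _
  choose η η0 η1 using hη
  obtain ⟨b, hb⟩ := exists_b fun N m => ⌊2 * k / η N (m * (N + 2))⌋₊ + 1
  let θ : ℕ → ℝ := fun N => η N (MM b N * (N + 2))
  let d : Γ → ℕ → ℕ := fun γ N => if g γ ∈ Icc (-k : ℝ) k then ⌊(g γ + k) / θ N⌋₊ else 0
  have hd : ∀ γ N, d γ N < b N := by
    intro γ N
    rw [hb]
    simp only [d]
    split_ifs with h
    · apply Nat.lt_succ_of_le
      apply Nat.floor_le_floor
      exact div_le_div_of_nonneg_right (by linarith [h.2]) (η0 _ _).le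
    · omega
  refine ⟨b, d, hd, fun h0 => ?_⟩
  obtain ⟨U, hU1, hU2, hU3⟩ := Set.exists_isOpen_lt_of_lt (μ := volume)
    ((⋃ γ, CC b (d γ)) ∩ Icc 0 1) (ENNReal.ofReal (1 / 2)) (by rw [h0]; simp)
  have hP : 1 / 2 ≤ volume.real ((Uᶜ ∩ Icc 0 1) ∩ Icc (0 : ℝ) 1) := by
    have a1 : volume.real (Icc (0 : ℝ) 1) ≤ volume.real (U ∪ (Uᶜ ∩ Icc 0 1) ∩ Icc (0 : ℝ) 1) := by
      apply measureReal_mono
      · intro t ht
        by_cases h : t ∈ U
        · exact Or.inl h
        · exact Or.inr ⟨⟨h, ht⟩, ht⟩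
      · refine ((measure_union_le _ _).trans_lt (ENNReal.add_lt_top.2 ⟨hU3.trans ENNReal.ofReal_lt_top,
          (measure_mono inter_subset_right).trans_lt (by simp)⟩)).ne
    have a2 := a1.trans (measureReal_union_le _ _)
    have a3 : volume.real U ≤ 1 / 2 := ENNReal.toReal_le_of_le_ofReal (by norm_num) hU3.le
    simp only [Real.volume_real_Icc] at a2
    norm_num at a2
    linarith
  obtain ⟨Φ, Φ1, Φ2⟩ := capture b (hU2.isClosed_compl.inter isClosed_Icc) hP
  refine hk (fun n => -k + ((Φ n.unpair.1).toList.getD n.unpair.2 0 : ℕ) * θ n.unpair.1) ?_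
  rintro _ ⟨⟨γ, rfl⟩, hγ⟩
  obtain ⟨N, hN⟩ := Φ2 (d γ) (hd γ) (by
    rw [eq_empty_iff_forall_notMem]
    rintro t ⟨t1, t2, t3⟩
    exact t2 (hU1 ⟨mem_iUnion.2 ⟨γ, t1⟩, t3⟩))
  obtain ⟨i, hi, hi2⟩ := List.getElem_of_mem (Finset.mem_toList.2 hN)
  refine mem_iUnion.2 ⟨Nat.pair N i, ?_⟩
  simp only [Nat.unpair_pair]
  rw [List.getD_eq_getElem _ _ hi, hi2]
  have hi3 : i < MM b N * (N + 2) := by
    rw [Finset.length_toList] at hi
    exact hi.trans_le (Φ1 N)
  have t0 : 0 < θ N := η0 _ _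
  have t1 : θ N ≤ ε (Nat.pair N i) := η1 _ _ i hi3
  have a0 : 0 ≤ (g γ + k) / θ N := div_nonneg (by linarith [hγ.1]) t0.le
  have a1 := Nat.floor_le a0
  have a2 := Nat.lt_floor_add_one ((g γ + k) / θ N)
  rw [le_div_iff₀ t0] at a1
  rw [div_lt_iff₀ t0] at a2
  simp only [d, if_pos hγ]
  constructor <;> linarith

theorem not_wlp {Γ : Type*} {g : Γ → ℝ} (hg : ¬ StrongNull (range g)) :
    ¬ WLP (lp (fun _ : Γ => ℝ) 2) := by
  classical
  obtain ⟨b, d, hd, hA⟩ := nonnull hg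
  have hne : Nonempty Γ := by
    by_contra h
    rw [not_nonempty_iff] at h
    simp at hA
  have : ∀ t : ℝ, ∃ γ, t ∈ (⋃ γ, CC b (d γ)) → t ∈ CC b (d γ) := by
    intro t
    by_cases h : t ∈ (⋃ γ, CC b (d γ))
    · obtain ⟨γ, hγ⟩ := mem_iUnion.1 h
      exact ⟨γ, fun _ => hγ⟩
    · exact ⟨Classical.arbitrary Γ, fun h' => absurd h' h⟩
  choose c hc using this
  let e : Γ → lp (fun _ : Γ => ℝ) 2 := fun γ => lp.single 2 γ (1 : ℝ)
  let F : ℝ → lp (fun _ : Γ => ℝ) 2 := fun t => if t ∈ (⋃ γ, CC b (d γ)) then e (c t) else 0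
  have he : ∀ γ γ', inner ℝ (e γ) (e γ') = if γ = γ' then (1 : ℝ) else 0 := by
    intro γ γ'
    simp only [e]
    rw [lp.inner_single_left, lp.single_apply, Pi.single_apply]
    split_ifs <;> simp
  have h1 : ∀ γ t, t ∉ CC b (d γ) → inner ℝ (e γ) (F t) = (0 : ℝ) := by
    intro γ t ht
    simp only [F]
    split_ifs with h
    · rw [he, if_neg]
      rintro rfl
      exact ht (hc t h)
    · simp
  have h2 : ∀ s t, inner ℝ (F s) (F t) ≤ if t ∈ CC b (d (c s)) then (1 : ℝ) else 0 := by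
    intro s t
    by_cases hs : s ∈ (⋃ γ, CC b (d γ))
    · have : F s = e (c s) := if_pos hs
      rw [this]
      split_ifs with h
      · simp only [F]
        split_ifs
        · rw [he]; split_ifs <;> norm_num
        · simp
      · exact (h1 _ _ h).le
    · have : F s = 0 := if_neg hs
      rw [this, inner_zero_left]
      split_ifs <;> norm_num
  intro hW
  refine hA (measure_mono_null ?_ (hW F ⟨0, fun ε hε => ?_⟩))
  · rintro t ⟨ht, ht1⟩
    refine ⟨ht1, fun hw => ?_⟩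
    have a1 := (weak_iff F t).1 hw (innerSL ℝ (e (c t)))
    have a2 : inner ℝ (e (c t)) (F t) = (1 : ℝ) := by
      have : F t = e (c t) := if_pos ht
      rw [this, he, if_pos rfl]
    have a3 := Metric.continuousWithinAt_iff.1 a1 1 one_pos
    obtain ⟨δ, hδ, a3⟩ := a3
    have a4 : ∃ s ∈ Ioo (max (t - δ) 0) (min (t + δ) 1), s ∉ CC b (d (c t)) := by
      by_contra hcon
      push Not at hcon
      have := measure_mono_null (μ := volume) (show Ioo _ _ ⊆ _ from hcon) (vol_CC (hd (c t)))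
      rw [Real.volume_Ioo, ENNReal.ofReal_eq_zero, sub_nonpos, min_le_iff, le_max_iff,
        le_max_iff] at this
      rcases this with (h | h) | (h | h) <;> linarith [ht1.1, ht1.2]
    obtain ⟨s, ⟨s1, s2⟩, s3⟩ := a4
    rw [max_lt_iff] at s1
    rw [lt_min_iff] at s2
    have := a3 (x := s) ⟨s1.2.le, s2.2.le⟩ (by rw [Real.dist_eq, abs_lt]; constructor <;> linarith)
    simp only [innerSL_apply_apply, a2, h1 _ _ s3] at this
    simp at this
  · obtain ⟨N, hN⟩ := exists_pow_lt_of_lt_one (show 0 < ε ^ 2 / 3 by positivity)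
      (show (1 / 2 : ℝ) < 1 by norm_num)
    have M0 : (0 : ℝ) < MM b N := by exact_mod_cast MM_pos b N
    refine ⟨(MM b N : ℝ)⁻¹, by positivity, fun n p t p0 pn hp => ?_⟩
    rw [sub_zero]
    apply lt_of_pow_lt_pow_left₀ 2 hε.le
    rw [← real_inner_self_eq_norm_sq, sum_inner]
    have tot : ∑ j ∈ Finset.range n, (p (j + 1) - p j) = 1 := by
      rw [Finset.sum_range_sub, pn, p0, sub_zero]
    calc _ ≤ ∑ i ∈ Finset.range n, (p (i + 1) - p i) * ((1 / 2) ^ N * 3) := by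
          apply Finset.sum_le_sum
          intro i hi
          rw [real_inner_smul_left]
          apply mul_le_mul_of_nonneg_left _ (sub_nonneg.2 (hp i (Finset.mem_range.1 hi)).1.le)
          have := tag_sum (hd (c (t i))) N (δ := (MM b N : ℝ)⁻¹) (by positivity) hp
          rw [mul_assoc, inv_mul_cancel₀ M0.ne', Finset.sum_filter] at this
          refine le_trans ?_ (this.trans (le_of_eq (by norm_num)))
          rw [inner_sum]
          apply Finset.sum_le_sum
          intro j hj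
          rw [real_inner_smul_right]
          have := mul_le_mul_of_nonneg_left (h2 (t i) (t j))
            (sub_nonneg.2 (hp j (Finset.mem_range.1 hj)).1.le)
          simpa using this
      _ = (1 / 2) ^ N * 3 := by rw [← Finset.sum_mul, tot, one_mul]
      _ < ε ^ 2 := by linarith

theorem wlp_iff (Γ : Type*) : WLP (lp (fun _ : Γ => ℝ) 2) ↔ Cardinal.mk Γ < Cardinal.lift nonSN := by
  rw [lt_nonSN_iff]
  exact ⟨fun h g => by_contra fun hg => not_wlp hg h, wlp_of_small⟩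

end Pool.Agent.H90.Wlp
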