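import Mathlib

set_option autoImplicit false

namespace Pool.Agent.H90.WprProof

open scoped InnerProductSpace

lemma near_kernel {n m : ℕ} (hm : m < n) (p : Fin n) (τ : Fin m → Fin n)
    (hτ : ∀ k, k ≠ p → ∃ i, τ i = k) (w : Fin m → EuclideanSpace ℝ (Fin n)) (ε : ℝ)
    (hε : ε ^ 2 * n ≤ 1 / 2)
    (hw : ∀ i, ‖w i - EuclideanSpace.single (τ i) 1‖ ≤ ε) :
    ∃ u : EuclideanSpace ℝ (Fin n), (∀ i, ⟪u, w i⟫_ℝ = 0) ∧ 1 / 2 ≤ (u p) ^ 2 ∧
      ∀ k, k ≠ p → (u k) ^ 2 ≤ ε ^ 2 := by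
  let L : EuclideanSpace ℝ (Fin n) →ₗ[ℝ] (Fin m → ℝ) :=
    LinearMap.pi (fun i => (innerSL ℝ (w i)).toLinearMap)
  have hk : LinearMap.ker L ≠ ⊥ := LinearMap.ker_ne_bot_of_finrank_lt (by simpa using hm)
  obtain ⟨u0, hu0, hne⟩ := Submodule.exists_mem_ne_zero_of_ne_bot hk
  let u : EuclideanSpace ℝ (Fin n) := ‖u0‖⁻¹ • u0
  have hu : ‖u‖ = 1 := norm_smul_inv_norm hne
  have h0 : ∀ i, ⟪u, w i⟫_ℝ = 0 := fun i => by
    have : ⟪w i, u0⟫_ℝ = 0 := congrFun (LinearMap.mem_ker.1 hu0) i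
    simp only [u, inner_smul_left]
    rw [real_inner_comm, this, mul_zero]
  have h1 : ∀ k, k ≠ p → (u k) ^ 2 ≤ ε ^ 2 := fun k hk => by
    obtain ⟨i, rfl⟩ := hτ k hk
    have h2 := abs_real_inner_le_norm u (w i - EuclideanSpace.single (τ i) 1)
    rw [inner_sub_right, h0, hu, one_mul, EuclideanSpace.inner_single_right] at h2
    simp only [conj_trivial, one_mul, zero_sub, abs_neg] at h2
    exact sq_le_sq' (by linarith [neg_abs_le (u (τ i)), hw i]) (by linarith [le_abs_self (u (τ i)), hw i])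
  refine ⟨u, h0, ?_, h1⟩
  have h2 : ∑ k, (u k) ^ 2 = 1 := by
    have := EuclideanSpace.real_norm_sq_eq u
    rw [hu] at this
    linarith
  have h3 : ∑ k, (u k) ^ 2 ≤ ∑ k : Fin n, ((if k = p then (u p) ^ 2 else 0) + ε ^ 2) := by
    apply Finset.sum_le_sum
    intro k _
    by_cases hk : k = p
    · subst hk; simp; positivity
    · simp [hk, h1 k hk]
  rw [Finset.sum_add_distrib] at h3
  simp only [Finset.sum_ite_eq', Finset.mem_univ, if_true, Finset.sum_const, Finset.card_univ,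
    Fintype.card_fin, nsmul_eq_mul] at h3
  linarith

def tau (m : ℕ) (i : Fin (2 * (m + 2) - 2)) : Fin (m + 2) :=
  if h : (i : ℕ) < m + 1 then ⟨i + 1, by omega⟩
  else if (i : ℕ) = m + 1 then 0 else ⟨i - m, by omega⟩

theorem main (n : ℕ) (hn : 2 ≤ n) :
    ∃ b : Fin (2 * n - 2) → EuclideanSpace ℝ (Fin n),
      Submodule.span ℝ (Set.range b) = ⊤ ∧ ∃ ε > 0,
      ∀ w : Fin (2 * n - 2) → EuclideanSpace ℝ (Fin n), dist w b < ε →
        ∃ x y : EuclideanSpace ℝ (Fin n), (∀ i, |⟪x, w i⟫_ℝ| = |⟪y, w i⟫_ℝ|) ∧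
          ∃ k l, 0 < x k * y k ∧ x l * y l < 0 := by
  obtain ⟨m, rfl⟩ : ∃ m, n = m + 2 := ⟨n - 2, by omega⟩
  let j1 : Fin (m + 1) → Fin (2 * (m + 2) - 2) := fun j => ⟨j, by omega⟩
  let j2 : Fin (m + 1) → Fin (2 * (m + 2) - 2) := fun j => ⟨j + (m + 1), by omega⟩
  have t1 : ∀ k : Fin (m + 2), k ≠ 0 → ∃ i, tau m (j1 i) = k := fun k hk => by
    have : (k : ℕ) ≠ 0 := fun h => hk (Fin.ext h)
    refine ⟨⟨k - 1, by omega⟩, Fin.ext ?_⟩
    simp only [tau, j1]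
    rw [dif_pos (by omega)]
    simp only
    omega
  have t2 : ∀ k : Fin (m + 2), k ≠ 1 → ∃ i, tau m (j2 i) = k := fun k hk => by
    have : (k : ℕ) ≠ 1 := fun h => hk (Fin.ext h)
    by_cases h0 : (k : ℕ) = 0
    · refine ⟨0, Fin.ext ?_⟩
      simp [tau, j2, h0]
    · refine ⟨⟨k - 1, by omega⟩, Fin.ext ?_⟩
      simp only [tau, j2]
      rw [dif_neg (by omega), if_neg (by omega)]
      simp only
      omega
  refine ⟨fun i => EuclideanSpace.single (tau m i) 1, ?_, 1 / (2 * (m + 2)), by positivity, ?_⟩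
  · rw [eq_top_iff, ← (EuclideanSpace.basisFun (Fin (m + 2)) ℝ).toBasis.span_eq]
    apply Submodule.span_mono
    rintro _ ⟨k, rfl⟩
    by_cases hk : k = 0
    · obtain ⟨i, hi⟩ := t2 k (by rw [hk]; exact Fin.zero_ne_one)
      exact ⟨j2 i, by simp [hi]⟩
    · obtain ⟨i, hi⟩ := t1 k hk
      exact ⟨j1 i, by simp [hi]⟩
  · intro w hw
    have hw' : ∀ i, ‖w i - EuclideanSpace.single (tau m i) 1‖ ≤ 1 / (2 * (m + 2)) := fun i => by
      rw [← dist_eq_norm]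
      exact (dist_le_pi_dist w (fun i => EuclideanSpace.single (tau m i) (1 : ℝ)) i).trans hw.le
    have hm : (0 : ℝ) ≤ m := Nat.cast_nonneg m
    have hε : (1 / (2 * (m + 2)) : ℝ) ^ 2 * ((m + 2 : ℕ) : ℝ) ≤ 1 / 2 := by
      push_cast
      rw [div_pow, div_mul_eq_mul_div, div_le_div_iff₀ (by positivity) (by positivity)]
      nlinarith
    have hε2 : (1 / (2 * (m + 2)) : ℝ) ^ 2 < 1 / 2 := by
      rw [div_pow, div_lt_div_iff₀ (by positivity) (by positivity)]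
      nlinarith
    obtain ⟨u, hu1, hu2, hu3⟩ := near_kernel (Nat.lt_succ_self _) 0 (fun i => tau m (j1 i)) t1
      (fun i => w (j1 i)) _ hε (fun i => hw' _)
    obtain ⟨v, hv1, hv2, hv3⟩ := near_kernel (Nat.lt_succ_self _) 1 (fun i => tau m (j2 i)) t2
      (fun i => w (j2 i)) _ hε (fun i => hw' _)
    refine ⟨u + v, u - v, fun i => ?_, 0, 1, ?_, ?_⟩
    · rw [inner_add_left, inner_sub_left]
      by_cases hi : (i : ℕ) < m + 1
      · have : ⟪u, w i⟫_ℝ = 0 := hu1 ⟨i, hi⟩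
        rw [this]; simp
      · have h2 := hv1 ⟨i - (m + 1), by omega⟩
        have : j2 ⟨i - (m + 1), by omega⟩ = i := Fin.ext (by simp only [j2]; omega)
        rw [this] at h2
        rw [h2]; simp
    · have := hv3 0 Fin.zero_ne_one
      simp only [PiLp.add_apply, PiLp.sub_apply]
      nlinarith
    · have := hu3 1 Fin.zero_ne_one.symm
      simp only [PiLp.add_apply, PiLp.sub_apply]
      nlinarith

end Pool.Agent.H90.WprProof
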